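import Mathlib

/-! The parts of this file: AD.Defs, G3.Defs, G4.Z.CDefs, H23.Defs, LG.Defs, LH.Defs. -/

section

/-!
# AD Defs: charts of projective manifolds of dimension `d`, bivector forms

`X` is the cone (without `0`) over a smooth projective variety of dimension `d`, in `EN N = ℂ^(N+1)` with the Euclidean norm (`H14.PP.IsCone`).  The model space is `Vd d = Fin d → ℂ` with the
supremum norm.
-/

set_option autoImplicit false

open Topology Filter Metric

namespace Pool.Agent.AD

variable {N : ℕ}

/-- the model space -/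
abbrev Vd (d : ℕ) : Type := Fin d → ℂ

end Pool.Agent.AD

end

section

/-!
# G3 Defs: curves over arcs, symmetric differentials, the functional

`X` is the cone (without `0`) over a projective manifold, `u` a holomorphic map to `ℂ^(k+1) / Λ` (conventions of `TG.Defs`).

* `Cv X Λ u U F h`: `F` is a holomorphic curve in `X` over the set `U` (used for open sets), `h` a lift of `u ∘ F`.
* `SForm X Λ u m`: symmetric differentials of degree `m` on `{(x, y) : u x = y mod Λ}` with values in `O(-1)`.
* `PData`: finitely many symmetric differentials without common zeros outside `D`, quasi-periodic with respect to the weight `wt W y = ∑ |W i y|²`.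
* `PS`: the properties of the real valued function `p (x, v) = max_j |P_j (x, v)|` (metrics of `O(-1)` and of the weight) which are used in the sequel.
* `QD`: the form `Q`, of degree `d`, `|Q x| ≤ |x|^d` on `X`; `Lq Q d x = - log (|Q x| / |x|^d) ≥ 0`.
* `Np = max (0, log (|h'|^m / p (F, F')))`, `Lam = Lq + K Np`, `Mf = max (|h'|, ε p (F, F')^(1/m))`.  (If `h' = 0` then `Np = 0`.  These definitions are used only at
  points where `Ok` holds: `Q (F z) ≠ 0` and `0 < p (F z) (F' z)`.)
-/

set_option autoImplicit false

open Topology Filter Metric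

namespace Pool.Agent.G3

open Pool.Agent.AD (Vd)

variable {N k : ℕ}

/-- the weight `∑ |W i y|²` -/
noncomputable def wt {r : ℕ} (W : Fin r → Vd (k + 1) →L[ℂ] ℂ) (y : Vd (k + 1)) : ℝ := ∑ i, ‖W i y‖ ^ 2

end Pool.Agent.G3

end

section

/-!
# G4 Z CDefs: the data of block Z, any dimension

`Few Bad a`: the exact hits of `Bad` on the lines of direction `a` are few (density `0`, uniformly).
`Csf`: the finite set of the global sections, holomorphic off `D`, meromorphic everywhere (`mer`: a lift which is not identically `0`; no condition on lines).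
`JBw`: bounds for the integrals `JJ (α j)` along short paths in the fibres, with the same weight on both sides.
`Sit`: all data.  The other definitions (`Lim`, `Arr`, `gg`, `Crs`, `LCT`, `JBd`) are those of `G3/Z`.
-/

set_option autoImplicit false

open Topology Filter Metric

namespace Pool.Agent.G4

open Pool.Agent.AD (Vd)

variable {N k : ℕ}

/-- the exact hits of the lines of direction `a` with `Bad` are few -/
def Few (Bad : Set (Vd (k + 1))) (a : Vd (k + 1)) : Prop :=
  ∀ ε : ℝ, 0 < ε → ∃ C : ℝ, ∀ (y : Vd (k + 1)) (R : ℝ), 0 ≤ R → ∀ S : Finset ℂ, (∀ z ∈ S, ‖z‖ ≤ R ∧ y + z • a ∈ Bad) → (S.card : ℝ) ≤ ε * R ^ 2 + C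

end Pool.Agent.G4

end

section

/-!
# K-semistability of Fano varieties over the complex numbers: definitions

Smooth projective varieties with ample anticanonical divisor, pluri-anticanonical sections,
prime divisors over a variety, log discrepancies, the invariant `S`, and the valuative criterion
of Fujita and Li.
-/

open AlgebraicGeometry CategoryTheory MeasureTheory Filter
open scoped ENNReal

noncomputable section

namespace Pool.Agent.H23

/-! ## Birational algebra in a function field -/

section FunctionField

variable (K : Type) [Field K] [Algebra ℂ K] (n : ℕ)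

/-- Rational `n`-forms of the function field `K` over `ℂ`: the `K`-vector space `⋀ⁿ Ω_{K/ℂ}`. -/
abbrev RatForm : Type := ⋀[K]^n Ω[K⁄ℂ]

variable {K}

/-- The regular `n`-forms of a `ℂ`-subalgebra `A` of `K`, that is the image of
`⋀ⁿ Ω_{A/ℂ}` in `⋀ⁿ Ω_{K/ℂ}`: all finite sums of forms `c da₁ ∧ ⋯ ∧ daₙ` with
`c, a₁, …, aₙ ∈ A`. -/
def regularForms (A : Subalgebra ℂ K) : AddSubgroup (RatForm K n) :=
  AddSubgroup.closure {ω | ∃ (c : K) (a : Fin n → K), c ∈ A ∧ (∀ i, a i ∈ A) ∧
    ω = c • exteriorPower.ιMulti K n (fun i => KaehlerDifferential.D ℂ K (a i))}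

variable {ι : Type} (O : ι → Subalgebra ℂ K)

/-- Let `O x`, `x : ι`, be the local rings of a smooth variety `X` of dimension `n` with function
field `K`. A rational section of `-m K_X` is a function `φ` on rational `n`-forms with
`φ (g • ω) = g ^ m * φ ω`; it is regular at `x` if it takes the regular `n`-forms at `x` to
`O x`. This is the space `H⁰(X, -m K_X)` of everywhere regular sections. -/
def antiSections (m : ℕ) : Submodule ℂ (RatForm K n → K) where
  carrier := {φ | (∀ (g : K) (ω : RatForm K n), φ (g • ω) = g ^ m * φ ω) ∧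
    ∀ x, ∀ ω ∈ regularForms n (O x), φ ω ∈ O x}
  add_mem' := by
    rintro φ ψ ⟨h1, h2⟩ ⟨h3, h4⟩
    refine ⟨fun g ω => ?_, fun x ω hω => ?_⟩
    · simp only [Pi.add_apply, h1, h3, mul_add]
    · exact (O x).add_mem (h2 x ω hω) (h4 x ω hω)
  zero_mem' := ⟨fun g ω => by simp, fun x ω _ => (O x).zero_mem⟩
  smul_mem' := by
    rintro c φ ⟨h1, h2⟩
    refine ⟨fun g ω => ?_, fun x ω hω => ?_⟩
    · simp only [Pi.smul_apply, h1, mul_smul_comm]
    · exact (O x).smul_mem (h2 x ω hω) c

/-- The valuation ring of a valuation which is trivial on `ℂ`. -/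
def valRing (v : AddValuation K (WithTop ℤ)) (hv : ∀ c : ℂ, 0 ≤ v (algebraMap ℂ K c)) :
    Subalgebra ℂ K where
  carrier := {f | 0 ≤ v f}
  mul_mem' := fun {a b} ha hb => by
    simp only [Set.mem_ofPred_eq, AddValuation.map_mul] at *
    exact add_nonneg ha hb
  add_mem' := fun {a b} ha hb => by
    simp only [Set.mem_ofPred_eq] at *
    exact le_trans (le_min ha hb) (v.map_add a b)
  algebraMap_mem' := hv

variable (K) in
/-- A prime divisor over a variety of dimension `n` with function field `K`, given by its order
function: a discrete valuation of `K`, normalised to have value group `ℤ`, trivial on `ℂ`, whose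
residue field has transcendence degree `n - 1` over `ℂ` (that is, there are `n - 1` elements of
the valuation ring whose residue classes are algebraically independent over `ℂ`). -/
structure PrimeDivisorOver where
  /-- the order of vanishing along the divisor -/
  ord : AddValuation K (WithTop ℤ)
  ord_const : ∀ c : ℂ, 0 ≤ ord (algebraMap ℂ K c)
  exists_uniformizer : ∃ t : K, ord t = 1
  residue_trdeg : ∃ s : Fin (n - 1) → K, (∀ i, 0 ≤ ord (s i)) ∧
    ∀ p : MvPolynomial (Fin (n - 1)) ℂ, p ≠ 0 → ord (MvPolynomial.aeval s p) = 0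

variable {n}

/-- The local ring of the generic point of a prime divisor over `X`. -/
def PrimeDivisorOver.localRing (E : PrimeDivisorOver K n) : Subalgebra ℂ K :=
  valRing E.ord E.ord_const

variable (n)

end FunctionField

/-! ## Varieties -/

section Scheme

variable {X : Scheme.{0}} (s : X ⟶ Spec (.of ℂ)) [IsIntegral X]

/-- The function field of a complex variety is a `ℂ`-algebra. -/
@[reducible]
def functionFieldAlgebra : Algebra ℂ X.functionField :=
  RingHom.toAlgebra ((Scheme.ΓSpecIso (.of ℂ)).inv ≫ s.appTop ≫
    X.presheaf.germ ⊤ (genericPoint X) (TopologicalSpace.Opens.mem_top _)).hom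

/-- The local ring of a complex variety at a point, as a subalgebra of the function field. -/
def localRingAt (x : X) :
    letI := functionFieldAlgebra s
    Subalgebra ℂ X.functionField :=
  letI := functionFieldAlgebra s
  { (algebraMap (X.presheaf.stalk x) X.functionField).range with
    algebraMap_mem' := fun c => by
      refine ⟨((Scheme.ΓSpecIso (.of ℂ)).inv ≫ s.appTop ≫
        X.presheaf.germ ⊤ x (TopologicalSpace.Opens.mem_top _)).hom c, ?_⟩
      change (((Scheme.ΓSpecIso (.of ℂ)).inv ≫ s.appTop ≫
        X.presheaf.germ ⊤ x (TopologicalSpace.Opens.mem_top _)) ≫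
          X.presheaf.stalkSpecializes ((genericPoint_spec X).specializes trivial)).hom c =
        ((Scheme.ΓSpecIso (.of ℂ)).inv ≫ s.appTop ≫
          X.presheaf.germ ⊤ (genericPoint X) (TopologicalSpace.Opens.mem_top _)).hom c
      rw [Category.assoc, Category.assoc, X.presheaf.germ_stalkSpecializes] }

/-- `-K_X` is ample: every point of `X` has an open affine neighbourhood of the form
`X_φ = {y | φ generates the sheaf of sections of -m K_X at y}` with `m ≥ 1` and
`φ ∈ H⁰(X, -m K_X)`. -/
def AntiAmple (n : ℕ) : Prop :=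
  letI := functionFieldAlgebra s
  ∀ x : X, ∃ m : ℕ, 1 ≤ m ∧ ∃ φ ∈ antiSections n (localRingAt s) m, ∃ U : X.Opens,
    IsAffineOpen U ∧ x ∈ U ∧ ∀ y : X, y ∈ U ↔
      ∃ ω ∈ regularForms n (localRingAt s y), φ ω ≠ 0 ∧ (φ ω)⁻¹ ∈ localRingAt s y

end Scheme

/-- A Fano variety of dimension `n` over `ℂ`: a smooth projective variety of dimension `n` with
ample anticanonical divisor. -/
structure FanoVariety (n : ℕ) where
  /-- the underlying scheme -/
  X : Scheme.{0}
  /-- the structure morphism -/
  str : X ⟶ Spec (.of ℂ)
  [integral : IsIntegral X]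
  proper : IsProper str
  smooth : SmoothOfRelativeDimension n str
  ample : AntiAmple str n


end Pool.Agent.H23

end
end

section

/-!
# LG Defs: orders of functions and forms, and the data on the function field

`K` is the function field of a variety of dimension `k + 1`.

* `wd η = η₁ ∧ … ∧ ηₙ`, `dd a = da`, `sn x y = (x₁, …, x_k, y)`.
* `IV v`: `v` is an integer valued valuation, trivial on `ℂ` (the value at `0` is junk, all statements are for nonzero elements).
* `FV v o`: in addition `o` is the order of rational top forms along the divisor.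
* `Dat`: rational functions `X b` (`b ∈ ι`; the homogeneous coordinates of the map to the torus), differentials `δ i` (the forms `dz_i` of the torus), a function `w` (the map to `ℙ¹`), and the coefficients
  `X (cf i)` of the polynomial `S.P` (the equation of the boundary), `S.F = S.P (w)`.
* `Chart S E c`: at the divisor `E` the function `X c` has the smallest order, and the `δ i` are regular combinations of the `d (X b / X c)`.  `CH S v c`: the same for an integer valued valuation.
-/

set_option autoImplicit false

open MvPolynomial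
open Pool.Agent.H23 (RatForm regularForms PrimeDivisorOver)

noncomputable section

namespace Pool.Agent.LG

variable {K : Type} [Field K] [Algebra ℂ K] {k n : ℕ}

/-- the differential of a function -/
abbrev dd (a : K) : Ω[K⁄ℂ] := KaehlerDifferential.D ℂ K a

/-- the exterior product of differentials -/
def wd (η : Fin n → Ω[K⁄ℂ]) : RatForm K n := exteriorPower.ιMulti K n η

/-- an integer valued valuation which is trivial on `ℂ` (the value at `0` is not used) -/
structure IV (L : Type) [Field L] [Algebra ℂ L] (v : L → ℤ) : Prop where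
  mul : ∀ {a b : L}, a ≠ 0 → b ≠ 0 → v (a * b) = v a + v b
  add : ∀ {a b : L}, a ≠ 0 → b ≠ 0 → a + b ≠ 0 → min (v a) (v b) ≤ v (a + b)
  const : ∀ c : ℂ, c ≠ 0 → v (algebraMap ℂ L c) = 0

/-- the orders of functions and of top forms along a prime divisor -/
structure FV (n : ℕ) (v : K → ℤ) (o : RatForm K n → ℤ) : Prop extends IV K v where
  smul : ∀ {c : K} {ω : RatForm K n}, c ≠ 0 → ω ≠ 0 → o (c • ω) = v c + o ω
  addf : ∀ {ω ω' : RatForm K n}, ω ≠ 0 → ω' ≠ 0 → ω + ω' ≠ 0 → min (o ω) (o ω') ≤ o (ω + ω')
  /-- `da₁ ∧ … ∧ daₙ` divided by `a₁ … aₙ` has at most a simple pole -/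
  log : ∀ a : Fin n → K, (∀ i, a i ≠ 0) → wd (fun i => dd (a i)) ≠ 0 → ∑ i, v (a i) ≤ o (wd fun i => dd (a i)) + 1
  reg : ∀ a : Fin n → K, (∀ i, a i ≠ 0 → 0 ≤ v (a i)) → wd (fun i => dd (a i)) ≠ 0 → 0 ≤ o (wd fun i => dd (a i))

variable {ι : Type} {D : ℕ}

end Pool.Agent.LG

end
end

section

/-!
# LH Defs: the data on the function field for complements of hypersurfaces of `A × ℙ^m`

`K` is the function field of a variety `Z` with a map `(u, v)` to `A × ℙ^m`.

* `X b`, `δ i`: the functions and the differentials of the base `A` (as in `LG`); `S.AL x`: `x` is algebraic over `ℂ(X)`.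
* `V l`: homogeneous coordinates of the map to `ℙ^m`; `S.mon β` is the monomial with exponent `β`.
* `F j`: the equations of the divisors `D_j`, all of the same degree `d` in `V`; `Y j s`, `s ∈ σ`: local generators of the line bundles of the `F j` on the base, as functions.
* `CH S d v c l z`: at the valuation `v` the function `X c` has the smallest order and the `δ i` are regular combinations of the `d (X b / X c)`; `V l` has the smallest order; `Y j (z j)` generates the line bundle of `F j`.
* `GP`: general position of the `F i`, `i ∈ I`.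
* `W J i₀ I`: the form `δ_J ∧ dlog (F (I 1) / F i₀) ∧ ⋯`; `Ps x r = dx ∧ dlog r`.
-/

set_option autoImplicit false

open MvPolynomial
open Pool.Agent.H23 (RatForm PrimeDivisorOver)
open Pool.Agent.LG (dd wd IV FV)

noncomputable section

namespace Pool.Agent.LH

variable {K : Type} [Field K] [Algebra ℂ K] {ι σ : Type} {k n m q p f : ℕ}

/-- the data on the function field -/
structure Dat (K : Type) [Field K] [Algebra ℂ K] (ι σ : Type) (n m q : ℕ) where
  X : ι → K
  δ : Fin n → Ω[K⁄ℂ]
  V : Fin (m + 1) → K
  F : Fin q → K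
  Y : Fin q → σ → K

/-- `x` is algebraic over the function field of the base -/
def Dat.AL (S : Dat K ι σ n m q) (x : K) : Prop := IsAlgebraic (IntermediateField.adjoin ℂ (Set.range S.X)) x

/-- the monomial with exponent `β` in the coordinates -/
def Dat.mon (S : Dat K ι σ n m q) (β : Fin (m + 1) →₀ ℕ) : K := ∏ l, S.V l ^ β l

/-- general position of the `F i`, `i ∈ I`: all monomials of degree `N + d` are in the ideal -/
def Dat.GP (S : Dat K ι σ n m q) (d : ℕ) (I : Finset (Fin q)) : Prop :=
  ∃ N : ℕ, ∀ β : Fin (m + 1) →₀ ℕ, ∑ l, β l = N + d → ∃ C : Fin q → MvPolynomial (Fin (m + 1)) K, (∀ i, (C i).IsHomogeneous N) ∧ (∀ i γ, S.AL ((C i).coeff γ)) ∧ S.mon β = ∑ i ∈ I, eval S.V (C i) * S.F i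

/-- a chart at an integer valued valuation -/
structure CH [Fintype ι] (S : Dat K ι σ n m q) (d : ℕ) (v : K → ℤ) (c : ι) (l : Fin (m + 1)) (z : Fin q → σ) : Prop where
  Xne : S.X c ≠ 0
  Xle : ∀ b, S.X b ≠ 0 → v (S.X c) ≤ v (S.X b)
  Vne : S.V l ≠ 0
  Vle : ∀ l', S.V l' ≠ 0 → v (S.V l) ≤ v (S.V l')
  Yne : ∀ j, S.Y j (z j) ≠ 0
  Fle : ∀ j, v (S.Y j (z j)) + d * v (S.V l) ≤ v (S.F j)
  mat : ∃ M : Fin n → ι → K, (∀ i b, M i b ≠ 0 → 0 ≤ v (M i b)) ∧ ∀ i, S.δ i = ∑ b, M i b • dd (S.X b / S.X c)

/-- the properties of the data which do not depend on a divisor -/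
structure Dat.Base (S : Dat K ι σ n m q) (d : ℕ) : Prop where
  one : ∃ a, S.X a = 1
  V_ne : ∃ l, S.V l ≠ 0
  F_ne : ∀ j, S.F j ≠ 0
  Y_alg : ∀ j s, S.AL (S.Y j s)
  gp : ∀ I : Finset (Fin q), I.card = m + 1 → S.GP d I
  alg : Algebra.IsAlgebraic (IntermediateField.adjoin ℂ (Set.range S.X ∪ {y | ∃ l l', y = S.V l / S.V l'})) K
  span : ∀ a, dd (S.X a) ∈ Submodule.span K (Set.range S.δ)

/-- the logarithmic differential -/
def dlog (a : K) : Ω[K⁄ℂ] := a⁻¹ • dd a

/-- `δ_J ∧ dlog (F (I 1) / F i₀) ∧ ⋯` -/
def Dat.W (S : Dat K ι σ n m q) (J : Fin p → Fin n) (i₀ : Fin q) (I : Fin f → Fin q) : RatForm K (p + f) :=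
  wd (Fin.append (fun t => S.δ (J t)) (fun t => dlog (S.F (I t) / S.F i₀)))

/-- `dx ∧ dlog r` -/
def Ps (x : Fin p → K) (r : Fin f → K) : RatForm K (p + f) := wd (Fin.append (fun t => dd (x t)) (fun t => dlog (r t)))

/-- the `δ (J t)` are a basis of the differentials of the base -/
structure Dat.Bas (S : Dat K ι σ n m q) (J : Fin p → Fin n) : Prop where
  ind : LinearIndependent K (fun t => S.δ (J t))
  span : ∀ i, S.δ i ∈ Submodule.span K (Set.range fun t => S.δ (J t))

end Pool.Agent.LH

end
end
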