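import Pool.Agent.H94.PX4.H14.PP.Defs
import Pool.Agent.H94.PX4.M01
import Pool.Agent.H94.PX4.M03
import Pool.Agent.H94.PX4.M19

/-! The parts of this file: TG.Defs, PX.Defs. -/

section

/-!
# TG Defs: projective manifolds of dimension `k + 2` over complex tori of dimension `k + 1`, arbitrary singular fibres

`X` is the cone (without `0`) over a projective manifold of dimension `k + 2`, `u` a holomorphic map to `ℂ^(k+1) / Λ` (a function `u : EN N → Vd (k+1)`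
which is holomorphic modulo `Λ`).  `D ⊆ ℂ^(k+1)` is the set of the bad values (closed, `Λ`-invariant, contained in hypersurfaces), `B ⊆ D` the set of the
very bad values, which almost every line avoids.  Over `D \ B` the map `u` is `(x^a y^b, s)` in suitable coordinates.  Charts are `AD.Chart (k + 2) X`
(polydisc of radius `2` for the sup norm); the coordinate `0` is the coordinate along the fibres, the others (`tl p`) those of the base.
All norms and balls in `Vd (k+1)` are for the sup norm.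
-/

set_option autoImplicit false

open Topology Filter Metric

namespace Pool.Agent.TG

open Pool.Agent.H36.BP (EN fs wd)
open Pool.Agent.H14.PP (IsCone CurveAt Tan)
open Pool.Agent.H62.EF (MN pr)
open Pool.Agent.AD (Vd)

variable {N k : ℕ}

/-- `Λ` is a lattice -/
structure Lat (Λ : AddSubgroup (Vd (k + 1))) : Prop where
  disc : ∃ δ : ℝ, 0 < δ ∧ ∀ l ∈ Λ, ‖l‖ < δ → l = 0
  cpt : ∃ R : ℝ, 0 < R ∧ ∀ y : Vd (k + 1), ∃ l ∈ Λ, ‖y - l‖ ≤ R

/-- a holomorphic `(k+2)`-form on `{(x, y) : u x = y mod Λ}` -/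
structure VForm (X : Set (EN N)) (Λ : AddSubgroup (Vd (k + 1))) (u : EN N → Vd (k + 1)) where
  /-- the form: `toFun y x v` for `u x = y mod Λ` and `k + 2` tangent vectors `v` at `x` -/
  toFun : Vd (k + 1) → EN N → (Fin (k + 2) → EN N) → ℂ
  add_smul : ∀ y, ∀ x ∈ X, u x - y ∈ Λ → ∀ v : Fin (k + 2) → EN N, (∀ i, Tan X x (v i)) → ∀ a : Fin (k + 2) → ℂ,
    toFun y x (fun i => v i + a i • x) = toFun y x v
  det : ∀ y, ∀ x ∈ X, u x - y ∈ Λ → ∀ v : Fin (k + 2) → EN N, (∀ i, Tan X x (v i)) → ∀ A : Matrix (Fin (k + 2)) (Fin (k + 2)) ℂ,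
    toFun y x (fun i => ∑ j, A i j • v j) = A.det * toFun y x v
  scale : ∀ y, ∀ x ∈ X, u x - y ∈ Λ → ∀ v : Fin (k + 2) → EN N, (∀ i, Tan X x (v i)) → ∀ c : ℂ, c ≠ 0 →
    toFun y (c • x) (fun i => c • v i) = toFun y x v
  analytic : ∀ (φ : Vd (k + 2) → EN N) (υ : Vd (k + 2) → Vd (k + 1)) (p : Vd (k + 2)), AnalyticAt ℂ φ p → AnalyticAt ℂ υ p →
    (∀ᶠ q in 𝓝 p, φ q ∈ X ∧ u (φ q) - υ q ∈ Λ) →
    AnalyticAt ℂ (fun q => toFun (υ q) (φ q) fun i => fderiv ℂ φ q (Pi.single i 1)) p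

variable {X : Set (EN N)} {Λ : AddSubgroup (Vd (k + 1))} {u : EN N → Vd (k + 1)}

/-- the zeros of the form -/
def Zr (α : VForm X Λ u) (y : Vd (k + 1)) (m : MN N) : Prop :=
  ∃ x ∈ X, pr x = m ∧ u x - y ∈ Λ ∧ ∀ v : Fin (k + 2) → EN N, (∀ i, Tan X x (v i)) → α.toFun y x v = 0

end Pool.Agent.TG

end

section

/-!
# PX Defs: complements in `A × ℙ¹`

`A = ℂ^(k+1) / Λ` is a complex torus.  `Fo θ y x = ∑ θ_i(y) x_0^i x_1^(d-i)` is a binary form of degree `d` whose coefficients are entire functions of `y`, quasi-periodic with a common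
factor of the (positive definite) weight `wt W`.  `E = {Fo = 0}`, `U` its complement in `A × ℙ¹`.  Curves in `U` are given by `h : ℂ → Vd (k+1)` and a lift `w : ℂ → EN 1` of the `ℙ¹`-component
(`Cp`).  `D` is a closed `Λ`-invariant set outside which the form has only simple roots; all lines meet `D` in isolated points; `Bad a` is the set of the bad points of `D` for the
direction `a`: at the other points of `D` the set `D` is a smooth hypersurface, transversal to `a`, and the form is not `0`; there are few bad hits (`Few`).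
-/

set_option autoImplicit false

open Topology Filter Metric

namespace Pool.Agent.PX

open Pool.Agent.H36.BP (EN fs wd)
open Pool.Agent.H62.EF (MN pr)
open Pool.Agent.AD (Vd)
open Pool.Agent.TG (Lat)
open Pool.Agent.G3 (wt)
open Pool.Agent.G4 (Few)

variable {k d r : ℕ}

/-- the binary form `∑ θ_i(y) x_0^i x_1^(d-i)` -/
noncomputable def Fo (θ : Fin (d + 1) → Vd (k + 1) → ℂ) (y : Vd (k + 1)) (x : EN 1) : ℂ := ∑ i : Fin (d + 1), θ i y * x 0 ^ (i : ℕ) * x 1 ^ (d - (i : ℕ))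

/-- the derivative of the form at `x` in the direction `v` -/
noncomputable def Fd (θ : Fin (d + 1) → Vd (k + 1) → ℂ) (y : Vd (k + 1)) (x v : EN 1) : ℂ := fderiv ℂ (Fo θ y) x v

/-- the determinant of two vectors -/
def dt (x v : EN 1) : ℂ := x 0 * v 1 - x 1 * v 0

/-- the data -/
structure PD (Λ : AddSubgroup (Vd (k + 1))) (D : Set (Vd (k + 1))) (Bad : Vd (k + 1) → Set (Vd (k + 1))) (θ : Fin (d + 1) → Vd (k + 1) → ℂ)
    (W : Fin r → Vd (k + 1) →L[ℂ] ℂ) : Prop where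
  lat : Lat Λ
  deg : 3 ≤ d
  an : ∀ i, Differentiable ℂ (θ i)
  per : ∀ l ∈ Λ, ∀ y, ∃ e : ℂ, ‖e‖ * Real.exp (-wt W (y + l)) = Real.exp (-wt W y) ∧ ∀ i, θ i (y + l) = e * θ i y
  pos : ∀ y, (∀ i, W i y = 0) → y = 0
  D_closed : IsClosed D
  D_inv : ∀ y ∈ D, ∀ l ∈ Λ, y + l ∈ D
  /-- outside `D` the roots are simple -/
  simple : ∀ y ∉ D, ∀ x : EN 1, x ≠ 0 → Fo θ y x = 0 → ∃ v, Fd θ y x v ≠ 0
  /-- the lines meet `D` in isolated points -/
  iso : ∀ a : Vd (k + 1), a ≠ 0 → ∀ y : Vd (k + 1), ∀ᶠ z in 𝓝[≠] (0 : ℂ), y + z • a ∉ D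
  bad_sub : ∀ a, Bad a ⊆ D
  bad_inv : ∀ a, ∀ β ∈ Bad a, ∀ l ∈ Λ, β + l ∈ Bad a
  few : ∀ a : Vd (k + 1), a ≠ 0 → Few (Bad a) a
  /-- at the good points of `D` the set `D` is smooth and transversal to `a` -/
  good : ∀ a : Vd (k + 1), a ≠ 0 → ∀ p ∈ D, p ∉ Bad a → ∃ s : Vd (k + 1) → ℂ, AnalyticAt ℂ s p ∧ (∀ᶠ y in 𝓝 p, (y ∈ D ↔ s y = 0)) ∧ fderiv ℂ s p a ≠ 0
  /-- at the good points the form is not `0`, or it is `0` at all points of `D` near the point -/
  form : ∀ a : Vd (k + 1), a ≠ 0 → ∀ p ∉ Bad a, (∃ i, θ i p ≠ 0) ∨ (p ∈ D ∧ ∀ᶠ y in 𝓝 p, y ∈ D → ∀ i, θ i y = 0)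

/-- the norm of the form in the metrics -/
noncomputable def qf (θ : Fin (d + 1) → Vd (k + 1) → ℂ) (W : Fin r → Vd (k + 1) →L[ℂ] ℂ) (y : Vd (k + 1)) (x : EN 1) : ℝ :=
  ‖Fo θ y x‖ * Real.exp (-wt W y) / ‖x‖ ^ d

end Pool.Agent.PX

end
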