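import Pool.Agent.H94.PX4.M09
import Pool.Agent.H94.PX4.M20
import Pool.Agent.H94.PX4.M29

/-! The parts of this file: G3.LLift, H62.FC.Nev0_1, HE.Defs, TG.SmA. -/

section

/-!
# G3 LLift: local lifts of maps to the projective space
-/

set_option autoImplicit false

open Topology Filter Metric

namespace Pool.Agent.G3

open Pool.Agent.H36.BP (EN fs wd)
open Pool.Agent.H62.EF (MN pr)

/-- `f` has a holomorphic lift near `z` -/
def LLift {N : ℕ} (f : ℂ → MN N) (z : ℂ) : Prop := ∃ Φ : ℂ → EN N, AnalyticAt ℂ Φ z ∧ ∀ᶠ w in 𝓝 z, Φ w ≠ 0 ∧ f w = pr (Φ w)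

end Pool.Agent.G3

end

section

/-!
# Nevanlinna theory at a puncture: counting functions and the first main theorem
-/

noncomputable section

namespace Pool.Agent.H62.FC

open Filter Topology MeasureTheory
open Pool.Agent.H92.GGL (ordZ finite_ordZ jensen_punctured)

variable {R₀ R₁ : ℝ}

private theorem Nev0_exists2 {w w' : ℂ → ℝ} (h : R₁ < R₀) (hw : LocFin R₀ w)
    (hw' : LocFin R₀ w') {r : ℝ} (hr : 0 < r) :
    ∃ T : Finset ℂ, (∀ s, r < ‖s‖ → ‖s‖ < R₁ → w s ≠ 0 → s ∈ T) ∧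
      ∀ s, r < ‖s‖ → ‖s‖ < R₁ → w' s ≠ 0 → s ∈ T := by
  classical
  obtain ⟨T, hT⟩ := Nev0_exists h hw hr
  obtain ⟨T', hT'⟩ := Nev0_exists h hw' hr
  exact ⟨T ∪ T', fun s h1 h2 h3 => Finset.mem_union_left _ (hT s h1 h2 h3),
    fun s h1 h2 h3 => Finset.mem_union_right _ (hT' s h1 h2 h3)⟩

theorem cnt_add {w w' : ℂ → ℝ} (h : R₁ < R₀) (hw : LocFin R₀ w) (hw' : LocFin R₀ w') {r : ℝ}
    (hr : 0 < r) : cnt (fun s => w s + w' s) R₁ r = cnt w R₁ r + cnt w' R₁ r := by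
  obtain ⟨T, hT, hT'⟩ := Nev0_exists2 h hw hw' hr
  rw [cnt_eq_sum hT hr, cnt_eq_sum hT' hr, cnt_eq_sum (w := fun s => w s + w' s) (T := T) ?_ hr,
    ← Finset.sum_add_distrib]
  · exact Finset.sum_congr rfl fun s _ => add_mul _ _ _
  · intro s h1 h2 h3
    by_cases h4 : w s = 0
    · refine hT' s h1 h2 fun h5 => h3 ?_
      rw [h4, h5, add_zero]
    · exact hT s h1 h2 h4

theorem cnt_mul {w : ℂ → ℝ} (c : ℝ) {r : ℝ} (h : R₁ < R₀) (hw : LocFin R₀ w) (hr : 0 < r) :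
    cnt (fun s => c * w s) R₁ r = c * cnt w R₁ r := by
  obtain ⟨T, hT⟩ := Nev0_exists h hw hr
  rw [cnt_eq_sum hT hr, cnt_eq_sum (w := fun s => c * w s) (T := T) ?_ hr, Finset.mul_sum]
  · exact Finset.sum_congr rfl fun s _ => mul_assoc _ _ _
  · intro s h1 h2 h3
    refine hT s h1 h2 fun h4 => h3 ?_
    rw [h4, mul_zero]

theorem cnt_mono {w w' : ℂ → ℝ} (h : R₁ < R₀) (hw : LocFin R₀ w) (hw' : LocFin R₀ w') {r : ℝ}
    (hr : 0 < r) (hle : ∀ s, r < ‖s‖ → ‖s‖ < R₁ → w s ≤ w' s) : cnt w R₁ r ≤ cnt w' R₁ r := by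
  obtain ⟨T, hT, hT'⟩ := Nev0_exists2 h hw hw' hr
  rw [cnt_eq_sum hT hr, cnt_eq_sum hT' hr]
  refine Finset.sum_le_sum fun s hs => ?_
  obtain ⟨_, h1, h2⟩ := Finset.mem_filter.mp hs
  refine mul_le_mul_of_nonneg_right (hle s h1 h2) (Real.log_nonneg ?_)
  rw [one_le_div hr]
  exact h1.le

theorem cnt_nonneg {w : ℂ → ℝ} {r : ℝ} (hr : 0 < r) (hw : ∀ s, 0 ≤ w s) : 0 ≤ cnt w R₁ r := by
  unfold cnt
  refine finsum_nonneg fun s => finsum_nonneg fun hs => ?_
  refine mul_nonneg (hw s) (Real.log_nonneg ?_)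
  rw [one_le_div hr]
  exact hs.1.le

theorem MeroPunct.jensen {u : ℂ → ℂ} (hu : MeroPunct R₀ u) (h1 : 0 < R₁) (h : R₁ < R₀) :
    ∃ A B : ℝ, ∀ x, Real.exp (-x) < R₁ →
      mean (fun z => Real.log ‖u z‖) x = A + B * x + cnt (fun s => (ordZ u s : ℝ)) R₁ (Real.exp (-x)) := by
  classical
  obtain ⟨A, B, hAB⟩ := jensen_punctured h hu.mero hu.ord
  refine ⟨A, -B, fun x hx => ?_⟩
  have hr : 0 < Real.exp (-x) := Real.exp_pos _
  obtain ⟨T, hT⟩ := Nev0_exists h hu.locFin hr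
  have hT' : ∀ s, Real.exp (-x) < ‖s‖ → ‖s‖ < R₁ → ordZ u s ≠ 0 →
      s ∈ T.filter (fun s => Real.exp (-x) < ‖s‖ ∧ ‖s‖ < R₁) := by
    intro s h3 h4 h5
    exact Finset.mem_filter.mpr ⟨hT s h3 h4 (by exact_mod_cast h5), h3, h4⟩
  unfold mean
  rw [hAB (Real.exp (-x)) hr hx _ (fun s hs => (Finset.mem_filter.mp hs).2.2) hT',
    cnt_eq_sum hT hr, Real.log_exp]
  have e : ∀ s ∈ T.filter (fun s => Real.exp (-x) < ‖s‖ ∧ ‖s‖ < R₁),
      (ordZ u s : ℝ) * Real.posLog (‖s‖ / Real.exp (-x)) =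
      (ordZ u s : ℝ) * Real.log (‖s‖ / Real.exp (-x)) := by
    intro s hs
    have h3 := (Finset.mem_filter.mp hs).2.1
    have h4 : 1 ≤ |‖s‖ / Real.exp (-x)| := by
      rw [abs_of_nonneg (by positivity), one_le_div hr]
      exact h3.le
    rw [Real.posLog_eq_log h4]
  rw [Finset.sum_congr rfl e]
  ring

theorem MeroPunct.circleIntegrable_posLog {u : ℂ → ℂ} (hu : MeroPunct R₀ u) {x : ℝ}
    (hx : Real.exp (-x) < R₀) : CircleIntegrable (fun z => Real.posLog ‖u z‖) 0 (Real.exp (-x)) :=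
  (Nev0_mem hu hx).circleIntegrable_posLog_norm

theorem MeroPunct.mul {u v : ℂ → ℂ} (hu : MeroPunct R₀ u) (hv : MeroPunct R₀ v) :
    MeroPunct R₀ (fun z => u z * v z) where
  mero z h1 h2 := (hu.mero z h1 h2).mul (hv.mero z h1 h2)
  ord z h1 h2 := by
    have e : meromorphicOrderAt (fun z => u z * v z) z =
        meromorphicOrderAt u z + meromorphicOrderAt v z :=
      meromorphicOrderAt_mul (hu.mero z h1 h2) (hv.mero z h1 h2)
    rw [e]
    exact WithTop.add_ne_top.mpr ⟨hu.ord z h1 h2, hv.ord z h1 h2⟩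

private theorem Nev0_ord_inv (u : ℂ → ℂ) (z : ℂ) :
    meromorphicOrderAt (fun z => (u z)⁻¹) z = -meromorphicOrderAt u z :=
  meromorphicOrderAt_inv

theorem MeroPunct.inv {u : ℂ → ℂ} (hu : MeroPunct R₀ u) : MeroPunct R₀ (fun z => (u z)⁻¹) where
  mero z h1 h2 := (hu.mero z h1 h2).inv
  ord z h1 h2 := by
    rw [Nev0_ord_inv]
    intro h
    have h3 := hu.ord z h1 h2
    obtain ⟨k, hk⟩ := WithTop.ne_top_iff_exists.mp h3
    rw [← hk] at h
    exact absurd h (by exact WithTop.coe_ne_top (a := -k))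

private theorem Nev0_ordZ_inv {u : ℂ → ℂ} {z : ℂ} (h : meromorphicOrderAt u z ≠ ⊤) :
    ordZ (fun z => (u z)⁻¹) z = -ordZ u z := by
  unfold Pool.Agent.H92.GGL.ordZ
  rw [Nev0_ord_inv]
  obtain ⟨k, hk⟩ := WithTop.ne_top_iff_exists.mp h
  rw [← hk]
  have e : -((k : ℤ) : WithTop ℤ) = ((-k : ℤ) : WithTop ℤ) := rfl
  rw [e, WithTop.untop₀_coe, WithTop.untop₀_coe]

theorem nevT_nonneg (u : ℂ → ℂ) (R₁ x : ℝ) : 0 ≤ nevT u R₁ x := by
  unfold nevT mean
  refine add_nonneg (Real.circleAverage_nonneg_of_nonneg fun z _ => Real.posLog_nonneg)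
    (cnt_nonneg (Real.exp_pos _) fun s => le_max_right _ _)

private theorem Nev0_locFin_comp {w : ℂ → ℝ} (hw : LocFin R₀ w) {f : ℝ → ℝ} (hf : f 0 = 0) :
    LocFin R₀ (fun s => f (w s)) := by
  intro r b hr hb
  refine (hw r b hr hb).subset ?_
  rintro s ⟨h1, h2, h3⟩
  refine ⟨h1, h2, fun h => h3 ?_⟩
  change f (w s) = 0
  rw [h, hf]

private theorem Nev0_cnt_congr {w w' : ℂ → ℝ} {r : ℝ}
    (hle : ∀ s, r < ‖s‖ → ‖s‖ < R₁ → w s = w' s) : cnt w R₁ r = cnt w' R₁ r := by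
  unfold cnt
  refine finsum_congr fun s => finsum_congr fun hs => ?_
  rw [hle s hs.1 hs.2]

/-- the characteristic function of the inverse -/
private theorem Nev0_inv {u : ℂ → ℂ} (hu : MeroPunct R₀ u) (h : R₁ < R₀) {x : ℝ}
    (hx : Real.exp (-x) < R₁) :
    nevT (fun z => (u z)⁻¹) R₁ x = mean (fun z => Real.posLog ‖u z‖⁻¹) x +
      cnt (fun s => max (ordZ u s : ℝ) 0) R₁ (Real.exp (-x)) := by
  unfold nevT
  congr 1
  · congr 1
    funext z
    rw [norm_inv]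
  · refine Nev0_cnt_congr fun s h1 h2 => ?_
    rw [Nev0_ordZ_inv (hu.ord s ((Real.exp_pos _).trans h1) (h2.trans h))]
    push_cast
    rw [neg_neg]

/-- first main theorem for `0` and `∞` -/
theorem MeroPunct.nevT_inv {u : ℂ → ℂ} (hu : MeroPunct R₀ u) (h1 : 0 < R₁) (h : R₁ < R₀) :
    ∃ C : ℝ, ∀ x, Real.exp (-x) < R₁ →
      |nevT (fun z => (u z)⁻¹) R₁ x - nevT u R₁ x| ≤ C * (1 + |x|) := by
  obtain ⟨A, B, hAB⟩ := hu.jensen h1 h
  refine ⟨|A| + |B|, fun x hx => ?_⟩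
  have hr : 0 < Real.exp (-x) := Real.exp_pos _
  have hx0 : Real.exp (-x) < R₀ := hx.trans h
  have hJ := hAB x hx
  have e1 : mean (fun z => Real.log ‖u z‖) x = mean (fun z => Real.posLog ‖u z‖) x -
      mean (fun z => Real.posLog ‖u z‖⁻¹) x := by
    unfold mean
    rw [← Real.circleAverage_fun_sub (hu.circleIntegrable_posLog hx0)]
    · congr 1
      funext z
      rw [Real.posLog_sub_posLog_inv]
    · have := hu.inv.circleIntegrable_posLog hx0
      simpa only [norm_inv] using this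
  have e2 : cnt (fun s => max (ordZ u s : ℝ) 0) R₁ (Real.exp (-x)) =
      cnt (fun s => (ordZ u s : ℝ)) R₁ (Real.exp (-x)) +
      cnt (fun s => max (-(ordZ u s : ℝ)) 0) R₁ (Real.exp (-x)) := by
    rw [← cnt_add h hu.locFin (Nev0_locFin_comp (f := fun t => max (-t) 0) hu.locFin (by simp)) hr]
    refine Nev0_cnt_congr fun s _ _ => ?_
    rcases le_total (ordZ u s : ℝ) 0 with h3 | h3
    · rw [max_eq_right h3, max_eq_left (neg_nonneg.mpr h3), add_neg_cancel]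
    · rw [max_eq_left h3, max_eq_right (neg_nonpos.mpr h3), add_zero]
  have e3 : nevT (fun z => (u z)⁻¹) R₁ x - nevT u R₁ x = -(A + B * x) := by
    rw [Nev0_inv hu h hx, nevT, e2]
    rw [e1] at hJ
    linarith
  rw [e3, abs_neg]
  have h4 := abs_nonneg A
  have h5 := abs_nonneg B
  have h6 := abs_nonneg x
  calc |A + B * x| ≤ |A| + |B * x| := abs_add_le _ _
    _ = |A| + |B| * |x| := by rw [abs_mul]
    _ ≤ (|A| + |B|) * (1 + |x|) := by nlinarith [mul_nonneg h4 h6]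

/-- the mean of `|log |u||` and the number of zeros and poles -/
theorem MeroPunct.mean_abs_add_cnt {u : ℂ → ℂ} (hu : MeroPunct R₀ u) (h1 : 0 < R₁) (h : R₁ < R₀) :
    ∃ C : ℝ, ∀ x, Real.exp (-x) < R₁ →
      mean (fun z => |Real.log ‖u z‖|) x + cnt (fun s => |(ordZ u s : ℝ)|) R₁ (Real.exp (-x)) ≤
        2 * nevT u R₁ x + C * (1 + |x|) := by
  obtain ⟨C, hC⟩ := hu.nevT_inv h1 h
  refine ⟨C, fun x hx => ?_⟩
  have hr : 0 < Real.exp (-x) := Real.exp_pos _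
  have hx0 : Real.exp (-x) < R₀ := hx.trans h
  have e1 : mean (fun z => |Real.log ‖u z‖|) x = mean (fun z => Real.posLog ‖u z‖) x +
      mean (fun z => Real.posLog ‖u z‖⁻¹) x := by
    unfold mean
    rw [← Real.circleAverage_fun_add (hu.circleIntegrable_posLog hx0)]
    · congr 1
      funext z
      have h2 := Real.half_mul_log_add_log_abs (x := ‖u z‖)
      have h3 := Real.posLog_sub_posLog_inv (x := ‖u z‖)
      linarith
    · have := hu.inv.circleIntegrable_posLog hx0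
      simpa only [norm_inv] using this
  have e2 : cnt (fun s => |(ordZ u s : ℝ)|) R₁ (Real.exp (-x)) =
      cnt (fun s => max (ordZ u s : ℝ) 0) R₁ (Real.exp (-x)) +
      cnt (fun s => max (-(ordZ u s : ℝ)) 0) R₁ (Real.exp (-x)) := by
    rw [← cnt_add h (Nev0_locFin_comp (f := fun t => max t 0) hu.locFin (by simp))
      (Nev0_locFin_comp (f := fun t => max (-t) 0) hu.locFin (by simp)) hr]
    refine Nev0_cnt_congr fun s _ _ => ?_
    rcases le_total (ordZ u s : ℝ) 0 with h3 | h3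
    · rw [max_eq_right h3, max_eq_left (neg_nonneg.mpr h3), zero_add, abs_of_nonpos h3]
    · rw [max_eq_left h3, max_eq_right (neg_nonpos.mpr h3), add_zero, abs_of_nonneg h3]
  have h2 := (abs_le.mp (hC x hx)).2
  have e3 : mean (fun z => |Real.log ‖u z‖|) x +
      cnt (fun s => |(ordZ u s : ℝ)|) R₁ (Real.exp (-x)) =
      nevT u R₁ x + nevT (fun z => (u z)⁻¹) R₁ x := by
    rw [e1, e2, Nev0_inv hu h hx, nevT]
    ring
  rw [e3]
  linarith

end Pool.Agent.H62.FC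

end
end

section

/-!
# HE Defs: hyperbolically embedded pairs over complex tori

`A = ℂ^(k+1) / Λ` is a complex torus.  `X ⊆ A × ℙ^N` is closed (given by the closed set `X ⊆ ℂ^(k+1) × ℂ^(N+1)`, `Λ`-periodic and conical in the second variable), `F j (y, x)`, `j < q`, are entire functions, homogeneous of degree `d j > 0`
in `x` and quasi-periodic in `y`, of weight `wt (W j)`.  `D` is a closed `Λ`-invariant set which meets all lines in isolated points.  Near the fibres over the points `y ∉ D` the `F j` have pieces such that the entire curves of bounded derivative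
in the fibre on which each piece is `0` or has no zeros are constant (`fib`).  The index `j` is ample if `W j` is positive definite; no section of `X` over a line off `D` which is contained in or disjoint from the zeros of each `F j` is contained in the zeros of all ample `F j` (`sec`).
Curves in the complement of the zeros of the `F j` are given by `h : ℂ → Vd (k+1)` and a lift `w : ℂ → EN N` of the component in `ℙ^N` (`Cw`).
-/

set_option autoImplicit false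

open Topology Filter Metric

namespace Pool.Agent.HE

open Pool.Agent.H36.BP (EN fs wd)
open Pool.Agent.H62.EF (MN pr)
open Pool.Agent.AD (Vd)
open Pool.Agent.TG (Lat)
open Pool.Agent.G3 (wt LLift)

variable {N k q r : ℕ}

/-- `Q s`, `s < m`, are pieces of the `F j` near `y₀`: holomorphic for `y` near `y₀`, homogeneous of degree `e s` in `x`, without zeros at the points of `X` at which the `F j` are not `0`, and every entire curve of bounded derivative in the fibre of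
`X` over `y₀` on which each `Q s` is `0` or has no zeros is constant -/
structure Pc (X : Set (Vd (k + 1) × EN N)) (F : Fin q → Vd (k + 1) × EN N → ℂ) (y₀ : Vd (k + 1)) {m : ℕ} (Q : Fin m → Vd (k + 1) × EN N → ℂ) (e : Fin m → ℕ) (ρ : ℝ) : Prop where
  pos : 0 < ρ
  an : ∀ s, DifferentiableOn ℂ (Q s) (ball y₀ ρ ×ˢ Set.univ)
  hom : ∀ s, ∀ y ∈ ball y₀ ρ, ∀ (c : ℂ) (x : EN N), Q s (y, c • x) = c ^ e s * Q s (y, x)
  ne : ∀ s, ∀ y ∈ ball y₀ ρ, ∀ x : EN N, x ≠ 0 → (y, x) ∈ X → (∀ j, F j (y, x) ≠ 0) → Q s (y, x) ≠ 0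
  const : ∀ G : ℂ → EN N, Differentiable ℂ G → (∀ z, G z ≠ 0) → (∀ z, (y₀, G z) ∈ X) → (∃ L : ℝ, ∀ z, fs (G z) (deriv G z) ≤ L) →
    (∀ s, (∀ z, Q s (y₀, G z) = 0) ∨ ∀ z, Q s (y₀, G z) ≠ 0) → ∀ z w, ∃ c : ℂ, G z = c • G w

/-- `(h, w)` is over the set `U` a curve in `X` on which the `F j` have no zeros (used for open sets) -/
structure Cw (X : Set (Vd (k + 1) × EN N)) (F : Fin q → Vd (k + 1) × EN N → ℂ) (U : Set ℂ) (w : ℂ → EN N) (h : ℂ → Vd (k + 1)) : Prop where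
  w_diff : DifferentiableOn ℂ w U
  h_diff : DifferentiableOn ℂ h U
  w_ne : ∀ z ∈ U, w z ≠ 0
  mem : ∀ z ∈ U, (h z, w z) ∈ X
  ne : ∀ j, ∀ z ∈ U, F j (h z, w z) ≠ 0

/-- the limit situation on the line `z ↦ y + z • a`: curves `(w n, h n)` on larger and larger discs converge to `g` on the line off `D` -/
structure LS (X : Set (Vd (k + 1) × EN N)) (F : Fin q → Vd (k + 1) × EN N → ℂ) (D : Set (Vd (k + 1))) (y a : Vd (k + 1)) (𝒰 : Ultrafilter ℕ) (w : ℕ → ℂ → EN N) (h : ℕ → ℂ → Vd (k + 1))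
    (g : ℂ → MN N) : Prop where
  cv : ∀ R : ℝ, ∀ᶠ n in (𝒰 : Filter ℕ), Cw X F (ball 0 R) (w n) (h n)
  hh : ∀ R ε : ℝ, 0 < ε → ∀ᶠ n in (𝒰 : Filter ℕ), ∀ z ∈ closedBall (0 : ℂ) R, ‖h n z - (y + z • a)‖ < ε
  lift : ∀ z : ℂ, y + z • a ∉ D → LLift g z
  lim : ∀ K : Set ℂ, IsCompact K → (∀ z ∈ K, y + z • a ∉ D) → ∀ ε : ℝ, 0 < ε → ∀ᶠ n in (𝒰 : Filter ℕ), ∀ z ∈ K, dist (pr (w n z)) (g z) < ε

/-- the data -/
structure HD (Λ : AddSubgroup (Vd (k + 1))) (D : Set (Vd (k + 1))) (X : Set (Vd (k + 1) × EN N)) (F : Fin q → Vd (k + 1) × EN N → ℂ) (d : Fin q → ℕ)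
    (W : Fin q → Fin r → Vd (k + 1) →L[ℂ] ℂ) : Prop where
  lat : Lat Λ
  X_closed : IsClosed X
  X_per : ∀ l ∈ Λ, ∀ (y : Vd (k + 1)) (x : EN N), (y, x) ∈ X → (y + l, x) ∈ X
  X_smul : ∀ (c : ℂ) (y : Vd (k + 1)) (x : EN N), (y, x) ∈ X → (y, c • x) ∈ X
  an : ∀ j, Differentiable ℂ (F j)
  deg : ∀ j, 0 < d j
  hom : ∀ (j : Fin q) (c : ℂ) (y : Vd (k + 1)) (x : EN N), F j (y, c • x) = c ^ d j * F j (y, x)
  per : ∀ j, ∀ l ∈ Λ, ∀ y : Vd (k + 1), ∃ e : ℂ, ‖e‖ * Real.exp (-wt (W j) (y + l)) = Real.exp (-wt (W j) y) ∧ ∀ x : EN N, F j (y + l, x) = e * F j (y, x)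
  D_closed : IsClosed D
  D_inv : ∀ y ∈ D, ∀ l ∈ Λ, y + l ∈ D
  /-- the lines meet `D` in isolated points -/
  iso : ∀ a : Vd (k + 1), a ≠ 0 → ∀ y : Vd (k + 1), ∀ᶠ z in 𝓝[≠] (0 : ℂ), y + z • a ∉ D
  /-- a section of `X` over a line off `D` which is contained in or disjoint from the zeros of each `F j` and which is a limit of curves in the complement is not contained in the zeros of all ample `F j` -/
  sec : ∀ (y a : Vd (k + 1)), a ≠ 0 → ∀ g : ℂ → MN N, (∀ z : ℂ, y + z • a ∉ D → LLift g z) → (∀ z : ℂ, y + z • a ∉ D → ∀ x : EN N, x ≠ 0 → pr x = g z → (y + z • a, x) ∈ X) →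
    (∀ j, (∀ z : ℂ, y + z • a ∉ D → ∀ x : EN N, x ≠ 0 → pr x = g z → F j (y + z • a, x) = 0) ∨ ∀ z : ℂ, y + z • a ∉ D → ∀ x : EN N, x ≠ 0 → pr x = g z → F j (y + z • a, x) ≠ 0) →
    (∃ (𝒰 : Ultrafilter ℕ) (w : ℕ → ℂ → EN N) (h : ℕ → ℂ → Vd (k + 1)), LS X F D y a 𝒰 w h g) →
    ∃ i, (∀ y, (∀ s, W i s y = 0) → y = 0) ∧ ¬ ∀ z : ℂ, y + z • a ∉ D → ∀ x : EN N, x ≠ 0 → pr x = g z → F i (y + z • a, x) = 0
  /-- near the fibres outside `D` there are pieces of the `F j` whose strata contain no curves of bounded derivative -/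
  fib : ∀ y₀ ∉ D, ∃ (m : ℕ) (Q : Fin m → Vd (k + 1) × EN N → ℂ) (e : Fin m → ℕ) (ρ : ℝ), Pc X F y₀ Q e ρ

/-- the norm of a form in the metrics -/
noncomputable def qf (F : Vd (k + 1) × EN N → ℂ) (d : ℕ) (W : Fin r → Vd (k + 1) →L[ℂ] ℂ) (y : Vd (k + 1)) (x : EN N) : ℝ :=
  ‖F (y, x)‖ * Real.exp (-wt W y) / ‖x‖ ^ d

/-- `F j` is `0` on the curve `g` over the line `y + z a`, at the points off `D` -/
def Zr (F : Vd (k + 1) × EN N → ℂ) (D : Set (Vd (k + 1))) (y a : Vd (k + 1)) (g : ℂ → MN N) : Prop :=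
  ∀ z : ℂ, y + z • a ∉ D → ∀ x : EN N, x ≠ 0 → pr x = g z → F (y + z • a, x) = 0

theorem Cw.mono {X : Set (Vd (k + 1) × EN N)} {F : Fin q → Vd (k + 1) × EN N → ℂ} {U V : Set ℂ} {w : ℂ → EN N} {h : ℂ → Vd (k + 1)} (hc : Cw X F U w h) (hV : V ⊆ U) : Cw X F V w h :=
  ⟨hc.w_diff.mono hV, hc.h_diff.mono hV, fun z hz => hc.w_ne z (hV hz), fun z hz => hc.mem z (hV hz), fun j z hz => hc.ne j z (hV hz)⟩

theorem Cw.comp {X : Set (Vd (k + 1) × EN N)} {F : Fin q → Vd (k + 1) × EN N → ℂ} {U V : Set ℂ} {w : ℂ → EN N} {h : ℂ → Vd (k + 1)} (hc : Cw X F U w h) {φ : ℂ → ℂ}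
    (hφ : DifferentiableOn ℂ φ V) (hm : Set.MapsTo φ V U) : Cw X F V (fun z => w (φ z)) fun z => h (φ z) :=
  ⟨hc.w_diff.comp hφ hm, hc.h_diff.comp hφ hm, fun z hz => hc.w_ne _ (hm hz), fun z hz => hc.mem _ (hm hz), fun j z hz => hc.ne j _ (hm hz)⟩

end Pool.Agent.HE

end

section

/-!
# TG SmA: closing up, and a holomorphic vector near a point where its projection is Lipschitz

`close_lift`: `φ` analytic with `φ y ≠ 0`, `φ y ∈ X` and `u (φ y) = υ y` modulo `Λ` on a dense set: this holds everywhere.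
`lip_lift`: `pr ∘ F` Lipschitz where `F ≠ 0` near `y₀`: `[F]` is holomorphic at `y₀`.
-/

set_option autoImplicit false

open Topology Filter Metric

namespace Pool.Agent.TG

open Pool.Agent.H36.BP (EN fs wd)
open Pool.Agent.H14.PP (IsCone)
open Pool.Agent.H62.EF (MN pr)
open Pool.Agent.AD (Vd)

variable {N k : ℕ} {X : Set (EN N)} {Λ : AddSubgroup (Vd (k + 1))} {u : EN N → Vd (k + 1)}

theorem lat_isClosed (h : Lat Λ) : IsClosed (Λ : Set (Vd (k + 1))) := by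
  obtain ⟨δ, hδ, hd⟩ := h.disc
  rw [← isSeqClosed_iff_isClosed]
  intro x w hx hw
  have h1 := hw.cauchySeq
  rw [Metric.cauchySeq_iff'] at h1
  obtain ⟨n, hn⟩ := h1 δ hδ
  have h2 : ∀ m ≥ n, x m = x n := by
    intro m hm
    have h3 := hd (x m - x n) (Λ.sub_mem (hx m) (hx n)) (by rw [← dist_eq_norm]; exact hn m hm)
    exact sub_eq_zero.mp h3
  have h4 : Tendsto x atTop (𝓝 (x n)) := by
    refine tendsto_const_nhds.congr' ?_
    filter_upwards [eventually_ge_atTop n] with m hm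
    exact (h2 m hm).symm
  rw [tendsto_nhds_unique hw h4]
  exact hx n

theorem isCone_ne : IsCone {x : EN N | x ≠ 0} where
  zero_notMem := fun h => h rfl
  smul_mem := fun _ hx _ hc => smul_ne_zero hc hx
  closed := by
    have : insert (0 : EN N) {x : EN N | x ≠ 0} = Set.univ := by
      ext x
      simp only [Set.mem_insert_iff, Set.mem_ofPred_eq, Set.mem_univ, iff_true]
      exact em _
    rw [this]
    exact isClosed_univ

end Pool.Agent.TG

end
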