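import Pool.Agent.H94.PX4.M14
import Pool.Agent.H94.PX4.M20

/-! The parts of this file: AD.Defs_1, H62.EF.Defs_2, TG.Defs_1. -/

section

/-!
# AD Defs: charts of projective manifolds of dimension `d`, bivector forms

`X` is the cone (without `0`) over a smooth projective variety of dimension `d`, in `EN N = ℂ^(N+1)` with the Euclidean norm (`H14.PP.IsCone`).  The model space is `Vd d = Fin d → ℂ` with the
supremum norm.
-/

set_option autoImplicit false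

open Topology Filter Metric

namespace Pool.Agent.AD

open Pool.Agent.H36.BP (EN fs wd)
open Pool.Agent.H14.PP (IsCone CurveAt Tan)

variable {N : ℕ}

/-- A chart of the manifold whose cone is `X`: `σ` is a lift of the inverse of the chart, defined on the polydisc of radius `2`, `U` is an open cone, and `q` the chart, `d` holomorphic
functions on `U` which are invariant under scaling. -/
structure Chart (d : ℕ) (X : Set (EN N)) where
  /-- the parametrization -/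
  σ : Vd d → EN N
  /-- the domain -/
  U : Set (EN N)
  /-- the coordinates -/
  q : EN N → Vd d
  isOpen_U : IsOpen U
  smul_U : ∀ x ∈ U, ∀ c : ℂ, c ≠ 0 → c • x ∈ U
  σ_an : ∀ p ∈ ball (0 : Vd d) 2, AnalyticAt ℂ σ p
  q_an : ∀ x ∈ U, AnalyticAt ℂ q x
  q_smul : ∀ x ∈ U, ∀ c : ℂ, c ≠ 0 → q (c • x) = q x
  σ_mem : ∀ p ∈ ball (0 : Vd d) 2, σ p ∈ X ∧ σ p ∈ U ∧ q (σ p) = p
  surj : ∀ x ∈ X, x ∈ U → q x ∈ ball (0 : Vd d) 2 ∧ ∃ c : ℂ, c ≠ 0 ∧ x = c • σ (q x)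

/-- `X` is smooth: there are charts -/
def Charts (d : ℕ) (X : Set (EN N)) : Prop := ∀ x ∈ X, ∃ χ : Chart d X, x ∈ χ.U ∧ χ.q x = 0

end Pool.Agent.AD

end

section

/-!
# EF Defs: surfaces with a holomorphic map to an elliptic curve

`X` is the cone (without `0`) of a smooth projective surface, in `EN N = ℂ^(N+1)` with the Euclidean norm.  The map to `ℂ / Λ` is
given by a function `u : EN N → ℂ` which is holomorphic modulo `Λ`.  `pr x` is the orthogonal projection to the line of `x`, a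
matrix: in this way the projective space is a compact subset of a Euclidean space.
-/

set_option autoImplicit false

open Topology Filter Metric

namespace Pool.Agent.H62.EF

open Pool.Agent.H36.BP (EN fs wd)
open Pool.Agent.H14.PP (IsCone Chart Form Tan aCoef)

variable {N : ℕ}

/-- the entire curves (lifts to the cone) with `u (F z) = z` modulo `Λ` -/
def Sec (X : Set (EN N)) (Λ : AddSubgroup ℂ) (u : EN N → ℂ) : Set (ℂ → EN N) :=
  {F | Differentiable ℂ F ∧ (∀ z, F z ∈ X) ∧ ∀ z, u (F z) - z ∈ Λ}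

/-- `X` is smooth: there are charts -/
def Charts (X : Set (EN N)) : Prop := ∀ x ∈ X, ∃ χ : Chart X, x ∈ χ.U ∧ χ.q x = 0

/-- the function which is compared with holomorphic functions -/
noncomputable def rho {Y : Type} [MetricSpace Y] (M : ℕ) (T : Y → ℝ) (f g : ℂ → Y) (z : ℂ) : ℝ := dist (f z) (g z) ^ M * T (f z)

end Pool.Agent.H62.EF

end

section

/-!
# TG Defs: projective manifolds of dimension `k + 2` over complex tori of dimension `k + 1`, arbitrary singular fibres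

`X` is the cone (without `0`) over a projective manifold of dimension `k + 2`, `u` a holomorphic map to `ℂ^(k+1) / Λ` (a function `u : EN N → Vd (k+1)`
which is holomorphic modulo `Λ`).  `D ⊆ ℂ^(k+1)` is the set of the bad values (closed, `Λ`-invariant, contained in hypersurfaces), `B ⊆ D` the set of the
very bad values, which almost every line avoids.  Over `D \ B` the map `u` is `(x^a y^b, s)` in suitable coordinates.  Charts are `AD.Chart (k + 2) X`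
(polydisc of radius `2` for the sup norm); the coordinate `0` is the coordinate along the fibres, the others (`tl p`) those of the base.
All norms and balls in `Vd (k+1)` are for the sup norm.
-/

set_option autoImplicit false

open Topology Filter Metric

namespace Pool.Agent.TG

open Pool.Agent.H36.BP (EN fs wd)
open Pool.Agent.H14.PP (IsCone CurveAt Tan)
open Pool.Agent.H62.EF (MN pr)
open Pool.Agent.AD (Vd Chart Charts IsGerm)

variable {N k : ℕ}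

/-- `u` is a holomorphic map from the variety with the cone `X` to `ℂ^(k+1) / Λ` -/
structure TMap (X : Set (EN N)) (Λ : AddSubgroup (Vd (k + 1))) (u : EN N → Vd (k + 1)) : Prop where
  smul : ∀ x ∈ X, ∀ c : ℂ, c ≠ 0 → u (c • x) - u x ∈ Λ
  loc : ∀ x ∈ X, ∃ v : EN N → Vd (k + 1), AnalyticAt ℂ v x ∧ ∀ᶠ y in 𝓝 x, y ∈ X → u y - v y ∈ Λ

/-- the coordinates `1, …, k + 1` -/
def tl (p : Vd (k + 2)) : Vd (k + 1) := fun i => p i.succ

/-- the model of the bad fibres: `(x, y, s) ↦ (x ^ a * y ^ b, s)` -/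
def nm (a b : ℕ) (p : Vd (k + 2)) : Vd (k + 1) := Fin.cons (α := fun _ => ℂ) (p 0 ^ a * p 1 ^ b) fun i : Fin k => p i.succ.succ

/-- `u` is a submersion at `x`, with value `y`: in suitable coordinates `u` is `y + tl p` -/
def IsStr (X : Set (EN N)) (Λ : AddSubgroup (Vd (k + 1))) (u : EN N → Vd (k + 1)) (x : EN N) (y : Vd (k + 1)) : Prop :=
  ∃ (σ : Vd (k + 2) → EN N) (τ : EN N → Vd (k + 2)), IsGerm X σ τ ∧ σ 0 = x ∧ ∀ᶠ p in 𝓝 (0 : Vd (k + 2)), u (σ p) - (y + tl p) ∈ Λ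

/-- in suitable coordinates at `x` the map `u` is `κ (x ^ a * y ^ b, s)` -/
def IsNC (X : Set (EN N)) (Λ : AddSubgroup (Vd (k + 1))) (u : EN N → Vd (k + 1)) (κ : Vd (k + 1) → Vd (k + 1)) (x : EN N) : Prop :=
  ∃ (σ : Vd (k + 2) → EN N) (τ : EN N → Vd (k + 2)) (a b : ℕ), IsGerm X σ τ ∧ σ 0 = x ∧ 0 < a + b ∧
    ∀ᶠ p in 𝓝 (0 : Vd (k + 2)), u (σ p) - κ (nm a b p) ∈ Λ

/-- `κ` is a system of local coordinates at `y` in which `D` is `{q 0 = 0}` -/
structure IsCoord (D : Set (Vd (k + 1))) (κ : Vd (k + 1) → Vd (k + 1)) (y : Vd (k + 1)) : Prop where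
  an : AnalyticAt ℂ κ 0
  zero : κ 0 = y
  inj : Function.Injective (fderiv ℂ κ 0)
  mem_iff : ∀ᶠ q in 𝓝 (0 : Vd (k + 1)), (κ q ∈ D ↔ q 0 = 0)

/-- the geometric data -/
structure Geo (X : Set (EN N)) (Λ : AddSubgroup (Vd (k + 1))) (u : EN N → Vd (k + 1)) (D B : Set (Vd (k + 1))) : Prop where
  cone : IsCone X
  charts : Charts (k + 2) X
  tor : TMap X Λ u
  lat : Lat Λ
  D_closed : IsClosed D
  D_inv : ∀ y ∈ D, ∀ l ∈ Λ, y + l ∈ D
  D_thin : ∀ y : Vd (k + 1), ∃ h : Vd (k + 1) → ℂ, AnalyticAt ℂ h y ∧ (∀ᶠ z in 𝓝 y, z ∈ D → h z = 0) ∧ ¬ ∀ᶠ z in 𝓝 y, h z = 0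
  B_lines : ∀ e : Vd (k + 1), e ≠ 0 → ∀ᵐ y : Vd (k + 1), ∀ z : ℂ, y + z • e ∉ B
  sub : ∀ y ∉ D, ∀ x ∈ X, u x - y ∈ Λ → IsStr X Λ u x y
  fib : ∀ y ∉ D, ∀ F : ℂ → EN N, Differentiable ℂ F → (∀ z, F z ∈ X) → (∀ z, u (F z) - y ∈ Λ) → (∃ L : ℝ, ∀ z, fs (F z) (deriv F z) ≤ L) →
    ∀ z w, ∃ c : ℂ, F z = c • F w
  nc : ∀ y ∈ D, y ∉ B → ∃ κ : Vd (k + 1) → Vd (k + 1), IsCoord D κ y ∧ ∀ x ∈ X, u x - y ∈ Λ → IsNC X Λ u κ x

variable {X : Set (EN N)} {Λ : AddSubgroup (Vd (k + 1))} {u : EN N → Vd (k + 1)}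

/-- the coefficient of the form in the chart `χ` with the lift `υ` of `u` -/
noncomputable def tc (α : VForm X Λ u) (χ : Chart (k + 2) X) (υ : Vd (k + 2) → Vd (k + 1)) (p : Vd (k + 2)) : ℂ :=
  α.toFun (υ p) (χ.σ p) fun i => fderiv ℂ χ.σ p (Pi.single i 1)

/-- the form is nowhere locally `0` -/
def Thin (α : VForm X Λ u) : Prop :=
  ∀ (χ : Chart (k + 2) X) (υ : Vd (k + 2) → Vd (k + 1)), ∀ p ∈ ball (0 : Vd (k + 2)) 2, AnalyticAt ℂ υ p →
    (∀ᶠ q in 𝓝 p, u (χ.σ q) - υ q ∈ Λ) → ¬ ∀ᶠ q in 𝓝 p, tc α χ υ q = 0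

/-- the function `c + ρ (tl p)` -/
noncomputable def ms (c : Vd (k + 1)) (ρ : ℝ) (p : Vd (k + 2)) : Vd (k + 1) := c + (ρ : ℂ) • tl p

/-- the chart is straight: `u` is `c + ρ (tl p)` -/
structure Str (Λ : AddSubgroup (Vd (k + 1))) (u : EN N → Vd (k + 1)) (χ : Chart (k + 2) X) (c : Vd (k + 1)) (ρ : ℝ) : Prop where
  pos : 0 < ρ
  lift : ∀ p ∈ ball (0 : Vd (k + 2)) 2, u (χ.σ p) - ms c ρ p ∈ Λ

/-- `A` is the primitive of the coefficient of the form in the direction of the coordinate `0` -/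
structure IsPrim (α : VForm X Λ u) (χ : Chart (k + 2) X) (υ : Vd (k + 2) → Vd (k + 1)) (A : Vd (k + 2) → ℂ) : Prop where
  an : ∀ p ∈ ball (0 : Vd (k + 2)) 2, AnalyticAt ℂ A p
  der : ∀ p ∈ ball (0 : Vd (k + 2)) 2, fderiv ℂ A p (Pi.single 0 1) = tc α χ υ p
  zero : ∀ p ∈ ball (0 : Vd (k + 2)) 2, p 0 = 0 → A p = 0

/-- the straight chart contains all points near `m₀` of the fibres near `y₀` -/
structure Cap (Λ : AddSubgroup (Vd (k + 1))) (u : EN N → Vd (k + 1)) (χ : Chart (k + 2) X) (c : Vd (k + 1)) (ρ : ℝ) (y₀ : Vd (k + 1)) (m₀ : MN N)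
    (r : ℝ) : Prop where
  str : Str Λ u χ c ρ
  cap : ∀ y ∈ closedBall y₀ r, ∀ x ∈ X, u x - y ∈ Λ → dist (pr x) m₀ ≤ r →
    x ∈ χ.U ∧ χ.q x ∈ closedBall (0 : Vd (k + 2)) 1 ∧ ms c ρ (χ.q x) = y

/-- `v` is the integral of `α / dy` from `m` to `m'` along a short path in the fibre over `y` -/
def IRel (α : VForm X Λ u) (ε : ℝ) (y : Vd (k + 1)) (m m' : MN N) (v : ℂ) : Prop :=
  ∃ (χ : Chart (k + 2) X) (c : Vd (k + 1)) (ρ : ℝ) (A : Vd (k + 2) → ℂ) (p p' : Vd (k + 2)), Str Λ u χ c ρ ∧ IsPrim α χ (ms c ρ) A ∧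
    p ∈ ball (0 : Vd (k + 2)) 2 ∧ p' ∈ ball (0 : Vd (k + 2)) 2 ∧ ms c ρ p = y ∧ ms c ρ p' = y ∧ pr (χ.σ p) = m ∧ pr (χ.σ p') = m' ∧
    (∀ θ ∈ Set.Icc (0 : ℝ) 1, dist (pr (χ.σ (p + (θ : ℂ) • (p' - p)))) m ≤ ε) ∧ v = (A p' - A p) / (ρ : ℂ) ^ (k + 1)

open Classical in
/-- the integral of `α / dy` from `m` to `m'` along a short path in the fibre over `y` -/
noncomputable def II (α : VForm X Λ u) (ε : ℝ) (y : Vd (k + 1)) (m m' : MN N) : ℂ :=
  if h : ∃ v, IRel α ε y m m' v then h.choose else 0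

/-- the vector `e` is not tangent to `D` at `p` (no condition if `p ∉ D`) -/
def TransAt (D : Set (Vd (k + 1))) (p e : Vd (k + 1)) : Prop :=
  e ≠ 0 ∧ ∀ κ : Vd (k + 1) → Vd (k + 1), IsCoord D κ p → ∀ q : Vd (k + 1), q 0 = 0 → fderiv ℂ κ 0 q ≠ e

/-- the points of distance at least `δ` from `D` -/
def Gd (D : Set (Vd (k + 1))) (δ : ℝ) : Set (Vd (k + 1)) := {y | ∀ b ∈ D, δ ≤ ‖y - b‖}

/-- the fibre over `y`, in the projective space -/
def Fb (X : Set (EN N)) (Λ : AddSubgroup (Vd (k + 1))) (u : EN N → Vd (k + 1)) (y : Vd (k + 1)) : Set (MN N) :=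
  {m | ∃ x ∈ X, pr x = m ∧ u x - y ∈ Λ}

/-- the constants of the theory on `Gd D δ` -/
structure Cst (X : Set (EN N)) (Λ : AddSubgroup (Vd (k + 1))) (u : EN N → Vd (k + 1)) (D : Set (Vd (k + 1))) (δ ε ε₀ : ℝ) : Prop where
  δ_pos : 0 < δ
  ε_pos : 0 < ε
  ε₀_pos : 0 < ε₀
  cap : ∀ y₀ ∈ Gd D δ, ∀ m ∈ Fb X Λ u y₀, ∃ (χ : Chart (k + 2) X) (c : Vd (k + 1)) (ρ : ℝ), Cap Λ u χ c ρ y₀ m (3 * ε)
  rel : ∀ y ∈ Gd D δ, ∀ m ∈ Fb X Λ u y, ∀ m' ∈ Fb X Λ u y, dist m m' ≤ ε₀ → ∀ α : VForm X Λ u, ∃ v, IRel α ε y m m' v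

end Pool.Agent.TG

end
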