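import Pool.Agent.H94.PX4.M05
import Pool.Agent.H94.PX4.M21
import Pool.Agent.H94.PX4.M31
import Pool.Agent.H94.PX4.M32
import Pool.Agent.H94.PX4.M37
import Pool.Agent.H94.PX4.M44

/-! The parts of this file: H13.CV.Step, G4.H.Dir, HE.Lim. -/

section

/-!
# CV Step: one more condition at a place lowers the dimension by at most one

`finrank_le_step`: let `oz E t = 1` (`exists_uni`).  The map `W → ℂ`, `f ↦ res E (f * t ^ (-d))` is linear (`res_add`, `res_smul`: `0 ≤ ord (f * t ^ (-d))` for `f ∈ W`), and its kernel is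
`W ⊓ ordGe E (d + 1)` (`res_eq_zero_iff`).  Rank-nullity: `LinearMap.finrank_range_add_finrank_ker`, and the range has dimension `≤ 1`.
`finrank_le_steps`: induction on `T`, and on `e E` for the new place.
-/

set_option autoImplicit false

open Pool.Agent.H23.Fano (PrimeDivisorOver Form regularForms)

noncomputable section

namespace Pool.Agent.H13.CV

variable {K : Type} [Field K] [Algebra ℂ K]

theorem mem_ordGe {E : Place K} {d : ℤ} {f : K} : f ∈ ordGe E d ↔ (d : WithTop ℤ) ≤ E.ord f := Iff.rfl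

theorem mem_LD {D : Place K → ℤ} {f : K} : f ∈ LD D ↔ ∀ E, ((-D E : ℤ) : WithTop ℤ) ≤ E.ord f := by
  rw [LD, Submodule.mem_iInf]
  exact Iff.rfl

theorem ordGe_anti (E : Place K) {d d' : ℤ} (h : d ≤ d') : ordGe E d' ≤ ordGe E d := by
  intro f hf
  rw [mem_ordGe] at hf ⊢
  exact le_trans (WithTop.coe_le_coe.mpr h) hf

/-- the twisted function is regular -/
private theorem Step_nonneg {E : Place K} {u f : K} {d : ℤ} (hu : u ≠ 0) (hou : oz E u = -d) (hf : f ∈ ordGe E d) :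
    0 ≤ E.ord (f * u) := by
  rw [nonneg_iff]
  rw [mem_ordGe, le_ord_iff] at hf
  by_cases h0 : f = 0
  · left
    rw [h0, zero_mul]
  · right
    rw [oz_mul E h0 hu, hou]
    rcases hf with h | h
    · exact absurd h h0
    · omega

/-- the twisted function vanishes at the place iff the order is one larger -/
private theorem Step_pos {E : Place K} {u f : K} {d : ℤ} (hu : u ≠ 0) (hou : oz E u = -d) (h : 0 < E.ord (f * u)) :
    f ∈ ordGe E (d + 1) := by
  rw [mem_ordGe, le_ord_iff]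
  by_cases h0 : f = 0
  · left
    exact h0
  · right
    rw [pos_iff, oz_mul E h0 hu, hou] at h
    rcases h with h | h
    · exact absurd h (mul_ne_zero h0 hu)
    · omega

/-- the linear map: the leading coefficient -/
private def Step_map (hK : CurveField K) (W : Submodule ℂ K) (E : Place K) (d : ℤ) (hW : W ≤ ordGe E d) (u : K)
    (hu : u ≠ 0) (hou : oz E u = -d) : W →ₗ[ℂ] ℂ where
  toFun f := res E ((f : K) * u)
  map_add' f g := by
    show res E (((f + g : W) : K) * u) = _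
    rw [Submodule.coe_add, add_mul]
    exact res_add hK (Step_nonneg hu hou (hW f.2)) (Step_nonneg hu hou (hW g.2))
  map_smul' c f := by
    show res E (((c • f : W) : K) * u) = _
    rw [Submodule.coe_smul, smul_mul_assoc]
    exact res_smul hK c (Step_nonneg hu hou (hW f.2))

theorem finrank_le_step (hK : CurveField K) (W : Submodule ℂ K) [FiniteDimensional ℂ W] (E : Place K) (d : ℤ) (hW : W ≤ ordGe E d) :
    Module.finrank ℂ W ≤ Module.finrank ℂ (W ⊓ ordGe E (d + 1) : Submodule ℂ K) + 1 := by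
  obtain ⟨t, ht, hot⟩ := exists_uni E
  have hu : t ^ (-d) ≠ 0 := zpow_ne_zero _ ht
  have hou : oz E (t ^ (-d)) = -d := by
    rw [oz_zpow, hot, mul_one]
  have hrk := LinearMap.finrank_range_add_finrank_ker (Step_map hK W E d hW (t ^ (-d)) hu hou)
  have hr : Module.finrank ℂ (LinearMap.range (Step_map hK W E d hW (t ^ (-d)) hu hou)) ≤ 1 := by
    have h := Submodule.finrank_le (LinearMap.range (Step_map hK W E d hW (t ^ (-d)) hu hou))
    rwa [Module.finrank_self] at h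
  have hk : Module.finrank ℂ (LinearMap.ker (Step_map hK W E d hW (t ^ (-d)) hu hou)) ≤
      Module.finrank ℂ (W ⊓ ordGe E (d + 1) : Submodule ℂ K) := by
    rw [← Submodule.finrank_map_subtype_eq W (LinearMap.ker (Step_map hK W E d hW (t ^ (-d)) hu hou))]
    refine Submodule.finrank_mono ?_
    rintro f hf
    obtain ⟨g, hg, rfl⟩ := Submodule.mem_map.mp hf
    refine Submodule.mem_inf.mpr ⟨g.2, ?_⟩
    have h1 : res E ((g : K) * t ^ (-d)) = 0 := hg
    have h2 := (res_eq_zero_iff hK (Step_nonneg hu hou (hW g.2))).mp h1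
    exact Step_pos hu hou h2
  omega

private theorem Step_iter (hK : CurveField K) (W : Submodule ℂ K) [FiniteDimensional ℂ W] (E : Place K) (d : ℤ)
    (hW : W ≤ ordGe E d) (k : ℕ) :
    Module.finrank ℂ W ≤ Module.finrank ℂ (W ⊓ ordGe E (d + k) : Submodule ℂ K) + k := by
  induction k with
  | zero =>
    have h : W ⊓ ordGe E (d + (0 : ℕ)) = W := by
      rw [Nat.cast_zero, add_zero]
      exact inf_eq_left.mpr hW
    rw [h, add_zero]
  | succ k ih =>
    have h1 := finrank_le_step hK (W ⊓ ordGe E (d + k)) E (d + k) inf_le_right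
    have h2 : (W ⊓ ordGe E (d + k)) ⊓ ordGe E (d + k + 1) = W ⊓ ordGe E (d + ((k + 1 : ℕ) : ℤ)) := by
      have h3 : d + (k : ℤ) + 1 = d + ((k + 1 : ℕ) : ℤ) := by
        push_cast
        ring
      rw [inf_assoc, inf_eq_right.mpr (ordGe_anti E (by omega : d + (k : ℤ) ≤ d + (k : ℤ) + 1)), h3]
    rw [h2] at h1
    omega

theorem finrank_le_steps (hK : CurveField K) (W : Submodule ℂ K) [FiniteDimensional ℂ W] (T : Finset (Place K)) (d : Place K → ℤ) (e : Place K → ℕ)
    (hW : ∀ E ∈ T, W ≤ ordGe E (d E)) :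
    Module.finrank ℂ W ≤ Module.finrank ℂ (W ⊓ ⨅ E ∈ T, ordGe E (d E + e E) : Submodule ℂ K) + ∑ E ∈ T, e E := by
  classical
  induction T using Finset.induction_on with
  | empty =>
    have h : W ⊓ ⨅ E ∈ (∅ : Finset (Place K)), ordGe E (d E + e E) = W :=
      inf_eq_left.mpr (le_iInf fun E => le_iInf fun hE => absurd hE (Finset.notMem_empty E))
    rw [h]
    exact Nat.le_add_right _ _
  | insert E T hE ih =>
    have ih' := ih fun E' hE' => hW E' (Finset.mem_insert_of_mem hE')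
    have hle : W ⊓ ⨅ E' ∈ T, ordGe E' (d E' + e E') ≤ ordGe E (d E) :=
      le_trans inf_le_left (hW E (Finset.mem_insert_self E T))
    have h1 := Step_iter hK (W ⊓ ⨅ E' ∈ T, ordGe E' (d E' + e E')) E (d E) hle (e E)
    have h2 : (W ⊓ ⨅ E' ∈ T, ordGe E' (d E' + e E')) ⊓ ordGe E (d E + e E) =
        W ⊓ ⨅ E' ∈ insert E T, ordGe E' (d E' + e E') := by
      rw [Finset.iInf_insert, inf_assoc, inf_comm (ordGe E (d E + e E))]
    rw [h2] at h1
    rw [Finset.sum_insert hE]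
    omega

end Pool.Agent.H13.CV

end
end

section

/-!
# G4 H Dir: the derivatives in the direction `a`

`dir_iter_per`: if the derivatives of `f` of the orders `< j` vanish at `y` and at `y + lv b c`, then those of order `j` transform with the factor (the functions `z ↦ f (y + z a)` and `z ↦ f (y + lv b c + z a)` have zeros of order `≥ j` at `0`).
`dir_zero`: the order of the zero of `z ↦ f (y + z a)`.
-/

set_option autoImplicit false

open Topology Filter Metric

namespace Pool.Agent.G4.H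

open Pool.Agent.AD (Vd)
open Pool.Agent.G3 (wt)

variable {k r : ℕ} {a : Vd (k + 1)} {f g : Vd (k + 1) → ℂ}

private lemma dir_an1 (hf : ∀ y, AnalyticAt ℂ f y) : ∀ y, AnalyticAt ℂ (dir a f) y := by
  intro y
  have h1 : AnalyticAt ℂ (fderiv ℂ f) y := (hf y).fderiv
  exact ((ContinuousLinearMap.apply ℂ ℂ a).analyticAt (fderiv ℂ f y)).comp h1

theorem dir_an (hf : ∀ y, AnalyticAt ℂ f y) (j : ℕ) : ∀ y, AnalyticAt ℂ ((dir a)^[j] f) y := by
  induction j with
  | zero => simpa using hf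
  | succ j ih =>
    rw [Function.iterate_succ_apply']
    exact dir_an1 ih

theorem dir_lin (hf : ∀ y, AnalyticAt ℂ f y) (hg : ∀ y, AnalyticAt ℂ g y) (c : ℂ) (j : ℕ) :
    (dir a)^[j] (fun y => f y + c * g y) = fun y => (dir a)^[j] f y + c * (dir a)^[j] g y := by
  induction j with
  | zero => simp
  | succ j ih =>
    rw [Function.iterate_succ_apply', ih, Function.iterate_succ_apply', Function.iterate_succ_apply']
    funext y
    have h1 : DifferentiableAt ℂ ((dir a)^[j] f) y := (dir_an hf j y).differentiableAt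
    have h2 : DifferentiableAt ℂ ((dir a)^[j] g) y := (dir_an hg j y).differentiableAt
    have h3 := (h1.hasFDerivAt.add (h2.hasFDerivAt.const_mul c)).fderiv
    have h4 : fderiv ℂ (fun y => (dir a)^[j] f y + c * (dir a)^[j] g y) y = fderiv ℂ ((dir a)^[j] f) y + c • fderiv ℂ ((dir a)^[j] g) y := h3
    simp only [dir, h4]
    rfl

private lemma hasDeriv_line {F : Vd (k + 1) → ℂ} (hF : ∀ y, AnalyticAt ℂ F y) (y : Vd (k + 1)) (z : ℂ) : HasDerivAt (fun w : ℂ => F (y + w • a)) (dir a F (y + z • a)) z := by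
  have h1 : HasFDerivAt F (fderiv ℂ F (y + z • a)) (y + z • a) := (hF _).differentiableAt.hasFDerivAt
  have h2 : HasDerivAt (fun w : ℂ => y + w • a) a z := by
    have h3 : HasDerivAt (fun w : ℂ => w • a) ((1 : ℂ) • a) z := (hasDerivAt_id z).smul_const a
    rw [one_smul] at h3
    exact h3.const_add y
  exact h1.comp_hasDerivAt z h2

private lemma diff_line {F : Vd (k + 1) → ℂ} (hF : ∀ y, AnalyticAt ℂ F y) (y : Vd (k + 1)) : Differentiable ℂ (fun w : ℂ => F (y + w • a)) :=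
  fun z => (hasDeriv_line hF y z).differentiableAt

theorem dir_line (hf : ∀ y, AnalyticAt ℂ f y) (j : ℕ) (y : Vd (k + 1)) (z : ℂ) : iteratedDeriv j (fun w : ℂ => f (y + w • a)) z = (dir a)^[j] f (y + z • a) := by
  induction j generalizing z with
  | zero => simp
  | succ j ih =>
    rw [iteratedDeriv_succ, Function.iterate_succ_apply']
    have h1 : iteratedDeriv j (fun w : ℂ => f (y + w • a)) = fun w : ℂ => (dir a)^[j] f (y + w • a) := funext ih
    rw [h1]
    exact (hasDeriv_line (dir_an hf j) y z).deriv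

private lemma iter_pow (z₀ : ℂ) (l : ℕ) : ∀ G : ℂ → ℂ, Differentiable ℂ G → iteratedDeriv l (fun z => (z - z₀) ^ l * G z) z₀ = (l.factorial : ℂ) * G z₀ := by
  induction l with
  | zero => intro G _; simp
  | succ l ih =>
    intro G hG
    rw [iteratedDeriv_succ']
    have h1 : deriv (fun z => (z - z₀) ^ (l + 1) * G z) = fun z => (z - z₀) ^ l * (((l : ℂ) + 1) * G z + (z - z₀) * deriv G z) := by
      funext z
      have h2 : HasDerivAt (fun z : ℂ => (z - z₀) ^ (l + 1)) (((l + 1 : ℕ) : ℂ) * (z - z₀) ^ l * 1) z := by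
        exact ((hasDerivAt_id z).sub_const z₀).pow (l + 1)
      have h3 := (h2.mul (hG z).hasDerivAt).deriv
      have h4 : deriv (fun z => (z - z₀) ^ (l + 1) * G z) z = ((l + 1 : ℕ) : ℂ) * (z - z₀) ^ l * 1 * G z + (z - z₀) ^ (l + 1) * deriv G z := h3
      rw [h4]
      push_cast
      ring
    rw [h1, ih (fun z => ((l : ℂ) + 1) * G z + (z - z₀) * deriv G z)]
    · simp [Nat.factorial_succ]
      ring
    · have h5 : Differentiable ℂ (deriv G) := by
        intro z
        exact ((hG.analyticAt z).deriv).differentiableAt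
      exact (hG.const_mul _).add (((differentiable_id).sub_const z₀).mul h5)

private lemma div_one {G : ℂ → ℂ} (hG : Differentiable ℂ G) {z₀ : ℂ} (h0 : G z₀ = 0) : ∃ g : ℂ → ℂ, Differentiable ℂ g ∧ ∀ z, G z = (z - z₀) * g z := by
  refine ⟨dslope G z₀, ?_, fun z => ?_⟩
  · have h1 : DifferentiableOn ℂ (dslope G z₀) Set.univ := (Complex.differentiableOn_dslope Filter.univ_mem).2 hG.differentiableOn
    exact differentiableOn_univ.1 h1
  · have h2 := sub_smul_dslope G z₀ z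
    rw [smul_eq_mul, h0, sub_zero] at h2
    exact h2.symm

private lemma div_pow {φ : ℂ → ℂ} (hφ : Differentiable ℂ φ) {z₀ : ℂ} (l : ℕ) (h : ∀ j < l, iteratedDeriv j φ z₀ = 0) : ∃ g : ℂ → ℂ, Differentiable ℂ g ∧ ∀ z, φ z = (z - z₀) ^ l * g z := by
  induction l with
  | zero => exact ⟨φ, hφ, fun z => by simp⟩
  | succ l ih =>
    obtain ⟨g, hg, h1⟩ := ih fun j hj => h j (by omega)
    have h2 : φ = fun z => (z - z₀) ^ l * g z := funext h1
    have h3 := h l (by omega)
    rw [h2, iter_pow z₀ l g hg] at h3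
    have h4 : g z₀ = 0 := by
      rcases mul_eq_zero.1 h3 with h5 | h5
      · exact absurd h5 (by exact_mod_cast Nat.factorial_ne_zero l)
      · exact h5
    obtain ⟨g', hg', h6⟩ := div_one hg h4
    refine ⟨g', hg', fun z => ?_⟩
    rw [h1 z, h6 z]
    ring

/-- if the derivatives of order `< l` vanish at `y + z₀ a` then `z ↦ f (y + z a)` is divisible by `(z - z₀) ^ l` -/
theorem dir_zero (hf : ∀ y, AnalyticAt ℂ f y) {l : ℕ} {y : Vd (k + 1)} {z₀ : ℂ} (h : ∀ j < l, (dir a)^[j] f (y + z₀ • a) = 0) :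
    ∃ g : ℂ → ℂ, Differentiable ℂ g ∧ ∀ z, f (y + z • a) = (z - z₀) ^ l * g z :=
  div_pow (diff_line hf y) l fun j hj => by rw [dir_line hf j y z₀]; exact h j hj

theorem dir_iter_per {h : Vd (k + 1) → ℂ} (hh : ∀ y, AnalyticAt ℂ h y) (hf : ∀ y, AnalyticAt ℂ f y) {v : Vd (k + 1)} (hper : ∀ y, h y * f (y + v) = f y) {j : ℕ} {y : Vd (k + 1)}
    (h0 : ∀ i < j, (dir a)^[i] f (y + v) = 0) : h y * (dir a)^[j] f (y + v) = (dir a)^[j] f y := by
  obtain ⟨G, hG, h1⟩ := dir_zero (a := a) hf (l := j) (y := y + v) (z₀ := 0) (by simpa using h0)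
  have h2 : (fun w : ℂ => f (y + v + w • a)) = fun w : ℂ => (w - 0) ^ j * G w := funext h1
  have h3 : (fun w : ℂ => f (y + w • a)) = fun w : ℂ => (w - 0) ^ j * (h (y + w • a) * G w) := by
    funext w
    rw [← hper (y + w • a)]
    have : y + w • a + v = y + v + w • a := by abel
    rw [this, h1 w]
    ring
  have h4 := dir_line (a := a) hf j (y + v) 0
  have h5 := dir_line (a := a) hf j y 0
  rw [h2, iter_pow 0 j G hG] at h4
  rw [h3, iter_pow 0 j (fun w : ℂ => h (y + w • a) * G w) ((diff_line hh y).mul hG)] at h5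
  simp only [zero_smul, add_zero] at h4 h5
  rw [← h4, ← h5]
  ring

end Pool.Agent.G4.H

end

section

/-!
# HE Lim: limits of curves on lines

Adapted from `PX/Lim`.
-/

set_option autoImplicit false

open Topology Filter Metric

namespace Pool.Agent.HE

open Pool.Agent.H36.BP (EN fs wd)
open Pool.Agent.H62.EF (MN pr)
open Pool.Agent.AD (Vd)
open Pool.Agent.TG (Lat Gd)
open Pool.Agent.G3 (wt LLift)

variable {N k q r : ℕ} {Λ : AddSubgroup (Vd (k + 1))} {D : Set (Vd (k + 1))} {X : Set (Vd (k + 1) × EN N)} {F : Fin q → Vd (k + 1) × EN N → ℂ} {d : Fin q → ℕ}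
  {W : Fin q → Fin r → Vd (k + 1) →L[ℂ] ℂ}

/-- a point outside of the closed set `D` has positive distance from `D` -/
theorem Lim_gd {D : Set (Vd (k + 1))} (hD : IsClosed D) {y : Vd (k + 1)} (hy : y ∉ D) : ∃ δ : ℝ, 0 < δ ∧ y ∈ Gd D δ := by
  have h1 : Dᶜ ∈ 𝓝 y := hD.isOpen_compl.mem_nhds hy
  obtain ⟨δ, hδ, h⟩ := Metric.mem_nhds_iff.mp h1
  refine ⟨δ, hδ, fun b hb => ?_⟩
  by_contra hlt
  push Not at hlt
  have hb' : b ∈ ball y δ := by
    rw [mem_ball, dist_comm, dist_eq_norm]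
    exact hlt
  exact h hb' hb

/-- Cauchy's estimate for the derivatives -/
theorem Lim_deriv {g : ℂ → Vd (k + 1)} {y a : Vd (k + 1)} {r ε : ℝ} {V : Set ℂ} (hV : IsOpen V) (hr : closedBall (0 : ℂ) (r + 1) ⊆ V)
    (hg : DifferentiableOn ℂ g V) (hε : ∀ z ∈ closedBall (0 : ℂ) (r + 1), ‖g z - (y + z • a)‖ < ε) {z : ℂ} (hz : z ∈ closedBall (0 : ℂ) r) :
    ‖deriv g z‖ ≤ ε + ‖a‖ := by
  have hH : Differentiable ℂ fun z : ℂ => y + z • a := by fun_prop
  have hsub : closedBall z 1 ⊆ closedBall (0 : ℂ) (r + 1) := by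
    refine closedBall_subset_closedBall' ?_
    have := mem_closedBall.mp hz
    linarith
  have hgd : DifferentiableOn ℂ g (closedBall z 1) := hg.mono (hsub.trans hr)
  have hd : DiffContOnCl ℂ (fun w => g w - (y + w • a)) (ball z 1) := by
    have h1 : DifferentiableOn ℂ (fun w => g w - (y + w • a)) (closedBall z 1) := hgd.sub hH.differentiableOn
    have h2 : DifferentiableOn ℂ (fun w => g w - (y + w • a)) (closure (ball z 1)) := h1.mono closure_ball_subset_closedBall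
    exact h2.diffContOnCl
  have h1 := Complex.norm_deriv_le_of_forall_mem_sphere_norm_le (c := z) one_pos hd (C := ε) fun w hw =>
    (hε w (hsub (sphere_subset_closedBall hw))).le
  have hgz : DifferentiableAt ℂ g z := hg.differentiableAt (hV.mem_nhds (hr (hsub (mem_closedBall_self zero_le_one))))
  have hHz : deriv (fun z : ℂ => y + z • a) z = a := by
    have h2 : HasDerivAt (fun z : ℂ => y + z • a) ((1 : ℂ) • a) z := ((hasDerivAt_id z).smul_const a).const_add y
    rw [h2.deriv, one_smul]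
  rw [deriv_fun_sub hgz (hH z), div_one, hHz] at h1
  have h3 := norm_add_le (deriv g z - a) a
  rw [sub_add_cancel] at h3
  linarith

private theorem Lim_countable (P : HD Λ D X F d W) {a : Vd (k + 1)} (ha : a ≠ 0) (y : Vd (k + 1)) : {z : ℂ | y + z • a ∈ D}.Countable := by
  have h : ∀ z ∈ {z : ℂ | y + z • a ∈ D}, ∀ᶠ w in 𝓝[≠] z, w ∉ {z : ℂ | y + z • a ∈ D} := by
    intro z _
    have h1 := P.iso a ha (y + z • a)
    rw [eventually_nhdsWithin_iff, Metric.eventually_nhds_iff] at h1 ⊢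
    obtain ⟨ε, hε, h1⟩ := h1
    refine ⟨ε, hε, fun w hw hwz => ?_⟩
    have h2 : w - z ∈ ({0}ᶜ : Set ℂ) := fun h3 => hwz (sub_eq_zero.1 h3)
    have h3 := @h1 (w - z) (by rwa [dist_zero_right, ← dist_eq_norm]) h2
    intro h4
    refine h3 ?_
    have h5 : y + z • a + (w - z) • a = y + w • a := by rw [sub_smul]; abel
    rw [h5]
    exact h4
  have hd : DiscreteTopology {z : ℂ | y + z • a ∈ D} := by
    rw [discreteTopology_subtype_iff]
    intro z hz
    rw [Filter.inf_principal_eq_bot]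
    exact h z hz
  rw [← Set.countable_coe_iff]
  exact countable_of_Lindelof_of_discrete

private theorem Lim_tend {f₀ : Vd (k + 1) × EN N → ℂ} (hF : Continuous f₀) {l : Filter ℕ} {f : ℕ → Vd (k + 1)} {g : ℕ → EN N}
    {p : Vd (k + 1)} {q : EN N} (hf : Tendsto f l (𝓝 p)) (hg : Tendsto g l (𝓝 q)) : Tendsto (fun n => f₀ (f n, g n)) l (𝓝 (f₀ (p, q))) := by
  have h1 : Tendsto (fun n => (f n, g n)) l (𝓝 (p, q)) := hf.prodMk_nhds hg
  have h2 := (hF.tendsto (p, q)).comp h1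
  exact h2

private theorem Lim_dich {U : Set ℂ} (hU : IsPreconnected U) {p : ℂ → Prop}
    (h : ∀ z₀ ∈ U, ∃ r : ℝ, 0 < r ∧ ((∀ z ∈ ball z₀ r, p z) ∨ ∀ z ∈ ball z₀ r, ¬ p z)) {z₀ : ℂ} (hz₀ : z₀ ∈ U) (hp₀ : p z₀) : ∀ z ∈ U, p z := by
  set V : Set ℂ := {z | ∀ᶠ w in 𝓝 z, p w} with hV
  have hVo : IsOpen V := by
    rw [isOpen_iff_mem_nhds]
    intro z hz
    exact hz.eventually_nhds
  have hpV : ∀ z ∈ U, p z → z ∈ V := by
    intro z hz hp
    obtain ⟨r, hr, h1 | h1⟩ := h z hz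
    · exact Filter.eventually_of_mem (isOpen_ball.mem_nhds (mem_ball_self hr)) h1
    · exact absurd hp (h1 z (mem_ball_self hr))
  have hsub : U ⊆ V := by
    refine hU.subset_of_closure_inter_subset hVo ⟨z₀, hz₀, hpV z₀ hz₀ hp₀⟩ ?_
    rintro z ⟨hzc, hz⟩
    obtain ⟨r, hr, h1 | h1⟩ := h z hz
    · exact hpV z hz (h1 z (mem_ball_self hr))
    · obtain ⟨w, hw1, hw2⟩ := _root_.mem_closure_iff.1 hzc (ball z r) isOpen_ball (mem_ball_self hr)
      exact absurd hw2.self_of_nhds (h1 w hw1)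
  exact fun z hz => (hsub hz : z ∈ V).self_of_nhds

theorem HD.ls_zr (P : HD Λ D X F d W) (j : Fin q) {y a : Vd (k + 1)} (ha : a ≠ 0) {𝒰 : Ultrafilter ℕ} {w : ℕ → ℂ → EN N} {h : ℕ → ℂ → Vd (k + 1)} {g : ℂ → MN N}
    (S : LS X F D y a 𝒰 w h g) {z₀ : ℂ} (hz₀ : y + z₀ • a ∉ D) {x : EN N} (hx : x ≠ 0) (hxg : pr x = g z₀) (h0 : F j (y + z₀ • a, x) = 0) : Zr (F j) D y a g := by
  classical
  have hHc : Continuous fun z : ℂ => y + z • a := by fun_prop
  have hHd : Differentiable ℂ fun z : ℂ => y + z • a := by fun_prop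
  have hUo : IsOpen {z : ℂ | y + z • a ∉ D} := P.D_closed.isOpen_compl.preimage hHc
  have hUc : IsPreconnected {z : ℂ | y + z • a ∉ D} :=
    (Set.Countable.isConnected_compl_of_one_lt_rank (E := ℂ) (by rw [Complex.rank_real_complex]; exact_mod_cast one_lt_two)
      (Lim_countable P ha y)).isPreconnected
  have hF : Differentiable ℂ (F j) := P.an j
  -- two lifts of the same line
  have hpr : ∀ (z : ℂ) {v x : EN N}, v ≠ 0 → x ≠ 0 → pr x = pr v → F j (y + z • a, v) = 0 → F j (y + z • a, x) = 0 := by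
    intro z v x hv hx hxv hF0
    obtain ⟨c, -, hc⟩ := (Pool.Agent.H62.EF.pr_eq_iff hx hv).mp hxv
    rw [hc, P.hom, hF0, mul_zero]
  have hgcont : ∀ z : ℂ, y + z • a ∉ D → ContinuousAt g z := by
    intro z hz
    obtain ⟨Φ, hΦ, hΦe⟩ := S.lift z hz
    have h1 : ContinuousAt (fun v => pr (Φ v)) z := (Pool.Agent.H62.EF.continuousAt_pr hΦe.self_of_nhds.1).comp hΦ.continuousAt
    exact h1.congr (hΦe.mono fun v hv => hv.2.symm)
  refine Lim_dich hUc (p := fun z => ∀ x : EN N, x ≠ 0 → pr x = g z → F j (y + z • a, x) = 0) ?_ hz₀ ?_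
  swap
  · intro x' hx' hxg'
    exact hpr z₀ hx hx' (hxg'.trans hxg.symm) h0
  intro z₁ hz₁
  obtain ⟨Φ, hΦ, hΦe⟩ := S.lift z₁ hz₁
  obtain ⟨v, hv⟩ : ∃ v, v = Φ z₁ := ⟨_, rfl⟩
  have hv0 : v ≠ 0 := by rw [hv]; exact hΦe.self_of_nhds.1
  have hin : ∀ᶠ z in 𝓝 z₁, (inner ℂ v (Φ z) : ℂ) ≠ 0 := by
    have h1 : ContinuousAt (fun z => (inner ℂ v (Φ z) : ℂ)) z₁ := continuousAt_const.inner hΦ.continuousAt
    refine h1.eventually_ne ?_
    rw [← hv]
    exact inner_self_ne_zero.2 hv0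
  have hUe : ∀ᶠ z in 𝓝 z₁, y + z • a ∉ D := hUo.mem_nhds hz₁
  obtain ⟨r₀, hr₀, hr⟩ := Metric.eventually_nhds_iff_ball.1 ((hΦe.and hin).and (hUe.and hΦ.eventually_analyticAt))
  obtain ⟨r, hrdef⟩ : ∃ r : ℝ, r = r₀ / 2 := ⟨_, rfl⟩
  have hr0 : 0 < r := by rw [hrdef]; positivity
  have hKr : closedBall z₁ r ⊆ ball z₁ r₀ := closedBall_subset_ball (by rw [hrdef]; linarith)
  have hbr : ball z₁ r ⊆ closedBall z₁ r := ball_subset_closedBall
  have hK : IsCompact (closedBall z₁ r) := isCompact_closedBall _ _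
  have hgpr : ∀ z ∈ closedBall z₁ r, Φ z ≠ 0 ∧ g z = pr (Φ z) ∧ (inner ℂ v (Φ z) : ℂ) ≠ 0 ∧ y + z • a ∉ D := fun z hz =>
    ⟨(hr z (hKr hz)).1.1.1, (hr z (hKr hz)).1.1.2, (hr z (hKr hz)).1.2, (hr z (hKr hz)).2.1⟩
  have hnv : ∀ z ∈ closedBall z₁ r, Pool.Agent.G3.C.nv v (g z) = (inner ℂ v (Φ z) : ℂ)⁻¹ • Φ z := by
    intro z hz
    rw [(hgpr z hz).2.1, Pool.Agent.G3.C.nv_pr (hgpr z hz).2.2.1]
  have hnd : ∀ z ∈ closedBall z₁ r, Pool.Agent.G3.C.nd v (g z) ≠ 0 := by
    intro z hz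
    rw [(hgpr z hz).2.1]
    exact (Pool.Agent.G3.C.nd_pr_ne (hgpr z hz).1).2 (hgpr z hz).2.2.1
  -- the curves near `z₁`
  obtain ⟨ε, hε, hεs⟩ : ∃ ε : ℝ, 0 < ε ∧ thickening ε (g '' closedBall z₁ r) ⊆ {m : MN N | Pool.Agent.G3.C.nd v m ≠ 0} := by
    refine (hK.image_of_continuousOn fun z hz => (hgcont z (hgpr z hz).2.2.2).continuousWithinAt).exists_thickening_subset_open
      (isOpen_ne.preimage (Pool.Agent.G3.C.nd_cont v)) ?_
    rintro m ⟨z, hz, rfl⟩
    exact hnd z hz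
  have hcurve : ∀ᶠ n in (𝒰 : Filter ℕ), Cw X F (ball z₁ r) (w n) (h n) := by
    filter_upwards [S.cv (‖z₁‖ + r)] with n hn
    refine hn.mono fun z hz => ?_
    rw [mem_ball, dist_zero_right]
    have h1 : dist z z₁ < r := mem_ball.mp hz
    have h2 := norm_le_norm_add_norm_sub' z z₁
    rw [← dist_eq_norm] at h2
    linarith
  have hin2 : ∀ᶠ n in (𝒰 : Filter ℕ), ∀ z ∈ ball z₁ r, w n z ≠ 0 ∧ (inner ℂ v (w n z) : ℂ) ≠ 0 := by
    filter_upwards [hcurve, S.lim (closedBall z₁ r) hK (fun z hz => (hgpr z hz).2.2.2) ε hε] with n h1 h2 z hz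
    have h3 : w n z ≠ 0 := h1.w_ne _ hz
    refine ⟨h3, (Pool.Agent.G3.C.nd_pr_ne h3).1 (hεs ?_)⟩
    rw [mem_thickening_iff]
    exact ⟨g z, ⟨z, hbr hz, rfl⟩, h2 z (hbr hz)⟩
  have hkey := Pool.Agent.H62.Log.hurwitz 𝒰 (a := z₁) (r := r) (φ := fun n z => F j (h n z, Pool.Agent.G3.C.nv v (pr (w n z))))
    (ψ := fun z => F j (y + z • a, Pool.Agent.G3.C.nv v (g z))) ?_ ?_ ?_ ?_
  · refine ⟨r, hr0, ?_⟩
    rcases hkey with hk | hk
    · left
      intro z hz x' hx' hxg'
      have h1 : F j (y + z • a, Pool.Agent.G3.C.nv v (g z)) = 0 := hk z hz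
      rw [hnv z (hbr hz)] at h1
      refine hpr z (smul_ne_zero (inv_ne_zero (hgpr z (hbr hz)).2.2.1) (hgpr z (hbr hz)).1) hx' ?_ h1
      rw [Pool.Agent.H62.EF.pr_smul _ (inv_ne_zero (hgpr z (hbr hz)).2.2.1), hxg', (hgpr z (hbr hz)).2.1]
    · right
      intro z hz hp
      refine hk z hz ?_
      show F j (y + z • a, Pool.Agent.G3.C.nv v (g z)) = 0
      rw [hnv z (hbr hz)]
      refine hp _ (smul_ne_zero (inv_ne_zero (hgpr z (hbr hz)).2.2.1) (hgpr z (hbr hz)).1) ?_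
      rw [Pool.Agent.H62.EF.pr_smul _ (inv_ne_zero (hgpr z (hbr hz)).2.2.1), (hgpr z (hbr hz)).2.1]
  · filter_upwards [hcurve, hin2] with n h1 h2
    have h4 : DifferentiableOn ℂ (fun z => (inner ℂ v (w n z) : ℂ)) (ball z₁ r) := (innerSL ℂ v).differentiable.comp_differentiableOn h1.w_diff
    have h5 : DifferentiableOn ℂ (fun z => (inner ℂ v (w n z) : ℂ)⁻¹ • w n z) (ball z₁ r) := (h4.inv fun z hz => (h2 z hz).2).smul h1.w_diff
    have h6 : DifferentiableOn ℂ (fun z => F j (h n z, (inner ℂ v (w n z) : ℂ)⁻¹ • w n z)) (ball z₁ r) := hF.comp_differentiableOn (h1.h_diff.prodMk h5)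
    exact h6.congr fun z hz => by simp only [Pool.Agent.G3.C.nv_pr (h2 z hz).2]
  · filter_upwards [hcurve, hin2] with n h1 h2 z hz
    simp only [Pool.Agent.G3.C.nv_pr (h2 z hz).2]
    rw [P.hom]
    exact mul_ne_zero (pow_ne_zero _ (inv_ne_zero (h2 z hz).2)) (h1.ne j z hz)
  · have h3 : DifferentiableOn ℂ Φ (ball z₁ r) := fun z hz => (hr z (hKr (hbr hz))).2.2.differentiableAt.differentiableWithinAt
    have h4 : DifferentiableOn ℂ (fun z => (inner ℂ v (Φ z) : ℂ)) (ball z₁ r) := (innerSL ℂ v).differentiable.comp_differentiableOn h3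
    have h5 : DifferentiableOn ℂ (fun z => (inner ℂ v (Φ z) : ℂ)⁻¹ • Φ z) (ball z₁ r) := (h4.inv fun z hz => (hgpr z (hbr hz)).2.2.1).smul h3
    have h6 : DifferentiableOn ℂ (fun z : ℂ => F j (y + z • a, (inner ℂ v (Φ z) : ℂ)⁻¹ • Φ z)) (ball z₁ r) :=
      hF.comp_differentiableOn (hHd.differentiableOn.prodMk h5)
    exact h6.congr fun z hz => by simp only [hnv z (hbr hz)]
  · intro zs z' hz' hzs
    have hbn : ∀ᶠ n in (𝒰 : Filter ℕ), zs n ∈ ball z₁ r := hzs.eventually (isOpen_ball.mem_nhds hz')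
    have e1 : Tendsto (fun n => h n (zs n)) (𝒰 : Filter ℕ) (𝓝 (y + z' • a)) := by
      have h1 : Tendsto (fun n => y + zs n • a) (𝒰 : Filter ℕ) (𝓝 (y + z' • a)) := (hHc.tendsto z').comp hzs
      have h2 : Tendsto (fun n => h n (zs n) - (y + zs n • a)) (𝒰 : Filter ℕ) (𝓝 0) := by
        rw [Metric.tendsto_nhds]
        intro ε' hε'
        filter_upwards [hbn, S.hh (‖z₁‖ + r) ε' hε'] with n hn1 hn2
        rw [dist_zero_right]
        refine hn2 _ ?_
        rw [mem_closedBall, dist_zero_right]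
        have h1 : dist (zs n) z₁ < r := mem_ball.mp hn1
        have h2 := norm_le_norm_add_norm_sub' (zs n) z₁
        rw [← dist_eq_norm] at h2
        linarith
      have h3 := h2.add h1
      simp only [sub_add_cancel, zero_add] at h3
      exact h3
    have e2 : Tendsto (fun n => pr (w n (zs n))) (𝒰 : Filter ℕ) (𝓝 (g z')) := by
      have h1 : Tendsto (fun n => g (zs n)) (𝒰 : Filter ℕ) (𝓝 (g z')) := (hgcont z' (hgpr z' (hbr hz')).2.2.2).tendsto.comp hzs
      refine h1.congr_dist ?_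
      rw [Metric.tendsto_nhds]
      intro ε' hε'
      filter_upwards [hbn, S.lim (closedBall z₁ r) hK (fun z hz => (hgpr z hz).2.2.2) ε' hε'] with n hn1 hn2
      rw [dist_zero_right, Real.norm_of_nonneg dist_nonneg, dist_comm]
      exact hn2 _ (hbr hn1)
    have e3 : Tendsto (fun n => Pool.Agent.G3.C.nv v (pr (w n (zs n)))) (𝒰 : Filter ℕ) (𝓝 (Pool.Agent.G3.C.nv v (g z'))) :=
      (Pool.Agent.G3.C.nv_continuousAt (hnd z' (hbr hz'))).tendsto.comp e2
    exact Lim_tend hF.continuous e1 e3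

end Pool.Agent.HE

end
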