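import Pool.Agent.H94.PX4.M04
import Pool.Agent.H94.PX4.M14
import Pool.Agent.H94.PX4.M38

/-! The parts of this file: G4.K.Rs, G4.K.Sy, H36.BP.SubD. -/

section

/-!
# G4 K Rs: existence of root systems

One variable: `f` analytic at the points of the closed disc, not `0` on the circle: `f w = ∏ (w - b i) * h w`, `h` analytic and not `0` on the closed disc (finitely many zeros; divide them out one after the other).
The number of the zeros of `σ (x, ·)` is `(2 π i)⁻¹ ∮ deriv (σ (x, ·)) w / σ (x, w)`, continuous in `x` near `x₀` (`H22.HF.analyticAt_circleIntegral`) and an integer, so constant on a small ball.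
-/

set_option autoImplicit false

open Topology Filter Metric

namespace Pool.Agent.G4.K

open Pool.Agent.AD (Vd)

variable {E : Type} [NormedAddCommGroup E] [NormedSpace ℂ E] [FiniteDimensional ℂ E]

omit [FiniteDimensional ℂ E] in
/-- the partial derivative with respect to the last variable -/
private theorem rs_deriv {σ : E × ℂ → ℂ} {x : E} {w : ℂ} (h : AnalyticAt ℂ σ (x, w)) : deriv (fun t : ℂ => σ (x, t)) w = fderiv ℂ σ (x, w) (0, 1) := by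
  have h1 : HasFDerivAt σ (fderiv ℂ σ (x, w)) (x, w) := h.differentiableAt.hasFDerivAt
  have h2 : HasDerivAt (fun t : ℂ => (x, t)) ((0 : E), (1 : ℂ)) w := (hasDerivAt_const w x).prodMk (hasDerivAt_id w)
  exact (h1.comp_hasDerivAt w h2).deriv

omit [FiniteDimensional ℂ E] in
/-- one parameter value: the factorisation, and the number of the factors -/
private theorem rs_one {σ : E × ℂ → ℂ} {x : E} {r : ℝ} (hr : 0 < r) (han : ∀ w : ℂ, ‖w‖ ≤ r → AnalyticAt ℂ σ (x, w)) (hne : ∀ w : ℂ, ‖w‖ = r → σ (x, w) ≠ 0) :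
    ∃ (n : ℕ) (b : Fin n → ℂ), (∀ i, ‖b i‖ < r) ∧
      (∃ h : ℂ → ℂ, (∀ w : ℂ, ‖w‖ ≤ r → AnalyticAt ℂ h w ∧ h w ≠ 0) ∧ ∀ w : ℂ, ‖w‖ ≤ r → σ (x, w) = (∏ i, (w - b i)) * h w) ∧
      (∮ t in C(0, r), fderiv ℂ σ (x, t) (0, 1) / σ (x, t)) = 2 * Real.pi * Complex.I * n := by
  have hφ : ∀ t ∈ closedBall (0 : ℂ) r, AnalyticAt ℂ (fun w : ℂ => σ (x, w)) t := fun t ht =>
    (han t (mem_closedBall_zero_iff.1 ht)).comp_of_eq (analyticAt_const.prod analyticAt_id) rfl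
  obtain ⟨n, b, h, hb, hh, hf⟩ := Pool.Agent.H22.HF.exists_fac hr hφ fun t ht => hne t (mem_sphere_zero_iff_norm.1 ht)
  refine ⟨n, b, hb, ⟨h, fun w hw => hh w (mem_closedBall_zero_iff.2 hw), fun w hw => (hf w (mem_closedBall_zero_iff.2 hw)).self_of_nhds⟩, ?_⟩
  have h1 := Pool.Agent.H22.HF.power_sum hr hb hh hf (H := fun _ => 1) fun _ _ => analyticAt_const
  have h2 : (∮ t in C(0, r), fderiv ℂ σ (x, t) (0, 1) / σ (x, t)) = ∮ t in C(0, r), (1 : ℂ) * deriv (fun w : ℂ => σ (x, w)) t / σ (x, t) := by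
    refine circleIntegral.integral_congr hr.le fun t ht => ?_
    rw [one_mul, rs_deriv (han t (mem_sphere_zero_iff_norm.1 ht).le)]
  rw [h2, h1]
  simp

theorem exists_rsys {σ : E × ℂ → ℂ} {x₀ : E} {r : ℝ} (hr : 0 < r) (han : ∀ w : ℂ, ‖w‖ ≤ r → AnalyticAt ℂ σ (x₀, w)) (hne : ∀ w : ℂ, ‖w‖ = r → σ (x₀, w) ≠ 0) :
    ∃ (δ : ℝ) (n : ℕ) (β : E → Fin n → ℂ), 0 < δ ∧ RSys (ball x₀ δ) r σ β := by
  classical
  obtain ⟨u₁, v₁, hu₁, _, hpu₁, htv₁, huv₁⟩ := generalized_tube_lemma (isCompact_singleton (x := x₀)) (isCompact_closedBall (0 : ℂ) r) (isOpen_analyticAt ℂ σ) (by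
    rintro ⟨p, t⟩ ⟨hp, ht⟩
    simp only [Set.mem_singleton_iff] at hp
    subst hp
    exact han t (mem_closedBall_zero_iff.1 ht))
  have hWo : IsOpen {q : E × ℂ | AnalyticAt ℂ σ q ∧ σ q ≠ 0} := by
    rw [isOpen_iff_mem_nhds]
    rintro q ⟨h1, h2⟩
    exact h1.eventually_analyticAt.and (h1.continuousAt.eventually_ne h2)
  obtain ⟨u₂, v₂, hu₂, _, hpu₂, htv₂, huv₂⟩ := generalized_tube_lemma (isCompact_singleton (x := x₀)) (isCompact_sphere (0 : ℂ) r) hWo (by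
    rintro ⟨p, t⟩ ⟨hp, ht⟩
    simp only [Set.mem_singleton_iff] at hp
    subst hp
    have ht' : ‖t‖ = r := mem_sphere_zero_iff_norm.1 ht
    exact ⟨han t ht'.le, hne t ht'⟩)
  have hA : ∀ x ∈ u₁, ∀ w : ℂ, ‖w‖ ≤ r → AnalyticAt ℂ σ (x, w) := fun x hx w hw => huv₁ ⟨hx, htv₁ (mem_closedBall_zero_iff.2 hw)⟩
  have hN : ∀ x ∈ u₂, ∀ w : ℂ, ‖w‖ = r → σ (x, w) ≠ 0 := fun x hx w hw => (huv₂ ⟨hx, htv₂ (mem_sphere_zero_iff_norm.2 hw)⟩).2
  obtain ⟨n, b₀, _, _, hn⟩ := rs_one (x := x₀) hr han hne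
  have hI : AnalyticAt ℂ (fun x : E => ∮ t in C(0, r), (fun q : E × ℂ => fderiv ℂ σ q (0, 1) / σ q) (x, t)) x₀ := by
    refine Pool.Agent.H22.HF.analyticAt_circleIntegral (E := E) (F := fun q : E × ℂ => fderiv ℂ σ q (0, 1) / σ q) hr fun t ht => ?_
    have ht' : ‖t‖ = r := mem_sphere_zero_iff_norm.1 ht
    have h1 : AnalyticAt ℂ (fun q : E × ℂ => fderiv ℂ σ q ((0 : E), (1 : ℂ))) (x₀, t) :=
      ((ContinuousLinearMap.apply ℂ ℂ ((0 : E), (1 : ℂ))).analyticAt _).comp (han t ht'.le).fderiv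
    exact h1.div (han t ht'.le) (hne t ht')
  have hpi : 0 < 2 * Real.pi := by positivity
  have hev : ∀ᶠ x in 𝓝 x₀, x ∈ u₁ ∧ x ∈ u₂ ∧ ‖(∮ t in C(0, r), fderiv ℂ σ (x, t) (0, 1) / σ (x, t)) - 2 * Real.pi * Complex.I * n‖ < 2 * Real.pi := by
    have h1 := hI.continuousAt
    rw [Metric.continuousAt_iff] at h1
    obtain ⟨ε, hε, h2⟩ := h1 (2 * Real.pi) hpi
    filter_upwards [hu₁.mem_nhds (hpu₁ rfl), hu₂.mem_nhds (hpu₂ rfl), ball_mem_nhds x₀ hε] with x e1 e2 e3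
    refine ⟨e1, e2, ?_⟩
    have h3 := h2 e3
    rw [dist_eq_norm] at h3
    simp only [hn] at h3
    exact h3
  obtain ⟨δ, hδ, hball⟩ := Metric.eventually_nhds_iff_ball.1 hev
  have hx : ∀ x ∈ ball x₀ δ, ∃ b : Fin n → ℂ, (∀ i, ‖b i‖ < r) ∧
      ∃ h : ℂ → ℂ, (∀ w : ℂ, ‖w‖ ≤ r → AnalyticAt ℂ h w ∧ h w ≠ 0) ∧ ∀ w : ℂ, ‖w‖ ≤ r → σ (x, w) = (∏ i, (w - b i)) * h w := by
    intro x hx
    obtain ⟨e1, e2, e3⟩ := hball x hx
    obtain ⟨m, b, f1, f2, f3⟩ := rs_one hr (hA x e1) (hN x e2)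
    have hmn : m = n := by
      rw [f3, ← mul_sub, norm_mul] at e3
      have h4 : ‖(2 * Real.pi * Complex.I : ℂ)‖ = 2 * Real.pi := by
        simp [abs_of_pos Real.pi_pos]
      have h5 : ‖(m : ℂ) - n‖ < 1 := by
        rw [h4] at e3
        by_contra h6
        nlinarith [not_lt.1 h6]
      have h6 : ((m : ℂ) - n) = (((m : ℤ) - (n : ℤ) : ℤ) : ℂ) := by push_cast; ring
      rw [h6, Complex.norm_intCast] at h5
      have h7 : |((m : ℤ) - (n : ℤ) : ℤ)| < 1 := by exact_mod_cast h5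
      rw [Int.abs_lt_one_iff] at h7
      omega
    subst hmn
    exact ⟨b, f1, f2⟩
  choose! β hβ using hx
  exact ⟨δ, n, β, hδ, isOpen_ball, hr, fun x hx => hA x (hball x hx).1, fun x hx => hN x (hball x hx).2.1, fun x hx => (hβ x hx).1, fun x hx => (hβ x hx).2⟩

end Pool.Agent.G4.K

end

section

/-!
# G4 K Sy: the norm is holomorphic

For `x ∈ U` and `F` analytic on the closed disc: `∑ i, F (x, β x i) = (2 π i)⁻¹ ∮ F (x, w) (deriv (σ (x, ·)) w / σ (x, w))` (logarithmic derivative of the factorisation, Cauchy), analytic in `x` (`H22.HF.analyticAt_circleIntegral`).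
With `F ^ p`: the power sums of the `F (x, β x i)` are analytic; by Newton's identities (`MvPolynomial.mul_esymm_eq_sum`) the elementary symmetric functions are analytic; the norm is the last one.
-/

set_option autoImplicit false

open Topology Filter Metric

namespace Pool.Agent.G4.K

open Pool.Agent.AD (Vd)

/-- the normalised contour integral -/
private noncomputable def syA {E : Type} [NormedAddCommGroup E] [NormedSpace ℂ E] (g : E × ℂ → ℂ) (ρ : ℝ) (H : E × ℂ → ℂ) (p : E) : ℂ :=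
  (2 * Real.pi * Complex.I)⁻¹ * ∮ t in C(0, ρ), H (p, t) * fderiv ℂ g (p, t) (0, 1) / g (p, t)

private theorem syA_analytic {E : Type} [NormedAddCommGroup E] [NormedSpace ℂ E] [FiniteDimensional ℂ E] {g H : E × ℂ → ℂ} {ρ : ℝ} (hρ : 0 < ρ) {p : E}
    (hg : ∀ t ∈ sphere (0 : ℂ) ρ, AnalyticAt ℂ g (p, t)) (hH : ∀ t ∈ sphere (0 : ℂ) ρ, AnalyticAt ℂ H (p, t)) (hn : ∀ t ∈ sphere (0 : ℂ) ρ, g (p, t) ≠ 0) :
    AnalyticAt ℂ (syA g ρ H) p := by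
  unfold syA
  refine analyticAt_const.mul (H22.HF.analyticAt_circleIntegral (F := fun z => H z * fderiv ℂ g z (0, 1) / g z) hρ ?_)
  intro t ht
  refine ((hH t ht).mul ?_).div (hg t ht) (hn t ht)
  exact (ContinuousLinearMap.analyticAt (ContinuousLinearMap.apply ℂ ℂ ((0, 1) : E × ℂ)) _).comp (hg t ht).fderiv

private theorem syA_eq {E : Type} [NormedAddCommGroup E] [NormedSpace ℂ E] [FiniteDimensional ℂ E] {g H : E × ℂ → ℂ} {ρ : ℝ} (hρ : 0 < ρ) {p : E}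
    (hg : ∀ t ∈ closedBall (0 : ℂ) ρ, AnalyticAt ℂ g (p, t)) (hH : ∀ t ∈ closedBall (0 : ℂ) ρ, AnalyticAt ℂ H (p, t))
    {w : ℂ → ℂ} {ν : ℕ} {r : Fin ν → ℂ} (hr : ∀ i, ‖r i‖ < ρ) (hw : ∀ t ∈ closedBall (0 : ℂ) ρ, AnalyticAt ℂ w t ∧ w t ≠ 0)
    (hφ : ∀ t ∈ closedBall (0 : ℂ) ρ, (fun t => g (p, t)) =ᶠ[𝓝 t] fun t => (∏ i, (t - r i)) * w t) :
    syA g ρ H p = ∑ i, H (p, r i) := by
  have hin : ∀ t : ℂ, AnalyticAt ℂ (fun t : ℂ => ((p, t) : E × ℂ)) t := fun t => analyticAt_const.prod analyticAt_id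
  have hps := H22.HF.power_sum (H := fun t => H (p, t)) hρ hr hw hφ (fun t ht => (hH t ht).comp (hin t))
  have hint : (∮ t in C(0, ρ), H (p, t) * fderiv ℂ g (p, t) (0, 1) / g (p, t)) = ∮ t in C(0, ρ), H (p, t) * deriv (fun t => g (p, t)) t / g (p, t) := by
    refine circleIntegral.integral_congr hρ.le (fun t ht => ?_)
    have h1 : HasFDerivAt g (fderiv ℂ g (p, t)) (p, t) := (hg t (sphere_subset_closedBall ht)).differentiableAt.hasFDerivAt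
    have h2 : HasDerivAt (fun t : ℂ => ((p, t) : E × ℂ)) ((0, 1) : E × ℂ) t := (hasDerivAt_const t p).prodMk (hasDerivAt_id t)
    have h3 : HasDerivAt (fun t => g (p, t)) (fderiv ℂ g (p, t) (0, 1)) t := h1.comp_hasDerivAt t h2
    simp only [h3.deriv]
  unfold syA
  rw [hint, hps, ← mul_assoc, inv_mul_cancel₀, one_mul]
  exact Complex.two_pi_I_ne_zero

/-- two functions which are analytic at the points of a closed disc and equal on it are equal near its points -/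
private theorem eventuallyEq_closedBall {f g : ℂ → ℂ} {ρ : ℝ} (hρ : 0 < ρ) (hf : ∀ t ∈ closedBall (0 : ℂ) ρ, AnalyticAt ℂ f t) (hg : ∀ t ∈ closedBall (0 : ℂ) ρ, AnalyticAt ℂ g t)
    (h : ∀ t ∈ closedBall (0 : ℂ) ρ, f t = g t) {t : ℂ} (ht : t ∈ closedBall (0 : ℂ) ρ) : f =ᶠ[𝓝 t] g := by
  refine ((hf t ht).frequently_eq_iff_eventually_eq (hg t ht)).1 ?_
  have hcl : t ∈ closure (ball (0 : ℂ) ρ \ {t}) := by
    have h1 : closedBall (0 : ℂ) ρ ⊆ closure (ball (0 : ℂ) ρ) := by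
      rw [closure_ball (0 : ℂ) hρ.ne']
    have h2 : Dense ({t}ᶜ : Set ℂ) := dense_compl_singleton t
    have h3 : ball (0 : ℂ) ρ ⊆ closure (ball (0 : ℂ) ρ ∩ {t}ᶜ) := h2.open_subset_closure_inter isOpen_ball
    have h4 : ball (0 : ℂ) ρ \ {t} = ball (0 : ℂ) ρ ∩ {t}ᶜ := rfl
    rw [h4]
    exact closure_minimal h3 isClosed_closure (h1 ht)
  rw [mem_closure_iff_frequently] at hcl
  rw [frequently_nhdsWithin_iff]
  refine hcl.mono fun z hz => ⟨h z (ball_subset_closedBall hz.1), hz.2⟩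

variable {E : Type} [NormedAddCommGroup E] [NormedSpace ℂ E] [FiniteDimensional ℂ E] {U : Set E} {r : ℝ} {σ : E × ℂ → ℂ} {n : ℕ} {β : E → Fin n → ℂ}

theorem RSys.norm_an (R : RSys U r σ β) {F : E × ℂ → ℂ} (hF : ∀ x ∈ U, ∀ w : ℂ, ‖w‖ ≤ r → AnalyticAt ℂ F (x, w)) : ∀ x ∈ U, AnalyticAt ℂ (fun x => ∏ i, F (x, β x i)) x := by
  intro x₀ hx₀
  obtain ⟨P, hP⟩ := H22.HF.esymm_newton n
  have key : ∀ x ∈ U, ∀ k : ℕ, syA σ r (fun z => F z ^ (k + 1)) x = ∑ i, F (x, β x i) ^ (k + 1) := by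
    intro x hx k
    obtain ⟨h, h1, h2⟩ := R.fac x hx
    have hin : ∀ t : ℂ, AnalyticAt ℂ (fun t : ℂ => ((x, t) : E × ℂ)) t := fun t => analyticAt_const.prod analyticAt_id
    refine syA_eq R.pos (fun t ht => R.an x hx t (mem_closedBall_zero_iff.1 ht)) (fun t ht => (hF x hx t (mem_closedBall_zero_iff.1 ht)).pow _) (R.lt x hx)
      (fun t ht => h1 t (mem_closedBall_zero_iff.1 ht)) (fun t ht => ?_)
    refine eventuallyEq_closedBall R.pos ?_ ?_ ?_ ht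
    · intro t ht
      exact AnalyticAt.comp (g := σ) (f := fun t : ℂ => ((x, t) : E × ℂ)) (R.an x hx t (mem_closedBall_zero_iff.1 ht)) (hin t)
    · intro t ht
      refine AnalyticAt.mul ?_ (h1 t (mem_closedBall_zero_iff.1 ht)).1
      exact Finset.analyticAt_fun_prod _ (fun i _ => analyticAt_id.sub analyticAt_const)
    · intro t ht
      exact h2 t (mem_closedBall_zero_iff.1 ht)
  have han : ∀ k : ℕ, AnalyticAt ℂ (syA σ r (fun z => F z ^ (k + 1))) x₀ := by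
    intro k
    refine syA_analytic R.pos (fun t ht => R.an x₀ hx₀ t ?_) (fun t ht => (hF x₀ hx₀ t ?_).pow _) (fun t ht => R.ne x₀ hx₀ t (mem_sphere_zero_iff_norm.1 ht))
    · exact (mem_sphere_zero_iff_norm.1 ht).le
    · exact (mem_sphere_zero_iff_norm.1 ht).le
  have hev : (fun x => ∏ i, F (x, β x i)) =ᶠ[𝓝 x₀] fun x => MvPolynomial.aeval (fun k : Fin n => syA σ r (fun z => F z ^ ((k : ℕ) + 1)) x) P := by
    filter_upwards [R.op.mem_nhds hx₀] with x hx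
    rw [hP (fun i => F (x, β x i)), MvPolynomial.aeval_eq_eval]
    congr 1
    simp only [key x hx]
  refine AnalyticAt.congr (AnalyticAt.aeval_mvPolynomial (fun k : Fin n => han (k : ℕ)) P) hev.symm

end Pool.Agent.G4.K

end

section

/-!
# BP SubD: functions of the real part of a holomorphic function

* `of_re`: `w = w₀ + (w - w₀)`, `ψ(x) ≥ ψ(x₀) + ψ₁ (x - x₀) + (ψ₂/2 - δ)(x - x₀)²` near `x₀ = Re w₀`, `(Re ζ)² = |ζ|²/2 + Re(ζ²)/2`; support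
  `exp(ψ(x₀) + ψ₁ (w - w₀) + (ψ₂/4 - δ/2)(w - w₀)²)`, exponent `(ψ₂/4 - δ/2)|w'|²` up to `o(1)`.
* `log_rpow`: `w = log z` (a branch near `z₀`), `ψ(x) = -r log(-x)`, `ψ'' = r/x²`.
* `gain`: `s z₀ ≠ 0`: `w = log s`, `ψ(x) = e log(1 + M exp(2kx))`, `ψ'' = e 4k² M exp(2kx)/(1 + M exp(2kx))²`.
* `gain_zero`: `s z₀ = 0`, `s'(z₀) ≠ 0`, `0 < k < 1/2`.. every exponent: `(1 + M|s|^(2k))^e ≥ 1 + e' |z - z₀|^(2k) ≥ exp(c'|z - z₀|²)` near `z₀` (`k < 1`).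
-/

set_option autoImplicit false

namespace Pool.Agent.H36.BP

open Filter Topology Metric

variable {N : ℕ}

private theorem SubD_slope {w : ℂ → ℂ} {z₀ : ℂ} (hw : AnalyticAt ℂ w z₀) {κ c' : ℝ}
    (h : c' < κ * ‖deriv w z₀‖ ^ 2) :
    ∀ᶠ z in 𝓝 z₀, c' * ‖z - z₀‖ ^ 2 ≤ κ * ‖w z - w z₀‖ ^ 2 := by
  have h1 := (hasDerivAt_iff_tendsto_slope.1 hw.differentiableAt.hasDerivAt)
  have h2 : Tendsto (fun z => κ * ‖slope w z₀ z‖ ^ 2) (𝓝[≠] z₀) (𝓝 (κ * ‖deriv w z₀‖ ^ 2)) :=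
    (h1.norm.pow 2).const_mul κ
  have h3 := eventually_nhdsWithin_iff.1 (h2.eventually_const_lt h)
  filter_upwards [h3] with z hz
  by_cases hzz : z = z₀
  · rw [hzz, sub_self, sub_self, norm_zero]
    simp
  · have h4 := hz hzz
    have h5 : 0 < ‖z - z₀‖ := norm_pos_iff.2 (sub_ne_zero.2 hzz)
    have h6 : ‖slope w z₀ z‖ = ‖z - z₀‖⁻¹ * ‖w z - w z₀‖ := by
      rw [slope_def_module, norm_smul, norm_inv]
    rw [h6] at h4
    have h7 : κ * (‖z - z₀‖⁻¹ * ‖w z - w z₀‖) ^ 2 * ‖z - z₀‖ ^ 2 = κ * ‖w z - w z₀‖ ^ 2 := by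
      field_simp
    rw [← h7]
    exact mul_le_mul_of_nonneg_right h4.le (by positivity)

theorem Sub.of_re {w : ℂ → ℂ} {z₀ : ℂ} (hw : AnalyticAt ℂ w z₀) {ψ : ℝ → ℝ} {ψ₁ ψ₂ : ℝ}
    (h : ∀ δ : ℝ, 0 < δ → ∀ᶠ x in 𝓝 (w z₀).re, ψ (w z₀).re + ψ₁ * (x - (w z₀).re) + (ψ₂ / 2 - δ) * (x - (w z₀).re) ^ 2 ≤ ψ x) :
    Sub (fun z => Real.exp (ψ (w z).re)) z₀ (ψ₂ / 4 * ‖deriv w z₀‖ ^ 2) := by
  refine ⟨Real.exp_pos _, fun c' hc' => ?_⟩
  obtain ⟨δ, hδ, hδc⟩ : ∃ δ : ℝ, 0 < δ ∧ c' < (ψ₂ / 4 - δ / 2) * ‖deriv w z₀‖ ^ 2 := by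
    refine ⟨(ψ₂ / 4 * ‖deriv w z₀‖ ^ 2 - c') / (‖deriv w z₀‖ ^ 2 + 1),
      div_pos (by linarith) (by positivity), ?_⟩
    have h1 : 0 < ‖deriv w z₀‖ ^ 2 + 1 := by positivity
    have h2 : (ψ₂ / 4 * ‖deriv w z₀‖ ^ 2 - c') / (‖deriv w z₀‖ ^ 2 + 1) * ‖deriv w z₀‖ ^ 2 ≤
        ψ₂ / 4 * ‖deriv w z₀‖ ^ 2 - c' := by
      rw [div_mul_eq_mul_div, div_le_iff₀ h1]
      have h3 : 0 < ψ₂ / 4 * ‖deriv w z₀‖ ^ 2 - c' := by linarith
      nlinarith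
    linarith
  have hsl := SubD_slope hw hδc
  have hcont : Tendsto (fun z => (w z).re) (𝓝 z₀) (𝓝 (w z₀).re) :=
    (Complex.continuous_re.continuousAt.comp hw.continuousAt).tendsto
  refine ⟨fun z => Complex.exp ((ψ (w z₀).re : ℂ) + (ψ₁ : ℂ) * (w z - w z₀) +
    ((ψ₂ / 4 - δ / 2 : ℝ) : ℂ) * (w z - w z₀) ^ 2), ?_, ?_, ?_⟩
  · have h1 : AnalyticAt ℂ (fun z => w z - w z₀) z₀ := hw.sub analyticAt_const
    exact ((analyticAt_const.add (analyticAt_const.mul h1)).add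
      (analyticAt_const.mul (h1.pow 2))).cexp
  · show ‖Complex.exp ((ψ (w z₀).re : ℂ) + (ψ₁ : ℂ) * (w z₀ - w z₀) +
      ((ψ₂ / 4 - δ / 2 : ℝ) : ℂ) * (w z₀ - w z₀) ^ 2)‖ = Real.exp (ψ (w z₀).re)
    rw [Complex.norm_exp, sub_self, mul_zero, add_zero, zero_pow two_ne_zero, mul_zero, add_zero,
      Complex.ofReal_re]
  · filter_upwards [hsl, hcont.eventually (h δ hδ)] with z hz1 hz2
    rw [Complex.norm_exp, ← Real.exp_add, Real.exp_le_exp]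
    refine le_trans ?_ hz2
    obtain ⟨ζ, hζ⟩ : ∃ ζ : ℂ, w z - w z₀ = ζ := ⟨_, rfl⟩
    have h1 : (w z).re - (w z₀).re = ζ.re := by rw [← hζ, Complex.sub_re]
    have h2 : ((ψ (w z₀).re : ℂ) + (ψ₁ : ℂ) * ζ + ((ψ₂ / 4 - δ / 2 : ℝ) : ℂ) * ζ ^ 2).re =
        ψ (w z₀).re + ψ₁ * ζ.re + (ψ₂ / 4 - δ / 2) * (ζ.re ^ 2 - ζ.im ^ 2) := by
      rw [Complex.add_re, Complex.add_re, Complex.re_ofReal_mul, Complex.re_ofReal_mul,
        Complex.ofReal_re, sq ζ, Complex.mul_re]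
      ring
    have h3 : ‖ζ‖ ^ 2 = ζ.re ^ 2 + ζ.im ^ 2 := by
      rw [Complex.sq_norm, Complex.normSq_apply]
      ring
    rw [hζ] at hz1 ⊢
    rw [h1, h2]
    rw [h3] at hz1
    nlinarith

/-- Peano form of Taylor's theorem for `Sub.of_re` -/
theorem peano {ψ ψ' : ℝ → ℝ} {x₀ ψ₂ : ℝ} (h : ∀ᶠ x in 𝓝 x₀, HasDerivAt ψ (ψ' x) x) (h2 : HasDerivAt ψ' ψ₂ x₀) :
    ∀ δ : ℝ, 0 < δ → ∀ᶠ x in 𝓝 x₀, ψ x₀ + ψ' x₀ * (x - x₀) + (ψ₂ / 2 - δ) * (x - x₀) ^ 2 ≤ ψ x := by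
  intro δ hδ
  have h3 : ∀ᶠ x in 𝓝 x₀, ‖ψ' x - ψ' x₀ - (x - x₀) • ψ₂‖ ≤ 2 * δ * ‖x - x₀‖ :=
    (hasDerivAt_iff_isLittleO.1 h2).def (by linarith)
  obtain ⟨ε, hε, hball⟩ := Metric.eventually_nhds_iff_ball.1 (h.and h3)
  have hF : ∀ x ∈ Metric.ball x₀ ε, HasDerivAt (fun x => ψ x - ψ' x₀ * (x - x₀) -
      (ψ₂ / 2 - δ) * (x - x₀) ^ 2) (ψ' x - ψ' x₀ - (ψ₂ - 2 * δ) * (x - x₀)) x := by
    intro x hx
    have e1 := (hball x hx).1
    have e2 : HasDerivAt (fun x : ℝ => x - x₀) 1 x := (hasDerivAt_id x).sub_const x₀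
    have e3 := (e1.sub (e2.const_mul (ψ' x₀))).sub ((e2.pow 2).const_mul (ψ₂ / 2 - δ))
    refine e3.congr_deriv ?_
    simp only [Nat.cast_ofNat]
    ring
  have hF0 : (fun x => ψ x - ψ' x₀ * (x - x₀) - (ψ₂ / 2 - δ) * (x - x₀) ^ 2) x₀ = ψ x₀ := by
    simp
  filter_upwards [Metric.ball_mem_nhds x₀ hε] with x hx
  have hx' : |x - x₀| < ε := by rwa [Metric.mem_ball, Real.dist_eq] at hx
  rcases lt_trichotomy x x₀ with hlt | heq | hgt
  · have hsub : ∀ y ∈ Set.Icc x x₀, y ∈ Metric.ball x₀ ε := by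
      intro y hy
      rw [Metric.mem_ball, Real.dist_eq, abs_lt]
      rw [abs_lt] at hx'
      constructor <;> linarith [hy.1, hy.2]
    obtain ⟨c, hc, hceq⟩ := exists_hasDerivAt_eq_slope (fun x => ψ x - ψ' x₀ * (x - x₀) -
      (ψ₂ / 2 - δ) * (x - x₀) ^ 2) (fun x => ψ' x - ψ' x₀ - (ψ₂ - 2 * δ) * (x - x₀)) hlt
      (fun y hy => (hF y (hsub y hy)).continuousAt.continuousWithinAt)
      (fun y hy => hF y (hsub y ⟨hy.1.le, hy.2.le⟩))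
    have hb := (hball c (hsub c ⟨hc.1.le, hc.2.le⟩)).2
    rw [Real.norm_eq_abs, Real.norm_eq_abs, abs_of_neg (by linarith [hc.2] : c - x₀ < 0),
      abs_le, smul_eq_mul] at hb
    have hneg : ψ' c - ψ' x₀ - (ψ₂ - 2 * δ) * (c - x₀) ≤ 0 := by linarith [hb.2]
    rw [eq_div_iff (by linarith : x₀ - x ≠ 0)] at hceq
    have hprod := mul_nonpos_of_nonpos_of_nonneg hneg (by linarith : (0 : ℝ) ≤ x₀ - x)
    rw [hceq] at hprod
    nlinarith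
  · rw [heq]
    simp
  · have hsub : ∀ y ∈ Set.Icc x₀ x, y ∈ Metric.ball x₀ ε := by
      intro y hy
      rw [Metric.mem_ball, Real.dist_eq, abs_lt]
      rw [abs_lt] at hx'
      constructor <;> linarith [hy.1, hy.2]
    obtain ⟨c, hc, hceq⟩ := exists_hasDerivAt_eq_slope (fun x => ψ x - ψ' x₀ * (x - x₀) -
      (ψ₂ / 2 - δ) * (x - x₀) ^ 2) (fun x => ψ' x - ψ' x₀ - (ψ₂ - 2 * δ) * (x - x₀)) hgt
      (fun y hy => (hF y (hsub y hy)).continuousAt.continuousWithinAt)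
      (fun y hy => hF y (hsub y ⟨hy.1.le, hy.2.le⟩))
    have hb := (hball c (hsub c ⟨hc.1.le, hc.2.le⟩)).2
    rw [Real.norm_eq_abs, Real.norm_eq_abs, abs_of_pos (by linarith [hc.1] : 0 < c - x₀),
      abs_le, smul_eq_mul] at hb
    have hpos : 0 ≤ ψ' c - ψ' x₀ - (ψ₂ - 2 * δ) * (c - x₀) := by linarith [hb.1]
    rw [eq_div_iff (by linarith : x - x₀ ≠ 0)] at hceq
    have hprod := mul_nonneg hpos (by linarith : (0 : ℝ) ≤ x - x₀)
    rw [hceq] at hprod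
    nlinarith

/-- a branch of the logarithm of `s` near a point where `s` does not vanish -/
private theorem SubD_log {s : ℂ → ℂ} {z₀ : ℂ} (hs : AnalyticAt ℂ s z₀) (h0 : s z₀ ≠ 0) :
    ∃ w : ℂ → ℂ, AnalyticAt ℂ w z₀ ∧ (∀ᶠ z in 𝓝 z₀, (w z).re = Real.log ‖s z‖ ∧ s z ≠ 0) ∧
      (w z₀).re = Real.log ‖s z₀‖ ∧ deriv w z₀ = deriv s z₀ / s z₀ := by
  have hdiv : AnalyticAt ℂ (fun z => s z / s z₀) z₀ := hs.div analyticAt_const h0
  have hsl : s z₀ / s z₀ ∈ Complex.slitPlane := by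
    rw [div_self h0]
    exact Complex.one_mem_slitPlane
  have hre : ∀ z, s z ≠ 0 → (Complex.log (s z / s z₀) + (Real.log ‖s z₀‖ : ℂ)).re =
      Real.log ‖s z‖ := by
    intro z hz
    rw [Complex.add_re, Complex.log_re, Complex.ofReal_re, norm_div,
      Real.log_div (norm_ne_zero_iff.2 hz) (norm_ne_zero_iff.2 h0)]
    ring
  have hne : ∀ᶠ z in 𝓝 z₀, s z ≠ 0 := hs.continuousAt.eventually_ne h0
  refine ⟨fun z => Complex.log (s z / s z₀) + (Real.log ‖s z₀‖ : ℂ),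
    (hdiv.clog hsl).add analyticAt_const, ?_, hre z₀ h0, ?_⟩
  · filter_upwards [hne] with z hz
    exact ⟨hre z hz, hz⟩
  · have h1 : HasDerivAt (fun z => s z / s z₀) (deriv s z₀ / s z₀) z₀ :=
      hs.differentiableAt.hasDerivAt.div_const _
    have h2 := (h1.clog hsl).add_const (Real.log ‖s z₀‖ : ℂ)
    rw [h2.deriv, div_self h0, div_one]

theorem Sub.log_rpow {z₀ : ℂ} (h0 : z₀ ≠ 0) (h1 : ‖z₀‖ < 1) {r : ℝ} (hr : 0 ≤ r) :
    Sub (fun z => Real.log (1 / ‖z‖) ^ (-r)) z₀ (r / (4 * ‖z₀‖ ^ 2 * Real.log (1 / ‖z₀‖) ^ 2)) := by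
  obtain ⟨w, hw, hw1, hw2, hw3⟩ := SubD_log (s := fun z => z) analyticAt_id h0
  have hpos : 0 < ‖z₀‖ := norm_pos_iff.2 h0
  have hx0 : Real.log ‖z₀‖ < 0 := Real.log_neg hpos h1
  have hψ : ∀ᶠ x in 𝓝 (Real.log ‖z₀‖), HasDerivAt (fun x : ℝ => -r * Real.log (-x)) (-r / x) x := by
    filter_upwards [eventually_lt_nhds hx0] with x hx
    have e1 : HasDerivAt (fun x : ℝ => -x) (-1) x := hasDerivAt_neg x
    have e2 := (e1.log (by linarith : -x ≠ 0)).const_mul (-r)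
    refine e2.congr_deriv ?_
    have hxne : x ≠ 0 := hx.ne
    field_simp
  have hψ2 : HasDerivAt (fun x : ℝ => -r / x) (r / Real.log ‖z₀‖ ^ 2) (Real.log ‖z₀‖) := by
    have e1 := (hasDerivAt_inv hx0.ne).const_mul (-r)
    refine e1.congr_deriv ?_
    field_simp
  have hp := peano hψ hψ2
  have hre := Sub.of_re (ψ := fun x : ℝ => -r * Real.log (-x)) (ψ₁ := -r / Real.log ‖z₀‖)
    (ψ₂ := r / Real.log ‖z₀‖ ^ 2) hw (by
      intro δ hδ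
      rw [hw2]
      exact hp δ hδ)
  have hval : r / Real.log ‖z₀‖ ^ 2 / 4 * ‖deriv w z₀‖ ^ 2 =
      r / (4 * ‖z₀‖ ^ 2 * Real.log (1 / ‖z₀‖) ^ 2) := by
    rw [hw3, deriv_id'', norm_div, norm_one, one_div ‖z₀‖, Real.log_inv, neg_sq]
    have := hx0.ne
    field_simp
  rw [hval] at hre
  refine hre.congr ?_
  have hcont : ∀ᶠ z in 𝓝 z₀, ‖z‖ < 1 := (continuous_norm.tendsto z₀).eventually_lt_const h1
  filter_upwards [hw1, hcont] with z hz1 hz2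
  have hz3 : 0 < ‖z‖ := norm_pos_iff.2 hz1.2
  have hz4 : 0 < Real.log (1 / ‖z‖) := Real.log_pos (by rw [lt_div_iff₀ hz3, one_mul]; exact hz2)
  rw [hz1.1, Real.rpow_def_of_pos hz4, one_div, Real.log_inv]
  congr 1
  ring

end Pool.Agent.H36.BP

end
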