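import Pool.Agent.H94.PX4.M01
import Pool.Agent.H94.PX4.M08

/-! The parts of this file: G4.K.Tay, H17BP.Germ, H17BP.Surf, H17BP.Model, H13.OT.Std, H17EF.Ord, H36.BP.OrdDefs, H7.Gtu.Res, HE.Nak. -/

section

/-!
# G4 K Tay: `T ^ d` linear conditions under which a holomorphic function of `d` variables has a zero of order `T` at `0`

The Taylor coefficients of exponents `< T` in each variable: for `n < T` the value of `iteratedFDeriv ℂ n G 0` at `(z, …, z)` is a combination of the sums `tco α G` of its values at the families of basis vectors of type `α`, `∑ j, α j = n`.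
-/

set_option autoImplicit false

open Topology Filter Metric

namespace Pool.Agent.G4.K

open Pool.Agent.AD (Vd)

/-- the type of a sequence of indices -/
private def tty {n d : ℕ} (s : Fin n → Fin d) (j : Fin d) : ℕ := (Finset.univ.filter fun i => s i = j).card

private theorem tty_le {n d : ℕ} (s : Fin n → Fin d) (j : Fin d) : tty s j ≤ n := by
  have h := Finset.card_filter_le (Finset.univ : Finset (Fin n)) (fun i => s i = j)
  rw [Finset.card_univ, Fintype.card_fin] at h
  exact h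

private theorem tty_sum {n d : ℕ} (s : Fin n → Fin d) : ∑ j, tty s j = n := by
  have h := Finset.card_eq_sum_card_fiberwise (s := (Finset.univ : Finset (Fin n))) (t := (Finset.univ : Finset (Fin d))) (f := s) (fun _ _ => Finset.mem_coe.2 (Finset.mem_univ _))
  rw [Finset.card_univ, Fintype.card_fin] at h
  exact h.symm

/-- the value of the `n`-th derivative at a family of basis vectors -/
private noncomputable def tde {n d : ℕ} (s : Fin n → Fin d) (G : Vd d → ℂ) : ℂ :=
  iteratedFDeriv ℂ n G 0 fun i => (Pi.single (s i) (1 : ℂ) : Vd d)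

/-- the sum of these values over the families of type `α` -/
private noncomputable def tco {d : ℕ} (n : ℕ) (α : Fin d → ℕ) (G : Vd d → ℂ) : ℂ :=
  ∑ s : Fin n → Fin d, if tty s = α then tde s G else 0

private theorem tde_add {n d : ℕ} (s : Fin n → Fin d) {G G' : Vd d → ℂ} (c : ℂ) (hG : AnalyticAt ℂ G 0) (hG' : AnalyticAt ℂ G' 0) :
    tde s (fun z => G z + c * G' z) = tde s G + c * tde s G' := by
  have h1 : (fun z => G z + c * G' z) = G + c • G' := by
    funext z
    simp
  have h3 : ContDiffAt ℂ (n : ℕ) (c • G') (0 : Vd d) := hG'.contDiffAt.const_smul c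
  rw [tde, h1, iteratedFDeriv_add_apply hG.contDiffAt h3, iteratedFDeriv_const_smul_apply hG'.contDiffAt]
  rfl

private theorem tco_add {n d : ℕ} (α : Fin d → ℕ) {G G' : Vd d → ℂ} (c : ℂ) (hG : AnalyticAt ℂ G 0) (hG' : AnalyticAt ℂ G' 0) :
    tco n α (fun z => G z + c * G' z) = tco n α G + c * tco n α G' := by
  rw [tco, tco, tco, Finset.mul_sum, ← Finset.sum_add_distrib]
  refine Finset.sum_congr rfl fun s _ => ?_
  by_cases h : tty s = α
  · rw [if_pos h, if_pos h, if_pos h, tde_add s c hG hG']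
  · rw [if_neg h, if_neg h, if_neg h]
    simp

private theorem tco_congr {n d : ℕ} (α : Fin d → ℕ) {G G' : Vd d → ℂ} (h : G =ᶠ[𝓝 0] G') : tco n α G = tco n α G' := by
  rw [tco, tco]
  refine Finset.sum_congr rfl fun s _ => ?_
  rw [tde, tde, (h.iteratedFDeriv ℂ n).eq_of_nhds]

private theorem tit {n d T : ℕ} (hn : n < T) {G : Vd d → ℂ} (h : ∀ α : Fin d → Fin T, tco (∑ j, (α j : ℕ)) (fun j => (α j : ℕ)) G = 0) (z : Vd d) :
    (iteratedFDeriv ℂ n G 0 fun _ => z) = 0 := by
  classical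
  have h1 : (iteratedFDeriv ℂ n G 0 fun _ => z) = ∑ s : Fin n → Fin d, (∏ i, z (s i)) * tde s G := by
    have h2 : (fun _ : Fin n => z) = fun _ : Fin n => ∑ j, z j • (Pi.single j (1 : ℂ) : Vd d) := by
      funext _
      exact pi_eq_sum_univ' z
    rw [h2, ContinuousMultilinearMap.map_sum]
    refine Finset.sum_congr rfl fun s _ => ?_
    rw [ContinuousMultilinearMap.map_smul_univ]
    rfl
  rw [h1]
  have h3 : ∀ s : Fin n → Fin d, ∏ i, z (s i) = ∏ j, z j ^ tty s j := by
    intro s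
    rw [← Finset.prod_fiberwise (Finset.univ : Finset (Fin n)) s (fun i => z (s i))]
    refine Finset.prod_congr rfl fun j _ => ?_
    rw [tty, ← Finset.prod_const]
    refine Finset.prod_congr rfl fun i hi => ?_
    rw [(Finset.mem_filter.1 hi).2]
  have h4 : ∑ s : Fin n → Fin d, (∏ i, z (s i)) * tde s G =
      ∑ α ∈ (Finset.univ : Finset (Fin n → Fin d)).image tty, (∏ j, z j ^ α j) * tco n α G := by
    rw [← Finset.sum_fiberwise_of_maps_to (s := (Finset.univ : Finset (Fin n → Fin d))) (t := (Finset.univ : Finset (Fin n → Fin d)).image tty) (g := tty)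
      (fun s hs => Finset.mem_image_of_mem tty hs)]
    refine Finset.sum_congr rfl fun α _ => ?_
    rw [tco, Finset.mul_sum, Finset.sum_filter]
    refine Finset.sum_congr rfl fun s _ => ?_
    by_cases hs : tty s = α
    · rw [if_pos hs, if_pos hs, h3, hs]
    · rw [if_neg hs, if_neg hs, mul_zero]
  rw [h4]
  refine Finset.sum_eq_zero fun α hα => ?_
  obtain ⟨s, _, rfl⟩ := Finset.mem_image.1 hα
  have h5 := h fun j => ⟨tty s j, (tty_le s j).trans_lt hn⟩
  have h6 : (∑ j, ((⟨tty s j, (tty_le s j).trans_lt hn⟩ : Fin T) : ℕ)) = n := tty_sum s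
  rw [h6] at h5
  have h7 : tco n (tty s) G = 0 := h5
  rw [h7, mul_zero]

theorem tay (d T : ℕ) : ∃ Φ : (Fin d → Fin T) → (Vd d → ℂ) → ℂ,
    (∀ i (G G' : Vd d → ℂ) (c : ℂ), AnalyticAt ℂ G 0 → AnalyticAt ℂ G' 0 → Φ i (fun z => G z + c * G' z) = Φ i G + c * Φ i G') ∧
    (∀ i (G G' : Vd d → ℂ), G =ᶠ[𝓝 0] G' → Φ i G = Φ i G') ∧
    ∀ G : Vd d → ℂ, AnalyticAt ℂ G 0 → (∀ i, Φ i G = 0) → ∃ C : ℝ, 0 ≤ C ∧ ∀ᶠ z in 𝓝 (0 : Vd d), ‖G z‖ ≤ C * ‖z‖ ^ T := by
  refine ⟨fun α G => tco (∑ j, (α j : ℕ)) (fun j => (α j : ℕ)) G, fun α G G' c hG hG' => tco_add _ c hG hG',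
    fun α G G' h => tco_congr _ h, fun G hG h => ?_⟩
  obtain ⟨p, r, hp⟩ := hG
  have h1 : ∀ z : Vd d, p.partialSum T z = 0 := by
    intro z
    rw [FormalMultilinearSeries.partialSum]
    refine Finset.sum_eq_zero fun n hn => ?_
    have h2 := hp.factorial_smul z n
    rw [tit (Finset.mem_range.1 hn) h z] at h2
    rw [nsmul_eq_mul] at h2
    exact (mul_eq_zero.1 h2).resolve_left (Nat.cast_ne_zero.2 (Nat.factorial_ne_zero n))
  have h3 := (hp.hasFPowerSeriesAt).isBigO_sub_partialSum_pow T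
  obtain ⟨C, hC, h4⟩ := h3.exists_nonneg
  refine ⟨C, hC, ?_⟩
  filter_upwards [h4.bound] with z hz
  rw [h1 z, sub_zero, zero_add, norm_pow, norm_norm] at hz
  exact hz

end Pool.Agent.G4.K

end

section

/-!
# Germs of analytic functions in two variables: definitions for the resolution theorem

Germs at `0` of analytic functions on `ℂ × ℂ`; local biholomorphic maps, point blow-ups.
-/

open Topology Filter

noncomputable section

namespace Pool.Agent.H17BP

/-- The germ of `θ` at `0` is biholomorphic and fixes `0`. -/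
structure Bihol (θ : ℂ × ℂ → ℂ × ℂ) : Prop where
  an : AnalyticAt ℂ θ 0
  zero : θ 0 = 0
  inv : ∃ θ' : ℂ × ℂ → ℂ × ℂ, AnalyticAt ℂ θ' 0 ∧ θ' 0 = 0 ∧ (∀ᶠ x in 𝓝 0, θ' (θ x) = x) ∧
    ∀ᶠ x in 𝓝 0, θ (θ' x) = x

/-- `S, T` are local coordinates at `0`. -/
def Coord (S T : ℂ × ℂ → ℂ) : Prop := Bihol fun x => (S x, T x)

/-- The germ `g` is a monomial in local coordinates times a unit. -/
def Mono (g : ℂ × ℂ → ℂ) : Prop :=
  ∃ (S T : ℂ × ℂ → ℂ) (a b : ℕ) (u : ℂ × ℂ → ℂ), Coord S T ∧ AnalyticAt ℂ u 0 ∧ u 0 ≠ 0 ∧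
    ∀ᶠ x in 𝓝 0, g x = S x ^ a * T x ^ b * u x

/-- The chart of the blow-up of `0` at the point `c` of the exceptional curve. -/
def bl (c : ℂ) (x : ℂ × ℂ) : ℂ × ℂ := (x.1, x.1 * (c + x.2))

/-- The germs of charts of the blow-up of `0`. -/
def BChart (β : ℂ × ℂ → ℂ × ℂ) : Prop :=
  ∃ θ θ' : ℂ × ℂ → ℂ × ℂ, Bihol θ ∧ Bihol θ' ∧ ∀ᶠ x in 𝓝 0, β x = θ (bl 0 (θ' x))

/-- After at most `n` point blow-ups over every point the germ `g` is a monomial times a unit. -/
def ResN : ℕ → (ℂ × ℂ → ℂ) → Prop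
  | 0 => Mono
  | n + 1 => fun g => Mono g ∨ ∀ β, BChart β → ResN n (g ∘ β)

/-! ### simple facts -/

end Pool.Agent.H17BP

end
end

section

/-!
# Smooth closed surfaces in a projective space, in terms of their cones

`V` is a finite dimensional complex normed space; a closed subset of `ℙ(V)` is given by its cone `X ⊆ V ∖ {0}`.
-/

open Topology Filter

noncomputable section

namespace Pool.Agent.H17BP

variable {V : Type} [NormedAddCommGroup V] [NormedSpace ℂ V]

/-- The germ `σ : (ℂ², 0) → X` parametrises the surface given by the cone `X`, with the inverse `τ`. -/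
structure IsChart (X : Set V) (σ : ℂ × ℂ → V) (τ : V → ℂ × ℂ) : Prop where
  σ_an : AnalyticAt ℂ σ 0
  σ_mem : ∀ᶠ p in 𝓝 (0 : ℂ × ℂ), σ p ∈ X
  ne : σ 0 ≠ 0
  τ_an : AnalyticAt ℂ τ (σ 0)
  left : ∀ᶠ p in 𝓝 (0 : ℂ × ℂ), τ (σ p) = p
  right : ∀ᶠ y in 𝓝 (σ 0), y ∈ X → ∃ c : ℂ, c ≠ 0 ∧ y = c • σ (τ y)
  inv : ∀ᶠ p in 𝓝 (σ 0, (1 : ℂ)), τ (p.2 • p.1) = τ p.1

/-- `X` is the cone of a smooth closed surface in `ℙ(V)`. -/
structure Surface (X : Set V) : Prop where
  zero : (0 : V) ∉ X
  smul : ∀ x ∈ X, ∀ c : ℂ, c ≠ 0 → c • x ∈ X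
  closed : ∀ x ∈ closure X, x ≠ 0 → x ∈ X
  chart : ∀ x ∈ X, ∃ σ τ, IsChart X σ τ ∧ σ 0 = x

/-- The tangent vectors of the cone `X` at `x`. -/
def Tan (X : Set V) (x : V) : Set V :=
  {v | ∃ γ : ℂ → V, AnalyticAt ℂ γ 0 ∧ (∀ᶠ z in 𝓝 (0 : ℂ), γ z ∈ X) ∧ γ 0 = x ∧ deriv γ 0 = v}

/-- `Ω` is a holomorphic section of `m K_X - j H`. -/
structure IsForm (X : Set V) (m j : ℕ) (Ω : V → V → V → ℂ) : Prop where
  add_smul : ∀ x ∈ X, ∀ v ∈ Tan X x, ∀ w ∈ Tan X x, ∀ a b : ℂ, Ω x (v + a • x) (w + b • x) = Ω x v w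
  det : ∀ x ∈ X, ∀ v ∈ Tan X x, ∀ w ∈ Tan X x, ∀ a b c d : ℂ,
    Ω x (a • v + b • w) (c • v + d • w) = (a * d - b * c) ^ m * Ω x v w
  scale : ∀ x ∈ X, ∀ v ∈ Tan X x, ∀ w ∈ Tan X x, ∀ c : ℂ, c ≠ 0 →
    c ^ j * Ω (c • x) (c • v) (c • w) = Ω x v w
  analytic : ∀ (φ : ℂ × ℂ → V) (p : ℂ × ℂ), AnalyticAt ℂ φ p → (∀ᶠ y in 𝓝 p, φ y ∈ X) →
    AnalyticAt ℂ (fun y => Ω (φ y) (fderiv ℂ φ y (1, 0)) (fderiv ℂ φ y (0, 1))) p

/-- The form `Ω` has no zeros outside `B`. -/
def NoZeros (X B : Set V) (Ω : V → V → V → ℂ) : Prop :=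
  ∀ x ∈ X, x ∉ B → ∀ v ∈ Tan X x, ∀ w ∈ Tan X x, LinearIndependent ℂ ![x, v, w] → Ω x v w ≠ 0

/-- The subset `B` of the surface `X` is given near `σ 0` by the equation `g = 0`. -/
def LocalEq (B : Set V) (σ : ℂ × ℂ → V) (g : ℂ × ℂ → ℂ) : Prop :=
  AnalyticAt ℂ g 0 ∧ ∀ᶠ p in 𝓝 (0 : ℂ × ℂ), (σ p ∈ B ↔ g p = 0)

end Pool.Agent.H17BP

end
end

section

/-!
# Holomorphic curves in a closed surface, the induction hypothesis

Holomorphic maps into `ℙ(V)` are given by functions with values in `V ∖ {0}`, which are not required to be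
continuous, see `HolP`.
-/

open Topology Filter

noncomputable section

namespace Pool.Agent.H17BP

variable {V : Type} [NormedAddCommGroup V] [NormedSpace ℂ V]

/-- The two vectors are proportional. -/
def Pr (x y : V) : Prop := ∃ c : ℂ, c ≠ 0 ∧ x = c • y

/-- The function `f` is, near `z₀`, proportional to a holomorphic function without zeros, that is, `f` defines a
holomorphic map to `ℙ(V)`. -/
def HolP (f : ℂ → V) (z₀ : ℂ) : Prop :=
  ∃ F : ℂ → V, AnalyticAt ℂ F z₀ ∧ F z₀ ≠ 0 ∧ ∀ᶠ z in 𝓝 z₀, Pr (f z) (F z)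

/-- Every holomorphic map from `ℂ` to the projective set with the cone `X` which is not a map into `B` is
constant. -/
def Brody (X B : Set V) : Prop :=
  ∀ f : ℂ → V, (∀ z, HolP f z) → (∀ z, f z ∈ X) → (∃ z, f z ∉ B) → ∀ z w, Pr (f z) (f w)

/-- The subset `B` of `X` is the set of the common zeros of the forms `Q i` of degree `D`, and near every point
it is the set of the zeros of one of these forms. -/
structure Eqs (X B : Set V) {κ : Type} (Q : κ → V → ℂ) (D : ℕ) : Prop where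
  pos : 1 ≤ D
  an : ∀ i x, AnalyticAt ℂ (Q i) x
  smul : ∀ i (c : ℂ) x, Q i (c • x) = c ^ D * Q i x
  mem_iff : ∀ x, x ∈ B ↔ x ∈ X ∧ ∀ i, Q i x = 0
  gen : ∀ x ∈ X, ∃ i, ∀ᶠ y in 𝓝 x, y ∈ X → Q i y = 0 → y ∈ B

/-- A closed surface with a curve `B` in it, a section `Ω` of `m K - j H` without zeros outside `B`, such that
every holomorphic map from `ℂ` which is not a map into `B` is constant. -/
structure Model (X B : Set V) (m j : ℕ) (Ω : V → V → V → ℂ) {κ : Type} (Q : κ → V → ℂ) (D : ℕ) :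
    Prop where
  surf : Surface X
  one_m : 1 ≤ m
  one_j : 1 ≤ j
  form : IsForm X m j Ω
  noZeros : NoZeros X B Ω
  eqs : Eqs X B Q D
  thin : ∀ σ τ, IsChart X σ τ → ∃ᶠ p in 𝓝 (0 : ℂ × ℂ), σ p ∉ B
  brody : Brody X B

/-- At the point `x` the curve `B` has a local equation which becomes a monomial after at most `n` blow-ups over
every point. -/
def ResAt (X B : Set V) (x : V) (n : ℕ) : Prop :=
  ∃ σ τ g, IsChart X σ τ ∧ σ 0 = x ∧ LocalEq B σ g ∧ ResN n g

end Pool.Agent.H17BP

end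
end

section

/-!
# Lifts bounded on discs and the characteristic

`F` is a lift (zeros allowed) of a curve on the disc of radius `R`, `‖F‖ ≤ 1`, `F 0 ≠ 0`; `F₀` is a lift without zeros.  Then the
mean value of `log ‖F₀‖` over the circle of radius `r < R` is at most `log ‖F₀ 0‖ - log ‖F 0‖` (Jensen's formula).
-/

set_option autoImplicit false

namespace Pool.Agent.H13.OT

open Filter Topology Metric Real
open Pool.Agent.H17BP

variable {V : Type} [NormedAddCommGroup V] [NormedSpace ℂ V]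

/-- the mean value of `log |φ|` over a circle is at least the value in the centre -/
theorem log_le_average {φ : ℂ → ℂ} {r : ℝ} (hr : 0 < r) (h : AnalyticOnNhd ℂ φ (closedBall 0 r)) (h0 : φ 0 ≠ 0) :
    Real.log ‖φ 0‖ ≤ circleAverage (fun z => Real.log ‖φ z‖) 0 r := by
  have hrr : |r| = r := abs_of_pos hr
  have h1 : AnalyticOnNhd ℂ φ (closedBall 0 |r|) := by rwa [hrr]
  have h2 := h1.circleAverage_log_norm hr.ne' h0
  rw [h2]
  have h3 : 0 ≤ ∑ᶠ u, MeromorphicOn.divisor φ (closedBall 0 |r|) u * Real.log (r * ‖0 - u‖⁻¹) := by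
    refine finsum_nonneg fun u => ?_
    by_cases hu : u ∈ closedBall (0 : ℂ) |r|
    · have h4 : (0 : ℤ) ≤ MeromorphicOn.divisor φ (closedBall 0 |r|) u :=
        (MeromorphicOn.AnalyticOnNhd.divisor_nonneg h1) u
      have h5 : (0 : ℝ) ≤ MeromorphicOn.divisor φ (closedBall 0 |r|) u := by exact_mod_cast h4
      refine mul_nonneg h5 ?_
      by_cases hu0 : u = 0
      · simp [hu0]
      · apply Real.log_nonneg
        have h6 : 0 < ‖0 - u‖ := by simpa using hu0
        rw [← div_eq_mul_inv, le_div_iff₀ h6, one_mul]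
        rw [mem_closedBall, dist_zero_right, hrr] at hu
        simpa using hu
    · have : MeromorphicOn.divisor φ (closedBall 0 |r|) u = 0 := by
        exact Function.locallyFinsuppWithin.apply_eq_zero_of_notMem _ hu
      rw [this]
      simp
  linarith

theorem average_le {f F F₀ : ℂ → V} {ρ r : ℝ} (hr : 0 < r) (hrρ : r < ρ) (hF : DifferentiableOn ℂ F (ball 0 ρ))
    (hF1 : ∀ z ∈ ball (0 : ℂ) ρ, ‖F z‖ ≤ 1) (h0 : F 0 ≠ 0) (hFf : ∀ z ∈ ball (0 : ℂ) ρ, F z = 0 ∨ Pr (f z) (F z))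
    (hF₀ : DifferentiableOn ℂ F₀ (ball 0 ρ)) (hF₀f : ∀ z ∈ ball (0 : ℂ) ρ, F₀ z ≠ 0 ∧ Pr (f z) (F₀ z)) :
    circleAverage (fun z => Real.log ‖F₀ z‖) 0 r ≤ Real.log ‖F₀ 0‖ - Real.log ‖F 0‖ := by
  classical
  have hex : ∀ z : ℂ, ∃ a : ℂ, z ∈ ball (0 : ℂ) ρ → F z = a • F₀ z := by
    intro z
    by_cases hz : z ∈ ball (0 : ℂ) ρ
    · rcases hFf z hz with h | ⟨c, hc, h⟩
      · exact ⟨0, fun _ => by rw [h, zero_smul]⟩
      · obtain ⟨-, c', hc', h'⟩ := hF₀f z hz
        refine ⟨c⁻¹ * c', fun _ => ?_⟩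
        rw [mul_smul, ← h', h, smul_smul, inv_mul_cancel₀ hc, one_smul]
    · exact ⟨0, fun h => absurd h hz⟩
  choose φ heq using hex
  have hloc' : ∀ z₀ ∈ ball (0 : ℂ) ρ, AnalyticAt ℂ φ z₀ := by
    intro z₀ hz₀
    have hne : F₀ z₀ ≠ 0 := (hF₀f z₀ hz₀).1
    obtain ⟨ℓ, -, hℓ⟩ := exists_dual_vector ℂ (F₀ z₀) (norm_ne_zero_iff.2 hne)
    have hℓ0 : ℓ (F₀ z₀) ≠ 0 := by
      rw [hℓ]
      exact Complex.ofReal_ne_zero.2 (norm_ne_zero_iff.2 hne)
    have hnhds : ball (0 : ℂ) ρ ∈ 𝓝 z₀ := isOpen_ball.mem_nhds hz₀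
    have ha : AnalyticAt ℂ (fun z => ℓ (F z)) z₀ := by
      have h1 : DifferentiableOn ℂ (fun z => ℓ (F z)) (ball 0 ρ) := fun z hz =>
        (ℓ.differentiableAt.comp_differentiableWithinAt z (hF z hz))
      exact h1.analyticAt hnhds
    have ha₀ : AnalyticAt ℂ (fun z => ℓ (F₀ z)) z₀ := by
      have h1 : DifferentiableOn ℂ (fun z => ℓ (F₀ z)) (ball 0 ρ) := fun z hz =>
        (ℓ.differentiableAt.comp_differentiableWithinAt z (hF₀ z hz))
      exact h1.analyticAt hnhds
    refine (ha.div ha₀ hℓ0).congr ?_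
    filter_upwards [hnhds, ha₀.continuousAt.eventually_ne hℓ0] with z hz h1
    simp only [Pi.div_apply]
    rw [heq z hz, map_smul, smul_eq_mul, mul_div_cancel_right₀ _ h1]
  have hnorm : ∀ z ∈ ball (0 : ℂ) ρ, ‖φ z‖ * ‖F₀ z‖ ≤ 1 := by
    intro z hz
    rw [← norm_smul, ← heq z hz]
    exact hF1 z hz
  have h0m : (0 : ℂ) ∈ ball (0 : ℂ) ρ := mem_ball_self (hr.trans hrρ)
  have hφ0 : φ 0 ≠ 0 := by
    intro h
    apply h0
    rw [heq 0 h0m, h, zero_smul]
  have hsub : closedBall (0 : ℂ) r ⊆ ball 0 ρ := closedBall_subset_ball hrρ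
  have hsph : sphere (0 : ℂ) |r| ⊆ ball 0 ρ := by
    rw [abs_of_pos hr]
    exact sphere_subset_closedBall.trans hsub
  have hφan : AnalyticOnNhd ℂ φ (closedBall 0 r) := fun z hz => hloc' z (hsub hz)
  have hφsp : AnalyticOnNhd ℂ φ (sphere 0 |r|) := fun z hz => hloc' z (hsph hz)
  have hJ := log_le_average hr hφan hφ0
  -- the zeros of `φ` on the circle
  set f₁ : ℂ → ℝ := fun z => if φ z = 0 then -Real.log ‖F₀ z‖ else Real.log ‖φ z‖ with hf₁
  have hcod : (fun z => Real.log ‖φ z‖) =ᶠ[codiscreteWithin (sphere (0 : ℂ) |r|)] f₁ := by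
    have h1 : ∀ᶠ z in codiscreteWithin (closedBall (0 : ℂ) r), φ z ≠ 0 := by
      have h2 : φ ⁻¹' {0}ᶜ ∈ codiscreteWithin (closedBall (0 : ℂ) r) :=
        hφan.preimage_zero_mem_codiscreteWithin (x := 0) hφ0 (mem_closedBall_self hr.le)
          (isConnected_closedBall hr.le)
      exact h2
    have h3 : ∀ᶠ z in codiscreteWithin (sphere (0 : ℂ) |r|), φ z ≠ 0 := by
      refine (codiscreteWithin_mono ?_) h1
      rw [abs_of_pos hr]
      exact sphere_subset_closedBall
    filter_upwards [h3] with z hz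
    rw [hf₁]
    simp [hz]
  have hint : CircleIntegrable (fun z => Real.log ‖φ z‖) 0 r := hφsp.meromorphicOn.circleIntegrable_log_norm
  have hint₁ : CircleIntegrable f₁ 0 r := hint.congr_codiscreteWithin hcod
  have havg : circleAverage (fun z => Real.log ‖φ z‖) 0 r = circleAverage f₁ 0 r :=
    circleAverage_congr_codiscreteWithin hcod hr.ne'
  have hHint : CircleIntegrable (fun z => Real.log ‖F₀ z‖) 0 r := by
    refine ContinuousOn.circleIntegrable' ?_
    exact ((hF₀.continuousOn.mono hsph).norm).log fun z hz => norm_ne_zero_iff.mpr (hF₀f z (hsph hz)).1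
  have hle : circleAverage (fun z => Real.log ‖F₀ z‖) 0 r ≤ circleAverage (fun z => -f₁ z) 0 r := by
    refine circleAverage_mono hHint hint₁.neg fun z hz => ?_
    by_cases h : φ z = 0
    · simp [hf₁, h]
    · have h1 : 0 < ‖φ z‖ := norm_pos_iff.mpr h
      have h2 : 0 < ‖F₀ z‖ := norm_pos_iff.mpr (hF₀f z (hsph hz)).1
      have h3 := hnorm z (hsph hz)
      have h4 : Real.log (‖φ z‖ * ‖F₀ z‖) ≤ 0 := Real.log_nonpos (by positivity) h3
      rw [Real.log_mul h1.ne' h2.ne'] at h4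
      simp only [hf₁, h, if_false]
      linarith
  have hneg : circleAverage (fun z => -f₁ z) 0 r = -circleAverage f₁ 0 r := by
    have h := circleAverage_fun_smul (a := (-1 : ℝ)) (f := f₁) (c := 0) (R := r)
    simpa using h
  have h5 : Real.log ‖F 0‖ = Real.log ‖φ 0‖ + Real.log ‖F₀ 0‖ := by
    rw [heq 0 h0m, norm_smul, Real.log_mul (norm_ne_zero_iff.mpr hφ0) (norm_ne_zero_iff.mpr (hF₀f 0 h0m).1)]
  rw [hneg, ← havg] at hle
  linarith

end Pool.Agent.H13.OT

end

section

/-!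
# EF Ord: an entire curve with `T_f(r) = O(r²)` has bounded lifts on discs

The converse of `Pool.Agent.H13.OT.OrdTwo.orderTwo`.
-/

set_option autoImplicit false

namespace Pool.Agent.H17EF

open Metric Filter Topology

/-- real parts of polynomials are dense in the continuous real functions on a circle -/
theorem exists_poly_re {u : ℂ → ℝ} {r : ℝ} (hr : 0 < r) (hu : ContinuousOn u (sphere 0 r)) {ε : ℝ} (hε : 0 < ε) :
    ∃ p : Polynomial ℂ, ∀ z : ℂ, ‖z‖ = r → |(p.eval z).re - u z| < ε := by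
  have : Fact (0 < 2 * Real.pi) := ⟨Real.two_pi_pos⟩
  -- the function on the circle
  let c : AddCircle (2 * Real.pi) → ℂ := fun θ => (r : ℂ) * (AddCircle.toCircle θ : ℂ)
  have hc : Continuous c := by
    apply continuous_const.mul
    exact continuous_subtype_val.comp AddCircle.continuous_toCircle
  have hcn : ∀ θ, c θ ∈ sphere (0 : ℂ) r := by
    intro θ
    rw [mem_sphere_zero_iff_norm]
    simp only [c, norm_mul, Complex.norm_real, Circle.norm_coe, mul_one, Real.norm_of_nonneg hr.le]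
  have hcs : ∀ z : ℂ, ‖z‖ = r → ∃ θ, c θ = z := by
    intro z hz
    refine ⟨((Complex.arg z : ℝ) : AddCircle (2 * Real.pi)), ?_⟩
    have h1 : AddCircle.toCircle ((Complex.arg z : ℝ) : AddCircle (2 * Real.pi)) = Circle.exp (Complex.arg z) := by
      rw [AddCircle.toCircle_apply_mk]
      congr 1
      field_simp
    simp only [c]
    rw [h1, Circle.coe_exp, ← hz, Complex.norm_mul_exp_arg_mul_I]
  let φ : C(AddCircle (2 * Real.pi), ℂ) := ⟨fun θ => ((u (c θ) : ℝ) : ℂ), by
    apply Complex.continuous_ofReal.comp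
    exact hu.comp_continuous hc hcn⟩
  have hφ : φ ∈ (Submodule.span ℂ (Set.range <| @fourier (2 * Real.pi))).topologicalClosure := by
    rw [span_fourier_closure_eq_top]
    trivial
  rw [← SetLike.mem_coe, Submodule.topologicalClosure_coe, Metric.mem_closure_iff] at hφ
  obtain ⟨T, hT, hTd⟩ := hφ ε hε
  -- the real part of a trigonometric polynomial
  have key : ∀ T ∈ Submodule.span ℂ (Set.range <| @fourier (2 * Real.pi)), ∀ a : ℂ, ∃ p : Polynomial ℂ,
      ∀ θ, (a * T θ).re = (p.eval (c θ)).re := by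
    intro T hT
    induction hT using Submodule.span_induction with
    | mem T hT =>
      obtain ⟨n, rfl⟩ := hT
      intro a
      have hfou : ∀ (m : ℕ) (θ : AddCircle (2 * Real.pi)), fourier (m : ℤ) θ = (c θ / r) ^ m := by
        intro m θ
        have h1 : c θ / r = (AddCircle.toCircle θ : ℂ) := by
          simp only [c]
          rw [mul_div_assoc, mul_comm, div_mul_cancel₀]
          exact_mod_cast hr.ne'
        rw [h1, fourier_apply, natCast_zsmul, AddCircle.toCircle_nsmul]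
        simp
      rcases Int.eq_nat_or_neg n with ⟨m, rfl | rfl⟩
      · refine ⟨Polynomial.C (a * ((r : ℂ)⁻¹) ^ m) * Polynomial.X ^ m, fun θ => ?_⟩
        rw [hfou]
        simp only [Polynomial.eval_mul, Polynomial.eval_C, Polynomial.eval_pow, Polynomial.eval_X]
        rw [div_eq_mul_inv, mul_pow]
        congr 1
        ring
      · refine ⟨Polynomial.C ((starRingEnd ℂ a) * ((r : ℂ)⁻¹) ^ m) * Polynomial.X ^ m, fun θ => ?_⟩
        rw [fourier_neg, hfou]
        simp only [Polynomial.eval_mul, Polynomial.eval_C, Polynomial.eval_pow, Polynomial.eval_X]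
        have h1 : a * (starRingEnd ℂ) ((c θ / r) ^ m) = (starRingEnd ℂ) ((starRingEnd ℂ a) * (c θ / r) ^ m) := by
          rw [map_mul, Complex.conj_conj]
        rw [h1, Complex.conj_re, div_eq_mul_inv, mul_pow]
        congr 1
        ring
    | zero =>
      intro a
      exact ⟨0, fun θ => by simp⟩
    | add S T _ _ hS hT =>
      intro a
      obtain ⟨p, hp⟩ := hS a
      obtain ⟨q, hq⟩ := hT a
      refine ⟨p + q, fun θ => ?_⟩
      rw [Polynomial.eval_add, Complex.add_re, ← hp, ← hq, ContinuousMap.add_apply, mul_add, Complex.add_re]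
    | smul b T _ hT =>
      intro a
      obtain ⟨p, hp⟩ := hT (a * b)
      refine ⟨p, fun θ => ?_⟩
      rw [← hp, ContinuousMap.smul_apply, smul_eq_mul, mul_assoc]
  obtain ⟨p, hp⟩ := key T hT 1
  refine ⟨p, fun z hz => ?_⟩
  obtain ⟨θ, rfl⟩ := hcs z hz
  rw [← hp θ, one_mul]
  have h1 : ‖(φ - T) θ‖ ≤ ‖φ - T‖ := (φ - T).norm_coe_le_norm θ
  rw [← dist_eq_norm] at h1
  have h2 : ‖(φ - T) θ‖ < ε := h1.trans_lt hTd
  have h3 : ((φ - T) θ).re = u (c θ) - (T θ).re := by
    rw [ContinuousMap.sub_apply, Complex.sub_re]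
    simp only [φ, ContinuousMap.coe_mk, Complex.ofReal_re]
  have h4 := Complex.abs_re_le_norm ((φ - T) θ)
  rw [h3] at h4
  rw [abs_sub_comm]
  exact h4.trans_lt h2

end Pool.Agent.H17EF

end

section

/-!
# BP OrdDefs: entire curves of order at most two

The characteristic function of an entire curve `f` in `ℙ(V)` is `T_f(r) = inf (-log |F 0|)` over the holomorphic lifts `F` of `f` to the disc of radius `r` (zeros allowed) with
`|F| ≤ 1`.  `OrdTwo f`: `T_f(r) ≤ C (1 + r²)` for all `r > 0`.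
-/

set_option autoImplicit false

namespace Pool.Agent.H36.BP

open Metric

/-- `f` is an entire curve in `ℙ(V)` of order at most two and of finite type: `T_f(r) ≤ C₀ (1 + r²)` -/
def OrdTwo {V : Type} [NormedAddCommGroup V] [NormedSpace ℂ V] (f : ℂ → V) : Prop :=
  ∃ C₀ : ℝ, ∀ r : ℝ, 0 < r → ∃ F : ℂ → V, DifferentiableOn ℂ F (ball 0 r) ∧ (∀ z ∈ ball (0 : ℂ) r, ‖F z‖ ≤ 1) ∧
    Real.exp (-(C₀ * (1 + r ^ 2))) ≤ ‖F 0‖ ∧ ∀ z ∈ ball (0 : ℂ) r, F z = 0 ∨ ∃ c : ℂ, c ≠ 0 ∧ f z = c • F z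

/-- every entire curve of order at most two in `K` which is not constant as a map into projective space lies in `B` -/
def BrodyMod2 {N : ℕ} (K B : Set (EN N)) : Prop :=
  ∀ F : ℂ → EN N, Differentiable ℂ F → (∀ z, F z ∈ K) → (∃ z w, ∀ c : ℂ, F z ≠ c • F w) → OrdTwo F → ∀ z, F z ∈ B

end Pool.Agent.H36.BP

end

section

/-!
# Gtu Res: residue fields of discrete valuations and algebraic extensions

Let `L` be an algebraic extension of `K`, and let `v` be a valuation of `L` which is nonnegative on `ℂ`.  If there are `n` elements of the valuation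
ring of `L` with algebraically independent residue classes, then there are `n` such elements in `K`.
-/

set_option autoImplicit false

open Polynomial

noncomputable section

namespace Pool.Agent.H7.Gtu

variable {K L : Type} [Field K] [Algebra ℂ K] [Field L] [Algebra ℂ L]

/-- Transcendence degrees of algebraic extensions. -/
theorem exists_indep {κ κ' : Type} [CommRing κ] [IsDomain κ] [CommRing κ'] [IsDomain κ'] [Algebra ℂ κ] [Algebra ℂ κ'] (f : κ →ₐ[ℂ] κ')
    (hf : Function.Injective f) (halg : ∀ y, ∃ q : κ[X], q ≠ 0 ∧ q.eval₂ (f : κ →+* κ') y = 0) {n : ℕ} {s : Fin n → κ'}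
    (hs : AlgebraicIndependent ℂ s) : ∃ t : Fin n → κ, AlgebraicIndependent ℂ t := by
  let _ : Algebra κ κ' := f.toRingHom.toAlgebra
  have _ : IsScalarTower ℂ κ κ' := IsScalarTower.of_algebraMap_eq fun c => (f.commutes c).symm
  have _ : FaithfulSMul κ κ' := (faithfulSMul_iff_algebraMap_injective _ _).2 hf
  have _ : Algebra.IsAlgebraic κ κ' := by
    refine ⟨fun y => ?_⟩
    obtain ⟨q, hq0, hq⟩ := halg y
    exact ⟨q, hq0, hq⟩
  have _ : FaithfulSMul ℂ κ := (faithfulSMul_iff_algebraMap_injective _ _).2 (algebraMap ℂ _).injective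
  obtain ⟨ι, x, hx⟩ := exists_isTranscendenceBasis' ℂ κ
  have hx' : IsTranscendenceBasis ℂ (algebraMap κ κ' ∘ x) := hx.algebraMap_comp
  have h1 := hs.lift_cardinalMk_le_trdeg
  have h2 := hx'.lift_cardinalMk_eq_trdeg
  rw [← h2] at h1
  obtain ⟨φ⟩ := Cardinal.lift_mk_le'.1 h1
  exact ⟨x ∘ φ, hx.1.comp φ φ.injective⟩

/-- The valuation ring. -/
def vring (v : AddValuation L (WithTop ℤ)) (hv : ∀ c : ℂ, 0 ≤ v (algebraMap ℂ L c)) : Subalgebra ℂ L where
  carrier := {x | 0 ≤ v x}
  mul_mem' := by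
    intro a b ha hb
    change 0 ≤ v (a * b)
    rw [v.map_mul]
    exact add_nonneg ha hb
  add_mem' := by
    intro a b ha hb
    exact (le_min ha hb).trans (v.map_add a b)
  algebraMap_mem' := hv

/-- The maximal ideal. -/
def vmax (v : AddValuation L (WithTop ℤ)) (hv : ∀ c : ℂ, 0 ≤ v (algebraMap ℂ L c)) : Ideal (vring v hv) where
  carrier := {x | 0 < v (x : L)}
  add_mem' := by
    intro a b ha hb
    exact (lt_min ha hb).trans_le (v.map_add a b)
  zero_mem' := by
    change 0 < v (0 : L)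
    rw [v.map_zero]
    exact WithTop.coe_lt_top 0
  smul_mem' := by
    intro c x hx
    change 0 < v ((c : L) * x)
    rw [v.map_mul]
    exact lt_of_lt_of_le hx (le_add_of_nonneg_left c.2)

instance vmax_isPrime (v : AddValuation L (WithTop ℤ)) (hv : ∀ c : ℂ, 0 ≤ v (algebraMap ℂ L c)) : (vmax v hv).IsPrime where
  ne_top' := by
    rw [Ideal.ne_top_iff_one]
    intro h
    have h1 : 0 < v (1 : L) := h
    rw [v.map_one] at h1
    exact lt_irrefl _ h1
  mem_or_mem' := by
    intro x y hxy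
    have h1 : 0 < v ((x : L) * y) := hxy
    rw [v.map_mul] at h1
    by_contra hcon
    push Not at hcon
    have h2 : v (x : L) = 0 := le_antisymm (not_lt.1 hcon.1) x.2
    have h3 : v (y : L) = 0 := le_antisymm (not_lt.1 hcon.2) y.2
    rw [h2, h3, add_zero] at h1
    exact lt_irrefl _ h1

/-- The residue field. -/
abbrev vres (v : AddValuation L (WithTop ℤ)) (hv : ∀ c : ℂ, 0 ≤ v (algebraMap ℂ L c)) : Type := vring v hv ⧸ vmax v hv

section Ext

variable [Algebra K L] [IsScalarTower ℂ K L]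

/-- The restriction of the valuation. -/
def vcom (K : Type) [Field K] [Algebra K L] (v : AddValuation L (WithTop ℤ)) : AddValuation K (WithTop ℤ) := v.comap (algebraMap K L)

omit [Algebra ℂ K] [Algebra ℂ L] [IsScalarTower ℂ K L] in
theorem vcom_apply (v : AddValuation L (WithTop ℤ)) (x : K) : vcom K v x = v (algebraMap K L x) := rfl

theorem vcom_const {v : AddValuation L (WithTop ℤ)} (hv : ∀ c : ℂ, 0 ≤ v (algebraMap ℂ L c)) (c : ℂ) :
    0 ≤ vcom K v (algebraMap ℂ K c) := by
  rw [vcom_apply, ← IsScalarTower.algebraMap_apply]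
  exact hv c

/-- The map of the valuation rings. -/
def vmap (v : AddValuation L (WithTop ℤ)) (hv : ∀ c : ℂ, 0 ≤ v (algebraMap ℂ L c)) :
    vring (vcom K v) (vcom_const hv) →ₐ[ℂ] vring v hv where
  toFun x := ⟨algebraMap K L x, x.2⟩
  map_one' := Subtype.ext (map_one (algebraMap K L))
  map_mul' _ _ := Subtype.ext (map_mul (algebraMap K L) _ _)
  map_zero' := Subtype.ext (map_zero (algebraMap K L))
  map_add' _ _ := Subtype.ext (map_add (algebraMap K L) _ _)
  commutes' c := Subtype.ext (IsScalarTower.algebraMap_apply ℂ K L c).symm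

/-- The map of the residue fields. -/
def rmap (v : AddValuation L (WithTop ℤ)) (hv : ∀ c : ℂ, 0 ≤ v (algebraMap ℂ L c)) :
    vres (vcom K v) (vcom_const hv) →ₐ[ℂ] vres v hv :=
  Ideal.quotientMapₐ (vmax v hv) (vmap v hv) fun _ hx => hx

theorem rmap_mk (v : AddValuation L (WithTop ℤ)) (hv : ∀ c : ℂ, 0 ≤ v (algebraMap ℂ L c)) (x : vring (vcom K v) (vcom_const hv)) :
    rmap (K := K) v hv (Ideal.Quotient.mk _ x) = Ideal.Quotient.mk _ (vmap v hv x) := rfl

theorem rmap_injective (v : AddValuation L (WithTop ℤ)) (hv : ∀ c : ℂ, 0 ≤ v (algebraMap ℂ L c)) :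
    Function.Injective (rmap (K := K) v hv) := by
  rw [injective_iff_map_eq_zero]
  intro x hx
  obtain ⟨x, rfl⟩ := Ideal.Quotient.mk_surjective x
  rw [rmap_mk, Ideal.Quotient.eq_zero_iff_mem] at hx
  rw [Ideal.Quotient.eq_zero_iff_mem]
  exact hx

/-- The extension of the residue fields is algebraic. -/
theorem rmap_algebraic [Algebra.IsAlgebraic K L] (v : AddValuation L (WithTop ℤ)) (hv : ∀ c : ℂ, 0 ≤ v (algebraMap ℂ L c)) (y : vres v hv) :
    ∃ q : (vres (vcom K v) (vcom_const hv))[X], q ≠ 0 ∧ q.eval₂ (rmap (K := K) v hv : vres (vcom K v) (vcom_const hv) →+* vres v hv) y = 0 := by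
  obtain ⟨x, rfl⟩ := Ideal.Quotient.mk_surjective y
  obtain ⟨p, hp0, hp⟩ := Algebra.IsAlgebraic.isAlgebraic (R := K) (x : L)
  obtain ⟨i, hi, hmin⟩ := Finset.exists_min_image p.support (fun i => vcom K v (p.coeff i)) (Polynomial.support_nonempty.2 hp0)
  have hc0 : p.coeff i ≠ 0 := Polynomial.mem_support_iff.1 hi
  have hq : C (p.coeff i)⁻¹ * p ∈ Polynomial.lifts (algebraMap (vring (vcom K v) (vcom_const hv)) K) := by
    rw [Polynomial.lifts_iff_coeff_lifts]
    intro n
    rw [Polynomial.coeff_C_mul]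
    have h1 : 0 ≤ vcom K v ((p.coeff i)⁻¹ * p.coeff n) := by
      by_cases hn : p.coeff n = 0
      · rw [hn, mul_zero, AddValuation.map_zero]
        exact le_top
      · have h2 := hmin n (Polynomial.mem_support_iff.2 hn)
        have h3 : vcom K v (p.coeff i) + vcom K v ((p.coeff i)⁻¹ * p.coeff n) = vcom K v (p.coeff n) := by
          rw [← AddValuation.map_mul, mul_inv_cancel_left₀ hc0]
        rw [← h3] at h2
        have h4 : vcom K v (p.coeff i) ≠ ⊤ := (AddValuation.ne_top_iff _).2 hc0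
        have h5 : vcom K v (p.coeff i) + 0 ≤ vcom K v (p.coeff i) + vcom K v ((p.coeff i)⁻¹ * p.coeff n) := by rwa [add_zero]
        exact (WithTop.add_le_add_iff_left h4).1 h5
    exact ⟨⟨_, h1⟩, rfl⟩
  obtain ⟨Q, hQ⟩ := (Polynomial.mem_lifts _).1 hq
  refine ⟨Q.map (Ideal.Quotient.mk _), ?_, ?_⟩
  · intro h0
    have h1 : (Q.map (Ideal.Quotient.mk (vmax (vcom K v) (vcom_const hv)))).coeff i = 0 := by rw [h0, Polynomial.coeff_zero]
    have h2 : (Q.coeff i : K) = 1 := by
      have h3 : (Q.map (algebraMap (vring (vcom K v) (vcom_const hv)) K)).coeff i = (C (p.coeff i)⁻¹ * p).coeff i := by rw [hQ]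
      rw [Polynomial.coeff_map, Polynomial.coeff_C_mul, inv_mul_cancel₀ hc0] at h3
      exact h3
    have h4 : Q.coeff i = 1 := Subtype.ext h2
    rw [Polynomial.coeff_map, h4, map_one] at h1
    exact one_ne_zero h1
  · rw [Polynomial.eval₂_map]
    have h1 : (rmap (K := K) v hv : vres (vcom K v) (vcom_const hv) →+* vres v hv).comp (Ideal.Quotient.mk _) =
        (Ideal.Quotient.mk (vmax v hv)).comp (vmap (K := K) v hv : _ →+* vring v hv) := rfl
    rw [h1, ← Polynomial.hom_eval₂]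
    have h2 : Q.eval₂ (vmap (K := K) v hv : vring (vcom K v) (vcom_const hv) →+* vring v hv) x = 0 := by
      apply Subtype.ext
      have h3 : ((Q.eval₂ (vmap (K := K) v hv : vring (vcom K v) (vcom_const hv) →+* vring v hv) x : vring v hv) : L) =
          Q.eval₂ ((algebraMap K L).comp (algebraMap (vring (vcom K v) (vcom_const hv)) K)) (x : L) :=
        Polynomial.hom_eval₂ Q (vmap (K := K) v hv : vring (vcom K v) (vcom_const hv) →+* vring v hv) (algebraMap (vring v hv) L) x
      rw [h3, ← Polynomial.eval₂_map, hQ, Polynomial.eval₂_mul]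
      have h4 : p.eval₂ (algebraMap K L) (x : L) = 0 := hp
      rw [h4, mul_zero]
      rfl
    rw [h2, map_zero]

/-- **Residual independence goes down.** -/
theorem exists_residue [Algebra.IsAlgebraic K L] (v : AddValuation L (WithTop ℤ)) (hv : ∀ c : ℂ, 0 ≤ v (algebraMap ℂ L c)) {n : ℕ}
    (h : ∃ s : Fin n → L, (∀ i, 0 ≤ v (s i)) ∧ ∀ p : MvPolynomial (Fin n) ℂ, p ≠ 0 → v (MvPolynomial.aeval s p) = 0) :
    ∃ s : Fin n → K, (∀ i, 0 ≤ v (algebraMap K L (s i))) ∧
      ∀ p : MvPolynomial (Fin n) ℂ, p ≠ 0 → v (algebraMap K L (MvPolynomial.aeval s p)) = 0 := by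
  obtain ⟨s, hs, hp⟩ := h
  -- the residue classes of the given elements
  have hs' : AlgebraicIndependent ℂ (fun i => (Ideal.Quotient.mk (vmax v hv) (⟨s i, hs i⟩ : vring v hv))) := by
    rw [algebraicIndependent_iff]
    intro p hp0
    by_contra hne
    have h1 : MvPolynomial.aeval (fun i => (Ideal.Quotient.mk (vmax v hv) (⟨s i, hs i⟩ : vring v hv))) p =
        Ideal.Quotient.mk (vmax v hv) (MvPolynomial.aeval (fun i => (⟨s i, hs i⟩ : vring v hv)) p) := by
      have h2 := MvPolynomial.comp_aeval (fun i => (⟨s i, hs i⟩ : vring v hv)) (Ideal.Quotient.mkₐ ℂ (vmax v hv))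
      exact (DFunLike.congr_fun h2 p).symm
    rw [h1, Ideal.Quotient.eq_zero_iff_mem] at hp0
    have h3 : ((MvPolynomial.aeval (fun i => (⟨s i, hs i⟩ : vring v hv)) p : vring v hv) : L) = MvPolynomial.aeval s p := by
      have h2 := MvPolynomial.comp_aeval (fun i => (⟨s i, hs i⟩ : vring v hv)) (vring v hv).val
      exact DFunLike.congr_fun h2 p
    have h4 : 0 < v ((MvPolynomial.aeval (fun i => (⟨s i, hs i⟩ : vring v hv)) p : vring v hv) : L) := hp0
    rw [h3, hp p hne] at h4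
    exact lt_irrefl _ h4
  obtain ⟨x, h3⟩ := exists_indep (rmap (K := K) v hv) (rmap_injective v hv) (rmap_algebraic (K := K) v hv) hs'
  choose y hy using fun i => Ideal.Quotient.mk_surjective (x i)
  refine ⟨fun i => (y i : K), fun i => (y i).2, fun p hp0 => ?_⟩
  have h4 : Ideal.Quotient.mk (vmax (vcom K v) (vcom_const hv)) (MvPolynomial.aeval y p) ≠ 0 := by
    have h5 := MvPolynomial.comp_aeval y (Ideal.Quotient.mkₐ ℂ (vmax (vcom K v) (vcom_const hv)))
    have h6 : Ideal.Quotient.mk (vmax (vcom K v) (vcom_const hv)) (MvPolynomial.aeval y p) =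
        MvPolynomial.aeval (fun i => Ideal.Quotient.mkₐ ℂ (vmax (vcom K v) (vcom_const hv)) (y i)) p := DFunLike.congr_fun h5 p
    have h7 : (fun i => Ideal.Quotient.mkₐ ℂ (vmax (vcom K v) (vcom_const hv)) (y i)) = x := funext hy
    rw [h6, h7]
    intro h8
    exact hp0 ((algebraicIndependent_iff.1 h3) p h8)
  have h5 : ((MvPolynomial.aeval y p : vring (vcom K v) (vcom_const hv)) : K) = MvPolynomial.aeval (fun i => (y i : K)) p := by
    have h2 := MvPolynomial.comp_aeval y (vring (vcom K v) (vcom_const hv)).val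
    exact DFunLike.congr_fun h2 p
  rw [← h5]
  refine le_antisymm (not_lt.1 fun h6 => h4 ?_) (MvPolynomial.aeval y p : vring (vcom K v) (vcom_const hv)).2
  rw [Ideal.Quotient.eq_zero_iff_mem]
  exact h6

end Ext

end Pool.Agent.H7.Gtu

end
end

section

/-!
# HE Nak: a relation

`w l`, `l ≤ N`, are elements of a ring `B`, `Q s` forms of degree `e`, `Qt` a form of degree `e` whose value at `w` is a unit, and `(w l) ^ n = ∑ s, b l s (w) * Q s (w)` with forms `b l s` of degree `n - e`.  By Nakayama's lemma there is a polynomial `r` with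
constant coefficient `1` such that `(w l) ^ n'` is annihilated by the value of `r` at the elements `Q s (w) / Qt (w)`.
-/

set_option autoImplicit false

open MvPolynomial

namespace Pool.Agent.HE

theorem hc_mul {σ R : Type*} [CommRing R] {p q : MvPolynomial σ R} {e : ℕ} (hp : p.IsHomogeneous e) (d : ℕ) :
    homogeneousComponent (d + e) (q * p) = homogeneousComponent d q * p := by
  classical
  have h1 : q * p = ∑ k ∈ Finset.range (q.totalDegree + 1), homogeneousComponent k q * p := by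
    rw [← Finset.sum_mul, sum_homogeneousComponent]
  rw [h1, map_sum]
  have h2 : ∀ k ∈ Finset.range (q.totalDegree + 1), homogeneousComponent (d + e) (homogeneousComponent k q * p) =
      if k = d then homogeneousComponent k q * p else 0 := by
    intro k _
    have h3 : (homogeneousComponent k q * p).IsHomogeneous (k + e) := (homogeneousComponent_isHomogeneous k q).mul hp
    rw [homogeneousComponent_of_mem ((mem_homogeneousSubmodule _ _).2 h3)]
    by_cases hk : k = d
    · rw [if_pos (by omega), if_pos hk]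
    · rw [if_neg (by omega), if_neg hk]
  rw [Finset.sum_congr rfl h2, Finset.sum_ite_eq']
  split_ifs with h
  · rfl
  · have h3 : homogeneousComponent d q = 0 := by
      refine homogeneousComponent_eq_zero _ _ ?_
      rw [Finset.mem_range] at h
      omega
    rw [h3, zero_mul]

theorem hc_mul_lt {σ R : Type*} [CommRing R] {p q : MvPolynomial σ R} {e : ℕ} (hp : p.IsHomogeneous e) {d : ℕ} (hd : d < e) :
    homogeneousComponent d (q * p) = 0 := by
  classical
  have h1 : q * p = ∑ k ∈ Finset.range (q.totalDegree + 1), homogeneousComponent k q * p := by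
    rw [← Finset.sum_mul, sum_homogeneousComponent]
  rw [h1, map_sum]
  refine Finset.sum_eq_zero fun k _ => ?_
  have h3 : (homogeneousComponent k q * p).IsHomogeneous (k + e) := (homogeneousComponent_isHomogeneous k q).mul hp
  rw [homogeneousComponent_of_mem ((mem_homogeneousSubmodule _ _).2 h3), if_neg (by omega)]

theorem nak {R₀ B ι : Type} [CommRing R₀] [CommRing B] [Fintype ι] {N : ℕ} (θ₀ : R₀ →+* B) (w : Fin (N + 1) → B) {e n : ℕ} {Q : ι → MvPolynomial (Fin (N + 1)) R₀} {Qt : MvPolynomial (Fin (N + 1)) R₀}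
    (hQt : Qt.IsHomogeneous e) {u : B} (hu : eval₂Hom θ₀ w Qt * u = 1) {b : Fin (N + 1) → ι → MvPolynomial (Fin (N + 1)) R₀} (hn0 : 0 < n) (hn : e ≤ n)
    (hb : ∀ l s, (b l s).IsHomogeneous (n - e)) (hid : ∀ l, w l ^ n = ∑ s, eval₂Hom θ₀ w (b l s) * eval₂Hom θ₀ w (Q s)) :
    ∃ r : MvPolynomial ι R₀, constantCoeff r = 1 ∧ ∀ l, w l ^ ((N + 1) * n) * eval₂Hom θ₀ (fun s => eval₂Hom θ₀ w (Q s) * u) r = 0 := by
  classical
  set Θ : MvPolynomial (Fin (N + 1)) R₀ →+* B := eval₂Hom θ₀ w with hΘ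
  set v : ι → B := fun s => Θ (Q s) * u with hv
  obtain ⟨n', hn'⟩ : ∃ n', n' = (N + 1) * n := ⟨_, rfl⟩
  letI : Algebra (MvPolynomial ι R₀) B := (eval₂Hom θ₀ v).toAlgebra
  have hsmul : ∀ (a : MvPolynomial ι R₀) (x : B), a • x = eval₂Hom θ₀ v a * x := fun a x => rfl
  have hCs : ∀ (c : R₀) (x : B), (C c : MvPolynomial ι R₀) • x = θ₀ c * x := by
    intro c x
    rw [hsmul, coe_eval₂Hom, eval₂_C]
  have hXs : ∀ (s : ι) (x : B), (X s : MvPolynomial ι R₀) • x = v s * x := by
    intro s x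
    rw [hsmul, coe_eval₂Hom, eval₂_X]
  set T : Finset (Fin (N + 1) →₀ ℕ) := Finset.finsuppAntidiag (Finset.univ : Finset (Fin (N + 1))) n' with hT
  have hmemT : ∀ α : Fin (N + 1) →₀ ℕ, α ∈ T ↔ α.degree = n' := by
    intro α
    rw [hT, Finset.mem_finsuppAntidiag, Finsupp.degree_eq_sum]
    exact ⟨fun h => h.1, fun h => ⟨h, Finset.subset_univ _⟩⟩
  set W : Submodule (MvPolynomial ι R₀) B := Submodule.span _ ((fun α : Fin (N + 1) →₀ ℕ => Θ (monomial α 1)) '' (T : Set (Fin (N + 1) →₀ ℕ))) with hW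
  set I : Ideal (MvPolynomial ι R₀) := Ideal.span (Set.range X) with hI
  have hWfg : W.FG := Submodule.fg_def.2 ⟨_, (Finset.finite_toSet T).image _, rfl⟩
  have hdeg : ∀ {P : MvPolynomial (Fin (N + 1)) R₀} {d : ℕ}, P.IsHomogeneous d → ∀ α ∈ P.support, α.degree = d := by
    intro P d hP α hα
    have h1 := hP (mem_support_iff.1 hα)
    have h2 : Finsupp.weight (1 : Fin (N + 1) → ℕ) α = Finsupp.degree α := (congrFun (congrArg DFunLike.coe (Finsupp.degree_eq_weight_one (σ := Fin (N + 1)) (R := ℕ))) α).symm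
    rw [← h2, h1]
  have hc1 : ∀ P : MvPolynomial (Fin (N + 1)) R₀, P.IsHomogeneous n' → Θ P ∈ W := by
    intro P hP
    rw [P.as_sum, map_sum]
    refine Submodule.sum_mem _ fun α hα => ?_
    have h1 : Θ (monomial α (coeff α P)) = (C (coeff α P) : MvPolynomial ι R₀) • Θ (monomial α 1) := by
      have h2 : (monomial α (coeff α P) : MvPolynomial (Fin (N + 1)) R₀) = C (coeff α P) * monomial α 1 := by
        rw [C_mul_monomial, mul_one]
      have h3 : Θ (C (coeff α P)) = θ₀ (coeff α P) := by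
        rw [hΘ, coe_eval₂Hom, eval₂_C]
      rw [hCs, h2, map_mul, h3]
    rw [h1]
    exact Submodule.smul_mem _ _ (Submodule.subset_span ⟨α, (hmemT α).2 (hdeg hP α hα), rfl⟩)
  have hWI : W ≤ I • W := by
    rw [hW, Submodule.span_le]
    rintro _ ⟨α, hα, rfl⟩
    have hα' := (hmemT α).1 hα
    simp only [SetLike.mem_coe]
    rw [← hW]
    have h1 : Θ (monomial α 1) = u * Θ (Qt * monomial α 1) := by
      rw [map_mul]
      linear_combination (-(Θ (monomial α 1))) * hu
    have h2 : (Qt * monomial α 1).IsHomogeneous (e + n') := hQt.mul (isHomogeneous_monomial 1 hα')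
    rw [h1, MvPolynomial.as_sum (Qt * monomial α 1), map_sum, Finset.mul_sum]
    refine Submodule.sum_mem _ fun β hβ => ?_
    have hβ' := hdeg h2 β hβ
    obtain ⟨l, hl⟩ : ∃ l, n ≤ β l := by
      by_contra hcon
      push Not at hcon
      have h3 : β.degree ≤ (N + 1) * (n - 1) := by
        rw [Finsupp.degree_eq_sum]
        refine (Finset.sum_le_sum fun l _ => Nat.le_pred_of_lt (hcon l)).trans ?_
        rw [Finset.sum_const, Finset.card_univ, Fintype.card_fin, smul_eq_mul]
        exact le_rfl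
      have h4 : (N + 1) * (n - 1) < (N + 1) * n := Nat.mul_lt_mul_of_pos_left (by omega) (Nat.succ_pos N)
      omega
    obtain ⟨c, hc⟩ : ∃ c, c = coeff β (Qt * monomial α 1) := ⟨_, rfl⟩
    rw [← hc]
    obtain ⟨β', hβ''⟩ : ∃ β', β = β' + Finsupp.single l n := ⟨β - Finsupp.single l n, by
      ext j
      rw [Finsupp.add_apply, Finsupp.tsub_apply]
      by_cases hj : j = l
      · subst hj
        rw [Finsupp.single_eq_same]
        omega
      · rw [Finsupp.single_eq_of_ne hj]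
        omega⟩
    have hd' : β'.degree = n' + e - n := by
      have h3 : β.degree = β'.degree + n := by
        rw [hβ'', map_add, Finsupp.degree_single]
      omega
    have h3 : (monomial β c : MvPolynomial (Fin (N + 1)) R₀) = monomial β' c * X l ^ n := by
      rw [hβ'', X_pow_eq_monomial, monomial_mul, mul_one]
    have h4 : Θ (X l) = w l := by rw [hΘ, coe_eval₂Hom, eval₂_X]
    have h5 : u * Θ (monomial β c) = ∑ s, (X s : MvPolynomial ι R₀) • Θ (monomial β' c * b l s) := by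
      rw [h3, map_mul, map_pow, h4, hid l, Finset.mul_sum, Finset.mul_sum]
      refine Finset.sum_congr rfl fun s _ => ?_
      rw [hXs, map_mul, hv]
      ring
    rw [h5]
    refine Submodule.sum_mem _ fun s _ => Submodule.smul_mem_smul (Ideal.subset_span ⟨s, rfl⟩) (hc1 _ ?_)
    have h6 := (isHomogeneous_monomial (σ := Fin (N + 1)) c hd').mul (hb l s)
    have h7 : n' + e - n + (n - e) = n' := by
      have : n ≤ n' := by
        rw [hn']
        exact Nat.le_mul_of_pos_left n (Nat.succ_pos N)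
      omega
    rwa [h7] at h6
  obtain ⟨r, hr1, hr2⟩ := Submodule.exists_sub_one_mem_and_smul_eq_zero_of_fg_of_le_smul I W hWfg hWI
  refine ⟨r, ?_, fun l => ?_⟩
  · have h1 : I ≤ RingHom.ker (constantCoeff (σ := ι) (R := R₀)) := by
      rw [hI, Ideal.span_le]
      rintro _ ⟨s, rfl⟩
      simp
    have h2 := h1 hr1
    rw [RingHom.mem_ker, map_sub, map_one, sub_eq_zero] at h2
    exact h2
  · have h1 := hr2 (Θ (monomial (Finsupp.single l n') 1)) (Submodule.subset_span ⟨_, (hmemT _).2 (Finsupp.degree_single l n'), rfl⟩)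
    have h2 : Θ (monomial (Finsupp.single l n') 1) = w l ^ n' := by
      rw [← X_pow_eq_monomial, map_pow, hΘ, coe_eval₂Hom, eval₂_X]
    rw [hsmul, h2, mul_comm] at h1
    rw [← hn']
    exact h1

end Pool.Agent.HE

end
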