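import Pool.Agent.H94.PX4.M14

/-! The parts of this file: H36.BP.MaxP, H36.BP.MtA, H36.BP.SubB, LG.Pb. -/

section

/-!
# BP MaxP: the maximum principle

* `not_isLocalMax`: with `0 < c' < c`: `|h z| exp(c'|z - z₀|²) ≤ u z ≤ u z₀ = |h z₀|` near `z₀`, so `|h|` has a local maximum at `z₀`, hence `h` is constant near
  `z₀` (`Complex.eventually_eq_of_isLocalMax_norm`), and `|h z₀| exp(c'|z - z₀|²) ≤ |h z₀|` for `z ≠ z₀` near `z₀`: contradiction.
* `max_principle`: otherwise the maximum of `u` over the compact set (`UpperSemicontinuousOn.exists_isMaxOn`) is `> A ≥ 0` and is attained in `U`.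
-/

set_option autoImplicit false

namespace Pool.Agent.H36.BP

open Filter Topology Metric

variable {N : ℕ}

theorem Sub.not_isLocalMax {u : ℂ → ℝ} {z₀ : ℂ} {c : ℝ} (h : Sub u z₀ c) (hc : 0 < c) : ¬ IsLocalMax u z₀ := by
  intro hmax
  obtain ⟨hpos, hsup⟩ := h
  obtain ⟨f, hf, hf0, hfu⟩ := hsup (c / 2) (by linarith)
  have hmax' : ∀ᶠ z in 𝓝 z₀, u z ≤ u z₀ := hmax
  have h1 : IsLocalMax (norm ∘ f) z₀ := by
    filter_upwards [hfu, hmax'] with z hz1 hz2
    simp only [Function.comp_apply]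
    rw [hf0]
    refine le_trans ?_ (hz1.trans hz2)
    refine le_mul_of_one_le_right (norm_nonneg _) ?_
    exact Real.one_le_exp (by positivity)
  have h2 : ∀ᶠ z in 𝓝 z₀, DifferentiableAt ℂ f z :=
    hf.eventually_analyticAt.mono fun z hz => hz.differentiableAt
  have h3 := Complex.eventually_eq_of_isLocalMax_norm h2 h1
  have h4 : ∀ᶠ z in 𝓝 z₀, z = z₀ := by
    filter_upwards [hfu, hmax', h3] with z hz1 hz2 hz3
    by_contra hne
    rw [hz3, hf0] at hz1
    have h5 : u z₀ * Real.exp (c / 2 * ‖z - z₀‖ ^ 2) ≤ u z₀ * 1 := by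
      rw [mul_one]
      exact hz1.trans hz2
    have h6 := le_of_mul_le_mul_left h5 hpos
    rw [Real.exp_le_one_iff] at h6
    have h7 : 0 < ‖z - z₀‖ := norm_pos_iff.2 (sub_ne_zero.2 hne)
    have h8 : 0 < c / 2 * ‖z - z₀‖ ^ 2 := by positivity
    linarith
  have h9 : ∀ᶠ z in 𝓝[≠] z₀, z = z₀ := h4.filter_mono nhdsWithin_le_nhds
  have h10 : ∀ᶠ z in 𝓝[≠] z₀, z ≠ z₀ := eventually_mem_nhdsWithin
  obtain ⟨z, hz1, hz2⟩ := (h9.and h10).exists
  exact hz2 hz1

theorem max_principle {S U : Set ℂ} (hS : IsCompact S) (hU : IsOpen U) (hUS : U ⊆ S) {u : ℂ → ℝ}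
    (husc : UpperSemicontinuousOn u S) (hsub : ∀ z ∈ U, 0 < u z → ∃ c, 0 < c ∧ Sub u z c) {A : ℝ} (hA : 0 ≤ A)
    (hbd : ∀ z ∈ S \ U, u z ≤ A) : ∀ z ∈ S, u z ≤ A := by
  intro z hz
  by_contra hlt
  push Not at hlt
  obtain ⟨a, haS, hmax⟩ := UpperSemicontinuousOn.exists_isMaxOn ⟨z, hz⟩ hS husc
  have h1 : u z ≤ u a := hmax hz
  have haU : a ∈ U := by
    by_contra haU
    have := hbd a ⟨haS, haU⟩
    linarith
  obtain ⟨c, hc, hs⟩ := hsub a haU (by linarith)
  refine hs.not_isLocalMax hc ?_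
  filter_upwards [hU.mem_nhds haU] with w hw
  exact hmax (hUS hw)

end Pool.Agent.H36.BP

end

section

/-!
# BP MtA: the metric along a curve

* `mt_usc`: `F` and `deriv F` are continuous near `z`, `usc`.
* `mt_smul`: for `k` holomorphic without zeros at `z`: `(k F)' = k F' + k' F`, `inv`.
* `mt_comp`: `(F ∘ φ)' = φ' F' ∘ φ`, `hom`.
* `mt_limit`: `F n → H` locally uniformly on a neighbourhood of `0`, then `F n 0 → H 0`, `(F n)' 0 → H' 0` (`TendstoLocallyUniformlyOn.deriv`), `usc` at `(H 0, H' 0)`.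
-/

set_option autoImplicit false

namespace Pool.Agent.H36.BP

open Filter Topology Metric

variable {N : ℕ}

variable {K B : Set (EN N)} {G : EN N → EN N → ℝ} {ρ : EN N → ℝ} {M : ℕ} {c₀ C : ℝ}

theorem mt_usc (hM : MetricData K B G ρ M c₀ C) {U : Set ℂ} (hU : IsOpen U) {F : ℂ → EN N} (hF : Curve K U F) :
    UpperSemicontinuousOn (mt G F) U := by
  intro z hz y hy
  have hA : AnalyticAt ℂ F z := hF.1.analyticAt (hU.mem_nhds hz)
  have hc : ContinuousAt (fun w => (F w, deriv F w)) z := hA.continuousAt.prodMk hA.deriv.continuousAt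
  have h1 := hM.usc (F z) (hF.2 z hz) (deriv F z) y hy
  have h2 := hc.eventually h1
  filter_upwards [nhdsWithin_le_nhds h2, self_mem_nhdsWithin] with w hw hwU
  exact hw (hF.2 w hwU)

theorem mt_nonneg (hM : MetricData K B G ρ M c₀ C) {F : ℂ → EN N} {z : ℂ} (hz : F z ∈ K) : 0 ≤ mt G F z := by
  exact hM.nonneg _ hz _

theorem mt_smul (hM : MetricData K B G ρ M c₀ C) {F : ℂ → EN N} {k : ℂ → ℂ} {z : ℂ} (hF : DifferentiableAt ℂ F z)
    (hk : DifferentiableAt ℂ k z) (hz : F z ∈ K) (h0 : k z ≠ 0) : mt G (fun z => k z • F z) z = mt G F z := by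
  have h : deriv (fun z => k z • F z) z = k z • deriv F z + deriv k z • F z := by
    have := (hk.hasDerivAt.smul hF.hasDerivAt).deriv
    exact this
  unfold mt
  rw [h]
  exact hM.inv (F z) hz (deriv F z) (k z) (deriv k z) h0

theorem mt_comp (hM : MetricData K B G ρ M c₀ C) {F : ℂ → EN N} {φ : ℂ → ℂ} {z : ℂ} (hF : DifferentiableAt ℂ F (φ z))
    (hφ : DifferentiableAt ℂ φ z) (hz : F (φ z) ∈ K) : mt G (fun z => F (φ z)) z = ‖deriv φ z‖ * mt G F (φ z) := by
  have h : deriv (fun z => F (φ z)) z = deriv φ z • deriv F (φ z) := by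
    have := (HasDerivAt.scomp z hF.hasDerivAt hφ.hasDerivAt).deriv
    exact this
  unfold mt
  rw [h]
  exact hM.hom (F (φ z)) hz (deriv F (φ z)) (deriv φ z)

theorem mt_limit (hM : MetricData K B G ρ M c₀ C) {κ : Type} {l : Filter κ} [l.NeBot] {F : κ → ℂ → EN N} {H : ℂ → EN N} {s : ℝ} (hs : 0 < s)
    (hF : ∀ᶠ n in l, Curve K (ball 0 s) (F n)) (hH : TendstoLocallyUniformlyOn F H l (ball 0 s)) (h0 : H 0 ∈ K) {a : ℝ}
    (ha : ∀ᶠ n in l, a ≤ mt G (F n) 0) : a ≤ mt G H 0 := by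
  by_contra hlt
  rw [not_le] at hlt
  have hmem : (0 : ℂ) ∈ ball (0 : ℂ) s := mem_ball_self hs
  have h1 : Tendsto (fun n => F n 0) l (𝓝 (H 0)) := hH.tendsto_at hmem
  have hd : TendstoLocallyUniformlyOn (deriv ∘ F) (deriv H) l (ball 0 s) :=
    hH.deriv (hF.mono fun n hn => hn.1) isOpen_ball
  have h2 : Tendsto (fun n => deriv (F n) 0) l (𝓝 (deriv H 0)) := hd.tendsto_at hmem
  have h3 : Tendsto (fun n => (F n 0, deriv (F n) 0)) l (𝓝 (H 0, deriv H 0)) := h1.prodMk_nhds h2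
  have h4 := h3.eventually (hM.usc (H 0) h0 (deriv H 0) a hlt)
  obtain ⟨n, hn1, hn2, hn3⟩ := (h4.and (hF.and ha)).exists
  have h5 : G (F n 0) (deriv (F n) 0) < a := hn1 (hn2.2 0 hmem)
  exact absurd hn3 (not_le.mpr h5)

theorem mt_const (hM : MetricData K B G ρ M c₀ C) {F : ℂ → EN N} {z : ℂ} (hz : F z ∈ K) {a : ℂ} (h : deriv F z = a • F z) : mt G F z = 0 := by
  have h1 : G (F z) 0 = 0 := by
    have := hM.hom (F z) hz 0 0
    simpa using this
  have h2 := hM.inv (F z) hz 0 1 a one_ne_zero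
  rw [smul_zero, zero_add, one_smul, h1] at h2
  unfold mt
  rw [h, h2]

end Pool.Agent.H36.BP

end

section

/-!
# BP SubB: exponentials of squares

`|t|² = |t₀|² + 2 Re(conj t₀ (t - t₀)) + |t - t₀|²`, so `exp(a|t|²) = |exp(a(|t₀|² + 2 conj t₀ (t - t₀)))| exp(a|t - t₀|²)`, and
`|t z - t₀|²/|z - z₀|² → |t'(z₀)|²` (for every `a`, positive or negative).
-/

set_option autoImplicit false

namespace Pool.Agent.H36.BP

open Filter Topology Metric

variable {N : ℕ}

theorem Sub.exp_sq {t : ℂ → ℂ} {z₀ : ℂ} (ht : AnalyticAt ℂ t z₀) (a : ℝ) :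
    Sub (fun z => Real.exp (a * ‖t z‖ ^ 2)) z₀ (a * ‖deriv t z₀‖ ^ 2) := by
  refine ⟨Real.exp_pos _, fun c' hc' => ?_⟩
  refine ⟨fun z => Complex.exp (((a * ‖t z₀‖ ^ 2 : ℝ) : ℂ) +
    2 * a * (starRingEnd ℂ (t z₀)) * (t z - t z₀)), ?_, ?_, ?_⟩
  · refine AnalyticAt.cexp ?_
    exact analyticAt_const.add (analyticAt_const.mul (ht.sub analyticAt_const))
  · change ‖Complex.exp _‖ = _
    rw [sub_self, mul_zero, add_zero, Complex.norm_exp, Complex.ofReal_re]
  · have hd : HasDerivAt t (deriv t z₀) z₀ := ht.differentiableAt.hasDerivAt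
    have hsl := hasDerivAt_iff_tendsto_slope.mp hd
    have hlim : Tendsto (fun z => a * ‖slope t z₀ z‖ ^ 2) (𝓝[≠] z₀) (𝓝 (a * ‖deriv t z₀‖ ^ 2)) :=
      (hsl.norm.pow 2).const_mul a
    have hev := hlim.eventually (lt_mem_nhds hc')
    have hev' : ∀ᶠ z in 𝓝 z₀, c' * ‖z - z₀‖ ^ 2 ≤ a * ‖t z - t z₀‖ ^ 2 := by
      rw [eventually_nhdsWithin_iff] at hev
      filter_upwards [hev] with z hz'
      rcases eq_or_ne z z₀ with h | h
      · rw [h]
        simp
      · have h1 := hz' h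
        have h2 : 0 < ‖z - z₀‖ := norm_pos_iff.mpr (sub_ne_zero.mpr h)
        rw [slope_def_field, norm_div, div_pow] at h1
        have h3 : c' * ‖z - z₀‖ ^ 2 < a * (‖t z - t z₀‖ ^ 2 / ‖z - z₀‖ ^ 2) * ‖z - z₀‖ ^ 2 :=
          mul_lt_mul_of_pos_right h1 (by positivity)
        have h4 : a * (‖t z - t z₀‖ ^ 2 / ‖z - z₀‖ ^ 2) * ‖z - z₀‖ ^ 2 =
            a * ‖t z - t z₀‖ ^ 2 := by
          field_simp
        rw [h4] at h3
        exact h3.le
    filter_upwards [hev'] with z hz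
    rw [Complex.norm_exp, ← Real.exp_add]
    apply Real.exp_le_exp.mpr
    have key : ‖t z‖ ^ 2 = ‖t z₀‖ ^ 2 + 2 * ((starRingEnd ℂ (t z₀)) * (t z - t z₀)).re +
        ‖t z - t z₀‖ ^ 2 := by
      rw [Complex.sq_norm, Complex.sq_norm, Complex.sq_norm]
      simp only [Complex.normSq_apply, Complex.mul_re, Complex.conj_re, Complex.conj_im,
        Complex.sub_re, Complex.sub_im]
      ring
    have e2 : (((a * ‖t z₀‖ ^ 2 : ℝ) : ℂ) + 2 * a * (starRingEnd ℂ (t z₀)) * (t z - t z₀)).re =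
        a * ‖t z₀‖ ^ 2 + 2 * a * ((starRingEnd ℂ (t z₀)) * (t z - t z₀)).re := by
      rw [Complex.add_re, Complex.ofReal_re, mul_assoc]
      congr 1
      rw [show (2 * (a : ℂ)) = (((2 * a : ℝ)) : ℂ) by push_cast; ring, Complex.re_ofReal_mul]
    rw [e2, key]
    linarith

end Pool.Agent.H36.BP

end

section

/-!
# LG Pb: bound for the order of an algebraic element by the order of a polynomial

`h` satisfies `∑ C_i(x) h^i = 0` with polynomials `C_i`, not all `0`; divide by a power of `h`: `C_0 ≠ 0`.  `C_0(x) = - h (C_1(x) + C_2(x) h + …)`, the bracket has order `≥ 0` (it is not `0` because `C_0(x) ≠ 0`).  Compare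
`exists_relation` in `H68/KR/KOD.lean`.  `p = C_0`.
-/

set_option autoImplicit false

open MvPolynomial
open Pool.Agent.H23 (RatForm regularForms PrimeDivisorOver)

noncomputable section

namespace Pool.Agent.LG

variable {K : Type} [Field K] [Algebra ℂ K] {k n D : ℕ} {ι : Type}

open Classical in
/-- the additive valuation with values in `WithTop ℤ` of an integer valued valuation -/
private def avf {L : Type} [Field L] (ν : L → ℤ) (a : L) : WithTop ℤ := if a = 0 then ⊤ else ((ν a : ℤ) : WithTop ℤ)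

private theorem avf_zero {L : Type} [Field L] (ν : L → ℤ) : avf ν (0 : L) = ⊤ := if_pos rfl

private theorem avf_ne {L : Type} [Field L] (ν : L → ℤ) {a : L} (ha : a ≠ 0) : avf ν a = ((ν a : ℤ) : WithTop ℤ) := if_neg ha

private def av {L : Type} [Field L] [Algebra ℂ L] {ν : L → ℤ} (hν : IV L ν) : AddValuation L (WithTop ℤ) :=
  AddValuation.of (avf ν) (avf_zero ν)
    (by
      rw [avf_ne ν one_ne_zero]
      have h := hν.const 1 one_ne_zero
      rw [map_one] at h
      rw [h]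
      rfl)
    (by
      intro a b
      by_cases ha : a = 0
      · subst ha
        rw [zero_add]
        exact min_le_right _ _
      by_cases hb : b = 0
      · subst hb
        rw [add_zero]
        exact min_le_left _ _
      by_cases hab : a + b = 0
      · rw [hab, avf_zero]
        exact le_top
      rw [avf_ne ν ha, avf_ne ν hb, avf_ne ν hab, ← WithTop.coe_min]
      exact WithTop.coe_le_coe.2 (hν.add ha hb hab))
    (by
      intro a b
      by_cases ha : a = 0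
      · subst ha
        rw [zero_mul, avf_zero, WithTop.top_add]
      by_cases hb : b = 0
      · subst hb
        rw [mul_zero, avf_zero, WithTop.add_top]
      rw [avf_ne ν ha, avf_ne ν hb, avf_ne ν (mul_ne_zero ha hb), hν.mul ha hb, WithTop.coe_add])

private theorem av_ne {L : Type} [Field L] [Algebra ℂ L] {ν : L → ℤ} (hν : IV L ν) {a : L} (ha : a ≠ 0) : av hν a = ((ν a : ℤ) : WithTop ℤ) := avf_ne ν ha

private theorem av_nonneg {L : Type} [Field L] [Algebra ℂ L] {ν : L → ℤ} (hν : IV L ν) {a : L} (ha : a ≠ 0 → 0 ≤ ν a) : 0 ≤ av hν a := by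
  by_cases h : a = 0
  · rw [h, AddValuation.map_zero]
    exact le_top
  · rw [av_ne hν h]
    exact WithTop.coe_le_coe.2 (ha h)

private theorem av_aeval {L : Type} [Field L] [Algebra ℂ L] {ν : L → ℤ} (hν : IV L ν) {m : ℕ} {x : Fin m → L} (h0 : ∀ i, x i ≠ 0 → 0 ≤ ν (x i)) (p : MvPolynomial (Fin m) ℂ) :
    0 ≤ av hν (aeval x p) := by
  induction p using MvPolynomial.induction_on with
  | C a =>
    rw [MvPolynomial.aeval_C]
    refine av_nonneg hν fun ha => ?_
    rw [hν.const a]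
    rintro rfl
    exact ha (map_zero _)
  | add p q hp hq =>
    rw [map_add]
    exact (av hν).map_le_add hp hq
  | mul_X p i hp =>
    rw [map_mul, MvPolynomial.aeval_X, (av hν).map_mul]
    exact add_nonneg hp (av_nonneg hν (h0 i))

private theorem exists_rel {L : Type} [Field L] [Algebra ℂ L] {m : ℕ} {x : Fin m → L} (hx : AlgebraicIndependent ℂ x) {h : L} (halg : IsAlgebraic (Algebra.adjoin ℂ (Set.range x)) h) :
    ∃ F : Polynomial (MvPolynomial (Fin m) ℂ), F ≠ 0 ∧ F.eval₂ (MvPolynomial.aeval x).toRingHom h = 0 := by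
  obtain ⟨p, hp, hph⟩ := halg
  refine ⟨p.map hx.aevalEquiv.symm.toRingEquiv.toRingHom, ?_, ?_⟩
  · have hinj : Function.Injective hx.aevalEquiv.symm.toRingEquiv.toRingHom := hx.aevalEquiv.symm.injective
    exact (Polynomial.map_ne_zero_iff hinj).2 hp
  · rw [Polynomial.eval₂_map]
    have hc : ((MvPolynomial.aeval x).toRingHom : MvPolynomial (Fin m) ℂ →+* L).comp hx.aevalEquiv.symm.toRingEquiv.toRingHom =
        algebraMap (Algebra.adjoin ℂ (Set.range x)) L := by
      ext y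
      obtain ⟨q, rfl⟩ := hx.aevalEquiv.surjective y
      have h1 : hx.aevalEquiv.symm.toRingEquiv.toRingHom (hx.aevalEquiv q) = q := hx.aevalEquiv.symm_apply_apply q
      rw [RingHom.comp_apply, h1, hx.algebraMap_aevalEquiv q]
      rfl
    rw [hc]
    exact hph

theorem exists_pbound {L : Type} [Field L] [Algebra ℂ L] {m : ℕ} {x : Fin m → L} (hx : AlgebraicIndependent ℂ x) {h : L} (hh : h ≠ 0) (halg : IsAlgebraic (Algebra.adjoin ℂ (Set.range x)) h) :
    ∃ p : MvPolynomial (Fin m) ℂ, p ≠ 0 ∧ ∀ ν : L → ℤ, IV L ν → (∀ i, x i ≠ 0 → 0 ≤ ν (x i)) → 0 ≤ ν h → ν h ≤ ν (aeval x p) := by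
  obtain ⟨F, hF, hFh⟩ := exists_rel hx halg
  obtain ⟨G, hG0, hGh⟩ : ∃ G : Polynomial (MvPolynomial (Fin m) ℂ), G.coeff 0 ≠ 0 ∧
      G.eval₂ (MvPolynomial.aeval x).toRingHom h = 0 := by
    obtain ⟨G, hG⟩ := Polynomial.exists_eq_pow_rootMultiplicity_mul_and_not_dvd F hF 0
    rw [map_zero, sub_zero] at hG
    refine ⟨G, fun h1 => hG.2 (Polynomial.X_dvd_iff.2 h1), ?_⟩
    rw [hG.1, Polynomial.eval₂_mul, Polynomial.eval₂_pow, Polynomial.eval₂_X] at hFh
    exact (mul_eq_zero.1 hFh).resolve_left (pow_ne_zero _ hh)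
  refine ⟨G.coeff 0, hG0, fun ν hν hxv hhv => ?_⟩
  have hp0 : aeval x (G.coeff 0) ≠ 0 := fun h1 => hG0 ((injective_iff_map_eq_zero _).1 hx _ h1)
  have h1 : G.eval₂ (MvPolynomial.aeval x).toRingHom h =
      MvPolynomial.aeval x (G.coeff 0) +
        h * G.divX.eval₂ (MvPolynomial.aeval x).toRingHom h := by
    conv_lhs => rw [← Polynomial.divX_mul_X_add G]
    rw [Polynomial.eval₂_add, Polynomial.eval₂_mul, Polynomial.eval₂_X, Polynomial.eval₂_C]
    rw [add_comm, mul_comm]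
    rfl
  rw [h1] at hGh
  have h2 : 0 ≤ av hν (G.divX.eval₂ (MvPolynomial.aeval x).toRingHom h) := by
    rw [Polynomial.eval₂_eq_sum_range]
    refine AddValuation.map_le_sum (av hν) fun i _ => ?_
    rw [(av hν).map_mul, (av hν).map_pow]
    exact add_nonneg (av_aeval hν hxv _) (nsmul_nonneg (av_nonneg hν fun _ => hhv) i)
  have h3 : av hν h ≤ av hν (aeval x (G.coeff 0)) := by
    rw [eq_neg_of_add_eq_zero_left hGh, (av hν).map_neg, (av hν).map_mul]
    exact le_add_of_nonneg_right h2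
  rw [av_ne hν hh, av_ne hν hp0] at h3
  exact WithTop.coe_le_coe.1 h3

end Pool.Agent.LG

end
end
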