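import Pool.Agent.H94.PX4.M07
import Pool.Agent.H94.PX4.M09
import Pool.Agent.H94.PX4.M17
import Pool.Agent.H94.PX4.M23
import Pool.Agent.H94.PX4.M37
import Pool.Agent.H94.PX4.M44

/-! The parts of this file: H13.CV.Dx, H36.BP.ExtC, LT.GD, PX.Circ, PX.F.Crv. -/

section

/-!
# CV Dx: the order of the differential of a function

`Form K 1` is the exterior power `⋀¹ Ω_{K/ℂ}`, `Form.mk c a = c • ιMulti (d (a 0))` (`Pool/Agent/H23/Fano.lean`); `Form.mk c a` is additive in `d (a 0)` and `K`-linear in it.  (`Form K 1 ≃ Ω_{K/ℂ}`: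
`exteriorPower.oneEquiv`; `exteriorPower.ιMulti` is multilinear: `AlternatingMap.map_update_smul`, `map_update_add` for `Fin 1`.)
`mk_ne_zero`: see e.g. `Pool/Agent/H62/FC/NotLGT.lean`, `Pool/Agent/H23/Forms.lean`: `d x ≠ 0` for a transcendental element in characteristic `0`: there is a derivation `D` of `K` over `ℂ` with `D x = 1`
(Mathlib: `Differential`... or the library: look for `exists_derivation`, `IsTranscendenceBasis` basis of `Ω`, `Pool.Agent.H23` `mem_regularForms_iff`, `dualDer`).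
`mk_inv`: `d x = - x² d (x⁻¹)` (`Derivation.leibniz_inv`).
`exists_eta`: let `oz E t = 1`, `e = oz E x` (may be negative), `u = x * t ^ (-e)` of order `0`: `x = t ^ e * u`, `d x = t ^ (e - 1) • (e u d t + t d u)`, and `η = e u d t + t d u` is a sum of two
generators of `regularForms`.
`pole_mk`: with `g = t ^ (e - 1)`: `0 ≤ oz E h + m * (e - 1) + p`.
-/

set_option autoImplicit false

open Pool.Agent.H23.Fano (PrimeDivisorOver Form regularForms)
open Pool.Agent.H17LG.Variety (PoleAtMost IsLogGeneralType)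

noncomputable section

namespace Pool.Agent.H13.CV

variable {K : Type} [Field K] [Algebra ℂ K]

/-- the form `dx` -/
def dx (x : K) : Form K 1 := Form.mk 1 fun _ => x

/-- a differential as a form -/
private def tf : Ω[K⁄ℂ] →ₗ[K] Form K 1 :=
  ((exteriorPower.oneEquiv K Ω[K⁄ℂ]).symm : Ω[K⁄ℂ] →ₗ[K] ⋀[K]^1 Ω[K⁄ℂ])

private lemma tf_inj : Function.Injective (tf : Ω[K⁄ℂ] →ₗ[K] Form K 1) :=
  (exteriorPower.oneEquiv K Ω[K⁄ℂ]).symm.injective

private lemma mk_eq (c x : K) :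
    Form.mk c (fun _ : Fin 1 => x) = tf (c • KaehlerDifferential.D ℂ K x) := by
  rw [map_smul]
  have h : (exteriorPower.ιMulti K 1 (fun _ : Fin 1 => KaehlerDifferential.D ℂ K x) :
      ⋀[K]^1 Ω[K⁄ℂ]) =
      (exteriorPower.oneEquiv K Ω[K⁄ℂ]).symm (KaehlerDifferential.D ℂ K x) := by
    rw [LinearEquiv.eq_symm_apply, exteriorPower.oneEquiv_ιMulti]
  exact congrArg (fun w : ⋀[K]^1 Ω[K⁄ℂ] => c • w) h

private lemma dx_eq (x : K) : dx x = tf (KaehlerDifferential.D ℂ K x) := by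
  rw [dx, mk_eq, one_smul]

theorem dx_sub_const (x : K) (c : ℂ) : dx (x - algebraMap ℂ K c) = dx x := by
  rw [dx_eq, dx_eq, map_sub, Derivation.map_algebraMap, sub_zero]

theorem dx_ne_zero {x : K} (hx : Transcendental ℂ x) : dx x ≠ 0 := by
  obtain ⟨t, hst, ht⟩ := exists_isTranscendenceBasis_superset (R := ℂ) (s := ({x} : Set K))
    (algebraicIndependent_unique_type_iff.mpr hx)
  obtain ⟨b, hb⟩ := Pool.Agent.H23.exists_basis_kaehler ht
  have h1 := hb ⟨x, hst rfl⟩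
  rw [dx_eq]
  intro h
  have h2 : KaehlerDifferential.D ℂ K x = 0 := tf_inj (h.trans (map_zero _).symm)
  exact b.ne_zero ⟨x, hst rfl⟩ (h1.trans h2)

theorem exists_eta (E : Place K) {x : K} (hx : x ≠ 0) :
    ∃ (t : K) (η : Form K 1), t ≠ 0 ∧ oz E t = 1 ∧ η ∈ regularForms 1 E.localRing ∧ dx x = t ^ (oz E x - 1) • η := by
  obtain ⟨t, ht, h1⟩ := exists_uni E
  set e : ℤ := oz E x with he
  set u : K := x * t ^ (-e) with hu
  have hte : t ^ (-e) ≠ 0 := zpow_ne_zero _ ht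
  have hu0 : u ≠ 0 := mul_ne_zero hx hte
  have hou : oz E u = 0 := by
    rw [hu, oz_mul E hx hte, oz_zpow, h1]
    omega
  have hxu : x = t ^ e * u := by
    rw [hu, mul_left_comm, ← zpow_add₀ ht, add_neg_cancel, zpow_zero, mul_one]
  have hru : 0 ≤ E.ord u := nonneg_iff.2 (Or.inr hou.ge)
  have hrt : 0 ≤ E.ord t := nonneg_iff.2 (Or.inr (by omega))
  have hre : 0 ≤ E.ord (((e : ℂ) • u : K)) := by
    rw [Algebra.smul_def]
    exact nonneg_mul (const_nonneg E _) hru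
  refine ⟨t, Form.mk t (fun _ => u) + Form.mk ((e : ℂ) • u) (fun _ => t), ht, h1, ?_, ?_⟩
  · refine AddSubgroup.add_mem _ (AddSubgroup.subset_closure ?_) (AddSubgroup.subset_closure ?_)
    · exact ⟨t, fun _ => u, hrt, fun _ => hru, rfl⟩
    · exact ⟨(e : ℂ) • u, fun _ => t, hre, fun _ => hrt, rfl⟩
  · rw [mk_eq, mk_eq, ← map_add, ← map_smul, dx_eq]
    congr 1
    conv_lhs => rw [hxu]
    rw [Derivation.leibniz, Derivation.leibniz_zpow, smul_add, smul_smul, smul_smul]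
    have h2 : t ^ (e - 1) * t = t ^ e := by
      rw [← zpow_add_one₀ ht, sub_add_cancel]
    rw [h2]
    congr 1
    rw [← Int.cast_smul_eq_zsmul K, smul_smul, smul_smul]
    congr 1
    rw [Algebra.smul_def, map_intCast]
    ring

/-- a sufficient condition for `h dx ^ m` to have a pole of order at most `p` at `E` -/
theorem pole_mk (E : Place K) {x h : K} (hx : x ≠ 0) {m p : ℕ} (hh : h = 0 ∨ 0 ≤ oz E h + m * (oz E x - 1) + p) : PoleAtMost p E m h (dx x) := by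
  obtain ⟨t, η, ht, h1, hη, hd⟩ := exists_eta E hx
  refine ⟨t ^ (oz E x - 1), η, hη, hd, ?_⟩
  rcases hh with hh | hh
  · rw [hh, zero_mul, E.ord.map_zero]
    exact le_of_le_of_eq le_top (WithTop.top_add _).symm
  · by_cases h0 : h = 0
    · rw [h0, zero_mul, E.ord.map_zero]
      exact le_of_le_of_eq le_top (WithTop.top_add _).symm
    have hg : (t ^ (oz E x - 1)) ^ m ≠ 0 := pow_ne_zero _ (zpow_ne_zero _ ht)
    rw [← coe_oz E (mul_ne_zero h0 hg), oz_mul E h0 hg, oz_pow, oz_zpow, h1, mul_one]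
    have h2 : ((p : ℕ) : WithTop ℤ) = (((p : ℤ)) : WithTop ℤ) := by
      push_cast
      rfl
    rw [h2, ← WithTop.coe_add]
    exact WithTop.coe_le_coe.2 hh

end Pool.Agent.H13.CV

end
end

section

/-!
# BP ExtC: points where the metric is positive

Near `z`: `ρ(F w) ≠ 0` for `w ≠ z` (`ρ_zero`, `hB`), and `wd (F w) (deriv F w) ≠ 0` for `w ≠ z`: otherwise (frequently `0`) all minors `F_i F_j' - F_j F_i'` (holomorphic; they vanish where `F' = a F`, `wd_eq_zero`) vanish frequently, hence near `z`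
(`AnalyticAt.frequently_zero_iff_eventually_zero`), and then `wd = 0` near `z` (if all minors of `(x, v)` vanish and `x ≠ 0` then `v` is a multiple of `x`), against `hc`.  Now `lower`: `mt G F w ≥ ρ^M fs > 0`.
-/

set_option autoImplicit false

namespace Pool.Agent.H36.BP

open Filter Topology Metric

variable {N : ℕ}

variable {K B : Set (EN N)} {G : EN N → EN N → ℝ} {ρ : EN N → ℝ} {M : ℕ} {c₀ C : ℝ}

private theorem ExtC_proj {F : ℂ → EN N} {z : ℂ} (hF : AnalyticAt ℂ F z) (i : Fin (N + 1)) :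
    AnalyticAt ℂ (fun w => F w i) z :=
  (ContinuousLinearMap.analyticAt (EuclideanSpace.proj i : EN N →L[ℂ] ℂ) (F z)).comp hF

theorem exists_pos (hM : MetricData K B G ρ M c₀ C) {F : ℂ → EN N} {z : ℂ} (hF : AnalyticAt ℂ F z) (hK : ∀ᶠ w in 𝓝 z, F w ∈ K)
    (hB : ¬ ∀ᶠ w in 𝓝 z, F w ∈ B) (hc : ¬ ∀ᶠ w in 𝓝 z, wd (F w) (deriv F w) = 0) : ∀ᶠ w in 𝓝[≠] z, 0 < mt G F w := by
  have h1 : ∀ᶠ w in 𝓝[≠] z, ρ (F w) ≠ 0 := by
    by_contra h
    exact hB (hM.ρ_zero F z hF hK (by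
      rw [Filter.not_eventually] at h
      simpa using h))
  have h2 : ∀ᶠ w in 𝓝[≠] z, wd (F w) (deriv F w) ≠ 0 := by
    by_contra h
    rw [Filter.not_eventually] at h
    refine hc ?_
    have h3 : ∀ i j : Fin (N + 1),
        ∀ᶠ w in 𝓝 z, F w i * deriv F w j - F w j * deriv F w i = 0 := by
      intro i j
      have han : AnalyticAt ℂ (fun w => F w i * deriv F w j - F w j * deriv F w i) z :=
        ((ExtC_proj hF i).mul (ExtC_proj hF.deriv j)).sub
          ((ExtC_proj hF j).mul (ExtC_proj hF.deriv i))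
      refine (han.frequently_zero_iff_eventually_zero).1 ?_
      refine (h.and_eventually (hK.filter_mono nhdsWithin_le_nhds)).mono ?_
      rintro w ⟨hw1, hw2⟩
      rw [not_not, wd_eq_zero (hM.ne _ hw2)] at hw1
      obtain ⟨a, ha⟩ := hw1
      rw [ha]
      simp only [PiLp.smul_apply, smul_eq_mul]
      ring
    have h4 : ∀ᶠ w in 𝓝 z, ∀ i j : Fin (N + 1),
        F w i * deriv F w j - F w j * deriv F w i = 0 :=
      Filter.eventually_all.2 fun i => Filter.eventually_all.2 fun j => h3 i j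
    filter_upwards [h4, hK] with w hw1 hw2
    rw [wd_eq_zero (hM.ne _ hw2)]
    have h5 : ∃ i, F w i ≠ 0 := by
      by_contra h6
      rw [not_exists] at h6
      refine hM.ne _ hw2 (PiLp.ext fun i => ?_)
      exact not_not.1 (h6 i)
    obtain ⟨i, hi⟩ := h5
    refine ⟨deriv F w i / F w i, PiLp.ext fun j => ?_⟩
    rw [PiLp.smul_apply, smul_eq_mul]
    have h6 := hw1 i j
    field_simp
    linear_combination h6
  filter_upwards [h1, h2, hK.filter_mono nhdsWithin_le_nhds] with w hw1 hw2 hw3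
  have h3 : 0 < ρ (F w) := lt_of_le_of_ne (hM.ρ_nonneg _ hw3) (Ne.symm hw1)
  have h4 : 0 < wd (F w) (deriv F w) := lt_of_le_of_ne (wd_nonneg _ _) (Ne.symm hw2)
  have h5 : 0 < ‖F w‖ := norm_pos_iff.2 (hM.ne _ hw3)
  have h6 : 0 < fs (F w) (deriv F w) := div_pos h4 (pow_pos h5 2)
  exact (mul_pos (pow_pos h3 M) h6).trans_le (hM.lower _ hw3 _)

end Pool.Agent.H36.BP

end

section

/-!
# LT GD: the geometric definitions for `T_m`

`bf x p` is the value at `p` of the binary form of degree `m` with coefficients `x`; `T_m` is the set of the `(y, x) ∈ A × ℙ^m` such that the binary forms `form θ y` and `bf x` have no common zero.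

* `V a x`: `x ∈ ℂ^(m+1)` are homogeneous coordinates of the image of `a` in `ℙ^m` (`VMapm`: the properties of a regular map).
* `IsVm Q ξ V Vf`: the rational functions `Vf l` are homogeneous coordinates of the map.
* `GeoT`: all hypotheses about `Z`.
-/

set_option autoImplicit false

open Topology Filter MvPolynomial
open Pool.Agent.PXF (Cn form IsThetaForm)
open Pool.Agent.LG (Cone GP RegAt BdG IsType Lft RegL NZ IsVal Fam wr)

noncomputable section

namespace Pool.Agent.LT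

variable {K : Type} [Field K] [Algebra ℂ K] {N κ d m : ℕ}

/-- the binary form with the coefficients `x` -/
def bf (x : Cn (m + 1)) (p : Cn 2) : ℂ := ∑ l : Fin (m + 1), x l * p 0 ^ (l : ℕ) * p 1 ^ (m - (l : ℕ))

/-- the map to `ℙ^m` is regular -/
def VMapm (Q : Ideal (MvPolynomial (Fin (N + 1)) ℂ)) (V : (Fin (N + 1) → ℂ) → Cn (m + 1) → Prop) : Prop :=
  ∀ a, Cone Q a → ∃ (D : ℕ) (γ : Fin (m + 1) → MvPolynomial (Fin (N + 1)) ℂ), (∀ i, (γ i).IsHomogeneous D) ∧ (∃ i, eval a (γ i) ≠ 0) ∧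
    ∀ a', Cone Q a' → (∃ i, eval a' (γ i) ≠ 0) → ∀ q : Cn (m + 1), V a' q ↔ ∃ c : ℂ, c ≠ 0 ∧ q = fun i => c * eval a' (γ i)

/-- the `Vf l` are homogeneous coordinates of the map -/
def IsVm (Q : Ideal (MvPolynomial (Fin (N + 1)) ℂ)) (ξ : Fin (N + 1) → K) (V : (Fin (N + 1) → ℂ) → Cn (m + 1) → Prop) (Vf : Fin (m + 1) → K) : Prop :=
  ∀ a x, Cone Q a → V a x → ∀ l, x l ≠ 0 → Vf l ≠ 0 ∧ ∀ l', RegAt ξ a (Vf l' / Vf l) (x l' / x l)

/-- the hypotheses about the variety `Z` -/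
structure GeoT {s : ℕ} (Q : Ideal (MvPolynomial (Fin (N + 1)) ℂ)) (ξ : Fin (N + 1) → K) (Λ : AddSubgroup (Cn (κ + 1))) (θ : Fin (d + 1) → Cn (κ + 1) → ℂ) (L : (Fin (N + 1) → ℂ) → Cn (κ + 1) → Prop)
    (V : (Fin (N + 1) → ℂ) → Cn (m + 1) → Prop) (G : Fin s → MvPolynomial (Fin (N + 1)) ℂ) : Prop where
  prime : Q.IsPrime
  homog : ∀ F ∈ Q, ∀ m, homogeneousComponent m F ∈ Q
  gp : GP Q ξ
  lft : Lft Q Λ L
  reg : RegL Q Λ θ L
  vmap : VMapm Q V
  homG : ∀ m, ∃ D, (G m).IsHomogeneous D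
  /-- the variety is in the complement of the boundary: the two binary forms have no common zero -/
  off : ∀ a y x, Cone Q a → (∃ m, eval a (G m) ≠ 0) → L a y → V a x → ∀ p : Cn 2, p ≠ 0 → form θ y p = 0 → bf x p ≠ 0
  /-- finite fibres -/
  fin : ∀ (γ : ℂ → Fin (N + 1) → ℂ) (y : Cn (κ + 1)) (q : Cn (m + 1)), AnalyticAt ℂ γ 0 → (∀ᶠ t in 𝓝 (0 : ℂ), Cone Q (γ t)) → (∀ᶠ t in 𝓝 (0 : ℂ), L (γ t) y) → (∀ᶠ t in 𝓝 (0 : ℂ), V (γ t) q) →
    ∀ᶠ t in 𝓝 (0 : ℂ), ∃ c : ℂ, γ t = c • γ 0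
  /-- not over the special points: over some point the form has `2 m + 1` different zeros -/
  many : ∃ a y, Cone Q a ∧ (∃ m, eval a (G m) ≠ 0) ∧ L a y ∧ ∃ p : Fin (2 * m + 1) → Cn 2, (∀ i, p i ≠ 0 ∧ form θ y (p i) = 0) ∧ ∀ i j, i ≠ j → p i 0 * p j 1 ≠ p i 1 * p j 0

end Pool.Agent.LT

end
end

section

/-!
# PX Circ: circles over `Gd D δ`

As `G4/A/GeoC` (`GeoC_circ`), for all directions with `A₁ ≤ ‖a‖ ≤ A₂` at once: for fixed `(y₀, a₀)` almost all circles around `0` avoid the countable set of the hits; distance `≥ 2 δ` by compactness; the same circle works for `(y, a)` near `(y₀, a₀)`; finitely many pairs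
suffice (`y` modulo `Λ`).
-/

set_option autoImplicit false

open Topology Filter Metric

namespace Pool.Agent.PX

open Pool.Agent.H36.BP (EN fs wd)
open Pool.Agent.H62.EF (MN pr)
open Pool.Agent.AD (Vd)
open Pool.Agent.TG (Lat Gd)
open Pool.Agent.G3 (wt)
open Pool.Agent.G4 (Few)

variable {k d r : ℕ}

variable {Λ : AddSubgroup (Vd (k + 1))} {D : Set (Vd (k + 1))} {Bad : Vd (k + 1) → Set (Vd (k + 1))} {θ : Fin (d + 1) → Vd (k + 1) → ℂ}
  {W : Fin r → Vd (k + 1) →L[ℂ] ℂ}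

private theorem Circ_iso {a : Vd (k + 1)} (hi : ∀ y : Vd (k + 1), ∀ᶠ z in 𝓝[≠] (0 : ℂ), y + z • a ∉ D) (y : Vd (k + 1)) (z₀ : ℂ) :
    ∃ ε : ℝ, 0 < ε ∧ ∀ z : ℂ, z ≠ z₀ → ‖z - z₀‖ < ε → y + z • a ∉ D := by
  have h1 := hi (y + z₀ • a)
  rw [eventually_nhdsWithin_iff, Metric.eventually_nhds_iff] at h1
  obtain ⟨ε, hε, h2⟩ := h1
  refine ⟨ε, hε, fun z hz hlt => ?_⟩
  have h3 := h2 (y := z - z₀) (by rw [dist_zero_right]; exact hlt) (by
    simp only [Set.mem_compl_iff, Set.mem_singleton_iff]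
    exact sub_ne_zero.2 hz)
  have e : y + z₀ • a + (z - z₀) • a = y + z • a := by rw [sub_smul]; abel
  rwa [e] at h3

private theorem Circ_countable {a : Vd (k + 1)} (hi : ∀ y : Vd (k + 1), ∀ᶠ z in 𝓝[≠] (0 : ℂ), y + z • a ∉ D) (y : Vd (k + 1)) :
    {z : ℂ | y + z • a ∈ D}.Countable := by
  set S : Set ℂ := {z : ℂ | y + z • a ∈ D} with hS
  have hd : DiscreteTopology S := by
    rw [discreteTopology_subtype_iff]
    intro z hz
    obtain ⟨ε, hε, h⟩ := Circ_iso hi y z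
    rw [← disjoint_iff, Filter.disjoint_principal_right, mem_nhdsWithin]
    refine ⟨ball z ε, isOpen_ball, mem_ball_self hε, ?_⟩
    rintro w ⟨hw1, hw2⟩ hwS
    exact h w hw2 (by rw [← dist_eq_norm]; exact hw1) hwS
  have : Countable S := by
    have := hd
    exact countable_of_Lindelof_of_discrete
  exact this

private theorem Circ_dist {a : Vd (k + 1)} (hD : IsClosed D) {K : Set ℂ} (hK : IsCompact K) (y : Vd (k + 1)) (h : ∀ z ∈ K, y + z • a ∉ D) :
    ∃ c : ℝ, 0 < c ∧ ∀ z ∈ K, y + z • a ∈ Gd D c := by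
  have hc : IsCompact ((fun z : ℂ => y + z • a) '' K) := hK.image (by fun_prop)
  have hdis : Disjoint ((fun z : ℂ => y + z • a) '' K) D := by
    rw [Set.disjoint_left]
    rintro _ ⟨z, hz, rfl⟩
    exact h z hz
  obtain ⟨c, hc0, hd2⟩ := hdis.exists_thickenings hc hD
  refine ⟨c, hc0, fun z hz b hb => ?_⟩
  by_contra hlt
  push Not at hlt
  refine (Set.disjoint_left.1 hd2) (a := b) ?_ ?_
  · rw [mem_thickening_iff]
    exact ⟨y + z • a, ⟨z, hz, rfl⟩, by rw [dist_comm, dist_eq_norm]; exact hlt⟩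
  · rw [mem_thickening_iff]
    exact ⟨b, hb, by rw [dist_self]; exact hc0⟩

private theorem Circ_circle {a : Vd (k + 1)} (hD : IsClosed D) (hi : ∀ y : Vd (k + 1), ∀ᶠ z in 𝓝[≠] (0 : ℂ), y + z • a ∉ D) (y : Vd (k + 1)) {r₁ r₂ : ℝ} (h12 : r₁ < r₂) :
    ∃ s : ℝ, r₁ < s ∧ s < r₂ ∧ ∃ c : ℝ, 0 < c ∧ ∀ z : ℂ, ‖z‖ = s → y + z • a ∈ Gd D c := by
  have h1 : ((fun z : ℂ => ‖z‖) '' {z : ℂ | y + z • a ∈ D}).Countable := (Circ_countable hi y).image _
  have h2 : ¬ (Set.Ioo r₁ r₂).Countable := by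
    intro h
    have h3 : Set.Ioo r₁ r₂ = ∅ ∨ r₂ ≤ r₁ := by
      by_contra hcon
      push Not at hcon
      have := Cardinal.mk_Ioo_real hcon.2
      have h4 := Cardinal.le_aleph0_iff_set_countable.2 h
      rw [this] at h4
      exact absurd h4 (not_le.2 Cardinal.aleph0_lt_continuum)
    rcases h3 with h3 | h3
    · exact (Set.nonempty_Ioo.2 h12).ne_empty h3
    · linarith
  have h3 : ∃ s ∈ Set.Ioo r₁ r₂, s ∉ (fun z : ℂ => ‖z‖) '' {z : ℂ | y + z • a ∈ D} := by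
    by_contra hcon
    push Not at hcon
    exact h2 (h1.mono fun s hs => hcon s hs)
  obtain ⟨s, hs, hs2⟩ := h3
  have hK : IsCompact (sphere (0 : ℂ) s) := isCompact_sphere 0 s
  obtain ⟨c, hc, hc2⟩ := Circ_dist (a := a) hD hK y (fun z hz hzD => hs2 ⟨z, hzD, by rwa [mem_sphere_zero_iff_norm] at hz⟩)
  exact ⟨s, hs.1, hs.2, c, hc, fun z hz => hc2 z (by rwa [mem_sphere_zero_iff_norm])⟩

theorem PD.circ (P : PD Λ D Bad θ W) {A₁ A₂ ρ : ℝ} (hA₁ : 0 < A₁) (hρ : 0 < ρ) : ∃ δ : ℝ, 0 < δ ∧ ∀ y a : Vd (k + 1), A₁ ≤ ‖a‖ → ‖a‖ ≤ A₂ →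
    ∃ s : ℝ, 0 < s ∧ s ≤ ρ ∧ ∀ z : ℂ, ‖z‖ = s → y + z • a ∈ Gd D δ := by
  obtain ⟨R, hR, hcov⟩ := P.lat.cpt
  have hcpt : IsCompact (closedBall (0 : Vd (k + 1)) R ×ˢ (closedBall (0 : Vd (k + 1)) A₂ ∩ {a : Vd (k + 1) | A₁ ≤ ‖a‖})) :=
    (isCompact_closedBall _ _).prod ((isCompact_closedBall _ _).inter_right (isClosed_le continuous_const continuous_norm))
  have h1 : ∃ δ : ℝ, 0 < δ ∧ ∀ p ∈ closedBall (0 : Vd (k + 1)) R ×ˢ (closedBall (0 : Vd (k + 1)) A₂ ∩ {a : Vd (k + 1) | A₁ ≤ ‖a‖}),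
      ∃ s : ℝ, 0 < s ∧ s ≤ ρ ∧ ∀ z : ℂ, ‖z‖ = s → p.1 + z • p.2 ∈ Gd D δ := by
    refine hcpt.induction_on (p := fun S : Set (Vd (k + 1) × Vd (k + 1)) => ∃ δ : ℝ, 0 < δ ∧ ∀ p ∈ S,
      ∃ s : ℝ, 0 < s ∧ s ≤ ρ ∧ ∀ z : ℂ, ‖z‖ = s → p.1 + z • p.2 ∈ Gd D δ) ?_ ?_ ?_ ?_
    · exact ⟨1, one_pos, fun p hp => absurd hp (Set.notMem_empty p)⟩
    · rintro S T hST ⟨δ, hδ, hQ⟩
      exact ⟨δ, hδ, fun p hp => hQ p (hST hp)⟩
    · rintro S T ⟨δ, hδ, hQ⟩ ⟨δ', hδ', hQ'⟩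
      refine ⟨min δ δ', lt_min hδ hδ', fun p hp => ?_⟩
      rcases hp with hp | hp
      · obtain ⟨s, h1, h2, h3⟩ := hQ p hp
        exact ⟨s, h1, h2, fun z hz b hb => (min_le_left _ _).trans (h3 z hz b hb)⟩
      · obtain ⟨s, h1, h2, h3⟩ := hQ' p hp
        exact ⟨s, h1, h2, fun z hz b hb => (min_le_right _ _).trans (h3 z hz b hb)⟩
    · rintro ⟨y₀, a₀⟩ ⟨_, _, ha₀⟩
      have ha0 : a₀ ≠ 0 := norm_pos_iff.1 (hA₁.trans_le ha₀)
      obtain ⟨s, h1, h2, c, hc, h3⟩ := Circ_circle (a := a₀) P.D_closed (P.iso a₀ ha0) y₀ hρ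
      have hopen : (ball y₀ (c / 4) ×ˢ ball a₀ (c / (4 * s))) ∈ 𝓝 (y₀, a₀) :=
        prod_mem_nhds (ball_mem_nhds _ (by positivity)) (ball_mem_nhds _ (by positivity))
      refine ⟨_, mem_nhdsWithin_of_mem_nhds hopen, c / 2, by linarith, ?_⟩
      rintro ⟨y, a⟩ ⟨hy, ha⟩
      refine ⟨s, h1, h2.le, fun z hz b hb => ?_⟩
      rw [mem_ball, dist_eq_norm] at hy ha
      simp only at hy ha ⊢
      have h4 := h3 z hz b hb
      have h5 : ‖y₀ + z • a₀ - b‖ ≤ ‖y + z • a - b‖ + (‖y - y₀‖ + ‖z‖ * ‖a - a₀‖) := by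
        have e : y₀ + z • a₀ - b = (y + z • a - b) - ((y - y₀) + z • (a - a₀)) := by rw [smul_sub]; abel
        rw [e]
        refine (norm_sub_le _ _).trans ?_
        gcongr
        refine (norm_add_le _ _).trans ?_
        rw [norm_smul]
      have h6 : ‖z‖ * ‖a - a₀‖ ≤ c / 4 := by
        rw [hz]
        have h7 : s * ‖a - a₀‖ ≤ s * (c / (4 * s)) := by gcongr
        have h8 : s * (c / (4 * s)) = c / 4 := by field_simp
        linarith
      linarith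
  obtain ⟨δ, hδ, hQ⟩ := h1
  refine ⟨δ, hδ, fun y a ha1 ha2 => ?_⟩
  obtain ⟨l, hl, hlR⟩ := hcov y
  obtain ⟨s, h1, h2, h3⟩ := hQ (y - l, a) ⟨by simpa using hlR, by simpa using ha2, ha1⟩
  refine ⟨s, h1, h2, fun z hz b hb => ?_⟩
  have h4 := h3 z hz _ (P.D_inv b hb (-l) (Λ.neg_mem hl))
  have e : y - l + z • a - (b + -l) = y + z • a - b := by abel
  simp only at h4
  rwa [e] at h4

end Pool.Agent.PX

end

section

/-!
# PX F Crv: lifts of the curves

`Cn (k + 1) = Vd (k + 1) = Fin (k + 1) → ℂ`; `EN 1 = EuclideanSpace ℂ (Fin 2)`; `form θ y x.ofLp = Fo θ y x`.  `torus_disc`, `torus_univ`, `torus_half`: as `glue_disc` in `G3/F/LiftH` (local lifts modulo the discrete subgroup `Λ` glue on discs, on `ℂ` and on the half plane: the derivatives of the local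
lifts agree and have a primitive; the half plane is convex, holomorphic functions on convex open sets have primitives, or use the exhaustion by discs / the map `ζ ↦ (1 + ζ) / (1 - ζ)` from the disc).  `lift_disc`: `TG/Lf`, `disc_lift` for `z ↦ pr (g z)` (or `BP/Lift`, `lift_disc`).
`lift_univ`: `H17.exists_global_lift` or `G3.entire_lift`.
-/

set_option autoImplicit false

open Topology Filter Metric

namespace Pool.Agent.PX

open Pool.Agent.H17 (PN HolomorphicInto puncturedDisc)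
open Pool.Agent.H36.BP (EN fs wd)
open Pool.Agent.H62.EF (MN pr)
open Pool.Agent.AD (Vd)
open Pool.Agent.TG (Lat)
open Pool.Agent.PXF (Cn form HolomorphicIntoTorus)

variable {k d : ℕ} {Λ : AddSubgroup (Vd (k + 1))} {θ : Fin (d + 1) → Vd (k + 1) → ℂ}

/-- local lifts modulo a discrete subgroup glue on an open connected set where holomorphic functions have primitives -/
private theorem glue {E : Type*} [NormedAddCommGroup E] [NormedSpace ℂ E] {Λ : AddSubgroup E} {δ : ℝ} (hδ : 0 < δ)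
    (hΛ : ∀ l ∈ Λ, ‖l‖ < δ → l = 0) {w : ℂ → E} {U : Set ℂ} (hUo : IsOpen U) (hUc : IsPreconnected U) {c : ℂ} (hcc : c ∈ U)
    (hprim : ∀ ψ : ℂ → E, DifferentiableOn ℂ ψ U → ∃ g : ℂ → E, ∀ z ∈ U, HasDerivAt g (ψ z) z)
    (hloc : ∀ z₀ ∈ U, ∃ h : ℂ → E, AnalyticAt ℂ h z₀ ∧ ∀ᶠ z in 𝓝 z₀, w z - h z ∈ Λ) [CompleteSpace E] :
    ∃ h : ℂ → E, DifferentiableOn ℂ h U ∧ ∀ z ∈ U, w z - h z ∈ Λ := by
  classical
  choose! H hHan hHmem using hloc
  obtain ⟨ψ, hψ⟩ : ∃ ψ : ℂ → E, ψ = fun z => deriv (H z) z := ⟨_, rfl⟩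
  -- the local derivatives agree
  have hagree : ∀ z₀ ∈ U, ψ =ᶠ[𝓝 z₀] deriv (H z₀) := by
    intro z₀ hz₀
    filter_upwards [hUo.mem_nhds hz₀, (hHan z₀ hz₀).eventually_analyticAt, (hHmem z₀ hz₀).eventually_nhds] with z h1 h2 h3
    rw [hψ]
    have h4 : ContinuousAt (fun y => H z y - H z₀ y) z := (hHan z h1).continuousAt.sub h2.continuousAt
    have h5 : ∀ᶠ y in 𝓝 z, ‖(H z y - H z₀ y) - (H z z - H z₀ z)‖ < δ := by
      have h6 : Tendsto (fun y => (H z y - H z₀ y) - (H z z - H z₀ z)) (𝓝 z) (𝓝 ((H z z - H z₀ z) - (H z z - H z₀ z))) := h4.tendsto.sub_const _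
      rw [sub_self] at h6
      have h7 := h6.norm
      rw [norm_zero] at h7
      exact h7.eventually (gt_mem_nhds hδ)
    have h8 : H z =ᶠ[𝓝 z] fun y => H z₀ y + (H z z - H z₀ z) := by
      have h9 := (hHmem z h1).self_of_nhds
      have h10 := h3.self_of_nhds
      filter_upwards [h5, hHmem z h1, h3] with y h11 h12 h13
      have h14 : (H z y - H z₀ y) - (H z z - H z₀ z) ∈ Λ := by
        have h15 := Λ.sub_mem (Λ.sub_mem h13 h12) (Λ.sub_mem h10 h9)
        have h16 : w y - H z₀ y - (w y - H z y) - (w z - H z₀ z - (w z - H z z)) = (H z y - H z₀ y) - (H z z - H z₀ z) := by abel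
        rwa [h16] at h15
      have h17 := hΛ _ h14 h11
      rw [sub_eq_zero, sub_eq_iff_eq_add] at h17
      rw [h17]
      abel
    change deriv (H z) z = deriv (H z₀) z
    rw [h8.deriv_eq, deriv_add_const]
  have hψd : DifferentiableOn ℂ ψ U := by
    intro z₀ hz₀
    have h1 : DifferentiableAt ℂ (deriv (H z₀)) z₀ := (hHan z₀ hz₀).deriv.differentiableAt
    exact (h1.congr_of_eventuallyEq (hagree z₀ hz₀)).differentiableWithinAt
  obtain ⟨g, hg⟩ := hprim ψ hψd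
  refine ⟨fun z => g z + (w c - g c), fun z hz => ((hg z hz).differentiableAt.add_const _).differentiableWithinAt, ?_⟩
  -- the difference is locally constant modulo the subgroup
  have hind : ∀ x ∈ U, ∀ y ∈ U, (w x - g x) - (w y - g y) ∈ Λ := by
    intro x hx y hy
    refine hUc.induction₂ (fun x y => (w x - g x) - (w y - g y) ∈ Λ) ?_ ?_ ?_ hx hy
    · intro z₀ hz₀
      apply mem_nhdsWithin_of_mem_nhds
      have hder : ∀ᶠ z in 𝓝 z₀, HasDerivAt (fun z => H z₀ z - g z) 0 z := by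
        filter_upwards [hUo.mem_nhds hz₀, (hHan z₀ hz₀).eventually_analyticAt, hagree z₀ hz₀] with z h1 h2 h3
        have h4 := h2.differentiableAt.hasDerivAt.sub (hg z h1)
        rwa [h3, sub_self] at h4
      obtain ⟨ε, hε, hball⟩ := Metric.eventually_nhds_iff_ball.1 hder
      have hconst : ∀ z ∈ ball z₀ ε, H z₀ z - g z = H z₀ z₀ - g z₀ := by
        intro z hz
        exact (convex_ball z₀ ε).is_const_of_fderivWithin_eq_zero (𝕜 := ℂ) (f := fun z => H z₀ z - g z)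
          (fun y hy => (hball y hy).differentiableAt.differentiableWithinAt)
          (fun y hy => by
            rw [fderivWithin_of_isOpen isOpen_ball hy]
            ext1
            exact (hball y hy).deriv) hz (mem_ball_self hε)
      have h0 := (hHmem z₀ hz₀).self_of_nhds
      filter_upwards [hHmem z₀ hz₀, isOpen_ball.mem_nhds (mem_ball_self hε)] with z h1 h2
      have h3 := hconst z h2
      have h4 := Λ.sub_mem h0 h1
      have h5 : (w z₀ - g z₀) - (w z - g z) = (w z₀ - H z₀ z₀ - (w z - H z₀ z)) + ((H z₀ z₀ - g z₀) - (H z₀ z - g z)) := by abel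
      change (w z₀ - g z₀) - (w z - g z) ∈ Λ
      rw [h5, h3, sub_self, add_zero]
      exact h4
    · intro x y z _ _ _ h1 h2
      have h3 := Λ.add_mem h1 h2
      have h4 : (w x - g x) - (w z - g z) = ((w x - g x) - (w y - g y)) + ((w y - g y) - (w z - g z)) := by abel
      rw [h4]
      exact h3
    · intro x y _ _ h1
      have h2 := Λ.neg_mem h1
      rwa [neg_sub] at h2
  intro z hz
  have h1 := hind z hz c hcc
  have h2 : w z - (g z + (w c - g c)) = (w z - g z) - (w c - g c) := by abel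
  rw [h2]
  exact h1

private theorem mk_iff {a b : Vd (k + 1)} : (a : Cn (k + 1) ⧸ Λ) = (b : Cn (k + 1) ⧸ Λ) ↔ a - b ∈ Λ := by
  rw [eq_comm, QuotientAddGroup.eq, neg_add_eq_sub]

private theorem torus_glue (hΛ : Lat Λ) {t : ℂ → Cn (k + 1) ⧸ Λ} {U : Set ℂ} (hUo : IsOpen U) (hUc : IsPreconnected U) {c : ℂ} (hcc : c ∈ U)
    (hprim : ∀ ψ : ℂ → Vd (k + 1), DifferentiableOn ℂ ψ U → ∃ g : ℂ → Vd (k + 1), ∀ z ∈ U, HasDerivAt g (ψ z) z) (ht : HolomorphicIntoTorus Λ t U) :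
    ∃ h : ℂ → Vd (k + 1), DifferentiableOn ℂ h U ∧ ∀ z ∈ U, t z = (h z : Cn (k + 1) ⧸ Λ) := by
  obtain ⟨δ, hδ, hd⟩ := hΛ.disc
  have hw : ∀ z, ((Quotient.out (t z) : Vd (k + 1)) : Cn (k + 1) ⧸ Λ) = t z := fun z => Quotient.out_eq (t z)
  obtain ⟨h, h1, h2⟩ := glue hδ hd (w := fun z => (Quotient.out (t z) : Vd (k + 1))) hUo hUc hcc hprim (fun z₀ hz₀ => by
    obtain ⟨h, h1, h2⟩ := ht z₀ hz₀
    refine ⟨h, h1, ?_⟩
    filter_upwards [h2] with z hz
    rw [← mk_iff, hw, hz])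
  refine ⟨h, h1, fun z hz => ?_⟩
  rw [← hw z]
  exact mk_iff.2 (h2 z hz)

theorem torus_disc (hΛ : Lat Λ) {t : ℂ → Cn (k + 1) ⧸ Λ} {c : ℂ} {R : ℝ} (ht : HolomorphicIntoTorus Λ t (ball c R)) :
    ∃ h : ℂ → Vd (k + 1), DifferentiableOn ℂ h (ball c R) ∧ ∀ z ∈ ball c R, t z = (h z : Cn (k + 1) ⧸ Λ) := by
  rcases le_or_gt R 0 with hR | hR
  · refine ⟨fun _ => 0, differentiableOn_const _, fun z hz => ?_⟩
    rw [ball_eq_empty.mpr hR] at hz
    exact hz.elim
  · exact torus_glue hΛ isOpen_ball (convex_ball c R).isPreconnected (mem_ball_self hR) (fun ψ hψ => hψ.isExactOn_ball) ht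

theorem torus_univ (hΛ : Lat Λ) {t : ℂ → Cn (k + 1) ⧸ Λ} (ht : HolomorphicIntoTorus Λ t Set.univ) :
    ∃ h : ℂ → Vd (k + 1), Differentiable ℂ h ∧ ∀ z, t z = (h z : Cn (k + 1) ⧸ Λ) := by
  obtain ⟨h, h1, h2⟩ := torus_glue hΛ isOpen_univ isPreconnected_univ (Set.mem_univ 0) (fun ψ hψ => (differentiableOn_univ.1 hψ).isExactOn_univ) ht
  exact ⟨h, differentiableOn_univ.1 h1, fun z => h2 z (Set.mem_univ z)⟩

/-- the lift of a map of the punctured disc to the half plane -/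
theorem torus_half (hΛ : Lat Λ) {t : ℂ → Cn (k + 1) ⧸ Λ} (ht : HolomorphicIntoTorus Λ t puncturedDisc) :
    ∃ h : ℂ → Vd (k + 1), DifferentiableOn ℂ h {ζ | ζ.re < 0} ∧ ∀ ζ : ℂ, ζ.re < 0 → t (Complex.exp ζ) = (h ζ : Cn (k + 1) ⧸ Λ) := by
  -- the Cayley transform
  set φ : ℂ → ℂ := fun ω => -(1 + ω) / (1 - ω) with hφ
  have hne : ∀ ω ∈ ball (0 : ℂ) 1, 1 - ω ≠ 0 := fun ω hω h => by
    rw [mem_ball_zero_iff, ← sub_eq_zero.1 h, norm_one] at hω
    exact lt_irrefl _ hω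
  have hre : ∀ ω ∈ ball (0 : ℂ) 1, (φ ω).re < 0 := by
    intro ω hω
    have h1 : 0 < Complex.normSq (1 - ω) := Complex.normSq_pos.2 (hne ω hω)
    have h2 : ω.re ^ 2 + ω.im ^ 2 < 1 := by
      have h3 : ‖ω‖ ^ 2 < 1 := by
        rw [mem_ball_zero_iff] at hω
        have := norm_nonneg ω
        nlinarith
      rw [← Complex.normSq_eq_norm_sq, Complex.normSq_apply] at h3
      nlinarith
    have h3 : (φ ω).re = (ω.re ^ 2 + ω.im ^ 2 - 1) / Complex.normSq (1 - ω) := by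
      simp only [hφ, Complex.div_re, Complex.neg_re, Complex.add_re, Complex.one_re, Complex.sub_re, Complex.neg_im, Complex.add_im, Complex.one_im, Complex.sub_im]
      rw [← add_div]
      congr 1
      ring
    rw [h3]
    exact div_neg_of_neg_of_pos (by linarith) h1
  have hexp : ∀ ζ : ℂ, ζ.re < 0 → Complex.exp ζ ∈ puncturedDisc := fun ζ hζ => by
    refine ⟨?_, ?_⟩
    · rw [mem_ball_zero_iff, Complex.norm_exp]
      exact Real.exp_lt_one_iff.2 hζ
    · exact Complex.exp_ne_zero ζ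
  have hφa : ∀ ω ∈ ball (0 : ℂ) 1, AnalyticAt ℂ φ ω := fun ω hω =>
    ((analyticAt_const.add analyticAt_id).neg).div (analyticAt_const.sub analyticAt_id) (hne ω hω)
  obtain ⟨h, h1, h2⟩ := torus_disc hΛ (t := fun ω => t (Complex.exp (φ ω))) (c := 0) (R := 1) (fun ω hω => by
    obtain ⟨f, f1, f2⟩ := ht _ (hexp _ (hre ω hω))
    have h3 : AnalyticAt ℂ (fun ω => Complex.exp (φ ω)) ω := (hφa ω hω).cexp
    exact ⟨fun ω => f (Complex.exp (φ ω)), f1.comp_of_eq h3 rfl, h3.continuousAt.eventually f2⟩)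
  have hζ1 : ∀ ζ : ℂ, ζ.re < 0 → ζ - 1 ≠ 0 := fun ζ hζ h => by
    rw [sub_eq_zero.1 h] at hζ
    norm_num at hζ
  have hin : ∀ ζ : ℂ, ζ.re < 0 → (ζ + 1) / (ζ - 1) ∈ ball (0 : ℂ) 1 := fun ζ hζ => by
    rw [mem_ball_zero_iff, norm_div, div_lt_one (norm_pos_iff.2 (hζ1 ζ hζ))]
    refine lt_of_pow_lt_pow_left₀ 2 (norm_nonneg _) ?_
    rw [← Complex.normSq_eq_norm_sq, ← Complex.normSq_eq_norm_sq, Complex.normSq_apply, Complex.normSq_apply]
    simp only [Complex.add_re, Complex.sub_re, Complex.one_re, Complex.add_im, Complex.sub_im, Complex.one_im]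
    nlinarith
  have hinv : ∀ ζ : ℂ, ζ.re < 0 → φ ((ζ + 1) / (ζ - 1)) = ζ := fun ζ hζ => by
    have h3 := hζ1 ζ hζ
    have h4 : 1 - (ζ + 1) / (ζ - 1) = -2 / (ζ - 1) := by
      field_simp
      ring
    have h5 : -(1 + (ζ + 1) / (ζ - 1)) = ζ * (-2 / (ζ - 1)) := by
      field_simp
      ring
    simp only [hφ]
    rw [h4, h5, mul_div_assoc, div_self, mul_one]
    exact div_ne_zero (by norm_num) h3
  refine ⟨fun ζ => h ((ζ + 1) / (ζ - 1)), ?_, fun ζ hζ => ?_⟩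
  · refine h1.comp ?_ fun ζ hζ => hin ζ hζ
    intro ζ hζ
    have e1 : DifferentiableAt ℂ (fun ζ : ℂ => ζ + 1) ζ := differentiableAt_id.add_const 1
    have e2 : DifferentiableAt ℂ (fun ζ : ℂ => ζ - 1) ζ := differentiableAt_id.sub_const 1
    exact (e1.div e2 (hζ1 ζ hζ)).differentiableWithinAt
  · have h3 := h2 _ (hin ζ hζ)
    simp only [hinv ζ hζ] at h3
    exact h3

end Pool.Agent.PX

end
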