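import Pool.Agent.H94.PX4.M10
import Pool.Agent.H94.PX4.M30
import Pool.Agent.H94.PX4.M31
import Pool.Agent.H94.PX4.M32

/-! The parts of this file: G3.P.Ult, LH.Ch. -/

section

/-!
# G3 P Ult: ultralimits of curves in projective space

`ult`: a sequence of holomorphic curves (eventually defined on compact subsets of the open set `U`) which is equicontinuous at each point of `U` has, along an ultrafilter, a
limit `f : ℂ → MN N`; the convergence is uniform on compact subsets of `U` and `f` has local holomorphic lifts in `U`.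
Plan: the projection matrices `pr x`, `x ≠ 0`, lie in the compact set `{m : ‖m‖ ≤ 1}` (`MN N` is finite dimensional), so `f z` := the limit along `𝒰` exists; equicontinuity gives
local uniform convergence (finite covers).  Local lifts at `z₀`: `f z₀ = pr v` for a unit vector `v` (take `x_n = F n z₀ / ‖F n z₀‖`, ultralimit `v` on the compact sphere);
near `z₀` and for `𝒰`-many `n` the functions `⟨v, F n z⟩⁻¹ F n z = nv v (pr (F n z))` (`nv`, `nv_pr`, `nv_continuousAt` in `G3/C/EDefs`) are holomorphic, and they converge uniformly near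
`z₀` to `nv v (f z)`, so the limit is holomorphic (`TendstoLocallyUniformlyOn.differentiableOn`) and `pr (nv v (f z)) = f z`.
-/

set_option autoImplicit false

open Topology Filter Metric

namespace Pool.Agent.G3

open Pool.Agent.H36.BP (EN fs wd)
open Pool.Agent.H14.PP (IsCone CurveAt Tan)
open Pool.Agent.H62.EF (MN pr)
open Pool.Agent.AD (Vd)

variable {N k : ℕ} {X : Set (EN N)} {Λ : AddSubgroup (Vd (k + 1))} {u : EN N → Vd (k + 1)} {D : Set (Vd (k + 1))} {p : EN N → EN N → ℝ} {m : ℕ} {C : ℝ}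

/-- the set of the projection matrices of lines is compact -/
private theorem ult_compact : IsCompact ((pr : EN N → MN N) '' sphere (0 : EN N) 1) := by
  refine (isCompact_sphere (0 : EN N) 1).image_of_continuousOn fun x hx => ?_
  have hx0 : x ≠ 0 := by
    rintro rfl
    simp at hx
  exact (Pool.Agent.H62.EF.continuousAt_pr hx0).continuousWithinAt

private theorem ult_mem {x : EN N} (hx : x ≠ 0) : pr x ∈ (pr : EN N → MN N) '' sphere (0 : EN N) 1 := by
  have hn : ‖x‖ ≠ 0 := norm_ne_zero_iff.mpr hx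
  have hc : (((‖x‖⁻¹ : ℝ)) : ℂ) ≠ 0 := by
    exact_mod_cast inv_ne_zero hn
  refine ⟨(((‖x‖⁻¹ : ℝ)) : ℂ) • x, ?_, Pool.Agent.H62.EF.pr_smul x hc⟩
  rw [mem_sphere_zero_iff_norm, norm_smul, Complex.norm_real, norm_inv, norm_norm]
  exact inv_mul_cancel₀ hn

/-- the limit at one point -/
private theorem ult_point (𝒰 : Ultrafilter ℕ) (x : ℕ → EN N) (hx : ∀ᶠ n in (𝒰 : Filter ℕ), x n ≠ 0) :
    ∃ y : EN N, y ≠ 0 ∧ Tendsto (fun n => pr (x n)) (𝒰 : Filter ℕ) (𝓝 (pr y)) := by
  have h1 : ((𝒰.map fun n => pr (x n) : Ultrafilter (MN N)) : Filter (MN N)) ≤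
      𝓟 ((pr : EN N → MN N) '' sphere (0 : EN N) 1) := by
    rw [Ultrafilter.coe_map, le_principal_iff, mem_map]
    filter_upwards [hx] with n hn
    exact ult_mem hn
  obtain ⟨m, ⟨y, hy, rfl⟩, hm⟩ := ult_compact.ultrafilter_le_nhds _ h1
  refine ⟨y, ?_, hm⟩
  rintro rfl
  simp at hy

theorem ult (𝒰 : Ultrafilter ℕ) {U : Set ℂ} (hU : IsOpen U) (F : ℕ → ℂ → EN N)
    (hF : ∀ z ∈ U, ∃ s : ℝ, 0 < s ∧ ∀ᶠ n in (𝒰 : Filter ℕ), DifferentiableOn ℂ (F n) (ball z s) ∧ ∀ w ∈ ball z s, F n w ≠ 0)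
    (hq : ∀ z ∈ U, ∀ ε : ℝ, 0 < ε → ∃ s : ℝ, 0 < s ∧ ∀ᶠ n in (𝒰 : Filter ℕ), ∀ w ∈ ball z s, dist (pr (F n w)) (pr (F n z)) ≤ ε) :
    ∃ f : ℂ → MN N, (∀ z ∈ U, LLift f z) ∧
      ∀ K ⊆ U, IsCompact K → ∀ ε : ℝ, 0 < ε → ∀ᶠ n in (𝒰 : Filter ℕ), ∀ z ∈ K, dist (pr (F n z)) (f z) < ε := by
  classical
  have hne : ∀ z ∈ U, ∀ᶠ n in (𝒰 : Filter ℕ), F n z ≠ 0 := by
    intro z hz
    obtain ⟨s, hs, h⟩ := hF z hz
    filter_upwards [h] with n hn
    exact hn.2 z (mem_ball_self hs)
  have hpt : ∀ z, ∃ y : EN N, z ∈ U → y ≠ 0 ∧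
      Tendsto (fun n => pr (F n z)) (𝒰 : Filter ℕ) (𝓝 (pr y)) := by
    intro z
    by_cases hz : z ∈ U
    · obtain ⟨y, h1, h2⟩ := ult_point 𝒰 (fun n => F n z) (hne z hz)
      exact ⟨y, fun _ => ⟨h1, h2⟩⟩
    · exact ⟨0, fun h => absurd h hz⟩
  choose g hg using hpt
  -- local uniform convergence
  have hloc : ∀ z₀ ∈ U, ∀ ε : ℝ, 0 < ε → ∃ s : ℝ, 0 < s ∧ ball z₀ s ⊆ U ∧
      (∀ w ∈ ball z₀ s, dist (pr (g w)) (pr (g z₀)) ≤ ε) ∧
      ∀ᶠ n in (𝒰 : Filter ℕ), ∀ w ∈ ball z₀ s, dist (pr (g w)) (pr (F n w)) < 4 * ε := by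
    intro z₀ hz₀ ε hε
    obtain ⟨s₁, hs₁, h1⟩ := hq z₀ hz₀ ε hε
    obtain ⟨s₂, hs₂, h2⟩ := Metric.isOpen_iff.1 hU z₀ hz₀
    have hU' : ball z₀ (min s₁ s₂) ⊆ U := (ball_subset_ball (min_le_right _ _)).trans h2
    have hd : ∀ w ∈ ball z₀ (min s₁ s₂), dist (pr (g w)) (pr (g z₀)) ≤ ε := by
      intro w hw
      have h3 := (hg w (hU' hw)).2
      have h4 := (hg z₀ hz₀).2
      refine le_of_tendsto (h3.dist h4) ?_
      filter_upwards [h1] with n hn
      exact hn w (ball_subset_ball (min_le_left _ _) hw)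
    refine ⟨min s₁ s₂, lt_min hs₁ hs₂, hU', hd, ?_⟩
    have h4 := (Metric.tendsto_nhds.1 (hg z₀ hz₀).2) ε hε
    filter_upwards [h1, h4] with n hn1 hn4 w hw
    have h5 := hd w hw
    have h6 := hn1 w (ball_subset_ball (min_le_left _ _) hw)
    calc dist (pr (g w)) (pr (F n w)) ≤ dist (pr (g w)) (pr (g z₀)) + dist (pr (g z₀)) (pr (F n w)) :=
          dist_triangle _ _ _
      _ ≤ dist (pr (g w)) (pr (g z₀)) + (dist (pr (g z₀)) (pr (F n z₀)) + dist (pr (F n z₀)) (pr (F n w))) := by
          gcongr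
          exact dist_triangle _ _ _
      _ < 4 * ε := by
          rw [dist_comm (pr (g z₀)) (pr (F n z₀)), dist_comm (pr (F n z₀)) (pr (F n w))]
          linarith
  refine ⟨fun z => pr (g z), ?_, ?_⟩
  · intro z₀ hz₀
    set v := g z₀ with hv
    have hv0 : v ≠ 0 := (hg z₀ hz₀).1
    have hnd : C.nd v (pr v) ≠ 0 := (C.nd_pr_ne hv0).2 (inner_self_ne_zero.2 hv0)
    obtain ⟨δ, hδ, hδO⟩ := Metric.isOpen_iff.1 (isOpen_ne.preimage (C.nd_cont v)) (pr v) hnd
    have hcomp : IsCompact (closedBall (pr v) (δ / 2)) := isCompact_closedBall _ _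
    have hO : ∀ m ∈ closedBall (pr v) (δ / 2), C.nd v m ≠ 0 := by
      intro m hm
      exact hδO (closedBall_subset_ball (by linarith) hm)
    have huc : UniformContinuousOn (C.nv v) (closedBall (pr v) (δ / 2)) :=
      hcomp.uniformContinuousOn_of_continuous fun m hm => (C.nv_continuousAt (hO m hm)).continuousWithinAt
    rw [Metric.uniformContinuousOn_iff] at huc
    obtain ⟨s₁, hs₁, hsU, hd1, hd2⟩ := hloc z₀ hz₀ (δ / 16) (by linarith)
    obtain ⟨s₂, hs₂, hd3⟩ := hF z₀ hz₀
    have hmemg : ∀ w ∈ ball z₀ s₁, pr (g w) ∈ closedBall (pr v) (δ / 2) := by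
      intro w hw
      rw [mem_closedBall]
      have := hd1 w hw
      linarith
    have hmemF : ∀ᶠ n in (𝒰 : Filter ℕ), ∀ w ∈ ball z₀ s₁, pr (F n w) ∈ closedBall (pr v) (δ / 2) := by
      filter_upwards [hd2] with n hn w hw
      rw [mem_closedBall]
      have h1 := hd1 w hw
      have h2 := hn w hw
      calc dist (pr (F n w)) (pr v) ≤ dist (pr (F n w)) (pr (g w)) + dist (pr (g w)) (pr v) := dist_triangle _ _ _
        _ ≤ δ / 2 := by
            rw [dist_comm (pr (F n w)) (pr (g w))]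
            linarith
    set s := min s₁ s₂ with hs
    have hs0 : 0 < s := lt_min hs₁ hs₂
    have hb1 : ball z₀ s ⊆ ball z₀ s₁ := ball_subset_ball (min_le_left _ _)
    have hb2 : ball z₀ s ⊆ ball z₀ s₂ := ball_subset_ball (min_le_right _ _)
    have hdiff : ∀ᶠ n in (𝒰 : Filter ℕ), DifferentiableOn ℂ (fun w => C.nv v (pr (F n w))) (ball z₀ s) := by
      filter_upwards [hmemF, hd3] with n hn1 hn2
      have h1 : ∀ w ∈ ball z₀ s, inner ℂ v (F n w) ≠ (0 : ℂ) := fun w hw =>
        (C.nd_pr_ne (hn2.2 w (hb2 hw))).1 (hO _ (hn1 w (hb1 hw)))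
      have h2 : DifferentiableOn ℂ (fun w => (inner ℂ v (F n w) : ℂ)⁻¹ • F n w) (ball z₀ s) := by
        have h3 : DifferentiableOn ℂ (F n) (ball z₀ s) := hn2.1.mono hb2
        have h4 : DifferentiableOn ℂ (fun w => (inner ℂ v (F n w) : ℂ)) (ball z₀ s) :=
          ((innerSL ℂ v).differentiable.comp_differentiableOn h3)
        exact (h4.inv h1).smul h3
      exact h2.congr fun w hw => C.nv_pr (h1 w hw)
    have hlu : TendstoLocallyUniformlyOn (fun n w => C.nv v (pr (F n w))) (fun w => C.nv v (pr (g w)))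
        (𝒰 : Filter ℕ) (ball z₀ s) := by
      rw [Metric.tendstoLocallyUniformlyOn_iff]
      intro ε hε w₀ hw₀
      obtain ⟨η, hη, huc'⟩ := huc ε hε
      obtain ⟨s₃, hs₃, -, -, h3⟩ := hloc w₀ (hsU (hb1 hw₀)) (η / 4) (by linarith)
      refine ⟨ball z₀ s ∩ ball w₀ s₃, ?_, ?_⟩
      · exact inter_mem self_mem_nhdsWithin (mem_nhdsWithin_of_mem_nhds (ball_mem_nhds w₀ hs₃))
      · filter_upwards [h3, hmemF] with n hn1 hn2 w hw
        refine huc' _ (hmemg w (hb1 hw.1)) _ (hn2 w (hb1 hw.1)) ?_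
        have := hn1 w hw.2
        linarith
    have hΦ : DifferentiableOn ℂ (fun w => C.nv v (pr (g w))) (ball z₀ s) :=
      hlu.differentiableOn hdiff isOpen_ball
    refine ⟨fun w => C.nv v (pr (g w)), hΦ.analyticAt (ball_mem_nhds z₀ hs0), ?_⟩
    filter_upwards [ball_mem_nhds z₀ hs0] with w hw
    have hw0 : g w ≠ 0 := (hg w (hsU (hb1 hw))).1
    have hi : inner ℂ v (g w) ≠ (0 : ℂ) := (C.nd_pr_ne hw0).1 (hO _ (hmemg w (hb1 hw)))
    refine ⟨?_, (C.pr_nv hi).symm⟩
    rw [C.nv_pr hi]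
    exact smul_ne_zero (inv_ne_zero hi) hw0
  · have hlu : TendstoLocallyUniformlyOn (fun n w => pr (F n w)) (fun w => pr (g w)) (𝒰 : Filter ℕ) U := by
      rw [Metric.tendstoLocallyUniformlyOn_iff]
      intro ε hε w₀ hw₀
      obtain ⟨s₃, hs₃, -, -, h3⟩ := hloc w₀ hw₀ (ε / 4) (by linarith)
      refine ⟨ball w₀ s₃, mem_nhdsWithin_of_mem_nhds (ball_mem_nhds w₀ hs₃), ?_⟩
      filter_upwards [h3] with n hn w hw
      have := hn w hw
      linarith
    intro K hK hKc ε hε
    have h1 := (tendstoLocallyUniformlyOn_iff_forall_isCompact hU).1 hlu K hK hKc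
    rw [Metric.tendstoUniformlyOn_iff] at h1
    filter_upwards [h1 ε hε] with n hn z hz
    rw [dist_comm]
    exact hn z hz

end Pool.Agent.G3

end

section

/-!
# LH Ch: the choice of the forms

* `dd_mem_of_alg`: if `K` is algebraic over `ℂ(T)` then `Ω` is spanned by the `dd t`, `t ∈ T` (characteristic `0`; the minimal polynomial); more precisely for one element.
* `exists_J`: a basis of the span of the `δ i`, taken from the `δ i` (`exists_linearIndependent'` or similar); it has at most `w = dim Ω` elements.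
* `exists_I`: `alg_all`: `Ω` is spanned by the `dd (X a)` and the `dlog (F i / F i₀)`, `i ∈ I'`; `dd (X a)` is in the span of the `δ (J t)` (`Base.span`, `Bas.span`).  The `p` linearly independent `δ (J t)` can be completed by `f` of the `dlog (F i / F i₀)` to a basis of `Ω` (dimension `p + f`); the exterior product of a basis is
  not `0` (`basis.det`, `H23.fc`).
* `eq_smul`: top forms are proportional.
-/

set_option autoImplicit false

open MvPolynomial
open Pool.Agent.H23 (RatForm PrimeDivisorOver)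
open Pool.Agent.LG (dd wd IV FV)

noncomputable section

namespace Pool.Agent.LH

variable {K : Type} [Field K] [Algebra ℂ K] {ι σ : Type} {k n m q p f d w : ℕ}

private theorem der_adjoin {M : Type} [AddCommGroup M] [Module K M] [Module ℂ M]
    [IsScalarTower ℂ K M] (D : Derivation ℂ K M) {T : Set K} (hT : ∀ t ∈ T, D t = 0) {x : K}
    (hx : x ∈ IntermediateField.adjoin ℂ T) : D x = 0 := by
  induction hx using IntermediateField.adjoin_induction with
  | mem x hx => exact hT x hx
  | algebraMap c => exact D.map_algebraMap c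
  | add x y _ _ hx hy => rw [map_add, hx, hy, add_zero]
  | inv x _ hx => rw [Derivation.leibniz_inv, hx, smul_zero]
  | mul x y _ _ hx hy => rw [Derivation.leibniz, hx, hy, smul_zero, smul_zero, add_zero]

private theorem der_poly {M : Type} [AddCommGroup M] [Module K M] [Module ℂ M]
    [IsScalarTower ℂ K M] (D : Derivation ℂ K M) {T : Set K} (hT : ∀ t ∈ T, D t = 0) (x : K)
    (P : Polynomial (IntermediateField.adjoin ℂ T)) :
    D (Polynomial.aeval x P) = Polynomial.aeval x (Polynomial.derivative P) • D x := by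
  induction P using Polynomial.induction_on' with
  | add P Q hP hQ => rw [map_add, map_add, hP, hQ, map_add, map_add, add_smul]
  | monomial n a =>
    rw [Polynomial.aeval_monomial, Polynomial.derivative_monomial, Polynomial.aeval_monomial,
      Derivation.leibniz, Derivation.leibniz_pow]
    have h1 : D (algebraMap (IntermediateField.adjoin ℂ T) K a) = 0 := der_adjoin D hT a.2
    rw [h1, smul_zero, add_zero, map_mul, map_natCast, ← Nat.cast_smul_eq_nsmul K, smul_smul,
      smul_smul]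

theorem dd_mem_of_alg (T : Set K) {x : K} (hx : IsAlgebraic (IntermediateField.adjoin ℂ T) x) : dd x ∈ Submodule.span K ((fun t => dd t) '' T) := by
  set N := Submodule.span K ((fun t => dd t) '' T) with hN
  let D : Derivation ℂ K (Ω[K⁄ℂ] ⧸ N) := N.mkQ.compDer (KaehlerDifferential.D ℂ K)
  have hD : ∀ y, D y = N.mkQ (dd y) := fun _ => rfl
  have hT : ∀ t ∈ T, D t = 0 := by
    intro t ht
    rw [hD, Submodule.mkQ_apply, Submodule.Quotient.mk_eq_zero]
    exact Submodule.subset_span ⟨t, ht, rfl⟩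
  have hint : IsIntegral (IntermediateField.adjoin ℂ T) x := hx.isIntegral
  have h1 := der_poly D hT x (minpoly (IntermediateField.adjoin ℂ T) x)
  rw [minpoly.aeval, map_zero] at h1
  have h2 : Polynomial.aeval x (Polynomial.derivative (minpoly (IntermediateField.adjoin ℂ T) x)) ≠ 0 :=
    (minpoly.irreducible hint).separable.aeval_derivative_ne_zero (minpoly.aeval _ _)
  have h3 : D x = 0 := (smul_eq_zero.1 h1.symm).resolve_left h2
  rw [hD, Submodule.mkQ_apply, Submodule.Quotient.mk_eq_zero] at h3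
  exact h3

private theorem finrank_kaehler {z : Fin w → K} (hz : IsTranscendenceBasis ℂ z) :
    Module.finrank K Ω[K⁄ℂ] = w ∧ Module.Finite K Ω[K⁄ℂ] := by
  obtain ⟨b, -⟩ := Pool.Agent.H23.exists_basis_kaehler hz
  exact ⟨by rw [Module.finrank_eq_card_basis b, Fintype.card_fin], Module.Finite.of_basis b⟩

omit [Algebra ℂ K] in
/-- a linearly independent subfamily with the same span -/
private theorem exists_sub {M N : Type} [AddCommGroup M] [Module K M] [Module.Finite K M] [Finite N] (v : N → M) :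
    ∃ (r : ℕ) (J : Fin r → N), r ≤ Module.finrank K M ∧
      LinearIndependent K (fun t => v (J t)) ∧
      Submodule.span K (Set.range fun t => v (J t)) = Submodule.span K (Set.range v) := by
  obtain ⟨κ, a, ha, hsp, hli⟩ := exists_linearIndependent' K v
  have : Finite κ := Finite.of_injective a ha
  have : Fintype κ := Fintype.ofFinite κ
  let e : Fin (Fintype.card κ) ≃ κ := (Fintype.equivFin κ).symm
  refine ⟨Fintype.card κ, fun t => a (e t), hli.fintype_card_le_finrank, hli.comp e e.injective, ?_⟩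
  rw [← hsp]
  congr 1
  ext y
  constructor
  · rintro ⟨t, rfl⟩
    exact ⟨e t, rfl⟩
  · rintro ⟨t, rfl⟩
    exact ⟨e.symm t, by simp⟩

theorem exists_J [Algebra.EssFiniteType ℂ K] {z : Fin w → K} (hz : IsTranscendenceBasis ℂ z) (S : Dat K ι σ n m q) : ∃ (p f : ℕ) (J : Fin p → Fin n), p + f = w ∧ S.Bas J := by
  obtain ⟨h1, h2⟩ := finrank_kaehler hz
  obtain ⟨r, J, h3, h4, h5⟩ := exists_sub (K := K) S.δ
  refine ⟨r, w - r, J, by omega, h4, fun i => ?_⟩
  rw [h5]
  exact Submodule.subset_span ⟨i, rfl⟩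

private theorem smul_dlog {a : K} (ha : a ≠ 0) : a • dlog a = dd a := by
  unfold dlog
  rw [smul_smul, mul_inv_cancel₀ ha, one_smul]

theorem exists_I [Algebra.EssFiniteType ℂ K] {z : Fin (p + f) → K} (hz : IsTranscendenceBasis ℂ z) (S : Dat K ι σ n m q) (hd : 1 ≤ d) (hS : S.Base d) {J : Fin p → Fin n} (hJ : S.Bas J) {I' : Finset (Fin q)} (hI : I'.card = m + 1) :
    ∃ (i₀ : Fin q) (I : Fin f → Fin q), i₀ ∈ I' ∧ (∀ t, I t ∈ I') ∧ S.W J i₀ I ≠ 0 := by
  obtain ⟨hfr, hfin⟩ := finrank_kaehler hz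
  obtain ⟨i₀, hi₀⟩ : I'.Nonempty := Finset.card_pos.1 (by omega)
  set U : Submodule K Ω[K⁄ℂ] := Submodule.span K (Set.range fun t => S.δ (J t)) with hU
  -- the differentials are spanned by `U` and the logarithmic differentials
  have hδ : Submodule.span K (Set.range S.δ) ≤ U := by
    rw [Submodule.span_le]
    rintro _ ⟨i, rfl⟩
    exact hJ.span i
  have halg := alg_all S hd hS hI hi₀
  let v : {i // i ∈ I'} → Ω[K⁄ℂ] ⧸ U := fun i => U.mkQ (dlog (S.F i / S.F i₀))
  have hv : Submodule.span K (Set.range v) = ⊤ := by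
    have h1 : ∀ x : K, U.mkQ (dd x) ∈ Submodule.span K (Set.range v) := by
      intro x
      have h2 := dd_mem_of_alg _ (halg.isAlgebraic x)
      have h3 : Submodule.span K ((fun t => dd t) '' (Set.range S.X ∪ {y | ∃ i ∈ I', y = S.F i / S.F i₀})) ≤
          (Submodule.span K (Set.range v)).comap U.mkQ := by
        rw [Submodule.span_le]
        rintro _ ⟨t, ht | ⟨i, hi, rfl⟩, rfl⟩
        · obtain ⟨a, rfl⟩ := ht
          have h4 : U.mkQ (dd (S.X a)) = 0 := by
            rw [Submodule.mkQ_apply, Submodule.Quotient.mk_eq_zero]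
            exact hδ (hS.span a)
          show U.mkQ (dd (S.X a)) ∈ Submodule.span K (Set.range v)
          rw [h4]
          exact Submodule.zero_mem _
        · have h4 : S.F i / S.F i₀ ≠ 0 := div_ne_zero (hS.F_ne i) (hS.F_ne i₀)
          show U.mkQ (dd (S.F i / S.F i₀)) ∈ Submodule.span K (Set.range v)
          rw [← smul_dlog h4, map_smul]
          exact Submodule.smul_mem _ _ (Submodule.subset_span ⟨⟨i, hi⟩, rfl⟩)
      exact h3 h2
    rw [eq_top_iff]
    intro y _
    obtain ⟨y, rfl⟩ := U.mkQ_surjective y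
    have h2 : y ∈ Submodule.span K (Set.range (KaehlerDifferential.D ℂ K)) := by
      rw [KaehlerDifferential.span_range_derivation]
      exact Submodule.mem_top
    have h3 : Submodule.span K (Set.range (KaehlerDifferential.D ℂ K)) ≤
        (Submodule.span K (Set.range v)).comap U.mkQ := by
      rw [Submodule.span_le]
      rintro _ ⟨x, rfl⟩
      exact h1 x
    exact h3 h2
  obtain ⟨r, I, -, h4, h5⟩ := exists_sub (K := K) v
  rw [hv] at h5
  -- the number of elements
  have h6 : Module.finrank K U = p := by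
    rw [hU, finrank_span_eq_card hJ.ind, Fintype.card_fin]
  have h7 : Module.finrank K (Ω[K⁄ℂ] ⧸ U) + Module.finrank K U = p + f := by
    rw [Submodule.finrank_quotient_add_finrank, hfr]
  have h8 : Module.finrank K (Ω[K⁄ℂ] ⧸ U) = r := by
    rw [← finrank_top, ← h5, finrank_span_eq_card h4, Fintype.card_fin]
  obtain rfl : r = f := by omega
  refine ⟨i₀, fun t => (I t).1, hi₀, fun t => (I t).2, ?_⟩
  have hli : LinearIndependent K (Fin.append (fun t => S.δ (J t)) (fun t => dlog (S.F (I t).1 / S.F i₀))) := by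
    rw [Fintype.linearIndependent_iff]
    intro g hg
    rw [Fin.sum_univ_add] at hg
    simp only [Fin.append_left, Fin.append_right] at hg
    have h9 : ∑ t, g (Fin.natAdd p t) • v (I t) = 0 := by
      have h10 := congrArg U.mkQ hg
      rw [map_add, map_zero, map_sum, map_sum] at h10
      rw [Finset.sum_eq_zero, zero_add] at h10
      · rw [← h10]
        refine Finset.sum_congr rfl fun t _ => ?_
        rw [map_smul]
      · intro t _
        rw [map_smul, Submodule.mkQ_apply, (Submodule.Quotient.mk_eq_zero U).2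
          (Submodule.subset_span ⟨t, rfl⟩), smul_zero]
    have h11 := Fintype.linearIndependent_iff.1 h4 _ h9
    have h12 : ∑ t, g (Fin.castAdd r t) • S.δ (J t) = 0 := by
      rw [← hg, left_eq_add]
      exact Finset.sum_eq_zero fun t _ => by rw [h11 t, zero_smul]
    have h13 := Fintype.linearIndependent_iff.1 hJ.ind _ h12
    intro i
    refine Fin.addCases (fun t => h13 t) (fun t => h11 t) i
  have hcard : Fintype.card (Fin (p + r)) = Module.finrank K Ω[K⁄ℂ] := by
    rw [hfr, Fintype.card_fin]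
  let b : Module.Basis (Fin (p + r)) K Ω[K⁄ℂ] :=
    Module.Basis.mk hli (hli.span_eq_top_of_card_eq_finrank' hcard).ge
  have h14 := Pool.Agent.H23.fc_self b
  intro h0
  have h15 : exteriorPower.ιMulti K (p + r) (fun i => b i) = S.W J i₀ (fun t => (I t).1) := by
    have h16 : (fun i => b i) = Fin.append (fun t => S.δ (J t)) (fun t => dlog (S.F (I t).1 / S.F i₀)) :=
      funext fun i => Module.Basis.mk_apply hli _ i
    rw [h16]
    rfl
  rw [h15, h0, map_zero] at h14
  exact zero_ne_one h14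

end Pool.Agent.LH

end
end
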