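import Pool.Agent.H94.PX4.M32
import Pool.Agent.H94.PX4.M44

/-! The parts of this file: HE.Bas, TG.Gd, TM.Defs. -/

section

/-!
# HE Bas: the forms
-/

set_option autoImplicit false

open Topology Filter Metric

namespace Pool.Agent.HE

open Pool.Agent.H36.BP (EN fs wd)
open Pool.Agent.H62.EF (MN pr)
open Pool.Agent.AD (Vd)
open Pool.Agent.TG (Lat Gd)
open Pool.Agent.G3 (wt LLift)

variable {N k q r : ℕ} {Λ : AddSubgroup (Vd (k + 1))} {D : Set (Vd (k + 1))} {X : Set (Vd (k + 1) × EN N)} {F : Fin q → Vd (k + 1) × EN N → ℂ} {d : Fin q → ℕ}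
  {W : Fin q → Fin r → Vd (k + 1) →L[ℂ] ℂ}

theorem qf_nonneg (f : Vd (k + 1) × EN N → ℂ) (e : ℕ) (V : Fin r → Vd (k + 1) →L[ℂ] ℂ) (y : Vd (k + 1)) (x : EN N) : 0 ≤ qf f e V y x := by
  unfold qf
  positivity

theorem HD.qf_smul (P : HD Λ D X F d W) (j : Fin q) (y : Vd (k + 1)) {c : ℂ} (hc : c ≠ 0) (x : EN N) : qf (F j) (d j) (W j) y (c • x) = qf (F j) (d j) (W j) y x := by
  have h1 : ‖c‖ ^ d j ≠ 0 := pow_ne_zero _ (norm_ne_zero_iff.2 hc)
  unfold qf
  rw [P.hom, norm_mul, norm_pow, norm_smul, mul_pow, mul_assoc, mul_div_mul_left _ _ h1]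

theorem HD.qf_add (P : HD Λ D X F d W) (j : Fin q) {l : Vd (k + 1)} (hl : l ∈ Λ) (y : Vd (k + 1)) (x : EN N) : qf (F j) (d j) (W j) (y + l) x = qf (F j) (d j) (W j) y x := by
  obtain ⟨e, he, h⟩ := P.per j l hl y
  unfold qf
  rw [h, norm_mul, ← he]
  ring

theorem continuous_wt (V : Fin r → Vd (k + 1) →L[ℂ] ℂ) : Continuous (wt V) := by
  unfold wt
  exact continuous_finsetSum _ fun i _ => ((V i).continuous.norm.pow 2)

theorem HD.qf_cont (P : HD Λ D X F d W) (j : Fin q) : ContinuousOn (fun p : Vd (k + 1) × EN N => qf (F j) (d j) (W j) p.1 p.2) {p | p.2 ≠ 0} := by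
  unfold qf
  refine ContinuousOn.div ?_ ?_ fun p hp => pow_ne_zero _ (norm_ne_zero_iff.2 hp)
  · refine Continuous.continuousOn ?_
    have h1 : Continuous fun p : Vd (k + 1) × EN N => F j (p.1, p.2) := (P.an j).continuous
    exact h1.norm.mul (Real.continuous_exp.comp ((continuous_wt (W j)).comp continuous_fst).neg)
  · exact (continuous_snd.norm.pow _).continuousOn

theorem HD.qf_le (P : HD Λ D X F d W) : ∃ C : ℝ, 0 < C ∧ ∀ (j : Fin q) (y : Vd (k + 1)) (x : EN N), qf (F j) (d j) (W j) y x ≤ C := by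
  have h1 : ∀ j : Fin q, ∃ C : ℝ, 0 < C ∧ ∀ (y : Vd (k + 1)) (x : EN N), qf (F j) (d j) (W j) y x ≤ C := by
    intro j
    obtain ⟨R, hR0, hR⟩ := P.lat.cpt
    have hcpt : IsCompact (closedBall (0 : Vd (k + 1)) R ×ˢ sphere (0 : EN N) 1) := (isCompact_closedBall _ _).prod (isCompact_sphere _ _)
    have hc : ContinuousOn (fun p : Vd (k + 1) × EN N => qf (F j) (d j) (W j) p.1 p.2) (closedBall (0 : Vd (k + 1)) R ×ˢ sphere (0 : EN N) 1) := by
      refine (P.qf_cont j).mono ?_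
      rintro ⟨y, x⟩ ⟨-, hx⟩
      simp only [mem_sphere_zero_iff_norm] at hx
      show x ≠ 0
      rintro rfl
      rw [norm_zero] at hx
      exact zero_ne_one hx
    obtain ⟨C, hC⟩ := hcpt.bddAbove_image hc
    refine ⟨max C 1, lt_max_of_lt_right one_pos, fun y x => ?_⟩
    by_cases hx : x = 0
    · subst hx
      have h2 : qf (F j) (d j) (W j) y (0 : EN N) = 0 := by
        unfold qf
        rw [norm_zero, zero_pow (P.deg j).ne', div_zero]
      rw [h2]
      exact le_max_of_le_right zero_le_one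
    obtain ⟨l, hl, hlR⟩ := hR y
    have hn : ‖x‖ ≠ 0 := norm_ne_zero_iff.2 hx
    set c : ℂ := (((‖x‖⁻¹ : ℝ)) : ℂ) with hcd
    have hc0 : c ≠ 0 := by
      rw [hcd, Complex.ofReal_ne_zero]
      exact inv_ne_zero hn
    have h3 : qf (F j) (d j) (W j) y x = qf (F j) (d j) (W j) (y - l) (c • x) := by
      rw [P.qf_smul j _ hc0, ← P.qf_add j hl (y - l), sub_add_cancel]
    rw [h3]
    refine le_max_of_le_left (hC ⟨(y - l, c • x), ⟨?_, ?_⟩, rfl⟩)
    · simpa using hlR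
    · rw [mem_sphere_zero_iff_norm, norm_smul, hcd, Complex.norm_real, norm_inv, norm_norm, inv_mul_cancel₀ hn]
  choose C hC h2 using h1
  refine ⟨∑ j, C j + 1, by have := Finset.sum_nonneg fun j (_ : j ∈ Finset.univ) => (hC j).le; linarith, fun j y x => (h2 j y x).trans ?_⟩
  have := Finset.single_le_sum (f := C) (fun i _ => (hC i).le) (Finset.mem_univ j)
  linarith

/-- translation of a curve by a point of the lattice -/
theorem Cw.add (P : HD Λ D X F d W) {U : Set ℂ} {w : ℂ → EN N} {h : ℂ → Vd (k + 1)} (hc : Cw X F U w h) {l : Vd (k + 1)} (hl : l ∈ Λ) : Cw X F U w fun z => h z + l := by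
  refine ⟨hc.w_diff, hc.h_diff.add_const _, hc.w_ne, fun z hz => P.X_per l hl _ _ (hc.mem z hz), fun j z hz => ?_⟩
  obtain ⟨e, he, h1⟩ := P.per j l hl (h z)
  rw [h1]
  refine mul_ne_zero ?_ (hc.ne j z hz)
  rintro rfl
  rw [norm_zero, zero_mul] at he
  exact (Real.exp_pos _).ne he

/-- `Gd D δ` is periodic -/
theorem HD.gd_add (P : HD Λ D X F d W) (δ : ℝ) {y l : Vd (k + 1)} (hl : l ∈ Λ) (h : y ∈ Gd D δ) : y + l ∈ Gd D δ := by
  intro b hb
  have h1 := h _ (P.D_inv b hb (-l) (Λ.neg_mem hl))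
  have h2 : y - (b + -l) = y + l - b := by abel
  rwa [h2] at h1

theorem HD.qf_pos (P : HD Λ D X F d W) (j : Fin q) {x : EN N} (hx : x ≠ 0) {y : Vd (k + 1)} (hF : F j (y, x) ≠ 0) : 0 < qf (F j) (d j) (W j) y x := by
  have _ := P
  have h1 : 0 < ‖x‖ := norm_pos_iff.2 hx
  have h3 : 0 < ‖F j (y, x)‖ := norm_pos_iff.2 hF
  unfold qf
  positivity

end Pool.Agent.HE

end

section

/-!
# TG Gd: basic facts on the points far from `D`, fibres, compactness
-/

set_option autoImplicit false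

open Topology Filter Metric

namespace Pool.Agent.TG

open Pool.Agent.H36.BP (EN fs wd)
open Pool.Agent.H14.PP (IsCone CurveAt Tan)
open Pool.Agent.H62.EF (MN pr)
open Pool.Agent.AD (Vd Chart Charts IsGerm)

variable {N k : ℕ}

theorem gd_mono {D : Set (Vd (k + 1))} {δ₁ δ₂ : ℝ} (h : δ₁ ≤ δ₂) : Gd D δ₂ ⊆ Gd D δ₁ :=
  fun _ hy b hb => h.trans (hy b hb)

theorem gd_notMem {D : Set (Vd (k + 1))} {δ : ℝ} (h : 0 < δ) {y : Vd (k + 1)} (hy : y ∈ Gd D δ) : y ∉ D := by
  intro hD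
  have h1 := hy y hD
  rw [sub_self, norm_zero] at h1
  linarith

theorem gd_closed (D : Set (Vd (k + 1))) (δ : ℝ) : IsClosed (Gd D δ) := by
  have h : Gd D δ = ⋂ b ∈ D, {y : Vd (k + 1) | δ ≤ ‖y - b‖} := by
    ext y
    simp [Gd]
  rw [h]
  exact isClosed_biInter fun b _ => isClosed_le continuous_const (by fun_prop)

theorem gd_near {D : Set (Vd (k + 1))} {δ r : ℝ} {y w : Vd (k + 1)} (hy : y ∈ Gd D δ) (h : ‖w - y‖ ≤ r) : w ∈ Gd D (δ - r) := by
  intro b hb
  have h1 := hy b hb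
  have h2 : ‖y - b‖ ≤ ‖w - b‖ + ‖w - y‖ := by
    have : y - b = (w - b) - (w - y) := by abel
    rw [this]
    exact norm_sub_le _ _
  linarith

variable {X : Set (EN N)} {Λ : AddSubgroup (Vd (k + 1))} {u : EN N → Vd (k + 1)} {D B : Set (Vd (k + 1))}

theorem ne_zero (hX : IsCone X) {x : EN N} (hx : x ∈ X) : x ≠ 0 := fun h => hX.zero_notMem (h ▸ hx)

end Pool.Agent.TG

end

section

/-!
# TM Defs: the spaces `T_m` (note 4194)

`Fo θ y` is a binary form of degree `d` whose coefficients are theta functions on `A = ℂ^(k+1) / Λ` (`PX/Defs`).  The points of `ℙ^m` are the binary forms `x ∈ EN m` of degree `m`, up to scalars: `bf x v = ∑ x_j v_0^j v_1^(m-j)`.  `T_m` is the set of the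
points `(y, x)` of `A × ℙ^m` such that `Fo θ y` and `x` have no common zero in `ℙ¹`; it is the complement of the zeros of the resultant `FT θ (y, x) = rs (tv θ y) x`, of degree `d` in `x`, whose coefficients are theta functions of weight `m * wt W`.

`GH θ y a G H`: a factorization `Fo θ (y + z a) = G z * H z` on a line.
-/

set_option autoImplicit false

open Topology Filter Metric

namespace Pool.Agent.TM

open Pool.Agent.H36.BP (EN)
open Pool.Agent.H62.EF (MN pr)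
open Pool.Agent.AD (Vd)
open Pool.Agent.PX (Fo dt)

variable {k d n m n' : ℕ}

/-- the polynomial with the coefficients `c` -/
noncomputable def pl (c : EN n) : Polynomial ℂ := ∑ i : Fin (n + 1), Polynomial.C (c i) * Polynomial.X ^ (i : ℕ)

/-- the binary form with the coefficients `c` -/
noncomputable def bf (c : EN n) (v : EN 1) : ℂ := ∑ i : Fin (n + 1), c i * v 0 ^ (i : ℕ) * v 1 ^ (n - (i : ℕ))

/-- the resultant of the binary forms `c`, `x` of the degrees `n`, `m` -/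
noncomputable def rs (c : EN n) (x : EN m) : ℂ := Polynomial.resultant (pl c) (pl x) n m

/-- the resultant of `c` and the form of degree `m` with indeterminate coefficients -/
noncomputable def RM (m : ℕ) (c : EN n) : MvPolynomial (Fin (m + 1)) ℂ :=
  Polynomial.resultant ((pl c).map MvPolynomial.C) (∑ j : Fin (m + 1), Polynomial.C (MvPolynomial.X j) * Polynomial.X ^ (j : ℕ)) n m

/-- the coefficients of the form `Fo θ y` -/
noncomputable def tv (θ : Fin (d + 1) → Vd (k + 1) → ℂ) (y : Vd (k + 1)) : EN d := WithLp.toLp 2 fun i => θ i y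

/-- the equation of the complement of `T_m` -/
noncomputable def FT (m : ℕ) (θ : Fin (d + 1) → Vd (k + 1) → ℂ) (p : Vd (k + 1) × EN m) : ℂ := rs (tv θ p.1) p.2

/-- `(G z, H z)` is a factorization of the form over the line `z ↦ y + z • a` -/
structure GH (θ : Fin (d + 1) → Vd (k + 1) → ℂ) (y a : Vd (k + 1)) (G : ℂ → EN n) (H : ℂ → EN n') : Prop where
  G_diff : Differentiable ℂ G
  H_diff : Differentiable ℂ H
  G_ne : ∀ z, G z ≠ 0
  mul : ∀ (z : ℂ) (v : EN 1), Fo θ (y + z • a) v = bf (G z) v * bf (H z) v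

/-- the limit situation for curves in `T_m` -/
abbrev LT (m : ℕ) (θ : Fin (d + 1) → Vd (k + 1) → ℂ) (D : Set (Vd (k + 1))) (y a : Vd (k + 1)) (𝒰 : Ultrafilter ℕ) (w : ℕ → ℂ → EN m) (h : ℕ → ℂ → Vd (k + 1)) (g : ℂ → MN m) : Prop :=
  HE.LS (Set.univ : Set (Vd (k + 1) × EN m)) (fun _ : Fin 1 => FT m θ) D y a 𝒰 w h g

/-- `v` is a common zero of the form over `y + z a` and of the limit form `g z` -/
def Zc (θ : Fin (d + 1) → Vd (k + 1) → ℂ) (y a : Vd (k + 1)) (g : ℂ → MN m) (z : ℂ) (v : EN 1) : Prop := Fo θ (y + z • a) v = 0 ∧ ∀ x : EN m, x ≠ 0 → pr x = g z → bf x v = 0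

/-- over the line off `D` the zeros `v` of the form with `Z z v` are locally `n` different holomorphic functions -/
def Sl (θ : Fin (d + 1) → Vd (k + 1) → ℂ) (D : Set (Vd (k + 1))) (y a : Vd (k + 1)) (n : ℕ) (Z : ℂ → EN 1 → Prop) : Prop :=
  ∀ z₀ : ℂ, y + z₀ • a ∉ D → ∃ (ρ : ℝ) (r : Fin n → ℂ → EN 1), 0 < ρ ∧ (∀ i, DifferentiableOn ℂ (r i) (ball z₀ ρ)) ∧ ∀ z ∈ ball z₀ ρ, y + z • a ∉ D ∧
    (∀ i, r i z ≠ 0 ∧ Fo θ (y + z • a) (r i z) = 0) ∧ (∀ i j, i ≠ j → dt (r i z) (r j z) ≠ 0) ∧ ∀ v : EN 1, v ≠ 0 → (Z z v ↔ ∃ i, dt (r i z) v = 0)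

theorem bf_tv (θ : Fin (d + 1) → Vd (k + 1) → ℂ) (y : Vd (k + 1)) (v : EN 1) : bf (tv θ y) v = Fo θ y v := rfl

end Pool.Agent.TM

end
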