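import Pool.Agent.H94.PX4.M04
import Pool.Agent.H94.PX4.M06

/-! The parts of this file: H62.FC.Defs, H7.Qup.Defs, PX.T.Defs. -/

section

/-!
# Fermat covers: definitions

Locally closed subsets of `ℙ^N` given by forms and by the condition that some homogeneous
coordinates are not zero, and the monomial curves `t ↦ (a_i t ^ (n_i))` contained in them.
-/

open MvPolynomial

noncomputable section

namespace Pool.Agent.H62.FC

variable {N : ℕ}

/-- The ideal `P` is homogeneous. -/
def Homog (P : Ideal (MvPolynomial (Fin (N + 1)) ℂ)) : Prop :=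
  ∀ p ∈ P, ∀ n, homogeneousComponent n p ∈ P

end Pool.Agent.H62.FC

end
end

section

/-!
# Qup Defs: dominant regular maps of quasi-projective varieties
-/

set_option autoImplicit false

open Topology Filter MvPolynomial

noncomputable section

namespace Pool.Agent.H7.Qup

open Pool.Agent.H17 (PN VanishesAt)
open Pool.Agent.H62.SA (locVar)
open Pool.Agent.H7.Bir (vals rmap)

variable {N M : ℕ}

/-- `p` is a dominant regular map from the quasi-projective variety `U' = locVar P' G'` to the quasi-projective variety `U = locVar P G`. -/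
structure IsDominantMap (P : Ideal (MvPolynomial (Fin (N + 1)) ℂ)) (P' : Ideal (MvPolynomial (Fin (M + 1)) ℂ)) {s s' : ℕ}
    (G : Fin s → MvPolynomial (Fin (N + 1)) ℂ) (G' : Fin s' → MvPolynomial (Fin (M + 1)) ℂ) (p : PN M → PN N) : Prop where
  /-- `p` maps `U'` into `U` -/
  maps : ∀ y ∈ locVar P' G', p y ∈ locVar P G
  /-- near every point of `U'` the map `p` is given by forms of the same degree -/
  regular : ∀ y ∈ locVar P' G', ∃ (D : ℕ) (γ : Fin (N + 1) → MvPolynomial (Fin (M + 1)) ℂ), (∀ i, (γ i).IsHomogeneous D) ∧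
    vals γ y.rep ≠ 0 ∧ ∀ y' ∈ locVar P' G', vals γ y'.rep ≠ 0 → p y' = rmap γ y'
  /-- the image is Zariski dense -/
  dense : ∀ (Q : MvPolynomial (Fin (N + 1)) ℂ) (n : ℕ), Q.IsHomogeneous n → (∀ y ∈ locVar P' G', VanishesAt Q (p y)) → Q ∈ P

end Pool.Agent.H7.Qup

end
end

section

/-!
# Coprime binary forms over complex tori: the definitions of the final theorem

`A = ℂ^n / Λ` is a complex torus, `n = k + 1`; `pt Λ y` is the point of `A` given by `y ∈ ℂ^n`.

* `IsBinaryForm`: `F` is a binary form whose coefficients are sections of a positive line bundle on `A`; `IsReducedOverSimple`: `A` is simple, and the divisor `{F = 0}` of `A × ℙ¹` is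
  reduced and contains no hypersurface `Γ × ℙ¹`.
* `coprimeForms Λ m F`: the complement `T` in `A × ℙ^m` of the divisor `Res (F y, x) = 0`; `fewZeros Λ n F`: the set of the points of `A` over which the form has less than `n` zeros.
* `IsFiniteOver`: quasi-projective varieties `U` with a map to `T` which is finite on the closure of `U`.  `FourProperties`: the four properties of the Green–Griffiths–Lang conjecture.
* `IsHyperbolicModulo`, `KobayashiPositive`: hyperbolicity of `T` modulo the fibres over `S`.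
-/

set_option autoImplicit false

open Topology Filter MvPolynomial
open Pool.Agent.H17 (PN VanishesAt HolomorphicInto puncturedDisc ZariskiClosedIn)
open Pool.Agent.H17LG.Variety (FunField IsLogGeneralType)
open Pool.Agent.H62.FC (Homog)
open Pool.Agent.H62.SA (locVar OnBd)
open Pool.Agent.H17EF (projVar)
open Pool.Agent.H7.Bir (vals rmap)

noncomputable section

namespace Pool.Agent.COP

/-- `ℂ^n` -/
abbrev Cn (n : ℕ) : Type := Fin n → ℂ

/-- the subgroups of `ℂ^(k+1)` -/
abbrev Sub (k : ℕ) : Type := AddSubgroup (Cn (k + 1))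

variable {k : ℕ}

/-- the torus `ℂ^(k+1) / Λ` -/
abbrev Torus (Λ : Sub k) : Type := Cn (k + 1) ⧸ Λ

/-- the point of the torus given by `y` -/
def pt (Λ : Sub k) (y : Cn (k + 1)) : Torus Λ := (y : Cn (k + 1) ⧸ Λ)

variable {N m q : ℕ}

/-- the product `A × ℙ^m` -/
abbrev Prd (Λ : Sub k) (m : ℕ) : Type := Torus Λ × PN m

/-- functions on `ℂ^(k+1)` with values in the polynomials in `m + 1` variables -/
abbrev Poly (k m : ℕ) : Type := Cn (k + 1) → MvPolynomial (Fin (m + 1)) ℂ

/-! ### Binary forms over the torus -/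

/-- `F y` is a binary form of degree `d` whose coefficients are sections of a positive line bundle on `A`: they are entire functions of `y`, and the functions `‖F y x‖ exp (- ∑ ‖W j y‖²)` are `Λ`-periodic; the weight is positive
definite. -/
structure IsBinaryForm (Λ : Sub k) (F : Poly k 1) (d : ℕ) : Prop where
  homogeneous : ∀ y, (F y).IsHomogeneous d
  holomorphic : ∀ α, Differentiable ℂ fun y => (F y).coeff α
  quasiPeriodic : ∃ (r : ℕ) (W : Fin r → Cn (k + 1) →L[ℂ] ℂ), (∀ y, (∀ j, W j y = 0) → y = 0) ∧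
    ∀ l ∈ Λ, ∀ y, ∃ e : ℂ, ‖e‖ = Real.exp (∑ j, ‖W j (y + l)‖ ^ 2 - ∑ j, ‖W j y‖ ^ 2) ∧ F (y + l) = C e * F y

/-- The torus is simple: a complex subspace `W ≠ 0` which is the real span of its lattice points is the whole space. -/
def IsSimple (Λ : Sub k) : Prop :=
  ∀ W : Submodule ℂ (Cn (k + 1)), W ≠ ⊥ → (∀ v ∈ W, v ∈ Submodule.span ℝ {l : Cn (k + 1) | l ∈ Λ ∧ l ∈ W}) → W = ⊤

/-- `A` is simple, and the divisor `{F = 0}` of `A × ℙ¹` has no multiple component and contains no hypersurface `Γ × ℙ¹`. -/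
structure IsReducedOverSimple (Λ : Sub k) (F : Poly k 1) : Prop where
  simple : IsSimple Λ
  /-- over some point `y` the form has no multiple zeros -/
  simpleZeros : ∃ y, ∀ x : Cn 2, x ≠ 0 → eval x (F y) = 0 → ∃ i, eval x (pderiv i (F y)) ≠ 0
  /-- near a point where the form is `0` the zeros of `F y b`, `b` fixed, are not all such points -/
  codimension : ∀ y, F y = 0 → ∀ b : Cn 2, ∃ᶠ z in 𝓝 y, eval b (F z) = 0 ∧ F z ≠ 0

/-- The binary form of degree `m` with the coefficients `x`. -/
def bin (x : Cn (m + 1)) (p : Cn 2) : ℂ := ∑ i : Fin (m + 1), x i * p 0 ^ (i : ℕ) * p 1 ^ (m - (i : ℕ))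

/-- The complement `T`: the pairs of a point `y` of `A` and a binary form `x` of degree `m` (up to constants) which has no common zero with the form `F y`.  It is the `m`-th symmetric power over `A` of the complement of the divisor
`{F = 0}` of `A × ℙ¹`. -/
def coprimeForms (Λ : Sub k) (m : ℕ) (F : Poly k 1) : Set (Prd Λ m) :=
  {x | ∀ y : Cn (k + 1), pt Λ y = x.1 → ∀ p : Cn 2, p ≠ 0 → eval p (F y) = 0 → bin x.2.rep p ≠ 0}

/-- The binary form `f` has at least `n` different zeros. -/
def HasZeros (n : ℕ) (f : MvPolynomial (Fin 2) ℂ) : Prop := ∃ p : Fin n → PN 1, Function.Injective p ∧ ∀ i, VanishesAt f (p i)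

/-- The set of the points of `A` over which there are less than `n` points of the divisor `{F = 0}`. -/
def fewZeros (Λ : Sub k) (n : ℕ) (F : Poly k 1) : Set (Torus Λ) := {t | ∃ y : Cn (k + 1), pt Λ y = t ∧ ¬ HasZeros n (F y)}

/-! ### Quasi-projective varieties -/

/-- The map `u` from the projective variety given by `P` to the torus is regular: if `θ`, `θ'` are theta functions with the same factor of automorphy, then near each point `x` with `θ (u x) ≠ 0` the function `θ' (u) / θ (u)` is a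
quotient of forms of the same degree. -/
def IsRegularTorusMap (P : Ideal (MvPolynomial (Fin (N + 1)) ℂ)) (Λ : Sub k) (u : PN N → Torus Λ) : Prop :=
  ∀ θ θ' : Cn (k + 1) → ℂ, Differentiable ℂ θ → Differentiable ℂ θ' → (∀ l ∈ Λ, ∀ y, ∃ e : ℂ, θ (y + l) = e * θ y ∧ θ' (y + l) = e * θ' y) →
    ∀ x ∈ projVar P, ∀ y, pt Λ y = u x → θ y ≠ 0 → ∃ (D : ℕ) (a b : MvPolynomial (Fin (N + 1)) ℂ), a.IsHomogeneous D ∧ b.IsHomogeneous D ∧ ¬ VanishesAt b x ∧
      ∀ x' ∈ projVar P, ¬ VanishesAt b x' → ∀ y', pt Λ y' = u x' → θ y' ≠ 0 ∧ θ' y' / θ y' = eval x'.rep a / eval x'.rep b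

/-- `U = locVar P G` is a quasi-projective variety, with closure `X` in `ℙ^N`, and `(u, v)` a regular map from `X` to `A × ℙ^m` with finite fibres which maps `U` to `T`; some point of `U` is not over `S`. -/
structure IsFiniteOver (P : Ideal (MvPolynomial (Fin (N + 1)) ℂ)) {s : ℕ} (G : Fin s → MvPolynomial (Fin (N + 1)) ℂ) (Λ : Sub k)
    (T : Set (Prd Λ m)) (S : Set (Torus Λ)) (u : PN N → Torus Λ) (v : PN N → PN m) : Prop where
  /-- near every point of `X` the map `u` is given by holomorphic functions of the homogeneous coordinates -/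
  holomorphic : ∀ (x : Cn (N + 1)) (hx : x ≠ 0), Projectivization.mk ℂ x hx ∈ projVar P → ∃ υ : Cn (N + 1) → Cn (k + 1), AnalyticAt ℂ υ x ∧
    ∀ᶠ x' in 𝓝 x, ∀ hx' : x' ≠ 0, Projectivization.mk ℂ x' hx' ∈ projVar P → u (Projectivization.mk ℂ x' hx') = pt Λ (υ x')
  regularTorus : IsRegularTorusMap P Λ u
  regular : ∀ x ∈ projVar P, ∃ (D : ℕ) (γ : Fin (m + 1) → MvPolynomial (Fin (N + 1)) ℂ), (∀ i, (γ i).IsHomogeneous D) ∧ vals γ x.rep ≠ 0 ∧
    ∀ x' ∈ projVar P, vals γ x'.rep ≠ 0 → v x' = rmap γ x'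
  finite : ∀ x ∈ projVar P, {x' | x' ∈ projVar P ∧ u x' = u x ∧ v x' = v x}.Finite
  maps : ∀ x ∈ locVar P G, (u x, v x) ∈ T
  notOver : ∃ x ∈ locVar P G, u x ∉ S

/-- The four properties of the Green–Griffiths–Lang conjecture for the quasi-projective variety `U = locVar P G`, with the exceptional set `Ξ`; the two properties of holomorphic curves hold if `h` holds. -/
structure FourProperties (h : Prop) (P : Ideal (MvPolynomial (Fin (N + 1)) ℂ)) [P.IsPrime] {s : ℕ} (G : Fin s → MvPolynomial (Fin (N + 1)) ℂ) (Ξ : Set (PN N)) : Prop where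
  closed : ZariskiClosedIn (locVar P G) Ξ
  proper : Ξ ≠ locVar P G
  /-- `U` is of log general type -/
  logGeneralType : ∀ w, 1 ≤ w → (∃ z : Fin w → FunField P, IsTranscendenceBasis ℂ z) → IsLogGeneralType (OnBd P G (k := w))
  /-- every holomorphic map from the punctured disc to `U` which is not a map into `Ξ` extends to a holomorphic map from the disc to `ℙ^N` -/
  picard : h → ∀ f : ℂ → PN N, HolomorphicInto f puncturedDisc → (∀ z ∈ puncturedDisc, f z ∈ locVar P G) → (∃ z ∈ puncturedDisc, f z ∉ Ξ) →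
    ∃ g : ℂ → PN N, HolomorphicInto g (Metric.ball 0 1) ∧ ∀ z ∈ puncturedDisc, g z = f z
  /-- every nonconstant entire curve in `U` lies in `Ξ` -/
  brody : h → ∀ f : ℂ → PN N, HolomorphicInto f Set.univ → (∀ z, f z ∈ locVar P G) → (∃ z w, f z ≠ f w) → ∀ z, f z ∈ Ξ
  /-- every closed subvariety of `U` of positive dimension which is not contained in `Ξ` is of log general type -/
  strongly : ∀ (Q : Ideal (MvPolynomial (Fin (N + 1)) ℂ)) [Q.IsPrime], Homog Q → P ≤ Q → ¬ locVar Q G ⊆ Ξ →
    ∀ w, 1 ≤ w → (∃ z : Fin w → FunField Q, IsTranscendenceBasis ℂ z) → IsLogGeneralType (OnBd Q G (k := w))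

/-! ### Hyperbolicity -/

/-- `t` is holomorphic on the open set `U` as a map to the torus. -/
def HolomorphicIntoTorus (Λ : Sub k) (t : ℂ → Torus Λ) (U : Set ℂ) : Prop :=
  ∀ z₀ ∈ U, ∃ h : ℂ → Cn (k + 1), AnalyticAt ℂ h z₀ ∧ ∀ᶠ z in 𝓝 z₀, t z = pt Λ (h z)

/-- `(t, g)` is a holomorphic map from the open set `U` to the subset `T` of `A × ℙ^m`. -/
structure IsCurveIn (Λ : Sub k) (T : Set (Prd Λ m)) (t : ℂ → Torus Λ) (g : ℂ → PN m) (U : Set ℂ) : Prop where
  torus : HolomorphicIntoTorus Λ t U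
  proj : HolomorphicInto g U
  mem : ∀ z ∈ U, (t z, g z) ∈ T

/-- Hyperbolicity of the subset `T` of `A × ℙ^m` modulo the fibres over the subset `S` of `A`. -/
structure IsHyperbolicModulo (Λ : Sub k) (T : Set (Prd Λ m)) (S : Set (Torus Λ)) : Prop where
  /-- there is a constant `C` such that the component in `A` of every holomorphic map from the unit disc to `T` has derivative at most `C` at `0` -/
  discs : ∃ C : ℝ, ∀ (h : ℂ → Cn (k + 1)) (g : ℂ → PN m), AnalyticAt ℂ h 0 → IsCurveIn Λ T (fun z => pt Λ (h z)) g (Metric.ball 0 1) → ‖deriv h 0‖ ≤ C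
  /-- every entire curve in `T` lies in a fibre, and is constant if this is not a fibre over a point of `S` -/
  entire : ∀ (t : ℂ → Torus Λ) (g : ℂ → PN m), IsCurveIn Λ T t g Set.univ → ∀ z w, t z = t w ∧ (t z ∉ S → g z = g w)
  /-- every holomorphic map from the punctured disc to `T` extends to a holomorphic map from the disc to `A × ℙ^m`, if it does not map into the fibres over `S`; the component in `A` extends in any case -/
  punctured : ∀ (t : ℂ → Torus Λ) (g : ℂ → PN m), IsCurveIn Λ T t g puncturedDisc →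
    (∃ t' : ℂ → Torus Λ, HolomorphicIntoTorus Λ t' (Metric.ball 0 1) ∧ ∀ z ∈ puncturedDisc, t' z = t z) ∧
    ((∃ z ∈ puncturedDisc, t z ∉ S) → ∃ g' : ℂ → PN m, HolomorphicInto g' (Metric.ball 0 1) ∧ ∀ z ∈ puncturedDisc, g' z = g z)

/-- The Kobayashi–Royden metric of the subset `T` of `A × ℙ^m` is bounded below near the nonempty fibres over the complement of `S` (the component in `ℙ^m`; homogeneous coordinates `φ`, Fubini–Study metric). -/
def KobayashiPositive (Λ : Sub k) (T : Set (Prd Λ m)) (S : Set (Torus Λ)) : Prop :=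
  ∀ y : Cn (k + 1), pt Λ y ∉ S → (∃ p, (pt Λ y, p) ∈ T) → ∃ C : ℝ, ∀ᶠ y' : Cn (k + 1) in 𝓝 y, ∀ (t : ℂ → Torus Λ) (g : ℂ → PN m) (φ : ℂ → Cn (m + 1)),
    IsCurveIn Λ T t g (Metric.ball 0 1) → t 0 = pt Λ y' → AnalyticAt ℂ φ 0 → (∀ᶠ z in 𝓝 (0 : ℂ), ∃ h : φ z ≠ 0, g z = Projectivization.mk ℂ (φ z) h) →
    ∀ i j, ‖φ 0 i * deriv φ 0 j - φ 0 j * deriv φ 0 i‖ ≤ C * ∑ i, ‖φ 0 i‖ ^ 2

end Pool.Agent.COP

end
end
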