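import Pool.Agent.H94.PX4.M01
import Pool.Agent.H94.PX4.M09

/-! The parts of this file: H56.PR.Cov, H56.PR.Lift, H62.FC.PunctMero, LG.Wt, PX.RExt. -/

section

/-!
The roots of a monic polynomial with analytic coefficients form a covering where
the polynomial is separable.
-/

namespace Pool.Agent.H56.PR

open Topology Filter Set Polynomial

noncomputable section

/-- monic polynomials of degree `d`, continuous in `z`, analytic and separable over `U` -/
structure Fam (P : ℂ → ℂ[X]) (d : ℕ) (U : Set ℂ) : Prop where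
  pos : 0 < d
  monic : ∀ z, (P z).Monic
  deg : ∀ z, (P z).natDegree = d
  cont : ∀ i, Continuous fun z => (P z).coeff i
  op : IsOpen U
  an : ∀ i, AnalyticOnNhd ℂ (fun z => (P z).coeff i) U
  sep : ∀ z ∈ U, (P z).Separable

/-- the map whose fibres over `U × {0}` are the roots -/
def Ph (P : ℂ → ℂ[X]) (q : ℂ × ℂ) : ℂ × ℂ := (q.1, (P q.1).eval q.2)

variable {P : ℂ → ℂ[X]} {d : ℕ} {U : Set ℂ}

theorem Fam.eval_eq (h : Fam P d U) (z w : ℂ) :
    (P z).eval w = ∑ i ∈ Finset.range (d + 1), (P z).coeff i * w ^ i := by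
  rw [eval_eq_sum_range, h.deg]

theorem Fam.coeff_top (h : Fam P d U) (z : ℂ) : (P z).coeff d = 1 := by
  have := h.monic z
  rw [Monic, leadingCoeff, h.deg] at this
  exact this

theorem Fam.eval_eq' (h : Fam P d U) (z w : ℂ) :
    (P z).eval w = w ^ d + ∑ i ∈ Finset.range d, (P z).coeff i * w ^ i := by
  rw [h.eval_eq, Finset.sum_range_succ, h.coeff_top, one_mul, add_comm]

theorem Fam.continuous_eval (h : Fam P d U) :
    Continuous fun q : ℂ × ℂ => (P q.1).eval q.2 := by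
  simp only [h.eval_eq]
  refine continuous_finsetSum _ fun i _ => ?_
  exact ((h.cont i).comp continuous_fst).mul (continuous_snd.pow i)

theorem Fam.continuous_Ph (h : Fam P d U) : Continuous (Ph P) :=
  continuous_fst.prodMk h.continuous_eval

theorem Fam.bound (h : Fam P d U) {M N : ℝ} (hM : ∀ z, ‖z‖ ≤ N → ∀ i < d, ‖(P z).coeff i‖ ≤ M)
    (z w : ℂ) (hz : ‖z‖ ≤ N) (hc : ‖(P z).eval w‖ ≤ N) : ‖w‖ ≤ max 1 (N + d * M) := by
  by_contra hcon
  rw [not_le, max_lt_iff] at hcon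
  obtain ⟨h1, h2⟩ := hcon
  have hd := h.pos
  have h3 : w ^ d = (P z).eval w - ∑ i ∈ Finset.range d, (P z).coeff i * w ^ i := by
    rw [h.eval_eq']; ring
  have h4 : ‖w‖ ^ d ≤ N + ∑ i ∈ Finset.range d, ‖(P z).coeff i * w ^ i‖ := by
    rw [← norm_pow, h3]
    refine (norm_sub_le _ _).trans (add_le_add hc (norm_sum_le _ _))
  have h5 : ∑ i ∈ Finset.range d, ‖(P z).coeff i * w ^ i‖
      ≤ ∑ i ∈ Finset.range d, M * ‖w‖ ^ (d - 1) := by
    refine Finset.sum_le_sum fun i hi => ?_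
    rw [Finset.mem_range] at hi
    rw [norm_mul, norm_pow]
    have hM0 : 0 ≤ M := (norm_nonneg _).trans (hM z hz i hi)
    exact mul_le_mul (hM z hz i hi) (pow_le_pow_right₀ h1.le (by omega)) (by positivity) hM0
  rw [Finset.sum_const, Finset.card_range, nsmul_eq_mul] at h5
  have hN : 0 ≤ N := (norm_nonneg _).trans hz
  have h6 : N ≤ N * ‖w‖ ^ (d - 1) := le_mul_of_one_le_right hN (one_le_pow₀ h1.le)
  have h7 : ‖w‖ ^ d = ‖w‖ * ‖w‖ ^ (d - 1) := by
    rw [← pow_succ', Nat.sub_add_cancel hd]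
  have h8 : ‖w‖ * ‖w‖ ^ (d - 1) ≤ (N + d * M) * ‖w‖ ^ (d - 1) := by
    rw [← h7]; nlinarith
  have h9 : 0 < ‖w‖ ^ (d - 1) := by positivity
  exact absurd (le_of_mul_le_mul_right h8 h9) (not_le.2 h2)

theorem Fam.proper (h : Fam P d U) : IsProperMap (Ph P) := by
  rw [isProperMap_iff_isCompact_preimage]
  refine ⟨h.continuous_Ph, fun K hK => ?_⟩
  obtain ⟨N, hN⟩ := hK.isBounded.exists_norm_le
  have hN' : ∀ q ∈ K, ‖q.1‖ ≤ N ∧ ‖q.2‖ ≤ N := fun q hq =>
    ⟨(norm_fst_le q).trans (hN q hq), (norm_snd_le q).trans (hN q hq)⟩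
  have hM : ∃ M : ℝ, ∀ z, ‖z‖ ≤ N → ∀ i < d, ‖(P z).coeff i‖ ≤ M := by
    have : ∀ i, ∃ M : ℝ, ∀ z, ‖z‖ ≤ N → ‖(P z).coeff i‖ ≤ M := by
      intro i
      obtain ⟨M, hM⟩ := (isCompact_closedBall (0 : ℂ) N).exists_bound_of_continuousOn
        (h.cont i).continuousOn
      exact ⟨M, fun z hz => hM z (by simpa using hz)⟩
    choose M hM using this
    refine ⟨∑ i ∈ Finset.range d, |M i|, fun z hz i hi => ?_⟩
    refine (hM i z hz).trans ((le_abs_self _).trans ?_)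
    exact Finset.single_le_sum (f := fun i => |M i|) (fun j _ => abs_nonneg _)
      (Finset.mem_range.2 hi)
  obtain ⟨M, hM⟩ := hM
  refine IsCompact.of_isClosed_subset (isCompact_closedBall (0 : ℂ × ℂ)
    (max N (max 1 (N + d * M)))) (hK.isClosed.preimage h.continuous_Ph) ?_
  intro q hq
  have hq' := hN' _ hq
  rw [mem_closedBall_zero_iff, Prod.norm_def]
  refine max_le_max hq'.1 ?_
  exact h.bound hM q.1 q.2 hq'.1 hq'.2

theorem Fam.analyticAt (h : Fam P d U) {q : ℂ × ℂ} (hq : q.1 ∈ U) :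
    AnalyticAt ℂ (fun q : ℂ × ℂ => (P q.1).eval q.2) q := by
  simp only [h.eval_eq]
  refine Finset.analyticAt_fun_sum _ fun i _ => ?_
  refine AnalyticAt.mul ?_ (analyticAt_snd.pow i)
  exact AnalyticAt.comp (g := fun z => (P z).coeff i) (h.an i q.1 hq) analyticAt_fst

theorem Fam.local_homeo (h : Fam P d U) {q : ℂ × ℂ} (hq : q.1 ∈ U)
    (h0 : (P q.1).eval q.2 = 0) :
    ∃ e : OpenPartialHomeomorph (ℂ × ℂ) (ℂ × ℂ), q ∈ e.source ∧ e = Ph P ∧
      DifferentiableAt ℂ e.symm (e q) := by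
  have han := h.analyticAt hq
  have hst := han.hasStrictFDerivAt
  set L := fderiv ℂ (fun q : ℂ × ℂ => (P q.1).eval q.2) q with hL
  have hB : L (0, 1) = (P q.1).derivative.eval q.2 := by
    have h1 : HasDerivAt (fun w : ℂ => (q.1, w)) ((0 : ℂ), (1 : ℂ)) q.2 :=
      (hasDerivAt_const _ _).prodMk (hasDerivAt_id _)
    have h2 := hst.hasFDerivAt.comp_hasDerivAt_of_eq (f := fun w : ℂ => (q.1, w)) q.2 h1 (by simp)
    exact h2.unique ((P q.1).hasDerivAt q.2)
  have hB0 : L (0, 1) ≠ 0 := by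
    rw [hB]
    intro h1
    obtain ⟨a, b, hab⟩ := h.sep _ hq
    have h2 := congrArg (eval q.2) hab
    simp [h0, h1] at h2
  set B := L (0, 1)
  set A := L (1, 0)
  have hLxy : ∀ v : ℂ × ℂ, L v = v.1 * A + v.2 * B := by
    intro v
    have : v = v.1 • ((1 : ℂ), (0 : ℂ)) + v.2 • ((0 : ℂ), (1 : ℂ)) := by
      ext <;> simp
    conv_lhs => rw [this]
    rw [map_add, map_smul, map_smul, smul_eq_mul, smul_eq_mul]
  let E : (ℂ × ℂ) ≃L[ℂ] (ℂ × ℂ) := ContinuousLinearEquiv.equivOfInverse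
    ((ContinuousLinearMap.fst ℂ ℂ ℂ).prod L)
    ((ContinuousLinearMap.fst ℂ ℂ ℂ).prod
      (B⁻¹ • (ContinuousLinearMap.snd ℂ ℂ ℂ - A • ContinuousLinearMap.fst ℂ ℂ ℂ)))
    (by
      intro v
      ext
      · simp
      · simp [hLxy]; field_simp; ring)
    (by
      intro v
      ext
      · simp
      · simp [hLxy]; field_simp; ring)
  have hst2 : HasStrictFDerivAt (Ph P) (E : (ℂ × ℂ) →L[ℂ] (ℂ × ℂ)) q := by
    have : HasStrictFDerivAt (Ph P) ((ContinuousLinearMap.fst ℂ ℂ ℂ).prod L) q :=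
      hasStrictFDerivAt_fst.prodMk hst
    exact this
  refine ⟨hst2.toOpenPartialHomeomorph (Ph P), hst2.mem_toOpenPartialHomeomorph_source,
    hst2.toOpenPartialHomeomorph_coe, ?_⟩
  have h5 := hst2.to_localInverse
  have h6 := h5.hasFDerivAt.differentiableAt
  exact h6

/-- **The covering of roots.** -/
theorem Fam.covering (h : Fam P d U) :
    IsCoveringMapOn (Ph P) {q | q.1 ∈ U ∧ q.2 = 0} := by
  refine IsClosedMap.isCoveringMapOn_of_isLocalHomeomorphOn h.proper.isClosedMap ?_ ?_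
  · rintro ⟨z, c⟩ ⟨hz, hc⟩
    have h1 : (Ph P) ⁻¹' {(z, c)} ⊆ (fun w => (z, w)) '' {w | w ∈ (P z).roots.toFinset} := by
      rintro ⟨z', w⟩ hw
      rw [mem_preimage, mem_singleton_iff, Ph, Prod.mk.injEq] at hw
      obtain ⟨h2, h3⟩ := hw
      simp only at h2 h3 hc
      subst h2
      refine ⟨w, ?_, rfl⟩
      rw [mem_ofPred_eq, Multiset.mem_toFinset, mem_roots (h.monic z').ne_zero, IsRoot.def, h3, hc]
    exact ((Finset.finite_toSet _).image _).subset h1
  · rintro q ⟨hq, h0⟩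
    obtain ⟨e, h1, h2, -⟩ := h.local_homeo (q := q) hq h0
    exact ⟨e, h1, h2.symm⟩

/-- a continuous root is holomorphic -/
theorem Fam.differentiableAt (h : Fam P d U) {V : Set ℂ} (hV : IsOpen V) (hVU : V ⊆ U)
    {e : ℂ → ℂ} (he : ContinuousOn e V) (h0 : ∀ z ∈ V, (P z).eval (e z) = 0) :
    DifferentiableOn ℂ e V := by
  intro z hz
  refine DifferentiableAt.differentiableWithinAt ?_
  obtain ⟨E, h1, h2, h3⟩ := h.local_homeo (q := (z, e z)) (hVU hz) (h0 z hz)
  have hce : ContinuousAt (fun z => (z, e z)) z :=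
    continuousAt_id.prodMk (he.continuousAt (hV.mem_nhds hz))
  have h4 : ∀ᶠ z' in 𝓝 z, (z', e z') ∈ E.source :=
    hce.eventually (E.open_source.mem_nhds h1)
  have h5 : ∀ᶠ z' in 𝓝 z, e z' = (E.symm (z', 0)).2 := by
    filter_upwards [h4, hV.mem_nhds hz] with z' h6 h7
    have h8 : E (z', e z') = (z', 0) := by
      rw [h2, Ph]; simp [h0 z' h7]
    rw [← h8, E.left_inv h6]
  have h9 : E (z, e z) = (z, 0) := by
    rw [h2, Ph]; simp [h0 z hz]
  rw [h9] at h3
  have h10 : DifferentiableAt ℂ (fun z' : ℂ => (E.symm (z', 0)).2) z := by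
    have h11 : DifferentiableAt ℂ (fun z' : ℂ => (z', (0 : ℂ))) z := by fun_prop
    exact (DifferentiableAt.comp z h3 h11).snd
  exact h10.congr_of_eventuallyEq h5

end

end Pool.Agent.H56.PR

end

section

/-!
Lifting along convex sets, and the extension of a single valued root over an isolated
point of non-separability.
-/

namespace Pool.Agent.H56.PR

open Topology Filter Set Polynomial Metric

noncomputable section

variable {P : ℂ → ℂ[X]} {d : ℕ} {U : Set ℂ}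

theorem Fam.lift_uniq (h : Fam P d U) {A : Type*} [TopologicalSpace A] [SimplyConnectedSpace A]
    [LocallyPathConnectedSpace A] (f : C(A, ℂ)) (hf : ∀ a, f a ∈ U) (a₀ : A) (w₀ : ℂ)
    (h0 : (P (f a₀)).eval w₀ = 0) :
    ∃! e : C(A, ℂ), e a₀ = w₀ ∧ ∀ a, (P (f a)).eval (e a) = 0 := by
  obtain ⟨F, ⟨hF1, hF2⟩, hF3⟩ := h.covering.existsUnique_continuousMap_lifts
    (⟨fun a => (f a, 0), by fun_prop⟩ : C(A, ℂ × ℂ)) (a₀ := a₀) (e₀ := (f a₀, w₀))
    (by simp [Ph, h0]) (fun a => ⟨hf a, rfl⟩)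
  have hF4 : ∀ a, (F a).1 = f a ∧ (P (f a)).eval (F a).2 = 0 := by
    intro a
    have := congrFun hF2 a
    simp only [Function.comp_apply, Ph, ContinuousMap.coe_mk, Prod.mk.injEq] at this
    refine ⟨this.1, ?_⟩
    rw [← this.1]; exact this.2
  refine ⟨⟨fun a => (F a).2, by fun_prop⟩, ⟨by simp [hF1], fun a => (hF4 a).2⟩, ?_⟩
  rintro e ⟨he1, he2⟩
  have := hF3 ⟨fun a => (f a, e a), by fun_prop⟩ ⟨by simp [he1], by funext a; simp [Ph, he2]⟩
  ext a
  have := congrArg (fun G : C(A, ℂ × ℂ) => (G a).2) this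
  simpa using this

section conv

variable {E : Type*} [NormedAddCommGroup E] [NormedSpace ℝ E] {S : Set E}

theorem Fam.exists_on (h : Fam P d U) (hSo : IsOpen S) (hSc : Convex ℝ S) {f : E → ℂ}
    (hf : ContinuousOn f S) (hfU : MapsTo f S U) {s₀ : E} (hs₀ : s₀ ∈ S) {w₀ : ℂ}
    (hw₀ : (P (f s₀)).eval w₀ = 0) :
    ∃ e : E → ℂ, ContinuousOn e S ∧ e s₀ = w₀ ∧ ∀ s ∈ S, (P (f s)).eval (e s) = 0 := by
  have : ContractibleSpace S := hSc.contractibleSpace ⟨s₀, hs₀⟩
  have : LocallyPathConnectedSpace S := hSo.locallyPathConnectedSpace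
  obtain ⟨e, ⟨he1, he2⟩, -⟩ := h.lift_uniq (A := S) ⟨S.domRestrict f, hf.domRestrict⟩
    (fun a => hfU a.2) ⟨s₀, hs₀⟩ w₀ (by simpa using hw₀)
  classical
  refine ⟨fun s => if hs : s ∈ S then e ⟨s, hs⟩ else 0, ?_, by simp [hs₀, he1], ?_⟩
  · rw [continuousOn_iff_continuous_domRestrict]
    refine e.continuous.congr fun a => ?_
    simp
  · intro s hs
    have := he2 ⟨s, hs⟩
    simpa [hs] using this

theorem Fam.eqOn_on (h : Fam P d U) (hSo : IsOpen S) (hSc : Convex ℝ S) {f : E → ℂ}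
    (hf : ContinuousOn f S) (hfU : MapsTo f S U) {e e' : E → ℂ} (he : ContinuousOn e S)
    (he' : ContinuousOn e' S) (hr : ∀ s ∈ S, (P (f s)).eval (e s) = 0)
    (hr' : ∀ s ∈ S, (P (f s)).eval (e' s) = 0) {s₀ : E} (hs₀ : s₀ ∈ S) (heq : e s₀ = e' s₀) :
    EqOn e e' S := by
  have : ContractibleSpace S := hSc.contractibleSpace ⟨s₀, hs₀⟩
  have : LocallyPathConnectedSpace S := hSo.locallyPathConnectedSpace
  have hu := (h.lift_uniq (A := S) ⟨S.domRestrict f, hf.domRestrict⟩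
    (fun a => hfU a.2) ⟨s₀, hs₀⟩ (e s₀) (by simpa using hr s₀ hs₀)).unique
    (y₁ := ⟨S.domRestrict e, he.domRestrict⟩) (y₂ := ⟨S.domRestrict e', he'.domRestrict⟩)
    ⟨by simp, fun a => by simpa using hr a a.2⟩
    ⟨by simp [heq], fun a => by simpa using hr' a a.2⟩
  intro s hs
  have := congrArg (fun G : C(S, ℂ) => G ⟨s, hs⟩) hu
  simpa using this

end conv

/-- the logarithm along a circle around an interior point -/
def lg (c : ℂ) (r : ℝ) (θ : ℝ) : ℂ :=
  Real.log r + θ * Complex.I + Complex.log (1 + c / r * Complex.exp (-(θ * Complex.I)))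

theorem slit {c : ℂ} {r : ℝ} (hc : ‖c‖ < r) (θ : ℝ) :
    1 + c / r * Complex.exp (-(θ * Complex.I)) ∈ Complex.slitPlane := by
  have hr : 0 < r := (norm_nonneg _).trans_lt hc
  apply Complex.mem_slitPlane_of_norm_lt_one
  rw [norm_mul, norm_div, ← neg_mul, ← Complex.ofReal_neg, Complex.norm_exp_ofReal_mul_I, mul_one,
    Complex.norm_real, Real.norm_eq_abs, abs_of_pos hr, div_lt_one hr]
  exact hc

theorem exp_lg {c : ℂ} {r : ℝ} (hc : ‖c‖ < r) (θ : ℝ) :
    Complex.exp (lg c r θ) = circleMap c r θ := by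
  have hr : 0 < r := (norm_nonneg _).trans_lt hc
  rw [lg, Complex.exp_add, Complex.exp_add, Complex.exp_log (Complex.slitPlane_ne_zero (slit hc θ)),
    ← Complex.ofReal_exp, Real.exp_log hr, circleMap, mul_add, mul_one, add_comm]
  congr 1
  have h1 : (r : ℂ) ≠ 0 := by exact_mod_cast hr.ne'
  have h2 : Complex.exp (θ * Complex.I) * Complex.exp (-(θ * Complex.I)) = 1 := by
    rw [← Complex.exp_add, add_neg_cancel, Complex.exp_zero]
  calc r * Complex.exp (θ * Complex.I) * (c / r * Complex.exp (-(θ * Complex.I)))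
      = (r / r) * c * (Complex.exp (θ * Complex.I) * Complex.exp (-(θ * Complex.I))) := by ring
    _ = c := by rw [h2, div_self h1]; ring

theorem continuous_lg {c : ℂ} {r : ℝ} (hc : ‖c‖ < r) : Continuous (lg c r) := by
  unfold lg
  refine Continuous.add (by fun_prop) ?_
  exact Continuous.clog (by fun_prop) fun θ => slit hc θ

theorem lg_two_pi (c : ℂ) (r : ℝ) :
    lg c r (2 * Real.pi) = lg c r 0 + 2 * Real.pi * Complex.I := by
  have h1 : Complex.exp (-(2 * Real.pi * Complex.I)) = 1 := by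
    rw [Complex.exp_neg, Complex.exp_two_pi_mul_I, inv_one]
  unfold lg
  push_cast
  rw [h1]
  simp
  ring

/-- **A single valued root extends over an isolated bad point.** -/
theorem Fam.root_ext (h : Fam P d U) {ρ : ℝ} (hU : ball 0 ρ \ {0} ⊆ U) {c : ℂ} {r : ℝ}
    (hc : ‖c‖ < r) (hr : ‖c‖ + r < ρ) {e : ℂ → ℂ} (he : ContinuousOn e (sphere c r))
    (h0 : ∀ z ∈ sphere c r, (P z).eval (e z) = 0) :
    ∃ E : ℂ → ℂ, DifferentiableOn ℂ E (ball 0 ρ) ∧ (∀ z ∈ sphere c r, E z = e z) ∧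
      ∀ z ∈ ball 0 ρ, (P z).eval (E z) = 0 := by
  have hr0 : 0 < r := (norm_nonneg _).trans_lt hc
  have hρ : 0 < ρ := by have := norm_nonneg c; linarith
  set S : Set ℂ := {ζ | ζ.re < Real.log ρ} with hS
  have hSo : IsOpen S := isOpen_lt Complex.continuous_re continuous_const
  have hSc : Convex ℝ S := convex_halfSpace_lt Complex.reLm.isLinear _
  have hexp : ∀ ζ ∈ S, Complex.exp ζ ∈ ball (0 : ℂ) ρ \ {0} := by
    intro ζ hζ
    refine ⟨?_, Complex.exp_ne_zero ζ⟩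
    rw [mem_ball_zero_iff, Complex.norm_exp]
    calc Real.exp ζ.re < Real.exp (Real.log ρ) := Real.exp_lt_exp.2 hζ
      _ = ρ := Real.exp_log hρ
  have hmS : ∀ ζ, Complex.exp ζ ∈ ball (0 : ℂ) ρ → ζ ∈ S := by
    intro ζ hζ
    rw [mem_ball_zero_iff, Complex.norm_exp] at hζ
    exact (Real.lt_log_iff_exp_lt hρ).2 hζ
  have hsph : ∀ z ∈ sphere c r, z ∈ ball (0 : ℂ) ρ := by
    intro z hz
    rw [mem_ball_zero_iff]
    have h1 : ‖z‖ ≤ ‖c‖ + ‖z - c‖ := by
      have := norm_add_le c (z - c)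
      rwa [add_sub_cancel] at this
    rw [mem_sphere_iff_norm] at hz
    linarith
  have hcir : ∀ θ, circleMap c r θ ∈ sphere c r := fun θ => circleMap_mem_sphere c hr0.le θ
  have hlgS : ∀ θ, lg c r θ ∈ S := fun θ => hmS _ (by rw [exp_lg hc]; exact hsph _ (hcir θ))
  have hfU : MapsTo Complex.exp S U := fun ζ hζ => hU (hexp ζ hζ)
  obtain ⟨G, hG1, hG2, hG3⟩ := h.exists_on hSo hSc Complex.continuous_exp.continuousOn hfU
    (hlgS 0) (w₀ := e (circleMap c r 0)) (by rw [exp_lg hc]; exact h0 _ (hcir 0))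
  -- along the circle
  have hG4 : ∀ θ : ℝ, G (lg c r θ) = e (circleMap c r θ) := by
    have := h.eqOn_on (S := (univ : Set ℝ)) isOpen_univ convex_univ
      (f := circleMap c r) (continuous_circleMap c r).continuousOn
      (fun θ _ => by rw [← exp_lg hc]; exact hfU (hlgS θ))
      (e := fun θ => G (lg c r θ)) (e' := fun θ => e (circleMap c r θ))
      (hG1.comp (continuous_lg hc).continuousOn fun θ _ => hlgS θ)
      (he.comp (continuous_circleMap c r).continuousOn fun θ _ => hcir θ)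
      (fun θ _ => by rw [← exp_lg hc]; exact hG3 _ (hlgS θ))
      (fun θ _ => h0 _ (hcir θ)) (s₀ := 0) (mem_univ _) hG2
    exact fun θ => this (mem_univ θ)
  -- periodicity
  have hper0 : G (lg c r 0 + 2 * Real.pi * Complex.I) = G (lg c r 0) := by
    rw [← lg_two_pi, hG4, hG4]
    congr 1
    simp [circleMap]
  have hsh : ∀ ζ ∈ S, ζ + 2 * Real.pi * Complex.I ∈ S := by
    intro ζ hζ
    simpa [hS] using hζ
  have hper : ∀ ζ ∈ S, G (ζ + 2 * Real.pi * Complex.I) = G ζ := by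
    have hexp2 : ∀ ζ : ℂ, Complex.exp (ζ + 2 * Real.pi * Complex.I) = Complex.exp ζ := fun ζ => by
      rw [Complex.exp_add, Complex.exp_two_pi_mul_I, mul_one]
    have := h.eqOn_on hSo hSc Complex.continuous_exp.continuousOn hfU
      (e := fun ζ => G (ζ + 2 * Real.pi * Complex.I)) (e' := G)
      (hG1.comp (by fun_prop) hsh) hG1
      (fun ζ hζ => by rw [← hexp2]; exact hG3 _ (hsh ζ hζ)) hG3 (hlgS 0) hper0
    exact fun ζ hζ => this hζ
  have hperN : ∀ (n : ℕ), ∀ ζ ∈ S, G (ζ + n * (2 * Real.pi * Complex.I)) = G ζ := by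
    intro n
    induction n with
    | zero => intro ζ _; simp
    | succ n ih =>
      intro ζ hζ
      have h1 : ζ + n * (2 * Real.pi * Complex.I) ∈ S := by simpa [hS] using hζ
      have h2 := hper _ h1
      rw [ih ζ hζ] at h2
      rw [← h2]
      congr 1
      push_cast
      ring
  have hperZ : ∀ ζ ∈ S, ∀ ζ' ∈ S, Complex.exp ζ = Complex.exp ζ' → G ζ = G ζ' := by
    intro ζ hζ ζ' hζ' hee
    obtain ⟨n, hn⟩ := Complex.exp_eq_exp_iff_exists_int.1 hee
    rcases Int.eq_nat_or_neg n with ⟨m, rfl | rfl⟩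
    · rw [hn]
      exact hperN m ζ' hζ'
    · have : ζ' = ζ + m * (2 * Real.pi * Complex.I) := by
        rw [hn]; push_cast; ring
      rw [this]
      exact (hperN m ζ hζ).symm
  -- descend
  set E₀ : ℂ → ℂ := fun z => G (Complex.log z) with hE₀
  have hE₀eq : ∀ ζ ∈ S, E₀ (Complex.exp ζ) = G ζ := by
    intro ζ hζ
    refine hperZ _ (hmS _ ?_) _ hζ ?_
    · rw [Complex.exp_log (Complex.exp_ne_zero _)]
      exact (hexp ζ hζ).1
    · exact Complex.exp_log (Complex.exp_ne_zero _)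
  have hlogS : ∀ z ∈ ball (0 : ℂ) ρ \ {0}, Complex.log z ∈ S := by
    rintro z ⟨hz, hz0⟩
    exact hmS _ (by rw [Complex.exp_log hz0]; exact hz)
  have hE₀root : ∀ z ∈ ball (0 : ℂ) ρ \ {0}, (P z).eval (E₀ z) = 0 := by
    intro z hz
    have := hG3 _ (hlogS z hz)
    rwa [Complex.exp_log hz.2] at this
  have hopen : IsOpen (ball (0 : ℂ) ρ \ {0}) := isOpen_ball.sdiff isClosed_singleton
  have hE₀cont : ContinuousOn E₀ (ball 0 ρ \ {0}) := by
    intro z₁ hz₁
    refine ContinuousAt.continuousWithinAt ?_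
    have hz10 : z₁ ≠ 0 := hz₁.2
    have hB : ContinuousAt (fun z => Complex.log (z / z₁) + Complex.log z₁) z₁ := by
      refine ContinuousAt.add (ContinuousAt.clog (by fun_prop) ?_) continuousAt_const
      rw [div_self hz10]; exact Complex.one_mem_slitPlane
    have hBv : Complex.log (z₁ / z₁) + Complex.log z₁ = Complex.log z₁ := by
      rw [div_self hz10, Complex.log_one, zero_add]
    have hGc : ContinuousAt G (Complex.log (z₁ / z₁) + Complex.log z₁) := by
      rw [hBv]; exact hG1.continuousAt (hSo.mem_nhds (hlogS z₁ hz₁))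
    have hcomp : ContinuousAt (fun z => G (Complex.log (z / z₁) + Complex.log z₁)) z₁ :=
      ContinuousAt.comp (f := fun z => Complex.log (z / z₁) + Complex.log z₁) hGc hB
    refine hcomp.congr ?_
    filter_upwards [hopen.mem_nhds hz₁] with z hz
    have hz0 : z ≠ 0 := hz.2
    have he1 : Complex.exp (Complex.log (z / z₁) + Complex.log z₁) = z := by
      rw [Complex.exp_add, Complex.exp_log (div_ne_zero hz0 hz10), Complex.exp_log hz10,
        div_mul_cancel₀ _ hz10]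
    have hmem : Complex.log (z / z₁) + Complex.log z₁ ∈ S := hmS _ (by rw [he1]; exact hz.1)
    rw [← hE₀eq _ hmem, he1]
  have hE₀diff : DifferentiableOn ℂ E₀ (ball 0 ρ \ {0}) :=
    h.differentiableAt hopen hU hE₀cont hE₀root
  -- bounded near 0
  have hM : ∃ M : ℝ, ∀ z ∈ ball (0 : ℂ) ρ \ {0}, ‖E₀ z‖ ≤ M := by
    have : ∀ i, ∃ M : ℝ, ∀ z, ‖z‖ ≤ ρ → ‖(P z).coeff i‖ ≤ M := by
      intro i
      obtain ⟨M, hM⟩ := (isCompact_closedBall (0 : ℂ) ρ).exists_bound_of_continuousOn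
        (h.cont i).continuousOn
      exact ⟨M, fun z hz => hM z (by simpa using hz)⟩
    choose M hM using this
    refine ⟨max 1 (ρ + d * ∑ i ∈ Finset.range d, |M i|), fun z hz => ?_⟩
    refine h.bound (N := ρ) ?_ z (E₀ z) ?_ ?_
    · intro z hz i hi
      refine (hM i z hz).trans ((le_abs_self _).trans ?_)
      exact Finset.single_le_sum (f := fun i => |M i|) (fun j _ => abs_nonneg _)
        (Finset.mem_range.2 hi)
    · exact (mem_ball_zero_iff.1 hz.1).le
    · rw [hE₀root z hz, norm_zero]; exact hρ.le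
  obtain ⟨M, hM⟩ := hM
  have hE := Complex.differentiableOn_update_limUnder_of_bddAbove
    (isOpen_ball.mem_nhds (mem_ball_self hρ)) hE₀diff
    (⟨M, by rintro _ ⟨z, hz, rfl⟩; exact hM z hz⟩ : BddAbove (norm ∘ E₀ '' (ball 0 ρ \ {0})))
  set E := Function.update E₀ 0 (limUnder (𝓝[≠] 0) E₀) with hEdef
  have hEeq : ∀ z ≠ 0, E z = E₀ z := fun z hz => Function.update_of_ne hz _ _
  refine ⟨E, hE, ?_, ?_⟩
  · intro z hz
    obtain ⟨θ, rfl⟩ : ∃ θ : ℝ, circleMap c r θ = z := by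
      have : z ∈ range (circleMap c r) := by
        rw [range_circleMap, abs_of_pos hr0]; exact hz
      exact this
    have hne : circleMap c r θ ≠ 0 := by rw [← exp_lg hc]; exact Complex.exp_ne_zero _
    rw [hEeq _ hne, ← hG4, ← hE₀eq _ (hlgS θ), exp_lg hc]
  · intro z hz
    by_cases hz0 : z = 0
    · subst hz0
      have hEc : ContinuousAt E 0 := (hE.differentiableAt
        (isOpen_ball.mem_nhds (mem_ball_self hρ))).continuousAt
      have h1 : ContinuousAt (fun z => (P z).eval (E z)) 0 :=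
        (h.continuous_eval.continuousAt (x := ((0 : ℂ), E 0))).comp_of_eq
          (f := fun z => (z, E z)) (continuousAt_id.prodMk hEc) rfl
      have h2 : Tendsto (fun z => (P z).eval (E z)) (𝓝[≠] 0) (𝓝 0) := by
        refine tendsto_const_nhds.congr' ?_
        have h3 : ball (0 : ℂ) ρ ∈ 𝓝[≠] (0 : ℂ) :=
          mem_nhdsWithin_of_mem_nhds (isOpen_ball.mem_nhds (mem_ball_self hρ))
        filter_upwards [h3, self_mem_nhdsWithin] with z h4 h5
        rw [hEeq z h5, hE₀root z ⟨h4, h5⟩]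
      exact tendsto_nhds_unique (h1.tendsto.mono_left nhdsWithin_le_nhds) h2
    · rw [hEeq z hz0]; exact hE₀root z ⟨hz, hz0⟩

end

end Pool.Agent.H56.PR

end

section

/-!
# Functions meromorphic at the puncture: closure properties
-/

open Filter Topology MeasureTheory
open Pool.Agent.H92.GGL (ordZ)

noncomputable section

namespace Pool.Agent.H62.FC

theorem PunctMero.congr {f g : ℂ → ℂ} (hf : PunctMero f)
    (h : ∀ᶠ z in 𝓝[≠] (0 : ℂ), f =ᶠ[𝓝[≠] z] g) : PunctMero g := by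
  obtain ⟨v, hv, hfv⟩ := hf
  refine ⟨v, hv, ?_⟩
  filter_upwards [hfv, h] with z h1 h2 using h2.symm.trans h1

theorem PunctMero.of_meromorphicAt {f : ℂ → ℂ} (hf : MeromorphicAt f 0) : PunctMero f :=
  ⟨f, hf, Eventually.of_forall fun _ => EventuallyEq.rfl⟩

theorem PunctMero.const (c : ℂ) : PunctMero (fun _ => c) :=
  PunctMero.of_meromorphicAt (MeromorphicAt.const c 0)

theorem PunctMero.mul {f g : ℂ → ℂ} (hf : PunctMero f) (hg : PunctMero g) :
    PunctMero (fun z => f z * g z) := by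
  obtain ⟨v, hv, hfv⟩ := hf
  obtain ⟨w, hw, hgw⟩ := hg
  refine ⟨fun z => v z * w z, hv.mul hw, ?_⟩
  filter_upwards [hfv, hgw] with z h1 h2
  filter_upwards [h1, h2] with ζ h3 h4
  rw [h3, h4]

theorem PunctMero.inv {f : ℂ → ℂ} (hf : PunctMero f) : PunctMero (fun z => (f z)⁻¹) := by
  obtain ⟨v, hv, hfv⟩ := hf
  refine ⟨fun z => (v z)⁻¹, hv.inv, ?_⟩
  filter_upwards [hfv] with z h1
  filter_upwards [h1] with ζ h3
  rw [h3]

/-- a bound for a root -/
private lemma norm_le_of_pow_le {w : ℂ} {C : ℝ} {M : ℕ} (hM : 0 < M) (hC : 1 ≤ C)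
    (h : ‖w ^ M‖ ≤ C) : ‖w‖ ≤ C := by
  rw [norm_pow] at h
  by_contra hlt
  have hlt := not_le.1 hlt
  have h1 : (1 : ℝ) ≤ ‖w‖ := by linarith
  have h2 : ‖w‖ ≤ ‖w‖ ^ M := le_self_pow₀ h1 hM.ne'
  linarith

theorem PunctMero.root {R₀ : ℝ} (hR₀ : 0 < R₀) {f : ℂ → ℂ} (hf : MeroPunct R₀ f) {M : ℕ}
    (hM : 0 < M) (h : PunctMero (fun z => f z ^ M)) : PunctMero f := by
  obtain ⟨v, hv, hfv⟩ := h
  -- the punctured disc
  have hU0 : ∀ᶠ z in 𝓝[≠] (0 : ℂ), 0 < ‖z‖ ∧ ‖z‖ < R₀ := by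
    have h1 : ∀ᶠ z in 𝓝 (0 : ℂ), ‖z‖ < R₀ := by
      filter_upwards [Metric.ball_mem_nhds (0 : ℂ) hR₀] with z hz
      simpa using hz
    filter_upwards [h1.filter_mono nhdsWithin_le_nhds, self_mem_nhdsWithin] with z h2 h3
    exact ⟨norm_pos_iff.mpr h3, h2⟩
  -- `v` is not identically zero
  have hvtop : meromorphicOrderAt v 0 ≠ ⊤ := by
    intro htop
    have h0 : ∀ᶠ z in 𝓝[≠] (0 : ℂ), v z = 0 := meromorphicOrderAt_eq_top_iff.1 htop
    have h0' : ∀ᶠ z in 𝓝[≠] (0 : ℂ), ∀ᶠ ζ in 𝓝[≠] z, v ζ = 0 := by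
      have h2 := eventually_eventually_nhdsWithin.2 h0
      filter_upwards [h2, self_mem_nhdsWithin] with z hz hz0
      have h4 : ∀ᶠ ζ in 𝓝 z, v ζ = 0 := by
        have h5 : 𝓝[{(0 : ℂ)}ᶜ] z = 𝓝 z :=
          IsOpen.nhdsWithin_eq isOpen_compl_singleton hz0
        rwa [h5] at hz
      exact h4.filter_mono nhdsWithin_le_nhds
    obtain ⟨z, hz1, hz2, hz3⟩ := ((hU0.and (hfv.and h0'))).exists
    refine hf.ord z hz1.1 hz1.2 ?_
    rw [meromorphicOrderAt_eq_top_iff]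
    filter_upwards [hz2, hz3] with ζ h1 h2
    rw [h2] at h1
    exact (pow_eq_zero_iff hM.ne').1 h1
  have hvan : ∀ᶠ z in 𝓝[≠] (0 : ℂ), AnalyticAt ℂ v z := hv.eventually_analyticAt
  have hvne : ∀ᶠ z in 𝓝[≠] (0 : ℂ), v z ≠ 0 :=
    (meromorphicOrderAt_ne_top_iff_eventually_ne_zero hv).1 hvtop
  obtain ⟨k, hk, -, hvk⟩ := (meromorphicOrderAt_ne_top_iff hv).1 hvtop
  set n : ℤ := (meromorphicOrderAt v 0).untop₀ with hn
  have hkb : ∀ᶠ z in 𝓝 (0 : ℂ), ‖k z‖ ≤ ‖k 0‖ + 1 := by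
    have h1 := hk.continuousAt.norm.tendsto
    filter_upwards [h1.eventually_lt_const (lt_add_one ‖k 0‖)] with z hz using hz.le
  have h1b : ∀ᶠ z in 𝓝 (0 : ℂ), ‖z‖ < 1 := by
    filter_upwards [Metric.ball_mem_nhds (0 : ℂ) one_pos] with z hz
    simpa using hz
  -- everything in one punctured disc
  have hall : ∀ᶠ z in 𝓝[≠] (0 : ℂ), (0 < ‖z‖ ∧ ‖z‖ < R₀) ∧
      ((fun z => f z ^ M) =ᶠ[𝓝[≠] z] v) ∧ AnalyticAt ℂ v z ∧ v z ≠ 0 ∧
        v z = z ^ n * k z ∧ ‖k z‖ ≤ ‖k 0‖ + 1 ∧ ‖z‖ < 1 := by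
    filter_upwards [hU0, hfv, hvan, hvne, hvk, hkb.filter_mono nhdsWithin_le_nhds,
      h1b.filter_mono nhdsWithin_le_nhds] with z a1 a2 a3 a4 a5 a6 a7
    refine ⟨a1, a2, a3, a4, ?_, a6, a7⟩
    rw [a5, sub_zero, smul_eq_mul]
  obtain ⟨ε, hε, hε'⟩ := Metric.mem_nhdsWithin_iff.1 hall
  have hD : ∀ z : ℂ, 0 < ‖z‖ → ‖z‖ < ε → (0 < ‖z‖ ∧ ‖z‖ < R₀) ∧
      ((fun z => f z ^ M) =ᶠ[𝓝[≠] z] v) ∧ AnalyticAt ℂ v z ∧ v z ≠ 0 ∧
        v z = z ^ n * k z ∧ ‖k z‖ ≤ ‖k 0‖ + 1 ∧ ‖z‖ < 1 := by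
    intro z hz1 hz2
    exact hε' ⟨by simpa using hz2, norm_pos_iff.1 hz1⟩
  -- the normal form
  set U : Set ℂ := {z | 0 < ‖z‖ ∧ ‖z‖ < R₀} with hU
  have hfU : MeromorphicOn f U := fun z hz => hf.mero z hz.1 hz.2
  set g : ℂ → ℂ := toMeromorphicNFOn f U with hg
  have hgf : ∀ z : ℂ, 0 < ‖z‖ → ‖z‖ < ε → g =ᶠ[𝓝[≠] z] f := fun z h1 h2 =>
    hfU.toMeromorphicNFOn_eq_self_on_nhdsNE (hD z h1 h2).1
  have hgan : ∀ z : ℂ, 0 < ‖z‖ → ‖z‖ < ε → AnalyticAt ℂ g z := by
    intro z h1 h2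
    obtain ⟨b1, b2, b3, b4, -, -, -⟩ := hD z h1 h2
    have hm := hf.mero z b1.1 b1.2
    have e1 : meromorphicOrderAt (fun z => f z ^ M) z = M * meromorphicOrderAt f z :=
      meromorphicOrderAt_pow hm
    have e2 : meromorphicOrderAt (fun z => f z ^ M) z = 0 := by
      rw [meromorphicOrderAt_congr b2]
      exact b3.meromorphicNFAt.meromorphicOrderAt_eq_zero_iff.2 b4
    have e3 : meromorphicOrderAt f z = 0 := by
      rw [e2] at e1
      rcases mul_eq_zero.1 e1.symm with h3 | h3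
      · exact absurd (by exact_mod_cast h3) hM.ne'
      · exact h3
    have hnf : MeromorphicNFAt g z := meromorphicNFOn_toMeromorphicNFOn f U b1
    refine hnf.meromorphicOrderAt_nonneg_iff_analyticAt.1 ?_
    rw [meromorphicOrderAt_congr (hgf z h1 h2), e3]
  have hgM : ∀ z : ℂ, 0 < ‖z‖ → ‖z‖ < ε → g z ^ M = v z := by
    intro z h1 h2
    obtain ⟨-, b2, b3, -, -, -, -⟩ := hD z h1 h2
    have c1 : (fun ζ => g ζ ^ M) =ᶠ[𝓝[≠] z] v := by
      filter_upwards [hgf z h1 h2, b2] with ζ h3 h4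
      rw [h3]; exact h4
    have c2 : ContinuousAt (fun ζ => g ζ ^ M) z := ((hgan z h1 h2).pow M).continuousAt
    exact tendsto_nhds_unique_of_eventuallyEq (c2.tendsto.mono_left nhdsWithin_le_nhds)
      (b3.continuousAt.tendsto.mono_left nhdsWithin_le_nhds) c1
  -- multiply by a power of `z`
  set m : ℕ := n.natAbs with hm
  obtain ⟨w, hw, hwg⟩ := Pool.Agent.H92.GGL.meromorphicAt_of_bounded
    (u := fun z => z ^ m * g z) (ε := ε) (M := ‖k 0‖ + 1) hε
    (fun z h1 h2 => (analyticAt_id.pow m).mul (hgan z h1 h2)) (by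
      intro z h1 h2
      obtain ⟨-, -, -, -, b5, b6, b7⟩ := hD z h1 h2
      refine norm_le_of_pow_le hM (by linarith [norm_nonneg (k 0)]) ?_
      have hz : z ≠ 0 := norm_pos_iff.1 h1
      have e1 : (z ^ m * g z) ^ M = z ^ ((m * M : ℕ) + n : ℤ) * k z := by
        rw [mul_pow, hgM z h1 h2, b5, zpow_add₀ hz, zpow_natCast, pow_mul]
        ring
      have e2 : (0 : ℤ) ≤ ((m * M : ℕ) : ℤ) + n := by
        have h3 : m ≤ m * M := Nat.le_mul_of_pos_right m hM
        omega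
      obtain ⟨q, hq⟩ := Int.eq_ofNat_of_zero_le e2
      rw [e1, hq, zpow_natCast, norm_mul, norm_pow]
      have h4 : ‖z‖ ^ q ≤ 1 := pow_le_one₀ (norm_nonneg z) b7.le
      calc ‖z‖ ^ q * ‖k z‖ ≤ 1 * (‖k 0‖ + 1) :=
            mul_le_mul h4 b6 (norm_nonneg _) zero_le_one
        _ = ‖k 0‖ + 1 := one_mul _)
  refine ⟨fun z => (z ^ m)⁻¹ * w z, (((analyticAt_id.pow m).meromorphicAt).inv).mul
    hw.meromorphicAt, ?_⟩
  have hεe : ∀ᶠ z in 𝓝[≠] (0 : ℂ), 0 < ‖z‖ ∧ ‖z‖ < ε := by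
    filter_upwards [(Metric.ball_mem_nhds (0 : ℂ) hε : _) |> mem_nhdsWithin_of_mem_nhds,
      self_mem_nhdsWithin] with z h1 h2
    exact ⟨norm_pos_iff.mpr h2, by simpa using h1⟩
  filter_upwards [hεe] with z hz
  have hz0 : z ≠ 0 := norm_pos_iff.1 hz.1
  have h5 : ∀ᶠ ζ in 𝓝[≠] z, ζ ≠ 0 :=
    (isOpen_compl_singleton.mem_nhds hz0 : ({(0 : ℂ)}ᶜ : Set ℂ) ∈ 𝓝 z) |>
      mem_nhdsWithin_of_mem_nhds
  filter_upwards [hgf z hz.1 hz.2, h5] with ζ h6 h7
  rw [hwg ζ h7, ← h6, ← mul_assoc, inv_mul_cancel₀ (pow_ne_zero m h7), one_mul]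

end Pool.Agent.H62.FC

end
end

section

/-!
# LG Wt: expansion of an exterior product

* `exists_term`: expand the multilinear `wd η` (`MultilinearMap.map_sum`, `MultilinearMap.map_smul_univ`): `wd η = ∑_J (∏ M i (J i)) • wd (ζ i (J i))`; `o` of a sum of nonzero terms is at least the minimum (induction over the finite
  set of the nonzero terms, `FV.addf`), so some nonzero term has `o (∏ M • wd …) ≤ o (wd η)`, and `o (∏ M • wd …) = ∑ v (M i (J i)) + o (wd …) ≥ o (wd …)`.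
* `exists_term'`: some term of the expansion is not `0`.
-/

set_option autoImplicit false

open MvPolynomial
open Pool.Agent.H23 (RatForm regularForms PrimeDivisorOver)

noncomputable section

namespace Pool.Agent.LG

variable {K : Type} [Field K] [Algebra ℂ K] {k n D : ℕ} {ι : Type}

private theorem wt_expand {β : Type} [Fintype β] {η : Fin n → Ω[K⁄ℂ]} {M : Fin n → β → K} {ζ : Fin n → β → Ω[K⁄ℂ]}
    (hη : ∀ i, η i = ∑ b, M i b • ζ i b) :
    wd η = ∑ J : Fin n → β, (∏ i, M i (J i)) • wd (fun i => ζ i (J i)) := by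
  classical
  have h1 : η = fun i => ∑ b, M i b • ζ i b := funext hη
  have h2 : wd η = (exteriorPower.ιMulti K n).toMultilinearMap (fun i => ∑ b, M i b • ζ i b) := by
    rw [h1]; rfl
  rw [h2, MultilinearMap.map_sum]
  refine Finset.sum_congr rfl fun J _ => ?_
  rw [MultilinearMap.map_smul_univ]
  rfl

private theorem wt_sum {v : K → ℤ} {o : RatForm K n → ℤ} (h : FV n v o) {α : Type} (s : Finset α) (T : α → RatForm K n)
    (hs : ∑ a ∈ s, T a ≠ 0) : ∃ a ∈ s, T a ≠ 0 ∧ o (T a) ≤ o (∑ a ∈ s, T a) := by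
  classical
  induction s using Finset.induction_on with
  | empty => exact absurd Finset.sum_empty hs
  | insert a s ha ih =>
    rw [Finset.sum_insert ha] at hs ⊢
    by_cases h1 : T a = 0
    · rw [h1, zero_add] at hs ⊢
      obtain ⟨b, hb, hb1, hb2⟩ := ih hs
      exact ⟨b, Finset.mem_insert_of_mem hb, hb1, hb2⟩
    by_cases h2 : ∑ a ∈ s, T a = 0
    · rw [h2, add_zero]
      exact ⟨a, Finset.mem_insert_self a s, h1, le_rfl⟩
    obtain ⟨b, hb, hb1, hb2⟩ := ih h2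
    have h3 := h.addf h1 h2 hs
    rcases min_le_iff.1 h3 with h4 | h4
    · exact ⟨a, Finset.mem_insert_self a s, h1, h4⟩
    · exact ⟨b, Finset.mem_insert_of_mem hb, hb1, hb2.trans h4⟩

private theorem wt_one {v : K → ℤ} (hv : IV K v) : v 1 = 0 := by
  simpa using hv.const 1 one_ne_zero

private theorem wt_prod {v : K → ℤ} (hv : IV K v) {α : Type} (s : Finset α) (a : α → K) (h0 : ∀ i ∈ s, a i ≠ 0)
    (h : ∀ i ∈ s, 0 ≤ v (a i)) : 0 ≤ v (∏ i ∈ s, a i) := by
  classical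
  induction s using Finset.induction_on with
  | empty => rw [Finset.prod_empty, wt_one hv]
  | insert i s hi ih =>
    rw [Finset.prod_insert hi]
    have h1 : ∏ i ∈ s, a i ≠ 0 := Finset.prod_ne_zero_iff.2 fun j hj => h0 j (Finset.mem_insert_of_mem hj)
    rw [hv.mul (h0 i (Finset.mem_insert_self i s)) h1]
    have h2 := ih (fun j hj => h0 j (Finset.mem_insert_of_mem hj)) (fun j hj => h j (Finset.mem_insert_of_mem hj))
    have h3 := h i (Finset.mem_insert_self i s)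
    omega

theorem exists_term {v : K → ℤ} {o : RatForm K n → ℤ} (h : FV n v o) {β : Type} [Fintype β] {η : Fin n → Ω[K⁄ℂ]} {M : Fin n → β → K} {ζ : Fin n → β → Ω[K⁄ℂ]}
    (hη : ∀ i, η i = ∑ b, M i b • ζ i b) (hM : ∀ i b, M i b ≠ 0 → 0 ≤ v (M i b)) (hne : wd η ≠ 0) : ∃ J : Fin n → β, wd (fun i => ζ i (J i)) ≠ 0 ∧ o (wd fun i => ζ i (J i)) ≤ o (wd η) := by
  classical
  have h1 := wt_expand hη
  have h2 : ∑ J : Fin n → β, (∏ i, M i (J i)) • wd (fun i => ζ i (J i)) ≠ 0 := by rwa [← h1]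
  obtain ⟨J, -, hJ1, hJ2⟩ := wt_sum h Finset.univ _ h2
  rw [← h1] at hJ2
  have h3 : ∏ i, M i (J i) ≠ 0 := left_ne_zero_of_smul hJ1
  have h4 : wd (fun i => ζ i (J i)) ≠ 0 := right_ne_zero_of_smul hJ1
  refine ⟨J, h4, ?_⟩
  rw [h.smul h3 h4] at hJ2
  have h5 := wt_prod h.toIV Finset.univ (fun i => M i (J i)) (fun i hi => Finset.prod_ne_zero_iff.1 h3 i hi)
    (fun i hi => hM _ _ (Finset.prod_ne_zero_iff.1 h3 i hi))
  have h6 : 0 ≤ v (∏ i, M i (J i)) := h5
  omega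

end Pool.Agent.LG

end
end

section

/-!
# PX RExt: extension of a root of a polynomial to a disc

`Pt c z t = t ^ m + ∑ c i z * t ^ i`, simple roots for `z ≠ 0`; on the circle of radius `ρ` one root is near the continuous function `g`, and only one.  Then this root extends to a holomorphic root on the disc of radius `R`.
Proof: on the half plane `{ζ | Re ζ < log R}` (convex) the roots of `Pt c (exp ζ)` are given by `m` continuous functions `r i` (`LR/Cover`, `exists_roots_on`, or a direct lifting argument); on the line `Re ζ = log ρ` the index `i` of the root near `g (exp ζ)` does not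
depend on `ζ` (connected), so `r i (ζ + 2 π I)` and `r i ζ` agree for `Re ζ = log ρ`, hence everywhere (both are continuous choices of simple roots): `r i ζ = e (exp ζ)` with `e` continuous on the punctured disc, holomorphic (simple roots: implicit function theorem or
`t - e z` divides), bounded near `0` (bound of the roots by the coefficients): `e` extends.
-/

set_option autoImplicit false

open Topology Filter Metric

namespace Pool.Agent.PX

variable {k d r : ℕ}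

/-- the monic polynomial with the coefficients `c i z` -/
def Pt {m : ℕ} (c : Fin m → ℂ → ℂ) (z t : ℂ) : ℂ := t ^ m + ∑ i : Fin m, c i z * t ^ (i : ℕ)

open Polynomial in
/-- `Pt` as a polynomial -/
noncomputable def Pol {m : ℕ} (c : Fin m → ℂ → ℂ) (z : ℂ) : ℂ[X] :=
  X ^ m + ∑ i : Fin m, C (c i z) * X ^ (i : ℕ)

theorem eval_Pol {m : ℕ} (c : Fin m → ℂ → ℂ) (z t : ℂ) : (Pol c z).eval t = Pt c z t := by
  simp [Pol, Pt, Polynomial.eval_finsetSum]

theorem Pol_monic {m : ℕ} (c : Fin m → ℂ → ℂ) (z : ℂ) : (Pol c z).Monic :=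
  Polynomial.monic_X_pow_add (Polynomial.degree_sum_fin_lt _)

theorem Pol_natDegree {m : ℕ} (c : Fin m → ℂ → ℂ) (z : ℂ) : (Pol c z).natDegree = m := by
  have h1 : (Polynomial.X ^ m + ∑ i : Fin m, Polynomial.C (c i z) * Polynomial.X ^ (i : ℕ)).degree
      = m := by
    rw [Polynomial.degree_add_eq_left_of_degree_lt]
    · exact Polynomial.degree_X_pow m
    · rw [Polynomial.degree_X_pow]
      exact Polynomial.degree_sum_fin_lt _
  exact Polynomial.natDegree_eq_of_degree_eq_some h1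

theorem Pol_coeff {m : ℕ} {c : Fin m → ℂ → ℂ} {s : Set ℂ} (hc : ∀ i, DifferentiableOn ℂ (c i) s)
    (j : ℕ) : DifferentiableOn ℂ (fun z => (Pol c z).coeff j) s := by
  simp only [Pol, Polynomial.coeff_add, Polynomial.finsetSum_coeff, Polynomial.coeff_C_mul]
  refine (differentiableOn_const _).add (DifferentiableOn.fun_sum fun i _ => ?_)
  exact (hc i).mul (differentiableOn_const _)

theorem deriv_Pt {m : ℕ} (c : Fin m → ℂ → ℂ) (z t : ℂ) :
    deriv (Pt c z) t = (Pol c z).derivative.eval t := by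
  have h1 : Pt c z = fun t => (Pol c z).eval t := by funext t; rw [eval_Pol]
  rw [h1]
  exact (Pol c z).deriv

theorem Pol_separable {m : ℕ} {c : Fin m → ℂ → ℂ} {z : ℂ}
    (h : ∀ t, Pt c z t = 0 → deriv (Pt c z) t ≠ 0) : (Pol c z).Separable := by
  rw [Polynomial.Separable, Polynomial.isCoprime_iff_aeval_ne_zero_of_isAlgClosed (k := ℂ) (K := ℂ)]
  intro t
  rw [Polynomial.coe_aeval_eq_eval, eval_Pol, ← deriv_Pt]
  by_cases h0 : Pt c z t = 0
  · exact Or.inr (h t h0)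
  · exact Or.inl h0

theorem LFam_Pol {m : ℕ} (hm : 0 < m) {c : Fin m → ℂ → ℂ} {R : ℝ}
    (hc : ∀ i, DifferentiableOn ℂ (c i) (ball 0 R)) : H56.PR.LFam (Pol c) m R :=
  ⟨hm, fun z _ => Pol_monic c z, fun z _ => Pol_natDegree c z, fun j => Pol_coeff hc j⟩

theorem root_ext {m : ℕ} {c : Fin m → ℂ → ℂ} {R ρ η : ℝ} (hρ : 0 < ρ) (hρR : ρ < R) (hη : 0 < η) (hc : ∀ i, DifferentiableOn ℂ (c i) (ball 0 R))
    (hs : ∀ z ∈ ball (0 : ℂ) R, z ≠ 0 → ∀ t, Pt c z t = 0 → deriv (Pt c z) t ≠ 0) {g : ℂ → ℂ} (hg : ContinuousOn g (sphere 0 ρ))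
    (ha : ∀ z ∈ sphere (0 : ℂ) ρ, ∃ t, Pt c z t = 0 ∧ ‖t - g z‖ ≤ η)
    (hb : ∀ z ∈ sphere (0 : ℂ) ρ, ∀ t, Pt c z t = 0 → ‖t - g z‖ ≤ 2 * η → ‖t - g z‖ ≤ η)
    (hu : ∀ z ∈ sphere (0 : ℂ) ρ, ∀ t t', Pt c z t = 0 → Pt c z t' = 0 → ‖t - g z‖ ≤ 2 * η → ‖t' - g z‖ ≤ 2 * η → t = t') :
    ∃ e : ℂ → ℂ, DifferentiableOn ℂ e (ball 0 R) ∧ (∀ z ∈ ball (0 : ℂ) R, Pt c z (e z) = 0) ∧ ∀ z ∈ sphere (0 : ℂ) ρ, ‖e z - g z‖ ≤ η := by
  classical
  have hR : 0 < R := hρ.trans hρR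
  have hm : 0 < m := by
    rcases Nat.eq_zero_or_pos m with rfl | hm
    · obtain ⟨z, hz⟩ := NormedSpace.sphere_nonempty (x := (0 : ℂ)).2 hρ.le
      obtain ⟨t, ht, -⟩ := ha z hz
      simp [Pt] at ht
    · exact hm
  have hfam := LFam_Pol hm hc
  -- the root near g
  choose! e₀ he1 he2 using ha
  have hec : ContinuousOn e₀ (sphere 0 ρ) := by
    intro z₀ hz₀
    rw [ContinuousWithinAt, tendsto_iff_ultrafilter]
    intro F hF
    have hFK : sphere (0 : ℂ) ρ ∈ F := hF self_mem_nhdsWithin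
    have hF0 : (F : Filter ℂ) ≤ 𝓝 z₀ := hF.trans nhdsWithin_le_nhds
    have hgF : Tendsto g F (𝓝 (g z₀)) := (hg z₀ hz₀).mono_left hF
    have hbd : ∀ᶠ z in (F : Filter ℂ), e₀ z ∈ closedBall (g z₀) (η + 1) := by
      filter_upwards [hFK, hgF.eventually (ball_mem_nhds (g z₀) one_pos)] with z h2 h3
      rw [mem_closedBall_iff_norm]
      have h4 : ‖e₀ z - g z₀‖ ≤ ‖e₀ z - g z‖ + ‖g z - g z₀‖ :=
        norm_sub_le_norm_sub_add_norm_sub _ _ _
      have h5 := he2 z h2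
      rw [dist_eq_norm] at h3
      linarith
    obtain ⟨w, -, hw2⟩ := (isCompact_closedBall (g z₀) (η + 1)).ultrafilter_le_nhds
      (F.map e₀) (le_principal_iff.2 hbd)
    have hw2' : Tendsto e₀ F (𝓝 w) := hw2
    have hzR : z₀ ∈ ball (0 : ℂ) R := mem_ball_zero_iff.2 (by
      rw [mem_sphere_zero_iff_norm] at hz₀; rw [hz₀]; exact hρR)
    have hcw : Pt c z₀ w = 0 := by
      have h7 : Tendsto (fun z => Pt c z (e₀ z)) F (𝓝 (Pt c z₀ w)) := by
        unfold Pt
        refine (hw2'.pow m).add (tendsto_finsetSum _ fun i _ => ?_)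
        have h8 : ContinuousAt (c i) z₀ := ((hc i).differentiableAt (isOpen_ball.mem_nhds hzR)).continuousAt
        exact (h8.tendsto.mono_left hF0).mul (hw2'.pow _)
      have h9 : Tendsto (fun z => Pt c z (e₀ z)) F (𝓝 0) := by
        refine tendsto_const_nhds.congr' ?_
        filter_upwards [hFK] with z hz
        exact (he1 z hz).symm
      exact tendsto_nhds_unique h7 h9
    have hwg : ‖w - g z₀‖ ≤ η := by
      refine le_of_tendsto ((hw2'.sub hgF).norm) ?_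
      filter_upwards [hFK] with z hz
      exact he2 z hz
    have : w = e₀ z₀ := hu z₀ hz₀ _ _ hcw (he1 z₀ hz₀) (by linarith) (by have := he2 z₀ hz₀; linarith)
    rw [← this]
    exact hw2'
  -- the extension to smaller discs
  have hext : ∀ s : ℝ, ρ < s → s < R → ∃ E : ℂ → ℂ, DifferentiableOn ℂ E (ball 0 s) ∧
      (∀ z ∈ sphere (0 : ℂ) ρ, E z = e₀ z) ∧ ∀ z ∈ ball (0 : ℂ) s, Pt c z (E z) = 0 := by
    intro s hρs hsR
    obtain ⟨s', hs1, hs2⟩ := exists_between hsR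
    have hs0 : 0 < s' := hρ.trans (hρs.trans hs1)
    have hmem : ∀ z, ‖H56.PR.retr s' z‖ < R := fun z => (H56.PR.retr_norm hs0 z).trans_lt hs2
    have hreq : ∀ z ∈ ball (0 : ℂ) s', H56.PR.retr s' z = z := fun z hz =>
      H56.PR.retr_eq hs0 (mem_ball_zero_iff.1 hz).le
    have hF : H56.PR.Fam (fun z => Pol c (H56.PR.retr s' z)) m (ball 0 s' \ {0}) := by
      refine ⟨hm, fun z => Pol_monic _ _, fun z => Pol_natDegree _ _, fun i => ?_,
        isOpen_ball.sdiff isClosed_singleton, fun i => ?_, fun z hz => ?_⟩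
      · exact (Pol_coeff hc i).continuousOn.comp_continuous H56.PR.retr_cont
          fun z => mem_ball_zero_iff.2 (hmem z)
      · have ho : IsOpen (ball (0 : ℂ) s' \ {0}) := isOpen_ball.sdiff isClosed_singleton
        refine DifferentiableOn.analyticOnNhd ?_ ho
        refine ((Pol_coeff hc i).mono (fun z hz => ball_subset_ball hs2.le hz.1)).congr
          fun z hz => ?_
        rw [hreq z hz.1]
      · rw [hreq z hz.1]
        exact Pol_separable (hs z (ball_subset_ball hs2.le hz.1) hz.2)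
    obtain ⟨E, hE1, hE2, hE3⟩ := hF.root_ext (ρ := s') (le_refl _) (c := 0) (r := ρ)
      (by simpa using hρ) (by simpa using hρs.trans hs1) hec
      (fun z hz => by
        have hz' : z ∈ ball (0 : ℂ) s' := mem_ball_zero_iff.2 (by
          rw [mem_sphere_zero_iff_norm] at hz; rw [hz]; exact hρs.trans hs1)
        rw [hreq z hz', eval_Pol]; exact he1 z hz)
    refine ⟨E, hE1.mono (ball_subset_ball hs1.le), hE2, fun z hz => ?_⟩
    have hz' := ball_subset_ball hs1.le hz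
    have := hE3 z hz'
    rwa [hreq z hz', eval_Pol] at this
  choose! E hE1 hE2 hE3 using hext
  -- uniqueness
  have huniq : ∀ s, ρ < s → s < R → ∀ t, ρ < t → t < R → ∀ z ∈ ball (0 : ℂ) s, z ∈ ball (0 : ℂ) t →
      E s z = E t z := by
    intro s hs1 hs2 t ht1 ht2 z hzs hzt
    set u := min s t with hu'
    have hsu : ball (0 : ℂ) u ⊆ ball 0 s := ball_subset_ball (min_le_left _ _)
    have htu : ball (0 : ℂ) u ⊆ ball 0 t := ball_subset_ball (min_le_right _ _)
    have hρu : ρ < u := lt_min hs1 ht1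
    have h1 : AnalyticOnNhd ℂ (E s) (ball 0 u) :=
      ((hE1 s hs1 hs2).mono hsu).analyticOnNhd isOpen_ball
    have h2 : AnalyticOnNhd ℂ (E t) (ball 0 u) :=
      ((hE1 t ht1 ht2).mono htu).analyticOnNhd isOpen_ball
    have hsub : closedBall (0 : ℂ) ρ ⊆ ball 0 u := closedBall_subset_ball hρu
    have h3 : Set.EqOn (E s) (E t) (ball 0 ρ) := by
      refine Complex.eqOn_of_eqOn_frontier isBounded_ball ?_ ?_ ?_
      · refine DifferentiableOn.diffContOnCl ?_
        rw [closure_ball _ hρ.ne']; exact h1.differentiableOn.mono hsub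
      · refine DifferentiableOn.diffContOnCl ?_
        rw [closure_ball _ hρ.ne']; exact h2.differentiableOn.mono hsub
      · rw [frontier_ball _ hρ.ne']
        intro z hz
        rw [hE2 s hs1 hs2 z hz, hE2 t ht1 ht2 z hz]
    have h4 := h1.eqOn_of_preconnected_of_eventuallyEq h2 (convex_ball _ _).isPreconnected
      (z₀ := 0) (mem_ball_self (hρ.trans hρu))
      (by filter_upwards [ball_mem_nhds (0 : ℂ) hρ] with z hz using h3 hz)
    exact h4 (mem_ball_zero_iff.2 (lt_min (mem_ball_zero_iff.1 hzs) (mem_ball_zero_iff.1 hzt)))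
  -- glue
  set σ : ℂ → ℝ := fun z => (max ρ ‖z‖ + R) / 2 with hσ
  have hσ1 : ∀ z ∈ ball (0 : ℂ) R, ρ < σ z ∧ σ z < R ∧ z ∈ ball (0 : ℂ) (σ z) := by
    intro z hz
    rw [mem_ball_zero_iff] at hz
    have h1 : max ρ ‖z‖ < R := max_lt hρR hz
    have h2 := le_max_left ρ ‖z‖
    have h3 := le_max_right ρ ‖z‖
    simp only [hσ]
    refine ⟨by linarith, by linarith, mem_ball_zero_iff.2 (by linarith)⟩
  refine ⟨fun z => E (σ z) z, ?_, ?_, ?_⟩
  · intro z₁ hz₁
    obtain ⟨h1, h2, h3⟩ := hσ1 z₁ hz₁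
    have h4 : DifferentiableAt ℂ (E (σ z₁)) z₁ :=
      (hE1 _ h1 h2).differentiableAt (isOpen_ball.mem_nhds h3)
    refine (h4.congr_of_eventuallyEq ?_).differentiableWithinAt
    filter_upwards [isOpen_ball.mem_nhds h3, isOpen_ball.mem_nhds hz₁] with z hz hz'
    obtain ⟨h5, h6, h7⟩ := hσ1 z hz'
    exact huniq _ h5 h6 _ h1 h2 z h7 hz
  · intro z hz
    obtain ⟨h1, h2, h3⟩ := hσ1 z hz
    exact hE3 _ h1 h2 z h3
  · intro z hz
    have hz' : z ∈ ball (0 : ℂ) R := mem_ball_zero_iff.2 (by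
      rw [mem_sphere_zero_iff_norm] at hz; rw [hz]; exact hρR)
    obtain ⟨h1, h2, h3⟩ := hσ1 z hz'
    simp only
    rw [hE2 _ h1 h2 z hz]
    exact he2 z hz

end Pool.Agent.PX

end
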