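import Pool.Agent.H94.PX4.H13.CV.MerO
import Pool.Agent.H94.PX4.M18
import Pool.Agent.H94.PX4.M26
import Pool.Agent.H94.PX4.M34
import Pool.Agent.H94.PX4.M35

/-! The parts of this file: H36.BPL.CurveK, H13.CV.Cub, H13.CV.ThmC, LH.Gh. -/

section

/-!
# BPL CurveK: curves

An open part `K` of a closed cone `X`, proper over an affine variety, whose complement `X ∖ K` contains no curves (for instance `X` is the cone of a curve).  If the entire curves
of order at most two in `K` are constant then all entire curves in `K` are constant and all holomorphic maps from the punctured disc to `K` extend.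
The metric is the Fubini-Study metric.
-/

set_option autoImplicit false

open Topology Filter Metric

noncomputable section

namespace Pool.Agent.H36.BPL

open Pool.Agent.H17 (PN HolomorphicInto puncturedDisc)
open Pool.Agent.H36.BP

variable {N : ℕ}

theorem continuousAt_fs {x : EN N} (hx : x ≠ 0) (v : EN N) : ContinuousAt (fun p : EN N × EN N => fs p.1 p.2) (x, v) := by
  unfold fs
  refine wd_cont.continuousAt.div ?_ ?_
  · exact (continuous_fst.norm.pow 2).continuousAt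
  · exact pow_ne_zero 2 (norm_ne_zero_iff.mpr hx)

/-- the metric data of the Fubini-Study metric -/
theorem curve_metric {X K : Set (EN N)} {M : ℕ} {Φ : EN N → Fin M → ℂ} (h0 : (0 : EN N) ∉ X) (hcl : ∀ x ∈ closure X, x ≠ 0 → x ∈ X)
    (hKX : K ⊆ X) (hKs : ∀ x ∈ K, ∀ c : ℂ, c ≠ 0 → c • x ∈ K) (hrel : ∀ x ∈ K, ∀ᶠ y in 𝓝 x, y ∈ X → y ∈ K) (hΦ : AffProper X K Φ)
    (hbd : ∀ (F : ℂ → EN N) (z₀ : ℂ), AnalyticAt ℂ F z₀ → (∀ᶠ z in 𝓝 z₀, F z ∈ X ∧ F z ∉ K) → ∀ᶠ z in 𝓝 z₀, ∃ c : ℂ, F z = c • F z₀) :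
    MetricData K ∅ (fun x v => fs x v) (fun _ => 1) 1 1 (3 / 2) := by
  have hne : ∀ x ∈ K, x ≠ 0 := fun x hx e => h0 (e ▸ hKX hx)
  refine
  { ne := hne
    smul := hKs
    c₀_pos := one_pos
    C_nonneg := by norm_num
    nonneg := fun x _ v => fs_nonneg x v
    usc := fun x hx v a ha => ((continuousAt_fs (hne x hx) v).eventually_lt continuousAt_const ha).mono fun p hp _ => hp
    inv := fun x hx v c a hc => fs_inv (hne x hx) v hc a
    hom := fun x _ v c => fs_smul_right x v c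
    zero := fun F z₀ _ h => absurd h.self_of_nhds.2 (Set.notMem_empty _)
    sub := ?_
    ρ_nonneg := fun x _ => zero_le_one
    lower := fun x _ v => by simp
    ρ_zero := fun F z₀ _ _ h => ?_
    rel_open := ?_
    hur := hur_of_affProper (fun x hx hx0 => hcl x (closure_mono hKX hx) hx0) hKs hΦ
    lim := ?_ }
  · intro F z₀ hF hFK hpos
    have h1 := (Sub.fs_curve hF hpos).mul (Sub.norm_rpow hF (hne _ hFK.self_of_nhds) (-1))
    have h2 : -(fs (F z₀) (deriv F z₀)) ^ 2 + -1 * fs (F z₀) (deriv F z₀) ^ 2 / 2 = -(3 / 2 * Pool.Agent.H36.BP.mt (fun x v => fs x v) F z₀ ^ 2) := by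
      unfold Pool.Agent.H36.BP.mt
      ring
    rw [h2] at h1
    exact h1
  · exact absurd h.exists (by rintro ⟨z, hz⟩; exact one_ne_zero hz)
  · intro x hx
    filter_upwards [hrel x hx, isOpen_ne.mem_nhds (hne x hx)] with y hy hy0 hyc
    exact hy (hcl y (closure_mono hKX hyc) hy0)
  · intro l hl F H z₀ s hs hF hlim hH0 hHK ε hε
    have hmem : z₀ ∈ ball z₀ s := mem_ball_self hs
    have hHd : DifferentiableOn ℂ H (ball z₀ s) := hlim.differentiableOn (hF.mono fun n hn => hn.1) isOpen_ball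
    have hHa : AnalyticAt ℂ H z₀ := hHd.analyticAt (isOpen_ball.mem_nhds hmem)
    have hHX : ∀ᶠ z in 𝓝 z₀, H z ∈ X ∧ H z ∉ K := by
      filter_upwards [isOpen_ball.mem_nhds hmem, hHa.continuousAt.eventually_ne hH0] with z hz hz0
      refine ⟨hcl _ ?_ hz0, hHK z hz⟩
      have h1 : Tendsto (fun n => F n z) l (𝓝 (H z)) := hlim.tendsto_at hz
      refine mem_closure_of_tendsto h1 ?_
      filter_upwards [hF] with n hn
      exact hKX (hn.2 z hz)
    have hconst := hbd H z₀ hHa hHX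
    -- the derivative of the limit
    have hder : ∃ a : ℂ, deriv H z₀ = a • H z₀ := by
      obtain ⟨j, hj⟩ : ∃ j, (H z₀) j ≠ 0 := by
        by_contra hcon
        push Not at hcon
        exact hH0 (by ext i; exact hcon i)
      have hcoord : AnalyticAt ℂ (fun w => H w j) z₀ := analyticAt_pi_iff.mp (analyticAt_ofLp hHa) j
      have he : H =ᶠ[𝓝 z₀] fun w => (H w j / H z₀ j) • H z₀ := by
        filter_upwards [hconst] with w hw
        obtain ⟨c, hc⟩ := hw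
        have h3 : H w j = c * H z₀ j := by rw [hc]; rfl
        rw [h3, mul_div_cancel_right₀ _ hj]
        exact hc
      have hd : HasDerivAt (fun w => (H w j / H z₀ j) • H z₀) ((deriv (fun w => H w j) z₀ / H z₀ j) • H z₀) z₀ :=
        (hcoord.differentiableAt.hasDerivAt.div_const _).smul_const _
      exact ⟨_, (he.deriv_eq).trans hd.deriv⟩
    obtain ⟨a, ha⟩ := hder
    have hz : fs (H z₀) (deriv H z₀) = 0 := by
      unfold fs
      rw [(wd_eq_zero hH0).mpr ⟨a, ha⟩, zero_div]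
    have h1 : Tendsto (fun n => F n z₀) l (𝓝 (H z₀)) := hlim.tendsto_at hmem
    have hd : TendstoLocallyUniformlyOn (deriv ∘ F) (deriv H) l (ball z₀ s) :=
      hlim.deriv (hF.mono fun n hn => hn.1) isOpen_ball
    have h2 : Tendsto (fun n => deriv (F n) z₀) l (𝓝 (deriv H z₀)) := hd.tendsto_at hmem
    have h3 : Tendsto (fun n => (F n z₀, deriv (F n) z₀)) l (𝓝 (H z₀, deriv H z₀)) := h1.prodMk_nhds h2
    have h4 := (continuousAt_fs hH0 (deriv H z₀)).tendsto.comp h3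
    simp only [hz] at h4
    exact h4.eventually_lt_const hε

variable {V : Type} [NormedAddCommGroup V] [NormedSpace ℂ V]

end Pool.Agent.H36.BPL

end
end

section

/-!
# CV Cub: a smooth cubic contains an entire curve

`fs_ge`: for `x ∈ Cub`, `cr x v = l • gr x`: `wd x v = ‖cr x v‖` (Lagrange's identity, `wd_sq`; norm of the complex Euclidean space), so `fs x v = ‖l‖ ‖gr x‖ / ‖x‖²`.  The function `‖gr x‖ / ‖x‖²` is continuous,
positive (`gr_ne`) and invariant under `x → c x` (`gr (c x) = c² gr x`), so it has a positive lower bound `c₀` (compactness of `{x | ‖x‖ = 1, cub x = 0}`, non-empty or trivial).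
`exists_entire_cubic`: suppose there is no such `F`.  Then `BrodyMod (Cub α β) ∅` (vacuously), and `curve_metric` (`Pool/Agent/H36/BPL/CurveK.lean`, with `X = K = Cub α β`, `Φ = 0 : EN 2 → Fin 0 → ℂ`; the cone
is closed apart from `0`) and `brody_bound` (`Pool/Agent/H36/BP/Brody.lean`) give `C` with `fs (F 0) (F' 0) ≤ C` for all holomorphic discs `F` in `Cub α β` (`mt (fs) F 0 = fs (F 0) (deriv F 0)`).  By
`exists_disc` and `Dsc.dbl` (induction on `k`) there are discs with `l` replaced by `2 ^ k l`; so `c₀ 2 ^ k ‖l 0‖ ≤ C` for all `k`: contradiction.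
-/

set_option autoImplicit false

open Topology Filter Metric
open Pool.Agent.H36.BP

noncomputable section

namespace Pool.Agent.H13.CV

/-- Lagrange's identity -/
private theorem Cub_lagrange (a b c x y z : ℂ) :
    (‖a‖ ^ 2 + ‖b‖ ^ 2 + ‖c‖ ^ 2) * (‖x‖ ^ 2 + ‖y‖ ^ 2 + ‖z‖ ^ 2) -
      ‖x * (starRingEnd ℂ) a + y * (starRingEnd ℂ) b + z * (starRingEnd ℂ) c‖ ^ 2 =
    ‖b * z - c * y‖ ^ 2 + ‖c * x - a * z‖ ^ 2 + ‖a * y - b * x‖ ^ 2 := by
  simp only [Complex.sq_norm, Complex.normSq_apply, Complex.add_re, Complex.add_im, Complex.sub_re, Complex.sub_im,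
    Complex.mul_re, Complex.mul_im, Complex.conj_re, Complex.conj_im]
  ring

private theorem Cub_wd (x v : EN 2) : wd x v = ‖(WithLp.toLp 2 (cr x.ofLp v.ofLp) : EN 2)‖ := by
  have h : wd x v ^ 2 = ‖(WithLp.toLp 2 (cr x.ofLp v.ofLp) : EN 2)‖ ^ 2 := by
    rw [wd_sq, EuclideanSpace.norm_sq_eq, EuclideanSpace.norm_sq_eq, EuclideanSpace.norm_sq_eq, PiLp.inner_apply]
    have hs : ∀ f : Fin (2 + 1) → ℝ, ∑ i, f i = f 0 + f 1 + f 2 := fun f => Fin.sum_univ_three f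
    have hs' : ∀ f : Fin (2 + 1) → ℂ, ∑ i, f i = f 0 + f 1 + f 2 := fun f => Fin.sum_univ_three f
    simp only [hs, hs', RCLike.inner_apply]
    exact Cub_lagrange _ _ _ _ _ _
  exact (pow_left_inj₀ (wd_nonneg _ _) (norm_nonneg _) two_ne_zero).mp h

private theorem Cub_gr_smul (α β c : ℂ) (x : Fin 3 → ℂ) : gr α β (c • x) = c ^ 2 • gr α β x := by
  unfold gr
  ext i
  fin_cases i <;> simp only [Pi.smul_apply, smul_eq_mul] <;> simp <;> ring

private theorem Cub_cub_smul (α β c : ℂ) (x : Fin 3 → ℂ) : cub α β (c • x) = c ^ 3 * cub α β x := by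
  unfold cub
  simp only [Pi.smul_apply, smul_eq_mul]
  ring

private theorem Cub_cont_cub (α β : ℂ) : Continuous fun x : EN 2 => cub α β x.ofLp := by
  unfold cub
  fun_prop

private theorem Cub_cont_gr (α β : ℂ) : Continuous fun x : EN 2 => ‖(WithLp.toLp 2 (gr α β x.ofLp) : EN 2)‖ := by
  have h : Continuous fun x : EN 2 => gr α β x.ofLp := by
    refine continuous_pi fun i => ?_
    unfold gr
    fin_cases i
    · show Continuous fun x : EN 2 => -12 * x.ofLp 0 ^ 2 + α * x.ofLp 2 ^ 2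
      fun_prop
    · show Continuous fun x : EN 2 => 2 * x.ofLp 1 * x.ofLp 2
      fun_prop
    · show Continuous fun x : EN 2 => x.ofLp 1 ^ 2 + 2 * α * x.ofLp 0 * x.ofLp 2 + 3 * β * x.ofLp 2 ^ 2
      fun_prop
  fun_prop

theorem fs_ge {α β : ℂ} (hd : α ^ 3 ≠ 27 * β ^ 2) : ∃ c₀ : ℝ, 0 < c₀ ∧ ∀ (x v : EN 2) (l : ℂ), x ∈ Cub α β → cr x.ofLp v.ofLp = l • gr α β x.ofLp → c₀ * ‖l‖ ≤ fs x v := by
  have hK : IsCompact (sphere (0 : EN 2) 1 ∩ {x | cub α β x.ofLp = 0}) :=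
    (isCompact_sphere _ _).inter_right (isClosed_eq (Cub_cont_cub α β) continuous_const)
  obtain ⟨c₀, hc₀, hmin⟩ : ∃ c₀ : ℝ, 0 < c₀ ∧ ∀ x ∈ sphere (0 : EN 2) 1 ∩ {x | cub α β x.ofLp = 0},
      c₀ ≤ ‖(WithLp.toLp 2 (gr α β x.ofLp) : EN 2)‖ := by
    rcases Set.eq_empty_or_nonempty (sphere (0 : EN 2) 1 ∩ {x | cub α β x.ofLp = 0}) with h | h
    · exact ⟨1, one_pos, fun x hx => by rw [h] at hx; exact absurd hx (Set.notMem_empty x)⟩
    · obtain ⟨x₀, hx₀, hm⟩ := hK.exists_isMinOn h (Cub_cont_gr α β).continuousOn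
      refine ⟨‖(WithLp.toLp 2 (gr α β x₀.ofLp) : EN 2)‖, ?_, fun x hx => hm hx⟩
      rw [norm_pos_iff]
      intro h0
      have hne : x₀.ofLp ≠ 0 := by
        intro h1
        have h2 : x₀ = 0 := by
          ext i
          exact congrFun h1 i
        have h3 := hx₀.1
        rw [h2] at h3
        simp at h3
      refine gr_ne hd hne hx₀.2 ?_
      exact congrArg WithLp.ofLp h0
  refine ⟨c₀, hc₀, fun x v l hx hcr => ?_⟩
  have hn : 0 < ‖x‖ := norm_pos_iff.2 hx.1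
  have h1 := hmin (((‖x‖⁻¹ : ℝ) : ℂ) • x) ⟨?_, ?_⟩
  · have h2 : (WithLp.toLp 2 (gr α β (((‖x‖⁻¹ : ℝ) : ℂ) • x).ofLp) : EN 2) =
        (((‖x‖⁻¹ : ℝ) : ℂ) ^ 2) • (WithLp.toLp 2 (gr α β x.ofLp) : EN 2) := by
      have h3 := Cub_gr_smul α β ((‖x‖⁻¹ : ℝ) : ℂ) x.ofLp
      rw [WithLp.ofLp_smul, h3, WithLp.toLp_smul]
    rw [h2, norm_smul, norm_pow, Complex.norm_real, Real.norm_of_nonneg (by positivity)] at h1
    unfold fs
    rw [Cub_wd, hcr, WithLp.toLp_smul, norm_smul, mul_comm c₀, mul_div_assoc]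
    refine mul_le_mul_of_nonneg_left (h1.trans (le_of_eq ?_)) (norm_nonneg l)
    field_simp
  · rw [mem_sphere_zero_iff_norm, norm_smul, Complex.norm_real, Real.norm_of_nonneg (by positivity)]
    exact inv_mul_cancel₀ hn.ne'
  · show cub α β (((‖x‖⁻¹ : ℝ) : ℂ) • x).ofLp = 0
    rw [WithLp.ofLp_smul, Cub_cub_smul, hx.2, mul_zero]

theorem exists_entire_cubic {α β : ℂ} (hd : α ^ 3 ≠ 27 * β ^ 2) :
    ∃ F : ℂ → EN 2, Differentiable ℂ F ∧ (∀ z, F z ∈ Cub α β) ∧ ∃ z w, ∀ c : ℂ, F z ≠ c • F w := by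
  by_contra hcon
  have hB : BrodyMod (Cub α β) ∅ := fun F h1 h2 h3 => absurd ⟨F, h1, h2, h3⟩ hcon
  have h0 : (0 : EN 2) ∉ Cub α β := fun h => h.1 rfl
  have hΦ : Pool.Agent.H36.BPL.AffProper (Cub α β) (Cub α β) (fun _ : EN 2 => (0 : Fin 0 → ℂ)) :=
    { smul := fun _ _ _ _ => rfl
      cont := continuousOn_const
      hol := fun _ _ _ _ => analyticAt_const
      proper := fun x hx hx' => absurd hx hx'
      iso := fun F z₀ _ h => Or.inr (h.filter_mono nhdsWithin_le_nhds) }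
  have hM := Pool.Agent.H36.BPL.curve_metric (X := Cub α β) (K := Cub α β) h0 ?_ le_rfl ?_
    (fun x _ => Eventually.of_forall fun y hy => hy) hΦ
    (fun F z₀ _ h => absurd h.self_of_nhds.1 h.self_of_nhds.2)
  · obtain ⟨L, hL, hbd⟩ := brody_bound hM hB
    obtain ⟨c₀, hc₀, hfs⟩ := fs_ge hd
    obtain ⟨l, F, hF⟩ := exists_disc α β
    have hk : ∀ k : ℕ, ∃ G : ℂ → EN 2, Dsc α β (fun z => 2 ^ k * l z) G := by
      intro k
      induction k with
      | zero => exact ⟨F, by simpa using hF⟩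
      | succ k ih =>
        obtain ⟨G, hG⟩ := ih
        have h1 := hG.dbl hd
        have h2 : (fun z => 2 * (2 ^ k * l z)) = fun z => 2 ^ (k + 1) * l z := by
          funext z
          ring
        rw [h2] at h1
        exact ⟨_, h1⟩
    have hle : ∀ k : ℕ, c₀ * ‖l 0‖ * 2 ^ k ≤ L := by
      intro k
      obtain ⟨G, hG⟩ := hk k
      have hm : (0 : ℂ) ∈ ball (0 : ℂ) 1 := mem_ball_self one_pos
      have h1 := hfs (G 0) (deriv G 0) _ (hG.curve.2 0 hm) (hG.eq 0 hm)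
      have h2 : fs (G 0) (deriv G 0) ≤ L := hbd G hG.curve
      rw [norm_mul, norm_pow, Complex.norm_ofNat] at h1
      linarith
    have hl0 : 0 < ‖l 0‖ := norm_pos_iff.2 (hF.ne 0 (mem_ball_self one_pos))
    obtain ⟨k, hk2⟩ := pow_unbounded_of_one_lt (L / (c₀ * ‖l 0‖)) (one_lt_two : (1 : ℝ) < 2)
    rw [div_lt_iff₀ (by positivity)] at hk2
    have h3 := hle k
    linarith
  · intro x hx hx0
    refine ⟨hx0, ?_⟩
    have hcl : IsClosed {x : EN 2 | cub α β x.ofLp = 0} := isClosed_eq (Cub_cont_cub α β) continuous_const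
    exact closure_minimal (fun y hy => hy.2) hcl hx
  · intro x hx c hc
    refine ⟨smul_ne_zero hc hx.1, ?_⟩
    show cub α β (c • x).ofLp = 0
    rw [WithLp.ofLp_smul, Cub_cub_smul, hx.2, mul_zero]

end Pool.Agent.H13.CV

end
end

section

/-!
# CV ThmC: a curve which is not of log general type contains a non-constant entire curve

`exists_hom`: `trichotomy` for `B`.
Case `K = ℂ(t)`, `B E → oz E t ≠ 0`: `t` is transcendental (`K` has transcendental elements).  `T = toM (exp)` is transcendental (`tr_or_const`: it is not a constant).  `hom_rat`: `φ`; `ordM z₀ T = 0`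
(`exp z₀ ≠ 0`), so `e • E.ord t = 0` and `E.ord t = 0`, `oz E t = 0`, so `¬ B E`.
Case of the cubic: `exists_entire_cubic`: `F`; its coordinates are entire functions `a₀, a₁, a₂` (`EntFun`).  `a₂ ≠ 0` (if `a₂ = 0` then `a₀ = 0` by the equation and `F z = (0, a₁ z, 0)`, so the `F z` are
proportional).  `U = a₀ / a₂`, `V = a₁ / a₂`.  `V² = 4 U³ - α U - β`.  `U` is transcendental: otherwise it is a constant (`tr_or_const`), then `V` satisfies a polynomial equation and is a constant too, so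
the `F z` with `a₂ z ≠ 0` are proportional to a fixed vector, so all `F z` are (if `a₀ = γ a₂`, `a₁ = δ a₂` as entire functions then `a₂ z = 0` implies `F z = 0`): contradiction.
`hom_cubic`: `φ` (there are no places in `B`).
The two theorems: `exists_hom` for `curveField_funField Q hz`, `homMap`, `homMapL`.
-/

set_option autoImplicit false

open Topology Filter MvPolynomial
open Pool.Agent.H17 (PN VanishesAt ZariskiClosedIn HolomorphicInto puncturedDisc EntFun)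

noncomputable section

namespace Pool.Agent.H13.CV

attribute [-instance] OreLocalization.instAddGroupOreLocalization OreLocalization.instAddCommGroup

def expE : EntFun := ⟨Complex.exp, Complex.differentiable_exp⟩

private lemma toM_inj {a b : EntFun} (h : toM a = toM b) : a = b := IsFractionRing.injective EntFun Mer h

lemma expE_tr : Transcendental ℂ (toM expE) := by
  rcases tr_or_const (toM expE) with ⟨c, hc⟩ | h
  · exfalso
    rw [algebraMap_eq] at hc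
    have h1 := toM_inj hc
    have h2 : Complex.exp 0 = c := congrArg (fun f : EntFun => (f : ℂ → ℂ) 0) h1
    have h3 : Complex.exp (Real.pi * Complex.I) = c := congrArg (fun f : EntFun => (f : ℂ → ℂ) (Real.pi * Complex.I)) h1
    rw [← h2, Complex.exp_pi_mul_I, Complex.exp_zero] at h3
    norm_num at h3
  · exact h

lemma ordM_expE (z₀ : ℂ) : ordM z₀ (toM expE) = 0 := by
  refine le_antisymm (not_lt.1 fun h => ?_) (ordM_toM_nonneg z₀ expE)
  rw [ordM_toM_pos] at h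
  exact Complex.exp_ne_zero z₀ h

private lemma ThmC_rel_map {A B : Type} [CommRing A] [CommRing B] (f : A →+* B) {x y z p q : A}
    (h : y ^ 2 * z - 4 * x ^ 3 + p * x * z ^ 2 + q * z ^ 3 = 0) :
    f y ^ 2 * f z - 4 * f x ^ 3 + f p * f x * f z ^ 2 + f q * f z ^ 3 = 0 := by
  have h1 := congrArg f h
  simpa only [map_add, map_sub, map_mul, map_pow, map_zero, map_ofNat] using h1

private lemma ThmC_rel_div {A : Type} [Field A] {x y z p q : A} (hz : z ≠ 0)
    (h : y ^ 2 * z - 4 * x ^ 3 + p * x * z ^ 2 + q * z ^ 3 = 0) :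
    (y / z) ^ 2 = 4 * (x / z) ^ 3 - p * (x / z) - q := by
  field_simp
  linear_combination h

private lemma ThmC_cub {A B : Type} [CommRing A] [CommRing B] (f : A →+* B) (g p q : A) :
    4 * f g ^ 3 - f p * f g - f q = f (4 * g ^ 3 - p * g - q) := by
  simp only [map_sub, map_mul, map_pow, map_ofNat]

lemma exists_cubic_mer {α β : ℂ} (hd : α ^ 3 ≠ 27 * β ^ 2) :
    ∃ U V : Mer, V ^ 2 = 4 * U ^ 3 - algebraMap ℂ Mer α * U - algebraMap ℂ Mer β ∧ Transcendental ℂ U := by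
  obtain ⟨F, hF, hcub, z, w, hzw⟩ := exists_entire_cubic hd
  have hFi : ∀ i : Fin 3, Differentiable ℂ fun z => F z i := fun i =>
    ((EuclideanSpace.proj i : EuclideanSpace ℂ (Fin 3) →L[ℂ] ℂ).differentiable).comp hF
  obtain ⟨a, ha⟩ : ∃ a : Fin 3 → EntFun, ∀ i x, (a i : ℂ → ℂ) x = F x i := ⟨fun i => ⟨_, hFi i⟩, fun i x => rfl⟩
  have hne : ∀ x, F x ≠ 0 := fun x => (hcub x).1
  have heq : ∀ x, F x 1 ^ 2 * F x 2 - 4 * F x 0 ^ 3 + α * F x 0 * F x 2 ^ 2 + β * F x 2 ^ 3 = 0 := fun x => (hcub x).2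
  have h2 : a 2 ≠ 0 := by
    intro h
    have h0 : ∀ x, F x 2 = 0 := fun x => by
      rw [← ha 2 x, h]
      rfl
    have h1 : ∀ x, F x 0 = 0 := fun x => by
      have h3 := heq x
      rw [h0 x] at h3
      have h4 : F x 0 ^ 3 = 0 := by linear_combination (-1 / 4) * h3
      exact pow_eq_zero_iff (by norm_num) |>.1 h4
    have hw1 : F w 1 ≠ 0 := fun h3 => hne w (by
      ext i
      fin_cases i
      · exact h1 w
      · exact h3
      · exact h0 w)
    refine hzw (F z 1 / F w 1) ?_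
    ext i
    fin_cases i
    · simp [h1]
    · simp [hw1]
    · simp [h0]
  have hA2 : toM (a 2) ≠ 0 := fun h => h2 (toM_inj (by rw [h, toM, map_zero]))
  have hent : a 1 ^ 2 * a 2 - 4 * a 0 ^ 3 + algebraMap ℂ EntFun α * a 0 * a 2 ^ 2 + algebraMap ℂ EntFun β * a 2 ^ 3 = 0 := by
    apply EntFun.ext'
    intro x
    have := heq x
    rw [← ha 0 x, ← ha 1 x, ← ha 2 x] at this
    exact this
  have hmer : toM (a 1) ^ 2 * toM (a 2) - 4 * toM (a 0) ^ 3 + algebraMap ℂ Mer α * toM (a 0) * toM (a 2) ^ 2 +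
      algebraMap ℂ Mer β * toM (a 2) ^ 3 = 0 := by
    have := ThmC_rel_map (algebraMap EntFun Mer) hent
    rw [algebraMap_eq, algebraMap_eq]
    exact this
  have hrel : (toM (a 1) / toM (a 2)) ^ 2 = 4 * (toM (a 0) / toM (a 2)) ^ 3 - algebraMap ℂ Mer α * (toM (a 0) / toM (a 2)) -
      algebraMap ℂ Mer β := ThmC_rel_div hA2 hmer
  refine ⟨_, _, hrel, ?_⟩
  rcases tr_or_const (toM (a 0) / toM (a 2)) with ⟨γ, hγ⟩ | h
  · exfalso
    obtain ⟨ε, hε⟩ := IsAlgClosed.exists_pow_nat_eq (4 * γ ^ 3 - α * γ - β) (n := 2) (by norm_num)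
    have h3 : (toM (a 1) / toM (a 2)) ^ 2 = (algebraMap ℂ Mer ε) ^ 2 := by
      rw [hrel, hγ, ← map_pow (algebraMap ℂ Mer) ε, hε]
      exact ThmC_cub (algebraMap ℂ Mer) γ α β
    obtain ⟨ε', hε'⟩ : ∃ ε' : ℂ, toM (a 1) / toM (a 2) = algebraMap ℂ Mer ε' := by
      rcases sq_eq_sq_iff_eq_or_eq_neg.1 h3 with h | h
      · exact ⟨ε, h⟩
      · exact ⟨-ε, by rw [h, map_neg]⟩
    rw [div_eq_iff hA2, algebraMap_eq] at hγ hε'
    have h4 : a 0 = algebraMap ℂ EntFun γ * a 2 := toM_inj (hγ.trans (map_mul (algebraMap EntFun Mer) _ _).symm)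
    have h5 : a 1 = algebraMap ℂ EntFun ε' * a 2 := toM_inj (hε'.trans (map_mul (algebraMap EntFun Mer) _ _).symm)
    have h6 : ∀ x, F x 0 = γ * F x 2 := fun x => by
      rw [← ha 0 x, ← ha 2 x, h4]
      rfl
    have h7 : ∀ x, F x 1 = ε' * F x 2 := fun x => by
      rw [← ha 1 x, ← ha 2 x, h5]
      rfl
    have hw2 : F w 2 ≠ 0 := fun h8 => hne w (by
      ext i
      fin_cases i
      · simpa [h8] using h6 w
      · simpa [h8] using h7 w
      · exact h8)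
    refine hzw (F z 2 / F w 2) ?_
    ext i
    fin_cases i
    · show F z 0 = F z 2 / F w 2 * F w 0
      rw [h6 z, h6 w]
      field_simp
    · show F z 1 = F z 2 / F w 2 * F w 1
      rw [h7 z, h7 w]
      field_simp
    · show F z 2 = F z 2 / F w 2 * F w 2
      field_simp
  · exact h

variable {N : ℕ}

end Pool.Agent.H13.CV

end
end

section

/-!
# LH Gh: general position at one valuation, and the bound by one form

`a_j = v (F j) - v (Y j (z j)) - d v (V l) ≥ 0` (`CH.Fle`).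

* `exists_H`: for each `I'` take `GP` for `β = (N + d) e_l`, for every `l`: `V_l^(N+d) = ∑_i C_i(V) F_i`.  `H` is the set of the `(coeff γ (C_i) * Y i s)⁻¹` (all `I'`, `l`, `i`, `γ` in the support, `s`; nonzero ones).  At `v`: some term `coeff * mon γ * F i ≠ 0` has `v ≤ (N + d) v (V l)`, and
  `v (mon γ) ≥ N v (V l)`: `a_i ≤ v ((coeff * Y i (z i))⁻¹)`.  `AL` elements are closed under products and inverses.
* `base_bound`: `exists_B`, `exists_mu_base`, `alg_x`.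
* `form_bound`: finitely many `(c, l, z, i₀, I, B)` (functions into finite types); for those with `Ps ≠ 0` (`x t = X (B t) / X c`, `r^`) take `μ` of `exists_mu_base` for the `h ∈ H` (`alg_x`) and `μ` of `exists_mu` for the `F j / (Y j (z j) V_l^d)`; `N` = a sum of products of all of them.  At `v`: `exists_B`; `G = max (0, v (h) : h ∈ H) ≤ μ₁ A`;
  `|v (r^ t)| = |a_(I t) - a_(i₀)| ≤ G` (because `0 ≤ a ≤ G` for both), so `a_j ≤ μ₂ (A + G) ≤ N A`, `A = o (Ps x r^) + 1 ≤ o (W J i₀ I) + 1`.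
-/

set_option autoImplicit false

open MvPolynomial
open Pool.Agent.H23 (RatForm PrimeDivisorOver)
open Pool.Agent.LG (dd wd IV FV)

noncomputable section

namespace Pool.Agent.LH

variable {K : Type} [Field K] [Algebra ℂ K] {ι σ : Type} {k n m q p f d w : ℕ}

private theorem gh_one {v : K → ℤ} (h : IV K v) : v 1 = 0 := by
  simpa using h.const 1 one_ne_zero

private theorem gh_inv {v : K → ℤ} (h : IV K v) {a : K} (ha : a ≠ 0) : v a⁻¹ = - v a := by
  have h1 := h.mul ha (inv_ne_zero ha)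
  rw [mul_inv_cancel₀ ha, gh_one h] at h1
  omega

private theorem gh_div {v : K → ℤ} (h : IV K v) {a b : K} (ha : a ≠ 0) (hb : b ≠ 0) : v (a / b) = v a - v b := by
  rw [div_eq_mul_inv, h.mul ha (inv_ne_zero hb), gh_inv h hb]
  ring

private theorem gh_pow {v : K → ℤ} (h : IV K v) {a : K} (ha : a ≠ 0) (N : ℕ) : v (a ^ N) = N * v a := by
  induction N with
  | zero => simpa using gh_one h
  | succ N ih =>
    rw [pow_succ, h.mul (pow_ne_zero _ ha) ha, ih]
    push_cast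
    ring

/-- a nonzero sum has a nonzero term whose order is at most that of the sum -/
private theorem gh_sum {v : K → ℤ} (h : IV K v) {α : Type} (s : Finset α) (a : α → K) (hs : ∑ i ∈ s, a i ≠ 0) :
    ∃ i ∈ s, a i ≠ 0 ∧ v (a i) ≤ v (∑ i ∈ s, a i) := by
  classical
  induction s using Finset.induction_on with
  | empty => exact absurd Finset.sum_empty hs
  | insert i s hi ih =>
    rw [Finset.sum_insert hi] at hs ⊢
    by_cases h1 : a i = 0
    · rw [h1, zero_add] at hs ⊢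
      obtain ⟨j, hj, h2, h3⟩ := ih hs
      exact ⟨j, Finset.mem_insert_of_mem hj, h2, h3⟩
    · by_cases h2 : ∑ i ∈ s, a i = 0
      · rw [h2, add_zero]
        exact ⟨i, Finset.mem_insert_self _ _, h1, le_rfl⟩
      · have h3 := h.add h1 h2 hs
        rcases min_le_iff.1 h3 with h4 | h4
        · exact ⟨i, Finset.mem_insert_self _ _, h1, h4⟩
        · obtain ⟨j, hj, h5, h6⟩ := ih h2
          exact ⟨j, Finset.mem_insert_of_mem hj, h5, h6.trans h4⟩

private theorem gh_mon {S : Dat K ι σ n m q} {v : K → ℤ} (h : IV K v) {l : Fin (m + 1)}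
    (hl : ∀ l', S.V l' ≠ 0 → v (S.V l) ≤ v (S.V l')) {γ : Fin (m + 1) →₀ ℕ} (h0 : ∏ l', S.V l' ^ γ l' ≠ 0) :
    (∑ l', (γ l' : ℤ)) * v (S.V l) ≤ v (∏ l', S.V l' ^ γ l') := by
  classical
  have key : ∀ s : Finset (Fin (m + 1)), (∏ l' ∈ s, S.V l' ^ γ l') ≠ 0 →
      (∑ l' ∈ s, (γ l' : ℤ)) * v (S.V l) ≤ v (∏ l' ∈ s, S.V l' ^ γ l') := by
    intro s
    induction s using Finset.induction_on with
    | empty =>
      intro _
      simp [gh_one h]
    | insert a s ha ih =>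
      rw [Finset.prod_insert ha, Finset.sum_insert ha]
      intro h1
      have h2 := left_ne_zero_of_mul h1
      have h3 := right_ne_zero_of_mul h1
      rw [h.mul h2 h3, add_mul]
      refine add_le_add ?_ (ih h3)
      by_cases h4 : γ a = 0
      · rw [h4, pow_zero, gh_one h]
        simp
      · have h5 : S.V a ≠ 0 := fun h6 => h2 (by rw [h6, zero_pow h4])
        rw [gh_pow h h5]
        exact mul_le_mul_of_nonneg_left (hl a h5) (Int.natCast_nonneg _)
  exact key Finset.univ h0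

private theorem gh_mon_single (S : Dat K ι σ n m q) (l : Fin (m + 1)) (N : ℕ) : S.mon (Finsupp.single l N) = S.V l ^ N := by
  unfold Dat.mon
  rw [Finset.prod_eq_single l]
  · rw [Finsupp.single_eq_same]
  · intro b _ hb
    rw [Finsupp.single_apply, if_neg (fun h => hb h.symm), pow_zero]
  · intro h
    exact absurd (Finset.mem_univ l) h

private theorem gh_sup {α : Type} [Finite α] (μ : α → ℤ) : ∃ N : ℤ, 0 ≤ N ∧ ∀ a, μ a ≤ N := by
  classical
  have : Fintype α := Fintype.ofFinite α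
  refine ⟨∑ a, |μ a|, Finset.sum_nonneg fun a _ => abs_nonneg _, fun a => ?_⟩
  exact (le_abs_self _).trans (Finset.single_le_sum (f := fun a => |μ a|) (fun a _ => abs_nonneg _) (Finset.mem_univ a))

theorem exists_H [Fintype ι] [Fintype σ] {S : Dat K ι σ n m q} (hS : S.Base d) : ∃ H : Finset K, (∀ h ∈ H, h ≠ 0 ∧ S.AL h) ∧ ∀ (v : K → ℤ), IV K v → ∀ c l z, CH S d v c l z → ∀ I' : Finset (Fin q), I'.card = m + 1 →
    ∃ i ∈ I', ∃ h ∈ H, v (S.F i) - v (S.Y i (z i)) - d * v (S.V l) ≤ v h := by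
  classical
  have hgp : ∀ I' : {I : Finset (Fin q) // I.card = m + 1}, S.GP d I'.1 := fun I' => hS.gp I'.1 I'.2
  choose N hN using hgp
  have hC : ∀ (I' : {I : Finset (Fin q) // I.card = m + 1}) (l : Fin (m + 1)), ∃ C : Fin q → MvPolynomial (Fin (m + 1)) K,
      (∀ i, (C i).IsHomogeneous (N I')) ∧ (∀ i γ, S.AL ((C i).coeff γ)) ∧
        S.V l ^ (N I' + d) = ∑ i ∈ I'.1, eval S.V (C i) * S.F i := by
    intro I' l
    obtain ⟨C, h1, h2, h3⟩ := hN I' (Finsupp.single l (N I' + d)) (by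
      simp only [Finsupp.single_apply, Finset.sum_ite_eq, Finset.mem_univ, if_true])
    refine ⟨C, h1, h2, ?_⟩
    rw [← h3, gh_mon_single]
  choose C hC1 hC2 hC3 using hC
  refine ⟨(Finset.univ : Finset ({I : Finset (Fin q) // I.card = m + 1} × Fin (m + 1) × Fin q × σ)).biUnion (fun a =>
    ((C a.1 a.2.1 a.2.2.1).support.image (fun γ => ((C a.1 a.2.1 a.2.2.1).coeff γ * S.Y a.2.2.1 a.2.2.2)⁻¹)).filter
      (fun x => x ≠ 0)), ?_, ?_⟩
  · intro h hh
    simp only [Finset.mem_biUnion, Finset.mem_filter, Finset.mem_image, Finset.mem_univ, true_and] at hh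
    obtain ⟨a, ⟨γ, hγ, rfl⟩, h0⟩ := hh
    refine ⟨h0, ?_⟩
    unfold Dat.AL
    exact IsAlgebraic.inv (IsAlgebraic.mul (hC2 _ _ _ _) (hS.Y_alg _ _))
  · intro v hv c l z hc I' hI'
    have h1 := hC3 ⟨I', hI'⟩ l
    have h2 : ∑ i ∈ I', eval S.V (C ⟨I', hI'⟩ l i) * S.F i ≠ 0 := by
      intro h0
      rw [h0] at h1
      exact pow_ne_zero _ hc.Vne h1
    obtain ⟨i, hi, h3, h4⟩ := gh_sum hv I' _ h2
    have h4' : v (eval S.V (C ⟨I', hI'⟩ l i) * S.F i) ≤ ((N ⟨I', hI'⟩ + d : ℕ) : ℤ) * v (S.V l) := by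
      rw [← gh_pow hv hc.Vne, h1]
      exact h4
    have h5 : eval S.V (C ⟨I', hI'⟩ l i) ≠ 0 := left_ne_zero_of_mul h3
    rw [hv.mul h5 (hS.F_ne i)] at h4'
    have h5' := h5
    rw [eval_eq'] at h5'
    obtain ⟨γ, hγ, h7, h8⟩ := gh_sum hv _ _ h5'
    rw [← eval_eq'] at h8
    have h9 := left_ne_zero_of_mul h7
    have h10 := right_ne_zero_of_mul h7
    rw [hv.mul h9 h10] at h8
    have h11 := gh_mon hv hc.Vle h10
    have h12 : ∑ l', γ l' = N ⟨I', hI'⟩ := by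
      have h13 := hC1 ⟨I', hI'⟩ l i (mem_support_iff.1 hγ)
      have h14 : Finsupp.weight (1 : Fin (m + 1) → ℕ) γ = ∑ l, γ l := by
        rw [Finsupp.weight_apply, Finsupp.sum_fintype _ _ (fun i => by simp)]
        simp
      rw [h14] at h13
      exact h13
    have h15 : (∑ l', (γ l' : ℤ)) = (N ⟨I', hI'⟩ : ℤ) := by
      rw [← h12]
      push_cast
      rfl
    rw [h15] at h11
    refine ⟨i, hi, ((C ⟨I', hI'⟩ l i).coeff γ * S.Y i (z i))⁻¹, ?_, ?_⟩
    · simp only [Finset.mem_biUnion, Finset.mem_filter, Finset.mem_image, Finset.mem_univ, true_and]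
      exact ⟨⟨⟨I', hI'⟩, l, i, z i⟩, ⟨γ, hγ, rfl⟩, inv_ne_zero (mul_ne_zero h9 (hc.Yne i))⟩
    · rw [gh_inv hv (mul_ne_zero h9 (hc.Yne i)), hv.mul h9 (hc.Yne i)]
      push_cast at h4'
      rw [add_mul] at h4'
      linarith

private theorem gh_X (S : Dat K ι σ n m q) (b c : ι) : S.AL (S.X b / S.X c) := by
  have h1 : ∀ b : ι, IsAlgebraic (IntermediateField.adjoin ℂ (Set.range S.X)) (S.X b) := fun b =>
    isAlgebraic_algebraMap (⟨S.X b, IntermediateField.subset_adjoin _ _ ⟨b, rfl⟩⟩ : IntermediateField.adjoin ℂ (Set.range S.X))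
  unfold Dat.AL
  rw [div_eq_mul_inv]
  exact (h1 b).mul (h1 c).inv

private theorem gh_x_ne {x : Fin p → K} {r : Fin f → K} (h : Ps x r ≠ 0) (t : Fin p) : x t ≠ 0 := by
  intro h0
  have h1 := (algInd_of_ps h).ne_zero (Fin.castAdd f t)
  apply h1
  rw [Fin.append_left, h0]

private theorem gh_x_nonneg [Fintype ι] {S : Dat K ι σ n m q} {v : K → ℤ} (h : IV K v) {c : ι} {l : Fin (m + 1)}
    {z : Fin q → σ} (hc : CH S d v c l z) {b : ι} (hb : S.X b / S.X c ≠ 0) : 0 ≤ v (S.X b / S.X c) := by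
  have hb0 : S.X b ≠ 0 := fun h0 => hb (by rw [h0, zero_div])
  rw [gh_div h hb0 hc.Xne]
  have h2 := hc.Xle b hb0
  omega

/-- the functions of the base are bounded by every form -/
theorem base_bound [Algebra.EssFiniteType ℂ K] [Fintype ι] [Fintype σ] {z₀ : Fin (p + f) → K} (hz : IsTranscendenceBasis ℂ z₀) {S : Dat K ι σ n m q} (hS : S.Base d) {J : Fin p → Fin n} (hJ : S.Bas J) {H : Finset K} (hH : ∀ h ∈ H, h ≠ 0 ∧ S.AL h) :
    ∃ N : ℤ, 0 ≤ N ∧ ∀ (v : K → ℤ) (o : RatForm K (p + f) → ℤ), FV (p + f) v o → ∀ c l z, CH S d v c l z → ∀ (i₀ : Fin q) (I : Fin f → Fin q), S.W J i₀ I ≠ 0 → ∀ h ∈ H, v h ≤ N * (o (S.W J i₀ I) + 1) := by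
  classical
  have key : ∀ a : ι × (Fin q → σ) × Fin q × (Fin f → Fin q) × (Fin p → ι) × H, ∃ μ : ℤ,
      Ps (fun t => S.X (a.2.2.2.2.1 t) / S.X a.1) (S.rh a.2.1 a.2.2.1 a.2.2.2.1) ≠ 0 →
      ∀ (v : K → ℤ) (o : RatForm K (p + f) → ℤ), FV (p + f) v o → (∀ t, 0 ≤ v (S.X (a.2.2.2.2.1 t) / S.X a.1)) →
        v a.2.2.2.2.2 ≤ μ * (o (Ps (fun t => S.X (a.2.2.2.2.1 t) / S.X a.1) (S.rh a.2.1 a.2.2.1 a.2.2.2.1)) + 1) := by
    rintro ⟨c, z, i₀, I, B, h⟩
    by_cases hne : Ps (fun t => S.X (B t) / S.X c) (S.rh z i₀ I) ≠ 0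
    · obtain ⟨μ, -, hμ⟩ := exists_mu_base hne (hH h.1 h.2).1
        (alg_x hz hS hJ (fun t => gh_X S (B t) c) hne (hH h.1 h.2).2)
      exact ⟨μ, fun _ => hμ⟩
    · exact ⟨0, fun h0 => absurd h0 hne⟩
  choose μ hμ using key
  obtain ⟨N, hN0, hN⟩ := gh_sup μ
  refine ⟨N, hN0, ?_⟩
  intro v o hv c l z hc i₀ I hW h hh
  obtain ⟨B, hB1, hB2⟩ := exists_B hS hJ hv hc hW
  have hx : ∀ t, 0 ≤ v (S.X (B t) / S.X c) := fun t => gh_x_nonneg hv.toIV hc (gh_x_ne hB1 t)
  have h1 := hμ ⟨c, z, i₀, I, B, ⟨h, hh⟩⟩ hB1 v o hv hx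
  have h2 := A_nonneg hB1 hv hx
  refine h1.trans ?_
  refine (mul_le_mul_of_nonneg_right (hN _) h2).trans ?_
  exact mul_le_mul_of_nonneg_left (by omega) hN0

theorem form_bound [Algebra.EssFiniteType ℂ K] [Fintype ι] [Fintype σ] {z₀ : Fin (p + f) → K} (hz : IsTranscendenceBasis ℂ z₀) {S : Dat K ι σ n m q} (hS : S.Base d) {J : Fin p → Fin n} (hJ : S.Bas J) {H : Finset K} (hH : ∀ h ∈ H, h ≠ 0 ∧ S.AL h) :
    ∃ N : ℤ, 0 ≤ N ∧ ∀ (v : K → ℤ) (o : RatForm K (p + f) → ℤ), FV (p + f) v o → ∀ c l z, CH S d v c l z → ∀ (i₀ : Fin q) (I : Fin f → Fin q), S.W J i₀ I ≠ 0 →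
      (∃ h ∈ H, v (S.F i₀) - v (S.Y i₀ (z i₀)) - d * v (S.V l) ≤ v h) → (∀ t, ∃ h ∈ H, v (S.F (I t)) - v (S.Y (I t) (z (I t))) - d * v (S.V l) ≤ v h) →
        ∀ j, v (S.F j) - v (S.Y j (z j)) - d * v (S.V l) ≤ N * (o (S.W J i₀ I) + 1) := by
  classical
  obtain ⟨N₁, hN₁0, hN₁⟩ := base_bound hz hS hJ hH
  have key : ∀ a : ι × Fin (m + 1) × (Fin q → σ) × Fin q × (Fin f → Fin q) × (Fin p → ι) × Fin q, ∃ μ : ℤ,
      Ps (fun t => S.X (a.2.2.2.2.2.1 t) / S.X a.1) (S.rh a.2.2.1 a.2.2.2.1 a.2.2.2.2.1) ≠ 0 →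
      S.F a.2.2.2.2.2.2 / (S.Y a.2.2.2.2.2.2 (a.2.2.1 a.2.2.2.2.2.2) * S.V a.2.1 ^ d) ≠ 0 →
      ∀ (v : K → ℤ) (o : RatForm K (p + f) → ℤ) (G : ℤ), FV (p + f) v o →
        (∀ t, 0 ≤ v (S.X (a.2.2.2.2.2.1 t) / S.X a.1)) → 0 ≤ G →
        (∀ t, |v (S.rh a.2.2.1 a.2.2.2.1 a.2.2.2.2.1 t)| ≤ G) →
        v (S.F a.2.2.2.2.2.2 / (S.Y a.2.2.2.2.2.2 (a.2.2.1 a.2.2.2.2.2.2) * S.V a.2.1 ^ d)) ≤
          μ * (o (Ps (fun t => S.X (a.2.2.2.2.2.1 t) / S.X a.1) (S.rh a.2.2.1 a.2.2.2.1 a.2.2.2.2.1)) + 1 + G) := by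
    rintro ⟨c, l, z, i₀, I, B, j⟩
    by_cases hne : Ps (fun t => S.X (B t) / S.X c) (S.rh z i₀ I) ≠ 0
    · by_cases hφ : S.F j / (S.Y j (z j) * S.V l ^ d) ≠ 0
      · obtain ⟨μ, -, hμ⟩ := exists_mu hz hne hφ
        exact ⟨μ, fun _ _ => hμ⟩
      · exact ⟨0, fun _ h0 => absurd h0 hφ⟩
    · exact ⟨0, fun h0 => absurd h0 hne⟩
  choose μ hμ using key
  obtain ⟨N, hN0, hN⟩ := gh_sup μ
  refine ⟨N * (1 + N₁), by positivity, ?_⟩
  intro v o hv c l z hc i₀ I hW h₀ h₁ j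
  have hbb := hN₁ v o hv c l z hc i₀ I hW
  obtain ⟨B, hB1, hB2⟩ := exists_B hS hJ hv hc hW
  have hx : ∀ t, 0 ≤ v (S.X (B t) / S.X c) := fun t => gh_x_nonneg hv.toIV hc (gh_x_ne hB1 t)
  have hA := A_nonneg hB1 hv hx
  have hW0 : 0 ≤ o (S.W J i₀ I) + 1 := by omega
  have hG0 : 0 ≤ N₁ * (o (S.W J i₀ I) + 1) := mul_nonneg hN₁0 hW0
  have hφ : S.F j / (S.Y j (z j) * S.V l ^ d) ≠ 0 :=
    div_ne_zero (hS.F_ne j) (mul_ne_zero (hc.Yne j) (pow_ne_zero _ hc.Vne))
  have hr : ∀ t, |v (S.rh z i₀ I t)| ≤ N₁ * (o (S.W J i₀ I) + 1) := by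
    intro t
    have hv1 : v (S.rh z i₀ I t) = (v (S.F (I t)) - v (S.Y (I t) (z (I t)))) - (v (S.F i₀) - v (S.Y i₀ (z i₀))) := by
      unfold Dat.rh
      rw [hv.mul (div_ne_zero (hS.F_ne _) (hS.F_ne _)) (div_ne_zero (hc.Yne _) (hc.Yne _)),
        gh_div hv.toIV (hS.F_ne _) (hS.F_ne _), gh_div hv.toIV (hc.Yne _) (hc.Yne _)]
      ring
    obtain ⟨x₀, hx₀, hx₀'⟩ := h₀
    obtain ⟨x₁, hx₁, hx₁'⟩ := h₁ t
    have h2 := hbb x₀ hx₀
    have h3 := hbb x₁ hx₁
    have h4 := hc.Fle i₀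
    have h5 := hc.Fle (I t)
    rw [hv1, abs_le]
    constructor <;> linarith
  have h6 := hμ ⟨c, l, z, i₀, I, B, j⟩ hB1 hφ v o _ hv hx hG0 hr
  have h7 : v (S.F j / (S.Y j (z j) * S.V l ^ d)) = v (S.F j) - v (S.Y j (z j)) - d * v (S.V l) := by
    rw [gh_div hv.toIV (hS.F_ne j) (mul_ne_zero (hc.Yne j) (pow_ne_zero _ hc.Vne)),
      hv.mul (hc.Yne j) (pow_ne_zero _ hc.Vne), gh_pow hv.toIV hc.Vne]
    ring
  have h6' : v (S.F j) - v (S.Y j (z j)) - d * v (S.V l) ≤ μ ⟨c, l, z, i₀, I, B, j⟩ *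
      (o (Ps (fun t => S.X (B t) / S.X c) (S.rh z i₀ I)) + 1 + N₁ * (o (S.W J i₀ I) + 1)) := by
    rw [← h7]
    exact h6
  refine h6'.trans ?_
  refine (mul_le_mul_of_nonneg_right (hN _) (add_nonneg hA hG0)).trans ?_
  rw [mul_assoc]
  refine mul_le_mul_of_nonneg_left ?_ hN0
  rw [add_mul, one_mul]
  omega

end Pool.Agent.LH

end
end
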