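import Pool.Agent.H94.PX4.M04
import Pool.Agent.H94.PX4.M06
import Pool.Agent.H94.PX4.M09
import Pool.Agent.H94.PX4.M37
import Pool.Agent.H94.PX4.M38

/-! The parts of this file: G4.K.E1, G4.RE.Alg, H13.CV.HomA, H17.Modulus, G4.RE.Riem, H13.CV.Lgt, H62.Qe.Ext, H62.FC.Extend, PX.S.Defs. -/

section

/-!
# G4 K E1: in one variable a local complete intersection of codimension `2` is empty

`Vd 1 = Fin 1 → ℂ`.  The zeros of `σ` near `y` are isolated (`∃ᶠ z, σ z ≠ 0`), so near `y` the only zero is `y`, and `∃ᶠ z' in 𝓝 y, σ z' = 0 ∧ ρ z' ≠ 0` gives `ρ y ≠ 0`.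
-/

set_option autoImplicit false

open Topology Filter Metric

namespace Pool.Agent.G4.K

open Pool.Agent.AD (Vd)

private theorem fin_one (i : Fin (0 + 1)) : i = 0 := by
  omega

private theorem isolated_zero {y : Vd (0 + 1)} {σ : Vd (0 + 1) → ℂ} (hσ : AnalyticAt ℂ σ y) (hne : ∃ᶠ z in 𝓝 y, σ z ≠ 0) : ∀ᶠ z in 𝓝 y, σ z = 0 → z = y := by
  let L : ℂ →L[ℂ] Vd (0 + 1) := ContinuousLinearMap.pi (fun _ => ContinuousLinearMap.id ℂ ℂ)
  have hL : ∀ w, L w = fun _ => w := fun w => rfl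
  have hLy : L (y 0) = y := by
    funext i
    rw [hL, fin_one i]
  have hLz : ∀ z : Vd (0 + 1), L (z 0) = z := by
    intro z
    funext i
    rw [hL, fin_one i]
  have hc : Continuous (fun z : Vd (0 + 1) => z 0) := continuous_apply 0
  have ht : Tendsto (fun z : Vd (0 + 1) => z 0) (𝓝 y) (𝓝 (y 0)) := hc.tendsto y
  have han : AnalyticAt ℂ (fun w : ℂ => σ (L w)) (y 0) := by
    have h1 : AnalyticAt ℂ σ (L (y 0)) := by rw [hLy]; exact hσ
    exact h1.comp (L.analyticAt (y 0))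
  rcases han.eventually_eq_zero_or_eventually_ne_zero with h0 | h0
  · exfalso
    apply hne
    filter_upwards [ht.eventually h0] with z hz
    rw [hLz] at hz
    exact not_not.mpr hz
  · rw [eventually_nhdsWithin_iff] at h0
    filter_upwards [ht.eventually h0] with z hz hz0
    by_contra hzy
    apply hz
    · intro hz1
      apply hzy
      rw [← hLz z, ← hLz y]
      rw [Set.mem_singleton_iff] at hz1
      rw [hz1]
    · rw [hLz]
      exact hz0

theorem ci_one {Z : Set (Vd (0 + 1))} (h : CI Z) : Z = ∅ := by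
  rw [Set.eq_empty_iff_forall_notMem]
  intro y hy
  obtain ⟨σ, ρ, hσ, -, hne, hZ, hfr⟩ := h y hy
  have h1 : σ y = 0 ∧ ρ y = 0 := hZ.self_of_nhds.mp hy
  have h2 := hfr.self_of_nhds h1.1
  have h3 := isolated_zero hσ hne
  obtain ⟨z, hz, hz'⟩ := (h2.and_eventually h3).exists
  have h4 : z = y := hz' hz.1
  rw [h4] at hz
  exact hz.2 h1.2

end Pool.Agent.G4.K

end

section

/-!
# G4 RE Alg: the different roots

If `b` is not injective on `S` then `dd b S = 0`.  If `b` has `q` values and is injective on `S`, `S.card = q`, then `S.image b = univ.image b`, so `dd b S = ∏ p ∈ (univ.image b).offDiag, (p.1 - p.2)` and `∏ i ∈ S, (t - b i) = ∏ v ∈ univ.image b, (t - v)`;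
there is such an `S`.  If `b` has fewer than `q` values, `b` is not injective on `S`.
-/

set_option autoImplicit false

namespace Pool.Agent.G4.RE

variable {n q : ℕ} {b : Fin n → ℂ}

/-- not injective: the product of the differences is `0` -/
private theorem dd_zero {S : Finset (Fin n)} (h : ¬ Set.InjOn b S) : dd b S = 0 := by
  unfold Set.InjOn at h
  push Not at h
  obtain ⟨i, hi, j, hj, hij, hne⟩ := h
  exact Finset.prod_eq_zero (i := (i, j)) (Finset.mem_offDiag.2 ⟨hi, hj, hne⟩) (sub_eq_zero.2 hij)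

private theorem img_eq {S : Finset (Fin n)} (hS : S.card = q) (h : (Finset.univ.image b).card = q) (hi : Set.InjOn b S) : S.image b = Finset.univ.image b := by
  refine Finset.eq_of_subset_of_card_le (Finset.image_subset_image (Finset.subset_univ S)) ?_
  rw [Finset.card_image_of_injOn hi, hS, h]

private theorem dd_eq {S : Finset (Fin n)} (hS : S.card = q) (h : (Finset.univ.image b).card = q) (hi : Set.InjOn b S) :
    dd b S = ∏ p ∈ (Finset.univ.image b).offDiag, (p.1 - p.2) := by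
  rw [← img_eq hS h hi]
  unfold dd
  refine Finset.prod_nbij (fun p => (b p.1, b p.2)) ?_ ?_ ?_ fun _ _ => rfl
  · rintro ⟨i, j⟩ hp
    rw [Finset.mem_offDiag] at hp ⊢
    exact ⟨Finset.mem_image_of_mem b hp.1, Finset.mem_image_of_mem b hp.2.1, fun e => hp.2.2 (hi hp.1 hp.2.1 e)⟩
  · rintro ⟨i, j⟩ hp ⟨i', j'⟩ hp' e
    rw [Finset.mem_coe, Finset.mem_offDiag] at hp hp'
    simp only [Prod.mk.injEq] at e ⊢
    exact ⟨hi hp.1 hp'.1 e.1, hi hp.2.1 hp'.2.1 e.2⟩
  · rintro ⟨v, w⟩ hp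
    rw [Finset.mem_coe, Finset.mem_offDiag] at hp
    obtain ⟨h1, h2, h3⟩ := hp
    obtain ⟨i, hi', e1⟩ := Finset.mem_image.1 h1
    obtain ⟨j, hj', e2⟩ := Finset.mem_image.1 h2
    refine ⟨(i, j), ?_, by simp only [e1, e2]⟩
    rw [Finset.mem_coe, Finset.mem_offDiag]
    refine ⟨hi', hj', fun e => h3 ?_⟩
    rw [← e1, ← e2, show i = j from e]

private theorem exists_inj (h : (Finset.univ.image b).card = q) : ∃ S : Finset (Fin n), S.card = q ∧ Set.InjOn b S := by
  classical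
  have h1 : ∀ v ∈ Finset.univ.image b, ∃ i, b i = v := fun v hv => by
    obtain ⟨i, _, e⟩ := Finset.mem_image.1 hv
    exact ⟨i, e⟩
  rcases isEmpty_or_nonempty (Fin n) with hn | hn
  · refine ⟨∅, ?_, fun i hi => absurd hi (by simp)⟩
    rw [← h, Finset.univ_eq_empty, Finset.image_empty, Finset.card_empty, Finset.card_empty]
  · choose! g hg using h1
    refine ⟨(Finset.univ.image b).image g, ?_, ?_⟩
    · rw [Finset.card_image_of_injOn, h]
      intro v hv w hw e
      rw [← hg v hv, ← hg w hw, e]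
    · intro i hi j hj e
      rw [Finset.mem_coe] at hi hj
      obtain ⟨v, hv, rfl⟩ := Finset.mem_image.1 hi
      obtain ⟨w, hw, rfl⟩ := Finset.mem_image.1 hj
      rw [hg v hv, hg w hw] at e
      rw [e]

theorem sc_ne (h : (Finset.univ.image b).card = q) : sc q b ≠ 0 := by
  classical
  obtain ⟨S₀, h1, h2⟩ := exists_inj h
  have h3 : sc q b = ((Finset.powersetCard q Finset.univ).filter fun S : Finset (Fin n) => Set.InjOn b S).card • ∏ p ∈ (Finset.univ.image b).offDiag, (p.1 - p.2) := by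
    unfold sc
    rw [← Finset.sum_filter_of_ne (p := fun S : Finset (Fin n) => Set.InjOn b S) fun S _ hS => by
      by_contra h4
      exact hS (dd_zero h4)]
    refine Finset.sum_eq_card_nsmul fun S hS => ?_
    rw [Finset.mem_filter, Finset.mem_powersetCard] at hS
    exact dd_eq hS.1.2 h hS.2
  rw [h3]
  refine smul_ne_zero ?_ ?_
  · refine (Finset.card_pos.2 ⟨S₀, ?_⟩).ne'
    rw [Finset.mem_filter, Finset.mem_powersetCard]
    exact ⟨⟨Finset.subset_univ _, h1⟩, h2⟩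
  · refine Finset.prod_ne_zero_iff.2 fun p hp => ?_
    exact sub_ne_zero.2 (Finset.mem_offDiag.1 hp).2.2

theorem sd_eq (h : (Finset.univ.image b).card = q) (t : ℂ) : sd q b t = sc q b * ∏ v ∈ Finset.univ.image b, (t - v) := by
  unfold sd sc
  rw [Finset.sum_mul]
  refine Finset.sum_congr rfl fun S hS => ?_
  by_cases hi : Set.InjOn b S
  · rw [← img_eq (Finset.mem_powersetCard.1 hS).2 h hi, Finset.prod_image hi]
  · rw [dd_zero hi, zero_mul, zero_mul]

private theorem not_inj {S : Finset (Fin n)} (hS : S.card = q) (h : (Finset.univ.image b).card < q) : ¬ Set.InjOn b S := by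
  intro hi
  have h1 := Finset.card_le_card (Finset.image_subset_image (f := b) (Finset.subset_univ S))
  rw [Finset.card_image_of_injOn hi, hS] at h1
  omega

theorem sc_zero (h : (Finset.univ.image b).card < q) : sc q b = 0 :=
  Finset.sum_eq_zero fun _ hS => dd_zero (not_inj (Finset.mem_powersetCard.1 hS).2 h)

theorem sd_zero (h : (Finset.univ.image b).card < q) (t : ℂ) : sd q b t = 0 :=
  Finset.sum_eq_zero fun S hS => by rw [dd_zero (not_inj (Finset.mem_powersetCard.1 hS).2 h), zero_mul]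

/-- bounds for the product of the different roots -/
theorem img_le {r : ℝ} (hr : 0 < r) (hb : ∀ i, ‖b i‖ ≤ r) (h : (Finset.univ.image b).card = q) (t : ℂ) :
    ‖∏ v ∈ Finset.univ.image b, (t - v)‖ ≤ (‖t‖ + r) ^ q ∧ ‖∏ i, (t - b i)‖ ≤ (1 + ‖t‖ + r) ^ (n * n) * ‖∏ v ∈ Finset.univ.image b, (t - v)‖ ∧
      ‖∏ v ∈ Finset.univ.image b, (t - v)‖ ^ n ≤ (1 + ‖t‖ + r) ^ (n * n) * ‖∏ i, (t - b i)‖ := by
  classical
  have ht : 0 ≤ ‖t‖ := norm_nonneg t
  have hA : ∀ v ∈ Finset.univ.image b, ‖t - v‖ ≤ ‖t‖ + r := fun v hv => by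
    obtain ⟨i, _, rfl⟩ := Finset.mem_image.1 hv
    exact (norm_sub_le _ _).trans (by linarith [hb i])
  have hB1 : 1 ≤ 1 + ‖t‖ + r := by linarith
  have hA' : ∀ v ∈ Finset.univ.image b, ‖t - v‖ ≤ 1 + ‖t‖ + r := fun v hv => (hA v hv).trans (by linarith)
  have hq : q ≤ n := by
    have := Finset.card_image_le (s := (Finset.univ : Finset (Fin n))) (f := b)
    rw [h, Finset.card_univ, Fintype.card_fin] at this
    exact this
  set m : ℂ → ℕ := fun v => (Finset.univ.filter fun i => b i = v).card with hm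
  have hm1 : ∀ v ∈ Finset.univ.image b, 1 ≤ m v := fun v hv => by
    obtain ⟨i, _, e⟩ := Finset.mem_image.1 hv
    exact Finset.card_pos.2 ⟨i, Finset.mem_filter.2 ⟨Finset.mem_univ i, e⟩⟩
  have hm2 : ∀ v, m v ≤ n := fun v => by
    have := Finset.card_le_univ (Finset.univ.filter fun i => b i = v)
    rwa [Fintype.card_fin] at this
  have hP : ∏ i, (t - b i) = ∏ v ∈ Finset.univ.image b, (t - v) ^ m v := Finset.prod_comp (fun v : ℂ => t - v) b
  have hpw : ∀ k l : ℕ, k ≤ l → (1 + ‖t‖ + r) ^ k ≤ (1 + ‖t‖ + r) ^ l := fun k l hkl => pow_le_pow_right₀ hB1 hkl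
  have hBq : ∏ _v ∈ Finset.univ.image b, (1 + ‖t‖ + r) ^ n ≤ (1 + ‖t‖ + r) ^ (n * n) := by
    rw [Finset.prod_const, h, ← pow_mul]
    exact hpw _ _ (Nat.mul_le_mul le_rfl hq)
  refine ⟨?_, ?_, ?_⟩
  · rw [norm_prod, ← h, ← Finset.prod_const]
    exact Finset.prod_le_prod (fun v _ => norm_nonneg _) hA
  · rw [hP, norm_prod, norm_prod]
    calc ∏ v ∈ Finset.univ.image b, ‖(t - v) ^ m v‖ ≤ ∏ v ∈ Finset.univ.image b, ((1 + ‖t‖ + r) ^ n * ‖t - v‖) := by
          refine Finset.prod_le_prod (fun v _ => norm_nonneg _) fun v hv => ?_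
          obtain ⟨k, hk⟩ := Nat.exists_eq_add_of_le' (hm1 v hv)
          rw [norm_pow, hk, pow_succ]
          refine mul_le_mul_of_nonneg_right ?_ (norm_nonneg _)
          exact (pow_le_pow_left₀ (norm_nonneg _) (hA' v hv) k).trans (hpw _ _ (by have := hm2 v; omega))
      _ = (∏ _v ∈ Finset.univ.image b, (1 + ‖t‖ + r) ^ n) * ∏ v ∈ Finset.univ.image b, ‖t - v‖ := Finset.prod_mul_distrib
      _ ≤ _ := mul_le_mul_of_nonneg_right hBq (Finset.prod_nonneg fun v _ => norm_nonneg _)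
  · rw [hP, norm_prod, norm_prod, ← Finset.prod_pow]
    calc ∏ v ∈ Finset.univ.image b, ‖t - v‖ ^ n ≤ ∏ v ∈ Finset.univ.image b, ((1 + ‖t‖ + r) ^ n * ‖(t - v) ^ m v‖) := by
          refine Finset.prod_le_prod (fun v _ => pow_nonneg (norm_nonneg _) _) fun v hv => ?_
          rw [norm_pow]
          have h1 : ‖t - v‖ ^ n = ‖t - v‖ ^ (n - m v) * ‖t - v‖ ^ m v := by
            rw [← pow_add, Nat.sub_add_cancel (hm2 v)]
          rw [h1]
          refine mul_le_mul_of_nonneg_right ?_ (pow_nonneg (norm_nonneg _) _)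
          exact (pow_le_pow_left₀ (norm_nonneg _) (hA' v hv) _).trans (hpw _ _ (Nat.sub_le _ _))
      _ = (∏ _v ∈ Finset.univ.image b, (1 + ‖t‖ + r) ^ n) * ∏ v ∈ Finset.univ.image b, ‖(t - v) ^ m v‖ := Finset.prod_mul_distrib
      _ ≤ _ := mul_le_mul_of_nonneg_right hBq (Finset.prod_nonneg fun v _ => norm_nonneg _)

end Pool.Agent.G4.RE

end

section

/-!
# CV HomA: the holomorphic map given by entire functions

For `z₀ : ℂ` let `k` be the least order of the `a i` at `z₀` (finite, as some `a j ≠ 0`: `order_ne_top`), `a i = coord z₀ ^ k * c i` with entire `c i` (`exists_coord_mul`, induction on `k`), not all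
`c i (z₀) = 0`.  `f z₀` is the point `(c i (z₀))_i`.  Near `z₀`, for `z ≠ z₀`, `(a i (z))_i = (z - z₀) ^ k (c i (z))_i ≠ 0`, and the representation at `z` (`k' , c'`) has `a i (z) = 0` for all `i` unless `k' = 0`; so
`k' = 0`, `c' = a` and `f z = [a i (z)] = [c i (z)]`.  So `f` is holomorphic at `z₀` with lift `z ↦ (c i (z))_i`.
-/

set_option autoImplicit false

open Topology Filter
open Pool.Agent.H17 Pool.Agent.H17.EntFun

noncomputable section

namespace Pool.Agent.H13.CV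

private lemma exists_decomp {N : ℕ} (z₀ : ℂ) : ∀ (n : ℕ) (a : Fin (N + 1) → EntFun) (j : Fin (N + 1)), a j ≠ 0 →
    analyticOrderAt (a j : ℂ → ℂ) z₀ = n →
    ∃ (k : ℕ) (c : Fin (N + 1) → EntFun), (fun i => (c i : ℂ → ℂ) z₀) ≠ 0 ∧ ∀ i, a i = coord z₀ ^ k * c i := by
  intro n
  induction n using Nat.strong_induction_on with
  | _ n ih =>
    intro a j hj hn
    by_cases h : (fun i => (a i : ℂ → ℂ) z₀) = 0
    · have h1 : ∀ i, ∃ g : EntFun, a i = coord z₀ * g := fun i => exists_coord_mul (congrFun h i)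
      choose g hg using h1
      have hgj : g j ≠ 0 := by
        intro h2
        apply hj
        rw [hg j, h2, mul_zero]
      obtain ⟨n', hn'⟩ : ∃ n' : ℕ, analyticOrderAt (g j : ℂ → ℂ) z₀ = n' :=
        ⟨_, (Nat.cast_analyticOrderNatAt (order_ne_top hgj z₀)).symm⟩
      have hlt : n' < n := by
        rw [hg j, order_mul, order_coord, hn'] at hn
        have : 1 + n' = n := by exact_mod_cast hn
        omega
      obtain ⟨k, c, hc, he⟩ := ih n' hlt g j hgj hn'
      refine ⟨k + 1, c, hc, fun i => ?_⟩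
      rw [hg i, he i, pow_succ', mul_assoc]
    · exact ⟨0, a, h, fun i => by rw [pow_zero, one_mul]⟩

theorem exists_map {N : ℕ} (a : Fin (N + 1) → EntFun) (ha : ∃ i, a i ≠ 0) :
    ∃ f : ℂ → PN N, HolomorphicInto f Set.univ ∧ ∀ z₀ : ℂ, ∃ (k : ℕ) (c : Fin (N + 1) → EntFun) (h : (fun i => (c i : ℂ → ℂ) z₀) ≠ 0),
      (∀ i, a i = coord z₀ ^ k * c i) ∧ f z₀ = Projectivization.mk ℂ _ h := by
  obtain ⟨j, hj⟩ := ha
  have key : ∀ z₀ : ℂ, ∃ (k : ℕ) (c : Fin (N + 1) → EntFun), (fun i => (c i : ℂ → ℂ) z₀) ≠ 0 ∧ ∀ i, a i = coord z₀ ^ k * c i :=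
    fun z₀ => exists_decomp z₀ _ a j hj (Nat.cast_analyticOrderNatAt (order_ne_top hj z₀)).symm
  choose k c hc he using key
  refine ⟨fun z => Projectivization.mk ℂ (fun i => (c z i : ℂ → ℂ) z) (hc z), ?_,
    fun z₀ => ⟨k z₀, c z₀, hc z₀, he z₀, rfl⟩⟩
  intro z₀ _
  refine ⟨fun z i => (c z₀ i : ℂ → ℂ) z, ?_, ?_⟩
  · exact analyticAt_pi_iff.mpr fun i => (c z₀ i).analyticAt z₀
  · obtain ⟨i₀, hi₀⟩ : ∃ i₀, (c z₀ i₀ : ℂ → ℂ) z₀ ≠ 0 := by
      by_contra h
      push Not at h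
      exact hc z₀ (funext h)
    have hev : ∀ᶠ z in 𝓝 z₀, (c z₀ i₀ : ℂ → ℂ) z ≠ 0 :=
      ((c z₀ i₀).diff z₀).continuousAt.eventually_ne hi₀
    filter_upwards [hev] with z hz
    have h : (fun i => (c z₀ i : ℂ → ℂ) z) ≠ 0 := fun h1 => hz (congrFun h1 i₀)
    refine ⟨h, ?_⟩
    by_cases hzz : z = z₀
    · subst hzz
      rfl
    · have hsub : z - z₀ ≠ 0 := sub_ne_zero.2 hzz
      have h1 : ∀ i, (a i : ℂ → ℂ) z = (z - z₀) ^ k z₀ * (c z₀ i : ℂ → ℂ) z := by
        intro i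
        have h2 := congrArg (fun g : EntFun => ev z g) (he z₀ i)
        simpa using h2
      have h3 : ∀ i, (a i : ℂ → ℂ) z = (z - z) ^ k z * (c z i : ℂ → ℂ) z := by
        intro i
        have h2 := congrArg (fun g : EntFun => ev z g) (he z i)
        simpa using h2
      have hk : k z = 0 := by
        by_contra hk
        have h4 := h3 i₀
        rw [sub_self, zero_pow hk, zero_mul, h1 i₀] at h4
        exact mul_ne_zero (pow_ne_zero _ hsub) hz h4
      have h5 : ∀ i, (c z i : ℂ → ℂ) z = (z - z₀) ^ k z₀ * (c z₀ i : ℂ → ℂ) z := by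
        intro i
        rw [← h1 i, h3 i, hk, pow_zero, one_mul]
      rw [Projectivization.mk_eq_mk_iff]
      refine ⟨Units.mk0 ((z - z₀) ^ k z₀) (pow_ne_zero _ hsub), ?_⟩
      funext i
      rw [h5 i]
      rfl

end Pool.Agent.H13.CV

end
end

section

/-!
# The uniform modulus of continuity of holomorphic discs
-/

open Topology Filter

namespace Pool.Agent.H17

variable {N : ℕ}

/-- Composition with a holomorphic function. -/
lemma HolomorphicInto.comp {f : ℂ → PN N} {V U : Set ℂ} (hf : HolomorphicInto f V) {u : ℂ → ℂ}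
    (hu : ∀ z ∈ U, AnalyticAt ℂ u z) (hUV : ∀ z ∈ U, u z ∈ V) :
    HolomorphicInto (fun z => f (u z)) U := by
  intro z₀ hz₀
  obtain ⟨φ, hφ, he⟩ := hf (u z₀) (hUV z₀ hz₀)
  exact ⟨fun z => φ (u z), hφ.comp (hu z₀ hz₀), (hu z₀ hz₀).continuousAt.eventually he⟩

end Pool.Agent.H17

end

section

/-!
# G4 RE Riem: a quotient which is bounded is holomorphic

Let `x₁` near `x₀` with `c x₁ ≠ 0`, `v = x₁ - x₀`: `z ↦ c (x₀ + z v)` is not `0` near `z = 0` (identity theorem on a disc), so it is not `0` on a small circle `‖z‖ = ρ`, and then `c (x + z v) ≠ 0` there for all `x` near `x₀`.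
`s (x, t) = (2 π i)⁻¹ ∮ N (x + z v, t) / c (x + z v) dz / z`, analytic (`H22.HF.analyticAt_circleIntegral`).  If `c x ≠ 0`: `z ↦ N (x + z v, t) / c (x + z v)` is bounded and holomorphic on the disc off finitely many points `≠ 0`, so it extends
(`Complex.differentiableOn_update_limUnder_of_bddAbove`, near each of the points), and `s (x, t) = N (x, t) / c x` by Cauchy.  If `c x = 0` both sides are `0` (`hb`).
-/

set_option autoImplicit false

open Topology Filter Metric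

namespace Pool.Agent.G4.RE

/-- Cauchy's formula at the centre for a bounded quotient. -/
private theorem riem_disc {f g : ℂ → ℂ} {ρ K : ℝ} (hρ : 0 < ρ) (hf : ∀ z ∈ closedBall (0 : ℂ) ρ, AnalyticAt ℂ f z) (hg : ∀ z ∈ closedBall (0 : ℂ) ρ, AnalyticAt ℂ g z)
    (h0 : ∀ z ∈ sphere (0 : ℂ) ρ, g z ≠ 0) (hb : ∀ᶠ z in 𝓝ˢ (closedBall (0 : ℂ) ρ), ‖f z‖ ≤ K * ‖g z‖) (hg0 : g 0 ≠ 0) :
    (∮ z in C(0, ρ), (f z / g z) / z) = 2 * Real.pi * Complex.I * (f 0 / g 0) := by
  classical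
  have hne : ∀ z ∈ closedBall (0 : ℂ) ρ, ∀ᶠ w in 𝓝[≠] z, g w ≠ 0 := by
    intro z hz
    rcases (hg z hz).eventually_eq_zero_or_eventually_ne_zero with h | h
    · exfalso
      have h1 := AnalyticOnNhd.eqOn_zero_of_preconnected_of_eventuallyEq_zero (f := g) (U := closedBall (0 : ℂ) ρ) hg
        (convex_closedBall (0 : ℂ) ρ).isPreconnected hz h
      exact hg0 (h1 (mem_closedBall_self hρ.le))
    · exact h
  set q : ℂ → ℂ := fun z => f z / g z with hq
  set G : ℂ → ℂ := fun z => if g z = 0 then limUnder (𝓝[≠] z) q else q z with hG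
  have hGd : ∀ z ∈ closedBall (0 : ℂ) ρ, DifferentiableAt ℂ G z := by
    intro z hz
    have hfz : ∀ᶠ w in 𝓝 z, AnalyticAt ℂ f w := (hf z hz).eventually_analyticAt
    have hgz : ∀ᶠ w in 𝓝 z, AnalyticAt ℂ g w := (hg z hz).eventually_analyticAt
    by_cases hz0 : g z = 0
    · have hbz : ∀ᶠ w in 𝓝 z, ‖f w‖ ≤ K * ‖g w‖ := (eventually_nhdsSet_iff_forall.1 hb) z hz
      have h1 : ∀ᶠ w in 𝓝 z, w ≠ z → g w ≠ 0 := eventually_nhdsWithin_iff.1 (hne z hz)
      obtain ⟨ε, hε, h2⟩ := Metric.eventually_nhds_iff_ball.1 (((hfz.and hgz).and hbz).and h1)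
      have hd : DifferentiableOn ℂ q (ball z ε \ {z}) := by
        intro w hw
        have h3 := h2 w hw.1
        exact (h3.1.1.1.differentiableAt.div h3.1.1.2.differentiableAt (h3.2 hw.2)).differentiableWithinAt
      have hbd : BddAbove (norm ∘ q '' (ball z ε \ {z})) := by
        refine ⟨K, ?_⟩
        rintro _ ⟨w, hw, rfl⟩
        have h3 := h2 w hw.1
        have h4 : 0 < ‖g w‖ := norm_pos_iff.2 (h3.2 hw.2)
        simp only [Function.comp, hq, norm_div]
        rw [div_le_iff₀ h4]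
        exact h3.1.2
      have h5 := Complex.differentiableOn_update_limUnder_of_bddAbove (ball_mem_nhds z hε) hd hbd
      have h6 : DifferentiableAt ℂ (Function.update q z (limUnder (𝓝[≠] z) q)) z :=
        h5.differentiableAt (ball_mem_nhds z hε)
      refine h6.congr_of_eventuallyEq ?_
      filter_upwards [ball_mem_nhds z hε] with w hw
      by_cases hwz : w = z
      · subst hwz
        rw [Function.update_self]
        simp only [hG, if_pos hz0]
      · rw [Function.update_of_ne hwz]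
        simp only [hG, if_neg ((h2 w hw).2 hwz)]
    · have h1 : ∀ᶠ w in 𝓝 z, g w ≠ 0 := (hg z hz).continuousAt.eventually_ne hz0
      have h2 : DifferentiableAt ℂ q z := (hf z hz).differentiableAt.div (hg z hz).differentiableAt hz0
      refine h2.congr_of_eventuallyEq ?_
      filter_upwards [h1] with w hw
      simp only [hG, if_neg hw]
  have hdc : DiffContOnCl ℂ G (ball 0 ρ) := by
    refine DifferentiableOn.diffContOnCl ?_
    rw [closure_ball _ hρ.ne']
    exact fun z hz => (hGd z hz).differentiableWithinAt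
  have h1 := hdc.circleIntegral_sub_inv_smul (mem_ball_self hρ)
  have h2 : (∮ z in C(0, ρ), (f z / g z) / z) = ∮ z in C(0, ρ), (z - 0)⁻¹ • G z := by
    refine circleIntegral.integral_congr hρ.le ?_
    intro z hz
    have h3 := h0 z hz
    simp only [hG, if_neg h3, hq, sub_zero, smul_eq_mul]
    rw [div_eq_mul_inv (f z / g z) z, mul_comm]
  rw [h2, h1, smul_eq_mul]
  simp only [hG, if_neg hg0, hq]

variable {E : Type} [NormedAddCommGroup E] [NormedSpace ℂ E] [FiniteDimensional ℂ E]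

theorem riem {c : E → ℂ} {N : E × ℂ → ℂ} {U : Set E} (hU : IsOpen U) {x₀ : E} (hx : x₀ ∈ U) (hc : ∀ x ∈ U, AnalyticAt ℂ c x) (hN : ∀ x ∈ U, ∀ t : ℂ, AnalyticAt ℂ N (x, t)) (hne : ∃ᶠ x in 𝓝 x₀, c x ≠ 0) {C : ℂ → ℝ}
    (hb : ∀ x ∈ U, ∀ t : ℂ, ‖N (x, t)‖ ≤ C t * ‖c x‖) : ∃ δ : ℝ, 0 < δ ∧ ball x₀ δ ⊆ U ∧ ∃ s : E × ℂ → ℂ, ∀ x ∈ ball x₀ δ, ∀ t : ℂ, AnalyticAt ℂ s (x, t) ∧ s (x, t) * c x = N (x, t) := by
  classical
  obtain ⟨R, hR, hRU⟩ := Metric.isOpen_iff.1 hU x₀ hx
  obtain ⟨x₁, hx₁c, hx₁⟩ : ∃ x₁, c x₁ ≠ 0 ∧ x₁ ∈ ball x₀ (R / 2) :=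
    (hne.and_eventually (ball_mem_nhds x₀ (half_pos hR))).exists
  obtain ⟨v, hv⟩ : ∃ v : E, v = x₁ - x₀ := ⟨_, rfl⟩
  have hvn : ‖v‖ < R / 2 := by
    rw [hv, ← dist_eq_norm]
    exact hx₁
  have hmem : ∀ x ∈ ball x₀ (R / 2), ∀ z : ℂ, ‖z‖ ≤ 1 → x + z • v ∈ U := by
    intro x hx z hz
    refine hRU ?_
    rw [mem_ball, dist_eq_norm] at hx ⊢
    have h1 : x + z • v - x₀ = (x - x₀) + z • v := by abel
    rw [h1]
    have h2 : ‖z • v‖ ≤ ‖v‖ := by
      rw [norm_smul]
      exact mul_le_of_le_one_left (norm_nonneg _) hz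
    linarith [norm_add_le (x - x₀) (z • v)]
  have hx₀ : x₀ ∈ ball x₀ (R / 2) := mem_ball_self (half_pos hR)
  have hlin : ∀ x : E, ∀ z : ℂ, AnalyticAt ℂ (fun w : ℂ => x + w • v) z := by
    intro x z
    fun_prop
  have hline : ∀ x : E, ∀ z : ℂ, x + z • v ∈ U → AnalyticAt ℂ (fun w : ℂ => c (x + w • v)) z := by
    intro x z h
    exact (hc _ h).fun_comp_of_eq (hlin x z) rfl
  have h0 : ∀ᶠ z in 𝓝[≠] (0 : ℂ), c (x₀ + z • v) ≠ 0 := by
    have h00 : x₀ + (0 : ℂ) • v ∈ U := hmem x₀ hx₀ 0 (by simp)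
    rcases (hline x₀ 0 h00).eventually_eq_zero_or_eventually_ne_zero with h | h
    · exfalso
      have h1 := AnalyticOnNhd.eqOn_zero_of_preconnected_of_eventuallyEq_zero (f := fun w : ℂ => c (x₀ + w • v))
        (U := closedBall (0 : ℂ) 1) (fun z hz => hline x₀ z (hmem x₀ hx₀ z (by simpa using hz)))
        (convex_closedBall (0 : ℂ) 1).isPreconnected (mem_closedBall_self zero_le_one) h
      have h2 : (1 : ℂ) ∈ closedBall (0 : ℂ) 1 := by simp
      have h3 := h1 h2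
      simp only [one_smul, Pi.zero_apply] at h3
      refine hx₁c ?_
      rw [← h3, hv]
      congr 1
      abel
    · exact h
  obtain ⟨ρ, hρ0, hρ1, hρ⟩ : ∃ ρ : ℝ, 0 < ρ ∧ ρ ≤ 1 ∧ ∀ z ∈ sphere (0 : ℂ) ρ, c (x₀ + z • v) ≠ 0 := by
    have h1 : ∀ᶠ z in 𝓝 (0 : ℂ), z ≠ 0 → c (x₀ + z • v) ≠ 0 := eventually_nhdsWithin_iff.1 h0
    obtain ⟨ε, hε, h2⟩ := Metric.eventually_nhds_iff_ball.1 h1
    have h3 : 0 < min (ε / 2) 1 := lt_min (half_pos hε) one_pos
    refine ⟨min (ε / 2) 1, h3, min_le_right _ _, fun z hz => ?_⟩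
    have hz' : ‖z‖ = min (ε / 2) 1 := by simpa using hz
    refine h2 z ?_ ?_
    · rw [mem_ball_zero_iff, hz']
      exact lt_of_le_of_lt (min_le_left _ _) (half_lt_self hε)
    · intro h4
      rw [h4, norm_zero] at hz'
      linarith
  have hball : ∀ z ∈ closedBall (0 : ℂ) ρ, ‖z‖ ≤ 1 := by
    intro z hz
    have h1 : ‖z‖ ≤ ρ := by simpa using hz
    linarith
  obtain ⟨δ, hδ0, hδR, hδ⟩ : ∃ δ : ℝ, 0 < δ ∧ δ ≤ R / 2 ∧ ∀ x ∈ ball x₀ δ, ∀ z ∈ sphere (0 : ℂ) ρ, c (x + z • v) ≠ 0 := by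
    have h1 : ∀ᶠ x in 𝓝 x₀, ∀ z ∈ sphere (0 : ℂ) ρ, c (x + z • v) ≠ 0 := by
      refine IsCompact.eventually_forall_of_forall_eventually (isCompact_sphere (0 : ℂ) ρ) ?_
      intro z hz
      have h2 : ContinuousAt (fun p : E × ℂ => c (p.1 + p.2 • v)) (x₀, z) := by
        have h3 : ContinuousAt c (x₀ + z • v) := (hc _ (hmem x₀ hx₀ z (hball z (sphere_subset_closedBall hz)))).continuousAt
        have h4 : ContinuousAt (fun p : E × ℂ => p.1 + p.2 • v) (x₀, z) := by fun_prop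
        exact ContinuousAt.comp (f := fun p : E × ℂ => p.1 + p.2 • v) (g := c) h3 h4
      exact h2.eventually_ne (hρ z hz)
    obtain ⟨ε, hε, h2⟩ := Metric.eventually_nhds_iff_ball.1 h1
    refine ⟨min ε (R / 2), lt_min hε (half_pos hR), min_le_right _ _, fun x hx z hz => ?_⟩
    exact h2 x (ball_subset_ball (min_le_left _ _) hx) z hz
  have hsub : ball x₀ δ ⊆ ball x₀ (R / 2) := ball_subset_ball hδR
  refine ⟨δ, hδ0, hsub.trans ((ball_subset_ball (by linarith)).trans hRU),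
    fun p => (2 * Real.pi * Complex.I)⁻¹ * ∮ z in C(0, ρ), (N (p.1 + z • v, p.2) / c (p.1 + z • v)) / z, ?_⟩
  intro x hx t
  have hx' : x ∈ ball x₀ (R / 2) := hsub hx
  have hxU : x ∈ U := by
    have h1 := hmem x hx' 0 (by simp)
    simpa using h1
  constructor
  · refine analyticAt_const.mul ?_
    refine H22.HF.analyticAt_circleIntegral
      (F := fun p : (E × ℂ) × ℂ => (N (p.1.1 + p.2 • v, p.1.2) / c (p.1.1 + p.2 • v)) / p.2) hρ0 ?_
    intro z hz
    have hz1 : ‖z‖ ≤ 1 := hball z (sphere_subset_closedBall hz)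
    have hz0 : z ≠ 0 := by
      intro h
      have h1 : ‖z‖ = ρ := by simpa using hz
      rw [h, norm_zero] at h1
      linarith
    have h5 : AnalyticAt ℂ (fun p : (E × ℂ) × ℂ => p.2) ((x, t), z) := analyticAt_snd
    have h6 : AnalyticAt ℂ (fun p : (E × ℂ) × ℂ => p.1.1) ((x, t), z) :=
      analyticAt_fst.fun_comp_of_eq (g := fun p : E × ℂ => p.1) (y := (x, t)) analyticAt_fst rfl
    have h7 : AnalyticAt ℂ (fun p : (E × ℂ) × ℂ => p.1.2) ((x, t), z) :=
      analyticAt_snd.fun_comp_of_eq (g := fun p : E × ℂ => p.2) (y := (x, t)) analyticAt_fst rfl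
    have h1 : AnalyticAt ℂ (fun p : (E × ℂ) × ℂ => p.1.1 + p.2 • v) ((x, t), z) := h6.add (h5.smul analyticAt_const)
    have h2 : AnalyticAt ℂ (fun p : (E × ℂ) × ℂ => (p.1.1 + p.2 • v, p.1.2)) ((x, t), z) := h1.prod h7
    have h3 : AnalyticAt ℂ (fun p : (E × ℂ) × ℂ => N (p.1.1 + p.2 • v, p.1.2)) ((x, t), z) :=
      (hN _ (hmem x hx' z hz1) t).fun_comp_of_eq h2 rfl
    have h4 : AnalyticAt ℂ (fun p : (E × ℂ) × ℂ => c (p.1.1 + p.2 • v)) ((x, t), z) :=
      (hc _ (hmem x hx' z hz1)).fun_comp_of_eq h1 rfl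
    exact (h3.div h4 (hδ x hx z hz)).div h5 hz0
  · by_cases hcx : c x = 0
    · have h1 := hb x hxU t
      rw [hcx, norm_zero, mul_zero] at h1
      rw [hcx, mul_zero, eq_comm, ← norm_eq_zero]
      exact le_antisymm h1 (norm_nonneg _)
    · have hfz : ∀ z ∈ closedBall (0 : ℂ) ρ, AnalyticAt ℂ (fun z => N (x + z • v, t)) z := by
        intro z hz
        have h2 : AnalyticAt ℂ (fun w : ℂ => (x + w • v, t)) z := by fun_prop
        exact (hN _ (hmem x hx' z (hball z hz)) t).fun_comp_of_eq h2 rfl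
      have hgz : ∀ z ∈ closedBall (0 : ℂ) ρ, AnalyticAt ℂ (fun z => c (x + z • v)) z :=
        fun z hz => hline x z (hmem x hx' z (hball z hz))
      have h1 := riem_disc (f := fun z => N (x + z • v, t)) (g := fun z => c (x + z • v)) (K := C t) hρ0 hfz hgz
        (fun z hz => hδ x hx z hz) ?_ (by simpa using hcx)
      · simp only [zero_smul, add_zero] at h1
        show (2 * Real.pi * Complex.I)⁻¹ * (∮ z in C(0, ρ), (N (x + z • v, t) / c (x + z • v)) / z) * c x = N (x, t)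
        rw [h1]
        have hpi : (2 * Real.pi * Complex.I : ℂ) ≠ 0 := Complex.two_pi_I_ne_zero
        field_simp
      · rw [eventually_nhdsSet_iff_forall]
        intro z hz
        have h2 : ContinuousAt (fun w : ℂ => x + w • v) z := (hlin x z).continuousAt
        have h3 : ∀ᶠ w in 𝓝 z, x + w • v ∈ U := h2.eventually_mem (hU.mem_nhds (hmem x hx' z (hball z hz)))
        filter_upwards [h3] with w hw
        exact hb _ hw t

end Pool.Agent.G4.RE

end

section

/-!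
# CV Lgt: pluricanonical forms

`pole_mul_pow`: `ω = g • η`, `0 ≤ ord (h * g ^ 1)`; the same `g`, `η`: `f * h ^ m * g ^ m = f * (h * g) ^ m`.
`lgt_of_forms`: in the definition of `IsLogGeneralType` take `r = 1`, `f = ![f₀, f₁]`.  `K` is finite over `ℂ(f₁ / f₀)` (`hK.fin`), so it is algebraic over `ℂ(f₀ / f₀, f₁ / f₀)`.
-/

set_option autoImplicit false

open Pool.Agent.H23.Fano (PrimeDivisorOver Form regularForms)
open Pool.Agent.H17LG.Variety (PoleAtMost IsLogGeneralType)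

noncomputable section

namespace Pool.Agent.H13.CV

variable {K : Type} [Field K] [Algebra ℂ K]

theorem pole_mul_pow {E : Place K} {h f : K} {ω : Form K 1} {m p : ℕ} (hh : PoleAtMost 0 E 1 h ω) (hf : 0 ≤ E.ord f + p) : PoleAtMost p E m (f * h ^ m) ω := by
  obtain ⟨g, η, hη, hω, h0⟩ := hh
  refine ⟨g, η, hη, hω, ?_⟩
  have h1 : (0 : WithTop ℤ) ≤ E.ord (h * g) := by
    simpa using h0
  have h2 : f * h ^ m * g ^ m = f * (h * g) ^ m := by
    rw [mul_pow, mul_assoc]
  have h3 : (0 : WithTop ℤ) ≤ E.ord ((h * g) ^ m) := by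
    rw [E.ord.map_pow]
    exact nsmul_nonneg h1 m
  rw [h2, E.ord.map_mul]
  calc (0 : WithTop ℤ) ≤ E.ord f + p := hf
    _ = E.ord f + 0 + p := by rw [add_zero]
    _ ≤ E.ord f + E.ord ((h * g) ^ m) + p := by
      gcongr

/-- two pluricanonical forms with a non-constant ratio -/
theorem lgt_of_forms (hK : CurveField K) {B : Place K → Prop} {ω : Form K 1} (hω : ω ≠ 0) {m : ℕ} (hm : 1 ≤ m) {f₀ f₁ : K} (hf₀ : f₀ ≠ 0)
    (htr : Transcendental ℂ (f₁ / f₀)) (h₀ : ∀ E, (¬ B E → PoleAtMost 0 E m f₀ ω) ∧ (B E → PoleAtMost m E m f₀ ω))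
    (h₁ : ∀ E, (¬ B E → PoleAtMost 0 E m f₁ ω) ∧ (B E → PoleAtMost m E m f₁ ω)) : IsLogGeneralType B := by
  refine ⟨m, hm, ω, hω, 1, ![f₀, f₁], by simpa using hf₀, ?_, ?_⟩
  · intro i E
    fin_cases i
    · exact h₀ E
    · exact h₁ E
  · have he : IntermediateField.adjoin ℂ (Set.range fun i : Fin (1 + 1) => (![f₀, f₁] : Fin 2 → K) i / (![f₀, f₁] : Fin 2 → K) 0)
        = IntermediateField.adjoin ℂ {f₁ / f₀} := by
      apply le_antisymm
      · rw [IntermediateField.adjoin_le_iff]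
        rintro _ ⟨i, rfl⟩
        fin_cases i
        · have : (f₀ / f₀ : K) ∈ IntermediateField.adjoin ℂ {f₁ / f₀} := by
            rw [div_self hf₀]
            exact one_mem _
          simpa using this
        · have : (f₁ / f₀ : K) ∈ IntermediateField.adjoin ℂ {f₁ / f₀} :=
            IntermediateField.subset_adjoin _ _ rfl
          simpa using this
      · apply IntermediateField.adjoin.mono
        rintro _ rfl
        exact ⟨1, by simp⟩
    rw [he]
    have := hK.fin _ htr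
    exact Algebra.IsAlgebraic.of_finite _ _

end Pool.Agent.H13.CV

end
end

section

/-!
# Qe Ext: extension of holomorphic maps of the punctured disc
-/

set_option autoImplicit false

open Topology Filter MvPolynomial

noncomputable section

namespace Pool.Agent.H62.Qe

open Pool.Agent.H17 (PN VanishesAt HolomorphicInto puncturedDisc)

variable {N M : ℕ}

/-- If `f (z ^ k)` is given by holomorphic homogeneous coordinates near `0` then `f` extends to the disc. -/
theorem extend_of_pow {f : ℂ → PN N} (hf : HolomorphicInto f puncturedDisc) {k : ℕ} (hk : 1 ≤ k) {Φ : ℂ → Fin (N + 1) → ℂ}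
    (hΦ : ContinuousAt Φ 0) (hΦ0 : Φ 0 ≠ 0) (hΦf : ∀ᶠ z in 𝓝 (0 : ℂ), z ≠ 0 → ∃ h : Φ z ≠ 0, f (z ^ k) = Projectivization.mk ℂ (Φ z) h) :
    ∃ g : ℂ → PN N, HolomorphicInto g (Metric.ball 0 1) ∧ ∀ z ∈ puncturedDisc, g z = f z := by
  classical
  obtain ⟨j, hj⟩ : ∃ j, Φ 0 j ≠ 0 := by
    by_contra hcon
    push Not at hcon
    exact hΦ0 (funext hcon)
  set S : ℂ → Fin (N + 1) → ℂ := fun w => ((f w).rep j)⁻¹ • (f w).rep with hS
  -- ratios of homogeneous coordinates
  have hSmk : ∀ (w : ℂ) (x : Fin (N + 1) → ℂ) (hx : x ≠ 0), f w = Projectivization.mk ℂ x hx → S w = (x j)⁻¹ • x := by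
    intro w x hx h
    obtain ⟨a, ha⟩ := Projectivization.exists_smul_eq_mk_rep ℂ x hx
    have h1 : (f w).rep = (a : ℂ) • x := by rw [h]; exact ha.symm
    rw [hS]
    simp only [h1, Pi.smul_apply, smul_eq_mul]
    rw [smul_smul, mul_inv, mul_comm (a : ℂ)⁻¹, mul_assoc, inv_mul_cancel₀ a.ne_zero, mul_one]
  -- a punctured neighbourhood on which the coordinates are controlled
  have h1 : ContinuousAt (fun z => (Φ z j)⁻¹ • Φ z) 0 := by
    have h2 : ContinuousAt (fun z => Φ z j) 0 := (continuous_apply j).continuousAt.comp hΦ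
    exact (h2.inv₀ hj).smul hΦ
  have h2 : ∀ᶠ z in 𝓝 (0 : ℂ), ‖(Φ z j)⁻¹ • Φ z‖ < ‖(Φ 0 j)⁻¹ • Φ 0‖ + 1 :=
    h1.norm.eventually_lt continuousAt_const (lt_add_one _)
  have h3 : ∀ᶠ z in 𝓝 (0 : ℂ), Φ z j ≠ 0 := ((continuous_apply j).continuousAt.comp hΦ).eventually_ne hj
  obtain ⟨ρ, hρ, hρb⟩ := Metric.eventually_nhds_iff_ball.1 ((hΦf.and h2).and h3)
  set r : ℝ := min (ρ ^ k) 1 with hr
  have hr0 : 0 < r := lt_min (pow_pos hρ k) one_pos
  have hroot : ∀ w ∈ Metric.ball (0 : ℂ) r \ {0}, ∃ z ∈ Metric.ball (0 : ℂ) ρ, z ≠ 0 ∧ z ^ k = w := by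
    intro w hw
    obtain ⟨z, hz⟩ := IsAlgClosed.exists_pow_nat_eq w (by omega : 0 < k)
    refine ⟨z, ?_, ?_, hz⟩
    · rw [mem_ball_zero_iff]
      by_contra hcon
      push Not at hcon
      have h4 : ρ ^ k ≤ ‖z‖ ^ k := pow_le_pow_left₀ hρ.le hcon k
      rw [← norm_pow, hz] at h4
      have h5 : ‖w‖ < r := by
        rw [← mem_ball_zero_iff]
        exact hw.1
      exact absurd (lt_of_lt_of_le h5 (min_le_left _ _)) (not_lt.2 h4)
    · rintro rfl
      apply hw.2
      rw [Set.mem_singleton_iff, ← hz, zero_pow (by omega)]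
  have hmem : ∀ w ∈ Metric.ball (0 : ℂ) r \ {0}, w ∈ puncturedDisc := fun w hw =>
    ⟨Metric.ball_subset_ball (min_le_right _ _) hw.1, hw.2⟩
  have hval : ∀ w ∈ Metric.ball (0 : ℂ) r \ {0}, (f w).rep j ≠ 0 ∧ ‖S w‖ ≤ ‖(Φ 0 j)⁻¹ • Φ 0‖ + 1 := by
    intro w hw
    obtain ⟨z, hz, hz0, hzw⟩ := hroot w hw
    obtain ⟨⟨h4, h5⟩, h6⟩ := hρb z hz
    obtain ⟨h7, h8⟩ := h4 hz0
    rw [hzw] at h8
    refine ⟨?_, ?_⟩
    · obtain ⟨a, ha⟩ := Projectivization.exists_smul_eq_mk_rep ℂ (Φ z) h7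
      have h9 : (f w).rep = (a : ℂ) • Φ z := by rw [h8]; exact ha.symm
      rw [h9]
      exact mul_ne_zero a.ne_zero h6
    · rw [hSmk w _ h7 h8]
      exact h5.le
  have hd : DifferentiableOn ℂ S (Metric.ball (0 : ℂ) r \ {0}) := by
    intro w hw
    obtain ⟨φ, h4, h5⟩ := hf w (hmem w hw)
    have h6 : φ w j ≠ 0 := by
      obtain ⟨h7, h8⟩ := h5.self_of_nhds
      obtain ⟨a, ha⟩ := Projectivization.exists_smul_eq_mk_rep ℂ (φ w) h7
      have h9 : (f w).rep = (a : ℂ) • φ w := by rw [h8]; exact ha.symm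
      have h10 := (hval w hw).1
      rw [h9] at h10
      exact right_ne_zero_of_mul h10
    have h7 : AnalyticAt ℂ (fun z => (φ z j)⁻¹ • φ z) w := by
      have h8 : AnalyticAt ℂ (fun z => φ z j) w := analyticAt_pi_iff.1 h4 j
      exact (h8.inv h6).smul h4
    refine DifferentiableAt.differentiableWithinAt (h7.differentiableAt.congr_of_eventuallyEq ?_)
    filter_upwards [h5] with z hz
    obtain ⟨h8, h9⟩ := hz
    exact hSmk z _ h8 h9
  have hb : BddAbove (norm ∘ S '' (Metric.ball (0 : ℂ) r \ {0})) := by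
    refine ⟨‖(Φ 0 j)⁻¹ • Φ 0‖ + 1, ?_⟩
    rintro _ ⟨w, hw, rfl⟩
    exact (hval w hw).2
  have hu := Complex.differentiableOn_update_limUnder_of_bddAbove (Metric.ball_mem_nhds (0 : ℂ) hr0) hd hb
  set S' : ℂ → Fin (N + 1) → ℂ := Function.update S 0 (limUnder (𝓝[≠] 0) S) with hS'
  have hS'a : AnalyticAt ℂ S' 0 := hu.analyticAt (Metric.ball_mem_nhds (0 : ℂ) hr0)
  have hS'eq : ∀ w, w ≠ 0 → S' w = S w := fun w hw => Function.update_of_ne hw _ _
  have hS'j : ∀ᶠ w in 𝓝[≠] (0 : ℂ), S' w j = 1 := by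
    have h4 : Metric.ball (0 : ℂ) r \ {0} ∈ 𝓝[≠] (0 : ℂ) := sdiff_mem_nhdsWithin_compl (Metric.ball_mem_nhds _ hr0) _
    filter_upwards [h4] with w hw
    rw [hS'eq w hw.2]
    exact inv_mul_cancel₀ (hval w hw).1
  have hS'0 : S' 0 j = 1 := by
    have h4 : Tendsto (fun w => S' w j) (𝓝[≠] (0 : ℂ)) (𝓝 (S' 0 j)) :=
      ((continuous_apply j).continuousAt.comp hS'a.continuousAt).tendsto.mono_left nhdsWithin_le_nhds
    have h5 : Tendsto (fun w => S' w j) (𝓝[≠] (0 : ℂ)) (𝓝 1) := tendsto_const_nhds.congr' (hS'j.mono fun w hw => hw.symm)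
    exact tendsto_nhds_unique h4 h5
  have hne : S' 0 ≠ 0 := by
    intro h
    rw [h] at hS'0
    exact zero_ne_one hS'0
  have hS'ne : ∀ᶠ w in 𝓝 (0 : ℂ), S' w ≠ 0 := hS'a.continuousAt.eventually_ne hne
  refine ⟨fun w => if w = 0 then Projectivization.mk ℂ (S' 0) hne else f w, fun w₀ hw₀ => ?_, fun w hw => if_neg hw.2⟩
  by_cases h0 : w₀ = 0
  · subst h0
    refine ⟨S', hS'a, ?_⟩
    filter_upwards [hS'ne, Metric.ball_mem_nhds (0 : ℂ) hr0] with w h4 h5
    refine ⟨h4, ?_⟩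
    by_cases hw : w = 0
    · subst hw
      rw [if_pos rfl]
    · rw [if_neg hw, ← Projectivization.mk_rep (f w), Projectivization.mk_eq_mk_iff']
      have h6 := (hval w ⟨h5, hw⟩).1
      refine ⟨(f w).rep j, ?_⟩
      rw [hS'eq w hw]
      show (f w).rep j • (((f w).rep j)⁻¹ • (f w).rep) = (f w).rep
      rw [smul_smul, mul_inv_cancel₀ h6, one_smul]
  · obtain ⟨φ, h4, h5⟩ := hf w₀ ⟨hw₀, h0⟩
    refine ⟨φ, h4, ?_⟩
    filter_upwards [h5, isOpen_ne.mem_nhds h0] with w h6 h7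
    rw [if_neg h7]
    exact h6

end Pool.Agent.H62.Qe

end
end

section

/-!
# Extension of a holomorphic map into projective space across a puncture
-/

noncomputable section

namespace Pool.Agent.H62.FC

open Pool.Agent.H62.FC
open MvPolynomial Topology Filter
open Pool.Agent.H17 (PN VanishesAt ZariskiClosedIn HolomorphicInto puncturedDisc)

variable {N : ℕ}

/-- A meromorphic function of order at least `n` is `z ^ n` times an analytic function. -/
private theorem Extend_factor {v : ℂ → ℂ} (hv : MeromorphicAt v 0) {n : ℤ}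
    (hn : (n : WithTop ℤ) ≤ meromorphicOrderAt v 0) :
    ∃ w : ℂ → ℂ, AnalyticAt ℂ w 0 ∧ (∀ᶠ z in 𝓝[≠] (0 : ℂ), v z = z ^ n * w z) ∧
      (meromorphicOrderAt v 0 = n → w 0 ≠ 0) := by
  by_cases h : meromorphicOrderAt v 0 = ⊤
  · refine ⟨fun _ => 0, analyticAt_const, ?_, ?_⟩
    · rw [meromorphicOrderAt_eq_top_iff] at h
      filter_upwards [h] with z hz
      rw [hz, mul_zero]
    · intro h'
      rw [h] at h'
      exact absurd h' (by simp)
  · obtain ⟨k, hk⟩ := WithTop.ne_top_iff_exists.mp h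
    rw [← hk] at hn
    have hnk : n ≤ k := by exact_mod_cast hn
    obtain ⟨g, hg, hg0, hge⟩ := (meromorphicOrderAt_eq_int_iff hv).mp hk.symm
    refine ⟨fun z => z ^ (k - n).toNat * g z, ?_, ?_, ?_⟩
    · exact (analyticAt_id.pow _).mul hg
    · filter_upwards [hge, self_mem_nhdsWithin] with z hz hz0
      have hz0' : z ≠ 0 := hz0
      rw [hz, sub_zero, smul_eq_mul, ← mul_assoc, ← zpow_natCast z, ← zpow_add₀ hz0',
        Int.toNat_of_nonneg (by omega)]
      congr 2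
      ring
    · intro h'
      rw [← hk] at h'
      have : k = n := by exact_mod_cast h'
      subst this
      simpa using hg0

/-- The representative of a point given by homogeneous coordinates. -/
private theorem Extend_rep {x : PN N} {u : Fin (N + 1) → ℂ} (hu : u ≠ 0)
    (hx : x = Projectivization.mk ℂ u hu) : ∃ c : ℂ, c ≠ 0 ∧ ∀ i, x.rep i = c * u i := by
  have h1 : Projectivization.mk ℂ x.rep x.rep_nonzero = Projectivization.mk ℂ u hu := by
    rw [Projectivization.mk_rep, hx]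
  rw [Projectivization.mk_eq_mk_iff'] at h1
  obtain ⟨a, ha⟩ := h1
  refine ⟨a, ?_, fun i => ?_⟩
  · rintro rfl
    exact x.rep_nonzero (by rw [← ha, zero_smul])
  · rw [← ha]
    rfl

/-- **Extension criterion.** -/
theorem exists_extension {f : ℂ → PN N} (hf : HolomorphicInto f puncturedDisc)
    {i₀ : Fin (N + 1)} (h0 : ∀ᶠ z in 𝓝[≠] (0 : ℂ), ∀ᶠ ζ in 𝓝[≠] z, (f ζ).rep i₀ ≠ 0)
    (h : ∀ i, PunctMero (fun z => (f z).rep i / (f z).rep i₀)) :
    ∃ g : ℂ → PN N, HolomorphicInto g (Metric.ball 0 1) ∧ ∀ z ∈ puncturedDisc, g z = f z := by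
  classical
  choose v hv hvf using h
  -- the minimal order
  obtain ⟨j₁, -, hj₁⟩ := (Finset.univ : Finset (Fin (N + 1))).exists_min_image
    (fun j => meromorphicOrderAt (v j) 0) ⟨i₀, Finset.mem_univ _⟩
  have hne : meromorphicOrderAt (v i₀) 0 ≠ ⊤ := by
    intro htop
    rw [meromorphicOrderAt_eq_top_iff] at htop
    have h1 : ∀ᶠ z in 𝓝[≠] (0 : ℂ), ∀ᶠ ζ in 𝓝[≠] z, v i₀ ζ = 0 := by
      have h2 : ∀ᶠ z in 𝓝 (0 : ℂ), z ≠ 0 → v i₀ z = 0 := eventually_nhdsWithin_iff.mp htop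
      have h3 := h2.eventually_nhds
      filter_upwards [h3.filter_mono nhdsWithin_le_nhds, self_mem_nhdsWithin] with z hz hz0
      have hz0' : z ≠ 0 := hz0
      have h4 : ∀ᶠ ζ in 𝓝 z, ζ ≠ 0 := isOpen_ne.mem_nhds hz0'
      have h5 : ∀ᶠ ζ in 𝓝 z, v i₀ ζ = 0 := by
        filter_upwards [hz, h4] with ζ ha hb
        exact ha hb
      exact h5.filter_mono nhdsWithin_le_nhds
    obtain ⟨z, ha, hb, hc⟩ := (h1.and (h0.and (hvf i₀))).exists
    obtain ⟨ζ, hd, he, hg⟩ := (ha.and (hb.and hc)).exists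
    have hg' : (f ζ).rep i₀ / (f ζ).rep i₀ = v i₀ ζ := hg
    rw [hd, div_self he] at hg'
    exact one_ne_zero hg'
  have hne1 : meromorphicOrderAt (v j₁) 0 ≠ ⊤ :=
    ne_top_of_le_ne_top hne (hj₁ i₀ (Finset.mem_univ _))
  obtain ⟨n, hn⟩ := WithTop.ne_top_iff_exists.mp hne1
  have hw : ∀ j, ∃ w : ℂ → ℂ, AnalyticAt ℂ w 0 ∧ (∀ᶠ z in 𝓝[≠] (0 : ℂ), v j z = z ^ n * w z) ∧
      (meromorphicOrderAt (v j) 0 = n → w 0 ≠ 0) := fun j =>
    Extend_factor (hv j) (by rw [hn]; exact hj₁ j (Finset.mem_univ _))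
  choose w hwan hwv hw0 using hw
  have hw1 : w j₁ 0 ≠ 0 := hw0 j₁ hn.symm
  -- the local statement near the puncture
  have hmain : ∀ᶠ z in 𝓝[≠] (0 : ℂ), ∃ hh : (fun j => w j z) ≠ 0,
      f z = Projectivization.mk ℂ (fun j => w j z) hh := by
    have a1 : ∀ᶠ z in 𝓝[≠] (0 : ℂ), ∀ j, ∀ᶠ ζ in 𝓝 z, v j ζ = ζ ^ n * w j ζ := by
      rw [eventually_all]
      intro j
      have h2 : ∀ᶠ z in 𝓝 (0 : ℂ), z ≠ 0 → v j z = z ^ n * w j z :=
        eventually_nhdsWithin_iff.mp (hwv j)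
      have h3 := h2.eventually_nhds
      filter_upwards [h3.filter_mono nhdsWithin_le_nhds, self_mem_nhdsWithin] with z hz hz0
      have hz0' : z ≠ 0 := hz0
      have h4 : ∀ᶠ ζ in 𝓝 z, ζ ≠ 0 := isOpen_ne.mem_nhds hz0'
      filter_upwards [hz, h4] with ζ ha hb
      exact ha hb
    have a2 : ∀ᶠ z in 𝓝[≠] (0 : ℂ), ∀ j,
        (fun ζ => (f ζ).rep j / (f ζ).rep i₀) =ᶠ[𝓝[≠] z] v j := by
      rw [eventually_all]
      exact hvf
    have a3 : ∀ᶠ z in 𝓝[≠] (0 : ℂ), ∀ j, AnalyticAt ℂ (w j) z := by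
      rw [eventually_all]
      exact fun j => (hwan j).eventually_analyticAt.filter_mono nhdsWithin_le_nhds
    have a4 : ∀ᶠ z in 𝓝[≠] (0 : ℂ), w j₁ z ≠ 0 :=
      ((hwan j₁).continuousAt.eventually_ne hw1).filter_mono nhdsWithin_le_nhds
    have a5 : ∀ᶠ z in 𝓝[≠] (0 : ℂ), z ∈ puncturedDisc := by
      filter_upwards [mem_nhdsWithin_of_mem_nhds (Metric.ball_mem_nhds (0 : ℂ) one_pos),
        self_mem_nhdsWithin] with z h1 h2
      exact ⟨h1, h2⟩
    filter_upwards [a1, a2, a3, a4, a5, h0, self_mem_nhdsWithin] with z b1 b2 b3 b4 b5 b6 b7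
    obtain ⟨φ, hφ, hφf⟩ := hf z b5
    have hφ1 : ∀ i, AnalyticAt ℂ (fun z => φ z i) z := fun i => (analyticAt_pi_iff.mp hφ) i
    have hcross : ∀ i j, φ z i * w j z = φ z j * w i z := by
      intro i j
      have hev : (fun ζ => φ ζ i * w j ζ - φ ζ j * w i ζ) =ᶠ[𝓝[≠] z] fun _ => (0 : ℂ) := by
        have b1' : ∀ᶠ ζ in 𝓝[≠] z, ∀ j, v j ζ = ζ ^ n * w j ζ := by
          rw [eventually_all]
          exact fun j => (b1 j).filter_mono nhdsWithin_le_nhds
        have b2' : ∀ᶠ ζ in 𝓝[≠] z, ∀ j, (f ζ).rep j / (f ζ).rep i₀ = v j ζ := by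
          rw [eventually_all]
          exact b2
        filter_upwards [b1', b2', b6, hφf.filter_mono nhdsWithin_le_nhds] with ζ c1 c2 c3 c4
        obtain ⟨hφ0, hfφ⟩ := c4
        obtain ⟨c, hc, hrep⟩ := Extend_rep hφ0 hfφ
        have key : ∀ j, φ ζ j = φ ζ i₀ * (ζ ^ n * w j ζ) := by
          intro j
          have e1 := c2 j
          rw [c1 j, hrep j, hrep i₀, mul_div_mul_left _ _ hc] at e1
          have e2 : φ ζ i₀ ≠ 0 := by
            intro e3
            apply c3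
            rw [hrep i₀, e3, mul_zero]
          rw [div_eq_iff e2] at e1
          rw [e1, mul_comm]
        rw [key i, key j]
        ring
      have hcont : ContinuousAt (fun ζ => φ ζ i * w j ζ - φ ζ j * w i ζ) z :=
        (((hφ1 i).mul (b3 j)).sub ((hφ1 j).mul (b3 i))).continuousAt
      have h1 : Tendsto (fun ζ => φ ζ i * w j ζ - φ ζ j * w i ζ) (𝓝[≠] z)
          (𝓝 (φ z i * w j z - φ z j * w i z)) := hcont.tendsto.mono_left nhdsWithin_le_nhds
      have h2 : Tendsto (fun ζ => φ ζ i * w j ζ - φ ζ j * w i ζ) (𝓝[≠] z) (𝓝 0) :=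
        tendsto_const_nhds.congr' hev.symm
      exact sub_eq_zero.mp (tendsto_nhds_unique h1 h2)
    have hwz : (fun j => w j z) ≠ 0 := fun hh => b4 (congrFun hh j₁)
    refine ⟨hwz, ?_⟩
    obtain ⟨hφ0, hfφ⟩ := hφf.self_of_nhds
    rw [hfφ, Projectivization.mk_eq_mk_iff']
    refine ⟨φ z j₁ / w j₁ z, ?_⟩
    funext j
    simp only [Pi.smul_apply, smul_eq_mul]
    rw [div_mul_eq_mul_div, div_eq_iff b4]
    exact hcross j₁ j
  -- the extension
  have hv0 : (fun j => w j 0) ≠ 0 := fun h => hw1 (congrFun h j₁)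
  set g : ℂ → PN N := Function.update f 0 (Projectivization.mk ℂ (fun j => w j 0) hv0) with hg
  have hgf : ∀ z, z ≠ 0 → g z = f z := fun z hz => by
    rw [hg, Function.update_of_ne hz]
  refine ⟨g, ?_, fun z hz => hgf z fun h => hz.2 (by simp [h])⟩
  intro z₀ hz₀
  by_cases h00 : z₀ = 0
  · subst h00
    refine ⟨fun z => (fun j => w j z), analyticAt_pi_iff.mpr hwan, ?_⟩
    filter_upwards [eventually_nhdsWithin_iff.mp hmain] with z hz
    by_cases hz0 : z = 0
    · subst hz0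
      exact ⟨hv0, by rw [hg, Function.update_self]⟩
    · obtain ⟨h1, h2⟩ := hz hz0
      exact ⟨h1, by rw [hgf z hz0, h2]⟩
  · obtain ⟨φ, hφ, hφf⟩ := hf z₀ ⟨hz₀, by simpa using h00⟩
    refine ⟨φ, hφ, ?_⟩
    have h1 : ∀ᶠ z in 𝓝 z₀, z ∈ ({0}ᶜ : Set ℂ) := isOpen_compl_singleton.mem_nhds h00
    filter_upwards [hφf, h1] with z hz hz'
    rw [hgf z hz']
    exact hz

end Pool.Agent.H62.FC

end
end

section

/-!
# Complements in families over complex tori: the definitions of the final theorem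

`A = ℂ^n / Λ` is a complex torus, `n = k + 1`; `pt Λ y` is the point of `A` given by `y ∈ ℂ^n`.  `X` is a closed analytic subset of `A × ℙ^m`, that is a family of projective varieties over `A`.

* `IsCurveIn`, `IsHyperbolicModulo`, `KobayashiPositive`, `IsFiniteOver`: for a subset `T` of `A × ℙ^m` and a set `S` of special points of `A`, the holomorphic curves in `T`; hyperbolicity of `T` modulo the fibres over `S`; and
  quasi-projective varieties with a map to `T` which is finite on the closure.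
* `IsHolomorphicForm`: forms in `x ∈ ℂ^(m+1)` whose coefficients are holomorphic functions of `y`; `IsAnalytic`: closed analytic subsets of `A × ℙ^m`; `IsAnalyticIn`: of `A`.  `IsSemipositive`, `IsAmple`: `F` is a section of
  `L ⊠ O(d)`, `d > 0`, with `L` a semipositive (positive) line bundle on `A`.  `outside Λ X F`: the complement in `X` of the divisors `{F j = 0}`.
* `IsComplement`: the class of the complements `T` which are considered: `IsReducedDivisor` (divisors of `A × ℙ¹`), `IsHyperbolicOff` (families which are hyperbolic outside the fibres over `S`).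
-/

set_option autoImplicit false

open Topology Filter MvPolynomial
open Pool.Agent.H17 (PN VanishesAt HolomorphicInto puncturedDisc)

noncomputable section

namespace Pool.Agent.COT

/-- `ℂ^n` -/
abbrev Cn (n : ℕ) : Type := Fin n → ℂ

/-- the subgroups of `ℂ^(k+1)` -/
abbrev Sub (k : ℕ) : Type := AddSubgroup (Cn (k + 1))

variable {k : ℕ}

/-- the torus `ℂ^(k+1) / Λ` -/
abbrev Torus (Λ : Sub k) : Type := Cn (k + 1) ⧸ Λ

/-- the point of the torus given by `y` -/
def pt (Λ : Sub k) (y : Cn (k + 1)) : Torus Λ := (y : Cn (k + 1) ⧸ Λ)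

variable {N m q : ℕ}

/-- the product `A × ℙ^m` -/
abbrev Prd (Λ : Sub k) (m : ℕ) : Type := Torus Λ × PN m

/-- functions on `ℂ^(k+1)` with values in the polynomials in `m + 1` variables -/
abbrev Poly (k m : ℕ) : Type := Cn (k + 1) → MvPolynomial (Fin (m + 1)) ℂ

/-! ### Holomorphic curves -/

/-! ### Families and divisors -/

/-- The torus is simple: a complex subspace `W ≠ 0` which is the real span of its lattice points is the whole space. -/
def IsSimple (Λ : Sub k) : Prop :=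
  ∀ W : Submodule ℂ (Cn (k + 1)), W ≠ ⊥ → (∀ v ∈ W, v ∈ Submodule.span ℝ {l : Cn (k + 1) | l ∈ Λ ∧ l ∈ W}) → W = ⊤

/-- `F y` is a form of degree `d` in `x ∈ ℂ^(m+1)` whose coefficients are holomorphic functions of `y` in the set `U` (used for open sets). -/
structure IsHolomorphicForm (U : Set (Cn (k + 1))) (F : Poly k m) (d : ℕ) : Prop where
  homogeneous : ∀ y ∈ U, (F y).IsHomogeneous d
  holomorphic : ∀ α, DifferentiableOn ℂ (fun y => (F y).coeff α) U

/-- `F` is a section of `L ⊠ O(d)`, `d > 0`, for a line bundle `L` on `A`: the functions `‖F y x‖ exp (- ∑ ‖W j y‖²)` are `Λ`-periodic. -/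
structure IsSection (Λ : Sub k) (F : Poly k m) {r : ℕ} (W : Fin r → Cn (k + 1) →L[ℂ] ℂ) : Prop where
  form : ∃ d, 0 < d ∧ IsHolomorphicForm Set.univ F d
  quasiPeriodic : ∀ l ∈ Λ, ∀ y, ∃ e : ℂ, ‖e‖ = Real.exp (∑ j, ‖W j (y + l)‖ ^ 2 - ∑ j, ‖W j y‖ ^ 2) ∧ F (y + l) = C e * F y

/-- The line bundle is positive. -/
def IsAmple (Λ : Sub k) (F : Poly k m) : Prop :=
  ∃ (r : ℕ) (W : Fin r → Cn (k + 1) →L[ℂ] ℂ), (∀ y, (∀ j, W j y = 0) → y = 0) ∧ IsSection Λ F W

/-! ### Divisors of `A × ℙ¹` -/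

/-- The divisor `{F = 0}` of `A × ℙ¹`, `A` simple, of degree `d ≥ 3` over `A`, is ample, has no multiple component and contains no hypersurface `Γ × ℙ¹`. -/
structure IsReducedDivisor (Λ : Sub k) (F : Poly k 1) (d : ℕ) : Prop where
  simple : IsSimple Λ
  degree : 3 ≤ d
  form : IsHolomorphicForm Set.univ F d
  ample : IsAmple Λ F
  /-- over some point `y` the form has no multiple zeros -/
  simpleZeros : ∃ y, ∀ x : Cn 2, x ≠ 0 → eval x (F y) = 0 → ∃ i, eval x (pderiv i (F y)) ≠ 0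
  /-- near a point where the form is `0` the zeros of `F y b`, `b` fixed, are not all such points -/
  codimension : ∀ y, F y = 0 → ∀ b : Cn 2, ∃ᶠ z in 𝓝 y, eval b (F z) = 0 ∧ F z ≠ 0

/-! ### Hyperbolic families -/

/-! ### The class -/

end Pool.Agent.COT

end
end
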