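import Pool.Agent.H94.PX4.M01
import Pool.Agent.H94.PX4.M37
import Pool.Agent.H94.PX4.M38

/-! The parts of this file: G4.K.Cf, H17GT.Defs_1, H17LG.Defs, H13.CV.BirkA, LG.Ex, LG.Fv, G4.K.Cb. -/

section

/-!
# G4 K Cf: the coefficients of `∏ i, (A x i + s (t - g x i))`

A polynomial in `s`, `t` of degrees `≤ n` (`n = card ι`); its coefficients are fixed linear combinations of its values at `s, t ∈ {0, …, n}` (Lagrange interpolation), so analytic in `x`.  Let `m` be the minimum over `x ∈ ball 0 δ` of the number of the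
`i` with `A x i = 0`, and `Q b x` the coefficient of `s ^ m t ^ b`.  If exactly `m` of the `A x i` are `0`, the coefficient of `s ^ m` is `(∏_{A x i ≠ 0} A x i) ∏_{A x i = 0} (t - g x i)`; if more than `m` are `0`, it is `0`.
-/

set_option autoImplicit false

open Topology Filter Metric

namespace Pool.Agent.G4.K

open Polynomial in
/-- the coefficient of `s ^ a` -/
private noncomputable def RR {ι : Type} [Fintype ι] [DecidableEq ι] (A g : ι → ℂ) (a : ℕ) : Polynomial ℂ :=
  ∑ T ∈ Finset.powersetCard a Finset.univ, (∏ i ∈ T, (X - C (g i))) * C (∏ i ∈ Finset.univ \ T, A i)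

private theorem RR_eval {ι : Type} [Fintype ι] [DecidableEq ι] (A g : ι → ℂ) (a : ℕ) (t : ℂ) :
    (RR A g a).eval t = ∑ T ∈ Finset.powersetCard a Finset.univ, (∏ i ∈ T, (t - g i)) * ∏ i ∈ Finset.univ \ T, A i := by
  unfold RR
  rw [Polynomial.eval_finsetSum]
  refine Finset.sum_congr rfl fun T _ => ?_
  rw [Polynomial.eval_mul, Polynomial.eval_C, Polynomial.eval_prod]
  congr 1
  exact Finset.prod_congr rfl fun i _ => by rw [Polynomial.eval_sub, Polynomial.eval_X, Polynomial.eval_C]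

private theorem RR_sum {ι : Type} [Fintype ι] [DecidableEq ι] (A g : ι → ℂ) (s t : ℂ) :
    ∏ i, (A i + s * (t - g i)) = ∑ a ∈ Finset.range (Fintype.card ι + 1), (RR A g a).eval t * s ^ a := by
  have h1 : ∏ i, (A i + s * (t - g i)) = ∏ i, (s * (t - g i) + A i) := Finset.prod_congr rfl fun i _ => add_comm _ _
  rw [h1, Finset.prod_add, Finset.sum_powerset, Finset.card_univ]
  refine Finset.sum_congr rfl fun a _ => ?_
  rw [RR_eval, Finset.sum_mul]
  refine Finset.sum_congr rfl fun T hT => ?_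
  rw [Finset.prod_mul_distrib, Finset.prod_const, (Finset.mem_powersetCard.1 hT).2]
  ring

private theorem RR_deg {ι : Type} [Fintype ι] [DecidableEq ι] (A g : ι → ℂ) (a : ℕ) : (RR A g a).natDegree ≤ a := by
  unfold RR
  refine Polynomial.natDegree_sum_le_of_forall_le _ _ fun T hT => ?_
  refine (Polynomial.natDegree_mul_C_le _ _).trans ?_
  refine (Polynomial.natDegree_prod_le _ _).trans ?_
  rw [← (Finset.mem_powersetCard.1 hT).2, Finset.card_eq_sum_ones]
  exact Finset.sum_le_sum fun i _ => (Polynomial.natDegree_X_sub_C (g i)).le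

/-- the coefficients of the Lagrange basis -/
private noncomputable def lc (n j b : ℕ) : ℂ :=
  (Lagrange.basis (Finset.range (n + 1)) (fun j : ℕ => (j : ℂ)) j).coeff b

private theorem coeff_interp {n : ℕ} {p : Polynomial ℂ} (hp : p.natDegree ≤ n) (b : ℕ) :
    p.coeff b = ∑ j ∈ Finset.range (n + 1), p.eval (j : ℂ) * lc n j b := by
  have h1 : p.degree < (Finset.range (n + 1)).card := by
    rw [Finset.card_range]
    exact lt_of_le_of_lt (Polynomial.natDegree_le_iff_degree_le.1 hp) (by exact_mod_cast Nat.lt_succ_self n)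
  have h2 := Lagrange.eq_interpolate (s := Finset.range (n + 1)) (v := fun j : ℕ => (j : ℂ))
    (fun a _ b _ h => Nat.cast_injective h) h1
  conv_lhs => rw [h2]
  rw [Lagrange.interpolate_apply, Polynomial.finsetSum_coeff]
  exact Finset.sum_congr rfl fun j _ => by rw [Polynomial.coeff_C_mul]; rfl

private theorem RR_coeff {ι : Type} [Fintype ι] [DecidableEq ι] (A g : ι → ℂ) {a : ℕ} (ha : a ≤ Fintype.card ι) (b : ℕ) :
    (RR A g a).coeff b = ∑ j ∈ Finset.range (Fintype.card ι + 1), (∑ k ∈ Finset.range (Fintype.card ι + 1),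
      (∏ i, (A i + (k : ℂ) * ((j : ℂ) - g i))) * lc (Fintype.card ι) k a) * lc (Fintype.card ι) j b := by
  rw [coeff_interp ((RR_deg A g a).trans ha) b]
  refine Finset.sum_congr rfl fun j _ => ?_
  congr 1
  set p : Polynomial ℂ := ∑ a ∈ Finset.range (Fintype.card ι + 1), Polynomial.C ((RR A g a).eval (j : ℂ)) * Polynomial.X ^ a with hp
  have h1 : p.natDegree ≤ Fintype.card ι := by
    rw [hp]
    refine Polynomial.natDegree_sum_le_of_forall_le _ _ fun c hc => ?_
    refine (Polynomial.natDegree_C_mul_X_pow_le _ _).trans ?_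
    exact Nat.lt_succ_iff.1 (Finset.mem_range.1 hc)
  have h2 : p.coeff a = (RR A g a).eval (j : ℂ) := by
    rw [hp, Polynomial.finsetSum_coeff, Finset.sum_eq_single a]
    · rw [Polynomial.coeff_C_mul, Polynomial.coeff_X_pow_self, mul_one]
    · intro c _ hc
      rw [Polynomial.coeff_C_mul, Polynomial.coeff_X_pow, if_neg (Ne.symm hc), mul_zero]
    · intro h
      exact absurd (Finset.mem_range.2 (Nat.lt_succ_iff.2 ha)) h
  have h3 : ∀ s : ℂ, p.eval s = ∏ i, (A i + s * ((j : ℂ) - g i)) := by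
    intro s
    rw [RR_sum, hp, Polynomial.eval_finsetSum]
    exact Finset.sum_congr rfl fun c _ => by rw [Polynomial.eval_mul, Polynomial.eval_C, Polynomial.eval_pow, Polynomial.eval_X]
  rw [← h2, coeff_interp h1 a]
  exact Finset.sum_congr rfl fun k _ => by rw [h3]

private theorem RR_zero {ι : Type} [Fintype ι] [DecidableEq ι] (A g : ι → ℂ) (J : Finset ι) (hJ : ∀ i, i ∈ J ↔ A i = 0) {a : ℕ}
    (T : Finset ι) (hT : T.card = a) (h : a < J.card ∨ (a = J.card ∧ T ≠ J)) : ∏ i ∈ Finset.univ \ T, A i = 0 := by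
  have h1 : ¬ J ⊆ T := by
    intro h1
    rcases h with h | ⟨h, h'⟩
    · exact absurd (Finset.card_le_card h1) (by omega)
    · exact h' (Finset.eq_of_subset_of_card_le h1 (by omega)).symm
  obtain ⟨i, hi, hi'⟩ := Finset.not_subset.1 h1
  exact Finset.prod_eq_zero (Finset.mem_sdiff.2 ⟨Finset.mem_univ i, hi'⟩) ((hJ i).1 hi)

open Polynomial in
private theorem RR_card {ι : Type} [Fintype ι] [DecidableEq ι] (A g : ι → ℂ) (J : Finset ι) (hJ : ∀ i, i ∈ J ↔ A i = 0) :
    RR A g J.card = (∏ i ∈ J, (X - C (g i))) * C (∏ i ∈ Finset.univ \ J, A i) := by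
  unfold RR
  rw [Finset.sum_eq_single J]
  · intro T hT hne
    rw [RR_zero A g J hJ T (Finset.mem_powersetCard.1 hT).2 (Or.inr ⟨rfl, hne⟩), C_0, mul_zero]
  · intro h
    exact absurd (Finset.mem_powersetCard.2 ⟨Finset.subset_univ J, rfl⟩) h

private theorem RR_lt {ι : Type} [Fintype ι] [DecidableEq ι] (A g : ι → ℂ) (J : Finset ι) (hJ : ∀ i, i ∈ J ↔ A i = 0) {a : ℕ}
    (ha : a < J.card) : RR A g a = 0 := by
  unfold RR
  refine Finset.sum_eq_zero fun T hT => ?_
  rw [RR_zero A g J hJ T (Finset.mem_powersetCard.1 hT).2 (Or.inl ha), Polynomial.C_0, mul_zero]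

private theorem RR_top {ι : Type} [Fintype ι] [DecidableEq ι] (A g : ι → ℂ) (J : Finset ι) (hJ : ∀ i, i ∈ J ↔ A i = 0) :
    (RR A g J.card).coeff J.card = ∏ i ∈ Finset.univ \ J, A i := by
  rw [RR_card A g J hJ, Polynomial.coeff_mul_C]
  have h1 : (∏ i ∈ J, (Polynomial.X - Polynomial.C (g i))).Monic := Polynomial.monic_prod_of_monic _ _ fun i _ => Polynomial.monic_X_sub_C _
  have h2 : (∏ i ∈ J, (Polynomial.X - Polynomial.C (g i))).natDegree = J.card := by
    rw [Polynomial.natDegree_prod_of_monic _ _ fun i _ => Polynomial.monic_X_sub_C _, Finset.card_eq_sum_ones]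
    exact Finset.sum_congr rfl fun i _ => Polynomial.natDegree_X_sub_C (g i)
  rw [← h2, h1.coeff_natDegree, one_mul]

theorem cf_alg {E : Type} [NormedAddCommGroup E] [NormedSpace ℂ E] {ι : Type} [Fintype ι] {δ : ℝ} (hδ : 0 < δ) {A g : E → ι → ℂ}
    (hP : ∀ s t : ℂ, ∀ x ∈ ball (0 : E) δ, AnalyticAt ℂ (fun x => ∏ i, (A x i + s * (t - g x i))) x) :
    ∃ (m : ℕ) (Q : ℕ → E → ℂ), m ≤ Fintype.card ι ∧ (∀ b, ∀ x ∈ ball (0 : E) δ, AnalyticAt ℂ (Q b) x) ∧ (∃ x ∈ ball (0 : E) δ, Q m x ≠ 0) ∧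
      ∀ x ∈ ball (0 : E) δ, Q m x ≠ 0 → ∃ J : Finset ι, (∀ i, i ∈ J ↔ A x i = 0) ∧ J.card = m ∧ ∀ t : ℂ, ∑ b ∈ Finset.range (m + 1), Q b x * t ^ b = Q m x * ∏ i ∈ J, (t - g x i) := by
  classical
  set Z : E → Finset ι := fun x => Finset.univ.filter fun i => A x i = 0 with hZ
  have hZm : ∀ x i, i ∈ Z x ↔ A x i = 0 := fun x i => by
    rw [hZ]
    simp
  have hex : ∃ k, ∃ x ∈ ball (0 : E) δ, (Z x).card = k := ⟨_, 0, mem_ball_self hδ, rfl⟩
  obtain ⟨x₀, hx₀, hm⟩ := Nat.find_spec hex
  have hmin : ∀ x ∈ ball (0 : E) δ, Nat.find hex ≤ (Z x).card := fun x hx => Nat.find_min' hex ⟨x, hx, rfl⟩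
  set m := Nat.find hex
  have hmn : m ≤ Fintype.card ι := by
    rw [← hm]
    exact Finset.card_le_univ _
  have hne : ∀ x, ∏ i ∈ Finset.univ \ Z x, A x i ≠ 0 := by
    intro x
    rw [Finset.prod_ne_zero_iff]
    intro i hi h0
    exact (Finset.mem_sdiff.1 hi).2 ((hZm x i).2 h0)
  refine ⟨m, fun b x => (RR (A x) (g x) m).coeff b, hmn, ?_, ⟨x₀, hx₀, ?_⟩, ?_⟩
  · intro b x hx
    have h1 : (fun x => (RR (A x) (g x) m).coeff b) = fun x => ∑ j ∈ Finset.range (Fintype.card ι + 1),
        (∑ k ∈ Finset.range (Fintype.card ι + 1), (∏ i, (A x i + (k : ℂ) * ((j : ℂ) - g x i))) * lc (Fintype.card ι) k m) *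
          lc (Fintype.card ι) j b := funext fun x => RR_coeff (A x) (g x) hmn b
    show AnalyticAt ℂ (fun x => (RR (A x) (g x) m).coeff b) x
    rw [h1]
    refine Finset.analyticAt_fun_sum _ fun j _ => ?_
    refine AnalyticAt.mul ?_ analyticAt_const
    refine Finset.analyticAt_fun_sum _ fun k _ => ?_
    exact (hP (k : ℂ) (j : ℂ) x hx).mul analyticAt_const
  · show (RR (A x₀) (g x₀) m).coeff m ≠ 0
    rw [← hm, RR_top (A x₀) (g x₀) (Z x₀) (hZm x₀)]
    exact hne x₀
  · intro x hx hQ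
    have h1 : (Z x).card = m := by
      refine le_antisymm ?_ (hmin x hx)
      by_contra h
      apply hQ
      show (RR (A x) (g x) m).coeff m = 0
      rw [RR_lt (A x) (g x) (Z x) (hZm x) (by omega), Polynomial.coeff_zero]
    refine ⟨Z x, hZm x, h1, fun t => ?_⟩
    have h2 : (RR (A x) (g x) m).coeff m = ∏ i ∈ Finset.univ \ Z x, A x i := by
      rw [← h1]
      exact RR_top (A x) (g x) (Z x) (hZm x)
    have h3 := RR_deg (A x) (g x) m
    show ∑ b ∈ Finset.range (m + 1), (RR (A x) (g x) m).coeff b * t ^ b = (RR (A x) (g x) m).coeff m * _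
    rw [← Polynomial.eval_eq_sum_range' (Nat.lt_succ_of_le h3), h2]
    have h4 : RR (A x) (g x) m = (∏ i ∈ Z x, (Polynomial.X - Polynomial.C (g x i))) * Polynomial.C (∏ i ∈ Finset.univ \ Z x, A x i) := by
      rw [← h1]
      exact RR_card (A x) (g x) (Z x) (hZm x)
    rw [h4, Polynomial.eval_mul, Polynomial.eval_C, Polynomial.eval_prod, mul_comm]
    congr 1
    exact Finset.prod_congr rfl fun i _ => by rw [Polynomial.eval_sub, Polynomial.eval_X, Polynomial.eval_C]

end Pool.Agent.G4.K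

end

section

/-!
# Varieties of general type, in terms of their function field
-/

open MvPolynomial
open Pool.Agent.H23 (RatForm regularForms PrimeDivisorOver)

noncomputable section

namespace Pool.Agent.H17GT

section FunctionField

variable {K : Type} [Field K] [Algebra ℂ K] {k : ℕ}

/-- Let `K` be the function field of a variety of dimension `k`, let `ω` be a rational `k`-form and
`f ∈ K`. The rational `m`-canonical form `f ω^m` is regular along the prime divisor `E`: one has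
`ω = g η` with `η` regular along `E` and `f g ^ m` regular along `E`. -/
def RegularAlong (E : PrimeDivisorOver K k) (m : ℕ) (f : K) (ω : RatForm K k) : Prop :=
  ∃ (g : K) (η : RatForm K k), η ∈ regularForms k E.localRing ∧ ω = g • η ∧ 0 ≤ E.ord (f * g ^ m)

end FunctionField

end Pool.Agent.H17GT

end
end

section

/-!
# Varieties of log general type, in terms of their function field
-/

open MvPolynomial
open Pool.Agent.H23 (RatForm regularForms PrimeDivisorOver)
open Pool.Agent.H17GT (RegularAlong coordFun functionField)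

noncomputable section

namespace Pool.Agent.H17LG

section FunctionField

variable {K : Type} [Field K] [Algebra ℂ K] {k : ℕ}

/-- The rational `m`-canonical form `f ω^m` has at most logarithmic poles along the prime divisor
`E`: one has `ω = g η` with `η` regular along `E` and `f g ^ m` has a pole of order at most `m`
along `E`. -/
def LogRegularAlong (E : PrimeDivisorOver K k) (m : ℕ) (f : K) (ω : RatForm K k) : Prop :=
  ∃ (g : K) (η : RatForm K k), η ∈ regularForms k E.localRing ∧ ω = g • η ∧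
    0 ≤ E.ord (f * g ^ m) + m

/-- Let `U` be a variety of dimension `k` with function field `K`, and let `B` be the set of the
prime divisors over `K` whose centre lies in the boundary of a compactification of `U`. The variety
`U` is of log general type: for some `m ≥ 1` there are `m`-canonical forms `f₀ ω^m, …, f_r ω^m`,
regular along all prime divisors outside `B`, with at most logarithmic poles along the prime
divisors in `B`, which define a generically finite rational map. -/
def IsLogGeneralType (B : PrimeDivisorOver K k → Prop) : Prop :=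
  ∃ m : ℕ, 1 ≤ m ∧ ∃ ω : RatForm K k, ω ≠ 0 ∧ ∃ (r : ℕ) (f : Fin (r + 1) → K), f 0 ≠ 0 ∧
    (∀ i, ∀ E : PrimeDivisorOver K k, (¬ B E → RegularAlong E m (f i) ω) ∧
      (B E → LogRegularAlong E m (f i) ω)) ∧
    Algebra.IsAlgebraic (IntermediateField.adjoin ℂ (Set.range fun i => f i / f 0)) K

end FunctionField

/-- The function `x_i / x_j` on the subvariety of `ℙ^N` given by `P`. -/
def ratio {N : ℕ} (P : Ideal (MvPolynomial (Fin (N + 1)) ℂ)) [P.IsPrime] (i j : Fin (N + 1)) :
    functionField P :=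
  ⟨coordFun P i / coordFun P j, IntermediateField.subset_adjoin _ _ ⟨i, j, rfl⟩⟩

end Pool.Agent.H17LG

end
end

section

/-!
# CV BirkA: replacing an element of a basis over `ℂ[x]`

`w' i₀ = ∑ c i * w i`, `w' i = w i` for `i ≠ i₀`: a basis over `L` because `c i₀ = γ ≠ 0` (e.g. `Module.Basis.mk` with linear independence and span; or the change of basis by an invertible matrix / linear
equivalence; or `basisOfLinearIndependentOfCardEqFinrank`).  Let `f = ∑ r i * w i = ∑ r' i * w' i`: `r i₀ = γ r' i₀`, `r i = r' i + r' i₀ * c i` for `i ≠ i₀`.  So the `r i` are in `ℂ[x]` if and only if the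
`r' i` are (`γ⁻¹ ∈ ℂ[x]`).
-/

set_option autoImplicit false

open Pool.Agent.H23.Fano (PrimeDivisorOver Form regularForms)

noncomputable section

namespace Pool.Agent.H13.CV

variable {K : Type} [Field K] [Algebra ℂ K] {L : IntermediateField ℂ K} {x : K} {n : ℕ}

theorem AffB.replace (hL : Gen L x) {w : Module.Basis (Fin n) L K} (hw : AffB x w) (i₀ : Fin n) (c : Fin n → K)
    (hc : ∀ i, c i ∈ Algebra.adjoin ℂ {x}) {γ : ℂ} (hγ : γ ≠ 0) (hi₀ : c i₀ = algebraMap ℂ K γ) :
    ∃ w' : Module.Basis (Fin n) L K, AffB x w' ∧ w' i₀ = ∑ i, c i * w i ∧ ∀ i, i ≠ i₀ → w' i = w i := by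
  classical
  have hcL : ∀ i, c i ∈ L := by
    intro i
    rw [hL.eq]
    exact IntermediateField.algebra_adjoin_le_adjoin ℂ {x} (hc i)
  obtain ⟨c', hc'⟩ : ∃ c' : Fin n → L, ∀ i, ((c' i : L) : K) = c i := ⟨fun i => ⟨c i, hcL i⟩, fun i => rfl⟩
  obtain ⟨g, hg⟩ : ∃ g : L, g = algebraMap ℂ L γ := ⟨_, rfl⟩
  have hgK : (g : K) = algebraMap ℂ K γ := by rw [hg]; rfl
  have hg0 : g ≠ 0 := by
    rw [hg]
    exact (map_ne_zero_iff _ (algebraMap ℂ L).injective).2 hγ
  have hcg : c' i₀ = g := by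
    apply Subtype.ext
    rw [hc' i₀, hi₀, hgK]
  obtain ⟨u, hu⟩ : ∃ u : K, u = (∑ i, c' i • w i) - w i₀ := ⟨_, rfl⟩
  have hur : ∀ i, w.repr u i = c' i - if i = i₀ then 1 else 0 := by
    intro i
    rw [hu, map_sub, Finsupp.sub_apply, Module.Basis.repr_sum_self, Module.Basis.repr_self,
      Finsupp.single_apply]
    congr 1
    by_cases h : i = i₀
    · simp [h]
    · simp [h, Ne.symm h]
  have hur0 : w.repr u i₀ = g - 1 := by rw [hur, if_pos rfl, hcg]
  have hT : ∀ f : K, (LinearMap.id + (LinearMap.toSpanSingleton L K u) ∘ₗ (w.coord i₀) : K →ₗ[L] K) f =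
      f + w.repr f i₀ • u := by
    intro f
    simp
  have hS : ∀ f : K, (LinearMap.id - (LinearMap.toSpanSingleton L K u) ∘ₗ (g⁻¹ • w.coord i₀) : K →ₗ[L] K) f =
      f - (g⁻¹ * w.repr f i₀) • u := by
    intro f
    simp
  obtain ⟨T, hTd⟩ : ∃ T : K →ₗ[L] K, ∀ f, T f = f + w.repr f i₀ • u := ⟨_, hT⟩
  obtain ⟨S, hSd⟩ : ∃ S : K →ₗ[L] K, ∀ f, S f = f - (g⁻¹ * w.repr f i₀) • u := ⟨_, hS⟩
  have hTS : ∀ f, T (S f) = f := by
    intro f
    rw [hTd, hSd, map_sub, map_smul, Finsupp.sub_apply, Finsupp.smul_apply, hur0, smul_eq_mul]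
    have e : w.repr f i₀ - g⁻¹ * w.repr f i₀ * (g - 1) = g⁻¹ * w.repr f i₀ := by
      field_simp
      ring
    rw [e]
    abel
  have hST : ∀ f, S (T f) = f := by
    intro f
    rw [hSd, hTd, map_add, map_smul, Finsupp.add_apply, Finsupp.smul_apply, hur0, smul_eq_mul]
    have e : g⁻¹ * (w.repr f i₀ + w.repr f i₀ * (g - 1)) = w.repr f i₀ := by
      field_simp
      ring
    rw [e]
    abel
  let e : K ≃ₗ[L] K := LinearEquiv.ofLinearMap T S (LinearMap.ext hTS) (LinearMap.ext hST)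
  have he : ∀ f, e f = T f := fun f => rfl
  have hes : ∀ f, e.symm f = S f := fun f => rfl
  have hrepr : ∀ f i, (w.map e).repr f i = w.repr f i - g⁻¹ * w.repr f i₀ * (c' i - if i = i₀ then 1 else 0) := by
    intro f i
    rw [Module.Basis.map_repr, LinearEquiv.trans_apply, hes, hSd, map_sub, map_smul, Finsupp.sub_apply,
      Finsupp.smul_apply, hur, smul_eq_mul]
  have hgi : algebraMap ℂ K γ⁻¹ ∈ Algebra.adjoin ℂ {x} := Subalgebra.algebraMap_mem _ _
  have hgg : algebraMap ℂ K γ ∈ Algebra.adjoin ℂ {x} := Subalgebra.algebraMap_mem _ _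
  have hginv : ((g⁻¹ : L) : K) = algebraMap ℂ K γ⁻¹ := by
    rw [map_inv₀, ← hgK]
    rfl
  have hd : ∀ i, (((c' i - if i = i₀ then 1 else 0 : L)) : K) ∈ Algebra.adjoin ℂ {x} := by
    intro i
    have e1 : (((c' i - if i = i₀ then 1 else 0 : L)) : K) = c i - if i = i₀ then 1 else 0 := by
      split_ifs
      · rw [← hc' i]; rfl
      · rw [← hc' i]; rfl
    rw [e1]
    refine Subalgebra.sub_mem _ (hc i) ?_
    split_ifs
    · exact Subalgebra.one_mem _
    · exact Subalgebra.zero_mem _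
  refine ⟨w.map e, ?_, ?_, ?_⟩
  · intro f
    rw [hw f]
    constructor
    · intro h i
      rw [hrepr]
      have e1 : ((w.repr f i - g⁻¹ * w.repr f i₀ * (c' i - if i = i₀ then 1 else 0) : L) : K) =
          ((w.repr f i : L) : K) - ((g⁻¹ : L) : K) * ((w.repr f i₀ : L) : K) *
            (((c' i - if i = i₀ then 1 else 0 : L)) : K) := rfl
      rw [e1, hginv]
      exact Subalgebra.sub_mem _ (h i) (Subalgebra.mul_mem _ (Subalgebra.mul_mem _ hgi (h i₀)) (hd i))
    · intro h
      have h0 : ((w.repr f i₀ : L) : K) ∈ Algebra.adjoin ℂ {x} := by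
        have h1 := h i₀
        rw [hrepr, if_pos rfl, hcg] at h1
        have e1 : w.repr f i₀ - g⁻¹ * w.repr f i₀ * (g - 1) = g⁻¹ * w.repr f i₀ := by
          field_simp
          ring
        rw [e1] at h1
        have e2 : ((w.repr f i₀ : L) : K) = algebraMap ℂ K γ * (((g⁻¹ * w.repr f i₀ : L)) : K) := by
          have e3 : w.repr f i₀ = g * (g⁻¹ * w.repr f i₀) := by
            field_simp
          rw [← hgK]
          conv_lhs => rw [e3]
          rfl
        rw [e2]
        exact Subalgebra.mul_mem _ hgg h1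
      intro i
      have h1 := h i
      rw [hrepr] at h1
      have e1 : ((w.repr f i : L) : K) =
          ((w.repr f i - g⁻¹ * w.repr f i₀ * (c' i - if i = i₀ then 1 else 0) : L) : K) +
            ((g⁻¹ : L) : K) * ((w.repr f i₀ : L) : K) * (((c' i - if i = i₀ then 1 else 0 : L)) : K) := by
        have e2 : w.repr f i = (w.repr f i - g⁻¹ * w.repr f i₀ * (c' i - if i = i₀ then 1 else 0)) +
            g⁻¹ * w.repr f i₀ * (c' i - if i = i₀ then 1 else 0) := by ring
        conv_lhs => rw [e2]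
        rfl
      rw [e1, hginv]
      exact Subalgebra.add_mem _ h1 (Subalgebra.mul_mem _ (Subalgebra.mul_mem _ hgi h0) (hd i))
  · rw [Module.Basis.map_apply, he, hTd, Module.Basis.repr_self, Finsupp.single_eq_same, one_smul, hu]
    have e1 : ∑ i, c' i • w i = ∑ i, c i * w i := by
      refine Finset.sum_congr rfl fun i _ => ?_
      rw [← hc' i]
      rfl
    rw [e1]
    ring
  · intro i hi
    rw [Module.Basis.map_apply, he, hTd, Module.Basis.repr_self, Finsupp.single_apply, if_neg hi, zero_smul,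
      add_zero]

end Pool.Agent.H13.CV

end
end

section

/-!
# LG Ex: extension of a discrete valuation to a finite extension

`O = {a | a = 0 ∨ 0 ≤ v a}` is a discrete valuation ring with fraction field `K` (`t` is a uniformizer: every `a ≠ 0` is `t ^ (v a)` times a unit of `O`).  The integral closure `B` of `O` in `K'` is a Dedekind domain
(`integralClosure.isDedekindDomain`; `K'/K` is separable, characteristic 0), `P` a maximal ideal of `B` over the maximal ideal of `O` (`Ideal.exists_ideal_over_maximal_of_isIntegral`); `ν` = minus the logarithm of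
`P.valuation K'` (`IsDedekindDomain.HeightOneSpectrum.valuation`), `e = ν t`; units of `O` have `ν = 0`.  (Or any other way: a valuation subring of `K'` which dominates `O`, `LocalSubring.exists_le_valuationSubring`.)
-/

set_option autoImplicit false

open MvPolynomial
open Pool.Agent.H23 (RatForm regularForms PrimeDivisorOver)

noncomputable section

namespace Pool.Agent.LG

variable {K : Type} [Field K] [Algebra ℂ K] {k n D : ℕ} {ι : Type}

private theorem v_one {v : K → ℤ} (hv : IV K v) : v 1 = 0 := by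
  simpa using hv.const 1 one_ne_zero

private theorem v_neg_one {v : K → ℤ} (hv : IV K v) : v (-1) = 0 := by
  have h := hv.const (-1) (by simp)
  simpa using h

private theorem v_neg {v : K → ℤ} (hv : IV K v) {a : K} (ha : a ≠ 0) : v (-a) = v a := by
  have h := hv.mul (a := (-1 : K)) (b := a) (by simp) ha
  rw [v_neg_one hv, zero_add] at h
  rwa [neg_one_mul] at h

private theorem v_inv {v : K → ℤ} (hv : IV K v) {a : K} (ha : a ≠ 0) : v a⁻¹ = - v a := by
  have h := hv.mul (a := a) (b := a⁻¹) ha (inv_ne_zero ha)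
  rw [mul_inv_cancel₀ ha, v_one hv] at h
  linarith

private theorem v_pow {v : K → ℤ} (hv : IV K v) {a : K} (ha : a ≠ 0) (m : ℕ) : v (a ^ m) = m * v a := by
  induction m with
  | zero => simp [v_one hv]
  | succ m ih =>
    rw [pow_succ, hv.mul (pow_ne_zero m ha) ha, ih]
    push_cast
    ring

private theorem v_zpow {v : K → ℤ} (hv : IV K v) {a : K} (ha : a ≠ 0) (m : ℤ) : v (a ^ m) = m * v a := by
  cases m with
  | ofNat m => simpa using v_pow hv ha m
  | negSucc m =>
    rw [zpow_negSucc, v_inv hv (pow_ne_zero _ ha), v_pow hv ha]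
    push_cast
    rw [Int.negSucc_eq]
    ring

/-- the valuation ring of `v` -/
private def vr {v : K → ℤ} (hv : IV K v) : ValuationSubring K where
  carrier := {a | a = 0 ∨ 0 ≤ v a}
  mul_mem' := by
    intro a b ha hb
    by_cases h0 : a = 0
    · left; simp [h0]
    by_cases h1 : b = 0
    · left; simp [h1]
    right
    rw [hv.mul h0 h1]
    rcases ha with ha | ha
    · exact absurd ha h0
    rcases hb with hb | hb
    · exact absurd hb h1
    exact add_nonneg ha hb
  one_mem' := by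
    right
    rw [v_one hv]
  add_mem' := by
    intro a b ha hb
    by_cases h0 : a = 0
    · simpa [h0] using hb
    by_cases h1 : b = 0
    · simpa [h1] using ha
    by_cases h2 : a + b = 0
    · left; exact h2
    right
    rcases ha with ha | ha
    · exact absurd ha h0
    rcases hb with hb | hb
    · exact absurd hb h1
    exact le_trans (le_min ha hb) (hv.add h0 h1 h2)
  zero_mem' := by left; rfl
  neg_mem' := by
    intro a ha
    rcases ha with ha | ha
    · left; simp [ha]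
    · by_cases h0 : a = 0
      · left; simp [h0]
      right
      rwa [v_neg hv h0]
  mem_or_inv_mem' := by
    intro a
    by_cases h0 : a = 0
    · left; left; exact h0
    by_cases h : 0 ≤ v a
    · left; right; exact h
    · right; right
      rw [v_inv hv h0]
      linarith

private theorem mem_vr {v : K → ℤ} (hv : IV K v) {a : K} (ha : a ≠ 0) : a ∈ vr hv ↔ 0 ≤ v a := by
  change (a = 0 ∨ 0 ≤ v a) ↔ _
  simp [ha]

private theorem isUnit_vr {v : K → ℤ} (hv : IV K v) (x : vr hv) (hx : (x : K) ≠ 0) : IsUnit x ↔ v x = 0 := by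
  constructor
  · intro h
    obtain ⟨u, rfl⟩ := h
    have h1 : 0 ≤ v ((u : vr hv) : K) := (mem_vr hv hx).1 (u : vr hv).2
    have e : ((u : vr hv) : K) * (((u⁻¹ : (vr hv)ˣ) : vr hv) : K) = 1 := by
      have h := congrArg (Subtype.val) (u.mul_inv)
      exact h
    have h2' : (((u⁻¹ : (vr hv)ˣ) : vr hv) : K) ≠ 0 := by
      intro h
      rw [h, mul_zero] at e
      exact zero_ne_one e
    have h2 : 0 ≤ v (((u⁻¹ : (vr hv)ˣ) : vr hv) : K) := (mem_vr hv h2').1 ((u⁻¹ : (vr hv)ˣ) : vr hv).2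
    have h3 := hv.mul hx h2'
    rw [e, v_one hv] at h3
    linarith
  · intro h
    have hi : (x : K)⁻¹ ∈ vr hv := (mem_vr hv (inv_ne_zero hx)).2 (by rw [v_inv hv hx, h, neg_zero])
    refine IsUnit.of_mul_eq_one ⟨(x : K)⁻¹, hi⟩ ?_
    apply Subtype.ext
    change (x : K) * (x : K)⁻¹ = 1
    exact mul_inv_cancel₀ hx

private theorem dvr_vr {v : K → ℤ} (hv : IV K v) {t : K} (ht : t ≠ 0) (h1 : v t = 1) : IsDiscreteValuationRing (vr hv) := by
  apply IsDiscreteValuationRing.ofHasUnitMulPowIrreducibleFactorization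
  have htm : t ∈ vr hv := (mem_vr hv ht).2 (by rw [h1]; norm_num)
  refine ⟨⟨t, htm⟩, ⟨?_, ?_⟩, ?_⟩
  · rw [isUnit_vr hv _ ht]
    change ¬ v t = 0
    rw [h1]; norm_num
  · intro a b hab
    have hab' : t = (a : K) * (b : K) := congrArg Subtype.val hab
    have ha : (a : K) ≠ 0 := by
      intro h; apply ht; rw [hab', h, zero_mul]
    have hb : (b : K) ≠ 0 := by
      intro h; apply ht; rw [hab', h, mul_zero]
    have h2 := hv.mul ha hb
    rw [← hab', h1] at h2
    have h3 := (mem_vr hv ha).1 a.2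
    have h4 := (mem_vr hv hb).1 b.2
    rw [isUnit_vr hv a ha, isUnit_vr hv b hb]
    omega
  · intro x hx
    have hx' : (x : K) ≠ 0 := fun h => hx (Subtype.ext h)
    have h3 := (mem_vr hv hx').1 x.2
    obtain ⟨m, hm⟩ := Int.eq_ofNat_of_zero_le h3
    refine ⟨m, ?_⟩
    have hu0 : (x : K) * (t ^ m)⁻¹ ≠ 0 := mul_ne_zero hx' (inv_ne_zero (pow_ne_zero m ht))
    have hv0 : v ((x : K) * (t ^ m)⁻¹) = 0 := by
      rw [hv.mul hx' (inv_ne_zero (pow_ne_zero m ht)), v_inv hv (pow_ne_zero m ht), v_pow hv ht, h1, hm]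
      simp
    have hum : (x : K) * (t ^ m)⁻¹ ∈ vr hv := (mem_vr hv hu0).2 (by rw [hv0])
    have hunit : IsUnit (⟨_, hum⟩ : vr hv) := (isUnit_vr hv ⟨_, hum⟩ hu0).2 hv0
    obtain ⟨u, hu⟩ := hunit
    refine ⟨u, ?_⟩
    apply Subtype.ext
    rw [hu]
    change t ^ m * ((x : K) * (t ^ m)⁻¹) = x
    field_simp

theorem exists_ext {K' : Type} [Field K'] [Algebra K K'] [FiniteDimensional K K'] [Algebra ℂ K'] [IsScalarTower ℂ K K'] {v : K → ℤ} (hv : IV K v) (ht : ∃ t, t ≠ 0 ∧ v t = 1) :
    ∃ (ν : K' → ℤ) (e : ℤ), 1 ≤ e ∧ IV K' ν ∧ ∀ a : K, a ≠ 0 → ν (algebraMap K K' a) = e * v a := by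
  obtain ⟨t, ht0, ht1⟩ := ht
  have : CharZero K := charZero_of_injective_algebraMap (algebraMap ℂ K).injective
  have hd : IsDiscreteValuationRing (vr hv) := dvr_vr hv ht0 ht1
  have : IsDedekindDomain (integralClosure (vr hv) K') := integralClosure.isDedekindDomain (vr hv) K K'
  have : IsFractionRing (integralClosure (vr hv) K') K' := IsIntegralClosure.isFractionRing_of_finite_extension (vr hv) K K' (integralClosure (vr hv) K')
  have hinj : Function.Injective (algebraMap (vr hv) (integralClosure (vr hv) K')) := by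
    have h1 : Function.Injective (algebraMap (vr hv) K') := by
      rw [IsScalarTower.algebraMap_eq (vr hv) K K']
      exact (algebraMap K K').injective.comp (IsFractionRing.injective (vr hv) K)
    intro a b hab
    apply h1
    rw [IsScalarTower.algebraMap_apply (vr hv) (integralClosure (vr hv) K') K', hab, ← IsScalarTower.algebraMap_apply (vr hv) (integralClosure (vr hv) K') K']
  obtain ⟨Q, hQm, hQ⟩ := Ideal.exists_ideal_over_maximal_of_isIntegral (S := integralClosure (vr hv) K') (IsLocalRing.maximalIdeal (vr hv)) (by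
    rw [(RingHom.injective_iff_ker_eq_bot _).1 hinj]; exact bot_le)
  have htm : t ∈ vr hv := (mem_vr hv ht0).2 (by rw [ht1]; norm_num)
  have htQ : algebraMap (vr hv) (integralClosure (vr hv) K') ⟨t, htm⟩ ∈ Q := by
    rw [← Ideal.mem_comap, hQ, IsLocalRing.mem_maximalIdeal, mem_nonunits_iff, isUnit_vr hv _ ht0]
    change ¬ v t = 0
    rw [ht1]; norm_num
  have hQ0 : Q ≠ ⊥ := by
    intro h
    rw [h, Ideal.mem_bot] at htQ
    have := hinj (htQ.trans (map_zero _).symm)
    exact ht0 (congrArg Subtype.val this)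
  let P : IsDedekindDomain.HeightOneSpectrum (integralClosure (vr hv) K') := ⟨Q, hQm.isPrime, hQ0⟩
  have key : ∀ a : vr hv, algebraMap (integralClosure (vr hv) K') K' (algebraMap (vr hv) (integralClosure (vr hv) K') a) = algebraMap K K' (a : K) := by
    intro a
    rw [← IsScalarTower.algebraMap_apply (vr hv) (integralClosure (vr hv) K') K', IsScalarTower.algebraMap_apply (vr hv) K K']
    rfl
  have hle : ∀ a : vr hv, P.valuation K' (algebraMap K K' (a : K)) ≤ 1 := by
    intro a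
    rw [← key a]
    exact P.valuation_le_one _
  have hun : ∀ a : K, a ≠ 0 → v a = 0 → P.valuation K' (algebraMap K K' a) = 1 := by
    intro a ha h0
    have h1 : a ∈ vr hv := (mem_vr hv ha).2 (by rw [h0])
    have h2 : a⁻¹ ∈ vr hv := (mem_vr hv (inv_ne_zero ha)).2 (by rw [v_inv hv ha, h0, neg_zero])
    have h3 := hle ⟨a, h1⟩
    have h4 := hle ⟨a⁻¹, h2⟩
    simp only [map_inv₀] at h3 h4
    apply le_antisymm h3
    have h5 : P.valuation K' (algebraMap K K' a) ≠ 0 := by
      rw [Valuation.ne_zero_iff]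
      simpa using ha
    exact (inv_le_one₀ (zero_lt_iff.2 h5)).1 h4
  have hlt : P.valuation K' (algebraMap K K' t) < 1 := by
    rw [← key ⟨t, htm⟩]
    exact (P.valuation_lt_one_iff_mem _).2 htQ
  have hne : ∀ x : K', x ≠ 0 → P.valuation K' x ≠ 0 := fun x hx => (Valuation.ne_zero_iff _).2 hx
  have htK' : algebraMap K K' t ≠ 0 := by simpa using ht0
  refine ⟨fun x => - WithZero.log (P.valuation K' x), - WithZero.log (P.valuation K' (algebraMap K K' t)), ?_, ⟨?_, ?_, ?_⟩, ?_⟩
  · have h := (WithZero.log_lt_log (hne _ htK') one_ne_zero).2 hlt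
    rw [WithZero.log_one] at h
    omega
  · intro a b ha hb
    rw [map_mul, WithZero.log_mul (hne a ha) (hne b hb)]
    ring
  · intro a b ha hb hab
    have h := (P.valuation K').map_add a b
    rcases le_max_iff.1 h with h | h
    · have := (WithZero.log_le_log (hne _ hab) (hne _ ha)).2 h
      exact min_le_iff.2 (Or.inl (by simpa using this))
    · have := (WithZero.log_le_log (hne _ hab) (hne _ hb)).2 h
      exact min_le_iff.2 (Or.inr (by simpa using this))
  · intro c hc
    rw [IsScalarTower.algebraMap_apply ℂ K K', hun _ (by simpa using hc) (hv.const c hc), WithZero.log_one, neg_zero]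
  · intro a ha
    change - WithZero.log (P.valuation K' (algebraMap K K' a)) = _
    have h1 : a * (t ^ (v a))⁻¹ ≠ 0 := mul_ne_zero ha (inv_ne_zero (zpow_ne_zero _ ht0))
    have h2 : v (a * (t ^ (v a))⁻¹) = 0 := by
      rw [hv.mul ha (inv_ne_zero (zpow_ne_zero _ ht0)), v_inv hv (zpow_ne_zero _ ht0), v_zpow hv ht0, ht1]
      ring
    have h3 := hun _ h1 h2
    have h4 : a = a * (t ^ (v a))⁻¹ * t ^ (v a) := by
      rw [mul_assoc, inv_mul_cancel₀ (zpow_ne_zero _ ht0), mul_one]
    have h5 : P.valuation K' (algebraMap K K' a) = (P.valuation K' (algebraMap K K' t)) ^ (v a) := by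
      conv_lhs => rw [h4]
      rw [map_mul (algebraMap K K'), map_mul (P.valuation K'), h3, one_mul, map_zpow₀, map_zpow₀]
    rw [h5, WithZero.log_zpow]
    simp only [smul_eq_mul]
    ring

end Pool.Agent.LG

end
end

section

/-!
# LG Fv: the orders of functions and of top forms along a prime divisor

`b` the basis of `H17LG.exists_logDivisorCoords`, `v a` the integer with `E.ord a = v a` for `a ≠ 0` (`H23.exists_int`), `o ω = v (fc b ω)`.
* `smul`, `addf`: `fc b` is linear and injective (`H23.eq_fc_smul`).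
* `log`: `fc b (wd (dd ∘ a)) = b.det (dd ∘ a)` is the determinant of the matrix `dualDer b i (a j)` (`H23.fc_ιMulti`, `Module.Basis.det_apply`); every term of the Leibniz formula has order `≥ ∑ v (a j) - 1`:
  the entries of the row `i = 0` have order `≥ ord (a j) - 1` (last clause of `exists_logDivisorCoords`), the others order `≥ ord (a j)`.
* `reg`: all entries are in the valuation ring.
* the last two clauses: `g = fc b ω`, `η = wd b = wd (dd ∘ g)`, which is regular (`AddSubgroup.subset_closure`).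
-/

set_option autoImplicit false

open MvPolynomial
open Pool.Agent.H23 (RatForm regularForms PrimeDivisorOver)

noncomputable section

namespace Pool.Agent.LG

variable {K : Type} [Field K] [Algebra ℂ K] {k n D : ℕ} {ι : Type}

end Pool.Agent.LG

end
end

section

/-!
# G4 K Cb: the Schwarz lemma for the zeros

`m`, `Q` from `cf_alg`.  For `Q m x ≠ 0` and `k ≤ m`: `q k x = Q (m - k) x / Q m x = ± e_k (g x i, i ∈ J)`, `‖q k x‖ ≤ 2 ^ m S ^ k`, and `‖q k x‖ ≤ 2 ^ m (C ‖x‖ ^ T) ^ k` near `0`.  By `TG.riemann_one` `q k` extends holomorphically to the ball (the extension is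
analytic, with the same bounds, by density).  One variable Schwarz lemma on the lines `t ↦ t x` (`‖x‖ < δ`, `t` in the disc of radius `δ / ‖x‖`): `‖q k x‖ ≤ 2 ^ m S ^ k (‖x‖ / δ) ^ (k T)`.
The `g x i` are the zeros of the monic polynomial with the coefficients `q k x`: `‖g x i‖ ≤ (m + 1) 2 ^ m S (‖x‖ / δ) ^ T`.
-/

set_option autoImplicit false

open Topology Filter Metric

namespace Pool.Agent.G4.K

/-- coefficients of a product of linear factors -/
private theorem cf_coef {ι : Type} (J : Finset ι) (γ : ι → ℂ) {m : ℕ} (hJ : J.card = m) {q : ℕ → ℂ} {a : ℂ} (ha : a ≠ 0)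
    (h : ∀ t : ℂ, ∑ b ∈ Finset.range (m + 1), q b * t ^ b = a * ∏ i ∈ J, (t - γ i)) {B : ℝ} (hB : ∀ i ∈ J, ‖γ i‖ ≤ B) (b : ℕ) (hb : b ≤ m) :
    ‖q b / a‖ ≤ 2 ^ m * B ^ (m - b) := by
  classical
  set p : Polynomial ℂ := ∏ i ∈ J, (Polynomial.X - Polynomial.C (γ i)) with hp
  have hmon : p.Monic := Polynomial.monic_prod_of_monic _ _ fun i _ => Polynomial.monic_X_sub_C _
  have hdeg : p.natDegree = m := by
    rw [hp, Polynomial.natDegree_prod_of_monic _ _ fun i _ => Polynomial.monic_X_sub_C _]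
    simp [hJ]
  have hspl : p.Splits := Polynomial.Splits.prod fun i _ => Polynomial.Splits.X_sub_C _
  have hroots : ∀ z ∈ (Polynomial.map (RingHom.id ℂ) p).roots, ‖z‖ ≤ B := by
    intro z hz
    rw [Polynomial.map_id, Polynomial.mem_roots hmon.ne_zero, Polynomial.IsRoot.def, hp, Polynomial.eval_prod, Finset.prod_eq_zero_iff] at hz
    obtain ⟨i, hi, h0⟩ := hz
    simp only [Polynomial.eval_sub, Polynomial.eval_X, Polynomial.eval_C] at h0
    rw [sub_eq_zero.mp h0]
    exact hB i hi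
  have heq : (∑ b ∈ Finset.range (m + 1), Polynomial.C (q b / a) * Polynomial.X ^ b) = p := by
    refine Polynomial.funext fun t => ?_
    rw [Polynomial.eval_finsetSum, hp, Polynomial.eval_prod]
    simp only [Polynomial.eval_mul, Polynomial.eval_C, Polynomial.eval_pow, Polynomial.eval_X, Polynomial.eval_sub]
    have h1 := h t
    have h2 : ∑ b ∈ Finset.range (m + 1), q b / a * t ^ b = (∑ b ∈ Finset.range (m + 1), q b * t ^ b) / a := by
      rw [Finset.sum_div]
      exact Finset.sum_congr rfl fun b _ => by ring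
    rw [h2, h1]
    field_simp
  have hc : p.coeff b = q b / a := by
    rw [← heq, Polynomial.finsetSum_coeff]
    simp only [Polynomial.coeff_C_mul_X_pow]
    rw [Finset.sum_ite_eq]
    simp [Nat.lt_succ_of_le hb]
  have hspl' : (Polynomial.map (RingHom.id ℂ) p).Splits := by
    rw [Polynomial.map_id]
    exact hspl
  have h3 := Polynomial.coeff_le_of_roots_le (f := RingHom.id ℂ) (B := B) b hmon hspl' hroots
  rw [Polynomial.map_id, hc, hdeg] at h3
  by_cases hB0 : 0 ≤ B
  · refine h3.trans ?_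
    have h4 : (m.choose b : ℝ) ≤ 2 ^ m := by
      exact_mod_cast Nat.choose_le_two_pow m b
    rw [mul_comm]
    exact mul_le_mul_of_nonneg_right h4 (pow_nonneg hB0 _)
  · have hJ0 : J = ∅ := by
      refine Finset.eq_empty_of_forall_notMem fun i hi => hB0 ((norm_nonneg _).trans (hB i hi))
    have hm0 : m = 0 := by rw [← hJ, hJ0, Finset.card_empty]
    subst hm0
    have hb0 : b = 0 := by omega
    subst hb0
    simpa using h3

/-- zeros of a monic polynomial with small coefficients -/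
private theorem cf_root {m : ℕ} {γ : ℂ} {q : ℕ → ℂ} {K ρ : ℝ} (hK : 1 ≤ K) (hρ : 0 ≤ ρ) (hq : ∀ b, b < m → ‖q b‖ ≤ K * ρ ^ (m - b))
    (h : γ ^ m = - ∑ b ∈ Finset.range m, q b * γ ^ b) (hm : 0 < m) : ‖γ‖ ≤ (m + 1) * K * ρ := by
  by_contra hcon
  push Not at hcon
  have hm1 : (1 : ℝ) ≤ (m : ℝ) + 1 := by
    have : (0 : ℝ) ≤ (m : ℝ) := Nat.cast_nonneg _
    linarith only
  have hρle : ρ ≤ ‖γ‖ := by
    have h1 : ρ ≤ (m + 1) * K * ρ := by
      have h2 : 1 ≤ ((m : ℝ) + 1) * K := by nlinarith only [hK]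
      nlinarith only [hρ, h2]
    linarith
  have hγ : 0 < ‖γ‖ := by
    have : 0 ≤ (m + 1) * K * ρ := by positivity
    linarith only [hcon, this]
  have h1 : ‖γ‖ ^ m ≤ ∑ b ∈ Finset.range m, K * ρ * ‖γ‖ ^ (m - 1) := by
    rw [← norm_pow, h, norm_neg]
    refine (norm_sum_le _ _).trans (Finset.sum_le_sum fun b hb => ?_)
    rw [Finset.mem_range] at hb
    rw [norm_mul, norm_pow]
    have h2 : ρ ^ (m - b) = ρ * ρ ^ (m - 1 - b) := by
      rw [← pow_succ']
      congr 1
      omega
    have h3 : ρ ^ (m - 1 - b) * ‖γ‖ ^ b ≤ ‖γ‖ ^ (m - 1) := by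
      calc ρ ^ (m - 1 - b) * ‖γ‖ ^ b ≤ ‖γ‖ ^ (m - 1 - b) * ‖γ‖ ^ b :=
            mul_le_mul_of_nonneg_right (pow_le_pow_left₀ hρ hρle _) (by positivity)
        _ = ‖γ‖ ^ (m - 1) := by
            rw [← pow_add]
            congr 1
            omega
    calc ‖q b‖ * ‖γ‖ ^ b ≤ K * ρ ^ (m - b) * ‖γ‖ ^ b := mul_le_mul_of_nonneg_right (hq b hb) (by positivity)
      _ = K * ρ * (ρ ^ (m - 1 - b) * ‖γ‖ ^ b) := by rw [h2]; ring
      _ ≤ K * ρ * ‖γ‖ ^ (m - 1) := mul_le_mul_of_nonneg_left h3 (by positivity)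
  rw [Finset.sum_const, Finset.card_range, nsmul_eq_mul] at h1
  have h4 : ‖γ‖ ^ m = ‖γ‖ * ‖γ‖ ^ (m - 1) := by
    rw [← pow_succ']
    congr 1
    omega
  rw [h4] at h1
  have h5 : 0 < ‖γ‖ ^ (m - 1) := by positivity
  have h6 : ‖γ‖ ≤ m * (K * ρ) := by
    have : ‖γ‖ * ‖γ‖ ^ (m - 1) ≤ (m * (K * ρ)) * ‖γ‖ ^ (m - 1) := by linarith
    exact le_of_mul_le_mul_right this h5
  have h7 : (m : ℝ) * (K * ρ) ≤ (m + 1) * K * ρ := by
    have : 0 ≤ K * ρ := by positivity
    nlinarith only [hcon, h6, this]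
  linarith

/-- one variable: a quotient, bounded, with a zero of order `n` at `0` -/
private theorem cf_line {R : ℝ} (hR : 2 < R) {h p : ℂ → ℂ} (hh : ∀ z ∈ ball (0 : ℂ) R, AnalyticAt ℂ h z) (hp : ∀ z ∈ ball (0 : ℂ) R, AnalyticAt ℂ p z)
    (h1 : h 1 ≠ 0) {B B' η : ℝ} (hη : 0 < η) {n : ℕ} (hB : ∀ z ∈ ball (0 : ℂ) R, h z ≠ 0 → ‖p z / h z‖ ≤ B)
    (hB' : ∀ z ∈ ball (0 : ℂ) η, z ∈ ball (0 : ℂ) R → h z ≠ 0 → ‖p z / h z‖ ≤ B' * ‖z‖ ^ n) : ‖p 1 / h 1‖ ≤ B * (1 / 2) ^ n := by
  have h1R : (1 : ℂ) ∈ ball (0 : ℂ) R := by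
    rw [mem_ball_zero_iff, norm_one]
    linarith
  have hB0 : 0 ≤ B := (norm_nonneg _).trans (hB 1 h1R h1)
  obtain ⟨G, hG, hGf⟩ := Pool.Agent.TG.rem_disc (U := ball (0 : ℂ) R) isOpen_ball (convex_ball _ _).isPreconnected
    (h := fun z => z * h z) (f := fun z => p z / h z / z ^ n) (fun z hz => analyticAt_id.mul (hh z hz)) h1R (by simpa using h1)
    (fun z hz h0 => by
      have hz0 : z ≠ 0 := left_ne_zero_of_mul h0
      have hh0 : h z ≠ 0 := right_ne_zero_of_mul h0
      exact ((hp z hz).differentiableAt.div (hh z hz).differentiableAt hh0).div (differentiableAt_id.pow n) (pow_ne_zero _ hz0))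
    (M := max B' (B / η ^ n)) (fun z hz h0 => by
      have hz0 : z ≠ 0 := left_ne_zero_of_mul h0
      have hh0 : h z ≠ 0 := right_ne_zero_of_mul h0
      have hzn : 0 < ‖z‖ ^ n := by
        have := norm_pos_iff.mpr hz0
        positivity
      rw [norm_div, norm_pow]
      by_cases hzη : z ∈ ball (0 : ℂ) η
      · refine le_trans ?_ (le_max_left _ _)
        rw [div_le_iff₀ hzn]
        exact hB' z hzη hz hh0
      · refine le_trans ?_ (le_max_right _ _)
        rw [mem_ball_zero_iff, not_lt] at hzη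
        exact div_le_div₀ hB0 (hB z hz hh0) (by positivity) (pow_le_pow_left₀ hη.le hzη n))
  have hfreq : ∀ z ∈ ball (0 : ℂ) R, ∃ᶠ w in 𝓝 z, w ∈ ball (0 : ℂ) R ∧ w * h w ≠ 0 := by
    intro z hz
    by_contra hcon
    rw [not_frequently] at hcon
    have h2 : ∀ᶠ w in 𝓝 z, w * h w = 0 := by
      filter_upwards [hcon, isOpen_ball.mem_nhds hz] with w hw hwR
      by_contra h3
      exact hw ⟨hwR, h3⟩
    have h4 := AnalyticOnNhd.eqOn_zero_of_preconnected_of_eventuallyEq_zero (U := ball (0 : ℂ) R) (f := fun w => w * h w)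
      (fun w hw => analyticAt_id.mul (hh w hw)) (convex_ball _ _).isPreconnected hz h2 h1R
    simp only [one_mul, Pi.zero_apply] at h4
    exact h1 h4
  have hcl : ∀ z ∈ ball (0 : ℂ) R, ‖G z‖ * ‖z‖ ^ n ≤ B := by
    intro z hz
    have hc : ContinuousAt G z := (hG.differentiableAt (isOpen_ball.mem_nhds hz)).continuousAt
    have hc2 : Tendsto (fun w : ℂ => ‖G w‖ * ‖w‖ ^ n) (𝓝 z) (𝓝 (‖G z‖ * ‖z‖ ^ n)) :=
      hc.norm.mul (continuous_norm.continuousAt.pow n)
    refine le_of_tendsto_of_frequently hc2 ((hfreq z hz).mono fun w hw => ?_)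
    have hz0 : w ≠ 0 := left_ne_zero_of_mul hw.2
    have hh0 : h w ≠ 0 := right_ne_zero_of_mul hw.2
    have hzn : 0 < ‖w‖ ^ n := by
      have := norm_pos_iff.mpr hz0
      positivity
    rw [hGf w hw.1 hw.2, norm_div, norm_pow, div_mul_cancel₀ _ hzn.ne']
    exact hB w hw.1 hh0
  have hsub : closedBall (0 : ℂ) 2 ⊆ ball (0 : ℂ) R := closedBall_subset_ball hR
  have hmax : ‖G 1‖ ≤ B * (1 / 2) ^ n := by
    refine Complex.norm_le_of_forall_mem_frontier_norm_le (U := ball (0 : ℂ) 2) isBounded_ball ?_ (fun z hz => ?_) ?_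
    · refine DifferentiableOn.diffContOnCl ?_
      rw [closure_ball _ (by norm_num)]
      exact hG.mono hsub
    · rw [frontier_ball _ (by norm_num), mem_sphere_zero_iff_norm] at hz
      have hz2 : z ∈ ball (0 : ℂ) R := hsub (by rw [mem_closedBall_zero_iff, hz])
      have h5 := hcl z hz2
      rw [hz] at h5
      have h6 : (0 : ℝ) < 2 ^ n := by positivity
      rw [one_div, inv_pow, ← div_eq_mul_inv, le_div_iff₀ h6]
      exact h5
    · rw [closure_ball _ (by norm_num), mem_closedBall_zero_iff, norm_one]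
      norm_num
  have h7 : G 1 = p 1 / h 1 := by
    rw [hGf 1 h1R (by simpa using h1)]
    simp
  rw [← h7]
  exact hmax

theorem cf_bd {E : Type} [NormedAddCommGroup E] [NormedSpace ℂ E] [FiniteDimensional ℂ E] {ι : Type} [Fintype ι] {δ : ℝ} (hδ : 0 < δ) {A g : E → ι → ℂ}
    (hP : ∀ s t : ℂ, ∀ x ∈ ball (0 : E) δ, AnalyticAt ℂ (fun x => ∏ i, (A x i + s * (t - g x i))) x) {S : ℝ} (hS : ∀ x ∈ ball (0 : E) δ, ∀ i, A x i = 0 → ‖g x i‖ ≤ S)
    {T : ℕ} {C : ℝ} (hT : ∀ᶠ x in 𝓝 (0 : E), ∀ i, A x i = 0 → ‖g x i‖ ≤ C * ‖x‖ ^ T) :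
    ∃ c : E → ℂ, (∀ x ∈ ball (0 : E) δ, AnalyticAt ℂ c x) ∧ (∃ x ∈ ball (0 : E) δ, c x ≠ 0) ∧
      ∀ x ∈ ball (0 : E) (δ / 2), c x ≠ 0 → ∀ i, A x i = 0 → ‖g x i‖ ≤ S * ((Fintype.card ι + 1) * 2 ^ Fintype.card ι * (1 / 2) ^ T) := by
  classical
  obtain ⟨m, Q, hm, hQan, hQne, hQ⟩ := cf_alg hδ hP
  refine ⟨Q m, hQan m, hQne, fun x hx hx0 i hi => ?_⟩
  have hxδ : x ∈ ball (0 : E) δ := ball_subset_ball (by linarith only [hδ]) hx
  rw [mem_ball_zero_iff] at hx
  obtain ⟨J, hJ, hJc, hJp⟩ := hQ x hxδ hx0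
  have hiJ : i ∈ J := (hJ i).mpr hi
  have hmpos : 0 < m := by
    rw [← hJc]
    exact Finset.card_pos.mpr ⟨i, hiJ⟩
  have hS0 : 0 ≤ S := (norm_nonneg _).trans (hS x hxδ i hi)
  -- general bound of the quotients
  have hquo : ∀ y ∈ ball (0 : E) δ, Q m y ≠ 0 → ∀ B : ℝ, (∀ j, A y j = 0 → ‖g y j‖ ≤ B) → ∀ b, b ≤ m → ‖Q b y / Q m y‖ ≤ 2 ^ m * B ^ (m - b) := by
    intro y hy hy0 B hB b hb
    obtain ⟨J', hJ', hJc', hJp'⟩ := hQ y hy hy0
    exact cf_coef J' (g y) hJc' hy0 (q := fun b => Q b y) hJp' (fun j hj => hB j ((hJ' j).mp hj)) b hb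
  -- the neighbourhood of `0`
  obtain ⟨ε, hε, hεT⟩ := Metric.eventually_nhds_iff_ball.mp hT
  have hcoef : ∀ b, b < m → ‖Q b x / Q m x‖ ≤ 2 ^ m * (S * (1 / 2) ^ T) ^ (m - b) := by
    intro b hb
    set R : ℝ := 2 + (δ - 2 * ‖x‖) / (‖x‖ + 1) with hR
    have hx1 : 0 < ‖x‖ + 1 := by positivity
    have hRpos : 2 < R := by
      have : 0 < (δ - 2 * ‖x‖) / (‖x‖ + 1) := div_pos (by linarith only [hx]) hx1
      linarith only [this]
    have hRx : R * ‖x‖ ≤ δ := by
      have h1 : (δ - 2 * ‖x‖) / (‖x‖ + 1) * ‖x‖ ≤ δ - 2 * ‖x‖ := by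
        rw [div_mul_eq_mul_div, div_le_iff₀ hx1]
        have : 0 ≤ δ - 2 * ‖x‖ := by linarith
        nlinarith only [hx, norm_nonneg x]
      rw [hR, add_mul]
      linarith
    have hmem : ∀ z ∈ ball (0 : ℂ) R, z • x ∈ ball (0 : E) δ := by
      intro z hz
      rw [mem_ball_zero_iff] at hz ⊢
      rw [norm_smul]
      by_cases hx0' : ‖x‖ = 0
      · rw [hx0', mul_zero]
        exact hδ
      · have : 0 < ‖x‖ := lt_of_le_of_ne (norm_nonneg _) (Ne.symm hx0')
        calc ‖z‖ * ‖x‖ < R * ‖x‖ := mul_lt_mul_of_pos_right hz this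
          _ ≤ δ := hRx
    have hlin : ∀ z : ℂ, AnalyticAt ℂ (fun z : ℂ => z • x) z := fun z => analyticAt_id.smul analyticAt_const
    have key := cf_line hRpos (h := fun z : ℂ => Q m (z • x)) (p := fun z : ℂ => Q b (z • x))
      (fun z hz => AnalyticAt.fun_comp (hQan m _ (hmem z hz)) (hlin z)) (fun z hz => AnalyticAt.fun_comp (hQan b _ (hmem z hz)) (hlin z))
      (by simpa using hx0) (B := 2 ^ m * S ^ (m - b)) (B' := 2 ^ m * (C * ‖x‖ ^ T) ^ (m - b)) (η := ε / (‖x‖ + 1)) (div_pos hε hx1) (n := T * (m - b))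
      (fun z hz h0 => hquo _ (hmem z hz) h0 S (fun j hj => hS _ (hmem z hz) j hj) b hb.le)
      (fun z hz hzR h0 => by
        have h2 : z • x ∈ ball (0 : E) ε := by
          rw [mem_ball_zero_iff] at hz ⊢
          rw [norm_smul]
          rw [lt_div_iff₀ hx1] at hz
          nlinarith only [hz, norm_nonneg z, norm_nonneg x]
        have h3 := hquo _ (hmem z hzR) h0 (C * ‖z • x‖ ^ T) (fun j hj => hεT _ h2 j hj) b hb.le
        refine h3.trans (le_of_eq ?_)
        rw [norm_smul, mul_pow, mul_assoc, pow_mul]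
        rw [← mul_pow]
        congr 1
        ring)
    simp only [one_smul] at key
    refine key.trans (le_of_eq ?_)
    rw [mul_pow, pow_mul]
    ring
  have hρ0 : 0 ≤ S * (1 / 2) ^ T := by positivity
  have hroot : (g x i) ^ m = - ∑ b ∈ Finset.range m, (Q b x / Q m x) * (g x i) ^ b := by
    have h1 := hJp (g x i)
    rw [Finset.prod_eq_zero hiJ (sub_self _), mul_zero, Finset.sum_range_succ] at h1
    have h2 : ∑ b ∈ Finset.range m, Q b x / Q m x * g x i ^ b = (∑ b ∈ Finset.range m, Q b x * g x i ^ b) / Q m x := by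
      rw [Finset.sum_div]
      exact Finset.sum_congr rfl fun b _ => by ring
    rw [h2, eq_comm, neg_eq_iff_eq_neg, div_eq_iff hx0, eq_comm]
    rw [← eq_neg_iff_add_eq_zero] at h1
    rw [h1]
    ring
  have hfin := cf_root (m := m) (γ := g x i) (q := fun b => Q b x / Q m x) (K := 2 ^ m) (ρ := S * (1 / 2) ^ T) (one_le_pow₀ (by norm_num)) hρ0
    (fun b hb => hcoef b hb) hroot hmpos
  refine hfin.trans ?_
  have hmc : (m : ℝ) ≤ Fintype.card ι := by exact_mod_cast hm
  have h2m : (2 : ℝ) ^ m ≤ 2 ^ Fintype.card ι := pow_le_pow_right₀ (by norm_num) hm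
  have h8 : ((m : ℝ) + 1) * 2 ^ m ≤ (Fintype.card ι + 1) * 2 ^ Fintype.card ι :=
    mul_le_mul (by linarith only [hmc]) h2m (by positivity) (by positivity)
  calc ((m : ℝ) + 1) * 2 ^ m * (S * (1 / 2) ^ T) ≤ (Fintype.card ι + 1) * 2 ^ Fintype.card ι * (S * (1 / 2) ^ T) :=
        mul_le_mul_of_nonneg_right h8 hρ0
    _ = S * ((Fintype.card ι + 1) * 2 ^ Fintype.card ι * (1 / 2) ^ T) := by ring

end Pool.Agent.G4.K

end
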