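import Pool.Agent.H94.PX4.H13.CV.MerO
import Pool.Agent.H94.PX4.M10
import Pool.Agent.H94.PX4.M39
import Pool.Agent.H94.PX4.M40
import Pool.Agent.H94.PX4.M41

/-! The parts of this file: H13.CV.MerP, H13.CV.HomM, LT.Ov. -/

section

/-!
# CV MerP: the place under a point of `ℂ`, homomorphisms into the field of meromorphic functions

`exists_placeM`: `v g = ordM z₀ (φ g)` is a valuation of `K` (`φ` is injective), trivial on the constants.  It is not trivial: let `x` be transcendental (`hK.exists_tr`), or its inverse, with `0 ≤ v x`; `c` with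
`0 < ordM z₀ (φ x - c)` (`exists_valueM`), so `0 < v (x - c)`, finite as `x ≠ c`.  So the values of `v` on `K ∖ {0}` form a non-zero subgroup of `ℤ`, equal to `e ℤ` with `e ≥ 1`
(`Int.subgroup_cyclic`, or the least positive value).  `E.ord g = v g / e` (an integer or `⊤`), `AddValuation.of`.  `residue_trdeg`: `Fin 0`: polynomials in no variables are constants.
-/

set_option autoImplicit false

open Topology Filter
open Pool.Agent.H17 Pool.Agent.H17.EntFun

noncomputable section

namespace Pool.Agent.H13.CV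

variable {K : Type} [Field K] [Algebra ℂ K]

private theorem merp_nsmul_top {e : ℕ} (he : 1 ≤ e) : e • (⊤ : WithTop ℤ) = ⊤ := by
  obtain ⟨k, rfl⟩ : ∃ k, e = k + 1 := ⟨e - 1, by omega⟩
  rw [succ_nsmul, add_top]

private theorem merp_mono {e : ℕ} (he : 1 ≤ e) {x y : WithTop ℤ} (h : x ≤ y) :
    WithTop.map (fun a : ℤ => a / (e : ℤ)) x ≤ WithTop.map (fun a : ℤ => a / (e : ℤ)) y := by
  have he' : (0 : ℤ) < e := by exact_mod_cast he
  induction y with
  | top => exact le_top
  | coe b =>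
    induction x with
    | top => exact absurd h (not_le.2 (WithTop.coe_lt_top b))
    | coe a =>
      rw [WithTop.map_coe, WithTop.map_coe, WithTop.coe_le_coe]
      exact Int.ediv_le_ediv he' (WithTop.coe_le_coe.1 h)

private theorem merp_add {e : ℕ} {x y : WithTop ℤ} (hx : x = ⊤ ∨ ∃ k : ℤ, x = ((e * k : ℤ) : WithTop ℤ)) :
    WithTop.map (fun a : ℤ => a / (e : ℤ)) (x + y) =
      WithTop.map (fun a : ℤ => a / (e : ℤ)) x + WithTop.map (fun a : ℤ => a / (e : ℤ)) y := by
  rcases hx with rfl | ⟨k, rfl⟩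
  · rw [top_add, WithTop.map_top, top_add]
  · induction y with
    | top => rw [add_top, WithTop.map_top, add_top]
    | coe b =>
      rw [← WithTop.coe_add, WithTop.map_coe, WithTop.map_coe, WithTop.map_coe, ← WithTop.coe_add,
        WithTop.coe_inj]
      exact Int.add_ediv_of_dvd_left (Dvd.intro k rfl)

theorem exists_placeM (hK : CurveField K) (φ : K →ₐ[ℂ] Mer) (z₀ : ℂ) : ∃ (E : Place K) (e : ℕ), 1 ≤ e ∧ ∀ g : K, ordM z₀ (φ g) = e • E.ord g := by
  have hinj : Function.Injective φ := φ.toRingHom.injective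
  have htop : ∀ g : K, ordM z₀ (φ g) = ⊤ ↔ g = 0 := by
    intro g
    rw [ordM_eq_top, map_eq_zero_iff φ hinj]
  have hcst : ∀ c : ℂ, c ≠ 0 → ordM z₀ (φ (algebraMap ℂ K c)) = 0 := by
    intro c hc
    rw [AlgHom.commutes]
    exact ordM_const z₀ hc
  have hfin : ∀ g : K, g ≠ 0 → ∃ n : ℤ, ordM z₀ (φ g) = (n : WithTop ℤ) := by
    intro g hg
    have h : ordM z₀ (φ g) ≠ ⊤ := fun h => hg ((htop g).1 h)
    exact ⟨_, (WithTop.coe_untop _ h).symm⟩
  -- the group of the values
  let H : AddSubgroup ℤ :=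
    { carrier := {n | ∃ g : K, g ≠ 0 ∧ ordM z₀ (φ g) = (n : WithTop ℤ)}
      add_mem' := by
        rintro a b ⟨g, hg, h1⟩ ⟨g', hg', h2⟩
        refine ⟨g * g', mul_ne_zero hg hg', ?_⟩
        rw [map_mul, AddValuation.map_mul, h1, h2, WithTop.coe_add]
      zero_mem' := ⟨1, one_ne_zero, by rw [map_one, AddValuation.map_one]; rfl⟩
      neg_mem' := by
        rintro a ⟨g, hg, h1⟩
        refine ⟨g⁻¹, inv_ne_zero hg, ?_⟩
        obtain ⟨n, hn⟩ := hfin g⁻¹ (inv_ne_zero hg)
        have h2 : ordM z₀ (φ g) + ordM z₀ (φ g⁻¹) = 0 := by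
          rw [← AddValuation.map_mul, ← map_mul, mul_inv_cancel₀ hg, map_one, AddValuation.map_one]
        rw [h1, hn, ← WithTop.coe_add] at h2
        have h3 : a + n = 0 := WithTop.coe_eq_zero.1 h2
        rw [hn, WithTop.coe_inj]
        omega }
  have hmem : ∀ (n : ℤ), n ∈ H ↔ ∃ g : K, g ≠ 0 ∧ ordM z₀ (φ g) = (n : WithTop ℤ) := fun n => Iff.rfl
  -- a non-zero value
  have hne : ∃ n ∈ H, n ≠ 0 := by
    obtain ⟨x, hx⟩ := hK.exists_tr
    have hx0 : x ≠ 0 := by
      rintro rfl
      exact hx isAlgebraic_zero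
    obtain ⟨n, hn⟩ := hfin x hx0
    by_cases h0 : n = 0
    · have h1 : 0 ≤ ordM z₀ (φ x) := by rw [hn, h0]; exact le_refl _
      obtain ⟨c, hc⟩ := exists_valueM z₀ h1
      have h2 : φ x - algebraMap ℂ Mer c = φ (x - algebraMap ℂ K c) := by
        rw [map_sub, AlgHom.commutes]
      have h3 : x - algebraMap ℂ K c ≠ 0 := by
        intro h
        rw [sub_eq_zero] at h
        rw [h] at hx
        exact hx (isAlgebraic_algebraMap c)
      obtain ⟨m, hm⟩ := hfin _ h3
      refine ⟨m, ⟨_, h3, hm⟩, ?_⟩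
      rintro rfl
      rw [h2, hm] at hc
      exact lt_irrefl _ hc
    · exact ⟨n, ⟨x, hx0, hn⟩, h0⟩
  obtain ⟨a, ha⟩ := Int.subgroup_cyclic H
  have hdvd : ∀ n ∈ H, a ∣ n := by
    intro n hn
    rw [ha, ← AddSubgroup.zmultiples_eq_closure, Int.mem_zmultiples_iff] at hn
    exact hn
  have haH : a ∈ H := by
    rw [ha]
    exact AddSubgroup.subset_closure rfl
  have ha0 : a ≠ 0 := by
    rintro rfl
    obtain ⟨n, hn, hn0⟩ := hne
    exact hn0 (zero_dvd_iff.1 (hdvd n hn))
  obtain ⟨e, he⟩ : ∃ e : ℕ, e = a.natAbs := ⟨_, rfl⟩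
  have he1 : 1 ≤ e := by
    rw [he]
    exact Int.natAbs_pos.2 ha0
  have heH : (e : ℤ) ∈ H := by
    rcases Int.natAbs_eq a with h | h
    · rw [he, ← h]
      exact haH
    · have h2 : (e : ℤ) = -a := by
        rw [he]
        omega
      rw [h2]
      exact H.neg_mem haH
  have hval : ∀ g : K, ordM z₀ (φ g) = ⊤ ∨ ∃ k : ℤ, ordM z₀ (φ g) = ((e * k : ℤ) : WithTop ℤ) := by
    intro g
    by_cases hg : g = 0
    · exact Or.inl ((htop g).2 hg)
    · obtain ⟨n, hn⟩ := hfin g hg
      have h1 : (e : ℤ) ∣ n := by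
        rw [he, Int.natAbs_dvd]
        exact hdvd n ⟨g, hg, hn⟩
      obtain ⟨k, hk⟩ := h1
      exact Or.inr ⟨k, by rw [hn, hk]⟩
  have he0 : (e : ℤ) ≠ 0 := by
    have : 0 < e := he1
    omega
  -- the normalised valuation
  let v : AddValuation K (WithTop ℤ) := AddValuation.of
    (fun g => WithTop.map (fun a : ℤ => a / (e : ℤ)) (ordM z₀ (φ g)))
    (by
      change WithTop.map (fun a : ℤ => a / (e : ℤ)) (ordM z₀ (φ 0)) = ⊤
      rw [(htop 0).2 rfl, WithTop.map_top])
    (by
      change WithTop.map (fun a : ℤ => a / (e : ℤ)) (ordM z₀ (φ 1)) = 0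
      rw [map_one, AddValuation.map_one]
      change (((0 : ℤ) / (e : ℤ) : ℤ) : WithTop ℤ) = 0
      rw [Int.zero_ediv]
      rfl)
    (by
      intro f g
      have h := (ordM z₀).map_add (φ f) (φ g)
      rw [← map_add] at h
      rcases le_total (ordM z₀ (φ f)) (ordM z₀ (φ g)) with h1 | h1
      · rw [min_eq_left h1] at h
        exact (min_le_left _ _).trans (merp_mono he1 h)
      · rw [min_eq_right h1] at h
        exact (min_le_right _ _).trans (merp_mono he1 h))
    (by
      intro f g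
      rw [map_mul, AddValuation.map_mul]
      exact merp_add (hval f))
  have hv : ∀ g, v g = WithTop.map (fun a : ℤ => a / (e : ℤ)) (ordM z₀ (φ g)) := fun g => rfl
  have hvc : ∀ c : ℂ, c ≠ 0 → v (algebraMap ℂ K c) = 0 := by
    intro c hc
    rw [hv, hcst c hc]
    change (((0 : ℤ) / (e : ℤ) : ℤ) : WithTop ℤ) = 0
    rw [Int.zero_ediv]
    rfl
  refine ⟨{ ord := v
            ord_const := ?_
            exists_uniformizer := ?_
            residue_trdeg := ?_ }, e, he1, ?_⟩
  · intro c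
    by_cases hc : c = 0
    · rw [hc, map_zero, AddValuation.map_zero]
      exact le_top
    · rw [hvc c hc]
  · obtain ⟨t, ht, h1⟩ := (hmem e).1 heH
    refine ⟨t, ?_⟩
    rw [hv, h1]
    change ((((e : ℤ) / (e : ℤ) : ℤ)) : WithTop ℤ) = 1
    rw [Int.ediv_self he0]
    rfl
  · have : IsEmpty (Fin (1 - 1)) := inferInstanceAs (IsEmpty (Fin 0))
    refine ⟨fun i => isEmptyElim i, fun i => isEmptyElim i, ?_⟩
    intro p hp
    rw [MvPolynomial.eq_C_of_isEmpty p, MvPolynomial.aeval_C]
    apply hvc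
    intro h
    apply hp
    rw [MvPolynomial.eq_C_of_isEmpty p, h, map_zero]
  · intro g
    change ordM z₀ (φ g) = e • v g
    rw [hv]
    rcases hval g with h | ⟨k, h⟩
    · rw [h, WithTop.map_top, merp_nsmul_top he1]
    · rw [h, WithTop.map_coe, ← WithTop.coe_nsmul, WithTop.coe_inj, Int.mul_ediv_cancel_left _ he0,
        nsmul_eq_mul]

end Pool.Agent.H13.CV

end
end

section

/-!
# CV HomM: the entire curve given by a homomorphism of the function field into the meromorphic functions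

`homMap0`: let `X j ∉ Q`, so `coordFun Q j ≠ 0` (`Pool.Agent.H92.GT.Proj.aeval_coordFun_eq_zero_iff Q (X j)`).  `y i = φ (ratio Q i j) ∈ Mer`, `y j = 1`.  There are `a i, b ∈ EntFun`, `b ≠ 0`, with `y i = a i / b`
(`IsLocalization.exist_integer_multiples_of_finset`), `a j = b`.
`exists_map` (HomA) gives `f` and, for every `z₀`, `k` and `c i` with `a i = coord z₀ ^ k * c i`, `f z₀ = [c i (z₀)]`.
Forms in `Q`: for a form `R ∈ Q`: `aeval (ratio Q · j) R = 0` in `FunField Q`, so `aeval y R = 0`, `aeval (toM ∘ a) R = 0` (homogeneous), so `aeval c R = 0` in `EntFun` (`coord ≠ 0`, domain), evaluate at `z₀`.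
The index `l`: with `c l (z₀) ≠ 0`; then `a l ≠ 0`, `y l ≠ 0`, so `coordFun Q l ≠ 0`, and `φ (ratio Q i l) = y i / y l = c i / c l` has order `≥ 0` at `z₀`.  If the form `R` vanishes at `f z₀`, then
`φ (aeval (ratio Q · l) R) = aeval (c / c l) R = (aeval c R) / c l ^ d` has positive order at `z₀`.
Non-constant: if `f` is constant then the `a i` are proportional to constants (near a point where `k = 0`, then everywhere), so the `y i` are constants, so `φ` of all `ratio Q i l = ratio Q i j / ratio Q l j` are constants,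
and these generate `FunField Q` over `ℂ`; so `φ` maps `K` into `ℂ`: impossible as `φ` is injective and `K` contains a transcendental element (`hK.exists_tr`).
Facts on `coordFun`, `ratio`, `aeval`: `Pool/Agent/H92/GT/Proj*.lean`, `Pool/Agent/H17BP/TrdegLt.lean`, `Pool/Agent/H62/FC/`.
-/

set_option autoImplicit false

open Topology Filter MvPolynomial
open Pool.Agent.H17 (PN VanishesAt ZariskiClosedIn HolomorphicInto puncturedDisc)
open Pool.Agent.H17GT (coordFun)
open Pool.Agent.H17LG.Variety (FunField IsLogGeneralType ratio)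
open Pool.Agent.H62.SA (locVar OnBd)

noncomputable section

namespace Pool.Agent.H13.CV

variable {N : ℕ}

open Pool.Agent.H17 in
open Pool.Agent.H17.EntFun in
private lemma HomM_vanishes_mk {G : MvPolynomial (Fin (N + 1)) ℂ} {n : ℕ} (hG : G.IsHomogeneous n) {v : Fin (N + 1) → ℂ} (hv : v ≠ 0) :
    VanishesAt G (Projectivization.mk ℂ v hv) ↔ eval v G = 0 := by
  obtain ⟨u, hu⟩ := Projectivization.exists_smul_eq_mk_rep ℂ v hv
  have h1 : eval (Projectivization.mk ℂ v hv).rep G = (u : ℂ) ^ n * eval v G := by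
    rw [← hu]
    have h2 := Pool.Agent.H92.GT.Proj.aeval_scale (K := ℂ) hG (u : ℂ) v
    have h3 : ∀ w : Fin (N + 1) → ℂ, eval w G = aeval w G := fun w => rfl
    rw [h3, h3]
    exact h2
  unfold Pool.Agent.H17.VanishesAt
  rw [h1, mul_eq_zero]
  constructor
  · rintro (h | h)
    · exact absurd h (pow_ne_zero _ u.ne_zero)
    · exact h
  · exact fun h => Or.inr h

private def HomM_val (P : Ideal (MvPolynomial (Fin (N + 1)) ℂ)) [P.IsPrime] :
    FunField P →ₐ[ℂ] FractionRing (MvPolynomial (Fin (N + 1)) ℂ ⧸ P) :=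
  (Pool.Agent.H17GT.functionField P).val

open Pool.Agent.H17GT (functionField)

private lemma HomM_val_ratio (P : Ideal (MvPolynomial (Fin (N + 1)) ℂ)) [P.IsPrime] (i j : Fin (N + 1)) :
    HomM_val P (ratio P i j) = coordFun P i / coordFun P j := rfl

private lemma HomM_val_injective (P : Ideal (MvPolynomial (Fin (N + 1)) ℂ)) [P.IsPrime] : Function.Injective (HomM_val P) :=
  (HomM_val P).injective

private lemma HomM_generate (P : Ideal (MvPolynomial (Fin (N + 1)) ℂ)) [P.IsPrime] :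
    IntermediateField.adjoin ℂ {y : FunField P | ∃ i j, y = ratio P i j} = ⊤ := by
  have h : IntermediateField.adjoin ℂ {y : functionField P | ∃ i j, y = ratio P i j} = ⊤ := by
    rw [← IntermediateField.lift_inj, IntermediateField.lift_adjoin, IntermediateField.lift_top]
    conv_rhs => rw [functionField]
    congr 1
    ext y
    constructor
    · rintro ⟨y', ⟨i, j, rfl⟩, rfl⟩
      exact ⟨i, j, rfl⟩
    · rintro ⟨i, j, rfl⟩
      exact ⟨ratio P i j, ⟨i, j, rfl⟩, rfl⟩
  exact h

private lemma HomM_ratio_div (P : Ideal (MvPolynomial (Fin (N + 1)) ℂ)) [P.IsPrime] {j : Fin (N + 1)} (hj : coordFun P j ≠ 0) (i l : Fin (N + 1)) :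
    ratio P i l = ratio P i j / ratio P l j := by
  apply HomM_val_injective
  rw [map_div₀, HomM_val_ratio, HomM_val_ratio, HomM_val_ratio, div_div_div_cancel_right₀ hj]

private lemma HomM_aeval_ratio (P : Ideal (MvPolynomial (Fin (N + 1)) ℂ)) [P.IsPrime] {G : MvPolynomial (Fin (N + 1)) ℂ} {n : ℕ} (hG : G.IsHomogeneous n)
    (hGP : G ∈ P) (j : Fin (N + 1)) : aeval (fun i => ratio P i j) G = 0 := by
  apply HomM_val_injective
  have h3 : HomM_val P (aeval (fun i => ratio P i j) G) = aeval (fun i => HomM_val P (ratio P i j)) G := by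
    rw [← MvPolynomial.comp_aeval]
    rfl
  have h4 : (fun i => HomM_val P (ratio P i j)) = fun i => (coordFun P j)⁻¹ * coordFun P i := by
    funext i
    rw [HomM_val_ratio, div_eq_inv_mul]
  rw [h3, h4, Pool.Agent.H92.GT.Proj.aeval_scale hG, (Pool.Agent.H92.GT.Proj.aeval_coordFun_eq_zero_iff P G).2 hGP, mul_zero, map_zero]

private lemma HomM_toM_aeval (c : Fin (N + 1) → Pool.Agent.H17.EntFun) (G : MvPolynomial (Fin (N + 1)) ℂ) : aeval (fun i => toM (c i)) G = toM (aeval c G) := by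
  have h := MvPolynomial.aeval_algebraMap_apply (R := ℂ) (A := Pool.Agent.H17.EntFun) Mer c G
  exact h

private lemma HomM_ev_aeval (z : ℂ) (c : Fin (N + 1) → Pool.Agent.H17.EntFun) (G : MvPolynomial (Fin (N + 1)) ℂ) :
    ((aeval c G : Pool.Agent.H17.EntFun) : ℂ → ℂ) z = eval (fun i => (c i : ℂ → ℂ) z) G := by
  have h1 : Pool.Agent.H17.EntFun.ev z (aeval c G) = eval₂ ((Pool.Agent.H17.EntFun.ev z).comp (algebraMap ℂ _)) (fun i => Pool.Agent.H17.EntFun.ev z (c i)) G := by
    rw [aeval_def]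
    exact (MvPolynomial.hom_eval₂ G _ _ _)
  exact h1

theorem homMap0 (Q : Ideal (MvPolynomial (Fin (N + 1)) ℂ)) [Q.IsPrime] (hX : ∃ i, (X i : MvPolynomial (Fin (N + 1)) ℂ) ∉ Q)
    (hK : CurveField (FunField Q)) (φ : FunField Q →ₐ[ℂ] Mer) :
    ∃ f : ℂ → PN N, HolomorphicInto f Set.univ ∧ (∀ z, ∀ R ∈ Q, ∀ n, R.IsHomogeneous n → VanishesAt R (f z)) ∧ (∃ z w, f z ≠ f w) ∧
      ∀ z₀ : ℂ, ∃ l, coordFun Q l ≠ 0 ∧ (∀ i, 0 ≤ ordM z₀ (φ (ratio Q i l))) ∧
        ∀ (R : MvPolynomial (Fin (N + 1)) ℂ) (d : ℕ), R.IsHomogeneous d → VanishesAt R (f z₀) → 0 < ordM z₀ (φ (aeval (fun i => ratio Q i l) R)) := by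
  classical
  obtain ⟨j, hjX⟩ := hX
  have hj : coordFun Q j ≠ 0 := by
    intro h0
    apply hjX
    rw [← Pool.Agent.H92.GT.Proj.aeval_coordFun_eq_zero_iff, aeval_X]
    exact h0
  have hrj : ratio Q j j = 1 := by
    apply HomM_val_injective
    rw [HomM_val_ratio, map_one, div_self hj]
  -- the common denominator
  obtain ⟨b', hb'⟩ := IsLocalization.exist_integer_multiples_of_finite (nonZeroDivisors Pool.Agent.H17.EntFun) (fun i : Fin (N + 1) => φ (ratio Q i j))
  have hb'0 : (b' : Pool.Agent.H17.EntFun) ≠ 0 := nonZeroDivisors.ne_zero b'.2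
  have hinj : Function.Injective (algebraMap Pool.Agent.H17.EntFun Mer) := IsFractionRing.injective _ _
  have htb : toM (b' : Pool.Agent.H17.EntFun) ≠ 0 := fun h => hb'0 (hinj (h.trans (map_zero _).symm))
  choose a ha using hb'
  have ha' : ∀ i, toM (a i) = toM (b' : Pool.Agent.H17.EntFun) * φ (ratio Q i j) := by
    intro i
    have h1 := ha i
    rw [Algebra.smul_def] at h1
    exact h1
  have haj : a j ≠ 0 := by
    intro h0
    have h1 := ha' j
    rw [h0, hrj, map_one, mul_one] at h1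
    exact htb (h1.symm.trans (map_zero _))
  obtain ⟨f, hf, hfz⟩ := exists_map a ⟨j, haj⟩
  -- the coordinates
  have key : ∀ (z₀ : ℂ) (k : ℕ) (c : Fin (N + 1) → Pool.Agent.H17.EntFun), (∀ i, a i = Pool.Agent.H17.EntFun.coord z₀ ^ k * c i) →
      ∃ s : Mer, s ≠ 0 ∧ ∀ i, φ (ratio Q i j) = s * toM (c i) := by
    intro z₀ k c hc
    refine ⟨toM (Pool.Agent.H17.EntFun.coord z₀ ^ k) / toM (b' : Pool.Agent.H17.EntFun), ?_, ?_⟩
    · refine div_ne_zero ?_ htb
      intro h0
      exact pow_ne_zero k (Pool.Agent.H17.EntFun.coord_ne_zero z₀) (hinj (h0.trans (map_zero _).symm))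
    · intro i
      have h1 := ha' i
      rw [hc i] at h1
      have h2 : toM (Pool.Agent.H17.EntFun.coord z₀ ^ k * c i) = toM (Pool.Agent.H17.EntFun.coord z₀ ^ k) * toM (c i) := map_mul _ _ _
      rw [h2] at h1
      rw [div_mul_eq_mul_div, h1, mul_div_cancel_left₀ _ htb]
  refine ⟨f, hf, ?_, ?_, ?_⟩
  · -- the map is into the closed subvariety
    intro z₀ G hGQ n hG
    obtain ⟨k, c, h, hc, hfc⟩ := hfz z₀
    obtain ⟨s, hs, hsc⟩ := key z₀ k c hc
    rw [hfc, HomM_vanishes_mk hG]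
    have h1 := congrArg φ (HomM_aeval_ratio Q hG hGQ j)
    rw [map_zero] at h1
    have h2 : φ (aeval (fun i => ratio Q i j) G) = aeval (fun i => φ (ratio Q i j)) G := by
      rw [← MvPolynomial.comp_aeval]
      rfl
    have h3 : (fun i => φ (ratio Q i j)) = fun i => s * toM (c i) := funext hsc
    rw [h2, h3, Pool.Agent.H92.GT.Proj.aeval_scale hG, HomM_toM_aeval] at h1
    have h4 : toM (aeval c G) = 0 := (mul_eq_zero.1 h1).resolve_left (pow_ne_zero _ hs)
    have h5 : aeval c G = 0 := hinj (h4.trans (map_zero _).symm)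
    rw [← HomM_ev_aeval, h5]
    rfl
  · -- the map is not constant
    by_contra hcon
    push Not at hcon
    obtain ⟨k, c, h, hc, hfc⟩ := hfz 0
    obtain ⟨l, hl⟩ := Function.ne_iff.1 h
    set v : Fin (N + 1) → ℂ := fun i => (c i : ℂ → ℂ) 0 with hv
    have hl' : v l ≠ 0 := hl
    have hprop : ∀ i, a i * algebraMap ℂ Pool.Agent.H17.EntFun (v l) = a l * algebraMap ℂ Pool.Agent.H17.EntFun (v i) := by
      intro i
      ext z
      obtain ⟨k', c', h', hc', hfc'⟩ := hfz z
      have h1 : Projectivization.mk ℂ (fun i => (c' i : ℂ → ℂ) z) h' = Projectivization.mk ℂ v h := by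
        rw [← hfc', ← hfc]
        exact hcon z 0
      rw [Projectivization.mk_eq_mk_iff'] at h1
      obtain ⟨u, hu⟩ := h1
      have h2 : ∀ i, (c' i : ℂ → ℂ) z = u * v i := fun i => (congrFun hu i).symm
      have h3 : ∀ i, (a i : ℂ → ℂ) z = (z - z) ^ k' * (u * v i) := by
        intro i
        rw [hc' i, ← h2 i]
        rfl
      change (a i : ℂ → ℂ) z * v l = (a l : ℂ → ℂ) z * v i
      rw [h3 i, h3 l]
      ring
    have hprop' : ∀ i, φ (ratio Q i j) * algebraMap ℂ Mer (v l) = φ (ratio Q l j) * algebraMap ℂ Mer (v i) := by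
      intro i
      have h1 := congrArg (algebraMap Pool.Agent.H17.EntFun Mer) (hprop i)
      rw [map_mul, map_mul] at h1
      have h2 := ha' i
      have h3 := ha' l
      have h4 : toM (b' : Pool.Agent.H17.EntFun) * (φ (ratio Q i j) * algebraMap ℂ Mer (v l)) =
          toM (b' : Pool.Agent.H17.EntFun) * (φ (ratio Q l j) * algebraMap ℂ Mer (v i)) := by
        rw [← mul_assoc, ← mul_assoc, ← h2, ← h3, algebraMap_eq, algebraMap_eq]
        exact h1
      exact mul_left_cancel₀ htb h4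
    have hpropK : ∀ i, ratio Q i j * algebraMap ℂ (FunField Q) (v l) = ratio Q l j * algebraMap ℂ (FunField Q) (v i) := by
      intro i
      have hφ : Function.Injective φ := φ.toRingHom.injective
      apply hφ
      have h1 := hprop' i
      rw [map_mul, map_mul, AlgHom.commutes, AlgHom.commutes]
      exact h1
    have hvl : algebraMap ℂ (FunField Q) (v l) ≠ 0 := by
      intro h0
      exact hl' ((algebraMap ℂ (FunField Q)).injective (h0.trans (map_zero _).symm))
    have hrl : ratio Q l j ≠ 0 := by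
      intro h0
      have h1 := hpropK j
      rw [h0, zero_mul, hrj, one_mul] at h1
      exact hvl h1
    have hrc : ∀ i, ratio Q i j / ratio Q l j = algebraMap ℂ (FunField Q) (v i / v l) := by
      intro i
      rw [map_div₀, div_eq_div_iff hrl hvl, mul_comm (algebraMap ℂ (FunField Q) (v i))]
      exact hpropK i
    have hbot : IntermediateField.adjoin ℂ {y : FunField Q | ∃ i j, y = ratio Q i j} = ⊥ := by
      rw [IntermediateField.adjoin_eq_bot_iff]
      rintro y ⟨i, i', rfl⟩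
      have h1 : ratio Q i i' = (ratio Q i j / ratio Q l j) / (ratio Q i' j / ratio Q l j) := by
        rw [div_div_div_cancel_right₀ hrl, ← HomM_ratio_div Q hj]
      rw [h1, hrc, hrc, ← map_div₀]
      exact IntermediateField.algebraMap_mem _ _
    obtain ⟨x, hx⟩ := hK.exists_tr
    apply hx
    have hx1 : x ∈ (⊥ : IntermediateField ℂ (FunField Q)) := by
      rw [← hbot, HomM_generate]
      exact IntermediateField.mem_top
    obtain ⟨t, ht⟩ := IntermediateField.mem_bot.1 hx1
    rw [← ht]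
    exact isAlgebraic_algebraMap t
  · -- the forms which vanish at a point
    intro z₀
    obtain ⟨k, c, h, hc, hfc⟩ := hfz z₀
    obtain ⟨s, hs, hsc⟩ := key z₀ k c hc
    obtain ⟨l, hl⟩ := Function.ne_iff.1 h
    have hl' : (c l : ℂ → ℂ) z₀ ≠ 0 := hl
    have hcl : toM (c l) ≠ 0 := by
      intro h0
      have h1 : c l = 0 := hinj (h0.trans (map_zero _).symm)
      rw [h1] at hl'
      exact hl' rfl
    have hrl : ratio Q l j ≠ 0 := by
      intro h0
      have h1 := hsc l
      rw [h0, map_zero] at h1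
      exact mul_ne_zero hs hcl h1.symm
    have hcfl : coordFun Q l ≠ 0 := by
      intro h0
      apply hrl
      apply HomM_val_injective
      rw [HomM_val_ratio, h0, zero_div, map_zero]
    have hordl : ordM z₀ (toM (c l)) = 0 := by
      apply le_antisymm
      · rw [← not_lt, ordM_toM_pos]
        exact hl'
      · exact ordM_toM_nonneg _ _
    have hrat : ∀ i, φ (ratio Q i l) * toM (c l) = toM (c i) := by
      intro i
      rw [HomM_ratio_div Q hj i l, map_div₀, hsc i, hsc l, mul_div_mul_left _ _ hs, div_mul_cancel₀ _ hcl]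
    refine ⟨l, hcfl, fun i => ?_, fun R d hd hR => ?_⟩
    · have h1 := congrArg (ordM z₀) (hrat i)
      rw [AddValuation.map_mul, hordl, add_zero] at h1
      rw [h1]
      exact ordM_toM_nonneg _ _
    · rw [hfc, HomM_vanishes_mk hd] at hR
      have h2 : φ (aeval (fun i => ratio Q i l) R) = aeval (fun i => φ (ratio Q i l)) R := by
        rw [← MvPolynomial.comp_aeval]
        rfl
      have h3 : toM (c l) ^ d * φ (aeval (fun i => ratio Q i l) R) = toM (aeval c R) := by
        rw [h2, ← Pool.Agent.H92.GT.Proj.aeval_scale hd, ← HomM_toM_aeval]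
        congr 2
        funext i
        rw [mul_comm]
        exact hrat i
      have h4 := congrArg (ordM z₀) h3
      rw [AddValuation.map_mul, AddValuation.map_pow, hordl, smul_zero, zero_add] at h4
      rw [h4, ordM_toM_pos, HomM_ev_aeval]
      exact hR

theorem nonneg_of_smul {e : ℕ} (he : 1 ≤ e) {a b : WithTop ℤ} (h : a = e • b) (ha : 0 ≤ a) : 0 ≤ b := by
  by_contra hcon
  push Not at hcon
  have hb : b ≠ ⊤ := ne_top_of_lt hcon
  obtain ⟨n, rfl⟩ := WithTop.ne_top_iff_exists.mp hb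
  have h1 : n < 0 := by exact_mod_cast hcon
  rw [h, ← WithTop.coe_nsmul] at ha
  have h2 : (0 : ℤ) ≤ e • n := by exact_mod_cast ha
  rw [nsmul_eq_mul] at h2
  have h3 : (1 : ℤ) ≤ e := by exact_mod_cast he
  nlinarith

theorem pos_of_smul {e : ℕ} {a b : WithTop ℤ} (h : a = e • b) (ha : 0 < a) : 0 < b := by
  by_contra hcon
  push Not at hcon
  have h1 : e • b ≤ e • (0 : WithTop ℤ) := nsmul_le_nsmul_right hcon e
  rw [smul_zero, ← h] at h1
  exact absurd ha (not_lt.mpr h1)

theorem homMapL (Q : Ideal (MvPolynomial (Fin (N + 1)) ℂ)) [Q.IsPrime] (hX : ∃ i, (X i : MvPolynomial (Fin (N + 1)) ℂ) ∉ Q) (hK : CurveField (FunField Q))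
    {s : ℕ} {G : Fin s → MvPolynomial (Fin (N + 1)) ℂ} (hG : ∀ m, ∃ d, (G m).IsHomogeneous d) (φ : FunField Q →ₐ[ℂ] Mer)
    (hB : ∀ (z₀ : ℂ) (E : Place (FunField Q)) (e : ℕ), 1 ≤ e → (∀ g, ordM z₀ (φ g) = e • E.ord g) → ¬ OnBd Q G E) :
    ∃ f : ℂ → PN N, HolomorphicInto f Set.univ ∧ (∀ z, f z ∈ locVar Q G) ∧ ∃ z w, f z ≠ f w := by
  obtain ⟨f, hf, hfQ, hne, hz⟩ := homMap0 Q hX hK φ
  refine ⟨f, hf, fun z₀ => ⟨hfQ z₀, ?_⟩, hne⟩
  by_contra hcon
  push Not at hcon
  obtain ⟨E, e, he, hE⟩ := exists_placeM hK φ z₀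
  obtain ⟨l, hl, hreg, hR⟩ := hz z₀
  refine hB z₀ E e he hE ⟨l, hl, fun i => nonneg_of_smul he (hE _) (hreg i), fun m => ?_⟩
  obtain ⟨d, hd⟩ := hG m
  exact pos_of_smul (hE _) (hR _ d hd (hcon m))

end Pool.Agent.H13.CV

end
end

section

/-!
# LT Ov: a prime divisor over a prime divisor, and the orders of forms

`K' / K` finite.  `E` has a uniformizer `t` and `s` with algebraically independent residues (`residue_trdeg`).
* `ov_coords`: the proof of `H23.exists_divisorCoords` (and `H17LG.exists_logDivisorCoords`) for given `t`, `s`.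
* `ov_fv`: the proof of `LG.exists_fv` for given coordinates.
* `ov_ext`: an extension `ν` of the order of `E` to `K'` (`LG.exists_ext`, normalised: the value group of `ν` is `ℤ`); ramification index `b`.
* the orders of forms: coordinates `(τ, s)` of `K'`, `ν τ = 1`, dual derivations `Δ_0`, `Δ_i` of `K'`.  `t = u τ^b`, `Δ_0 t = τ^(b-1) (b u + τ Δ_0 u)`, so `ν (Δ_0 t) = b - 1` (`ov_ram`).  The determinant of `(dt, ds)` in the basis
  `(dτ, ds)` is `Δ_0 t` (`ov_det`), and the coordinates of `da` in `Ω_K` and in `Ω_K'` are related by `KaehlerDifferential.map` (`ov_mat`).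
-/

set_option autoImplicit false

open MvPolynomial
open Pool.Agent.H23 (RatForm PrimeDivisorOver)
open Pool.Agent.LG (dd wd IV FV)

noncomputable section

namespace Pool.Agent.LT

section Coords

open Pool.Agent.H23 (dualDer dualDer_coord exists_int ev ev_injective aeval_cons exists_poly_of_basis exists_basis_kaehler der_nonneg fc)

variable {L : Type} [Field L] [Algebra ℂ L] {k : ℕ}

omit [Algebra ℂ L] in
private lemma ov_val_zpow (v : AddValuation L (WithTop ℤ)) {t : L} (ht : v t = 1) (n : ℤ) :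
    v (t ^ n) = (n : WithTop ℤ) := by
  have h0 : ∀ m : ℕ, v (t ^ m) = ((m : ℤ) : WithTop ℤ) := by
    intro m
    rw [v.map_pow, ht]
    simp
  have ht0 : t ≠ 0 := by
    rintro rfl
    simp at ht
  obtain ⟨m, rfl | rfl⟩ := n.eq_nat_or_neg
  · rw [zpow_natCast]
    exact h0 m
  · have h1 : t ^ (-(m : ℤ)) * t ^ m = 1 := by
      rw [← zpow_natCast, ← zpow_add₀ ht0]
      simp
    have h2 : v (t ^ (-(m : ℤ))) + v (t ^ m) = 0 := by
      rw [← v.map_mul, h1, v.map_one]
    obtain ⟨a, ha⟩ := exists_int v (zpow_ne_zero (-(m : ℤ)) ht0)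
    rw [ha, h0] at h2
    rw [ha]
    have h3 : a + (m : ℤ) = 0 := by exact_mod_cast h2
    exact congrArg _ (by omega : a = -(m : ℤ))

omit [Algebra ℂ L] in
private lemma ov_log (v : AddValuation L (WithTop ℤ)) {t : L} (ht : v t = 1)
    (D : Derivation ℤ L L) (h : ∀ f, 0 ≤ v f → 0 ≤ v (D f)) (hDt : 1 ≤ v (D t)) (f : L) :
    v f ≤ v (D f) := by
  have ht0 : t ≠ 0 := by
    rintro rfl
    simp at ht
  by_cases hf : f = 0
  · rw [hf, D.map_zero]
  obtain ⟨μ, hμ⟩ := exists_int v hf
  have hfu : f = t ^ μ * (t ^ (-μ) * f) := by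
    rw [← mul_assoc, ← zpow_add₀ ht0]
    simp
  obtain ⟨u, hu⟩ : ∃ u, u = t ^ (-μ) * f := ⟨_, rfl⟩
  rw [← hu] at hfu
  have hvu : v u = 0 := by
    rw [hu, v.map_mul, ov_val_zpow v ht, hμ]
    have : ((-μ + μ : ℤ) : WithTop ℤ) = 0 := by
      rw [neg_add_cancel]
      rfl
    exact_mod_cast this
  have hD : D f = t ^ μ * D u + u * (μ * (t ^ (μ - 1) * D t)) := by
    conv_lhs => rw [hfu]
    rw [D.leibniz, D.leibniz_zpow]
    simp only [smul_eq_mul, zsmul_eq_mul]
  rw [hD, hμ]
  apply v.map_le_add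
  · rw [v.map_mul, ov_val_zpow v ht]
    exact le_add_of_nonneg_right (h u (by rw [hvu]))
  · have hμ0 : 0 ≤ v ((μ : ℤ) : L) := by
      have h0 : ∀ m : ℕ, 0 ≤ v ((m : ℕ) : L) := by
        intro m
        induction m with
        | zero => simp
        | succ m ih =>
          push_cast
          exact v.map_le_add ih (by rw [v.map_one])
      obtain ⟨m, rfl | rfl⟩ := μ.eq_nat_or_neg
      · simpa using h0 m
      · simpa using h0 m
    rw [v.map_mul u, hvu, v.map_mul, v.map_mul, ov_val_zpow v ht, zero_add]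
    have h1 : ((μ : ℤ) : WithTop ℤ) = ((μ - 1 : ℤ) : WithTop ℤ) + 1 := by
      have : (μ : ℤ) = (μ - 1) + 1 := by ring
      conv_lhs => rw [this]
      push_cast
      rfl
    rw [h1]
    exact le_trans (add_le_add le_rfl hDt) (le_add_of_nonneg_left hμ0)

/-- the coordinates at a prime divisor for given `t`, `s` -/
private theorem ov_coords [Algebra.EssFiniteType ℂ L] {z : Fin (k + 1) → L} (hz : IsTranscendenceBasis ℂ z)
    (w : AddValuation L (WithTop ℤ)) {t : L} (ht : w t = 1) {s : Fin k → L}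
    (hs : ∀ p : MvPolynomial (Fin k) ℂ, p ≠ 0 → w (aeval s p) = 0) :
    ∃ b : Module.Basis (Fin (k + 1)) L Ω[L⁄ℂ],
      (∀ i, b i = KaehlerDifferential.D ℂ L ((Fin.cons t s : Fin (k + 1) → L) i)) ∧
      (∀ i f, 0 ≤ w f → 0 ≤ w (dualDer b i f)) ∧
      (∀ i, i ≠ 0 → ∀ f, w f ≤ w (dualDer b i f)) ∧
      ∀ f, w f ≤ w (t * dualDer b 0 f) := by
  set g : Fin (k + 1) → L := Fin.cons t s with hg
  have hind : AlgebraicIndependent ℂ g := by
    rw [algebraicIndependent_iff_injective_aeval]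
    have h1 : (MvPolynomial.aeval g : MvPolynomial (Fin (k + 1)) ℂ → L) =
        ev s t ∘ MvPolynomial.finSuccEquiv ℂ k := by
      funext p
      exact aeval_cons s t p
    rw [h1]
    exact (ev_injective w hs ht).comp (MvPolynomial.finSuccEquiv ℂ k).injective
  have hbasis : IsTranscendenceBasis ℂ g := by
    apply hind.isTranscendenceBasis_of_trdeg_le_of_finite
    rw [← hz.cardinalMk_eq_trdeg]
  obtain ⟨b, hb⟩ := exists_basis_kaehler hbasis
  have h4 : ∀ i f, 0 ≤ w f → 0 ≤ w (dualDer b i f) := by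
    intro i
    apply der_nonneg w hs ht
    · intro f
      obtain ⟨F, h1, h2⟩ := exists_poly_of_basis hbasis f
      refine ⟨F.map (MvPolynomial.finSuccEquiv ℂ k).toRingEquiv.toRingHom, ?_, ?_⟩
      · rwa [Ne, Polynomial.map_eq_zero_iff]
        exact (MvPolynomial.finSuccEquiv ℂ k).injective
      · rw [Polynomial.eval₂_map]
        have h3 : (ev s t).comp (MvPolynomial.finSuccEquiv ℂ k).toRingEquiv.toRingHom =
            (MvPolynomial.aeval g).toRingHom :=
          RingHom.ext fun p => (aeval_cons s t p).symm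
        rw [h3]
        exact h2
    · have := dualDer_coord b hb i 0
      rw [hg, Fin.cons_zero] at this
      rw [this]
      split_ifs <;> simp
    · intro j
      have := dualDer_coord b hb i j.succ
      rw [hg, Fin.cons_succ] at this
      rw [this]
      split_ifs <;> simp
  have hg0 : g 0 = t := by rw [hg, Fin.cons_zero]
  refine ⟨b, hb, h4, ?_, ?_⟩
  · intro i hi
    refine ov_log w ht ((dualDer b i).restrictScalars ℤ) (h4 i) ?_
    change 1 ≤ w (dualDer b i t)
    rw [← hg0, dualDer_coord b hb, if_neg hi]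
    simp
  · refine ov_log w ht ((t • dualDer b 0).restrictScalars ℤ) (fun f hf => ?_) ?_
    · change 0 ≤ w (t * dualDer b 0 f)
      rw [w.map_mul, ht]
      exact add_nonneg (by norm_num) (h4 0 f hf)
    · change 1 ≤ w (t * dualDer b 0 t)
      have h5 : dualDer b 0 t = 1 := by
        rw [← hg0, dualDer_coord b hb, if_pos rfl]
      rw [h5, mul_one, ht]

omit [Algebra ℂ L] in
private lemma ov_ord_prod (w : AddValuation L (WithTop ℤ)) {σ : Type} (s : Finset σ) (f : σ → L) :
    w (∏ i ∈ s, f i) = ∑ i ∈ s, w (f i) := by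
  classical
  induction s using Finset.induction_on with
  | empty => simp
  | insert a s ha ih => rw [Finset.prod_insert ha, Finset.sum_insert ha, w.map_mul, ih]

omit [Algebra ℂ L] in
private lemma ov_le_sum (w : AddValuation L (WithTop ℤ)) {σ : Type} (s : Finset σ) (f : σ → L)
    (c : WithTop ℤ) (h : ∀ i ∈ s, c ≤ w (f i)) : c ≤ w (∑ i ∈ s, f i) := by
  classical
  induction s using Finset.induction_on with
  | empty => simp
  | insert a s ha ih =>
    rw [Finset.sum_insert ha]
    exact w.map_le_add (h a (Finset.mem_insert_self _ _))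
      (ih fun i hi => h i (Finset.mem_insert_of_mem hi))

omit [Algebra ℂ L] in
private lemma ov_le_det (w : AddValuation L (WithTop ℤ)) {r : ℕ} (A : Matrix (Fin r) (Fin r) L)
    (c : Fin r → WithTop ℤ) (h : ∀ i j, c j ≤ w (A i j)) : ∑ j, c j ≤ w A.det := by
  rw [Matrix.det_apply]
  apply ov_le_sum
  intro σ _
  have h1 : ∑ j, c j ≤ w (∏ i, A (σ i) i) := by
    rw [ov_ord_prod]
    exact Finset.sum_le_sum fun i _ => h (σ i) i
  rcases Int.units_eq_one_or (Equiv.Perm.sign σ) with hs | hs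
  · rw [hs, one_smul]
    exact h1
  · rw [hs, Units.neg_smul, one_smul, w.map_neg]
    exact h1

private lemma ov_nsmul (m : ℕ) (x : ℤ) : m • (x : WithTop ℤ) = ((m * x : ℤ) : WithTop ℤ) := by
  induction m with
  | zero => simp
  | succ m ih =>
    rw [succ_nsmul, ih, ← WithTop.coe_add]
    congr 1
    push_cast
    ring

private theorem ov_fcdet (b : Module.Basis (Fin (k + 1)) L Ω[L⁄ℂ]) (a : Fin (k + 1) → L) :
    fc b (wd fun i => dd (a i)) = (Matrix.of fun i j => dualDer b i (a j)).det := by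
  rw [wd, Pool.Agent.H23.fc_ιMulti, Module.Basis.det_apply]
  rfl

private theorem ov_fcne (b : Module.Basis (Fin (k + 1)) L Ω[L⁄ℂ]) {ω : RatForm L (k + 1)} (hω : ω ≠ 0) : fc b ω ≠ 0 := by
  intro h0
  apply hω
  rw [Pool.Agent.H23.eq_fc_smul b ω, h0, zero_smul]

/-- the orders of forms from the coordinates -/
private theorem ov_fv (w : AddValuation L (WithTop ℤ)) (hc : ∀ c : ℂ, 0 ≤ w (algebraMap ℂ L c)) {v : L → ℤ}
    (hv : ∀ a, a ≠ 0 → w a = (v a : WithTop ℤ)) {t : L} (ht : w t = 1) (b : Module.Basis (Fin (k + 1)) L Ω[L⁄ℂ])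
    (hη : ∀ i f, 0 ≤ w f → 0 ≤ w (dualDer b i f)) (hη' : ∀ i, i ≠ 0 → ∀ f, w f ≤ w (dualDer b i f))
    (hη0 : ∀ f, w f ≤ w (t * dualDer b 0 f)) : FV (k + 1) v (fun ω => v (fc b ω)) := by
  classical
  have hfc : ∀ ω : RatForm L (k + 1), ω ≠ 0 → fc b ω ≠ 0 := fun ω hω => ov_fcne b hω
  have hpos : ∀ a : L, a ≠ 0 → (0 ≤ w a ↔ 0 ≤ v a) := by
    intro a ha
    rw [hv a ha]
    exact_mod_cast Iff.rfl
  have hIV : IV L v := by
    refine ⟨?_, ?_, ?_⟩
    · intro a c ha hc
      have h1 := w.map_mul a c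
      rw [hv a ha, hv c hc, hv _ (mul_ne_zero ha hc)] at h1
      exact_mod_cast h1
    · intro a c ha hc hac
      have h1 := w.map_add a c
      rw [hv a ha, hv c hc, hv _ hac] at h1
      exact_mod_cast h1
    · intro c hc0
      have hc1 : algebraMap ℂ L c ≠ 0 := by
        rwa [Ne, map_eq_zero]
      have h1 : 0 ≤ v (algebraMap ℂ L c) := (hpos _ hc1).1 (hc c)
      have hc2 : algebraMap ℂ L c⁻¹ ≠ 0 := by
        rw [Ne, map_eq_zero]
        exact inv_ne_zero hc0
      have h2 : 0 ≤ v (algebraMap ℂ L c⁻¹) := (hpos _ hc2).1 (hc c⁻¹)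
      have h3 : v (algebraMap ℂ L c) + v (algebraMap ℂ L c⁻¹) = 0 := by
        have h4 := w.map_mul (algebraMap ℂ L c) (algebraMap ℂ L c⁻¹)
        rw [← map_mul, mul_inv_cancel₀ hc0, map_one, w.map_one, hv _ hc1, hv _ hc2] at h4
        exact_mod_cast h4.symm
      omega
  refine ⟨hIV, ?_, ?_, ?_, ?_⟩
  · intro c ω hc hω
    rw [map_smul, smul_eq_mul]
    exact hIV.mul hc (hfc ω hω)
  · intro ω ω' hω hω' h
    rw [map_add]
    refine hIV.add (hfc ω hω) (hfc ω' hω') ?_
    rw [← map_add]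
    exact hfc _ h
  · intro a ha hne
    have hne' := hfc _ hne
    have h1 : ∑ j, w (a j) ≤ w (t * fc b (wd fun i => dd (a i))) := by
      have h2 : t * fc b (wd fun i => dd (a i)) =
          (Matrix.of fun i j => (if i = 0 then t else 1) * dualDer b i (a j)).det := by
        rw [ov_fcdet]
        have h3 := Matrix.det_mul_column (fun i : Fin (k + 1) => if i = 0 then t else 1)
          (Matrix.of fun i j => dualDer b i (a j))
        simp only [Matrix.of_apply] at h3
        rw [h3]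
        congr 1
        rw [Fin.prod_univ_succ]
        simp
      rw [h2]
      apply ov_le_det
      intro i j
      rw [Matrix.of_apply]
      by_cases hi : i = 0
      · rw [if_pos hi, hi]
        exact hη0 (a j)
      · rw [if_neg hi, one_mul]
        exact hη' i hi (a j)
    rw [w.map_mul, ht, hv _ hne', Finset.sum_congr rfl fun j _ => hv _ (ha j)] at h1
    have h4 : ((∑ j, v (a j) : ℤ) : WithTop ℤ) ≤
        ((1 + v (fc b (wd fun i => dd (a i))) : ℤ) : WithTop ℤ) := by
      push_cast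
      exact h1
    have h5 := WithTop.coe_le_coe.1 h4
    change ∑ i, v (a i) ≤ v (fc b (wd fun i => dd (a i))) + 1
    linarith
  · intro a ha hne
    have hne' := hfc _ hne
    have ha' : ∀ i, 0 ≤ w (a i) := by
      intro i
      by_cases h0 : a i = 0
      · rw [h0, w.map_zero]
        exact le_top
      · exact (hpos _ h0).2 (ha i h0)
    have h1 : ∑ j : Fin (k + 1), (0 : WithTop ℤ) ≤ w (fc b (wd fun i => dd (a i))) := by
      rw [ov_fcdet]
      apply ov_le_det
      intro i j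
      exact hη i (a j) (ha' j)
    rw [Finset.sum_const_zero] at h1
    exact (hpos _ hne').1 h1

end Coords

section Ext

variable {K : Type} [Field K] [Algebra ℂ K]
variable {K' : Type} [Field K'] [Algebra K K'] [Algebra ℂ K'] [IsScalarTower ℂ K K']

private theorem ov_one {ν : K' → ℤ} (h : IV K' ν) : ν 1 = 0 := by
  simpa using h.const 1 one_ne_zero

private theorem ov_inv {ν : K' → ℤ} (h : IV K' ν) {a : K'} (ha : a ≠ 0) : ν a⁻¹ = - ν a := by
  have h1 := h.mul (a := a) (b := a⁻¹) ha (inv_ne_zero ha)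
  rw [mul_inv_cancel₀ ha, ov_one h] at h1
  linarith

private theorem ov_pow {ν : K' → ℤ} (h : IV K' ν) {a : K'} (ha : a ≠ 0) (m : ℕ) : ν (a ^ m) = m * ν a := by
  induction m with
  | zero => simp [ov_one h]
  | succ m ih =>
    rw [pow_succ, h.mul (pow_ne_zero m ha) ha, ih]
    push_cast
    ring

private theorem ov_zpow {ν : K' → ℤ} (h : IV K' ν) {a : K'} (ha : a ≠ 0) (m : ℤ) : ν (a ^ m) = m * ν a := by
  cases m with
  | ofNat m => simpa using ov_pow h ha m
  | negSucc m =>
    rw [zpow_negSucc, ov_inv h (pow_ne_zero _ ha), ov_pow h ha]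
    push_cast
    rw [Int.negSucc_eq]
    ring

/-- the extension of a valuation, normalised -/
private theorem ov_ext [FiniteDimensional K K'] {v : K → ℤ} (hv : IV K v) (ht : ∃ t, t ≠ 0 ∧ v t = 1) :
    ∃ (ν : K' → ℤ) (b : ℤ), 1 ≤ b ∧ IV K' ν ∧ (∃ τ, τ ≠ 0 ∧ ν τ = 1) ∧ ∀ a : K, a ≠ 0 → ν (algebraMap K K' a) = b * v a := by
  classical
  obtain ⟨ν, e, he, hν, hνv⟩ := Pool.Agent.LG.exists_ext (K' := K') hv ht
  obtain ⟨t, ht0, ht1⟩ := ht
  have hex : ∃ n : ℕ, 0 < n ∧ ∃ x : K', x ≠ 0 ∧ ν x = n := by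
    refine ⟨e.toNat, by omega, algebraMap K K' t, by simpa using ht0, ?_⟩
    rw [hνv t ht0, ht1]
    omega
  obtain ⟨hd0, τ, hτ0, hτ⟩ := Nat.find_spec hex
  have hmin := fun m => Nat.find_min hex (m := m)
  set d := Nat.find hex with hd
  have hdvd : ∀ x : K', x ≠ 0 → (d : ℤ) ∣ ν x := by
    intro x hx
    have h1 : x * (τ ^ (ν x / d))⁻¹ ≠ 0 := mul_ne_zero hx (inv_ne_zero (zpow_ne_zero _ hτ0))
    have h2 : ν (x * (τ ^ (ν x / d))⁻¹) = ν x % d := by
      rw [hν.mul hx (inv_ne_zero (zpow_ne_zero _ hτ0)), ov_inv hν (zpow_ne_zero _ hτ0), ov_zpow hν hτ0, hτ]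
      have := Int.emod_add_mul_ediv (ν x) d
      linarith [mul_comm (d : ℤ) (ν x / d)]
    have h3 : 0 ≤ ν x % d := Int.emod_nonneg _ (by omega)
    have h4 : ν x % d < d := Int.emod_lt_of_pos _ (by omega)
    rw [Int.dvd_iff_emod_eq_zero]
    by_contra hne
    refine hmin (ν x % d).toNat (by omega) ⟨by omega, _, h1, ?_⟩
    rw [h2]
    omega
  have hd1 : (0 : ℤ) < d := by omega
  have hdiv : ∀ x : K', x ≠ 0 → ν x = d * (ν x / d) := fun x hx => (Int.mul_ediv_cancel' (hdvd x hx)).symm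
  refine ⟨fun x => ν x / d, e / d, ?_, ⟨?_, ?_, ?_⟩, ⟨τ, hτ0, ?_⟩, ?_⟩
  · have h1 := hdvd (algebraMap K K' t) (by simpa using ht0)
    rw [hνv t ht0, ht1, mul_one] at h1
    obtain ⟨c, hc⟩ := h1
    rw [hc, Int.mul_ediv_cancel_left _ (by omega)]
    by_contra hcon
    have : c ≤ 0 := by omega
    nlinarith
  · intro a c ha hc
    have h1 := hν.mul ha hc
    rw [hdiv a ha, hdiv c hc, hdiv _ (mul_ne_zero ha hc), ← mul_add] at h1
    exact mul_left_cancel₀ (by omega) h1
  · intro a c ha hc hac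
    have h1 := hν.add ha hc hac
    exact Int.le_ediv_of_mul_le hd1 (by
      rcases le_total (ν a / d) (ν c / d) with h | h
      · rw [min_eq_left h]
        rw [min_le_iff] at h1
        rcases h1 with h1 | h1
        · linarith [hdiv a ha, mul_comm (d : ℤ) (ν a / d)]
        · nlinarith [hdiv c hc]
      · rw [min_eq_right h]
        rw [min_le_iff] at h1
        rcases h1 with h1 | h1
        · nlinarith [hdiv a ha]
        · linarith [hdiv c hc, mul_comm (d : ℤ) (ν c / d)])
  · intro c hc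
    rw [hν.const c hc]
    simp
  · change ν τ / d = 1
    rw [hτ]
    exact Int.ediv_self (by omega)
  · intro a ha
    change ν (algebraMap K K' a) / d = _
    have h1 := hdvd (algebraMap K K' t) (by simpa using ht0)
    rw [hνv t ht0, ht1, mul_one] at h1
    obtain ⟨c, hc⟩ := h1
    rw [hνv a ha, hc, mul_assoc, Int.mul_ediv_cancel_left _ (by omega), Int.mul_ediv_cancel_left _ (by omega)]

/-- the additive valuation of an integer valued valuation -/
private def ov_val {ν : K' → ℤ} (h : IV K' ν) : AddValuation K' (WithTop ℤ) :=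
  open Classical in
  AddValuation.of (fun x => if x = 0 then ⊤ else (ν x : WithTop ℤ)) (by simp) (by simp [ov_one h])
    (by
      classical
      intro x y
      change min (if x = 0 then ⊤ else (ν x : WithTop ℤ)) (if y = 0 then ⊤ else (ν y : WithTop ℤ)) ≤ (if x + y = 0 then ⊤ else (ν (x + y) : WithTop ℤ))
      by_cases hx : x = 0
      · rw [hx, zero_add]
        exact min_le_right _ _
      by_cases hy : y = 0
      · rw [hy, add_zero]
        exact min_le_left _ _
      by_cases hxy : x + y = 0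
      · simp [hxy]
      simp only [hx, hy, hxy, if_false]
      have h1 := h.add hx hy hxy
      exact_mod_cast h1)
    (by
      intro x y
      by_cases hx : x = 0
      · subst hx
        simp
      by_cases hy : y = 0
      · subst hy
        simp
      have hxy : x * y ≠ 0 := mul_ne_zero hx hy
      simp only [hx, hy, hxy, if_false]
      rw [h.mul hx hy]
      exact_mod_cast rfl)

private theorem ov_val_apply {ν : K' → ℤ} (h : IV K' ν) {a : K'} (ha : a ≠ 0) : ov_val h a = (ν a : WithTop ℤ) := by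
  unfold ov_val
  rw [AddValuation.of_apply, if_neg ha]

end Ext

section Forms

open Pool.Agent.H23 (dualDer dualDer_coord fc)

variable {K : Type} [Field K] [Algebra ℂ K] {k : ℕ}
variable {K' : Type} [Field K'] [Algebra K K'] [Algebra ℂ K'] [IsScalarTower ℂ K K']

/-- a derivation of `K'` on `K` in terms of the coordinates of `K` -/
private theorem ov_chain (b : Module.Basis (Fin (k + 1)) K Ω[K⁄ℂ]) {g : Fin (k + 1) → K} (hb : ∀ i, b i = KaehlerDifferential.D ℂ K (g i))
    (Δ : Derivation ℂ K' K') (a : K) :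
    Δ (algebraMap K K' a) = ∑ l, algebraMap K K' (dualDer b l a) * Δ (algebraMap K K' (g l)) := by
  have h1 : (Δ.compAlgebraMap K) a = ∑ l, dualDer b l a • (Δ.compAlgebraMap K) (g l) := by
    have h2 : KaehlerDifferential.D ℂ K a = ∑ l, dualDer b l a • KaehlerDifferential.D ℂ K (g l) := by
      conv_lhs => rw [← b.sum_repr (KaehlerDifferential.D ℂ K a)]
      refine Finset.sum_congr rfl fun l _ => ?_
      rw [hb]
      rfl
    have h3 := congrArg (Δ.compAlgebraMap K).liftKaehlerDifferential h2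
    rw [map_sum] at h3
    simpa only [map_smul, Derivation.liftKaehlerDifferential_comp_D] using h3
  simpa [Algebra.smul_def] using h1

omit [Algebra ℂ K'] in
/-- the determinant of `(dt, ds)` in the basis `(dτ, ds)` -/
private theorem ov_det (N : Matrix (Fin (k + 1)) (Fin (k + 1)) K') (h : ∀ i (j : Fin k), N i j.succ = if i = j.succ then 1 else 0) : N.det = N 0 0 := by
  rw [Matrix.det_succ_row_zero, Fin.sum_univ_succ, Finset.sum_eq_zero, add_zero]
  · have h1 : N.submatrix Fin.succ (Fin.succAbove 0) = 1 := by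
      ext i j
      rw [Matrix.submatrix_apply, Fin.succAbove_zero, h, Matrix.one_apply]
      simp only [Fin.succ_inj]
    rw [h1, Matrix.det_one]
    simp
  · intro j _
    rw [h, if_neg (Fin.succ_ne_zero j).symm]
    simp

/-- the order of the derivative of `t` -/
private theorem ov_ram (w : AddValuation K' (WithTop ℤ)) (hc : ∀ c : ℂ, c ≠ 0 → w (algebraMap ℂ K' c) = 0) {τ : K'} (hτ : w τ = 1)
    (Δ : Derivation ℂ K' K') (hΔ : ∀ f, 0 ≤ w f → 0 ≤ w (Δ f)) (hΔτ : Δ τ = 1) {T : K'} {m : ℕ} (hm : 1 ≤ m) (hT : w T = (m : ℤ)) :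
    w (Δ T) = ((m - 1 : ℕ) : ℤ) := by
  have hτ0 : τ ≠ 0 := by
    rintro rfl
    simp at hτ
  obtain ⟨n, rfl⟩ : ∃ n, m = n + 1 := ⟨m - 1, by omega⟩
  obtain ⟨u, hu⟩ : ∃ u, u = T * (τ ^ (n + 1))⁻¹ := ⟨_, rfl⟩
  have hTu : T = τ ^ (n + 1) * u := by
    rw [hu]
    field_simp
  have hwp : ∀ q : ℕ, w (τ ^ q) = ((q : ℤ) : WithTop ℤ) := by
    intro q
    rw [w.map_pow, hτ]
    simp
  have hwu : w u = 0 := by
    have h1 := w.map_mul (τ ^ (n + 1)) u
    rw [← hTu, hT, hwp] at h1
    have hu0 : u ≠ 0 := by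
      rintro rfl
      rw [mul_zero] at hTu
      rw [hTu, w.map_zero] at hT
      exact WithTop.top_ne_coe hT
    obtain ⟨q, hq⟩ := Pool.Agent.H23.exists_int w hu0
    rw [hq] at h1 ⊢
    have h2 : ((n + 1 : ℕ) : ℤ) = ((n + 1 : ℕ) : ℤ) + q := by exact_mod_cast h1
    have h3 : q = 0 := by omega
    rw [h3]
    rfl
  have h1 : Δ T = τ ^ n * (algebraMap ℂ K' (n + 1) * u + τ * Δ u) := by
    rw [hTu, Δ.leibniz, Δ.leibniz_pow, hΔτ, map_add, map_one, map_natCast]
    simp only [smul_eq_mul, nsmul_eq_mul, Nat.add_sub_cancel, mul_one]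
    push_cast
    ring
  have h2 : w (algebraMap ℂ K' (n + 1) * u) = 0 := by
    rw [w.map_mul, hwu, add_zero]
    exact hc _ (by exact_mod_cast Nat.succ_ne_zero n)
  have h3 : w (algebraMap ℂ K' (n + 1) * u + τ * Δ u) = 0 := by
    rw [w.map_add_eq_of_lt_left, h2]
    rw [h2, w.map_mul, hτ]
    have h4 := hΔ u (by rw [hwu])
    exact lt_of_lt_of_le (by norm_num) (le_add_of_nonneg_right h4)
  rw [h1, w.map_mul, h3, hwp, add_zero, Nat.add_sub_cancel]

end Forms

variable {K : Type} [Field K] [Algebra ℂ K] {k : ℕ}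
variable {K' : Type} [Field K'] [Algebra K K'] [Algebra ℂ K'] [IsScalarTower ℂ K K']

theorem exists_fv_over [Algebra.EssFiniteType ℂ K] [FiniteDimensional K K'] {z : Fin (k + 1) → K} (hz : IsTranscendenceBasis ℂ z) (E : PrimeDivisorOver K (k + 1)) :
    ∃ (v : K → ℤ) (o : RatForm K (k + 1) → ℤ) (ν : K' → ℤ) (o' : RatForm K' (k + 1) → ℤ) (b : ℤ), FV (k + 1) v o ∧ (∀ a, a ≠ 0 → E.ord a = (v a : WithTop ℤ)) ∧
      (∀ (M : ℕ) (f : K) (ω : RatForm K (k + 1)), f ≠ 0 → ω ≠ 0 → (0 ≤ v f + M * o ω → H17GT.RegularAlong E M f ω) ∧ (0 ≤ v f + M * o ω + M → H17LG.LogRegularAlong E M f ω)) ∧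
      FV (k + 1) ν o' ∧ 1 ≤ b ∧ (∀ a, a ≠ 0 → ν (algebraMap K K' a) = b * v a) ∧
      ∀ a : Fin (k + 1) → K, wd (fun i => dd (a i)) ≠ 0 → wd (fun i => dd (algebraMap K K' (a i))) ≠ 0 ∧ o' (wd fun i => dd (algebraMap K K' (a i))) + 1 = b * (o (wd fun i => dd (a i)) + 1) := by
  classical
  obtain ⟨t, ht⟩ := E.exists_uniformizer
  obtain ⟨s, hs0, hs⟩ := E.residue_trdeg
  change Fin k → K at s
  change ∀ i : Fin k, 0 ≤ E.ord (s i) at hs0
  change ∀ p : MvPolynomial (Fin k) ℂ, p ≠ 0 → E.ord (MvPolynomial.aeval s p) = 0 at hs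
  have ht0 : t ≠ 0 := by
    rintro rfl
    simp at ht
  -- the coordinates of `K`
  obtain ⟨β, hβ, hβ1, hβ2, hβ3⟩ := ov_coords hz E.ord ht hs
  have hex : ∀ a : K, ∃ q : ℤ, a ≠ 0 → E.ord a = (q : WithTop ℤ) := by
    intro a
    by_cases ha : a = 0
    · exact ⟨0, fun h => absurd ha h⟩
    · obtain ⟨q, hq⟩ := Pool.Agent.H23.exists_int E.ord ha
      exact ⟨q, fun _ => hq⟩
  choose v hv using hex
  have hFV : FV (k + 1) v (fun ω => v (Pool.Agent.H23.fc β ω)) := ov_fv E.ord E.ord_const hv ht β hβ1 hβ2 hβ3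
  have hvt : v t = 1 := by
    rw [hv t ht0] at ht
    exact_mod_cast ht
  -- the extension
  obtain ⟨ν, b, hb1, hν, ⟨τ, hτ0, hτ1⟩, hνv⟩ := ov_ext (K' := K') hFV.toIV ⟨t, ht0, hvt⟩
  have hw : ∀ a : K', a ≠ 0 → ov_val hν a = (ν a : WithTop ℤ) := fun a ha => ov_val_apply hν ha
  have hinj : ∀ a : K, a ≠ 0 → algebraMap K K' a ≠ 0 := fun a ha => by simpa using ha
  have hwτ : ov_val hν τ = 1 := by
    rw [hw τ hτ0, hτ1]
    rfl
  have hwc : ∀ c : ℂ, c ≠ 0 → ov_val hν (algebraMap ℂ K' c) = 0 := by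
    intro c hc
    rw [hw _ (by simpa using hc), hν.const c hc]
    rfl
  have hwc' : ∀ c : ℂ, 0 ≤ ov_val hν (algebraMap ℂ K' c) := by
    intro c
    by_cases hc : c = 0
    · subst hc
      simp
    · rw [hwc c hc]
  have hs' : ∀ p : MvPolynomial (Fin k) ℂ, p ≠ 0 → ov_val hν (aeval (fun i => algebraMap K K' (s i)) p) = 0 := by
    intro p hp
    have h1 : aeval (fun i => algebraMap K K' (s i)) p = algebraMap K K' (aeval s p) := by
      rw [← MvPolynomial.aeval_algebraMap_apply]
      rfl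
    have h2 := hs p hp
    have h3 : aeval s p ≠ 0 := by
      intro h
      rw [h] at h2
      simp at h2
    rw [hv _ h3] at h2
    have h4 : v (aeval s p) = 0 := by exact_mod_cast h2
    rw [h1, hw _ (hinj _ h3), hνv _ h3, h4, mul_zero]
    rfl
  have : Algebra.EssFiniteType ℂ K' := Algebra.EssFiniteType.comp ℂ K K'
  have hz' : IsTranscendenceBasis ℂ (algebraMap K K' ∘ z) := hz.algebraMap_comp
  obtain ⟨β', hβ', hβ1', hβ2', hβ3'⟩ := ov_coords hz' (ov_val hν) hwτ hs'
  have hFV' : FV (k + 1) ν (fun ω => ν (Pool.Agent.H23.fc β' ω)) := ov_fv (ov_val hν) hwc' hw hwτ β' hβ1' hβ2' hβ3'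
  have hmem : exteriorPower.ιMulti K (k + 1) (fun i => β i) ∈
      Pool.Agent.H23.regularForms (k + 1) E.localRing := by
    apply AddSubgroup.subset_closure
    refine ⟨1, Fin.cons t s, E.localRing.one_mem, ?_, ?_⟩
    · intro i
      refine Fin.cases ?_ (fun j => ?_) i
      · rw [Fin.cons_zero]
        change 0 ≤ E.ord t
        rw [ht]
        norm_num
      · rw [Fin.cons_succ]
        exact hs0 j
    · rw [one_smul]
      simp only [hβ]
  have hpow : ∀ (m : ℕ) (f : K) (ω : RatForm K (k + 1)), f ≠ 0 → ω ≠ 0 →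
      E.ord (f * Pool.Agent.H23.fc β ω ^ m) = ((v f + m * v (Pool.Agent.H23.fc β ω) : ℤ) : WithTop ℤ) := by
    intro m f ω hf hω
    rw [E.ord.map_mul, E.ord.map_pow, hv f hf, hv _ (ov_fcne β hω), ov_nsmul, ← WithTop.coe_add]
  refine ⟨v, fun ω => v (Pool.Agent.H23.fc β ω), ν, fun ω => ν (Pool.Agent.H23.fc β' ω), b, hFV, hv, ?_, hFV', hb1, hνv, ?_⟩
  · intro m f ω hf hω
    constructor
    · intro h
      refine ⟨Pool.Agent.H23.fc β ω, _, hmem, Pool.Agent.H23.eq_fc_smul β ω, ?_⟩
      rw [hpow m f ω hf hω]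
      exact_mod_cast h
    · intro h
      refine ⟨Pool.Agent.H23.fc β ω, _, hmem, Pool.Agent.H23.eq_fc_smul β ω, ?_⟩
      rw [hpow m f ω hf hω]
      exact_mod_cast h
  · intro a ha
    -- the determinants
    set M : Matrix (Fin (k + 1)) (Fin (k + 1)) K := Matrix.of fun i j => Pool.Agent.H23.dualDer β i (a j) with hM
    set N : Matrix (Fin (k + 1)) (Fin (k + 1)) K' := Matrix.of fun i j =>
      Pool.Agent.H23.dualDer β' i (algebraMap K K' ((Fin.cons t s : Fin (k + 1) → K) j)) with hN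
    have h1 : Pool.Agent.H23.fc β (wd fun i => dd (a i)) = M.det := ov_fcdet β a
    have h2 : Pool.Agent.H23.fc β' (wd fun i => dd (algebraMap K K' (a i))) = N.det * algebraMap K K' M.det := by
      rw [ov_fcdet β' fun i => algebraMap K K' (a i), RingHom.map_det, ← Matrix.det_mul]
      congr 1
      ext i j
      rw [Matrix.of_apply, Matrix.mul_apply, ov_chain β hβ]
      refine Finset.sum_congr rfl fun l _ => ?_
      rw [mul_comm]
      rfl
    have h3 : N.det = Pool.Agent.H23.dualDer β' 0 (algebraMap K K' t) := by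
      rw [ov_det N]
      · rw [hN, Matrix.of_apply, Fin.cons_zero]
      · intro i j
        rw [hN, Matrix.of_apply, Fin.cons_succ]
        have h4 := Pool.Agent.H23.dualDer_coord β' hβ' i j.succ
        rw [Fin.cons_succ] at h4
        exact h4
    have hτΔ : Pool.Agent.H23.dualDer β' 0 τ = 1 := by
      have h4 := Pool.Agent.H23.dualDer_coord β' hβ' 0 0
      rw [Fin.cons_zero, if_pos rfl] at h4
      exact h4
    have hb2 : ((b.toNat : ℕ) : ℤ) = b := by omega
    have h5 : ov_val hν (Pool.Agent.H23.dualDer β' 0 (algebraMap K K' t)) = ((b.toNat - 1 : ℕ) : ℤ) := by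
      apply ov_ram (ov_val hν) hwc hwτ _ (hβ1' 0) hτΔ (by omega)
      rw [hw _ (hinj t ht0), hνv t ht0, hvt, mul_one, hb2]
    have h6 : Pool.Agent.H23.dualDer β' 0 (algebraMap K K' t) ≠ 0 := by
      intro h
      rw [h] at h5
      simp at h5
    have h7 : ν (Pool.Agent.H23.dualDer β' 0 (algebraMap K K' t)) = b - 1 := by
      rw [hw _ h6] at h5
      have h8 := WithTop.coe_inj.1 h5
      omega
    have h9 : M.det ≠ 0 := by
      rw [← h1]
      exact ov_fcne β ha
    have h10 : Pool.Agent.H23.fc β' (wd fun i => dd (algebraMap K K' (a i))) ≠ 0 := by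
      rw [h2, h3]
      exact mul_ne_zero h6 (hinj _ h9)
    refine ⟨?_, ?_⟩
    · intro h
      apply h10
      rw [h, map_zero]
    · change ν (Pool.Agent.H23.fc β' (wd fun i => dd (algebraMap K K' (a i)))) + 1 = b * (v (Pool.Agent.H23.fc β (wd fun i => dd (a i))) + 1)
      rw [h2, h3, h1, hν.mul h6 (hinj _ h9), h7, hνv _ h9]
      ring

end Pool.Agent.LT

end
end
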