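import Pool.Agent.H94.PX4.M04
import Pool.Agent.H94.PX4.M05
import Pool.Agent.H94.PX4.M06

/-! The parts of this file: PX.F.FDefs, HE.FDefs, LG.GD, LG.G4a. -/

section

/-!
# PX FDefs: complements of hypersurfaces in `A × ℙ¹`: the definitions of the final theorem

`A = ℂ^n / Λ`, `n = k + 1`, is a complex torus.

* `IsCurveIn`, `IsHyperbolicModulo`, `IsFiniteOver`: for a subset `T` of `A × ℙ^m`, and a set `S` of special points of `A`, the holomorphic curves in `T`; hyperbolicity of `T` modulo the fibres over `S`; and quasi-projective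
  varieties which are quasi-finite over `T`.
* `IsThetaForm`: `θ 0, …, θ d` are sections of a positive line bundle on `A`, that is theta functions on `ℂ^n` with a common factor of automorphy.  `form θ y x = ∑ θ i y * x 0 ^ i * x 1 ^ (d - i)`; the hypersurface
  `E ⊆ A × ℙ¹` is the set of its zeros, `complement Λ θ` its complement.  `ThreePoints θ y`: the fibre over `y` contains three points of `E`; `fewPoints Λ θ`: the set of the other points of `A`.
-/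

set_option autoImplicit false

open Topology Filter MvPolynomial
open Pool.Agent.H17 (PN VanishesAt HolomorphicInto puncturedDisc)
open Pool.Agent.H62.SA (locVar)
open Pool.Agent.H17EF (projVar)
open Pool.Agent.AD (IsHolomorphicTorusMap)
open Pool.Agent.H7.Bir (vals rmap)

noncomputable section

namespace Pool.Agent.PXF

/-- `ℂ^n` -/
abbrev Cn (n : ℕ) : Type := Fin n → ℂ

variable {N k d m : ℕ}

/-- The torus is simple: a complex subspace `W ≠ 0` which is the real span of its lattice points is the whole space. -/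
def IsSimple {n : ℕ} (Λ : AddSubgroup (Cn n)) : Prop :=
  ∀ W : Submodule ℂ (Cn n), W ≠ ⊥ → (∀ v ∈ W, v ∈ Submodule.span ℝ {l : Cn n | l ∈ Λ ∧ l ∈ W}) → W = ⊤

/-- `t` is holomorphic on the open set `U` as a map to the torus. -/
def HolomorphicIntoTorus (Λ : AddSubgroup (Cn (k + 1))) (t : ℂ → Cn (k + 1) ⧸ Λ) (U : Set ℂ) : Prop :=
  ∀ z₀ ∈ U, ∃ h : ℂ → Cn (k + 1), AnalyticAt ℂ h z₀ ∧ ∀ᶠ z in 𝓝 z₀, t z = (h z : Cn (k + 1) ⧸ Λ)

/-- `(t, g)` is a holomorphic map from the open set `U` to the subset `T` of `A × ℙ^m`. -/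
structure IsCurveIn (Λ : AddSubgroup (Cn (k + 1))) (T : Set ((Cn (k + 1) ⧸ Λ) × PN m)) (t : ℂ → Cn (k + 1) ⧸ Λ) (g : ℂ → PN m) (U : Set ℂ) : Prop where
  torus : HolomorphicIntoTorus Λ t U
  proj : HolomorphicInto g U
  mem : ∀ z ∈ U, (t z, g z) ∈ T

/-- Hyperbolicity of the subset `T` of `A × ℙ^m` modulo the fibres over the subset `S` of `A`. -/
structure IsHyperbolicModulo (Λ : AddSubgroup (Cn (k + 1))) (T : Set ((Cn (k + 1) ⧸ Λ) × PN m)) (S : Set (Cn (k + 1) ⧸ Λ)) : Prop where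
  /-- there is a constant `C` such that the component in `A` of every holomorphic map from the unit disc to `T` has derivative at most `C` at `0` -/
  discs : ∃ C : ℝ, ∀ (h : ℂ → Cn (k + 1)) (g : ℂ → PN m), AnalyticAt ℂ h 0 → IsCurveIn Λ T (fun z => (h z : Cn (k + 1) ⧸ Λ)) g (Metric.ball 0 1) → ‖deriv h 0‖ ≤ C
  /-- every entire curve in `T` lies in a fibre, and is constant if this is not a fibre over a point of `S` -/
  entire : ∀ (t : ℂ → Cn (k + 1) ⧸ Λ) (g : ℂ → PN m), IsCurveIn Λ T t g Set.univ → ∀ z w, t z = t w ∧ (t z ∉ S → g z = g w)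
  /-- every holomorphic map from the punctured disc to `T` extends to a holomorphic map from the disc to `A × ℙ^m`, if it does not map into the fibres over `S`; the component in `A` extends in any case -/
  punctured : ∀ (t : ℂ → Cn (k + 1) ⧸ Λ) (g : ℂ → PN m), IsCurveIn Λ T t g puncturedDisc →
    (∃ t' : ℂ → Cn (k + 1) ⧸ Λ, HolomorphicIntoTorus Λ t' (Metric.ball 0 1) ∧ ∀ z ∈ puncturedDisc, t' z = t z) ∧
    ((∃ z ∈ puncturedDisc, t z ∉ S) → ∃ g' : ℂ → PN m, HolomorphicInto g' (Metric.ball 0 1) ∧ ∀ z ∈ puncturedDisc, g' z = g z)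

/-- `U = locVar P G` is a quasi-projective variety, with closure `X` in `ℙ^N`, and `(u, v)` a holomorphic map from `X` to `A × ℙ^m` with finite fibres which maps `U` to `T`; a form on `ℙ^N`, not `0` on `X`, is `0` at the
points over `S`. -/
structure IsFiniteOver (P : Ideal (MvPolynomial (Fin (N + 1)) ℂ)) {s : ℕ} (G : Fin s → MvPolynomial (Fin (N + 1)) ℂ) (Λ : AddSubgroup (Cn (k + 1)))
    (T : Set ((Cn (k + 1) ⧸ Λ) × PN m)) (S : Set (Cn (k + 1) ⧸ Λ)) (u : PN N → Cn (k + 1) ⧸ Λ) (v : PN N → PN m) : Prop where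
  torus : IsHolomorphicTorusMap (projVar P) Λ u
  regular : ∀ x ∈ projVar P, ∃ (D : ℕ) (γ : Fin (m + 1) → MvPolynomial (Fin (N + 1)) ℂ), (∀ i, (γ i).IsHomogeneous D) ∧ vals γ x.rep ≠ 0 ∧
    ∀ x' ∈ projVar P, vals γ x'.rep ≠ 0 → v x' = rmap γ x'
  finite : ∀ x ∈ projVar P, {x' | x' ∈ projVar P ∧ u x' = u x ∧ v x' = v x}.Finite
  maps : ∀ x ∈ locVar P G, (u x, v x) ∈ T
  special : ∃ (e : ℕ) (R : MvPolynomial (Fin (N + 1)) ℂ), R.IsHomogeneous e ∧ R ∉ P ∧ ∀ x ∈ projVar P, u x ∈ S → VanishesAt R x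

/-- The binary form `∑ θ_i(y) x_0^i x_1^(d-i)`. -/
def form (θ : Fin (d + 1) → Cn (k + 1) → ℂ) (y : Cn (k + 1)) (x : Cn 2) : ℂ := ∑ i : Fin (d + 1), θ i y * x 0 ^ (i : ℕ) * x 1 ^ (d - (i : ℕ))

/-- The functions `θ i` are sections of a positive line bundle on the torus. -/
structure IsThetaForm (Λ : AddSubgroup (Cn (k + 1))) (θ : Fin (d + 1) → Cn (k + 1) → ℂ) : Prop where
  holomorphic : ∀ i, Differentiable ℂ (θ i)
  /-- the functions `|θ i y| exp (- ∑ |W j y|²)` are `Λ`-periodic, and the factors of automorphy of the `θ i` are the same for all `i`; the weight is positive definite -/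
  quasiPeriodic : ∃ (r : ℕ) (W : Fin r → Cn (k + 1) →L[ℂ] ℂ), (∀ y, (∀ j, W j y = 0) → y = 0) ∧
    ∀ l ∈ Λ, ∀ y, ∃ e : ℂ, ‖e‖ = Real.exp (∑ j, ‖W j (y + l)‖ ^ 2 - ∑ j, ‖W j y‖ ^ 2) ∧ ∀ i, θ i (y + l) = e * θ i y

/-- Over some point `y` the form has no multiple zeros, and the `θ i` have no common zeros in codimension one. -/
structure IsReduced (θ : Fin (d + 1) → Cn (k + 1) → ℂ) : Prop where
  simpleZeros : ∃ y, ∀ x, x ≠ 0 → form θ y x = 0 → fderiv ℂ (form θ y) x ≠ 0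
  /-- near a common zero of the `θ i` the zeros of `form θ y b`, `b` fixed, are not all common zeros -/
  codimension : ∀ y, (∀ i, θ i y = 0) → ∀ b : Cn 2, ∃ᶠ z in 𝓝 y, form θ z b = 0 ∧ ∃ i, θ i z ≠ 0

end Pool.Agent.PXF

end
end

section

/-!
# HE FDefs: complements of divisors in families over complex tori: the definitions of the final theorem

`A = ℂ^n / Λ`, `n = k + 1`, is a complex torus, `X` a closed analytic subset of `A × ℙ^m`, that is a family of projective varieties over `A`.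

* `IsHolomorphicForm`: forms in `x ∈ ℂ^(m+1)` whose coefficients are holomorphic functions of `y`; `IsAnalytic`: closed analytic subsets of `A × ℙ^m`; `IsAnalyticIn`: of `A`.
* `IsSemipositive`, `IsAmple`: `F` is a section of `L ⊠ O(d)`, `d > 0`, with `L` a semipositive (positive) line bundle on `A`.
* `IsHyperbolicOff`: the hypotheses on the divisors `{F j = 0}` off the fibres over `S`; `outside`: the complement of the divisors in `X`; `KobayashiPositive`: the Kobayashi–Royden metric is bounded below near the fibres over the complement of `S`.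
-/

set_option autoImplicit false

open Topology Filter MvPolynomial
open Pool.Agent.H17 (PN VanishesAt HolomorphicInto)
open Pool.Agent.PXF (Cn IsSimple IsCurveIn)

noncomputable section

namespace Pool.Agent.HEF

variable {k m q : ℕ}

/-- `F y` is a form of degree `d` in `x ∈ ℂ^(m+1)` whose coefficients are holomorphic functions of `y` in the set `U` (used for open sets). -/
structure IsHolomorphicForm (U : Set (Cn (k + 1))) (F : Cn (k + 1) → MvPolynomial (Fin (m + 1)) ℂ) (d : ℕ) : Prop where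
  homogeneous : ∀ y ∈ U, (F y).IsHomogeneous d
  holomorphic : ∀ α, DifferentiableOn ℂ (fun y => (F y).coeff α) U

/-- `X` is a closed analytic subset of `A × ℙ^m`: near each fibre it is the set of the common zeros of finitely many forms. -/
def IsAnalytic (Λ : AddSubgroup (Cn (k + 1))) (X : Set ((Cn (k + 1) ⧸ Λ) × PN m)) : Prop :=
  ∀ y₀ : Cn (k + 1), ∃ (ρ : ℝ) (s : ℕ) (G : Fin s → Cn (k + 1) → MvPolynomial (Fin (m + 1)) ℂ) (d : Fin s → ℕ), 0 < ρ ∧ (∀ i, IsHolomorphicForm (Metric.ball y₀ ρ) (G i) (d i)) ∧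
    ∀ y ∈ Metric.ball y₀ ρ, ∀ p : PN m, ((y : Cn (k + 1) ⧸ Λ), p) ∈ X ↔ ∀ i, VanishesAt (G i y) p

/-- `S` is a closed analytic subset of `A`. -/
def IsAnalyticIn (Λ : AddSubgroup (Cn (k + 1))) (S : Set (Cn (k + 1) ⧸ Λ)) : Prop :=
  ∀ y₀ : Cn (k + 1), ∃ (s : ℕ) (f : Fin s → Cn (k + 1) → ℂ), (∀ i, AnalyticAt ℂ (f i) y₀) ∧ ∀ᶠ y : Cn (k + 1) in 𝓝 y₀, ((y : Cn (k + 1) ⧸ Λ) ∈ S ↔ ∀ i, f i y = 0)

/-- `F` is a section of `L ⊠ O(d)`, `d > 0`, for a line bundle `L` on `A`: the functions `‖F y x‖ exp (- ∑ ‖W j y‖²)` are `Λ`-periodic. -/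
structure IsSection (Λ : AddSubgroup (Cn (k + 1))) (F : Cn (k + 1) → MvPolynomial (Fin (m + 1)) ℂ) {r : ℕ} (W : Fin r → Cn (k + 1) →L[ℂ] ℂ) : Prop where
  form : ∃ d, 0 < d ∧ IsHolomorphicForm Set.univ F d
  quasiPeriodic : ∀ l ∈ Λ, ∀ y, ∃ e : ℂ, ‖e‖ = Real.exp (∑ j, ‖W j (y + l)‖ ^ 2 - ∑ j, ‖W j y‖ ^ 2) ∧ F (y + l) = C e * F y

/-- The line bundle is semipositive. -/
def IsSemipositive (Λ : AddSubgroup (Cn (k + 1))) (F : Cn (k + 1) → MvPolynomial (Fin (m + 1)) ℂ) : Prop :=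
  ∃ (r : ℕ) (W : Fin r → Cn (k + 1) →L[ℂ] ℂ), IsSection Λ F W

/-- The line bundle is positive. -/
def IsAmple (Λ : AddSubgroup (Cn (k + 1))) (F : Cn (k + 1) → MvPolynomial (Fin (m + 1)) ℂ) : Prop :=
  ∃ (r : ℕ) (W : Fin r → Cn (k + 1) →L[ℂ] ℂ), (∀ y, (∀ j, W j y = 0) → y = 0) ∧ IsSection Λ F W

/-- `g` is an entire curve in `ℙ^m` with bounded derivative (homogeneous coordinates `φ`, Fubini–Study metric). -/
def IsBrodyCurve (g : ℂ → PN m) : Prop :=
  ∃ (φ : ℂ → Cn (m + 1)) (C : ℝ), Differentiable ℂ φ ∧ ∀ z, (∃ h : φ z ≠ 0, g z = Projectivization.mk ℂ (φ z) h) ∧ ∀ i j, ‖φ z i * deriv φ z j - φ z j * deriv φ z i‖ ≤ C * ∑ i, ‖φ z i‖ ^ 2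

/-- Near the fibre over `y₀` the union of the zeros of the `F j` in `X` contains finitely many families of hypersurface sections `{Q i = 0}` of the fibres of `X`, such that all entire curves with bounded derivative in the fibre over `y₀`, contained in or
disjoint from each `{Q i = 0}`, are constant. -/
def HasHyperbolicFibre (Λ : AddSubgroup (Cn (k + 1))) (X : Set ((Cn (k + 1) ⧸ Λ) × PN m)) (F : Fin q → Cn (k + 1) → MvPolynomial (Fin (m + 1)) ℂ) (y₀ : Cn (k + 1)) : Prop :=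
  ∃ (ρ : ℝ) (s : ℕ) (Q : Fin s → Cn (k + 1) → MvPolynomial (Fin (m + 1)) ℂ) (e : Fin s → ℕ), 0 < ρ ∧ (∀ i, IsHolomorphicForm (Metric.ball y₀ ρ) (Q i) (e i)) ∧
    (∀ i, ∀ y ∈ Metric.ball y₀ ρ, ∀ p : PN m, ((y : Cn (k + 1) ⧸ Λ), p) ∈ X → VanishesAt (Q i y) p → ∃ j, VanishesAt (F j y) p) ∧
    ∀ g : ℂ → PN m, IsBrodyCurve g → (∀ z, ((y₀ : Cn (k + 1) ⧸ Λ), g z) ∈ X) → (∀ i, (∀ z, VanishesAt (Q i y₀) (g z)) ∨ ∀ z, ¬ VanishesAt (Q i y₀) (g z)) → ∀ z w, g z = g w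

/-- In the fibre over `y` the union of the zeros of the `F j` contains `2 κ + 1` hypersurface sections of degree `e` in general position: any `κ + 1` of them have no common point. -/
def HasHypersurfaces (Λ : AddSubgroup (Cn (k + 1))) (X : Set ((Cn (k + 1) ⧸ Λ) × PN m)) (F : Fin q → Cn (k + 1) → MvPolynomial (Fin (m + 1)) ℂ) (κ e : ℕ) (y : Cn (k + 1)) : Prop :=
  ∃ Q : Fin (2 * κ + 1) → MvPolynomial (Fin (m + 1)) ℂ, (∀ s, (Q s).IsHomogeneous e) ∧ (∀ s, ∀ p : PN m, ((y : Cn (k + 1) ⧸ Λ), p) ∈ X → VanishesAt (Q s) p → ∃ j, VanishesAt (F j y) p) ∧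
    ∀ I : Finset (Fin (2 * κ + 1)), I.card = κ + 1 → ∀ p : PN m, ((y : Cn (k + 1) ⧸ Λ), p) ∈ X → ∃ s ∈ I, ¬ VanishesAt (Q s) p

/-- The complement of the zeros of the `F j` in `X`. -/
def outside (Λ : AddSubgroup (Cn (k + 1))) (X : Set ((Cn (k + 1) ⧸ Λ) × PN m)) (F : Fin q → Cn (k + 1) → MvPolynomial (Fin (m + 1)) ℂ) : Set ((Cn (k + 1) ⧸ Λ) × PN m) :=
  {x | x ∈ X ∧ ∀ y : Cn (k + 1), (y : Cn (k + 1) ⧸ Λ) = x.1 → ∀ j, ¬ VanishesAt (F j y) x.2}

/-- The Kobayashi–Royden metric of the subset `T` of `A × ℙ^m` is bounded below near the nonempty fibres over the complement of `S` (the component in `ℙ^m`; homogeneous coordinates `φ`, Fubini–Study metric). -/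
def KobayashiPositive (Λ : AddSubgroup (Cn (k + 1))) (T : Set ((Cn (k + 1) ⧸ Λ) × PN m)) (S : Set (Cn (k + 1) ⧸ Λ)) : Prop :=
  ∀ y : Cn (k + 1), (y : Cn (k + 1) ⧸ Λ) ∉ S → (∃ p, ((y : Cn (k + 1) ⧸ Λ), p) ∈ T) → ∃ C : ℝ, ∀ᶠ y' : Cn (k + 1) in 𝓝 y, ∀ (t : ℂ → Cn (k + 1) ⧸ Λ) (g : ℂ → PN m) (φ : ℂ → Cn (m + 1)),
    IsCurveIn Λ T t g (Metric.ball 0 1) → t 0 = (y' : Cn (k + 1) ⧸ Λ) → AnalyticAt ℂ φ 0 → (∀ᶠ z in 𝓝 (0 : ℂ), ∃ h : φ z ≠ 0, g z = Projectivization.mk ℂ (φ z) h) →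
    ∀ i j, ‖φ 0 i * deriv φ 0 j - φ 0 j * deriv φ 0 i‖ ≤ C * ∑ i, ‖φ 0 i‖ ^ 2

end Pool.Agent.HEF

end
end

section

/-!
# LG GD: the geometric definitions

`Q` is a homogeneous prime ideal, `ξ` its generic point in the function field `K` (`GP`), `Cone Q a`: `a` is a nonzero vector of the cone over the variety `Z` of `Q`.

* `RegAt ξ a f c`: `f ∈ K` is regular at the point `a` of `Z`, with the value `c`.
* `L a y`: `y ∈ ℂ^n` is over the image of the point `a` in the torus `ℂ^n / Λ` (`Lft`: the properties of a holomorphic map).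
* `V a q`: `q ∈ ℂ²` are homogeneous coordinates of the image of `a` in `ℙ¹` (`VMap`: the properties of a regular map).
* `IsType Λ θ m g`: `g` is a theta function of the type of the products of `m` of the functions `θ i`.  `wr g h i = g ∂_i h - h ∂_i g`.
* `RegL`: the map to the torus is regular.  `NZ Q L h`: `{h ≠ 0}` contains a nonempty Zariski open subset of `Z`.
* `IsVal Q ξ L f g h`: the rational function `f` on `Z` is the pull-back of `g / h`.
* `Fam Λ θ Θ`: the `Θ a` are theta functions of type 3, and near every point of the torus some of their quotients are local coordinates.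
* `Geo`: all hypotheses about `Z`.
-/

set_option autoImplicit false

open Topology Filter MvPolynomial
open Pool.Agent.H23 (RatForm regularForms PrimeDivisorOver)
open Pool.Agent.PXF (Cn form IsThetaForm)

noncomputable section

namespace Pool.Agent.LG

variable {K : Type} [Field K] [Algebra ℂ K] {N κ d : ℕ}

/-- nonzero vectors of the cone -/
def Cone (Q : Ideal (MvPolynomial (Fin (N + 1)) ℂ)) (a : Fin (N + 1) → ℂ) : Prop := a ≠ 0 ∧ ∀ F ∈ Q, eval a F = 0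

/-- the generic point -/
structure GP (Q : Ideal (MvPolynomial (Fin (N + 1)) ℂ)) (ξ : Fin (N + 1) → K) : Prop where
  ne : ξ ≠ 0
  zero : ∀ (D : ℕ) (F : MvPolynomial (Fin (N + 1)) ℂ), F.IsHomogeneous D → (aeval ξ F = 0 ↔ F ∈ Q)
  gen : IntermediateField.adjoin ℂ {y | ∃ i j, y = ξ i / ξ j} = ⊤

/-- `f` is regular at the point `a`, with the value `c` -/
def RegAt (ξ : Fin (N + 1) → K) (a : Fin (N + 1) → ℂ) (f : K) (c : ℂ) : Prop :=
  ∃ (D : ℕ) (A B : MvPolynomial (Fin (N + 1)) ℂ), A.IsHomogeneous D ∧ B.IsHomogeneous D ∧ eval a B ≠ 0 ∧ f * aeval ξ B = aeval ξ A ∧ eval a A = c * eval a B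

/-- the centre of `E` is in the common zero set of the `G m` -/
def BdG {k s : ℕ} (ξ : Fin (N + 1) → K) (G : Fin s → MvPolynomial (Fin (N + 1)) ℂ) (E : PrimeDivisorOver K k) : Prop :=
  ∃ j, ξ j ≠ 0 ∧ (∀ i, 0 ≤ E.ord (ξ i / ξ j)) ∧ ∀ m, 0 < E.ord (aeval (fun i => ξ i / ξ j) (G m))

/-- `g` is a theta function of the type of a product of `m` of the functions `θ i` -/
def IsType (Λ : AddSubgroup (Cn (κ + 1))) (θ : Fin (d + 1) → Cn (κ + 1) → ℂ) (m : ℕ) (g : Cn (κ + 1) → ℂ) : Prop :=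
  Differentiable ℂ g ∧ ∀ l ∈ Λ, ∀ y i, g (y + l) * θ i y ^ m = θ i (y + l) ^ m * g y

/-- `∂_i g` -/
def pd (g : Cn (κ + 1) → ℂ) (i : Fin (κ + 1)) (y : Cn (κ + 1)) : ℂ := fderiv ℂ g y (Pi.single i 1)

/-- `g ∂_i h - h ∂_i g` -/
def wr (g h : Cn (κ + 1) → ℂ) (i : Fin (κ + 1)) (y : Cn (κ + 1)) : ℂ := g y * pd h i y - h y * pd g i y

/-- the lifts of the points of the torus -/
structure Lft (Q : Ideal (MvPolynomial (Fin (N + 1)) ℂ)) (Λ : AddSubgroup (Cn (κ + 1))) (L : (Fin (N + 1) → ℂ) → Cn (κ + 1) → Prop) : Prop where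
  ex : ∀ a, Cone Q a → ∃ y, L a y
  add : ∀ a y, L a y → ∀ y', L a y' ↔ y' - y ∈ Λ
  curve : ∀ γ : ℂ → Fin (N + 1) → ℂ, AnalyticAt ℂ γ 0 → (∀ᶠ t in 𝓝 (0 : ℂ), Cone Q (γ t)) → ∀ y₀, L (γ 0) y₀ →
    ∃ y : ℂ → Cn (κ + 1), AnalyticAt ℂ y 0 ∧ y 0 = y₀ ∧ ∀ᶠ t in 𝓝 (0 : ℂ), L (γ t) (y t)

/-- the map to the torus is regular -/
def RegL (Q : Ideal (MvPolynomial (Fin (N + 1)) ℂ)) (Λ : AddSubgroup (Cn (κ + 1))) (θ : Fin (d + 1) → Cn (κ + 1) → ℂ) (L : (Fin (N + 1) → ℂ) → Cn (κ + 1) → Prop) : Prop :=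
  ∀ (m : ℕ) (g h : Cn (κ + 1) → ℂ), IsType Λ θ m g → IsType Λ θ m h → ∀ a y, Cone Q a → L a y → h y ≠ 0 →
    ∃ (D : ℕ) (A B : MvPolynomial (Fin (N + 1)) ℂ), A.IsHomogeneous D ∧ B.IsHomogeneous D ∧ eval a B ≠ 0 ∧
      ∀ a' y', Cone Q a' → L a' y' → eval a' B ≠ 0 → h y' ≠ 0 ∧ g y' * eval a' B = h y' * eval a' A

/-- `{h ≠ 0}` contains a nonempty Zariski open set -/
def NZ (Q : Ideal (MvPolynomial (Fin (N + 1)) ℂ)) (L : (Fin (N + 1) → ℂ) → Cn (κ + 1) → Prop) (h : Cn (κ + 1) → ℂ) : Prop :=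
  ∃ (D : ℕ) (B : MvPolynomial (Fin (N + 1)) ℂ), B.IsHomogeneous D ∧ B ∉ Q ∧ ∀ a y, Cone Q a → L a y → eval a B ≠ 0 → h y ≠ 0

/-- `f` is the pull-back of `g / h` -/
def IsVal (Q : Ideal (MvPolynomial (Fin (N + 1)) ℂ)) (ξ : Fin (N + 1) → K) (L : (Fin (N + 1) → ℂ) → Cn (κ + 1) → Prop) (f : K) (g h : Cn (κ + 1) → ℂ) : Prop :=
  ∀ a y, Cone Q a → L a y → h y ≠ 0 → RegAt ξ a f (g y / h y)

/-- a family of theta functions of type 3 with local coordinates among their quotients at every point -/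
structure Fam {ι : Type} (Λ : AddSubgroup (Cn (κ + 1))) (θ : Fin (d + 1) → Cn (κ + 1) → ℂ) (Θ : ι → Cn (κ + 1) → ℂ) : Prop where
  type : ∀ a, IsType Λ θ 3 (Θ a)
  chart : ∀ y, ∃ (c : ι) (b : Fin (κ + 1) → ι), Θ c y ≠ 0 ∧ (Matrix.of fun i j => wr (Θ c) (Θ (b j)) i y).det ≠ 0

end Pool.Agent.LG

end
end

section

/-!
# LG G4a: theta functions: the factor of automorphy is an exponential

* `dense_ne`: a product of two entire functions, both not zero, is not zero.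
* `eq_smul_of_norm_eq`: entire functions of equal norm are proportional.
* `automorphy`: `θ i (y + l) = c * exp (2 ∑ conj (W j l) * W j y) * θ i y`.
* `recur`: the lattice points near the real line of a vector.
-/

set_option autoImplicit false

open Topology Filter MvPolynomial
open Pool.Agent.PXF (Cn form IsThetaForm)

noncomputable section

namespace Pool.Agent.LG

variable {n κ d : ℕ}

/-- a spanning subgroup is cocompact -/
theorem g4_cocompact {Λ : AddSubgroup (Fin n → ℂ)} (h : Submodule.span ℝ (Λ : Set (Fin n → ℂ)) = ⊤) :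
    ∃ C : ℝ, 0 < C ∧ ∀ b : Fin n → ℂ, ∃ l ∈ Λ, ‖b - l‖ ≤ C := by
  classical
  obtain ⟨T, hTs, hT⟩ : ∃ T : Finset (Fin n → ℂ), (T : Set (Fin n → ℂ)) ⊆ (Λ : Set (Fin n → ℂ)) ∧ Submodule.span ℝ (T : Set (Fin n → ℂ)) = ⊤ := by
    have h1 : (Submodule.span ℝ (Λ : Set (Fin n → ℂ))).FG := by
      rw [h]
      exact Module.Finite.fg_top
    obtain ⟨T, hTs, hT⟩ := (Submodule.fg_span_iff_fg_span_finset_subset _).1 h1
    exact ⟨T, hTs, by rw [← hT, h]⟩
  refine ⟨(∑ t ∈ T, ‖t‖) + 1, by positivity, fun b => ?_⟩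
  have hb : b ∈ Submodule.span ℝ (T : Set (Fin n → ℂ)) := by rw [hT]; trivial
  obtain ⟨c, -, hc⟩ := Submodule.mem_span_finset.1 hb
  refine ⟨∑ t ∈ T, ⌊c t⌋ • t, Λ.sum_mem fun t ht => Λ.zsmul_mem (hTs ht) _, ?_⟩
  refine le_trans ?_ (le_add_of_nonneg_right zero_le_one)
  rw [← hc, ← Finset.sum_sub_distrib]
  refine (norm_sum_le _ _).trans (Finset.sum_le_sum fun t _ => ?_)
  have h2 : c t • t - ⌊c t⌋ • t = (Int.fract (c t)) • t := by
    rw [Int.fract, sub_smul]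
    congr 1
    exact (Int.cast_smul_eq_zsmul ℝ _ _).symm
  rw [h2, norm_smul, Real.norm_of_nonneg (Int.fract_nonneg _)]
  exact mul_le_of_le_one_left (norm_nonneg _) (Int.fract_lt_one _).le

theorem an_of_diff {f : (Fin n → ℂ) → ℂ} (hf : Differentiable ℂ f) (w : Fin n → ℂ) : AnalyticAt ℂ f w := by
  have h1 : ∀ᶠ y in 𝓝 w, ‖f y‖ < ‖f w‖ + 1 := (hf.continuous.norm.continuousAt (x := w)).eventually_lt_const (lt_add_one _)
  obtain ⟨r, hr, hb⟩ := Metric.eventually_nhds_iff_ball.1 h1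
  refine Pool.Agent.TN.osgood_pi hr (fun y hy => (hb y hy).le) fun y _ l => ?_
  have h2 : Differentiable ℂ fun t : ℂ => y + t • (Pi.single l 1 : Fin n → ℂ) := by fun_prop
  exact (hf.comp h2) 0

/-- an entire function which is zero near a point is zero -/
theorem entire_zero {f : (Fin n → ℂ) → ℂ} (hf : Differentiable ℂ f) {p : Fin n → ℂ} (h : ∀ᶠ y in 𝓝 p, f y = 0) : ∀ y, f y = 0 := by
  have h1 : AnalyticOnNhd ℂ f Set.univ := fun y _ => an_of_diff hf y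
  have h2 := h1.eqOn_zero_of_preconnected_of_eventuallyEq_zero isPreconnected_univ (Set.mem_univ p) h
  exact fun y => h2 (Set.mem_univ y)

theorem entire_mul {f g : (Fin n → ℂ) → ℂ} (hf : Differentiable ℂ f) (hg : Differentiable ℂ g) {p q : Fin n → ℂ} (hp : f p ≠ 0) (hq : g q ≠ 0) : ∃ y, f y ≠ 0 ∧ g y ≠ 0 := by
  by_contra! H
  have h1 : ∀ᶠ y in 𝓝 p, f y ≠ 0 := (hf.continuous.continuousAt (x := p)).eventually_ne hp
  exact hq (entire_zero hg (h1.mono fun y hy => H y hy) q)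

/-- entire functions of one variable of equal norm are proportional -/
theorem eq_smul_one {F G : ℂ → ℂ} (hF : Differentiable ℂ F) (hG : Differentiable ℂ G) (h : ∀ z, ‖G z‖ = ‖F z‖) (h0 : F 0 ≠ 0) : ∀ z, G z = G 0 / F 0 * F z := by
  have h1 : ∀ᶠ z in 𝓝 (0 : ℂ), F z ≠ 0 := (hF.continuous.continuousAt (x := (0 : ℂ))).eventually_ne h0
  have h2 : ∀ᶠ z in 𝓝 (0 : ℂ), DifferentiableAt ℂ (fun z => G z / F z) z := h1.mono fun z hz => (hG z).div (hF z) hz
  have h3 : IsLocalMax (norm ∘ fun z => G z / F z) 0 := by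
    filter_upwards [h1] with z hz
    simp only [Function.comp, norm_div, h]
    rw [div_self (norm_ne_zero_iff.2 hz), div_self (norm_ne_zero_iff.2 h0)]
  have h4 := Complex.eventually_eq_of_isLocalMax_norm h2 h3
  have h5 : ∀ᶠ z in 𝓝 (0 : ℂ), (G z - G 0 / F 0 * F z) = 0 := by
    filter_upwards [h1, h4] with z hz hz'
    rw [← hz', div_mul_cancel₀ _ hz, sub_self]
  have h6 : AnalyticOnNhd ℂ (fun z => G z - G 0 / F 0 * F z) Set.univ := fun z _ => (hG.sub (hF.const_mul _)).analyticAt z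
  have h7 := h6.eqOn_zero_of_preconnected_of_eventuallyEq_zero isPreconnected_univ (Set.mem_univ 0) h5
  exact fun z => sub_eq_zero.1 (h7 (Set.mem_univ z))

theorem eq_smul_of_norm_eq {f g : (Fin n → ℂ) → ℂ} (hf : Differentiable ℂ f) (hg : Differentiable ℂ g) (h : ∀ y, ‖g y‖ = ‖f y‖) {y₀ : Fin n → ℂ} (h0 : f y₀ ≠ 0) (y : Fin n → ℂ) :
    g y = g y₀ / f y₀ * f y := by
  have hl : Differentiable ℂ fun z : ℂ => y₀ + z • (y - y₀) := by fun_prop
  have h1 := eq_smul_one (F := fun z => f (y₀ + z • (y - y₀))) (G := fun z => g (y₀ + z • (y - y₀))) (hf.comp hl) (hg.comp hl) (fun z => h _) (by simpa using h0) 1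
  simpa using h1

/-- the exponent -/
def ex {r : ℕ} (W : Fin r → Cn n →L[ℂ] ℂ) (l y : Cn n) : ℂ := ∑ j, 2 * (starRingEnd ℂ (W j l) * W j y)

theorem ex_add {r : ℕ} (W : Fin r → Cn n →L[ℂ] ℂ) (l y y' : Cn n) : ex W l (y + y') = ex W l y + ex W l y' := by
  simp only [ex, map_add, mul_add, Finset.sum_add_distrib]

theorem ex_sub {r : ℕ} (W : Fin r → Cn n →L[ℂ] ℂ) (l y y' : Cn n) : ex W l (y - y') = ex W l y - ex W l y' := by
  simp only [ex, map_sub, mul_sub, Finset.sum_sub_distrib]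

theorem ex_diff {r : ℕ} (W : Fin r → Cn n →L[ℂ] ℂ) (l : Cn n) : Differentiable ℂ (ex W l) := by
  unfold ex
  refine Differentiable.fun_sum fun j _ => ?_
  exact (((W j).differentiable).const_mul _).const_mul _

theorem sum_sq_add {r : ℕ} (W : Fin r → Cn n →L[ℂ] ℂ) (l y : Cn n) : ∑ j, ‖W j (y + l)‖ ^ 2 = ∑ j, ‖W j y‖ ^ 2 + ((ex W l y).re + ∑ j, ‖W j l‖ ^ 2) := by
  simp only [ex, Complex.re_sum]
  rw [← Finset.sum_add_distrib, ← Finset.sum_add_distrib]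
  refine Finset.sum_congr rfl fun j _ => ?_
  rw [map_add]
  have h : ∀ a b : ℂ, ‖a + b‖ ^ 2 = ‖a‖ ^ 2 + ((2 * (starRingEnd ℂ b * a)).re + ‖b‖ ^ 2) := by
    intro a b
    rw [← Complex.normSq_eq_norm_sq, ← Complex.normSq_eq_norm_sq, ← Complex.normSq_eq_norm_sq, Complex.normSq_apply, Complex.normSq_apply, Complex.normSq_apply]
    simp only [Complex.add_re, Complex.add_im, Complex.mul_re, Complex.mul_im, Complex.conj_re, Complex.conj_im, Complex.re_ofNat, Complex.im_ofNat]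
    ring
  exact h _ _

/-- the factor of automorphy of the `θ i` -/
theorem automorphy {Λ : AddSubgroup (Cn (κ + 1))} {θ : Fin (d + 1) → Cn (κ + 1) → ℂ} (h : IsThetaForm Λ θ) (hne : ∃ i y, θ i y ≠ 0) :
    ∃ (r : ℕ) (W : Fin r → Cn (κ + 1) →L[ℂ] ℂ), (∀ y, (∀ j, W j y = 0) → y = 0) ∧
      ∀ l ∈ Λ, ∃ c : ℂ, ‖c‖ = Real.exp (∑ j, ‖W j l‖ ^ 2) ∧ ∀ y i, θ i (y + l) = c * Complex.exp (ex W l y) * θ i y := by
  obtain ⟨r, W, hW, hq⟩ := h.quasiPeriodic
  obtain ⟨i₀, y₀, h0⟩ := hne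
  refine ⟨r, W, hW, fun l hl => ?_⟩
  have hf : Differentiable ℂ (θ i₀) := h.holomorphic i₀
  have hg : Differentiable ℂ fun y => θ i₀ (y + l) * Complex.exp (-ex W l y) := by
    have h1 : Differentiable ℂ fun y : Cn (κ + 1) => θ i₀ (y + l) := hf.comp (differentiable_id.add_const l)
    exact h1.mul ((ex_diff W l).neg.cexp)
  set S : ℝ := ∑ j, ‖W j l‖ ^ 2 with hS
  have hnorm : ∀ y, ‖θ i₀ (y + l) * Complex.exp (-ex W l y) * (Real.exp (-S) : ℂ)‖ = ‖θ i₀ y‖ := by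
    intro y
    obtain ⟨e, he, he'⟩ := hq l hl y
    rw [he', norm_mul, norm_mul, norm_mul, he, Complex.norm_exp, sum_sq_add W l y, Complex.norm_real, Real.norm_of_nonneg (Real.exp_pos _).le, Complex.neg_re]
    have h1 : Real.exp (∑ j, ‖W j y‖ ^ 2 + ((ex W l y).re + ∑ j, ‖W j l‖ ^ 2) - ∑ j, ‖W j y‖ ^ 2) * Real.exp (-(ex W l y).re) * Real.exp (-S) = 1 := by
      rw [← Real.exp_add, ← Real.exp_add, ← hS]
      rw [show ∑ j, ‖W j y‖ ^ 2 + ((ex W l y).re + S) - ∑ j, ‖W j y‖ ^ 2 + -(ex W l y).re + -S = 0 by ring, Real.exp_zero]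
    calc Real.exp (∑ j, ‖W j y‖ ^ 2 + ((ex W l y).re + ∑ j, ‖W j l‖ ^ 2) - ∑ j, ‖W j y‖ ^ 2) * ‖θ i₀ y‖ * Real.exp (-(ex W l y).re) * Real.exp (-S)
        = Real.exp (∑ j, ‖W j y‖ ^ 2 + ((ex W l y).re + ∑ j, ‖W j l‖ ^ 2) - ∑ j, ‖W j y‖ ^ 2) * Real.exp (-(ex W l y).re) * Real.exp (-S) * ‖θ i₀ y‖ := by ring
      _ = ‖θ i₀ y‖ := by rw [h1, one_mul]
  have hg' : Differentiable ℂ fun y => θ i₀ (y + l) * Complex.exp (-ex W l y) * (Real.exp (-S) : ℂ) := hg.mul_const _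
  have key := eq_smul_of_norm_eq hf hg' hnorm h0
  set c₀ : ℂ := θ i₀ (y₀ + l) * Complex.exp (-ex W l y₀) * (Real.exp (-S) : ℂ) / θ i₀ y₀ with hc₀
  have hc₀' : ‖c₀‖ = 1 := by
    rw [hc₀, norm_div, hnorm, div_self (norm_ne_zero_iff.2 h0)]
  have hEne : (Real.exp (-S) : ℂ) ≠ 0 := by exact_mod_cast (Real.exp_pos _).ne'
  have hES : (Real.exp S : ℂ) * (Real.exp (-S) : ℂ) = 1 := by
    rw [← Complex.ofReal_mul, ← Real.exp_add, add_neg_cancel, Real.exp_zero, Complex.ofReal_one]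
  have h1 : ∀ y, θ i₀ (y + l) = c₀ * (Real.exp S : ℂ) * Complex.exp (ex W l y) * θ i₀ y := by
    intro y
    have h2 := key y
    have h3 : Complex.exp (-ex W l y) * Complex.exp (ex W l y) = 1 := by rw [← Complex.exp_add, neg_add_cancel, Complex.exp_zero]
    calc θ i₀ (y + l) = θ i₀ (y + l) * (Complex.exp (-ex W l y) * Complex.exp (ex W l y)) * ((Real.exp S : ℂ) * (Real.exp (-S) : ℂ)) := by rw [h3, hES, mul_one, mul_one]
      _ = (θ i₀ (y + l) * Complex.exp (-ex W l y) * (Real.exp (-S) : ℂ)) * (Complex.exp (ex W l y) * (Real.exp S : ℂ)) := by ring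
      _ = c₀ * (Real.exp S : ℂ) * Complex.exp (ex W l y) * θ i₀ y := by rw [h2]; ring
  refine ⟨c₀ * (Real.exp S : ℂ), ?_, ?_⟩
  · rw [norm_mul, hc₀', one_mul, Complex.norm_real, Real.norm_of_nonneg (Real.exp_pos _).le]
  -- the other `θ i`: equal to the identity where `θ i₀ ≠ 0`
  intro y i
  have hd : Differentiable ℂ fun y => θ i (y + l) - c₀ * (Real.exp S : ℂ) * Complex.exp (ex W l y) * θ i y := by
    have h2 : Differentiable ℂ fun y : Cn (κ + 1) => θ i (y + l) := (h.holomorphic i).comp (differentiable_id.add_const l)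
    exact h2.sub ((((ex_diff W l).cexp).const_mul _).mul (h.holomorphic i))
  have h2 : ∀ᶠ y in 𝓝 y₀, θ i (y + l) - c₀ * (Real.exp S : ℂ) * Complex.exp (ex W l y) * θ i y = 0 := by
    filter_upwards [(hf.continuous.continuousAt (x := y₀)).eventually_ne h0] with y hy
    obtain ⟨e, -, he'⟩ := hq l hl y
    have h3 : e = c₀ * (Real.exp S : ℂ) * Complex.exp (ex W l y) := by
      have h4 := he' i₀
      rw [h1 y] at h4
      exact (mul_right_cancel₀ hy h4).symm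
    rw [he' i, h3, sub_self]
  exact sub_eq_zero.1 (entire_zero hd h2 y)

/-- recurrence of the real line of `w` -/
theorem recur {Λ : AddSubgroup (Fin n → ℂ)} (h : Submodule.span ℝ (Λ : Set (Fin n → ℂ)) = ⊤) (w : Fin n → ℂ) {ε : ℝ} (hε : 0 < ε) (T : ℝ) : ∃ t : ℝ, T ≤ t ∧ ∃ l ∈ Λ, ‖(t : ℂ) • w - l‖ < ε := by
  obtain ⟨C, hC, hl⟩ := g4_cocompact h
  set T' : ℝ := max T 1 with hT'
  have hT1 : 1 ≤ T' := le_max_right _ _
  choose l hlm hl using fun k : ℕ => hl (((k * T' : ℝ) : ℂ) • w)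
  have hb : ∀ k : ℕ, ((k * T' : ℝ) : ℂ) • w - l k ∈ Metric.closedBall (0 : Fin n → ℂ) C := fun k => by
    rw [mem_closedBall_zero_iff]
    exact hl k
  obtain ⟨a, -, φ, hφ, hlim⟩ := (isCompact_closedBall (0 : Fin n → ℂ) C).tendsto_subseq hb
  have h1 := Metric.cauchySeq_iff.1 hlim.cauchySeq ε hε
  obtain ⟨N, hN⟩ := h1
  have h2 := hN (N + 1) (Nat.le_succ N) N le_rfl
  have hlt : φ N < φ (N + 1) := hφ (Nat.lt_succ_self N)
  refine ⟨((φ (N + 1) - φ N : ℕ) : ℝ) * T', ?_, l (φ (N + 1)) - l (φ N), Λ.sub_mem (hlm _) (hlm _), ?_⟩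
  · have h3 : (1 : ℝ) ≤ ((φ (N + 1) - φ N : ℕ) : ℝ) := by
      exact_mod_cast (by omega : 1 ≤ φ (N + 1) - φ N)
    calc T ≤ T' := le_max_left _ _
      _ = 1 * T' := (one_mul _).symm
      _ ≤ _ := mul_le_mul_of_nonneg_right h3 (by linarith)
  · rw [dist_eq_norm] at h2
    simp only [Function.comp] at h2
    have h3 : (((((φ (N + 1) - φ N : ℕ) : ℝ) * T' : ℝ)) : ℂ) • w - (l (φ (N + 1)) - l (φ N)) = (((φ (N + 1) : ℕ) * T' : ℝ) : ℂ) • w - l (φ (N + 1)) - ((((φ N : ℕ) * T' : ℝ) : ℂ) • w - l (φ N)) := by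
      rw [Nat.cast_sub hlt.le]
      push_cast
      module
    rw [h3]
    exact h2

end Pool.Agent.LG

end
end
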