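import Pool.Agent.H94.PX4.M01
import Pool.Agent.H94.PX4.M09

/-! The parts of this file: H62.FC.LocalEst, H62.FC.Wronsk, LT.Defs, LT.Sb, LT.Sc. -/

section

/-!
# The local order of the Wronskian
-/

open Filter Topology MeasureTheory
open Pool.Agent.H92.GGL (ordZ)

noncomputable section

namespace Pool.Agent.H62.FC

/-- `f` vanishes to order at least `b` at `s`, up to the value at `s` -/
def LocalEst_V (s : ℂ) (f : ℂ → ℂ) (b : ℕ) : Prop :=
  ∃ g : ℂ → ℂ, AnalyticAt ℂ g s ∧ f =ᶠ[𝓝[≠] s] fun z => (z - s) ^ b * g z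

theorem LocalEst_congr {s : ℂ} {f f' : ℂ → ℂ} {b : ℕ} (h : LocalEst_V s f b)
    (hf : f' =ᶠ[𝓝[≠] s] f) : LocalEst_V s f' b := by
  obtain ⟨g, hg, hfg⟩ := h
  exact ⟨g, hg, hf.trans hfg⟩

theorem LocalEst_anal_sub (s : ℂ) : AnalyticAt ℂ (fun z : ℂ => z - s) s :=
  analyticAt_id.sub analyticAt_const

theorem LocalEst_mono {s : ℂ} {f : ℂ → ℂ} {b b' : ℕ} (h : LocalEst_V s f b) (hb : b' ≤ b) :
    LocalEst_V s f b' := by
  obtain ⟨g, hg, hfg⟩ := h
  refine ⟨fun z => (z - s) ^ (b - b') * g z, ((LocalEst_anal_sub s).pow _).mul hg, ?_⟩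
  filter_upwards [hfg] with z hz
  rw [hz, ← mul_assoc, ← pow_add]
  congr 2
  omega

theorem LocalEst_mul {s : ℂ} {f f' : ℂ → ℂ} {b b' : ℕ} (h : LocalEst_V s f b)
    (h' : LocalEst_V s f' b') : LocalEst_V s (fun z => f z * f' z) (b + b') := by
  obtain ⟨g, hg, hfg⟩ := h
  obtain ⟨g', hg', hfg'⟩ := h'
  refine ⟨fun z => g z * g' z, hg.mul hg', ?_⟩
  filter_upwards [hfg, hfg'] with z hz hz'
  rw [hz, hz', pow_add]
  ring

theorem LocalEst_const (s c : ℂ) : LocalEst_V s (fun _ => c) 0 :=
  ⟨fun _ => c, analyticAt_const, by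
    filter_upwards with z
    rw [pow_zero, one_mul]⟩

theorem LocalEst_add {s : ℂ} {f f' : ℂ → ℂ} {b : ℕ} (h : LocalEst_V s f b)
    (h' : LocalEst_V s f' b) : LocalEst_V s (fun z => f z + f' z) b := by
  obtain ⟨g, hg, hfg⟩ := h
  obtain ⟨g', hg', hfg'⟩ := h'
  refine ⟨fun z => g z + g' z, hg.add hg', ?_⟩
  filter_upwards [hfg, hfg'] with z hz hz'
  rw [hz, hz']
  ring

theorem LocalEst_zero (s : ℂ) (b : ℕ) : LocalEst_V s (fun _ => 0) b :=
  ⟨fun _ => 0, analyticAt_const, by
    filter_upwards with z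
    rw [mul_zero]⟩

theorem LocalEst_sum {ι : Type*} {s : ℂ} (T : Finset ι) {f : ι → ℂ → ℂ} {b : ℕ}
    (h : ∀ i ∈ T, LocalEst_V s (f i) b) : LocalEst_V s (fun z => ∑ i ∈ T, f i z) b := by
  classical
  induction T using Finset.induction_on with
  | empty => simpa using LocalEst_zero s b
  | insert a T ha ih =>
    have h1 := LocalEst_add (h a (Finset.mem_insert_self a T))
      (ih fun i hi => h i (Finset.mem_insert_of_mem hi))
    refine LocalEst_congr h1 ?_
    filter_upwards with z
    rw [Finset.sum_insert ha]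

theorem LocalEst_prod {ι : Type*} {s : ℂ} (T : Finset ι) {f : ι → ℂ → ℂ} {b : ι → ℕ}
    (h : ∀ i ∈ T, LocalEst_V s (f i) (b i)) :
    LocalEst_V s (fun z => ∏ i ∈ T, f i z) (∑ i ∈ T, b i) := by
  classical
  induction T using Finset.induction_on with
  | empty => simpa using LocalEst_const s 1
  | insert a T ha ih =>
    have h1 := LocalEst_mul (h a (Finset.mem_insert_self a T))
      (ih fun i hi => h i (Finset.mem_insert_of_mem hi))
    rw [Finset.sum_insert ha]
    refine LocalEst_congr h1 ?_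
    filter_upwards with z
    rw [Finset.prod_insert ha]

theorem LocalEst_deriv {s : ℂ} {f : ℂ → ℂ} {b : ℕ} (h : LocalEst_V s f b) :
    LocalEst_V s (deriv f) (b - 1) := by
  obtain ⟨g, hg, hfg⟩ := h
  have h1 := hfg.nhdsNE_deriv
  have h2 : ∀ᶠ z in 𝓝[≠] s, AnalyticAt ℂ g z :=
    hg.eventually_analyticAt.filter_mono nhdsWithin_le_nhds
  rcases b with _ | b
  · refine ⟨deriv g, hg.deriv, ?_⟩
    filter_upwards [h1] with z hz
    rw [hz]
    simp
  · refine ⟨fun z => ((b : ℂ) + 1) * g z + (z - s) * deriv g z,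
      (analyticAt_const.mul hg).add ((LocalEst_anal_sub s).mul hg.deriv), ?_⟩
    filter_upwards [h1, h2] with z hz hgz
    rw [hz]
    have h3 : HasDerivAt (fun z : ℂ => (z - s) ^ (b + 1)) (((b + 1 : ℕ) : ℂ) * (z - s) ^ b) z := by
      have h0 := ((hasDerivAt_id z).sub_const s).fun_pow (b + 1)
      simp only [id_eq, Nat.add_sub_cancel, mul_one] at h0
      exact h0
    have h4 := h3.mul hgz.differentiableAt.hasDerivAt
    have h5 : deriv (fun z => (z - s) ^ (b + 1) * g z) z =
        ((b + 1 : ℕ) : ℂ) * (z - s) ^ b * g z + (z - s) ^ (b + 1) * deriv g z := h4.deriv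
    rw [h5]
    push_cast
    rw [pow_succ]
    ring

theorem LocalEst_iteratedDeriv {s : ℂ} {f : ℂ → ℂ} {b : ℕ} (h : LocalEst_V s f b) (i : ℕ) :
    LocalEst_V s (iteratedDeriv i f) (b - i) := by
  induction i with
  | zero => simpa using h
  | succ i ih =>
    rw [iteratedDeriv_succ]
    have := LocalEst_deriv ih
    rwa [Nat.sub_sub] at this

theorem LocalEst_det {n : ℕ} {s : ℂ} {A : Fin n → Fin n → ℂ → ℂ} {K : Fin n → ℕ}
    (h : ∀ i j, LocalEst_V s (A i j) (K j)) :
    LocalEst_V s (fun z => (Matrix.of fun i j : Fin n => A i j z).det) (∑ j, K j) := by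
  have h1 : LocalEst_V s (fun z => ∑ σ : Equiv.Perm (Fin n),
      ((Equiv.Perm.sign σ : ℤ) : ℂ) * ∏ i, A (σ i) i z) (∑ j, K j) := by
    refine LocalEst_sum _ ?_
    intro σ _
    have h2 := LocalEst_mul (LocalEst_const s ((Equiv.Perm.sign σ : ℤ) : ℂ))
      (LocalEst_prod Finset.univ (f := fun i => A (σ i) i) (b := K) fun i _ => h (σ i) i)
    rwa [zero_add] at h2
  refine LocalEst_congr h1 ?_
  filter_upwards with z
  rw [Matrix.det_apply']
  rfl

theorem LocalEst_wronsk {n : ℕ} {s : ℂ} {φ : Fin n → ℂ → ℂ} {c : Fin n → ℕ}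
    (h : ∀ j, LocalEst_V s (φ j) (c j)) :
    LocalEst_V s (wronsk φ) (∑ j, (c j - (n - 1))) := by
  refine LocalEst_det (A := fun i j => iteratedDeriv i (φ j)) ?_
  intro i j
  refine LocalEst_mono (LocalEst_iteratedDeriv (h j) i) ?_
  have := i.2
  omega

/-- scaling of the Wronskian -/
theorem LocalEst_scale {n : ℕ} {z : ℂ} {h : ℂ → ℂ} {u : Fin n → ℂ → ℂ}
    (hh : ∀ k : ℕ, ContDiffAt ℂ k h z) (hu : ∀ j, ∀ k : ℕ, ContDiffAt ℂ k (u j) z) :
    wronsk (fun j w => h w * u j w) z = h z ^ n * wronsk u z := by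
  have h1 : (Matrix.of fun i j : Fin n => iteratedDeriv i (fun w => h w * u j w) z) =
      (Matrix.of fun i k : Fin n => ((Nat.choose i k : ℕ) : ℂ) * iteratedDeriv (i - k) h z) *
        (Matrix.of fun i j : Fin n => iteratedDeriv i (u j) z) := by
    ext i j
    rw [Matrix.mul_apply]
    simp only [Matrix.of_apply]
    have h2 : (fun w => h w * u j w) = fun w => u j w * h w := by
      funext w
      ring
    rw [h2, iteratedDeriv_fun_mul (hu j i) (hh i)]
    rw [Fin.sum_univ_eq_sum_range (fun k => ((Nat.choose i k : ℕ) : ℂ) *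
      iteratedDeriv (i - k) h z * iteratedDeriv k (u j) z) n]
    have h3 : Finset.range ((i : ℕ) + 1) ⊆ Finset.range n := by
      rw [Finset.range_subset_range]
      exact i.2
    rw [← Finset.sum_subset h3]
    · refine Finset.sum_congr rfl ?_
      intro k _
      ring
    · intro k _ hk
      rw [Finset.mem_range, not_lt] at hk
      rw [Nat.choose_eq_zero_of_lt (by omega)]
      simp
  unfold wronsk
  rw [h1, Matrix.det_mul]
  congr 1
  rw [Matrix.det_of_isLowerTriangular]
  · simp
  · intro i k hik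
    have hik' : (i : ℕ) < k := hik
    simp only [Matrix.of_apply]
    rw [Nat.choose_eq_zero_of_lt hik']
    simp

/-- exchange of a column -/
theorem LocalEst_exchange {n : ℕ} {z : ℂ} {f : Fin n → ℂ → ℂ} {q : ℂ → ℂ} (j₀ : Fin n)
    (hf : ∀ j, ∀ k : ℕ, ContDiffAt ℂ k (f j) z) (hq : q =ᶠ[𝓝 z] fun w => ∑ j, f j w) :
    wronsk (Function.update f j₀ q) z = wronsk f z := by
  have h1 : (Matrix.of fun i j : Fin n => iteratedDeriv i (Function.update f j₀ q j) z) =
      (Matrix.of fun i j : Fin n => iteratedDeriv i (f j) z).updateCol j₀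
        (fun i => ∑ j, (1 : ℂ) • (Matrix.of fun i j : Fin n => iteratedDeriv i (f j) z) i j) := by
    ext i j
    rw [Matrix.updateCol_apply]
    by_cases hj : j = j₀
    · subst hj
      rw [if_pos rfl]
      simp only [Matrix.of_apply, Function.update_self, one_smul]
      rw [hq.iteratedDeriv_eq, iteratedDeriv_fun_sum (fun j _ => hf j i)]
    · rw [if_neg hj]
      simp only [Matrix.of_apply]
      rw [Function.update_of_ne hj]
  unfold wronsk
  rw [h1, Matrix.det_updateCol_sum, one_smul]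

theorem LocalEst_num {n d c : ℕ} (hn : 1 ≤ n) (hd : n ≤ d) (hc : (d : ℤ) ∣ (c : ℤ)) :
    (d : ℤ) * ((c : ℤ) - ((c - (n - 1) : ℕ) : ℤ)) ≤ ((n : ℤ) - 1) * c := by
  rcases Nat.eq_zero_or_pos c with h0 | h0
  · subst h0
    simp
  · have h1 : (d : ℤ) ≤ c := Int.le_of_dvd (by exact_mod_cast h0) hc
    have h2 : n - 1 ≤ c := by omega
    have h3 : ((c - (n - 1) : ℕ) : ℤ) = (c : ℤ) - ((n : ℤ) - 1) := by
      push_cast [Nat.cast_sub h2, Nat.cast_sub hn]
      ring
    rw [h3]
    have h4 : (0 : ℤ) ≤ (n : ℤ) - 1 := by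
      have : (1 : ℤ) ≤ n := by exact_mod_cast hn
      linarith
    nlinarith [mul_le_mul_of_nonneg_right h1 h4]

theorem local_estimate {n d : ℕ} (hn : 1 ≤ n) (hd : n ≤ d) {s : ℂ} {u : Fin n → ℂ → ℂ}
    (hu : ∀ j, MeromorphicAt (u j) s) (huo : ∀ j, meromorphicOrderAt (u j) s ≠ ⊤)
    (hrel : ∀ᶠ z in 𝓝[≠] s, ∑ j, u j z = -1) (hW : meromorphicOrderAt (wronsk u) s ≠ ⊤)
    (hdiv : ∀ j, (d : ℤ) ∣ ordZ (u j) s) {μ : ℤ} (hμ0 : μ ≤ 0) (hμ : ∀ j, μ ≤ ordZ (u j) s)
    (hμ' : μ = 0 ∨ ∃ j, ordZ (u j) s = μ) :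
    (d : ℤ) * ((∑ j, ordZ (u j) s) - ordZ (wronsk u) s - μ) ≤
      (n - 1 : ℤ) * ((∑ j, (ordZ (u j) s - μ)) + (0 - μ)) := by
  obtain ⟨m, hm⟩ : ∃ m : ℕ, (m : ℤ) = -μ := ⟨(-μ).toNat, Int.toNat_of_nonneg (by linarith)⟩
  -- the orders of the scaled functions
  have hb : ∀ j, ∃ b : ℕ, (b : ℤ) = ordZ (u j) s - μ := fun j =>
    ⟨(ordZ (u j) s - μ).toNat, Int.toNat_of_nonneg (by linarith [hμ j])⟩
  choose b hb using hb
  set f : Fin n → ℂ → ℂ := fun j w => (w - s) ^ m * u j w with hf
  have hVf : ∀ j, LocalEst_V s (f j) (b j) := by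
    intro j
    have h1 : meromorphicOrderAt (u j) s = ((ordZ (u j) s : ℤ) : WithTop ℤ) := by
      unfold Pool.Agent.H92.GGL.ordZ
      rw [WithTop.coe_untop₀_of_ne_top (huo j)]
    obtain ⟨g, hg, _, hug⟩ := (meromorphicOrderAt_eq_int_iff (hu j)).1 h1
    refine ⟨g, hg, ?_⟩
    filter_upwards [hug, eventually_mem_nhdsWithin] with z hz hzs
    have hzs' : z - s ≠ 0 := sub_ne_zero.mpr hzs
    show (z - s) ^ m * u j z = _
    rw [hz, smul_eq_mul, ← mul_assoc, ← zpow_natCast, ← zpow_add₀ hzs', ← zpow_natCast]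
    congr 2
    rw [hb j, hm]
    ring
  -- the punctured neighbourhood where everything is analytic
  have han : ∀ᶠ z in 𝓝[≠] s, ∀ j, AnalyticAt ℂ (u j) z := by
    rw [Filter.eventually_all]
    exact fun j => (hu j).eventually_analyticAt
  have hscale : wronsk f =ᶠ[𝓝[≠] s] fun z => ((z - s) ^ m) ^ n * wronsk u z := by
    filter_upwards [han] with z hz
    refine LocalEst_scale (h := fun w => (w - s) ^ m) ?_ ?_
    · intro k
      exact ((contDiffAt_id.sub contDiffAt_const).pow m)
    · intro j k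
      exact (hz j).contDiffAt
  -- it is enough to bound the order of the scaled Wronskian
  have main : ∀ c : Fin n → ℕ, (∀ j, (d : ℤ) ∣ (c j : ℤ)) →
      (∑ j, (c j : ℤ)) = (∑ j, (ordZ (u j) s - μ)) + (0 - μ) →
      LocalEst_V s (wronsk f) (∑ j, (c j - (n - 1))) →
      (d : ℤ) * ((∑ j, ordZ (u j) s) - ordZ (wronsk u) s - μ) ≤
        (n - 1 : ℤ) * ((∑ j, (ordZ (u j) s - μ)) + (0 - μ)) := by
    intro c hc hcs hV
    obtain ⟨g, hg, hWg⟩ := hV
    set C : ℕ := ∑ j, (c j - (n - 1)) with hC
    have h1 : wronsk u =ᶠ[𝓝[≠] s] fun z => (z - s) ^ ((C : ℤ) - m * n) * g z := by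
      filter_upwards [hscale, hWg, eventually_mem_nhdsWithin] with z h1 h2 h3
      have hzs' : z - s ≠ 0 := sub_ne_zero.mpr h3
      rw [h1] at h2
      have h4 : ((z - s) ^ m) ^ n ≠ 0 := pow_ne_zero _ (pow_ne_zero _ hzs')
      have h5 : wronsk u z = (((z - s) ^ m) ^ n)⁻¹ * ((z - s) ^ C * g z) := by
        rw [← h2, ← mul_assoc, inv_mul_cancel₀ h4, one_mul]
      rw [h5, zpow_sub₀ hzs', zpow_natCast, ← pow_mul]
      have h6 : (z - s) ^ ((m : ℤ) * (n : ℤ)) = (z - s) ^ (m * n) := by
        rw [← Nat.cast_mul, zpow_natCast]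
      rw [h6]
      field_simp
    have h2 : MeromorphicAt (fun z => (z - s) ^ ((C : ℤ) - m * n)) s :=
      ((LocalEst_anal_sub s).meromorphicAt).zpow _
    have h3 : meromorphicOrderAt (fun z => (z - s) ^ ((C : ℤ) - m * n)) s =
        (((C : ℤ) - m * n : ℤ) : WithTop ℤ) := by
      rw [meromorphicOrderAt_eq_int_iff h2]
      exact ⟨fun _ => 1, analyticAt_const, one_ne_zero, by
        filter_upwards with z
        rw [smul_eq_mul, mul_one]⟩
    have h4 : (((C : ℤ) - m * n : ℤ) : WithTop ℤ) ≤ meromorphicOrderAt (wronsk u) s := by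
      rw [meromorphicOrderAt_congr h1]
      have h5 := meromorphicOrderAt_mul h2 hg.meromorphicAt
      have h6 : meromorphicOrderAt (fun z => (z - s) ^ ((C : ℤ) - m * n) * g z) s =
          meromorphicOrderAt (fun z => (z - s) ^ ((C : ℤ) - m * n)) s +
            meromorphicOrderAt g s := h5
      rw [h6, h3]
      exact le_add_of_nonneg_right hg.meromorphicOrderAt_nonneg
    have h5 : ((C : ℤ) - m * n : ℤ) ≤ ordZ (wronsk u) s := by
      unfold Pool.Agent.H92.GGL.ordZ
      rw [← WithTop.coe_untop₀_of_ne_top hW] at h4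
      exact_mod_cast h4
    have h6 : ∑ j, ((d : ℤ) * ((c j : ℤ) - ((c j - (n - 1) : ℕ) : ℤ))) ≤
        ∑ j, ((n : ℤ) - 1) * (c j : ℤ) :=
      Finset.sum_le_sum fun j _ => LocalEst_num hn hd (hc j)
    rw [← Finset.mul_sum, ← Finset.mul_sum, Finset.sum_sub_distrib, hcs] at h6
    have h7 : ((C : ℕ) : ℤ) = ∑ j, ((c j - (n - 1) : ℕ) : ℤ) := by
      rw [hC, Nat.cast_sum]
    rw [← h7] at h6
    have h8 : (∑ j, (ordZ (u j) s - μ)) = (∑ j, ordZ (u j) s) - n * μ := by
      rw [Finset.sum_sub_distrib, Finset.sum_const, Finset.card_univ, Fintype.card_fin,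
        nsmul_eq_mul]
    refine le_trans ?_ h6
    refine mul_le_mul_of_nonneg_left ?_ (Int.natCast_nonneg d)
    rw [h8]
    rw [hm] at h5
    linarith
  have hdμ : (d : ℤ) ∣ μ := by
    rcases hμ' with h | ⟨j, hj⟩
    · rw [h]; exact dvd_zero _
    · rw [← hj]; exact hdiv j
  have hdb : ∀ j, (d : ℤ) ∣ (b j : ℤ) := by
    intro j
    rw [hb j]
    exact dvd_sub (hdiv j) hdμ
  rcases hμ' with h0 | ⟨j₀, hj₀⟩
  · refine main b hdb ?_ (LocalEst_wronsk hVf)
    rw [h0, sub_zero, add_zero]
    refine Finset.sum_congr rfl ?_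
    intro j _
    rw [hb j, h0]
  · have hq : wronsk f =ᶠ[𝓝[≠] s]
        wronsk (Function.update f j₀ (fun w => -(w - s) ^ m)) := by
      have hrel' := eventually_nhdsNE_eventually_nhds_iff.2 hrel
      filter_upwards [han, hrel'] with z hz hr
      symm
      refine LocalEst_exchange j₀ ?_ ?_
      · intro j k
        have h1 : ContDiffAt ℂ k (u j) z := (hz j).contDiffAt
        have h2 : ContDiffAt ℂ k (fun w : ℂ => (w - s) ^ m) z :=
          (contDiffAt_id.sub contDiffAt_const).pow m
        exact h2.mul h1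
      · filter_upwards [hr] with w hw
        show -(w - s) ^ m = ∑ j, (w - s) ^ m * u j w
        rw [← Finset.mul_sum, hw]
        ring
    have hV : ∀ j, LocalEst_V s (Function.update f j₀ (fun w => -(w - s) ^ m) j)
        (Function.update b j₀ m j) := by
      intro j
      by_cases hj : j = j₀
      · subst hj
        rw [Function.update_self, Function.update_self]
        refine ⟨fun _ => -1, analyticAt_const, ?_⟩
        filter_upwards with z
        ring
      · rw [Function.update_of_ne hj, Function.update_of_ne hj]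
        exact hVf j
    have hb0 : (b j₀ : ℤ) = 0 := by
      rw [hb j₀, hj₀, sub_self]
    refine main (Function.update b j₀ m) ?_ ?_ (LocalEst_congr (LocalEst_wronsk hV) hq)
    · intro j
      by_cases hj : j = j₀
      · subst hj
        rw [Function.update_self, hm]
        exact (dvd_neg).2 hdμ
      · rw [Function.update_of_ne hj]
        exact hdb j
    · have h1 : (∑ j, (ordZ (u j) s - μ)) = ∑ j, (b j : ℤ) :=
        Finset.sum_congr rfl fun j _ => (hb j).symm
      rw [h1, ← Finset.add_sum_erase Finset.univ _ (Finset.mem_univ j₀),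
        ← Finset.add_sum_erase Finset.univ (fun j => (b j : ℤ)) (Finset.mem_univ j₀), hb0,
        Function.update_self, hm]
      have h2 : ∑ j ∈ Finset.univ.erase j₀, ((Function.update b j₀ m j : ℕ) : ℤ) =
          ∑ j ∈ Finset.univ.erase j₀, (b j : ℤ) := by
        refine Finset.sum_congr rfl ?_
        intro j hj
        rw [Function.update_of_ne (Finset.ne_of_mem_erase hj)]
      rw [h2]
      ring

end Pool.Agent.H62.FC

end
end

section

/-!
# The Wronskian of linearly independent meromorphic functions does not vanish identically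
-/

noncomputable section

namespace Pool.Agent.H62.FC

open Filter Topology MeasureTheory
open Pool.Agent.H92.GGL (ordZ)

private lemma Wronsk_det_analyticAt {n : ℕ} {M : ℂ → Matrix (Fin n) (Fin n) ℂ} {s : ℂ}
    (h : ∀ i j, AnalyticAt ℂ (fun z => M z i j) s) : AnalyticAt ℂ (fun z => (M z).det) s := by
  simp only [Matrix.det_apply']
  refine Finset.analyticAt_fun_sum _ fun σ _ => ?_
  refine analyticAt_const.mul ?_
  exact Finset.analyticAt_fun_prod _ fun i _ => h _ _

private lemma Wronsk_det_meromorphicAt {n : ℕ} {M : ℂ → Matrix (Fin n) (Fin n) ℂ} {s : ℂ}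
    (h : ∀ i j, MeromorphicAt (fun z => M z i j) s) : MeromorphicAt (fun z => (M z).det) s := by
  simp only [Matrix.det_apply']
  refine MeromorphicAt.fun_sum fun σ _ => ?_
  refine (MeromorphicAt.const _ s).mul ?_
  exact MeromorphicAt.fun_prod fun i _ => h _ _

private lemma Wronsk_iterated {f : ℂ → ℂ} {z : ℂ} (hf : AnalyticAt ℂ f z) (n : ℕ) :
    AnalyticAt ℂ (iteratedDeriv n f) z := by
  rw [iteratedDeriv_eq_iterate]
  exact hf.iterated_deriv n

/-- the Wronskian of linearly independent holomorphic functions on a domain -/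
private theorem Wronsk_exists {m : ℕ} (φ : Fin m → ℂ → ℂ) (D : Set ℂ) (hD : IsOpen D)
    (hDp : IsPreconnected D) (hDn : D.Nonempty) (hd : ∀ i, ∀ z ∈ D, AnalyticAt ℂ (φ i) z)
    (hli : ∀ c : Fin m → ℂ, (∀ z ∈ D, ∑ j, c j * φ j z = 0) → c = 0) :
    ∃ z ∈ D, Matrix.det (Matrix.of fun i j : Fin m => iteratedDeriv (i : ℕ) (φ j) z) ≠ 0 := by
  induction m with
  | zero =>
    obtain ⟨z, hz⟩ := hDn
    exact ⟨z, hz, by simp⟩
  | succ m ih =>
    by_contra hcon
    push Not at hcon
    obtain ⟨z₀, hz₀D, hz₀⟩ := ih (fun j => φ j.castSucc) (fun j => hd _) (by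
      intro c hc
      have h1 := hli (Fin.lastCases 0 c) (by
        intro z hz
        simp only [Fin.sum_univ_castSucc, Fin.lastCases_castSucc, Fin.lastCases_last, zero_mul,
          add_zero]
        exact hc z hz)
      funext j
      have h2 := congrFun h1 j.castSucc
      simpa using h2)
    set A : ℂ → Matrix (Fin m) (Fin m) ℂ :=
      fun z => Matrix.of fun i j : Fin m => iteratedDeriv (i : ℕ) (φ j.castSucc) z with hA
    set b : ℂ → Fin m → ℂ := fun z i => iteratedDeriv (i : ℕ) (φ (Fin.last m)) z with hb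
    have hAd : ∀ z ∈ D, AnalyticAt ℂ (fun z => (A z).det) z := fun z hz =>
      Wronsk_det_analyticAt fun i j => Wronsk_iterated (hd _ z hz) _
    set c : Fin m → ℂ → ℂ := fun j z => ((A z).updateCol j (b z)).det / (A z).det with hc
    have hU : ∃ r > 0, ∀ z ∈ Metric.ball z₀ r, z ∈ D ∧ (A z).det ≠ 0 := by
      have h1 : ∀ᶠ z in 𝓝 z₀, z ∈ D ∧ (A z).det ≠ 0 :=
        (hD.eventually_mem hz₀D).and ((hAd z₀ hz₀D).continuousAt.eventually_ne hz₀)
      exact Metric.eventually_nhds_iff_ball.mp h1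
    obtain ⟨r, hr, hball⟩ := hU
    have hcd : ∀ j, ∀ z ∈ D, (A z).det ≠ 0 → DifferentiableAt ℂ (c j) z := by
      intro j z hzD hz
      refine DifferentiableAt.div ?_ (hAd z hzD).differentiableAt hz
      refine (Wronsk_det_analyticAt (M := fun z => (A z).updateCol j (b z))
        fun i k => ?_).differentiableAt
      by_cases hk : k = j
      · subst hk
        simp only [Matrix.updateCol_self]
        exact Wronsk_iterated (hd _ z hzD) _
      · simp only [Matrix.updateCol_ne hk]
        exact Wronsk_iterated (hd _ z hzD) _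
    -- the coefficients solve the linear system
    have hsol : ∀ z, (A z).det ≠ 0 → (A z).mulVec (fun j => c j z) = b z := by
      intro z hz
      have h1 := Matrix.mulVec_cramer (A z) (b z)
      have h2 : (fun j => c j z) = ((A z).det)⁻¹ • Matrix.cramer (A z) (b z) := by
        funext j
        simp only [hc, Pi.smul_apply, Matrix.cramer_apply, smul_eq_mul]
        rw [div_eq_inv_mul]
      rw [h2, Matrix.mulVec_smul, h1, smul_smul, inv_mul_cancel₀ hz, one_smul]
    have hlast : ∀ z ∈ D, (A z).det ≠ 0 →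
        ∑ j, iteratedDeriv m (φ j.castSucc) z * c j z = iteratedDeriv m (φ (Fin.last m)) z := by
      intro z hzD hz
      obtain ⟨v, hv0, hv⟩ := Matrix.exists_mulVec_eq_zero_iff.2 (hcon z hzD)
      have hrow : ∀ i : Fin (m + 1), ∑ j : Fin m, iteratedDeriv (i : ℕ) (φ j.castSucc) z *
          v j.castSucc + iteratedDeriv (i : ℕ) (φ (Fin.last m)) z * v (Fin.last m) = 0 := by
        intro i
        have := congrFun hv i
        simpa [Matrix.mulVec, dotProduct, Fin.sum_univ_castSucc] using this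
      have hvl : v (Fin.last m) ≠ 0 := by
        intro h0
        apply hv0
        have hz' : (fun j : Fin m => v j.castSucc) = 0 := by
          apply Matrix.eq_zero_of_mulVec_eq_zero hz
          funext i
          have := hrow i.castSucc
          rw [h0, mul_zero, add_zero] at this
          simpa [Matrix.mulVec, dotProduct, hA] using this
        funext i
        refine Fin.lastCases h0 (fun j => ?_) i
        exact congrFun hz' j
      have hcv : (fun j => c j z) = fun j : Fin m => - v j.castSucc / v (Fin.last m) := by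
        have hdiff : (A z).mulVec ((fun j => c j z) -
            fun j : Fin m => - v j.castSucc / v (Fin.last m)) = 0 := by
          rw [Matrix.mulVec_sub, hsol z hz, sub_eq_zero]
          funext i
          have h3 := hrow i.castSucc
          simp only [Fin.val_castSucc] at h3
          simp only [hb, hA, Matrix.mulVec, dotProduct, Matrix.of_apply]
          have h4 : ∑ j : Fin m, iteratedDeriv (i : ℕ) (φ j.castSucc) z *
              (-v j.castSucc / v (Fin.last m)) =
              -(∑ j : Fin m, iteratedDeriv (i : ℕ) (φ j.castSucc) z * v j.castSucc) /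
                v (Fin.last m) := by
            rw [← Finset.sum_neg_distrib, Finset.sum_div]
            refine Finset.sum_congr rfl fun j _ => by ring
          rw [h4, eq_div_iff hvl]
          linear_combination h3
        exact sub_eq_zero.1 (Matrix.eq_zero_of_mulVec_eq_zero hz hdiff)
      have h5 := hrow (Fin.last m)
      simp only [Fin.val_last] at h5
      have h6 : ∀ j, c j z = - v j.castSucc / v (Fin.last m) := fun j => congrFun hcv j
      have h7 : ∑ j, iteratedDeriv m (φ j.castSucc) z * c j z =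
          -(∑ j : Fin m, iteratedDeriv m (φ j.castSucc) z * v j.castSucc) / v (Fin.last m) := by
        rw [← Finset.sum_neg_distrib, Finset.sum_div]
        refine Finset.sum_congr rfl fun j _ => by rw [h6]; ring
      rw [h7, div_eq_iff hvl]
      linear_combination -h5
    have hall : ∀ i ≤ m, ∀ z ∈ D, (A z).det ≠ 0 →
        ∑ j, iteratedDeriv i (φ j.castSucc) z * c j z = iteratedDeriv i (φ (Fin.last m)) z := by
      intro i hi z hzD hz
      rcases hi.lt_or_eq with hi' | rfl
      · have := congrFun (hsol z hz) ⟨i, hi'⟩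
        simpa [Matrix.mulVec, dotProduct, hA, hb] using this
      · exact hlast z hzD hz
    have hderiv : ∀ j, ∀ z ∈ Metric.ball z₀ r, deriv (c j) z = 0 := by
      intro j₀ z hzb
      obtain ⟨hzD, hz⟩ := hball z hzb
      have hzero : (A z).mulVec (fun j => deriv (c j) z) = 0 := by
        funext i
        have hev : (fun w => ∑ j, iteratedDeriv (i : ℕ) (φ j.castSucc) w * c j w) =ᶠ[𝓝 z]
            iteratedDeriv (i : ℕ) (φ (Fin.last m)) := by
          filter_upwards [Metric.isOpen_ball.mem_nhds hzb] with w hw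
          exact hall i i.2.le w (hball w hw).1 (hball w hw).2
        have h1 := hev.deriv_eq
        have h2 : deriv (fun w => ∑ j, iteratedDeriv (i : ℕ) (φ j.castSucc) w * c j w) z =
            ∑ j, (iteratedDeriv ((i : ℕ) + 1) (φ j.castSucc) z * c j z +
              iteratedDeriv (i : ℕ) (φ j.castSucc) z * deriv (c j) z) := by
          rw [deriv_fun_sum]
          · refine Finset.sum_congr rfl fun j _ => ?_
            rw [deriv_fun_mul (Wronsk_iterated (hd _ z hzD) _).differentiableAt (hcd j z hzD hz),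
              iteratedDeriv_succ]
          · intro j _
            exact (Wronsk_iterated (hd _ z hzD) _).differentiableAt.mul (hcd j z hzD hz)
        have h3 := hall ((i : ℕ) + 1) i.2 z hzD hz
        rw [h2, Finset.sum_add_distrib, h3, ← iteratedDeriv_succ] at h1
        have h4 : ∑ j, iteratedDeriv (i : ℕ) (φ j.castSucc) z * deriv (c j) z = 0 := by
          linear_combination h1
        simpa [Matrix.mulVec, dotProduct, hA] using h4
      exact congrFun (Matrix.eq_zero_of_mulVec_eq_zero hz hzero) j₀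
    have hconst : ∀ j, ∀ z ∈ Metric.ball z₀ r, c j z = c j z₀ := by
      intro j z hz
      exact (Metric.isOpen_ball.is_const_of_deriv_eq_zero (convex_ball z₀ r).isPreconnected
        (fun w hw => (hcd j w (hball w hw).1 (hball w hw).2).differentiableWithinAt)
        (fun w hw => hderiv j w hw) hz (Metric.mem_ball_self hr))
    -- identity theorem
    have hid : ∀ z ∈ D, ∑ j, φ j.castSucc z * c j z₀ = φ (Fin.last m) z := by
      have h1 : AnalyticOnNhd ℂ (fun z => ∑ j, φ j.castSucc z * c j z₀) D := by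
        intro z hz
        exact Finset.analyticAt_fun_sum _ fun j _ => (hd _ z hz).mul analyticAt_const
      have h2 : AnalyticOnNhd ℂ (φ (Fin.last m)) D := fun z hz => hd _ z hz
      have h3 : (fun z => ∑ j, φ j.castSucc z * c j z₀) =ᶠ[𝓝 z₀] φ (Fin.last m) := by
        filter_upwards [Metric.ball_mem_nhds z₀ hr] with z hz
        have h4 := hall 0 (Nat.zero_le _) z (hball z hz).1 (hball z hz).2
        simp only [iteratedDeriv_zero] at h4
        rw [← h4]
        exact Finset.sum_congr rfl fun j _ => by rw [hconst j z hz]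
      intro z hz
      exact h1.eqOn_of_preconnected_of_eventuallyEq h2 hDp hz₀D h3 hz
    have hsum := congrFun (hli (Fin.lastCases (-1) fun j => c j z₀) (by
        intro z hz
        simp only [Fin.sum_univ_castSucc, Fin.lastCases_castSucc, Fin.lastCases_last]
        have := hid z hz
        rw [← this]
        have h5 : ∑ j, c j z₀ * φ j.castSucc z = ∑ j, φ j.castSucc z * c j z₀ :=
          Finset.sum_congr rfl fun j _ => mul_comm _ _
        rw [h5]; ring)) (Fin.last m)
    simp at hsum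

theorem wronsk_meroPunct {R₀ : ℝ} {n : ℕ} {u : Fin n → ℂ → ℂ} (hu : ∀ j, MeroPunct R₀ (u j))
    (hind : ∀ (c : Fin n → ℂ) (z : ℂ), 0 < ‖z‖ → ‖z‖ < R₀ →
      (∀ᶠ ζ in 𝓝[≠] z, ∑ j, c j * u j ζ = 0) → c = 0) : MeroPunct R₀ (wronsk u) where
  mero z h1 h2 := by
    refine Wronsk_det_meromorphicAt fun i j => ?_
    have h3 : MeromorphicAt (iteratedDeriv (i : ℕ) (u j)) z := by
      rw [iteratedDeriv_eq_iterate]
      exact ((hu j).mero z h1 h2).iterated_deriv
    exact h3
  ord z h1 h2 := by
    intro htop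
    rw [meromorphicOrderAt_eq_top_iff] at htop
    have han : ∀ᶠ ζ in 𝓝[≠] z, ∀ j, AnalyticAt ℂ (u j) ζ := by
      rw [eventually_all]
      exact fun j => ((hu j).mero z h1 h2).eventually_analyticAt
    have hR : ∀ᶠ ζ in 𝓝[≠] z, 0 < ‖ζ‖ ∧ ‖ζ‖ < R₀ := by
      refine eventually_nhdsWithin_of_eventually_nhds ?_
      exact (continuous_norm.continuousAt.eventually_const_lt h1).and
        (continuous_norm.continuousAt.eventually_lt_const h2)
    have hall := (htop.and han).and hR
    rw [eventually_nhdsWithin_iff, Metric.eventually_nhds_iff_ball] at hall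
    obtain ⟨ε, hε, hball⟩ := hall
    set z₁ : ℂ := z + ((ε / 2 : ℝ) : ℂ) with hz₁
    have hz₁n : ‖z₁ - z‖ = ε / 2 := by
      rw [hz₁, add_sub_cancel_left, Complex.norm_real, Real.norm_of_nonneg (by positivity)]
    have hsub : ∀ ζ ∈ Metric.ball z₁ (ε / 2), ζ ∈ Metric.ball z ε ∧ ζ ∈ ({z}ᶜ : Set ℂ) := by
      intro ζ hζ
      rw [mem_ball_iff_norm] at hζ
      constructor
      · rw [mem_ball_iff_norm]
        calc ‖ζ - z‖ = ‖(ζ - z₁) + (z₁ - z)‖ := by ring_nf
          _ ≤ ‖ζ - z₁‖ + ‖z₁ - z‖ := norm_add_le _ _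
          _ < ε / 2 + ε / 2 := by rw [hz₁n]; linarith
          _ = ε := by ring
      · intro h
        rw [Set.mem_singleton_iff] at h
        rw [h, norm_sub_rev, hz₁n] at hζ
        exact lt_irrefl _ hζ
    have hmem : z₁ ∈ Metric.ball z₁ (ε / 2) := Metric.mem_ball_self (by positivity)
    obtain ⟨ζ, hζ, hne⟩ := Wronsk_exists u (Metric.ball z₁ (ε / 2)) Metric.isOpen_ball
      (convex_ball _ _).isPreconnected ⟨z₁, hmem⟩
      (fun j ζ hζ => (hball ζ (hsub ζ hζ).1 (hsub ζ hζ).2).1.2 j) (by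
        intro c hc
        have h3 := hball z₁ (hsub z₁ hmem).1 (hsub z₁ hmem).2
        refine hind c z₁ h3.2.1 h3.2.2 ?_
        refine eventually_nhdsWithin_of_eventually_nhds ?_
        filter_upwards [Metric.isOpen_ball.mem_nhds hmem] with ζ hζ
        exact hc ζ hζ)
    exact hne (hball ζ (hsub ζ hζ).1 (hsub ζ hζ).2).1.1

end Pool.Agent.H62.FC

end
end

section

/-!
# LT Defs: the data on the function field for the complements of `{Res (F, x) = 0}` in `A × ℙ^m`

`P` is the polynomial whose roots are the zeros of the binary form `F(y, ·)`, with coefficients `X (cf i)`; `x` is the polynomial with coefficients `V l` (the binary form `x ∈ ℙ^m`); `R` is their resultant, the equation of the boundary.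

* `Chart S v c l`: at the valuation `v` the function `X c` has the smallest order and the `δ i` are regular combinations of the `d (X b / X c)`; `V l` has the smallest order.
* `up`: over an extension `K'` of `K` which contains the roots `e j` of `P` the family of linear forms `F j = x (e j)`, with the local generators `1`, `e j ^ m` (data of `LH`).
-/

set_option autoImplicit false

open MvPolynomial
open Pool.Agent.H23 (RatForm PrimeDivisorOver)
open Pool.Agent.LG (dd wd IV FV)

noncomputable section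

namespace Pool.Agent.LT

variable {K : Type} [Field K] [Algebra ℂ K] {ι : Type} {k n m D r : ℕ}

/-- the data on the function field -/
structure Dt (K : Type) [Field K] [Algebra ℂ K] (ι : Type) (n m D : ℕ) where
  X : ι → K
  δ : Fin n → Ω[K⁄ℂ]
  cf : Fin (D + 1) → ι
  V : Fin (m + 1) → K

/-- the polynomial whose roots are the zeros of `F(y, ·)` -/
def Dt.P (S : Dt K ι n m D) : Polynomial K := ∑ i : Fin (D + 1), Polynomial.C (S.X (S.cf i)) * Polynomial.X ^ (i : ℕ)

/-- the polynomial given by the point of `ℙ^m` -/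
def Dt.x (S : Dt K ι n m D) : Polynomial K := ∑ l : Fin (m + 1), Polynomial.C (S.V l) * Polynomial.X ^ (l : ℕ)

/-- the equation of the boundary -/
def Dt.R (S : Dt K ι n m D) : K := Polynomial.resultant S.P S.x D m

/-- a chart at an integer valued valuation -/
structure Dt.Chart [Fintype ι] (S : Dt K ι n m D) (v : K → ℤ) (c : ι) (l : Fin (m + 1)) : Prop where
  Xne : S.X c ≠ 0
  Xle : ∀ b, S.X b ≠ 0 → v (S.X c) ≤ v (S.X b)
  Vne : S.V l ≠ 0
  Vle : ∀ l', S.V l' ≠ 0 → v (S.V l) ≤ v (S.V l')
  mat : ∃ M : Fin n → ι → K, (∀ i b, M i b ≠ 0 → 0 ≤ v (M i b)) ∧ ∀ i, S.δ i = ∑ b, M i b • dd (S.X b / S.X c)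

/-- the properties of the data which do not depend on a divisor -/
structure Dt.Base (S : Dt K ι n m D) : Prop where
  one : ∃ a, S.X a = 1
  V_ne : ∃ l, S.V l ≠ 0
  R_ne : S.R ≠ 0
  deg : S.P.natDegree = D
  zero : S.P.coeff 0 ≠ 0
  roots : 2 * m + 1 ≤ (S.P.rootSet S.P.SplittingField).ncard
  alg : Algebra.IsAlgebraic (IntermediateField.adjoin ℂ (Set.range S.X ∪ {y | ∃ l l', y = S.V l / S.V l'})) K
  span : ∀ a, dd (S.X a) ∈ Submodule.span K (Set.range S.δ)

/-- the properties of the data; `B E`: the centre of `E` is in the boundary -/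
structure Dt.Good [Fintype ι] (S : Dt K ι n m D) (B : PrimeDivisorOver K k → Prop) : Prop extends S.Base where
  chart : ∀ (E : PrimeDivisorOver K k) (v : K → ℤ), (∀ a, a ≠ 0 → E.ord a = (v a : WithTop ℤ)) →
    ∃ c l, S.Chart v c l ∧ (¬ B E → v S.R = m * v (S.X c) + D * v (S.V l))

variable {K' : Type} [Field K'] [Algebra K K'] [Algebra ℂ K'] [IsScalarTower ℂ K K']

/-- the data over the extension -/
def Dt.up (S : Dt K ι n m D) (e : Fin r → K') : LH.Dat K' ι Bool n m r where
  X b := algebraMap K K' (S.X b)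
  δ i := KaehlerDifferential.map ℂ ℂ K K' (S.δ i)
  V l := algebraMap K K' (S.V l)
  F j := ∑ l : Fin (m + 1), algebraMap K K' (S.V l) * e j ^ (l : ℕ)
  Y j s := if s then e j ^ m else 1

/-- the `e j` are the different roots of `P`, which splits in `K'` -/
structure Dt.IsRoots (S : Dt K ι n m D) (e : Fin r → K') : Prop where
  inj : Function.Injective e
  root : ∀ a : K', (S.P.map (algebraMap K K')).IsRoot a ↔ ∃ j, e j = a
  splits : (S.P.map (algebraMap K K')).Splits

open Classical in
/-- the choice of the local generators at the valuation `ν` -/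
def zc (ν : K' → ℤ) (e : Fin r → K') (j : Fin r) : Bool := decide (e j ≠ 0 ∧ ν (e j) < 0)

end Pool.Agent.LT

end
end

section

/-!
# LT Sb: the data over the splitting field

* `exists_roots`: the splitting field of `P` over `K` (characteristic `0`: it is a Galois extension); the list of the roots.
* `base_up`: `F_ne`: `R = lead (P)^m ∏ x (e)` over the roots with multiplicities (`Polynomial.resultant_eq_prod_eval`, `deg`), `R ≠ 0`.  `Y_alg`: `e j` is a root of `P`, whose coefficients are `X (cf i)`.  `gp` with `N = 0`: the Vandermonde matrix `(e j ^ l)`, `j ∈ I`, `l ≤ m`, is invertible (`Matrix.det_vandermonde_ne_zero_iff`); the entries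
  of the inverse are algebraic; `V l = ∑ C_j F j`; a monomial `β` of degree `1` is `V l`.  `alg`, `span`: `K' / K` is algebraic; `KaehlerDifferential.map` of `dd (X a)` is `dd (algebraMap (X a))`.
-/

set_option autoImplicit false

open MvPolynomial
open Pool.Agent.H23 (RatForm PrimeDivisorOver)
open Pool.Agent.LG (dd wd IV FV)

noncomputable section

namespace Pool.Agent.LT

variable {K : Type} [Field K] [Algebra ℂ K] {ι : Type} {k n m D r : ℕ}

theorem P_ne (S : Dt K ι n m D) (hS : S.Base) : S.P ≠ 0 := fun h =>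
  hS.zero (by rw [h, Polynomial.coeff_zero])

theorem exists_roots (S : Dt K ι n m D) (hS : S.Base) : ∃ (K' : Type) (_ : Field K') (_ : Algebra K K') (_ : Algebra ℂ K') (_ : IsScalarTower ℂ K K') (r : ℕ) (e : Fin r → K'),
    FiniteDimensional K K' ∧ IsGalois K K' ∧ S.IsRoots e ∧ 2 * m + 1 ≤ r := by
  classical
  haveI : CharZero K := charZero_of_injective_algebraMap (algebraMap ℂ K).injective
  haveI : Normal K S.P.SplittingField := Normal.of_isSplittingField S.P
  haveI : IsGalois K S.P.SplittingField := ⟨⟩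
  have hP := P_ne S hS
  let f : Fin (Nat.card (S.P.rootSet S.P.SplittingField)) ≃ S.P.rootSet S.P.SplittingField :=
    (Finite.equivFin _).symm
  refine ⟨S.P.SplittingField, inferInstance, inferInstance, inferInstance, inferInstance, _,
    fun i => (f i : S.P.SplittingField), inferInstance, inferInstance, ⟨?_, ?_, ?_⟩, ?_⟩
  · exact Subtype.val_injective.comp f.injective
  · intro a
    rw [Polynomial.IsRoot.def, Polynomial.eval_map_algebraMap]
    constructor
    · intro h
      exact ⟨f.symm ⟨a, (Polynomial.mem_rootSet.2 ⟨hP, h⟩)⟩, by rw [Equiv.apply_symm_apply]⟩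
    · rintro ⟨j, rfl⟩
      exact (Polynomial.mem_rootSet.1 (f j).2).2
  · exact Polynomial.SplittingField.splits S.P
  · exact hS.roots

variable {K' : Type} [Field K'] [Algebra K K'] [Algebra ℂ K'] [IsScalarTower ℂ K K']

theorem lead_eq (S : Dt K ι n m D) (hS : S.Base) : S.P.leadingCoeff = S.X (S.cf (Fin.last D)) := by
  rw [Polynomial.leadingCoeff, hS.deg, Dt.P, Polynomial.finset_sum_coeff,
    Finset.sum_eq_single (Fin.last D)]
  · rw [Polynomial.coeff_C_mul, Polynomial.coeff_X_pow, if_pos (Fin.val_last D).symm, mul_one]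
  · intro i _ hi
    rw [Polynomial.coeff_C_mul, Polynomial.coeff_X_pow, if_neg, mul_zero]
    intro h
    exact hi (Fin.ext (h.symm.trans (Fin.val_last D).symm))
  · intro h
    exact absurd (Finset.mem_univ _) h

theorem x_deg (S : Dt K ι n m D) : (S.x.map (algebraMap K K')).natDegree ≤ m := by
  refine Polynomial.natDegree_map_le.trans ?_
  rw [Dt.x]
  refine Polynomial.natDegree_sum_le_of_forall_le _ _ fun i _ => ?_
  exact (Polynomial.natDegree_C_mul_X_pow_le _ _).trans (Nat.lt_succ_iff.1 i.2)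

theorem x_eval (S : Dt K ι n m D) (e : Fin r → K') (j : Fin r) :
    (S.x.map (algebraMap K K')).eval (e j) = (S.up e).F j := by
  rw [Dt.x, Polynomial.map_sum, Polynomial.eval_finset_sum]
  refine Finset.sum_congr rfl fun l _ => ?_
  rw [Polynomial.map_mul, Polynomial.map_C, Polynomial.map_pow, Polynomial.map_X,
    Polynomial.eval_mul, Polynomial.eval_C, Polynomial.eval_pow, Polynomial.eval_X]

theorem R_eq_prod (S : Dt K ι n m D) (hS : S.Base) {e : Fin r → K'} (he : S.IsRoots e) :
    algebraMap K K' S.R = algebraMap K K' (S.X (S.cf (Fin.last D))) ^ m * ∏ j, (S.up e).F j ^ ((S.P.map (algebraMap K K')).rootMultiplicity (e j)) := by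
  classical
  have hP' : S.P.map (algebraMap K K') ≠ 0 :=
    (Polynomial.map_ne_zero_iff (algebraMap K K').injective).2 (P_ne S hS)
  have h1 := Polynomial.resultant_eq_prod_eval (S.P.map (algebraMap K K'))
    (S.x.map (algebraMap K K')) m (x_deg S) he.splits
  rw [Polynomial.natDegree_map, hS.deg, Polynomial.resultant_map_map,
    Polynomial.leadingCoeff_map, lead_eq S hS] at h1
  rw [Dt.R, h1]
  congr 1
  rw [Finset.prod_multiset_map_count]
  have h2 : (S.P.map (algebraMap K K')).roots.toFinset = Finset.univ.image e := by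
    ext a
    rw [Multiset.mem_toFinset, Polynomial.mem_roots hP', he.root, Finset.mem_image]
    exact ⟨fun ⟨j, hj⟩ => ⟨j, Finset.mem_univ _, hj⟩, fun ⟨j, _, hj⟩ => ⟨j, hj⟩⟩
  rw [h2, Finset.prod_image fun _ _ _ _ h => he.inj h]
  refine Finset.prod_congr rfl fun j _ => ?_
  rw [Polynomial.count_roots, x_eval]

theorem F_ne (S : Dt K ι n m D) (hS : S.Base) {e : Fin r → K'} (he : S.IsRoots e) (j : Fin r) :
    (S.up e).F j ≠ 0 := by
  intro h
  have hP' : S.P.map (algebraMap K K') ≠ 0 :=
    (Polynomial.map_ne_zero_iff (algebraMap K K').injective).2 (P_ne S hS)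
  apply hS.R_ne
  apply (algebraMap K K').injective
  rw [map_zero, R_eq_prod S hS he]
  refine mul_eq_zero_of_right _ (Finset.prod_eq_zero (Finset.mem_univ j) ?_)
  rw [h]
  refine zero_pow ?_
  exact ((Polynomial.rootMultiplicity_pos hP').2 ((he.root _).2 ⟨j, rfl⟩)).ne'

theorem e_alg (S : Dt K ι n m D) (hS : S.Base) {e : Fin r → K'} (he : S.IsRoots e) (j : Fin r) :
    (S.up e).AL (e j) := by
  have hm : ∀ i, algebraMap K K' (S.X i) ∈ IntermediateField.adjoin ℂ (Set.range (S.up e).X) :=
    fun i => IntermediateField.subset_adjoin _ _ ⟨i, rfl⟩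
  let Q : Polynomial (IntermediateField.adjoin ℂ (Set.range (S.up e).X)) :=
    ∑ i : Fin (D + 1), Polynomial.C ⟨algebraMap K K' (S.X (S.cf i)), hm _⟩ * Polynomial.X ^ (i : ℕ)
  have hQ : Q.map (algebraMap _ K') = S.P.map (algebraMap K K') := by
    rw [Dt.P, Polynomial.map_sum, Polynomial.map_sum]
    refine Finset.sum_congr rfl fun i _ => ?_
    rw [Polynomial.map_mul, Polynomial.map_C, Polynomial.map_mul, Polynomial.map_C,
      Polynomial.map_pow, Polynomial.map_pow, Polynomial.map_X, Polynomial.map_X]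
    rfl
  have hP' : S.P.map (algebraMap K K') ≠ 0 :=
    (Polynomial.map_ne_zero_iff (algebraMap K K').injective).2 (P_ne S hS)
  refine ⟨Q, ?_, ?_⟩
  · intro h
    rw [h, Polynomial.map_zero] at hQ
    exact hP' hQ.symm
  · rw [← Polynomial.eval_map_algebraMap, hQ]
    exact (he.root _).2 ⟨j, rfl⟩

/-- the homomorphism of the fields which are generated -/
theorem adjoin_hom (A : Set K) (A' : Set K') (h : ∀ a ∈ A, algebraMap K K' a ∈ IntermediateField.adjoin ℂ A') :
    ∀ a ∈ IntermediateField.adjoin ℂ A, algebraMap K K' a ∈ IntermediateField.adjoin ℂ A' := by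
  have h1 : IntermediateField.adjoin ℂ A ≤
      (IntermediateField.adjoin ℂ A').comap (IsScalarTower.toAlgHom ℂ K K') :=
    IntermediateField.adjoin_le_iff.2 h
  exact fun a ha => h1 ha

theorem alg_up (S : Dt K ι n m D) (hS : S.Base) [Algebra.IsAlgebraic K K'] (e : Fin r → K') :
    Algebra.IsAlgebraic (IntermediateField.adjoin ℂ (Set.range (S.up e).X ∪ {y | ∃ l l', y = (S.up e).V l / (S.up e).V l'})) K' := by
  haveI := hS.alg
  haveI : Algebra.IsAlgebraic (IntermediateField.adjoin ℂ (Set.range S.X ∪ {y | ∃ l l', y = S.V l / S.V l'})) K' :=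
    Algebra.IsAlgebraic.trans _ K _
  have h0 := adjoin_hom (Set.range S.X ∪ {y | ∃ l l', y = S.V l / S.V l'})
    (Set.range (S.up e).X ∪ {y | ∃ l l', y = (S.up e).V l / (S.up e).V l'}) (by
      rintro a (⟨b, rfl⟩ | ⟨l, l', rfl⟩)
      · exact IntermediateField.subset_adjoin _ _ (Or.inl ⟨b, rfl⟩)
      · refine IntermediateField.subset_adjoin _ _ (Or.inr ⟨l, l', ?_⟩)
        rw [map_div₀]
        rfl)
  let g : IntermediateField.adjoin ℂ (Set.range S.X ∪ {y | ∃ l l', y = S.V l / S.V l'}) →+*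
      IntermediateField.adjoin ℂ (Set.range (S.up e).X ∪ {y | ∃ l l', y = (S.up e).V l / (S.up e).V l'}) :=
    { toFun := fun a => ⟨algebraMap K K' a, h0 a a.2⟩
      map_one' := Subtype.ext (map_one (algebraMap K K'))
      map_mul' := fun a b => Subtype.ext (map_mul (algebraMap K K') (a : K) (b : K))
      map_zero' := Subtype.ext (map_zero (algebraMap K K'))
      map_add' := fun a b => Subtype.ext (map_add (algebraMap K K') (a : K) (b : K)) }
  exact Algebra.IsAlgebraic.ringHom_of_comp_eq g (RingHom.id K') g.injective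
    Function.surjective_id (by ext a; rfl)

theorem gp_up (S : Dt K ι n m D) (hS : S.Base) {e : Fin r → K'} (he : S.IsRoots e)
    (I : Finset (Fin r)) (hI : I.card = m + 1) : (S.up e).GP 1 I := by
  classical
  let t : Fin (m + 1) ↪o Fin r := I.orderEmbOfFin hI
  let L := algebraicClosure (IntermediateField.adjoin ℂ (Set.range (S.up e).X)) K'
  have heL : ∀ j, e j ∈ L := fun j => mem_algebraicClosure_iff.2 (e_alg S hS he j)
  let M : Matrix (Fin (m + 1)) (Fin (m + 1)) L := Matrix.vandermonde fun i => ⟨e (t i), heL _⟩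
  have hM : M.det ≠ 0 := Matrix.det_vandermonde_ne_zero_iff.2 fun a b h =>
    t.injective (he.inj (congrArg Subtype.val h))
  have hinv : M⁻¹ * M = 1 := Matrix.nonsing_inv_mul M (isUnit_iff_ne_zero.2 hM)
  have hV : ∀ l, (S.up e).V l = ∑ i, ((M⁻¹ l i : L) : K') * (S.up e).F (t i) := by
    intro l
    have h1 : ∀ l' : Fin (m + 1), ∑ i, ((M⁻¹ l i : L) : K') * e (t i) ^ (l' : ℕ) = if l = l' then 1 else 0 := by
      intro l'
      have h2 := congrArg (fun X : Matrix (Fin (m + 1)) (Fin (m + 1)) L => ((X l l' : L) : K')) hinv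
      simp only [Matrix.mul_apply, Matrix.one_apply] at h2
      rw [IntermediateField.coe_sum] at h2
      rw [← Finset.sum_congr rfl fun i _ => (show _ = ((M⁻¹ l i : L) : K') * e (t i) ^ (l' : ℕ) from rfl)]
      refine h2.trans ?_
      split_ifs <;> rfl
    calc (S.up e).V l = ∑ l', (if l = l' then 1 else 0) * (S.up e).V l' := by
          simp only [ite_mul, one_mul, zero_mul, Finset.sum_ite_eq, Finset.mem_univ, if_true]
      _ = ∑ l' : Fin (m + 1), (∑ i, ((M⁻¹ l i : L) : K') * e (t i) ^ (l' : ℕ)) * (S.up e).V l' :=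
          Finset.sum_congr rfl fun l' _ => by rw [h1]
      _ = ∑ i, ∑ l' : Fin (m + 1), ((M⁻¹ l i : L) : K') * e (t i) ^ (l' : ℕ) * (S.up e).V l' := by
          rw [Finset.sum_comm]
          exact Finset.sum_congr rfl fun l' _ => Finset.sum_mul _ _ _
      _ = _ := by
          refine Finset.sum_congr rfl fun i _ => ?_
          change _ = _ * ∑ l' : Fin (m + 1), algebraMap K K' (S.V l') * e (t i) ^ (l' : ℕ)
          rw [Finset.mul_sum]
          refine Finset.sum_congr rfl fun l' _ => ?_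
          change _ * algebraMap K K' (S.V l') = _
          ring
  refine ⟨0, fun β hβ => ?_⟩
  obtain ⟨l, hl⟩ : ∃ l, β l ≠ 0 := by
    by_contra h
    push Not at h
    rw [Finset.sum_eq_zero fun l _ => h l] at hβ
    omega
  have hsum := Finset.add_sum_erase Finset.univ (fun l => β l) (Finset.mem_univ l)
  have hβl : β l = 1 := by
    omega
  have hβ' : ∀ l', l' ≠ l → β l' = 0 := by
    intro l' hl'
    have h1 : ∑ x ∈ Finset.univ.erase l, β x = 0 := by
      omega
    exact Finset.sum_eq_zero_iff.1 h1 l' (Finset.mem_erase.2 ⟨hl', Finset.mem_univ _⟩)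
  refine ⟨fun i => MvPolynomial.C (∑ k, if t k = i then ((M⁻¹ l k : L) : K') else 0), ?_, ?_, ?_⟩
  · intro i
    exact MvPolynomial.isHomogeneous_C _ _
  · intro i γ
    rw [MvPolynomial.coeff_C]
    split_ifs
    · have h3 : (∑ k, if t k = i then ((M⁻¹ l k : L) : K') else 0) ∈ L := by
        refine sum_mem fun k _ => ?_
        split_ifs
        · exact (M⁻¹ l k).2
        · exact zero_mem _
      exact mem_algebraicClosure_iff.1 h3
    · exact isAlgebraic_zero
  · have h4 : (S.up e).mon β = (S.up e).V l := by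
      rw [LH.Dat.mon, Finset.prod_eq_single l, hβl, pow_one]
      · intro l' _ hl'
        rw [hβ' l' hl', pow_zero]
      · intro h
        exact absurd (Finset.mem_univ _) h
    rw [h4, hV l]
    simp only [MvPolynomial.eval_C, Finset.sum_mul, ite_mul, zero_mul]
    rw [Finset.sum_comm]
    refine Finset.sum_congr rfl fun k _ => ?_
    rw [Finset.sum_ite_eq, if_pos (Finset.orderEmbOfFin_mem I hI k)]

theorem base_up (S : Dt K ι n m D) (hS : S.Base) [Algebra.IsAlgebraic K K'] {e : Fin r → K'} (he : S.IsRoots e) : (S.up e).Base 1 where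
  one := by
    obtain ⟨a, ha⟩ := hS.one
    exact ⟨a, by change algebraMap K K' (S.X a) = 1; rw [ha, map_one]⟩
  V_ne := by
    obtain ⟨l, hl⟩ := hS.V_ne
    exact ⟨l, (map_ne_zero (algebraMap K K')).2 hl⟩
  F_ne := F_ne S hS he
  Y_alg := by
    intro j s
    change IsAlgebraic _ (if s then e j ^ m else 1)
    split_ifs
    · exact IsAlgebraic.pow (e_alg S hS he j) m
    · exact isAlgebraic_one
  gp := gp_up S hS he
  alg := alg_up S hS e
  span := by
    intro a
    have h1 := hS.span a
    rw [Submodule.mem_span_range_iff_exists_fun] at h1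
    obtain ⟨c, hc⟩ := h1
    change KaehlerDifferential.D ℂ K' (algebraMap K K' (S.X a)) ∈ _
    rw [← KaehlerDifferential.map_D ℂ ℂ K K']
    change KaehlerDifferential.map ℂ ℂ K K' (dd (S.X a)) ∈ _
    rw [← hc, map_sum]
    refine Submodule.sum_mem _ fun i _ => ?_
    rw [map_smul, ← algebraMap_smul K']
    exact Submodule.smul_mem _ _ (Submodule.subset_span ⟨i, rfl⟩)

end Pool.Agent.LT

end
end

section

/-!
# LT Sc: charts over the splitting field, and the order of the resultant

`ν` is an integer valued valuation of `K'`, `ν = b v` on `K`, `b ≥ 1`; `z = zc ν e`; `a_j = ν (F j) - ν (Y j (z j)) - ν (V l)`.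

* `ch_up`: `Fle`: if `0 ≤ ν (e j)` (or `e j = 0`) all terms `V_l' e_j^l'` of `F j` have order `≥ ν (V l)`; if `ν (e j) < 0`, order `≥ ν (V l) + m ν (e j)`.
* Gauss: let `P = lead ∏ (T - e)` (roots with multiplicities), `γ = ν (lead) + ∑ mult_j min (0, ν (e j))`.  If all coefficients of `P` have order `≥ g` then `γ ≥ g` (`sc_gauss`: divide by one linear factor after the other, `sc_div`).  So `γ ≥ ν (X c)`, and `γ ≤ ν (lead)`.
  With `R_eq_prod`: `ν (R) = m ν (lead) + ∑ mult_j ν (F j) = m γ + ∑ mult_j (a_j + ν (V l))`, `∑ mult_j = D`, so `ν (R) - m ν (X c) - D ν (V l) = m (γ - ν (X c)) + ∑ mult_j a_j`, all terms `≥ 0`, `1 ≤ mult_j ≤ D`.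
-/

set_option autoImplicit false

open MvPolynomial
open Pool.Agent.H23 (RatForm PrimeDivisorOver)
open Pool.Agent.LG (dd wd IV FV)

noncomputable section

namespace Pool.Agent.LT

variable {K : Type} [Field K] [Algebra ℂ K] {ι : Type} {k n m D r : ℕ}
variable {K' : Type} [Field K'] [Algebra K K'] [Algebra ℂ K'] [IsScalarTower ℂ K K']

section Val

variable {L : Type} [Field L] [Algebra ℂ L] {ν : L → ℤ}

/-- the order of `x` is at least `g` -/
private def Ge (ν : L → ℤ) (g : ℤ) (x : L) : Prop := x = 0 ∨ g ≤ ν x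

omit [Algebra ℂ L] in
private theorem ge_mono {g g' : ℤ} {x : L} (h : Ge ν g x) (hg : g' ≤ g) : Ge ν g' x :=
  h.imp id fun h => hg.trans h

private theorem ge_add (hν : IV L ν) {g : ℤ} {x y : L} (hx : Ge ν g x) (hy : Ge ν g y) : Ge ν g (x + y) := by
  by_cases hx0 : x = 0
  · rwa [hx0, zero_add]
  by_cases hy0 : y = 0
  · rwa [hy0, add_zero]
  by_cases h : x + y = 0
  · exact Or.inl h
  · exact Or.inr ((le_min (hx.resolve_left hx0) (hy.resolve_left hy0)).trans (hν.add hx0 hy0 h))

private theorem ge_sum (hν : IV L ν) {g : ℤ} {σ : Type} (s : Finset σ) (f : σ → L) (h : ∀ i ∈ s, Ge ν g (f i)) : Ge ν g (∑ i ∈ s, f i) := by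
  classical
  induction s using Finset.induction_on with
  | empty => exact Or.inl Finset.sum_empty
  | insert a s ha ih =>
    rw [Finset.sum_insert ha]
    exact ge_add hν (h a (Finset.mem_insert_self _ _)) (ih fun i hi => h i (Finset.mem_insert_of_mem hi))

private theorem ge_mul (hν : IV L ν) {g g' : ℤ} {x y : L} (hx : Ge ν g x) (hy : Ge ν g' y) : Ge ν (g + g') (x * y) := by
  by_cases hx0 : x = 0
  · exact Or.inl (by rw [hx0, zero_mul])
  by_cases hy0 : y = 0
  · exact Or.inl (by rw [hy0, mul_zero])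
  · refine Or.inr ?_
    rw [hν.mul hx0 hy0]
    exact add_le_add (hx.resolve_left hx0) (hy.resolve_left hy0)

private theorem sc_one (hν : IV L ν) : ν 1 = 0 := by
  simpa using hν.const 1 one_ne_zero

private theorem sc_neg_one (hν : IV L ν) : ν (-1) = 0 := by
  simpa using hν.const (-1) (by simp)

private theorem ge_neg (hν : IV L ν) {g : ℤ} {x : L} (hx : Ge ν g x) : Ge ν g (-x) := by
  have h := ge_mul hν (show Ge ν 0 (-1 : L) from Or.inr (sc_neg_one hν).ge) hx
  rwa [zero_add, neg_one_mul] at h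

private theorem sc_inv (hν : IV L ν) {a : L} (ha : a ≠ 0) : ν a⁻¹ = - ν a := by
  have h1 := hν.mul ha (inv_ne_zero ha)
  rw [mul_inv_cancel₀ ha, sc_one hν] at h1
  linarith

private theorem sc_pow (hν : IV L ν) {a : L} (ha : a ≠ 0) (q : ℕ) : ν (a ^ q) = q * ν a := by
  induction q with
  | zero => simp [sc_one hν]
  | succ q ih =>
    rw [pow_succ, hν.mul (pow_ne_zero q ha) ha, ih]
    push_cast
    ring

private theorem sc_prod (hν : IV L ν) {σ : Type} (s : Finset σ) (f : σ → L) (h : ∀ i ∈ s, f i ≠ 0) : ν (∏ i ∈ s, f i) = ∑ i ∈ s, ν (f i) := by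
  classical
  induction s using Finset.induction_on with
  | empty => rw [Finset.prod_empty, Finset.sum_empty, sc_one hν]
  | insert a s ha ih =>
    rw [Finset.prod_insert ha, Finset.sum_insert ha, hν.mul (h a (Finset.mem_insert_self _ _))
      (Finset.prod_ne_zero_iff.2 fun i hi => h i (Finset.mem_insert_of_mem hi)), ih fun i hi => h i (Finset.mem_insert_of_mem hi)]

open Classical in
/-- `min (0, ν a)`, and `0` for `a = 0` -/
private def mu (ν : L → ℤ) (a : L) : ℤ := if a ≠ 0 ∧ ν a < 0 then ν a else 0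

omit [Algebra ℂ L] in
private theorem mu_le (a : L) : mu ν a ≤ 0 := by
  unfold mu
  split_ifs with h
  · exact h.2.le
  · exact le_rfl

/-- division by a linear factor -/
private theorem sc_div (hν : IV L ν) {g : ℤ} {a : L} {Q : Polynomial L} (h : ∀ i, Ge ν g ((Q * (Polynomial.X - Polynomial.C a)).coeff i)) :
    ∀ i, Ge ν (g - mu ν a) (Q.coeff i) := by
  by_cases ha : a ≠ 0 ∧ ν a < 0
  · have hmu : mu ν a = ν a := by
      unfold mu
      rw [if_pos ha]
    rw [hmu]
    have hia : Ge ν (-ν a) a⁻¹ := Or.inr (sc_inv hν ha.1).ge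
    intro i
    induction i with
    | zero =>
      have h0 := h 0
      rw [Polynomial.mul_coeff_zero, Polynomial.coeff_sub, Polynomial.coeff_X_zero, Polynomial.coeff_C_zero, zero_sub] at h0
      have h1 := ge_mul hν (ge_neg hν h0) hia
      have h2 : -(Q.coeff 0 * -a) * a⁻¹ = Q.coeff 0 := by
        have := ha.1
        field_simp
      rw [h2] at h1
      exact ge_mono h1 (by linarith)
    | succ i ih =>
      have h0 := h (i + 1)
      rw [Polynomial.coeff_mul_X_sub_C] at h0
      have h1 := ge_mul hν (ge_add hν (ge_mono ih (by linarith [ha.2] : g ≤ g - ν a)) (ge_neg hν h0)) hia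
      have h2 : (Q.coeff i + -(Q.coeff i - Q.coeff (i + 1) * a)) * a⁻¹ = Q.coeff (i + 1) := by
        have := ha.1
        field_simp
        ring
      rw [h2] at h1
      exact ge_mono h1 (by linarith)
  · have hmu : mu ν a = 0 := by
      unfold mu
      rw [if_neg ha]
    rw [hmu, sub_zero]
    have ha' : Ge ν 0 a := by
      by_cases h0 : a = 0
      · exact Or.inl h0
      · refine Or.inr ?_
        by_contra hcon
        exact ha ⟨h0, by omega⟩
    have key : ∀ q i : ℕ, Q.natDegree + 1 ≤ i + q → Ge ν g (Q.coeff i) := by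
      intro q
      induction q with
      | zero =>
        intro i hi
        exact Or.inl (Polynomial.coeff_eq_zero_of_natDegree_lt (by omega))
      | succ q ih =>
        intro i hi
        have h0 := h (i + 1)
        rw [Polynomial.coeff_mul_X_sub_C] at h0
        have h1 := ge_mul hν (ih (i + 1) (by omega)) ha'
        rw [add_zero] at h1
        have h2 := ge_add hν h0 h1
        rwa [sub_add_cancel] at h2
    exact fun i => key (Q.natDegree + 1) i (by omega)

/-- the order of the leading coefficient -/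
private theorem sc_gauss (hν : IV L ν) (s : Multiset L) {c : L} : ∀ {g : ℤ}, (∀ i, Ge ν g ((Polynomial.C c * (s.map fun a => Polynomial.X - Polynomial.C a).prod).coeff i)) →
    Ge ν (g - (s.map (mu ν)).sum) c := by
  induction s using Multiset.induction_on with
  | empty =>
    intro g h
    have h0 := h 0
    simpa using h0
  | cons a s ih =>
    intro g h
    have h1 : Polynomial.C c * ((a ::ₘ s).map fun a => Polynomial.X - Polynomial.C a).prod =
        (Polynomial.C c * (s.map fun a => Polynomial.X - Polynomial.C a).prod) * (Polynomial.X - Polynomial.C a) := by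
      rw [Multiset.map_cons, Multiset.prod_cons]
      ring
    rw [h1] at h
    have h2 := ih (sc_div hν h)
    rw [Multiset.map_cons, Multiset.sum_cons]
    exact ge_mono h2 (by linarith)

end Val

/-- the order of the local generator -/
private theorem sc_Y (S : Dt K ι n m D) (e : Fin r → K') {ν : K' → ℤ} (hν : IV K' ν) (j : Fin r) :
    (S.up e).Y j (zc ν e j) ≠ 0 ∧ ν ((S.up e).Y j (zc ν e j)) = m * mu ν (e j) := by
  classical
  change (if zc ν e j then e j ^ m else 1) ≠ 0 ∧ ν (if zc ν e j then e j ^ m else 1) = m * mu ν (e j)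
  by_cases h : e j ≠ 0 ∧ ν (e j) < 0
  · have hz : zc ν e j = true := by
      unfold zc
      exact decide_eq_true h
    have hm : mu ν (e j) = ν (e j) := by
      unfold mu
      exact if_pos h
    rw [if_pos hz, hm]
    exact ⟨pow_ne_zero _ h.1, sc_pow hν h.1 m⟩
  · have hz : ¬ zc ν e j = true := by
      unfold zc
      intro hcon
      exact h (of_decide_eq_true hcon)
    have hm : mu ν (e j) = 0 := by
      unfold mu
      exact if_neg h
    rw [if_neg hz, hm]
    exact ⟨one_ne_zero, by rw [sc_one hν, mul_zero]⟩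

/-- the order of `F j` -/
private theorem sc_F {S : Dt K ι n m D} (hS : S.Base) {e : Fin r → K'} (he : S.IsRoots e) {ν : K' → ℤ} (hν : IV K' ν) {l : Fin (m + 1)}
    (hl : ∀ l', S.V l' ≠ 0 → ν (algebraMap K K' (S.V l)) ≤ ν (algebraMap K K' (S.V l'))) (j : Fin r) :
    m * mu ν (e j) + ν (algebraMap K K' (S.V l)) ≤ ν ((S.up e).F j) := by
  have h1 : Ge ν (m * mu ν (e j) + ν (algebraMap K K' (S.V l))) ((S.up e).F j) := by
    change Ge ν _ (∑ l' : Fin (m + 1), algebraMap K K' (S.V l') * e j ^ (l' : ℕ))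
    refine ge_sum hν _ _ fun l' _ => ?_
    rw [mul_comm (algebraMap K K' (S.V l'))]
    refine ge_mul hν ?_ ?_
    · by_cases h0 : e j ^ (l' : ℕ) = 0
      · exact Or.inl h0
      refine Or.inr ?_
      have hl' : (l' : ℕ) ≤ m := Nat.lt_succ_iff.1 l'.2
      by_cases h2 : e j = 0
      · rw [h2] at h0 ⊢
        have h3 : (l' : ℕ) = 0 := by
          by_contra hcon
          exact h0 (zero_pow hcon)
        rw [h3, pow_zero, sc_one hν]
        exact mul_nonpos_of_nonneg_of_nonpos (Nat.cast_nonneg m) (mu_le _)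
      · rw [sc_pow hν h2]
        unfold mu
        split_ifs with h3
        · have h4 : ((l' : ℕ) : ℤ) ≤ m := by exact_mod_cast hl'
          nlinarith [h3.2]
        · rw [mul_zero]
          refine mul_nonneg (Nat.cast_nonneg _) ?_
          by_contra hcon
          exact h3 ⟨h2, by omega⟩
    · by_cases h0 : S.V l' = 0
      · exact Or.inl (by rw [h0, map_zero])
      · exact Or.inr (hl l' h0)
  exact h1.resolve_left (F_ne S hS he j)

theorem ch_up [Fintype ι] {S : Dt K ι n m D} (hS : S.Base) [Algebra.IsAlgebraic K K'] {e : Fin r → K'} (he : S.IsRoots e) {v : K → ℤ} {ν : K' → ℤ} {b : ℤ} (hb : 1 ≤ b) (hν : IV K' ν) (hνv : ∀ a, a ≠ 0 → ν (algebraMap K K' a) = b * v a)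
    {c : ι} {l : Fin (m + 1)} (hc : S.Chart v c l) : LH.CH (S.up e) 1 ν c l (zc ν e) := by
  have hinj : ∀ a : K, algebraMap K K' a ≠ 0 ↔ a ≠ 0 := fun a => map_ne_zero (algebraMap K K')
  have hle : ∀ x y : K, x ≠ 0 → y ≠ 0 → v x ≤ v y → ν (algebraMap K K' x) ≤ ν (algebraMap K K' y) := fun x y hx hy h => by
    rw [hνv x hx, hνv y hy]
    exact mul_le_mul_of_nonneg_left h (by omega)
  refine ⟨(hinj _).2 hc.Xne, ?_, (hinj _).2 hc.Vne, ?_, ?_, ?_, ?_⟩
  · intro b' hb'
    exact hle _ _ hc.Xne ((hinj _).1 hb') (hc.Xle b' ((hinj _).1 hb'))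
  · intro l' hl'
    exact hle _ _ hc.Vne ((hinj _).1 hl') (hc.Vle l' ((hinj _).1 hl'))
  · exact fun j => (sc_Y S e hν j).1
  · intro j
    rw [(sc_Y S e hν j).2, Nat.cast_one, one_mul]
    exact sc_F hS he hν (fun l' hl' => hle _ _ hc.Vne hl' (hc.Vle l' hl')) j
  · obtain ⟨M, hM, hδ⟩ := hc.mat
    refine ⟨fun i b' => algebraMap K K' (M i b'), fun i b' h => ?_, fun i => ?_⟩
    · rw [hνv _ ((hinj _).1 h)]
      exact mul_nonneg (by omega) (hM i b' ((hinj _).1 h))
    · change KaehlerDifferential.map ℂ ℂ K K' (S.δ i) = _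
      rw [hδ i, map_sum]
      refine Finset.sum_congr rfl fun b' _ => ?_
      rw [map_smul, ← algebraMap_smul K']
      congr 1
      change KaehlerDifferential.map ℂ ℂ K K' (KaehlerDifferential.D ℂ K (S.X b' / S.X c)) = _
      rw [KaehlerDifferential.map_D, map_div₀]
      rfl

/-- the order of the resultant -/
private theorem sc_R {S : Dt K ι n m D} (hS : S.Base) {e : Fin r → K'} (he : S.IsRoots e) {v : K → ℤ} {ν : K' → ℤ} {b : ℤ} (hν : IV K' ν) (hνv : ∀ a, a ≠ 0 → ν (algebraMap K K' a) = b * v a) :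
    ∃ q : Fin r → ℕ, (∀ j, 1 ≤ q j) ∧ ∑ j, q j = D ∧ b * v S.R = m * ν (algebraMap K K' (S.X (S.cf (Fin.last D)))) + ∑ j, q j * ν ((S.up e).F j) ∧
      ∀ g : ℤ, (∀ b', S.X b' ≠ 0 → g ≤ ν (algebraMap K K' (S.X b'))) → g - ∑ j, q j * mu ν (e j) ≤ ν (algebraMap K K' (S.X (S.cf (Fin.last D)))) := by
  classical
  have hP' : S.P.map (algebraMap K K') ≠ 0 :=
    (Polynomial.map_ne_zero_iff (algebraMap K K').injective).2 (P_ne S hS)
  have hlead : S.X (S.cf (Fin.last D)) ≠ 0 := by
    rw [← lead_eq S hS]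
    exact Polynomial.leadingCoeff_ne_zero.2 (P_ne S hS)
  have hlead' : algebraMap K K' (S.X (S.cf (Fin.last D))) ≠ 0 := (map_ne_zero (algebraMap K K')).2 hlead
  have hroots : (S.P.map (algebraMap K K')).roots.toFinset = Finset.univ.image e := by
    ext a
    rw [Multiset.mem_toFinset, Polynomial.mem_roots hP', he.root, Finset.mem_image]
    exact ⟨fun ⟨j, hj⟩ => ⟨j, Finset.mem_univ _, hj⟩, fun ⟨j, _, hj⟩ => ⟨j, hj⟩⟩
  refine ⟨fun j => (S.P.map (algebraMap K K')).rootMultiplicity (e j), ?_, ?_, ?_, ?_⟩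
  · intro j
    exact (Polynomial.rootMultiplicity_pos hP').2 ((he.root _).2 ⟨j, rfl⟩)
  · have h1 := Multiset.toFinset_sum_count_eq (S.P.map (algebraMap K K')).roots
    rw [hroots, Finset.sum_image fun _ _ _ _ h => he.inj h, ← he.splits.natDegree_eq_card_roots, Polynomial.natDegree_map, hS.deg] at h1
    exact (Finset.sum_congr rfl fun j _ => (Polynomial.count_roots _).symm).trans h1
  · rw [← hνv _ hS.R_ne, R_eq_prod S hS he, hν.mul (pow_ne_zero _ hlead') (Finset.prod_ne_zero_iff.2 fun j _ => pow_ne_zero _ (F_ne S hS he j)),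
      sc_pow hν hlead', sc_prod hν _ _ fun j _ => pow_ne_zero _ (F_ne S hS he j)]
    congr 1
    exact Finset.sum_congr rfl fun j _ => sc_pow hν (F_ne S hS he j) _
  · intro g hg
    have h1 := he.splits.eq_prod_roots
    have h2 : ∀ i, Ge ν g ((S.P.map (algebraMap K K')).coeff i) := by
      intro i
      rw [Polynomial.coeff_map, Dt.P, Polynomial.finsetSum_coeff, map_sum]
      refine ge_sum hν _ _ fun i' _ => ?_
      rw [Polynomial.coeff_C_mul, Polynomial.coeff_X_pow]
      split_ifs
      · rw [mul_one]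
        by_cases h0 : S.X (S.cf i') = 0
        · exact Or.inl (by rw [h0, map_zero])
        · exact Or.inr (hg _ h0)
      · exact Or.inl (by rw [mul_zero, map_zero])
    rw [h1] at h2
    have h3 := (sc_gauss hν _ h2).resolve_left (Polynomial.leadingCoeff_ne_zero.2 hP')
    rw [Polynomial.leadingCoeff_map, lead_eq S hS, Finset.sum_multiset_map_count, hroots, Finset.sum_image fun _ _ _ _ h => he.inj h] at h3
    have h4 : ∑ j, Multiset.count (e j) (S.P.map (algebraMap K K')).roots • mu ν (e j) =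
        ∑ j, (((S.P.map (algebraMap K K')).rootMultiplicity (e j) : ℕ) : ℤ) * mu ν (e j) :=
      Finset.sum_congr rfl fun j _ => by rw [Polynomial.count_roots, nsmul_eq_mul]
    rwa [h4] at h3

theorem le_R [Fintype ι] {S : Dt K ι n m D} (hS : S.Base) [Algebra.IsAlgebraic K K'] {e : Fin r → K'} (he : S.IsRoots e) {v : K → ℤ} {ν : K' → ℤ} {b : ℤ} (hb : 1 ≤ b) (hν : IV K' ν) (hνv : ∀ a, a ≠ 0 → ν (algebraMap K K' a) = b * v a)
    {c : ι} {l : Fin (m + 1)} (hc : S.Chart v c l) :
    b * (v S.R - m * v (S.X c) - D * v (S.V l)) ≤ m * ν (algebraMap K K' (S.X (S.cf (Fin.last D)) / S.X c)) + D * ∑ j, (ν ((S.up e).F j) - ν ((S.up e).Y j (zc ν e j)) - ν ((S.up e).V l)) := by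
  obtain ⟨q, hq, hqD, hR, -⟩ := sc_R hS he hν hνv
  have hch := ch_up hS he hb hν hνv hc
  have hlead : S.X (S.cf (Fin.last D)) ≠ 0 := by
    rw [← lead_eq S hS]
    exact Polynomial.leadingCoeff_ne_zero.2 (P_ne S hS)
  have hX : ν (algebraMap K K' (S.X (S.cf (Fin.last D)) / S.X c)) = ν (algebraMap K K' (S.X (S.cf (Fin.last D)))) - b * v (S.X c) := by
    rw [div_eq_mul_inv, map_mul, map_inv₀, hν.mul ((map_ne_zero _).2 hlead) (inv_ne_zero ((map_ne_zero _).2 hc.Xne)), sc_inv hν ((map_ne_zero _).2 hc.Xne),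
      hνv _ hc.Xne]
    ring
  have hV : ν ((S.up e).V l) = b * v (S.V l) := hνv _ hc.Vne
  have hqD' : ∑ j, (q j : ℤ) = D := by exact_mod_cast hqD
  have h1 : ∀ j, (q j : ℤ) * ν ((S.up e).F j) ≤ D * (ν ((S.up e).F j) - ν ((S.up e).Y j (zc ν e j)) - ν ((S.up e).V l)) + q j * ν ((S.up e).V l) := by
    intro j
    have h2 := hch.Fle j
    rw [Nat.cast_one, one_mul] at h2
    have h3 := (sc_Y S e hν j).2
    have h4 : ν ((S.up e).Y j (zc ν e j)) ≤ 0 := by
      rw [h3]
      exact mul_nonpos_of_nonneg_of_nonpos (Nat.cast_nonneg m) (mu_le _)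
    have h5 : (q j : ℤ) ≤ D := by
      rw [← hqD']
      exact Finset.single_le_sum (f := fun j => (q j : ℤ)) (fun i _ => Nat.cast_nonneg _) (Finset.mem_univ j)
    have h6 : (0 : ℤ) ≤ q j := Nat.cast_nonneg _
    have h7 : (q j : ℤ) * (ν ((S.up e).F j) - ν ((S.up e).Y j (zc ν e j)) - ν ((S.up e).V l)) ≤
        D * (ν ((S.up e).F j) - ν ((S.up e).Y j (zc ν e j)) - ν ((S.up e).V l)) :=
      mul_le_mul_of_nonneg_right h5 (by linarith)
    have h8 : (q j : ℤ) * ν ((S.up e).Y j (zc ν e j)) ≤ 0 := mul_nonpos_of_nonneg_of_nonpos h6 h4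
    linarith
  have h9 := Finset.sum_le_sum fun j (_ : j ∈ Finset.univ) => h1 j
  rw [Finset.sum_add_distrib, ← Finset.mul_sum, ← Finset.sum_mul, hqD'] at h9
  rw [hX, mul_sub, mul_sub, hR]
  rw [hV] at h9 ⊢
  linarith

theorem off_R [Fintype ι] {S : Dt K ι n m D} (hS : S.Base) [Algebra.IsAlgebraic K K'] {e : Fin r → K'} (he : S.IsRoots e) {v : K → ℤ} {ν : K' → ℤ} {b : ℤ} (hb : 1 ≤ b) (hν : IV K' ν) (hνv : ∀ a, a ≠ 0 → ν (algebraMap K K' a) = b * v a)
    {c : ι} {l : Fin (m + 1)} (hc : S.Chart v c l) (h : v S.R = m * v (S.X c) + D * v (S.V l)) (j : Fin r) : ν ((S.up e).F j) = ν ((S.up e).Y j (zc ν e j)) + ν ((S.up e).V l) := by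
  obtain ⟨q, hq, hqD, hR, hG⟩ := sc_R hS he hν hνv
  have hch := ch_up hS he hb hν hνv hc
  have hV : ν ((S.up e).V l) = b * v (S.V l) := hνv _ hc.Vne
  have hqD' : ∑ j, (q j : ℤ) = D := by exact_mod_cast hqD
  have h1 := hG (b * v (S.X c)) fun b' hb' => by
    rw [hνv _ hb']
    exact mul_le_mul_of_nonneg_left (hc.Xle b' hb') (by omega)
  have h2 : ∀ j, 0 ≤ (q j : ℤ) * (ν ((S.up e).F j) - m * mu ν (e j) - ν ((S.up e).V l)) := by
    intro j
    have h3 := hch.Fle j
    rw [Nat.cast_one, one_mul, (sc_Y S e hν j).2] at h3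
    exact mul_nonneg (Nat.cast_nonneg _) (by linarith)
  have h3 : ∑ j, (q j : ℤ) * (ν ((S.up e).F j) - m * mu ν (e j) - ν ((S.up e).V l)) ≤ 0 := by
    have h4 : ∑ j, (q j : ℤ) * (ν ((S.up e).F j) - m * mu ν (e j) - ν ((S.up e).V l)) =
        ∑ j, (q j : ℤ) * ν ((S.up e).F j) - m * ∑ j, (q j : ℤ) * mu ν (e j) - D * ν ((S.up e).V l) := by
      rw [← hqD', Finset.sum_mul, Finset.mul_sum, ← Finset.sum_sub_distrib, ← Finset.sum_sub_distrib]
      exact Finset.sum_congr rfl fun j _ => by ring
    rw [h4, hV]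
    have h5 : (m : ℤ) * (b * v (S.X c) - ∑ j, (q j : ℤ) * mu ν (e j)) ≤ m * ν (algebraMap K K' (S.X (S.cf (Fin.last D)))) :=
      mul_le_mul_of_nonneg_left h1 (Nat.cast_nonneg m)
    rw [h] at hR
    have h6 : b * (m * v (S.X c) + D * v (S.V l)) = m * (b * v (S.X c)) + D * (b * v (S.V l)) := by ring
    rw [h6] at hR
    linarith
  have h7 := Finset.sum_eq_zero_iff_of_nonneg fun j (_ : j ∈ Finset.univ) => h2 j
  have h8 := h7.1 (le_antisymm h3 (Finset.sum_nonneg fun j _ => h2 j)) j (Finset.mem_univ j)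
  have h9 : (q j : ℤ) ≠ 0 := by
    have := hq j
    omega
  rw [(sc_Y S e hν j).2]
  have h10 := (mul_eq_zero.1 h8).resolve_left h9
  linarith

end Pool.Agent.LT

end
end
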