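import Pool.Agent.H94.PX4.M07
import Pool.Agent.H94.PX4.M10
import Pool.Agent.H94.PX4.M11

/-! The parts of this file: LG.Al1, LT.Ga, LG.Ty, LG.Co. -/

section

/-!
# LG Al1: a transcendence basis adapted to a subfield

`S ⊆ K`, and `K` is not algebraic over `K₀ = ℂ(S)`.  A transcendence basis of `K₀` over `ℂ` (finite, `trdeg K = n`), extended to a transcendence basis `s : Fin n → K` of `K` (`exists_isTranscendenceBasis_superset` or similar) has at least one more element `s j`.  In characteristic `0` the `d (s i)` are a basis of `Ω` (search for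
`exists_basis_kaehler` in `Pool/Agent/H17LG`, `H23`, `H17GT`).  The derivation `dualDer b j` is `0` on `ℂ(s_i, i ≠ j)` (`dualDer_coord`) and on the elements which are algebraic over it (apply the derivation to the minimal polynomial, characteristic `0`), so on `S`.
-/

set_option autoImplicit false

open MvPolynomial

noncomputable section

namespace Pool.Agent.LG

variable {K : Type} [Field K] [Algebra ℂ K] {n : ℕ}

/-- the field of constants of a derivation -/
private def kerF (D : Derivation ℂ K K) : IntermediateField ℂ K where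
  carrier := {x | D x = 0}
  mul_mem' := by
    intro a b ha hb
    have ha' : D a = 0 := ha
    have hb' : D b = 0 := hb
    show D (a * b) = 0
    rw [D.leibniz, ha', hb', smul_zero, smul_zero, add_zero]
  add_mem' := by
    intro a b ha hb
    have ha' : D a = 0 := ha
    have hb' : D b = 0 := hb
    show D (a + b) = 0
    rw [map_add, ha', hb', add_zero]
  algebraMap_mem' := fun c => D.map_algebraMap c
  inv_mem' := by
    intro x hx
    have hx' : D x = 0 := hx
    show D x⁻¹ = 0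
    rw [D.leibniz_inv, hx', smul_zero]

/-- the derivation over its field of constants -/
private def overC (D : Derivation ℂ K K) : Derivation (kerF D) K K :=
  Derivation.mk'
    { toFun := D
      map_add' := D.map_add
      map_smul' := by
        intro c x
        have hc : D (c : K) = 0 := c.2
        rw [IntermediateField.smul_def, smul_eq_mul, D.leibniz, hc, smul_zero, add_zero]
        rfl }
    (fun a b => D.leibniz a b)

private lemma der_eq_zero (D : Derivation ℂ K K) {f : K} (hf : IsAlgebraic (kerF D) f) : D f = 0 := by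
  have hi : IsIntegral (kerF D) f := hf.isIntegral
  have hs : (minpoly (kerF D) f).Separable := (minpoly.irreducible hi).separable
  have h1 := (overC D).map_aeval (minpoly (kerF D) f) f
  rw [minpoly.aeval, map_zero] at h1
  have h2 : Polynomial.aeval f (Polynomial.derivative (minpoly (kerF D) f)) ≠ 0 :=
    hs.aeval_derivative_ne_zero (minpoly.aeval _ _)
  have h3 := (smul_eq_zero.1 h1.symm).resolve_left h2
  exact h3

/-- a derivation which is zero on `I` is zero on the elements which are algebraic over `ℂ[I]` -/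
private lemma der_eq_zero_of_adjoin (D : Derivation ℂ K K) {I : Set K} (hI : ∀ x ∈ I, D x = 0) {f : K}
    (hf : IsAlgebraic (Algebra.adjoin ℂ I) f) : D f = 0 := by
  apply der_eq_zero
  obtain ⟨p, hp, hpf⟩ := hf
  have hle : Algebra.adjoin ℂ I ≤ (kerF D).toSubalgebra := Algebra.adjoin_le fun x hx => hI x hx
  refine ⟨p.map (Subalgebra.inclusion hle).toRingHom, ?_, ?_⟩
  · rw [Ne, Polynomial.map_eq_zero_iff]
    · exact hp
    · exact Subalgebra.inclusion_injective hle
  · rw [Polynomial.aeval_def, Polynomial.eval₂_map]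
    exact hpf

/-- a transcendence basis with an element which is not needed for `S` -/
private lemma exists_set (S : Set K) (h : ¬ Algebra.IsAlgebraic (IntermediateField.adjoin ℂ S) K) :
    ∃ (I B : Set K) (t : K), I ⊆ B ∧ t ∈ B ∧ t ∉ I ∧ IsTranscendenceBasis ℂ ((↑) : B → K) ∧
      ∀ f ∈ S, IsAlgebraic (Algebra.adjoin ℂ I) f := by
  obtain ⟨I, hI⟩ := (AlgebraicIndependent.matroid ℂ K).exists_isBasis S
  obtain ⟨B, hB, hIB⟩ := hI.indep.exists_isBase_superset
  have hI' := AlgebraicIndependent.matroid_isBasis_iff.1 hI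
  have hB' := AlgebraicIndependent.matroid_isBase_iff.1 hB
  have hne : ¬ B ⊆ I := by
    intro hBI
    apply h
    have hBS : B ⊆ S := hBI.trans hI'.2.1
    have h1 : Algebra.IsAlgebraic (Algebra.adjoin ℂ S) K :=
      isAlgebraic_iff_exists_isTranscendenceBasis_subset.2 ⟨B, hBS, hB'⟩
    refine ⟨fun x => ?_⟩
    obtain ⟨p, hp, hpx⟩ := h1.isAlgebraic x
    have hle : Algebra.adjoin ℂ S ≤ (IntermediateField.adjoin ℂ S).toSubalgebra :=
      IntermediateField.algebra_adjoin_le_adjoin ℂ S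
    refine ⟨p.map (Subalgebra.inclusion hle).toRingHom, ?_, ?_⟩
    · rw [Ne, Polynomial.map_eq_zero_iff]
      · exact hp
      · exact Subalgebra.inclusion_injective hle
    · rw [Polynomial.aeval_def, Polynomial.eval₂_map]
      exact hpx
  obtain ⟨t, htB, htI⟩ := Set.not_subset.1 hne
  exact ⟨I, B, t, hIB, htB, htI, hB', hI'.2.2⟩

/-- if `K` is not algebraic over `ℂ(S)`, there is a transcendence basis with an element which is not needed for `S` -/
theorem exists_basis_of_not_algebraic [Algebra.EssFiniteType ℂ K] {z : Fin n → K} (hz : IsTranscendenceBasis ℂ z) (S : Set K) (h : ¬ Algebra.IsAlgebraic (IntermediateField.adjoin ℂ S) K) :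
    ∃ (s : Fin n → K) (b : Module.Basis (Fin n) K Ω[K⁄ℂ]) (j : Fin n), IsTranscendenceBasis ℂ s ∧ (∀ i, b i = dd (s i)) ∧ ∀ f ∈ S, Pool.Agent.H23.dualDer b j f = 0 := by
  classical
  obtain ⟨I, B, t, hIB, htB, htI, hB, hS⟩ := exists_set S h
  have hcard := hz.lift_cardinalMk_eq hB
  rw [Cardinal.lift_id, Cardinal.lift_id] at hcard
  obtain ⟨e⟩ := Cardinal.eq.1 hcard
  have hs : IsTranscendenceBasis ℂ (fun i => ((e i : B) : K)) := hB.comp_equiv e
  obtain ⟨b, hb⟩ := Pool.Agent.H23.exists_basis_kaehler hs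
  refine ⟨fun i => ((e i : B) : K), b, e.symm ⟨t, htB⟩, hs, hb, fun f hf => ?_⟩
  refine der_eq_zero_of_adjoin _ (I := I) (fun x hx => ?_) (hS f hf)
  have hx' : x = ((e (e.symm ⟨x, hIB hx⟩) : B) : K) := by
    rw [Equiv.apply_symm_apply]
  have hc := Pool.Agent.H23.dualDer_coord b hb (e.symm ⟨t, htB⟩) (e.symm ⟨x, hIB hx⟩)
  rw [← hx'] at hc
  rw [hc, if_neg]
  intro heq
  have h2 := congrArg Subtype.val (e.symm.injective heq)
  apply htI
  have h3 : t = x := h2
  rw [h3]
  exact hx

end Pool.Agent.LG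

end
end

section

/-!
# LT Ga: the product of the forms is defined over `K`

`b` is the basis of `Ω_K'` given by a transcendence basis `z` of `K`; `fc b (W J i₀ I) = det` of the coordinates.  `σ ∈ Gal (K' / K)`: the dual derivations `dualDer b i` of `K'` commute with `σ` (`σ ∘ D ∘ σ⁻¹` is a derivation which agrees with `D` on `K`; `K' / K` is separable algebraic, so they are equal: a derivation is determined by
its values at the `z i`).  The coordinates of `δ` (in the image of `Ω_K`) are in `K`; `σ (F j) = F (π j)` where `σ (e j) = e (π j)` (`π` a permutation of `Fin r`).  So `σ (fc b (W J i₀ I)) = fc b (W J (π i₀) (π ∘ I))`, the product over all `(i₀, I)` with `W ≠ 0` is invariant, so it is in `K` (`IsGalois.mem_bot_iff_fixed` or similar).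
-/

set_option autoImplicit false

open MvPolynomial
open Pool.Agent.H23 (RatForm PrimeDivisorOver fc dualDer)
open Pool.Agent.LG (dd wd IV FV)

noncomputable section

namespace Pool.Agent.LT

variable {K : Type} [Field K] [Algebra ℂ K] {ι : Type} {k n m D r p f : ℕ}
variable {K' : Type} [Field K'] [Algebra K K'] [Algebra ℂ K'] [IsScalarTower ℂ K K']

open Classical in
/-- the pairs `(i₀, I)` with `W J i₀ I ≠ 0` -/
def pairs (S' : LH.Dat K' ι Bool n m r) (J : Fin p → Fin n) : Finset (Fin r × (Fin f → Fin r)) := Finset.univ.filter fun q => S'.W J q.1 q.2 ≠ 0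

/-- the derivation `σ⁻¹ ∘ D ∘ σ` -/
private def conjDer (σ : K' ≃ₐ[K] K') (d : Derivation ℂ K' K') : Derivation ℂ K' K' :=
  Derivation.mk' ((σ.symm.toLinearMap.restrictScalars ℂ).comp
    ((d : K' →ₗ[ℂ] K').comp (σ.toLinearMap.restrictScalars ℂ))) (by
    intro a b
    change σ.symm (d (σ (a * b))) = a • σ.symm (d (σ b)) + b • σ.symm (d (σ a))
    rw [map_mul, Derivation.leibniz, map_add, smul_eq_mul, smul_eq_mul, smul_eq_mul, smul_eq_mul,
      map_mul, map_mul, AlgEquiv.symm_apply_apply, AlgEquiv.symm_apply_apply])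

private theorem conjDer_apply (σ : K' ≃ₐ[K] K') (d : Derivation ℂ K' K') (a : K') :
    conjDer σ d a = σ.symm (d (σ a)) := rfl

/-- a derivation is determined by its values at the elements whose differentials are a basis -/
private theorem der_ext {N : ℕ} (b : Module.Basis (Fin N) K' Ω[K'⁄ℂ]) {a : Fin N → K'}
    (hb : ∀ i, b i = dd (a i)) {d d' : Derivation ℂ K' K'} (h : ∀ i, d (a i) = d' (a i)) :
    d = d' := by
  have h1 : d.liftKaehlerDifferential = d'.liftKaehlerDifferential := by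
    apply b.ext
    intro i
    rw [hb i]
    change d.liftKaehlerDifferential (KaehlerDifferential.D ℂ K' (a i)) =
      d'.liftKaehlerDifferential (KaehlerDifferential.D ℂ K' (a i))
    rw [Derivation.liftKaehlerDifferential_comp_D, Derivation.liftKaehlerDifferential_comp_D, h i]
  ext x
  rw [← Derivation.liftKaehlerDifferential_comp_D d x, h1,
    Derivation.liftKaehlerDifferential_comp_D]

/-- the dual derivations commute with `σ` -/
private theorem dual_comm {N : ℕ} {z : Fin N → K} (b : Module.Basis (Fin N) K' Ω[K'⁄ℂ])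
    (hb : ∀ i, b i = dd (algebraMap K K' (z i))) (σ : K' ≃ₐ[K] K') (i : Fin N) (a : K') :
    σ (dualDer b i a) = dualDer b i (σ a) := by
  have h : conjDer σ (dualDer b i) = dualDer b i := by
    apply der_ext b hb
    intro j
    rw [conjDer_apply, AlgEquiv.commutes,
      Pool.Agent.H23.dualDer_coord b (a := fun i => algebraMap K K' (z i)) hb i j]
    split_ifs
    · exact map_one _
    · exact map_zero _
  have h1 : conjDer σ (dualDer b i) a = dualDer b i a := by rw [h]
  rw [conjDer_apply] at h1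
  rw [← h1, AlgEquiv.apply_symm_apply]

/-- the coordinates of a differential of `K` are fixed -/
private theorem repr_map {N : ℕ} {z : Fin N → K} (b : Module.Basis (Fin N) K' Ω[K'⁄ℂ])
    (hb : ∀ i, b i = dd (algebraMap K K' (z i))) (σ : K' ≃ₐ[K] K') (i : Fin N) (η : Ω[K⁄ℂ]) :
    σ (b.repr (KaehlerDifferential.map ℂ ℂ K K' η) i) =
      b.repr (KaehlerDifferential.map ℂ ℂ K K' η) i := by
  have hη : η ∈ Submodule.span K (Set.range (KaehlerDifferential.D ℂ K)) := by
    rw [KaehlerDifferential.span_range_derivation]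
    trivial
  induction hη using Submodule.span_induction with
  | mem x hx =>
    obtain ⟨y, rfl⟩ := hx
    rw [KaehlerDifferential.map_D]
    have h := dual_comm b hb σ i (algebraMap K K' y)
    rw [AlgEquiv.commutes] at h
    exact h
  | zero => rw [map_zero, map_zero, Finsupp.zero_apply, map_zero]
  | add x y _ _ hx hy =>
    rw [map_add, map_add, Finsupp.add_apply, map_add, hx, hy]
  | smul c x _ hx =>
    rw [map_smul, ← algebraMap_smul K' c, map_smul, Finsupp.smul_apply, smul_eq_mul, map_mul, hx,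
      AlgEquiv.commutes]

private theorem repr_dlog {N : ℕ} (b : Module.Basis (Fin N) K' Ω[K'⁄ℂ]) (i : Fin N) (a : K') :
    b.repr (LH.dlog a) i = a⁻¹ * dualDer b i a := by
  rw [LH.dlog, map_smul, Finsupp.smul_apply, smul_eq_mul]
  rfl

/-- `σ` permutes the roots -/
private theorem exists_perm (S : Dt K ι n m D) {e : Fin r → K'} (he : S.IsRoots e)
    (σ : K' ≃ₐ[K] K') : ∃ π : Equiv.Perm (Fin r), ∀ j, e (π j) = σ (e j) := by
  have h : ∀ j, ∃ j', e j' = σ (e j) := by
    intro j
    apply (he.root _).1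
    have h1 := (he.root (e j)).2 ⟨j, rfl⟩
    rw [Polynomial.IsRoot.def, Polynomial.eval_map_algebraMap] at h1 ⊢
    have h2 := Polynomial.aeval_algHom_apply σ.toAlgHom (e j) S.P
    change Polynomial.aeval (σ (e j)) S.P = σ (Polynomial.aeval (e j) S.P) at h2
    rw [h2, h1, map_zero]
  choose π hπ using h
  have hinj : Function.Injective π := by
    intro i j hij
    have h1 : σ (e i) = σ (e j) := by rw [← hπ, ← hπ, hij]
    exact he.inj (σ.injective h1)
  exact ⟨Equiv.ofBijective π (Finite.injective_iff_bijective.1 hinj), hπ⟩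

private theorem map_F (S : Dt K ι n m D) {e : Fin r → K'} (σ : K' ≃ₐ[K] K')
    {π : Equiv.Perm (Fin r)} (hπ : ∀ j, e (π j) = σ (e j)) (j : Fin r) :
    σ ((S.up e).F j) = (S.up e).F (π j) := by
  change σ (∑ l : Fin (m + 1), algebraMap K K' (S.V l) * e j ^ (l : ℕ)) =
    ∑ l : Fin (m + 1), algebraMap K K' (S.V l) * e (π j) ^ (l : ℕ)
  rw [map_sum]
  refine Finset.sum_congr rfl fun l _ => ?_
  rw [map_mul, AlgEquiv.commutes, map_pow, hπ]

private theorem map_W {z : Fin (p + f) → K} (b : Module.Basis (Fin (p + f)) K' Ω[K'⁄ℂ])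
    (hb : ∀ i, b i = dd (algebraMap K K' (z i))) (S : Dt K ι n m D) {e : Fin r → K'}
    (σ : K' ≃ₐ[K] K') {π : Equiv.Perm (Fin r)} (hπ : ∀ j, e (π j) = σ (e j)) (J : Fin p → Fin n)
    (i₀ : Fin r) (I : Fin f → Fin r) :
    σ (fc b ((S.up e).W J i₀ I)) = fc b ((S.up e).W J (π i₀) (fun t => π (I t))) := by
  rw [LH.Dat.W, LH.Dat.W, wd, wd, Pool.Agent.H23.fc_ιMulti, Pool.Agent.H23.fc_ιMulti,
    Module.Basis.det_apply, Module.Basis.det_apply]
  have h1 : σ (Matrix.det (b.toMatrix (Fin.append (fun t => (S.up e).δ (J t))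
      (fun t => LH.dlog ((S.up e).F (I t) / (S.up e).F i₀))))) =
      ((b.toMatrix (Fin.append (fun t => (S.up e).δ (J t))
      (fun t => LH.dlog ((S.up e).F (I t) / (S.up e).F i₀)))).map σ).det :=
    RingHom.map_det (σ : K' →+* K') _
  rw [h1]
  congr 1
  ext i j
  rw [Matrix.map_apply, Module.Basis.toMatrix_apply, Module.Basis.toMatrix_apply]
  refine Fin.addCases (fun t => ?_) (fun t => ?_) j
  · rw [Fin.append_left, Fin.append_left]
    exact repr_map b hb σ i (S.δ (J t))
  · rw [Fin.append_right, Fin.append_right, repr_dlog, repr_dlog, map_mul, map_inv₀,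
      dual_comm b hb, map_div₀, map_F S σ hπ, map_F S σ hπ]

private theorem fc_ne {N : ℕ} (b : Module.Basis (Fin N) K' Ω[K'⁄ℂ]) (ω : RatForm K' N) :
    fc b ω ≠ 0 ↔ ω ≠ 0 := by
  constructor
  · intro h h0
    exact h (by rw [h0, map_zero])
  · intro h h0
    apply h
    have h1 := Pool.Agent.H23.eq_fc_smul b ω
    rw [h0, zero_smul] at h1
    exact h1

theorem exists_f₀ [Algebra.EssFiniteType ℂ K] [FiniteDimensional K K'] [IsGalois K K'] {z : Fin (p + f) → K} (hz : IsTranscendenceBasis ℂ z) (b : Module.Basis (Fin (p + f)) K' Ω[K'⁄ℂ]) (hb : ∀ i, b i = dd (algebraMap K K' (z i)))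
    (S : Dt K ι n m D) {e : Fin r → K'} (he : S.IsRoots e) (J : Fin p → Fin n) :
    ∃ f₀ : K, f₀ ≠ 0 ∧ algebraMap K K' f₀ = ∏ q ∈ pairs (f := f) (S.up e) J, fc b ((S.up e).W J q.1 q.2) := by
  classical
  have hfix : ∀ σ : K' ≃ₐ[K] K', σ (∏ q ∈ pairs (f := f) (S.up e) J, fc b ((S.up e).W J q.1 q.2)) =
      ∏ q ∈ pairs (f := f) (S.up e) J, fc b ((S.up e).W J q.1 q.2) := by
    intro σ
    obtain ⟨π, hπ⟩ := exists_perm S he σ
    rw [map_prod]
    have hW := fun q : Fin r × (Fin f → Fin r) => map_W b hb S σ hπ J q.1 q.2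
    refine Finset.prod_bij (fun q _ => (π q.1, fun t => π (q.2 t))) ?_ ?_ ?_ ?_
    · intro q hq
      rw [pairs, Finset.mem_filter] at hq ⊢
      refine ⟨Finset.mem_univ _, (fc_ne b _).1 ?_⟩
      rw [← hW q]
      intro h
      exact (fc_ne b _).2 hq.2 ((map_eq_zero σ).1 h)
    · intro q _ q' _ h
      have h1 := congrArg Prod.fst h
      have h2 := congrArg Prod.snd h
      refine Prod.ext (π.injective h1) (funext fun t => π.injective (congrFun h2 t))
    · intro q hq
      refine ⟨(π.symm q.1, fun t => π.symm (q.2 t)), ?_, ?_⟩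
      · rw [pairs, Finset.mem_filter] at hq ⊢
        refine ⟨Finset.mem_univ _, (fc_ne b _).1 ?_⟩
        intro h
        have h1 := hW (π.symm q.1, fun t => π.symm (q.2 t))
        rw [h, map_zero] at h1
        simp only [Equiv.apply_symm_apply] at h1
        exact (fc_ne b _).2 hq.2 h1.symm
      · simp only [Equiv.apply_symm_apply]
    · intro q _
      exact hW q
  obtain ⟨f₀, hf₀⟩ := (IsGalois.mem_range_algebraMap_iff_fixed _).2 hfix
  refine ⟨f₀, ?_, hf₀⟩
  rintro rfl
  rw [map_zero] at hf₀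
  have h := Finset.prod_eq_zero_iff.1 hf₀.symm
  obtain ⟨q, hq, h1⟩ := h
  rw [pairs, Finset.mem_filter] at hq
  exact (fc_ne b _).2 hq.2 h1

end Pool.Agent.LT

end
end

section

/-!
# LG Ty: theta functions of type `m`

`IsType Λ θ m g`: `g` is entire and `g(y + l) θ_i(y)^m = θ_i(y + l)^m g(y)` for all `l ∈ Λ`, `i`.

* `zero`, `add`, `mul`, `smul`, `pow`, `sum`, `prod`: formal.
* `of_theta`: `θ i (y + l) = e θ i y` with the same `e` for all `i` (`IsThetaForm.quasiPeriodic`).
* `of_poly`: homogeneous polynomials of degree `m` in the `θ i`.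
* `wr`: `wr g h i = g ∂_i h - h ∂_i g` has type `2m`: if `θ_i(y) ≠ 0`, put `e = θ_i(· + l) / θ_i` near `y`; `g(· + l) = e^m g`, `h(· + l) = e^m h` near `y`, and `wr (e^m g) (e^m h) = e^(2m) wr g h`.  If `θ_i(y) = 0` then `θ_i(y + l) = 0`, and for `m ≥ 1`
  both sides are `0`; for `m = 0` the functions `g`, `h` are periodic.
* `wr_add_lattice`: with the common factor `e` at `y` (of `IsThetaForm.quasiPeriodic`) and some `θ_i ≢ 0`; here it is enough to have the following form: if `Θ`, `Θ' b` have type `3` and some `θ_i ≢ 0`, then for `l ∈ Λ` the conditions `Θ y ≠ 0 ∧ det (wr Θ (Θ' j) i y) ≠ 0` at `y` and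
  at `y + l` are equivalent (`Θ(y + l) = E(y) Θ(y)` with an entire function `E` without zeros; take `LG.factor` if it is easier, see `Fa1`).
-/

set_option autoImplicit false

open MvPolynomial Filter Topology
open Pool.Agent.PXF (Cn form IsThetaForm)

noncomputable section

namespace Pool.Agent.LG

variable {κ d : ℕ} {Λ : AddSubgroup (Cn (κ + 1))} {θ : Fin (d + 1) → Cn (κ + 1) → ℂ} {m m' : ℕ} {g h : Cn (κ + 1) → ℂ}

private theorem ty_pd_diff {f : Cn (κ + 1) → ℂ} (hf : Differentiable ℂ f) (i : Fin (κ + 1)) : Differentiable ℂ (pd f i) := by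
  intro y
  have h1 : AnalyticAt ℂ (fderiv ℂ f) y := (an_of_diff hf y).fderiv
  exact (h1.differentiableAt.clm_apply (differentiableAt_const _) : _)

private theorem ty_pd_mul {f f' : Cn (κ + 1) → ℂ} (hf : Differentiable ℂ f) (hf' : Differentiable ℂ f') (i : Fin (κ + 1)) (y : Cn (κ + 1)) :
    pd (fun z => f z * f' z) i y = f y * pd f' i y + f' y * pd f i y := by
  unfold pd
  rw [fderiv_fun_mul (hf y) (hf' y)]
  rfl

private theorem ty_pd_shift {f : Cn (κ + 1) → ℂ} (i : Fin (κ + 1)) (l y : Cn (κ + 1)) :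
    pd (fun z => f (z + l)) i y = pd f i (y + l) := by
  unfold pd
  rw [fderiv_comp_add_right]

theorem IsType.zero : IsType Λ θ m (fun _ => 0) :=
  ⟨differentiable_const _, fun l _ y i => by ring⟩

theorem IsType.add (hg : IsType Λ θ m g) (hh : IsType Λ θ m h) : IsType Λ θ m (fun y => g y + h y) :=
  ⟨hg.1.add hh.1, fun l hl y i => by linear_combination hg.2 l hl y i + hh.2 l hl y i⟩

theorem IsType.smul (c : ℂ) (hg : IsType Λ θ m g) : IsType Λ θ m (fun y => c * g y) :=
  ⟨hg.1.const_mul c, fun l hl y i => by linear_combination c * hg.2 l hl y i⟩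

theorem IsType.mul (hg : IsType Λ θ m g) (hh : IsType Λ θ m' h) : IsType Λ θ (m + m') (fun y => g y * h y) := by
  refine ⟨hg.1.mul hh.1, fun l hl y i => ?_⟩
  have h1 := hg.2 l hl y i
  have h2 := hh.2 l hl y i
  calc g (y + l) * h (y + l) * θ i y ^ (m + m') = (g (y + l) * θ i y ^ m) * (h (y + l) * θ i y ^ m') := by ring
    _ = (θ i (y + l) ^ m * g y) * (θ i (y + l) ^ m' * h y) := by rw [h1, h2]
    _ = θ i (y + l) ^ (m + m') * (g y * h y) := by ring

theorem IsType.pow (hg : IsType Λ θ m g) (r : ℕ) : IsType Λ θ (r * m) (fun y => g y ^ r) := by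
  refine ⟨hg.1.pow r, fun l hl y i => ?_⟩
  have h1 := hg.2 l hl y i
  calc g (y + l) ^ r * θ i y ^ (r * m) = (g (y + l) * θ i y ^ m) ^ r := by rw [mul_pow, ← pow_mul, mul_comm r m]
    _ = (θ i (y + l) ^ m * g y) ^ r := by rw [h1]
    _ = θ i (y + l) ^ (r * m) * g y ^ r := by rw [mul_pow, ← pow_mul, mul_comm r m]

theorem IsType.sum {σ : Type} (s : Finset σ) (u : σ → Cn (κ + 1) → ℂ) (hu : ∀ i ∈ s, IsType Λ θ m (u i)) : IsType Λ θ m (fun y => ∑ i ∈ s, u i y) := by
  refine ⟨Differentiable.fun_sum fun i hi => (hu i hi).1, fun l hl y i => ?_⟩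
  show (∑ j ∈ s, u j (y + l)) * θ i y ^ m = θ i (y + l) ^ m * ∑ j ∈ s, u j y
  rw [Finset.sum_mul, Finset.mul_sum]
  exact Finset.sum_congr rfl fun j hj => (hu j hj).2 l hl y i

theorem IsType.prod {σ : Type} (s : Finset σ) (u : σ → Cn (κ + 1) → ℂ) (hu : ∀ i ∈ s, IsType Λ θ m (u i)) : IsType Λ θ (s.card * m) (fun y => ∏ i ∈ s, u i y) := by
  classical
  induction s using Finset.induction_on with
  | empty =>
    refine ⟨by simp, fun l _ y i => by simp⟩
  | insert a s ha ih =>
    have h1 := (hu a (Finset.mem_insert_self a s)).mul (ih fun i hi => hu i (Finset.mem_insert_of_mem hi))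
    rw [Finset.card_insert_of_notMem ha, show (s.card + 1) * m = m + s.card * m by ring]
    have h2 : (fun y => ∏ i ∈ insert a s, u i y) = fun y => u a y * ∏ i ∈ s, u i y := by
      funext y
      rw [Finset.prod_insert ha]
    rw [h2]
    exact h1

theorem IsType.of_theta (hθ : IsThetaForm Λ θ) (i : Fin (d + 1)) : IsType Λ θ 1 (θ i) := by
  refine ⟨hθ.holomorphic i, fun l hl y j => ?_⟩
  obtain ⟨r, W, -, hW⟩ := hθ.quasiPeriodic
  obtain ⟨e, -, he⟩ := hW l hl y
  rw [he i, he j]
  ring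

theorem IsType.wr (hθ : IsThetaForm Λ θ) (hg : IsType Λ θ m g) (hh : IsType Λ θ m h) (i : Fin (κ + 1)) : IsType Λ θ (2 * m) (wr g h i) := by
  refine ⟨(hg.1.mul (ty_pd_diff hh.1 i)).sub (hh.1.mul (ty_pd_diff hg.1 i)), fun l hl y i₀ => ?_⟩
  have hsh : ∀ {f : Cn (κ + 1) → ℂ}, Differentiable ℂ f → Differentiable ℂ fun z => f (z + l) := fun hf =>
    hf.comp (differentiable_id.add_const l)
  have hth := hθ.holomorphic i₀
  -- the derivative of the functional equation
  have key : ∀ {f : Cn (κ + 1) → ℂ}, IsType Λ θ m f →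
      f (y + l) * pd (fun z => θ i₀ z ^ m) i y + θ i₀ y ^ m * pd f i (y + l) =
        θ i₀ (y + l) ^ m * pd f i y + f y * pd (fun z => θ i₀ (z + l) ^ m) i y := by
    intro f hf
    have h1 : (fun z => f (z + l) * θ i₀ z ^ m) = fun z => θ i₀ (z + l) ^ m * f z := by
      funext z
      exact hf.2 l hl z i₀
    have h2 := ty_pd_mul (hsh hf.1) (hth.pow m) i y
    have h3 := ty_pd_mul ((hsh hth).pow m) hf.1 i y
    rw [ty_pd_shift] at h2
    have h4 : pd (fun z => f (z + l) * θ i₀ z ^ m) i y = pd (fun z => θ i₀ (z + l) ^ m * f z) i y := by rw [h1]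
    have h5 : f (y + l) * pd (fun z => θ i₀ z ^ m) i y + θ i₀ y ^ m * pd f i (y + l) =
        θ i₀ (y + l) ^ m * pd f i y + f y * pd (fun z => θ i₀ (z + l) ^ m) i y := h2.symm.trans (h4.trans h3)
    exact h5
  have kg := key hg
  have kh := key hh
  have eg := hg.2 l hl y i₀
  have eh := hh.2 l hl y i₀
  set P := pd (fun z => θ i₀ z ^ m) i y with hP
  set Q := pd (fun z => θ i₀ (z + l) ^ m) i y
  set a := θ i₀ y ^ m with ha
  set b := θ i₀ (y + l) ^ m with hb
  -- the remaining term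
  have hrem : b * P * (h y * g (y + l) - g y * h (y + l)) = 0 := by
    rcases Nat.eq_zero_or_pos m with hm | hm
    · have : P = 0 := by
        rw [hP, hm]
        unfold pd
        simp
      rw [this]
      ring
    · by_cases h0 : θ i₀ y = 0
      · obtain ⟨r, W, -, hW⟩ := hθ.quasiPeriodic
        obtain ⟨e, -, he⟩ := hW l hl y
        have hb0 : b = 0 := by
          rw [hb, he i₀, h0, mul_zero, zero_pow hm.ne']
        rw [hb0]
        ring
      · have ha0 : a ≠ 0 := pow_ne_zero _ h0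
        have h6 : a * (h y * g (y + l) - g y * h (y + l)) = 0 := by
          linear_combination h y * eg - g y * eh
        rcases mul_eq_zero.1 h6 with h7 | h7
        · exact absurd h7 ha0
        · rw [h7, mul_zero]
  show (g (y + l) * pd h i (y + l) - h (y + l) * pd g i (y + l)) * θ i₀ y ^ (2 * m) =
    θ i₀ (y + l) ^ (2 * m) * (g y * pd h i y - h y * pd g i y)
  have h8 : θ i₀ y ^ (2 * m) = a * a := by rw [ha]; ring
  have h9 : θ i₀ (y + l) ^ (2 * m) = b * b := by rw [hb]; ring
  rw [h8, h9]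
  linear_combination (a * pd h i (y + l)) * eg - (a * pd g i (y + l)) * eh + (b * g y) * kh - (b * h y) * kg + hrem

/-- determinants of matrices of functions of the same type -/
theorem IsType.det {r : ℕ} (A : Fin r → Fin r → Cn (κ + 1) → ℂ) (hA : ∀ i j, IsType Λ θ m (A i j)) : IsType Λ θ (r * m) (fun y => (Matrix.of fun i j => A i j y).det) := by
  have h1 : (fun y => (Matrix.of fun i j => A i j y).det) = fun y => ∑ σ : Equiv.Perm (Fin r), ((Equiv.Perm.sign σ : ℤ) : ℂ) * ∏ i, A (σ i) i y := by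
    funext y
    rw [Matrix.det_apply']
    rfl
  rw [h1]
  refine IsType.sum _ _ fun σ _ => IsType.smul _ ?_
  have h2 := IsType.prod (Finset.univ : Finset (Fin r)) (fun i => A (σ i) i) (fun i _ => hA (σ i) i)
  rwa [Finset.card_univ, Fintype.card_fin] at h2

/-- minors -/
theorem IsType.adjugate {r : ℕ} (A : Fin (r + 1) → Fin (r + 1) → Cn (κ + 1) → ℂ) (hA : ∀ i j, IsType Λ θ m (A i j)) (i j : Fin (r + 1)) : IsType Λ θ (r * m) (fun y => (Matrix.of fun i j => A i j y).adjugate i j) := by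
  have h1 : (fun y => (Matrix.of fun i j => A i j y).adjugate i j) =
      fun y => (-1) ^ ((j : ℕ) + (i : ℕ)) * (Matrix.of fun i' j' => A (j.succAbove i') (i.succAbove j') y).det := by
    funext y
    rw [Matrix.adjugate_fin_succ_eq_det_submatrix]
    rfl
  rw [h1]
  exact IsType.smul _ (IsType.det (fun i' j' => A (j.succAbove i') (i.succAbove j')) fun i' j' => hA _ _)

end Pool.Agent.LG

end
end

section

/-!
# LG Co: the coefficients of the equation of the boundary, and a change of coordinates of `ℙ¹`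

* `exists_coeff`: `form θ y (M p) ^ 3` is a homogeneous polynomial of degree `3 d` in `p = (p 0, p 1)`; its coefficients are homogeneous polynomials of degree `3` in the `θ i y` (with constant coefficients), so of type `3` (`IsType.of_poly`).
* `exists_M`: the form `form θ y₀ x = ∑ θ_i x₀^i x₁^(d-i)` is not `0`, so `form θ y₀ (1, s) = 0` for finitely many `s` only; `M` has the columns `(1, s)`, `(1, t)`, `s ≠ t`, both not zeros, and both not proportional to `q₀`.
-/

set_option autoImplicit false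

open MvPolynomial
open Pool.Agent.PXF (Cn form IsThetaForm)

noncomputable section

namespace Pool.Agent.LG

variable {κ d : ℕ} {Λ : AddSubgroup (Cn (κ + 1))} {θ : Fin (d + 1) → Cn (κ + 1) → ℂ}

/-- `F y (p 0) (p 1)` is a binary form of degree `n` in `p` with coefficients of type `m` -/
private def CoBF (Λ : AddSubgroup (Cn (κ + 1))) (θ : Fin (d + 1) → Cn (κ + 1) → ℂ) (n m : ℕ) (F : Cn (κ + 1) → ℂ → ℂ → ℂ) : Prop :=
  ∃ Φ : ℕ → Cn (κ + 1) → ℂ, (∀ i, IsType Λ θ m (Φ i)) ∧ ∀ y p₀ p₁, F y p₀ p₁ = ∑ i ∈ Finset.range (n + 1), Φ i y * p₁ ^ i * p₀ ^ (n - i)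

private theorem co_mul {n n' m m' : ℕ} {F F' : Cn (κ + 1) → ℂ → ℂ → ℂ} (h : CoBF Λ θ n m F) (h' : CoBF Λ θ n' m' F') :
    CoBF Λ θ (n + n') (m + m') (fun y p₀ p₁ => F y p₀ p₁ * F' y p₀ p₁) := by
  obtain ⟨Φ, hΦ, hF⟩ := h
  obtain ⟨Ψ, hΨ, hF'⟩ := h'
  refine ⟨fun s y => ∑ p ∈ Finset.range (n + 1) ×ˢ Finset.range (n' + 1), (if p.1 + p.2 = s then Φ p.1 y * Ψ p.2 y else 0), ?_, ?_⟩
  · intro s
    refine IsType.sum _ _ fun p _ => ?_
    by_cases hp : p.1 + p.2 = s
    · simp only [if_pos hp]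
      exact (hΦ _).mul (hΨ _)
    · simp only [if_neg hp]
      exact IsType.zero
  · intro y p₀ p₁
    beta_reduce
    rw [hF, hF', Finset.sum_mul_sum, ← Finset.sum_product']
    have h1 : ∀ s ∈ Finset.range (n + n' + 1), (∑ p ∈ Finset.range (n + 1) ×ˢ Finset.range (n' + 1), (if p.1 + p.2 = s then Φ p.1 y * Ψ p.2 y else 0)) * p₁ ^ s * p₀ ^ (n + n' - s) =
        ∑ p ∈ Finset.range (n + 1) ×ˢ Finset.range (n' + 1), (if p.1 + p.2 = s then Φ p.1 y * p₁ ^ p.1 * p₀ ^ (n - p.1) * (Ψ p.2 y * p₁ ^ p.2 * p₀ ^ (n' - p.2)) else 0) := by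
      intro s _
      rw [Finset.sum_mul, Finset.sum_mul]
      refine Finset.sum_congr rfl fun p hp => ?_
      rw [Finset.mem_product, Finset.mem_range, Finset.mem_range] at hp
      by_cases hps : p.1 + p.2 = s
      · rw [if_pos hps, if_pos hps, ← hps]
        have h2 : n + n' - (p.1 + p.2) = (n - p.1) + (n' - p.2) := by omega
        rw [h2, pow_add, pow_add]
        ring
      · rw [if_neg hps, if_neg hps, zero_mul, zero_mul]
    rw [Finset.sum_congr rfl h1, Finset.sum_comm]
    refine Finset.sum_congr rfl fun p hp => ?_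
    rw [Finset.mem_product, Finset.mem_range, Finset.mem_range] at hp
    rw [Finset.sum_ite_eq, if_pos (Finset.mem_range.2 (by omega))]

private theorem co_sum {n m : ℕ} {σ : Type} (s : Finset σ) (F : σ → Cn (κ + 1) → ℂ → ℂ → ℂ) (h : ∀ a ∈ s, CoBF Λ θ n m (F a)) :
    CoBF Λ θ n m (fun y p₀ p₁ => ∑ a ∈ s, F a y p₀ p₁) := by
  classical
  induction s using Finset.induction_on with
  | empty =>
    refine ⟨fun _ _ => 0, fun _ => IsType.zero, fun y p₀ p₁ => ?_⟩
    simp
  | insert a s ha ih =>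
    obtain ⟨Φ, hΦ, hF⟩ := h a (Finset.mem_insert_self _ _)
    obtain ⟨Ψ, hΨ, hG⟩ := ih fun b hb => h b (Finset.mem_insert_of_mem hb)
    have hG' : ∀ y p₀ p₁, ∑ a ∈ s, F a y p₀ p₁ = ∑ i ∈ Finset.range (n + 1), Ψ i y * p₁ ^ i * p₀ ^ (n - i) := hG
    refine ⟨fun i y => Φ i y + Ψ i y, fun i => (hΦ i).add (hΨ i), fun y p₀ p₁ => ?_⟩
    beta_reduce
    rw [Finset.sum_insert ha, hF, hG', ← Finset.sum_add_distrib]
    exact Finset.sum_congr rfl fun i _ => by ring

private theorem co_const (c : ℂ) : IsType Λ θ 0 (fun _ => c) :=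
  ⟨differentiable_const _, fun l _ y i => by rw [pow_zero, pow_zero, mul_one, one_mul]⟩

private theorem co_lin (a b : ℂ) : CoBF Λ θ 1 0 (fun _ p₀ p₁ => a * p₀ + b * p₁) := by
  refine ⟨fun i _ => if i = 0 then a else b, fun i => co_const _, fun y p₀ p₁ => ?_⟩
  simp [Finset.sum_range_succ]

private theorem co_pow (a b : ℂ) (k : ℕ) : CoBF Λ θ k 0 (fun _ p₀ p₁ => (a * p₀ + b * p₁) ^ k) := by
  induction k with
  | zero =>
    refine ⟨fun _ _ => 1, fun i => co_const _, fun y p₀ p₁ => ?_⟩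
    simp
  | succ k ih =>
    have h1 := co_mul ih (co_lin (Λ := Λ) (θ := θ) a b)
    simp only [pow_succ]
    exact h1

theorem exists_coeff (hθ : IsThetaForm Λ θ) (M : Matrix (Fin 2) (Fin 2) ℂ) : ∃ Φ : Fin (3 * d + 1) → Cn (κ + 1) → ℂ, (∀ i, IsType Λ θ 3 (Φ i)) ∧
    ∀ y (p : Cn 2), ∑ i, Φ i y * p 1 ^ (i : ℕ) * p 0 ^ (3 * d - i) = form θ y (M.mulVec p) ^ 3 := by
  have h1 : CoBF Λ θ d 1 (fun y p₀ p₁ => ∑ i : Fin (d + 1), θ i y * (M 0 0 * p₀ + M 0 1 * p₁) ^ (i : ℕ) * (M 1 0 * p₀ + M 1 1 * p₁) ^ (d - (i : ℕ))) := by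
    refine co_sum _ _ fun i _ => ?_
    have h2 : CoBF Λ θ 0 1 (fun y _ _ => θ i y) := ⟨fun _ => θ i, fun _ => IsType.of_theta hθ i, fun y p₀ p₁ => by simp⟩
    have h3 := co_mul (co_mul h2 (co_pow (Λ := Λ) (θ := θ) (M 0 0) (M 0 1) (i : ℕ))) (co_pow (Λ := Λ) (θ := θ) (M 1 0) (M 1 1) (d - (i : ℕ)))
    have h4 : 0 + (i : ℕ) + (d - (i : ℕ)) = d := by
      have := i.isLt
      omega
    rw [h4] at h3
    exact h3
  have h5 := co_mul (co_mul h1 h1) h1
  have h6 : d + d + d = 3 * d := by ring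
  rw [h6] at h5
  obtain ⟨Φ, hΦ, hF⟩ := h5
  refine ⟨fun i => Φ i, fun i => hΦ i, fun y p => ?_⟩
  have h7 := hF y (p 0) (p 1)
  have h8 : form θ y (M.mulVec p) = ∑ i : Fin (d + 1), θ i y * (M 0 0 * p 0 + M 0 1 * p 1) ^ (i : ℕ) * (M 1 0 * p 0 + M 1 1 * p 1) ^ (d - (i : ℕ)) := by
    simp only [form, Matrix.mulVec, dotProduct, Fin.sum_univ_two]
  rw [h8]
  rw [Finset.sum_range] at h7
  rw [← h7]
  ring

/-- the form is homogeneous -/
theorem form_smul (y : Cn (κ + 1)) (c : ℂ) (x : Cn 2) : form θ y (c • x) = c ^ d * form θ y x := by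
  simp only [form, Pi.smul_apply, smul_eq_mul, Finset.mul_sum]
  refine Finset.sum_congr rfl fun i _ => ?_
  have h1 : c ^ d = c ^ (i : ℕ) * c ^ (d - (i : ℕ)) := by
    rw [← pow_add]
    congr 1
    have := i.isLt
    omega
  rw [h1, mul_pow, mul_pow]
  ring

theorem exists_M {y₀ : Cn (κ + 1)} {q₀ : Cn 2} (hq : q₀ ≠ 0) (h : ∃ x, form θ y₀ x ≠ 0) : ∃ M M' : Matrix (Fin 2) (Fin 2) ℂ, M * M' = 1 ∧ M' * M = 1 ∧ form θ y₀ (M.mulVec ![1, 0]) ≠ 0 ∧ form θ y₀ (M.mulVec ![0, 1]) ≠ 0 ∧
    M'.mulVec q₀ 0 ≠ 0 ∧ M'.mulVec q₀ 1 ≠ 0 := by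
  obtain ⟨f, hf⟩ : ∃ f : Polynomial ℂ, f = ∑ i : Fin (d + 1), Polynomial.C (θ i y₀) * Polynomial.X ^ (d - (i : ℕ)) := ⟨_, rfl⟩
  have hfe : ∀ s, f.eval s = form θ y₀ ![1, s] := by
    intro s
    rw [hf, Polynomial.eval_finsetSum]
    simp only [form, Matrix.cons_val_zero, Matrix.cons_val_one, one_pow, mul_one, Polynomial.eval_mul, Polynomial.eval_C, Polynomial.eval_pow, Polynomial.eval_X]
  have hf0 : f ≠ 0 := by
    intro h0
    have hθ0 : ∀ i, θ i y₀ = 0 := by
      intro i
      have h1 : f.coeff (d - (i : ℕ)) = θ i y₀ := by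
        rw [hf, Polynomial.finsetSum_coeff, Finset.sum_eq_single i]
        · rw [Polynomial.coeff_C_mul_X_pow, if_pos rfl]
        · intro j _ hj
          rw [Polynomial.coeff_C_mul_X_pow, if_neg]
          intro hh
          apply hj
          apply Fin.ext
          have := i.isLt
          have := j.isLt
          omega
        · intro hh
          exact absurd (Finset.mem_univ i) hh
      rw [← h1, h0, Polynomial.coeff_zero]
    obtain ⟨x, hx⟩ := h
    apply hx
    simp [form, hθ0]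
  obtain ⟨g, hg⟩ : ∃ g : Polynomial ℂ, g = f * (Polynomial.C (q₀ 0) * Polynomial.X - Polynomial.C (q₀ 1)) := ⟨_, rfl⟩
  have hlin : (Polynomial.C (q₀ 0) * Polynomial.X - Polynomial.C (q₀ 1) : Polynomial ℂ) ≠ 0 := by
    intro h0
    apply hq
    have h1 := congrArg (fun p => Polynomial.coeff p 0) h0
    have h2 := congrArg (fun p => Polynomial.coeff p 1) h0
    simp [Polynomial.coeff_C] at h1 h2
    funext i
    fin_cases i
    · exact h2
    · exact h1
  have hg0 : g ≠ 0 := by
    rw [hg]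
    exact mul_ne_zero hf0 hlin
  have hex : ∀ p : Polynomial ℂ, p ≠ 0 → ∃ s, p.eval s ≠ 0 := by
    intro p hp
    by_contra hcon
    push Not at hcon
    exact hp (Polynomial.funext fun s => by rw [hcon, Polynomial.eval_zero])
  obtain ⟨s, hs⟩ := hex g hg0
  obtain ⟨t, ht⟩ := hex (g * (Polynomial.X - Polynomial.C s)) (mul_ne_zero hg0 (Polynomial.X_sub_C_ne_zero s))
  rw [Polynomial.eval_mul, Polynomial.eval_sub, Polynomial.eval_X, Polynomial.eval_C] at ht
  have hts : t - s ≠ 0 := right_ne_zero_of_mul ht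
  have hgt : g.eval t ≠ 0 := left_ne_zero_of_mul ht
  rw [hg, Polynomial.eval_mul, Polynomial.eval_sub, Polynomial.eval_mul, Polynomial.eval_C, Polynomial.eval_X, Polynomial.eval_C] at hs hgt
  have hs1 := left_ne_zero_of_mul hs
  have hs2 := right_ne_zero_of_mul hs
  have ht1 := left_ne_zero_of_mul hgt
  have ht2 := right_ne_zero_of_mul hgt
  rw [hfe] at hs1 ht1
  refine ⟨!![1, 1; s, t], !![t / (t - s), -1 / (t - s); -s / (t - s), 1 / (t - s)], ?_, ?_, ?_, ?_, ?_, ?_⟩
  · ext i j
    fin_cases i <;> fin_cases j <;> simp [Matrix.mul_apply, Fin.sum_univ_two] <;> field_simp <;> ring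
  · ext i j
    fin_cases i <;> fin_cases j <;> simp [Matrix.mul_apply, Fin.sum_univ_two] <;> field_simp <;> ring
  · have h1 : (!![1, 1; s, t] : Matrix (Fin 2) (Fin 2) ℂ).mulVec ![1, 0] = ![1, s] := by
      ext i
      fin_cases i <;> simp [Matrix.mulVec, dotProduct, Fin.sum_univ_two]
    rw [h1]
    exact hs1
  · have h1 : (!![1, 1; s, t] : Matrix (Fin 2) (Fin 2) ℂ).mulVec ![0, 1] = ![1, t] := by
      ext i
      fin_cases i <;> simp [Matrix.mulVec, dotProduct, Fin.sum_univ_two]
    rw [h1]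
    exact ht1
  · have h1 : (!![t / (t - s), -1 / (t - s); -s / (t - s), 1 / (t - s)] : Matrix (Fin 2) (Fin 2) ℂ).mulVec q₀ 0 = (q₀ 0 * t - q₀ 1) / (t - s) := by
      simp [Matrix.mulVec, dotProduct, Fin.sum_univ_two]
      field_simp
      ring
    rw [h1]
    exact div_ne_zero ht2 hts
  · have h1 : (!![t / (t - s), -1 / (t - s); -s / (t - s), 1 / (t - s)] : Matrix (Fin 2) (Fin 2) ℂ).mulVec q₀ 1 = -(q₀ 0 * s - q₀ 1) / (t - s) := by
      simp [Matrix.mulVec, dotProduct, Fin.sum_univ_two]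
      field_simp
      ring
    rw [h1]
    exact div_ne_zero (neg_ne_zero.2 hs2) hts

end Pool.Agent.LG

end
end
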