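import Mathlib

/-! The parts of this file: H13.CV.EllB, H13.LU.Quad, H36.BP.CirA, H36.BP.CirB, H60.OC.Defs, H60.OC.Root, H60.OC.RootAna, H99.Cover.Defs, LG.Cv1, LR.RootLoc, LR.Cover. -/

section

/-!
# CV EllB: the Weierstrass normal form

`normal_form`: `v₁ = v - (a u + b) / 2`: `v₁² = c u³ + (d + a² / 4) u² + (e + a b / 2) u + (f + b² / 4)`.  Let `s` with `c s³ = 4` (`IsAlgClosed`), `r = - (d + a² / 4) / (3 c)`, `u₁ = (u - r) / s`:
`v₁² = 4 u₁³ - α u₁ - β` for some `α, β`.  `ℂ(u₁, v₁) = ℂ(u, v)`, `ℂ(u₁) = ℂ(u)`, `v₁ ∉ ℂ(u)`.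
`singular_rational`: let `α³ = 27 β²`.  There is `ρ` with `12 ρ² = α`, `- 8 ρ³ = β` (take `ρ² = α / 12`; then `(8 ρ³)² = α³ / 27 = β²`, change the sign of `ρ` if necessary).  Then
`4 u³ - α u - β = 4 (u - ρ)² (u + 2 ρ)`.  `u ≠ ρ` (`u` is transcendental).  `t = v / (u - ρ)`: `t² = 4 (u + 2 ρ)`, so `u = t² / 4 - 2 ρ ∈ ℂ(t)` and `v = t (u - ρ) ∈ ℂ(t)`.
-/

set_option autoImplicit false

noncomputable section

namespace Pool.Agent.H13.CV

variable {K : Type} [Field K] [Algebra ℂ K]

theorem normal_form {u v : K} {c a d b e f : ℂ} (hc : c ≠ 0)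
    (h : v ^ 2 = algebraMap ℂ K c * u ^ 3 + algebraMap ℂ K a * (u * v) + algebraMap ℂ K d * u ^ 2 + algebraMap ℂ K b * v +
      algebraMap ℂ K e * u + algebraMap ℂ K f) (hu : Transcendental ℂ u) (huv : IntermediateField.adjoin ℂ {u, v} = ⊤) (hvu : v ∉ IntermediateField.adjoin ℂ {u}) :
    ∃ (u' v' : K) (α β : ℂ), v' ^ 2 = 4 * u' ^ 3 - algebraMap ℂ K α * u' - algebraMap ℂ K β ∧ Transcendental ℂ u' ∧
      IntermediateField.adjoin ℂ {u', v'} = ⊤ ∧ v' ∉ IntermediateField.adjoin ℂ {u'} := by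
  obtain ⟨s, hs⟩ := IsAlgClosed.exists_pow_nat_eq (4 / c) (n := 3) (by norm_num)
  have hs0 : s ≠ 0 := by
    rintro rfl
    have : (4 : ℂ) / c ≠ 0 := div_ne_zero (by norm_num) hc
    apply this
    rw [← hs]
    norm_num
  have hcs : c * s ^ 3 = 4 := by
    rw [hs]
    field_simp
  set r : ℂ := -(d + a ^ 2 / 4) / (3 * c) with hr
  have hr' : 3 * c * r = -(d + a ^ 2 / 4) := by
    rw [hr]
    field_simp
  haveI : CharZero K := charZero_of_injective_algebraMap (algebraMap ℂ K).injective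
  set C := algebraMap ℂ K with hC
  have c2 : C 2 = 2 := map_ofNat C 2
  have c3 : C 3 = 3 := map_ofNat C 3
  have c4 : C 4 = 4 := map_ofNat C 4
  have hCs0 : C s ≠ 0 := by
    rw [hC]
    exact (map_ne_zero (algebraMap ℂ K)).2 hs0
  have hcsK : C c * C s ^ 3 = 4 := by
    rw [← map_pow, ← map_mul, hcs]
    exact map_ofNat C 4
  have hrK : 3 * C c * C r = -(C d + C a ^ 2 / 4) := by
    have := congrArg C hr'
    simpa [c2, c3, c4] using this
  set u' : K := (u - C r) / C s with hu'
  have hu2 : u = C s * u' + C r := by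
    rw [hu']
    field_simp
    ring
  set v' : K := v - (C a * u + C b) / 2 with hv'
  have hv2 : v = v' + (C a * u + C b) / 2 := by
    rw [hv']
    ring
  have hmem : ∀ (L : IntermediateField ℂ K) (z : ℂ), C z ∈ L := fun L z => L.algebraMap_mem z
  have h2mem : ∀ (L : IntermediateField ℂ K), (2 : K) ∈ L := fun L => by
    have := hmem L 2
    rwa [hC, map_ofNat] at this
  have hvu2 : ∀ L : IntermediateField ℂ K, u ∈ L → v' ∈ L → v ∈ L := fun L h1 h2 => by
    rw [hv2]
    exact L.add_mem h2 (L.div_mem (L.add_mem (L.mul_mem (hmem L a) h1) (hmem L b)) (h2mem L))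
  have huL : ∀ L : IntermediateField ℂ K, u' ∈ L → u ∈ L := fun L h1 => by
    rw [hu2]
    exact L.add_mem (L.mul_mem (hmem L s) h1) (hmem L r)
  refine ⟨u', v', 3 * c * s * r ^ 2 - (e + a * b / 2) * s,
    -(c * r ^ 3 + (d + a ^ 2 / 4) * r ^ 2 + (e + a * b / 2) * r + (f + b ^ 2 / 4)), ?_, ?_, ?_, ?_⟩
  · have e1 : v' ^ 2 = C c * u ^ 3 + (C d + C a ^ 2 / 4) * u ^ 2 + (C e + C a * C b / 2) * u + (C f + C b ^ 2 / 4) := by
      rw [hv']
      linear_combination h
    have e2 : C (3 * c * s * r ^ 2 - (e + a * b / 2) * s) = 3 * C c * C s * C r ^ 2 - (C e + C a * C b / 2) * C s := by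
      simp [c2, c3]
    have e3 : C (-(c * r ^ 3 + (d + a ^ 2 / 4) * r ^ 2 + (e + a * b / 2) * r + (f + b ^ 2 / 4))) =
        -(C c * C r ^ 3 + (C d + C a ^ 2 / 4) * C r ^ 2 + (C e + C a * C b / 2) * C r + (C f + C b ^ 2 / 4)) := by
      simp [c2, c4]
    rw [e2, e3, e1, hu2]
    linear_combination u' ^ 3 * hcsK + (C s ^ 2 * u' ^ 2 + 2 * C s * C r * u') * hrK
  · intro hal
    apply hu
    rw [hu2]
    exact ((isAlgebraic_algebraMap s).mul hal).add (isAlgebraic_algebraMap r)
  · rw [eq_top_iff, ← huv, IntermediateField.adjoin_le_iff]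
    have m1 : u' ∈ IntermediateField.adjoin ℂ {u', v'} := IntermediateField.subset_adjoin ℂ _ (by simp)
    have m2 : v' ∈ IntermediateField.adjoin ℂ {u', v'} := IntermediateField.subset_adjoin ℂ _ (by simp)
    rintro z hz
    rcases hz with rfl | hz
    · exact huL _ m1
    · rw [Set.mem_singleton_iff] at hz
      rw [hz]
      exact hvu2 _ (huL _ m1) m2
  · intro hv3
    apply hvu
    have m1 : u ∈ IntermediateField.adjoin ℂ {u} := IntermediateField.mem_adjoin_simple_self ℂ u
    have m2 : u' ∈ IntermediateField.adjoin ℂ {u} := by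
      rw [hu']
      exact div_mem (sub_mem m1 (hmem _ r)) (hmem _ s)
    have m3 : IntermediateField.adjoin ℂ {u'} ≤ IntermediateField.adjoin ℂ {u} := by
      rw [IntermediateField.adjoin_simple_le_iff]
      exact m2
    exact hvu2 _ m1 (m3 hv3)

theorem singular_rational {u v : K} {α β : ℂ} (h : v ^ 2 = 4 * u ^ 3 - algebraMap ℂ K α * u - algebraMap ℂ K β) (hu : Transcendental ℂ u)
    (huv : IntermediateField.adjoin ℂ {u, v} = ⊤) (hd : α ^ 3 = 27 * β ^ 2) : ∃ t : K, IntermediateField.adjoin ℂ {t} = ⊤ := by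
  obtain ⟨ρ, h1, h2⟩ : ∃ ρ : ℂ, 12 * ρ ^ 2 = α ∧ -8 * ρ ^ 3 = β := by
    obtain ⟨ρ, hρ⟩ := IsAlgClosed.exists_pow_nat_eq (α / 12) (n := 2) (by norm_num)
    have h12 : 12 * ρ ^ 2 = α := by
      rw [hρ]
      ring
    have h3 : (8 * ρ ^ 3 - β) * (8 * ρ ^ 3 + β) = 0 := by
      have : 27 * ((8 * ρ ^ 3 - β) * (8 * ρ ^ 3 + β)) = 0 := by
        have e : α ^ 3 = (12 * ρ ^ 2) ^ 3 := by rw [h12]
        rw [hd] at e
        linear_combination -e
      exact (mul_eq_zero.1 this).resolve_left (by norm_num)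
    rcases mul_eq_zero.1 h3 with h4 | h4
    · exact ⟨-ρ, by linear_combination h12, by linear_combination h4⟩
    · exact ⟨ρ, h12, by linear_combination -h4⟩
  haveI : CharZero K := charZero_of_injective_algebraMap (algebraMap ℂ K).injective
  set C := algebraMap ℂ K with hC
  have c12 : C 12 = 12 := map_ofNat C 12
  have c8 : C 8 = 8 := map_ofNat C 8
  have e1 : C α = 12 * C ρ ^ 2 := by
    rw [← h1]
    simp [c12]
  have e2 : C β = -8 * C ρ ^ 3 := by
    rw [← h2]
    simp [c8]
  have hne : u - C ρ ≠ 0 := by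
    intro h0
    apply hu
    rw [sub_eq_zero.1 h0]
    exact isAlgebraic_algebraMap ρ
  set t : K := v / (u - C ρ) with ht
  have hvt : v = t * (u - C ρ) := by
    rw [ht]
    field_simp
  have ht2 : t ^ 2 = 4 * (u + 2 * C ρ) := by
    have h5 : (u - C ρ) ^ 2 * (t ^ 2 - 4 * (u + 2 * C ρ)) = 0 := by
      rw [e1, e2, hvt] at h
      linear_combination h
    exact sub_eq_zero.1 ((mul_eq_zero.1 h5).resolve_left (pow_ne_zero 2 hne))
  have hut : u = t ^ 2 / 4 - 2 * C ρ := by
    rw [ht2]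
    ring
  refine ⟨t, ?_⟩
  rw [eq_top_iff, ← huv, IntermediateField.adjoin_le_iff]
  have m1 : t ∈ IntermediateField.adjoin ℂ {t} := IntermediateField.mem_adjoin_simple_self ℂ t
  have hmem : ∀ z : ℂ, C z ∈ IntermediateField.adjoin ℂ {t} := fun z => (IntermediateField.adjoin ℂ {t}).algebraMap_mem z
  have m4 : (4 : K) ∈ IntermediateField.adjoin ℂ {t} := by
    have := hmem 4
    rwa [hC, map_ofNat] at this
  have m2 : (2 : K) ∈ IntermediateField.adjoin ℂ {t} := by
    have := hmem 2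
    rwa [hC, map_ofNat] at this
  have mu : u ∈ IntermediateField.adjoin ℂ {t} := by
    rw [hut]
    exact sub_mem (div_mem (pow_mem m1 2) m4) (mul_mem m2 (hmem ρ))
  have mv : v ∈ IntermediateField.adjoin ℂ {t} := by
    rw [hvt]
    exact mul_mem m1 (sub_mem mu (hmem ρ))
  rintro z hz
  rcases hz with rfl | hz
  · exact mu
  · rw [Set.mem_singleton_iff] at hz
    rw [hz]
    exact mv

end Pool.Agent.H13.CV

end
end

section

/-!
# LU Quad: an entire function whose real part has quadratic mean growth is a polynomial of degree at most two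
-/

set_option autoImplicit false

open Topology Filter Metric

namespace Pool.Agent.H13.LU

/-- The Taylor coefficient as a mean value. -/
theorem coeff_eq {φ : ℂ → ℂ} {R : ℝ} (hR : R ≠ 0) (k : ℕ) :
    (cauchyPowerSeries φ 0 R k fun _ => 1) = Real.circleAverage (fun z => (z⁻¹) ^ k * φ z) 0 R := by
  rw [cauchyPowerSeries_apply, Real.circleAverage_eq_circleIntegral hR]
  simp only [sub_zero, one_div, smul_eq_mul]
  congr 2
  ext z
  ring

theorem norm_circleAverage_le {g : ℂ → ℂ} {R : ℝ} : ‖Real.circleAverage g 0 R‖ ≤ Real.circleAverage (fun z => ‖g z‖) 0 R := by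
  rw [Real.circleAverage_def, Real.circleAverage_def, norm_smul, smul_eq_mul, Real.norm_of_nonneg (by positivity)]
  apply mul_le_mul_of_nonneg_left _ (by positivity)
  exact intervalIntegral.norm_integral_le_integral_norm (by positivity)

theorem average_conj {φ : ℂ → ℂ} (hφ : Differentiable ℂ φ) {R : ℝ} (hR : 0 < R) {k : ℕ} (hk : 1 ≤ k) :
    Real.circleAverage (fun z => (z⁻¹) ^ k * (starRingEnd ℂ) (φ z)) 0 R = 0 := by
  have h1 : Real.circleAverage (fun z => z ^ k * φ z) 0 R = 0 := by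
    have hd : Differentiable ℂ fun z => z ^ k * φ z := (differentiable_id.pow k).mul hφ
    have h2 := DiffContOnCl.circleAverage (f := fun z => z ^ k * φ z) (c := 0) (R := R) hd.diffContOnCl
    rw [h2]
    simp [show k ≠ 0 by omega]
  have h2 : Real.circleAverage (fun z => (starRingEnd ℂ) (((R : ℂ) ^ (2 * k))⁻¹ * (z ^ k * φ z))) 0 R = 0 := by
    have hc : CircleIntegrable (fun z => ((R : ℂ) ^ (2 * k))⁻¹ * (z ^ k * φ z)) 0 R := by
      apply ContinuousOn.circleIntegrable'
      exact (continuous_const.mul ((continuous_id.pow k).mul hφ.continuous)).continuousOn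
    have h3 := ContinuousLinearMap.circleAverage_comp_comm (c := 0) (R := R) (f := fun z => ((R : ℂ) ^ (2 * k))⁻¹ * (z ^ k * φ z))
      (Complex.conjCLE : ℂ →L[ℝ] ℂ) hc
    have h4 : ((Complex.conjCLE : ℂ →L[ℝ] ℂ) ∘ fun z => ((R : ℂ) ^ (2 * k))⁻¹ * (z ^ k * φ z)) =
        fun z => (starRingEnd ℂ) (((R : ℂ) ^ (2 * k))⁻¹ * (z ^ k * φ z)) := by
      ext z
      rfl
    rw [h4] at h3
    rw [h3]
    have h5 : Real.circleAverage (fun z => ((R : ℂ) ^ (2 * k))⁻¹ * (z ^ k * φ z)) 0 R = 0 := by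
      have h6 := Real.circleAverage_fun_smul (a := ((R : ℂ) ^ (2 * k))⁻¹) (f := fun z => z ^ k * φ z) (c := 0) (R := R)
      simp only [smul_eq_mul] at h6
      rw [h6, h1, mul_zero]
    rw [h5, map_zero]
  refine Eq.trans (Real.circleAverage_congr_sphere ?_) h2
  intro z hz
  rw [abs_of_pos hR, mem_sphere_zero_iff_norm] at hz
  have hz0 : z ≠ 0 := by
    rintro rfl
    rw [norm_zero] at hz
    exact hR.ne hz
  have hR0 : (R : ℂ) ≠ 0 := by exact_mod_cast hR.ne'
  have hzz : (starRingEnd ℂ) z = (R : ℂ) ^ 2 * z⁻¹ := by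
    rw [eq_mul_inv_iff_mul_eq₀ hz0, mul_comm, Complex.mul_conj, Complex.normSq_eq_norm_sq, hz]
    push_cast
    ring
  simp only [map_mul, map_pow, map_inv₀, Complex.conj_ofReal]
  rw [hzz, mul_pow, ← pow_mul]
  field_simp

/-- **Entire functions with real part of quadratic mean growth.** -/
theorem quadratic_of_mean {φ : ℂ → ℂ} (hφ : Differentiable ℂ φ) {A : ℝ}
    (hA : ∀ r : ℝ, 1 ≤ r → Real.circleAverage (fun z => |(φ z).re|) 0 r ≤ A * (1 + r ^ 2)) :
    ∃ a b c : ℂ, ∀ z, φ z = a * z ^ 2 + b * z + c := by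
  have hp : HasFPowerSeriesOnBall φ (cauchyPowerSeries φ 0 ((1 : NNReal) : ℝ)) 0 ⊤ :=
    hφ.hasFPowerSeriesOnBall (R := 1) 0 one_pos
  set p := cauchyPowerSeries φ 0 ((1 : NNReal) : ℝ) with hpdef
  have hcont : Continuous φ := hφ.continuous
  have hzero : ∀ k : ℕ, 3 ≤ k → (p k fun _ => 1) = 0 := by
    intro k hk
    have hbd : ∀ R : ℝ, 1 ≤ R → ‖p k fun _ => 1‖ ≤ 4 * |A| / R := by
      intro R hR
      have hR0 : (0:ℝ) < R := by linarith
      have hq : HasFPowerSeriesOnBall φ (cauchyPowerSeries φ 0 ((⟨R, hR0.le⟩ : NNReal) : ℝ)) 0 ⊤ :=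
        hφ.hasFPowerSeriesOnBall (R := ⟨R, hR0.le⟩) 0 hR0
      have heq : p = cauchyPowerSeries φ 0 R :=
        hp.hasFPowerSeriesAt.eq_formalMultilinearSeries hq.hasFPowerSeriesAt
      have hsph : ∀ z ∈ sphere (0 : ℂ) |R|, z ≠ 0 := by
        rintro z hz rfl
        rw [mem_sphere_zero_iff_norm, norm_zero] at hz
        rw [eq_comm, abs_eq_zero] at hz
        exact hR0.ne' hz
      have hi1 : CircleIntegrable (fun z => (z⁻¹) ^ k * φ z) 0 R := by
        apply ContinuousOn.circleIntegrable'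
        exact ((continuousOn_id.inv₀ hsph).pow k).mul hcont.continuousOn
      have hi2 : CircleIntegrable (fun z => (z⁻¹) ^ k * (starRingEnd ℂ) (φ z)) 0 R := by
        apply ContinuousOn.circleIntegrable'
        exact ((continuousOn_id.inv₀ hsph).pow k).mul (Complex.continuous_conj.comp hcont).continuousOn
      have h1 : Real.circleAverage (fun z => (z⁻¹) ^ k * φ z) 0 R =
          Real.circleAverage (fun z => (z⁻¹) ^ k * φ z + (z⁻¹) ^ k * (starRingEnd ℂ) (φ z)) 0 R := by
        rw [Real.circleAverage_fun_add hi1 hi2, average_conj hφ hR0 (by omega), add_zero]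
      have h2 : Real.circleAverage (fun z => ‖(z⁻¹) ^ k * φ z + (z⁻¹) ^ k * (starRingEnd ℂ) (φ z)‖) 0 R =
          (2 * (R⁻¹) ^ k) * Real.circleAverage (fun z => |(φ z).re|) 0 R := by
        have h3 := Real.circleAverage_fun_smul (a := (2 * (R⁻¹) ^ k : ℝ)) (f := fun z => |(φ z).re|) (c := 0) (R := R)
        simp only [smul_eq_mul] at h3
        rw [← h3]
        apply Real.circleAverage_congr_sphere
        intro z hz
        rw [abs_of_pos hR0, mem_sphere_zero_iff_norm] at hz
        simp only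
        rw [← mul_add, Complex.add_conj, norm_mul, norm_pow, norm_inv, hz]
        rw [show ((2 * (φ z).re : ℝ) : ℂ) = ((2 * (φ z).re : ℝ) : ℂ) from rfl, Complex.norm_real, Real.norm_eq_abs, abs_mul, abs_two]
        ring
      rw [heq, coeff_eq hR0.ne', h1]
      refine norm_circleAverage_le.trans ?_
      rw [h2]
      have h4 := hA R hR
      have h5 : (R⁻¹) ^ k ≤ (R⁻¹) ^ 3 := pow_le_pow_of_le_one (by positivity) (inv_le_one_of_one_le₀ hR) hk
      have h6 : A * (1 + R ^ 2) ≤ |A| * (2 * R ^ 2) := by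
        have h9 : (1:ℝ) + R ^ 2 ≤ 2 * R ^ 2 := by nlinarith
        calc A * (1 + R ^ 2) ≤ |A| * (1 + R ^ 2) := mul_le_mul_of_nonneg_right (le_abs_self A) (by positivity)
          _ ≤ |A| * (2 * R ^ 2) := mul_le_mul_of_nonneg_left h9 (abs_nonneg A)
      calc (2 * (R⁻¹) ^ k) * Real.circleAverage (fun z => |(φ z).re|) 0 R ≤ (2 * (R⁻¹) ^ k) * (|A| * (2 * R ^ 2)) :=
            mul_le_mul_of_nonneg_left (h4.trans h6) (by positivity)
        _ ≤ (2 * (R⁻¹) ^ 3) * (|A| * (2 * R ^ 2)) := by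
            apply mul_le_mul_of_nonneg_right _ (by positivity)
            linarith
        _ = 4 * |A| / R := by
            field_simp
            ring
    have h0 : ‖p k fun _ => 1‖ ≤ 0 := by
      have ht : Tendsto (fun R : ℝ => 4 * |A| / R) atTop (𝓝 0) := tendsto_const_nhds.div_atTop tendsto_id
      exact ge_of_tendsto ht ((eventually_ge_atTop 1).mono fun R hR => hbd R hR)
    exact norm_le_zero_iff.mp h0
  have happ : ∀ (n : ℕ) (z : ℂ), (p n fun _ => z) = z ^ n * (p n fun _ => 1) := by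
    intro n z
    have := (p n).map_smul_univ (fun _ => z) (fun _ => (1:ℂ))
    simp only [smul_eq_mul, mul_one, Finset.prod_const, Finset.card_univ, Fintype.card_fin] at this
    exact this
  refine ⟨p 2 fun _ => 1, p 1 fun _ => 1, p 0 fun _ => 1, fun z => ?_⟩
  have hs := hp.hasSum (y := z) (by simp)
  rw [zero_add] at hs
  have hs2 : HasSum (fun n : ℕ => p n fun _ => z) (∑ n ∈ Finset.range 3, p n fun _ => z) := by
    apply hasSum_sum_of_ne_finset_zero
    intro n hn
    have : 3 ≤ n := by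
      rw [Finset.mem_range, not_lt] at hn
      exact hn
    rw [happ, hzero n this, mul_zero]
  rw [hs.unique hs2, Finset.sum_range_succ, Finset.sum_range_succ, Finset.sum_range_one, happ 0, happ 1, happ 2]
  ring

end Pool.Agent.H13.LU

end

section

/-!
# BP CirA: approximation on one circle

Trigonometric polynomials are dense in the continuous functions on the circle (`span_fourier_closure_eq_top`, or Stone-Weierstrass on the compact set
`sphere 0 R` with the star subalgebra generated by `z`: on the circle `conj z = R²/z`).  A real continuous function is within `ε` of `Re P`, `P = ∑_{|n| ≤ m} c_n z^n`, and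
`Re(c_(-n) z^(-n)) = Re(conj(c_(-n)) R^(-2n) z^n)` on the circle, so `P` can be taken to be a polynomial.
`trig_approx`: the form needed for the annulus: finitely many coefficients `c 0, ..., c m`, `|φ(R e^(iθ)) - Re ∑ c_n e^(inθ)| ≤ ε`.
-/

set_option autoImplicit false

namespace Pool.Agent.H36.BP

open Filter Topology Metric

variable {N : ℕ}

private theorem CirA_span (g : C(AddCircle (2 * Real.pi), ℂ)) (hg : g ∈ Submodule.span ℂ (Set.range (@fourier (2 * Real.pi)))) :
    ∀ a : ℂ, ∃ p : Polynomial ℂ, ∀ θ : ℝ, (a * g (θ : AddCircle (2 * Real.pi))).re = (p.eval (Complex.exp (θ * Complex.I))).re := by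
  induction hg using Submodule.span_induction with
  | mem x hx =>
    intro a
    obtain ⟨k, rfl⟩ := hx
    have hpi : (Real.pi : ℂ) ≠ 0 := by exact_mod_cast Real.pi_ne_zero
    have hval : ∀ θ : ℝ, (fourier k (θ : AddCircle (2 * Real.pi)) : ℂ) = Complex.exp (k * (θ * Complex.I)) := by
      intro θ
      rw [fourier_coe_apply]
      congr 1
      push_cast
      field_simp
    rcases Int.eq_nat_or_neg k with ⟨n, rfl | rfl⟩
    · refine ⟨Polynomial.C a * Polynomial.X ^ n, fun θ => ?_⟩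
      rw [hval]
      simp only [Polynomial.eval_mul, Polynomial.eval_C, Polynomial.eval_pow, Polynomial.eval_X]
      rw [← Complex.exp_nat_mul]
      push_cast
      rfl
    · refine ⟨Polynomial.C ((starRingEnd ℂ) a) * Polynomial.X ^ n, fun θ => ?_⟩
      rw [hval]
      simp only [Polynomial.eval_mul, Polynomial.eval_C, Polynomial.eval_pow, Polynomial.eval_X]
      rw [← Complex.exp_nat_mul]
      rw [← Complex.conj_re (a * _), map_mul, ← Complex.exp_conj]
      congr 3
      simp [Complex.conj_ofReal]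
  | zero =>
    intro a
    exact ⟨0, fun θ => by simp⟩
  | add x y _ _ hx hy =>
    intro a
    obtain ⟨p, hp⟩ := hx a
    obtain ⟨q, hq⟩ := hy a
    refine ⟨p + q, fun θ => ?_⟩
    rw [ContinuousMap.add_apply, mul_add, Complex.add_re, hp, hq, Polynomial.eval_add, Complex.add_re]
  | smul b x _ hx =>
    intro a
    obtain ⟨p, hp⟩ := hx (a * b)
    refine ⟨p, fun θ => ?_⟩
    rw [← hp, ContinuousMap.smul_apply, smul_eq_mul, mul_assoc]

theorem trig_approx (φ : ℝ → ℝ) (hφ : Continuous φ) (hper : ∀ θ, φ (θ + 2 * Real.pi) = φ θ) {ε : ℝ} (hε : 0 < ε) :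
    ∃ (m : ℕ) (c : ℕ → ℂ), ∀ θ : ℝ, |φ θ - (∑ n ∈ Finset.range (m + 1), c n * Complex.exp (n * (θ * Complex.I))).re| ≤ ε := by
  have : Fact (0 < 2 * Real.pi) := ⟨Real.two_pi_pos⟩
  have hP : Function.Periodic φ (2 * Real.pi) := hper
  have hcont : Continuous (hP.lift) := by
    exact continuous_coinduced_dom.mpr hφ
  let F : C(AddCircle (2 * Real.pi), ℂ) := ⟨fun x => ((hP.lift x : ℝ) : ℂ), Complex.continuous_ofReal.comp hcont⟩
  have hF : F ∈ (Submodule.span ℂ (Set.range (@fourier (2 * Real.pi)))).topologicalClosure := by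
    rw [span_fourier_closure_eq_top]
    trivial
  have hF2 : F ∈ closure ((Submodule.span ℂ (Set.range (@fourier (2 * Real.pi))) : Submodule ℂ C(AddCircle (2 * Real.pi), ℂ)) : Set C(AddCircle (2 * Real.pi), ℂ)) := hF
  obtain ⟨g, hg, hgd⟩ := Metric.mem_closure_iff.mp hF2 ε hε
  obtain ⟨p, hp⟩ := CirA_span g hg 1
  refine ⟨p.natDegree, p.coeff, fun θ => ?_⟩
  have h1 : (∑ n ∈ Finset.range (p.natDegree + 1), p.coeff n * Complex.exp (n * (θ * Complex.I))) = p.eval (Complex.exp (θ * Complex.I)) := by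
    rw [Polynomial.eval_eq_sum_range]
    refine Finset.sum_congr rfl fun n _ => ?_
    rw [← Complex.exp_nat_mul]
  rw [h1, ← hp θ, one_mul]
  have h2 : ‖(F - g) (θ : AddCircle (2 * Real.pi))‖ ≤ ε := by
    refine le_trans (ContinuousMap.norm_coe_le_norm _ _) ?_
    rw [← dist_eq_norm]
    exact hgd.le
  have h3 : φ θ - (g (θ : AddCircle (2 * Real.pi))).re = ((F - g) (θ : AddCircle (2 * Real.pi))).re := by
    rw [ContinuousMap.sub_apply, Complex.sub_re]
    have h4 : F (θ : AddCircle (2 * Real.pi)) = ((φ θ : ℝ) : ℂ) := by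
      change ((hP.lift (θ : AddCircle (2 * Real.pi)) : ℝ) : ℂ) = _
      rw [Function.Periodic.lift_coe]
    rw [h4, Complex.ofReal_re]
  rw [h3]
  exact (Complex.abs_re_le_norm _).trans h2

theorem circle_approx {R : ℝ} (hR : 0 < R) (φ : ℂ → ℝ) (hφ : ContinuousOn φ (sphere (0 : ℂ) R)) {ε : ℝ} (hε : 0 < ε) :
    ∃ g : ℂ → ℂ, Differentiable ℂ g ∧ ∀ z ∈ sphere (0 : ℂ) R, |(g z).re - φ z| ≤ ε := by
  have hmem : ∀ θ : ℝ, ((R : ℂ) * Complex.exp (θ * Complex.I)) ∈ sphere (0 : ℂ) R := by
    intro θ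
    rw [mem_sphere_zero_iff_norm, norm_mul, Complex.norm_exp_ofReal_mul_I, mul_one, Complex.norm_real, Real.norm_eq_abs, abs_of_pos hR]
  have hc : Continuous fun θ : ℝ => φ ((R : ℂ) * Complex.exp (θ * Complex.I)) := by
    refine hφ.comp_continuous ?_ hmem
    exact continuous_const.mul (Complex.continuous_exp.comp (Complex.continuous_ofReal.mul continuous_const))
  have hper : ∀ θ : ℝ, φ ((R : ℂ) * Complex.exp (((θ + 2 * Real.pi : ℝ) : ℂ) * Complex.I)) = φ ((R : ℂ) * Complex.exp ((θ : ℂ) * Complex.I)) := by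
    intro θ
    congr 2
    push_cast
    rw [add_mul]
    exact Complex.exp_periodic _
  obtain ⟨m, c, hmc⟩ := trig_approx (fun θ : ℝ => φ ((R : ℂ) * Complex.exp (θ * Complex.I))) hc hper hε
  refine ⟨fun z => ∑ n ∈ Finset.range (m + 1), c n * (z / R) ^ n, ?_, ?_⟩
  · refine Differentiable.fun_sum fun n _ => ?_
    exact ((differentiable_id.div_const _).pow n).const_mul _
  · intro z hz
    have hRne : (R : ℂ) ≠ 0 := by exact_mod_cast hR.ne'
    have hzn : ‖z‖ = R := mem_sphere_zero_iff_norm.mp hz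
    have hz1 : z = (R : ℂ) * Complex.exp ((z.arg : ℝ) * Complex.I) := by
      conv_lhs => rw [← Complex.norm_mul_exp_arg_mul_I z, hzn]
    have h := hmc z.arg
    have h5 : (∑ n ∈ Finset.range (m + 1), c n * (z / R) ^ n) = ∑ n ∈ Finset.range (m + 1), c n * Complex.exp (n * ((z.arg : ℝ) * Complex.I)) := by
      refine Finset.sum_congr rfl fun n _ => ?_
      have : z / R = Complex.exp ((z.arg : ℝ) * Complex.I) := by
        rw [div_eq_iff hRne, mul_comm]
        exact hz1
      rw [this, Complex.exp_nat_mul]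
    simp only
    rw [h5, abs_sub_comm]
    simp only [← hz1] at h
    exact h

end Pool.Agent.H36.BP

end

section

/-!
# BP CirB: approximation on two circles

`trig_approx` on both circles: `φ(r e^(iθ)) ≈ Re ∑ a_n e^(inθ)`, `φ(R e^(iθ)) ≈ Re ∑ b_n e^(inθ)` (common `m`, pad with zeros).  For `n ≥ 1` the function
`Re(c_n z^n + d_n z^(-n))` has at `z = ρ e^(iθ)` the value `Re((c_n ρ^n + conj(d_n) ρ^(-n)) e^(inθ))`; solve `c_n r^n + conj(d_n) r^(-n) = a_n`,
`c_n R^n + conj(d_n) R^(-n) = b_n` (determinant `(r/R)^n - (R/r)^n ≠ 0`).  For `n = 0`: real `a`, `b` with `a + b log r = Re a_0`, `a + b log R = Re b_0`.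
`g z = a + ∑_{n ≥ 1} (c_n z^n + d_n z^(-n))`.
-/

set_option autoImplicit false

namespace Pool.Agent.H36.BP

open Filter Topology Metric

variable {N : ℕ}

private theorem CirB_key (ρ : ℝ) (c d : ℂ) (n : ℕ) (θ : ℝ) :
    (c * ((ρ : ℂ) * Complex.exp (θ * Complex.I)) ^ n + d * (((ρ : ℂ) * Complex.exp (θ * Complex.I))⁻¹) ^ n).re
      = ((c * (ρ : ℂ) ^ n + (starRingEnd ℂ) d * ((ρ : ℂ) ^ n)⁻¹) * Complex.exp (n * (θ * Complex.I))).re := by
  have h1 : (c * ((ρ : ℂ) * Complex.exp (θ * Complex.I)) ^ n) = c * (ρ : ℂ) ^ n * Complex.exp (n * (θ * Complex.I)) := by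
    rw [mul_pow, ← Complex.exp_nat_mul, mul_assoc]
  have h2 : (starRingEnd ℂ) (d * (((ρ : ℂ) * Complex.exp (θ * Complex.I))⁻¹) ^ n)
      = (starRingEnd ℂ) d * ((ρ : ℂ) ^ n)⁻¹ * Complex.exp (n * (θ * Complex.I)) := by
    have h3 : (((ρ : ℂ) * Complex.exp (θ * Complex.I))⁻¹) ^ n = ((ρ : ℂ) ^ n)⁻¹ * Complex.exp (-(n * (θ * Complex.I))) := by
      rw [inv_pow, mul_pow, ← Complex.exp_nat_mul, mul_inv, Complex.exp_neg]
    rw [h3, map_mul, map_mul, ← Complex.exp_conj]
    have h4 : (starRingEnd ℂ) (-(n * (θ * Complex.I))) = n * (θ * Complex.I) := by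
      simp
    rw [h4, map_inv₀, map_pow, Complex.conj_ofReal, mul_assoc]
  rw [Complex.add_re, h1, add_mul, Complex.add_re]
  congr 1
  rw [← Complex.conj_re, h2]

private theorem CirB_solve {r R : ℝ} (hr : 0 < r) (hrR : r < R) (a b : ℂ) (n : ℕ) (hn : n ≠ 0) :
    ∃ c d : ℂ, c * (r : ℂ) ^ n + (starRingEnd ℂ) d * ((r : ℂ) ^ n)⁻¹ = a ∧
      c * (R : ℂ) ^ n + (starRingEnd ℂ) d * ((R : ℂ) ^ n)⁻¹ = b := by
  have hR : 0 < R := hr.trans hrR
  have h1 : r ^ n < R ^ n := pow_lt_pow_left₀ hrR hr.le hn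
  have h2 : 0 < r ^ n := pow_pos hr n
  have h3 : 0 < R ^ n := pow_pos hR n
  have hr' : ((r : ℂ) ^ n) ≠ 0 := by exact_mod_cast h2.ne'
  have hR' : ((R : ℂ) ^ n) ≠ 0 := by exact_mod_cast h3.ne'
  have hD : ((r : ℂ) ^ n) ^ 2 - ((R : ℂ) ^ n) ^ 2 ≠ 0 := by
    have : (r ^ n) ^ 2 - (R ^ n) ^ 2 ≠ 0 := by nlinarith
    exact_mod_cast this
  refine ⟨(a * (r : ℂ) ^ n - b * (R : ℂ) ^ n) / (((r : ℂ) ^ n) ^ 2 - ((R : ℂ) ^ n) ^ 2),
    (starRingEnd ℂ) ((r : ℂ) ^ n * (R : ℂ) ^ n * ((r : ℂ) ^ n * b - (R : ℂ) ^ n * a) / (((r : ℂ) ^ n) ^ 2 - ((R : ℂ) ^ n) ^ 2)), ?_, ?_⟩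
  · rw [Complex.conj_conj]
    field_simp
    ring
  · rw [Complex.conj_conj]
    field_simp
    ring

private theorem CirB_pad (m m' : ℕ) (hm : m ≤ m') (a : ℕ → ℂ) (f : ℕ → ℂ) :
    ∑ n ∈ Finset.range (m + 1), a n * f n = ∑ n ∈ Finset.range (m' + 1), (if n ≤ m then a n else 0) * f n := by
  have h : Finset.range (m + 1) ⊆ Finset.range (m' + 1) := by
    intro x hx
    rw [Finset.mem_range] at hx ⊢
    omega
  rw [← Finset.sum_subset h]
  · apply Finset.sum_congr rfl
    intro x hx
    rw [Finset.mem_range] at hx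
    rw [if_pos (by omega)]
  · intro x _ hx
    rw [Finset.mem_range] at hx
    rw [if_neg (by omega), zero_mul]

private theorem CirB_circ (φ : ℂ → ℝ) (ρ : ℝ) (hρ : 0 < ρ) (S : Set ℂ) (hS : sphere (0 : ℂ) ρ ⊆ S) (hφ : ContinuousOn φ S)
    {ε : ℝ} (hε : 0 < ε) :
    ∃ (m : ℕ) (c : ℕ → ℂ), ∀ θ : ℝ, |φ (ρ * Complex.exp (θ * Complex.I)) -
      (∑ n ∈ Finset.range (m + 1), c n * Complex.exp (n * (θ * Complex.I))).re| ≤ ε := by
  apply trig_approx (fun θ : ℝ => φ (ρ * Complex.exp (θ * Complex.I))) _ _ hε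
  · apply hφ.comp_continuous
    · fun_prop
    · intro θ
      apply hS
      rw [mem_sphere_zero_iff_norm, norm_mul, Complex.norm_exp_ofReal_mul_I, mul_one, Complex.norm_real, Real.norm_eq_abs, abs_of_pos hρ]
  · intro θ
    have : Complex.exp (((θ + 2 * Real.pi : ℝ) : ℂ) * Complex.I) = Complex.exp (θ * Complex.I) := by
      have h := Complex.exp_periodic (θ * Complex.I)
      rw [← h]
      congr 1
      push_cast
      ring
    show φ (ρ * Complex.exp (((θ + 2 * Real.pi : ℝ) : ℂ) * Complex.I)) = _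
    rw [this]

theorem annulus_approx {r R : ℝ} (hr : 0 < r) (hrR : r < R) (φ : ℂ → ℝ) (hφ : ContinuousOn φ (sphere (0 : ℂ) r ∪ sphere (0 : ℂ) R))
    {ε : ℝ} (hε : 0 < ε) : ∃ (g : ℂ → ℂ) (b : ℝ), DifferentiableOn ℂ g {0}ᶜ ∧
      ∀ z ∈ sphere (0 : ℂ) r ∪ sphere (0 : ℂ) R, |(g z).re + b * Real.log ‖z‖ - φ z| ≤ ε := by
  have hR : 0 < R := hr.trans hrR
  obtain ⟨m₁, a₁, h₁⟩ := CirB_circ φ r hr _ Set.subset_union_left hφ hε
  obtain ⟨m₂, a₂, h₂⟩ := CirB_circ φ R hR _ Set.subset_union_right hφ hε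
  set m := max m₁ m₂ with hm
  set A : ℕ → ℂ := fun n => if n ≤ m₁ then a₁ n else 0 with hA
  set B : ℕ → ℂ := fun n => if n ≤ m₂ then a₂ n else 0 with hB
  have h₁' : ∀ θ : ℝ, |φ (r * Complex.exp (θ * Complex.I)) -
      (∑ n ∈ Finset.range (m + 1), A n * Complex.exp (n * (θ * Complex.I))).re| ≤ ε := by
    intro θ
    have := h₁ θ
    rw [CirB_pad m₁ m (le_max_left _ _) a₁ (fun n => Complex.exp (n * (θ * Complex.I)))] at this
    exact this
  have h₂' : ∀ θ : ℝ, |φ (R * Complex.exp (θ * Complex.I)) -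
      (∑ n ∈ Finset.range (m + 1), B n * Complex.exp (n * (θ * Complex.I))).re| ≤ ε := by
    intro θ
    have := h₂ θ
    rw [CirB_pad m₂ m (le_max_right _ _) a₂ (fun n => Complex.exp (n * (θ * Complex.I)))] at this
    exact this
  have hex : ∀ n : ℕ, ∃ c d : ℂ, c * (r : ℂ) ^ (n + 1) + (starRingEnd ℂ) d * ((r : ℂ) ^ (n + 1))⁻¹ = A (n + 1) ∧
      c * (R : ℂ) ^ (n + 1) + (starRingEnd ℂ) d * ((R : ℂ) ^ (n + 1))⁻¹ = B (n + 1) :=
    fun n => CirB_solve hr hrR _ _ (n + 1) (Nat.succ_ne_zero n)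
  choose c d hc hd using hex
  have hlog : Real.log r < Real.log R := Real.log_lt_log hr hrR
  obtain ⟨a, b, hab1, hab2⟩ : ∃ a b : ℝ, a + b * Real.log r = (A 0).re ∧ a + b * Real.log R = (B 0).re := by
    refine ⟨(A 0).re - ((B 0).re - (A 0).re) / (Real.log R - Real.log r) * Real.log r,
      ((B 0).re - (A 0).re) / (Real.log R - Real.log r), by ring, ?_⟩
    have : Real.log R - Real.log r ≠ 0 := by linarith
    field_simp
    ring
  set g : ℂ → ℂ := fun z => (a : ℂ) + ∑ n ∈ Finset.range m, (c n * z ^ (n + 1) + d n * (z⁻¹) ^ (n + 1)) with hg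
  have hval : ∀ (ρ : ℝ) (C : ℕ → ℂ), 0 < ρ → a + b * Real.log ρ = (C 0).re →
      (∀ n, c n * (ρ : ℂ) ^ (n + 1) + (starRingEnd ℂ) (d n) * ((ρ : ℂ) ^ (n + 1))⁻¹ = C (n + 1)) →
      ∀ θ : ℝ, (g (ρ * Complex.exp (θ * Complex.I))).re + b * Real.log ρ
        = (∑ n ∈ Finset.range (m + 1), C n * Complex.exp (n * (θ * Complex.I))).re := by
    intro ρ C hρ h0 hC θ
    rw [Finset.sum_range_succ']
    simp only [hg, Complex.add_re, Complex.re_sum, Complex.ofReal_re]
    have e1 : ∀ n ∈ Finset.range m, (c n * ((ρ : ℂ) * Complex.exp (θ * Complex.I)) ^ (n + 1)).re +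
        (d n * (((ρ : ℂ) * Complex.exp (θ * Complex.I))⁻¹) ^ (n + 1)).re
        = (C (n + 1) * Complex.exp (((n + 1 : ℕ) : ℂ) * (θ * Complex.I))).re := by
      intro n _
      rw [← Complex.add_re, CirB_key, hC n]
    rw [Finset.sum_congr rfl e1]
    have e2 : (C 0 * Complex.exp (((0 : ℕ) : ℂ) * (θ * Complex.I))).re = a + b * Real.log ρ := by
      rw [h0]; simp
    rw [e2]
    ring
  refine ⟨g, b, ?_, ?_⟩
  · intro z hz
    have hz0 : z ≠ 0 := hz
    apply DifferentiableAt.differentiableWithinAt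
    rw [hg]
    apply DifferentiableAt.const_add
    apply DifferentiableAt.fun_sum
    intro n _
    exact ((differentiableAt_id.pow _).const_mul _).add (((differentiableAt_inv hz0).pow _).const_mul _)
  · have harg : ∀ (z : ℂ), z = (‖z‖ : ℂ) * Complex.exp (Complex.arg z * Complex.I) := fun z => (Complex.norm_mul_exp_arg_mul_I z).symm
    rintro z (hz | hz)
    · rw [mem_sphere_zero_iff_norm] at hz
      have h3 := h₁' (Complex.arg z)
      have h4 := hval r A hr hab1 hc (Complex.arg z)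
      have h5 := harg z
      rw [hz] at h5
      rw [← h5] at h3 h4
      rw [hz, h4, abs_sub_comm]
      exact h3
    · rw [mem_sphere_zero_iff_norm] at hz
      have h3 := h₂' (Complex.arg z)
      have h4 := hval R B hR hab2 hd (Complex.arg z)
      have h5 := harg z
      rw [hz] at h5
      rw [← h5] at h3 h4
      rw [hz, h4, abs_sub_comm]
      exact h3

end Pool.Agent.H36.BP

end

section

/-!
# OC Defs: ordered configurations and discriminant level sets

`P_z = X^n + z_1 X^(n-1) + ... + z_n`; `SG n` is the level set `z_1 = 0`, discriminant `1`; `MF k` is the set of the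
ordered configurations `x` with `sum x = 0`, `prod_(i<j) (x_i - x_j) = 1`.
-/

set_option autoImplicit false

open Polynomial Filter Topology

noncomputable section

namespace Pool.Agent.H60.OC

/-- The polynomial `X^n + z_1 X^(n-1) + ... + z_n` (the coordinate `z_(i+1)` is `z i`). -/
def poly {n : ℕ} (z : Fin n → ℂ) : ℂ[X] := X ^ n + ∑ i : Fin n, C (z i) * X ^ (n - 1 - (i : ℕ))

/-- `x` is a list of the roots of `P_z`, with multiplicities. -/
def IsRoots {n : ℕ} (x z : Fin n → ℂ) : Prop := poly z = ∏ i, (X - C (x i))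

end Pool.Agent.H60.OC

end
end

section

/-!
# OC Root: coefficients and roots
-/

set_option autoImplicit false

open Filter Topology Polynomial

noncomputable section

namespace Pool.Agent.H60.OC

theorem roots_eval {n : ℕ} {x z : Fin n → ℂ} (h : IsRoots x z) (i : Fin n) : (poly z).eval (x i) = 0 := by
  rw [h, eval_prod]
  exact Finset.prod_eq_zero (Finset.mem_univ i) (by simp)

/-- Two lists of the roots: a permutation, if one of them has no repetitions. -/
theorem exists_perm {n : ℕ} {x x' z : Fin n → ℂ} (h : IsRoots x z) (h' : IsRoots x' z) (hx : Function.Injective x') :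
    ∃ σ : Equiv.Perm (Fin n), x' = fun i => x (σ i) := by
  have h1 : ∀ i, ∃ j, x' i = x j := by
    intro i
    have h2 := roots_eval h' i
    rw [h, eval_prod] at h2
    obtain ⟨j, -, hj⟩ := Finset.prod_eq_zero_iff.1 h2
    rw [eval_sub, eval_X, eval_C] at hj
    exact ⟨j, sub_eq_zero.1 hj⟩
  choose g hg using h1
  have hgi : Function.Injective g := by
    intro i j hij
    apply hx
    rw [hg i, hg j, hij]
  exact ⟨Equiv.ofBijective g (Finite.injective_iff_bijective.1 hgi), funext hg⟩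

end Pool.Agent.H60.OC

end
end

section

/-!
# OC RootAna: continuous simple roots are holomorphic
-/

set_option autoImplicit false

open Filter Topology Polynomial

noncomputable section

namespace Pool.Agent.H60.OC

theorem root_diff {n : ℕ} {a ρ : ℂ → (Fin n → ℂ)} {w₁ : ℂ} (ha : DifferentiableAt ℂ a w₁) (hρ : ContinuousAt ρ w₁)
    (hr : ∀ᶠ w in 𝓝 w₁, IsRoots (ρ w) (a w)) (hi : Function.Injective (ρ w₁)) (i : Fin n) :
    DifferentiableAt ℂ (fun w => ρ w i) w₁ := by
  classical
  have hρj : ∀ j, ContinuousAt (fun w => ρ w j) w₁ := fun j => continuousAt_pi.1 hρ j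
  have haj : ∀ j, DifferentiableAt ℂ (fun w => a w j) w₁ := fun j => differentiableAt_pi.1 ha j
  set R : ℂ → ℂ := fun w => ∏ j ∈ Finset.univ.erase i, (ρ w i - ρ w₁ j) with hR
  have hRc : ContinuousAt R w₁ := by
    rw [hR]
    exact tendsto_finsetProd _ fun j _ => (hρj i).sub continuousAt_const
  have hR0 : R w₁ ≠ 0 := Finset.prod_ne_zero_iff.2 fun j hj => sub_ne_zero.2 fun h =>
    (Finset.ne_of_mem_erase hj) (hi h).symm
  have hRe : ∀ᶠ w in 𝓝 w₁, R w ≠ 0 := hRc.eventually_ne hR0
  have key : ∀ᶠ w in 𝓝 w₁, (ρ w i - ρ w₁ i) * R w = -∑ j : Fin n, (a w j - a w₁ j) * ρ w i ^ (n - 1 - (j : ℕ)) := by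
    have h1 := hr.self_of_nhds
    filter_upwards [hr] with w hw
    have h2 : (poly (a w₁)).eval (ρ w i) = (ρ w i - ρ w₁ i) * R w := by
      rw [h1, eval_prod, ← Finset.mul_prod_erase Finset.univ _ (Finset.mem_univ i)]
      simp [hR]
    have h3 := roots_eval hw i
    rw [← h2]
    have h4 : (poly (a w₁)).eval (ρ w i) = (poly (a w₁)).eval (ρ w i) - (poly (a w)).eval (ρ w i) := by rw [h3, sub_zero]
    rw [h4]
    unfold poly
    simp only [eval_add, eval_pow, eval_X, eval_finsetSum, eval_mul, eval_C]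
    rw [add_sub_add_left_eq_sub, ← Finset.sum_sub_distrib, ← Finset.sum_neg_distrib]
    refine Finset.sum_congr rfl fun j _ => ?_
    ring
  have hlim : HasDerivAt (fun w => ρ w i) (-∑ j : Fin n, deriv (fun w => a w j) w₁ * ρ w₁ i ^ (n - 1 - (j : ℕ)) * (R w₁)⁻¹) w₁ := by
    rw [hasDerivAt_iff_tendsto_slope]
    have h1 : Tendsto (fun w => -∑ j : Fin n, slope (fun w => a w j) w₁ w * ρ w i ^ (n - 1 - (j : ℕ)) * (R w)⁻¹) (𝓝[≠] w₁)
        (𝓝 (-∑ j : Fin n, deriv (fun w => a w j) w₁ * ρ w₁ i ^ (n - 1 - (j : ℕ)) * (R w₁)⁻¹)) := by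
      refine (tendsto_finsetSum _ fun j _ => ?_).neg
      refine Tendsto.mul (Tendsto.mul (hasDerivAt_iff_tendsto_slope.1 (haj j).hasDerivAt) ?_) ?_
      · exact (((hρj i).pow _).tendsto).mono_left nhdsWithin_le_nhds
      · exact ((hRc.inv₀ hR0).tendsto).mono_left nhdsWithin_le_nhds
    refine h1.congr' ?_
    have h2 : ∀ᶠ w in 𝓝[≠] w₁, w ∈ ({w₁}ᶜ : Set ℂ) := self_mem_nhdsWithin
    filter_upwards [h2, nhdsWithin_le_nhds key, nhdsWithin_le_nhds hRe] with w hw hk hRw
    have hne : w - w₁ ≠ 0 := sub_ne_zero.2 hw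
    rw [slope_def_field, eq_div_iff hne]
    refine mul_right_cancel₀ hRw ?_
    rw [hk, neg_mul, neg_mul, Finset.sum_mul, Finset.sum_mul]
    congr 1
    refine Finset.sum_congr rfl fun j _ => ?_
    rw [slope_def_field]
    field_simp
  exact hlim.differentiableAt

end Pool.Agent.H60.OC

end
end

section

set_option autoImplicit false

/-!
# Hyperbolicity notions for multiple cyclic covers

The ambient space is the total space of the vector bundle `⊕ O (e j)` over `ℙ^N (ℂ)`, that is, the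
open subset `x ≠ 0` of the weighted projective space with coordinates `x 0, …, x N` of weight one
and `y j` of weight `e j`.
-/

open MvPolynomial Topology

namespace Pool.Agent.H99.Cover

variable {N : ℕ} {ι : Type}

/-- Homogeneous coordinates `(x, y)`. -/
abbrev Coord (N : ℕ) (ι : Type) : Type := (Fin (N + 1) → ℂ) × (ι → ℂ)

/-- The relation `(x, y) ~ (c x, c ^ (e j) y j)`, for `c ≠ 0`. -/
def Rel (e : ι → ℕ) (q q' : Coord N ι) : Prop :=
  ∃ c : ℂ, c ≠ 0 ∧ (∀ i, q'.1 i = c * q.1 i) ∧ ∀ j, q'.2 j = c ^ e j * q.2 j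

lemma Rel.refl (e : ι → ℕ) (q : Coord N ι) : Rel e q q :=
  ⟨1, one_ne_zero, by simp, by simp⟩

lemma Rel.symm {e : ι → ℕ} {q q' : Coord N ι} (h : Rel e q q') : Rel e q' q := by
  obtain ⟨c, hc, h1, h2⟩ := h
  refine ⟨c⁻¹, inv_ne_zero hc, fun i => ?_, fun j => ?_⟩
  · rw [h1 i, inv_mul_cancel_left₀ hc]
  · rw [h2 j, inv_pow, inv_mul_cancel_left₀ (pow_ne_zero _ hc)]

lemma Rel.trans {e : ι → ℕ} {q q' q'' : Coord N ι} (h : Rel e q q') (h' : Rel e q' q'') :
    Rel e q q'' := by
  obtain ⟨c, hc, h1, h2⟩ := h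
  obtain ⟨c', hc', h1', h2'⟩ := h'
  refine ⟨c' * c, mul_ne_zero hc' hc, fun i => ?_, fun j => ?_⟩
  · rw [h1' i, h1 i, mul_assoc]
  · rw [h2' j, h2 j, mul_pow, mul_assoc]

/-- Homogeneous coordinates with `x ≠ 0`. -/
abbrev CoordNZ (N : ℕ) (ι : Type) : Type := {q : Coord N ι // q.1 ≠ 0}

/-- The equivalence relation on homogeneous coordinates. -/
def relSetoid (N : ℕ) (e : ι → ℕ) : Setoid (CoordNZ N ι) where
  r q q' := Rel e q.1 q'.1
  iseqv := ⟨fun q => Rel.refl e q.1, fun h => h.symm, fun h h' => h.trans h'⟩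

/-- The total space of `⊕ O (e j)` over `ℙ^N (ℂ)`. -/
def Tot (N : ℕ) (e : ι → ℕ) : Type := Quotient (relSetoid N e)

/-- The point with homogeneous coordinates `q`. -/
def mk (e : ι → ℕ) (q : Coord N ι) (h : q.1 ≠ 0) : Tot N e := Quotient.mk (relSetoid N e) ⟨q, h⟩

/-- `f` is holomorphic on `U ⊆ ℂ` as a map into the total space: near every point of `U` it is
given by holomorphic homogeneous coordinates `(x, y)` with `x ≠ 0`. -/
def HolomorphicInto {e : ι → ℕ} [Fintype ι] (f : ℂ → Tot N e) (U : Set ℂ) : Prop :=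
  ∀ z₀ ∈ U, ∃ φ : ℂ → Coord N ι, AnalyticAt ℂ φ z₀ ∧
    ∀ᶠ z in 𝓝 z₀, ∃ h : (φ z).1 ≠ 0, f z = mk e (φ z) h

/-- The weights of the variables `x i` and `y j`. -/
def weights (N : ℕ) (e : ι → ℕ) : Fin (N + 1) ⊕ ι → ℕ := Sum.elim (fun _ => 1) e

/-- The polynomial `P (x, y)` vanishes at the point `x`.  For weighted homogeneous `P` this does
not depend on the homogeneous coordinates. -/
def VanishesAt {e : ι → ℕ} (P : MvPolynomial (Fin (N + 1) ⊕ ι) ℂ) (x : Tot N e) : Prop :=
  ∀ (q : Coord N ι) (h : q.1 ≠ 0), x = mk e q h → eval (Sum.elim q.1 q.2) P = 0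

/-- `Ξ` is a Zariski closed subset of the subset `X` of the total space. -/
def ZariskiClosedIn {e : ι → ℕ} (X Ξ : Set (Tot N e)) : Prop :=
  ∃ S : Set (MvPolynomial (Fin (N + 1) ⊕ ι) ℂ),
    (∀ P ∈ S, ∃ n, IsWeightedHomogeneous (weights N e) P n) ∧
    Ξ = {x | x ∈ X ∧ ∀ P ∈ S, VanishesAt P x}

/-- The punctured open unit disc. -/
def puncturedDisc : Set ℂ := Metric.ball 0 1 \ {0}

end Pool.Agent.H99.Cover

end

section

/-!
# LG Cv1: a plane model of a function field over a rational function field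

`K` is finitely generated over `ℂ`, `s` is a transcendence basis.  `K` is a finite extension of `ℂ(s)` (characteristic `0`), `K = ℂ(s)(y)` (`Field.exists_primitive_element`), and `y` can be taken integral over `ℂ[s]` (multiply with a common denominator of the minimal
polynomial).  `M ∈ ℂ[s][T]` is the monic minimal polynomial over `ℂ(s)`; its coefficients are in `ℂ[s]`, because `ℂ[s]` is integrally closed (`minpoly.isIntegrallyClosed_eq_field_fractions`).

* `root`, `ker`: the kernel of `ℂ[s][T] → K` is generated by `M` (division by the monic `M`, and `minpoly.dvd`).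
* `sep`: `M` and `M'` are relatively prime over `ℂ(s)`; multiply with a common denominator.
* `frac`: every element of `ℂ(s)[y]` is `p(s, y) / q(s)`.
-/

set_option autoImplicit false

open MvPolynomial

noncomputable section

namespace Pool.Agent.LG

section Core

variable {R F K : Type} [CommRing R] [IsDomain R] [Field F] [Algebra R F] [IsFractionRing R F]
  [Field K] [Algebra R K] [Algebra F K] [IsScalarTower R F K]

/-- a polynomial over the field of fractions has a multiple with coefficients in `R` -/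
private theorem clear (p : Polynomial F) :
    ∃ (q : R) (p' : Polynomial R), q ≠ 0 ∧ p'.map (algebraMap R F) = Polynomial.C (algebraMap R F q) * p := by
  obtain ⟨b, hb, h⟩ := IsLocalization.integerNormalization_spec (nonZeroDivisors R) p
  refine ⟨b, _, nonZeroDivisors.ne_zero hb, h.trans ?_⟩
  ext i
  rw [Polynomial.coeff_smul, Polynomial.coeff_C_mul, Algebra.smul_def]

private theorem plane_core [IsIntegrallyClosed R] [CharZero F] [Module.Finite F K] :
    ∃ (y : K) (M : Polynomial R), M.Monic ∧ Polynomial.aeval y M = 0 ∧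
      (∀ p : Polynomial R, Polynomial.aeval y p = 0 → M ∣ p) ∧
      (∃ (a b : Polynomial R) (g : R), g ≠ 0 ∧ M * a + Polynomial.derivative M * b = Polynomial.C g) ∧
      ∀ f : K, ∃ (p : Polynomial R) (q : R), q ≠ 0 ∧ f * algebraMap R K q = Polynomial.aeval y p := by
  have hinjF : Function.Injective (algebraMap R F) := IsFractionRing.injective R F
  have hinj : Function.Injective (algebraMap R K) := by
    rw [IsScalarTower.algebraMap_eq R F K]
    exact (algebraMap F K).injective.comp hinjF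
  have hfs : FaithfulSMul R K := (faithfulSMul_iff_algebraMap_injective R K).2 hinj
  have hts : Module.IsTorsionFree R K := inferInstance
  obtain ⟨α, hα⟩ := Field.exists_primitive_element F K
  have hal : IsAlgebraic R α := by
    have h1 : IsAlgebraic F α := Algebra.IsAlgebraic.isAlgebraic α
    exact (IsFractionRing.isAlgebraic_iff R F K).2 h1
  obtain ⟨r, hr, hint⟩ := hal.exists_integral_multiple
  set y : K := r • α with hy
  have hr' : algebraMap R K r ≠ 0 := fun h => hr (hinj (by rw [h, map_zero]))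
  have htop : IntermediateField.adjoin F {y} = ⊤ := by
    rw [eq_top_iff, ← hα, IntermediateField.adjoin_simple_le_iff]
    have h1 : α = y * (algebraMap F K (algebraMap R F r))⁻¹ := by
      rw [← IsScalarTower.algebraMap_apply, hy, Algebra.smul_def, mul_comm, ← mul_assoc,
        inv_mul_cancel₀ hr', one_mul]
    rw [h1]
    exact mul_mem (IntermediateField.mem_adjoin_simple_self F y)
      (inv_mem ((IntermediateField.adjoin F {y}).algebraMap_mem _))
  have hyF : IsIntegral F y := Algebra.IsIntegral.isIntegral y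
  have hmin : minpoly F y = (minpoly R y).map (algebraMap R F) :=
    minpoly.isIntegrallyClosed_eq_field_fractions' F hint
  refine ⟨y, minpoly R y, minpoly.monic hint, minpoly.aeval R y,
    fun p hp => minpoly.isIntegrallyClosed_dvd hint hp, ?_, ?_⟩
  · have hsep : (minpoly F y).Separable := (minpoly.irreducible hyF).separable
    obtain ⟨a, b, hab⟩ := hsep
    obtain ⟨q₁, a', hq₁, ha'⟩ := clear (R := R) a
    obtain ⟨q₂, b', hq₂, hb'⟩ := clear (R := R) b
    refine ⟨Polynomial.C q₂ * a', Polynomial.C q₁ * b', q₁ * q₂, mul_ne_zero hq₁ hq₂, ?_⟩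
    apply Polynomial.map_injective _ hinjF
    rw [Polynomial.map_add, Polynomial.map_mul, Polynomial.map_mul, Polynomial.map_mul, Polynomial.map_mul,
      ← Polynomial.derivative_map, ← hmin, ha', hb', Polynomial.map_C, Polynomial.map_C, Polynomial.map_C,
      map_mul, Polynomial.C_mul]
    calc minpoly F y * (Polynomial.C (algebraMap R F q₂) * (Polynomial.C (algebraMap R F q₁) * a)) +
          Polynomial.derivative (minpoly F y) *
            (Polynomial.C (algebraMap R F q₁) * (Polynomial.C (algebraMap R F q₂) * b))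
        = Polynomial.C (algebraMap R F q₁) * Polynomial.C (algebraMap R F q₂) *
            (a * minpoly F y + b * Polynomial.derivative (minpoly F y)) := by ring
      _ = Polynomial.C (algebraMap R F q₁) * Polynomial.C (algebraMap R F q₂) := by rw [hab, mul_one]
  · intro f
    have h1 : f ∈ Algebra.adjoin F {y} := by
      rw [(IntermediateField.adjoin_simple_eq_top_iff_of_isAlgebraic hyF.isAlgebraic).1 htop]
      exact Algebra.mem_top
    obtain ⟨p, rfl⟩ := Algebra.adjoin_singleton_eq_range_aeval F y ▸ h1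
    obtain ⟨q, p', hq, hp'⟩ := clear (R := R) p
    refine ⟨p', q, hq, ?_⟩
    have h2 : Polynomial.aeval y p' = Polynomial.aeval y (p'.map (algebraMap R F)) :=
      (Polynomial.aeval_map_algebraMap F y p').symm
    rw [h2, hp', map_mul, Polynomial.aeval_C, ← IsScalarTower.algebraMap_apply, mul_comm]
    rfl

end Core

variable {K : Type} [Field K] [Algebra ℂ K] {n : ℕ}

/-- the value of the polynomial `p(s, y)` -/
def pv (s : Fin n → K) (y : K) (p : Polynomial (MvPolynomial (Fin n) ℂ)) : K := p.eval₂ (aeval s : MvPolynomial (Fin n) ℂ →ₐ[ℂ] K).toRingHom y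

/-- `K = ℂ(s)(y)`, and `M(s, y) = 0` is the equation of `y` -/
structure Plane (s : Fin n → K) (y : K) (M : Polynomial (MvPolynomial (Fin n) ℂ)) : Prop where
  monic : M.Monic
  root : pv s y M = 0
  ker : ∀ p, pv s y p = 0 → M ∣ p
  sep : ∃ (a b : Polynomial (MvPolynomial (Fin n) ℂ)) (g : MvPolynomial (Fin n) ℂ), g ≠ 0 ∧ M * a + Polynomial.derivative M * b = Polynomial.C g
  frac : ∀ f : K, ∃ (p : Polynomial (MvPolynomial (Fin n) ℂ)) (q : MvPolynomial (Fin n) ℂ), q ≠ 0 ∧ f * aeval s q = pv s y p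

theorem exists_plane [Algebra.EssFiniteType ℂ K] {s : Fin n → K} (hs : IsTranscendenceBasis ℂ s) : ∃ y M, Plane s y M := by
  let _ : Algebra (MvPolynomial (Fin n) ℂ) K := (aeval s : MvPolynomial (Fin n) ℂ →ₐ[ℂ] K).toRingHom.toAlgebra
  have hmap : ∀ p, algebraMap (MvPolynomial (Fin n) ℂ) K p = aeval s p := fun p => rfl
  have hinj : Function.Injective (algebraMap (MvPolynomial (Fin n) ℂ) K) := hs.1
  have : FaithfulSMul (MvPolynomial (Fin n) ℂ) K := (faithfulSMul_iff_algebraMap_injective _ _).2 hinj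
  have : IsScalarTower ℂ (MvPolynomial (Fin n) ℂ) K := IsScalarTower.of_algebraMap_eq fun c => by
    rw [hmap]
    exact (AlgHom.commutes (aeval s) c).symm
  let _ : Algebra (FractionRing (MvPolynomial (Fin n) ℂ)) K := FractionRing.liftAlgebra _ K
  have : IsScalarTower (MvPolynomial (Fin n) ℂ) (FractionRing (MvPolynomial (Fin n) ℂ)) K :=
    FractionRing.isScalarTower_liftAlgebra _ K
  have : IsScalarTower ℂ (FractionRing (MvPolynomial (Fin n) ℂ)) K := IsScalarTower.of_algebraMap_eq fun c => by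
    rw [IsScalarTower.algebraMap_apply ℂ (MvPolynomial (Fin n) ℂ) (FractionRing (MvPolynomial (Fin n) ℂ)),
      ← IsScalarTower.algebraMap_apply (MvPolynomial (Fin n) ℂ) (FractionRing (MvPolynomial (Fin n) ℂ)) K,
      ← IsScalarTower.algebraMap_apply ℂ (MvPolynomial (Fin n) ℂ) K]
  have : Algebra.EssFiniteType (FractionRing (MvPolynomial (Fin n) ℂ)) K :=
    Algebra.EssFiniteType.of_comp ℂ (FractionRing (MvPolynomial (Fin n) ℂ)) K
  have : Algebra.IsAlgebraic (MvPolynomial (Fin n) ℂ) K := by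
    refine ⟨fun x => ?_⟩
    obtain ⟨p, hp, hpx⟩ := hs.isAlgebraic.isAlgebraic x
    set e : Algebra.adjoin ℂ (Set.range s) →+* MvPolynomial (Fin n) ℂ := (hs.1.aevalEquiv.symm : _ ≃ₐ[ℂ] _).toRingEquiv.toRingHom with he
    have he1 : ∀ a, aeval s (e a) = (a : K) := fun a => by
      have h2 := hs.1.algebraMap_aevalEquiv (hs.1.aevalEquiv.symm a)
      rw [AlgEquiv.apply_symm_apply] at h2
      exact h2.symm
    refine ⟨p.map e, ?_, ?_⟩
    · rw [Ne, Polynomial.map_eq_zero_iff (RingEquiv.injective _)]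
      exact hp
    · rw [← hpx]
      simp only [Polynomial.aeval_def, Polynomial.eval₂_map]
      congr 1
      ext a
      exact he1 a
  have : Algebra.IsAlgebraic (FractionRing (MvPolynomial (Fin n) ℂ)) K :=
    (IsFractionRing.comap_isAlgebraic_iff (A := MvPolynomial (Fin n) ℂ)).1 inferInstance
  have : Module.Finite (FractionRing (MvPolynomial (Fin n) ℂ)) K :=
    Algebra.finite_of_essFiniteType_of_isAlgebraic
  obtain ⟨y, M, h1, h2, h3, h4, h5⟩ :=
    plane_core (R := MvPolynomial (Fin n) ℂ) (F := FractionRing (MvPolynomial (Fin n) ℂ)) (K := K)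
  exact ⟨y, M, h1, h2, h3, h4, h5⟩

end Pool.Agent.LG

end
end

section

/-!
# LR RootLoc: continuous choice of the roots, local form

`roots_local`.  Let `r` be the (distinct) roots at `y₀`, `δ > 0` with `2 δ ≤ |r_i - r_j|` for `i ≠ j`.  `z ↦ (poly z).eval w`
is continuous in `z` (for fixed `w`), and `(poly (H y)).eval (r i) = ∏_j (r i - r'_j)` for every root list `r'` of `H y`,
so `|(poly (H y)).eval (r i)| < ε^n` forces some `|r i - r'_j| < ε`.  So for `y` near `y₀` every disc
`ball (r i) δ` contains a root `r'_j` of `H y`; the discs are disjoint, there are `n` of them, so each contains exactly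
one root; `ρ y i` = the root in the disc with centre `r i` (choose).  `V` = the set of `y` with
`|(poly (H y)).eval (r i)| < δ^n` for all `i` (open, contains `y₀`).  Continuity of `ρ` at a point `y₁` of `V`: the roots
of `H y₁` are `ρ y₁ i` (distinct); for small `ε` with `ball (ρ y₁ i) ε ⊆ ball (r i) δ` and `y` near `y₁` there is a root of
`H y` in `ball (ρ y₁ i) ε`, it is in `ball (r i) δ`, so it is `ρ y i`.  (For `n = 0` everything is trivial.)
-/

set_option autoImplicit false

open Topology Filter Polynomial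

noncomputable section

namespace Pool.Agent.LR

open Pool.Agent.H60.OC (poly IsRoots)

theorem rl_eval {n : ℕ} {r z : Fin n → ℂ} (h : IsRoots r z) (w : ℂ) :
    (poly z).eval w = ∏ j, (w - r j) := by
  rw [h, eval_prod]
  exact Finset.prod_congr rfl fun j _ => by simp

theorem rl_near {n : ℕ} {r z : Fin n → ℂ} (h : IsRoots r z) (w : ℂ) {ε : ℝ} (hε : 0 < ε)
    (hw : ‖(poly z).eval w‖ < ε ^ n) : ∃ j, ‖w - r j‖ < ε := by
  by_contra hcon
  push Not at hcon
  rw [rl_eval h, norm_prod] at hw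
  have h1 : ε ^ n = ∏ _j : Fin n, ε := by simp
  rw [h1] at hw
  exact absurd hw (not_lt.mpr (Finset.prod_le_prod (fun _ _ => hε.le) fun j _ => hcon j))

theorem rl_cont {n : ℕ} (w : ℂ) : Continuous fun z : Fin n → ℂ => (poly z).eval w := by
  unfold poly
  simp only [eval_add, eval_pow, eval_X, eval_finsetSum, eval_mul, eval_C]
  fun_prop

theorem rl_delta {n : ℕ} {r : Fin n → ℂ} (hr : Function.Injective r) :
    ∃ δ : ℝ, 0 < δ ∧ ∀ i j, ‖r i - r j‖ < 2 * δ → i = j := by
  classical
  rcases ((Finset.univ : Finset (Fin n × Fin n)).filter fun p => p.1 ≠ p.2).eq_empty_or_nonempty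
    with h | h
  · refine ⟨1, one_pos, fun i j _ => ?_⟩
    by_contra hne
    have : (i, j) ∈ ((Finset.univ : Finset (Fin n × Fin n)).filter fun p => p.1 ≠ p.2) := by
      rw [Finset.mem_filter]
      exact ⟨Finset.mem_univ _, hne⟩
    rw [h] at this
    exact absurd this (Finset.notMem_empty _)
  · obtain ⟨p, hp, hmin⟩ := Finset.exists_min_image _ (fun p : Fin n × Fin n => ‖r p.1 - r p.2‖) h
    rw [Finset.mem_filter] at hp
    have hpos : 0 < ‖r p.1 - r p.2‖ := norm_pos_iff.mpr (sub_ne_zero.mpr fun h => hp.2 (hr h))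
    refine ⟨‖r p.1 - r p.2‖ / 2, by positivity, fun i j hij => ?_⟩
    by_contra hne
    have h1 := hmin (i, j) (by
      rw [Finset.mem_filter]
      exact ⟨Finset.mem_univ _, hne⟩)
    simp only at h1
    linarith

theorem roots_local {Y : Type} [TopologicalSpace Y] {n : ℕ} {H : Y → (Fin n → ℂ)} (hH : Continuous H)
    (hd : ∀ y, ∃ r, IsRoots r (H y) ∧ Function.Injective r) (y₀ : Y) :
    ∃ (V : Set Y) (ρ : Y → (Fin n → ℂ)), IsOpen V ∧ y₀ ∈ V ∧ ContinuousOn ρ V ∧ ∀ y ∈ V, IsRoots (ρ y) (H y) := by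
  classical
  choose r' hr' hri' using hd
  obtain ⟨δ, hδ, hsep⟩ := rl_delta (hri' y₀)
  obtain ⟨r, hr⟩ : ∃ r, r = r' y₀ := ⟨_, rfl⟩
  rw [← hr] at hsep
  have hev : ∀ w, Continuous fun y => ‖(poly (H y)).eval w‖ := fun w => ((rl_cont w).comp hH).norm
  have hτ : ∀ y, ∃ τ : Fin n → Fin n, (∀ i, ‖(poly (H y)).eval (r i)‖ < δ ^ n) →
      ∀ i, ‖r i - r' y (τ i)‖ < δ := by
    intro y
    by_cases hy : ∀ i, ‖(poly (H y)).eval (r i)‖ < δ ^ n
    · have h1 : ∀ i, ∃ j, ‖r i - r' y j‖ < δ := fun i => rl_near (hr' y) (r i) hδ (hy i)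
      choose τ hτ using h1
      exact ⟨τ, fun _ => hτ⟩
    · exact ⟨id, fun h => absurd h hy⟩
  choose τ hτ using hτ
  have hinj : ∀ y, (∀ i, ‖(poly (H y)).eval (r i)‖ < δ ^ n) → Function.Injective (τ y) := by
    intro y hy i j hij
    apply hsep
    have h1 := hτ y hy i
    have h2 := hτ y hy j
    rw [hij] at h1
    have h3 : r i - r j = (r i - r' y (τ y j)) - (r j - r' y (τ y j)) := by ring
    rw [h3]
    refine lt_of_le_of_lt (norm_sub_le _ _) ?_
    linarith
  refine ⟨{y | ∀ i, ‖(poly (H y)).eval (r i)‖ < δ ^ n}, fun y i => r' y (τ y i), ?_, ?_, ?_, ?_⟩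
  · rw [Set.ofPred_forall]
    exact isOpen_iInter_of_finite fun i => isOpen_lt (hev (r i)) continuous_const
  · intro i
    rw [hr, Pool.Agent.H60.OC.roots_eval (hr' y₀) i, norm_zero]
    positivity
  · intro y₁ hy₁
    have hy₁' : ∀ i, ‖(poly (H y₁)).eval (r i)‖ < δ ^ n := hy₁
    refine ContinuousAt.continuousWithinAt ?_
    refine continuousAt_pi.mpr fun i => ?_
    rw [Metric.continuousAt_iff']
    intro ε hε
    obtain ⟨e, he⟩ : ∃ e, e = min ε (δ - ‖r i - r' y₁ (τ y₁ i)‖) := ⟨_, rfl⟩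
    have he0 : 0 < e := by
      rw [he]
      exact lt_min hε (by linarith [hτ y₁ hy₁' i])
    have h1 : ∀ᶠ y in 𝓝 y₁, ‖(poly (H y)).eval (r' y₁ (τ y₁ i))‖ < e ^ n := by
      refine (hev _).continuousAt.eventually_lt continuousAt_const ?_
      rw [Pool.Agent.H60.OC.roots_eval (hr' y₁) _, norm_zero]
      positivity
    have h2 : ∀ᶠ y in 𝓝 y₁, ∀ i, ‖(poly (H y)).eval (r i)‖ < δ ^ n := by
      rw [Filter.eventually_all]
      intro i
      exact (hev _).continuousAt.eventually_lt continuousAt_const (hy₁' i)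
    filter_upwards [h1, h2] with y hy1 hy2
    obtain ⟨j, hj⟩ := rl_near (hr' y) _ he0 hy1
    obtain ⟨i', hi'⟩ := (Finite.injective_iff_surjective.mp (hinj y hy2)) j
    have h3 : ‖r i - r' y j‖ < δ := by
      have e1 : r i - r' y j = (r i - r' y₁ (τ y₁ i)) + (r' y₁ (τ y₁ i) - r' y j) := by ring
      rw [e1]
      refine lt_of_le_of_lt (norm_add_le _ _) ?_
      have h4 : e ≤ δ - ‖r i - r' y₁ (τ y₁ i)‖ := by rw [he]; exact min_le_right _ _
      linarith
    have h5 := hτ y hy2 i'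
    rw [hi'] at h5
    have h6 : i = i' := by
      apply hsep
      have e1 : r i - r i' = (r i - r' y j) - (r i' - r' y j) := by ring
      rw [e1]
      refine lt_of_le_of_lt (norm_sub_le _ _) ?_
      linarith
    rw [dist_eq_norm, h6, hi', ← h6, norm_sub_rev]
    exact lt_of_lt_of_le hj (by rw [he]; exact min_le_left _ _)
  · intro y hy
    have hb : Function.Bijective (τ y) := Finite.injective_iff_bijective.mp (hinj y hy)
    have h1 := hr' y
    unfold IsRoots at h1 ⊢
    rw [h1]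
    exact (Function.Bijective.prod_comp hb fun j => (X - C (r' y j) : ℂ[X])).symm

end Pool.Agent.LR

end
end

section

/-!
# LR Cover: continuous choice of the roots, global form

`exists_perm_on`.  For `x ∈ W` there is a permutation `s_x` with `ρ' x (s_x j) = ρ x j` (`OC.exists_perm`: two root lists of
the same polynomial; `ρ x` injective), unique as `ρ' x` is injective.  For fixed `s` the set of the `x ∈ W` with
`s_x = s` is relatively closed (the equations `ρ' x (s j) = ρ x j`), and `W` is a finite disjoint union of these sets, so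
each is relatively clopen; `W` is preconnected, so `s_x` is constant on `W`.

`roots_simply`.  `E' = {p : Y × (Fin n → ℂ) | IsRoots p.2 (H p.1)} → Y` is a covering map (`IsCoveringMap`): over the open
set `V` of `roots_local` the map `V × Perm (Fin n) → E'`, `(y, s) ↦ (y, ρ y ∘ s)` is a homeomorphism onto the preimage of
`V` (`OC.exists_perm`; continuity of the inverse: the permutation is locally constant, as `ρ y` is injective and
continuous).  Then lift `id : Y → Y` with `IsCoveringMap.existsUnique_continuousMap_lifts` (`Y` simply connected, locally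
path connected).  Alternative: the covering `{p : Y × ℂ | (poly (H p.1)).eval p.2 = 0} → Y` with `n` sheets and `n` lifts.
If `Y` is simply connected it is nonempty, choose the base point.

`exists_roots_on`: apply this to the subtype `U` (an open star-shaped set: contractible, so simply connected; open in a
normed space, so locally path connected) and extend `ρ` by `0` outside `U`.
-/

set_option autoImplicit false

open Topology Filter Polynomial

noncomputable section

namespace Pool.Agent.LR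

open Pool.Agent.H60.OC (poly IsRoots)

/-- A root list is injective if some root list of the same polynomial is. -/
theorem cv_inj {n : ℕ} {x x' z : Fin n → ℂ} (h : IsRoots x z) (h' : IsRoots x' z)
    (hx : Function.Injective x') : Function.Injective x := by
  obtain ⟨σ, hσ⟩ := Pool.Agent.H60.OC.exists_perm h h' hx
  intro i j hij
  have h1 : x' (σ.symm i) = x' (σ.symm j) := by
    rw [hσ]
    simpa using hij
  exact σ.symm.injective (hx h1)

/-- The permutation matching two root lists, in the other direction. -/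
theorem cv_perm {n : ℕ} {x x' z : Fin n → ℂ} (h : IsRoots x z) (h' : IsRoots x' z)
    (hx : Function.Injective x) : ∃ s : Equiv.Perm (Fin n), ∀ j, x' (s j) = x j := by
  obtain ⟨σ, hσ⟩ := Pool.Agent.H60.OC.exists_perm h' h hx
  exact ⟨σ, fun j => (congrFun hσ j).symm⟩

/-- The set where a fixed permutation matches: relatively closed. -/
theorem cv_closed {Y : Type} [TopologicalSpace Y] {n : ℕ} {ρ ρ' : Y → (Fin n → ℂ)}
    (hc : Continuous ρ) (hc' : Continuous ρ') (s : Equiv.Perm (Fin n)) :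
    IsClosed {x | ∀ j, ρ' x (s j) = ρ x j} := by
  have e : {x | ∀ j, ρ' x (s j) = ρ x j} = ⋂ j, {x | ρ' x (s j) = ρ x j} := by
    ext x
    simp
  rw [e]
  exact isClosed_iInter fun j =>
    isClosed_eq ((continuous_apply (s j)).comp hc') ((continuous_apply j).comp hc)

/-- The set where a fixed permutation matches is clopen. -/
theorem cv_clopen {Y : Type} [TopologicalSpace Y] {n : ℕ} {ρ ρ' : Y → (Fin n → ℂ)}
    (hc : Continuous ρ) (hc' : Continuous ρ') {H : Y → (Fin n → ℂ)}
    (hr : ∀ x, IsRoots (ρ x) (H x)) (hr' : ∀ x, IsRoots (ρ' x) (H x))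
    (hi : ∀ x, Function.Injective (ρ x)) (s : Equiv.Perm (Fin n)) :
    IsClopen {x | ∀ j, ρ' x (s j) = ρ x j} := by
  refine ⟨cv_closed hc hc' s, ?_⟩
  rw [← isClosed_compl_iff]
  have e : {x | ∀ j, ρ' x (s j) = ρ x j}ᶜ =
      ⋃ t ∈ {t : Equiv.Perm (Fin n) | t ≠ s}, {x | ∀ j, ρ' x (t j) = ρ x j} := by
    ext x
    simp only [Set.mem_compl_iff, Set.mem_iUnion, Set.mem_ofPred_eq, exists_prop]
    constructor
    · intro hx
      obtain ⟨t, ht⟩ := cv_perm (hr x) (hr' x) (hi x)
      refine ⟨t, fun hts => hx ?_, ht⟩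
      rw [← hts]
      exact ht
    · rintro ⟨t, hts, ht⟩ hs
      apply hts
      have hi' : Function.Injective (ρ' x) := cv_inj (hr' x) (hr x) (hi x)
      ext1 j
      exact hi' ((ht j).trans (hs j).symm)
  rw [e]
  exact (Set.toFinite _).isClosed_biUnion fun t _ => cv_closed hc hc' t

theorem exists_perm_on {Y : Type} [TopologicalSpace Y] {n : ℕ} {W : Set Y} (hW : IsPreconnected W)
    {ρ ρ' : Y → (Fin n → ℂ)} (hc : ContinuousOn ρ W) (hc' : ContinuousOn ρ' W) {H : Y → (Fin n → ℂ)}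
    (hr : ∀ x ∈ W, IsRoots (ρ x) (H x)) (hr' : ∀ x ∈ W, IsRoots (ρ' x) (H x))
    (hi : ∀ x ∈ W, Function.Injective (ρ x)) :
    ∃ s : Equiv.Perm (Fin n), ∀ x ∈ W, ∀ j, ρ' x (s j) = ρ x j := by
  rcases W.eq_empty_or_nonempty with rfl | ⟨x₀, hx₀⟩
  · exact ⟨1, fun x hx => absurd hx (Set.notMem_empty x)⟩
  · obtain ⟨s, hs⟩ := cv_perm (hr x₀ hx₀) (hr' x₀ hx₀) (hi x₀ hx₀)
    have : PreconnectedSpace W := isPreconnected_iff_preconnectedSpace.1 hW
    have hcl : IsClopen {x : W | ∀ j, ρ' x (s j) = ρ x j} :=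
      cv_clopen (Y := W) (ρ := fun x : W => ρ x) (ρ' := fun x : W => ρ' x)
        (continuousOn_iff_continuous_domRestrict.1 hc) (continuousOn_iff_continuous_domRestrict.1 hc')
        (H := fun x : W => H x) (fun x => hr x x.2) (fun x => hr' x x.2) (fun x => hi x x.2) s
    have huniv := hcl.eq_univ ⟨⟨x₀, hx₀⟩, hs⟩
    refine ⟨s, fun x hx => ?_⟩
    have : (⟨x, hx⟩ : W) ∈ {x : W | ∀ j, ρ' x (s j) = ρ x j} := by
      rw [huniv]
      exact Set.mem_univ _
    exact this

/-- The space of ordered root lists. -/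
def CE {Y : Type} {n : ℕ} (H : Y → (Fin n → ℂ)) : Type :=
  {p : Y × (Fin n → ℂ) // IsRoots p.2 (H p.1)}

instance {Y : Type} [TopologicalSpace Y] {n : ℕ} (H : Y → (Fin n → ℂ)) : TopologicalSpace (CE H) :=
  inferInstanceAs (TopologicalSpace {p : Y × (Fin n → ℂ) // IsRoots p.2 (H p.1)})

/-- The projection. -/
def cpr {Y : Type} {n : ℕ} (H : Y → (Fin n → ℂ)) : CE H → Y := fun p => p.1.1

theorem cpr_cont {Y : Type} [TopologicalSpace Y] {n : ℕ} (H : Y → (Fin n → ℂ)) :
    Continuous (cpr H) := continuous_fst.comp continuous_subtype_val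

theorem csd_cont {Y : Type} [TopologicalSpace Y] {n : ℕ} (H : Y → (Fin n → ℂ)) :
    Continuous (fun p : CE H => p.1.2) := continuous_snd.comp continuous_subtype_val

theorem isRoots_perm {n : ℕ} {r z : Fin n → ℂ} (h : IsRoots r z) (s : Equiv.Perm (Fin n)) :
    IsRoots (fun j => r (s j)) z := by
  unfold IsRoots at h ⊢
  rw [h]
  exact (Equiv.prod_comp s fun j => (X - C (r j) : ℂ[X])).symm

/-- The permutation part of the trivialisation is locally constant. -/
theorem cv_locconst {Z : Type} [TopologicalSpace Z] {n : ℕ} {a b : Z → (Fin n → ℂ)}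
    (ha : Continuous a) (hb : Continuous b) {H : Z → (Fin n → ℂ)}
    (hr : ∀ x, IsRoots (a x) (H x)) (hr' : ∀ x, IsRoots (b x) (H x))
    (hi : ∀ x, Function.Injective (a x)) (g : Z → Equiv.Perm (Fin n))
    (hg : ∀ x j, b x (g x j) = a x j) :
    ∀ s, IsOpen (g ⁻¹' {s}) := by
  intro s
  have e : g ⁻¹' {s} = {x | ∀ j, b x (s j) = a x j} := by
    ext x
    simp only [Set.mem_preimage, Set.mem_singleton_iff, Set.mem_ofPred_eq]
    constructor
    · intro h j
      rw [← h]
      exact hg x j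
    · intro h
      have hi' : Function.Injective (b x) := cv_inj (hr' x) (hr x) (hi x)
      ext1 j
      exact hi' ((hg x j).trans (h j).symm)
  rw [e]
  exact (cv_clopen ha hb hr hr' hi s).2

theorem cv_even {Y : Type} [TopologicalSpace Y] {n : ℕ} {H : Y → (Fin n → ℂ)} (hH : Continuous H)
    (hd : ∀ y, ∃ r, IsRoots r (H y) ∧ Function.Injective r) (y₀ : Y) :
    IsEvenlyCovered (cpr H) y₀ (cpr H ⁻¹' {y₀}) := by
  classical
  obtain ⟨V, ρ, hV, hy₀, hρ, hr⟩ := roots_local hH hd y₀
  let _ : TopologicalSpace (Equiv.Perm (Fin n)) := ⊥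
  have : DiscreteTopology (Equiv.Perm (Fin n)) := ⟨rfl⟩
  have hρc : Continuous fun y : V => ρ y := continuousOn_iff_continuous_domRestrict.1 hρ
  have hinj : ∀ p : CE H, Function.Injective p.1.2 := fun p => by
    obtain ⟨r, h1, h2⟩ := hd p.1.1
    exact cv_inj p.2 h1 h2
  have hg : ∀ p : cpr H ⁻¹' V, ∃ s : Equiv.Perm (Fin n), ∀ j, ρ (cpr H p.1) (s j) = p.1.1.2 j :=
    fun p => cv_perm p.1.2 (hr _ p.2) (hinj p.1)
  choose g hg using hg
  have hgo : ∀ s, IsOpen (g ⁻¹' {s}) :=
    cv_locconst (Z := cpr H ⁻¹' V) (a := fun p => p.1.1.2) (b := fun p => ρ (cpr H p.1))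
      ((csd_cont H).comp continuous_subtype_val)
      (hρc.comp (f := fun p : cpr H ⁻¹' V => (⟨cpr H p.1, p.2⟩ : V))
        (((cpr_cont H).comp continuous_subtype_val).subtype_mk _))
      (H := fun p => H (cpr H p.1)) (fun p => p.1.2) (fun p => hr _ p.2) (fun p => hinj p.1) g hg
  have hgc : Continuous g := continuous_discrete_rng.2 hgo
  have hρi : ∀ y ∈ V, Function.Injective (ρ y) := fun y hy => by
    obtain ⟨r, h1, h2⟩ := hd y
    exact cv_inj (hr y hy) h1 h2
  have hE : IsEvenlyCovered (cpr H) y₀ (Equiv.Perm (Fin n)) := by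
    refine ⟨inferInstance, V, hy₀, hV, hV.preimage (cpr_cont H),
      { toFun := fun p => (⟨cpr H p.1, p.2⟩, g p)
        invFun := fun q => ⟨⟨(q.1.1, fun j => ρ q.1.1 (q.2 j)), isRoots_perm (hr _ q.1.2) q.2⟩, q.1.2⟩
        left_inv := ?_
        right_inv := ?_
        continuous_toFun := ?_
        continuous_invFun := ?_ }, fun _ => rfl⟩
    · intro p
      apply Subtype.ext
      apply Subtype.ext
      refine Prod.ext rfl ?_
      funext j
      exact hg p j
    · rintro ⟨y, s⟩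
      refine Prod.ext rfl ?_
      ext1 j
      have h1 := hg ⟨⟨(y.1, fun j => ρ y.1 (s j)), isRoots_perm (hr _ y.2) s⟩, y.2⟩ j
      exact hρi y.1 y.2 h1
    · exact (((cpr_cont H).comp continuous_subtype_val).subtype_mk _).prodMk hgc
    · refine Continuous.subtype_mk (Continuous.subtype_mk ?_ _) _
      refine Continuous.prodMk (continuous_subtype_val.comp continuous_fst) ?_
      rw [continuous_prod_of_discrete_right]
      intro s
      exact continuous_pi fun j => (continuous_apply (s j)).comp hρc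
  exact hE.to_isEvenlyCovered_preimage

theorem roots_simply {Y : Type} [TopologicalSpace Y] [SimplyConnectedSpace Y] [LocallyPathConnectedSpace Y] {n : ℕ}
    {H : Y → (Fin n → ℂ)} (hH : Continuous H) (hd : ∀ y, ∃ r, IsRoots r (H y) ∧ Function.Injective r) :
    ∃ ρ : Y → (Fin n → ℂ), Continuous ρ ∧ ∀ y, IsRoots (ρ y) (H y) := by
  have hcov : IsCoveringMap (cpr H) := fun y => cv_even hH hd y
  obtain ⟨y₀⟩ : Nonempty Y := inferInstance
  obtain ⟨r, hr, -⟩ := hd y₀
  obtain ⟨F, ⟨-, hF⟩, -⟩ := hcov.existsUnique_continuousMap_lifts (ContinuousMap.id Y) y₀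
    (⟨(y₀, r), hr⟩ : CE H) rfl
  refine ⟨fun y => (F y).1.2, (csd_cont H).comp F.continuous, fun y => ?_⟩
  have h1 : (F y).1.1 = y := congrFun hF y
  have h2 := (F y).2
  rw [h1] at h2
  exact h2

end Pool.Agent.LR

end
end
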