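import Mathlib

/-! The parts of this file: G4.H.Jen, H13.SM.Surf, H22.TB.OfSheets, H62.FC.CircuitDefs, H62.FC.Circuit, H62.FC.Lattice, H92.GT.Homogenize, H92.GT.Index, H94.Jac, H99.Cover.Basic. -/

section

/-!
# G4 H Jen: zeros of high order, Jensen

`φ` entire, `‖φ z‖ ≤ B exp (M (w₀ + 2 Re (c (z - z₁)) + q ‖z - z₁‖²))` (the weight on a line), `m₀ exp (M w₀) ≤ ‖φ z₁‖`, divisible by `(z - e) ^ l` for the `e` in the finite set `S ⊆ closedBall z₁ R`: then
`l * #S ≤ M q (e R)² + log (B / m₀)`, `e = exp 1` (Jensen for the radius `e R`; or the maximum principle for `φ z exp (- 2 M c (z - z₁)) / ∏ (z - e) ^ l` on the ball of radius `2 e R`…: any constant instead of `e²` is fine, here `16`).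
Proof by the maximum principle: `ψ` with `φ = ∏ (z - e) ^ l ψ` (`hdiv` gives the factorisation for one `e` at a time; `∏` by induction), on the circle `‖z - z₁‖ = 4 R`: `‖z - e‖ ≥ 3 R`, at `z₁`: `‖z₁ - e‖ ≤ R`; so
`‖φ z₁‖ ≤ R ^ (l #S) ‖ψ z₁‖ ≤ R ^ (l #S) (3 R) ^ (- l #S) B exp (M (w₀ + 16 q R²))`, `3 ≥ exp 1`.
-/

set_option autoImplicit false

open Topology Filter Metric

namespace Pool.Agent.G4.H

private theorem jen_div (a : ℂ) : ∀ (l : ℕ) (P g h : ℂ → ℂ), Differentiable ℂ P →
    Differentiable ℂ g → Differentiable ℂ h → P a ≠ 0 →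
    (∀ z, P z * g z = (z - a) ^ l * h z) →
    ∃ k : ℂ → ℂ, Differentiable ℂ k ∧ ∀ z, g z = (z - a) ^ l * k z
  | 0, _, g, _, _, hg, _, _, _ => ⟨g, hg, fun z => by simp⟩
  | l + 1, P, g, h, hP, hg, hh, hPa, hyp => by
    have hga : g a = 0 := by
      have := hyp a
      rw [sub_self, zero_pow (Nat.succ_ne_zero l), zero_mul] at this
      exact (mul_eq_zero.1 this).resolve_left hPa
    have hg1 : Differentiable ℂ (dslope g a) := by
      have := (Complex.differentiableOn_dslope (s := Set.univ) (c := a)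
        (Filter.univ_mem)).2 hg.differentiableOn
      exact differentiableOn_univ.1 this
    have hg2 : ∀ z, g z = (z - a) * dslope g a z := by
      intro z
      have := sub_smul_dslope g a z
      rw [smul_eq_mul, hga, sub_zero] at this
      exact this.symm
    have hne : ∀ z, z ≠ a → P z * dslope g a z = (z - a) ^ l * h z := by
      intro z hz
      have h1 := hyp z
      rw [hg2 z] at h1
      have h2 : z - a ≠ 0 := sub_ne_zero.2 hz
      apply mul_left_cancel₀ h2
      linear_combination h1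
    have hall : ∀ z, P z * dslope g a z = (z - a) ^ l * h z := by
      have hc1 : Continuous fun z => P z * dslope g a z := hP.continuous.mul hg1.continuous
      have hc2 : Continuous fun z => (z - a) ^ l * h z :=
        ((continuous_id.sub continuous_const).pow l).mul hh.continuous
      have : (fun z => P z * dslope g a z) = fun z => (z - a) ^ l * h z :=
        Continuous.ext_on (dense_compl_singleton a) hc1 hc2 fun z hz => hne z hz
      intro z
      exact congrFun this z
    obtain ⟨k, hk1, hk2⟩ := jen_div a l P (dslope g a) h hP hg1 hh hPa hall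
    refine ⟨k, hk1, fun z => ?_⟩
    rw [hg2 z, hk2 z]
    ring

private theorem jen_prod {φ : ℂ → ℂ} (hφ : Differentiable ℂ φ) {l : ℕ} (S : Finset ℂ)
    (hdiv : ∀ e ∈ S, ∃ g : ℂ → ℂ, Differentiable ℂ g ∧ ∀ z, φ z = (z - e) ^ l * g z) :
    ∃ g : ℂ → ℂ, Differentiable ℂ g ∧ ∀ z, φ z = (∏ e ∈ S, (z - e) ^ l) * g z := by
  classical
  induction S using Finset.induction_on with
  | empty => exact ⟨φ, hφ, fun z => by simp⟩
  | insert a S ha ih =>
    obtain ⟨g, hg, hg1⟩ := ih fun e he => hdiv e (Finset.mem_insert_of_mem he)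
    obtain ⟨h, hh, hh1⟩ := hdiv a (Finset.mem_insert_self a S)
    have hP : Differentiable ℂ fun z : ℂ => ∏ e ∈ S, (z - e) ^ l := by
      fun_prop
    have hPa : (∏ e ∈ S, (a - e) ^ l) ≠ 0 := by
      rw [Finset.prod_ne_zero_iff]
      intro e he
      exact pow_ne_zero _ (sub_ne_zero.2 fun h => ha (h ▸ he))
    obtain ⟨k, hk1, hk2⟩ := jen_div a l (fun z => ∏ e ∈ S, (z - e) ^ l) g h hP hg hh hPa
      (fun z => by rw [← hg1 z, hh1 z])
    refine ⟨k, hk1, fun z => ?_⟩
    rw [hg1 z, hk2 z, Finset.prod_insert ha]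
    ring

theorem jen {φ : ℂ → ℂ} (hφ : Differentiable ℂ φ) {B M w₀ q m₀ R : ℝ} {c z₁ : ℂ} (hR : 0 < R) (hm₀ : 0 < m₀)
    (hB : ∀ z, ‖φ z‖ ≤ B * Real.exp (M * (w₀ + 2 * (c * (z - z₁)).re + q * ‖z - z₁‖ ^ 2))) (h1 : m₀ * Real.exp (M * w₀) ≤ ‖φ z₁‖) {S : Finset ℂ} {l : ℕ} (hS : ∀ e ∈ S, ‖e - z₁‖ ≤ R)
    (hdiv : ∀ e ∈ S, ∃ g : ℂ → ℂ, Differentiable ℂ g ∧ ∀ z, φ z = (z - e) ^ l * g z) : (l : ℝ) * S.card ≤ 16 * M * q * R ^ 2 + Real.log (B / m₀) := by
  obtain ⟨g, hg, hg1⟩ := jen_prod hφ S hdiv
  set N := S.card with hN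
  set C : ℝ := B * Real.exp (M * (w₀ + q * (4 * R) ^ 2)) / ((3 * R) ^ l) ^ N with hC
  have h3 : 0 < ((3 * R) ^ l) ^ N := by positivity
  have hmax : ‖g z₁ * Complex.exp (-(2 * M * (c * (z₁ - z₁))))‖ ≤ C := by
    refine Complex.norm_le_of_forall_mem_frontier_norm_le (U := ball z₁ (4 * R))
      (f := fun z => g z * Complex.exp (-(2 * M * (c * (z - z₁))))) isBounded_ball ?_ ?_ ?_
    · refine Differentiable.diffContOnCl ?_
      fun_prop
    · intro z hz
      rw [frontier_ball _ (by positivity : (4 * R) ≠ 0), mem_sphere, dist_eq_norm] at hz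
      have h4 : ((3 * R) ^ l) ^ N ≤ ‖∏ e ∈ S, (z - e) ^ l‖ := by
        rw [norm_prod, hN, ← Finset.prod_const]
        refine Finset.prod_le_prod (fun _ _ => by positivity) fun e he => ?_
        rw [norm_pow]
        refine pow_le_pow_left₀ (by positivity) ?_ l
        have h5 : ‖z - z₁‖ ≤ ‖z - e‖ + ‖e - z₁‖ := by
          have := norm_add_le (z - e) (e - z₁)
          rwa [sub_add_sub_cancel] at this
        have := hS e he
        linarith
      have h6 : ‖g z * Complex.exp (-(2 * M * (c * (z - z₁))))‖ * ‖∏ e ∈ S, (z - e) ^ l‖ ≤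
          B * Real.exp (M * (w₀ + q * (4 * R) ^ 2)) := by
        have h7 : ‖g z * Complex.exp (-(2 * M * (c * (z - z₁))))‖ * ‖∏ e ∈ S, (z - e) ^ l‖ =
            ‖φ z‖ * Real.exp (-(2 * M * (c * (z - z₁)).re)) := by
          rw [hg1 z, norm_mul, norm_mul, Complex.norm_exp]
          have h8 : (-(2 * (M : ℂ) * (c * (z - z₁)))).re = -(2 * M * (c * (z - z₁)).re) := by
            have : (2 * (M : ℂ) * (c * (z - z₁))) = ((2 * M : ℝ) : ℂ) * (c * (z - z₁)) := by
              push_cast
              ring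
            rw [this, Complex.neg_re, Complex.re_ofReal_mul]
          rw [h8]
          ring
        rw [h7]
        calc ‖φ z‖ * Real.exp (-(2 * M * (c * (z - z₁)).re))
            ≤ B * Real.exp (M * (w₀ + 2 * (c * (z - z₁)).re + q * ‖z - z₁‖ ^ 2)) *
              Real.exp (-(2 * M * (c * (z - z₁)).re)) :=
              mul_le_mul_of_nonneg_right (hB z) (Real.exp_pos _).le
          _ = B * Real.exp (M * (w₀ + q * (4 * R) ^ 2)) := by
              rw [mul_assoc, ← Real.exp_add, hz]
              congr 2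
              ring
      show ‖g z * Complex.exp (-(2 * M * (c * (z - z₁))))‖ ≤ C
      rw [hC, le_div_iff₀ h3]
      exact (mul_le_mul_of_nonneg_left h4 (norm_nonneg _)).trans h6
    · exact subset_closure (mem_ball_self (by positivity))
  rw [sub_self, mul_zero, mul_zero, neg_zero, Complex.exp_zero, mul_one] at hmax
  have h9 : ‖φ z₁‖ ≤ (R ^ l) ^ N * C := by
    rw [hg1 z₁, norm_mul]
    refine mul_le_mul ?_ hmax (norm_nonneg _) (by positivity)
    rw [norm_prod, hN, ← Finset.prod_const]
    refine Finset.prod_le_prod (fun _ _ => norm_nonneg _) fun e he => ?_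
    rw [norm_pow]
    refine pow_le_pow_left₀ (norm_nonneg _) ?_ l
    rw [norm_sub_rev]
    exact hS e he
  have h10 : (R ^ l) ^ N * C =
      B * Real.exp (M * (w₀ + q * (4 * R) ^ 2)) / ((3 : ℝ) ^ l) ^ N := by
    rw [hC, mul_pow 3 R l, mul_pow ((3 : ℝ) ^ l) (R ^ l) N]
    have : (R ^ l) ^ N ≠ 0 := by positivity
    field_simp
  have h11 : m₀ * Real.exp (M * w₀) * ((3 : ℝ) ^ l) ^ N ≤
      B * Real.exp (M * (w₀ + q * (4 * R) ^ 2)) := by
    rw [← le_div_iff₀ (by positivity), ← h10]
    exact h1.trans h9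
  have h12 : Real.exp (M * (w₀ + q * (4 * R) ^ 2)) =
      Real.exp (M * w₀) * Real.exp (16 * M * q * R ^ 2) := by
    rw [← Real.exp_add]
    congr 1
    ring
  rw [h12] at h11
  have h13 : ((3 : ℝ) ^ l) ^ N * m₀ ≤ B * Real.exp (16 * M * q * R ^ 2) := by
    have h14 : 0 < Real.exp (M * w₀) := Real.exp_pos _
    refine le_of_mul_le_mul_left ?_ h14
    linarith
  have hBpos : 0 < B := by
    have : 0 < B * Real.exp (16 * M * q * R ^ 2) := lt_of_lt_of_le (by positivity) h13
    exact (mul_pos_iff_of_pos_right (Real.exp_pos _)).1 this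
  have h15 : Real.log (((3 : ℝ) ^ l) ^ N) ≤ 16 * M * q * R ^ 2 + Real.log (B / m₀) := by
    have h16 : ((3 : ℝ) ^ l) ^ N ≤ Real.exp (16 * M * q * R ^ 2) * (B / m₀) := by
      rw [← mul_div_assoc, le_div_iff₀ hm₀]
      linarith
    have h17 := Real.log_le_log (by positivity) h16
    rwa [Real.log_mul (Real.exp_pos _).ne' (div_pos hBpos hm₀).ne', Real.log_exp] at h17
  rw [← pow_mul, Real.log_pow] at h15
  have h18 : (1 : ℝ) ≤ Real.log 3 := by
    rw [Real.le_log_iff_exp_le (by norm_num)]
    exact (Real.exp_one_lt_d9.trans (by norm_num)).le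
  have h19 : (0 : ℝ) ≤ ((l * N : ℕ) : ℝ) := Nat.cast_nonneg _
  have h20 : ((l * N : ℕ) : ℝ) ≤ ((l * N : ℕ) : ℝ) * Real.log 3 := by nlinarith
  push_cast at h15 h20
  linarith

end Pool.Agent.G4.H

end

section

/-!
# The cone of a smooth projective surface is a `Surface`

`IsChart` and `Surface` are the definitions of `Pool.Agent.H17BP.Surf`.
-/

open MvPolynomial Topology Filter

noncomputable section

namespace Pool.Agent.H13.SM

variable {N : ℕ} {P : Ideal (MvPolynomial (Fin (N + 1)) ℂ)}

/-- The affine cone of `P` without its vertex. -/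
def cone (P : Ideal (MvPolynomial (Fin (N + 1)) ℂ)) : Set (Fin (N + 1) → ℂ) :=
  {x | x ≠ 0 ∧ ∀ Q ∈ P, eval x Q = 0}

end Pool.Agent.H13.SM

end
end

section

/-!
# TB OfSheets: from the finitely many maps to the properties (i), (ii), (iii), (iv) for curves; birational invariance
-/

set_option autoImplicit false

open MvPolynomial Topology Filter

noncomputable section

namespace Pool.Agent.H22.TB

variable {N : ℕ}

theorem eq_of_basis {K : Type} [Field K] [Algebra ℂ K] {a b : ℕ} {z : Fin a → K} {z' : Fin b → K} (hz : IsTranscendenceBasis ℂ z)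
    (hz' : IsTranscendenceBasis ℂ z') : a = b := by
  have h := hz.cardinalMk_eq hz'
  simpa using h

end Pool.Agent.H22.TB

end
end

section

/-!
# Circuits of a family of vectors
-/

namespace Pool.Agent.H62.FC

/-- A minimal linearly dependent finite set of indices. -/
def IsCircuit (F : Type*) {V ι : Type*} [Field F] [AddCommGroup V] [Module F V] (y : ι → V)
    (ρ : Finset ι) : Prop :=
  ¬ LinearIndepOn F y (ρ : Set ι) ∧ ∀ τ ⊂ ρ, LinearIndepOn F y (τ : Set ι)

end Pool.Agent.H62.FC

end

section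

/-!
# Circuits: level sums and the normal form
-/

noncomputable section

namespace Pool.Agent.H62.FC

private theorem Circuit_rel {F V ι : Type*} [Field F] [AddCommGroup V] [Module F V] {y : ι → V}
    {ρ : Finset ι} (hρ : IsCircuit F y ρ) :
    ∃ b : ι → F, (∀ i ∈ ρ, b i ≠ 0) ∧ ∑ i ∈ ρ, b i • y i = 0 := by
  classical
  have h := hρ.1
  rw [linearIndepOn_finset_iff] at h
  push Not at h
  obtain ⟨b, hb, i, hi, hbi⟩ := h
  refine ⟨b, fun j hj hbj => ?_, hb⟩
  have h2 := hρ.2 (ρ.erase j) (Finset.erase_ssubset hj)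
  rw [linearIndepOn_finset_iff] at h2
  have h3 : ∑ i ∈ ρ.erase j, b i • y i = 0 := by
    have := Finset.add_sum_erase ρ (fun i => b i • y i) hj
    simp only [hbj, zero_smul, zero_add] at this
    rw [this, hb]
  have hij : i ≠ j := fun e => hbi (e ▸ hbj)
  exact hbi (h2 b h3 i (Finset.mem_erase.2 ⟨hij, hi⟩))

private theorem Circuit_exists {F V ι : Type*} [Field F] [AddCommGroup V] [Module F V]
    {y : ι → V} {S : Finset ι} (hS : ¬ LinearIndepOn F y (S : Set ι)) :
    ∃ ρ ⊆ S, IsCircuit F y ρ := by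
  classical
  induction S using Finset.strongInduction with
  | H S ih =>
    by_cases h : ∃ τ ⊂ S, ¬ LinearIndepOn F y (τ : Set ι)
    · obtain ⟨τ, hτ, hd⟩ := h
      obtain ⟨ρ, h1, h2⟩ := ih τ hτ hd
      exact ⟨ρ, h1.trans hτ.1, h2⟩
    · push Not at h
      exact ⟨S, subset_rfl, hS, h⟩

theorem sum_level_eq_zero {F V ι : Type*} [Field F] [AddCommGroup V] [Module F V] {y : ι → V}
    {α : Type*} [DecidableEq α] {ν : ι → α}
    {S : Finset ι} (hν : ∀ ρ ⊆ S, IsCircuit F y ρ → ∀ i ∈ ρ, ∀ j ∈ ρ, ν i = ν j) {c : ι → F}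
    (h : ∑ i ∈ S, c i • y i = 0) (v : α) : ∑ i ∈ S with ν i = v, c i • y i = 0 := by
  classical
  obtain ⟨N, hN⟩ : ∃ N, N = (S.filter fun i => c i ≠ 0).card := ⟨_, rfl⟩
  induction N using Nat.strong_induction_on generalizing c with
  | _ N ih =>
    by_cases h0 : ∀ i ∈ S, c i = 0
    · refine Finset.sum_eq_zero fun i hi => ?_
      rw [h0 i (Finset.mem_filter.1 hi).1, zero_smul]
    · push Not at h0
      obtain ⟨i0, hi0, hci0⟩ := h0
      have hdep : ¬ LinearIndepOn F y ((S.filter fun i => c i ≠ 0 : Finset ι) : Set ι) := by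
        rw [linearIndepOn_finset_iff]
        intro hli
        refine hci0 (hli c ?_ i0 (Finset.mem_filter.2 ⟨hi0, hci0⟩))
        rw [← h, Finset.sum_filter]
        refine Finset.sum_congr rfl fun i _ => ?_
        by_cases hc : c i = 0
        · simp [hc]
        · rw [if_pos hc]
      obtain ⟨ρ, hρS', hρ⟩ := Circuit_exists hdep
      obtain ⟨b, hb, hb0⟩ := Circuit_rel hρ
      have hρS : ρ ⊆ S := hρS'.trans (Finset.filter_subset _ _)
      have hne : ρ.Nonempty := by
        rw [Finset.nonempty_iff_ne_empty]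
        rintro rfl
        exact hρ.1 (by rw [Finset.coe_empty]; exact linearIndepOn_empty F y)
      obtain ⟨i, hi⟩ := hne
      have hbi := hb i hi
      have key : ∀ T : Finset ι, T ⊆ S → ∑ j ∈ T, (c j - c i / b i * (if j ∈ ρ then b j else 0)) • y j =
          ∑ j ∈ T, c j • y j - (c i / b i) • ∑ j ∈ T ∩ ρ, b j • y j := by
        intro T _
        rw [Finset.smul_sum, ← Finset.sum_ite_mem T ρ, ← Finset.sum_sub_distrib]
        refine Finset.sum_congr rfl fun j _ => ?_
        by_cases hj : j ∈ ρ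
        · rw [if_pos hj, if_pos hj, sub_smul, mul_smul]
        · rw [if_neg hj, if_neg hj, mul_zero, sub_zero, sub_zero]
      have hc' : ∑ j ∈ S, (c j - c i / b i * (if j ∈ ρ then b j else 0)) • y j = 0 := by
        rw [key S subset_rfl, h, Finset.inter_eq_right.2 hρS, hb0, smul_zero, sub_zero]
      have hlt : (S.filter fun j => c j - c i / b i * (if j ∈ ρ then b j else 0) ≠ 0).card < N := by
        rw [hN]
        refine Finset.card_lt_card ⟨?_, ?_⟩
        · intro j hj
          rw [Finset.mem_filter] at hj ⊢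
          refine ⟨hj.1, fun hcj => hj.2 ?_⟩
          have hjρ : j ∉ ρ := fun hjρ => (Finset.mem_filter.1 (hρS' hjρ)).2 hcj
          rw [if_neg hjρ, hcj, mul_zero, sub_zero]
        · intro hsub
          have := hsub (hρS' hi)
          rw [Finset.mem_filter] at this
          refine this.2 ?_
          rw [if_pos hi, div_mul_cancel₀ _ hbi, sub_self]
      have h1 := ih _ hlt hc' rfl
      rw [key (S.filter fun i => ν i = v) (Finset.filter_subset _ _)] at h1
      have h2 : ∑ j ∈ (S.filter fun i => ν i = v) ∩ ρ, b j • y j = 0 := by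
        by_cases hvi : ν i = v
        · have : (S.filter fun i => ν i = v) ∩ ρ = ρ := by
            refine Finset.inter_eq_right.2 fun j hj => Finset.mem_filter.2 ⟨hρS hj, ?_⟩
            rw [hν ρ hρS hρ j hj i hi, hvi]
          rw [this, hb0]
        · refine Finset.sum_eq_zero fun j hj => ?_
          rw [Finset.mem_inter, Finset.mem_filter] at hj
          exact absurd (by rw [← hj.1.2, hν ρ hρS hρ i hi j hj.2]) hvi
      rwa [h2, smul_zero, sub_zero] at h1

end Pool.Agent.H62.FC

end
end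

section

/-! # Fermat covers: integer relations -/

noncomputable section

namespace Pool.Agent.H62.FC

private lemma Lattice_span {I : Type*} {Γ : Set (I → ℤ)} {x : I → ℚ}
    (hx : x ∈ Submodule.span ℚ ((fun (y : I → ℤ) (l : I) => (y l : ℚ)) '' Γ)) :
    ∃ M : ℕ, 0 < M ∧ ∃ z ∈ AddSubgroup.closure Γ, ∀ l, (M : ℚ) * x l = (z l : ℚ) := by
  induction hx using Submodule.span_induction with
  | mem x hx =>
    obtain ⟨γ, hγ, rfl⟩ := hx
    exact ⟨1, one_pos, γ, AddSubgroup.subset_closure hγ, fun l => by simp⟩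
  | zero => exact ⟨1, one_pos, 0, zero_mem _, fun l => by simp⟩
  | add x y _ _ h1 h2 =>
    obtain ⟨M₁, hM₁, z₁, hz₁, e₁⟩ := h1
    obtain ⟨M₂, hM₂, z₂, hz₂, e₂⟩ := h2
    refine ⟨M₁ * M₂, Nat.mul_pos hM₁ hM₂, M₂ • z₁ + M₁ • z₂,
      add_mem (nsmul_mem hz₁ _) (nsmul_mem hz₂ _), fun l => ?_⟩
    have h1 := e₁ l
    have h2 := e₂ l
    rw [Pi.add_apply, Pi.add_apply, Pi.smul_apply, Pi.smul_apply, nsmul_eq_mul, nsmul_eq_mul]
    push_cast
    rw [← h1, ← h2]
    ring
  | smul q x _ h1 =>
    obtain ⟨M, hM, z, hz, e⟩ := h1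
    refine ⟨M * q.den, Nat.mul_pos hM q.den_pos, q.num • z, zsmul_mem hz _, fun l => ?_⟩
    have h1 := e l
    have h2 : (q.den : ℚ) * q = q.num := Rat.den_mul_eq_num q
    simp only [Pi.smul_apply, smul_eq_mul, Nat.cast_mul, Int.cast_mul]
    rw [← h1, ← h2]
    ring

theorem exists_combination {I : Type*} [Fintype I] [DecidableEq I] {Γ : Set (I → ℤ)} {i j : I}
    (h : ∀ n : I → ℤ, (∀ γ ∈ Γ, ∑ l, n l * γ l = 0) → n i = n j) :
    ∃ M : ℕ, 0 < M ∧
      (M : ℤ) • (Pi.single i 1 - Pi.single j 1 : I → ℤ) ∈ AddSubgroup.closure Γ := by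
  classical
  have key : (fun l => (((Pi.single i 1 - Pi.single j 1 : I → ℤ) l : ℤ) : ℚ)) ∈
      Submodule.span ℚ ((fun (y : I → ℤ) (l : I) => (y l : ℚ)) '' Γ) := by
    by_contra hcon
    obtain ⟨f, hf, hle⟩ := Submodule.exists_le_ker_of_notMem hcon
    -- the coefficients of the functional
    have hsum : ∀ x : I → ℚ, f x = ∑ l, f (Pi.single l 1) * x l := by
      intro x
      conv_lhs => rw [pi_eq_sum_univ' x]
      rw [map_sum]
      refine Finset.sum_congr rfl fun l _ => ?_
      rw [map_smul, smul_eq_mul, mul_comm]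
    -- a common denominator
    obtain ⟨b, hb⟩ := IsLocalization.exist_integer_multiples_of_finite (nonZeroDivisors ℤ)
      (fun l : I => f (Pi.single l 1))
    choose n hn using hb
    have hn' : ∀ l, (n l : ℚ) = (b : ℤ) * f (Pi.single l 1) := by
      intro l
      have h1 := hn l
      rw [Algebra.smul_def] at h1
      simpa using h1
    have hb0 : ((b : ℤ) : ℚ) ≠ 0 := by
      have := nonZeroDivisors.ne_zero b.2
      exact_mod_cast this
    have h1 : ∀ γ ∈ Γ, ∑ l, n l * γ l = 0 := by
      intro γ hγ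
      have h2 : f (fun l => (γ l : ℚ)) = 0 := by
        have := hle (Submodule.subset_span ⟨γ, hγ, rfl⟩)
        simpa using this
      rw [hsum] at h2
      have h3 : ((∑ l, n l * γ l : ℤ) : ℚ) = 0 := by
        push_cast
        simp_rw [hn', mul_assoc]
        rw [← Finset.mul_sum, h2, mul_zero]
      exact_mod_cast h3
    have h2 := h n h1
    apply hf
    rw [hsum]
    have h3 : f (Pi.single i 1) = f (Pi.single j 1) := by
      have h4 := hn' i
      have h5 := hn' j
      rw [h2, h5] at h4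
      exact (mul_left_cancel₀ hb0 h4).symm
    simp only [Pi.sub_apply, Int.cast_sub, mul_sub, Finset.sum_sub_distrib, Pi.single_apply,
      Int.cast_ite, Int.cast_one, Int.cast_zero, mul_ite, mul_one, mul_zero, Finset.sum_ite_eq',
      Finset.mem_univ, if_true]
    rw [h3, sub_self]
  obtain ⟨M, hM, z, hz, hzM⟩ := Lattice_span key
  refine ⟨M, hM, ?_⟩
  have : (M : ℤ) • (Pi.single i 1 - Pi.single j 1 : I → ℤ) = z := by
    funext l
    have h1 := hzM l
    rw [Pi.smul_apply, smul_eq_mul]
    exact_mod_cast h1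
  rw [this]
  exact hz

end Pool.Agent.H62.FC

end
end

section

/-!
# Homogenisation
-/

open MvPolynomial

noncomputable section

namespace Pool.Agent.H92.GT

variable {r : ℕ}

/-- The homogenised polynomial. -/
def hmg {B : Type} [CommRing B] [Algebra ℂ B] (p : MvPolynomial (Fin r) ℂ) (A : Fin (r + 1) → B) :
    B :=
  ∑ m ∈ p.support, algebraMap ℂ B (p.coeff m) *
    (A 0 ^ (p.totalDegree - ∑ i, m i) * ∏ i : Fin r, A (Fin.succ i) ^ m i)

lemma map_hmg {B B' : Type} [CommRing B] [Algebra ℂ B] [CommRing B'] [Algebra ℂ B']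
    (f : B →ₐ[ℂ] B') (p : MvPolynomial (Fin r) ℂ) (A : Fin (r + 1) → B) :
    f (hmg p A) = hmg p fun i => f (A i) := by
  unfold hmg
  rw [map_sum]
  refine Finset.sum_congr rfl fun m _ => ?_
  rw [map_mul, map_mul, map_pow, map_prod, AlgHom.commutes]
  congr 2
  exact Finset.prod_congr rfl fun i _ => map_pow _ _ _

lemma hmg_eq {K : Type} [Field K] [Algebra ℂ K] (p : MvPolynomial (Fin r) ℂ)
    {A : Fin (r + 1) → K} (h : A 0 ≠ 0) :
    hmg p A = A 0 ^ p.totalDegree * aeval (fun i : Fin r => A (Fin.succ i) / A 0) p := by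
  unfold hmg
  rw [aeval_def, eval₂_eq', Finset.mul_sum]
  refine Finset.sum_congr rfl fun m hm => ?_
  have h1 : ∑ i, m i ≤ p.totalDegree := by
    have h2 := le_totalDegree hm
    rwa [Finsupp.sum_fintype _ _ (fun _ => rfl)] at h2
  have h3 : A 0 ^ p.totalDegree = A 0 ^ (p.totalDegree - ∑ i, m i) * A 0 ^ (∑ i, m i) := by
    rw [← pow_add, Nat.sub_add_cancel h1]
  have h4 : ∏ i : Fin r, (A (Fin.succ i) / A 0) ^ m i =
      (∏ i : Fin r, A (Fin.succ i) ^ m i) / A 0 ^ (∑ i, m i) := by
    rw [Finset.prod_congr rfl fun i _ => div_pow (A (Fin.succ i)) (A 0) (m i),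
      Finset.prod_div_distrib, Finset.prod_pow_eq_pow_sum]
  rw [h3, h4]
  field_simp

lemma hmg_isWeightedHomogeneous {σ : Type} {w : σ → ℕ} {d : ℕ} (p : MvPolynomial (Fin r) ℂ)
    {A : Fin (r + 1) → MvPolynomial σ ℂ} (hA : ∀ i, IsWeightedHomogeneous w (A i) d) :
    IsWeightedHomogeneous w (hmg p A) (p.totalDegree * d) := by
  unfold hmg
  refine IsWeightedHomogeneous.sum _ _ _ fun m hm => ?_
  have h1 : ∑ i, m i ≤ p.totalDegree := by
    have h2 := le_totalDegree hm
    rwa [Finsupp.sum_fintype _ _ (fun _ => rfl)] at h2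
  have h2 := (isWeightedHomogeneous_C w (p.coeff m)).mul
    (((hA 0).pow (p.totalDegree - ∑ i, m i)).mul
      (IsWeightedHomogeneous.prod Finset.univ (fun i : Fin r => A (Fin.succ i) ^ m i)
        (fun i => m i * d) fun i _ => by
          have h3 := (hA (Fin.succ i)).pow (m i)
          rwa [smul_eq_mul] at h3))
  have h3 : 0 + ((p.totalDegree - ∑ i, m i) • d + ∑ i : Fin r, m i * d) = p.totalDegree * d := by
    rw [zero_add, smul_eq_mul, ← Finset.sum_mul, ← add_mul, Nat.sub_add_cancel h1]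
  rw [h3] at h2
  exact h2

end Pool.Agent.H92.GT

end
end

section

/-!
# Transcendence bases among the coordinates
-/

noncomputable section

namespace Pool.Agent.H92.GT

open scoped IntermediateField.algebraAdjoinAdjoin in
/-- If `K` is algebraic over `ℂ(x)` there is a transcendence basis among the coordinates. -/
theorem exists_index {K : Type} [Field K] [Algebra ℂ K] {k n : ℕ} {x : Fin n → K}
    (halg : Algebra.IsAlgebraic (IntermediateField.adjoin ℂ (Set.range x)) K) {z : Fin k → K}
    (hz : IsTranscendenceBasis ℂ z) :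
    ∃ J : Fin k → Fin n, IsTranscendenceBasis ℂ fun i => x (J i) := by
  have h1 : Algebra.IsAlgebraic (Algebra.adjoin ℂ (Set.range x)) K :=
    (IsFractionRing.comap_isAlgebraic_iff (A := Algebra.adjoin ℂ (Set.range x))
      (K := IntermediateField.adjoin ℂ (Set.range x)) (C := K)).mpr halg
  obtain ⟨u, hu, hub⟩ := exists_isTranscendenceBasis_subset (R := ℂ) (Set.range x)
  have h2 := hub.cardinalMk_eq hz
  rw [Cardinal.mk_fin] at h2
  have h3 : Finite u := by
    rw [← Cardinal.lt_aleph0_iff_finite, h2]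
    exact Cardinal.natCast_lt_aleph0
  have h4 : Nat.card u = k := by
    rw [Nat.card, h2]
    simp
  let eqv : Fin k ≃ u := (finCongr h4.symm).trans (Finite.equivFin u).symm
  choose J hJ using fun i : Fin k => hu (eqv i).2
  refine ⟨J, ?_⟩
  have h5 : (fun i => x (J i)) = (Subtype.val : u → K) ∘ eqv := funext hJ
  rw [h5, isTranscendenceBasis_equiv]
  exact hub

end Pool.Agent.H92.GT

end
end

section

/-!
# A Jacobian criterion for algebraic independence

* `algebraicIndependent_of_jacobian`: polynomials with nonzero Jacobian determinant at a point are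
  algebraically independent (characteristic zero).
* `exists_algebraicIndependent_of_injective`: from a family `c j` of polynomials whose differential
  at a point is injective one obtains linear combinations, as many as there are variables, that
  are algebraically independent.
-/

namespace Pool.Agent.H94

open MvPolynomial

variable {k : Type*} [Field k]

lemma eq_C_of_pderiv_eq_zero [CharZero k] {ι : Type*} (P : MvPolynomial ι k)
    (h : ∀ i, pderiv i P = 0) : P = C (coeff 0 P) := by
  classical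
  ext m
  rw [coeff_C]
  by_cases hm : m = 0
  · subst hm; simp
  · rw [if_neg (Ne.symm hm)]
    obtain ⟨i, hi⟩ : ∃ i, m i ≠ 0 := by
      by_contra hcon
      push Not at hcon
      exact hm (Finsupp.ext hcon)
    have h1 := congrArg (coeff (m - Finsupp.single i 1)) (h i)
    rw [coeff_pderiv, coeff_zero] at h1
    have h2 : m - Finsupp.single i 1 + Finsupp.single i 1 = m :=
      Finsupp.sub_add_single_one_cancel hi
    rw [h2] at h1
    rcases mul_eq_zero.1 h1 with h1 | h1
    · exact h1
    · exfalso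
      have : ((((m - Finsupp.single i 1 : ι →₀ ℕ)) i + 1 : ℕ) : k) = 0 := by push_cast; exact h1
      exact Nat.cast_ne_zero.2 (Nat.succ_ne_zero _) this

lemma totalDegree_pderiv_lt {ι : Type*} (P : MvPolynomial ι k) (i : ι) (h : pderiv i P ≠ 0) :
    (pderiv i P).totalDegree < P.totalDegree := by
  classical
  obtain ⟨m, hm, hmd⟩ := Finset.exists_mem_eq_sup (pderiv i P).support
    (support_nonempty.2 h) (fun s => s.sum fun _ e => e)
  rw [mem_support_iff, coeff_pderiv] at hm
  have h1 : coeff (m + Finsupp.single i 1) P ≠ 0 := left_ne_zero_of_mul hm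
  have h2 := le_totalDegree (mem_support_iff.2 h1)
  have h3 : (m + Finsupp.single i 1).degree = m.degree + 1 := by
    rw [map_add, Finsupp.degree_single]
  have h4 : (m + Finsupp.single i 1).sum (fun _ e => e) = (m + Finsupp.single i 1).degree := rfl
  have h5 : m.sum (fun _ e => e) = m.degree := rfl
  have h6 : (pderiv i P).totalDegree = m.degree := hmd
  rw [h4, h3] at h2
  omega

end Pool.Agent.H94

end

section

set_option autoImplicit false

/-!
# Basic facts on the total space, and a criterion for non-hyperbolicity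
-/

open MvPolynomial Topology Filter

namespace Pool.Agent.H99.Cover

variable {N : ℕ} {ι : Type}

/-- The exponential of the inverse takes every non-zero value near zero. -/
lemma exists_seq_exp_inv (σ : ℂ) (hσ : σ ≠ 0) :
    ∃ zs : ℕ → ℂ, Tendsto zs atTop (𝓝 0) ∧ ∀ᶠ n in atTop, zs n ≠ 0 ∧ Complex.exp (zs n)⁻¹ = σ := by
  have h : Tendsto (fun n : ℕ => Complex.log σ + n * (2 * Real.pi * Complex.I)) atTop
      (Bornology.cobounded ℂ) := by
    rw [← tendsto_norm_atTop_iff_cobounded]
    have h1 : Tendsto (fun n : ℕ => (n : ℝ) * (2 * Real.pi) - ‖Complex.log σ‖) atTop atTop := by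
      refine tendsto_atTop_add_const_right _ _ ?_
      exact (tendsto_natCast_atTop_atTop).atTop_mul_const (by positivity)
    refine tendsto_atTop_mono ?_ h1
    intro n
    have h2 : ‖(n : ℂ) * (2 * Real.pi * Complex.I)‖ = n * (2 * Real.pi) := by
      rw [norm_mul, norm_mul, norm_mul]
      simp [Real.pi_pos.le, abs_of_nonneg]
    have h3 : ‖(n : ℂ) * (2 * Real.pi * Complex.I)‖ ≤
        ‖Complex.log σ + n * (2 * Real.pi * Complex.I)‖ + ‖Complex.log σ‖ := by
      have := norm_sub_le (Complex.log σ + n * (2 * Real.pi * Complex.I)) (Complex.log σ)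
      simpa using this
    linarith
  refine ⟨fun n => (Complex.log σ + n * (2 * Real.pi * Complex.I))⁻¹,
    Filter.tendsto_inv₀_cobounded.comp h, ?_⟩
  have hne : ∀ᶠ n : ℕ in atTop, Complex.log σ + n * (2 * Real.pi * Complex.I) ≠ 0 := by
    have h5 := h.eventually (Bornology.eventually_ne_cobounded (0 : ℂ))
    exact h5
  filter_upwards [hne] with n hn
  refine ⟨inv_ne_zero hn, ?_⟩
  rw [inv_inv, Complex.exp_add, Complex.exp_log hσ, Complex.exp_nat_mul_two_pi_mul_I, mul_one]

end Pool.Agent.H99.Cover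

end
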