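import Pool.Agent.H94.PX4.M09
import Pool.Agent.H94.PX4.M16
import Pool.Agent.H94.PX4.M17

/-! The parts of this file: AD.T.Torus, AD.T.Proj, H56.PR.Hit, H17BP.MapIdeal, H7.Bir.Map_1, PX.T.Few. -/

section

/-!
# AD T Torus: holomorphic maps to complex tori

`u : X → ℂ^g / Λ` is holomorphic, `Λ` discrete.  The components of `du` are symmetric differentials of degree one; an entire curve `F` with
`du (F') = 0` lies in a fibre of `u`.
-/

set_option autoImplicit false

open Topology Filter Metric MvPolynomial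

namespace Pool.Agent.AD

attribute [-instance] ProperSMul.toContinuousSMul

open Pool.Agent.H36.BP (EN fs wd)

variable {N g : ℕ}

/-- `u` is a holomorphic map from the variety with the cone `X` to `ℂ^g / Λ` -/
structure TorusMapV (X : Set (EN N)) (Λ : AddSubgroup (Fin g → ℂ)) (u : EN N → (Fin g → ℂ)) : Prop where
  smul : ∀ x ∈ X, ∀ c : ℂ, c ≠ 0 → u (c • x) - u x ∈ Λ
  loc : ∀ x ∈ X, ∃ v : EN N → (Fin g → ℂ), AnalyticAt ℂ v x ∧ ∀ᶠ y in 𝓝 x, y ∈ X → u y - v y ∈ Λ

/-- a discrete subgroup -/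
def DiscreteSub (Λ : AddSubgroup (Fin g → ℂ)) : Prop := ∃ δ : ℝ, 0 < δ ∧ ∀ l ∈ Λ, ‖l‖ < δ → l = 0

variable {X : Set (EN N)} {Λ : AddSubgroup (Fin g → ℂ)} {u : EN N → (Fin g → ℂ)}

end Pool.Agent.AD

end

section

/-!
# AD T Proj: pseudo-lengths from holomorphic maps to tori and from symmetric differentials, on projective manifolds
-/

set_option autoImplicit false

open Topology Filter Metric MvPolynomial

noncomputable section

namespace Pool.Agent.AD

open Pool.Agent.H36.BP (EN fs wd)

variable {N g : ℕ} {P : Ideal (MvPolynomial (Fin (N + 1)) ℂ)}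

theorem discreteSub_of (Λ : AddSubgroup (Fin g → ℂ)) [DiscreteTopology Λ] : DiscreteSub Λ := by
  have h1 : ({0} : Set Λ) ∈ 𝓝 (0 : Λ) := by
    rw [nhds_discrete]
    exact Set.mem_singleton 0
  obtain ⟨δ, hδ, h⟩ := Metric.mem_nhds_iff.1 h1
  refine ⟨δ, hδ, fun l hl hn => ?_⟩
  have h2 : (⟨l, hl⟩ : Λ) ∈ ball (0 : Λ) δ := by
    rw [mem_ball, Subtype.dist_eq]
    simpa [dist_eq_norm] using hn
  have h3 := h h2
  rw [Set.mem_singleton_iff] at h3
  exact congrArg Subtype.val h3

end Pool.Agent.AD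

end
end

section

/-!
Sequence form: a limit root of zero free sections is simple at a good hit.
-/

namespace Pool.Agent.H56.PR

open Topology Filter Set Polynomial Metric

noncomputable section

variable {ι : Type*} {l : Filter ι} {P : ι → ℂ → ℂ[X]} {P' : ℂ → ℂ[X]} {d : ℕ} {ρ r : ℝ}

theorem conv_eval (hrρ : r < ρ) (hP : ∀ᶠ n in l, LFam (P n) d ρ) (hP' : LFam P' d ρ)
    (hconv : ∀ i, TendstoUniformlyOn (fun n z => (P n z).coeff i) (fun z => (P' z).coeff i) l
      (closedBall 0 r)) {R η : ℝ} (hR : 0 ≤ R) (hη : 0 < η) :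
    ∀ᶠ n in l, ∀ z ∈ closedBall (0 : ℂ) r, ∀ w : ℂ, ‖w‖ ≤ R →
      ‖(P n z).eval w - (P' z).eval w‖ ≤ η ∧
      ‖(P n z).derivative.eval w - (P' z).derivative.eval w‖ ≤ η := by
  have hsub : closedBall (0 : ℂ) r ⊆ ball 0 ρ := closedBall_subset_ball hrρ
  set C : ℝ := ∑ i ∈ Finset.range (d + 1), (R ^ i + (i + 1) * R ^ i) with hC
  have hC0 : 0 ≤ C := Finset.sum_nonneg fun i _ => by positivity
  have hε : 0 < η / (C + 1) := by positivity
  have h1 : ∀ᶠ n in l, ∀ i ∈ Finset.range (d + 2), ∀ z ∈ closedBall (0 : ℂ) r,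
      ‖(P n z).coeff i - (P' z).coeff i‖ ≤ η / (C + 1) := by
    rw [Filter.eventually_all_finset]
    intro i _
    filter_upwards [(Metric.tendstoUniformlyOn_iff.1 (hconv i)) _ hε] with n hn z hz
    have := hn z hz
    rw [dist_comm, dist_eq_norm] at this
    exact this.le
  filter_upwards [h1, hP] with n hn hPn z hz w hw
  have hzρ := hsub hz
  have hCη : C * (η / (C + 1)) ≤ η := by
    rw [mul_div_assoc', div_le_iff₀ (by positivity)]
    nlinarith
  constructor
  · rw [hPn.eval_eq hzρ, hP'.eval_eq hzρ, ← Finset.sum_sub_distrib]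
    refine (norm_sum_le _ _).trans (le_trans ?_ hCη)
    rw [hC, Finset.sum_mul]
    refine Finset.sum_le_sum fun i hi => ?_
    have h2 := hn i (Finset.mem_range.2 (by have := Finset.mem_range.1 hi; omega)) z hz
    rw [← sub_mul, norm_mul, norm_pow]
    have h3 : ‖w‖ ^ i ≤ R ^ i := pow_le_pow_left₀ (norm_nonneg _) hw i
    have h4 : 0 ≤ (i + 1) * R ^ i := by positivity
    calc _ ≤ η / (C + 1) * R ^ i := mul_le_mul h2 h3 (by positivity) hε.le
      _ ≤ (R ^ i + (i + 1) * R ^ i) * (η / (C + 1)) := by nlinarith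
  · rw [hPn.deriv_eval_eq hzρ, hP'.deriv_eval_eq hzρ, ← Finset.sum_sub_distrib]
    refine (norm_sum_le _ _).trans (le_trans ?_ hCη)
    rw [hC, Finset.sum_mul, Finset.sum_range_succ]
    refine le_add_of_le_of_nonneg ?_ (by positivity)
    refine Finset.sum_le_sum fun i hi => ?_
    have h2 := hn (i + 1) (Finset.mem_range.2 (by have := Finset.mem_range.1 hi; omega)) z hz
    have h5 : (P n z).coeff (i + 1) * (i + 1) * w ^ i - (P' z).coeff (i + 1) * (i + 1) * w ^ i
        = ((P n z).coeff (i + 1) - (P' z).coeff (i + 1)) * ((i + 1) * w ^ i) := by ring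
    have h6 : ‖((i : ℂ) + 1) * w ^ i‖ ≤ (i + 1) * R ^ i := by
      rw [norm_mul, norm_pow]
      have h7 : ‖(i : ℂ) + 1‖ = i + 1 := by
        rw [← Nat.cast_succ, Complex.norm_natCast]; push_cast; ring
      rw [h7]
      exact mul_le_mul_of_nonneg_left (pow_le_pow_left₀ (norm_nonneg _) hw i) (by positivity)
    rw [h5, norm_mul]
    have h4 : 0 ≤ R ^ i := by positivity
    calc _ ≤ η / (C + 1) * ((i + 1) * R ^ i) := mul_le_mul h2 h6 (norm_nonneg _) hε.le
      _ ≤ (R ^ i + (i + 1) * R ^ i) * (η / (C + 1)) := by nlinarith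

end

end Pool.Agent.H56.PR

end

section

/-!
# The ideal of a holomorphic map

`mapIdeal f U`: the polynomials which vanish on the cone over `f U`.

* `mem_mapIdeal_form`: `eval_smul_form`; `VanishesAt Q x` is `eval x.rep Q = 0`; take `c = 1` for one direction.
* `mapIdeal_homog`: for fixed `z ∈ U`: `eval (c • x) Q = ∑ k, c ^ k * eval x (homogeneousComponent k Q)` is a polynomial in `c`
  which vanishes for all `c`, so all coefficients vanish (e.g. `Polynomial.funext`, or the lemma
  `Pool.Agent.H62.FC.eval_homogeneousComponent_eq_zero` in `Pool/Agent/H62/FC/CurveIdeal.lean`).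
* `mapIdeal_isPrime`: `1` is not in it (`U ≠ ∅`).  Let `A * B ∈ I`, `A ∉ I`, `B ∉ I`.  There are homogeneous components `A_k`,
  `B_l` not in `I` (`sum_homogeneousComponent`, ideal), i.e. `VanishesAt A_k (f z)` fails for some `z ∈ U`.  For a form `R` the set
  of the `z₀ ∈ U` with `VanishesAt R (f z)` for all `z` near `z₀` is open, and so is the set of the `z₀ ∈ U` with
  `¬ VanishesAt R (f z)` for all `z ≠ z₀` near `z₀`; they cover `U` (local lift `φ` of `f`, `z ↦ eval (φ z) R` is analytic at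
  `z₀`, `AnalyticAt.eventually_eq_zero_or_eventually_ne_zero`, `vanishesAt_mk`); `U` is preconnected, so one of them is `U`;
  if `R ∉ I` it is the second one.  So near a point `z₀ ∈ U`, for `z ≠ z₀`, both `A_k` and `B_l` do not vanish at `f z`.  For
  such a `z ∈ U` the polynomials `c ↦ eval (c • x) A`, `c ↦ eval (c • x) B` (`x = (f z).rep`) are not zero (their coefficients at
  `c ^ k`, `c ^ l` are `eval x A_k ≠ 0`, `eval x B_l ≠ 0`), their product is zero for all `c`: contradiction.
-/

open Topology Filter MvPolynomial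

noncomputable section

namespace Pool.Agent.H17BP

open Pool.Agent.H17 (PN VanishesAt ZariskiClosedIn HolomorphicInto puncturedDisc)
open Pool.Agent.H62.FC (Homog)

variable {N : ℕ} {f : ℂ → PN N} {U : Set ℂ}

/-- The ideal of the polynomials which vanish on the cone over `f U`. -/
def mapIdeal (f : ℂ → PN N) (U : Set ℂ) : Ideal (MvPolynomial (Fin (N + 1)) ℂ) where
  carrier := {Q | ∀ z ∈ U, ∀ c : ℂ, eval (c • (f z).rep) Q = 0}
  add_mem' := by
    intro A B hA hB z hz c
    rw [map_add, hA z hz c, hB z hz c, add_zero]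
  zero_mem' := by
    intro z _ c
    rw [map_zero]
  smul_mem' := by
    intro A B hB z hz c
    rw [smul_eq_mul, map_mul, hB z hz c, mul_zero]

/-- The polynomial `c ↦ Q (c x)`. -/
private def MapIdeal_poly (x : Fin (N + 1) → ℂ) (Q : MvPolynomial (Fin (N + 1)) ℂ) : Polynomial ℂ :=
  ∑ k ∈ Finset.range (Q.totalDegree + 1), Polynomial.C (eval x (homogeneousComponent k Q)) * Polynomial.X ^ k

private lemma MapIdeal_poly_eval (x : Fin (N + 1) → ℂ) (Q : MvPolynomial (Fin (N + 1)) ℂ) (c : ℂ) :
    (MapIdeal_poly x Q).eval c = eval (c • x) Q := by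
  conv_rhs => rw [← MvPolynomial.sum_homogeneousComponent Q]
  rw [MapIdeal_poly, Polynomial.eval_finsetSum, map_sum]
  refine Finset.sum_congr rfl fun k _ => ?_
  rw [eval_smul_form (homogeneousComponent_isHomogeneous k Q)]
  rw [Polynomial.eval_mul, Polynomial.eval_C, Polynomial.eval_pow, Polynomial.eval_X, mul_comm]

private lemma MapIdeal_poly_coeff (x : Fin (N + 1) → ℂ) (Q : MvPolynomial (Fin (N + 1)) ℂ) (n : ℕ) :
    (MapIdeal_poly x Q).coeff n = eval x (homogeneousComponent n Q) := by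
  rw [MapIdeal_poly, Polynomial.finsetSum_coeff]
  simp only [Polynomial.coeff_C_mul, Polynomial.coeff_X_pow]
  by_cases hn : n ∈ Finset.range (Q.totalDegree + 1)
  · rw [Finset.sum_eq_single n]
    · simp
    · intro b _ hb
      rw [if_neg hb.symm, mul_zero]
    · intro h
      exact absurd hn h
  · rw [Finset.sum_eq_zero, homogeneousComponent_eq_zero, map_zero]
    · rw [Finset.mem_range] at hn
      omega
    · intro k hk
      rw [if_neg, mul_zero]
      rintro rfl
      exact hn hk

private lemma MapIdeal_comp {x : Fin (N + 1) → ℂ} {Q : MvPolynomial (Fin (N + 1)) ℂ}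
    (h : ∀ c : ℂ, eval (c • x) Q = 0) (n : ℕ) : eval x (homogeneousComponent n Q) = 0 := by
  have h1 : MapIdeal_poly x Q = 0 := by
    apply Polynomial.funext
    intro c
    rw [MapIdeal_poly_eval, h c, Polynomial.eval_zero]
  rw [← MapIdeal_poly_coeff, h1, Polynomial.coeff_zero]

theorem mem_mapIdeal_form {d : ℕ} {Q : MvPolynomial (Fin (N + 1)) ℂ} (hQ : Q.IsHomogeneous d) :
    Q ∈ mapIdeal f U ↔ ∀ z ∈ U, VanishesAt Q (f z) := by
  constructor
  · intro h z hz
    have h1 := h z hz 1
    rw [one_smul] at h1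
    exact h1
  · intro h z hz c
    have h1 : eval (f z).rep Q = 0 := h z hz
    rw [eval_smul_form hQ, h1, mul_zero]

theorem mapIdeal_homog : Homog (mapIdeal f U) := by
  intro Q hQ n z hz c
  rw [eval_smul_form (homogeneousComponent_isHomogeneous n Q), MapIdeal_comp (hQ z hz) n, mul_zero]

private lemma MapIdeal_analytic {φ : ℂ → Fin (N + 1) → ℂ} {z₀ : ℂ} (hφ : AnalyticAt ℂ φ z₀)
    (R : MvPolynomial (Fin (N + 1)) ℂ) : AnalyticAt ℂ (fun z => eval (φ z) R) z₀ := by
  have hi : ∀ i, AnalyticAt ℂ (fun z => φ z i) z₀ := fun i =>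
    (ContinuousLinearMap.proj (R := ℂ) (φ := fun _ : Fin (N + 1) => ℂ) i).analyticAt _ |>.comp hφ
  induction R using MvPolynomial.induction_on with
  | C a =>
    simp only [eval_C]
    exact analyticAt_const
  | add p q hp hq =>
    simp only [map_add]
    exact hp.add hq
  | mul_X p i hp =>
    simp only [map_mul, eval_X]
    exact hp.mul (hi i)

private lemma MapIdeal_notMem (hUc : IsPreconnected U) (hf : HolomorphicInto f U)
    {d : ℕ} {R : MvPolynomial (Fin (N + 1)) ℂ} (hR : R.IsHomogeneous d) (hRI : R ∉ mapIdeal f U) {z₀ : ℂ}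
    (hz₀ : z₀ ∈ U) : ∀ᶠ z in 𝓝[≠] z₀, ¬ VanishesAt R (f z) := by
  have hu : IsOpen {x : ℂ | ∀ᶠ z in 𝓝 x, VanishesAt R (f z)} := isOpen_setOfPred_eventually_nhds
  have hv : IsOpen {x : ℂ | ∀ᶠ z in 𝓝[≠] x, ¬ VanishesAt R (f z)} := isOpen_setOfPred_eventually_nhdsWithin
  have hcov : U ⊆ {x : ℂ | ∀ᶠ z in 𝓝 x, VanishesAt R (f z)} ∪
      {x : ℂ | ∀ᶠ z in 𝓝[≠] x, ¬ VanishesAt R (f z)} := by
    intro z₁ hz₁
    obtain ⟨φ, hφ, he⟩ := hf z₁ hz₁
    rcases (MapIdeal_analytic hφ R).eventually_eq_zero_or_eventually_ne_zero with h | h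
    · left
      change ∀ᶠ z in 𝓝 z₁, VanishesAt R (f z)
      filter_upwards [h, he] with z h1 h2
      obtain ⟨h3, h4⟩ := h2
      rw [h4, vanishesAt_mk hR]
      exact h1
    · right
      change ∀ᶠ z in 𝓝[≠] z₁, ¬ VanishesAt R (f z)
      filter_upwards [h, he.filter_mono nhdsWithin_le_nhds] with z h1 h2
      obtain ⟨h3, h4⟩ := h2
      rw [h4, vanishesAt_mk hR]
      exact h1
  by_contra hcon
  have h1 : z₀ ∈ {x : ℂ | ∀ᶠ z in 𝓝 x, VanishesAt R (f z)} := (hcov hz₀).resolve_right hcon
  apply hRI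
  rw [mem_mapIdeal_form hR]
  intro z hz
  rcases hcov hz with h2 | h2
  · have h3 : ∀ᶠ w in 𝓝 z, VanishesAt R (f w) := h2
    exact h3.self_of_nhds
  · exfalso
    obtain ⟨w, -, hw1, hw2⟩ := hUc _ _ hu hv hcov ⟨z₀, hz₀, h1⟩ ⟨z, hz, h2⟩
    have h3 : ∀ᶠ z in 𝓝 w, VanishesAt R (f z) := hw1
    have h4 : ∀ᶠ z in 𝓝[≠] w, ¬ VanishesAt R (f z) := hw2
    obtain ⟨t, ht1, ht2⟩ := ((h3.filter_mono nhdsWithin_le_nhds).and h4).exists
    exact ht2 ht1

theorem mapIdeal_isPrime (hUo : IsOpen U) (hUc : IsPreconnected U) (hne : U.Nonempty) (hf : HolomorphicInto f U) :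
    (mapIdeal f U).IsPrime := by
  obtain ⟨z₀, hz₀⟩ := hne
  have hcomp : ∀ A : MvPolynomial (Fin (N + 1)) ℂ, A ∉ mapIdeal f U →
      ∃ k, homogeneousComponent k A ∉ mapIdeal f U := by
    intro A hA
    by_contra hcon
    push Not at hcon
    apply hA
    rw [← MvPolynomial.sum_homogeneousComponent A]
    exact Ideal.sum_mem _ fun i _ => hcon i
  refine ⟨?_, ?_⟩
  · intro htop
    have h1 : (1 : MvPolynomial (Fin (N + 1)) ℂ) ∈ mapIdeal f U := by
      rw [htop]
      trivial
    have h2 := h1 z₀ hz₀ 1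
    rw [map_one] at h2
    exact one_ne_zero h2
  · intro A B hAB
    by_contra hcon
    push Not at hcon
    obtain ⟨k, hk⟩ := hcomp A hcon.1
    obtain ⟨l, hl⟩ := hcomp B hcon.2
    have h1 := MapIdeal_notMem hUc hf (homogeneousComponent_isHomogeneous k A) hk hz₀
    have h2 := MapIdeal_notMem hUc hf (homogeneousComponent_isHomogeneous l B) hl hz₀
    have h3' : ∀ᶠ z in 𝓝 z₀, z ∈ U := hUo.mem_nhds hz₀
    have h3 : ∀ᶠ z in 𝓝[≠] z₀, z ∈ U := h3'.filter_mono nhdsWithin_le_nhds
    obtain ⟨z, ⟨h4, h5⟩, h6⟩ := ((h1.and h2).and h3).exists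
    have h7 : MapIdeal_poly (f z).rep A * MapIdeal_poly (f z).rep B = 0 := by
      apply Polynomial.funext
      intro c
      rw [Polynomial.eval_mul, MapIdeal_poly_eval, MapIdeal_poly_eval, ← map_mul, Polynomial.eval_zero]
      exact hAB z h6 c
    rcases mul_eq_zero.1 h7 with h8 | h8
    · apply h4
      change eval (f z).rep (homogeneousComponent k A) = 0
      rw [← MapIdeal_poly_coeff, h8, Polynomial.coeff_zero]
    · apply h5
      change eval (f z).rep (homogeneousComponent l B) = 0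
      rw [← MapIdeal_poly_coeff, h8, Polynomial.coeff_zero]

theorem exists_X_notMem (hne : U.Nonempty) : ∃ i, (X i : MvPolynomial (Fin (N + 1)) ℂ) ∉ mapIdeal f U := by
  obtain ⟨z, hz⟩ := hne
  by_contra hcon
  push Not at hcon
  apply (f z).rep_nonzero
  funext i
  have h1 := hcon i z hz 1
  rw [one_smul, eval_X] at h1
  exact h1

theorem mem_variety_mapIdeal {z : ℂ} (hz : z ∈ U) : f z ∈ variety (mapIdeal f U) := by
  refine ⟨fun Q hQ n hn => (mem_mapIdeal_form hn).1 hQ z hz, fun m => m.elim0⟩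

theorem le_mapIdeal {P : Ideal (MvPolynomial (Fin (N + 1)) ℂ)} (hP : Homog P) (h : ∀ z ∈ U, f z ∈ variety P) :
    P ≤ mapIdeal f U := by
  intro Q hQ
  rw [← MvPolynomial.sum_homogeneousComponent Q]
  refine Ideal.sum_mem _ fun i _ => ?_
  rw [mem_mapIdeal_form (homogeneousComponent_isHomogeneous i Q)]
  exact fun z hz => (h z hz).1 _ (hP Q hQ i) i (homogeneousComponent_isHomogeneous i Q)

end Pool.Agent.H17BP

end
end

section

/-!
# Bir Map: composition of holomorphic maps with rational maps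

* `exists_comp`: the composition of a holomorphic map `f` into `ℙ^M` with the rational map given by forms `γ i` of the same degree, not all of them
  zero on `f`, is holomorphic: near every point divide the functions `γ i (φ z)` by their common zeros.
* `pn_identity`: the identity theorem for maps into projective space.
-/

set_option autoImplicit false

open Topology Filter Metric MvPolynomial

noncomputable section

namespace Pool.Agent.H7.Bir

open Pool.Agent.H17 (PN VanishesAt HolomorphicInto)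

variable {N M : ℕ}

theorem vals_smul {γ : Fin (N + 1) → MvPolynomial (Fin (M + 1)) ℂ} {D : ℕ} (hγ : ∀ i, (γ i).IsHomogeneous D)
    (c : ℂ) (x : Fin (M + 1) → ℂ) : vals γ (c • x) = c ^ D • vals γ x := by
  funext i
  exact Pool.Agent.H17BP.eval_smul_form (hγ i) c x

theorem rmap_mk {γ : Fin (N + 1) → MvPolynomial (Fin (M + 1)) ℂ} {D : ℕ} (hγ : ∀ i, (γ i).IsHomogeneous D)
    {x : Fin (M + 1) → ℂ} (hx : x ≠ 0) (h : vals γ x ≠ 0) :
    rmap γ (Projectivization.mk ℂ x hx) = Projectivization.mk ℂ (vals γ x) h := by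
  obtain ⟨a, ha⟩ := Projectivization.exists_smul_eq_mk_rep ℂ x hx
  have h1 : (Projectivization.mk ℂ x hx).rep = (a : ℂ) • x := ha.symm
  have h2 : vals γ (Projectivization.mk ℂ x hx).rep = (a : ℂ) ^ D • vals γ x := by
    rw [h1, vals_smul hγ]
  have h3 : vals γ (Projectivization.mk ℂ x hx).rep ≠ 0 := by
    rw [h2]
    exact smul_ne_zero (pow_ne_zero _ a.ne_zero) h
  unfold rmap
  rw [dif_pos h3, Projectivization.mk_eq_mk_iff']
  exact ⟨(a : ℂ) ^ D, h2.symm⟩

/-- The identity theorem for maps into projective space. -/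
theorem pn_identity {f g : ℂ → PN N} {U : Set ℂ} (hUc : IsPreconnected U) (hf : HolomorphicInto f U) (hg : HolomorphicInto g U)
    {z₀ : ℂ} (hz₀ : z₀ ∈ U) (h : ∀ᶠ z in 𝓝 z₀, f z = g z) : ∀ z ∈ U, f z = g z := by
  set A : Set ℂ := {z | ∀ᶠ w in 𝓝 z, f w = g w} with hA
  have hAo : IsOpen A := by
    rw [isOpen_iff_mem_nhds]
    intro z hz
    exact hz.eventually_nhds
  have hcl : closure A ∩ U ⊆ A := by
    rintro z ⟨hz1, hz2⟩
    obtain ⟨φ, hφ, he⟩ := hf z hz2
    obtain ⟨χ, hχ, he'⟩ := hg z hz2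
    obtain ⟨r, hr, hr1⟩ := Metric.eventually_nhds_iff_ball.mp
      ((hφ.eventually_analyticAt.and hχ.eventually_analyticAt).and (he.and he'))
    obtain ⟨z', hz'1, hz'2⟩ := mem_closure_iff_nhds.mp hz1 (ball z r) (ball_mem_nhds z hr)
    have hz'A : ∀ᶠ w in 𝓝 z', f w = g w := hz'2
    have hprop : ∀ i j, ∀ w ∈ ball z r, φ w i * χ w j - φ w j * χ w i = 0 := by
      intro i j
      have han : AnalyticOnNhd ℂ (fun w => φ w i * χ w j - φ w j * χ w i) (ball z r) := by
        intro w hw
        have h1 := analyticAt_pi_iff.mp (hr1 w hw).1.1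
        have h2 := analyticAt_pi_iff.mp (hr1 w hw).1.2
        exact ((h1 i).mul (h2 j)).sub ((h1 j).mul (h2 i))
      have h0 : (fun w => φ w i * χ w j - φ w j * χ w i) =ᶠ[𝓝 z'] 0 := by
        filter_upwards [hz'A, isOpen_ball.mem_nhds hz'1] with w hw1 hw2
        obtain ⟨⟨h1, h2⟩, h3, h4⟩ := (hr1 w hw2).2
        rw [h2, h4, Projectivization.mk_eq_mk_iff'] at hw1
        obtain ⟨a, ha⟩ := hw1
        simp only [← ha, Pi.smul_apply, smul_eq_mul, Pi.zero_apply]
        ring
      exact han.eqOn_zero_of_preconnected_of_eventuallyEq_zero (convex_ball z r).isPreconnected hz'1 h0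
    show ∀ᶠ w in 𝓝 z, f w = g w
    filter_upwards [ball_mem_nhds z hr] with w hw
    obtain ⟨⟨h1, h2⟩, h3, h4⟩ := (hr1 w hw).2
    rw [h2, h4, Projectivization.mk_eq_mk_iff']
    obtain ⟨j, hj⟩ : ∃ j, χ w j ≠ 0 := by
      by_contra hcon
      push Not at hcon
      exact h3 (funext hcon)
    refine ⟨φ w j / χ w j, ?_⟩
    funext i
    have h5 := hprop i j w hw
    simp only [Pi.smul_apply, smul_eq_mul]
    field_simp
    linear_combination -h5
  have hAU : U ⊆ A := hUc.subset_of_closure_inter_subset hAo ⟨z₀, hz₀, h⟩ hcl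
  intro z hz
  have h1 : ∀ᶠ w in 𝓝 z, f w = g w := hAU hz
  exact h1.self_of_nhds

end Pool.Agent.H7.Bir

end
end

section

/-!
# PX T Few: polynomials with few zeros

`g` is a polynomial of degree `≤ d`, regarded as a binary form of degree `d`.  It has at most `σ + 1` zeros in `ℙ¹` if and only if there are `Q` of degree `≤ σ + 1` and `L` of degree `≤ σ`, with the coefficient `d q` in degree `σ`, `q`
the coefficient of `Q` in degree `σ + 1`, not both `0`, such that `Q g' = L g`.
-/

set_option autoImplicit false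

open Polynomial

noncomputable section

namespace Pool.Agent.COP

/-- the index type of the unknowns -/
abbrev Ix (σ : ℕ) : Type := Fin (σ + 2) ⊕ Fin σ

variable {σ : ℕ}

/-- the polynomial `Q` -/
def qp (c : Ix σ → ℂ) : ℂ[X] := ∑ i : Fin (σ + 2), c (Sum.inl i) • X ^ (i : ℕ)

/-- the polynomial `L` -/
def lp (d : ℕ) (c : Ix σ → ℂ) : ℂ[X] := ((d : ℂ) * c (Sum.inl (Fin.last (σ + 1)))) • X ^ σ + ∑ i : Fin σ, c (Sum.inr i) • X ^ (i : ℕ)

theorem qp_add (a b : Ix σ → ℂ) : qp (a + b) = qp a + qp b := by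
  unfold qp
  simp only [Pi.add_apply, add_smul, Finset.sum_add_distrib]

theorem qp_smul (r : ℂ) (a : Ix σ → ℂ) : qp (r • a) = r • qp a := by
  unfold qp
  rw [Finset.smul_sum]
  exact Finset.sum_congr rfl fun i _ => by rw [Pi.smul_apply, smul_assoc]

theorem lp_add (d : ℕ) (a b : Ix σ → ℂ) : lp d (a + b) = lp d a + lp d b := by
  unfold lp
  simp only [Pi.add_apply, add_smul, mul_add, Finset.sum_add_distrib]
  abel

theorem lp_smul (d : ℕ) (r : ℂ) (a : Ix σ → ℂ) : lp d (r • a) = r • lp d a := by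
  unfold lp
  rw [smul_add, Finset.smul_sum]
  congr 1
  · rw [Pi.smul_apply, smul_smul, smul_eq_mul]
    congr 1
    ring
  · exact Finset.sum_congr rfl fun i _ => by rw [Pi.smul_apply, smul_assoc]

/-- the linear map -/
def psi (d : ℕ) (g : ℂ[X]) : (Ix σ → ℂ) →ₗ[ℂ] ℂ[X] where
  toFun c := qp c * derivative g - lp d c * g
  map_add' a b := by
    rw [qp_add, lp_add]
    ring
  map_smul' r a := by
    rw [qp_smul, lp_smul, smul_mul_assoc, smul_mul_assoc, ← smul_sub, RingHom.id_apply]

theorem psi_apply (d : ℕ) (g : ℂ[X]) (c : Ix σ → ℂ) : psi d g c = qp c * derivative g - lp d c * g := rfl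

theorem psi_sum (d : ℕ) {ι : Type} (s : Finset ι) (a : ι → ℂ) (g : ι → ℂ[X]) (c : Ix σ → ℂ) : psi d (∑ i ∈ s, a i • g i) c = ∑ i ∈ s, a i • psi d (g i) c := by
  simp only [psi_apply]
  rw [derivative_sum, Finset.mul_sum, Finset.mul_sum, ← Finset.sum_sub_distrib]
  refine Finset.sum_congr rfl fun i _ => ?_
  rw [derivative_smul, mul_smul_comm, mul_smul_comm, smul_sub]

theorem coeff_qp (c : Ix σ → ℂ) (n : ℕ) : (qp c).coeff n = if h : n < σ + 2 then c (Sum.inl ⟨n, h⟩) else 0 := by
  unfold qp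
  simp only [finsetSum_coeff, coeff_smul, coeff_X_pow, smul_eq_mul, mul_ite, mul_one, mul_zero]
  split_ifs with h
  · rw [Finset.sum_eq_single ⟨n, h⟩]
    · simp
    · intro i _ hi
      rw [if_neg]
      intro h2
      exact hi (Fin.ext h2.symm)
    · intro h2
      exact absurd (Finset.mem_univ _) h2
  · refine Finset.sum_eq_zero fun i _ => if_neg fun h2 => h ?_
    rw [h2]
    exact i.2

theorem qp_eq_zero {c : Ix σ → ℂ} (h : qp c = 0) (i : Fin (σ + 2)) : c (Sum.inl i) = 0 := by
  have h1 := coeff_qp c i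
  rw [h, coeff_zero, dif_pos i.2] at h1
  exact h1.symm

theorem natDegree_qp (c : Ix σ → ℂ) : (qp c).natDegree ≤ σ + 1 := by
  rw [natDegree_le_iff_coeff_eq_zero]
  intro n hn
  rw [coeff_qp, dif_neg (by omega)]

theorem coeff_lp_lt (d : ℕ) (c : Ix σ → ℂ) (i : Fin σ) : (lp d c).coeff i = c (Sum.inr i) := by
  unfold lp
  simp only [coeff_add, finsetSum_coeff, coeff_smul, coeff_X_pow, smul_eq_mul, mul_ite, mul_one, mul_zero]
  rw [if_neg (by have := i.2; omega), zero_add, Finset.sum_eq_single i]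
  · simp
  · intro j _ hj
    rw [if_neg]
    intro h2
    exact hj (Fin.ext h2.symm)
  · intro h2
    exact absurd (Finset.mem_univ _) h2

theorem coeff_lp_eq (d : ℕ) (c : Ix σ → ℂ) : (lp d c).coeff σ = (d : ℂ) * c (Sum.inl (Fin.last (σ + 1))) := by
  unfold lp
  simp only [coeff_add, finsetSum_coeff, coeff_smul, coeff_X_pow, smul_eq_mul, mul_ite, mul_one, mul_zero]
  rw [if_pos trivial, Finset.sum_eq_zero, add_zero]
  intro i _
  rw [if_neg]
  have := i.2
  omega

theorem natDegree_lp (d : ℕ) (c : Ix σ → ℂ) : (lp d c).natDegree ≤ σ := by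
  rw [natDegree_le_iff_coeff_eq_zero]
  intro n hn
  unfold lp
  simp only [coeff_add, finsetSum_coeff, coeff_smul, coeff_X_pow, smul_eq_mul, mul_ite, mul_one, mul_zero]
  rw [if_neg (by omega), zero_add]
  refine Finset.sum_eq_zero fun i _ => if_neg ?_
  have := i.2
  omega

/-- the coefficient of highest degree of the equation -/
theorem top_coeff {Q L g : ℂ[X]} (h : Q * derivative g = L * g) (hQ : Q.natDegree ≤ σ + 1) (hL : L.natDegree ≤ σ) (hg : g ≠ 0) : L.coeff σ = (g.natDegree : ℂ) * Q.coeff (σ + 1) := by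
  have h1 : Q * (X * derivative g) = (X * L) * g := by
    rw [mul_left_comm, h]
    ring
  have hd : (X * derivative g).natDegree ≤ g.natDegree := by
    rw [natDegree_le_iff_coeff_eq_zero]
    intro n hn
    cases n with
    | zero => simp
    | succ n =>
      rw [coeff_X_mul, coeff_derivative, coeff_eq_zero_of_natDegree_lt hn, zero_mul]
  have hXL : (X * L).natDegree ≤ σ + 1 := natDegree_mul_le.trans (by rw [natDegree_X]; omega)
  have h2 : (Q * (X * derivative g)).coeff (σ + 1 + g.natDegree) = ((X * L) * g).coeff (σ + 1 + g.natDegree) := by rw [h1]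
  rw [coeff_mul_add_eq_of_natDegree_le hQ hd, coeff_mul_add_eq_of_natDegree_le hXL le_rfl, coeff_X_mul] at h2
  have h3 : (X * derivative g).coeff g.natDegree = (g.natDegree : ℂ) * g.coeff g.natDegree := by
    cases hn : g.natDegree with
    | zero => simp
    | succ n =>
      rw [coeff_X_mul, coeff_derivative]
      push_cast
      ring
  rw [h3] at h2
  have h4 : g.coeff g.natDegree ≠ 0 := leadingCoeff_ne_zero.2 hg
  refine mul_right_cancel₀ h4 ?_
  rw [← h2]
  ring

/-- a root of `g` is a root of `Q` -/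
theorem root_of_eq {Q L g : ℂ[X]} (h : Q * derivative g = L * g) (hg : g ≠ 0) {α : ℂ} (hα : g.IsRoot α) : Q.IsRoot α := by
  by_contra hQ
  have hg' : derivative g ≠ 0 := by
    intro h0
    have h1 := derivative_eq_zero.1 h0
    rw [eq_C_of_natDegree_eq_zero h1] at hα hg
    rw [IsRoot, eval_C] at hα
    exact hg (by rw [hα, C_0])
  set μ := g.rootMultiplicity α with hμ
  have hμ1 : 0 < μ := (rootMultiplicity_pos hg).2 hα
  have h1 : (X - C α) ^ μ ∣ Q * derivative g := by
    rw [h]
    exact Dvd.dvd.mul_left (pow_rootMultiplicity_dvd g α) L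
  have hcop : IsCoprime ((X - C α) ^ μ) Q := by
    refine IsCoprime.pow_left ?_
    refine ((irreducible_X_sub_C α).coprime_iff_not_dvd).2 fun h2 => hQ (dvd_iff_isRoot.1 h2)
  have h2 : (X - C α) ^ μ ∣ derivative g := hcop.dvd_of_dvd_mul_left h1
  have h3 := (le_rootMultiplicity_iff hg').2 h2
  rw [derivative_rootMultiplicity_of_root hα, ← hμ] at h3
  omega

/-- the number of zeros of the form -/
def nz (d : ℕ) (g : ℂ[X]) : ℕ := g.roots.toFinset.card + if g.natDegree < d then 1 else 0

/-- Many zeros. -/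
theorem psi_inj {d : ℕ} {g : ℂ[X]} (hg : g ≠ 0) (h : σ + 2 ≤ nz d g) : Function.Injective (psi (σ := σ) d g) := by
  rw [injective_iff_map_eq_zero]
  intro c hc
  rw [psi_apply, sub_eq_zero] at hc
  have hroot : ∀ α ∈ g.roots.toFinset, (qp c).eval α = 0 := fun α hα => root_of_eq hc hg ((mem_roots hg).1 (Multiset.mem_toFinset.1 hα))
  have htop := top_coeff hc (natDegree_qp c) (natDegree_lp d c) hg
  have hlast : (qp c).coeff (σ + 1) = c (Sum.inl (Fin.last (σ + 1))) := by
    rw [coeff_qp, dif_pos (by omega)]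
    rfl
  have hQ : qp c = 0 := by
    unfold nz at h
    split_ifs at h with h1
    · have h2 : c (Sum.inl (Fin.last (σ + 1))) = 0 := by
        rw [coeff_lp_eq, hlast] at htop
        have h3 : ((d : ℂ) - g.natDegree) * c (Sum.inl (Fin.last (σ + 1))) = 0 := by
          rw [sub_mul, htop, sub_self]
        rcases mul_eq_zero.1 h3 with h4 | h4
        · rw [sub_eq_zero, Nat.cast_inj] at h4
          omega
        · exact h4
      have h4 : (qp c).natDegree ≤ σ := by
        rw [natDegree_le_iff_coeff_eq_zero]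
        intro n hn
        rcases Nat.lt_or_ge n (σ + 2) with h5 | h5
        · have h6 : n = σ + 1 := by omega
          rw [h6, hlast, h2]
        · rw [coeff_qp, dif_neg (by omega)]
      exact eq_zero_of_natDegree_lt_card_of_eval_eq_zero' (qp c) g.roots.toFinset hroot (by omega)
    · exact eq_zero_of_natDegree_lt_card_of_eval_eq_zero' (qp c) g.roots.toFinset hroot (by have := natDegree_qp c; omega)
  have hL : lp d c = 0 := by
    rw [hQ, zero_mul] at hc
    exact (mul_eq_zero.1 hc.symm).resolve_right hg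
  funext i
  rcases i with i | i
  · exact qp_eq_zero hQ i
  · have h1 := coeff_lp_lt d c i
    rw [hL, coeff_zero] at h1
    exact h1.symm

/-- Few zeros. -/
theorem psi_ker {d : ℕ} {g : ℂ[X]} (hg : g ≠ 0) (hd : g.natDegree ≤ d) (h : nz d g ≤ σ + 1) : ∃ c : Ix σ → ℂ, c ≠ 0 ∧ psi d g c = 0 := by
  classical
  set R : ℂ[X] := ∏ α ∈ g.roots.toFinset, (X - C α) with hR
  have hRm : R.Monic := monic_prod_of_monic _ _ fun α _ => monic_X_sub_C α
  have hRdeg : R.natDegree = g.roots.toFinset.card := by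
    rw [hR, natDegree_prod_of_monic _ _ fun α _ => monic_X_sub_C α]
    simp
  have hRroots : ∀ α ∈ g.roots.toFinset, (X - C α) ∣ R := fun α hα => Finset.dvd_prod_of_mem _ hα
  have hdvd : g ∣ R * derivative g := by
    by_cases hg' : derivative g = 0
    · rw [hg', mul_zero]
      exact dvd_zero g
    have h1 : g = C g.leadingCoeff * (g.roots.map fun a => X - C a).prod := (IsAlgClosed.splits g).eq_prod_roots
    have h2 : (g.roots.map fun a => X - C a).prod ∣ R * derivative g := by
      rw [Multiset.prod_X_sub_C_dvd_iff_le_roots (mul_ne_zero hRm.ne_zero hg'), Multiset.le_iff_count]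
      intro α
      rw [count_roots, count_roots]
      by_cases hα : α ∈ g.roots
      · have hα' : g.IsRoot α := (mem_roots hg).1 hα
        have h3 : (X - C α) * (X - C α) ^ (g.rootMultiplicity α - 1) ∣ R * derivative g := by
          refine mul_dvd_mul (hRroots α (Multiset.mem_toFinset.2 hα)) ?_
          rw [← derivative_rootMultiplicity_of_root hα']
          exact pow_rootMultiplicity_dvd _ _
        rw [← pow_succ'] at h3
        have h4 := (le_rootMultiplicity_iff (mul_ne_zero hRm.ne_zero hg')).2 h3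
        have h5 : 0 < g.rootMultiplicity α := (rootMultiplicity_pos hg).2 hα'
        omega
      · have h3 : g.rootMultiplicity α = 0 := by
          by_contra h4
          exact hα ((mem_roots hg).2 ((rootMultiplicity_pos hg).1 (Nat.pos_of_ne_zero h4)))
        rw [h3]
        exact Nat.zero_le _
    rw [h1]
    refine (IsUnit.mul_left_dvd ?_).2 ?_
    · exact isUnit_C.2 (leadingCoeff_ne_zero.2 hg).isUnit
    · rw [← h1]
      exact h2
  obtain ⟨L, hL⟩ := hdvd
  have hL' : R * derivative g = L * g := by rw [hL, mul_comm]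
  have hRle : R.natDegree ≤ σ + 1 := by
    unfold nz at h
    rw [hRdeg]
    omega
  have hLle : L.natDegree ≤ σ := by
    by_cases h0 : L = 0
    · rw [h0, natDegree_zero]
      exact Nat.zero_le _
    · have hg' : derivative g ≠ 0 := by
        intro h1
        rw [h1, mul_zero] at hL'
        exact (mul_ne_zero h0 hg) hL'.symm
      have h1 : R.natDegree + (derivative g).natDegree = L.natDegree + g.natDegree := by
        rw [← natDegree_mul hRm.ne_zero hg', hL', natDegree_mul h0 hg]
      have h2 : (derivative g).natDegree < g.natDegree := natDegree_derivative_lt fun h3 => hg' (by rw [eq_C_of_natDegree_eq_zero h3, derivative_C])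
      omega
  have htop := top_coeff hL' hRle hLle hg
  have hcoef : L.coeff σ = (d : ℂ) * R.coeff (σ + 1) := by
    rw [htop]
    rcases hd.lt_or_eq with h1 | h1
    · have h2 : R.coeff (σ + 1) = 0 := by
        refine coeff_eq_zero_of_natDegree_lt ?_
        unfold nz at h
        rw [if_pos h1] at h
        rw [hRdeg]
        omega
      rw [h2, mul_zero, mul_zero]
    · rw [h1]
  set c : Ix σ → ℂ := Sum.elim (fun i => R.coeff i) fun i => L.coeff i with hc
  have hq : qp c = R := by
    ext n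
    rw [coeff_qp]
    split_ifs with h1
    · rfl
    · exact (coeff_eq_zero_of_natDegree_lt (by omega)).symm
  have hl : lp d c = L := by
    ext n
    rcases lt_trichotomy n σ with h1 | h1 | h1
    · exact coeff_lp_lt d c ⟨n, h1⟩
    · subst h1
      rw [coeff_lp_eq, hcoef]
      rfl
    · rw [coeff_eq_zero_of_natDegree_lt ((natDegree_lp d c).trans_lt h1), coeff_eq_zero_of_natDegree_lt (hLle.trans_lt h1)]
  refine ⟨c, fun h0 => ?_, ?_⟩
  · have h1 : qp c = 0 := by
      rw [h0]
      unfold qp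
      simp
    rw [hq] at h1
    exact hRm.ne_zero h1
  · rw [psi_apply, hq, hl, hL', sub_self]

end Pool.Agent.COP

end
end
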