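import Pool.Agent.H94.PX4.M12
import Pool.Agent.H94.PX4.M49
import Pool.Agent.H94.PX4.M50
import Pool.Agent.H94.PX4.M51
import Pool.Agent.H94.PX4.M52

/-! The parts of this file: H7.Qup.An, H7.Qup.Rel, H7.Qup.Bd_1, LT.Mo. -/

section

/-!
# Qup An: holomorphic maps and dominant regular maps
-/

set_option autoImplicit false

open Topology Filter MvPolynomial

noncomputable section

namespace Pool.Agent.H7.Qup

open Pool.Agent.H17 (PN VanishesAt HolomorphicInto puncturedDisc vanishesAt_mk_iff)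
open Pool.Agent.H62.FC (Homog)
open Pool.Agent.H62.SA (locVar)
open Pool.Agent.H7.Bir (vals rmap mem_of_open vals_smul rmap_mk pn_identity)

variable {N M : ℕ} {P : Ideal (MvPolynomial (Fin (N + 1)) ℂ)} {P' : Ideal (MvPolynomial (Fin (M + 1)) ℂ)} {s s' : ℕ}
  {G : Fin s → MvPolynomial (Fin (N + 1)) ℂ} {G' : Fin s' → MvPolynomial (Fin (M + 1)) ℂ} {p : PN M → PN N}

theorem vals_rep_ne {D : ℕ} {γ : Fin (N + 1) → MvPolynomial (Fin (M + 1)) ℂ} (hγ : ∀ i, (γ i).IsHomogeneous D)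
    {y : Fin (M + 1) → ℂ} (hy : y ≠ 0) : vals γ (Projectivization.mk ℂ y hy).rep ≠ 0 ↔ vals γ y ≠ 0 := by
  obtain ⟨a, ha⟩ := Projectivization.exists_smul_eq_mk_rep ℂ y hy
  have h1 : (Projectivization.mk ℂ y hy).rep = (a : ℂ) • y := ha.symm
  rw [h1, vals_smul hγ, smul_ne_zero_iff]
  exact ⟨fun h => h.2, fun h => ⟨pow_ne_zero _ a.ne_zero, h⟩⟩

theorem Rep.map_mk {D : ℕ} {γ : Fin (N + 1) → MvPolynomial (Fin (M + 1)) ℂ} (h : Rep P' G' p D γ) {y : Fin (M + 1) → ℂ} (hy : y ≠ 0)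
    (hU : Projectivization.mk ℂ y hy ∈ locVar P' G') (hv : vals γ y ≠ 0) :
    p (Projectivization.mk ℂ y hy) = Projectivization.mk ℂ (vals γ y) hv := by
  rw [h.rep _ hU ((vals_rep_ne h.hom hy).2 hv), rmap_mk h.hom hy hv]

theorem analyticAt_vals {φ : ℂ → Fin (M + 1) → ℂ} {z : ℂ} (hφ : AnalyticAt ℂ φ z)
    (γ : Fin (N + 1) → MvPolynomial (Fin (M + 1)) ℂ) : AnalyticAt ℂ (fun w => vals γ (φ w)) z := by
  rw [analyticAt_pi_iff]
  intro i
  have h1 : AnalyticAt ℂ (fun w => MvPolynomial.aeval (φ w) (γ i)) z :=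
    AnalyticAt.aeval_mvPolynomial (fun i => analyticAt_pi_iff.mp hφ i) (γ i)
  exact h1

/-- The composition of a holomorphic map into `U'` with the regular map. -/
theorem holo_comp (hp : IsDominantMap P P' G G' p) {f : ℂ → PN M} {U : Set ℂ} (hUo : IsOpen U) (hf : HolomorphicInto f U)
    (hfU : ∀ z ∈ U, f z ∈ locVar P' G') : HolomorphicInto (fun z => p (f z)) U := by
  intro z hz
  obtain ⟨φ, hφ, he⟩ := hf z hz
  obtain ⟨D, γ, hγ, hv⟩ := hp.exists_rep (hfU z hz)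
  obtain ⟨h1, h2⟩ := he.self_of_nhds
  rw [h2, vals_rep_ne hγ.hom h1] at hv
  have h3 := analyticAt_vals hφ γ
  refine ⟨fun w => vals γ (φ w), h3, ?_⟩
  filter_upwards [he, hUo.mem_nhds hz, h3.continuousAt.eventually_ne hv] with w h4 h5 h6
  obtain ⟨h7, h8⟩ := h4
  refine ⟨h6, ?_⟩
  have h9 := hfU w h5
  rw [h8] at h9 ⊢
  exact hγ.map_mk h7 h9 h6

/-- A continuous function with values in the roots of a polynomial. -/
theorem const_of_root {m : ℕ} {b : Fin (m + 1) → ℂ} (hb : b (Fin.last m) ≠ 0) {ρ : ℂ → ℂ} {z₀ : ℂ} {r : ℝ}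
    (hρ : ContinuousOn ρ (Metric.ball z₀ r)) (h : ∀ z ∈ Metric.ball z₀ r, ∑ l : Fin (m + 1), b l * ρ z ^ (l : ℕ) = 0) :
    ∀ z ∈ Metric.ball z₀ r, ρ z = ρ z₀ := by
  intro z hz
  have hr : 0 < r := Metric.pos_of_mem_ball hz
  set q : Polynomial ℂ := ∑ l : Fin (m + 1), Polynomial.C (b l) * Polynomial.X ^ (l : ℕ) with hq
  have hq0 : q ≠ 0 := by
    intro h0
    have h1 : q.coeff m = b (Fin.last m) := by
      rw [hq, Polynomial.finsetSum_coeff, Finset.sum_eq_single (Fin.last m)]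
      · rw [Polynomial.coeff_C_mul, Polynomial.coeff_X_pow, Fin.val_last, if_pos rfl, mul_one]
      · intro l _ hl
        rw [Polynomial.coeff_C_mul, Polynomial.coeff_X_pow, if_neg, mul_zero]
        intro h2
        exact hl (Fin.ext (by rw [Fin.val_last]; exact h2.symm))
      · exact fun h2 => absurd (Finset.mem_univ _) h2
    rw [h0, Polynomial.coeff_zero] at h1
    exact hb h1.symm
  have hmaps : Set.MapsTo ρ (Metric.ball z₀ r) (q.roots.toFinset : Set ℂ) := by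
    intro w hw
    rw [Finset.mem_coe, Multiset.mem_toFinset, Polynomial.mem_roots hq0, Polynomial.IsRoot.def, hq, Polynomial.eval_finsetSum]
    rw [← h w hw]
    refine Finset.sum_congr rfl fun l _ => ?_
    rw [Polynomial.eval_mul, Polynomial.eval_C, Polynomial.eval_pow, Polynomial.eval_X]
  exact (convex_ball z₀ r).isPreconnected.constant_of_mapsTo (Finset.finite_toSet _).isDiscrete hρ hmaps hz (Metric.mem_ball_self hr)

/-- If `p ∘ f` is constant near a point then so is `f`. -/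
theorem const_near {j : Fin (M + 1)} {m : Fin (M + 1) → ℕ} {α : ∀ i, Fin (m i + 1) → MvPolynomial (Fin (N + 1)) ℂ}
    (hrel : ∀ i (y : Fin (M + 1) → ℂ) (hy : y ≠ 0) (x : Fin (N + 1) → ℂ) (hx : x ≠ 0), Projectivization.mk ℂ y hy ∈ locVar P' G' →
        p (Projectivization.mk ℂ y hy) = Projectivization.mk ℂ x hx →
        ∑ l : Fin (m i + 1), eval x (α i l) * y i ^ (l : ℕ) * y j ^ (m i - (l : ℕ)) = 0)
    {f : ℂ → PN M} {z₀ : ℂ} {φ : ℂ → Fin (M + 1) → ℂ} (hφ : AnalyticAt ℂ φ z₀)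
    (he : ∀ᶠ z in 𝓝 z₀, ∃ h : φ z ≠ 0, f z = Projectivization.mk ℂ (φ z) h) (hfU : ∀ᶠ z in 𝓝 z₀, f z ∈ locVar P' G')
    (hj : φ z₀ j ≠ 0) {x : Fin (N + 1) → ℂ} (hx : x ≠ 0) (hα : ∀ i, eval x (α i (Fin.last (m i))) ≠ 0)
    (hpf : ∀ᶠ z in 𝓝 z₀, p (f z) = Projectivization.mk ℂ x hx) : ∀ᶠ z in 𝓝 z₀, f z = f z₀ := by
  have hcj : ContinuousAt (fun z => φ z j) z₀ := (continuous_apply j).continuousAt.comp hφ.continuousAt
  obtain ⟨r, hr, hball⟩ := Metric.eventually_nhds_iff_ball.1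
    ((((he.and hfU).and hpf).and (hcj.eventually_ne hj)).and hφ.eventually_analyticAt)
  have hz₀ : z₀ ∈ Metric.ball z₀ r := Metric.mem_ball_self hr
  have hconst : ∀ i, ∀ z ∈ Metric.ball z₀ r, φ z i / φ z j = φ z₀ i / φ z₀ j := by
    intro i
    refine const_of_root (b := fun l => eval x (α i l)) (hα i) (ρ := fun z => φ z i / φ z j) (fun z hz => ?_) fun z hz => ?_
    · have h1 := (hball z hz).2.continuousAt
      exact (((continuous_apply i).continuousAt.comp h1).div ((continuous_apply j).continuousAt.comp h1) (hball z hz).1.2).continuousWithinAt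
    · obtain ⟨⟨⟨⟨h1, h2⟩, h3⟩, h4⟩, -⟩ := hball z hz
      obtain ⟨h5, h6⟩ := h1
      rw [h6] at h2 h3
      have h7 := hrel i (φ z) h5 x hx h2 h3
      have h8 : ∀ l : Fin (m i + 1), eval x (α i l) * φ z i ^ (l : ℕ) * φ z j ^ (m i - (l : ℕ)) =
          φ z j ^ m i * (eval x (α i l) * (φ z i / φ z j) ^ (l : ℕ)) := by
        intro l
        have h9 : (l : ℕ) ≤ m i := Nat.lt_succ_iff.1 l.2
        have h10 : φ z j ^ m i = φ z j ^ (l : ℕ) * φ z j ^ (m i - (l : ℕ)) := by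
          rw [← pow_add, Nat.add_sub_cancel' h9]
        rw [h10, div_pow]
        field_simp
      rw [Finset.sum_congr rfl fun l _ => h8 l, ← Finset.mul_sum, mul_eq_zero] at h7
      exact h7.resolve_left (pow_ne_zero _ h4)
  filter_upwards [Metric.ball_mem_nhds z₀ hr] with z hz
  obtain ⟨⟨⟨⟨⟨h5, h6⟩, h2⟩, h3⟩, h4⟩, -⟩ := hball z hz
  obtain ⟨⟨⟨⟨⟨h5', h6'⟩, h2'⟩, h3'⟩, h4'⟩, -⟩ := hball z₀ hz₀
  rw [h6, h6', Projectivization.mk_eq_mk_iff']
  refine ⟨φ z j / φ z₀ j, ?_⟩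
  funext i
  have h7 := hconst i z hz
  change φ z j / φ z₀ j * φ z₀ i = φ z i
  rw [div_eq_div_iff h4 h4'] at h7
  field_simp
  linear_combination -h7

/-- The bound of a root. -/
theorem root_bound {m : ℕ} {b : Fin (m + 1) → ℂ} {C : ℝ} (hb : ∀ l, ‖b l‖ ≤ C) {ρ : ℂ}
    (h : ∑ l : Fin (m + 1), b l * ρ ^ (l : ℕ) = 0) : ‖b (Fin.last m) * ρ‖ ≤ C * (m + 1) := by
  have hC : 0 ≤ C := (norm_nonneg _).trans (hb 0)
  have hm : (0 : ℝ) ≤ m := Nat.cast_nonneg m
  rcases le_or_gt ‖ρ‖ 1 with h1 | h1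
  · rw [norm_mul]
    calc ‖b (Fin.last m)‖ * ‖ρ‖ ≤ C * 1 := mul_le_mul (hb _) h1 (norm_nonneg _) hC
      _ ≤ C * (m + 1) := mul_le_mul_of_nonneg_left (by linarith) hC
  · have hρ : 0 < ‖ρ‖ := zero_lt_one.trans h1
    rcases Nat.eq_zero_or_pos m with rfl | hmp
    · rw [Fin.sum_univ_one, Fin.val_zero, pow_zero, mul_one] at h
      have h2 : b (Fin.last 0) = 0 := h
      rw [h2, zero_mul, norm_zero]
      exact mul_nonneg hC (by linarith)
    · rw [Fin.sum_univ_castSucc, Fin.val_last, add_comm] at h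
      have h2 : b (Fin.last m) * ρ ^ m = -∑ l : Fin m, b l.castSucc * ρ ^ ((l.castSucc : Fin (m + 1)) : ℕ) := eq_neg_of_add_eq_zero_left h
      have h3 : ‖b (Fin.last m) * ρ ^ m‖ ≤ (C * m) * ‖ρ‖ ^ (m - 1) := by
        rw [h2, norm_neg]
        refine (norm_sum_le _ _).trans ?_
        have h4 : ∀ l : Fin m, ‖b l.castSucc * ρ ^ ((l.castSucc : Fin (m + 1)) : ℕ)‖ ≤ C * ‖ρ‖ ^ (m - 1) := by
          intro l
          rw [norm_mul, norm_pow]
          refine mul_le_mul (hb _) (pow_le_pow_right₀ h1.le ?_) (pow_nonneg hρ.le _) hC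
          have := l.2
          rw [Fin.val_castSucc]
          omega
        refine (Finset.sum_le_sum fun l _ => h4 l).trans ?_
        rw [Finset.sum_const, Finset.card_univ, Fintype.card_fin, nsmul_eq_mul]
        nlinarith
      have h5 : ‖b (Fin.last m) * ρ ^ m‖ = ‖b (Fin.last m) * ρ‖ * ‖ρ‖ ^ (m - 1) := by
        rw [norm_mul, norm_mul, norm_pow, mul_assoc, ← pow_succ', Nat.sub_add_cancel hmp]
      rw [h5] at h3
      have h6 := le_of_mul_le_mul_right h3 (pow_pos hρ _)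
      refine h6.trans ?_
      nlinarith

/-- **Extension over the puncture.** -/
theorem extend_of_alg {j : Fin (M + 1)} {m : Fin (M + 1) → ℕ} {α : ∀ i, Fin (m i + 1) → MvPolynomial (Fin (N + 1)) ℂ}
    (hrel : ∀ i (y : Fin (M + 1) → ℂ) (hy : y ≠ 0) (x : Fin (N + 1) → ℂ) (hx : x ≠ 0), Projectivization.mk ℂ y hy ∈ locVar P' G' →
        p (Projectivization.mk ℂ y hy) = Projectivization.mk ℂ x hx →
        ∑ l : Fin (m i + 1), eval x (α i l) * y i ^ (l : ℕ) * y j ^ (m i - (l : ℕ)) = 0)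
    {f : ℂ → PN M} (hf : HolomorphicInto f puncturedDisc) (hfU : ∀ z ∈ puncturedDisc, f z ∈ locVar P' G')
    {ψ : ℂ → Fin (N + 1) → ℂ} (hψ : AnalyticAt ℂ ψ 0)
    (hpf : ∀ᶠ z in 𝓝 (0 : ℂ), z ≠ 0 → ∃ h : ψ z ≠ 0, p (f z) = Projectivization.mk ℂ (ψ z) h)
    (hα : ∀ i, ¬ ∀ᶠ z in 𝓝 (0 : ℂ), eval (ψ z) (α i (Fin.last (m i))) = 0) :
    ∃ g : ℂ → PN M, HolomorphicInto g (Metric.ball 0 1) ∧ ∀ z ∈ puncturedDisc, g z = f z := by
  classical
  have han : ∀ Q : MvPolynomial (Fin (N + 1)) ℂ, AnalyticAt ℂ (fun z => eval (ψ z) Q) 0 := by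
    intro Q
    have h1 : AnalyticAt ℂ (fun w => MvPolynomial.aeval (ψ w) Q) 0 :=
      AnalyticAt.aeval_mvPolynomial (fun i => analyticAt_pi_iff.mp hψ i) Q
    exact h1
  set a : Fin (M + 1) → ℂ → ℂ := fun i z => eval (ψ z) (α i (Fin.last (m i))) with ha
  have hane : ∀ i, ∀ᶠ z in 𝓝[≠] (0 : ℂ), a i z ≠ 0 := by
    intro i
    exact (han _).eventually_eq_zero_or_eventually_ne_zero.resolve_left (hα i)
  -- bounds of the coefficients
  have hbd : ∀ i, ∃ C : ℝ, ∀ᶠ z in 𝓝 (0 : ℂ), ∀ l, ‖eval (ψ z) (α i l)‖ ≤ C := by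
    intro i
    have h1 : ∀ l, ∃ C : ℝ, ∀ᶠ z in 𝓝 (0 : ℂ), ‖eval (ψ z) (α i l)‖ ≤ C := fun l =>
      ⟨‖eval (ψ 0) (α i l)‖ + 1, ((han (α i l)).continuousAt.norm.eventually_lt continuousAt_const (lt_add_one _)).mono fun z hz => hz.le⟩
    choose C hC using h1
    refine ⟨∑ l, |C l|, ?_⟩
    filter_upwards [eventually_all.2 hC] with z hz l
    exact ((hz l).trans (le_abs_self _)).trans (Finset.single_le_sum (f := fun l => |C l|) (fun l _ => abs_nonneg _) (Finset.mem_univ l))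
  choose C hC using hbd
  have hev : ∀ᶠ z in 𝓝[≠] (0 : ℂ), z ∈ puncturedDisc ∧ (∃ h : ψ z ≠ 0, p (f z) = Projectivization.mk ℂ (ψ z) h) ∧
      (∀ i l, ‖eval (ψ z) (α i l)‖ ≤ C i) ∧ ∀ i, a i z ≠ 0 := by
    have h1 : ∀ᶠ z in 𝓝[≠] (0 : ℂ), z ∈ puncturedDisc := by
      have h4 : Metric.ball (0 : ℂ) 1 \ {0} ∈ 𝓝[≠] (0 : ℂ) := sdiff_mem_nhdsWithin_compl (Metric.ball_mem_nhds _ one_pos) _
      exact h4
    have h2 : ∀ᶠ z in 𝓝[≠] (0 : ℂ), ∃ h : ψ z ≠ 0, p (f z) = Projectivization.mk ℂ (ψ z) h :=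
      eventually_nhdsWithin_iff.2 (hpf.mono fun z hz h => hz h)
    filter_upwards [h1, h2, (eventually_all.2 hC).filter_mono nhdsWithin_le_nhds, eventually_all.2 hane] with z h3 h4 h5 h6
    exact ⟨h3, h4, h5, h6⟩
  obtain ⟨r, hr, hball⟩ : ∃ r > 0, ∀ z ∈ Metric.ball (0 : ℂ) r \ {0}, z ∈ puncturedDisc ∧
      (∃ h : ψ z ≠ 0, p (f z) = Projectivization.mk ℂ (ψ z) h) ∧ (∀ i l, ‖eval (ψ z) (α i l)‖ ≤ C i) ∧ ∀ i, a i z ≠ 0 := by
    obtain ⟨r, hr, h1⟩ := Metric.eventually_nhds_iff_ball.1 (eventually_nhdsWithin_iff.1 hev)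
    exact ⟨r, hr, fun z hz => h1 z hz.1 hz.2⟩
  -- the coordinate `j` does not vanish
  have hj : ∀ z ∈ Metric.ball (0 : ℂ) r \ {0}, (f z).rep j ≠ 0 := by
    intro z hz h0
    obtain ⟨h1, ⟨h2, h3⟩, -, h5⟩ := hball z hz
    apply (f z).rep_nonzero
    funext i
    have h6 := hrel i (f z).rep (f z).rep_nonzero (ψ z) h2 (by rw [(f z).mk_rep]; exact hfU z h1) (by rw [(f z).mk_rep]; exact h3)
    rw [Fin.sum_univ_castSucc] at h6
    have h7 : ∀ l : Fin (m i), eval (ψ z) (α i l.castSucc) * (f z).rep i ^ ((l.castSucc : Fin (m i + 1)) : ℕ) *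
        (f z).rep j ^ (m i - ((l.castSucc : Fin (m i + 1)) : ℕ)) = 0 := by
      intro l
      have h8 : m i - ((l.castSucc : Fin (m i + 1)) : ℕ) ≠ 0 := by
        have := l.2
        rw [Fin.val_castSucc]
        omega
      rw [h0, zero_pow h8, mul_zero]
    rw [Finset.sum_eq_zero fun l _ => h7 l, zero_add, Fin.val_last, Nat.sub_self, pow_zero, mul_one, mul_eq_zero] at h6
    exact eq_zero_of_pow_eq_zero (h6.resolve_left (h5 i))
  -- the normalized lift
  set S : ℂ → Fin (M + 1) → ℂ := fun w => ((f w).rep j)⁻¹ • (f w).rep with hS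
  have hSmk : ∀ (w : ℂ) (x : Fin (M + 1) → ℂ) (hx : x ≠ 0), f w = Projectivization.mk ℂ x hx → S w = (x j)⁻¹ • x := by
    intro w x hx h
    obtain ⟨a, ha⟩ := Projectivization.exists_smul_eq_mk_rep ℂ x hx
    have h1 : (f w).rep = (a : ℂ) • x := by rw [h]; exact ha.symm
    rw [hS]
    simp only [h1, Pi.smul_apply, smul_eq_mul]
    rw [smul_smul, mul_inv, mul_comm (a : ℂ)⁻¹, mul_assoc, inv_mul_cancel₀ a.ne_zero, mul_one]
  set A : ℂ → ℂ := fun z => ∏ i, a i z with hA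
  have hAan : AnalyticAt ℂ A 0 := by
    have h1 : AnalyticAt ℂ (fun z => ∏ i, a i z) 0 := Finset.analyticAt_fun_prod _ fun i _ => han _
    exact h1
  -- the function is bounded and holomorphic
  obtain ⟨r', hr', hr'r, haball⟩ : ∃ r' > 0, r' ≤ r ∧ ∀ z ∈ Metric.ball (0 : ℂ) r', AnalyticAt ℂ A z := by
    obtain ⟨ρ, hρ, h1⟩ := Metric.eventually_nhds_iff_ball.1 hAan.eventually_analyticAt
    exact ⟨min ρ r, lt_min hρ hr, min_le_right _ _, fun z hz => h1 z (Metric.ball_subset_ball (min_le_left _ _) hz)⟩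
  have hsub : ∀ z ∈ Metric.ball (0 : ℂ) r' \ {0}, z ∈ Metric.ball (0 : ℂ) r \ {0} := fun z hz =>
    ⟨Metric.ball_subset_ball hr'r hz.1, hz.2⟩
  have hd : DifferentiableOn ℂ (fun z => A z • S z) (Metric.ball (0 : ℂ) r' \ {0}) := by
    intro w hw
    obtain ⟨φ, h4, h5⟩ := hf w (hball w (hsub w hw)).1
    have h6 : φ w j ≠ 0 := by
      obtain ⟨h7, h8⟩ := h5.self_of_nhds
      obtain ⟨a, ha⟩ := Projectivization.exists_smul_eq_mk_rep ℂ (φ w) h7
      have h9 : (f w).rep = (a : ℂ) • φ w := by rw [h8]; exact ha.symm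
      have h10 := hj w (hsub w hw)
      rw [h9] at h10
      exact right_ne_zero_of_mul h10
    have h7 : AnalyticAt ℂ (fun z => (φ z j)⁻¹ • φ z) w := by
      have h8 : AnalyticAt ℂ (fun z => φ z j) w := analyticAt_pi_iff.1 h4 j
      exact (h8.inv h6).smul h4
    have h8 : AnalyticAt ℂ (fun z => A z • ((φ z j)⁻¹ • φ z)) w := (haball w hw.1).smul h7
    refine DifferentiableAt.differentiableWithinAt (h8.differentiableAt.congr_of_eventuallyEq ?_)
    filter_upwards [h5] with z hz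
    obtain ⟨h8, h9⟩ := hz
    rw [hSmk z _ h8 h9]
  have hratio : ∀ z ∈ Metric.ball (0 : ℂ) r \ {0}, ∀ i, ‖a i z * S z i‖ ≤ C i * (m i + 1) := by
    intro z hz i
    obtain ⟨h1, ⟨h2, h3⟩, h4, h5⟩ := hball z hz
    have h6 := hrel i (f z).rep (f z).rep_nonzero (ψ z) h2 (by rw [(f z).mk_rep]; exact hfU z h1) (by rw [(f z).mk_rep]; exact h3)
    have hjz := hj z hz
    have h8 : ∀ l : Fin (m i + 1), eval (ψ z) (α i l) * (f z).rep i ^ (l : ℕ) * (f z).rep j ^ (m i - (l : ℕ)) =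
        (f z).rep j ^ m i * (eval (ψ z) (α i l) * (S z i) ^ (l : ℕ)) := by
      intro l
      have h9 : (l : ℕ) ≤ m i := Nat.lt_succ_iff.1 l.2
      have h10 : (f z).rep j ^ m i = (f z).rep j ^ (l : ℕ) * (f z).rep j ^ (m i - (l : ℕ)) := by
        rw [← pow_add, Nat.add_sub_cancel' h9]
      have h11 : S z i = (f z).rep i / (f z).rep j := by
        change ((f z).rep j)⁻¹ * (f z).rep i = _
        rw [div_eq_inv_mul]
      rw [h10, h11, div_pow]
      field_simp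
    rw [Finset.sum_congr rfl fun l _ => h8 l, ← Finset.mul_sum, mul_eq_zero] at h6
    exact root_bound (h4 i) (h6.resolve_left (pow_ne_zero _ hjz))
  have hb : BddAbove (norm ∘ (fun z => A z • S z) '' (Metric.ball (0 : ℂ) r' \ {0})) := by
    refine ⟨∑ i, (C i * (m i + 1)) * ∏ i' ∈ Finset.univ.erase i, C i', ?_⟩
    rintro _ ⟨w, hw, rfl⟩
    have hw' := hsub w hw
    obtain ⟨-, -, h4, -⟩ := hball w hw'
    have hC0 : ∀ i, 0 ≤ C i := fun i => (norm_nonneg _).trans (h4 i 0)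
    have hterm : ∀ i, 0 ≤ (C i * (m i + 1)) * ∏ i' ∈ Finset.univ.erase i, C i' := fun i =>
      mul_nonneg (mul_nonneg (hC0 i) (by positivity)) (Finset.prod_nonneg fun i' _ => hC0 i')
    change ‖A w • S w‖ ≤ _
    rw [pi_norm_le_iff_of_nonneg (Finset.sum_nonneg fun i _ => hterm i)]
    intro i
    refine le_trans ?_ (Finset.single_le_sum (f := fun i => (C i * (m i + 1)) * ∏ i' ∈ Finset.univ.erase i, C i')
      (fun i _ => hterm i) (Finset.mem_univ i))
    change ‖A w * S w i‖ ≤ _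
    have h5 : A w * S w i = (a i w * S w i) * ∏ i' ∈ Finset.univ.erase i, a i' w := by
      rw [hA]
      simp only
      rw [← Finset.mul_prod_erase Finset.univ (fun i => a i w) (Finset.mem_univ i)]
      ring
    rw [h5, norm_mul, norm_prod]
    refine mul_le_mul (hratio w hw' i) (Finset.prod_le_prod (fun i' _ => norm_nonneg _) fun i' _ => h4 i' _)
      (Finset.prod_nonneg fun i' _ => norm_nonneg _) (mul_nonneg (hC0 i) (by positivity))
  have hu := Complex.differentiableOn_update_limUnder_of_bddAbove (Metric.ball_mem_nhds (0 : ℂ) hr') hd hb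
  set S' : ℂ → Fin (M + 1) → ℂ := Function.update (fun z => A z • S z) 0 (limUnder (𝓝[≠] 0) fun z => A z • S z) with hS'
  have hS'a : AnalyticAt ℂ S' 0 := hu.analyticAt (Metric.ball_mem_nhds (0 : ℂ) hr')
  have hS'eq : ∀ w, w ≠ 0 → S' w = A w • S w := fun w hw => Function.update_of_ne hw _ _
  have hAne : ∀ z ∈ Metric.ball (0 : ℂ) r \ {0}, A z ≠ 0 := fun z hz => Finset.prod_ne_zero_iff.2 fun i _ => (hball z hz).2.2.2 i
  have hSj : ∀ z ∈ Metric.ball (0 : ℂ) r \ {0}, S z j = 1 := fun z hz => inv_mul_cancel₀ (hj z hz)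
  have hS'ne : ∀ z ∈ Metric.ball (0 : ℂ) r \ {0}, S' z ≠ 0 := by
    intro z hz h0
    have h1 := congrFun h0 j
    rw [hS'eq z hz.2] at h1
    change A z * S z j = 0 at h1
    rw [hSj z hz, mul_one] at h1
    exact hAne z hz h1
  have hnz : ¬ ∀ᶠ z in 𝓝 (0 : ℂ), S' z = 0 := by
    intro h0
    have h1 : ∀ᶠ z in 𝓝[≠] (0 : ℂ), z ∈ Metric.ball (0 : ℂ) r \ {0} :=
      sdiff_mem_nhdsWithin_compl (Metric.ball_mem_nhds _ hr) _
    obtain ⟨z, h2, h3⟩ := ((h0.filter_mono nhdsWithin_le_nhds).and h1).exists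
    exact hS'ne z h3 h2
  obtain ⟨n, Φ, hΦ, hΦ0, hΦe⟩ := (hS'a.exists_eventuallyEq_pow_smul_nonzero_iff).2 hnz
  refine Pool.Agent.H62.Qe.extend_of_pow hf le_rfl hΦ.continuousAt hΦ0 ?_
  filter_upwards [hΦe, Metric.ball_mem_nhds (0 : ℂ) hr] with z h1 h2 h3
  have h4 : z ∈ Metric.ball (0 : ℂ) r \ {0} := ⟨h2, h3⟩
  have h5 := hS'ne z h4
  have h6 : Φ z ≠ 0 := by
    intro h7
    rw [h7, smul_zero] at h1
    exact h5 h1
  refine ⟨h6, ?_⟩
  rw [pow_one, ← (f z).mk_rep, Projectivization.mk_eq_mk_iff']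
  rw [hS'eq z h3, sub_zero] at h1
  have h7 : A z ≠ 0 := hAne z h4
  have h8 : (f z).rep j ≠ 0 := hj z h4
  refine ⟨(f z).rep j * (A z)⁻¹ * z ^ n, ?_⟩
  rw [mul_smul, ← h1, smul_smul, mul_assoc, inv_mul_cancel₀ h7, mul_one]
  change (f z).rep j • (((f z).rep j)⁻¹ • (f z).rep) = _
  rw [smul_smul, mul_inv_cancel₀ h8, one_smul]

end Pool.Agent.H7.Qup

end
end

section

/-!
# Qup Rel: the equations of the coordinates of a point over its image
-/

set_option autoImplicit false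

open MvPolynomial

noncomputable section

namespace Pool.Agent.H7.Qup

open Pool.Agent.H17 (PN VanishesAt vanishesAt_mk_iff)
open Pool.Agent.H17GT (coordFun functionField)
open Pool.Agent.H17LG.Variety (FunField ratio)
open Pool.Agent.H62.FC (Homog)
open Pool.Agent.H62.SA (locVar OnBd)
open Pool.Agent.H17R (gen gen_eq_zero_iff ratio_self coordFun_ne_zero_iff)
open Pool.Agent.H7.Bir (aeval_comp aeval_div funIso exists_quot vals rmap mem_of_open)
open Pool.Agent.H19OL (alg_of_trdeg adjoin_self)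

variable {N M : ℕ}

/-- The equation of the ratio `X i / X j` over the function field of the image. -/
theorem exists_eq_aux {P : Ideal (MvPolynomial (Fin (N + 1)) ℂ)} [P.IsPrime] {P' : Ideal (MvPolynomial (Fin (M + 1)) ℂ)}
    [P'.IsPrime] {k : ℕ} {z : Fin k → FunField P} (hz : IsTranscendenceBasis ℂ z) {z' : Fin k → FunField P'}
    (hz' : IsTranscendenceBasis ℂ z') {D : ℕ} {γ : Fin (N + 1) → MvPolynomial (Fin (M + 1)) ℂ} (hγ : ∀ i, (γ i).IsHomogeneous D)
    (hmaps : ∀ n Q, Q.IsHomogeneous n → (aeval γ Q ∈ P' ↔ Q ∈ P)) {i₀ : Fin (N + 1)} (hi₀ : X i₀ ∉ P)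
    {j : Fin (M + 1)} (hj : X j ∉ P') (i : Fin (M + 1)) :
    ∃ (m D₁ : ℕ) (α : Fin (m + 1) → MvPolynomial (Fin (N + 1)) ℂ), (∀ l, (α l).IsHomogeneous D₁) ∧ α (Fin.last m) ∉ P ∧
      ∑ l : Fin (m + 1), aeval γ (α l) * X i ^ (l : ℕ) * X j ^ (m - (l : ℕ)) ∈ P' := by
  have hcj : coordFun P' j ≠ 0 := coordFun_ne_zero_iff.2 hj
  set η : Fin (M + 1) → FunField P' := fun i => ratio P' i j with hη
  have hη1 : η j = 1 := ratio_self hcj
  have hγ₀ : γ i₀ ∉ P' := by
    intro h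
    apply hi₀
    rw [← hmaps 1 _ (isHomogeneous_X ℂ i₀), aeval_X]
    exact h
  have hc : aeval η (γ i₀) ≠ 0 := fun h0 => hγ₀ ((gen_eq_zero_iff hcj (hγ i₀)).1 h0)
  set x : Fin (N + 1) → FunField P' := fun i => aeval η (γ i) / aeval η (γ i₀) with hx
  have hx1 : x i₀ = 1 := div_self hc
  have hcomp : ∀ (n : ℕ) (R : MvPolynomial (Fin (N + 1)) ℂ), R.IsHomogeneous n →
      aeval η (aeval γ R) = aeval η (γ i₀) ^ n * aeval x R := by
    intro n R hR
    rw [aeval_comp, aeval_div hR hc]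
  have hker : ∀ (n : ℕ) (G : MvPolynomial (Fin (N + 1)) ℂ), G.IsHomogeneous n → (aeval x G = 0 ↔ G ∈ P) := by
    intro n G hG
    rw [← hmaps n G hG, ← gen_eq_zero_iff hcj (hG.aeval γ hγ)]
    change _ ↔ aeval η (aeval γ G) = 0
    rw [hcomp n G hG, mul_eq_zero]
    exact ⟨Or.inr, fun h => h.resolve_left (pow_ne_zero _ hc)⟩
  -- the subfield generated by the coordinates of the image
  set F : IntermediateField ℂ (FunField P') := IntermediateField.adjoin ℂ (Set.range x) with hF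
  set x' : Fin (N + 1) → F := fun i => ⟨x i, IntermediateField.subset_adjoin ℂ _ ⟨i, rfl⟩⟩ with hx'
  have hadj : IntermediateField.adjoin ℂ (Set.range x') = ⊤ := adjoin_self x
  have hval : ∀ G : MvPolynomial (Fin (N + 1)) ℂ, ((aeval x' G : F) : FunField P') = aeval x G := by
    intro G
    have h1 := DFunLike.congr_fun (MvPolynomial.comp_aeval x' F.val) G
    exact h1
  have hx'1 : x' i₀ = 1 := Subtype.ext hx1
  obtain ⟨e⟩ := funIso (coordFun_ne_zero_iff.2 hi₀) hx'1 hadj fun n G hG => by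
    rw [← hker n G hG, ← hval G]
    exact Subtype.ext_iff
  have halg : Algebra.IsAlgebraic F (FunField P') := alg_of_trdeg (e.isTranscendenceBasis hz) hz'
  -- the equation
  set s : FunField P' := η i with hs
  have hint : IsIntegral F s := (halg.isAlgebraic s).isIntegral
  set p := minpoly F s with hp
  set m := p.natDegree with hm
  obtain ⟨D₁, α, hα, hα0, hα1⟩ := exists_quot hx'1 hadj (fun i : Fin (m + 1) => p.coeff (i : ℕ)) (j' := Fin.last m) (by
    have h1 := minpoly.monic hint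
    exact h1)
  have hα0' : aeval x (α (Fin.last m)) ≠ 0 := by
    rw [← hval]
    exact fun h => hα0 (Subtype.ext h)
  have hrel : ∑ i : Fin (m + 1), aeval x (α i) * s ^ (i : ℕ) = 0 := by
    have h1 := minpoly.aeval F s
    rw [Polynomial.aeval_eq_sum_range, ← Fin.sum_univ_eq_sum_range (fun i => p.coeff i • s ^ i)] at h1
    have h2 : ∀ i : Fin (m + 1), aeval x (α i) * s ^ (i : ℕ) = aeval x (α (Fin.last m)) * (p.coeff (i : ℕ) • s ^ (i : ℕ)) := by
      intro i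
      have h3 := congrArg (fun t : F => (t : FunField P')) (hα1 i)
      simp only [MulMemClass.coe_mul, hval] at h3
      rw [← h3, Algebra.smul_def]
      change _ = _ * (((p.coeff (i : ℕ) : F) : FunField P') * _)
      ring
    have h4 : ∑ i : Fin (m + 1), aeval x (α (Fin.last m)) * (p.coeff (i : ℕ) • s ^ (i : ℕ)) =
        aeval x (α (Fin.last m)) * ∑ i : Fin (m + 1), p.coeff (i : ℕ) • s ^ (i : ℕ) := (Finset.mul_sum _ _ _).symm
    rw [Finset.sum_congr rfl fun i _ => h2 i, h4, h1, mul_zero]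
  refine ⟨m, D₁, α, hα, fun h => hα0' ((hker D₁ _ (hα _)).2 h), ?_⟩
  -- the form
  set G : MvPolynomial (Fin (M + 1)) ℂ := ∑ l : Fin (m + 1), aeval γ (α l) * X i ^ (l : ℕ) * X j ^ (m - (l : ℕ)) with hG
  have hGhom : G.IsHomogeneous (D * D₁ + m) := by
    refine IsHomogeneous.sum _ _ _ fun l _ => ?_
    have h1 := ((((hα l).aeval γ hγ).mul ((isHomogeneous_X ℂ i).pow (l : ℕ))).mul ((isHomogeneous_X ℂ j).pow (m - l)))
    have h2 : D * D₁ + 1 * (l : ℕ) + 1 * (m - l) = D * D₁ + m := by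
      have h3 : (l : ℕ) ≤ m := Nat.lt_succ_iff.1 l.2
      omega
    rw [h2] at h1
    exact h1
  rw [← gen_eq_zero_iff hcj hGhom]
  change aeval η G = 0
  rw [hG, map_sum]
  have h1 : ∀ l : Fin (m + 1), aeval η (aeval γ (α l) * X i ^ (l : ℕ) * X j ^ (m - (l : ℕ))) =
      aeval η (γ i₀) ^ D₁ * (aeval x (α l) * s ^ (l : ℕ)) := by
    intro l
    rw [map_mul, map_mul, map_pow, map_pow, aeval_X, aeval_X, hη1, one_pow, mul_one, hcomp D₁ _ (hα l)]
    ring
  have h2 : ∑ l : Fin (m + 1), aeval η (γ i₀) ^ D₁ * (aeval x (α l) * s ^ (l : ℕ)) =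
      aeval η (γ i₀) ^ D₁ * ∑ l : Fin (m + 1), aeval x (α l) * s ^ (l : ℕ) := (Finset.mul_sum _ _ _).symm
  rw [Finset.sum_congr rfl fun l _ => h1 l, h2, hrel, mul_zero]

variable {P : Ideal (MvPolynomial (Fin (N + 1)) ℂ)} {P' : Ideal (MvPolynomial (Fin (M + 1)) ℂ)} {s s' : ℕ}
  {G : Fin s → MvPolynomial (Fin (N + 1)) ℂ} {G' : Fin s' → MvPolynomial (Fin (M + 1)) ℂ} {p : PN M → PN N}

/-- **The equation of the coordinate `i`**: it holds at all points of `U'`. -/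
theorem exists_eq [P.IsPrime] [P'.IsPrime] (hp : IsDominantMap P P' G G' p) (hP' : Homog P')
    (hG' : ∀ m, ∃ n, (G' m).IsHomogeneous n) (hne : (locVar P' G').Nonempty) {k : ℕ} {z : Fin k → FunField P}
    (hz : IsTranscendenceBasis ℂ z) {z' : Fin k → FunField P'} (hz' : IsTranscendenceBasis ℂ z') {j : Fin (M + 1)} (hj : X j ∉ P')
    (i : Fin (M + 1)) :
    ∃ (m D₁ : ℕ) (α : Fin (m + 1) → MvPolynomial (Fin (N + 1)) ℂ), (∀ l, (α l).IsHomogeneous D₁) ∧ α (Fin.last m) ∉ P ∧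
      ∀ (y : Fin (M + 1) → ℂ) (hy : y ≠ 0) (x : Fin (N + 1) → ℂ) (hx : x ≠ 0), Projectivization.mk ℂ y hy ∈ locVar P' G' →
        p (Projectivization.mk ℂ y hy) = Projectivization.mk ℂ x hx →
        ∑ l : Fin (m + 1), eval x (α l) * y i ^ (l : ℕ) * y j ^ (m - (l : ℕ)) = 0 := by
  obtain ⟨y₀, hy₀⟩ := hne
  have hne : (locVar P' G').Nonempty := ⟨y₀, hy₀⟩
  obtain ⟨i₁, hi₁⟩ := exists_coord (hp.maps y₀ hy₀)
  obtain ⟨D, γ, hγ, hv⟩ := hp.exists_rep hy₀
  have hmaps := hp.maps_iff hP' hG' hγ ⟨y₀, hy₀, hv⟩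
  obtain ⟨m, D₁, α, hα, hαP, hrel⟩ := exists_eq_aux hz hz' hγ.hom hmaps hi₁ hj i
  refine ⟨m, D₁, α, hα, hαP, fun y hy x hx hyU hyx => ?_⟩
  obtain ⟨D', γ', hγ', hv'⟩ := hp.exists_rep hyU
  obtain ⟨k₀, hk₀⟩ : ∃ k, eval y₀.rep (γ k) ≠ 0 := by
    by_contra hcon
    push Not at hcon
    exact hv (funext hcon)
  have hkP : γ k₀ ∉ P' := fun h1 => hk₀ (hy₀.1 _ h1 D (hγ.hom k₀))
  -- the same equation with the forms `γ'`
  have hGhom : (∑ l : Fin (m + 1), aeval γ' (α l) * X i ^ (l : ℕ) * X j ^ (m - (l : ℕ)) : MvPolynomial (Fin (M + 1)) ℂ).IsHomogeneous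
      (D' * D₁ + m) := by
    refine IsHomogeneous.sum _ _ _ fun l _ => ?_
    have h1 := ((((hα l).aeval γ' hγ'.hom).mul ((isHomogeneous_X ℂ i).pow (l : ℕ))).mul ((isHomogeneous_X ℂ j).pow (m - l)))
    have h2 : D' * D₁ + 1 * (l : ℕ) + 1 * (m - l) = D' * D₁ + m := by
      have h3 : (l : ℕ) ≤ m := Nat.lt_succ_iff.1 l.2
      omega
    rw [h2] at h1
    exact h1
  have hmem : γ k₀ ^ D₁ * (∑ l : Fin (m + 1), aeval γ' (α l) * X i ^ (l : ℕ) * X j ^ (m - (l : ℕ))) ∈ P' := by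
    refine mem_of_open hP' hG' hne (((hγ.hom k₀).pow D₁).mul hGhom) fun w hw => ?_
    unfold VanishesAt
    rw [map_mul, map_pow, map_sum, Finset.mul_sum]
    have h4 : eval w.rep (γ k₀) • vals γ' w.rep = eval w.rep (γ' k₀) • vals γ w.rep := by
      funext i
      have h5 := hγ.prop hγ' hw k₀ i
      change eval w.rep (γ k₀) * eval w.rep (γ' i) = eval w.rep (γ' k₀) * eval w.rep (γ i)
      rw [h5, mul_comm]
    have h5 : ∀ l : Fin (m + 1), eval w.rep (γ k₀) ^ D₁ * eval w.rep (aeval γ' (α l) * X i ^ (l : ℕ) * X j ^ (m - (l : ℕ))) =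
        eval w.rep (γ' k₀) ^ D₁ * eval w.rep (aeval γ (α l) * X i ^ (l : ℕ) * X j ^ (m - (l : ℕ))) := by
      intro l
      have h6 : eval w.rep (γ k₀) ^ D₁ * eval w.rep (aeval γ' (α l)) = eval w.rep (γ' k₀) ^ D₁ * eval w.rep (aeval γ (α l)) := by
        rw [Pool.Agent.H7.Bir.eval_comp, Pool.Agent.H7.Bir.eval_comp, ← eval_smul (hα l), ← eval_smul (hα l), h4]
      rw [map_mul, map_mul, map_mul, map_mul]
      linear_combination (eval w.rep (X i ^ (l : ℕ)) * eval w.rep (X j ^ (m - (l : ℕ)))) * h6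
    rw [Finset.sum_congr rfl fun l _ => h5 l, ← Finset.mul_sum, ← map_sum]
    have h6 : eval w.rep (∑ l : Fin (m + 1), aeval γ (α l) * X i ^ (l : ℕ) * X j ^ (m - (l : ℕ))) = 0 := by
      have hGhom' : (∑ l : Fin (m + 1), aeval γ (α l) * X i ^ (l : ℕ) * X j ^ (m - (l : ℕ)) : MvPolynomial (Fin (M + 1)) ℂ).IsHomogeneous
          (D * D₁ + m) := by
        refine IsHomogeneous.sum _ _ _ fun l _ => ?_
        have h1 := ((((hα l).aeval γ hγ.hom).mul ((isHomogeneous_X ℂ i).pow (l : ℕ))).mul ((isHomogeneous_X ℂ j).pow (m - l)))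
        have h2 : D * D₁ + 1 * (l : ℕ) + 1 * (m - l) = D * D₁ + m := by
          have h3 : (l : ℕ) ≤ m := Nat.lt_succ_iff.1 l.2
          omega
        rw [h2] at h1
        exact h1
      exact hw.1 _ hrel _ hGhom'
    rw [h6, mul_zero]
  have hmem' := (Ideal.IsPrime.mem_or_mem inferInstance hmem).resolve_left fun h1 => hkP (Ideal.IsPrime.mem_of_pow_mem inferInstance D₁ h1)
  have h1 : VanishesAt _ (Projectivization.mk ℂ y hy) := hyU.1 _ hmem' _ hGhom
  rw [vanishesAt_mk_iff hGhom, map_sum] at h1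
  -- the coordinates of the image
  obtain ⟨a, ha⟩ := Projectivization.exists_smul_eq_mk_rep ℂ y hy
  have h2 : (Projectivization.mk ℂ y hy).rep = (a : ℂ) • y := ha.symm
  have hvy : vals γ' y ≠ 0 := by
    intro h0
    apply hv'
    rw [h2, Pool.Agent.H7.Bir.vals_smul hγ'.hom, h0, smul_zero]
  have h3 := hγ'.rep _ hyU hv'
  rw [hyx, Pool.Agent.H7.Bir.rmap_mk hγ'.hom hy hvy, Projectivization.mk_eq_mk_iff'] at h3
  obtain ⟨b, hb⟩ := h3
  have h4 : ∀ l : Fin (m + 1), eval x (α l) * y i ^ (l : ℕ) * y j ^ (m - (l : ℕ)) =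
      b ^ D₁ * eval y (aeval γ' (α l) * X i ^ (l : ℕ) * X j ^ (m - (l : ℕ))) := by
    intro l
    rw [map_mul, map_mul, map_pow, map_pow, eval_X, eval_X, Pool.Agent.H7.Bir.eval_comp, ← hb, eval_smul (hα l)]
    ring
  rw [Finset.sum_congr rfl fun l _ => h4 l, ← Finset.mul_sum, h1, mul_zero]

end Pool.Agent.H7.Qup

end
end

section

/-!
# Qup Bd: the boundary and dominant regular maps

`exists_compat`: a dominant regular map `p : U' → U` gives an embedding `e` of the function field of `U` in the function field of `U'`.  `onBd_over`: if the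
prime divisor `E` over `U'` lies over the prime divisor `D` over `U` and `D` is centred on the boundary of `U`, then `E` is centred on the boundary of `U'`.
`logGT_up`: if `U` is of log general type, and `U'` has the same dimension, then `U'` is of log general type.
-/

set_option autoImplicit false

open MvPolynomial

noncomputable section

namespace Pool.Agent.H7.Qup

open Pool.Agent.H17 (PN VanishesAt vanishesAt_mk_iff)
open Pool.Agent.H17GT (coordFun)
open Pool.Agent.H17LG.Variety (FunField ratio IsLogGeneralType)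
open Pool.Agent.H23.Fano (PrimeDivisorOver)
open Pool.Agent.H62.FC (Homog)
open Pool.Agent.H62.SA (locVar OnBd)
open Pool.Agent.H17R (gen gen_eq_zero_iff ratio_self coordFun_ne_zero_iff gen_change exists_center ord_gen_nonneg ratio_ne_zero_iff)
open Pool.Agent.H7.Bir (vals rmap mem_of_open)

variable {N M : ℕ} {P : Ideal (MvPolynomial (Fin (N + 1)) ℂ)} {P' : Ideal (MvPolynomial (Fin (M + 1)) ℂ)} {s s' : ℕ}
  {G : Fin s → MvPolynomial (Fin (N + 1)) ℂ} {G' : Fin s' → MvPolynomial (Fin (M + 1)) ℂ} {p : PN M → PN N}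

theorem exists_compat [P.IsPrime] [P'.IsPrime] (hp : IsDominantMap P P' G G' p) (hP' : Homog P')
    (hG' : ∀ m, ∃ n, (G' m).IsHomogeneous n) (hne : (locVar P' G').Nonempty) :
    ∃ e : FunField P →ₐ[ℂ] FunField P', Compat P P' G' p e := by
  obtain ⟨y₀, hy₀⟩ := hne
  have hne : (locVar P' G').Nonempty := ⟨y₀, hy₀⟩
  obtain ⟨j₁, hj₁⟩ := exists_coord hy₀
  obtain ⟨i₁, hi₁⟩ := exists_coord (hp.maps y₀ hy₀)
  obtain ⟨D₁, γ₁, hγ₁, hv₁⟩ := hp.exists_rep hy₀
  have hcj : coordFun P' j₁ ≠ 0 := coordFun_ne_zero_iff.2 hj₁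
  have hci : coordFun P i₁ ≠ 0 := coordFun_ne_zero_iff.2 hi₁
  have hmaps := hp.maps_iff hP' hG' hγ₁ ⟨y₀, hy₀, hv₁⟩
  have hγi : ∀ i, X i ∉ P → γ₁ i ∉ P' := by
    intro i hi h
    apply hi
    rw [← hmaps 1 _ (isHomogeneous_X ℂ i), aeval_X]
    exact h
  have hc : gen P' j₁ (γ₁ i₁) ≠ 0 := fun h0 => hγi i₁ hi₁ ((gen_eq_zero_iff hcj (hγ₁.hom i₁)).1 h0)
  set x : Fin (N + 1) → FunField P' := fun i => gen P' j₁ (γ₁ i) / gen P' j₁ (γ₁ i₁) with hx
  have hx1 : x i₁ = 1 := div_self hc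
  have hker : ∀ (n : ℕ) (R : MvPolynomial (Fin (N + 1)) ℂ), R.IsHomogeneous n → (aeval x R = 0 ↔ R ∈ P) := by
    intro n R hR
    rw [← hmaps n R hR, ← gen_eq_zero_iff hcj (aeval_homog hγ₁.hom hR)]
    have h1 : gen P' j₁ (aeval γ₁ R) = gen P' j₁ (γ₁ i₁) ^ n * aeval x R := by
      unfold gen
      rw [Pool.Agent.H7.Bir.aeval_comp]
      exact Pool.Agent.H7.Bir.aeval_div hR hc _
    rw [h1, mul_eq_zero]
    exact ⟨Or.inr, fun h => h.resolve_left (pow_ne_zero _ hc)⟩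
  obtain ⟨e, he⟩ := exists_hom_val hci hx1 hker
  refine ⟨e, ?_⟩
  intro D γ hγ hγne j' hj' i₀ hi₀ i
  have hcj' : coordFun P' j' ≠ 0 := coordFun_ne_zero_iff.2 hj'
  have hci' : coordFun P i₀ ≠ 0 := coordFun_ne_zero_iff.2 hi₀
  -- change of the tuple
  have hrel : ∀ k l, gen P' j' (γ₁ k) * gen P' j' (γ l) = gen P' j' (γ₁ l) * gen P' j' (γ k) := by
    intro k l
    have h1 : γ₁ k * γ l - γ₁ l * γ k ∈ P' := by
      have hhom : (γ₁ k * γ l - γ₁ l * γ k).IsHomogeneous (D₁ + D) := ((hγ₁.hom k).mul (hγ.hom l)).sub ((hγ₁.hom l).mul (hγ.hom k))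
      refine mem_of_open hP' hG' hne hhom fun y hy => ?_
      unfold VanishesAt
      rw [map_sub, map_mul, map_mul, hγ₁.prop hγ hy k l, sub_self]
    have hhom : (γ₁ k * γ l - γ₁ l * γ k).IsHomogeneous (D₁ + D) := ((hγ₁.hom k).mul (hγ.hom l)).sub ((hγ₁.hom l).mul (hγ.hom k))
    have h2 := (gen_eq_zero_iff hcj' hhom).2 h1
    unfold gen at h2 ⊢
    rw [map_sub, map_mul, map_mul] at h2
    exact sub_eq_zero.1 h2
  -- change of the coordinate
  have hch : ∀ k, gen P' j₁ (γ₁ k) = ratio P' j' j₁ ^ D₁ * gen P' j' (γ₁ k) := fun k => gen_change hcj' (hγ₁.hom k)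
  have hr0 : ratio P' j' j₁ ≠ 0 := (ratio_ne_zero_iff hcj).2 hcj'
  have hg0 : gen P' j' (γ₁ i₀) ≠ 0 := fun h0 => hγi i₀ hi₀ ((gen_eq_zero_iff hcj' (hγ₁.hom i₀)).1 h0)
  have h3 : e (ratio P i i₁) = e (ratio P i₀ i₁) * e (ratio P i i₀) := by
    rw [← map_mul, ← ratio_change' hci']
  have h4 : gen P' j₁ (γ₁ i) = gen P' j₁ (γ₁ i₀) * e (ratio P i i₀) := by
    rw [he, he] at h3
    change gen P' j₁ (γ₁ i) / gen P' j₁ (γ₁ i₁) = gen P' j₁ (γ₁ i₀) / gen P' j₁ (γ₁ i₁) * e (ratio P i i₀) at h3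
    rw [div_mul_eq_mul_div, div_left_inj' hc] at h3
    exact h3
  have h5 : gen P' j' (γ₁ i) = gen P' j' (γ₁ i₀) * e (ratio P i i₀) := by
    rw [hch, hch, mul_assoc] at h4
    exact mul_left_cancel₀ (pow_ne_zero _ hr0) h4
  have h6 := hrel i i₀
  rw [h5, mul_assoc] at h6
  exact mul_left_cancel₀ hg0 h6

/-- **Log general type goes up along dominant regular maps.** -/
theorem logGT_up [P.IsPrime] [P'.IsPrime] (hp : IsDominantMap P P' G G' p) (hP' : Homog P')
    (hG : ∀ m, ∃ n, (G m).IsHomogeneous n) (hG' : ∀ m, ∃ n, (G' m).IsHomogeneous n) (hne : (locVar P' G').Nonempty) {k : ℕ}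
    (hz : ∃ z : Fin k → FunField P, IsTranscendenceBasis ℂ z) (hz' : ∃ z : Fin k → FunField P', IsTranscendenceBasis ℂ z)
    (h : IsLogGeneralType (OnBd P G (k := k))) : IsLogGeneralType (OnBd P' G' (k := k)) := by
  obtain ⟨e, he⟩ := exists_compat hp hP' hG' hne
  let _ : Algebra (FunField P) (FunField P') := e.toRingHom.toAlgebra
  have _ : IsScalarTower ℂ (FunField P) (FunField P') := IsScalarTower.of_algebraMap_eq fun c => (e.commutes c).symm
  have _ : Algebra.IsAlgebraic (FunField P) (FunField P') := by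
    obtain ⟨z, hz⟩ := hz
    obtain ⟨z', hz'⟩ := hz'
    have h1 := trdeg_add_eq ℂ (FunField P) (A := FunField P')
    rw [← hz.cardinalMk_eq_trdeg, ← hz'.cardinalMk_eq_trdeg] at h1
    rw [← trdeg_eq_zero_iff]
    have h2 : Cardinal.mk (Fin k) < Cardinal.aleph0 := Cardinal.mk_lt_aleph0
    have h3 : Cardinal.mk (Fin k) + Algebra.trdeg (FunField P) (FunField P') = Cardinal.mk (Fin k) + 0 := by rw [h1, add_zero]
    exact Cardinal.eq_of_add_eq_add_left h3 h2
  exact isLGT_of_algebraic hz (fun D E r hDE hD => onBd_over hp hP' hG hG' he hDE.1 hDE.2 hne hD) h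

end Pool.Agent.H7.Qup

end
end

section

/-!
# LT Mo: change of the coordinates of `ℙ¹`

`many` gives `(a₀, y₀)` and the zeros `p i`.  `form θ y₀` is not identically `0` (otherwise take `x` with `V a₀ x` (`VMapm`), a zero `p ≠ 0` of `bf x` (`m ≥ 1`): against `off`).  `LG.exists_M`: `M`, `M'` with `form θ y₀ (M e₀) ≠ 0`, `form θ y₀ (M e₁) ≠ 0`.
* `θ' i`: the coefficients of `form θ y (M p)` as a form in `p`: linear combinations of the `θ i` with constant coefficients: `IsThetaForm Λ θ'` (the same weights), and `IsType Λ θ' m g ↔ IsType Λ θ m g` (if some `θ' i y ≠ 0`, both say `g (y + l) = e^m g y` with the common factor `e` of `IsThetaForm.quasiPeriodic`; if all `θ' i y = 0`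
  then all `θ i y = 0`).
* `SM x`: the coefficients of `bf x (M p)`; `SM` is linear and invertible (inverse `SM'`); `V' a x' = V a (SM' x')`: `VMapm` with the forms `SM γ`.
* the zeros: `M' (p i)`; its second coordinate is not `0` because `form θ y₀ (M e₀) ≠ 0`; `t i = (M' (p i)) 0 / (M' (p i)) 1`.
-/

set_option autoImplicit false

open Topology Filter MvPolynomial
open Pool.Agent.PXF (Cn form IsThetaForm)
open Pool.Agent.LG (Cone GP RegAt BdG IsType Lft RegL NZ IsVal Fam wr)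

noncomputable section

namespace Pool.Agent.LT

/-- binary forms of degree `n` -/
private def MoBF (n : ℕ) (F : ℂ → ℂ → ℂ) : Prop :=
  ∃ c : ℕ → ℂ, ∀ p₀ p₁, F p₀ p₁ = ∑ i ∈ Finset.range (n + 1), c i * p₀ ^ i * p₁ ^ (n - i)

private theorem mo_mul {n n' : ℕ} {F F' : ℂ → ℂ → ℂ} (h : MoBF n F) (h' : MoBF n' F') :
    MoBF (n + n') (fun p₀ p₁ => F p₀ p₁ * F' p₀ p₁) := by
  obtain ⟨Φ, hF⟩ := h
  obtain ⟨Ψ, hF'⟩ := h'
  refine ⟨fun s => ∑ p ∈ Finset.range (n + 1) ×ˢ Finset.range (n' + 1), (if p.1 + p.2 = s then Φ p.1 * Ψ p.2 else 0), ?_⟩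
  intro p₀ p₁
  beta_reduce
  rw [hF, hF', Finset.sum_mul_sum, ← Finset.sum_product']
  have h1 : ∀ s ∈ Finset.range (n + n' + 1), (∑ p ∈ Finset.range (n + 1) ×ˢ Finset.range (n' + 1), (if p.1 + p.2 = s then Φ p.1 * Ψ p.2 else 0)) * p₀ ^ s * p₁ ^ (n + n' - s) =
      ∑ p ∈ Finset.range (n + 1) ×ˢ Finset.range (n' + 1), (if p.1 + p.2 = s then Φ p.1 * p₀ ^ p.1 * p₁ ^ (n - p.1) * (Ψ p.2 * p₀ ^ p.2 * p₁ ^ (n' - p.2)) else 0) := by
    intro s _
    rw [Finset.sum_mul, Finset.sum_mul]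
    refine Finset.sum_congr rfl fun p hp => ?_
    rw [Finset.mem_product, Finset.mem_range, Finset.mem_range] at hp
    by_cases hps : p.1 + p.2 = s
    · rw [if_pos hps, if_pos hps, ← hps]
      have h2 : n + n' - (p.1 + p.2) = (n - p.1) + (n' - p.2) := by omega
      rw [h2, pow_add, pow_add]
      ring
    · rw [if_neg hps, if_neg hps, zero_mul, zero_mul]
  rw [Finset.sum_congr rfl h1, Finset.sum_comm]
  refine Finset.sum_congr rfl fun p hp => ?_
  rw [Finset.mem_product, Finset.mem_range, Finset.mem_range] at hp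
  rw [Finset.sum_ite_eq, if_pos (Finset.mem_range.2 (by omega))]

private theorem mo_lin (a b : ℂ) : MoBF 1 (fun p₀ p₁ => a * p₀ + b * p₁) := by
  refine ⟨fun i => if i = 0 then b else a, fun p₀ p₁ => ?_⟩
  simp [Finset.sum_range_succ, add_comm]

private theorem mo_pow (a b : ℂ) (k : ℕ) : MoBF k (fun p₀ p₁ => (a * p₀ + b * p₁) ^ k) := by
  induction k with
  | zero =>
    refine ⟨fun _ => 1, fun p₀ p₁ => ?_⟩
    simp
  | succ k ih =>
    have h1 := mo_mul ih (mo_lin a b)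
    simp only [pow_succ]
    exact h1

/-- the linear substitution `M` on binary forms -/
private theorem mo_T (n : ℕ) (M : Matrix (Fin 2) (Fin 2) ℂ) : ∃ c : Fin (n + 1) → Fin (n + 1) → ℂ,
    ∀ (x : Cn (n + 1)) (p : Cn 2), bf (fun j => ∑ l, x l * c l j) p = bf x (M.mulVec p) := by
  have h1 : ∀ l : Fin (n + 1), MoBF n (fun p₀ p₁ => (M 0 0 * p₀ + M 0 1 * p₁) ^ (l : ℕ) * (M 1 0 * p₀ + M 1 1 * p₁) ^ (n - (l : ℕ))) := by
    intro l
    have h2 := mo_mul (mo_pow (M 0 0) (M 0 1) l) (mo_pow (M 1 0) (M 1 1) (n - l))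
    have h3 : (l : ℕ) + (n - l) = n := by
      have := l.isLt
      omega
    rw [h3] at h2
    exact h2
  choose c hc using h1
  refine ⟨fun l j => c l j, fun x p => ?_⟩
  unfold bf
  have h4 : ∀ l : Fin (n + 1), x l * (M.mulVec p) 0 ^ (l : ℕ) * (M.mulVec p) 1 ^ (n - (l : ℕ)) = ∑ j : Fin (n + 1), x l * (c l j * p 0 ^ (j : ℕ) * p 1 ^ (n - (j : ℕ))) := by
    intro l
    have h5 := hc l (p 0) (p 1)
    rw [Finset.sum_range] at h5
    rw [← Finset.mul_sum, ← h5, mul_assoc]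
    simp only [Matrix.mulVec, dotProduct, Fin.sum_univ_two]
  rw [Finset.sum_congr rfl fun l _ => h4 l, Finset.sum_comm]
  refine Finset.sum_congr rfl fun j _ => ?_
  rw [Finset.sum_mul, Finset.sum_mul]
  exact Finset.sum_congr rfl fun l _ => by ring

/-- a binary form is determined by its values -/
private theorem mo_inj {n : ℕ} {x x' : Cn (n + 1)} (h : ∀ p, bf x p = bf x' p) : x = x' := by
  have h1 : (∑ i : Fin (n + 1), Polynomial.C (x i) * Polynomial.X ^ (i : ℕ) : Polynomial ℂ) = ∑ i : Fin (n + 1), Polynomial.C (x' i) * Polynomial.X ^ (i : ℕ) := by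
    refine Polynomial.funext fun s => ?_
    have h2 := h ![s, 1]
    unfold bf at h2
    simp only [Matrix.cons_val_zero, Matrix.cons_val_one, one_pow, mul_one] at h2
    rw [Polynomial.eval_finsetSum, Polynomial.eval_finsetSum]
    simp only [Polynomial.eval_mul, Polynomial.eval_C, Polynomial.eval_pow, Polynomial.eval_X]
    exact h2
  funext i
  have h3 : ∀ z : Cn (n + 1), (∑ i : Fin (n + 1), Polynomial.C (z i) * Polynomial.X ^ (i : ℕ) : Polynomial ℂ).coeff i = z i := by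
    intro z
    rw [Polynomial.finsetSum_coeff, Finset.sum_eq_single i]
    · rw [Polynomial.coeff_C_mul_X_pow, if_pos rfl]
    · intro j _ hj
      rw [Polynomial.coeff_C_mul_X_pow, if_neg]
      intro hh
      exact hj (Fin.ext hh.symm)
    · intro hh
      exact absurd (Finset.mem_univ i) hh
  rw [← h3 x, h1, h3 x']

/-- a binary form has a zero -/
private theorem mo_zero {n : ℕ} (hn : 1 ≤ n) (x : Cn (n + 1)) : ∃ p : Cn 2, p ≠ 0 ∧ bf x p = 0 := by
  by_cases hx : x (Fin.last n) = 0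
  · refine ⟨![1, 0], fun h => one_ne_zero (congrFun h 0), ?_⟩
    unfold bf
    refine Finset.sum_eq_zero fun i _ => ?_
    by_cases hi : i = Fin.last n
    · rw [hi, hx, zero_mul, zero_mul]
    · have h1 : n - (i : ℕ) ≠ 0 := by
        have h2 := i.isLt
        have h3 : (i : ℕ) ≠ n := fun h => hi (Fin.ext h)
        omega
      simp [h1]
  · obtain ⟨f, hf⟩ : ∃ f : Polynomial ℂ, f = ∑ i : Fin (n + 1), Polynomial.C (x i) * Polynomial.X ^ (i : ℕ) := ⟨_, rfl⟩
    have hco : f.coeff n = x (Fin.last n) := by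
      rw [hf, Polynomial.finsetSum_coeff, Finset.sum_eq_single (Fin.last n)]
      · rw [Polynomial.coeff_C_mul_X_pow, if_pos (Fin.val_last n).symm]
      · intro j _ hj
        rw [Polynomial.coeff_C_mul_X_pow, if_neg]
        intro hh
        exact hj (Fin.ext hh.symm)
      · intro hh
        exact absurd (Finset.mem_univ _) hh
    have hdeg : f.degree ≠ 0 := by
      intro h
      have h1 := Polynomial.le_degree_of_ne_zero (p := f) (n := n) (by rw [hco]; exact hx)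
      rw [h] at h1
      have h2 : (n : WithBot ℕ) ≤ ((0 : ℕ) : WithBot ℕ) := h1
      have h3 : n ≤ 0 := by exact_mod_cast h2
      omega
    obtain ⟨s, hs⟩ := IsAlgClosed.exists_root f hdeg
    refine ⟨![s, 1], fun h => one_ne_zero (congrFun h 1), ?_⟩
    rw [Polynomial.IsRoot.def, hf, Polynomial.eval_finsetSum] at hs
    simp only [Polynomial.eval_mul, Polynomial.eval_C, Polynomial.eval_pow, Polynomial.eval_X] at hs
    unfold bf
    simp only [Matrix.cons_val_zero, Matrix.cons_val_one, one_pow, mul_one]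
    exact hs

variable {K : Type} [Field K] [Algebra ℂ K] {N κ d m s : ℕ} {ξ : Fin (N + 1) → K} {Q : Ideal (MvPolynomial (Fin (N + 1)) ℂ)} {Λ : AddSubgroup (Cn (κ + 1))} {θ : Fin (d + 1) → Cn (κ + 1) → ℂ}
  {L : (Fin (N + 1) → ℂ) → Cn (κ + 1) → Prop} {V : (Fin (N + 1) → ℂ) → Cn (m + 1) → Prop} {G : Fin s → MvPolynomial (Fin (N + 1)) ℂ}

private theorem mo_form (θ : Fin (d + 1) → Cn (κ + 1) → ℂ) (y : Cn (κ + 1)) (p : Cn 2) : form θ y p = bf (fun i => θ i y) p := rfl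

/-- the change of coordinates, for a given pair of inverse matrices -/
private theorem mo_change (hθ : IsThetaForm Λ θ) (h : GeoT Q ξ Λ θ L V G) (M M' : Matrix (Fin 2) (Fin 2) ℂ) (h1 : M * M' = 1) (h2 : M' * M = 1) :
    ∃ (θ' : Fin (d + 1) → Cn (κ + 1) → ℂ) (V' : (Fin (N + 1) → ℂ) → Cn (m + 1) → Prop), IsThetaForm Λ θ' ∧ GeoT Q ξ Λ θ' L V' G ∧ ∀ y p, form θ' y p = form θ y (M.mulVec p) := by
  have hMM' : ∀ p : Cn 2, M.mulVec (M'.mulVec p) = p := fun p => by rw [Matrix.mulVec_mulVec, h1, Matrix.one_mulVec]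
  have hM'M : ∀ p : Cn 2, M'.mulVec (M.mulVec p) = p := fun p => by rw [Matrix.mulVec_mulVec, h2, Matrix.one_mulVec]
  obtain ⟨c, hc⟩ := mo_T d M
  obtain ⟨c', hc'⟩ := mo_T d M'
  obtain ⟨b, hb⟩ := mo_T m M
  obtain ⟨b', hb'⟩ := mo_T m M'
  obtain ⟨θ', hθ'⟩ : ∃ θ' : Fin (d + 1) → Cn (κ + 1) → ℂ, θ' = fun j y => ∑ l, θ l y * c l j := ⟨_, rfl⟩
  obtain ⟨S, hS⟩ : ∃ S : Cn (m + 1) → Cn (m + 1), S = fun x j => ∑ l, x l * b l j := ⟨_, rfl⟩
  obtain ⟨S', hS'⟩ : ∃ S' : Cn (m + 1) → Cn (m + 1), S' = fun x j => ∑ l, x l * b' l j := ⟨_, rfl⟩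
  have hSb : ∀ x p, bf (S x) p = bf x (M.mulVec p) := fun x p => by rw [hS]; exact hb x p
  have hS'b : ∀ x p, bf (S' x) p = bf x (M'.mulVec p) := fun x p => by rw [hS']; exact hb' x p
  have hSS' : ∀ x, S (S' x) = x := fun x => mo_inj fun p => by rw [hSb, hS'b, hM'M]
  have hS'S : ∀ x, S' (S x) = x := fun x => mo_inj fun p => by rw [hS'b, hSb, hMM']
  have hSsmul : ∀ (e : ℂ) x, S (fun i => e * x i) = fun i => e * S x i := by
    intro e x
    rw [hS]
    funext j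
    beta_reduce
    rw [Finset.mul_sum]
    exact Finset.sum_congr rfl fun l _ => by ring
  have hS'smul : ∀ (e : ℂ) x, S' (fun i => e * x i) = fun i => e * S' x i := by
    intro e x
    rw [hS']
    funext j
    beta_reduce
    rw [Finset.mul_sum]
    exact Finset.sum_congr rfl fun l _ => by ring
  have hform : ∀ y p, form θ' y p = form θ y (M.mulVec p) := by
    intro y p
    rw [mo_form, mo_form, hθ']
    exact hc _ p
  have hback : ∀ y i, θ i y = ∑ l, θ' l y * c' l i := by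
    intro y i
    have h3 : (fun i => θ i y) = fun i => ∑ l, θ' l y * c' l i := mo_inj fun p => by
      rw [hc' (fun l => θ' l y) p, ← mo_form, ← mo_form, hform, hMM']
    exact congrFun h3 i
  have hθ'form : IsThetaForm Λ θ' := by
    refine ⟨fun j => ?_, ?_⟩
    · rw [hθ']
      exact Differentiable.fun_sum fun l _ => (hθ.holomorphic l).mul_const _
    · obtain ⟨r, W, hW, hq⟩ := hθ.quasiPeriodic
      refine ⟨r, W, hW, fun l hl y => ?_⟩
      obtain ⟨e, he, hee⟩ := hq l hl y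
      refine ⟨e, he, fun i => ?_⟩
      rw [hθ']
      beta_reduce
      rw [Finset.mul_sum]
      exact Finset.sum_congr rfl fun j _ => by rw [hee]; ring
  have htype : ∀ (r : ℕ) (g : Cn (κ + 1) → ℂ), IsType Λ θ' r g → IsType Λ θ r g := by
    intro r g hg
    refine ⟨hg.1, fun l hl y i => ?_⟩
    obtain ⟨r', W, -, hq⟩ := hθ'form.quasiPeriodic
    obtain ⟨e, -, hee⟩ := hq l hl y
    have h3 : θ i (y + l) = e * θ i y := by
      rw [hback, hback y, Finset.mul_sum]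
      exact Finset.sum_congr rfl fun j _ => by rw [hee]; ring
    by_cases hi : θ i y = 0
    · rcases Nat.eq_zero_or_pos r with rfl | hr
      · have h4 := hg.2 l hl y 0
        rw [pow_zero, pow_zero] at h4 ⊢
        exact h4
      · rw [h3, hi, mul_zero, zero_pow hr.ne', mul_zero, zero_mul]
    · obtain ⟨j, hj⟩ : ∃ j, θ' j y ≠ 0 := by
        by_contra hcon
        push Not at hcon
        apply hi
        rw [hback]
        exact Finset.sum_eq_zero fun l _ => by rw [hcon, zero_mul]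
      have h4 := hg.2 l hl y j
      rw [hee, mul_pow] at h4
      have h5 : g (y + l) = e ^ r * g y := mul_right_cancel₀ (pow_ne_zero r hj) (by rw [h4]; ring)
      rw [h5, h3, mul_pow]
      ring
  refine ⟨θ', fun a x => V a (S' x), hθ'form, ?_, hform⟩
  refine ⟨h.prime, h.homog, h.gp, h.lft, ?_, ?_, h.homG, ?_, ?_, ?_⟩
  · intro r g g' hg hg'
    exact h.reg r g g' (htype r g hg) (htype r g' hg')
  · intro a ha
    obtain ⟨D, γ, hγ, hγa, hV⟩ := h.vmap a ha
    have hev : ∀ a' : Fin (N + 1) → ℂ, (fun j => eval a' (∑ l, γ l * C (b l j))) = S fun i => eval a' (γ i) := by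
      intro a'
      rw [hS]
      funext j
      rw [map_sum]
      exact Finset.sum_congr rfl fun l _ => by rw [map_mul, eval_C]
    have hne : ∀ a' : Fin (N + 1) → ℂ, (∃ i, eval a' (∑ l, γ l * C (b l i)) ≠ 0) ↔ ∃ i, eval a' (γ i) ≠ 0 := by
      intro a'
      rw [← not_iff_not]
      push Not
      constructor
      · intro h3
        have h4 : (fun i => eval a' (γ i)) = S' (fun _ => 0) := by
          rw [← hS'S fun i => eval a' (γ i), ← hev]
          congr 1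
          funext j
          exact h3 j
        have h5 : S' (fun _ => 0) = fun _ => 0 := by
          rw [hS']
          funext j
          simp
        intro i
        exact congrFun (h4.trans h5) i
      · intro h3 i
        rw [map_sum]
        exact Finset.sum_eq_zero fun l _ => by rw [map_mul, h3, zero_mul]
    refine ⟨D, fun j => ∑ l, γ l * C (b l j), fun j => ?_, (hne a).2 hγa, fun a' ha' hne' q => ?_⟩
    · refine IsHomogeneous.sum _ _ _ fun l _ => ?_
      have h3 := (hγ l).mul (isHomogeneous_C (Fin (N + 1)) (b l j))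
      rwa [add_zero] at h3
    · show V a' (S' q) ↔ ∃ c : ℂ, c ≠ 0 ∧ q = fun i => c * eval a' (∑ l, γ l * C (b l i))
      rw [hV a' ha' ((hne a').1 hne') (S' q)]
      refine exists_congr fun e => and_congr_right fun he => ?_
      have h3 : (fun i => e * eval a' (∑ l, γ l * C (b l i))) = S fun i => e * eval a' (γ i) := by
        rw [hSsmul, ← hev]
      rw [h3]
      constructor
      · intro h4
        rw [← h4, hSS']
      · intro h4
        rw [h4, hS'S]
  · intro a y x ha hG hL hV p hp hf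
    have h3 : M.mulVec p ≠ 0 := by
      intro h4
      apply hp
      rw [← hM'M p, h4, Matrix.mulVec_zero]
    have h4 := h.off a y (S' x) ha hG hL hV (M.mulVec p) h3 (by rw [← hform]; exact hf)
    rwa [hS'b, hM'M] at h4
  · intro γ y q hγ hC hL hV
    exact h.fin γ y (S' q) hγ hC hL hV
  · obtain ⟨a, y, ha, hG, hL, p, hp, hpp⟩ := h.many
    refine ⟨a, y, ha, hG, hL, fun i => M'.mulVec (p i), fun i => ⟨?_, ?_⟩, fun i j hij => ?_⟩
    · intro h4
      have h4' : M'.mulVec (p i) = 0 := h4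
      apply (hp i).1
      rw [← hMM' (p i), h4', Matrix.mulVec_zero]
    · rw [hform, hMM']
      exact (hp i).2
    · have h3 : M' 0 0 * M' 1 1 - M' 0 1 * M' 1 0 ≠ 0 := by
        have h4 : M.det * M'.det = 1 := by rw [← Matrix.det_mul, h1, Matrix.det_one]
        rw [← Matrix.det_fin_two]
        exact right_ne_zero_of_mul_eq_one h4
      have h5 : M'.mulVec (p i) 0 * M'.mulVec (p j) 1 - M'.mulVec (p i) 1 * M'.mulVec (p j) 0 =
          (M' 0 0 * M' 1 1 - M' 0 1 * M' 1 0) * (p i 0 * p j 1 - p i 1 * p j 0) := by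
        simp only [Matrix.mulVec, dotProduct, Fin.sum_univ_two]
        ring
      rw [← sub_ne_zero, h5]
      exact mul_ne_zero h3 (sub_ne_zero.2 (hpp i j hij))

theorem exists_change (hm : 1 ≤ m) (hθ : IsThetaForm Λ θ) (h : GeoT Q ξ Λ θ L V G) : ∃ (θ' : Fin (d + 1) → Cn (κ + 1) → ℂ) (V' : (Fin (N + 1) → ℂ) → Cn (m + 1) → Prop), IsThetaForm Λ θ' ∧ GeoT Q ξ Λ θ' L V' G ∧
    ∃ a₀ y₀, Cone Q a₀ ∧ (∃ t, eval a₀ (G t) ≠ 0) ∧ L a₀ y₀ ∧ θ' 0 y₀ ≠ 0 ∧ θ' (Fin.last d) y₀ ≠ 0 ∧ ∃ t : Fin (2 * m + 1) → ℂ, Function.Injective t ∧ ∀ i, form θ' y₀ ![t i, 1] = 0 := by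
  obtain ⟨a₀, y₀, ha, hG, hL, p, hp, hpp⟩ := h.many
  have hne : ∃ x, form θ y₀ x ≠ 0 := by
    by_contra hcon
    push Not at hcon
    obtain ⟨D, γ, hγ, hγa, hV⟩ := h.vmap a₀ ha
    have hV1 : V a₀ fun i => eval a₀ (γ i) := (hV a₀ ha hγa _).2 ⟨1, one_ne_zero, by simp⟩
    obtain ⟨q, hq, hq0⟩ := mo_zero hm fun i => eval a₀ (γ i)
    exact h.off a₀ y₀ _ ha hG hL hV1 q hq (hcon q) hq0
  obtain ⟨M, M', h1, h2, h3, h4, -, -⟩ := LG.exists_M (q₀ := ![1, 0]) (fun h => one_ne_zero (congrFun h 0)) hne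
  obtain ⟨θ', V', hθ', hG', hform⟩ := mo_change hθ h M M' h1 h2
  have hMM' : ∀ p : Cn 2, M.mulVec (M'.mulVec p) = p := fun p => by rw [Matrix.mulVec_mulVec, h1, Matrix.one_mulVec]
  have h5 : form θ' y₀ ![0, 1] = θ' 0 y₀ := by
    unfold form
    rw [Finset.sum_eq_single 0]
    · simp
    · intro i _ hi
      have : (i : ℕ) ≠ 0 := fun h => hi (Fin.ext h)
      simp [this]
    · intro h
      exact absurd (Finset.mem_univ _) h
  have h6 : form θ' y₀ ![1, 0] = θ' (Fin.last d) y₀ := by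
    unfold form
    rw [Finset.sum_eq_single (Fin.last d)]
    · simp
    · intro i _ hi
      have h7 : d - (i : ℕ) ≠ 0 := by
        have h8 := i.isLt
        have h9 : (i : ℕ) ≠ d := fun h => hi (Fin.ext h)
        omega
      simp [h7]
    · intro h
      exact absurd (Finset.mem_univ _) h
  have h7 : θ' (Fin.last d) y₀ ≠ 0 := by rw [← h6, hform]; exact h3
  refine ⟨θ', V', hθ', hG', a₀, y₀, ha, hG, hL, by rw [← h5, hform]; exact h4, h7, ?_⟩
  have hz : ∀ i, form θ' y₀ (M'.mulVec (p i)) = 0 := fun i => by rw [hform, hMM']; exact (hp i).2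
  have hnz : ∀ i, M'.mulVec (p i) ≠ 0 := fun i h8 => (hp i).1 (by rw [← hMM' (p i), h8, Matrix.mulVec_zero])
  have h1ne : ∀ i, M'.mulVec (p i) 1 ≠ 0 := by
    intro i h8
    have h9 : M'.mulVec (p i) = (M'.mulVec (p i) 0) • ![1, 0] := by
      funext j
      fin_cases j
      · simp
      · simpa using h8
    have h10 : M'.mulVec (p i) 0 ≠ 0 := by
      intro h11
      apply hnz i
      rw [h9, h11, zero_smul]
    have h12 := hz i
    rw [h9, LG.form_smul, h6] at h12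
    exact mul_ne_zero (pow_ne_zero d h10) h7 h12
  have hcoord : ∀ i, M'.mulVec (p i) = (M'.mulVec (p i) 1) • ![M'.mulVec (p i) 0 / M'.mulVec (p i) 1, 1] := by
    intro i
    funext j
    fin_cases j
    · show M'.mulVec (p i) 0 = M'.mulVec (p i) 1 * (M'.mulVec (p i) 0 / M'.mulVec (p i) 1)
      rw [mul_div_cancel₀ _ (h1ne i)]
    · simp
  refine ⟨fun i => M'.mulVec (p i) 0 / M'.mulVec (p i) 1, fun i j hij => ?_, fun i => ?_⟩
  · by_contra hne'
    have hij' : M'.mulVec (p i) 0 * M'.mulVec (p j) 1 - M'.mulVec (p i) 1 * M'.mulVec (p j) 0 = 0 := by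
      have h8 : M'.mulVec (p i) 0 / M'.mulVec (p i) 1 = M'.mulVec (p j) 0 / M'.mulVec (p j) 1 := hij
      rw [div_eq_div_iff (h1ne i) (h1ne j)] at h8
      rw [h8]
      ring
    have h9 : M'.mulVec (p i) 0 * M'.mulVec (p j) 1 - M'.mulVec (p i) 1 * M'.mulVec (p j) 0 =
        (M' 0 0 * M' 1 1 - M' 0 1 * M' 1 0) * (p i 0 * p j 1 - p i 1 * p j 0) := by
      simp only [Matrix.mulVec, dotProduct, Fin.sum_univ_two]
      ring
    have h10 : M' 0 0 * M' 1 1 - M' 0 1 * M' 1 0 ≠ 0 := by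
      have h4 : M.det * M'.det = 1 := by rw [← Matrix.det_mul, h1, Matrix.det_one]
      rw [← Matrix.det_fin_two]
      exact right_ne_zero_of_mul_eq_one h4
    rw [h9] at hij'
    exact mul_ne_zero h10 (sub_ne_zero.2 (hpp i j hne')) hij'
  · have h8 := hz i
    rw [hcoord i, LG.form_smul] at h8
    exact (mul_eq_zero.1 h8).resolve_left (pow_ne_zero d (h1ne i))

end Pool.Agent.LT

end
end
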