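import Pool.Agent.H94.PX4.M07
import Pool.Agent.H94.PX4.M18
import Pool.Agent.H94.PX4.M22
import Pool.Agent.H94.PX4.M28
import Pool.Agent.H94.PX4.M32
import Pool.Agent.H94.PX4.M39
import Pool.Agent.H94.PX4.M44
import Pool.Agent.H94.PX4.M46
import Pool.Agent.H94.PX4.M47
import Pool.Agent.H94.PX4.M50

/-! The parts of this file: H36.BP.Nodal, H17EF.Bridge, H17EF.Closed, LG.Zl, PX.F.CDefs, PX.GoodB, PX.S.Tr, PX.F.Comp, PX.F.Poly, PX.F.YBr, PX.F.Clu. -/

section

/-!
# BP Nodal: the nodal theorem for surfaces in `ℙ(V)`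

Transport of the metric theorem and of `picard_cone` along a linear isomorphism `V ≃ EN N`.
-/

set_option autoImplicit false

namespace Pool.Agent.H36.BP

open Filter Topology Metric

open Pool.Agent.H17 (PN HolomorphicInto puncturedDisc)
open Pool.Agent.H17BP (Surface IsChart IsForm NoZeros)

variable {V : Type} [NormedAddCommGroup V] [NormedSpace ℂ V] {N : ℕ}

/-- the point of `ℙ^N` of a point of `ℙ(V)` -/
noncomputable def toPN (L : V ≃L[ℂ] EN N) (p : Projectivization ℂ V) : PN N :=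
  Projectivization.mk ℂ (L p.rep).ofLp (ofLp_ne_zero fun h => p.rep_nonzero (L.map_eq_zero_iff.mp h))

theorem rep_mk {x : V} (hx : x ≠ 0) : ∃ a : ℂ, a ≠ 0 ∧ (Projectivization.mk ℂ x hx).rep = a • x := by
  obtain ⟨a, ha⟩ := Projectivization.exists_smul_eq_mk_rep ℂ x hx
  exact ⟨a, a.ne_zero, by rw [← ha]; rfl⟩

/-! ### transport of the surface -/

theorem isCone_transport (L : V ≃L[ℂ] EN N) {X : Set V} (hX : Surface X) : Pool.Agent.H14.PP.IsCone (L.symm ⁻¹' X : Set (EN N)) := by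
  refine ⟨?_, ?_, ?_⟩
  · show L.symm 0 ∉ X
    rw [map_zero]
    exact hX.zero
  · intro x hx c hc
    show L.symm (c • x) ∈ X
    rw [map_smul]
    exact hX.smul _ hx c hc
  · rw [← closure_subset_iff_isClosed]
    intro y hy
    rw [Set.insert_eq, closure_union, closure_singleton] at hy
    rcases hy with hy | hy
    · exact Or.inl hy
    · by_cases h0 : y = 0
      · exact Or.inl h0
      · right
        have h1 : L.symm y ∈ closure X := by
          have h2 : closure (L.symm ⁻¹' X : Set (EN N)) = L.symm ⁻¹' (closure X) := by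
            exact (L.symm.toHomeomorph.preimage_closure X).symm
          rw [h2] at hy
          exact hy
        exact hX.closed _ h1 fun h => h0 (L.symm.map_eq_zero_iff.mp h)

theorem germ_transport (L : V ≃L[ℂ] EN N) {X : Set V} {σ : ℂ × ℂ → V} {τ : V → ℂ × ℂ} (h : IsChart X σ τ) :
    IsGermChart (L.symm ⁻¹' X : Set (EN N)) (fun p => L (σ p)) (fun y => τ (L.symm y)) := by
  have hL : ∀ᶠ y in 𝓝 (L (σ 0)), (fun y => L.symm y) y = L.symm y := Filter.Eventually.of_forall fun _ => rfl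
  have ht : Tendsto (fun y => L.symm y) (𝓝 (L (σ 0))) (𝓝 (σ 0)) := by
    have := L.symm.continuous.tendsto (L (σ 0))
    rwa [L.symm_apply_apply] at this
  refine ⟨((L : V →L[ℂ] EN N).analyticAt _).comp h.σ_an, ?_, ?_, ?_, ?_, ?_⟩
  · filter_upwards [h.σ_mem] with p hp
    show L.symm (L (σ p)) ∈ X
    rwa [L.symm_apply_apply]
  · have h1 : AnalyticAt ℂ τ ((fun y => L.symm y) (L (σ 0))) := by
      show AnalyticAt ℂ τ (L.symm (L (σ 0)))
      rw [L.symm_apply_apply]; exact h.τ_an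
    exact h1.comp ((L.symm : EN N →L[ℂ] V).analyticAt _)
  · filter_upwards [h.left] with p hp
    rw [L.symm_apply_apply, hp]
  · filter_upwards [ht.eventually h.right] with y hy hyX
    obtain ⟨c, hc, h1⟩ := hy hyX
    refine ⟨c, hc, ?_⟩
    have h2 : L (L.symm y) = L (c • σ (τ (L.symm y))) := congrArg L h1
    rwa [L.apply_symm_apply, map_smul] at h2
  · have ht2 : Tendsto (fun z : EN N × ℂ => (L.symm z.1, z.2)) (𝓝 (L (σ 0), (1 : ℂ))) (𝓝 (σ 0, (1 : ℂ))) := by
      have h1 : Continuous (fun z : EN N × ℂ => (L.symm z.1, z.2)) := (L.symm.continuous.comp continuous_fst).prodMk continuous_snd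
      have h2 := h1.tendsto (L (σ 0), (1 : ℂ))
      simpa using h2
    filter_upwards [ht2.eventually h.inv] with z hz
    rw [map_smul]
    exact hz

end Pool.Agent.H36.BP

end

section

/-!
# EF Bridge: from the projective space to the cone
-/

set_option autoImplicit false

open Topology Filter MvPolynomial Metric

noncomputable section

namespace Pool.Agent.H17EF

open Pool.Agent.H17 (PN VanishesAt HolomorphicInto ZariskiClosedIn)
open Pool.Agent.H62.FC (Homog)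
open Pool.Agent.H62.EF
open Pool.Agent.H17BP (Surface IsChart IsForm NoZeros)
open Pool.Agent.H13.SM (cone)
open Pool.Agent.H36.BP (EN fs wd isCone_transport germ_transport)
open Pool.Agent.H14.PP (IsCone Chart Form)

variable {N : ℕ}

/-- homogeneous coordinates as a Euclidean vector -/
def LE (N : ℕ) : (Fin (N + 1) → ℂ) ≃L[ℂ] EN N := (EuclideanSpace.equiv (Fin (N + 1)) ℂ).symm

/-- the cone in the Euclidean space -/
def coneE (P : Ideal (MvPolynomial (Fin (N + 1)) ℂ)) : Set (EN N) := (LE N).symm ⁻¹' cone P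

theorem mk_mem_projVar {P : Ideal (MvPolynomial (Fin (N + 1)) ℂ)} (hP : Homog P) {x : Fin (N + 1) → ℂ} (hx : x ≠ 0) :
    Projectivization.mk ℂ x hx ∈ projVar P ↔ x ∈ cone P := by
  obtain ⟨a, ha, hrep⟩ := Pool.Agent.H36.BP.rep_mk hx
  constructor
  · intro h
    refine ⟨hx, fun Q hQ => ?_⟩
    rw [← MvPolynomial.sum_homogeneousComponent Q, map_sum]
    refine Finset.sum_eq_zero fun i _ => ?_
    have h1 := h _ (hP Q hQ i) i (homogeneousComponent_isHomogeneous i Q)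
    unfold VanishesAt at h1
    rw [hrep, eval_smul_form' (homogeneousComponent_isHomogeneous i Q)] at h1
    exact (mul_eq_zero.1 h1).resolve_left (pow_ne_zero i ha)
  · intro h Q hQ n hn
    unfold VanishesAt
    rw [hrep, eval_smul_form' hn, h.2 Q hQ, mul_zero]
where
  eval_smul_form' {d : ℕ} {Q : MvPolynomial (Fin (N + 1)) ℂ} (hQ : Q.IsHomogeneous d) (c : ℂ)
      (x : Fin (N + 1) → ℂ) : eval (c • x) Q = c ^ d * eval x Q := by
    rw [MvPolynomial.eval_eq', MvPolynomial.eval_eq', Finset.mul_sum]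
    apply Finset.sum_congr rfl
    intro m hm
    have hdeg : ∑ i, m i = d := by
      have := hQ (MvPolynomial.mem_support_iff.1 hm)
      rw [Finsupp.weight_apply] at this
      simpa [Finsupp.sum_fintype] using this
    have h1 : ∏ i, (c • x) i ^ m i = c ^ d * ∏ i, x i ^ m i := by
      rw [← hdeg, ← Finset.prod_pow_eq_pow_sum, ← Finset.prod_mul_distrib]
      exact Finset.prod_congr rfl fun i _ => by simp [mul_pow]
    rw [h1]
    ring

theorem mem_coneE {P : Ideal (MvPolynomial (Fin (N + 1)) ℂ)} (hP : Homog P) {y : EN N} :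
    y ∈ coneE P ↔ ∃ h : (LE N).symm y ≠ 0, Projectivization.mk ℂ ((LE N).symm y) h ∈ projVar P := by
  constructor
  · intro h
    exact ⟨h.1, (mk_mem_projVar hP h.1).2 h⟩
  · rintro ⟨h, h'⟩
    exact (mk_mem_projVar hP h).1 h'

theorem sub_mem_iff {Λ : AddSubgroup ℂ} {a b : ℂ} : a - b ∈ Λ ↔ ((a : ℂ) : ℂ ⧸ Λ) = (b : ℂ ⧸ Λ) := by
  rw [QuotientAddGroup.eq, ← neg_mem_iff]
  constructor
  · intro h
    convert h using 1
    ring
  · intro h
    convert h using 1
    ring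

theorem charts {P : Ideal (MvPolynomial (Fin (N + 1)) ℂ)} (hS : Surface (cone P)) : Charts (coneE P) := by
  intro x hx
  obtain ⟨σ, τ, hc, h0⟩ := hS.chart ((LE N).symm x) hx
  have hg := germ_transport (LE N) hc
  obtain ⟨χ, h1, h2⟩ := exists_chart_of_germ (isCone_transport (LE N) hS) hg
  have h3 : (LE N) (σ 0) = x := by rw [h0, ContinuousLinearEquiv.apply_symm_apply]
  rw [h3] at h1 h2
  exact ⟨χ, h1, h2⟩

end Pool.Agent.H17EF

end
end

section

/-!
# EF Closed: unions of closed subsets of a projective variety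
-/

set_option autoImplicit false

open Topology Filter MvPolynomial

noncomputable section

namespace Pool.Agent.H17EF

open Pool.Agent.H17 (PN VanishesAt HolomorphicInto ZariskiClosedIn)
open Pool.Agent.H62.FC (Homog)

variable {N : ℕ} {P : Ideal (MvPolynomial (Fin (N + 1)) ℂ)}

/-- A form which is not in the homogeneous prime ideal `P` does not vanish at some point of the variety of `P`. -/
theorem exists_point [hPp : P.IsPrime] (hP : Homog P) (hX : ∃ i, (X i : MvPolynomial (Fin (N + 1)) ℂ) ∉ P)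
    {Q : MvPolynomial (Fin (N + 1)) ℂ} (hQP : Q ∉ P) {n : ℕ} (hQ : Q.IsHomogeneous n) : ∃ x ∈ projVar P, ¬ VanishesAt Q x := by
  obtain ⟨i, hi⟩ := hX
  have h1 : Q * X i ∉ P := fun h => (hPp.mem_or_mem h).elim hQP hi
  obtain ⟨x, hx, hx'⟩ : ∃ x : Fin (N + 1) → ℂ, (∀ R ∈ P, eval x R = 0) ∧ eval x (Q * X i) ≠ 0 := by
    by_contra hcon
    push Not at hcon
    apply h1
    rw [← hPp.radical, ← MvPolynomial.vanishingIdeal_zeroLocus_eq_radical (K := ℂ) P, MvPolynomial.mem_vanishingIdeal_iff]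
    intro x hx
    rw [MvPolynomial.mem_zeroLocus_iff] at hx
    rw [MvPolynomial.aeval_eq_eval]
    exact hcon x fun R hR => by
      have := hx R hR
      rwa [MvPolynomial.aeval_eq_eval] at this
  rw [map_mul, eval_X] at hx'
  have hx0 : x ≠ 0 := by
    rintro rfl
    simp at hx'
  refine ⟨Projectivization.mk ℂ x hx0, (mk_mem_projVar hP hx0).2 ⟨hx0, hx⟩, ?_⟩
  unfold VanishesAt
  obtain ⟨a, ha, hrep⟩ := Pool.Agent.H36.BP.rep_mk hx0
  rw [hrep, mk_mem_projVar.eval_smul_form' hQ]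
  exact mul_ne_zero (pow_ne_zero n ha) (left_ne_zero_of_mul hx')

/-- if the variety of `P` is not empty, some coordinate is not in `P` -/
theorem exists_coord {x : PN N} (hx : x ∈ projVar P) : ∃ i, (X i : MvPolynomial (Fin (N + 1)) ℂ) ∉ P := by
  by_contra hcon
  push Not at hcon
  apply x.rep_nonzero
  funext i
  have := hx _ (hcon i) 1 (isHomogeneous_X ℂ i)
  unfold VanishesAt at this
  simpa using this

end Pool.Agent.H17EF

end
end

section

/-!
# LG Zl: the varieties over the complement of `E` are of log general type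

`exists_sel`, the properties `Dat.Good` (`exists_chart`, `ord_off`, `X_base`, `F_ne`, `Sel.w_ne`, `Sel.alg`, `Sel.span`) and `core`.
-/

set_option autoImplicit false

open MvPolynomial Topology Filter
open Pool.Agent.PXF (Cn form IsThetaForm)

noncomputable section

namespace Pool.Agent.LG

variable {K : Type} [Field K] [Algebra ℂ K] {N κ d s n : ℕ} {Q : Ideal (MvPolynomial (Fin (N + 1)) ℂ)} {ξ : Fin (N + 1) → K} {Λ : AddSubgroup (Cn (κ + 1))} {θ : Fin (d + 1) → Cn (κ + 1) → ℂ}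
  {L : (Fin (N + 1) → ℂ) → Cn (κ + 1) → Prop} {V : (Fin (N + 1) → ℂ) → Cn 2 → Prop} {G : Fin s → MvPolynomial (Fin (N + 1)) ℂ}

/-- the function field is finitely generated -/
theorem GP.essFiniteType {Q : Ideal (MvPolynomial (Fin (N + 1)) ℂ)} {ξ : Fin (N + 1) → K} (h : GP Q ξ) : Algebra.EssFiniteType ℂ K := by
  have hfin : {y | ∃ i j, y = ξ i / ξ j}.Finite := by
    refine Set.Finite.subset (Set.finite_range fun p : Fin (N + 1) × Fin (N + 1) => ξ p.1 / ξ p.2) ?_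
    rintro _ ⟨i, j, rfl⟩
    exact ⟨(i, j), rfl⟩
  exact IntermediateField.fg_top_iff.1 ⟨hfin.toFinset, by rw [hfin.coe_toFinset]; exact h.gen⟩

end Pool.Agent.LG

end
end

section

/-!
# PX F CDefs: reduced hypersurfaces of `A × ℙ¹`

`F y` is a binary form of degree `d ≥ 3` whose coefficients are theta functions of `y`, of a positive line bundle on the simple torus `A`.
-/

set_option autoImplicit false

open Topology Filter MvPolynomial
open Pool.Agent.H17 (PN VanishesAt)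
open Pool.Agent.PXF (Cn IsSimple)

noncomputable section

namespace Pool.Agent.HEF

variable {k : ℕ}

/-- The divisor `{F = 0}` of `A × ℙ¹`, `A` simple, of degree `d ≥ 3` over `A`, is ample, has no multiple component and contains no hypersurface `Γ × ℙ¹`. -/
structure IsReducedDivisor (Λ : AddSubgroup (Cn (k + 1))) (F : Cn (k + 1) → MvPolynomial (Fin 2) ℂ) (d : ℕ) : Prop where
  simple : IsSimple Λ
  degree : 3 ≤ d
  form : IsHolomorphicForm Set.univ F d
  ample : IsAmple Λ F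
  /-- over some point `y` the form has no multiple zeros -/
  simpleZeros : ∃ y, ∀ x : Cn 2, x ≠ 0 → eval x (F y) = 0 → ∃ i, eval x (pderiv i (F y)) ≠ 0
  /-- near a point where the form is `0` the zeros of `F y b`, `b` fixed, are not all such points -/
  codimension : ∀ y, F y = 0 → ∀ b : Cn 2, ∃ᶠ z in 𝓝 y, eval b (F z) = 0 ∧ F z ≠ 0

end Pool.Agent.HEF

end
end

section

/-!
# PX GoodB: preparations for `good_hit`
-/

set_option autoImplicit false

open Topology Filter Metric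

namespace Pool.Agent.PX

open Pool.Agent.AD (Vd)
open Pool.Agent.H56.PR (LFam)

variable {k d r : ℕ}

/-- uniform convergence of a composition with a function continuous on a compact set -/
theorem conv_comp {V ι : Type*} [NormedAddCommGroup V] {l : Filter ι} {K : Set V}
    (hK : IsCompact K) {ψ : V → ℂ} (hψ : ContinuousOn ψ K) {γ : ι → ℂ → V} {γ' : ℂ → V} {s : Set ℂ}
    (h : ∀ ε : ℝ, 0 < ε → ∀ᶠ n in l, ∀ z ∈ s, ‖γ n z - γ' z‖ < ε)
    (h1 : ∀ᶠ n in l, ∀ z ∈ s, γ n z ∈ K) (h2 : ∀ z ∈ s, γ' z ∈ K) :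
    TendstoUniformlyOn (fun n z => ψ (γ n z)) (fun z => ψ (γ' z)) l s := by
  rw [Metric.tendstoUniformlyOn_iff]
  intro ε hε
  have hu := hK.uniformContinuousOn_of_continuous hψ
  rw [Metric.uniformContinuousOn_iff] at hu
  obtain ⟨δ, hδ, hu⟩ := hu ε hε
  filter_upwards [h δ hδ, h1] with n h3 h4 z hz
  refine hu _ (h2 z hz) _ (h4 z hz) ?_
  rw [dist_comm, dist_eq_norm]
  exact h3 z hz

theorem conv_Pol {ι : Type*} {l : Filter ι} {m : ℕ} {c : ι → Fin m → ℂ → ℂ} {c' : Fin m → ℂ → ℂ}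
    {s : Set ℂ} (h : ∀ i, TendstoUniformlyOn (fun n z => c n i z) (fun z => c' i z) l s) (j : ℕ) :
    TendstoUniformlyOn (fun n z => (Pol (c n) z).coeff j) (fun z => (Pol c' z).coeff j) l s := by
  rw [Metric.tendstoUniformlyOn_iff]
  intro ε hε
  have h1 : ∀ᶠ n in l, ∀ i : Fin m, ∀ z ∈ s, ‖c n i z - c' i z‖ < ε / (m + 1) := by
    rw [Filter.eventually_all]
    intro i
    filter_upwards [(Metric.tendstoUniformlyOn_iff.1 (h i)) (ε / (m + 1)) (by positivity)] with n hn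
      z hz
    have := hn z hz
    rwa [dist_comm, dist_eq_norm] at this
  filter_upwards [h1] with n hn z hz
  rw [dist_comm, dist_eq_norm]
  have h2 : (Pol (c n) z).coeff j - (Pol c' z).coeff j
      = ∑ i : Fin m, (c n i z - c' i z) * (if j = (i : ℕ) then 1 else 0) := by
    simp only [Pol, Polynomial.coeff_add, Polynomial.finsetSum_coeff, Polynomial.coeff_C_mul,
      Polynomial.coeff_X_pow]
    rw [add_sub_add_left_eq_sub, ← Finset.sum_sub_distrib]
    refine Finset.sum_congr rfl fun i _ => ?_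
    ring
  rw [h2]
  refine (norm_sum_le _ _).trans_lt ?_
  calc ∑ i : Fin m, ‖(c n i z - c' i z) * (if j = (i : ℕ) then 1 else 0)‖
      ≤ ∑ i : Fin m, ε / (m + 1) := by
        refine Finset.sum_le_sum fun i _ => ?_
        rw [norm_mul]
        have h3 : ‖(if j = (i : ℕ) then (1 : ℂ) else 0)‖ ≤ 1 := by split_ifs <;> simp
        have h4 := (hn i z hz).le
        calc _ ≤ ε / (m + 1) * 1 := mul_le_mul h4 h3 (norm_nonneg _) (by positivity)
          _ = _ := mul_one _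
    _ = m * (ε / (m + 1)) := by simp
    _ < ε := by
        rw [mul_div_assoc', div_lt_iff₀ (by positivity)]
        nlinarith

section

variable {Λ : AddSubgroup (Vd (k + 1))} {D : Set (Vd (k + 1))} {Bad : Vd (k + 1) → Set (Vd (k + 1))} {θ : Fin (d + 1) → Vd (k + 1) → ℂ}
  {W : Fin r → Vd (k + 1) →L[ℂ] ℂ}

/-- the radius -/
theorem exists_rad {a : Vd (k + 1)} {ρ₀ r₁ : ℝ} (h0 : 0 < ρ₀) (h1 : 0 < r₁) :
    ∃ ρ : ℝ, 0 < ρ ∧ ρ ≤ ρ₀ ∧ ∀ z : ℂ, ‖z‖ < 4 * ρ → ‖z • a‖ ≤ r₁ / 2 := by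
  refine ⟨min ρ₀ (r₁ / (8 * (‖a‖ + 1))), lt_min h0 (by positivity), min_le_left _ _, ?_⟩
  intro z hz
  rw [norm_smul]
  have h2 : ‖z‖ ≤ 4 * (r₁ / (8 * (‖a‖ + 1))) :=
    hz.le.trans (mul_le_mul_of_nonneg_left (min_le_right _ _) (by norm_num))
  calc ‖z‖ * ‖a‖ ≤ 4 * (r₁ / (8 * (‖a‖ + 1))) * (‖a‖ + 1) :=
        mul_le_mul h2 (by linarith) (norm_nonneg _) (by positivity)
    _ = r₁ / 2 := by field_simp; ring

end

end Pool.Agent.PX

end

section

/-!
# PX S Tr: the definitions of the final theorem and the definitions used in the proof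
-/

set_option autoImplicit false

open Topology Filter MvPolynomial
open Pool.Agent.H17 (PN VanishesAt HolomorphicInto)
open Pool.Agent.H62.SA (locVar)

noncomputable section

namespace Pool.Agent.COT

variable {k m q N d : ℕ} {Λ : Sub k} {T : Set (Prd Λ m)} {S : Set (Torus Λ)} {X : Set (Prd Λ m)} {F : Fin q → Poly k m}

theorem IsHolomorphicForm.to {U : Set (Cn (k + 1))} {F : Poly k m} (h : IsHolomorphicForm U F d) : HEF.IsHolomorphicForm U F d := ⟨h.homogeneous, h.holomorphic⟩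

theorem IsSection.to {F : Poly k m} {r : ℕ} {W : Fin r → Cn (k + 1) →L[ℂ] ℂ} (h : IsSection Λ F W) : HEF.IsSection Λ F W := by
  obtain ⟨d, hd, hF⟩ := h.form
  exact ⟨⟨d, hd, hF.to⟩, h.quasiPeriodic⟩

theorem ample_to {F : Poly k m} (h : IsAmple Λ F) : HEF.IsAmple Λ F := by
  obtain ⟨r, W, hW, h⟩ := h
  exact ⟨r, W, hW, h.to⟩

theorem IsReducedDivisor.to {F : Poly k 1} (h : IsReducedDivisor Λ F d) : HEF.IsReducedDivisor Λ F d :=
  ⟨h.simple, h.degree, h.form.to, ample_to h.ample, h.simpleZeros, h.codimension⟩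

end Pool.Agent.COT

end
end

section

/-!
# PX F Comp: the curves in `T` defined by a curve in a variety over it

`u ∘ f` and `v ∘ f` are holomorphic (`IsFiniteOver.torus`, `regular`: near `z₀` the curve `f` has homogeneous coordinates `φ`, `vals γ (φ z) ≠ 0` and `v (f z) = mk (vals γ (φ z))`).
-/

set_option autoImplicit false

open Topology Filter Metric MvPolynomial

namespace Pool.Agent.PX

open Pool.Agent.H17 (PN VanishesAt HolomorphicInto puncturedDisc ZariskiClosedIn)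
open Pool.Agent.H17LG.Variety (FunField IsLogGeneralType)
open Pool.Agent.H62.SA (locVar OnBd)
open Pool.Agent.H17EF (projVar)
open Pool.Agent.AD (Vd IsHolomorphicTorusMap)
open Pool.Agent.PXF (Cn form IsSimple IsThetaForm IsReduced HolomorphicIntoTorus IsCurveIn IsHyperbolicModulo IsFiniteOver)

variable {N k d r : ℕ} {Λ : AddSubgroup (Vd (k + 1))} {D : Set (Vd (k + 1))} {Bad : Vd (k + 1) → Set (Vd (k + 1))} {θ : Fin (d + 1) → Vd (k + 1) → ℂ}
  {W : Fin r → Vd (k + 1) →L[ℂ] ℂ}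

theorem curve_of {P : Ideal (MvPolynomial (Fin (N + 1)) ℂ)} {s m : ℕ} {G : Fin s → MvPolynomial (Fin (N + 1)) ℂ} {T : Set ((Cn (k + 1) ⧸ Λ) × PN m)} {S : Set (Cn (k + 1) ⧸ Λ)}
    {u : PN N → Cn (k + 1) ⧸ Λ} {v : PN N → PN m} (h : IsFiniteOver P G Λ T S u v)
    {f : ℂ → PN N} {U : Set ℂ} (hf : HolomorphicInto f U) (hU : IsOpen U) (hfU : ∀ z ∈ U, f z ∈ locVar P G) : IsCurveIn Λ T (fun z => u (f z)) (fun z => v (f z)) U := by
  have hX : ∀ z ∈ U, f z ∈ projVar P := fun z hz => (hfU z hz).1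
  refine ⟨?_, ?_, fun z hz => h.maps _ (hfU z hz)⟩
  · intro z₀ hz₀
    obtain ⟨φ, hφ, he⟩ := hf z₀ hz₀
    obtain ⟨h0, h1⟩ := he.self_of_nhds
    obtain ⟨w, hw, hwe⟩ := h.torus (φ z₀) h0 (by rw [← h1]; exact hX z₀ hz₀)
    refine ⟨fun z => w (φ z), hw.comp hφ, ?_⟩
    filter_upwards [he, hφ.continuousAt.eventually hwe, hU.mem_nhds hz₀] with z h2 h3 h4
    obtain ⟨h5, h6⟩ := h2
    have h7 := h3 h5 (by rw [← h6]; exact hX z h4)
    rw [← h6] at h7
    exact h7
  · intro z₀ hz₀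
    obtain ⟨φ, hφ, he⟩ := hf z₀ hz₀
    obtain ⟨D₀, γ, hγ, h0, h1⟩ := h.regular (f z₀) (hX z₀ hz₀)
    have hrep : ∀ z, (∃ h : φ z ≠ 0, f z = Projectivization.mk ℂ (φ z) h) → ∃ c : ℂ, c ≠ 0 ∧ (f z).rep = c • φ z := by
      rintro z ⟨h2, h3⟩
      obtain ⟨a, ha⟩ := Projectivization.exists_smul_eq_mk_rep ℂ (φ z) h2
      exact ⟨a, a.ne_zero, by rw [h3]; exact ha.symm⟩
    have hvals : ∀ z, (∃ h : φ z ≠ 0, f z = Projectivization.mk ℂ (φ z) h) →
        (Pool.Agent.H7.Bir.vals γ (f z).rep ≠ 0 ↔ Pool.Agent.H7.Bir.vals γ (φ z) ≠ 0) := by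
      intro z hz
      obtain ⟨c, hc, h2⟩ := hrep z hz
      rw [h2, Pool.Agent.H7.Bir.vals_smul hγ, smul_ne_zero_iff]
      exact ⟨fun h => h.2, fun h => ⟨pow_ne_zero _ hc, h⟩⟩
    have hΨ : AnalyticAt ℂ (fun z => Pool.Agent.H7.Bir.vals γ (φ z)) z₀ := by
      rw [analyticAt_pi_iff]
      intro i
      have h2 : AnalyticAt ℂ (fun z => MvPolynomial.aeval (φ z) (γ i)) z₀ :=
        AnalyticAt.aeval_mvPolynomial (fun i => analyticAt_pi_iff.mp hφ i) (γ i)
      exact h2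
    refine ⟨fun z => Pool.Agent.H7.Bir.vals γ (φ z), hΨ, ?_⟩
    have h2 : Pool.Agent.H7.Bir.vals γ (φ z₀) ≠ 0 := (hvals z₀ he.self_of_nhds).1 h0
    filter_upwards [he, hΨ.continuousAt.eventually_ne h2, hU.mem_nhds hz₀] with z h3 h4 h5
    refine ⟨h4, ?_⟩
    have h6 := h1 (f z) (hX z h5) ((hvals z h3).2 h4)
    obtain ⟨h7, h8⟩ := h3
    rw [h8, Pool.Agent.H7.Bir.rmap_mk hγ h7 h4, ← h8] at h6
    exact h6

end Pool.Agent.PX

end

section

/-!
# PX F Poly: the theorem for `A × ℙ¹` in terms of polynomials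
-/

set_option autoImplicit false

open Topology Filter Metric MvPolynomial

namespace Pool.Agent.PX

open Pool.Agent.H17 (PN VanishesAt HolomorphicInto puncturedDisc)
open Pool.Agent.PXF (Cn IsSimple IsThetaForm IsReduced IsCurveIn IsHyperbolicModulo)
open Pool.Agent.HEF (IsReducedDivisor IsAmple IsSection IsHolomorphicForm outside)

variable {k d : ℕ} {Λ : AddSubgroup (Cn (k + 1))}

/-- the exponent `(i, d - i)` -/
noncomputable def ex (d i : ℕ) : Fin 2 →₀ ℕ := Finsupp.single 0 i + Finsupp.single 1 (d - i)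

@[simp] theorem ex_zero (d i : ℕ) : ex d i 0 = i := by simp [ex]

@[simp] theorem ex_one (d i : ℕ) : ex d i 1 = d - i := by simp [ex]

theorem ex_inj (d : ℕ) : Function.Injective fun i : Fin (d + 1) => ex d i := by
  intro i j h
  have h1 := congrArg (fun m : Fin 2 →₀ ℕ => m 0) h
  simpa [Fin.ext_iff] using h1

/-- the coefficients -/
noncomputable def tht (d : ℕ) (F : Cn (k + 1) → MvPolynomial (Fin 2) ℂ) (i : Fin (d + 1)) (y : Cn (k + 1)) : ℂ := (F y).coeff (ex d i)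

theorem mem_ex {f : MvPolynomial (Fin 2) ℂ} (hf : f.IsHomogeneous d) {m : Fin 2 →₀ ℕ} (hm : f.coeff m ≠ 0) : ∃ i : Fin (d + 1), ex d i = m := by
  have h1 : m.degree = d := by
    have h0 := hf hm
    have h2 : Finsupp.degree m = Finsupp.weight (fun _ => 1) m := DFunLike.congr_fun (Finsupp.degree_eq_weight_one (σ := Fin 2) (R := ℕ)) m
    exact h2.trans h0
  have h2 : m 0 + m 1 = d := by
    rw [← h1, Finsupp.degree_eq_sum, Fin.sum_univ_two]
  refine ⟨⟨m 0, by omega⟩, ?_⟩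
  ext i
  fin_cases i
  · simp
  · simp only [Fin.mk_one, ex_one]
    omega

theorem eval_ex {f : MvPolynomial (Fin 2) ℂ} (hf : f.IsHomogeneous d) (x : Cn 2) :
    eval x f = ∑ i : Fin (d + 1), f.coeff (ex d i) * x 0 ^ (i : ℕ) * x 1 ^ (d - (i : ℕ)) := by
  classical
  rw [eval_eq', Finset.sum_subset (s₂ := Finset.univ.image fun i : Fin (d + 1) => ex d i), Finset.sum_image fun i _ j _ h => ex_inj d h]
  · refine Finset.sum_congr rfl fun i _ => ?_
    rw [Fin.prod_univ_two, ex_zero, ex_one, mul_assoc]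
  · intro m hm
    obtain ⟨i, hi⟩ := mem_ex hf (mem_support_iff.1 hm)
    exact Finset.mem_image.2 ⟨i, Finset.mem_univ _, hi⟩
  · intro m _ hm
    rw [notMem_support_iff.1 hm, zero_mul]

theorem eval_form {F : Cn (k + 1) → MvPolynomial (Fin 2) ℂ} {y : Cn (k + 1)} (hF : (F y).IsHomogeneous d) (x : Cn 2) : PXF.form (tht d F) y x = eval x (F y) :=
  (eval_ex hF x).symm

theorem eq_zero_iff {F : Cn (k + 1) → MvPolynomial (Fin 2) ℂ} {y : Cn (k + 1)} (hF : (F y).IsHomogeneous d) : F y ≠ 0 ↔ ∃ i, tht d F i y ≠ 0 := by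
  constructor
  · intro h
    obtain ⟨m, hm⟩ := ne_zero_iff.1 h
    obtain ⟨i, hi⟩ := mem_ex hF hm
    exact ⟨i, by rw [tht, hi]; exact hm⟩
  · rintro ⟨i, hi⟩ h
    exact hi (by rw [tht, h, coeff_zero])

theorem vanishes_iff {f : MvPolynomial (Fin 2) ℂ} (hf : f.IsHomogeneous d) {x : Cn 2} (hx : x ≠ 0) : VanishesAt f (Projectivization.mk ℂ x hx) ↔ eval x f = 0 :=
  Pool.Agent.H17.vanishesAt_mk_iff hf x hx

theorem mk_ne {x y : Cn 2} (hx : x ≠ 0) (hy : y ≠ 0) : Projectivization.mk ℂ x hx ≠ Projectivization.mk ℂ y hy ↔ x 0 * y 1 ≠ x 1 * y 0 := by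
  rw [not_iff_not, Projectivization.mk_eq_mk_iff']
  constructor
  · rintro ⟨a, ha⟩
    rw [← ha]
    simp only [Pi.smul_apply, smul_eq_mul]
    ring
  · intro h
    by_cases h0 : y 0 = 0
    · have h1 : y 1 ≠ 0 := by
        intro h1
        apply hy
        ext i
        fin_cases i
        · exact h0
        · exact h1
      refine ⟨x 1 / y 1, ?_⟩
      ext i
      fin_cases i
      · simp only [Fin.zero_eta, Pi.smul_apply, smul_eq_mul, h0, mul_zero]
        rw [h0, mul_zero] at h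
        exact ((mul_eq_zero.1 h).resolve_right h1).symm
      · simp only [Fin.mk_one, Pi.smul_apply, smul_eq_mul]
        field_simp
    · refine ⟨x 0 / y 0, ?_⟩
      ext i
      fin_cases i
      · simp only [Fin.zero_eta, Pi.smul_apply, smul_eq_mul]
        field_simp
      · simp only [Fin.mk_one, Pi.smul_apply, smul_eq_mul]
        field_simp
        rw [h, mul_comm]

/-- The derivative of the evaluation map of a polynomial. -/
theorem hasFDerivAt_eval {ι : Type} [Fintype ι] (p : MvPolynomial ι ℂ) (w : ι → ℂ) :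
    HasFDerivAt (fun y : ι → ℂ => eval y p) (∑ i, eval w (pderiv i p) • (ContinuousLinearMap.proj i : (ι → ℂ) →L[ℂ] ℂ)) w := by
  classical
  induction p using MvPolynomial.induction_on with
  | C a =>
    have h := hasFDerivAt_const (𝕜 := ℂ) a w
    have h2 : HasFDerivAt (fun y : ι → ℂ => eval y (C a : MvPolynomial ι ℂ)) (0 : (ι → ℂ) →L[ℂ] ℂ) w := by
      simpa using h
    refine h2.congr_fderiv ?_
    ext v
    simp
  | add p q hp hq =>
    have h := hp.add hq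
    have h2 : (fun y : ι → ℂ => eval y (p + q)) = (fun y => eval y p) + fun y => eval y q := by
      funext y
      exact map_add _ _ _
    rw [h2]
    refine h.congr_fderiv ?_
    ext v
    simp [Finset.sum_add_distrib, add_mul]
  | mul_X p n hp =>
    have h1 : HasFDerivAt (fun y : ι → ℂ => y n) (ContinuousLinearMap.proj n : (ι → ℂ) →L[ℂ] ℂ) w := hasFDerivAt_apply n w
    have h := hp.mul h1
    have h2 : (fun y : ι → ℂ => eval y (p * X n)) = (fun y => eval y p) * fun y => y n := by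
      funext y
      simp only [map_mul, eval_X, Pi.mul_apply]
    rw [h2]
    refine h.congr_fderiv ?_
    ext v
    simp only [Derivation.leibniz, pderiv_X, smul_eq_mul, map_add, map_mul, eval_X,
      FunLike.coe_add, FunLike.coe_smul, Pi.add_apply, Pi.smul_apply, ContinuousLinearMap.proj_apply,
      sum_apply, add_mul]
    rw [Finset.sum_add_distrib]
    congr 1
    · rw [Finset.sum_eq_single n]
      · simp
      · intro b _ hb
        simp [hb.symm]
      · intro h; exact absurd (Finset.mem_univ n) h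
    · rw [Finset.mul_sum]
      exact Finset.sum_congr rfl fun i _ => by ring

theorem thetaForm_of {F : Cn (k + 1) → MvPolynomial (Fin 2) ℂ} (hF : IsHolomorphicForm Set.univ F d) (ha : IsAmple Λ F) : IsThetaForm Λ (tht d F) := by
  obtain ⟨r, W, hW, -, hq⟩ := ha
  refine ⟨fun i => differentiableOn_univ.1 (hF.holomorphic _), r, W, hW, fun l hl y => ?_⟩
  obtain ⟨e, he, h1⟩ := hq l hl y
  refine ⟨e, he, fun i => ?_⟩
  rw [tht, h1, coeff_C_mul, tht]

theorem reduced_of {F : Cn (k + 1) → MvPolynomial (Fin 2) ℂ} (h : IsReducedDivisor Λ F d) : IsReduced (tht d F) := by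
  have hh : ∀ y, (F y).IsHomogeneous d := fun y => h.form.homogeneous y (Set.mem_univ y)
  constructor
  · obtain ⟨y, hy⟩ := h.simpleZeros
    refine ⟨y, fun x hx h0 => ?_⟩
    rw [eval_form (hh y)] at h0
    obtain ⟨i, hi⟩ := hy x hx h0
    have h1 : PXF.form (tht d F) y = fun x => eval x (F y) := funext fun x => eval_form (hh y) x
    rw [h1, (hasFDerivAt_eval (F y) x).fderiv]
    intro h2
    apply hi
    have h3 := congrArg (fun L : (Fin 2 → ℂ) →L[ℂ] ℂ => L (Pi.single i 1)) h2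
    fin_cases i
    · simpa [Fin.sum_univ_two] using h3
    · simpa [Fin.sum_univ_two] using h3
  · intro y hy b
    have h1 : F y = 0 := by
      by_contra hne
      obtain ⟨i, hi⟩ := (eq_zero_iff (hh y)).1 hne
      exact hi (hy i)
    refine (h.codimension y h1 b).mono fun z hz => ⟨?_, (eq_zero_iff (hh z)).1 hz.2⟩
    rw [eval_form (hh z)]
    exact hz.1

end Pool.Agent.PX

end

section

/-!
# PX F YBr: entire curves in varieties over `T`

`curve_of`, `IsHyperbolicModulo.entire`: if some `f z₀` is not a zero of `R` then `u (f z₀) ∉ S`, so `u ∘ f` and `v ∘ f` are constant, `f` has values in a finite set (`finite`), and is constant (continuous on a connected set; for example for a form separating the points).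
-/

set_option autoImplicit false

open Topology Filter Metric MvPolynomial

namespace Pool.Agent.PX

open Pool.Agent.H17 (PN VanishesAt HolomorphicInto puncturedDisc ZariskiClosedIn)
open Pool.Agent.H17LG.Variety (FunField IsLogGeneralType)
open Pool.Agent.H62.FC (Homog)
open Pool.Agent.H62.SA (locVar OnBd)
open Pool.Agent.H17EF (projVar)
open Pool.Agent.H36.BP (EN fs wd)
open Pool.Agent.AD (Vd IsHolomorphicTorusMap)
open Pool.Agent.PXF (Cn form IsSimple IsThetaForm IsReduced HolomorphicIntoTorus IsCurveIn IsHyperbolicModulo IsFiniteOver)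

variable {N k d r : ℕ} {Λ : AddSubgroup (Vd (k + 1))} {D : Set (Vd (k + 1))} {Bad : Vd (k + 1) → Set (Vd (k + 1))} {θ : Fin (d + 1) → Vd (k + 1) → ℂ}
  {W : Fin r → Vd (k + 1) →L[ℂ] ℂ}

/-- A holomorphic curve which is in a finite set near `z₀` is constant near `z₀`. -/
private theorem locally_const_aux {f : ℂ → PN N} {z₀ : ℂ} (hf : HolomorphicInto f {z₀}) {S : Set (PN N)} (hS : S.Finite) (h : ∀ᶠ z in 𝓝 z₀, f z ∈ S) :
    ∀ᶠ z in 𝓝 z₀, f z = f z₀ := by
  obtain ⟨φ, hφ, he⟩ := hf z₀ rfl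
  obtain ⟨h0, hf0⟩ := he.self_of_nhds
  obtain ⟨j, hj⟩ : ∃ j, φ z₀ j ≠ 0 := by
    by_contra hcon
    push Not at hcon
    exact h0 (funext hcon)
  have hφi : ∀ i, AnalyticAt ℂ (fun z => φ z i) z₀ := fun i => analyticAt_pi_iff.1 hφ i
  have hH : AnalyticAt ℂ (fun z => fun i => φ z i / φ z j) z₀ := analyticAt_pi_iff.2 fun i => (hφi i).div (hφi j) hj
  obtain ⟨r, hr, hb⟩ := Metric.eventually_nhds_iff_ball.1 (((hH.eventually_analyticAt.and he).and h).and ((hφi j).continuousAt.eventually_ne hj))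
  let T : Set (Fin (N + 1) → ℂ) := (fun (x : PN N) i => x.rep i / x.rep j) '' S
  have hT : T.Finite := hS.image _
  have hmaps : ∀ z ∈ ball z₀ r, (fun i => φ z i / φ z j) ∈ T := by
    intro z hz
    obtain ⟨⟨⟨h1, h2⟩, h3⟩, h4⟩ := hb z hz
    obtain ⟨h5, h6⟩ := h2
    have hmk : Projectivization.mk ℂ (Projectivization.mk ℂ (φ z) h5).rep (Projectivization.rep_nonzero _) = Projectivization.mk ℂ (φ z) h5 := Projectivization.mk_rep _
    obtain ⟨κ, hκr⟩ := (Projectivization.mk_eq_mk_iff' ℂ _ _ _ _).1 hmk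
    have hκ : κ ≠ 0 := by
      rintro rfl
      apply Projectivization.rep_nonzero (Projectivization.mk ℂ (φ z) h5)
      rw [← hκr, zero_smul]
    refine ⟨f z, h3, ?_⟩
    funext i
    simp only
    rw [h6, ← hκr, Pi.smul_apply, Pi.smul_apply, smul_eq_mul, smul_eq_mul, mul_div_mul_left _ _ hκ]
  have hcont : ContinuousOn (fun z => fun i => φ z i / φ z j) (ball z₀ r) := fun z hz => (hb z hz).1.1.1.continuousAt.continuousWithinAt
  obtain ⟨y, -, hy⟩ := (convex_ball z₀ r).isPreconnected.eqOn_const_of_mapsTo hT.isDiscrete hcont (fun z hz => hmaps z hz)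
    ⟨_, hmaps z₀ (mem_ball_self hr)⟩
  filter_upwards [ball_mem_nhds z₀ hr] with z hz
  obtain ⟨⟨⟨-, h2⟩, -⟩, h4⟩ := hb z hz
  obtain ⟨h5, h6⟩ := h2
  rw [h6, hf0, Projectivization.mk_eq_mk_iff']
  refine ⟨φ z j / φ z₀ j, ?_⟩
  have h7 := (hy hz).trans (hy (mem_ball_self hr)).symm
  funext i
  have h8 := congrFun h7 i
  simp only at h8
  rw [div_eq_div_iff h4 hj] at h8
  rw [Pi.smul_apply, smul_eq_mul]
  field_simp
  linear_combination -h8

theorem y_brody {P : Ideal (MvPolynomial (Fin (N + 1)) ℂ)} (hP : Homog P) {s m : ℕ} {G : Fin s → MvPolynomial (Fin (N + 1)) ℂ} {T : Set ((Cn (k + 1) ⧸ Λ) × PN m)} {S : Set (Cn (k + 1) ⧸ Λ)}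
    (H : IsHyperbolicModulo Λ T S) {u : PN N → Cn (k + 1) ⧸ Λ} {v : PN N → PN m} (h : IsFiniteOver P G Λ T S u v)
    {R : MvPolynomial (Fin (N + 1)) ℂ} (hR : ∀ x ∈ projVar P, u x ∈ S → VanishesAt R x)
    {f : ℂ → PN N} (hf : HolomorphicInto f Set.univ) (hfU : ∀ z, f z ∈ locVar P G) (hne : ∃ z w, f z ≠ f w) (z : ℂ) : VanishesAt R (f z) := by
  by_contra hz
  have hproj : ∀ w, f w ∈ projVar P := fun w => (hfU w).1
  have hc : IsCurveIn Λ T (fun z => u (f z)) (fun z => v (f z)) Set.univ := curve_of h hf isOpen_univ fun w _ => hfU w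
  have hent := H.entire _ _ hc
  have hS : u (f z) ∉ S := fun hS => hz (hR (f z) (hproj z) hS)
  have hfin := h.finite (f z) (hproj z)
  have hmem : ∀ w, f w ∈ {x' | x' ∈ projVar P ∧ u x' = u (f z) ∧ v x' = v (f z)} :=
    fun w => ⟨hproj w, (hent z w).1.symm, ((hent z w).2 hS).symm⟩
  have hloc : ∀ᶠ w in 𝓝 (0 : ℂ), f w = f 0 :=
    locally_const_aux (fun w _ => hf w (Set.mem_univ w)) hfin (Filter.Eventually.of_forall hmem)
  have hall := Pool.Agent.H36.BP.const_identity isPreconnected_univ hf (Set.mem_univ (0 : ℂ)) hloc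
  obtain ⟨a, b, hab⟩ := hne
  exact hab ((hall a (Set.mem_univ a)).trans (hall b (Set.mem_univ b)).symm)

end Pool.Agent.PX

end

section

/-!
# PX F Clu: a curve on the punctured disc with finitely many limit points extends

`u ∘ f` and `v ∘ f` have the limits `t' 0`, `g' 0`; by compactness of `projVar P` all limit points of `f` at `0` (of unit vectors of homogeneous coordinates) are points `x` of `projVar P` with `u x = t' 0`, `v x = g' 0` (continuity of `u`, `v`: local formulas), finitely many; the punctured discs are connected, so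
there is only one limit point; in an affine chart around it the coordinates of `f` are bounded and holomorphic, so they extend.
-/

set_option autoImplicit false

open Topology Filter Metric MvPolynomial

namespace Pool.Agent.PX

open Pool.Agent.H17 (PN VanishesAt HolomorphicInto puncturedDisc ZariskiClosedIn)
open Pool.Agent.H17LG.Variety (FunField IsLogGeneralType)
open Pool.Agent.H62.FC (Homog)
open Pool.Agent.H62.SA (locVar OnBd)
open Pool.Agent.H17EF (projVar)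
open Pool.Agent.H36.BP (EN fs wd)
open Pool.Agent.H62.EF (MN pr)
open Pool.Agent.AD (Vd IsHolomorphicTorusMap)
open Pool.Agent.TG (Lat)
open Pool.Agent.PXF (Cn form IsSimple IsThetaForm IsReduced HolomorphicIntoTorus IsCurveIn IsHyperbolicModulo IsFiniteOver)
open Pool.Agent.H7.Bir (vals rmap)

variable {N k d r : ℕ} {Λ : AddSubgroup (Vd (k + 1))} {D : Set (Vd (k + 1))} {Bad : Vd (k + 1) → Set (Vd (k + 1))} {θ : Fin (d + 1) → Vd (k + 1) → ℂ}
  {W : Fin r → Vd (k + 1) →L[ℂ] ℂ}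

/-- the cross product norm -/
private noncomputable def Clu_cr (a w : Fin (N + 1) → ℂ) : ℝ := ∑ i, ∑ j, ‖w i * a j - w j * a i‖

private theorem Clu_cr_smul (a w : Fin (N + 1) → ℂ) (c : ℂ) : Clu_cr a (c • w) = ‖c‖ * Clu_cr a w := by
  unfold Clu_cr
  rw [Finset.mul_sum]
  refine Finset.sum_congr rfl fun i _ => ?_
  rw [Finset.mul_sum]
  refine Finset.sum_congr rfl fun j _ => ?_
  rw [← norm_mul]
  congr 1
  simp only [Pi.smul_apply, smul_eq_mul]
  ring

private theorem Clu_cr_cont (a : Fin (N + 1) → ℂ) : Continuous (Clu_cr a) := by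
  unfold Clu_cr
  fun_prop

private theorem Clu_prop {M : ℕ} {a w : Fin (M + 1) → ℂ} {j : Fin (M + 1)} (ha : a j ≠ 0) (h : ∀ i j, w i * a j = w j * a i) : w = (w j / a j) • a := by
  funext i
  rw [Pi.smul_apply, smul_eq_mul, div_mul_eq_mul_div, eq_div_iff ha]
  exact h i j

private theorem Clu_cr_zero {a w : Fin (N + 1) → ℂ} {j : Fin (N + 1)} (ha : a j ≠ 0) (h : Clu_cr a w = 0) : w = (w j / a j) • a := by
  refine Clu_prop ha fun i j => ?_
  unfold Clu_cr at h
  rw [Finset.sum_eq_zero_iff_of_nonneg (fun i _ => Finset.sum_nonneg fun j _ => norm_nonneg _)] at h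
  have h1 := h i (Finset.mem_univ _)
  rw [Finset.sum_eq_zero_iff_of_nonneg (fun j _ => norm_nonneg _)] at h1
  exact sub_eq_zero.1 (norm_eq_zero.1 (h1 j (Finset.mem_univ _)))

private theorem Clu_cr_self (a : Fin (N + 1) → ℂ) : Clu_cr a a = 0 := by
  unfold Clu_cr
  refine Finset.sum_eq_zero fun i _ => Finset.sum_eq_zero fun j _ => ?_
  rw [mul_comm, sub_self, norm_zero]

/-- a continuous function with finitely many limit values has a limit -/
private theorem Clu_lim {F : ℂ → ℝ} (hF : ContinuousOn F puncturedDisc) {T : Set ℝ} (hT : T.Finite)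
    (h : ∀ 𝒰 : Ultrafilter ℂ, (𝒰 : Filter ℂ) ≤ 𝓝[≠] 0 → ∃ t ∈ T, Tendsto F 𝒰 (𝓝 t))
    (𝒰₀ : Ultrafilter ℂ) (h₀ : (𝒰₀ : Filter ℂ) ≤ 𝓝[≠] 0) {t₀ : ℝ} (ht₀ : Tendsto F 𝒰₀ (𝓝 t₀)) : Tendsto F (𝓝[≠] 0) (𝓝 t₀) := by
  have key : ∀ (𝒰 𝒱 : Ultrafilter ℂ) (s t : ℝ), (𝒰 : Filter ℂ) ≤ 𝓝[≠] 0 → (𝒱 : Filter ℂ) ≤ 𝓝[≠] 0 → Tendsto F 𝒰 (𝓝 s) → Tendsto F 𝒱 (𝓝 t) → ¬ s < t := by
    intro 𝒰 𝒱 s t h𝒰 h𝒱 hs ht hst
    obtain ⟨c, hc1, hc2⟩ := ((Set.Ioo_infinite hst).sdiff hT).nonempty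
    have hfreq : ∃ᶠ z in 𝓝[≠] (0 : ℂ), F z = c := by
      rw [Filter.frequently_iff]
      intro U hU
      obtain ⟨ε, hε, hεU⟩ := Metric.mem_nhdsWithin_iff.1 hU
      have hR : 0 < min ε 1 := lt_min hε one_pos
      have hA : {z : ℂ | 0 < ‖z‖ ∧ ‖z‖ < min ε 1} ∈ 𝓝[≠] (0 : ℂ) := by
        refine Metric.mem_nhdsWithin_iff.2 ⟨min ε 1, hR, fun z hz => ⟨norm_pos_iff.2 hz.2, ?_⟩⟩
        exact mem_ball_zero_iff.1 hz.1
      obtain ⟨z, hz1, hz2⟩ := ((hs.eventually_lt_const hc1.1).and (h𝒰 hA)).exists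
      obtain ⟨z', hz1', hz2'⟩ := ((ht.eventually_const_lt hc1.2).and (h𝒱 hA)).exists
      have hsub : {z : ℂ | 0 < ‖z‖ ∧ ‖z‖ < min ε 1} ⊆ puncturedDisc := fun y hy =>
        ⟨mem_ball_zero_iff.2 (lt_of_lt_of_le hy.2 (min_le_right _ _)), norm_pos_iff.1 hy.1⟩
      obtain ⟨y, hy, hyc⟩ := (Pool.Agent.H92.GGL.isPreconnected_punctured (min ε 1)).intermediate_value hz2 hz2' (hF.mono hsub) ⟨hz1.le, hz1'.le⟩
      exact ⟨y, hεU ⟨mem_ball_zero_iff.2 (lt_of_lt_of_le hy.2 (min_le_left _ _)), norm_pos_iff.1 hy.1⟩, hyc⟩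
    have : (𝓝[≠] (0 : ℂ) ⊓ 𝓟 {z | F z = c}).NeBot := Filter.frequently_mem_iff_neBot.1 hfreq
    obtain ⟨t', ht', hl⟩ := h (Ultrafilter.of (𝓝[≠] (0 : ℂ) ⊓ 𝓟 {z | F z = c})) ((Ultrafilter.of_le _).trans inf_le_left)
    have h1 : ∀ᶠ z in (Ultrafilter.of (𝓝[≠] (0 : ℂ) ⊓ 𝓟 {z | F z = c}) : Filter ℂ), c = F z := by
      have h2 : {z | F z = c} ∈ (Ultrafilter.of (𝓝[≠] (0 : ℂ) ⊓ 𝓟 {z | F z = c}) : Filter ℂ) := (Ultrafilter.of_le _) (mem_inf_of_right (mem_principal_self _))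
      filter_upwards [h2] with z hz
      exact hz.symm
    have h3 : t' = c := tendsto_nhds_unique hl (tendsto_const_nhds.congr' h1)
    exact hc2 (h3 ▸ ht')
  rw [tendsto_iff_ultrafilter]
  intro 𝒰 h𝒰
  obtain ⟨t₁, -, ht₁⟩ := h 𝒰 h𝒰
  have h1 := key 𝒰 𝒰₀ t₁ t₀ h𝒰 h₀ ht₁ ht₀
  have h2 := key 𝒰₀ 𝒰 t₀ t₁ h₀ h𝒰 ht₀ ht₁
  have h3 : t₁ = t₀ := le_antisymm (not_lt.1 h2) (not_lt.1 h1)
  rw [← h3]
  exact ht₁

/-- the representative of norm one -/
private noncomputable def Clu_w (x : PN N) : Fin (N + 1) → ℂ := (‖x.rep‖ : ℂ)⁻¹ • x.rep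

private theorem Clu_w_norm (x : PN N) : ‖Clu_w x‖ = 1 := by
  have h := norm_ne_zero_iff.2 x.rep_nonzero
  rw [Clu_w, norm_smul, norm_inv, Complex.norm_real, norm_norm, inv_mul_cancel₀ h]

private theorem Clu_w_ne (x : PN N) : Clu_w x ≠ 0 := by
  intro h
  have h1 := Clu_w_norm x
  rw [h, norm_zero] at h1
  exact zero_ne_one h1

private theorem Clu_mk_w (x : PN N) : Projectivization.mk ℂ (Clu_w x) (Clu_w_ne x) = x := by
  have h := norm_ne_zero_iff.2 x.rep_nonzero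
  conv_rhs => rw [← Projectivization.mk_rep x]
  rw [Projectivization.mk_eq_mk_iff']
  exact ⟨(‖x.rep‖ : ℂ)⁻¹, rfl⟩

/-- the function `cr a` on points given by any homogeneous coordinates -/
private theorem Clu_cr_w (a : Fin (N + 1) → ℂ) {x : PN N} {y : Fin (N + 1) → ℂ} (hy : y ≠ 0) (hx : x = Projectivization.mk ℂ y hy) : Clu_cr a (Clu_w x) = ‖y‖⁻¹ * Clu_cr a y := by
  have h1 : Projectivization.mk ℂ x.rep x.rep_nonzero = Projectivization.mk ℂ y hy := by rw [Projectivization.mk_rep, hx]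
  rw [Projectivization.mk_eq_mk_iff'] at h1
  obtain ⟨c, hc⟩ := h1
  have hc0 : c ≠ 0 := by
    rintro rfl
    rw [zero_smul] at hc
    exact x.rep_nonzero hc.symm
  rw [Clu_w, ← hc, norm_smul, smul_smul, Clu_cr_smul, norm_mul, norm_inv, Complex.norm_real, Real.norm_eq_abs, abs_of_nonneg (by positivity)]
  have h2 : ‖y‖ ≠ 0 := norm_ne_zero_iff.2 hy
  have h3 : ‖c‖ ≠ 0 := norm_ne_zero_iff.2 hc0
  field_simp

private theorem Clu_disc_mem : puncturedDisc ∈ 𝓝[≠] (0 : ℂ) := sdiff_mem_nhdsWithin_compl (Metric.ball_mem_nhds _ one_pos) _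

/-- the limit points of the curve -/
private theorem Clu_point {P : Ideal (MvPolynomial (Fin (N + 1)) ℂ)} {s m : ℕ} {G : Fin s → MvPolynomial (Fin (N + 1)) ℂ} (hΛ : Lat Λ) {T : Set ((Cn (k + 1) ⧸ Λ) × PN m)} {S : Set (Cn (k + 1) ⧸ Λ)}
    {u : PN N → Cn (k + 1) ⧸ Λ} {v : PN N → PN m} (h : IsFiniteOver P G Λ T S u v)
    {f : ℂ → PN N} (hfU : ∀ z ∈ puncturedDisc, f z ∈ projVar P) {t' : ℂ → Cn (k + 1) ⧸ Λ} {g' : ℂ → PN m} (ht : HolomorphicIntoTorus Λ t' (ball 0 1))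
    (hg : HolomorphicInto g' (ball 0 1)) (htf : ∀ z ∈ puncturedDisc, t' z = u (f z)) (hgf : ∀ z ∈ puncturedDisc, g' z = v (f z))
    (𝒰 : Ultrafilter ℂ) (h𝒰 : (𝒰 : Filter ℂ) ≤ 𝓝[≠] 0) {w : Fin (N + 1) → ℂ} (hw : w ≠ 0) (hlim : Tendsto (fun z => Clu_w (f z)) 𝒰 (𝓝 w)) :
    Projectivization.mk ℂ w hw ∈ projVar P ∧ u (Projectivization.mk ℂ w hw) = t' 0 ∧ v (Projectivization.mk ℂ w hw) = g' 0 := by
  have hpd : ∀ᶠ z in (𝒰 : Filter ℂ), z ∈ puncturedDisc := h𝒰 Clu_disc_mem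
  have h0 : (𝒰 : Filter ℂ) ≤ 𝓝 0 := h𝒰.trans nhdsWithin_le_nhds
  have hX : Projectivization.mk ℂ w hw ∈ projVar P := by
    intro Q hQ n hn
    rw [Pool.Agent.H17.vanishesAt_mk_iff hn]
    have h1 : Tendsto (fun z => eval (Clu_w (f z)) Q) 𝒰 (𝓝 (eval w Q)) := ((MvPolynomial.continuous_eval Q).tendsto w).comp hlim
    have h2 : ∀ᶠ z in (𝒰 : Filter ℂ), 0 = eval (Clu_w (f z)) Q := by
      filter_upwards [hpd] with z hz
      have h3 := hfU z hz Q hQ n hn
      rw [← Clu_mk_w (f z), Pool.Agent.H17.vanishesAt_mk_iff hn] at h3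
      exact h3.symm
    exact tendsto_nhds_unique h1 (tendsto_const_nhds.congr' h2)
  refine ⟨hX, ?_, ?_⟩
  · obtain ⟨V, hV, hVu⟩ := h.torus w hw hX
    obtain ⟨H, hH, hHt⟩ := ht 0 (Metric.mem_ball_self one_pos)
    have h1 : ∀ᶠ z in (𝒰 : Filter ℂ), H z - V (Clu_w (f z)) ∈ (Λ : Set (Cn (k + 1))) := by
      filter_upwards [hpd, hlim.eventually hVu, h0 hHt] with z h2 h3 h4
      have h5 := h3 (Clu_w_ne _) (by rw [Clu_mk_w]; exact hfU z h2)
      rw [Clu_mk_w, ← htf z h2] at h5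
      rw [h4] at h5
      have h6 : ((V (Clu_w (f z)) : Cn (k + 1)) : Cn (k + 1) ⧸ Λ) = (H z : Cn (k + 1) ⧸ Λ) := h5.symm
      rw [QuotientAddGroup.eq] at h6
      rw [SetLike.mem_coe]
      have h7 : H z - V (Clu_w (f z)) = -V (Clu_w (f z)) + H z := by abel
      rw [h7]
      exact h6
    have h2 : Tendsto (fun z => H z - V (Clu_w (f z))) 𝒰 (𝓝 (H 0 - V w)) := (hH.continuousAt.tendsto.mono_left h0).sub (hV.continuousAt.tendsto.comp hlim)
    have h3 : H 0 - V w ∈ (Λ : Set (Cn (k + 1))) := (Pool.Agent.TG.lat_isClosed hΛ).mem_of_tendsto h2 h1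
    have h4 : u (Projectivization.mk ℂ w hw) = (V w : Cn (k + 1) ⧸ Λ) := hVu.self_of_nhds hw hX
    rw [h4, hHt.self_of_nhds, QuotientAddGroup.eq]
    have h7 : -V w + H 0 = H 0 - V w := by abel
    rw [h7]
    exact h3
  · obtain ⟨D, γ, hγ, hγ0, hγv⟩ := h.regular _ hX
    obtain ⟨ψ, hψ, hψg⟩ := hg 0 (Metric.mem_ball_self one_pos)
    obtain ⟨hψ0, hψ1⟩ := hψg.self_of_nhds
    -- nonvanishing of `vals γ`
    have hval : ∀ (y : Fin (N + 1) → ℂ) (hy : y ≠ 0), vals γ (Projectivization.mk ℂ y hy).rep ≠ 0 ↔ vals γ y ≠ 0 := by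
      intro y hy
      obtain ⟨a, ha⟩ := Projectivization.exists_smul_eq_mk_rep ℂ y hy
      rw [← ha]
      have h1 : (a • y : Fin (N + 1) → ℂ) = (a : ℂ) • y := rfl
      rw [h1, Pool.Agent.H7.Bir.vals_smul hγ, Ne, smul_eq_zero, not_or]
      exact ⟨fun h => h.2, fun h => ⟨pow_ne_zero _ a.ne_zero, h⟩⟩
    have hw1 : vals γ w ≠ 0 := (hval w hw).1 hγ0
    have hvc : Continuous (vals γ) := continuous_pi fun i => MvPolynomial.continuous_eval (γ i)
    have hvl : Tendsto (fun z => vals γ (Clu_w (f z))) 𝒰 (𝓝 (vals γ w)) := (hvc.tendsto w).comp hlim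
    have hψl : Tendsto ψ 𝒰 (𝓝 (ψ 0)) := hψ.continuousAt.tendsto.mono_left h0
    have hcr : ∀ᶠ z in (𝒰 : Filter ℂ), ∀ i j, vals γ (Clu_w (f z)) i * ψ z j = vals γ (Clu_w (f z)) j * ψ z i := by
      filter_upwards [hpd, hvl.eventually_ne hw1, h0 hψg] with z h1 h2 h3 i j
      obtain ⟨h4, h5⟩ := h3
      have h6 := hγv (f z) (hfU z h1) (by
        rw [← Clu_mk_w (f z)]
        exact (hval _ _).2 h2)
      rw [← hgf z h1, h5, ← Clu_mk_w (f z), Pool.Agent.H7.Bir.rmap_mk hγ (Clu_w_ne _) h2, Projectivization.mk_eq_mk_iff'] at h6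
      obtain ⟨c, hc⟩ := h6
      have h7 : ∀ i, ψ z i = c * vals γ (Clu_w (f z)) i := fun i => by rw [← hc]; rfl
      rw [h7 i, h7 j]
      ring
    have hcr0 : ∀ i j, vals γ w i * ψ 0 j = vals γ w j * ψ 0 i := by
      intro i j
      have h1 : Tendsto (fun z => vals γ (Clu_w (f z)) i * ψ z j) 𝒰 (𝓝 (vals γ w i * ψ 0 j)) :=
        (((continuous_apply i).tendsto _).comp hvl).mul (((continuous_apply j).tendsto _).comp hψl)
      have h2 : Tendsto (fun z => vals γ (Clu_w (f z)) j * ψ z i) 𝒰 (𝓝 (vals γ w j * ψ 0 i)) :=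
        (((continuous_apply j).tendsto _).comp hvl).mul (((continuous_apply i).tendsto _).comp hψl)
      exact tendsto_nhds_unique h1 (h2.congr' (hcr.mono fun z hz => (hz i j).symm))
    obtain ⟨j, hj⟩ : ∃ j, ψ 0 j ≠ 0 := by
      by_contra hcon
      push Not at hcon
      exact hψ0 (funext hcon)
    have h1 := Clu_prop hj hcr0
    rw [hγv _ hX hγ0, Pool.Agent.H7.Bir.rmap_mk hγ hw hw1, hψ1, Projectivization.mk_eq_mk_iff']
    exact ⟨_, h1.symm⟩

theorem ext_of_finite {P : Ideal (MvPolynomial (Fin (N + 1)) ℂ)} (hP : Homog P) {s m : ℕ} {G : Fin s → MvPolynomial (Fin (N + 1)) ℂ} (hΛ : Lat Λ) {T : Set ((Cn (k + 1) ⧸ Λ) × PN m)} {S : Set (Cn (k + 1) ⧸ Λ)}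
    {u : PN N → Cn (k + 1) ⧸ Λ} {v : PN N → PN m} (h : IsFiniteOver P G Λ T S u v)
    {f : ℂ → PN N} (hf : HolomorphicInto f puncturedDisc) (hfU : ∀ z ∈ puncturedDisc, f z ∈ projVar P) {t' : ℂ → Cn (k + 1) ⧸ Λ} {g' : ℂ → PN m} (ht : HolomorphicIntoTorus Λ t' (ball 0 1))
    (hg : HolomorphicInto g' (ball 0 1)) (htf : ∀ z ∈ puncturedDisc, t' z = u (f z)) (hgf : ∀ z ∈ puncturedDisc, g' z = v (f z)) :
    ∃ f' : ℂ → PN N, HolomorphicInto f' (ball 0 1) ∧ ∀ z ∈ puncturedDisc, f' z = f z := by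
  classical
  have hsph : ∀ 𝒰 : Ultrafilter ℂ, ∃ w : Fin (N + 1) → ℂ, ‖w‖ = 1 ∧ Tendsto (fun z => Clu_w (f z)) 𝒰 (𝓝 w) := by
    intro 𝒰
    have h1 := (isCompact_sphere (0 : Fin (N + 1) → ℂ) 1).ultrafilter_le_nhds (𝒰.map fun z => Clu_w (f z)) (by
      rw [le_principal_iff]
      refine Filter.mem_map.2 (Filter.Eventually.of_forall fun z => ?_)
      show Clu_w (f z) ∈ sphere (0 : Fin (N + 1) → ℂ) 1
      rw [mem_sphere_zero_iff_norm]
      exact Clu_w_norm _)
    obtain ⟨w, hw, hlim⟩ := h1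
    exact ⟨w, mem_sphere_zero_iff_norm.1 hw, hlim⟩
  have hne : ∀ w : Fin (N + 1) → ℂ, ‖w‖ = 1 → w ≠ 0 := by
    rintro w hw rfl
    rw [norm_zero] at hw
    exact zero_ne_one hw
  -- a first limit point
  set 𝒰₀ : Ultrafilter ℂ := Ultrafilter.of (𝓝[≠] (0 : ℂ)) with h𝒰₀
  have hle₀ : (𝒰₀ : Filter ℂ) ≤ 𝓝[≠] 0 := Ultrafilter.of_le _
  obtain ⟨a, ha1, halim⟩ := hsph 𝒰₀
  have ha : a ≠ 0 := hne a ha1
  obtain ⟨haX, hau, hav⟩ := Clu_point hΛ h hfU ht hg htf hgf 𝒰₀ hle₀ ha halim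
  have hfin := h.finite _ haX
  rw [hau, hav] at hfin
  obtain ⟨j, hj⟩ : ∃ j, a j ≠ 0 := by
    by_contra hcon
    push Not at hcon
    exact ha (funext hcon)
  -- the function `cr a`
  have hcont : ContinuousOn (fun z => Clu_cr a (Clu_w (f z))) puncturedDisc := by
    intro z₀ hz₀
    obtain ⟨φ, hφ, hφf⟩ := hf z₀ hz₀
    have h1 : φ z₀ ≠ 0 := hφf.self_of_nhds.1
    have h2 : ContinuousAt (fun z => ‖φ z‖⁻¹ * Clu_cr a (φ z)) z₀ :=
      (hφ.continuousAt.norm.inv₀ (norm_ne_zero_iff.2 h1)).mul ((Clu_cr_cont a).continuousAt.comp hφ.continuousAt)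
    refine (h2.congr ?_).continuousWithinAt
    filter_upwards [hφf] with z hz
    exact (Clu_cr_w a hz.1 hz.2).symm
  have hall : ∀ 𝒰 : Ultrafilter ℂ, (𝒰 : Filter ℂ) ≤ 𝓝[≠] 0 → ∃ t ∈ (fun x : PN N => Clu_cr a (Clu_w x)) '' {x' | x' ∈ projVar P ∧ u x' = t' 0 ∧ v x' = g' 0}, Tendsto (fun z => Clu_cr a (Clu_w (f z))) 𝒰 (𝓝 t) := by
    intro 𝒰 h𝒰
    obtain ⟨w, hw1, hlim⟩ := hsph 𝒰
    refine ⟨_, ⟨Projectivization.mk ℂ w (hne w hw1), Clu_point hΛ h hfU ht hg htf hgf 𝒰 h𝒰 (hne w hw1) hlim, rfl⟩, ?_⟩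
    show Tendsto _ _ (𝓝 (Clu_cr a (Clu_w (Projectivization.mk ℂ w (hne w hw1)))))
    rw [Clu_cr_w a (hne w hw1) rfl, hw1, inv_one, one_mul]
    exact ((Clu_cr_cont a).tendsto w).comp hlim
  have hlim0 : Tendsto (fun z => Clu_cr a (Clu_w (f z))) (𝓝[≠] 0) (𝓝 0) := by
    refine Clu_lim hcont (hfin.image _) hall 𝒰₀ hle₀ ?_
    have h1 := ((Clu_cr_cont a).tendsto a).comp halim
    rw [Clu_cr_self] at h1
    exact h1
  -- the coordinates in the chart
  have hch : Tendsto (fun z => (Clu_w (f z) j)⁻¹ • Clu_w (f z)) (𝓝[≠] (0 : ℂ)) (𝓝 ((a j)⁻¹ • a)) := by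
    rw [tendsto_iff_ultrafilter]
    intro 𝒰 h𝒰
    obtain ⟨w, hw1, hlim⟩ := hsph 𝒰
    have h1 : Clu_cr a w = 0 := tendsto_nhds_unique (((Clu_cr_cont a).tendsto w).comp hlim) (hlim0.mono_left h𝒰)
    have h2 := Clu_cr_zero hj h1
    have h3 : w j ≠ 0 := by
      intro h4
      rw [h4, zero_div, zero_smul] at h2
      exact hne w hw1 h2
    have h4 : (w j)⁻¹ • w = (a j)⁻¹ • a := by
      conv_lhs => rw [h2]
      rw [Pi.smul_apply, smul_eq_mul, div_mul_cancel₀ _ hj, smul_smul]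
      congr 1
      field_simp
    rw [← h4]
    exact ((((continuous_apply j).tendsto _).comp hlim).inv₀ h3).smul hlim
  have hjne : ∀ᶠ z in 𝓝[≠] (0 : ℂ), Clu_w (f z) j ≠ 0 := by
    have h1 : Tendsto (fun z => ((Clu_w (f z) j)⁻¹ • Clu_w (f z)) j) (𝓝[≠] (0 : ℂ)) (𝓝 (((a j)⁻¹ • a) j)) := ((continuous_apply j).tendsto _).comp hch
    have h2 : ((a j)⁻¹ • a) j ≠ 0 := by
      rw [Pi.smul_apply, smul_eq_mul, inv_mul_cancel₀ hj]
      exact one_ne_zero
    filter_upwards [h1.eventually_ne h2] with z hz h3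
    rw [Pi.smul_apply, h3, inv_zero, zero_smul] at hz
    exact hz rfl
  refine Pool.Agent.H62.Qe.extend_of_pow hf le_rfl (Φ := Function.update (fun z => (Clu_w (f z) j)⁻¹ • Clu_w (f z)) 0 ((a j)⁻¹ • a)) ?_ ?_ ?_
  · rw [continuousAt_update_same]
    exact hch
  · rw [Function.update_self]
    exact smul_ne_zero (inv_ne_zero hj) ha
  · rw [eventually_nhdsWithin_iff] at hjne
    filter_upwards [hjne] with z h1 h2
    have h3 : (Clu_w (f z) j)⁻¹ • Clu_w (f z) ≠ 0 := smul_ne_zero (inv_ne_zero (h1 h2)) (Clu_w_ne _)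
    have h4 : Function.update (fun z => (Clu_w (f z) j)⁻¹ • Clu_w (f z)) 0 ((a j)⁻¹ • a) z = (Clu_w (f z) j)⁻¹ • Clu_w (f z) := Function.update_of_ne h2 _ _
    refine ⟨by rw [h4]; exact h3, ?_⟩
    rw [pow_one]
    conv_lhs => rw [← Clu_mk_w (f z)]
    rw [Projectivization.mk_eq_mk_iff']
    refine ⟨Clu_w (f z) j, ?_⟩
    rw [h4, smul_smul, mul_inv_cancel₀ (h1 h2), one_smul]

end Pool.Agent.PX

end
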