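import Pool.Agent.H94.PX4.M07
import Pool.Agent.H94.PX4.M32
import Pool.Agent.H94.PX4.M44

/-! The parts of this file: LG.Rg, LG.Rp, LG.Va, G3.Defs_1, G3.PS.Jen, HE.Circ. -/

section

/-!
# LG Rg: calculus of the relation `RegAt`

`RegAt ξ a f c`: `f · B(ξ) = A(ξ)`, `A`, `B` homogeneous of the same degree, `B(a) ≠ 0`, `A(a) = c B(a)`.

* `const`, `add`, `neg`, `sub`, `mul`, `pow`, `sum`, `prod`: formal (common denominators).
* `aeval_ne_zero`: if `B(ξ) = 0` then `B ∈ Q` (`GP.zero`), so `B(a) = 0` for `Cone Q a`.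
* `unique`: `f B(ξ) = A(ξ)`, `f B'(ξ) = A'(ξ)` give `(A B' - A' B)(ξ) = 0`, homogeneous, so it is in `Q`, and `0` at `a`.
* `ne_zero`: `unique` and `const 0`.  `inv`, `div`: `A(a) ≠ 0`.
-/

set_option autoImplicit false

open MvPolynomial

noncomputable section

namespace Pool.Agent.LG

variable {K : Type} [Field K] [Algebra ℂ K] {N : ℕ} {ξ : Fin (N + 1) → K} {a : Fin (N + 1) → ℂ} {f g : K} {c e : ℂ} {Q : Ideal (MvPolynomial (Fin (N + 1)) ℂ)}

theorem RegAt.const (ξ : Fin (N + 1) → K) (a : Fin (N + 1) → ℂ) (c : ℂ) : RegAt ξ a (algebraMap ℂ K c) c := by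
  refine ⟨0, C c, 1, isHomogeneous_C _ c, isHomogeneous_one _ _, ?_, ?_, ?_⟩
  · rw [map_one]
    exact one_ne_zero
  · rw [map_one, mul_one, aeval_C]
  · rw [map_one, mul_one, eval_C]

theorem RegAt.one (ξ : Fin (N + 1) → K) (a : Fin (N + 1) → ℂ) : RegAt ξ a 1 1 := by
  have h := RegAt.const ξ a 1
  rwa [map_one] at h

theorem RegAt.zero (ξ : Fin (N + 1) → K) (a : Fin (N + 1) → ℂ) : RegAt ξ a 0 0 := by
  have h := RegAt.const ξ a 0
  rwa [map_zero] at h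

theorem RegAt.add (hf : RegAt ξ a f c) (hg : RegAt ξ a g e) : RegAt ξ a (f + g) (c + e) := by
  obtain ⟨D, A, B, hA, hB, hBa, h1, h2⟩ := hf
  obtain ⟨D', A', B', hA', hB', hBa', h1', h2'⟩ := hg
  refine ⟨D + D', A * B' + B * A', B * B', (hA.mul hB').add (hB.mul hA'), hB.mul hB', ?_, ?_, ?_⟩
  · rw [map_mul]
    exact mul_ne_zero hBa hBa'
  · rw [map_add, map_mul, map_mul, map_mul, ← h1, ← h1']
    ring
  · rw [map_add, map_mul, map_mul, map_mul, h2, h2']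
    ring

theorem RegAt.mul (hf : RegAt ξ a f c) (hg : RegAt ξ a g e) : RegAt ξ a (f * g) (c * e) := by
  obtain ⟨D, A, B, hA, hB, hBa, h1, h2⟩ := hf
  obtain ⟨D', A', B', hA', hB', hBa', h1', h2'⟩ := hg
  refine ⟨D + D', A * A', B * B', hA.mul hA', hB.mul hB', ?_, ?_, ?_⟩
  · rw [map_mul]
    exact mul_ne_zero hBa hBa'
  · rw [map_mul, map_mul, ← h1, ← h1']
    ring
  · rw [map_mul, map_mul, h2, h2']
    ring

theorem RegAt.neg (hf : RegAt ξ a f c) : RegAt ξ a (-f) (-c) := by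
  have h := (RegAt.const ξ a (-1)).mul hf
  rwa [map_neg, map_one, neg_one_mul, neg_one_mul] at h

theorem RegAt.sub (hf : RegAt ξ a f c) (hg : RegAt ξ a g e) : RegAt ξ a (f - g) (c - e) := by
  rw [sub_eq_add_neg, sub_eq_add_neg]
  exact hf.add hg.neg

theorem RegAt.sum {σ : Type} (s : Finset σ) (u : σ → K) (v : σ → ℂ) (h : ∀ i ∈ s, RegAt ξ a (u i) (v i)) : RegAt ξ a (∑ i ∈ s, u i) (∑ i ∈ s, v i) := by
  classical
  induction s using Finset.induction_on with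
  | empty =>
    rw [Finset.sum_empty, Finset.sum_empty]
    exact RegAt.zero ξ a
  | insert i s hi ih =>
    rw [Finset.sum_insert hi, Finset.sum_insert hi]
    exact (h i (Finset.mem_insert_self i s)).add (ih fun j hj => h j (Finset.mem_insert_of_mem hj))

theorem RegAt.prod {σ : Type} (s : Finset σ) (u : σ → K) (v : σ → ℂ) (h : ∀ i ∈ s, RegAt ξ a (u i) (v i)) : RegAt ξ a (∏ i ∈ s, u i) (∏ i ∈ s, v i) := by
  classical
  induction s using Finset.induction_on with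
  | empty =>
    rw [Finset.prod_empty, Finset.prod_empty]
    exact RegAt.one ξ a
  | insert i s hi ih =>
    rw [Finset.prod_insert hi, Finset.prod_insert hi]
    exact (h i (Finset.mem_insert_self i s)).mul (ih fun j hj => h j (Finset.mem_insert_of_mem hj))

theorem aeval_ne_zero (hgp : GP Q ξ) (ha : Cone Q a) {D : ℕ} {B : MvPolynomial (Fin (N + 1)) ℂ} (hB : B.IsHomogeneous D) (h : eval a B ≠ 0) : aeval ξ B ≠ 0 :=
  fun h0 => h (ha.2 B ((hgp.zero D B hB).1 h0))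

theorem RegAt.unique (hgp : GP Q ξ) (ha : Cone Q a) (h : RegAt ξ a f c) (h' : RegAt ξ a f e) : c = e := by
  obtain ⟨D, A, B, hA, hB, hBa, h1, h2⟩ := h
  obtain ⟨D', A', B', hA', hB', hBa', h1', h2'⟩ := h'
  have h3 : (A * B' - B * A').IsHomogeneous (D + D') := (hA.mul hB').sub (hB.mul hA')
  have h4 : aeval ξ (A * B' - B * A') = 0 := by
    rw [map_sub, map_mul, map_mul, ← h1, ← h1']
    ring
  have h5 := ha.2 _ ((hgp.zero _ _ h3).1 h4)
  rw [map_sub, map_mul, map_mul, h2, h2'] at h5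
  have h6 : (c - e) * (eval a B * eval a B') = 0 := by
    rw [← h5]
    ring
  exact sub_eq_zero.1 ((mul_eq_zero.1 h6).resolve_right (mul_ne_zero hBa hBa'))

theorem RegAt.ne_zero (hgp : GP Q ξ) (ha : Cone Q a) (h : RegAt ξ a f c) (hc : c ≠ 0) : f ≠ 0 := by
  intro h0
  rw [h0] at h
  exact hc (RegAt.unique hgp ha h (RegAt.zero ξ a))

theorem RegAt.inv (hgp : GP Q ξ) (ha : Cone Q a) (h : RegAt ξ a f c) (hc : c ≠ 0) : RegAt ξ a f⁻¹ c⁻¹ := by
  have hf := RegAt.ne_zero hgp ha h hc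
  obtain ⟨D, A, B, hA, hB, hBa, h1, h2⟩ := h
  refine ⟨D, B, A, hB, hA, ?_, ?_, ?_⟩
  · rw [h2]
    exact mul_ne_zero hc hBa
  · rw [← h1, ← mul_assoc, inv_mul_cancel₀ hf, one_mul]
  · rw [h2, ← mul_assoc, inv_mul_cancel₀ hc, one_mul]

theorem RegAt.div (hgp : GP Q ξ) (ha : Cone Q a) (h : RegAt ξ a f c) (h' : RegAt ξ a g e) (he : e ≠ 0) : RegAt ξ a (f / g) (c / e) := by
  rw [div_eq_mul_inv, div_eq_mul_inv]
  exact h.mul (h'.inv hgp ha he)

end Pool.Agent.LG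

end
end

section

/-!
# LG Rp: the function field and the points of the cone

* `exists_repr`: the quotients `A(ξ) / B(ξ)`, `A`, `B` homogeneous of the same degree, `B ∉ Q` (that is `B(ξ) ≠ 0`), form a subfield of `K` which contains `ℂ` and the `ξ i / ξ j`; so it is `K` (`GP.gen`).
* `exists_cone_point`: take `j` with `ξ j ≠ 0`, then `X j ∉ Q` (`GP.zero`); `B X_j ∉ Q`, and `Q` is prime: by the Nullstellensatz (`MvPolynomial.vanishingIdeal_zeroLocus_eq_radical` or `H62.FC.mem_of_vanishes`) there is a zero `a` of `Q`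
  with `B(a) a_j ≠ 0`.
* `eq_of_regAt`: if `f ≠ g`: `exists_repr` for `f - g`, `A'(ξ) ≠ 0`, so `A' ∉ Q`; take a point with `A' B' B ≠ 0`; there `f - g` has the value `0` and a nonzero value: `RegAt.unique`.
-/

set_option autoImplicit false

open MvPolynomial

noncomputable section

namespace Pool.Agent.LG

variable {K : Type} [Field K] [Algebra ℂ K] {N : ℕ} {ξ : Fin (N + 1) → K} {a : Fin (N + 1) → ℂ} {f g : K} {c e : ℂ} {Q : Ideal (MvPolynomial (Fin (N + 1)) ℂ)}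

/-- the elements of the form `A(ξ) / B(ξ)` -/
private def Rpr (Q : Ideal (MvPolynomial (Fin (N + 1)) ℂ)) (ξ : Fin (N + 1) → K) (f : K) : Prop :=
  ∃ (D : ℕ) (A B : MvPolynomial (Fin (N + 1)) ℂ), A.IsHomogeneous D ∧ B.IsHomogeneous D ∧ B ∉ Q ∧ f * aeval ξ B = aeval ξ A

private theorem rpr_const (hQ : Q.IsPrime) (c : ℂ) : Rpr Q ξ (algebraMap ℂ K c) :=
  ⟨0, C c, 1, isHomogeneous_C _ _, isHomogeneous_one _ _, fun h => hQ.ne_top ((Ideal.eq_top_iff_one Q).2 h), by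
    rw [map_one, mul_one, aeval_C]⟩

private theorem rpr_add (hQ : Q.IsPrime) (hf : Rpr Q ξ f) (hg : Rpr Q ξ g) : Rpr Q ξ (f + g) := by
  obtain ⟨D, A, B, hA, hB, hBQ, h⟩ := hf
  obtain ⟨D', A', B', hA', hB', hBQ', h'⟩ := hg
  refine ⟨D + D', A * B' + A' * B, B * B', (hA.mul hB').add ?_, hB.mul hB', fun h2 => (hQ.mem_or_mem h2).elim hBQ hBQ', ?_⟩
  · rw [add_comm D D']
    exact hA'.mul hB
  · rw [map_mul, map_add, map_mul, map_mul, ← h, ← h']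
    ring

private theorem rpr_mul (hQ : Q.IsPrime) (hf : Rpr Q ξ f) (hg : Rpr Q ξ g) : Rpr Q ξ (f * g) := by
  obtain ⟨D, A, B, hA, hB, hBQ, h⟩ := hf
  obtain ⟨D', A', B', hA', hB', hBQ', h'⟩ := hg
  refine ⟨D + D', A * A', B * B', hA.mul hA', hB.mul hB', fun h2 => (hQ.mem_or_mem h2).elim hBQ hBQ', ?_⟩
  rw [map_mul, map_mul, ← h, ← h']
  ring

private theorem rpr_inv (hQ : Q.IsPrime) (hgp : GP Q ξ) (hf : Rpr Q ξ f) : Rpr Q ξ f⁻¹ := by
  by_cases h0 : f = 0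
  · rw [h0, inv_zero, ← map_zero (algebraMap ℂ K)]
    exact rpr_const hQ 0
  obtain ⟨D, A, B, hA, hB, hBQ, h⟩ := hf
  have hB0 : aeval ξ B ≠ 0 := fun h1 => hBQ ((hgp.zero D B hB).1 h1)
  have hA0 : aeval ξ A ≠ 0 := h ▸ mul_ne_zero h0 hB0
  refine ⟨D, B, A, hB, hA, fun h1 => hA0 ((hgp.zero D A hA).2 h1), ?_⟩
  rw [← h, ← mul_assoc, inv_mul_cancel₀ h0, one_mul]

private theorem rpr_ratio (hQ : Q.IsPrime) (hgp : GP Q ξ) (i j : Fin (N + 1)) : Rpr Q ξ (ξ i / ξ j) := by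
  by_cases h0 : ξ j = 0
  · rw [h0, div_zero, ← map_zero (algebraMap ℂ K)]
    exact rpr_const hQ 0
  refine ⟨1, X i, X j, isHomogeneous_X _ _, isHomogeneous_X _ _, fun h1 => h0 ?_, ?_⟩
  · have h2 := (hgp.zero 1 (X j) (isHomogeneous_X _ _)).2 h1
    rwa [aeval_X] at h2
  · rw [aeval_X, aeval_X, div_mul_cancel₀ _ h0]

theorem exists_repr (hQ : Q.IsPrime) (hgp : GP Q ξ) (f : K) :
    ∃ (D : ℕ) (A B : MvPolynomial (Fin (N + 1)) ℂ), A.IsHomogeneous D ∧ B.IsHomogeneous D ∧ B ∉ Q ∧ f * aeval ξ B = aeval ξ A := by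
  let F : IntermediateField ℂ K :=
    { carrier := {f | Rpr Q ξ f}
      mul_mem' := fun h h' => rpr_mul hQ h h'
      add_mem' := fun h h' => rpr_add hQ h h'
      algebraMap_mem' := rpr_const hQ
      inv_mem' := fun f h => rpr_inv hQ hgp h }
  have h1 : IntermediateField.adjoin ℂ {y | ∃ i j, y = ξ i / ξ j} ≤ F := by
    rw [IntermediateField.adjoin_le_iff]
    rintro y ⟨i, j, rfl⟩
    exact rpr_ratio hQ hgp i j
  rw [hgp.gen] at h1
  exact h1 (IntermediateField.mem_top (x := f))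

theorem exists_cone_point (hQ : Q.IsPrime) (hgp : GP Q ξ) {D : ℕ} {B : MvPolynomial (Fin (N + 1)) ℂ} (hB : B.IsHomogeneous D) (h : B ∉ Q) : ∃ a, Cone Q a ∧ eval a B ≠ 0 := by
  obtain ⟨j, hj⟩ : ∃ j, ξ j ≠ 0 := by
    by_contra h1
    push Not at h1
    exact hgp.ne (funext h1)
  have hX : (X j : MvPolynomial (Fin (N + 1)) ℂ) ∉ Q := fun h1 => hj (by
    have h2 := (hgp.zero 1 (X j) (isHomogeneous_X _ _)).2 h1
    rwa [aeval_X] at h2)
  have hBX : B * X j ∉ Q := fun h1 => (hQ.mem_or_mem h1).elim h hX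
  rw [← (hQ.radical), ← vanishingIdeal_zeroLocus_eq_radical (K := ℂ) Q, mem_vanishingIdeal_iff] at hBX
  push Not at hBX
  obtain ⟨a, ha, hne⟩ := hBX
  rw [mem_zeroLocus_iff] at ha
  have h3 : eval a B * a j ≠ 0 := by
    intro h4
    apply hne
    simpa using h4
  refine ⟨a, ⟨fun h4 => ?_, fun F hF => ?_⟩, left_ne_zero_of_mul h3⟩
  · rw [h4] at h3
    exact h3 (mul_zero _)
  · simpa using ha F hF

theorem eq_of_regAt (hQ : Q.IsPrime) (hgp : GP Q ξ) {D : ℕ} {B : MvPolynomial (Fin (N + 1)) ℂ} (hB : B.IsHomogeneous D) (hBQ : B ∉ Q) (h : ∀ a, Cone Q a → eval a B ≠ 0 → ∃ c, RegAt ξ a f c ∧ RegAt ξ a g c) : f = g := by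
  by_contra hfg
  have h0 : f - g ≠ 0 := sub_ne_zero.2 hfg
  obtain ⟨D', A', B', hA', hB', hBQ', h1⟩ := exists_repr hQ hgp (f - g)
  have hB0 : aeval ξ B' ≠ 0 := fun h2 => hBQ' ((hgp.zero D' B' hB').1 h2)
  have hA0 : aeval ξ A' ≠ 0 := h1 ▸ mul_ne_zero h0 hB0
  have hAQ : A' ∉ Q := fun h2 => hA0 ((hgp.zero D' A' hA').2 h2)
  have hP : A' * B' * B ∉ Q := fun h2 => (hQ.mem_or_mem h2).elim
    (fun h3 => (hQ.mem_or_mem h3).elim hAQ hBQ') hBQ
  obtain ⟨a, ha, hne⟩ := exists_cone_point hQ hgp ((hA'.mul hB').mul hB) hP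
  rw [map_mul, map_mul] at hne
  have hBa := right_ne_zero_of_mul hne
  have hAa := left_ne_zero_of_mul (left_ne_zero_of_mul hne)
  have hB'a := right_ne_zero_of_mul (left_ne_zero_of_mul hne)
  obtain ⟨c, hf, hg⟩ := h a ha hBa
  have h2 : RegAt ξ a (f - g) (c - c) := hf.sub hg
  have h3 : RegAt ξ a (f - g) (eval a A' / eval a B') :=
    ⟨D', A', B', hA', hB', hB'a, h1, (div_mul_cancel₀ _ hB'a).symm⟩
  have h4 := RegAt.unique hgp ha h2 h3
  rw [sub_self] at h4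
  exact (div_ne_zero hAa hB'a) h4.symm

end Pool.Agent.LG

end
end

section

/-!
# LG Va: the rational functions on the variety given by quotients of theta functions

* `nz_of_type`: `RegL` for `g = h` gives a form `B`, `B(a) ≠ 0`, so `B ∉ Q`, with `h ≠ 0` over `B ≠ 0`.
* `NZ.mul`, `NZ.prod`: the product of the forms (`Q` is prime).  `NZ.exists_point`: `exists_cone_point` and `Lft.ex`.
* `exists_val`: `RegL` at `(a, y)` gives `A`, `B`; `f = A(ξ) / B(ξ)`.  For another `(a₁, y₁)` with `h y₁ ≠ 0` `RegL` gives `A₁`, `B₁`; at all points `a'` of the cone with `B B₁ ≠ 0` (`Lft.ex` gives `y'`): `A / B = g(y') / h(y') = A₁ / B₁`, so `A B₁ - A₁ B ∈ Q`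
  (Nullstellensatz, or `eq_of_regAt` for `A(ξ) / B(ξ)`, `A₁(ξ) / B₁(ξ)`), and `f B₁(ξ) = A₁(ξ)`.
* `IsVal.eq_of_eq`: `eq_of_regAt` on the open set where both denominators are not `0`.
* `IsVal.div_eq`: `exists_val` for `Θ / Θc` (there is a point with `Θc ≠ 0`, by `hc`), and `eq_of_regAt`.
-/

set_option autoImplicit false

open MvPolynomial
open Pool.Agent.PXF (Cn form IsThetaForm)

noncomputable section

namespace Pool.Agent.LG

variable {K : Type} [Field K] [Algebra ℂ K] {N κ d : ℕ} {ξ : Fin (N + 1) → K} {Q : Ideal (MvPolynomial (Fin (N + 1)) ℂ)} {Λ : AddSubgroup (Cn (κ + 1))} {θ : Fin (d + 1) → Cn (κ + 1) → ℂ}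
  {L : (Fin (N + 1) → ℂ) → Cn (κ + 1) → Prop} {m m' : ℕ} {f f' : K} {g h g' h' : Cn (κ + 1) → ℂ}

theorem nz_of_type (hreg : RegL Q Λ θ L) (hh : IsType Λ θ m h) {a : Fin (N + 1) → ℂ} {y : Cn (κ + 1)} (ha : Cone Q a) (hy : L a y) (h0 : h y ≠ 0) : NZ Q L h := by
  obtain ⟨D, A, B, -, hB, hBa, h1⟩ := hreg m h h hh hh a y ha hy h0
  exact ⟨D, B, hB, fun hBQ => hBa (ha.2 B hBQ), fun a' y' ha' hy' hne => (h1 a' y' ha' hy' hne).1⟩

theorem NZ.one (hQ : Q.IsPrime) : NZ Q L (fun _ => 1) := by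
  exact ⟨0, 1, isHomogeneous_one _ _, fun h1 => hQ.ne_top ((Ideal.eq_top_iff_one Q).2 h1), fun _ _ _ _ _ => one_ne_zero⟩

theorem NZ.mul (hQ : Q.IsPrime) (h1 : NZ Q L h) (h2 : NZ Q L h') : NZ Q L (fun y => h y * h' y) := by
  obtain ⟨D, B, hB, hBQ, h1⟩ := h1
  obtain ⟨D', B', hB', hBQ', h2⟩ := h2
  refine ⟨D + D', B * B', hB.mul hB', fun hm => ?_, fun a y ha hy hne => ?_⟩
  · rcases hQ.mem_or_mem hm with hm | hm
    · exact hBQ hm
    · exact hBQ' hm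
  · rw [map_mul] at hne
    exact mul_ne_zero (h1 a y ha hy (left_ne_zero_of_mul hne)) (h2 a y ha hy (right_ne_zero_of_mul hne))

theorem NZ.mono (h1 : NZ Q L h) (h2 : ∀ y, h y ≠ 0 → h' y ≠ 0) : NZ Q L h' := by
  obtain ⟨D, B, hB, hBQ, h1⟩ := h1
  exact ⟨D, B, hB, hBQ, fun a y ha hy hne => h2 y (h1 a y ha hy hne)⟩

theorem NZ.exists_point (hQ : Q.IsPrime) (hgp : GP Q ξ) (hL : Lft Q Λ L) (h1 : NZ Q L h) : ∃ a y, Cone Q a ∧ L a y ∧ h y ≠ 0 := by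
  obtain ⟨D, B, hB, hBQ, h1⟩ := h1
  obtain ⟨a, ha, hne⟩ := exists_cone_point hQ hgp hB hBQ
  obtain ⟨y, hy⟩ := hL.ex a ha
  exact ⟨a, y, ha, hy, h1 a y ha hy hne⟩

theorem exists_val (hQ : Q.IsPrime) (hgp : GP Q ξ) (hL : Lft Q Λ L) (hreg : RegL Q Λ θ L) (hg : IsType Λ θ m g) (hh : IsType Λ θ m h) (hz : NZ Q L h) : ∃ f, IsVal Q ξ L f g h := by
  obtain ⟨a, y, ha, hy, h0⟩ := hz.exists_point hQ hgp hL
  obtain ⟨D, A, B, hA, hB, hBa, h1⟩ := hreg m g h hg hh a y ha hy h0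
  have hB0 : aeval ξ B ≠ 0 := aeval_ne_zero hgp ha hB hBa
  refine ⟨aeval ξ A / aeval ξ B, fun a₁ y₁ ha₁ hy₁ h₁ => ?_⟩
  obtain ⟨D₁, A₁, B₁, hA₁, hB₁, hBa₁, h2⟩ := hreg m g h hg hh a₁ y₁ ha₁ hy₁ h₁
  have hB0₁ : aeval ξ B₁ ≠ 0 := aeval_ne_zero hgp ha₁ hB₁ hBa₁
  have key : aeval ξ A / aeval ξ B = aeval ξ A₁ / aeval ξ B₁ := by
    refine eq_of_regAt hQ hgp (hB.mul hB₁) (fun hm => ?_) fun a' ha' hne => ?_
    · rcases hQ.mem_or_mem hm with hm | hm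
      · exact hBa (ha.2 B hm)
      · exact hBa₁ (ha₁.2 B₁ hm)
    · rw [map_mul] at hne
      have hne1 := left_ne_zero_of_mul hne
      have hne2 := right_ne_zero_of_mul hne
      obtain ⟨y', hy'⟩ := hL.ex a' ha'
      obtain ⟨h3, h4⟩ := h1 a' y' ha' hy' hne1
      obtain ⟨-, h5⟩ := h2 a' y' ha' hy' hne2
      refine ⟨g y' / h y', ⟨D, A, B, hA, hB, hne1, div_mul_cancel₀ _ hB0, ?_⟩, ⟨D₁, A₁, B₁, hA₁, hB₁, hne2, div_mul_cancel₀ _ hB0₁, ?_⟩⟩
      · field_simp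
        linear_combination -h4
      · field_simp
        linear_combination -h5
  obtain ⟨-, h6⟩ := h2 a₁ y₁ ha₁ hy₁ hBa₁
  refine ⟨D₁, A₁, B₁, hA₁, hB₁, hBa₁, ?_, ?_⟩
  · rw [key, div_mul_cancel₀ _ hB0₁]
  · field_simp
    linear_combination -h6

theorem IsVal.eq_of_eq (hQ : Q.IsPrime) (hgp : GP Q ξ) (hL : Lft Q Λ L) (hz : NZ Q L h) (hz' : NZ Q L h') (hf : IsVal Q ξ L f g h) (hf' : IsVal Q ξ L f' g' h') (he : ∀ y, h y ≠ 0 → h' y ≠ 0 → g y * h' y = g' y * h y) : f = f' := by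
  obtain ⟨D, B, hB, hBQ, h1⟩ := hz
  obtain ⟨D', B', hB', hBQ', h2⟩ := hz'
  refine eq_of_regAt hQ hgp (hB.mul hB') (fun hm => ?_) fun a ha hne => ?_
  · rcases hQ.mem_or_mem hm with hm | hm
    · exact hBQ hm
    · exact hBQ' hm
  · rw [map_mul] at hne
    obtain ⟨y, hy⟩ := hL.ex a ha
    have h3 := h1 a y ha hy (left_ne_zero_of_mul hne)
    have h4 := h2 a y ha hy (right_ne_zero_of_mul hne)
    refine ⟨g y / h y, hf a y ha hy h3, ?_⟩
    have h5 : g y / h y = g' y / h' y := by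
      rw [div_eq_div_iff h3 h4]
      exact he y h3 h4
    rw [h5]
    exact hf' a y ha hy h4

theorem IsVal.mul (hf : IsVal Q ξ L f g h) (hf' : IsVal Q ξ L f' g' h') : IsVal Q ξ L (f * f') (fun y => g y * g' y) (fun y => h y * h' y) := by
  intro a y ha hy hne
  have h1 := (hf a y ha hy (left_ne_zero_of_mul hne)).mul (hf' a y ha hy (right_ne_zero_of_mul hne))
  rwa [div_mul_div_comm] at h1

theorem IsVal.one : IsVal Q ξ L 1 h h := by
  intro a y _ _ hne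
  rw [div_self hne]
  exact RegAt.one ξ a

/-- `IsVal` at the points where the value is not `0`: `f ≠ 0` -/
theorem IsVal.ne_zero (hQ : Q.IsPrime) (hgp : GP Q ξ) (hL : Lft Q Λ L) (hf : IsVal Q ξ L f g h) (hg : NZ Q L g) (hz : NZ Q L h) : f ≠ 0 := by
  obtain ⟨a, y, ha, hy, hne⟩ := (NZ.mul hQ hg hz).exists_point hQ hgp hL
  exact (hf a y ha hy (right_ne_zero_of_mul hne)).ne_zero hgp ha (div_ne_zero (left_ne_zero_of_mul hne) (right_ne_zero_of_mul hne))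

theorem IsVal.div_eq (hQ : Q.IsPrime) (hgp : GP Q ξ) (hL : Lft Q Λ L) (hreg : RegL Q Λ θ L) {Θ Θc Θ₀ : Cn (κ + 1) → ℂ} (h1 : IsType Λ θ m Θ) (h2 : IsType Λ θ m Θc) (hz : NZ Q L Θ₀) (hc : NZ Q L Θc) {x xc : K}
    (hx : IsVal Q ξ L x Θ Θ₀) (hxc : IsVal Q ξ L xc Θc Θ₀) : IsVal Q ξ L (x / xc) Θ Θc := by
  obtain ⟨f, hf⟩ := exists_val hQ hgp hL hreg h1 h2 hc
  have key : f = x / xc := by
    obtain ⟨D, B, hB, hBQ, h3⟩ := NZ.mul hQ hz hc
    refine eq_of_regAt hQ hgp hB hBQ fun a ha hne => ?_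
    obtain ⟨y, hy⟩ := hL.ex a ha
    have h4 := h3 a y ha hy hne
    have h5 : Θ₀ y ≠ 0 := left_ne_zero_of_mul h4
    have h6 : Θc y ≠ 0 := right_ne_zero_of_mul h4
    refine ⟨Θ y / Θc y, hf a y ha hy h6, ?_⟩
    have h7 := RegAt.div hgp ha (hx a y ha hy h5) (hxc a y ha hy h5) (div_ne_zero h6 h5)
    rwa [div_div_div_cancel_right₀ h5] at h7
  rw [← key]
  exact hf

end Pool.Agent.LG

end
end

section

/-!
# G3 Defs: curves over arcs, symmetric differentials, the functional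

`X` is the cone (without `0`) over a projective manifold, `u` a holomorphic map to `ℂ^(k+1) / Λ` (conventions of `TG.Defs`).

* `Cv X Λ u U F h`: `F` is a holomorphic curve in `X` over the set `U` (used for open sets), `h` a lift of `u ∘ F`.
* `SForm X Λ u m`: symmetric differentials of degree `m` on `{(x, y) : u x = y mod Λ}` with values in `O(-1)`.
* `PData`: finitely many symmetric differentials without common zeros outside `D`, quasi-periodic with respect to the weight `wt W y = ∑ |W i y|²`.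
* `PS`: the properties of the real valued function `p (x, v) = max_j |P_j (x, v)|` (metrics of `O(-1)` and of the weight) which are used in the sequel.
* `QD`: the form `Q`, of degree `d`, `|Q x| ≤ |x|^d` on `X`; `Lq Q d x = - log (|Q x| / |x|^d) ≥ 0`.
* `Np = max (0, log (|h'|^m / p (F, F')))`, `Lam = Lq + K Np`, `Mf = max (|h'|, ε p (F, F')^(1/m))`.  (If `h' = 0` then `Np = 0`.  These definitions are used only at
  points where `Ok` holds: `Q (F z) ≠ 0` and `0 < p (F z) (F' z)`.)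
-/

set_option autoImplicit false

open Topology Filter Metric

namespace Pool.Agent.G3

open Pool.Agent.H36.BP (EN fs wd)
open Pool.Agent.H14.PP (IsCone CurveAt Tan)
open Pool.Agent.H62.EF (MN pr)
open Pool.Agent.AD (Vd)
open Pool.Agent.TG (TMap Lat Geo Gd)

variable {N k : ℕ}

/-- `F` is a holomorphic curve in `X` over `U`, and `h` is a lift of `u ∘ F` -/
structure Cv (X : Set (EN N)) (Λ : AddSubgroup (Vd (k + 1))) (u : EN N → Vd (k + 1)) (U : Set ℂ) (F : ℂ → EN N) (h : ℂ → Vd (k + 1)) : Prop where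
  F_diff : DifferentiableOn ℂ F U
  h_diff : DifferentiableOn ℂ h U
  mem : ∀ z ∈ U, F z ∈ X
  lift : ∀ z ∈ U, u (F z) - h z ∈ Λ

/-- A symmetric differential of degree `m` on `{(x, y) : u x = y mod Λ}` with values in `O(-1)`: a function of `y`, a point `x` and a tangent vector `v`. -/
structure SForm (X : Set (EN N)) (Λ : AddSubgroup (Vd (k + 1))) (u : EN N → Vd (k + 1)) (m : ℕ) where
  /-- the form -/
  toFun : Vd (k + 1) → EN N → EN N → ℂ
  add_smul : ∀ y, ∀ x ∈ X, u x - y ∈ Λ → ∀ v, Tan X x v → ∀ a : ℂ, toFun y x (v + a • x) = toFun y x v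
  hom : ∀ y, ∀ x ∈ X, u x - y ∈ Λ → ∀ v, Tan X x v → ∀ a : ℂ, toFun y x (a • v) = a ^ m * toFun y x v
  scale : ∀ y, ∀ x ∈ X, u x - y ∈ Λ → ∀ v, Tan X x v → ∀ c : ℂ, c ≠ 0 → c * toFun y (c • x) (c • v) = toFun y x v
  analytic : ∀ (r : ℕ) (φ : Vd r → EN N) (υ : Vd r → Vd (k + 1)) (p w : Vd r), AnalyticAt ℂ φ p → AnalyticAt ℂ υ p →
    (∀ᶠ q in 𝓝 p, φ q ∈ X ∧ u (φ q) - υ q ∈ Λ) →
    AnalyticAt ℂ (fun q : Vd r × Vd r => toFun (υ q.1) (φ q.1) (fderiv ℂ φ q.1 q.2)) (p, w)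

/-- the value of `p` on the curve `F` -/
noncomputable def pf (p : EN N → EN N → ℝ) (F : ℂ → EN N) (z : ℂ) : ℝ := p (F z) (deriv F z)

/-- `circleAverage (log |F|) z r - log |F z|` -/
noncomputable def TT (F : ℂ → EN N) (z : ℂ) (r : ℝ) : ℝ := Real.circleAverage (fun w => Real.log ‖F w‖) z r - Real.log ‖F z‖

/-- the properties of the function `p` -/
structure PS (X : Set (EN N)) (Λ : AddSubgroup (Vd (k + 1))) (u : EN N → Vd (k + 1)) (D : Set (Vd (k + 1))) (p : EN N → EN N → ℝ) (m : ℕ) (C : ℝ) :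
    Prop where
  m_pos : 1 ≤ m
  C_ge : 1 ≤ C
  nonneg : ∀ x v, 0 ≤ p x v
  hom : ∀ x ∈ X, ∀ v, Tan X x v → ∀ a : ℂ, p x (a • v) = ‖a‖ ^ m * p x v
  le_fs : ∀ x ∈ X, ∀ v, Tan X x v → p x v ≤ C * fs x v ^ m
  ge_fs : ∀ δ : ℝ, 0 < δ → ∃ c : ℝ, 0 < c ∧ ∀ y ∈ Gd D δ, ∀ x ∈ X, u x - y ∈ Λ → ∀ v, Tan X x v → c * fs x v ^ m ≤ p x v
  /-- the derivative of `u` is bounded -/
  du : ∀ (U : Set ℂ) (F : ℂ → EN N) (h : ℂ → Vd (k + 1)), IsOpen U → Cv X Λ u U F h → ∀ z ∈ U, ‖deriv h z‖ ≤ C * fs (F z) (deriv F z)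
  cont : ∀ (U : Set ℂ) (F : ℂ → EN N) (h : ℂ → Vd (k + 1)), IsOpen U → Cv X Λ u U F h → ContinuousOn (pf p F) U
  /-- Jensen's inequality -/
  jensen : ∀ (U : Set ℂ) (F : ℂ → EN N) (h : ℂ → Vd (k + 1)), IsOpen U → Cv X Λ u U F h → ∀ (z : ℂ) (r : ℝ), 0 < r → closedBall z r ⊆ U →
    0 < pf p F z → CircleIntegrable (fun w => Real.log (pf p F w)) z r ∧
    Real.log (pf p F z) + TT F z r ≤ Real.circleAverage (fun w => Real.log (pf p F w)) z r + C * Real.circleAverage (fun w => ‖h w - h z‖ ^ 2) z r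
  /-- the zeros of `p` on a curve are isolated, or `p` is `0` -/
  isol : ∀ (U : Set ℂ) (F : ℂ → EN N) (h : ℂ → Vd (k + 1)), IsOpen U → Cv X Λ u U F h → IsPreconnected U → (∃ z ∈ U, 0 < pf p F z) →
    ∀ z ∈ U, ∀ᶠ w in 𝓝[≠] z, 0 < pf p F w

/-- the form `Q` of degree `d`, `|Q x| ≤ |x|^d` on `X`; it is `0` on the fibres over `D` -/
structure QD (X : Set (EN N)) (Λ : AddSubgroup (Vd (k + 1))) (u : EN N → Vd (k + 1)) (D : Set (Vd (k + 1))) (Q : EN N → ℂ) (d : ℕ) : Prop where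
  d_pos : 1 ≤ d
  diff : Differentiable ℂ Q
  hom : ∀ (c : ℂ) (x : EN N), Q (c • x) = c ^ d * Q x
  bound : ∀ x ∈ X, ‖Q x‖ ≤ ‖x‖ ^ d
  zero : ∀ x ∈ X, ∀ y ∈ D, u x - y ∈ Λ → Q x = 0

end Pool.Agent.G3

end

section

/-!
# G3 PS Jen: Jensen's inequality for `pP`

On the closed disc: `log pP = log (sup_j ‖a_j‖) + log ‖F‖ - wt W (h)`.  Let `j` attain the supremum at the centre `z`, `a = aP .. j`, `a z ≠ 0`.
`log ‖a z‖ ≤ circleAverage (log ‖a‖) z r` (`AnalyticOnNhd.circleAverage_log_norm`, see `log_norm_le_avg` in `G3/C/LemmaU.lean` on main, or `MeromorphicOn.circleAverage_log_norm`);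
`log ‖a‖ ≤ log (sup_j ‖a_j‖)` off the zeros of `a` (finitely many on the circle: use the a.e. version of the monotonicity of the integral).
Circle integrability of `log (sup_j ‖a_j‖)`: it is measurable, bounded above (continuous functions on the compact circle) and `≥ log ‖a‖`, which is circle integrable
(`circleIntegrable_log_norm_meromorphicOn`).  `log ‖F‖` and `wt W ∘ h` are continuous on the disc.
`circleAverage (wt W ∘ h) z r - wt W (h z) = circleAverage (wt W (h - h z)) z r ≤ (∑ ‖W i‖^2) circleAverage ‖h - h z‖^2` (`|ℓ h|^2 = |ℓ h z|^2 + 2 Re (conj (ℓ h z) (ℓ h - ℓ h z)) + |ℓ (h - h z)|^2`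
and the mean value property of the holomorphic function `ℓ ∘ h`).
-/

set_option autoImplicit false

open Topology Filter Metric

namespace Pool.Agent.G3

open Pool.Agent.H36.BP (EN fs wd Sub)
open Pool.Agent.H14.PP (IsCone CurveAt Tan)
open Pool.Agent.H62.EF (MN pr)
open Pool.Agent.AD (Vd Chart Charts)
open Pool.Agent.TG (TMap Lat Geo Gd)

variable {N k : ℕ} {X : Set (EN N)} {Λ : AddSubgroup (Vd (k + 1))} {u : EN N → Vd (k + 1)} {D : Set (Vd (k + 1))} {m J r : ℕ}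
  {W : Fin r → Vd (k + 1) →L[ℂ] ℂ}

end Pool.Agent.G3

end

section

/-!
# HE Circ: circles over `Gd D δ`

Copy of `PX/Circ`.
-/

set_option autoImplicit false

open Topology Filter Metric

namespace Pool.Agent.HE

open Pool.Agent.H36.BP (EN fs wd)
open Pool.Agent.H62.EF (MN pr)
open Pool.Agent.AD (Vd)
open Pool.Agent.TG (Lat Gd)
open Pool.Agent.G3 (wt LLift)

variable {N k q r : ℕ} {Λ : AddSubgroup (Vd (k + 1))} {D : Set (Vd (k + 1))} {X : Set (Vd (k + 1) × EN N)} {F : Fin q → Vd (k + 1) × EN N → ℂ} {d : Fin q → ℕ}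
  {W : Fin q → Fin r → Vd (k + 1) →L[ℂ] ℂ}

private theorem Circ_iso {a : Vd (k + 1)} (hi : ∀ y : Vd (k + 1), ∀ᶠ z in 𝓝[≠] (0 : ℂ), y + z • a ∉ D) (y : Vd (k + 1)) (z₀ : ℂ) :
    ∃ ε : ℝ, 0 < ε ∧ ∀ z : ℂ, z ≠ z₀ → ‖z - z₀‖ < ε → y + z • a ∉ D := by
  have h1 := hi (y + z₀ • a)
  rw [eventually_nhdsWithin_iff, Metric.eventually_nhds_iff] at h1
  obtain ⟨ε, hε, h2⟩ := h1
  refine ⟨ε, hε, fun z hz hlt => ?_⟩
  have h3 := h2 (y := z - z₀) (by rw [dist_zero_right]; exact hlt) (by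
    simp only [Set.mem_compl_iff, Set.mem_singleton_iff]
    exact sub_ne_zero.2 hz)
  have e : y + z₀ • a + (z - z₀) • a = y + z • a := by rw [sub_smul]; abel
  rwa [e] at h3

private theorem Circ_countable {a : Vd (k + 1)} (hi : ∀ y : Vd (k + 1), ∀ᶠ z in 𝓝[≠] (0 : ℂ), y + z • a ∉ D) (y : Vd (k + 1)) :
    {z : ℂ | y + z • a ∈ D}.Countable := by
  set S : Set ℂ := {z : ℂ | y + z • a ∈ D} with hS
  have hd : DiscreteTopology S := by
    rw [discreteTopology_subtype_iff]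
    intro z hz
    obtain ⟨ε, hε, h⟩ := Circ_iso hi y z
    rw [← disjoint_iff, Filter.disjoint_principal_right, mem_nhdsWithin]
    refine ⟨ball z ε, isOpen_ball, mem_ball_self hε, ?_⟩
    rintro w ⟨hw1, hw2⟩ hwS
    exact h w hw2 (by rw [← dist_eq_norm]; exact hw1) hwS
  have : Countable S := by
    have := hd
    exact countable_of_Lindelof_of_discrete
  exact this

private theorem Circ_dist {a : Vd (k + 1)} (hD : IsClosed D) {K : Set ℂ} (hK : IsCompact K) (y : Vd (k + 1)) (h : ∀ z ∈ K, y + z • a ∉ D) :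
    ∃ c : ℝ, 0 < c ∧ ∀ z ∈ K, y + z • a ∈ Gd D c := by
  have hc : IsCompact ((fun z : ℂ => y + z • a) '' K) := hK.image (by fun_prop)
  have hdis : Disjoint ((fun z : ℂ => y + z • a) '' K) D := by
    rw [Set.disjoint_left]
    rintro _ ⟨z, hz, rfl⟩
    exact h z hz
  obtain ⟨c, hc0, hd2⟩ := hdis.exists_thickenings hc hD
  refine ⟨c, hc0, fun z hz b hb => ?_⟩
  by_contra hlt
  push Not at hlt
  refine (Set.disjoint_left.1 hd2) (a := b) ?_ ?_
  · rw [mem_thickening_iff]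
    exact ⟨y + z • a, ⟨z, hz, rfl⟩, by rw [dist_comm, dist_eq_norm]; exact hlt⟩
  · rw [mem_thickening_iff]
    exact ⟨b, hb, by rw [dist_self]; exact hc0⟩

private theorem Circ_circle {a : Vd (k + 1)} (hD : IsClosed D) (hi : ∀ y : Vd (k + 1), ∀ᶠ z in 𝓝[≠] (0 : ℂ), y + z • a ∉ D) (y : Vd (k + 1)) {r₁ r₂ : ℝ} (h12 : r₁ < r₂) :
    ∃ s : ℝ, r₁ < s ∧ s < r₂ ∧ ∃ c : ℝ, 0 < c ∧ ∀ z : ℂ, ‖z‖ = s → y + z • a ∈ Gd D c := by
  have h1 : ((fun z : ℂ => ‖z‖) '' {z : ℂ | y + z • a ∈ D}).Countable := (Circ_countable hi y).image _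
  have h2 : ¬ (Set.Ioo r₁ r₂).Countable := by
    intro h
    have h3 : Set.Ioo r₁ r₂ = ∅ ∨ r₂ ≤ r₁ := by
      by_contra hcon
      push Not at hcon
      have := Cardinal.mk_Ioo_real hcon.2
      have h4 := Cardinal.le_aleph0_iff_set_countable.2 h
      rw [this] at h4
      exact absurd h4 (not_le.2 Cardinal.aleph0_lt_continuum)
    rcases h3 with h3 | h3
    · exact (Set.nonempty_Ioo.2 h12).ne_empty h3
    · linarith
  have h3 : ∃ s ∈ Set.Ioo r₁ r₂, s ∉ (fun z : ℂ => ‖z‖) '' {z : ℂ | y + z • a ∈ D} := by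
    by_contra hcon
    push Not at hcon
    exact h2 (h1.mono fun s hs => hcon s hs)
  obtain ⟨s, hs, hs2⟩ := h3
  have hK : IsCompact (sphere (0 : ℂ) s) := isCompact_sphere 0 s
  obtain ⟨c, hc, hc2⟩ := Circ_dist (a := a) hD hK y (fun z hz hzD => hs2 ⟨z, hzD, by rwa [mem_sphere_zero_iff_norm] at hz⟩)
  exact ⟨s, hs.1, hs.2, c, hc, fun z hz => hc2 z (by rwa [mem_sphere_zero_iff_norm])⟩

theorem HD.circ (P : HD Λ D X F d W) {A₁ A₂ ρ : ℝ} (hA₁ : 0 < A₁) (hρ : 0 < ρ) : ∃ δ : ℝ, 0 < δ ∧ ∀ y a : Vd (k + 1), A₁ ≤ ‖a‖ → ‖a‖ ≤ A₂ →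
    ∃ s : ℝ, 0 < s ∧ s ≤ ρ ∧ ∀ z : ℂ, ‖z‖ = s → y + z • a ∈ Gd D δ := by
  obtain ⟨R, hR, hcov⟩ := P.lat.cpt
  have hcpt : IsCompact (closedBall (0 : Vd (k + 1)) R ×ˢ (closedBall (0 : Vd (k + 1)) A₂ ∩ {a : Vd (k + 1) | A₁ ≤ ‖a‖})) :=
    (isCompact_closedBall _ _).prod ((isCompact_closedBall _ _).inter_right (isClosed_le continuous_const continuous_norm))
  have h1 : ∃ δ : ℝ, 0 < δ ∧ ∀ p ∈ closedBall (0 : Vd (k + 1)) R ×ˢ (closedBall (0 : Vd (k + 1)) A₂ ∩ {a : Vd (k + 1) | A₁ ≤ ‖a‖}),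
      ∃ s : ℝ, 0 < s ∧ s ≤ ρ ∧ ∀ z : ℂ, ‖z‖ = s → p.1 + z • p.2 ∈ Gd D δ := by
    refine hcpt.induction_on (p := fun S : Set (Vd (k + 1) × Vd (k + 1)) => ∃ δ : ℝ, 0 < δ ∧ ∀ p ∈ S,
      ∃ s : ℝ, 0 < s ∧ s ≤ ρ ∧ ∀ z : ℂ, ‖z‖ = s → p.1 + z • p.2 ∈ Gd D δ) ?_ ?_ ?_ ?_
    · exact ⟨1, one_pos, fun p hp => absurd hp (Set.notMem_empty p)⟩
    · rintro S T hST ⟨δ, hδ, hQ⟩
      exact ⟨δ, hδ, fun p hp => hQ p (hST hp)⟩
    · rintro S T ⟨δ, hδ, hQ⟩ ⟨δ', hδ', hQ'⟩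
      refine ⟨min δ δ', lt_min hδ hδ', fun p hp => ?_⟩
      rcases hp with hp | hp
      · obtain ⟨s, h1, h2, h3⟩ := hQ p hp
        exact ⟨s, h1, h2, fun z hz b hb => (min_le_left _ _).trans (h3 z hz b hb)⟩
      · obtain ⟨s, h1, h2, h3⟩ := hQ' p hp
        exact ⟨s, h1, h2, fun z hz b hb => (min_le_right _ _).trans (h3 z hz b hb)⟩
    · rintro ⟨y₀, a₀⟩ ⟨_, _, ha₀⟩
      have ha0 : a₀ ≠ 0 := norm_pos_iff.1 (hA₁.trans_le ha₀)
      obtain ⟨s, h1, h2, c, hc, h3⟩ := Circ_circle (a := a₀) P.D_closed (P.iso a₀ ha0) y₀ hρ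
      have hopen : (ball y₀ (c / 4) ×ˢ ball a₀ (c / (4 * s))) ∈ 𝓝 (y₀, a₀) :=
        prod_mem_nhds (ball_mem_nhds _ (by positivity)) (ball_mem_nhds _ (by positivity))
      refine ⟨_, mem_nhdsWithin_of_mem_nhds hopen, c / 2, by linarith, ?_⟩
      rintro ⟨y, a⟩ ⟨hy, ha⟩
      refine ⟨s, h1, h2.le, fun z hz b hb => ?_⟩
      rw [mem_ball, dist_eq_norm] at hy ha
      simp only at hy ha ⊢
      have h4 := h3 z hz b hb
      have h5 : ‖y₀ + z • a₀ - b‖ ≤ ‖y + z • a - b‖ + (‖y - y₀‖ + ‖z‖ * ‖a - a₀‖) := by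
        have e : y₀ + z • a₀ - b = (y + z • a - b) - ((y - y₀) + z • (a - a₀)) := by rw [smul_sub]; abel
        rw [e]
        refine (norm_sub_le _ _).trans ?_
        gcongr
        refine (norm_add_le _ _).trans ?_
        rw [norm_smul]
      have h6 : ‖z‖ * ‖a - a₀‖ ≤ c / 4 := by
        rw [hz]
        have h7 : s * ‖a - a₀‖ ≤ s * (c / (4 * s)) := by gcongr
        have h8 : s * (c / (4 * s)) = c / 4 := by field_simp
        linarith
      linarith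
  obtain ⟨δ, hδ, hQ⟩ := h1
  refine ⟨δ, hδ, fun y a ha1 ha2 => ?_⟩
  obtain ⟨l, hl, hlR⟩ := hcov y
  obtain ⟨s, h1, h2, h3⟩ := hQ (y - l, a) ⟨by simpa using hlR, by simpa using ha2, ha1⟩
  refine ⟨s, h1, h2, fun z hz b hb => ?_⟩
  have h4 := h3 z hz _ (P.D_inv b hb (-l) (Λ.neg_mem hl))
  have e : y - l + z • a - (b + -l) = y + z • a - b := by abel
  simp only at h4
  rwa [e] at h4

end Pool.Agent.HE

end
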