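import Pool.Agent.H94.PX4.M18
import Pool.Agent.H94.PX4.M21
import Pool.Agent.H94.PX4.M46
import Pool.Agent.H94.PX4.M50
import Pool.Agent.H94.PX4.M55

/-! The parts of this file: AD.BD.Defs, AD.BD.Mat, H7.Qup.Main, LG.Sp, LT.Sm, PX.FrB, TG.GuL, TG.SaDefs, TG.FDefs_1. -/

section

/-!
# AD BD Defs: curves with bounded distortion in dimension `d`, local analysis: definitions

The family `BC X c L` (`H5.BD.BC`), `evp` and the abstract part `H5.BD.BFlow` are dimension free.
-/

set_option autoImplicit false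

open Topology Filter Metric

namespace Pool.Agent.AD.BD

open Pool.Agent.H36.BP (EN fs wd)
open Pool.Agent.H14.PP (IsCone CurveAt Tan)
open Pool.Agent.H62.EF (MN pr)
open Pool.Agent.H5.BD (BC)

variable {N d : ℕ}

/-- `x` is in the middle of the chart -/
def Good {X : Set (EN N)} (χ : Chart d X) (x : EN N) : Prop := x ∈ X ∧ x ∈ χ.U ∧ ‖χ.q x‖ ≤ 1 / 2

/-- a finite atlas with a Lebesgue number `δ`, and a bound `C` for the charts and the changes of charts -/
structure Atlas (d : ℕ) (X : Set (EN N)) where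
  n : ℕ
  χ : Fin n → Chart d X
  idx : MN N → Fin n
  δ : ℝ
  C : ℝ
  δ_pos : 0 < δ
  one_le : 1 ≤ C
  good : ∀ x ∈ X, ∀ y ∈ X, dist (pr x) (pr y) ≤ δ → Good (χ (idx (pr x))) y
  dist_le : ∀ i x y, Good (χ i) x → Good (χ i) y → dist (pr x) (pr y) ≤ C * ‖(χ i).q x - (χ i).q y‖
  le_dist : ∀ i x y, Good (χ i) x → Good (χ i) y → ‖(χ i).q x - (χ i).q y‖ ≤ C * dist (pr x) (pr y)
  fd_le : ∀ i j x, Good (χ i) x → Good (χ j) x → ‖fderiv ℂ (fun p => (χ j).q ((χ i).σ p)) ((χ i).q x)‖ ≤ C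
  fd_inv : ∀ i j x u, Good (χ i) x → Good (χ j) x →
    fderiv ℂ (fun p => (χ j).q ((χ i).σ p)) ((χ i).q x) (fderiv ℂ (fun p => (χ i).q ((χ j).σ p)) ((χ j).q x) u) = u
  trans : ∀ i j x y, Good (χ i) x → Good (χ j) x → Good (χ i) y → Good (χ j) y →
    ‖(χ j).q y - (χ j).q x - fderiv ℂ (fun p => (χ j).q ((χ i).σ p)) ((χ i).q x) ((χ i).q y - (χ i).q x)‖ ≤
      C * ‖(χ i).q y - (χ i).q x‖ ^ 2

/-- the curve `F` in the chart `i` -/
noncomputable def qc {X : Set (EN N)} (A : Atlas d X) (i : Fin A.n) (F : ℂ → EN N) (z : ℂ) : Vd d := (A.χ i).q (F z)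

/-- uniform bounds for the curves of `BC X c L` in the charts of the atlas, on discs of radius `r₀` -/
structure LC {X : Set (EN N)} (A : Atlas d X) (c L r₀ c₁ K : ℝ) : Prop where
  r₀_pos : 0 < r₀
  c₁_pos : 0 < c₁
  one_le : 1 ≤ K
  L_pos : 0 < L
  lip : ∀ F ∈ BC X c L, ∀ z w, dist (pr (F z)) (pr (F w)) ≤ 2 * L * ‖z - w‖
  good : ∀ F ∈ BC X c L, ∀ x ∈ X, ∀ w₀, dist (pr x) (pr (F w₀)) ≤ A.δ / 2 → ∀ w ∈ ball w₀ r₀, Good (A.χ (A.idx (pr x))) (F w)
  an : ∀ F ∈ BC X c L, ∀ i w, Good (A.χ i) (F w) → AnalyticAt ℂ (qc A i F) w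
  der_ge : ∀ F ∈ BC X c L, ∀ i w, Good (A.χ i) (F w) → c₁ ≤ ‖deriv (qc A i F) w‖
  der_le : ∀ F ∈ BC X c L, ∀ i w, Good (A.χ i) (F w) → ‖deriv (qc A i F) w‖ ≤ K
  der_lip : ∀ F ∈ BC X c L, ∀ i w₀, (∀ w ∈ ball w₀ r₀, Good (A.χ i) (F w)) → ∀ w ∈ ball w₀ (r₀ / 2), ∀ w' ∈ ball w₀ (r₀ / 2),
    ‖deriv (qc A i F) w - deriv (qc A i F) w'‖ ≤ K * ‖w - w'‖

end Pool.Agent.AD.BD

end

section

/-!
# BD CMat: matching of the parameters

Let `LC A c L r₀ c₁ K₀`, `C = A.C`, `δ = A.δ`.  Choose (in this order)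
`r₂ = min (r₀ / 32) (c₁ / (64 K₀))`, `r₃ = min (r₂) (c₁ r₂ / (64 K₀))` (so `4 r₃ ≤ r₀`, `2 K₀ r₃ ≤ c₁ r₂ / 32`), `ε₃ = min (δ / 2) (c₁ r₂ / (32 C))`, `K = max K₀ (2 C / c₁)`.
Let `F ∈ BC X c L`, `w₀ ∈ ℂ`, `i = A.idx (pr (F w₀))`.  By `LC.good` (`x = F w₀`) `F w` is good for `i` on `ball w₀ r₀`.  `p = qc A i F` is analytic there.  Let `e` be such that
`‖co e (p' w₀)‖ = ‖p' w₀‖ ≥ c₁` (the norm of `ℂ × ℂ` is the maximum), `u = co e ∘ p`, `u' = co e ∘ p'`; on `ball w₀ (8 r₂)`: `‖u' w - u' w₀‖ ≤ K₀ 8 r₂ ≤ c₁ / 4` (`der_lip`, `8 r₂ ≤ r₀ / 2`).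
`exists_inv` with `a = c₁`, `r = 8 r₂`: `(c₁ / 2) ‖w - w'‖ ≤ ‖u w - u w'‖ ≤ ‖p w - p w'‖` on `ball w₀ (8 r₂)`.  `exists_inv` with `r = r₂`: the inverse `ξ` on `ball (u w₀) (c₁ r₂ / 4)` with values in `ball w₀ r₂`.
`emb`: for `‖z - w‖ ≤ 4 r₂` use this with `w₀ = z`: `(c₁ / 2) ‖z - w‖ ≤ ‖p z - p w‖ ≤ C dist (pr (F z)) (pr (F w))` (`le_dist`).
`matching`: `dist (pr (G z₀)) (pr (F w₀)) ≤ ε₃ ≤ δ / 2`, so `G z` is good for `i` on `ball z₀ r₀` (`LC.good` with `x = F w₀`).  For `z ∈ ball z₀ (2 r₃)`: `‖qc A i G z - qc A i G z₀‖ ≤ K₀ 2 r₃` (mean value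
inequality, `der_le`), `‖qc A i G z₀ - p w₀‖ ≤ C ε₃` (`le_dist`), together `< c₁ r₂ / 4`.  So `ψ z = ξ (co e (qc A i G z))` is defined and holomorphic on `ball z₀ (2 r₃)`, with values in `ball w₀ r₂`, and
`u (ψ z) = co e (qc A i G z)`.
`near`: for `w ∈ closedBall w₀ (2 r₂)`: `(c₁ / 2) ‖w - ψ z‖ ≤ ‖u w - u (ψ z)‖ = ‖co e (p w - qc A i G z)‖ ≤ ‖p w - qc A i G z‖`.
`coF`: `‖u' w‖ ≥ c₁ - c₁ / 4 ≥ c₁ / 2`.
-/

set_option autoImplicit false

open Topology Filter Metric

namespace Pool.Agent.AD.BD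

open Pool.Agent.H36.BP (EN fs wd)
open Pool.Agent.H14.PP (IsCone CurveAt Tan)
open Pool.Agent.H62.EF (MN pr)
open Pool.Agent.H5.BD (BC)

variable {N d : ℕ} {X : Set (EN N)}

private def co (e : Fin d) (p : Vd d) : ℂ := p e

private noncomputable def coL (e : Fin d) : Vd d →L[ℂ] ℂ := ContinuousLinearMap.proj e

private theorem coL_apply (e : Fin d) (p : Vd d) : coL e p = co e p := rfl

private theorem norm_co_le (e : Fin d) (p : Vd d) : ‖co e p‖ ≤ ‖p‖ := norm_le_pi_norm p e

private theorem co_sub (e : Fin d) (p q : Vd d) : co e (p - q) = co e p - co e q := rfl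

private theorem exists_co (p : Vd d) (hp : 0 < ‖p‖) : ∃ e, ‖co e p‖ = ‖p‖ := by
  by_contra hcon
  push Not at hcon
  have h1 : ∀ e, ‖p e‖ < ‖p‖ := fun e => lt_of_le_of_ne (norm_le_pi_norm p e) (hcon e)
  exact lt_irrefl _ ((pi_norm_lt_iff hp).2 h1)

private theorem deriv_co (e : Fin d) {p : ℂ → Vd d} {w : ℂ} (hp : DifferentiableAt ℂ p w) :
    deriv (fun w => co e (p w)) w = co e (deriv p w) := by
  have h1 : HasDerivAt (fun w => coL e (p w)) (coL e (deriv p w)) w :=
    (coL e).hasFDerivAt.comp_hasDerivAt w hp.hasDerivAt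
  simp only [coL_apply] at h1
  exact h1.deriv

private theorem differentiableAt_co (e : Fin d) {p : ℂ → Vd d} {w : ℂ}
    (hp : DifferentiableAt ℂ p w) : DifferentiableAt ℂ (fun w => co e (p w)) w := by
  have h1 : HasDerivAt (fun w => coL e (p w)) (coL e (deriv p w)) w :=
    (coL e).hasFDerivAt.comp_hasDerivAt w hp.hasDerivAt
  simp only [coL_apply] at h1
  exact h1.differentiableAt

/-- a coordinate which is an embedding near `w₀` -/
private theorem exists_coord {A : Atlas d X} {c L r₀ c₁ K₀ : ℝ} (H : LC A c L r₀ c₁ K₀)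
    {F : ℂ → EN N} (hF : F ∈ BC X c L) {i : Fin A.n} {w₀ : ℂ}
    (hg : ∀ w ∈ ball w₀ r₀, Good (A.χ i) (F w)) :
    ∃ e, c₁ ≤ ‖deriv (fun w => co e (qc A i F w)) w₀‖ ∧
      (∀ w ∈ ball w₀ r₀, deriv (fun w => co e (qc A i F w)) w = co e (deriv (qc A i F) w)) ∧
      DifferentiableOn ℂ (fun w => co e (qc A i F w)) (ball w₀ r₀) ∧
      ∀ w ∈ ball w₀ (r₀ / 2), ‖deriv (fun w => co e (qc A i F w)) w -
        deriv (fun w => co e (qc A i F w)) w₀‖ ≤ K₀ * ‖w - w₀‖ := by
  have hr := H.r₀_pos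
  have hw₀ : w₀ ∈ ball w₀ r₀ := mem_ball_self hr
  have hd : ∀ w ∈ ball w₀ r₀, DifferentiableAt ℂ (qc A i F) w := fun w hw =>
    (H.an F hF i w (hg w hw)).differentiableAt
  obtain ⟨e, he⟩ := exists_co (deriv (qc A i F) w₀) (lt_of_lt_of_le H.c₁_pos (H.der_ge F hF i w₀ (hg w₀ hw₀)))
  refine ⟨e, ?_, fun w hw => deriv_co e (hd w hw), fun w hw =>
    (differentiableAt_co e (hd w hw)).differentiableWithinAt, fun w hw => ?_⟩
  · rw [deriv_co e (hd w₀ hw₀), he]
    exact H.der_ge F hF i w₀ (hg w₀ hw₀)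
  · have hw' : w ∈ ball w₀ r₀ := ball_subset_ball (by linarith) hw
    rw [deriv_co e (hd w hw'), deriv_co e (hd w₀ hw₀), ← co_sub]
    refine (norm_co_le e _).trans (H.der_lip F hF i w₀ hg w hw w₀ (mem_ball_self (by linarith)))

end Pool.Agent.AD.BD

end

section

/-!
# Qup Main: the properties of the conjecture go up along dominant regular maps of quasi-projective surfaces

`open_dominant`: let `p : U' → U` be a dominant regular map of quasi-projective surfaces.  If `U` has the four properties then so has `U'`.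
-/

set_option autoImplicit false

open Topology Filter MvPolynomial

noncomputable section

namespace Pool.Agent.H7.Qup

open Pool.Agent.H17 (PN VanishesAt HolomorphicInto puncturedDisc ZariskiClosedIn)
open Pool.Agent.H17LG.Variety (FunField IsLogGeneralType)
open Pool.Agent.H62.SA (locVar OnBd)
open Pool.Agent.H7.Bir (vals rmap)

variable {N M : ℕ} {P : Ideal (MvPolynomial (Fin (N + 1)) ℂ)} {P' : Ideal (MvPolynomial (Fin (M + 1)) ℂ)} {s s' : ℕ}
  {G : Fin s → MvPolynomial (Fin (N + 1)) ℂ} {G' : Fin s' → MvPolynomial (Fin (M + 1)) ℂ} {p : PN M → PN N}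

theorem IsDominantMap.nonempty [P.IsPrime] (hp : IsDominantMap P P' G G' p) : (locVar P' G').Nonempty := by
  by_contra hcon
  rw [Set.not_nonempty_iff_eq_empty] at hcon
  refine (Ideal.ne_top_iff_one P).1 (Ideal.IsPrime.ne_top inferInstance) (hp.dense 1 0 (isHomogeneous_one _ _) fun y hy => ?_)
  rw [hcon] at hy
  exact absurd hy (Set.notMem_empty y)

end Pool.Agent.H7.Qup

end
end

section

/-!
# LG Sp: specialisation of a polynomial and the number of its roots

`A = {f ∈ K | ∃ c, RegAt ξ a f c}` is a subring of `K`, and the value is a ring homomorphism `ev : A → ℂ` (`RegAt.unique`).  `p = ∑ u_i T^i ∈ A[T]`, its leading coefficient `u_D` is a unit of `A` (`RegAt.inv`).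
Let `Ω` be the splitting field of `P = x p`, `B` the integral closure of `A` in `Ω`; it contains the roots `e_i` of `p` (`u_D` is a unit).  There is a prime ideal of `B` over `ker ev` (`Ideal.exists_ideal_over_prime_of_isIntegral`), and `B / 𝔫` is integral over `A / ker ev = ℂ`, so it is `ℂ`
(`IsAlgClosed.algebraMap_bijective_of_isIntegral`): `ev` extends to `ev' : B → ℂ`.  `p = u_D ∏ (T - e_i)` in `B[T]`, so `∑ c_i T^i = c_D ∏ (T - ev' e_i)`: every root of `∑ c_i T^i` is `ev'` of a root of `p`, so `p` has at least three different roots.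
-/

set_option autoImplicit false

open MvPolynomial

noncomputable section

namespace Pool.Agent.LG

variable {K : Type} [Field K] [Algebra ℂ K] {N : ℕ} {ξ : Fin (N + 1) → K} {Q : Ideal (MvPolynomial (Fin (N + 1)) ℂ)}

/-- extension of a homomorphism to an algebraically closed field from a ring to an integral extension -/
theorem exists_extend {A B : Type} [CommRing A] [CommRing B] [Algebra A B] [Algebra.IsIntegral A B] [FaithfulSMul A B] (ev : A →+* ℂ) (hev : Function.Surjective ev) : ∃ ev' : B →+* ℂ, ∀ a, ev' (algebraMap A B a) = ev a := by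
  have hmax : (RingHom.ker ev).IsMaximal := RingHom.ker_isMaximal_of_surjective ev hev
  have hinj : Function.Injective (algebraMap A B) := FaithfulSMul.algebraMap_injective A B
  obtain ⟨n, hn, hnc⟩ := Ideal.exists_ideal_over_maximal_of_isIntegral (S := B) (RingHom.ker ev)
    (by
      intro x hx
      rw [RingHom.mem_ker] at hx
      have h0 : x = 0 := hinj (hx.trans (map_zero _).symm)
      rw [h0]
      exact zero_mem _)
  have hle : RingHom.ker ev ≤ n.comap (algebraMap A B) := hnc.ge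
  let f : A ⧸ RingHom.ker ev →+* B ⧸ n := Ideal.quotientMap n (algebraMap A B) hle
  let e : A ⧸ RingHom.ker ev ≃+* ℂ := RingHom.quotientKerEquivOfSurjective hev
  have hf : f.IsIntegral := by
    have h1 : (algebraMap A B).IsIntegral := algebraMap_isIntegral_iff.2 inferInstance
    intro x
    obtain ⟨b, rfl⟩ := Ideal.Quotient.mk_surjective x
    obtain ⟨p, hp, hpb⟩ := h1 b
    refine ⟨p.map (Ideal.Quotient.mk _), hp.map _, ?_⟩
    rw [Polynomial.eval₂_map]
    have h2 : f.comp (Ideal.Quotient.mk (RingHom.ker ev)) =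
        (Ideal.Quotient.mk n).comp (algebraMap A B) := by
      ext a
      rfl
    rw [h2, ← Polynomial.hom_eval₂, hpb, map_zero]
  let φ : ℂ →+* B ⧸ n := f.comp (e.symm : ℂ →+* A ⧸ RingHom.ker ev)
  have hφ : φ.IsIntegral := RingHom.IsIntegral.trans _ _
    (RingHom.isIntegral_of_surjective _ e.symm.surjective) hf
  let _ : Field (B ⧸ n) := Ideal.Quotient.field n
  let _ : Algebra ℂ (B ⧸ n) := φ.toAlgebra
  have hint : Algebra.IsIntegral ℂ (B ⧸ n) := ⟨hφ⟩
  have hbij : Function.Bijective φ := IsAlgClosed.algebraMap_bijective_of_isIntegral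
    (k := ℂ) (K := B ⧸ n)
  let ψ : ℂ ≃+* B ⧸ n := RingEquiv.ofBijective φ hbij
  refine ⟨(ψ.symm : B ⧸ n →+* ℂ).comp (Ideal.Quotient.mk n), fun a => ?_⟩
  show ψ.symm (Ideal.Quotient.mk n (algebraMap A B a)) = ev a
  rw [RingEquiv.symm_apply_eq]
  show _ = f (e.symm (ev a))
  have h3 : e.symm (ev a) = Ideal.Quotient.mk _ a := by
    rw [RingEquiv.symm_apply_eq]
    rfl
  rw [h3]
  rfl

/-- the subring of the elements which are regular at the point -/
private def regRing (ξ : Fin (N + 1) → K) (a : Fin (N + 1) → ℂ) : Subring K where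
  carrier := {f | ∃ c, RegAt ξ a f c}
  mul_mem' := by
    rintro f g ⟨c, hc⟩ ⟨e, he⟩
    exact ⟨_, hc.mul he⟩
  one_mem' := ⟨1, RegAt.one ξ a⟩
  add_mem' := by
    rintro f g ⟨c, hc⟩ ⟨e, he⟩
    exact ⟨_, hc.add he⟩
  zero_mem' := ⟨0, RegAt.zero ξ a⟩
  neg_mem' := by
    rintro f ⟨c, hc⟩
    exact ⟨_, hc.neg⟩

private theorem exists_ev (hgp : GP Q ξ) {a : Fin (N + 1) → ℂ} (ha : Cone Q a) :
    ∃ ev : regRing ξ a →+* ℂ, ∀ (f : K) (c : ℂ) (h : RegAt ξ a f c), ev ⟨f, c, h⟩ = c := by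
  classical
  have h1 : ∀ f : regRing ξ a, ∃ c, RegAt ξ a f.1 c := fun f => f.2
  choose v hv using h1
  have hu : ∀ (f : regRing ξ a) (c : ℂ), RegAt ξ a f.1 c → v f = c := fun f c h =>
    RegAt.unique hgp ha (hv f) h
  refine ⟨⟨⟨⟨v, hu 1 1 (RegAt.one ξ a)⟩, fun f g => hu _ _ ((hv f).mul (hv g))⟩,
    hu 0 0 (RegAt.zero ξ a), fun f g => hu _ _ ((hv f).add (hv g))⟩, fun f c h => hu _ c h⟩

/-- a root of the special polynomial is the value of a root of the polynomial -/
theorem root_of_special (hgp : GP Q ξ) {a : Fin (N + 1) → ℂ} (ha : Cone Q a) {D : ℕ}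
    (u : Fin (D + 1) → K) (c : Fin (D + 1) → ℂ) (h : ∀ i, RegAt ξ a (u i) (c i))
    (hl : c (Fin.last D) ≠ 0) {x : K} (hx : x ≠ 0) (P : Polynomial K)
    (hP : P = ∑ i : Fin (D + 1), Polynomial.C (x * u i) * Polynomial.X ^ (i : ℕ))
    (Ω : Type) [Field Ω] [Algebra K Ω] (hspl : (P.map (algebraMap K Ω)).Splits) :
    ∃ v : Ω → ℂ, ∀ t : ℂ, ∑ i, c i * t ^ (i : ℕ) = 0 → ∃ e ∈ P.rootSet Ω, v e = t := by
  classical
  obtain ⟨ev, hev⟩ := exists_ev hgp ha
  have hsur : Function.Surjective ev := fun z => ⟨⟨_, z, RegAt.const ξ a z⟩, hev _ z (RegAt.const ξ a z)⟩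
  let A := regRing ξ a
  let B := integralClosure A Ω
  have hAB : Function.Injective (algebraMap A B) := by
    intro y z hyz
    have h1 : algebraMap K Ω y.1 = algebraMap K Ω z.1 := congrArg (fun b : B => (b : Ω)) hyz
    exact Subtype.ext ((algebraMap K Ω).injective h1)
  have hfs : FaithfulSMul A B := (faithfulSMul_iff_algebraMap_injective A B).2 hAB
  obtain ⟨ev', hev'⟩ := exists_extend (A := A) (B := B) ev hsur
  -- the polynomial
  have huD : u (Fin.last D) ≠ 0 := RegAt.ne_zero hgp ha (h _) hl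
  have hcoef : P.coeff D = x * u (Fin.last D) := by
    rw [hP, Polynomial.finset_sum_coeff]
    rw [Finset.sum_eq_single (Fin.last D)]
    · rw [Polynomial.coeff_C_mul, Polynomial.coeff_X_pow, if_pos (Fin.val_last D).symm, mul_one]
    · intro i _ hi
      rw [Polynomial.coeff_C_mul, Polynomial.coeff_X_pow, if_neg, mul_zero]
      intro h1
      exact hi (Fin.ext (h1.symm.trans (Fin.val_last D).symm))
    · intro h1
      exact absurd (Finset.mem_univ _) h1
  have hlead0 : x * u (Fin.last D) ≠ 0 := mul_ne_zero hx huD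
  have hdeg : P.natDegree = D := by
    refine le_antisymm ?_ (Polynomial.le_natDegree_of_ne_zero (hcoef ▸ hlead0))
    rw [hP]
    refine Polynomial.natDegree_sum_le_of_forall_le _ _ fun i _ => ?_
    refine (Polynomial.natDegree_C_mul_X_pow_le _ _).trans ?_
    exact Nat.lt_succ_iff.1 i.2
  have hlead : P.leadingCoeff = x * u (Fin.last D) := by
    rw [Polynomial.leadingCoeff, hdeg, hcoef]
  have hP0 : P ≠ 0 := by
    intro h0
    rw [h0, Polynomial.coeff_zero] at hcoef
    exact hlead0 hcoef.symm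
  have hPm0 : P.map (algebraMap K Ω) ≠ 0 := (Polynomial.map_ne_zero_iff (algebraMap K Ω).injective).2 hP0
  -- the roots are integral
  let pA : Polynomial A := ∑ i : Fin (D + 1), Polynomial.C (⟨u i, c i, h i⟩ : A) * Polynomial.X ^ (i : ℕ)
  let w : A := ⟨(u (Fin.last D))⁻¹, _, RegAt.inv hgp ha (h _) hl⟩
  have hroot : ∀ e ∈ (P.map (algebraMap K Ω)).roots,
      ∑ i, algebraMap K Ω (u i) * e ^ (i : ℕ) = 0 := by
    intro e he
    have h1 := (Polynomial.mem_roots hPm0).1 he
    rw [Polynomial.IsRoot.def, Polynomial.eval_map, hP, Polynomial.eval₂_finset_sum] at h1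
    have h2 : algebraMap K Ω x * ∑ i, algebraMap K Ω (u i) * e ^ (i : ℕ) = 0 := by
      rw [← h1, Finset.mul_sum]
      refine Finset.sum_congr rfl fun i _ => ?_
      rw [Polynomial.eval₂_mul, Polynomial.eval₂_C, Polynomial.eval₂_X_pow, map_mul, mul_assoc]
    exact (mul_eq_zero.1 h2).resolve_left fun h3 => hx ((map_eq_zero _).1 h3)
  have hint : ∀ e ∈ (P.map (algebraMap K Ω)).roots, IsIntegral A e := by
    intro e he
    refine ⟨Polynomial.X ^ D + ∑ i : Fin D, Polynomial.C (w * ⟨u i.castSucc, _, h _⟩ : A) *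
      Polynomial.X ^ (i : ℕ), ?_, ?_⟩
    · refine Polynomial.monic_X_pow_add ?_
      refine (Polynomial.degree_sum_le _ _).trans_lt ?_
      refine (Finset.sup_lt_iff (WithBot.bot_lt_coe D)).2 fun i _ => ?_
      exact (Polynomial.degree_C_mul_X_pow_le _ _).trans_lt (WithBot.coe_lt_coe.2 i.2)
    · have h1 := hroot e he
      rw [Fin.sum_univ_castSucc] at h1
      rw [Polynomial.eval₂_add, Polynomial.eval₂_X_pow, Polynomial.eval₂_finset_sum]
      have h2 : ∀ y : A, algebraMap A Ω y = algebraMap K Ω y.1 := fun _ => rfl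
      have h3 : algebraMap K Ω (u (Fin.last D)) ≠ 0 := fun h4 => huD ((map_eq_zero _).1 h4)
      have h4 : algebraMap K Ω (u (Fin.last D)) * (e ^ D + ∑ i : Fin D, Polynomial.eval₂
          (algebraMap A Ω) e (Polynomial.C (w * ⟨u i.castSucc, _, h _⟩ : A) *
          Polynomial.X ^ (i : ℕ))) = 0 := by
        rw [← h1, mul_add, Finset.mul_sum, add_comm]
        congr 1
        · refine Finset.sum_congr rfl fun i _ => ?_
          rw [Polynomial.eval₂_mul, Polynomial.eval₂_C, Polynomial.eval₂_X_pow, h2]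
          show _ * (algebraMap K Ω ((u (Fin.last D))⁻¹ * u i.castSucc) * _) = _
          rw [map_mul, map_inv₀, ← mul_assoc, ← mul_assoc, mul_inv_cancel₀ h3, one_mul]
          rfl
      exact (mul_eq_zero.1 h4).resolve_left h3
  -- the extension to the splitting field
  refine ⟨fun e => if he : e ∈ B then ev' ⟨e, he⟩ else 0, fun t ht => ?_⟩
  let s : Multiset Ω := (P.map (algebraMap K Ω)).roots
  obtain ⟨s', hs'⟩ : ∃ s' : Multiset B, s'.map (fun e : B => (e : Ω)) = s := by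
    refine ⟨s.attach.map fun e => ⟨e.1, hint e.1 e.2⟩, ?_⟩
    rw [Multiset.map_map]
    exact Multiset.attach_map_val s
  let τ : A := ⟨_, t, RegAt.const ξ a t⟩
  let uA : Fin (D + 1) → A := fun i => ⟨u i, c i, h i⟩
  have hprod : algebraMap A B (uA (Fin.last D)) * (s'.map fun e => algebraMap A B τ - e).prod =
      algebraMap A B (∑ i, uA i * τ ^ (i : ℕ)) := by
    apply Subtype.ext
    have h0 : Polynomial.eval₂ (algebraMap K Ω) (algebraMap K Ω τ.1) P =
        ∑ i : Fin (D + 1), Polynomial.eval₂ (algebraMap K Ω) (algebraMap K Ω τ.1)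
          (Polynomial.C (x * u i) * Polynomial.X ^ (i : ℕ)) := by
      rw [hP, Polynomial.eval₂_finset_sum]
    have h2 := hspl.eq_prod_roots
    have h3 := congrArg (Polynomial.eval (algebraMap K Ω τ.1)) h2
    rw [Polynomial.eval_mul, Polynomial.eval_C, Polynomial.eval_multiset_prod,
      Polynomial.leadingCoeff_map, hlead, Multiset.map_map, Polynomial.eval_map, h0] at h3
    let vB : B →+* Ω := B.val.toRingHom
    have h6 : vB ((s'.map fun e => algebraMap A B τ - e).prod) =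
        (s.map fun y => algebraMap K Ω τ.1 - y).prod := by
      rw [map_multiset_prod, ← hs', Multiset.map_map, Multiset.map_map]
      refine congrArg Multiset.prod (Multiset.map_congr rfl fun e _ => ?_)
      show vB (algebraMap A B τ - e) = _
      rw [map_sub]
      rfl
    have h7 : vB (algebraMap A B (∑ i, uA i * τ ^ (i : ℕ))) =
        ∑ i, algebraMap K Ω (u i) * algebraMap K Ω τ.1 ^ (i : ℕ) := by
      rw [map_sum, map_sum]
      refine Finset.sum_congr rfl fun i _ => ?_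
      rw [map_mul, map_mul, map_pow, map_pow]
      rfl
    have h8 : vB (algebraMap A B (uA (Fin.last D))) = algebraMap K Ω (u (Fin.last D)) := rfl
    have h4 : algebraMap K Ω x * ((algebraMap A B (uA (Fin.last D)) *
        (s'.map fun e => algebraMap A B τ - e).prod : B) : Ω) =
        algebraMap K Ω x * ((algebraMap A B (∑ i, uA i * τ ^ (i : ℕ)) : B) : Ω) := by
      have hcoe : ∀ b : B, (b : Ω) = vB b := fun _ => rfl
      rw [hcoe, hcoe, map_mul, h6, h7, h8, ← mul_assoc, ← map_mul, Finset.mul_sum]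
      have h9 : (s.map (Polynomial.eval (algebraMap K Ω τ.1) ∘ fun y => Polynomial.X -
          Polynomial.C y)) = s.map fun y => algebraMap K Ω τ.1 - y := by
        refine Multiset.map_congr rfl fun y _ => ?_
        show Polynomial.eval _ (Polynomial.X - Polynomial.C y) = _
        rw [Polynomial.eval_sub, Polynomial.eval_X, Polynomial.eval_C]
      rw [← h9, ← h3]
      refine Finset.sum_congr rfl fun i _ => ?_
      rw [Polynomial.eval₂_mul, Polynomial.eval₂_C, Polynomial.eval₂_X_pow, map_mul, mul_assoc]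
    exact mul_left_cancel₀ (fun h5 => hx ((map_eq_zero _).1 h5)) h4
  have h5 := congrArg ev' hprod
  rw [map_mul, hev', hev', map_multiset_prod, Multiset.map_map, map_sum] at h5
  have h6 : ∑ i, ev (uA i * τ ^ (i : ℕ)) = 0 := by
    rw [← ht]
    refine Finset.sum_congr rfl fun i _ => ?_
    rw [map_mul, map_pow]
    congr 1
    · exact hev _ _ (h i)
    · congr 1
      exact hev _ _ (RegAt.const ξ a t)
  have h7 : ev (uA (Fin.last D)) = c (Fin.last D) := hev _ _ (h _)
  rw [h6, h7] at h5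
  have h8 := (mul_eq_zero.1 h5).resolve_left hl
  obtain ⟨e, he, he0⟩ := Multiset.mem_map.1 (Multiset.prod_eq_zero_iff.1 h8)
  have h9 : ev' e = t := by
    have h10 : ev' (algebraMap A B τ - e) = 0 := he0
    rw [map_sub, hev', sub_eq_zero] at h10
    rw [← h10]
    exact hev _ _ (RegAt.const ξ a t)
  refine ⟨e.1, ?_, ?_⟩
  · have h11 : (e : Ω) ∈ s := by
      rw [← hs']
      exact Multiset.mem_map_of_mem (fun e : B => (e : Ω)) he
    have h12 := (Polynomial.mem_roots hPm0).1 h11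
    rw [Polynomial.mem_rootSet]
    refine ⟨hP0, ?_⟩
    rw [Polynomial.IsRoot.def, Polynomial.eval_map] at h12
    exact h12
  · show (if he : (e : Ω) ∈ B then ev' ⟨e, he⟩ else 0) = t
    rw [dif_pos e.2]
    exact h9

end Pool.Agent.LG

end
end

section

/-!
# LT Sm: specialisation of a polynomial and the number of its roots

As `LG.three_of_special` (`LG/Sp.lean`, helper65), for any number of roots.
-/

set_option autoImplicit false

open MvPolynomial
open Pool.Agent.LG (Cone GP RegAt root_of_special)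

noncomputable section

namespace Pool.Agent.LT

variable {K : Type} [Field K] [Algebra ℂ K] {N : ℕ} {ξ : Fin (N + 1) → K} {Q : Ideal (MvPolynomial (Fin (N + 1)) ℂ)}

theorem many_of_special (hgp : GP Q ξ) {a : Fin (N + 1) → ℂ} (ha : Cone Q a) {D : ℕ} (u : Fin (D + 1) → K) (c : Fin (D + 1) → ℂ) (h : ∀ i, RegAt ξ a (u i) (c i)) (hl : c (Fin.last D) ≠ 0) {r : ℕ} {t : Fin r → ℂ} (ht : Function.Injective t)
    (hr : ∀ j, ∑ i, c i * t j ^ (i : ℕ) = 0) {x : K} (hx : x ≠ 0) (P : Polynomial K) (hP : P = ∑ i : Fin (D + 1), Polynomial.C (x * u i) * Polynomial.X ^ (i : ℕ)) :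
    r ≤ (P.rootSet P.SplittingField).ncard := by
  classical
  obtain ⟨v, hv⟩ := root_of_special hgp ha u c h hl hx P hP P.SplittingField
    (Polynomial.SplittingField.splits P)
  choose e he hve using fun j => hv (t j) (hr j)
  have hinj : Function.Injective e := fun i j hij => ht (by rw [← hve i, ← hve j, hij])
  have h1 : (Set.range e).ncard = r := by
    rw [← Set.image_univ, Set.ncard_image_of_injective _ hinj, Set.ncard_univ, Nat.card_eq_fintype_card,
      Fintype.card_fin]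
  rw [← h1]
  exact Set.ncard_le_ncard (Set.range_subset_iff.2 he) (Polynomial.rootSet_finite P P.SplittingField)

end Pool.Agent.LT

end
end

section

/-!
# PX FrB: the theta factors, and two vectors `b`, `b'` for which `Fo θ · b` and `Fo θ · b'` have no common zeros in codimension one
-/

set_option autoImplicit false

open Topology Filter Metric Polynomial

namespace Pool.Agent.PX

open Pool.Agent.H36.BP (EN fs wd)
open Pool.Agent.AD (Vd)
open Pool.Agent.TG (Lat)
open Pool.Agent.G3 (wt)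
open Pool.Agent.G4.H (ThF)

variable {k d r : ℕ}

private theorem id_thm {m : ℕ} {f : Vd m → ℂ} (hf : ∀ y, AnalyticAt ℂ f y) {y₀ : Vd m} (h : ∀ᶠ y in 𝓝 y₀, f y = 0) (y : Vd m) : f y = 0 :=
  AnalyticOnNhd.eqOn_zero_of_preconnected_of_eventuallyEq_zero (f := f) (U := Set.univ) (fun z _ => hf z) isPreconnected_univ (Set.mem_univ y₀) h (Set.mem_univ y)

/-- entire functions with the same modulus -/
private theorem same_norm {m : ℕ} {f g : Vd m → ℂ} (hf : ∀ y, AnalyticAt ℂ f y) (hg : ∀ y, AnalyticAt ℂ g y) (hfg : ∀ y, ‖f y‖ = ‖g y‖) (h0 : ∃ y, g y ≠ 0) :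
    ∃ c : ℂ, ‖c‖ = 1 ∧ ∀ y, f y = c * g y := by
  obtain ⟨y₀, hy₀⟩ := h0
  have hq : AnalyticAt ℂ (fun y => f y / g y) y₀ := (hf y₀).div (hg y₀) hy₀
  have hn : ∀ᶠ y in 𝓝 y₀, ‖f y / g y‖ = 1 := by
    filter_upwards [(hg y₀).continuousAt.eventually_ne hy₀] with y hy
    rw [norm_div, hfg y, div_self (norm_ne_zero_iff.2 hy)]
  rcases hq.eventually_constant_or_nhds_le_map_nhds with h | h
  · refine ⟨f y₀ / g y₀, hn.self_of_nhds, fun y => ?_⟩
    have h1 : ∀ᶠ y in 𝓝 y₀, f y - f y₀ / g y₀ * g y = 0 := by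
      filter_upwards [h, (hg y₀).continuousAt.eventually_ne hy₀] with y hy hy2
      rw [← hy, div_mul_cancel₀ _ hy2, sub_self]
    exact sub_eq_zero.1 (id_thm (f := fun y => f y - f y₀ / g y₀ * g y) (fun y => (hf y).sub (analyticAt_const.mul (hg y))) h1 y)
  · exfalso
    have h1 : ∀ᶠ w in 𝓝 (f y₀ / g y₀), ‖w‖ = 1 := h hn
    have h2 : Tendsto (fun t : ℝ => ((1 + t : ℝ) : ℂ) * (f y₀ / g y₀)) (𝓝 0) (𝓝 (f y₀ / g y₀)) := by
      have h3 : ContinuousAt (fun t : ℝ => ((1 + t : ℝ) : ℂ) * (f y₀ / g y₀)) 0 := by fun_prop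
      have h4 := h3.tendsto
      simpa using h4
    have h5 := h2.eventually h1
    obtain ⟨ε, hε, h6⟩ := Metric.eventually_nhds_iff_ball.1 h5
    have h7 := h6 (ε / 2) (by rw [mem_ball_zero_iff, Real.norm_of_nonneg (by positivity)]; linarith)
    rw [norm_mul, hn.self_of_nhds, mul_one, Complex.norm_real, Real.norm_of_nonneg (by positivity)] at h7
    linarith

/-- the exponent of the theta factor -/
private noncomputable def ax (W : Fin r → Vd (k + 1) →L[ℂ] ℂ) (l y : Vd (k + 1)) : ℂ := ∑ i, (2 * (starRingEnd ℂ) (W i l) * W i y + (starRingEnd ℂ) (W i l) * W i l)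

private theorem ax_re (W : Fin r → Vd (k + 1) →L[ℂ] ℂ) (l y : Vd (k + 1)) : (ax W l y).re = wt W (y + l) - wt W y := by
  unfold ax wt
  rw [Complex.re_sum, ← Finset.sum_sub_distrib]
  refine Finset.sum_congr rfl fun i _ => ?_
  rw [map_add, Complex.sq_norm, Complex.sq_norm, Complex.normSq_apply, Complex.normSq_apply]
  simp only [Complex.add_re, Complex.add_im, Complex.mul_re, Complex.mul_im, Complex.conj_re, Complex.conj_im]
  norm_num
  ring

private theorem ax_an (W : Fin r → Vd (k + 1) →L[ℂ] ℂ) (l y : Vd (k + 1)) : AnalyticAt ℂ (ax W l) y := by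
  unfold ax
  refine Finset.analyticAt_fun_sum _ fun i _ => ?_
  exact (analyticAt_const.mul ((W i).analyticAt y)).add analyticAt_const

theorem exists_thf {Λ : AddSubgroup (Vd (k + 1))} {W : Fin r → Vd (k + 1) →L[ℂ] ℂ} (hΛ : Lat Λ) (hpos : ∀ y, (∀ i, W i y = 0) → y = 0) {f : Vd (k + 1) → ℂ} (hf : ∀ y, AnalyticAt ℂ f y) (h0 : ∃ y, f y ≠ 0)
    (hper : ∀ l ∈ Λ, ∀ y, ‖f (y + l)‖ * Real.exp (-wt W (y + l)) = ‖f y‖ * Real.exp (-wt W y)) : ∃ e : Vd (k + 1) → Vd (k + 1) → ℂ, ThF Λ W e := by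
  classical
  have hfl : ∀ l y, AnalyticAt ℂ (fun y => f (y + l)) y := fun l y => AnalyticAt.fun_comp (g := f) (hf _) (analyticAt_id.add analyticAt_const)
  have key : ∀ l : Vd (k + 1), ∃ c : ℂ, l ∈ Λ → (‖c‖ = 1 ∧ ∀ y, f (y + l) * Complex.exp (-ax W l y) = c * f y) := by
    intro l
    by_cases hl : l ∈ Λ
    · obtain ⟨c, hc1, hc2⟩ := same_norm (f := fun y => f (y + l) * Complex.exp (-ax W l y)) (g := f) (fun y => (hfl l y).mul ((ax_an W l y).neg).cexp) hf (by
        intro y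
        have h1 := hper l hl y
        rw [norm_mul, Complex.norm_exp, Complex.neg_re, ax_re]
        have h2 : Real.exp (-(wt W (y + l) - wt W y)) = Real.exp (-wt W (y + l)) * Real.exp (wt W y) := by
          rw [← Real.exp_add]
          congr 1
          ring
        rw [h2, ← mul_assoc, h1, mul_assoc, ← Real.exp_add, neg_add_cancel, Real.exp_zero, mul_one]) h0
      exact ⟨c, fun _ => ⟨hc1, hc2⟩⟩
    · exact ⟨1, fun h => absurd h hl⟩
  choose c hc using key
  have hE : ∀ l ∈ Λ, ∀ y, (c l)⁻¹ * Complex.exp (-ax W l y) * f (y + l) = f y := by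
    intro l hl y
    obtain ⟨h1, h2⟩ := hc l hl
    have h3 : c l ≠ 0 := by
      intro h
      rw [h, norm_zero] at h1
      exact zero_ne_one h1
    have h4 := h2 y
    calc (c l)⁻¹ * Complex.exp (-ax W l y) * f (y + l) = (c l)⁻¹ * (f (y + l) * Complex.exp (-ax W l y)) := by ring
      _ = f y := by rw [h4, inv_mul_cancel_left₀ h3]
  have hEan : ∀ l y, AnalyticAt ℂ (fun y => (c l)⁻¹ * Complex.exp (-ax W l y)) y := fun l y => analyticAt_const.mul ((ax_an W l y).neg).cexp
  refine ⟨fun l y => (c l)⁻¹ * Complex.exp (-ax W l y), hΛ, hpos, fun l _ y => hEan l y, ?_, ?_⟩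
  · intro l hl y
    rw [norm_mul, norm_inv, (hc l hl).1, inv_one, one_mul, Complex.norm_exp, Complex.neg_re, ax_re]
    congr 1
    ring
  · intro l hl l' hl' y
    obtain ⟨y₁, hy₁⟩ := h0
    have hll := Λ.add_mem hl hl'
    have h1 : ∀ y, ((c (l + l'))⁻¹ * Complex.exp (-ax W (l + l') y) - (c l)⁻¹ * Complex.exp (-ax W l (y + l')) * ((c l')⁻¹ * Complex.exp (-ax W l' y))) * f (y + (l + l')) = 0 := by
      intro y
      have e1 := hE (l + l') hll y
      have e2 := hE l hl (y + l')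
      have e3 := hE l' hl' y
      have e4 : y + (l + l') = y + l' + l := by abel
      rw [e4] at e1 ⊢
      linear_combination e1 - (c l')⁻¹ * Complex.exp (-ax W l' y) * e2 - e3
    have h2 : ∀ᶠ y in 𝓝 (y₁ - (l + l')), ((c (l + l'))⁻¹ * Complex.exp (-ax W (l + l') y) - (c l)⁻¹ * Complex.exp (-ax W l (y + l')) * ((c l')⁻¹ * Complex.exp (-ax W l' y))) = 0 := by
      have h3 : f (y₁ - (l + l') + (l + l')) ≠ 0 := by rwa [sub_add_cancel]
      filter_upwards [(hfl (l + l') (y₁ - (l + l'))).continuousAt.eventually_ne h3] with y hy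
      exact (mul_eq_zero.1 (h1 y)).resolve_right hy
    have h3 := id_thm (f := fun y => (c (l + l'))⁻¹ * Complex.exp (-ax W (l + l') y) - (c l)⁻¹ * Complex.exp (-ax W l (y + l')) * ((c l')⁻¹ * Complex.exp (-ax W l' y)))
      (fun y => (hEan (l + l') y).sub ((AnalyticAt.fun_comp (g := fun y => (c l)⁻¹ * Complex.exp (-ax W l y)) (hEan l _) (analyticAt_id.add analyticAt_const)).mul (hEan l' y))) h2 y
    exact sub_eq_zero.1 h3

/-- the vector `(t, 1)` -/
private noncomputable def tv (t : ℂ) : EN 1 := WithLp.toLp 2 ![t, 1]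

private theorem fo_tv (θ : Fin (d + 1) → Vd (k + 1) → ℂ) (y : Vd (k + 1)) (t : ℂ) : Fo θ y (tv t) = ∑ i : Fin (d + 1), θ i y * t ^ (i : ℕ) := by
  unfold Fo
  refine Finset.sum_congr rfl fun i _ => ?_
  have e0 : tv t 0 = t := rfl
  have e1 : tv t 1 = 1 := rfl
  rw [e0, e1, one_pow, mul_one]

private theorem fin_tv {θ : Fin (d + 1) → Vd (k + 1) → ℂ} {y : Vd (k + 1)} (h : ∃ i, θ i y ≠ 0) : {t : ℂ | Fo θ y (tv t) = 0}.Finite := by
  obtain ⟨i, hi⟩ := h
  set p : ℂ[X] := ∑ i : Fin (d + 1), C (θ i y) * X ^ (i : ℕ) with hp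
  have hpi : p.coeff (i : ℕ) = θ i y := by
    rw [hp, finset_sum_coeff, Finset.sum_eq_single i]
    · simp
    · intro j _ hj
      rw [coeff_C_mul_X_pow, if_neg]
      intro h
      exact hj (Fin.ext h.symm)
    · intro h
      exact absurd (Finset.mem_univ i) h
  have hp0 : p ≠ 0 := by
    intro h
    rw [h, coeff_zero] at hpi
    exact hi hpi.symm
  refine (p.roots.toFinset.finite_toSet).subset fun t ht => ?_
  rw [Finset.mem_coe, Multiset.mem_toFinset, mem_roots hp0, IsRoot.def, hp, eval_finset_sum]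
  simp only [eval_mul, eval_C, eval_pow, eval_X]
  rw [← fo_tv]
  exact ht

theorem exists_bb {θ : Fin (d + 1) → Vd (k + 1) → ℂ} (hnv : ∀ y, (∀ i, θ i y = 0) → ∀ b : EN 1, ∃ᶠ z in 𝓝 y, Fo θ z b = 0 ∧ ∃ i, θ i z ≠ 0) (h0 : ∃ y, ∃ i, θ i y ≠ 0) :
    ∃ b b' : EN 1, (∃ y, Fo θ y b ≠ 0) ∧ ∀ y, Fo θ y b = 0 → ∃ᶠ z in 𝓝 y, Fo θ z b = 0 ∧ Fo θ z b' ≠ 0 := by
  obtain ⟨y₀, hy₀⟩ := h0
  obtain ⟨t, ht⟩ : ∃ t : ℂ, t ∉ {t : ℂ | Fo θ y₀ (tv t) = 0} := by
    by_contra hn
    push Not at hn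
    exact Set.infinite_univ ((fin_tv hy₀).subset fun t _ => hn t)
  set S : Set (Vd (k + 1)) := {z | Fo θ z (tv t) = 0 ∧ ∃ i, θ i z ≠ 0} with hS
  obtain ⟨Q, hQS, hQc, hQd⟩ := (TopologicalSpace.IsSeparable.of_separableSpace S).exists_countable_dense_subset
  have hc : (⋃ z ∈ Q, {t : ℂ | Fo θ z (tv t) = 0}).Countable := hQc.biUnion fun z hz => (fin_tv (hQS hz).2).countable
  obtain ⟨t', ht'⟩ : ∃ t' : ℂ, t' ∉ ⋃ z ∈ Q, {t : ℂ | Fo θ z (tv t) = 0} := by
    by_contra hn
    push Not at hn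
    exact not_countable_complex (hc.mono fun t _ => hn t)
  refine ⟨tv t, tv t', ⟨y₀, ht⟩, fun y hy => ?_⟩
  have h1 : y ∈ closure S := by
    by_cases hy2 : ∃ i, θ i y ≠ 0
    · exact subset_closure ⟨hy, hy2⟩
    · push Not at hy2
      exact mem_closure_iff_frequently.2 (hnv y hy2 (tv t))
  have h2 : y ∈ closure Q := closure_minimal hQd isClosed_closure h1
  refine (mem_closure_iff_frequently.1 h2).mono fun z hz => ⟨(hQS hz).1, fun h => ht' ?_⟩
  exact Set.mem_biUnion hz h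

end Pool.Agent.PX

end

section

/-!
# TG GuL: glue: charts, the torus map, lattices, the entire curves in the fibres
-/

set_option autoImplicit false

open Topology Filter MvPolynomial
open Pool.Agent.H17 (PN VanishesAt)
open Pool.Agent.H36.BP (EN fs)
open Pool.Agent.AD (Vd discreteSub_of)
open Pool.Agent.TG (Lat)

noncomputable section

namespace Pool.Agent.TGF

variable {N k : ℕ} {P : Ideal (MvPolynomial (Fin (N + 1)) ℂ)} {Λ Γ : AddSubgroup (Cn (k + 1))} {u : PN N → Cn (k + 1) ⧸ Λ} {D B : Set (Cn (k + 1))}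

/-- a spanning subgroup is cocompact -/
theorem gu_cocompact {n : ℕ} {Λ : AddSubgroup (Fin n → ℂ)} (h : Submodule.span ℝ (Λ : Set (Fin n → ℂ)) = ⊤) :
    ∃ C : ℝ, 0 < C ∧ ∀ b : Fin n → ℂ, ∃ l ∈ Λ, ‖b - l‖ ≤ C := by
  classical
  obtain ⟨T, hTs, hT⟩ : ∃ T : Finset (Fin n → ℂ), (T : Set (Fin n → ℂ)) ⊆ (Λ : Set (Fin n → ℂ)) ∧ Submodule.span ℝ (T : Set (Fin n → ℂ)) = ⊤ := by
    have h1 : (Submodule.span ℝ (Λ : Set (Fin n → ℂ))).FG := by
      rw [h]
      exact Module.Finite.fg_top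
    obtain ⟨T, hTs, hT⟩ := (Submodule.fg_span_iff_fg_span_finset_subset _).1 h1
    exact ⟨T, hTs, by rw [← hT, h]⟩
  refine ⟨(∑ t ∈ T, ‖t‖) + 1, by positivity, fun b => ?_⟩
  have hb : b ∈ Submodule.span ℝ (T : Set (Fin n → ℂ)) := by rw [hT]; trivial
  obtain ⟨c, -, hc⟩ := Submodule.mem_span_finset.1 hb
  refine ⟨∑ t ∈ T, ⌊c t⌋ • t, Λ.sum_mem fun t ht => Λ.zsmul_mem (hTs ht) _, ?_⟩
  refine le_trans ?_ (le_add_of_nonneg_right zero_le_one)
  rw [← hc, ← Finset.sum_sub_distrib]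
  refine (norm_sum_le _ _).trans (Finset.sum_le_sum fun t _ => ?_)
  have h2 : c t • t - ⌊c t⌋ • t = (Int.fract (c t)) • t := by
    rw [Int.fract, sub_smul]
    congr 1
    exact (Int.cast_smul_eq_zsmul ℝ _ _).symm
  rw [h2, norm_smul, Real.norm_of_nonneg (Int.fract_nonneg _)]
  exact mul_le_of_le_one_left (norm_nonneg _) (Int.fract_lt_one _).le

theorem gu_lat (Λ : AddSubgroup (Cn (k + 1))) [DiscreteTopology Λ] (hspan : Submodule.span ℝ (Λ : Set (Cn (k + 1))) = ⊤) : Lat Λ :=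
  ⟨discreteSub_of Λ, gu_cocompact hspan⟩

end Pool.Agent.TGF

end
end

section

/-!
# TG SaDefs: rational maps from semi-abelian varieties to projective varieties over complex tori, the definitions
-/

set_option autoImplicit false

open MvPolynomial
open Pool.Agent.H17 (PN VanishesAt)
open Pool.Agent.H17EF (projVar)
open Pool.Agent.H22.TB (closureIn)

noncomputable section

namespace Pool.Agent.TG

variable {N : ℕ}

/-- The maps `F` and `F'` to `ℂ^(N+1)` represent the same map to `ℙ^N`. -/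
def SameProjMap {g : ℕ} (F F' : (Fin g → ℂ) → Fin (N + 1) → ℂ) : Prop := ∀ z i j, F z i * F' z j = F z j * F' z i

/-- The set of the points `[F z]`, `F z ≠ 0`. -/
def imageOf {g : ℕ} (F : (Fin g → ℂ) → Fin (N + 1) → ℂ) : Set (PN N) := {x | ∃ z, ∃ h : F z ≠ 0, x = Projectivization.mk ℂ (F z) h}

/-- A meromorphic map from `ℂ^g` to `ℙ^N` of the type of the rational maps from semi-abelian varieties: it is given by entire functions `F = (F 0, …, F N)`, not all
zero, with `|F z| ≤ exp (C (1 + |z|²))`; `T` is a complex subspace with `|F (z + t)| ≤ exp (C (1 + |t|))` for `t` in `T`, `C` depending on `z`; `L` is a group of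
periods, and `T` and `L` span `ℂ^g` over `ℝ`.  (For a rational map from the semi-abelian variety `A = ℂ^g / L` the subspace `T` is the Lie algebra of the torus part of `A`.) -/
structure SabMap (N : ℕ) where
  /-- the dimension -/
  g : ℕ
  /-- the entire functions -/
  F : (Fin g → ℂ) → Fin (N + 1) → ℂ
  differentiable : Differentiable ℂ F
  ne_zero : ∃ z, F z ≠ 0
  growth : ∃ C : ℝ, ∀ z, ‖F z‖ ≤ Real.exp (C * (1 + ‖z‖ ^ 2))
  /-- the directions of the torus part -/
  T : Submodule ℂ (Fin g → ℂ)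
  torus : ∀ z, ∃ C : ℝ, ∀ t ∈ T, ‖F (z + t)‖ ≤ Real.exp (C * (1 + ‖t‖))
  /-- the periods -/
  L : AddSubgroup (Fin g → ℂ)
  periodic : ∀ l ∈ L, SameProjMap (fun z => F (z + l)) F
  span : T.restrictScalars ℝ ⊔ Submodule.span ℝ (L : Set (Fin g → ℂ)) = ⊤

/-- The union of the images of the non-constant maps into `X`. -/
def sabUnion (X : Set (PN N)) : Set (PN N) :=
  {x | ∃ S : SabMap N, imageOf S.F ⊆ X ∧ (∃ y ∈ imageOf S.F, ∃ z ∈ imageOf S.F, y ≠ z) ∧ x ∈ imageOf S.F}

/-- The special set of `X`: the Zariski closure in `X` of the union of the images of the non-constant maps into `X`. -/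
def sabSpecialSet (X : Set (PN N)) : Set (PN N) := closureIn X (sabUnion X)

/-- `W` is the tangent space of a complex subtorus of `ℂ^n / Λ`: the real span of `Λ ∩ W` is `W`. -/
def IsSubtorus {n : ℕ} (Λ : AddSubgroup (Fin n → ℂ)) (W : Submodule ℂ (Fin n → ℂ)) : Prop :=
  W.restrictScalars ℝ ≤ Submodule.span ℝ {l : Fin n → ℂ | l ∈ Λ ∧ l ∈ W}

/-- The torus `ℂ^n / Λ` is simple: it has no subtori other than `0` and itself. -/
def SimpleTorus {n : ℕ} (Λ : AddSubgroup (Fin n → ℂ)) : Prop := ∀ W : Submodule ℂ (Fin n → ℂ), IsSubtorus Λ W → W = ⊥ ∨ W = ⊤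

/-- The meromorphic maps from `ℂ^n` to the variety `X` over the torus `ℂ^n / Λ`: the entire functions `F : ℂ^n → ℂ^(N+1)`, not identically `0`, with `[F y] ∈ X` and
`u [F y] = y` modulo `Λ` if `F y ≠ 0`. -/
def merSections {n : ℕ} (X : Set (PN N)) (Λ : AddSubgroup (Fin n → ℂ)) (u : PN N → (Fin n → ℂ) ⧸ Λ) : Set ((Fin n → ℂ) → Fin (N + 1) → ℂ) :=
  {F | Differentiable ℂ F ∧ (∃ y, F y ≠ 0) ∧
    ∀ y, ∀ h : F y ≠ 0, Projectivization.mk ℂ (F y) h ∈ X ∧ u (Projectivization.mk ℂ (F y) h) = (y : (Fin n → ℂ) ⧸ Λ)}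

/-- The four types of maps `S` into the variety `X` over the torus `ℂ^n / Λ`; `D` is the set of the bad values of `u`: `S` lies in a fibre over a point of `D`; or `S` is constant;
or `u ∘ S` is an affine map onto a translate of a subtorus which is not `0` and not the whole torus; or `u ∘ S` is an affine map onto the torus and `S` is the
composition of this map and a meromorphic map over the torus. -/
def SabCases {n : ℕ} (X : Set (PN N)) (Λ : AddSubgroup (Fin n → ℂ)) (u : PN N → (Fin n → ℂ) ⧸ Λ) (D : Set (Fin n → ℂ)) (S : SabMap N) : Prop :=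
  (∃ b ∈ D, ∀ x ∈ imageOf S.F, u x = (b : (Fin n → ℂ) ⧸ Λ)) ∨
  (∀ x ∈ imageOf S.F, ∀ y ∈ imageOf S.F, x = y) ∨
  ∃ (B : (Fin S.g → ℂ) →ₗ[ℂ] (Fin n → ℂ)) (c : Fin n → ℂ),
    (∀ z, ∀ h : S.F z ≠ 0, u (Projectivization.mk ℂ (S.F z) h) = ((B z + c : Fin n → ℂ) : (Fin n → ℂ) ⧸ Λ)) ∧
    (IsSubtorus Λ (LinearMap.range B) ∧ LinearMap.range B ≠ ⊥ ∧ LinearMap.range B ≠ ⊤ ∨
      Function.Surjective B ∧ ∃ Φ ∈ merSections X Λ u, SameProjMap S.F fun z => Φ (B z + c))

end Pool.Agent.TG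

end
end

section

/-!
# TG FDefs: projective manifolds over complex tori, with arbitrary singular fibres, and maps from semi-abelian varieties

`X` is a smooth projective variety of dimension `n + 1`, `n = k + 1`, `u` a holomorphic map from `X` to a complex torus `ℂ^n / Λ`.  `D ⊆ ℂ^n` is a `Λ`-invariant analytic
subset outside which `u` is a submersion, and whose fibres outside `D` contain no entire curves with bounded derivative; outside the small set `B` the set `D` is smooth and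
the map `u` is `(x^a y^b, s)` in suitable local coordinates.
-/

set_option autoImplicit false

open Topology Filter MvPolynomial
open Pool.Agent.H17 (PN VanishesAt)
open Pool.Agent.H62.FC (Homog)
open Pool.Agent.H17LG.Variety (FunField)
open Pool.Agent.H17EF (projVar)
open Pool.Agent.H17G (IsTangent)
open Pool.Agent.TG (SabMap imageOf SabCases SimpleTorus merSections SameProjMap sabSpecialSet)

noncomputable section

namespace Pool.Agent.TGF

variable {N k g : ℕ}

/-- The conclusion, for the variety `X` of dimension `k + 2` given by `P`: the meromorphic maps from `ℂ^(k+1)` to `X` over the torus are finitely many, periodic, and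
algebraic, and the maps from semi-abelian varieties to `X` come from these maps, from fibres over `D`, or from proper subtori. -/
structure TorusFibration (P : Ideal (MvPolynomial (Fin (N + 1)) ℂ)) [P.IsPrime] (Λ : AddSubgroup (Cn (k + 1))) (u : PN N → Cn (k + 1) ⧸ Λ)
    (D : Set (Cn (k + 1))) (Q : MvPolynomial (Fin (N + 1)) ℂ) : Prop where
  /-- there are finitely many meromorphic maps `ℂ^(k+1) → X` over the torus -/
  finite : ∃ s : Set (Cn (k + 1) → Cn (N + 1)), s.Finite ∧ s ⊆ merSections (projVar P) Λ u ∧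
    ∀ Φ ∈ merSections (projVar P) Λ u, ∃ Ψ ∈ s, SameProjMap Φ Ψ
  /-- they are invariant under `M Λ` -/
  periodic : ∃ M : ℕ, 1 ≤ M ∧ ∀ Φ ∈ merSections (projVar P) Λ u, ∀ l ∈ Λ, SameProjMap Φ fun y => Φ (y + M • l)
  /-- the form `Q` is not `0` on `X` -/
  form : (∃ e, Q.IsHomogeneous e) ∧ Q ∉ P
  /-- it is `0` on the fibres over `D` -/
  singular : ∀ x ∈ projVar P, (∃ y ∈ D, u x = (y : Cn (k + 1) ⧸ Λ)) → VanishesAt Q x
  /-- it is `0` on the images of the meromorphic maps over the torus -/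
  sections : ∀ Φ ∈ merSections (projVar P) Λ u, ∀ y, eval (Φ y) Q = 0
  /-- the maps from semi-abelian varieties -/
  maps : ∀ S : SabMap N, imageOf S.F ⊆ projVar P → SabCases (projVar P) Λ u D S
  /-- if the torus is simple, the special set is contained in the hypersurface `Q = 0` -/
  special : SimpleTorus Λ → ∀ x ∈ sabSpecialSet (projVar P), VanishesAt Q x
  /-- if the torus is simple, the special set of every variety `Y` of the same dimension with a dominant rational map to `X` is a proper subset of `Y`, and so is the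
  special set of every closed subvariety of `Y` which is not contained in a certain proper closed subset `{T = 0}` of `Y` -/
  models : SimpleTorus Λ → ∀ (M : ℕ) (P' : Ideal (MvPolynomial (Fin (M + 1)) ℂ)) [P'.IsPrime], Homog P' →
    (∃ z : Fin (k + 2) → FunField P', IsTranscendenceBasis ℂ z) → Nonempty (FunField P →ₐ[ℂ] FunField P') →
    sabSpecialSet (projVar P') ≠ projVar P' ∧ ∃ T : MvPolynomial (Fin (M + 1)) ℂ, (∃ e, T.IsHomogeneous e) ∧ T ∉ P' ∧
      ∀ (R : Ideal (MvPolynomial (Fin (M + 1)) ℂ)) [R.IsPrime], Homog R → P' ≤ R → T ∉ R → sabSpecialSet (projVar R) ≠ projVar R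

end Pool.Agent.TGF

end
end
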