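import Pool.Agent.H94.PX4.M39
import Pool.Agent.H94.PX4.M45
import Pool.Agent.H94.PX4.M48
import Pool.Agent.H94.PX4.M50
import Pool.Agent.H94.PX4.M52
import Pool.Agent.H94.PX4.M55
import Pool.Agent.H94.PX4.M57
import Pool.Agent.H94.PX4.PX.Bas

/-! The parts of this file: H13.CV.EllR, H13.CV.RatB, H13.CV.StrA, LT.Rs, PX.FrA. -/

section

/-!
# CV EllR: the relation between the generators

`ell_rel`: elimination: `v² / u³` has order `0`, value `c ≠ 0` at `E` (`exists_value`, `res_eq_zero_iff`): `v² - c u³` has order `≥ -5` (or is `0`); `uv` has order `-5`: subtract `a u v` with `a` the value of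
`(v² - c u³) / (u v)`: the order is `≥ -4`; subtract `d u²`, `b v`, `e u` in the same way: the rest has order `≥ -1` at `E`, no other poles, so it is a constant.
-/

set_option autoImplicit false

open Pool.Agent.H23.Fano (PrimeDivisorOver Form regularForms)

noncomputable section

namespace Pool.Agent.H13.CV

variable {K : Type} [Field K] [Algebra ℂ K]

private theorem step (hK : CurveField K) {E : Place K} {n : ℤ} {r g : K} (hr : (n : WithTop ℤ) ≤ E.ord r)
    (hg0 : g ≠ 0) (hg : oz E g = n) : ∃ a : ℂ, ((n + 1 : ℤ) : WithTop ℤ) ≤ E.ord (r - algebraMap ℂ K a * g) := by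
  have hq : 0 ≤ E.ord (r / g) := by
    rw [nonneg_iff]
    rcases le_ord_iff.1 hr with h | h
    · left
      rw [h, zero_div]
    · by_cases hr0 : r = 0
      · left
        rw [hr0, zero_div]
      · right
        rw [oz_div E hr0 hg0, hg]
        linarith
  obtain ⟨a, ha⟩ := exists_value hK hq
  refine ⟨a, ?_⟩
  have e : r - algebraMap ℂ K a * g = (r / g - algebraMap ℂ K a) * g := by
    rw [sub_mul, div_mul_cancel₀ _ hg0]
  rw [e, le_ord_iff]
  by_cases h0 : r / g - algebraMap ℂ K a = 0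
  · left
    rw [h0, zero_mul]
  · right
    rcases pos_iff.1 ha with h | h
    · exact absurd h h0
    · rw [oz_mul E h0 hg0, hg]
      linarith

theorem ell_rel (hK : CurveField K) {E : Place K} (h1 : ∀ f ∈ LD (dv E 1), ∃ c : ℂ, f = algebraMap ℂ K c) {u v : K} (hu : oz E u = -2) (hv : oz E v = -3)
    (hu' : ∀ E', E' ≠ E → 0 ≤ E'.ord u) (hv' : ∀ E', E' ≠ E → 0 ≤ E'.ord v) :
    ∃ c a d b e f : ℂ, c ≠ 0 ∧ v ^ 2 = algebraMap ℂ K c * u ^ 3 + algebraMap ℂ K a * (u * v) + algebraMap ℂ K d * u ^ 2 + algebraMap ℂ K b * v +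
      algebraMap ℂ K e * u + algebraMap ℂ K f := by
  have hu0 : u ≠ 0 := by
    rintro rfl
    rw [oz_zero] at hu
    norm_num at hu
  have hv0 : v ≠ 0 := by
    rintro rfl
    rw [oz_zero] at hv
    norm_num at hv
  have ozv2 : oz E (v ^ 2) = -6 := by
    rw [oz_pow, hv]
    norm_num
  have ozu3 : oz E (u ^ 3) = -6 := by
    rw [oz_pow, hu]
    norm_num
  have ozu2 : oz E (u ^ 2) = -4 := by
    rw [oz_pow, hu]
    norm_num
  have ozuv : oz E (u * v) = -5 := by
    rw [oz_mul E hu0 hv0, hu, hv]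
    norm_num
  obtain ⟨c, hc⟩ := step hK (E := E) (n := -6) (r := v ^ 2) (g := u ^ 3)
    (le_ord_iff.2 (Or.inr (le_of_eq ozv2.symm))) (pow_ne_zero 3 hu0) ozu3
  have hc0 : c ≠ 0 := by
    rintro rfl
    rw [map_zero, zero_mul, sub_zero] at hc
    rcases le_ord_iff.1 hc with h | h
    · exact pow_ne_zero 2 hv0 h
    · rw [ozv2] at h
      norm_num at h
  obtain ⟨a, ha⟩ := step hK (E := E) (n := -5) (r := v ^ 2 - algebraMap ℂ K c * u ^ 3) (g := u * v)
    (by simpa using hc) (mul_ne_zero hu0 hv0) ozuv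
  obtain ⟨d, hd⟩ := step hK (E := E) (n := -4) (r := v ^ 2 - algebraMap ℂ K c * u ^ 3 - algebraMap ℂ K a * (u * v)) (g := u ^ 2)
    (by simpa using ha) (pow_ne_zero 2 hu0) ozu2
  obtain ⟨b, hb⟩ := step hK (E := E) (n := -3)
    (r := v ^ 2 - algebraMap ℂ K c * u ^ 3 - algebraMap ℂ K a * (u * v) - algebraMap ℂ K d * u ^ 2) (g := v)
    (by simpa using hd) hv0 hv
  obtain ⟨e, he⟩ := step hK (E := E) (n := -2)
    (r := v ^ 2 - algebraMap ℂ K c * u ^ 3 - algebraMap ℂ K a * (u * v) - algebraMap ℂ K d * u ^ 2 - algebraMap ℂ K b * v) (g := u)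
    (by simpa using hb) hu0 hu
  obtain ⟨f, hf⟩ := h1 (v ^ 2 - algebraMap ℂ K c * u ^ 3 - algebraMap ℂ K a * (u * v) - algebraMap ℂ K d * u ^ 2 -
    algebraMap ℂ K b * v - algebraMap ℂ K e * u) (by
      rw [mem_LD]
      intro E'
      by_cases hE : E' = E
      · subst hE
        have : dv E' 1 E' = 1 := by simp [dv]
        rw [this]
        simpa using he
      · have : dv E 1 E' = 0 := by simp [dv, hE]
        rw [this]
        have hu1 := hu' E' hE
        have hv1 := hv' E' hE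
        have := nonneg_sub (nonneg_sub (nonneg_sub (nonneg_sub (nonneg_sub (nonneg_pow hv1 2)
          (nonneg_mul (const_nonneg E' c) (nonneg_pow hu1 3)))
          (nonneg_mul (const_nonneg E' a) (nonneg_mul hu1 hv1)))
          (nonneg_mul (const_nonneg E' d) (nonneg_pow hu1 2)))
          (nonneg_mul (const_nonneg E' b) hv1))
          (nonneg_mul (const_nonneg E' e) hu1)
        simpa using this)
  exact ⟨c, a, d, b, e, f, hc0, by linear_combination hf⟩

end Pool.Agent.H13.CV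

end
end

section

/-!
# CV RatB: rational function fields

Let `K = ℂ(t)`; `t` is transcendental (`hK.exists_tr`: if `t` were algebraic then all elements of `K` would be algebraic).
(1) `mob`: `IntermediateField.adjoin ℂ {t'} = ⊤` for `t' = t - c`, `t⁻¹`, `c t` (`c ≠ 0`): `t` is in `adjoin ℂ {t'}`.
(2) `oz_eq`: if `adjoin ℂ {s} = ⊤` then there is at most one place with `0 < ord s`, and `oz E s = 1` there (`sum_le` with `L = ⊤ = ℂ(s)`, `finrank ⊤ K = 1`, or with `T = {E}` and `T = {E, E'}`).  The same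
for `ord s < 0` and `oz E s = -1` (`s⁻¹`).
(3) Given places `E₁ ≠ E₂` there is `s` with `adjoin ℂ {s} = ⊤`, `0 < ord_{E₁} s`, `ord_{E₂} s < 0`: replacing `t` by `t⁻¹` if necessary we may assume that `t` has a value `c₂` at `E₂` (`exists_value`), replacing it by
`(t - c₂)⁻¹` we may assume that `ord_{E₂} t < 0`; by (2) `t` has no pole at `E₁`, so it has a value `c₁`: `s = t - c₁`.
(4) If all places in `B` are among two places `E₁, E₂`: if `E₁ ≠ E₂` take `t' = s` as in (3); if `E₁ = E₂` choose `t' = t - c` or `t` with `oz E₁ t' ≠ 0`.  If `B` is empty: `t' = t`.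
(5) Otherwise there are three different places `E₁, E₂, E₃` in `B`.  `s` as in (3); at `E₃` it has no pole and no zero (2), so it has a value `c ≠ 0`; replace `s` by `s / c`, so that the value at `E₃` is `1`.
`lgt_of_forms` with `m = 1`, `ω = dx s`, `f₀ = s⁻¹`, `f₁ = (s - 1)⁻¹`; `f₁ / f₀ = s / (s - 1)` is not a constant.  Check at a place `E` with `pole_mk` (`p = 1` in `B`, `p = 0` otherwise):
* `0 < ord s`: `E = E₁`, `oz E s = 1`, `oz E f₀ = -1`, `oz E f₁ = 0`: `-1 + (1 - 1) + 1 ≥ 0`.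
* `ord s < 0`: `E = E₂`, `oz E s = -1`, `oz E f₀ = oz E f₁ = 1`: `1 + (-1 - 1) + 1 ≥ 0`.
* otherwise `s` has a value `c ≠ 0` at `E`; `dx s = dx (s - c)` (`dx_sub_const`) and `oz E (s - c) = 1` by (2).  If `c = 1` then `E = E₃` by (2) for `s - 1`: `oz E f₁ = -1`, `oz E f₀ = 0`: `-1 + 0 + 1 ≥ 0`.
If `c ≠ 1`: `oz E f₀ = oz E f₁ = 0`.
-/

set_option autoImplicit false

open Pool.Agent.H23.Fano (PrimeDivisorOver Form regularForms)
open Pool.Agent.H17LG.Variety (PoleAtMost IsLogGeneralType)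

noncomputable section

namespace Pool.Agent.H13.CV

variable {K : Type} [Field K] [Algebra ℂ K]

private lemma tr_of_top (hK : CurveField K) {t : K} (ht : IntermediateField.adjoin ℂ {t} = ⊤) : Transcendental ℂ t := by
  by_contra hal
  obtain ⟨c, hc⟩ : ∃ c : ℂ, t = algebraMap ℂ K c := by
    by_contra h
    push Not at h
    exact hal (transcendental_of_not_const h)
  obtain ⟨x, hx⟩ := hK.exists_tr
  have h1 : IntermediateField.adjoin ℂ {t} = (⊥ : IntermediateField ℂ K) := by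
    rw [IntermediateField.adjoin_simple_eq_bot_iff, IntermediateField.mem_bot]
    exact ⟨c, hc.symm⟩
  have h2 : x ∈ (⊥ : IntermediateField ℂ K) := by
    rw [← h1, ht]
    exact IntermediateField.mem_top
  rw [IntermediateField.mem_bot] at h2
  obtain ⟨d, hd⟩ := h2
  exact hx (hd ▸ isAlgebraic_algebraMap d)

private lemma gen_top (hK : CurveField K) {t : K} (ht : IntermediateField.adjoin ℂ {t} = ⊤) : Gen (⊤ : IntermediateField ℂ K) t :=
  ⟨tr_of_top hK ht, ht.symm⟩

private lemma fin_top : FiniteDimensional (⊤ : IntermediateField ℂ K) K :=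
  Module.finite_of_finrank_pos (by rw [IntermediateField.finrank_top]; norm_num)

private lemma one_le_oz {s : K} (hs : Gen (⊤ : IntermediateField ℂ K) s) {E : Place K} (hE : 0 < E.ord s) : 1 ≤ oz E s :=
  (pos_iff.1 hE).resolve_left hs.ne_zero

private lemma oz_zero_eq {s : K} (hs : Gen (⊤ : IntermediateField ℂ K) s) {E : Place K} (hE : 0 < E.ord s) : oz E s = 1 := by
  have := fin_top (K := K)
  have h1 := sum_le hs {E} (by
    intro E' hE'
    rw [Finset.mem_singleton] at hE'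
    rwa [hE'])
  rw [Finset.sum_singleton, IntermediateField.finrank_top] at h1
  have h2 := one_le_oz hs hE
  push_cast at h1
  omega

private lemma zero_uniq {s : K} (hs : Gen (⊤ : IntermediateField ℂ K) s) {E E' : Place K} (hE : 0 < E.ord s) (hE' : 0 < E'.ord s) : E = E' := by
  classical
  by_contra hne
  have := fin_top (K := K)
  have h1 := sum_le hs {E, E'} (by
    intro E'' hE''
    rw [Finset.mem_insert, Finset.mem_singleton] at hE''
    rcases hE'' with h | h
    · rwa [h]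
    · rwa [h])
  rw [Finset.sum_pair hne, IntermediateField.finrank_top] at h1
  have h2 := one_le_oz hs hE
  have h3 := one_le_oz hs hE'
  push_cast at h1
  omega

private lemma oz_pole_eq {s : K} (hs : Gen (⊤ : IntermediateField ℂ K) s) {E : Place K} (hE : E.ord s < 0) : oz E s = -1 := by
  have h1 := oz_zero_eq hs.inv ((inv_pos_iff hs.ne_zero).2 hE)
  rw [oz_inv] at h1
  omega

private lemma pole_uniq {s : K} (hs : Gen (⊤ : IntermediateField ℂ K) s) {E E' : Place K} (hE : E.ord s < 0) (hE' : E'.ord s < 0) : E = E' :=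
  zero_uniq hs.inv ((inv_pos_iff hs.ne_zero).2 hE) ((inv_pos_iff hs.ne_zero).2 hE')

private lemma pole_sub {s : K} {E : Place K} (hE : E.ord s < 0) (c : ℂ) : E.ord (s - algebraMap ℂ K c) < 0 := by
  by_contra h
  push Not at h
  have h1 := nonneg_add h (const_nonneg E c)
  rw [sub_add_cancel] at h1
  exact absurd hE (not_lt.2 h1)

private lemma oz_sub {s : K} (hs : Gen (⊤ : IntermediateField ℂ K) s) {E : Place K} {a b : ℂ} (h : 0 < E.ord (s - algebraMap ℂ K a)) (hab : a ≠ b) :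
    oz E (s - algebraMap ℂ K b) = 0 := by
  have h1 : oz E (s - algebraMap ℂ K a) = 1 := oz_zero_eq (hs.sub_const a) h
  have h2 : (algebraMap ℂ K (a - b)) ≠ 0 := by
    rw [Ne, map_eq_zero, sub_eq_zero]
    exact hab
  have h3 := (oz_add_of_lt E h2 (hs.sub_const a).ne_zero (by rw [oz_const, h1]; norm_num)).2
  rw [oz_const] at h3
  rw [← h3]
  congr 1
  rw [map_sub]
  ring

private lemma exists_two (hK : CurveField K) {t : K} (ht : Gen (⊤ : IntermediateField ℂ K) t) {E₁ E₂ : Place K} (hne : E₁ ≠ E₂) :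
    ∃ s : K, Gen (⊤ : IntermediateField ℂ K) s ∧ 0 < E₁.ord s ∧ E₂.ord s < 0 := by
  obtain ⟨t', ht', hp⟩ : ∃ t' : K, Gen (⊤ : IntermediateField ℂ K) t' ∧ E₂.ord t' < 0 := by
    by_cases h : E₂.ord t < 0
    · exact ⟨t, ht, h⟩
    · push Not at h
      obtain ⟨c, hc⟩ := exists_value hK h
      refine ⟨(t - algebraMap ℂ K c)⁻¹, (ht.sub_const c).inv, ?_⟩
      rw [neg_iff, oz_inv, oz_zero_eq (ht.sub_const c) hc]
      norm_num
  have h1 : 0 ≤ E₁.ord t' := by
    by_contra h
    push Not at h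
    exact hne (pole_uniq ht' h hp)
  obtain ⟨c, hc⟩ := exists_value hK h1
  exact ⟨t' - algebraMap ℂ K c, ht'.sub_const c, hc, pole_sub hp c⟩

private lemma lgt_three (hK : CurveField K) {B : Place K → Prop} {s : K} (hs : Gen (⊤ : IntermediateField ℂ K) s) {E₁ E₂ E₃ : Place K}
    (hB₁ : B E₁) (hB₂ : B E₂) (hB₃ : B E₃) (h13 : E₁ ≠ E₃) (h23 : E₂ ≠ E₃) (h1 : 0 < E₁.ord s) (h2 : E₂.ord s < 0) : IsLogGeneralType B := by
  have h3 : 0 ≤ E₃.ord s := by
    by_contra h
    push Not at h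
    exact h23 (pole_uniq hs h2 h)
  obtain ⟨c, hc⟩ := exists_value hK h3
  have hc0 : c ≠ 0 := by
    rintro rfl
    rw [map_zero, sub_zero] at hc
    exact h13 (zero_uniq hs h1 hc)
  have h1' : 0 < E₁.ord (s - algebraMap ℂ K 0) := by rwa [map_zero, sub_zero]
  have hs0 : s ≠ 0 := hs.ne_zero
  have hsc : s - algebraMap ℂ K c ≠ 0 := (hs.sub_const c).ne_zero
  -- the orders of the two forms
  have key : ∀ E : Place K, (¬ B E → PoleAtMost 0 E 1 s⁻¹ (dx s) ∧ PoleAtMost 0 E 1 (s - algebraMap ℂ K c)⁻¹ (dx s)) ∧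
      (B E → PoleAtMost 1 E 1 s⁻¹ (dx s) ∧ PoleAtMost 1 E 1 (s - algebraMap ℂ K c)⁻¹ (dx s)) := by
    intro E
    by_cases hpos : 0 < E.ord s
    · obtain rfl := zero_uniq hs h1 hpos
      have e1 := oz_zero_eq hs h1
      have e2 := oz_sub hs h1' hc0.symm
      refine ⟨fun h => absurd hB₁ h, fun _ => ⟨pole_mk _ hs0 (Or.inr ?_), pole_mk _ hs0 (Or.inr ?_)⟩⟩
      · rw [oz_inv, e1]; norm_num
      · rw [oz_inv, e2, e1]; norm_num
    by_cases hneg : E.ord s < 0
    · obtain rfl := pole_uniq hs h2 hneg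
      have e1 := oz_pole_eq hs h2
      have e2 := oz_pole_eq (hs.sub_const c) (pole_sub h2 c)
      refine ⟨fun h => absurd hB₂ h, fun _ => ⟨pole_mk _ hs0 (Or.inr ?_), pole_mk _ hs0 (Or.inr ?_)⟩⟩
      · rw [oz_inv, e1]; norm_num
      · rw [oz_inv, e2, e1]; norm_num
    push Not at hneg
    obtain ⟨c', hc'⟩ := exists_value hK hneg
    have hc'0 : c' ≠ 0 := by
      rintro rfl
      rw [map_zero, sub_zero] at hc'
      exact hpos hc'
    have e0 : oz E s = 0 := by
      have := oz_sub hs hc' hc'0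
      rwa [map_zero, sub_zero] at this
    have e1 : oz E (s - algebraMap ℂ K c') = 1 := oz_zero_eq (hs.sub_const c') hc'
    have hsc' : s - algebraMap ℂ K c' ≠ 0 := (hs.sub_const c').ne_zero
    rw [← dx_sub_const s c']
    by_cases hcc : c' = c
    · subst hcc
      obtain rfl := zero_uniq (hs.sub_const c') hc hc'
      refine ⟨fun h => absurd hB₃ h, fun _ => ⟨pole_mk _ hsc' (Or.inr ?_), pole_mk _ hsc' (Or.inr ?_)⟩⟩
      · rw [oz_inv, e0, e1]; norm_num
      · rw [oz_inv, e1]; norm_num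
    · have e2 : oz E (s - algebraMap ℂ K c) = 0 := oz_sub hs hc' hcc
      refine ⟨fun _ => ⟨pole_mk _ hsc' (Or.inr ?_), pole_mk _ hsc' (Or.inr ?_)⟩, fun _ => ⟨pole_mk _ hsc' (Or.inr ?_), pole_mk _ hsc' (Or.inr ?_)⟩⟩
      · rw [oz_inv, e0, e1]; norm_num
      · rw [oz_inv, e2, e1]; norm_num
      · rw [oz_inv, e0, e1]; norm_num
      · rw [oz_inv, e2, e1]; norm_num
  refine lgt_of_forms hK (dx_ne_zero hs.tr) le_rfl (inv_ne_zero hs0) (f₁ := (s - algebraMap ℂ K c)⁻¹) ?_
    (fun E => ⟨fun h => ((key E).1 h).1, fun h => ((key E).2 h).1⟩) (fun E => ⟨fun h => ((key E).1 h).2, fun h => ((key E).2 h).2⟩)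
  apply tr_of_oz_ne (E := E₁)
  rw [oz_div E₁ (inv_ne_zero hsc) (inv_ne_zero hs0), oz_inv, oz_inv, oz_sub hs h1' hc0.symm, oz_zero_eq hs h1]
  norm_num

theorem rat_cases (hK : CurveField K) {t : K} (ht : IntermediateField.adjoin ℂ {t} = ⊤) (B : Place K → Prop) :
    IsLogGeneralType B ∨ ∃ t' : K, IntermediateField.adjoin ℂ {t'} = ⊤ ∧ ∀ E, B E → oz E t' ≠ 0 := by
  have hg := gen_top hK ht
  by_cases h3 : ∃ E₁ E₂ E₃ : Place K, B E₁ ∧ B E₂ ∧ B E₃ ∧ E₁ ≠ E₂ ∧ E₁ ≠ E₃ ∧ E₂ ≠ E₃
  · left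
    obtain ⟨E₁, E₂, E₃, hB₁, hB₂, hB₃, h12, h13, h23⟩ := h3
    obtain ⟨s, hs, h1, h2⟩ := exists_two hK hg h12
    exact lgt_three hK hs hB₁ hB₂ hB₃ h13 h23 h1 h2
  right
  by_cases h2 : ∃ E₁ E₂ : Place K, B E₁ ∧ B E₂ ∧ E₁ ≠ E₂
  · obtain ⟨E₁, E₂, hB₁, hB₂, h12⟩ := h2
    obtain ⟨s, hs, h1, h2⟩ := exists_two hK hg h12
    refine ⟨s, hs.eq.symm, fun E hE => ?_⟩
    by_cases hE1 : E = E₁
    · rw [hE1, oz_zero_eq hs h1]
      norm_num
    by_cases hE2 : E = E₂
    · rw [hE2, oz_pole_eq hs h2]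
      norm_num
    exact absurd ⟨E₁, E₂, E, hB₁, hB₂, hE, h12, fun h => hE1 h.symm, fun h => hE2 h.symm⟩ h3
  by_cases h1 : ∃ E₁ : Place K, B E₁
  · obtain ⟨E₁, hB₁⟩ := h1
    have hall : ∀ E, B E → E = E₁ := fun E hE => by
      by_contra hne
      exact h2 ⟨E, E₁, hE, hB₁, hne⟩
    by_cases hneg : E₁.ord t < 0
    · refine ⟨t, ht, fun E hE => ?_⟩
      rw [hall E hE, oz_pole_eq hg hneg]
      norm_num
    · push Not at hneg
      obtain ⟨c, hc⟩ := exists_value hK hneg
      refine ⟨t - algebraMap ℂ K c, (hg.sub_const c).eq.symm, fun E hE => ?_⟩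
      rw [hall E hE, oz_zero_eq (hg.sub_const c) hc]
      norm_num
  · exact ⟨t, ht, fun E hE => absurd ⟨E, hE⟩ h1⟩

end Pool.Agent.H13.CV

end
end

section

/-!
# CV StrA: forms which vanish on an entire curve in a curve

`form_of_curve`: let `Q` define a curve, `f : ℂ → openVar Q H` a non-constant entire curve, `R` a form which vanishes at all `f z`.  Then `R ∈ Q`: let `J = mapIdeal f univ` (`Pool/Agent/H17BP/MapIdeal.lean`):
homogeneous, prime (`mapIdeal_isPrime`), `Q ≤ J` (`le_mapIdeal`), `R ∈ J`, `exists_X_notMem`.  If `R ∉ Q` then `trdeg_lt` (`Pool/Agent/H17BP/TrdegLt.lean`; `exists_fin_basis`) shows that `FunField J` has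
transcendence degree `0`, so `variety J` is one point (`eq_of_trdeg_zero`), and `f` is constant (`mem_variety_mapIdeal`): contradiction.  (See the end of the proof of `picard_of_form` in `Pool/Agent/H17BP/Same.lean`.)
-/

set_option autoImplicit false

open Topology Filter MvPolynomial
open Pool.Agent.H17 (PN VanishesAt ZariskiClosedIn HolomorphicInto puncturedDisc)
open Pool.Agent.H17LG.Variety (FunField IsLogGeneralType)
open Pool.Agent.H62.FC (Homog)
open Pool.Agent.H17R (openVar)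

noncomputable section

namespace Pool.Agent.H13.CV

variable {N : ℕ}

theorem form_of_curve0 (Q : Ideal (MvPolynomial (Fin (N + 1)) ℂ)) [Q.IsPrime] (hQ : Homog Q)
    (hz : ∃ z : Fin 1 → FunField Q, IsTranscendenceBasis ℂ z) {f : ℂ → PN N} (hf : HolomorphicInto f Set.univ)
    (hfQ : ∀ z, ∀ R ∈ Q, ∀ n, R.IsHomogeneous n → VanishesAt R (f z)) (hne : ∃ z w, f z ≠ f w) {d : ℕ} {R : MvPolynomial (Fin (N + 1)) ℂ} (hR : R.IsHomogeneous d)
    (hfR : ∀ z, VanishesAt R (f z)) : R ∈ Q := by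
  by_contra hRQ
  set J := Pool.Agent.H17BP.mapIdeal f Set.univ with hJ
  have hJp : J.IsPrime := Pool.Agent.H17BP.mapIdeal_isPrime isOpen_univ isPreconnected_univ Set.univ_nonempty hf
  have hJX : ∃ i, (X i : MvPolynomial (Fin (N + 1)) ℂ) ∉ J := Pool.Agent.H17BP.exists_X_notMem Set.univ_nonempty
  have hJh : Homog J := Pool.Agent.H17BP.mapIdeal_homog
  have hQJ : Q ≤ J := Pool.Agent.H17BP.le_mapIdeal hQ fun z _ => ⟨hfQ z, fun m => m.elim0⟩
  have hRJ : R ∈ J := (Pool.Agent.H17BP.mem_mapIdeal_form hR).2 fun z _ => hfR z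
  obtain ⟨w, hw⟩ := Pool.Agent.H62.FC.exists_fin_basis (P := J) hJX
  have hlt : w < 1 := Pool.Agent.H17BP.trdeg_lt hQ hJh hQJ (fun h => hRQ (h hRJ)) hJX hz hw
  have hw0 : w = 0 := by omega
  subst hw0
  obtain ⟨a, b, hab⟩ := hne
  exact hab (Pool.Agent.H17BP.eq_of_trdeg_zero hJh hJX hw _ (Pool.Agent.H17BP.mem_variety_mapIdeal (Set.mem_univ a)) _
    (Pool.Agent.H17BP.mem_variety_mapIdeal (Set.mem_univ b)))

end Pool.Agent.H13.CV

end
end

section

/-!
# LT Rs: resultants with formal degrees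

* `res_ne`: if `p.coeff D ≠ 0`: `Polynomial.resultant_add_right_deg` reduces to `n = x.natDegree` (if `x ≠ 0`) and `Polynomial.resultant_eq_zero_iff` / `resultant_ne_zero` (`p`, `x` have no common root in `ℂ`, so they are coprime); if `x = 0` then `p` has no root, `D = 0`, `resultant p 0 0 m = p.coeff 0 ^ m`.
  If `p.coeff D = 0`: `x.coeff m ≠ 0`, and `resultant_comm`.
* `regAt_resultant`: the resultant is the determinant of the Sylvester matrix, whose entries are coefficients or `0`; the determinant is a sum of products (`RegAt.sum`, `RegAt.prod`).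
-/

set_option autoImplicit false

open Pool.Agent.LG (Cone GP RegAt)

noncomputable section

namespace Pool.Agent.LT

variable {K : Type} [Field K] [Algebra ℂ K] {N : ℕ} {ξ : Fin (N + 1) → K} {a : Fin (N + 1) → ℂ}

theorem res_ne {p x : Polynomial ℂ} {D m : ℕ} (hp : p.natDegree ≤ D) (hx : x.natDegree ≤ m) (hinf : p.coeff D ≠ 0 ∨ x.coeff m ≠ 0) (h : ∀ t, p.eval t = 0 → x.eval t ≠ 0) : Polynomial.resultant p x D m ≠ 0 := by
  have hco : IsCoprime p x := by
    rw [Polynomial.isCoprime_iff_aeval_ne_zero_of_isAlgClosed ℂ ℂ]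
    intro t
    by_cases h1 : Polynomial.aeval t p = 0
    · right
      rw [Polynomial.coe_aeval_eq_eval] at h1 ⊢
      exact h t h1
    · exact Or.inl h1
  have h0 : Polynomial.resultant p x ≠ 0 := Polynomial.resultant_ne_zero p x hco
  rcases hinf with h1 | h1
  · have hD : p.natDegree = D := le_antisymm hp (Polynomial.le_natDegree_of_ne_zero h1)
    subst hD
    obtain ⟨k, rfl⟩ := Nat.exists_eq_add_of_le hx
    rw [Polynomial.resultant_add_right_deg _ _ _ _ _ le_rfl]
    exact mul_ne_zero (pow_ne_zero _ h1) h0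
  · have hD : x.natDegree = m := le_antisymm hx (Polynomial.le_natDegree_of_ne_zero h1)
    subst hD
    obtain ⟨k, rfl⟩ := Nat.exists_eq_add_of_le hp
    rw [Polynomial.resultant_add_left_deg _ _ _ _ _ le_rfl]
    exact mul_ne_zero (mul_ne_zero (pow_ne_zero _ (neg_ne_zero.2 one_ne_zero))
      (pow_ne_zero _ h1)) h0

private theorem regAt_sign {f : K} {c : ℂ} (h : RegAt ξ a f c) (s : ℤˣ) :
    RegAt ξ a (s • f) (s • c) := by
  rcases Int.units_eq_one_or s with h1 | h1
  · rw [h1, one_smul, one_smul]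
    exact h
  · rw [h1, Units.neg_smul, Units.neg_smul, one_smul, one_smul]
    exact h.neg

private theorem regAt_det {n : ℕ} {M : Matrix (Fin n) (Fin n) K} {A : Matrix (Fin n) (Fin n) ℂ}
    (h : ∀ i j, RegAt ξ a (M i j) (A i j)) : RegAt ξ a M.det A.det := by
  rw [Matrix.det_apply, Matrix.det_apply]
  refine Pool.Agent.LG.RegAt.sum _ _ _ fun σ _ => ?_
  exact regAt_sign (Pool.Agent.LG.RegAt.prod _ _ _ fun i _ => h _ _) _

theorem regAt_resultant {P X : Polynomial K} {p x : Polynomial ℂ} (D m : ℕ) (hP : ∀ i, RegAt ξ a (P.coeff i) (p.coeff i)) (hX : ∀ i, RegAt ξ a (X.coeff i) (x.coeff i)) : RegAt ξ a (Polynomial.resultant P X D m) (Polynomial.resultant p x D m) := by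
  unfold Polynomial.resultant
  refine regAt_det fun i j => ?_
  unfold Polynomial.sylvester
  rw [Matrix.of_apply, Matrix.of_apply]
  induction j using Fin.addCases with
  | left j =>
    rw [Fin.addCases_left, Fin.addCases_left]
    split_ifs
    · exact hX _
    · exact Pool.Agent.LG.RegAt.zero ξ a
  | right j =>
    rw [Fin.addCases_right, Fin.addCases_right]
    split_ifs
    · exact hP _
    · exact Pool.Agent.LG.RegAt.zero ξ a

/-- the resultant is homogeneous -/
theorem res_smul (P X : Polynomial K) (D m : ℕ) (u w : K) : Polynomial.resultant (Polynomial.C u * P) (Polynomial.C w * X) D m = u ^ m * w ^ D * Polynomial.resultant P X D m := by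
  rw [Polynomial.resultant_C_mul_left, Polynomial.resultant_C_mul_right, mul_assoc]

end Pool.Agent.LT

end
end

section

/-!
# PX FrA: the resultant of the two partial derivatives of the form

`dl θ y = 0` iff the form `Fo θ y` has a multiple root (or is `0`), and `dl θ` is entire.
-/

set_option autoImplicit false

open Topology Filter Metric Polynomial

namespace Pool.Agent.PX

open Pool.Agent.H36.BP (EN fs wd)
open Pool.Agent.AD (Vd)

variable {k d : ℕ}

/-- the derivative in the first variable, at `(t, 1)` -/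
noncomputable def dp (θ : Fin (d + 1) → Vd (k + 1) → ℂ) (y : Vd (k + 1)) : ℂ[X] := ∑ i : Fin (d + 1), C (((i : ℕ) : ℂ) * θ i y) * X ^ ((i : ℕ) - 1)

/-- the derivative in the second variable, at `(t, 1)` -/
noncomputable def dq (θ : Fin (d + 1) → Vd (k + 1) → ℂ) (y : Vd (k + 1)) : ℂ[X] := ∑ i : Fin (d + 1), C (((d - (i : ℕ) : ℕ) : ℂ) * θ i y) * X ^ (i : ℕ)

/-- the resultant of the two partial derivatives -/
noncomputable def dl (θ : Fin (d + 1) → Vd (k + 1) → ℂ) (y : Vd (k + 1)) : ℂ := resultant (dp θ y) (dq θ y) (d - 1) (d - 1)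

private theorem dp_coeff (θ : Fin (d + 1) → Vd (k + 1) → ℂ) (y : Vd (k + 1)) (n : ℕ) :
    (dp θ y).coeff n = ∑ i : Fin (d + 1), if n = (i : ℕ) - 1 then ((i : ℕ) : ℂ) * θ i y else 0 := by
  unfold dp
  rw [finset_sum_coeff]
  refine Finset.sum_congr rfl fun i _ => ?_
  rw [coeff_C_mul_X_pow]

private theorem dq_coeff (θ : Fin (d + 1) → Vd (k + 1) → ℂ) (y : Vd (k + 1)) (n : ℕ) :
    (dq θ y).coeff n = ∑ i : Fin (d + 1), if n = (i : ℕ) then ((d - (i : ℕ) : ℕ) : ℂ) * θ i y else 0 := by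
  unfold dq
  rw [finset_sum_coeff]
  refine Finset.sum_congr rfl fun i _ => ?_
  rw [coeff_C_mul_X_pow]

private theorem dp_deg (θ : Fin (d + 1) → Vd (k + 1) → ℂ) (y : Vd (k + 1)) : (dp θ y).natDegree ≤ d - 1 := by
  unfold dp
  refine natDegree_sum_le_of_forall_le _ _ fun i _ => ?_
  refine (natDegree_C_mul_X_pow_le _ _).trans ?_
  have := i.2
  omega

private theorem dq_deg (θ : Fin (d + 1) → Vd (k + 1) → ℂ) (y : Vd (k + 1)) : (dq θ y).natDegree ≤ d - 1 := by
  unfold dq
  refine natDegree_sum_le_of_forall_le _ _ fun i _ => ?_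
  by_cases h : (i : ℕ) = d
  · rw [h, Nat.sub_self, Nat.cast_zero, zero_mul, C_0, zero_mul, natDegree_zero]
    exact Nat.zero_le _
  · refine (natDegree_C_mul_X_pow_le _ _).trans ?_
    have := i.2
    omega

/-- the resultant is `0` iff there is a common root, perhaps at infinity -/
private theorem res_iff {p q : ℂ[X]} {m : ℕ} (hm : 1 ≤ m) (hp : p.natDegree ≤ m) (hq : q.natDegree ≤ m) :
    resultant p q m m = 0 ↔ (p.coeff m = 0 ∧ q.coeff m = 0) ∨ ∃ t, p.eval t = 0 ∧ q.eval t = 0 := by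
  have hlt : ∀ {r : ℂ[X]}, r.natDegree ≤ m → r.coeff m = 0 → r.natDegree < m := by
    intro r hr h0
    refine lt_of_le_of_ne hr fun h => ?_
    have h1 : r.leadingCoeff = 0 := by
      rw [leadingCoeff, h]
      exact h0
    rw [leadingCoeff_eq_zero] at h1
    rw [h1, natDegree_zero] at h
    omega
  have hcop : ∀ {p q : ℂ[X]}, p ≠ 0 ∨ q ≠ 0 → (resultant p q = 0 ↔ ∃ t, p.eval t = 0 ∧ q.eval t = 0) := by
    intro p q hne
    rw [resultant_eq_zero_iff, isCoprime_iff_aeval_ne_zero_of_isAlgClosed ℂ ℂ]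
    constructor
    · rintro ⟨-, h⟩
      push Not at h
      obtain ⟨t, h1, h2⟩ := h
      exact ⟨t, by simpa using h1, by simpa using h2⟩
    · rintro ⟨t, h1, h2⟩
      refine ⟨hne, fun h => ?_⟩
      rcases h t with h3 | h3
      · exact h3 (by simpa using h1)
      · exact h3 (by simpa using h2)
  by_cases h1 : p.coeff m = 0
  · by_cases h2 : q.coeff m = 0
    · rw [resultant_eq_zero_of_lt_lt _ _ _ _ (hlt hp h1) (hlt hq h2)]
      simp [h1, h2]
    · have hqm : q.natDegree = m := le_antisymm hq (le_natDegree_of_ne_zero h2)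
      obtain ⟨c, hc⟩ := Nat.exists_eq_add_of_le hp
      have e1 : resultant p q m m = (-1) ^ (m * c) * q.coeff m ^ c * resultant p q p.natDegree m := by
        conv_lhs => rw [hc]
        rw [resultant_add_left_deg _ _ _ _ _ le_rfl, ← hc]
      have e2 : resultant p q p.natDegree m = resultant p q := by rw [hqm]
      have hq0 : q ≠ 0 := by
        rintro rfl
        exact h2 (coeff_zero _)
      rw [e1, e2, mul_eq_zero, or_iff_right (mul_ne_zero (pow_ne_zero _ (by norm_num)) (pow_ne_zero _ h2)), hcop (Or.inr hq0)]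
      simp [h2]
  · have hpm : p.natDegree = m := le_antisymm hp (le_natDegree_of_ne_zero h1)
    obtain ⟨c, hc⟩ := Nat.exists_eq_add_of_le hq
    have e1 : resultant p q m m = p.coeff m ^ c * resultant p q m q.natDegree := by
      conv_lhs => rw [hc]
      rw [← hc, hc, resultant_add_right_deg _ _ _ _ _ le_rfl]
    have e2 : resultant p q m q.natDegree = resultant p q := by rw [hpm]
    have hp0 : p ≠ 0 := by
      rintro rfl
      exact h1 (coeff_zero _)
    rw [e1, e2, mul_eq_zero, or_iff_right (pow_ne_zero _ h1), hcop (Or.inl hp0)]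
    simp [h1]

private theorem dp_ev (θ : Fin (d + 1) → Vd (k + 1) → ℂ) (y : Vd (k + 1)) (t : ℂ) : (dp θ y).eval t = ∑ i : Fin (d + 1), (((i : ℕ) : ℂ) * θ i y) * t ^ ((i : ℕ) - 1) := by
  unfold dp
  rw [eval_finset_sum]
  refine Finset.sum_congr rfl fun i _ => ?_
  simp

private theorem dq_ev (θ : Fin (d + 1) → Vd (k + 1) → ℂ) (y : Vd (k + 1)) (t : ℂ) : (dq θ y).eval t = ∑ i : Fin (d + 1), (((d - (i : ℕ) : ℕ) : ℂ) * θ i y) * t ^ (i : ℕ) := by
  unfold dq
  rw [eval_finset_sum]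
  refine Finset.sum_congr rfl fun i _ => ?_
  simp

/-- the first partial derivative -/
private noncomputable def dA (θ : Fin (d + 1) → Vd (k + 1) → ℂ) (y : Vd (k + 1)) (a b : ℂ) : ℂ := ∑ i : Fin (d + 1), θ i y * ((i : ℕ) * a ^ ((i : ℕ) - 1) * b ^ (d - (i : ℕ)))

/-- the second partial derivative -/
private noncomputable def dB (θ : Fin (d + 1) → Vd (k + 1) → ℂ) (y : Vd (k + 1)) (a b : ℂ) : ℂ := ∑ i : Fin (d + 1), θ i y * (((d - (i : ℕ) : ℕ) : ℂ) * a ^ (i : ℕ) * b ^ (d - (i : ℕ) - 1))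

private theorem fd_ab (θ : Fin (d + 1) → Vd (k + 1) → ℂ) (y : Vd (k + 1)) (x v : EN 1) : Fd θ y x v = dA θ y (x 0) (x 1) * v 0 + dB θ y (x 0) (x 1) * v 1 := by
  rw [fd_eq]
  unfold dA dB
  rw [Finset.sum_mul, Finset.sum_mul, ← Finset.sum_add_distrib]
  refine Finset.sum_congr rfl fun i _ => ?_
  ring

private theorem dA_one (hd : 3 ≤ d) (θ : Fin (d + 1) → Vd (k + 1) → ℂ) (y : Vd (k + 1)) (t b : ℂ) : dA θ y (b * t) b = b ^ (d - 1) * (dp θ y).eval t := by
  rw [dp_ev]
  unfold dA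
  rw [Finset.mul_sum]
  refine Finset.sum_congr rfl fun i _ => ?_
  by_cases h0 : (i : ℕ) = 0
  · rw [h0]
    simp
  · have h1 : d - 1 = ((i : ℕ) - 1) + (d - (i : ℕ)) := by
      have := i.2
      omega
    rw [h1, pow_add, mul_pow]
    ring

private theorem dB_one (hd : 3 ≤ d) (θ : Fin (d + 1) → Vd (k + 1) → ℂ) (y : Vd (k + 1)) (t b : ℂ) : dB θ y (b * t) b = b ^ (d - 1) * (dq θ y).eval t := by
  rw [dq_ev]
  unfold dB
  rw [Finset.mul_sum]
  refine Finset.sum_congr rfl fun i _ => ?_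
  by_cases h0 : (i : ℕ) = d
  · rw [h0]
    simp
  · have h1 : d - 1 = (i : ℕ) + (d - (i : ℕ) - 1) := by
      have := i.2
      omega
    rw [h1, pow_add, mul_pow]
    ring

private theorem dA_zero (hd : 3 ≤ d) (θ : Fin (d + 1) → Vd (k + 1) → ℂ) (y : Vd (k + 1)) (a : ℂ) : dA θ y a 0 = a ^ (d - 1) * (dp θ y).coeff (d - 1) := by
  rw [dp_coeff]
  unfold dA
  rw [Finset.mul_sum]
  refine Finset.sum_congr rfl fun i _ => ?_
  by_cases h0 : (i : ℕ) = d
  · rw [h0]
    simp
    ring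
  · have h1 : d - (i : ℕ) ≠ 0 := by
      have := i.2
      omega
    have h2 : ¬ d - 1 = (i : ℕ) - 1 := by
      have := i.2
      omega
    rw [if_neg h2, zero_pow h1]
    ring

private theorem dB_zero (hd : 3 ≤ d) (θ : Fin (d + 1) → Vd (k + 1) → ℂ) (y : Vd (k + 1)) (a : ℂ) : dB θ y a 0 = a ^ (d - 1) * (dq θ y).coeff (d - 1) := by
  rw [dq_coeff]
  unfold dB
  rw [Finset.mul_sum]
  refine Finset.sum_congr rfl fun i _ => ?_
  by_cases h0 : (i : ℕ) = d
  · have h2 : ¬ d - 1 = (i : ℕ) := by omega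
    rw [if_neg h2, h0]
    simp
  · by_cases h2 : d - 1 = (i : ℕ)
    · rw [if_pos h2]
      have h3 : d - (i : ℕ) - 1 = 0 := by omega
      rw [h3, pow_zero, ← h2]
      ring
    · have h1 : d - (i : ℕ) - 1 ≠ 0 := by
        have := i.2
        omega
      rw [if_neg h2, zero_pow h1]
      ring

theorem dl_iff (hd : 3 ≤ d) (θ : Fin (d + 1) → Vd (k + 1) → ℂ) (y : Vd (k + 1)) : dl θ y = 0 ↔ ∃ x : EN 1, x ≠ 0 ∧ Fo θ y x = 0 ∧ ∀ v, Fd θ y x v = 0 := by
  unfold dl
  rw [res_iff (by omega) (dp_deg θ y) (dq_deg θ y)]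
  have hfo : ∀ x : EN 1, (∀ v, Fd θ y x v = 0) → Fo θ y x = 0 := by
    intro x h
    have h1 := fd_euler θ y x
    rw [h x] at h1
    have h2 : (d : ℂ) ≠ 0 := by
      have : d ≠ 0 := by omega
      exact_mod_cast this
    exact (mul_eq_zero.1 h1.symm).resolve_left h2
  constructor
  · rintro (⟨h1, h2⟩ | ⟨t, h1, h2⟩)
    · have hx : ∀ v, Fd θ y (WithLp.toLp 2 ![1, 0] : EN 1) v = 0 := by
        intro v
        rw [fd_ab]
        have e0 : (WithLp.toLp 2 ![(1 : ℂ), 0] : EN 1) 0 = 1 := rfl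
        have e1 : (WithLp.toLp 2 ![(1 : ℂ), 0] : EN 1) 1 = 0 := rfl
        rw [e0, e1, dA_zero hd, dB_zero hd, h1, h2]
        ring
      refine ⟨WithLp.toLp 2 ![1, 0], fun h => ?_, hfo _ hx, hx⟩
      have := congrArg (fun x : EN 1 => x 0) h
      simp at this
    · have hx : ∀ v, Fd θ y (WithLp.toLp 2 ![t, 1] : EN 1) v = 0 := by
        intro v
        rw [fd_ab]
        have e0 : (WithLp.toLp 2 ![t, (1 : ℂ)] : EN 1) 0 = 1 * t := (one_mul t).symm
        have e1 : (WithLp.toLp 2 ![t, (1 : ℂ)] : EN 1) 1 = 1 := rfl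
        rw [e0, e1, dA_one hd, dB_one hd, h1, h2]
        ring
      refine ⟨WithLp.toLp 2 ![t, 1], fun h => ?_, hfo _ hx, hx⟩
      have := congrArg (fun x : EN 1 => x 1) h
      simp at this
  · rintro ⟨x, hx, -, h⟩
    have hA : dA θ y (x 0) (x 1) = 0 := by
      have h1 := h (WithLp.toLp 2 ![1, 0])
      rw [fd_ab] at h1
      simpa using h1
    have hB : dB θ y (x 0) (x 1) = 0 := by
      have h1 := h (WithLp.toLp 2 ![0, 1])
      rw [fd_ab] at h1
      simpa using h1
    by_cases h1 : x 1 = 0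
    · have h0 : x 0 ≠ 0 := by
        intro h0
        apply hx
        ext i
        fin_cases i
        · exact h0
        · exact h1
      rw [h1, dA_zero hd] at hA
      rw [h1, dB_zero hd] at hB
      exact Or.inl ⟨(mul_eq_zero.1 hA).resolve_left (pow_ne_zero _ h0), (mul_eq_zero.1 hB).resolve_left (pow_ne_zero _ h0)⟩
    · have h0 : x 0 = x 1 * (x 0 / x 1) := by field_simp
      rw [h0, dA_one hd] at hA
      rw [h0, dB_one hd] at hB
      exact Or.inr ⟨x 0 / x 1, (mul_eq_zero.1 hA).resolve_left (pow_ne_zero _ h1), (mul_eq_zero.1 hB).resolve_left (pow_ne_zero _ h1)⟩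

/-- entire functions are analytic -/
theorem an_vd {m : ℕ} {f : Vd m → ℂ} (hf : Differentiable ℂ f) (y : Vd m) : AnalyticAt ℂ f y := by
  have h2 : ∀ᶠ z in 𝓝 y, ‖f z‖ < ‖f y‖ + 1 := (hf.continuous.norm.continuousAt).eventually_lt_const (by linarith)
  obtain ⟨r, hr, hb⟩ := Metric.eventually_nhds_iff_ball.1 h2
  refine Pool.Agent.TN.osgood_pi hr (M := ‖f y‖ + 1) (fun z hz => (hb z hz).le) fun z _ l => ?_
  have h3 : Differentiable ℂ fun t : ℂ => z + t • (Pi.single l 1 : Vd m) := by fun_prop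
  exact (hf.comp h3) 0

theorem dl_an {θ : Fin (d + 1) → Vd (k + 1) → ℂ} (han : ∀ i, Differentiable ℂ (θ i)) (y : Vd (k + 1)) : AnalyticAt ℂ (dl θ) y := by
  have hθ : ∀ i, AnalyticAt ℂ (θ i) y := fun i => an_vd (han i) y
  have hp : ∀ n, AnalyticAt ℂ (fun y => (dp θ y).coeff n) y := by
    intro n
    simp only [dp_coeff]
    refine Finset.analyticAt_fun_sum _ fun i _ => ?_
    split_ifs
    · exact analyticAt_const.mul (hθ i)
    · exact analyticAt_const
  have hq : ∀ n, AnalyticAt ℂ (fun y => (dq θ y).coeff n) y := by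
    intro n
    simp only [dq_coeff]
    refine Finset.analyticAt_fun_sum _ fun i _ => ?_
    split_ifs
    · exact analyticAt_const.mul (hθ i)
    · exact analyticAt_const
  have hM : ∀ i j : Fin (d - 1 + (d - 1)), AnalyticAt ℂ (fun y => sylvester (dp θ y) (dq θ y) (d - 1) (d - 1) i j) y := by
    intro i j
    refine Fin.addCases (fun j => ?_) (fun j => ?_) j
    · simp only [sylvester, Matrix.of_apply, Fin.addCases_left]
      split_ifs
      · exact hq _
      · exact analyticAt_const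
    · simp only [sylvester, Matrix.of_apply, Fin.addCases_right]
      split_ifs
      · exact hp _
      · exact analyticAt_const
  have e : dl θ = fun y => (sylvester (dp θ y) (dq θ y) (d - 1) (d - 1)).det := rfl
  rw [e]
  simp only [Matrix.det_apply']
  refine Finset.analyticAt_fun_sum _ fun σ _ => ?_
  exact analyticAt_const.mul (Finset.analyticAt_fun_prod _ fun i _ => hM _ _)

end Pool.Agent.PX

end
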