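import Pool.Agent.H94.PX4.M49
import Pool.Agent.H94.PX4.M54
import Pool.Agent.H94.PX4.M56
import Pool.Agent.H94.PX4.M58
import Pool.Agent.H94.PX4.M63

/-! The parts of this file: PX.T.FewT, PX.T.Spec, PX.S.Geo, PX.T.Geo, PX.T.GeoT, PX.T.Minor. -/

section

/-!
# PX T FewT: the set of the points over which the form has few zeros is contained in the zeros of theta functions
-/

set_option autoImplicit false

open Topology Filter Metric MvPolynomial
open Pool.Agent.H17 (PN VanishesAt vanishesAt_mk_iff)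
open Pool.Agent.PX (tht ex eval_ex mem_ex vanishes_iff mk_ne)

noncomputable section

namespace Pool.Agent.COP

variable {k d σ n : ℕ}

/-- the polynomial given by a binary form -/
def gpoly (d : ℕ) (f : MvPolynomial (Fin 2) ℂ) : Polynomial ℂ := ∑ i : Fin (d + 1), f.coeff (ex d i) • Polynomial.X ^ (i : ℕ)

theorem coeff_gpoly (f : MvPolynomial (Fin 2) ℂ) (j : ℕ) : (gpoly d f).coeff j = if j ≤ d then f.coeff (ex d j) else 0 := by
  unfold gpoly
  simp only [Polynomial.finsetSum_coeff, Polynomial.coeff_smul, Polynomial.coeff_X_pow, smul_eq_mul, mul_ite, mul_one, mul_zero]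
  split_ifs with h
  · rw [Finset.sum_eq_single ⟨j, by omega⟩]
    · simp
    · intro i _ hi
      rw [if_neg]
      intro h2
      exact hi (Fin.ext h2.symm)
    · intro h2
      exact absurd (Finset.mem_univ _) h2
  · refine Finset.sum_eq_zero fun i _ => if_neg fun h2 => h ?_
    have := i.2
    omega

theorem natDegree_gpoly (f : MvPolynomial (Fin 2) ℂ) : (gpoly d f).natDegree ≤ d := by
  rw [Polynomial.natDegree_le_iff_coeff_eq_zero]
  intro j hj
  rw [coeff_gpoly, if_neg (by omega)]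

theorem gpoly_ne {f : MvPolynomial (Fin 2) ℂ} (hf : f.IsHomogeneous d) (h : f ≠ 0) : gpoly d f ≠ 0 := by
  intro h0
  obtain ⟨a, ha⟩ := ne_zero_iff.1 h
  obtain ⟨i, hi⟩ := mem_ex hf ha
  have h1 := coeff_gpoly (d := d) f i
  rw [h0, Polynomial.coeff_zero, if_pos (by have := i.2; omega), hi] at h1
  exact ha h1.symm

theorem eval_gpoly {f : MvPolynomial (Fin 2) ℂ} (hf : f.IsHomogeneous d) (α : ℂ) : (gpoly d f).eval α = eval ![α, 1] f := by
  rw [eval_ex hf]
  unfold gpoly
  rw [Polynomial.eval_finsetSum]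
  refine Finset.sum_congr rfl fun i _ => ?_
  simp

theorem eval_inf {f : MvPolynomial (Fin 2) ℂ} (hf : f.IsHomogeneous d) : eval ![1, 0] f = f.coeff (ex d d) := by
  rw [eval_ex hf, Finset.sum_eq_single (Fin.last d)]
  · simp
  · intro i _ hi
    have h1 : d - (i : ℕ) ≠ 0 := by
      have h2 := i.2
      have h3 : (i : ℕ) ≠ d := fun h => hi (Fin.ext h)
      omega
    simp [h1]
  · intro h2
    exact absurd (Finset.mem_univ _) h2

/-- the points of `ℙ^1` -/
def pO : Option ℂ → PN 1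
  | some α => Projectivization.mk ℂ ![α, 1] fun h => one_ne_zero (congrFun h 1)
  | none => Projectivization.mk ℂ ![1, 0] fun h => one_ne_zero (congrFun h 0)

theorem pO_inj : Function.Injective pO := by
  intro a b h
  by_contra hab
  revert h
  rcases a with _ | α <;> rcases b with _ | β
  · exact absurd rfl hab
  · exact (mk_ne _ _).2 (by simp)
  · exact (mk_ne _ _).2 (by simp)
  · refine (mk_ne _ _).2 ?_
    simp only [Matrix.cons_val_zero, Matrix.cons_val_one, mul_one, one_mul]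
    exact fun h => hab (by rw [h])

theorem pO_surj (p : PN 1) : ∃ o, pO o = p := by
  have hp : Projectivization.mk ℂ p.rep p.rep_nonzero = p := p.mk_rep
  by_cases h : p.rep 1 = 0
  · refine ⟨none, Eq.trans ?_ hp⟩
    by_contra hne
    refine (mk_ne _ _).1 hne ?_
    simp [h]
  · refine ⟨some (p.rep 0 / p.rep 1), Eq.trans ?_ hp⟩
    by_contra hne
    refine (mk_ne _ _).1 hne ?_
    simp only [Matrix.cons_val_zero, Matrix.cons_val_one, one_mul]
    exact div_mul_cancel₀ _ h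

/-- the zeros -/
def zO (d : ℕ) (f : MvPolynomial (Fin 2) ℂ) : Finset (Option ℂ) :=
  open Classical in (gpoly d f).roots.toFinset.map Function.Embedding.some ∪ if (gpoly d f).natDegree < d then {none} else ∅

theorem card_zO (f : MvPolynomial (Fin 2) ℂ) : (zO d f).card = nz d (gpoly d f) := by
  classical
  unfold zO nz
  rw [Finset.card_union_of_disjoint, Finset.card_map]
  · congr 1
    split_ifs <;> rfl
  · rw [Finset.disjoint_left]
    intro o ho
    obtain ⟨α, -, rfl⟩ := Finset.mem_map.1 ho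
    split_ifs <;> simp

theorem mem_zO {f : MvPolynomial (Fin 2) ℂ} (hf : f.IsHomogeneous d) (h : f ≠ 0) (o : Option ℂ) : VanishesAt f (pO o) ↔ o ∈ zO d f := by
  classical
  have hg := gpoly_ne hf h
  unfold zO
  rw [Finset.mem_union]
  rcases o with _ | α
  · have h1 : VanishesAt f (pO none) ↔ f.coeff (ex d d) = 0 := by
      rw [← eval_inf hf]
      exact vanishes_iff hf _
    have h2 : f.coeff (ex d d) = 0 ↔ (gpoly d f).natDegree < d := by
      have h3 := coeff_gpoly (d := d) f d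
      rw [if_pos le_rfl] at h3
      rw [← h3]
      constructor
      · intro h4
        refine lt_of_le_of_ne (natDegree_gpoly f) fun h5 => ?_
        have h6 : (gpoly d f).coeff (gpoly d f).natDegree = (gpoly d f).coeff d := congrArg (gpoly d f).coeff h5
        exact (Polynomial.leadingCoeff_ne_zero.2 hg) (h6.trans h4)
      · exact Polynomial.coeff_eq_zero_of_natDegree_lt
    rw [h1, h2]
    constructor
    · intro h4
      right
      rw [if_pos h4]
      exact Finset.mem_singleton_self _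
    · rintro (h4 | h4)
      · obtain ⟨α, -, h5⟩ := Finset.mem_map.1 h4
        exact absurd h5 (by simp)
      · split_ifs at h4 with h5
        · exact h5
        · exact absurd h4 (by simp)
  · have h1 : VanishesAt f (pO (some α)) ↔ (gpoly d f).eval α = 0 := by
      rw [eval_gpoly hf]
      exact vanishes_iff hf _
    rw [h1]
    constructor
    · intro h4
      left
      refine Finset.mem_map.2 ⟨α, Multiset.mem_toFinset.2 ((Polynomial.mem_roots hg).2 h4), rfl⟩
    · rintro (h4 | h4)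
      · obtain ⟨β, h5, h6⟩ := Finset.mem_map.1 h4
        obtain rfl : β = α := Option.some.inj h6
        exact (Polynomial.mem_roots hg).1 (Multiset.mem_toFinset.1 h5)
      · split_ifs at h4
        · exact absurd h4 (by simp)
        · exact absurd h4 (by simp)

theorem hasZeros_iff {f : MvPolynomial (Fin 2) ℂ} (hf : f.IsHomogeneous d) (h : f ≠ 0) : HasZeros n f ↔ n ≤ nz d (gpoly d f) := by
  rw [← card_zO]
  constructor
  · rintro ⟨p, hp, hv⟩
    choose o ho using fun i => pO_surj (p i)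
    have h1 : Function.Injective o := fun i j hij => hp (by rw [← ho i, ← ho j, hij])
    have h2 : (Finset.univ : Finset (Fin n)).card ≤ (zO d f).card := by
      refine Finset.card_le_card_of_injOn o (fun i _ => ?_) h1.injOn
      exact (mem_zO hf h _).1 (by rw [ho]; exact hv i)
    simpa using h2
  · intro hn
    refine ⟨fun i => pO ((zO d f).equivFin.symm (Fin.castLE hn i)), fun i j hij => ?_, fun i => (mem_zO hf h _).2 (Subtype.prop _)⟩
    have h1 := pO_inj hij
    have h2 := (zO d f).equivFin.symm.injective (Subtype.ext h1)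
    exact Fin.castLE_injective hn h2

theorem hasZeros_zero : HasZeros n 0 := by
  refine ⟨fun i => pO (some (i : ℕ)), fun i j hij => ?_, fun i => ?_⟩
  · have h1 := Option.some.inj (pO_inj hij)
    exact Fin.ext (Nat.cast_injective h1)
  · exact map_zero _

/-- A theta function which is `0` at the points over which the form has few zeros. -/
theorem exists_theta {Λ : Sub k} {F : Poly k 1} (hF : IsHolomorphicForm F d) (hq : ∀ l ∈ Λ, ∀ y, ∃ e : ℂ, F (y + l) = C e * F y) {y₁ : Cn (k + 1)} (h0 : F y₁ ≠ 0) (h1 : HasZeros (σ + 2) (F y₁)) :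
    ∃ θ : Cn (k + 1) → ℂ, Differentiable ℂ θ ∧ (∀ l ∈ Λ, ∀ y, ∃ e : ℂ, θ (y + l) = e * θ y) ∧ θ y₁ ≠ 0 ∧ ∀ y, ¬ HasZeros (σ + 2) (F y) → θ y = 0 := by
  classical
  have hinj := psi_inj (gpoly_ne (hF.homogeneous y₁) h0) ((hasZeros_iff (hF.homogeneous y₁) h0).1 h1)
  obtain ⟨B, hB⟩ := (psi (σ := σ) d (gpoly d (F y₁))).exists_leftInverse_of_injective (LinearMap.ker_eq_bot.2 hinj)
  set A : Cn (k + 1) → Matrix (Ix σ) (Ix σ) ℂ := fun y => Matrix.of fun i j => B (psi d (gpoly d (F y)) (Pi.single j 1)) i with hA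
  have hAv : ∀ y c, (A y).mulVec c = B (psi d (gpoly d (F y)) c) := by
    intro y c
    have h2 : c = ∑ j, c j • (Pi.single j 1 : Ix σ → ℂ) := by
      conv_lhs => rw [← Finset.univ_sum_single c]
      refine Finset.sum_congr rfl fun j _ => ?_
      rw [← Pi.single_smul, smul_eq_mul, mul_one]
    conv_rhs => rw [h2, map_sum, map_sum]
    funext i
    rw [Matrix.mulVec, dotProduct, Finset.sum_apply]
    refine Finset.sum_congr rfl fun j _ => ?_
    rw [map_smul, map_smul, Pi.smul_apply, smul_eq_mul, mul_comm]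
    rfl
  have hAe : ∀ y i j, A y i j = ∑ l : Fin (d + 1), (F y).coeff (ex d l) * B (psi d (Polynomial.X ^ (l : ℕ)) (Pi.single j 1)) i := by
    intro y i j
    change B (psi d (∑ i : Fin (d + 1), (F y).coeff (ex d i) • Polynomial.X ^ (i : ℕ)) (Pi.single j 1)) i = _
    rw [psi_sum, map_sum, Finset.sum_apply]
    refine Finset.sum_congr rfl fun l _ => ?_
    rw [map_smul, Pi.smul_apply, smul_eq_mul]
  refine ⟨fun y => (A y).det, ?_, ?_, ?_, ?_⟩
  · have h2 : ∀ i j, Differentiable ℂ fun y => A y i j := by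
      intro i j
      have h3 : (fun y => A y i j) = fun y => ∑ l : Fin (d + 1), (F y).coeff (ex d l) * B (psi d (Polynomial.X ^ (l : ℕ)) (Pi.single j 1)) i := funext fun y => hAe y i j
      rw [h3]
      exact Differentiable.fun_sum fun l _ => (hF.holomorphic _).mul_const _
    have h3 : (fun y => (A y).det) = fun y => ∑ τ : Equiv.Perm (Ix σ), ((Equiv.Perm.sign τ : ℤ) : ℂ) * ∏ i, A y (τ i) i := funext fun y => Matrix.det_apply' _
    rw [h3]
    refine Differentiable.fun_sum fun τ _ => Differentiable.const_mul ?_ _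
    exact fun y => (HasFDerivAt.finsetProd fun i _ => (h2 _ _ y).hasFDerivAt).differentiableAt
  · intro l hl y
    obtain ⟨e, he⟩ := hq l hl y
    refine ⟨e ^ Fintype.card (Ix σ), ?_⟩
    have h2 : A (y + l) = e • A y := by
      ext i j
      rw [Matrix.smul_apply, smul_eq_mul, hAe, hAe, Finset.mul_sum]
      refine Finset.sum_congr rfl fun l' _ => ?_
      rw [he, coeff_C_mul, mul_assoc]
    change (A (y + l)).det = _
    rw [h2, Matrix.det_smul]
  · have h2 : A y₁ = 1 := by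
      ext i j
      have h3 := congrArg (fun L : (Ix σ → ℂ) →ₗ[ℂ] (Ix σ → ℂ) => L (Pi.single j 1) i) hB
      simp only [LinearMap.coe_comp, Function.comp_apply, LinearMap.id_coe, id_eq] at h3
      rw [Matrix.one_apply]
      refine Eq.trans h3 ?_
      rw [Pi.single_apply]
    change (A y₁).det ≠ 0
    rw [h2, Matrix.det_one]
    exact one_ne_zero
  · intro y hy
    have hy0 : F y ≠ 0 := by
      intro h2
      rw [h2] at hy
      exact hy hasZeros_zero
    rw [hasZeros_iff (hF.homogeneous y) hy0] at hy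
    obtain ⟨c, hc, hc0⟩ := psi_ker (σ := σ) (gpoly_ne (hF.homogeneous y) hy0) (natDegree_gpoly _) (by omega)
    refine Matrix.exists_mulVec_eq_zero_iff.1 ⟨c, hc, ?_⟩
    rw [hAv, hc0, map_zero]

end Pool.Agent.COP

end
end

section

/-!
# PX T Spec: the points over which the form has few zeros, and the complement `T`
-/

set_option autoImplicit false

open Topology Filter Metric MvPolynomial
open Pool.Agent.H17 (PN VanishesAt)

noncomputable section

namespace Pool.Agent.COP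

variable {k m d : ℕ} {Λ : Sub k}

/-- the polynomial of a binary form -/
def bpoly (x : Cn (m + 1)) : Polynomial ℂ := ∑ i : Fin (m + 1), x i • Polynomial.X ^ (i : ℕ)

theorem coeff_bpoly (x : Cn (m + 1)) (i : Fin (m + 1)) : (bpoly x).coeff i = x i := by
  unfold bpoly
  simp only [Polynomial.finsetSum_coeff, Polynomial.coeff_smul, Polynomial.coeff_X_pow, smul_eq_mul, mul_ite, mul_one, mul_zero]
  rw [Finset.sum_eq_single i]
  · simp
  · intro j _ hj
    rw [if_neg]
    intro h2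
    exact hj (Fin.ext h2.symm)
  · intro h2
    exact absurd (Finset.mem_univ _) h2

theorem eval_bpoly (x : Cn (m + 1)) (α : ℂ) : (bpoly x).eval α = bin x ![α, 1] := by
  unfold bpoly bin
  rw [Polynomial.eval_finsetSum]
  refine Finset.sum_congr rfl fun i _ => ?_
  simp

theorem bin_inf (x : Cn (m + 1)) : bin x ![1, 0] = x (Fin.last m) := by
  unfold bin
  rw [Finset.sum_eq_single (Fin.last m)]
  · simp
  · intro i _ hi
    have h1 : m - (i : ℕ) ≠ 0 := by
      have h2 := i.2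
      have h3 : (i : ℕ) ≠ m := fun h => hi (Fin.ext h)
      omega
    simp [h1]
  · intro h2
    exact absurd (Finset.mem_univ _) h2

/-- A binary form of positive degree has a zero. -/
theorem exists_zero (hm : 1 ≤ m) (x : Cn (m + 1)) : ∃ p : Cn 2, p ≠ 0 ∧ bin x p = 0 := by
  by_cases h : (bpoly x).degree = 0
  · refine ⟨![1, 0], fun h0 => one_ne_zero (congrFun h0 0), ?_⟩
    rw [bin_inf]
    have h1 := coeff_bpoly x (Fin.last m)
    rw [Polynomial.coeff_eq_zero_of_degree_lt] at h1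
    · exact h1.symm
    · rw [h, Fin.val_last]
      exact_mod_cast hm
  · obtain ⟨α, hα⟩ := IsAlgClosed.exists_root (bpoly x) h
    refine ⟨![α, 1], fun h0 => one_ne_zero (congrFun h0 1), ?_⟩
    rw [← eval_bpoly]
    exact hα

theorem bin_smul (c : ℂ) (x : Cn (m + 1)) (p : Cn 2) : bin (c • x) p = c * bin x p := by
  unfold bin
  rw [Finset.mul_sum]
  refine Finset.sum_congr rfl fun i _ => ?_
  rw [Pi.smul_apply, smul_eq_mul]
  ring

/-- The form is not `0` where the fibre of `T` is not empty. -/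
theorem ne_zero_of_mem (hm : 1 ≤ m) {F : Poly k 1} {y : Cn (k + 1)} {p : PN m} (h : (pt Λ y, p) ∈ coprimeForms Λ m F) : F y ≠ 0 := by
  intro h0
  obtain ⟨q, hq, hz⟩ := exists_zero hm p.rep
  exact h y rfl q hq (by rw [h0, map_zero]) hz

theorem quasi_of {F : Poly k 1} (hF : IsAmple Λ F) : ∀ l ∈ Λ, ∀ y, ∃ e : ℂ, F (y + l) = C e * F y := by
  obtain ⟨r, W, -, h⟩ := hF
  intro l hl y
  obtain ⟨e, -, he⟩ := h.quasiPeriodic l hl y
  exact ⟨e, he⟩

theorem spec_of {F : Poly k 1} (hF : IsHolomorphicForm F d) (hA : IsAmple Λ F) (hm : 1 ≤ m) : IsSpec Λ (coprimeForms Λ m F) (fewZeros Λ (2 * m + 1) F) := by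
  rintro y₁ hy₁ ⟨p, hp⟩
  have h0 := ne_zero_of_mem hm hp
  have h1 : HasZeros (2 * m + 1) (F y₁) := by
    by_contra hcon
    exact hy₁ ⟨y₁, rfl, hcon⟩
  obtain ⟨σ, hσ⟩ : ∃ σ, 2 * m + 1 = σ + 2 := ⟨2 * m - 1, by omega⟩
  rw [hσ] at h1 ⊢
  obtain ⟨θ, hθ, hq, hθ1, hz⟩ := exists_theta hF (quasi_of hA) h0 h1
  refine ⟨θ, hθ, hq, hθ1, ?_⟩
  rintro y ⟨y', hy', hn⟩
  have h2 : -y' + y ∈ Λ := QuotientAddGroup.eq.1 hy'
  obtain ⟨e, he⟩ := hq _ h2 y'
  rw [show y = y' + (-y' + y) by abel, he, hz y' hn, mul_zero]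

end Pool.Agent.COP

end
end

section

/-!
# PX S Geo: the geometric hypotheses for the quasi-projective varieties over the complement of a divisor
-/

set_option autoImplicit false

open Topology Filter Metric MvPolynomial
open Pool.Agent.H17 (PN VanishesAt HolomorphicInto puncturedDisc ZariskiClosedIn vanishesAt_mk_iff)
open Pool.Agent.H17EF (projVar)
open Pool.Agent.H17GT (coordFun functionField)
open Pool.Agent.H17LG.Variety (FunField IsLogGeneralType ratio)
open Pool.Agent.H17R (gen gen_eq_zero_iff ratio_self adjoin_ratio coordFun_ne_zero_iff ratio_ne_zero_iff)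
open Pool.Agent.H62.FC (Homog)
open Pool.Agent.H62.SA (locVar OnBd)
open Pool.Agent.H7.Bir (vals rmap)
open Pool.Agent.TG (Lat)
open Pool.Agent.PX (tht thetaForm_of eval_form eq_zero_iff)
open Pool.Agent.LG (Cone GP RegAt BdG IsType Lft RegL)

noncomputable section

namespace Pool.Agent.COT

variable {k N s d m : ℕ} {Λ : Sub k} {F : Poly k 1} {Q : Ideal (MvPolynomial (Fin (N + 1)) ℂ)} {G : Fin s → MvPolynomial (Fin (N + 1)) ℂ} {u : PN N → Torus Λ} {v : PN N → PN 1}

/-- `y` is over the image of `a` in the torus -/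
def Lf (u : PN N → Torus Λ) (a : Fin (N + 1) → ℂ) (y : Cn (k + 1)) : Prop := ∃ h : a ≠ 0, u (Projectivization.mk ℂ a h) = pt Λ y

theorem exists_rep_smul {a : Fin (N + 1) → ℂ} (ha : a ≠ 0) : ∃ c : ℂ, c ≠ 0 ∧ (Projectivization.mk ℂ a ha).rep = c • a := by
  obtain ⟨c, hc⟩ := Projectivization.exists_smul_eq_mk_rep ℂ a ha
  exact ⟨c, c.ne_zero, hc.symm⟩

theorem mem_of_cone {a : Fin (N + 1) → ℂ} (h : Cone Q a) : Projectivization.mk ℂ a h.1 ∈ projVar Q :=
  fun F hF _ hn => (vanishesAt_mk_iff hn a h.1).2 (h.2 F hF)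

theorem cone_of_mem (hQ : Homog Q) {a : Fin (N + 1) → ℂ} (ha : a ≠ 0) (h : Projectivization.mk ℂ a ha ∈ projVar Q) : Cone Q a := by
  refine ⟨ha, fun F hF => ?_⟩
  have h1 : ∀ n, eval a (homogeneousComponent n F) = 0 := fun n =>
    (vanishesAt_mk_iff (homogeneousComponent_isHomogeneous n F) a ha).1 (h _ (hQ F hF n) n (homogeneousComponent_isHomogeneous n F))
  rw [← sum_homogeneousComponent F, map_sum]
  exact Finset.sum_eq_zero fun n _ => h1 n

theorem loc_of_cone (hG : ∀ i, ∃ n, (G i).IsHomogeneous n) {a : Fin (N + 1) → ℂ} (h : Cone Q a) (hm : ∃ m, eval a (G m) ≠ 0) : Projectivization.mk ℂ a h.1 ∈ locVar Q G := by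
  obtain ⟨m, hm⟩ := hm
  obtain ⟨n, hn⟩ := hG m
  exact ⟨mem_of_cone h, m, fun h0 => hm ((vanishesAt_mk_iff hn a h.1).1 h0)⟩

theorem gp_of [Q.IsPrime] {j₀ : Fin (N + 1)} (hj : coordFun Q j₀ ≠ 0) : GP Q fun i => ratio Q i j₀ := by
  have h1 : ratio Q j₀ j₀ = 1 := ratio_self hj
  refine ⟨fun h => one_ne_zero (h1.symm.trans (congrFun h j₀)), fun D F hF => gen_eq_zero_iff hj hF, ?_⟩
  rw [eq_top_iff, ← adjoin_ratio hj]
  refine IntermediateField.adjoin.mono ℂ _ _ ?_
  rintro _ ⟨i, rfl⟩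
  exact ⟨i, j₀, by rw [h1, div_one]⟩

theorem bd_iff [Q.IsPrime] {j₀ : Fin (N + 1)} (hj : coordFun Q j₀ ≠ 0) {w : ℕ} (E : Pool.Agent.H23.PrimeDivisorOver (FunField Q) w) : BdG (fun i => ratio Q i j₀) G E ↔ OnBd Q G (Pool.Agent.H23.toFano E) := by
  have h1 : ∀ i j, coordFun Q j ≠ 0 → ratio Q i j₀ / ratio Q j j₀ = ratio Q i j := by
    intro i j hj'
    rw [Pool.Agent.H7.Qup.ratio_change' (P := Q) (i := i) (i₀ := j₀) hj', mul_div_cancel_left₀ _ ((ratio_ne_zero_iff hj).2 hj')]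
  unfold BdG OnBd
  refine exists_congr fun j => ?_
  rw [ratio_ne_zero_iff hj]
  refine and_congr_right fun hj' => ?_
  simp only [h1 _ j hj']
  exact Iff.rfl

/-- Theta functions of the same type have a common factor of automorphy. -/
theorem common_factor (hF : IsHolomorphicForm Set.univ F d) (hA : IsAmple Λ F) (hne : ∃ y, F y ≠ 0) {g h : Cn (k + 1) → ℂ} (hg : IsType Λ (tht d F) m g) (hh : IsType Λ (tht d F) m h) :
    ∀ l ∈ Λ, ∀ y, ∃ e : ℂ, g (y + l) = e * g y ∧ h (y + l) = e * h y := by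
  intro l hl y
  obtain ⟨r, W, -, -, hq⟩ := hA
  have hhom : ∀ y, (F y).IsHomogeneous d := fun y => hF.homogeneous y (Set.mem_univ y)
  obtain ⟨y₁, hy₁⟩ := hne
  obtain ⟨i, hi⟩ := (eq_zero_iff (hhom y₁)).1 hy₁
  have hθ : Differentiable ℂ (tht d F i) := differentiableOn_univ.1 (hF.holomorphic _)
  -- the function is not zero near any point
  have hfreq : ∃ᶠ z in 𝓝 y, tht d F i z ≠ 0 := by
    intro hcon
    have h0 : ∀ᶠ z in 𝓝 y, tht d F i z = 0 := hcon.mono fun z hz => by simpa using hz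
    have han : AnalyticOnNhd ℂ (tht d F i) Set.univ := fun z _ => Pool.Agent.PX.an_vd hθ z
    exact hi (han.eqOn_zero_of_preconnected_of_eventuallyEq_zero isPreconnected_univ (Set.mem_univ y) h0 (Set.mem_univ y₁))
  obtain ⟨z, hz, hzi⟩ := Filter.exists_seq_forall_of_frequently hfreq
  set ρ : Cn (k + 1) → ℝ := fun y => Real.exp (∑ j, ‖W j (y + l)‖ ^ 2 - ∑ j, ‖W j y‖ ^ 2) with hρ
  have hρc : Continuous ρ := by
    refine Real.continuous_exp.comp (Continuous.sub (continuous_finsetSum _ fun j _ => ?_) (continuous_finsetSum _ fun j _ => ?_))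
    · exact ((W j).continuous.comp (continuous_id.add continuous_const)).norm.pow 2
    · exact (W j).continuous.norm.pow 2
  choose e he using fun n => hq l hl (z n)
  have h1 : ∀ n j, tht d F j (z n + l) = e n * tht d F j (z n) := by
    intro n j
    rw [tht, (he n).2, coeff_C_mul, tht]
  have h2 : ∀ {g : Cn (k + 1) → ℂ}, IsType Λ (tht d F) m g → ∀ n, g (z n + l) = e n ^ m * g (z n) := by
    intro g hg n
    have h3 := hg.2 l hl (z n) i
    rw [h1, mul_pow] at h3
    have h4 : tht d F i (z n) ^ m ≠ 0 := pow_ne_zero _ (hzi n)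
    refine mul_right_cancel₀ h4 ?_
    rw [h3]
    ring
  obtain ⟨B, hB⟩ := ((hρc.tendsto y).comp hz).bddAbove_range
  have hB' : ∀ n, e n ^ m ∈ closedBall (0 : ℂ) (B ^ m) := by
    intro n
    rw [mem_closedBall_zero_iff, norm_pow]
    refine pow_le_pow_left₀ (norm_nonneg _) ?_ m
    rw [(he n).1]
    exact hB ⟨n, rfl⟩
  obtain ⟨e', -, φ, hφ, hlim⟩ := (isCompact_closedBall (0 : ℂ) (B ^ m)).tendsto_subseq hB'
  have hzφ : Tendsto (fun n => z (φ n)) atTop (𝓝 y) := hz.comp hφ.tendsto_atTop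
  refine ⟨e', ?_, ?_⟩
  · have h3 : Tendsto (fun n => g (z (φ n) + l)) atTop (𝓝 (g (y + l))) := (hg.1.continuous.tendsto _).comp (hzφ.add_const l)
    have h4 : Tendsto (fun n => e (φ n) ^ m * g (z (φ n))) atTop (𝓝 (e' * g y)) := hlim.mul ((hg.1.continuous.tendsto _).comp hzφ)
    exact tendsto_nhds_unique (h3.congr fun n => h2 hg (φ n)) h4
  · have h3 : Tendsto (fun n => h (z (φ n) + l)) atTop (𝓝 (h (y + l))) := (hh.1.continuous.tendsto _).comp (hzφ.add_const l)
    have h4 : Tendsto (fun n => e (φ n) ^ m * h (z (φ n))) atTop (𝓝 (e' * h y)) := hlim.mul ((hh.1.continuous.tendsto _).comp hzφ)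
    exact tendsto_nhds_unique (h3.congr fun n => h2 hh (φ n)) h4

theorem reg_of (hF : IsHolomorphicForm Set.univ F d) (hA : IsAmple Λ F) (hne : ∃ y, F y ≠ 0) (hu : IsRegularTorusMap Q Λ u) : RegL Q Λ (tht d F) (Lf u) := by
  rintro m g h hg hh a y ha ⟨ha0, hy⟩ hhy
  obtain ⟨D, A, B, hAh, hBh, hB, h1⟩ := hu h g hh.1 hg.1 (common_factor hF hA hne hh hg) _ (mem_of_cone ha) y hy.symm hhy
  refine ⟨D, A, B, hAh, hBh, fun h0 => hB ((vanishesAt_mk_iff hBh a ha0).2 h0), ?_⟩
  rintro a' y' ha' ⟨ha0', hy'⟩ hB'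
  obtain ⟨h2, h3⟩ := h1 _ (mem_of_cone ha') (fun h0 => hB' ((vanishesAt_mk_iff hBh a' ha0').1 h0)) y' hy'.symm
  obtain ⟨c, hc, hrep⟩ := exists_rep_smul ha0'
  have h4 : eval (Projectivization.mk ℂ a' ha0').rep A = c ^ D * eval a' A := by
    rw [hrep]
    exact Pool.Agent.H17BP.eval_smul_form hAh c a'
  have h5 : eval (Projectivization.mk ℂ a' ha0').rep B = c ^ D * eval a' B := by
    rw [hrep]
    exact Pool.Agent.H17BP.eval_smul_form hBh c a'
  refine ⟨h2, ?_⟩
  rw [h4, h5, mul_div_mul_left _ _ (pow_ne_zero _ hc), div_eq_div_iff h2 hB'] at h3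
  rw [h3, mul_comm]

theorem lft_of
    (hu : ∀ (x : Cn (N + 1)) (hx : x ≠ 0), Projectivization.mk ℂ x hx ∈ projVar Q → ∃ υ : Cn (N + 1) → Cn (k + 1), AnalyticAt ℂ υ x ∧
      ∀ᶠ x' in 𝓝 x, ∀ hx' : x' ≠ 0, Projectivization.mk ℂ x' hx' ∈ projVar Q → u (Projectivization.mk ℂ x' hx') = pt Λ (υ x')) : Lft Q Λ (Lf u) := by
  constructor
  · intro a ha
    obtain ⟨y, hy⟩ := QuotientAddGroup.mk_surjective (u (Projectivization.mk ℂ a ha.1))
    exact ⟨y, ha.1, hy.symm⟩
  · rintro a y ⟨ha, hy⟩ y'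
    constructor
    · rintro ⟨_, hy'⟩
      have h1 : pt Λ y = pt Λ y' := hy.symm.trans hy'
      have h2 := QuotientAddGroup.eq.1 h1
      rwa [neg_add_eq_sub] at h2
    · intro h
      refine ⟨ha, hy.trans (QuotientAddGroup.eq.2 ?_)⟩
      rwa [neg_add_eq_sub]
  · rintro γ hγ hcone y₀ ⟨h0, hy₀⟩
    obtain ⟨υ, hυ, h1⟩ := hu (γ 0) h0 (mem_of_cone hcone.self_of_nhds)
    have h2 : pt Λ y₀ = pt Λ (υ (γ 0)) := hy₀.symm.trans (h1.self_of_nhds h0 (mem_of_cone hcone.self_of_nhds))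
    have h3 : y₀ - υ (γ 0) ∈ Λ := by
      have h4 := QuotientAddGroup.eq.1 h2.symm
      rwa [neg_add_eq_sub] at h4
    refine ⟨fun t => υ (γ t) + (y₀ - υ (γ 0)), (hυ.comp hγ).add analyticAt_const, by simp, ?_⟩
    filter_upwards [hcone, hγ.continuousAt.eventually h1] with t ht1 ht2
    refine ⟨ht1.1, (ht2 ht1.1 (mem_of_cone ht1)).trans (QuotientAddGroup.eq.2 ?_)⟩
    rwa [neg_add_cancel_left]

end Pool.Agent.COT

end
end

section

/-!
# PX T Geo: the geometric hypotheses for the quasi-projective varieties over `T`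
-/

set_option autoImplicit false

open Topology Filter Metric MvPolynomial
open Pool.Agent.H17 (PN VanishesAt HolomorphicInto puncturedDisc ZariskiClosedIn vanishesAt_mk_iff)
open Pool.Agent.H17EF (projVar)
open Pool.Agent.H17GT (coordFun functionField)
open Pool.Agent.H17LG.Variety (FunField IsLogGeneralType ratio)
open Pool.Agent.H62.FC (Homog)
open Pool.Agent.H62.SA (locVar OnBd)
open Pool.Agent.H7.Bir (vals rmap vals_smul rmap_mk)
open Pool.Agent.PX (tht thetaForm_of eval_form)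
open Pool.Agent.LG (Cone GP RegAt BdG IsType Lft RegL)
open Pool.Agent.COT (exists_rep_smul mem_of_cone cone_of_mem loc_of_cone Lf)
open Pool.Agent.PXF (form)

noncomputable section

namespace Pool.Agent.COP

variable {k N s d m : ℕ} {Λ : Sub k} {F : Poly k 1} {Q : Ideal (MvPolynomial (Fin (N + 1)) ℂ)} {G : Fin s → MvPolynomial (Fin (N + 1)) ℂ} {u : PN N → Torus Λ} {v : PN N → PN m}

/-- `q` are homogeneous coordinates of the image of `a` in `ℙ^m` -/
def Vf (v : PN N → PN m) (a : Fin (N + 1) → ℂ) (q : Cn (m + 1)) : Prop := ∃ (h : a ≠ 0) (hq : q ≠ 0), v (Projectivization.mk ℂ a h) = Projectivization.mk ℂ q hq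

theorem vmap_of
    (hv : ∀ x ∈ projVar Q, ∃ (D : ℕ) (γ : Fin (m + 1) → MvPolynomial (Fin (N + 1)) ℂ), (∀ i, (γ i).IsHomogeneous D) ∧ vals γ x.rep ≠ 0 ∧
      ∀ x' ∈ projVar Q, vals γ x'.rep ≠ 0 → v x' = rmap γ x') (a : Fin (N + 1) → ℂ) (ha : Cone Q a) :
    ∃ (D : ℕ) (γ : Fin (m + 1) → MvPolynomial (Fin (N + 1)) ℂ), (∀ i, (γ i).IsHomogeneous D) ∧ (∃ i, eval a (γ i) ≠ 0) ∧
      ∀ a', Cone Q a' → (∃ i, eval a' (γ i) ≠ 0) → ∀ q : Cn (m + 1), Vf v a' q ↔ ∃ c : ℂ, c ≠ 0 ∧ q = fun i => c * eval a' (γ i) := by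
  obtain ⟨D, γ, hγ, h1, h2⟩ := hv _ (mem_of_cone ha)
  have key : ∀ {a : Fin (N + 1) → ℂ} (ha : a ≠ 0), vals γ (Projectivization.mk ℂ a ha).rep ≠ 0 ↔ ∃ i, eval a (γ i) ≠ 0 := by
    intro a ha
    obtain ⟨c, hc, hrep⟩ := exists_rep_smul ha
    rw [hrep, vals_smul hγ, Ne, smul_eq_zero_iff_right (pow_ne_zero _ hc), ← Ne, Function.ne_iff]
    exact Iff.rfl
  refine ⟨D, γ, hγ, (key ha.1).1 h1, fun a' ha' hne q => ?_⟩
  have h3 : vals γ a' ≠ 0 := Function.ne_iff.2 hne
  have h4 : v (Projectivization.mk ℂ a' ha'.1) = Projectivization.mk ℂ (vals γ a') h3 := by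
    rw [h2 _ (mem_of_cone ha') ((key ha'.1).2 hne), rmap_mk hγ ha'.1 h3]
  constructor
  · rintro ⟨_, hq, h5⟩
    rw [h4, Projectivization.mk_eq_mk_iff'] at h5
    obtain ⟨c, hc⟩ := h5
    have hc0 : c ≠ 0 := by
      rintro rfl
      rw [zero_smul] at hc
      exact h3 hc.symm
    refine ⟨c⁻¹, inv_ne_zero hc0, ?_⟩
    funext i
    have h6 := congrFun hc i
    simp only [Pi.smul_apply, smul_eq_mul] at h6
    change q i = c⁻¹ * vals γ a' i
    rw [← h6, inv_mul_cancel_left₀ hc0]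
  · rintro ⟨c, hc, rfl⟩
    have hq : (fun i => c * eval a' (γ i)) ≠ 0 := by
      intro h0
      apply h3
      funext i
      exact (mul_eq_zero.1 (congrFun h0 i)).resolve_left hc
    refine ⟨ha'.1, hq, ?_⟩
    rw [h4, Projectivization.mk_eq_mk_iff']
    refine ⟨c⁻¹, ?_⟩
    funext i
    simp only [Pi.smul_apply, smul_eq_mul]
    rw [inv_mul_cancel_left₀ hc]
    rfl

theorem fin_of (hfin : ∀ x ∈ projVar Q, {x' | x' ∈ projVar Q ∧ u x' = u x ∧ v x' = v x}.Finite) (γ : ℂ → Fin (N + 1) → ℂ) (y : Cn (k + 1)) (q : Cn (m + 1)) (hγ : AnalyticAt ℂ γ 0)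
    (hc : ∀ᶠ t in 𝓝 (0 : ℂ), Cone Q (γ t)) (hL : ∀ᶠ t in 𝓝 (0 : ℂ), Lf (Λ := Λ) u (γ t) y) (hV : ∀ᶠ t in 𝓝 (0 : ℂ), Vf v (γ t) q) : ∀ᶠ t in 𝓝 (0 : ℂ), ∃ c : ℂ, γ t = c • γ 0 := by
  have h0 : Cone Q (γ 0) := hc.self_of_nhds
  set x₀ := Projectivization.mk ℂ (γ 0) h0.1 with hx₀
  have hfin' := hfin x₀ (mem_of_cone h0)
  obtain ⟨_, hL0⟩ := hL.self_of_nhds
  obtain ⟨_, hq, hV0⟩ := hV.self_of_nhds
  -- the curve avoids the other points of the fibre
  have h1 : ∀ p ∈ {x' | x' ∈ projVar Q ∧ u x' = u x₀ ∧ v x' = v x₀} \ {x₀}, ∀ᶠ t in 𝓝 (0 : ℂ), γ t ∉ Submodule.span ℂ {p.rep} := by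
    intro p hp
    have hcl : IsClosed (Submodule.span ℂ {p.rep} : Set (Fin (N + 1) → ℂ)) := Submodule.closed_of_finiteDimensional _
    have hn : γ 0 ∉ (Submodule.span ℂ {p.rep} : Set (Fin (N + 1) → ℂ)) := by
      intro h2
      obtain ⟨c, hc'⟩ := Submodule.mem_span_singleton.1 h2
      apply hp.2
      rw [Set.mem_singleton_iff, ← p.mk_rep, hx₀, eq_comm, Projectivization.mk_eq_mk_iff']
      exact ⟨c, hc'⟩
    exact hγ.continuousAt.eventually (hcl.isOpen_compl.mem_nhds hn)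
  have h2 := (Filter.eventually_all_finite (hfin'.subset Set.sdiff_subset)).2 h1
  filter_upwards [h2, hc, hL, hV] with t ht hct hLt hVt
  obtain ⟨ht0, hLt⟩ := hLt
  obtain ⟨_, _, hVt⟩ := hVt
  by_contra hcon
  set p := Projectivization.mk ℂ (γ t) ht0 with hp
  have hpx : p ≠ x₀ := by
    intro h3
    rw [hp, hx₀, Projectivization.mk_eq_mk_iff'] at h3
    obtain ⟨c, hc'⟩ := h3
    exact hcon ⟨c, hc'.symm⟩
  refine ht p ⟨⟨mem_of_cone hct, hLt.trans hL0.symm, hVt.trans hV0.symm⟩, hpx⟩ ?_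
  obtain ⟨c, hc0, hrep⟩ := exists_rep_smul ht0
  rw [← hp] at hrep
  rw [hrep]
  refine Submodule.mem_span_singleton.2 ⟨c⁻¹, ?_⟩
  rw [smul_smul, inv_mul_cancel₀ hc0, one_smul]

theorem reg_of (hF : IsHolomorphicForm F d) (hA : IsAmple Λ F) (hne : ∃ y, F y ≠ 0) (hu : IsRegularTorusMap Q Λ u) : RegL Q Λ (tht d F) (Lf u) := COT.reg_of hF.to (ample_to hA) hne hu

theorem off_of (hF : ∀ y, (F y).IsHomogeneous d) (hG : ∀ i, ∃ n, (G i).IsHomogeneous n) (h : ∀ x ∈ locVar Q G, (u x, v x) ∈ coprimeForms Λ m F) (a : Fin (N + 1) → ℂ) (y : Cn (k + 1)) (q : Cn (m + 1))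
    (ha : Cone Q a) (hm : ∃ i, eval a (G i) ≠ 0) (hL : Lf u a y) (hV : Vf v a q) (p : Cn 2) (hp : p ≠ 0) (h0 : form (tht d F) y p = 0) : bin q p ≠ 0 := by
  obtain ⟨_, hy⟩ := hL
  obtain ⟨_, hq, hv⟩ := hV
  have h1 := h _ (loc_of_cone hG ha hm) y hy.symm p hp ((eval_form (hF y) p).symm.trans h0)
  intro h2
  apply h1
  change bin (v (Projectivization.mk ℂ a ha.1)).rep p = 0
  rw [hv]
  obtain ⟨c, hc⟩ := Projectivization.exists_smul_eq_mk_rep ℂ q hq
  rw [← hc, Units.smul_def, bin_smul, h2, mul_zero]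

theorem many_of (hF : ∀ y, (F y).IsHomogeneous d) (hQ : Homog Q) {n : ℕ} (h : ∃ x ∈ locVar Q G, u x ∉ fewZeros Λ n F) :
    ∃ a y, Cone Q a ∧ (∃ i, eval a (G i) ≠ 0) ∧ Lf (Λ := Λ) u a y ∧ ∃ p : Fin n → Cn 2, (∀ i, p i ≠ 0 ∧ form (tht d F) y (p i) = 0) ∧ ∀ i j, i ≠ j → p i 0 * p j 1 ≠ p i 1 * p j 0 := by
  obtain ⟨x, hx, hfew⟩ := h
  obtain ⟨y, hy⟩ := QuotientAddGroup.mk_surjective (u x)
  have h3 : HasZeros n (F y) := by
    by_contra hcon
    exact hfew ⟨y, hy, hcon⟩
  obtain ⟨p, hp, hz⟩ := h3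
  obtain ⟨hxQ, i, hxi⟩ := hx
  have hx0 : x.rep ≠ 0 := x.rep_nonzero
  have hxmk : Projectivization.mk ℂ x.rep hx0 = x := x.mk_rep
  refine ⟨x.rep, y, cone_of_mem hQ hx0 (by rw [hxmk]; exact hxQ), ⟨i, hxi⟩, ⟨hx0, by rw [hxmk]; exact hy.symm⟩, fun i => (p i).rep, fun i => ⟨(p i).rep_nonzero, ?_⟩, fun i j hij h4 => ?_⟩
  · rw [eval_form (hF y)]
    exact hz i
  · apply hij
    apply hp
    rw [← (p i).mk_rep, ← (p j).mk_rep]
    by_contra hne
    exact (Pool.Agent.PX.mk_ne (p i).rep_nonzero (p j).rep_nonzero).1 hne h4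

end Pool.Agent.COP

end
end

section

/-!
# PX T GeoT: the varieties over `T` satisfy the hypotheses of the theorem on varieties of log general type
-/

set_option autoImplicit false

open Topology Filter Metric MvPolynomial
open Pool.Agent.H17 (PN VanishesAt)
open Pool.Agent.H17GT (coordFun)
open Pool.Agent.H17LG.Variety (FunField IsLogGeneralType ratio)
open Pool.Agent.H17R (coordFun_ne_zero_iff)
open Pool.Agent.H62.FC (Homog)
open Pool.Agent.H62.SA (locVar OnBd)
open Pool.Agent.H7.Qup (exists_coord)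
open Pool.Agent.PX (tht thetaForm_of)
open Pool.Agent.LG (BdG)
open Pool.Agent.COT (Lf gp_of bd_iff lft_of)

noncomputable section

namespace Pool.Agent.COP

variable {k N s d m : ℕ} {Λ : Sub k} {F : Poly k 1} {Q : Ideal (MvPolynomial (Fin (N + 1)) ℂ)} {G : Fin s → MvPolynomial (Fin (N + 1)) ℂ} {u : PN N → Torus Λ} {v : PN N → PN m}

theorem geo_of [Q.IsPrime] (hF : IsHolomorphicForm F d) (hA : IsAmple Λ F) (hm : 1 ≤ m) (hQ : Homog Q) (hG : ∀ i, ∃ n, (G i).IsHomogeneous n)
    (h : IsFiniteOver Q G Λ (coprimeForms Λ m F) (fewZeros Λ (2 * m + 1) F) u v) {j₀ : Fin (N + 1)} (hj : coordFun Q j₀ ≠ 0) :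
    Pool.Agent.LT.GeoT Q (fun i => ratio Q i j₀) Λ (tht d F) (Lf u) (Vf v) G := by
  obtain ⟨x, hx, -⟩ := h.notOver
  obtain ⟨y, hy⟩ := QuotientAddGroup.mk_surjective (u x)
  have hne : F y ≠ 0 := ne_zero_of_mem (Λ := Λ) (p := v x) hm (by rw [show pt Λ y = u x from hy]; exact h.maps x hx)
  exact ⟨inferInstance, hQ, gp_of hj, lft_of h.holomorphic, reg_of hF hA ⟨y, hne⟩ h.regularTorus, vmap_of h.regular, hG, off_of hF.homogeneous hG h.maps, fin_of h.finite,
    many_of hF.homogeneous hQ h.notOver⟩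

end Pool.Agent.COP

end
end

section

/-!
# PX T Minor: the set of the points over which the form is `0` or has few zeros is analytic
-/

set_option autoImplicit false

open Topology Filter Metric MvPolynomial
open Pool.Agent.H17 (PN VanishesAt)
open Pool.Agent.PX (tht ex)

noncomputable section

namespace Pool.Agent.COP

variable {k d σ n : ℕ}

/-- An injective matrix has a maximal minor which is not `0`. -/
theorem exists_minor {D : ℕ} {ι : Type} [Fintype ι] [DecidableEq ι] (M : Matrix (Fin D) ι ℂ) (h : ∀ c, M.mulVec c = 0 → c = 0) : ∃ r : ι → Fin D, (M.submatrix r id).det ≠ 0 := by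
  have hspan : Submodule.span ℂ (Set.range M.row) = ⊤ := by
    by_contra hne
    obtain ⟨f, hf, hf0⟩ := Submodule.exists_le_ker_of_lt_top _ (lt_top_iff_ne_top.2 hne)
    have h1 : ∀ x : ι → ℂ, f x = ∑ j, f (Pi.single j 1) * x j := by
      intro x
      conv_lhs => rw [← Finset.univ_sum_single x, map_sum]
      refine Finset.sum_congr rfl fun j _ => ?_
      have h2 : (Pi.single j (x j) : ι → ℂ) = x j • (Pi.single j 1 : ι → ℂ) := by rw [← Pi.single_smul, smul_eq_mul, mul_one]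
      rw [h2, map_smul, smul_eq_mul, mul_comm]
    have h2 : (fun j => f (Pi.single j 1)) = (0 : ι → ℂ) := by
      refine h _ ?_
      funext i
      have h3 : f (M.row i) = 0 := hf0 (Submodule.subset_span ⟨i, rfl⟩)
      rw [h1] at h3
      rw [Matrix.mulVec, dotProduct, Pi.zero_apply, ← h3]
      exact Finset.sum_congr rfl fun j _ => mul_comm _ _
    apply hf
    refine LinearMap.ext fun x => ?_
    rw [h1 x]
    exact Finset.sum_eq_zero fun j _ => by rw [congrFun h2 j, Pi.zero_apply, zero_mul]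
  obtain ⟨κ, a, -, ha, hli⟩ := exists_linearIndependent' ℂ M.row
  rw [hspan] at ha
  set b := Module.Basis.mk hli ha.ge with hb
  set e := (Pi.basisFun ℂ ι).indexEquiv b with he
  refine ⟨a ∘ e, ?_⟩
  have h1 : LinearIndependent ℂ (M.submatrix (a ∘ e) id).row := hli.comp e e.injective
  rw [Matrix.linearIndependent_rows_iff_isUnit, Matrix.isUnit_iff_isUnit_det] at h1
  exact h1.ne_zero

/-- the coefficients of `psi d g (e_j)` -/
def psiM (σ d : ℕ) (g : Polynomial ℂ) : Matrix (Fin (d + σ + 1)) (Ix σ) ℂ := Matrix.of fun i j => (psi d g (Pi.single j 1)).coeff i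

theorem natDegree_psi {g : Polynomial ℂ} (hg : g.natDegree ≤ d) (c : Ix σ → ℂ) : (psi d g c).natDegree ≤ d + σ := by
  rw [psi_apply]
  refine (Polynomial.natDegree_sub_le _ _).trans (max_le ?_ ?_)
  · by_cases h0 : Polynomial.derivative g = 0
    · rw [h0, mul_zero, Polynomial.natDegree_zero]
      exact Nat.zero_le _
    · have h1 : g.natDegree ≠ 0 := by
        intro h1
        apply h0
        rw [Polynomial.eq_C_of_natDegree_eq_zero h1, Polynomial.derivative_C]
      have h2 := Polynomial.natDegree_derivative_lt h1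
      have h3 := natDegree_qp c
      exact Polynomial.natDegree_mul_le.trans (by omega)
  · have h3 := natDegree_lp d c
    exact Polynomial.natDegree_mul_le.trans (by omega)

theorem mulVec_psiM (g : Polynomial ℂ) (c : Ix σ → ℂ) (i : Fin (d + σ + 1)) : (psiM σ d g).mulVec c i = (psi d g c).coeff i := by
  have h2 : c = ∑ j, c j • (Pi.single j 1 : Ix σ → ℂ) := by
    conv_lhs => rw [← Finset.univ_sum_single c]
    refine Finset.sum_congr rfl fun j _ => ?_
    rw [← Pi.single_smul, smul_eq_mul, mul_one]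
  conv_rhs => rw [h2, map_sum, Polynomial.finsetSum_coeff]
  rw [Matrix.mulVec, dotProduct]
  refine Finset.sum_congr rfl fun j _ => ?_
  rw [map_smul, Polynomial.coeff_smul, smul_eq_mul, mul_comm]
  rfl

theorem minors_iff {f : MvPolynomial (Fin 2) ℂ} (hf : f.IsHomogeneous d) :
    (∀ r : Ix σ → Fin (d + σ + 1), ((psiM σ d (gpoly d f)).submatrix r id).det = 0) ↔ ¬ (f ≠ 0 ∧ HasZeros (σ + 2) f) := by
  constructor
  · rintro h ⟨h0, h1⟩
    obtain ⟨r, hr⟩ := exists_minor (psiM σ d (gpoly d f)) fun c hc => by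
      have hinj := psi_inj (gpoly_ne hf h0) ((hasZeros_iff hf h0).1 h1)
      have h2 : psi d (gpoly d f) c = 0 := by
        ext i
        rw [Polynomial.coeff_zero]
        rcases Nat.lt_or_ge i (d + σ + 1) with h3 | h3
        · have h4 := congrFun hc ⟨i, h3⟩
          rw [mulVec_psiM] at h4
          exact h4
        · exact Polynomial.coeff_eq_zero_of_natDegree_lt ((natDegree_psi (natDegree_gpoly f) c).trans_lt (by omega))
      exact hinj (by rw [h2, map_zero])
    exact hr (h r)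
  · intro h r
    obtain ⟨c, hc, hc0⟩ : ∃ c : Ix σ → ℂ, c ≠ 0 ∧ psi d (gpoly d f) c = 0 := by
      by_cases h0 : f = 0
      · refine ⟨Pi.single (Sum.inl 0) 1, fun h1 => ?_, ?_⟩
        · have h2 := congrFun h1 (Sum.inl 0)
          rw [Pi.single_eq_same] at h2
          exact one_ne_zero h2
        · have h1 : gpoly d f = 0 := by
            unfold gpoly
            rw [h0]
            exact Finset.sum_eq_zero fun i _ => by rw [coeff_zero, zero_smul]
          rw [h1, psi_apply, Polynomial.derivative_zero, mul_zero, mul_zero, sub_zero]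
      · have h1 : ¬ HasZeros (σ + 2) f := fun h2 => h ⟨h0, h2⟩
        rw [hasZeros_iff hf h0] at h1
        exact psi_ker (gpoly_ne hf h0) (natDegree_gpoly f) (by omega)
    refine Matrix.exists_mulVec_eq_zero_iff.1 ⟨c, hc, ?_⟩
    funext i
    have h1 : ((psiM σ d (gpoly d f)).submatrix r id).mulVec c i = (psiM σ d (gpoly d f)).mulVec c (r i) := rfl
    rw [h1, mulVec_psiM, hc0]
    rfl

/-- the points of `A` over which the form is `0` or has less than `n` zeros -/
def few' (Λ : Sub k) (n : ℕ) (F : Poly k 1) : Set (Torus Λ) := {t | ∃ y : Cn (k + 1), pt Λ y = t ∧ ¬ (F y ≠ 0 ∧ HasZeros n (F y))}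

theorem hasZeros_C_mul {n : ℕ} {e : ℂ} (he : e ≠ 0) {f : MvPolynomial (Fin 2) ℂ} : HasZeros n (C e * f) ↔ HasZeros n f := by
  unfold HasZeros VanishesAt
  simp only [map_mul, eval_C, mul_eq_zero, he, false_or]

theorem mem_few' {Λ : Sub k} {F : Poly k 1} (hq : ∀ l ∈ Λ, ∀ y, ∃ e : ℂ, e ≠ 0 ∧ F (y + l) = C e * F y) (y : Cn (k + 1)) : pt Λ y ∈ few' Λ n F ↔ ¬ (F y ≠ 0 ∧ HasZeros n (F y)) := by
  constructor
  · rintro ⟨y', hy', h⟩
    have h2 : -y' + y ∈ Λ := QuotientAddGroup.eq.1 hy'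
    obtain ⟨e, he, h3⟩ := hq _ h2 y'
    have h4 : y' + (-y' + y) = y := by abel
    rw [h4] at h3
    rw [h3, hasZeros_C_mul he]
    rintro ⟨h5, h6⟩
    exact h ⟨fun h7 => h5 (by rw [h7, mul_zero]), h6⟩
  · exact fun h => ⟨y, rfl, h⟩

theorem analytic_few' {Λ : Sub k} {F : Poly k 1} (hF : IsHolomorphicForm F d) (hq : ∀ l ∈ Λ, ∀ y, ∃ e : ℂ, e ≠ 0 ∧ F (y + l) = C e * F y) : Pool.Agent.HEF.IsAnalyticIn Λ (few' Λ (σ + 2) F) := by
  classical
  intro y₀
  have hent : ∀ i j, Differentiable ℂ fun y => psiM σ d (gpoly d (F y)) i j := by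
    intro i j
    have h3 : (fun y => psiM σ d (gpoly d (F y)) i j) = fun y => ∑ l : Fin (d + 1), (F y).coeff (ex d l) * (psi (σ := σ) d (Polynomial.X ^ (l : ℕ)) (Pi.single j 1)).coeff i := by
      funext y
      change (psi d (∑ i : Fin (d + 1), (F y).coeff (ex d i) • Polynomial.X ^ (i : ℕ)) (Pi.single j 1)).coeff i = _
      rw [psi_sum, Polynomial.finsetSum_coeff]
      exact Finset.sum_congr rfl fun l _ => by rw [Polynomial.coeff_smul, smul_eq_mul]
    rw [h3]
    exact Differentiable.fun_sum fun l _ => (hF.holomorphic _).mul_const _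
  have hdet : ∀ r : Ix σ → Fin (d + σ + 1), Differentiable ℂ fun y => ((psiM σ d (gpoly d (F y))).submatrix r id).det := by
    intro r
    have h3 : (fun y => ((psiM σ d (gpoly d (F y))).submatrix r id).det) = fun y => ∑ τ : Equiv.Perm (Ix σ), ((Equiv.Perm.sign τ : ℤ) : ℂ) * ∏ i, psiM σ d (gpoly d (F y)) (r (τ i)) i :=
      funext fun y => Matrix.det_apply' _
    rw [h3]
    refine Differentiable.fun_sum fun τ _ => Differentiable.const_mul ?_ _
    exact fun y => (HasFDerivAt.finsetProd fun i _ => (hent _ _ y).hasFDerivAt).differentiableAt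
  have e := Fintype.equivFin (Ix σ → Fin (d + σ + 1))
  refine ⟨_, fun i y => ((psiM σ d (gpoly d (F y))).submatrix (e.symm i) id).det, fun i => ?_, Eventually.of_forall fun y => ?_⟩
  · exact Pool.Agent.PX.an_vd (hdet (e.symm i)) y₀
  · rw [show ((y : Cn (k + 1) ⧸ Λ) ∈ few' Λ (σ + 2) F) = (pt Λ y ∈ few' Λ (σ + 2) F) from rfl, mem_few' hq, ← minors_iff (hF.homogeneous y)]
    exact ⟨fun h i => h _, fun h r => by simpa using h (e r)⟩

end Pool.Agent.COP

end
end
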