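import Pool.Agent.H94.PX4.M07
import Pool.Agent.H94.PX4.M09
import Pool.Agent.H94.PX4.M10
import Pool.Agent.H94.PX4.M13
import Pool.Agent.H94.PX4.M38

/-! The parts of this file: LG.Cv2, LG.Cu, LG.Id, LG.G4b, LG.G4, LG.Fa. -/

section

/-!
# LG Cv2: analytic curves with given derivations

`K = ℂ(s)(y)` (`exists_plane`), `M(s, y) = 0`, `M a + M' b = g₀(s)`.  Every `f ∈ Φ` and its inverse is `p(s, y) / q(s)`; `g = g₀ ∏ q ∈ ℂ[s]`, `g ≠ 0`.  `R = ℂ[s, y, 1 / g]`.
* `Φ`, `Φ⁻¹ ⊆ R`.  `R` is stable under the dual derivation `∂_j` (`dualDer_coord`: `∂_j s_i = δ_ij`; `∂_j y = - (∂_(s_j) M)(s, y) / M'(s, y)`, and `M'(s, y) b(s, y) = g₀`; Leibniz).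
* Take `s₀ ∈ ℂⁿ` with `g(s₀) ≠ 0`, a root `y₀` of `M(s₀, T)` (monic, of positive degree); `M'(s₀, y₀) b = g₀(s₀) ≠ 0`.  The implicit function theorem (`HasStrictFDerivAt`/`AnalyticAt` version, one variable `t`, `M(s₀ + t e_j, T)`) gives `y(t)`, analytic at `0`, `y(0) = y₀`,
  `M(s₀ + t e_j, y(t)) = 0` and `g(s₀ + t e_j) ≠ 0` for `|t| < ε`.
* `ev t : R → ℂ` for `|t| < ε`: `p(s, y) / g^r ↦ p(s₀ + t e_j, y(t)) / g(s₀ + t e_j)^r`; well defined because `ker` (if `p(s, y) = 0` in `K` then `M ∣ p`, and `M(s₀ + t e_j, y(t)) = 0`).  For `|t| ≥ ε` take `ev 0`.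
* `t ↦ ev t f` is analytic at `0` for the generators, so for all `f ∈ R`; both sides of `(ev t f)' = ev t (∂_j f)` are derivations of `f`, and they agree for the generators.
-/

set_option autoImplicit false

open MvPolynomial Topology Filter
open Pool.Agent.H23 (dualDer)

noncomputable section

namespace Pool.Agent.LG

variable {K : Type} [Field K] [Algebra ℂ K] {n : ℕ}

/-- `ev t f`, `f ∈ R`, is the value of the function `f` at the point `t` of a curve along which the derivative of the functions is the derivation `D₀` -/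
structure IsCurve (D₀ : Derivation ℂ K K) (R : Subalgebra ℂ K) (ev : ℂ → R →ₐ[ℂ] ℂ) : Prop where
  stable : ∀ f ∈ R, D₀ f ∈ R
  analytic : ∀ f : R, AnalyticAt ℂ (fun t => ev t f) 0
  deriv : ∀ (f : K) (hf : f ∈ R), ∀ᶠ t in 𝓝 (0 : ℂ), deriv (fun t => ev t ⟨f, hf⟩) t = ev t ⟨D₀ f, stable f hf⟩

/-! ### values of polynomials -/

/-- the value at a point of `ℂⁿ × ℂ` -/
private def cv (z : Fin n → ℂ) (w : ℂ) : Polynomial (MvPolynomial (Fin n) ℂ) →+* ℂ :=
  Polynomial.eval₂RingHom (MvPolynomial.eval z) w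

private lemma cv_apply (z : Fin n → ℂ) (w : ℂ) (p : Polynomial (MvPolynomial (Fin n) ℂ)) :
    cv z w p = p.eval₂ (MvPolynomial.eval z) w := rfl

/-- the value at the point `(s, y)` of `K` as a ring homomorphism -/
private def ph (s : Fin n → K) (y : K) : Polynomial (MvPolynomial (Fin n) ℂ) →+* K :=
  Polynomial.eval₂RingHom (aeval s : MvPolynomial (Fin n) ℂ →ₐ[ℂ] K).toRingHom y

private lemma pv_eq (s : Fin n → K) (y : K) (p : Polynomial (MvPolynomial (Fin n) ℂ)) :
    pv s y p = ph s y p := rfl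

private lemma ph_C (s : Fin n → K) (y : K) (c : MvPolynomial (Fin n) ℂ) :
    ph s y (Polynomial.C c) = aeval s c := by
  change Polynomial.eval₂ _ _ _ = _
  rw [Polynomial.eval₂_C]
  rfl

private lemma ph_X (s : Fin n → K) (y : K) : ph s y Polynomial.X = y := by
  change Polynomial.eval₂ _ _ _ = _
  rw [Polynomial.eval₂_X]

/-- the line through `s₀` -/
private def ln (s₀ : Fin n → ℂ) (j : Fin n) (t : ℂ) : Fin n → ℂ := fun i => s₀ i + (if j = i then t else 0)

private lemma ln_zero (s₀ : Fin n → ℂ) (j : Fin n) : ln s₀ j 0 = s₀ := by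
  funext i
  simp [ln]

private lemma der_aeval (D : Derivation ℂ K K) {s : Fin n → K} {j : Fin n} (hD : ∀ i, D (s i) = if j = i then 1 else 0)
    (c : MvPolynomial (Fin n) ℂ) : D (aeval s c) = aeval s (pderiv j c) := by
  induction c using MvPolynomial.induction_on with
  | C a =>
    rw [MvPolynomial.aeval_C, D.map_algebraMap, pderiv_C, map_zero]
  | add p q hp hq => rw [map_add, map_add, hp, hq, map_add, map_add]
  | mul_X p i hp =>
    rw [map_mul, MvPolynomial.aeval_X, D.leibniz, hp, hD, pderiv_mul, pderiv_X, map_add, map_mul, map_mul,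
      MvPolynomial.aeval_X, smul_eq_mul, smul_eq_mul, Pi.single_apply]
    by_cases h : j = i
    · rw [if_pos h, if_pos h.symm, map_one]; ring
    · rw [if_neg h, if_neg (Ne.symm h), map_zero]; ring

private lemma hasDerivAt_eval (s₀ : Fin n → ℂ) (j : Fin n) (c : MvPolynomial (Fin n) ℂ) (t : ℂ) :
    HasDerivAt (fun t => MvPolynomial.eval (ln s₀ j t) c) (MvPolynomial.eval (ln s₀ j t) (pderiv j c)) t := by
  induction c using MvPolynomial.induction_on with
  | C a =>
    simp only [MvPolynomial.eval_C, pderiv_C, map_zero]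
    exact hasDerivAt_const t a
  | add p q hp hq =>
    simp only [map_add]
    exact hp.add hq
  | mul_X p i hp =>
    have h1 : HasDerivAt (fun t => ln s₀ j t i) (if j = i then 1 else 0) t := by
      by_cases h : j = i
      · simp only [ln, if_pos h]
        exact (hasDerivAt_id t).const_add _
      · simp only [ln, if_neg h]
        exact hasDerivAt_const t _
    have h2 := hp.mul h1
    have h3 : (fun t => MvPolynomial.eval (ln s₀ j t) (p * X i)) =
        (fun t => MvPolynomial.eval (ln s₀ j t) p) * fun t => ln s₀ j t i := by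
      funext t
      simp only [map_mul, MvPolynomial.eval_X, Pi.mul_apply]
    rw [h3]
    refine h2.congr_deriv ?_
    rw [pderiv_mul, pderiv_X, map_add, map_mul, map_mul, MvPolynomial.eval_X, Pi.single_apply]
    by_cases h : j = i
    · rw [if_pos h, if_pos h.symm, map_one]
    · rw [if_neg h, if_neg (Ne.symm h), map_zero]

/-- the partial derivative with respect to `s_j` -/
private lemma exists_q (D : Derivation ℂ K K) {s : Fin n → K} {j : Fin n} (hD : ∀ i, D (s i) = if j = i then 1 else 0)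
    (y : K) (s₀ : Fin n → ℂ) (p : Polynomial (MvPolynomial (Fin n) ℂ)) :
    ∃ q : Polynomial (MvPolynomial (Fin n) ℂ), D (ph s y p) = ph s y q + ph s y (Polynomial.derivative p) * D y ∧
      ∀ (u : ℂ → ℂ) (u' t : ℂ), HasDerivAt u u' t →
        HasDerivAt (fun t => cv (ln s₀ j t) (u t) p)
          (cv (ln s₀ j t) (u t) q + cv (ln s₀ j t) (u t) (Polynomial.derivative p) * u') t := by
  induction p using Polynomial.induction_on' with
  | add p q hp hq =>
    obtain ⟨p', h1, h2⟩ := hp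
    obtain ⟨q', h3, h4⟩ := hq
    refine ⟨p' + q', ?_, ?_⟩
    · rw [map_add, map_add, h1, h3, Polynomial.derivative_add, map_add, map_add]
      ring
    · intro u u' t hu
      have h5 := (h2 u u' t hu).add (h4 u u' t hu)
      have h6 : (fun t => cv (ln s₀ j t) (u t) (p + q)) =
          (fun t => cv (ln s₀ j t) (u t) p) + fun t => cv (ln s₀ j t) (u t) q := by
        funext t
        simp only [map_add, Pi.add_apply]
      rw [h6]
      refine h5.congr_deriv ?_
      rw [Polynomial.derivative_add, map_add, map_add]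
      ring
  | monomial m a =>
    refine ⟨Polynomial.monomial m (pderiv j a), ?_, ?_⟩
    · have h1 : ∀ c : MvPolynomial (Fin n) ℂ, ∀ m : ℕ, ph s y (Polynomial.monomial m c) = aeval s c * y ^ m := by
        intro c m
        change Polynomial.eval₂ _ _ _ = _
        rw [Polynomial.eval₂_monomial]
        rfl
      rw [h1, h1, Polynomial.derivative_monomial, h1, D.leibniz, der_aeval D hD, D.leibniz_pow, map_mul, map_natCast]
      simp only [smul_eq_mul, nsmul_eq_mul]
      ring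
    · intro u u' t hu
      have h1 : ∀ c : MvPolynomial (Fin n) ℂ, ∀ m : ℕ, ∀ z : Fin n → ℂ, ∀ w : ℂ,
          cv z w (Polynomial.monomial m c) = MvPolynomial.eval z c * w ^ m := by
        intro c m z w
        rw [cv_apply, Polynomial.eval₂_monomial]
      simp only [h1, Polynomial.derivative_monomial]
      have h2 := (hasDerivAt_eval s₀ j a t).mul (hu.pow m)
      refine h2.congr_deriv ?_
      rw [map_mul, map_natCast, Pi.pow_apply]
      ring

/-! ### the evaluations -/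

/-- the ring `ℂ[s, y, 1 / g]` -/
private def rg (s : Fin n → K) (y : K) (g : MvPolynomial (Fin n) ℂ) : Subalgebra ℂ K :=
  Algebra.adjoin ℂ (Set.range s ∪ {y, (aeval s g)⁻¹})

private lemma s_mem (s : Fin n → K) (y : K) (g : MvPolynomial (Fin n) ℂ) (i : Fin n) : s i ∈ rg s y g :=
  Algebra.subset_adjoin (Or.inl ⟨i, rfl⟩)

private lemma y_mem (s : Fin n → K) (y : K) (g : MvPolynomial (Fin n) ℂ) : y ∈ rg s y g :=
  Algebra.subset_adjoin (Or.inr (Or.inl rfl))

private lemma inv_mem' (s : Fin n → K) (y : K) (g : MvPolynomial (Fin n) ℂ) : (aeval s g)⁻¹ ∈ rg s y g :=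
  Algebra.subset_adjoin (Or.inr (Or.inr rfl))

private lemma aeval_mem (s : Fin n → K) (y : K) (g c : MvPolynomial (Fin n) ℂ) : aeval s c ∈ rg s y g := by
  induction c using MvPolynomial.induction_on with
  | C a => rw [MvPolynomial.aeval_C]; exact Subalgebra.algebraMap_mem _ _
  | add p q hp hq => rw [map_add]; exact add_mem hp hq
  | mul_X p i hp => rw [map_mul, MvPolynomial.aeval_X]; exact mul_mem hp (s_mem s y g i)

private lemma ph_mem (s : Fin n → K) (y : K) (g : MvPolynomial (Fin n) ℂ) (p : Polynomial (MvPolynomial (Fin n) ℂ)) :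
    ph s y p ∈ rg s y g := by
  induction p using Polynomial.induction_on' with
  | add p q hp hq => rw [map_add]; exact add_mem hp hq
  | monomial m a =>
    change Polynomial.eval₂ _ _ _ ∈ _
    rw [Polynomial.eval₂_monomial]
    exact mul_mem (aeval_mem s y g a) (pow_mem (y_mem s y g) m)

private lemma div_mem (s : Fin n → K) (y : K) {g c : MvPolynomial (Fin n) ℂ} (h0 : aeval s g ≠ 0) (h : c ∣ g) :
    (aeval s c)⁻¹ ∈ rg s y g := by
  obtain ⟨e, rfl⟩ := h
  rw [map_mul] at h0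
  have h1 : (aeval s c)⁻¹ = aeval s e * (aeval s (c * e))⁻¹ := by
    have h2 : aeval s c ≠ 0 := left_ne_zero_of_mul h0
    have h3 : aeval s e ≠ 0 := right_ne_zero_of_mul h0
    rw [map_mul]
    field_simp
  rw [h1]
  exact mul_mem (aeval_mem s y _ e) (inv_mem' s y _)

private lemma exists_rep (s : Fin n → K) (y : K) {g : MvPolynomial (Fin n) ℂ} (h0 : aeval s g ≠ 0) {f : K}
    (hf : f ∈ rg s y g) : ∃ (p : Polynomial (MvPolynomial (Fin n) ℂ)) (r : ℕ), f * aeval s g ^ r = ph s y p := by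
  induction hf using Algebra.adjoin_induction with
  | mem x hx =>
    rcases hx with ⟨i, rfl⟩ | hx
    · exact ⟨Polynomial.C (X i), 0, by rw [ph_C, MvPolynomial.aeval_X, pow_zero, mul_one]⟩
    · rcases hx with rfl | hx
      · exact ⟨Polynomial.X, 0, by rw [ph_X, pow_zero, mul_one]⟩
      · rw [Set.mem_singleton_iff] at hx
        subst hx
        exact ⟨1, 1, by rw [map_one, pow_one, inv_mul_cancel₀ h0]⟩
  | algebraMap c =>
    exact ⟨Polynomial.C (C c), 0, by rw [ph_C, MvPolynomial.aeval_C, pow_zero, mul_one]⟩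
  | add x y' _ _ hx hy =>
    obtain ⟨p, r, h1⟩ := hx
    obtain ⟨p', r', h2⟩ := hy
    refine ⟨p * Polynomial.C g ^ r' + p' * Polynomial.C g ^ r, r + r', ?_⟩
    rw [map_add, map_mul, map_mul, map_pow, map_pow, ph_C, ← h1, ← h2]
    ring
  | mul x y' _ _ hx hy =>
    obtain ⟨p, r, h1⟩ := hx
    obtain ⟨p', r', h2⟩ := hy
    refine ⟨p * p', r + r', ?_⟩
    rw [map_mul, ← h1, ← h2]
    ring

/-- the evaluation given by a point of the curve `M = 0` -/
private lemma exists_ev {s : Fin n → K} {y : K} {M : Polynomial (MvPolynomial (Fin n) ℂ)} (hM : Plane s y M)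
    {g : MvPolynomial (Fin n) ℂ} (h0 : aeval s g ≠ 0) (σ : Polynomial (MvPolynomial (Fin n) ℂ) →+* ℂ)
    (hσ : ∀ c : ℂ, σ (Polynomial.C (C c)) = c) (h1 : σ M = 0) (h2 : σ (Polynomial.C g) ≠ 0) :
    ∃ φ : rg s y g →ₐ[ℂ] ℂ, ∀ (f : K) (hf : f ∈ rg s y g) (p : Polynomial (MvPolynomial (Fin n) ℂ)) (r : ℕ),
      f * aeval s g ^ r = ph s y p → φ ⟨f, hf⟩ * σ (Polynomial.C g) ^ r = σ p := by
  have hrep : ∀ f : rg s y g, ∃ (p : Polynomial (MvPolynomial (Fin n) ℂ)) (r : ℕ), (f : K) * aeval s g ^ r = ph s y p :=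
    fun f => exists_rep s y h0 f.2
  choose P r hP using hrep
  have hkey : ∀ (f : rg s y g) (p : Polynomial (MvPolynomial (Fin n) ℂ)) (e : ℕ), (f : K) * aeval s g ^ e = ph s y p →
      σ (P f) / σ (Polynomial.C g) ^ r f * σ (Polynomial.C g) ^ e = σ p := by
    intro f p e h
    have h3 : pv s y (p * Polynomial.C g ^ r f - P f * Polynomial.C g ^ e) = 0 := by
      rw [pv_eq, map_sub, map_mul, map_mul, map_pow, map_pow, ph_C, ← h, ← hP f]
      ring
    obtain ⟨m, hm⟩ := hM.ker _ h3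
    have h4 : σ p * σ (Polynomial.C g) ^ r f = σ (P f) * σ (Polynomial.C g) ^ e := by
      have h5 := congrArg σ hm
      rw [map_sub, map_mul, map_mul, map_pow, map_pow, map_mul, h1, zero_mul] at h5
      exact sub_eq_zero.1 h5
    rw [div_mul_eq_mul_div, ← h4, mul_div_assoc, div_self (pow_ne_zero _ h2), mul_one]
  have hcan : ∀ (a b : ℂ) (e : ℕ), a * σ (Polynomial.C g) ^ e = b * σ (Polynomial.C g) ^ e → a = b :=
    fun a b e h => mul_right_cancel₀ (pow_ne_zero e h2) h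
  refine ⟨{ toFun := fun f => σ (P f) / σ (Polynomial.C g) ^ r f
            map_one' := ?_, map_mul' := ?_, map_zero' := ?_, map_add' := ?_, commutes' := ?_ }, ?_⟩
  · have := hkey 1 1 0 (by simp)
    simpa using this
  · intro f f'
    apply hcan _ _ (r f + r f')
    rw [hkey (f * f') (P f * P f') (r f + r f') (by
      rw [map_mul, ← hP f, ← hP f']
      push_cast
      ring), map_mul]
    have h3 := hkey f (P f) (r f) (hP f)
    have h4 := hkey f' (P f') (r f') (hP f')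
    linear_combination (-(σ (P f'))) * h3 - (σ (P f) / σ (Polynomial.C g) ^ r f * σ (Polynomial.C g) ^ r f) * h4
  · have := hkey 0 0 0 (by simp)
    simpa using this
  · intro f f'
    apply hcan _ _ (r f + r f')
    rw [hkey (f + f') (P f * Polynomial.C g ^ r f' + P f' * Polynomial.C g ^ r f) (r f + r f') (by
      rw [map_add, map_mul, map_mul, map_pow, map_pow, ph_C, ← hP f, ← hP f']
      push_cast
      ring), map_add, map_mul, map_mul, map_pow, map_pow]
    have h3 := hkey f (P f) (r f) (hP f)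
    have h4 := hkey f' (P f') (r f') (hP f')
    linear_combination (-(σ (Polynomial.C g) ^ r f')) * h3 - (σ (Polynomial.C g) ^ r f) * h4
  · intro c
    have := hkey (algebraMap ℂ (rg s y g) c) (Polynomial.C (C c)) 0 (by
      rw [pow_zero, mul_one, ph_C, MvPolynomial.aeval_C]
      rfl)
    rw [pow_zero, mul_one, hσ] at this
    exact this
  · intro f hf p e h
    exact hkey ⟨f, hf⟩ p e h

theorem exists_curve [Algebra.EssFiniteType ℂ K] {s : Fin n → K} (hs : IsTranscendenceBasis ℂ s) (b : Module.Basis (Fin n) K Ω[K⁄ℂ]) (hb : ∀ i, b i = dd (s i)) (j : Fin n) (Φ : Finset K) :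
    ∃ (R : Subalgebra ℂ K) (ev : ℂ → R →ₐ[ℂ] ℂ), IsCurve (dualDer b j) R ev ∧ ∀ f ∈ Φ, f ∈ R ∧ f⁻¹ ∈ R := by
  classical
  obtain ⟨y, M, hM⟩ := exists_plane hs
  obtain ⟨a, b', g₀, hg₀, hab⟩ := hM.sep
  choose P Q hQ hPQ using hM.frac
  set D : Derivation ℂ K K := dualDer b j with hDdef
  have hD : ∀ i, D (s i) = if j = i then 1 else 0 := fun i => Pool.Agent.H23.dualDer_coord b hb j i
  set g : MvPolynomial (Fin n) ℂ := g₀ * ∏ f ∈ Φ, Q f * Q f⁻¹ with hg
  have hgne : g ≠ 0 := mul_ne_zero hg₀ (Finset.prod_ne_zero_iff.2 fun f _ => mul_ne_zero (hQ f) (hQ f⁻¹))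
  have hinj : ∀ c : MvPolynomial (Fin n) ℂ, c ≠ 0 → aeval s c ≠ 0 := by
    intro c hc h
    apply hc
    apply hs.1
    rw [h, map_zero]
  have hgs : aeval s g ≠ 0 := hinj g hgne
  -- the point
  obtain ⟨s₀, hs₀⟩ : ∃ s₀ : Fin n → ℂ, MvPolynomial.eval s₀ g ≠ 0 := by
    by_contra hcon
    push Not at hcon
    apply hgne
    apply MvPolynomial.funext
    intro z
    rw [hcon z, map_zero]
  have hcoeff : M.natDegree ≠ 0 := by
    intro h
    have h1 : M = 1 := hM.monic.natDegree_eq_zero.1 h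
    have h2 := hM.root
    rw [pv_eq, h1, map_one] at h2
    exact one_ne_zero h2
  obtain ⟨y₀, hy₀⟩ : ∃ y₀ : ℂ, cv s₀ y₀ M = 0 := by
    have h1 : (M.map (MvPolynomial.eval s₀)).degree ≠ 0 := by
      rw [hM.monic.degree_map, Polynomial.degree_eq_natDegree hM.monic.ne_zero]
      exact_mod_cast hcoeff
    obtain ⟨y₀, h2⟩ := IsAlgClosed.exists_root _ h1
    refine ⟨y₀, ?_⟩
    rw [cv_apply, ← Polynomial.eval_map]
    exact h2
  have hder : ∀ (z : Fin n → ℂ) (w : ℂ), cv z w M = 0 → MvPolynomial.eval z g ≠ 0 →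
      cv z w (Polynomial.derivative M) ≠ 0 := by
    intro z w h1 h2 h3
    have h4 := congrArg (cv z w) hab
    rw [map_add, map_mul, map_mul, h1, h3, zero_mul, zero_mul, add_zero] at h4
    have h5 : cv z w (Polynomial.C g₀) = MvPolynomial.eval z g₀ := by
      rw [cv_apply, Polynomial.eval₂_C]
    rw [h5] at h4
    apply h2
    rw [hg, map_mul, ← h4, zero_mul]
  obtain ⟨u, hu1, hu2, hu3⟩ := Pool.Agent.H5.DG.exists_root_fun (κ := M.natDegree)
    (fun i t => MvPolynomial.eval (ln s₀ j t) (M.coeff i)) (z₀ := 0) (u₀ := y₀)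
    (fun i => (Differentiable.analyticAt (fun t => (hasDerivAt_eval s₀ j (M.coeff i) t).differentiableAt) 0))
    (by
      have h1 := hy₀
      rw [cv_apply, Polynomial.eval₂_eq_sum_range] at h1
      simp only [ln_zero]
      exact h1)
    (by
      have h1 : HasDerivAt (fun w => cv s₀ w M) (cv s₀ y₀ (Polynomial.derivative M)) y₀ := by
        have h2 := (M.map (MvPolynomial.eval s₀)).hasDerivAt y₀
        have h3 : (fun w => cv s₀ w M) = fun w => (M.map (MvPolynomial.eval s₀)).eval w := by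
          funext w
          rw [cv_apply, Polynomial.eval_map]
        rw [h3]
        refine h2.congr_deriv ?_
        rw [Polynomial.derivative_map, cv_apply, Polynomial.eval_map]
      have h2 : HasDerivAt (fun w => cv s₀ w M)
          (∑ i ∈ Finset.range (M.natDegree + 1), MvPolynomial.eval s₀ (M.coeff i) * (i * y₀ ^ (i - 1))) y₀ := by
        have h3 : (fun w => cv s₀ w M) = fun w => ∑ i ∈ Finset.range (M.natDegree + 1),
            MvPolynomial.eval s₀ (M.coeff i) * w ^ i := by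
          funext w
          rw [cv_apply, Polynomial.eval₂_eq_sum_range]
        rw [h3]
        refine HasDerivAt.fun_sum fun i _ => ?_
        exact (hasDerivAt_pow i y₀).const_mul _
      simp only [ln_zero]
      rw [← h1.unique h2]
      exact hder s₀ y₀ hy₀ hs₀)
  -- the ball
  have hcont : ∀ᶠ t in 𝓝 (0 : ℂ), MvPolynomial.eval (ln s₀ j t) g ≠ 0 := by
    have h1 : ContinuousAt (fun t => MvPolynomial.eval (ln s₀ j t) g) 0 := (hasDerivAt_eval s₀ j g 0).continuousAt
    apply h1.eventually_ne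
    rw [ln_zero]
    exact hs₀
  obtain ⟨ε, hε, hball⟩ := Metric.eventually_nhds_iff.1 ((hu1.eventually_analyticAt.and hu3).and hcont)
  have hb1 : ∀ t : ℂ, ‖t‖ < ε → AnalyticAt ℂ u t ∧ cv (ln s₀ j t) (u t) M = 0 ∧ MvPolynomial.eval (ln s₀ j t) g ≠ 0 := by
    intro t ht
    obtain ⟨⟨h1, h2⟩, h3⟩ := hball (by rwa [dist_zero_right])
    refine ⟨h1, ?_, h3⟩
    rw [cv_apply, Polynomial.eval₂_eq_sum_range]
    exact h2
  set T : ℂ → ℂ := fun t => if ‖t‖ < ε then t else 0 with hT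
  have hTlt : ∀ t, ‖T t‖ < ε := by
    intro t
    rw [hT]
    dsimp only
    split_ifs with h
    · exact h
    · rwa [norm_zero]
  set σ : ℂ → Polynomial (MvPolynomial (Fin n) ℂ) →+* ℂ := fun t => cv (ln s₀ j (T t)) (u (T t)) with hσ
  have hσC : ∀ t (c : MvPolynomial (Fin n) ℂ), σ t (Polynomial.C c) = MvPolynomial.eval (ln s₀ j (T t)) c := by
    intro t c
    rw [hσ]
    dsimp only
    rw [cv_apply, Polynomial.eval₂_C]
  have hσg : ∀ t, σ t (Polynomial.C g) ≠ 0 := by
    intro t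
    rw [hσC]
    exact (hb1 _ (hTlt t)).2.2
  have hev : ∀ t, ∃ φ : rg s y g →ₐ[ℂ] ℂ, ∀ (f : K) (hf : f ∈ rg s y g)
      (p : Polynomial (MvPolynomial (Fin n) ℂ)) (r : ℕ),
      f * aeval s g ^ r = ph s y p → φ ⟨f, hf⟩ * σ t (Polynomial.C g) ^ r = σ t p := by
    intro t
    apply exists_ev hM hgs (σ t)
    · intro c
      rw [hσC, MvPolynomial.eval_C]
    · exact (hb1 _ (hTlt t)).2.1
    · exact hσg t
  choose ev hev using hev
  have hevp : ∀ t p, ev t ⟨ph s y p, ph_mem s y g p⟩ = σ t p := by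
    intro t p
    have := hev t _ (ph_mem s y g p) p 0 (by rw [pow_zero, mul_one])
    rwa [pow_zero, mul_one] at this
  have hloc : ∀ (t : ℂ), ‖t‖ < ε → ∀ (F G : ℂ → ℂ) (v : ℂ), (∀ t, ‖t‖ < ε → F t = G t) → HasDerivAt G v t →
      HasDerivAt F v t := by
    intro t ht F G v h1 h2
    apply h2.congr_of_eventuallyEq
    have h3 : ∀ᶠ t' in 𝓝 t, ‖t'‖ < ε := continuous_norm.continuousAt.eventually (Iio_mem_nhds ht)
    filter_upwards [h3] with t' ht'
    exact h1 t' ht'
  have hTt : ∀ t, ‖t‖ < ε → T t = t := fun t ht => if_pos ht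
  -- the derivative of `y`
  have hDy : D y ∈ rg s y g ∧ ∀ (h : D y ∈ rg s y g) (t : ℂ), ‖t‖ < ε → ev t ⟨D y, h⟩ = _root_.deriv u t := by
    obtain ⟨q, hq1, hq2⟩ := exists_q D hD y s₀ M
    have h1 : ph s y q + ph s y (Polynomial.derivative M) * D y = 0 := by
      rw [← hq1, ← pv_eq, hM.root, map_zero]
    have h2 : ph s y (Polynomial.derivative M) * ph s y b' = aeval s g₀ := by
      have h3 := congrArg (ph s y) hab
      rw [map_add, map_mul, map_mul, ← pv_eq s y M, hM.root, zero_mul, zero_add, ph_C] at h3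
      exact h3
    have hg₀s : aeval s g₀ ≠ 0 := hinj g₀ hg₀
    have h4 : D y = -(ph s y q * ph s y b') * (aeval s g₀)⁻¹ := by
      rw [eq_mul_inv_iff_mul_eq₀ hg₀s, ← h2]
      linear_combination (ph s y b') * h1
    have h5 : D y ∈ rg s y g := by
      rw [h4]
      exact mul_mem (neg_mem (mul_mem (ph_mem s y g q) (ph_mem s y g b')))
        (div_mem s y hgs (Dvd.intro _ rfl))
    refine ⟨h5, ?_⟩
    intro h t ht
    have h6 : (⟨ph s y q, ph_mem s y g q⟩ : rg s y g) +
        ⟨ph s y (Polynomial.derivative M), ph_mem s y g _⟩ * ⟨D y, h⟩ = 0 := Subtype.ext h1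
    have h7 := congrArg (ev t) h6
    rw [map_add, map_mul, map_zero, hevp, hevp] at h7
    have h8 := hq2 u (_root_.deriv u t) t (hb1 t ht).1.differentiableAt.hasDerivAt
    have h9 : HasDerivAt (fun t => cv (ln s₀ j t) (u t) M) 0 t :=
      hloc t ht _ (fun _ => 0) 0 (fun t' ht' => (hb1 t' ht').2.1) (hasDerivAt_const t 0)
    have h10 := h8.unique h9
    have h11 : ∀ p, σ t p = cv (ln s₀ j t) (u t) p := by
      intro p
      rw [hσ]
      dsimp only
      rw [hTt t ht]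
    rw [h11, h11] at h7
    have h12 := hder _ _ (hb1 t ht).2.1 (hb1 t ht).2.2
    apply mul_left_cancel₀ h12
    linear_combination h7 - h10
  obtain ⟨hDyR, hDyev⟩ := hDy
  -- the derivative of the polynomials
  have hpoly : ∀ p, ∀ hf : ph s y p ∈ rg s y g, ∃ hDf : D (ph s y p) ∈ rg s y g, ∀ t, ‖t‖ < ε →
      HasDerivAt (fun t => ev t ⟨ph s y p, hf⟩) (ev t ⟨D (ph s y p), hDf⟩) t := by
    intro p hf
    obtain ⟨q, hq1, hq2⟩ := exists_q D hD y s₀ p
    have h1 : D (ph s y p) ∈ rg s y g := by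
      rw [hq1]
      exact add_mem (ph_mem s y g q) (mul_mem (ph_mem s y g _) hDyR)
    refine ⟨h1, fun t ht => ?_⟩
    have h2 : (⟨D (ph s y p), h1⟩ : rg s y g) = (⟨ph s y q, ph_mem s y g q⟩ : rg s y g) +
        ⟨ph s y (Polynomial.derivative p), ph_mem s y g _⟩ * ⟨D y, hDyR⟩ := Subtype.ext hq1
    have h11 : ∀ t, ‖t‖ < ε → ∀ p, σ t p = cv (ln s₀ j t) (u t) p := by
      intro t ht p
      rw [hσ]
      dsimp only
      rw [hTt t ht]
    rw [h2, map_add, map_mul, hevp, hevp, hDyev hDyR t ht, h11 t ht, h11 t ht]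
    refine hloc t ht _ (fun t => cv (ln s₀ j t) (u t) p) _ (fun t' ht' => ?_) ?_
    · rw [hevp, h11 t' ht']
    · exact hq2 u (_root_.deriv u t) t (hb1 t ht).1.differentiableAt.hasDerivAt
  -- all elements
  have hall' : ∀ f, f ∈ rg s y g → ∃ hf : f ∈ rg s y g, ∃ hDf : D f ∈ rg s y g, ∀ t, ‖t‖ < ε →
      HasDerivAt (fun t => ev t ⟨f, hf⟩) (ev t ⟨D f, hDf⟩) t := by
    intro f hf
    induction hf using Algebra.adjoin_induction with
    | mem x hx =>
      rcases hx with ⟨i, rfl⟩ | hx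
      · have h1 : s i = ph s y (Polynomial.C (X i)) := by rw [ph_C, MvPolynomial.aeval_X]
        have h2 := hpoly (Polynomial.C (X i)) (ph_mem s y g _)
        simp only [← h1] at h2
        exact ⟨s_mem s y g i, h2⟩
      · rcases hx with rfl | hx
        · have h2 := hpoly Polynomial.X (ph_mem s x g _)
          simp only [ph_X] at h2
          exact ⟨y_mem s x g, h2⟩
        · rw [Set.mem_singleton_iff] at hx
          subst hx
          obtain ⟨h1, h2⟩ := hpoly (Polynomial.C g) (ph_mem s y g _)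
          simp only [ph_C] at h1 h2
          have h3 : D (aeval s g)⁻¹ = -((aeval s g)⁻¹ ^ 2 * D (aeval s g)) := by
            have h4 : D (aeval s g * (aeval s g)⁻¹) = 0 := by
              rw [mul_inv_cancel₀ hgs]
              exact D.map_one_eq_zero
            rw [D.leibniz, smul_eq_mul, smul_eq_mul] at h4
            apply mul_left_cancel₀ hgs
            have h5 : aeval s g * -((aeval s g)⁻¹ ^ 2 * D (aeval s g)) = -((aeval s g)⁻¹ * D (aeval s g)) := by
              field_simp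
            rw [h5]
            exact eq_neg_of_add_eq_zero_left h4
          have h4 : D (aeval s g)⁻¹ ∈ rg s y g := by
            rw [h3]
            exact neg_mem (mul_mem (pow_mem (inv_mem' s y g) 2) h1)
          refine ⟨inv_mem' s y g, h4, fun t ht => ?_⟩
          have h5 : ∀ t, ev t ⟨(aeval s g)⁻¹, inv_mem' s y g⟩ = (ev t ⟨aeval s g, aeval_mem s y g g⟩)⁻¹ := by
            intro t
            have h6 : (⟨(aeval s g)⁻¹, inv_mem' s y g⟩ : rg s y g) * ⟨aeval s g, aeval_mem s y g g⟩ = 1 :=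
              Subtype.ext (inv_mul_cancel₀ hgs)
            have h7 := congrArg (ev t) h6
            rw [map_mul, map_one] at h7
            exact eq_inv_of_mul_eq_one_left h7
          have h6 : ∀ t, ev t ⟨aeval s g, aeval_mem s y g g⟩ ≠ 0 := by
            intro t h7
            have h8 := hevp t (Polynomial.C g)
            simp only [ph_C] at h8
            rw [h7] at h8
            exact hσg t h8.symm
          have h7 : (⟨D (aeval s g)⁻¹, h4⟩ : rg s y g) =
              -((⟨(aeval s g)⁻¹, inv_mem' s y g⟩ : rg s y g) ^ 2 * ⟨D (aeval s g), h1⟩) := Subtype.ext h3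
          have h8 := (h2 t ht).inv (h6 t)
          have h9 : ev t ⟨D (aeval s g)⁻¹, h4⟩ =
              -((ev t ⟨aeval s g, aeval_mem s y g g⟩)⁻¹ ^ 2 * ev t ⟨D (aeval s g), h1⟩) := by
            rw [h7, map_neg (ev t), map_mul (ev t), map_pow (ev t), h5]
          rw [h9]
          simp only [h5]
          refine h8.congr_deriv ?_
          rw [div_eq_mul_inv, inv_pow]
          ring
    | algebraMap c =>
      refine ⟨Subalgebra.algebraMap_mem _ c, ?_, fun t ht => ?_⟩
      · rw [D.map_algebraMap]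
        exact zero_mem _
      · have h1 : ∀ h, (⟨D (algebraMap ℂ K c), h⟩ : rg s y g) = 0 := fun h => Subtype.ext (D.map_algebraMap c)
        rw [h1, map_zero]
        have h2 : (fun t => ev t ⟨algebraMap ℂ K c, Subalgebra.algebraMap_mem _ c⟩) = fun _ => c := by
          funext t
          exact (ev t).commutes c
        rw [h2]
        exact hasDerivAt_const t c
    | add x z _ _ h1 h2 =>
      obtain ⟨hx, h3, h4⟩ := h1
      obtain ⟨hz, h5, h6⟩ := h2
      have h7 : D (x + z) ∈ rg s y g := by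
        rw [map_add]
        exact add_mem h3 h5
      refine ⟨add_mem hx hz, h7, fun t ht => ?_⟩
      have h8 : (⟨D (x + z), h7⟩ : rg s y g) = ⟨D x, h3⟩ + ⟨D z, h5⟩ := Subtype.ext (map_add D x z)
      rw [h8, map_add]
      have h9 : (fun t => ev t ⟨x + z, add_mem hx hz⟩) = (fun t => ev t ⟨x, hx⟩) + fun t => ev t ⟨z, hz⟩ := by
        funext t
        exact map_add (ev t) ⟨x, hx⟩ ⟨z, hz⟩
      rw [h9]
      exact (h4 t ht).add (h6 t ht)
    | mul x z _ _ h1 h2 =>
      obtain ⟨hx, h3, h4⟩ := h1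
      obtain ⟨hz, h5, h6⟩ := h2
      have h0 : D (x * z) = x * D z + z * D x := by
        rw [D.leibniz, smul_eq_mul, smul_eq_mul]
      have h7 : D (x * z) ∈ rg s y g := by
        rw [h0]
        exact add_mem (mul_mem hx h5) (mul_mem hz h3)
      refine ⟨mul_mem hx hz, h7, fun t ht => ?_⟩
      have h8 : (⟨D (x * z), h7⟩ : rg s y g) = ⟨x, hx⟩ * ⟨D z, h5⟩ + ⟨z, hz⟩ * ⟨D x, h3⟩ := Subtype.ext h0
      rw [h8, map_add, map_mul, map_mul]
      have h9 : (fun t => ev t ⟨x * z, mul_mem hx hz⟩) = (fun t => ev t ⟨x, hx⟩) * fun t => ev t ⟨z, hz⟩ := by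
        funext t
        exact map_mul (ev t) ⟨x, hx⟩ ⟨z, hz⟩
      rw [h9]
      refine ((h4 t ht).mul (h6 t ht)).congr_deriv ?_
      ring
  have hall : ∀ f, ∀ hf : f ∈ rg s y g, ∃ hDf : D f ∈ rg s y g, ∀ t, ‖t‖ < ε →
      HasDerivAt (fun t => ev t ⟨f, hf⟩) (ev t ⟨D f, hDf⟩) t := by
    intro f hf
    obtain ⟨_, h1, h2⟩ := hall' f hf
    exact ⟨h1, h2⟩
  have hnb : ∀ᶠ t in 𝓝 (0 : ℂ), ‖t‖ < ε := by
    have h1 : ‖(0 : ℂ)‖ < ε := by rwa [norm_zero]
    exact continuous_norm.continuousAt.eventually (Iio_mem_nhds h1)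
  refine ⟨rg s y g, ev, ⟨fun f hf => (hall f hf).1, ?_, ?_⟩, ?_⟩
  · intro f
    rw [Complex.analyticAt_iff_eventually_differentiableAt]
    filter_upwards [hnb] with t ht
    exact ((hall f f.2).2 t ht).differentiableAt
  · intro f hf
    filter_upwards [hnb] with t ht
    exact ((hall f hf).2 t ht).deriv
  · intro f hf
    have h1 : ∀ e : K, Q e ∣ g → e ∈ rg s y g := by
      intro e he
      have h2 : e = ph s y (P e) * (aeval s (Q e))⁻¹ := by
        rw [← pv_eq, ← hPQ e, mul_assoc, mul_inv_cancel₀ (hinj _ (hQ e)), mul_one]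
      rw [h2]
      exact mul_mem (ph_mem s y g _) (div_mem s y hgs he)
    have h3 : Q f * Q f⁻¹ ∣ g := (Finset.dvd_prod_of_mem (fun f => Q f * Q f⁻¹) hf).trans (Dvd.intro_left _ rfl)
    exact ⟨h1 f ((Dvd.intro _ rfl).trans h3), h1 f⁻¹ ((Dvd.intro_left _ rfl).trans h3)⟩

end Pool.Agent.LG

end
end

section

/-!
# LG Cu: curves on the variety

`exists_curve` for a `Φ` which contains the `x i = ξ i / ξ j₀` (`ξ j₀ ≠ 0`), the functions `f l` and the nonzero elements `B(x)` for the given forms `B ∉ Q`; `γ t i = ev t (x i)`.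
* `γ t` is in the cone: `γ t j₀ = ev t 1 = 1`, and `F(x) = 0` for `F ∈ Q` (homogeneous components and `GP.zero`).
* `B(γ t) = ev t (B(x)) ≠ 0` (the inverse is in `R`).
* values: `RegAt ξ (γ t) f c`, `f ∈ R`: `f B(x) = A(x)`; apply `ev t`.
-/

set_option autoImplicit false

open MvPolynomial Topology Filter
open Pool.Agent.H23 (dualDer)
open Pool.Agent.PXF (Cn form IsThetaForm)

noncomputable section

namespace Pool.Agent.LG

variable {K : Type} [Field K] [Algebra ℂ K] {N n : ℕ} {ξ : Fin (N + 1) → K} {Q : Ideal (MvPolynomial (Fin (N + 1)) ℂ)}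

private theorem cu_aeval_mul {F : MvPolynomial (Fin (N + 1)) ℂ} {D : ℕ} (hF : F.IsHomogeneous D) (c : K) (x : Fin (N + 1) → K) :
    aeval (fun i => c * x i) F = c ^ D * aeval x F := by
  rw [MvPolynomial.aeval_def, MvPolynomial.aeval_def, eval₂_eq', eval₂_eq', Finset.mul_sum]
  refine Finset.sum_congr rfl fun m hm => ?_
  have hdeg : ∑ i, m i = D := by
    by_contra hne
    apply MvPolynomial.mem_support_iff.1 hm
    apply hF.coeff_eq_zero
    rwa [Finsupp.degree_eq_sum]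
  have h1 : ∏ i, (c * x i) ^ m i = c ^ D * ∏ i, x i ^ m i := by
    simp_rw [mul_pow]
    rw [Finset.prod_mul_distrib, Finset.prod_pow_eq_pow_sum, hdeg]
  rw [h1]
  ring

private theorem cu_div {j₀ : Fin (N + 1)} {F : MvPolynomial (Fin (N + 1)) ℂ} {D : ℕ} (hF : F.IsHomogeneous D) :
    aeval (fun i => ξ i / ξ j₀) F = (ξ j₀)⁻¹ ^ D * aeval ξ F := by
  rw [← cu_aeval_mul hF]
  congr 2
  funext i
  rw [div_eq_mul_inv, mul_comm]

/-- a curve on the variety: the derivation `D₀` is the derivative along `γ`; the finite set `Φ` of functions has values on `γ` -/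
theorem exists_curve_on [Algebra.EssFiniteType ℂ K] (homog : ∀ F ∈ Q, ∀ m, homogeneousComponent m F ∈ Q) (hgp : GP Q ξ) {s : Fin n → K} (hs : IsTranscendenceBasis ℂ s) (b : Module.Basis (Fin n) K Ω[K⁄ℂ]) (hb : ∀ i, b i = dd (s i)) (j : Fin n)
    (Φ : Finset K) {σ : Type} [Finite σ] (B : σ → MvPolynomial (Fin (N + 1)) ℂ) (hB : ∀ i, ∃ D, (B i).IsHomogeneous D) (hBQ : ∀ i, B i ∉ Q) :
    ∃ (R : Subalgebra ℂ K) (ev : ℂ → R →ₐ[ℂ] ℂ) (j₀ : Fin (N + 1)) (γ : ℂ → Fin (N + 1) → ℂ), IsCurve (dualDer b j) R ev ∧ (∀ f ∈ Φ, f ∈ R ∧ f⁻¹ ∈ R) ∧ ξ j₀ ≠ 0 ∧ (∀ i, ξ i / ξ j₀ ∈ R) ∧ (∀ t i (h : ξ i / ξ j₀ ∈ R), γ t i = ev t ⟨ξ i / ξ j₀, h⟩) ∧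
      (∀ t, γ t j₀ = 1) ∧ (∀ t, Cone Q (γ t)) ∧ AnalyticAt ℂ γ 0 ∧ (∀ t i, eval (γ t) (B i) ≠ 0) ∧ ∀ t f c (hf : f ∈ R), RegAt ξ (γ t) f c → ev t ⟨f, hf⟩ = c := by
  classical
  have := Fintype.ofFinite σ
  obtain ⟨j₀, hj₀⟩ : ∃ j, ξ j ≠ 0 := by
    by_contra h
    push Not at h
    exact hgp.ne (funext h)
  have hj0 : ξ j₀ ≠ 0 := by simpa using hj₀
  obtain ⟨R, ev, hC, hΦ⟩ := exists_curve hs b hb j
    (Φ ∪ Finset.univ.image (fun i => ξ i / ξ j₀) ∪ Finset.univ.image (fun i : σ => aeval (fun i => ξ i / ξ j₀) (B i)))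
  have hx : ∀ i, ξ i / ξ j₀ ∈ R := fun i => (hΦ _ (by
    rw [Finset.mem_union, Finset.mem_union]
    exact Or.inl (Or.inr (Finset.mem_image_of_mem _ (Finset.mem_univ i))))).1
  -- the values of polynomials
  have hval : ∀ (t : ℂ) (F : MvPolynomial (Fin (N + 1)) ℂ) (h : aeval (fun i => ξ i / ξ j₀) F ∈ R),
      ev t ⟨aeval (fun i => ξ i / ξ j₀) F, h⟩ = eval (fun i => ev t ⟨ξ i / ξ j₀, hx i⟩) F := by
    intro t F h
    have h1 : (⟨aeval (fun i => ξ i / ξ j₀) F, h⟩ : R) = aeval (fun i => (⟨ξ i / ξ j₀, hx i⟩ : R)) F := by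
      apply Subtype.ext
      have h2 : R.val (aeval (fun i => (⟨ξ i / ξ j₀, hx i⟩ : R)) F) = aeval (fun i => R.val (⟨ξ i / ξ j₀, hx i⟩ : R)) F :=
        MvPolynomial.comp_aeval_apply _ _ _
      exact h2.symm
    rw [h1]
    have h3 : ev t (aeval (fun i => (⟨ξ i / ξ j₀, hx i⟩ : R)) F) = aeval (fun i => ev t (⟨ξ i / ξ j₀, hx i⟩ : R)) F :=
      MvPolynomial.comp_aeval_apply _ _ _
    rw [h3]
    rfl
  have hmem : ∀ F : MvPolynomial (Fin (N + 1)) ℂ, aeval (fun i => ξ i / ξ j₀) F ∈ R := by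
    intro F
    have h1 : R.val (aeval (fun i => (⟨ξ i / ξ j₀, hx i⟩ : R)) F) = aeval (fun i => R.val (⟨ξ i / ξ j₀, hx i⟩ : R)) F :=
      MvPolynomial.comp_aeval_apply _ _ _
    have h2 : aeval (fun i => ξ i / ξ j₀) F = R.val (aeval (fun i => (⟨ξ i / ξ j₀, hx i⟩ : R)) F) := h1.symm
    rw [h2]
    exact (aeval (fun i => (⟨ξ i / ξ j₀, hx i⟩ : R)) F).2
  have hγ1 : ∀ t, ev t ⟨ξ j₀ / ξ j₀, hx j₀⟩ = 1 := by
    intro t
    have h1 : (⟨ξ j₀ / ξ j₀, hx j₀⟩ : R) = 1 := Subtype.ext (div_self hj0)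
    rw [h1, map_one]
  have hvan : ∀ F ∈ Q, aeval (fun i => ξ i / ξ j₀) F = 0 := by
    intro F hF
    rw [← MvPolynomial.sum_homogeneousComponent F, map_sum]
    refine Finset.sum_eq_zero fun m _ => ?_
    rw [cu_div (homogeneousComponent_isHomogeneous m F), (hgp.zero m _ (homogeneousComponent_isHomogeneous m F)).2 (homog F hF m), mul_zero]
  refine ⟨R, ev, j₀, fun t i => ev t ⟨ξ i / ξ j₀, hx i⟩, hC, fun f hf => hΦ f (by
    rw [Finset.mem_union, Finset.mem_union]
    exact Or.inl (Or.inl hf)), hj0, hx, fun t i h => rfl, hγ1, ?_, ?_, ?_, ?_⟩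
  · intro t
    refine ⟨fun h => ?_, fun F hF => ?_⟩
    · have h1 := congrFun h j₀
      simp only [hγ1, Pi.zero_apply] at h1
      exact one_ne_zero h1
    · rw [← hval t F (hmem F)]
      have h1 : (⟨aeval (fun i => ξ i / ξ j₀) F, hmem F⟩ : R) = 0 := Subtype.ext (hvan F hF)
      rw [h1, map_zero]
  · rw [analyticAt_pi_iff]
    intro i
    exact hC.analytic _
  · intro t i
    have h1 := hΦ (aeval (fun i => ξ i / ξ j₀) (B i)) (by
      rw [Finset.mem_union]
      exact Or.inr (Finset.mem_image_of_mem _ (Finset.mem_univ i)))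
    obtain ⟨D, hD⟩ := hB i
    have hne : aeval (fun i => ξ i / ξ j₀) (B i) ≠ 0 := by
      rw [cu_div hD]
      exact mul_ne_zero (pow_ne_zero _ (inv_ne_zero hj0)) fun h => hBQ i ((hgp.zero D _ hD).1 h)
    rw [← hval t (B i) h1.1]
    intro h0
    have h2 : (⟨aeval (fun i => ξ i / ξ j₀) (B i), h1.1⟩ : R) * ⟨(aeval (fun i => ξ i / ξ j₀) (B i))⁻¹, h1.2⟩ = 1 := Subtype.ext (mul_inv_cancel₀ hne)
    have h3 := congrArg (ev t) h2
    rw [map_mul, h0, zero_mul, map_one] at h3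
    exact zero_ne_one h3
  · intro t f c hf hR
    obtain ⟨D, A, B', hA, hB', hB0, hfA, hcA⟩ := hR
    have h1 : f * aeval (fun i => ξ i / ξ j₀) B' = aeval (fun i => ξ i / ξ j₀) A := by
      rw [cu_div hB', cu_div hA, ← hfA]
      ring
    have h2 : (⟨f, hf⟩ : R) * ⟨aeval (fun i => ξ i / ξ j₀) B', hmem B'⟩ = ⟨aeval (fun i => ξ i / ξ j₀) A, hmem A⟩ := Subtype.ext h1
    have h3 := congrArg (ev t) h2
    rw [map_mul, hval t B' (hmem B'), hval t A (hmem A), hcA] at h3
    exact mul_right_cancel₀ hB0 h3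

end Pool.Agent.LG

end
end

section

/-!
# LG Id: identities between differentials from identities on the torus

`∑ f_l dF_l = 0` if `∑ (g_l / h_l) ∂_i (G_l / H_l) = 0` on `ℂ^n`, where `f_l`, `F_l` are the pull-backs of `g_l / h_l`, `G_l / H_l`.
Proof.  `H23` gives a basis `b i = d (s i)` of `Ω` for a transcendence basis `s` (`H17LG.exists_basis_kaehler` or the same lemma in `H23`); it is enough that `c = ∑ f_l ∂_j F_l` is `0` for every `j` (`Ω` has the coordinates `dualDer b j`).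
Suppose `c ≠ 0`.  `exists_curve_on` with `Φ = {f_l, F_l, c}` and the forms of `NZ` for the `h_l`, `H_l`.  `Lft.ex`, `Lft.curve`: `y(t)` analytic with `L (γ t) (y t)` near `0`; `h_l(y t) ≠ 0`, `H_l(y t) ≠ 0`.  `ev t (F_l) = G_l(y t) / H_l(y t)`, so
`ev t (∂_j F_l) = ∑_i (wr H_l G_l i / H_l²)(y t) (y_i)'(t)`, and `ev t c = ∑_l (g_l / h_l)(y t) ∑_i … = 0`.  But `c⁻¹ ∈ R`.
-/

set_option autoImplicit false

open MvPolynomial Topology Filter
open Pool.Agent.PXF (Cn form IsThetaForm)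
open Pool.Agent.H23 (dualDer dualDer_apply exists_basis_kaehler)

noncomputable section

namespace Pool.Agent.LG

variable {K : Type} [Field K] [Algebra ℂ K] {N κ d n : ℕ} {ξ : Fin (N + 1) → K} {Q : Ideal (MvPolynomial (Fin (N + 1)) ℂ)} {Λ : AddSubgroup (Cn (κ + 1))} {θ : Fin (d + 1) → Cn (κ + 1) → ℂ}
  {L : (Fin (N + 1) → ℂ) → Cn (κ + 1) → Prop}

private theorem fderiv_eq_sum (G : Cn (κ + 1) → ℂ) (y v : Cn (κ + 1)) : fderiv ℂ G y v = ∑ i, v i * pd G i y := by
  have h : v = ∑ i, v i • (Pi.single i 1 : Cn (κ + 1)) := by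
    ext j
    rw [Finset.sum_apply]
    simp [Pi.single_apply]
  conv_lhs => rw [h]
  rw [map_sum]
  refine Finset.sum_congr rfl fun i _ => ?_
  rw [map_smul, smul_eq_mul]
  rfl

/-- the chain rule for a quotient of entire functions -/
theorem deriv_quot {G H : Cn (κ + 1) → ℂ} (hG : Differentiable ℂ G) (hH : Differentiable ℂ H) {y : ℂ → Cn (κ + 1)} {t : ℂ} (hy : DifferentiableAt ℂ y t) (h0 : H (y t) ≠ 0) :
    deriv (fun t => G (y t) / H (y t)) t = ∑ i, wr H G i (y t) / H (y t) ^ 2 * deriv y t i := by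
  have h1 : HasDerivAt (fun t => G (y t)) (fderiv ℂ G (y t) (deriv y t)) t := (hG (y t)).hasFDerivAt.comp_hasDerivAt t hy.hasDerivAt
  have h2 : HasDerivAt (fun t => H (y t)) (fderiv ℂ H (y t) (deriv y t)) t := (hH (y t)).hasFDerivAt.comp_hasDerivAt t hy.hasDerivAt
  have h3 := (h1.div h2 h0).deriv
  change deriv (fun t => G (y t) / H (y t)) t = _ at h3
  rw [h3, fderiv_eq_sum, fderiv_eq_sum, Finset.sum_mul, Finset.mul_sum, ← Finset.sum_sub_distrib, Finset.sum_div]
  refine Finset.sum_congr rfl fun i _ => ?_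
  unfold wr
  ring

theorem dd_identity [Algebra.EssFiniteType ℂ K] {z : Fin n → K} (hz : IsTranscendenceBasis ℂ z) (homog : ∀ F ∈ Q, ∀ m, homogeneousComponent m F ∈ Q) (hgp : GP Q ξ) (hL : Lft Q Λ L) {σ : Type} [Fintype σ] (f F : σ → K) (g h G H : σ → Cn (κ + 1) → ℂ)
    (hf : ∀ l, IsVal Q ξ L (f l) (g l) (h l)) (hF : ∀ l, IsVal Q ξ L (F l) (G l) (H l)) (hh : ∀ l, NZ Q L (h l)) (hH : ∀ l, NZ Q L (H l)) (dG : ∀ l, Differentiable ℂ (G l)) (dH : ∀ l, Differentiable ℂ (H l))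
    (hid : ∀ y, (∀ l, h l y ≠ 0) → (∀ l, H l y ≠ 0) → ∀ i, ∑ l, g l y / h l y * (wr (H l) (G l) i y / H l y ^ 2) = 0) : ∑ l, f l • dd (F l) = 0 := by
  classical
  obtain ⟨b, hb⟩ := exists_basis_kaehler hz
  refine b.ext_elem fun j => ?_
  rw [map_zero, Finsupp.zero_apply]
  have hc : b.repr (∑ l, f l • dd (F l)) j = ∑ l, f l * dualDer b j (F l) := by
    rw [map_sum, Finsupp.finsetSum_apply]
    refine Finset.sum_congr rfl fun l _ => ?_
    rw [map_smul, Finsupp.smul_apply, smul_eq_mul, dualDer_apply]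
  rw [hc]
  by_contra hne
  choose D₁ B₁ hB₁ hBQ₁ hBn₁ using hh
  choose D₂ B₂ hB₂ hBQ₂ hBn₂ using hH
  obtain ⟨R, ev, j₀, γ, hcur, hΦ, hj, hR, hγ, hγj, hcone, hana, hB, hval⟩ := exists_curve_on homog hgp hz b hb j
    (insert (∑ l, f l * dualDer b j (F l)) (Finset.univ.image f ∪ Finset.univ.image F)) (Sum.elim B₁ B₂)
    (by rintro (i | i); exacts [⟨_, hB₁ i⟩, ⟨_, hB₂ i⟩]) (by rintro (i | i); exacts [hBQ₁ i, hBQ₂ i])
  obtain ⟨y₀, hy₀⟩ := hL.ex (γ 0) (hcone 0)
  obtain ⟨y, hya, hy0, hyL⟩ := hL.curve γ hana (Eventually.of_forall hcone) y₀ hy₀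
  have hfR : ∀ l, f l ∈ R := fun l => (hΦ _ (by simp)).1
  have hFR : ∀ l, F l ∈ R := fun l => (hΦ _ (by simp)).1
  have hcR := hΦ _ (Finset.mem_insert_self _ _)
  have hn₁ : ∀ t, L (γ t) (y t) → ∀ l, h l (y t) ≠ 0 := fun t ht l => hBn₁ l _ _ (hcone t) ht (hB t (Sum.inl l))
  have hn₂ : ∀ t, L (γ t) (y t) → ∀ l, H l (y t) ≠ 0 := fun t ht l => hBn₂ l _ _ (hcone t) ht (hB t (Sum.inr l))
  have hL0 : L (γ 0) (y 0) := by rw [hy0]; exact hy₀
  have e1 : ∀ l, ev 0 ⟨f l, hfR l⟩ = g l (y 0) / h l (y 0) := fun l => hval 0 _ _ (hfR l) (hf l _ _ (hcone 0) hL0 (hn₁ 0 hL0 l))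
  have e2 : ∀ l, ev 0 ⟨dualDer b j (F l), hcur.stable _ (hFR l)⟩ = ∑ i, wr (H l) (G l) i (y 0) / H l (y 0) ^ 2 * deriv y 0 i := by
    intro l
    have h1 : (fun t => ev t ⟨F l, hFR l⟩) =ᶠ[𝓝 0] fun t => G l (y t) / H l (y t) := by
      filter_upwards [hyL] with t ht
      exact hval t _ _ (hFR l) (hF l _ _ (hcone t) ht (hn₂ t ht l))
    rw [← (hcur.deriv _ (hFR l)).self_of_nhds, h1.deriv_eq, deriv_quot (dG l) (dH l) hya.differentiableAt (hn₂ 0 hL0 l)]
  have e3 : ev 0 ⟨∑ l, f l * dualDer b j (F l), hcR.1⟩ = 0 := by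
    have h1 : (⟨∑ l, f l * dualDer b j (F l), hcR.1⟩ : R) = ∑ l, (⟨f l, hfR l⟩ : R) * ⟨dualDer b j (F l), hcur.stable _ (hFR l)⟩ := by
      apply Subtype.ext
      simp
    rw [h1, map_sum]
    calc ∑ l, ev 0 ((⟨f l, hfR l⟩ : R) * ⟨dualDer b j (F l), hcur.stable _ (hFR l)⟩)
        = ∑ l, g l (y 0) / h l (y 0) * ∑ i, wr (H l) (G l) i (y 0) / H l (y 0) ^ 2 * deriv y 0 i :=
          Finset.sum_congr rfl fun l _ => by rw [map_mul, e1, e2]
      _ = ∑ i, deriv y 0 i * ∑ l, g l (y 0) / h l (y 0) * (wr (H l) (G l) i (y 0) / H l (y 0) ^ 2) := by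
          simp only [Finset.mul_sum]
          rw [Finset.sum_comm]
          refine Finset.sum_congr rfl fun i _ => Finset.sum_congr rfl fun l _ => ?_
          ring
      _ = 0 := by
          refine Finset.sum_eq_zero fun i _ => ?_
          rw [hid _ (hn₁ 0 hL0) (hn₂ 0 hL0) i, mul_zero]
  have e4 : ev 0 ⟨∑ l, f l * dualDer b j (F l), hcR.1⟩ * ev 0 ⟨(∑ l, f l * dualDer b j (F l))⁻¹, hcR.2⟩ = 1 := by
    rw [← map_mul]
    have h1 : (⟨∑ l, f l * dualDer b j (F l), hcR.1⟩ : R) * ⟨(∑ l, f l * dualDer b j (F l))⁻¹, hcR.2⟩ = 1 := by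
      apply Subtype.ext
      exact mul_inv_cancel₀ hne
    rw [h1, map_one]
  rw [e3, zero_mul] at e4
  exact zero_ne_one e4

end Pool.Agent.LG

end
end

section

/-!
# LG G4b: theta functions: no logarithmic derivative is affine in the sense of the theorem of the cube

`line_false`: for a vector `v ≠ 0` there is no constant `k` with `D s / θ s + D t / θ t + D r / θ r = k` for all `s + t + r = 3 y`, `D = ∂_v θ`.
-/

set_option autoImplicit false

open Topology Filter MvPolynomial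
open Pool.Agent.PXF (Cn form IsThetaForm)

noncomputable section

namespace Pool.Agent.LG

variable {n κ d : ℕ}

/-- the derivative along a line -/
theorem hasDeriv_line {θ : Cn n → ℂ} (hθ : Differentiable ℂ θ) (a v : Cn n) (z : ℂ) : HasDerivAt (fun z : ℂ => θ (a + z • v)) (fderiv ℂ θ (a + z • v) v) z := by
  have h1 : HasDerivAt (fun z : ℂ => a + z • v) v z := by
    simpa using ((hasDerivAt_id z).smul_const v).const_add a
  exact ((hθ (a + z • v)).hasFDerivAt).comp_hasDerivAt z h1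

/-- a solution of `h' = A h`, `A` analytic, with a zero is zero -/
theorem ode_zero {h A : ℂ → ℂ} (hh : Differentiable ℂ h) {z₁ : ℂ} (hA : AnalyticAt ℂ A z₁) (hd : ∀ᶠ z in 𝓝 z₁, deriv h z = A z * h z) (h0 : h z₁ = 0) : ∀ z, h z = 0 := by
  have h1 : analyticOrderAt (deriv h) z₁ + 1 = analyticOrderAt h z₁ := by
    have := (hh.analyticAt z₁).analyticOrderAt_deriv_add_one
    rw [this]
    congr 1
    funext z
    simp [h0]
  have h2 : analyticOrderAt (deriv h) z₁ = analyticOrderAt A z₁ + analyticOrderAt h z₁ := by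
    rw [analyticOrderAt_congr (show deriv h =ᶠ[𝓝 z₁] A * h from hd), analyticOrderAt_mul hA (hh.analyticAt z₁)]
  have h3 : analyticOrderAt h z₁ = ⊤ := by
    by_contra hne
    lift analyticOrderAt h z₁ to ℕ using hne with m hm
    rw [h2] at h1
    cases hA' : analyticOrderAt A z₁ with
    | top => rw [hA'] at h1; simp at h1
    | coe a =>
      rw [hA'] at h1
      have : a + m + 1 = m := by exact_mod_cast h1
      omega
  have h4 := analyticOrderAt_eq_top.1 h3
  have h5 : AnalyticOnNhd ℂ h Set.univ := fun y _ => hh.analyticAt y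
  have h6 := h5.eqOn_zero_of_preconnected_of_eventuallyEq_zero isPreconnected_univ (Set.mem_univ z₁) h4
  exact fun z => h6 (Set.mem_univ z)

/-- the identity of the theorem of the cube, along lines -/
def Cub (θ : Cn n → ℂ) (v : Cn n) (y : Cn n) (k : ℂ) : Prop :=
  ∀ s t, fderiv ℂ θ s v * θ t * θ (3 • y - s - t) + θ s * fderiv ℂ θ t v * θ (3 • y - s - t) + θ s * θ t * fderiv ℂ θ (3 • y - s - t) v = k * (θ s * θ t * θ (3 • y - s - t))

variable {θ : Cn n → ℂ} {v y : Cn n} {k : ℂ}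

theorem diff_line (hθ : Differentiable ℂ θ) (a v : Cn n) : Differentiable ℂ fun z : ℂ => θ (a + z • v) := fun z => (hasDeriv_line hθ a v z).differentiableAt

/-- a point for the second variable -/
theorem exists_t (hθ : Differentiable ℂ θ) {s₀ : Cn n} (h0 : θ s₀ ≠ 0) (y s : Cn n) : ∃ t, θ t ≠ 0 ∧ θ (3 • y - s - t) ≠ 0 := by
  have h1 : Differentiable ℂ fun t : Cn n => θ (3 • y - s - t) := hθ.comp (by fun_prop)
  refine entire_mul hθ h1 h0 (q := 3 • y - s - s₀) ?_
  simpa using h0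

/-- `θ` has no zeros on a line in the direction `v` through a point where it is not zero -/
theorem line_ne (hθ : Differentiable ℂ θ) (hC : Cub θ v y k) {s₀ : Cn n} (h0 : θ s₀ ≠ 0) (z : ℂ) : θ (s₀ + z • v) ≠ 0 := by
  intro hz
  obtain ⟨t₀, ht, hr⟩ := exists_t hθ h0 y (s₀ + z • v)
  set r₀ := 3 • y - (s₀ + z • v) - t₀ with hr₀
  -- `s = s₀ + z' v`, `t = t₀`, `r = r₀ - (z' - z) v`
  have hrd : Differentiable ℂ fun z' : ℂ => θ (r₀ + (-(z' - z)) • v) := (diff_line hθ r₀ v).comp (by fun_prop)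
  have hrd' : Differentiable ℂ fun z' : ℂ => fderiv ℂ θ (r₀ + (-(z' - z)) • v) v := by
    have h1 : Differentiable ℂ fun z' : ℂ => fderiv ℂ θ (r₀ + z' • v) v := by
      have h2 : (fun z' : ℂ => fderiv ℂ θ (r₀ + z' • v) v) = deriv fun z : ℂ => θ (r₀ + z • v) := by
        funext z'
        exact (hasDeriv_line hθ r₀ v z').deriv.symm
      rw [h2]
      exact fun w => ((diff_line hθ r₀ v).analyticAt w).deriv.differentiableAt
    exact h1.comp (f := fun z' : ℂ => -(z' - z)) (by fun_prop)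
  set A : ℂ → ℂ := fun z' => (k * (θ t₀ * θ (r₀ + (-(z' - z)) • v)) - fderiv ℂ θ t₀ v * θ (r₀ + (-(z' - z)) • v) - θ t₀ * fderiv ℂ θ (r₀ + (-(z' - z)) • v) v) / (θ t₀ * θ (r₀ + (-(z' - z)) • v)) with hA
  have hrz : θ (r₀ + (-(z - z)) • v) ≠ 0 := by simpa using hr
  have hAan : AnalyticAt ℂ A z := by
    refine AnalyticAt.div ?_ ?_ (mul_ne_zero ht hrz)
    · exact (((hrd.const_mul (θ t₀)).const_mul k).sub (hrd.const_mul (fderiv ℂ θ t₀ v)) |>.sub (hrd'.const_mul (θ t₀))).analyticAt z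
    · exact (hrd.const_mul (θ t₀)).analyticAt z
  have hev : ∀ᶠ z' in 𝓝 z, deriv (fun z' : ℂ => θ (s₀ + z' • v)) z' = A z' * θ (s₀ + z' • v) := by
    filter_upwards [(hrd.continuous.continuousAt (x := z)).eventually_ne hrz] with z' hz'
    rw [(hasDeriv_line hθ s₀ v z').deriv]
    have h1 := hC (s₀ + z' • v) t₀
    have h2 : 3 • y - (s₀ + z' • v) - t₀ = r₀ + (-(z' - z)) • v := by rw [hr₀]; module
    rw [h2] at h1
    rw [hA]
    simp only
    rw [div_mul_eq_mul_div, eq_div_iff (mul_ne_zero ht hz')]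
    linear_combination h1
  have h2 := ode_zero (diff_line hθ s₀ v) hAan hev hz 0
  exact h0 (by simpa using h2)

/-- the logarithmic derivative -/
def lq (θ : Cn n → ℂ) (v a : Cn n) (z : ℂ) : ℂ := fderiv ℂ θ (a + z • v) v / θ (a + z • v)

theorem lq_diff (hθ : Differentiable ℂ θ) {a : Cn n} (h : ∀ z : ℂ, θ (a + z • v) ≠ 0) : Differentiable ℂ (lq θ v a) := by
  have h2 : (fun z' : ℂ => fderiv ℂ θ (a + z' • v) v) = deriv fun z : ℂ => θ (a + z • v) := by
    funext z'
    exact (hasDeriv_line hθ a v z').deriv.symm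
  have h1 : Differentiable ℂ fun z' : ℂ => fderiv ℂ θ (a + z' • v) v := by
    rw [h2]
    exact fun w => ((diff_line hθ a v).analyticAt w).deriv.differentiableAt
  exact h1.div (diff_line hθ a v) h

/-- `θ` is the exponential of a quadratic polynomial on the lines in the direction `v` -/
theorem line_exp (hθ : Differentiable ℂ θ) (hC : Cub θ v y k) {s₀ : Cn n} (h0 : θ s₀ ≠ 0) : ∃ α β : ℂ, ∀ z : ℂ, θ (s₀ + z • v) = θ s₀ * Complex.exp (β * z + α * z ^ 2) := by
  obtain ⟨t₀, ht, hr⟩ := exists_t hθ h0 y s₀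
  set r₀ := 3 • y - s₀ - t₀ with hr₀
  have hs' := line_ne hθ hC h0
  have ht' := line_ne hθ hC ht
  have hr' := line_ne hθ hC hr
  have key : ∀ z z' : ℂ, lq θ v s₀ z + lq θ v t₀ z' + lq θ v r₀ (-z - z') = k := by
    intro z z'
    have h1 := hC (s₀ + z • v) (t₀ + z' • v)
    have h2 : 3 • y - (s₀ + z • v) - (t₀ + z' • v) = r₀ + (-z - z') • v := by rw [hr₀]; module
    rw [h2] at h1
    have e1 := hs' z
    have e2 := ht' z'
    have e3 := hr' (-z - z')
    unfold lq
    field_simp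
    linear_combination h1
  set P := lq θ v s₀ with hP
  set Q := lq θ v t₀ with hQ
  have hadd : ∀ z z' : ℂ, P (z + z') = P z + Q z' - Q 0 := by
    intro z z'
    have h1 := key z z'
    have h2 := key (z + z') 0
    rw [show -(z + z') - 0 = -z - z' by ring] at h2
    linear_combination h2 - h1
  have hPd : Differentiable ℂ P := lq_diff hθ hs'
  have hder : ∀ z : ℂ, deriv P z = deriv P 0 := by
    intro z
    have h1 : (fun w : ℂ => P (w + z)) = fun w => P w + (Q z - Q 0) := by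
      funext w
      rw [hadd w z]
      ring
    have h2 : deriv (fun w : ℂ => P (w + z)) 0 = deriv P z := by
      rw [deriv_comp_add_const, zero_add]
    rw [← h2, h1, deriv_add_const]
  have hPlin : ∀ z : ℂ, P z = P 0 + deriv P 0 * z := by
    intro z
    have h1 : Differentiable ℂ fun z => P z - deriv P 0 * z := hPd.sub (differentiable_id.const_mul _)
    have h2 : ∀ z, deriv (fun z => P z - deriv P 0 * z) z = 0 := by
      intro z
      have h3 : HasDerivAt (fun z => P z - deriv P 0 * z) (deriv P z - deriv P 0 * 1) z := (hPd z).hasDerivAt.sub ((hasDerivAt_id z).const_mul _)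
      rw [h3.deriv, hder z, mul_one, sub_self]
    have h4 := is_const_of_deriv_eq_zero h1 h2 z 0
    simp only [mul_zero, sub_zero] at h4
    linear_combination h4
  refine ⟨deriv P 0 / 2, P 0, fun z => ?_⟩
  set β := P 0
  set γ := deriv P 0
  have h1 : ∀ z : ℂ, HasDerivAt (fun z : ℂ => θ (s₀ + z • v) * Complex.exp (-(β * z + γ / 2 * z ^ 2)))
      (fderiv ℂ θ (s₀ + z • v) v * Complex.exp (-(β * z + γ / 2 * z ^ 2)) + θ (s₀ + z • v) * (Complex.exp (-(β * z + γ / 2 * z ^ 2)) * (-(β * 1 + γ / 2 * (2 * z ^ 1 * 1))))) z := by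
    intro z
    refine (hasDeriv_line hθ s₀ v z).mul ?_
    have h2 : HasDerivAt (fun z : ℂ => -(β * z + γ / 2 * z ^ 2)) (-(β * 1 + γ / 2 * (2 * z ^ 1 * 1))) z := by
      refine (((hasDerivAt_id z).const_mul β).add ?_).neg
      have h3 := ((hasDerivAt_id z).pow 2).const_mul (γ / 2)
      simpa using h3
    exact h2.cexp
  have h2 : ∀ z : ℂ, deriv (fun z : ℂ => θ (s₀ + z • v) * Complex.exp (-(β * z + γ / 2 * z ^ 2))) z = 0 := by
    intro z
    rw [(h1 z).deriv]
    have h3 : fderiv ℂ θ (s₀ + z • v) v = (β + γ * z) * θ (s₀ + z • v) := by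
      have h4 : P z = fderiv ℂ θ (s₀ + z • v) v / θ (s₀ + z • v) := rfl
      rw [hPlin z] at h4
      rw [h4, div_mul_cancel₀ _ (hs' z)]
    rw [h3]
    ring
  have h3 := is_const_of_deriv_eq_zero (fun z => (h1 z).differentiableAt) h2 z 0
  simp only [zero_smul, add_zero, mul_zero, ne_eq, OfNat.ofNat_ne_zero, not_false_eq_true, zero_pow, neg_zero, Complex.exp_zero, mul_one] at h3
  rw [← h3, mul_assoc, ← Complex.exp_add, neg_add_cancel, Complex.exp_zero, mul_one]

end Pool.Agent.LG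

end
end

section

/-!
# LG G4: the family of theta functions

`gf θ p y = θ (y + p.1) θ (y + p.2) θ (y - p.1 - p.2)` is of type 3 (`gf_type`); the gradients of the quotients span (`gf_span`), by the theorem of the cube along lines (`line_exp`), the growth of theta functions and the
recurrence of lines; finitely many suffice by compactness (`exists_fam`).
-/

set_option autoImplicit false

open Topology Filter MvPolynomial
open Pool.Agent.PXF (Cn form IsThetaForm)

noncomputable section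

namespace Pool.Agent.LG

variable {n κ d : ℕ}

/-- the weighted norm -/
def rh {r : ℕ} (W : Fin r → Cn n →L[ℂ] ℂ) (θ : Cn n → ℂ) (y : Cn n) : ℝ := ‖θ y‖ * Real.exp (-∑ j, ‖W j y‖ ^ 2)

theorem rh_cont {r : ℕ} (W : Fin r → Cn n →L[ℂ] ℂ) {θ : Cn n → ℂ} (hθ : Differentiable ℂ θ) : Continuous (rh W θ) := by
  unfold rh
  have h1 := hθ.continuous
  have h2 : ∀ j, Continuous (W j) := fun j => (W j).continuous
  fun_prop

/-- a theta function of a positive line bundle is not the exponential of a quadratic polynomial on a line -/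
theorem line_false {Λ : AddSubgroup (Cn n)} (hspan : Submodule.span ℝ (Λ : Set (Cn n)) = ⊤) {r : ℕ} {W : Fin r → Cn n →L[ℂ] ℂ} (hW : ∀ y, (∀ j, W j y = 0) → y = 0) {θ : Cn n → ℂ} (hθ : Differentiable ℂ θ)
    (hper : ∀ l ∈ Λ, ∀ y, rh W θ (y + l) = rh W θ y) {v s₀ : Cn n} (hv : v ≠ 0) (h0 : θ s₀ ≠ 0) {α β : ℂ} (h : ∀ z : ℂ, θ (s₀ + z • v) = θ s₀ * Complex.exp (β * z + α * z ^ 2)) : False := by
  set ω : ℝ := ∑ j, ‖W j v‖ ^ 2 with hω
  have hω0 : 0 < ω := by
    refine lt_of_le_of_ne (Finset.sum_nonneg fun j _ => sq_nonneg _) fun h1 => hv (hW v fun j => ?_)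
    have h2 := (Finset.sum_eq_zero_iff_of_nonneg (fun j _ => sq_nonneg ‖W j v‖)).1 h1.symm j (Finset.mem_univ j)
    exact norm_eq_zero.1 (pow_eq_zero_iff (two_ne_zero) |>.1 h2)
  obtain ⟨ζ, hζ, hζα⟩ : ∃ ζ : ℂ, ‖ζ‖ = 1 ∧ (α * ζ ^ 2).re ≤ 0 := by
    rcases le_total α.re 0 with h1 | h1
    · exact ⟨1, by simp, by simpa using h1⟩
    · exact ⟨Complex.I, by simp, by simpa using h1⟩
  set b : ℂ := ex W (ζ • v) s₀ with hb
  set C : ℝ := ‖β‖ + ‖b‖ with hC
  have hC0 : 0 ≤ C := by positivity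
  -- the decay
  have hdec : ∀ t : ℝ, (C + 1) / ω + 1 ≤ t → rh W θ (s₀ + (t : ℂ) • ζ • v) ≤ rh W θ s₀ * Real.exp (-1) := by
    intro t ht
    have ht1 : 1 ≤ t := le_trans (by rw [le_add_iff_nonneg_left]; positivity) ht
    have htω : C + 1 ≤ ω * t := by
      have h1 : (C + 1) / ω ≤ t := by linarith
      rw [div_le_iff₀ hω0] at h1
      linarith
    have h1 : rh W θ (s₀ + (t : ℂ) • ζ • v) = rh W θ s₀ * Real.exp ((β * (t * ζ) + α * (t * ζ) ^ 2).re - ((ex W ((t : ℂ) • ζ • v) s₀).re + ∑ j, ‖W j ((t : ℂ) • ζ • v)‖ ^ 2)) := by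
      unfold rh
      rw [show (t : ℂ) • ζ • v = ((t : ℂ) * ζ) • v by rw [smul_smul], h, norm_mul, Complex.norm_exp, sum_sq_add W (((t : ℂ) * ζ) • v) s₀, mul_assoc, mul_assoc, ← Real.exp_add, ← Real.exp_add]
      congr 2
      ring
    rw [h1]
    refine mul_le_mul_of_nonneg_left (Real.exp_le_exp.2 ?_) (mul_nonneg (norm_nonneg _) (Real.exp_pos _).le)
    have h2 : ex W ((t : ℂ) • ζ • v) s₀ = (t : ℂ) * b := by
      rw [hb]
      unfold ex
      rw [Finset.mul_sum]
      refine Finset.sum_congr rfl fun j _ => ?_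
      rw [map_smul, smul_eq_mul, map_mul, Complex.conj_ofReal]
      ring
    have h3 : ∑ j, ‖W j ((t : ℂ) • ζ • v)‖ ^ 2 = t ^ 2 * ω := by
      rw [hω, Finset.mul_sum]
      refine Finset.sum_congr rfl fun j _ => ?_
      rw [map_smul, map_smul, smul_eq_mul, smul_eq_mul, norm_mul, norm_mul, hζ, one_mul, Complex.norm_real, mul_pow, Real.norm_eq_abs, sq_abs]
    have h4 : (β * (t * ζ) + α * (t * ζ) ^ 2).re ≤ t * ‖β‖ := by
      have e1 : (α * ((t : ℂ) * ζ) ^ 2).re = t ^ 2 * (α * ζ ^ 2).re := by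
        rw [show α * ((t : ℂ) * ζ) ^ 2 = ((t ^ 2 : ℝ) : ℂ) * (α * ζ ^ 2) by push_cast; ring, Complex.re_ofReal_mul]
      have e2 : (β * ((t : ℂ) * ζ)).re ≤ t * ‖β‖ := by
        refine (Complex.re_le_norm _).trans ?_
        rw [norm_mul, norm_mul, hζ, mul_one, Complex.norm_real, Real.norm_of_nonneg (by linarith : (0 : ℝ) ≤ t)]
        linarith
      rw [Complex.add_re, e1]
      have e3 : t ^ 2 * (α * ζ ^ 2).re ≤ 0 := mul_nonpos_of_nonneg_of_nonpos (sq_nonneg t) hζα
      linarith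
    have h5 : -((t : ℂ) * b).re ≤ t * ‖b‖ := by
      rw [Complex.re_ofReal_mul]
      have e1 := Complex.abs_re_le_norm b
      have e2 := neg_le_of_abs_le e1
      nlinarith
    rw [h2, h3]
    nlinarith
  -- the recurrence
  have hc := (rh_cont W hθ).continuousAt (x := s₀)
  have hpos : 0 < rh W θ s₀ := mul_pos (norm_pos_iff.2 h0) (Real.exp_pos _)
  have hlt : rh W θ s₀ * Real.exp (-1) < rh W θ s₀ := by
    have : Real.exp (-1) < 1 := by rw [Real.exp_lt_one_iff]; norm_num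
    nlinarith
  obtain ⟨ε, hε, hball⟩ := Metric.eventually_nhds_iff_ball.1 (hc.eventually_const_lt hlt)
  obtain ⟨t, ht, l, hl, hlt'⟩ := recur hspan (ζ • v) hε ((C + 1) / ω + 1)
  have h1 := hdec t ht
  have h2 : rh W θ (s₀ + (t : ℂ) • ζ • v) = rh W θ (s₀ + ((t : ℂ) • ζ • v - l)) := by
    rw [← hper l hl (s₀ + ((t : ℂ) • ζ • v - l))]
    congr 1
    module
  have h3 := hball (s₀ + ((t : ℂ) • ζ • v - l)) (by rw [Metric.mem_ball, dist_eq_norm, add_sub_cancel_left]; exact hlt')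
  linarith

/-- the product of three translates -/
def gf (θ : Cn n → ℂ) (p : Cn n × Cn n) (y : Cn n) : ℂ := θ (y + p.1) * θ (y + p.2) * θ (y - p.1 - p.2)

theorem gf_diff {θ : Cn n → ℂ} (hθ : Differentiable ℂ θ) (p : Cn n × Cn n) : Differentiable ℂ (gf θ p) := by
  have h1 : Differentiable ℂ fun y : Cn n => θ (y + p.1) := hθ.comp (by fun_prop)
  have h2 : Differentiable ℂ fun y : Cn n => θ (y + p.2) := hθ.comp (by fun_prop)
  have h3 : Differentiable ℂ fun y : Cn n => θ (y - p.1 - p.2) := hθ.comp (by fun_prop)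
  exact (h1.mul h2).mul h3

/-- the derivative of the product of three translates -/
theorem gf_fderiv {θ : Cn n → ℂ} (hθ : Differentiable ℂ θ) (p : Cn n × Cn n) (y v : Cn n) : fderiv ℂ (gf θ p) y v =
    fderiv ℂ θ (y + p.1) v * θ (y + p.2) * θ (y - p.1 - p.2) + θ (y + p.1) * fderiv ℂ θ (y + p.2) v * θ (y - p.1 - p.2) + θ (y + p.1) * θ (y + p.2) * fderiv ℂ θ (y - p.1 - p.2) v := by
  have h1 : ∀ a : Cn n, HasFDerivAt (fun y : Cn n => θ (y + a)) (fderiv ℂ θ (y + a)) y := fun a => (hasFDerivAt_comp_add_right a).2 (hθ (y + a)).hasFDerivAt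
  have h3 : HasFDerivAt (fun y : Cn n => θ (y - p.1 - p.2)) (fderiv ℂ θ (y - p.1 - p.2)) y := by
    have h4 := h1 (-p.1 - p.2)
    simp only [show ∀ y : Cn n, y + (-p.1 - p.2) = y - p.1 - p.2 from fun y => by abel] at h4
    exact h4
  have h5 := (((h1 p.1).mul (h1 p.2)).mul h3).fderiv
  have h6 : gf θ p = (fun y => θ (y + p.1) * θ (y + p.2)) * fun y => θ (y - p.1 - p.2) := rfl
  rw [h6]
  erw [h5]
  simp only [Pi.mul_apply, add_apply, smul_apply, smul_eq_mul]
  ring

/-- the multiplier -/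
def mu {r : ℕ} (W : Fin r → Cn n →L[ℂ] ℂ) (c : ℂ) (l y : Cn n) : ℂ := (c * Complex.exp (ex W l y)) ^ 3

theorem gf_mul {r : ℕ} {W : Fin r → Cn n →L[ℂ] ℂ} {c : ℂ} {l : Cn n} {θ : Cn n → ℂ} (h : ∀ y, θ (y + l) = c * Complex.exp (ex W l y) * θ y) (p : Cn n × Cn n) (y : Cn n) : gf θ p (y + l) = mu W c l y * gf θ p y := by
  unfold gf mu
  rw [show y + l + p.1 = y + p.1 + l by abel, show y + l + p.2 = y + p.2 + l by abel, show y + l - p.1 - p.2 = y - p.1 - p.2 + l by abel, h, h, h]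
  have h1 : Complex.exp (ex W l (y + p.1)) * Complex.exp (ex W l (y + p.2)) * Complex.exp (ex W l (y - p.1 - p.2)) = Complex.exp (ex W l y) ^ 3 := by
    rw [← Complex.exp_add, ← Complex.exp_add, ← Complex.exp_nat_mul]
    congr 1
    rw [ex_add, ex_add, ex_sub, ex_sub]
    push_cast
    ring
  rw [mul_pow, ← h1]
  ring

theorem gf_type {Λ : AddSubgroup (Cn (κ + 1))} {θ : Fin (d + 1) → Cn (κ + 1) → ℂ} (hd : ∀ i, Differentiable ℂ (θ i)) {r : ℕ} {W : Fin r → Cn (κ + 1) →L[ℂ] ℂ}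
    (h : ∀ l ∈ Λ, ∃ c : ℂ, ‖c‖ = Real.exp (∑ j, ‖W j l‖ ^ 2) ∧ ∀ y i, θ i (y + l) = c * Complex.exp (ex W l y) * θ i y) (i₀ : Fin (d + 1)) (p : Cn (κ + 1) × Cn (κ + 1)) : IsType Λ θ 3 (gf (θ i₀) p) := by
  refine ⟨gf_diff (hd i₀) p, fun l hl y i => ?_⟩
  obtain ⟨c, -, hc⟩ := h l hl
  rw [gf_mul (fun y => hc y i₀) p y, hc y i]
  unfold mu
  ring

/-- the gradients of the quotients span -/
theorem gf_span {Λ : AddSubgroup (Cn (κ + 1))} (hspan : Submodule.span ℝ (Λ : Set (Cn (κ + 1))) = ⊤) {r : ℕ} {W : Fin r → Cn (κ + 1) →L[ℂ] ℂ} (hW : ∀ y, (∀ j, W j y = 0) → y = 0) {θ : Cn (κ + 1) → ℂ}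
    (hθ : Differentiable ℂ θ) (hper : ∀ l ∈ Λ, ∀ y, rh W θ (y + l) = rh W θ y) {s₀ : Cn (κ + 1)} (h0 : θ s₀ ≠ 0) (y : Cn (κ + 1)) {c : Cn (κ + 1) × Cn (κ + 1)} (hc : gf θ c y ≠ 0) :
    Submodule.span ℂ (Set.range fun p => (fun i => wr (gf θ c) (gf θ p) i y : Cn (κ + 1))) = ⊤ := by
  by_contra hne
  obtain ⟨f, hf0, hf⟩ := Submodule.exists_le_ker_of_lt_top _ (lt_top_iff_ne_top.2 hne)
  set v : Cn (κ + 1) := fun i => f (Pi.single i 1) with hv
  have hfv : ∀ x : Cn (κ + 1), f x = ∑ i, x i * v i := by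
    intro x
    conv_lhs => rw [← Finset.univ_sum_single x]
    rw [map_sum]
    refine Finset.sum_congr rfl fun i _ => ?_
    rw [show (Pi.single i (x i) : Cn (κ + 1)) = x i • Pi.single i 1 by rw [← Pi.single_smul, smul_eq_mul, mul_one], map_smul, smul_eq_mul]
  have hv0 : v ≠ 0 := by
    intro h1
    refine hf0 (LinearMap.ext fun x => ?_)
    rw [hfv x, h1]
    simp
  have hder : ∀ g : Cn (κ + 1) → ℂ, fderiv ℂ g y v = ∑ i, pd g i y * v i := by
    intro g
    have h1 : v = ∑ i, v i • (Pi.single i 1 : Cn (κ + 1)) := by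
      conv_lhs => rw [← Finset.univ_sum_single v]
      refine Finset.sum_congr rfl fun i _ => ?_
      rw [← Pi.single_smul, smul_eq_mul, mul_one]
    conv_lhs => rw [h1]
    rw [map_sum]
    refine Finset.sum_congr rfl fun i _ => ?_
    rw [map_smul, smul_eq_mul, mul_comm]
    rfl
  set k : ℂ := fderiv ℂ (gf θ c) y v / gf θ c y with hk
  have hall : ∀ p, fderiv ℂ (gf θ p) y v = k * gf θ p y := by
    intro p
    have h1 : f (fun i => wr (gf θ c) (gf θ p) i y) = 0 := hf (Submodule.subset_span ⟨p, rfl⟩)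
    rw [hfv] at h1
    have h2 : gf θ c y * fderiv ℂ (gf θ p) y v - gf θ p y * fderiv ℂ (gf θ c) y v = 0 := by
      rw [hder, hder, Finset.mul_sum, Finset.mul_sum, ← Finset.sum_sub_distrib, ← h1]
      refine Finset.sum_congr rfl fun i _ => ?_
      unfold wr
      ring
    rw [hk, div_mul_eq_mul_div, eq_div_iff hc]
    linear_combination h2
  have hC : Cub θ v y k := by
    intro s t
    have h1 := hall (s - y, t - y)
    rw [gf_fderiv hθ] at h1
    unfold gf at h1
    simp only [add_sub_cancel] at h1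
    rw [show y - (s - y) - (t - y) = 3 • y - s - t by module] at h1
    exact h1
  obtain ⟨α, β, h1⟩ := line_exp hθ hC h0
  exact line_false hspan hW hθ hper hv0 h0 h1

/-- a spanning family contains a basis -/
theorem exists_basis_det {m : ℕ} {ι : Type} {V : ι → Cn m} (h : Submodule.span ℂ (Set.range V) = ⊤) : ∃ b : Fin m → ι, (Matrix.of fun i j => V (b j) i).det ≠ 0 := by
  obtain ⟨s, hs, hspan, hli⟩ := exists_linearIndependent ℂ (Set.range V)
  have h1 : Submodule.span ℂ s = ⊤ := by rw [hspan, h]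
  have hb : ∃ b : Module.Basis s ℂ (Cn m), ∀ x, b x = x := by
    refine ⟨Module.Basis.mk hli (by rw [Subtype.range_coe_subtype, Set.setOf_mem_eq, h1]), fun x => by simp⟩
  obtain ⟨b, hb⟩ := hb
  haveI : Fintype s := Module.Basis.fintypeIndexOfRankLtAleph0 b (by
    rw [rank_fin_fun]
    exact Cardinal.natCast_lt_aleph0)
  have hcard : Fintype.card s = m := by
    rw [← Module.finrank_eq_card_basis b, Module.finrank_fin_fun]
  let e : Fin m ≃ s := (Fin.castOrderIso hcard.symm).toEquiv.trans (Fintype.equivFin s).symm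
  choose g hg using fun x : s => hs x.2
  refine ⟨fun j => g (e j), ?_⟩
  have h2 : LinearIndependent ℂ fun j : Fin m => V (g (e j)) := by
    have h3 : (fun j : Fin m => V (g (e j))) = (fun x : s => (x : Cn m)) ∘ e := by
      funext j
      exact hg (e j)
    rw [h3]
    exact hli.comp _ e.injective
  have h4 : (Matrix.of fun i j => V (g (e j)) i) = (Matrix.of fun j i => V (g (e j)) i).transpose := rfl
  rw [h4, Matrix.det_transpose]
  have h5 : LinearIndependent ℂ (Matrix.of fun j i => V (g (e j)) i).row := h2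
  have h6 := Matrix.linearIndependent_rows_iff_isUnit.1 h5
  exact ((Matrix.isUnit_iff_isUnit_det _).1 h6).ne_zero

/-- `wr` under a translation by a lattice vector -/
theorem wr_mul {g h E : Cn (κ + 1) → ℂ} (hg : Differentiable ℂ g) (hh : Differentiable ℂ h) (hE : Differentiable ℂ E) {l : Cn (κ + 1)} (e1 : ∀ y, g (y + l) = E y * g y) (e2 : ∀ y, h (y + l) = E y * h y)
    (i : Fin (κ + 1)) (y : Cn (κ + 1)) : wr g h i (y + l) = E y ^ 2 * wr g h i y := by
  have key : ∀ {f : Cn (κ + 1) → ℂ}, Differentiable ℂ f → (∀ y, f (y + l) = E y * f y) → pd f i (y + l) = E y * pd f i y + pd E i y * f y := by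
    intro f hf e
    have h1 : HasFDerivAt (fun y => f (y + l)) (fderiv ℂ f (y + l)) y := (hasFDerivAt_comp_add_right l).2 (hf (y + l)).hasFDerivAt
    have h2 : HasFDerivAt (fun y => f (y + l)) (E y • fderiv ℂ f y + f y • fderiv ℂ E y) y := by
      rw [show (fun y => f (y + l)) = fun y => E y * f y from funext e]
      exact (hE y).hasFDerivAt.mul (hf y).hasFDerivAt
    unfold pd
    rw [h1.unique h2]
    simp only [add_apply, smul_apply, smul_eq_mul]
    ring
  unfold wr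
  rw [key hg e1, key hh e2, e1, e2]
  ring

theorem pd_cont {g : Cn (κ + 1) → ℂ} (hg : Differentiable ℂ g) (i : Fin (κ + 1)) : Continuous (pd g i) := by
  rw [continuous_iff_continuousAt]
  intro y
  have h1 : ContinuousAt (fderiv ℂ g) y := (an_of_diff hg y).fderiv.continuousAt
  exact h1.clm_apply continuousAt_const

theorem wr_cont {g h : Cn (κ + 1) → ℂ} (hg : Differentiable ℂ g) (hh : Differentiable ℂ h) (i : Fin (κ + 1)) : Continuous (wr g h i) := by
  unfold wr
  exact (hg.continuous.mul (pd_cont hh i)).sub (hh.continuous.mul (pd_cont hg i))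

/-- **the family** -/
theorem exists_fam {Λ : AddSubgroup (Cn (κ + 1))} (hspan : Submodule.span ℝ (Λ : Set (Cn (κ + 1))) = ⊤) {θ : Fin (d + 1) → Cn (κ + 1) → ℂ} (h : IsThetaForm Λ θ) (hne : ∃ i y, θ i y ≠ 0) :
    ∃ (r : ℕ) (Θ : Fin r → Cn (κ + 1) → ℂ), Fam Λ θ Θ := by
  classical
  obtain ⟨r, W, hW, haut⟩ := automorphy h hne
  obtain ⟨i₀, s₀, h0⟩ := hne
  have hθ := h.holomorphic i₀
  have hper : ∀ l ∈ Λ, ∀ y, rh W (θ i₀) (y + l) = rh W (θ i₀) y := by
    intro l hl y
    obtain ⟨c, hc, hc'⟩ := haut l hl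
    unfold rh
    rw [hc' y i₀, norm_mul, norm_mul, hc, Complex.norm_exp, sum_sq_add W l y, mul_assoc, mul_comm ‖θ i₀ y‖, ← mul_assoc, ← Real.exp_add, ← Real.exp_add, mul_comm]
    congr 2
    ring
  -- a chart at every point
  have hch : ∀ y, ∃ (c : Cn (κ + 1) × Cn (κ + 1)) (b : Fin (κ + 1) → Cn (κ + 1) × Cn (κ + 1)), gf (θ i₀) c y ≠ 0 ∧ (Matrix.of fun i j => wr (gf (θ i₀) c) (gf (θ i₀) (b j)) i y).det ≠ 0 := by
    intro y
    obtain ⟨t, ht, hr⟩ := exists_t hθ h0 y s₀
    have hc : gf (θ i₀) (s₀ - y, t - y) y ≠ 0 := by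
      unfold gf
      simp only [add_sub_cancel]
      rw [show y - (s₀ - y) - (t - y) = 3 • y - s₀ - t by module]
      exact mul_ne_zero (mul_ne_zero h0 ht) hr
    obtain ⟨b, hb⟩ := exists_basis_det (gf_span hspan hW hθ hper h0 y hc)
    exact ⟨_, b, hc, hb⟩
  choose c b hc hb using hch
  set O : Cn (κ + 1) → Set (Cn (κ + 1)) := fun x => {y | gf (θ i₀) (c x) y ≠ 0 ∧ (Matrix.of fun i j => wr (gf (θ i₀) (c x)) (gf (θ i₀) (b x j)) i y).det ≠ 0} with hO
  have hOn : ∀ x, O x ∈ 𝓝 x := by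
    intro x
    have h1 : ContinuousAt (gf (θ i₀) (c x)) x := (gf_diff hθ _).continuous.continuousAt
    have h2 : ContinuousAt (fun y => (Matrix.of fun i j => wr (gf (θ i₀) (c x)) (gf (θ i₀) (b x j)) i y).det) x := by
      refine Continuous.continuousAt (Continuous.matrix_det ?_)
      exact continuous_matrix fun i j => wr_cont (gf_diff hθ _) (gf_diff hθ _) i
    exact (h1.eventually_ne (hc x)).and (h2.eventually_ne (hb x))
  obtain ⟨C, hC, hcoc⟩ := g4_cocompact hspan
  obtain ⟨T, -, hT⟩ := (isCompact_closedBall (0 : Cn (κ + 1)) C).elim_nhds_subcover O fun x _ => hOn x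
  -- the family
  let I := {x // x ∈ T} × Option (Fin (κ + 1))
  let P : I → Cn (κ + 1) × Cn (κ + 1) := fun i => match i.2 with
    | none => c i.1
    | some j => b i.1 j
  let e := Fintype.equivFin I
  refine ⟨Fintype.card I, fun a => gf (θ i₀) (P (e.symm a)), fun a => gf_type h.holomorphic haut i₀ _, fun y => ?_⟩
  obtain ⟨l, hl, hly⟩ := hcoc y
  obtain ⟨x, hx, hxy⟩ : ∃ x ∈ T, y - l ∈ O x := by
    have h1 := hT (show y - l ∈ Metric.closedBall (0 : Cn (κ + 1)) C by rw [mem_closedBall_zero_iff]; exact hly)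
    simpa using h1
  obtain ⟨cl, -, hcl⟩ := haut l hl
  have hmul : ∀ p z, gf (θ i₀) p (z + l) = mu W cl l z * gf (θ i₀) p z := fun p z => gf_mul (fun y => hcl y i₀) p z
  have hmd : Differentiable ℂ (mu W cl l) := by
    unfold mu
    exact (((ex_diff W l).cexp).const_mul _).pow 3
  have hm0 : mu W cl l (y - l) ≠ 0 := by
    intro h1
    have h2 : ∀ p, gf (θ i₀) p y = 0 := fun p => by
      have h3 := hmul p (y - l)
      rw [sub_add_cancel, h1, zero_mul] at h3
      exact h3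
    exact hc y (h2 _)
  refine ⟨e (⟨x, hx⟩, none), fun j => e (⟨x, hx⟩, some j), ?_, ?_⟩
  · have h1 : gf (θ i₀) (c x) y = mu W cl l (y - l) * gf (θ i₀) (c x) (y - l) := by
      rw [← hmul, sub_add_cancel]
    simp only [Equiv.symm_apply_apply]
    show gf (θ i₀) (c x) y ≠ 0
    rw [h1]
    exact mul_ne_zero hm0 hxy.1
  · simp only [Equiv.symm_apply_apply]
    show (Matrix.of fun i j => wr (gf (θ i₀) (c x)) (gf (θ i₀) (b x j)) i y).det ≠ 0
    have h1 : (Matrix.of fun i j => wr (gf (θ i₀) (c x)) (gf (θ i₀) (b x j)) i y) = (mu W cl l (y - l) ^ 2) • (Matrix.of fun i j => wr (gf (θ i₀) (c x)) (gf (θ i₀) (b x j)) i (y - l)) := by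
      ext i j
      simp only [Matrix.of_apply, Matrix.smul_apply, smul_eq_mul]
      rw [← wr_mul (gf_diff hθ _) (gf_diff hθ _) hmd (hmul _) (hmul _) i (y - l), sub_add_cancel]
    rw [h1, Matrix.det_smul]
    exact mul_ne_zero (pow_ne_zero _ (pow_ne_zero _ hm0)) hxy.2

end Pool.Agent.LG

end
end

section

/-!
# LG Fa: the family of theta functions with additional members
-/

set_option autoImplicit false

open MvPolynomial Filter Topology
open Pool.Agent.PXF (Cn form IsThetaForm)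

noncomputable section

namespace Pool.Agent.LG

variable {κ d : ℕ} {Λ : AddSubgroup (Cn (κ + 1))} {θ : Fin (d + 1) → Cn (κ + 1) → ℂ}

/-- a finite family of theta functions of type 3 with local coordinates at every point, with given additional members -/
theorem exists_fam_extra (hθ : IsThetaForm Λ θ) (h : ∃ i y, θ i y ≠ 0) (hΛ : Submodule.span ℝ (Λ : Set (Cn (κ + 1))) = ⊤) {e : ℕ} (extra : Fin e → Cn (κ + 1) → ℂ) (hex : ∀ i, IsType Λ θ 3 (extra i)) :
    ∃ (n : ℕ) (Θ : Fin n → Cn (κ + 1) → ℂ) (cf : Fin e → Fin n), Fam Λ θ Θ ∧ ∀ i, Θ (cf i) = extra i := by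
  obtain ⟨r, Θ, hΘ⟩ := exists_fam hΛ hθ h
  refine ⟨r + e, Fin.append Θ extra, fun i => Fin.natAdd r i, ⟨fun a => ?_, fun y => ?_⟩, fun i => Fin.append_right Θ extra i⟩
  · induction a using Fin.addCases with
    | left i => rw [Fin.append_left]; exact hΘ.type i
    | right i => rw [Fin.append_right]; exact hex i
  · obtain ⟨c, b, hc, hb⟩ := hΘ.chart y
    refine ⟨Fin.castAdd e c, fun j => Fin.castAdd e (b j), ?_, ?_⟩
    · rw [Fin.append_left]; exact hc
    · have h1 : (Matrix.of fun i j => wr (Fin.append Θ extra (Fin.castAdd e c)) (Fin.append Θ extra (Fin.castAdd e (b j))) i y) = Matrix.of fun i j => wr (Θ c) (Θ (b j)) i y := by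
        ext i j
        simp only [Matrix.of_apply, Fin.append_left]
      rw [h1]; exact hb

end Pool.Agent.LG

end
end
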