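import Pool.Agent.H94.PX4.M12
import Pool.Agent.H94.PX4.M56
import Pool.Agent.H94.PX4.M58
import Pool.Agent.H94.PX4.M63
import Pool.Agent.H94.PX4.M65

/-! The parts of this file: LT.Vm, LG.Dl, LT.Alm, LT.Se, LT.Gc, LT.Gb. -/

section

/-!
# LT Vm: the map to `ℙ^m` as rational functions

As `LG/Wc.lean` (helper37), for `ℙ^m`.
* `VMapm.ex`, `VMapm.smul`: formal.
* `exists_vm`: a point `a₀` of the cone (`exists_cone_point` with `B = 1`), `VMapm` at `a₀` gives forms `γ l`; `Vf l = γ l (ξ)`.  For a point `a` with forms `γ' l`: the vectors `γ (a')`, `γ' (a')` are proportional for all points `a'` of the cone where both are not `0`, so `γ l γ' l' - γ l' γ' l ∈ Q`, and the quotients agree;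
  `V a x` gives `x = c γ' (a)`.  `Vf l ≠ 0` if `x l ≠ 0`: `γ' l (ξ) ≠ 0`, and some `γ l' (ξ) ≠ 0`.
* `Vm_const`: at `γ 0` take `x` with `V (γ 0) x`, `x l ≠ 0`, and forms `γ'` at `γ 0`; `γ' l (γ t) ≠ 0` near `0`; `V (γ t) (γ' (γ t))`, and the quotients are constant, so `V (γ t) q` with `q = (w l l')_(l')`.
-/

set_option autoImplicit false

open Topology Filter MvPolynomial
open Pool.Agent.PXF (Cn form IsThetaForm)
open Pool.Agent.LG (Cone GP RegAt BdG IsType Lft RegL NZ IsVal Fam wr exists_cone_point aeval_ne_zero)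

noncomputable section

namespace Pool.Agent.LT

variable {K : Type} [Field K] [Algebra ℂ K] {N κ d m : ℕ} {ξ : Fin (N + 1) → K} {Q : Ideal (MvPolynomial (Fin (N + 1)) ℂ)} {V : (Fin (N + 1) → ℂ) → Cn (m + 1) → Prop}

theorem VMapm.ex (hV : VMapm Q V) {a : Fin (N + 1) → ℂ} (ha : Cone Q a) : ∃ q : Cn (m + 1), q ≠ 0 ∧ V a q := by
  obtain ⟨D, γ, hγ, ⟨i, hi⟩, hV'⟩ := hV a ha
  refine ⟨fun i => eval a (γ i), fun h => hi (congrFun h i), ?_⟩
  refine (hV' a ha ⟨i, hi⟩ _).2 ⟨1, one_ne_zero, ?_⟩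
  funext j
  rw [one_mul]

theorem exists_vm (hQ : Q.IsPrime) (hgp : GP Q ξ) (hV : VMapm Q V) : ∃ Vf : Fin (m + 1) → K, (∃ l, Vf l ≠ 0) ∧ IsVm Q ξ V Vf := by
  obtain ⟨a₀, ha₀, -⟩ := exists_cone_point hQ hgp (isHomogeneous_one _ _)
    (fun h1 => hQ.ne_top ((Ideal.eq_top_iff_one Q).2 h1))
  obtain ⟨D, γ, hγ, ⟨i₀, hi₀⟩, hV'⟩ := hV a₀ ha₀
  have n0 : aeval ξ (γ i₀) ≠ 0 := aeval_ne_zero hgp ha₀ (hγ i₀) hi₀
  refine ⟨fun l => aeval ξ (γ l), ⟨i₀, n0⟩, ?_⟩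
  intro a x haQ hx l hxl
  obtain ⟨D', γ', hγ', hne', hV''⟩ := hV a haQ
  obtain ⟨e, he, rfl⟩ := (hV'' a haQ hne' x).1 hx
  have key : ∀ l l', aeval ξ (γ l) * aeval ξ (γ' l') = aeval ξ (γ l') * aeval ξ (γ' l) := by
    intro l l'
    have hhom : (γ l * γ' l' - γ l' * γ' l).IsHomogeneous (D + D') :=
      ((hγ l).mul (hγ' l')).sub ((hγ l').mul (hγ' l))
    have hmem : γ l * γ' l' - γ l' * γ' l ∈ Q := by
      by_contra hcon
      obtain ⟨b, hb, hb0⟩ := exists_cone_point hQ hgp hhom hcon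
      rw [map_sub, map_mul, map_mul] at hb0
      have e1 : ∃ i, eval b (γ i) ≠ 0 := by
        by_contra h2
        push Not at h2
        rw [h2 l, h2 l', zero_mul, zero_mul, sub_zero] at hb0
        exact hb0 rfl
      have e2 : ∃ i, eval b (γ' i) ≠ 0 := by
        by_contra h2
        push Not at h2
        rw [h2 l, h2 l', mul_zero, mul_zero, sub_zero] at hb0
        exact hb0 rfl
      have e3 : V b (fun i => eval b (γ i)) := by
        refine (hV' b hb e1 _).2 ⟨1, one_ne_zero, ?_⟩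
        funext j
        rw [one_mul]
      obtain ⟨f, _, hf2⟩ := (hV'' b hb e2 _).1 e3
      have e4 : eval b (γ l) = f * eval b (γ' l) := congrFun hf2 l
      have e5 : eval b (γ l') = f * eval b (γ' l') := congrFun hf2 l'
      refine hb0 ?_
      rw [e4, e5]
      ring
    have h2 := (hgp.zero _ _ hhom).2 hmem
    rw [map_sub, map_mul, map_mul] at h2
    exact sub_eq_zero.1 h2
  have h2 : eval a (γ' l) ≠ 0 := right_ne_zero_of_mul hxl
  have h3 : aeval ξ (γ' l) ≠ 0 := aeval_ne_zero hgp haQ (hγ' l) h2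
  have h4 : aeval ξ (γ l) ≠ 0 := by
    intro h5
    have h6 := key l i₀
    rw [h5, zero_mul] at h6
    exact mul_ne_zero n0 h3 h6.symm
  refine ⟨h4, fun l' => ⟨D', γ' l', γ' l, hγ' l', hγ' l, h2, ?_, ?_⟩⟩
  · show aeval ξ (γ l') / aeval ξ (γ l) * aeval ξ (γ' l) = aeval ξ (γ' l')
    rw [div_mul_eq_mul_div, ← key l l', mul_div_cancel_left₀ _ h4]
  · show eval a (γ' l') = e * eval a (γ' l') / (e * eval a (γ' l)) * eval a (γ' l)
    field_simp

theorem Vm_const (hgp : GP Q ξ) (hV : VMapm Q V) {Vf : Fin (m + 1) → K} (hw : IsVm Q ξ V Vf) {γ : ℂ → Fin (N + 1) → ℂ} (hγ : AnalyticAt ℂ γ 0) (hc : ∀ᶠ t in 𝓝 (0 : ℂ), Cone Q (γ t)) {w : Fin (m + 1) → Fin (m + 1) → ℂ}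
    (h : ∀ᶠ t in 𝓝 (0 : ℂ), ∀ l l' c, RegAt ξ (γ t) (Vf l' / Vf l) c → c = w l l') : ∃ q : Cn (m + 1), ∀ᶠ t in 𝓝 (0 : ℂ), V (γ t) q := by
  have _ := hgp
  obtain ⟨D, g, hg, ⟨i, hi⟩, hV'⟩ := hV (γ 0) hc.self_of_nhds
  have hcont : ContinuousAt (fun t => eval (γ t) (g i)) 0 :=
    (MvPolynomial.continuous_eval (g i)).continuousAt.comp hγ.continuousAt
  have hev : ∀ᶠ t in 𝓝 (0 : ℂ), eval (γ t) (g i) ≠ 0 := hcont.eventually_ne hi
  refine ⟨w i, ?_⟩
  filter_upwards [hc, h, hev] with t ht1 ht2 ht3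
  have h3 : V (γ t) (fun j => eval (γ t) (g j)) := by
    refine (hV' (γ t) ht1 ⟨i, ht3⟩ _).2 ⟨1, one_ne_zero, ?_⟩
    funext j
    rw [one_mul]
  refine (hV' (γ t) ht1 ⟨i, ht3⟩ _).2 ⟨(eval (γ t) (g i))⁻¹, inv_ne_zero ht3, ?_⟩
  funext j
  rw [← ht2 i j _ ((hw (γ t) _ ht1 h3 i ht3).2 j), div_eq_inv_mul]

end Pool.Agent.LT

end
end

section

/-!
# LG Dl: the invariant differentials of the torus

`Θ b`, `b ∈ ι`, is a family (`Fam`), `X b` is the pull-back of `Θ b / Θ b₀`.  For a chart `(c, b)` (`Θ c y ≠ 0`, `det A ≠ 0`, `A_(ij) = wr (Θ c) (Θ (b j)) i`) at a point `(a, y)` put `M_(k, j) = ` the pull-back of `Θ_c² adj(A)_(jk) / det A` (both of type `6 n`, `n = κ + 1`; `exists_val`; `RegAt` at `a`).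
On `ℂ^n`: `∂_i (Θ_(b j) / Θ_c) = A_(ij) / Θ_c²`, so `∑_j M_(k,j) ∂_i (Θ_(b j) / Θ_c) = ∑_j A_(ij) adj(A)_(jk) / det A = δ_(ik)`.
* `δ k = ∑_j M_(k,j) d(X_(b j) / X_c)` for one chart (at one point of the cone).  For another chart the sum is the same: `dd_identity` with the terms of both sums (the second ones with the sign `-`; `X_b / X_c` is the pull-back of `Θ_b / Θ_c`: `IsVal.div_eq`).
* `M` as a function on `ι`: `M k b' = ∑_(j, b j = b') M_(k,j)`.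
* `span`: `d (X a) = ∑_i (wr (Θ b₀) (Θ a) i / Θ_(b₀)²) δ i`, by `dd_identity`: on `ℂ^n` `∂_m (Θ_a / Θ_(b₀)) - ∑_i (wr …_i / Θ_(b₀)²) ∑_j M_(i,j) ∂_m (Θ_(b j) / Θ_c) = 0`.
-/

set_option autoImplicit false

open MvPolynomial Topology Filter
open Pool.Agent.PXF (Cn form IsThetaForm)

noncomputable section

namespace Pool.Agent.LG

variable {K : Type} [Field K] [Algebra ℂ K] {N κ d n : ℕ} {ξ : Fin (N + 1) → K} {Q : Ideal (MvPolynomial (Fin (N + 1)) ℂ)} {Λ : AddSubgroup (Cn (κ + 1))} {θ : Fin (d + 1) → Cn (κ + 1) → ℂ}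
  {L : (Fin (N + 1) → ℂ) → Cn (κ + 1) → Prop}

/-! ### Charts -/

/-- the Jacobian matrix of a chart, up to a factor -/
def chA {ι : Type} (Θ : ι → Cn (κ + 1) → ℂ) (c : ι) (b : Fin (κ + 1) → ι) (y : Cn (κ + 1)) : Matrix (Fin (κ + 1)) (Fin (κ + 1)) ℂ :=
  Matrix.of fun i j => wr (Θ c) (Θ (b j)) i y

/-- the numerator of the inverse of the Jacobian matrix -/
def chN {ι : Type} (Θ : ι → Cn (κ + 1) → ℂ) (c : ι) (b : Fin (κ + 1) → ι) (k j : Fin (κ + 1)) (y : Cn (κ + 1)) : ℂ :=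
  Θ c y ^ 2 * (chA Θ c b y).adjugate j k

/-- `(c, b)` is a chart at some point, and `M` are the coefficients -/
structure Cht (Q : Ideal (MvPolynomial (Fin (N + 1)) ℂ)) (ξ : Fin (N + 1) → K) (L : (Fin (N + 1) → ℂ) → Cn (κ + 1) → Prop) {ι : Type} (Θ : ι → Cn (κ + 1) → ℂ) (c : ι) (b : Fin (κ + 1) → ι)
    (M : Fin (κ + 1) → Fin (κ + 1) → K) : Prop where
  nzc : NZ Q L (Θ c)
  nzd : NZ Q L (fun y => (chA Θ c b y).det)
  val : ∀ k j, IsVal Q ξ L (M k j) (chN Θ c b k j) (fun y => (chA Θ c b y).det)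

theorem type_det {ι : Type} {Θ : ι → Cn (κ + 1) → ℂ} (hθ : IsThetaForm Λ θ) (hfam : Fam Λ θ Θ) (c : ι) (b : Fin (κ + 1) → ι) :
    IsType Λ θ ((κ + 1) * (2 * 3)) (fun y => (chA Θ c b y).det) :=
  IsType.det (fun i j => wr (Θ c) (Θ (b j)) i) fun i j => IsType.wr hθ (hfam.type c) (hfam.type (b j)) i

theorem type_num {ι : Type} {Θ : ι → Cn (κ + 1) → ℂ} (hθ : IsThetaForm Λ θ) (hfam : Fam Λ θ Θ) (c : ι) (b : Fin (κ + 1) → ι) (k j : Fin (κ + 1)) :
    IsType Λ θ ((κ + 1) * (2 * 3)) (chN Θ c b k j) := by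
  have h := ((hfam.type c).pow 2).mul
    (IsType.adjugate (fun i j => wr (Θ c) (Θ (b j)) i) (fun i j => IsType.wr hθ (hfam.type c) (hfam.type (b j)) i) j k)
  have e : 2 * 3 + κ * (2 * 3) = (κ + 1) * (2 * 3) := by ring
  rw [e] at h
  exact h

theorem exists_cht (hθ : IsThetaForm Λ θ) (hQ : Q.IsPrime) (hgp : GP Q ξ) (hL : Lft Q Λ L) (hreg : RegL Q Λ θ L)
    {ι : Type} {Θ : ι → Cn (κ + 1) → ℂ} (hfam : Fam Λ θ Θ) {a : Fin (N + 1) → ℂ} {y : Cn (κ + 1)} (ha : Cone Q a) (hy : L a y) {c : ι} {b : Fin (κ + 1) → ι}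
    (hc : Θ c y ≠ 0) (hd : (chA Θ c b y).det ≠ 0) : ∃ M : Fin (κ + 1) → Fin (κ + 1) → K, Cht Q ξ L Θ c b M := by
  have h1 := nz_of_type hreg (hfam.type c) ha hy hc
  have h2 := nz_of_type hreg (type_det hθ hfam c b) ha hy hd
  have h3 : ∀ k j, ∃ f, IsVal Q ξ L f (chN Θ c b k j) (fun y => (chA Θ c b y).det) := fun k j =>
    exists_val hQ hgp hL hreg (type_num hθ hfam c b k j) (type_det hθ hfam c b) h2
  choose M hM using h3
  exact ⟨M, h1, h2, hM⟩

/-- On the torus the matrix of a chart is the inverse of the Jacobian matrix. -/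
theorem cht_sum {ι : Type} (Θ : ι → Cn (κ + 1) → ℂ) (c : ι) (b : Fin (κ + 1) → ι) {y : Cn (κ + 1)} (hc : Θ c y ≠ 0) (hd : (chA Θ c b y).det ≠ 0) (i k : Fin (κ + 1)) :
    ∑ j, chN Θ c b k j y / (chA Θ c b y).det * (wr (Θ c) (Θ (b j)) i y / Θ c y ^ 2) = if i = k then 1 else 0 := by
  have h1 : (chA Θ c b y * (chA Θ c b y).adjugate) i k = (chA Θ c b y).det * (if i = k then 1 else 0) := by
    rw [Matrix.mul_adjugate, Matrix.smul_apply, Matrix.one_apply, smul_eq_mul]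
  rw [Matrix.mul_apply] at h1
  have h2 : ∀ j, chN Θ c b k j y / (chA Θ c b y).det * (wr (Θ c) (Θ (b j)) i y / Θ c y ^ 2) =
      chA Θ c b y i j * (chA Θ c b y).adjugate j k / (chA Θ c b y).det := by
    intro j
    have e : chA Θ c b y i j = wr (Θ c) (Θ (b j)) i y := rfl
    rw [e]
    unfold chN
    field_simp
  rw [Finset.sum_congr rfl fun j _ => h2 j, ← Finset.sum_div, h1, mul_div_cancel_left₀ _ hd]

theorem IsVal.neg {f : K} {g h : Cn (κ + 1) → ℂ} (hf : IsVal Q ξ L f g h) : IsVal Q ξ L (-f) (fun y => -g y) h := by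
  intro a y ha hy hne
  have h1 := (hf a y ha hy hne).neg
  rwa [← neg_div] at h1

/-- The differentials of two charts are the same. -/
theorem cht_eq [Algebra.EssFiniteType ℂ K] {z : Fin n → K} (hz : IsTranscendenceBasis ℂ z) (hQ : Q.IsPrime) (homog : ∀ F ∈ Q, ∀ m, homogeneousComponent m F ∈ Q) (hgp : GP Q ξ) (hL : Lft Q Λ L) (hreg : RegL Q Λ θ L)
    {ι : Type} {Θ : ι → Cn (κ + 1) → ℂ} (hfam : Fam Λ θ Θ) {b₀ : ι} (h0 : NZ Q L (Θ b₀)) (X : ι → K) (hX : ∀ b, IsVal Q ξ L (X b) (Θ b) (Θ b₀))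
    {c c' : ι} {b b' : Fin (κ + 1) → ι} {M M' : Fin (κ + 1) → Fin (κ + 1) → K} (h : Cht Q ξ L Θ c b M) (h' : Cht Q ξ L Θ c' b' M') (k : Fin (κ + 1)) :
    ∑ j, M k j • dd (X (b j) / X c) = ∑ j, M' k j • dd (X (b' j) / X c') := by
  have hdiv : ∀ {e : ι}, NZ Q L (Θ e) → ∀ f, IsVal Q ξ L (X f / X e) (Θ f) (Θ e) := fun {e} he f =>
    IsVal.div_eq hQ hgp hL hreg (hfam.type f) (hfam.type e) h0 he (hX f) (hX e)
  have key := dd_identity hz homog hgp hL (σ := Fin (κ + 1) ⊕ Fin (κ + 1))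
    (Sum.elim (fun j => M k j) (fun j => -M' k j))
    (Sum.elim (fun j => X (b j) / X c) (fun j => X (b' j) / X c'))
    (Sum.elim (fun j => chN Θ c b k j) (fun j y => -chN Θ c' b' k j y))
    (Sum.elim (fun _ y => (chA Θ c b y).det) (fun _ y => (chA Θ c' b' y).det))
    (Sum.elim (fun j => Θ (b j)) (fun j => Θ (b' j)))
    (Sum.elim (fun _ => Θ c) (fun _ => Θ c'))
    (by
      rintro (j | j)
      · exact h.val k j
      · exact (h'.val k j).neg)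
    (by
      rintro (j | j)
      · exact hdiv h.nzc (b j)
      · exact hdiv h'.nzc (b' j))
    (by
      rintro (j | j)
      · exact h.nzd
      · exact h'.nzd)
    (by
      rintro (j | j)
      · exact h.nzc
      · exact h'.nzc)
    (by
      rintro (j | j)
      · exact (hfam.type (b j)).1
      · exact (hfam.type (b' j)).1)
    (by
      rintro (j | j)
      · exact (hfam.type c).1
      · exact (hfam.type c').1)
    (by
      intro y hh hH i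
      rw [Fintype.sum_sum_type]
      simp only [Sum.elim_inl, Sum.elim_inr]
      have e1 := cht_sum Θ c b (hH (Sum.inl 0)) (hh (Sum.inl 0)) i k
      have e2 := cht_sum Θ c' b' (hH (Sum.inr 0)) (hh (Sum.inr 0)) i k
      have e3 : ∀ j, -chN Θ c' b' k j y / (chA Θ c' b' y).det * (wr (Θ c') (Θ (b' j)) i y / Θ c' y ^ 2) =
          -(chN Θ c' b' k j y / (chA Θ c' b' y).det * (wr (Θ c') (Θ (b' j)) i y / Θ c' y ^ 2)) := by
        intro j
        ring
      rw [Finset.sum_congr rfl fun j _ => e3 j, Finset.sum_neg_distrib, e1, e2]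
      ring)
  rw [Fintype.sum_sum_type] at key
  simp only [Sum.elim_inl, Sum.elim_inr, neg_smul, Finset.sum_neg_distrib] at key
  exact add_neg_eq_zero.1 key

/-- The differentials of the functions `X a`. -/
theorem cht_span [Algebra.EssFiniteType ℂ K] {z : Fin n → K} (hz : IsTranscendenceBasis ℂ z) (hθ : IsThetaForm Λ θ) (hQ : Q.IsPrime) (homog : ∀ F ∈ Q, ∀ m, homogeneousComponent m F ∈ Q) (hgp : GP Q ξ) (hL : Lft Q Λ L) (hreg : RegL Q Λ θ L)
    {ι : Type} {Θ : ι → Cn (κ + 1) → ℂ} (hfam : Fam Λ θ Θ) {b₀ : ι} (h0 : NZ Q L (Θ b₀)) (X : ι → K) (hX : ∀ b, IsVal Q ξ L (X b) (Θ b) (Θ b₀))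
    {c : ι} {b : Fin (κ + 1) → ι} {M : Fin (κ + 1) → Fin (κ + 1) → K} (h : Cht Q ξ L Θ c b M) (a : ι) :
    ∃ W : Fin (κ + 1) → K, dd (X a) = ∑ i, W i • ∑ j, M i j • dd (X (b j) / X c) := by
  have hdiv : ∀ {e : ι}, NZ Q L (Θ e) → ∀ f, IsVal Q ξ L (X f / X e) (Θ f) (Θ e) := fun {e} he f =>
    IsVal.div_eq hQ hgp hL hreg (hfam.type f) (hfam.type e) h0 he (hX f) (hX e)
  have h02 : NZ Q L (fun y => Θ b₀ y ^ 2) := (h0.mul hQ h0).mono fun y hy => by rwa [sq]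
  have hW : ∀ i, ∃ f, IsVal Q ξ L f (wr (Θ b₀) (Θ a) i) (fun y => Θ b₀ y ^ 2) := fun i =>
    exists_val hQ hgp hL hreg (IsType.wr hθ (hfam.type b₀) (hfam.type a) i) ((hfam.type b₀).pow 2) h02
  choose W hW using hW
  refine ⟨W, ?_⟩
  have key := dd_identity hz homog hgp hL (σ := Unit ⊕ (Fin (κ + 1) × Fin (κ + 1)))
    (Sum.elim (fun _ => -1) (fun p => W p.1 * M p.1 p.2))
    (Sum.elim (fun _ => X a) (fun p => X (b p.2) / X c))
    (Sum.elim (fun _ _ => -1) (fun p y => wr (Θ b₀) (Θ a) p.1 y * chN Θ c b p.1 p.2 y))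
    (Sum.elim (fun _ _ => 1) (fun _ y => Θ b₀ y ^ 2 * (chA Θ c b y).det))
    (Sum.elim (fun _ => Θ a) (fun p => Θ (b p.2)))
    (Sum.elim (fun _ => Θ b₀) (fun _ => Θ c))
    (by
      rintro (_ | p)
      · exact (IsVal.one (h := fun _ => 1)).neg
      · exact (hW p.1).mul (h.val p.1 p.2))
    (by
      rintro (_ | p)
      · exact hX a
      · exact hdiv h.nzc (b p.2))
    (by
      rintro (_ | p)
      · exact NZ.one hQ
      · exact h02.mul hQ h.nzd)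
    (by
      rintro (_ | p)
      · exact h0
      · exact h.nzc)
    (by
      rintro (_ | p)
      · exact (hfam.type a).1
      · exact (hfam.type (b p.2)).1)
    (by
      rintro (_ | p)
      · exact (hfam.type b₀).1
      · exact (hfam.type c).1)
    (by
      intro y hh hH m
      have y0 : Θ b₀ y ≠ 0 := hH (Sum.inl ())
      have yc : Θ c y ≠ 0 := hH (Sum.inr (0, 0))
      have yd : (chA Θ c b y).det ≠ 0 := right_ne_zero_of_mul (hh (Sum.inr (0, 0)))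
      rw [Fintype.sum_sum_type]
      simp only [Sum.elim_inl, Sum.elim_inr, Finset.univ_unique, Finset.sum_singleton]
      rw [Fintype.sum_prod_type]
      have e1 : ∀ i, ∑ j, wr (Θ b₀) (Θ a) i y * chN Θ c b i j y / (Θ b₀ y ^ 2 * (chA Θ c b y).det) * (wr (Θ c) (Θ (b j)) m y / Θ c y ^ 2) =
          wr (Θ b₀) (Θ a) i y / Θ b₀ y ^ 2 * (if m = i then 1 else 0) := by
        intro i
        rw [← cht_sum Θ c b yc yd m i, Finset.mul_sum]
        refine Finset.sum_congr rfl fun j _ => ?_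
        field_simp
      rw [Finset.sum_congr rfl fun i _ => e1 i]
      simp only [mul_ite, mul_one, mul_zero, Finset.sum_ite_eq, Finset.mem_univ, if_true]
      ring)
  rw [Fintype.sum_sum_type] at key
  simp only [Sum.elim_inl, Sum.elim_inr, Finset.univ_unique, Finset.sum_singleton, neg_smul, one_smul] at key
  rw [Fintype.sum_prod_type] at key
  rw [neg_add_eq_zero] at key
  rw [key]
  refine Finset.sum_congr rfl fun i _ => ?_
  rw [Finset.smul_sum]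
  exact Finset.sum_congr rfl fun j _ => mul_smul _ _ _

theorem exists_delta [Algebra.EssFiniteType ℂ K] {z : Fin n → K} (hz : IsTranscendenceBasis ℂ z) (hθ : IsThetaForm Λ θ) (hQ : Q.IsPrime) (homog : ∀ F ∈ Q, ∀ m, homogeneousComponent m F ∈ Q) (hgp : GP Q ξ) (hL : Lft Q Λ L) (hreg : RegL Q Λ θ L)
    {ι : Type} [Fintype ι] {Θ : ι → Cn (κ + 1) → ℂ} (hfam : Fam Λ θ Θ) {b₀ : ι} (h0 : NZ Q L (Θ b₀)) (X : ι → K) (hX : ∀ b, IsVal Q ξ L (X b) (Θ b) (Θ b₀)) :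
    ∃ δ : Fin (κ + 1) → Ω[K⁄ℂ],
      (∀ a y, Cone Q a → L a y → ∀ (c : ι) (b : Fin (κ + 1) → ι), Θ c y ≠ 0 → (Matrix.of fun i j => wr (Θ c) (Θ (b j)) i y).det ≠ 0 → ∃ M : Fin (κ + 1) → ι → K, (∀ i b, ∃ v, RegAt ξ a (M i b) v) ∧ ∀ i, δ i = ∑ b, M i b • dd (X b / X c)) ∧
      ∀ a, dd (X a) ∈ Submodule.span K (Set.range δ) := by
  classical
  obtain ⟨a₀, y₀, ha₀, hy₀, -⟩ := h0.exists_point hQ hgp hL
  obtain ⟨c₀, b₁, hc₀, hd₀⟩ := hfam.chart y₀
  obtain ⟨M₀, hM₀⟩ := exists_cht hθ hQ hgp hL hreg hfam ha₀ hy₀ hc₀ hd₀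
  refine ⟨fun k => ∑ j, M₀ k j • dd (X (b₁ j) / X c₀), ?_, ?_⟩
  · intro a y ha hy c b hc hd
    obtain ⟨M, hM⟩ := exists_cht hθ hQ hgp hL hreg hfam ha hy hc hd
    refine ⟨fun k b' => ∑ j, if b j = b' then M k j else 0, fun k b' => ?_, fun k => ?_⟩
    · refine ⟨∑ j, if b j = b' then chN Θ c b k j y / (chA Θ c b y).det else 0,
        RegAt.sum _ _ _ fun j _ => ?_⟩
      split_ifs
      · exact hM.val k j a y ha hy hd
      · exact RegAt.zero ξ a
    · show ∑ j, M₀ k j • dd (X (b₁ j) / X c₀) = _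
      rw [cht_eq hz hQ homog hgp hL hreg hfam h0 X hX hM₀ hM k]
      simp only [Finset.sum_smul]
      rw [Finset.sum_comm]
      refine Finset.sum_congr rfl fun j _ => ?_
      simp only [ite_smul, zero_smul, Finset.sum_ite_eq, Finset.mem_univ, if_true]
  · intro a
    obtain ⟨W, hW⟩ := cht_span hz hθ hQ homog hgp hL hreg hfam h0 X hX hM₀ a
    rw [hW]
    exact Submodule.sum_mem _ fun i _ => Submodule.smul_mem _ _ (Submodule.subset_span ⟨i, rfl⟩)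

end Pool.Agent.LG

end
end

section

/-!
# LT Alm: the function field is algebraic over the field generated by the quotients of the coordinates and the `X b`

As `LG/Al.lean` (`algebraic_of_fin`, helper93), with the functions `Vf l / Vf l'` in place of `w`, and `Vm_const` in place of `V_const`.
-/

set_option autoImplicit false

open Topology Filter MvPolynomial
open Pool.Agent.PXF (Cn form IsThetaForm)
open Pool.Agent.LG (Cone GP RegAt BdG IsType Lft RegL NZ IsVal Fam wr pd dd deriv_quot an_of_diff exists_basis_of_not_algebraic exists_repr exists_curve_on)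
open Pool.Agent.H23 (dualDer dualDer_coord)

noncomputable section

namespace Pool.Agent.LT

variable {K : Type} [Field K] [Algebra ℂ K] {N κ d m n : ℕ} {ξ : Fin (N + 1) → K} {Q : Ideal (MvPolynomial (Fin (N + 1)) ℂ)} {Λ : AddSubgroup (Cn (κ + 1))} {θ : Fin (d + 1) → Cn (κ + 1) → ℂ}
  {L : (Fin (N + 1) → ℂ) → Cn (κ + 1) → Prop} {V : (Fin (N + 1) → ℂ) → Cn (m + 1) → Prop}

private theorem al_const {E : Type} [NormedAddCommGroup E] [NormedSpace ℂ E] [CompleteSpace E] {f : ℂ → E} (hf : AnalyticAt ℂ f 0)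
    (h : ∀ᶠ t in 𝓝 (0 : ℂ), deriv f t = 0) : ∀ᶠ t in 𝓝 (0 : ℂ), f t = f 0 := by
  obtain ⟨ε, hε, hb⟩ := Metric.eventually_nhds_iff_ball.1 ((hf.eventually_analyticAt).and h)
  filter_upwards [Metric.ball_mem_nhds (0 : ℂ) hε] with t ht
  exact Metric.isOpen_ball.is_const_of_deriv_eq_zero (convex_ball (0 : ℂ) ε).isPreconnected
    (fun x hx => (hb x hx).1.differentiableAt.differentiableWithinAt) (fun x hx => (hb x hx).2) ht
    (Metric.mem_ball_self hε)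

private theorem al_pd {f : Cn (κ + 1) → ℂ} (hf : Differentiable ℂ f) (i : Fin (κ + 1)) : Continuous (pd f i) := by
  have h1 : Differentiable ℂ (pd f i) := by
    intro y
    have h1 : AnalyticAt ℂ (fderiv ℂ f) y := (an_of_diff hf y).fderiv
    exact (h1.differentiableAt.clm_apply (differentiableAt_const _) : _)
  exact h1.continuous

private theorem al_wr {f g : Cn (κ + 1) → ℂ} (hf : Differentiable ℂ f) (hg : Differentiable ℂ g) (i : Fin (κ + 1)) :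
    Continuous (wr f g i) :=
  (hf.continuous.mul (al_pd hg i)).sub (hg.continuous.mul (al_pd hf i))

/-- the lift of a curve with constant coordinates is constant -/
private theorem al_lift {ι : Type} [Fintype ι] {Θ : ι → Cn (κ + 1) → ℂ} (hfam : Fam Λ θ Θ) {b₀ : ι}
    {y : ℂ → Cn (κ + 1)} (hy : AnalyticAt ℂ y 0) (h0 : ∀ᶠ t in 𝓝 (0 : ℂ), Θ b₀ (y t) ≠ 0) (x : ι → ℂ)
    (hx : ∀ᶠ t in 𝓝 (0 : ℂ), ∀ b, Θ b (y t) = x b * Θ b₀ (y t)) : ∀ᶠ t in 𝓝 (0 : ℂ), y t = y 0 := by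
  obtain ⟨c, β, hc, hdet⟩ := hfam.chart (y 0)
  have dΘ : ∀ b, Differentiable ℂ (Θ b) := fun b => (hfam.type b).1
  have hcont : Continuous fun z => (Matrix.of fun i j => wr (Θ c) (Θ (β j)) i z).det := by
    refine Continuous.matrix_det ?_
    exact continuous_matrix fun i j => al_wr (dΘ c) (dΘ (β j)) i
  have h1 : ∀ᶠ t in 𝓝 (0 : ℂ), Θ c (y t) ≠ 0 :=
    ((dΘ c).continuous.continuousAt.comp hy.continuousAt).eventually_ne hc
  have h2 : ∀ᶠ t in 𝓝 (0 : ℂ), (Matrix.of fun i j => wr (Θ c) (Θ (β j)) i (y t)).det ≠ 0 :=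
    (hcont.continuousAt.comp hy.continuousAt (f := y)
      (g := fun z => (Matrix.of fun i j => wr (Θ c) (Θ (β j)) i z).det)).eventually_ne hdet
  refine al_const hy ?_
  filter_upwards [h2, h1, hy.eventually_analyticAt, (h0.and (h1.and hx)).eventually_nhds] with t ht ht1 hta htn
  have h3 : ∀ j, ∑ i, deriv y t i * wr (Θ c) (Θ (β j)) i (y t) = 0 := by
    intro j
    have h4 : (fun t => Θ (β j) (y t) / Θ c (y t)) =ᶠ[𝓝 t] fun _ => x (β j) / x c := by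
      filter_upwards [htn] with u hu
      obtain ⟨hu0, hu1, hu2⟩ := hu
      rw [hu2 (β j), hu2 c, mul_div_mul_right _ _ hu0]
    have h5 := deriv_quot (dΘ (β j)) (dΘ c) hta.differentiableAt ht1
    rw [h4.deriv_eq, deriv_const] at h5
    have h6 : ∑ i, deriv y t i * wr (Θ c) (Θ (β j)) i (y t) =
        Θ c (y t) ^ 2 * ∑ i, wr (Θ c) (Θ (β j)) i (y t) / Θ c (y t) ^ 2 * deriv y t i := by
      rw [Finset.mul_sum]
      refine Finset.sum_congr rfl fun i _ => ?_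
      field_simp
    rw [h6, ← h5, mul_zero]
  have h7 : Matrix.vecMul (deriv y t) (Matrix.of fun i j => wr (Θ c) (Θ (β j)) i (y t)) = 0 := by
    funext j
    exact h3 j
  exact Matrix.eq_zero_of_vecMul_eq_zero ht h7

theorem algebraic_of_fin [Algebra.EssFiniteType ℂ K] {z : Fin n → K} (hz : IsTranscendenceBasis ℂ z) (hQ : Q.IsPrime) (homog : ∀ F ∈ Q, ∀ m, homogeneousComponent m F ∈ Q) (hgp : GP Q ξ) (hL : Lft Q Λ L) (hV : VMapm Q V)
    (fin : ∀ (γ : ℂ → Fin (N + 1) → ℂ) (y : Cn (κ + 1)) (q : Cn (m + 1)), AnalyticAt ℂ γ 0 → (∀ᶠ t in 𝓝 (0 : ℂ), Cone Q (γ t)) → (∀ᶠ t in 𝓝 (0 : ℂ), L (γ t) y) → (∀ᶠ t in 𝓝 (0 : ℂ), V (γ t) q) → ∀ᶠ t in 𝓝 (0 : ℂ), ∃ c : ℂ, γ t = c • γ 0)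
    {ι : Type} [Fintype ι] {Θ : ι → Cn (κ + 1) → ℂ} (hfam : Fam Λ θ Θ) {b₀ : ι} (h0 : NZ Q L (Θ b₀)) (X : ι → K) (hX : ∀ b, IsVal Q ξ L (X b) (Θ b) (Θ b₀)) {Vf : Fin (m + 1) → K} (hw : IsVm Q ξ V Vf) :
    Algebra.IsAlgebraic (IntermediateField.adjoin ℂ (Set.range X ∪ {y | ∃ l l', y = Vf l / Vf l'})) K := by
  classical
  by_contra hna
  obtain ⟨s, b, j, hs, hb, hS⟩ := exists_basis_of_not_algebraic hz _ hna
  obtain ⟨D, B, hB, hBQ, hBn⟩ := h0
  obtain ⟨D', A', B', hA', hB', hBQ', hrep⟩ := exists_repr hQ hgp (s j)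
  obtain ⟨R, ev, j₀, γ, hcur, hΦ, hj, hR, hγ, hγj, hcone, hana, hBγ, hval⟩ := exists_curve_on homog hgp hs b hb j
    (insert (s j) (Finset.univ.image X ∪ Finset.univ.image (fun p : Fin (m + 1) × Fin (m + 1) => Vf p.2 / Vf p.1)))
    (Sum.elim (fun _ : Unit => B) (fun _ : Unit => B'))
    (by rintro (i | i); exacts [⟨_, hB⟩, ⟨_, hB'⟩]) (by rintro (i | i); exacts [hBQ, hBQ'])
  have hsR := (hΦ (s j) (Finset.mem_insert_self _ _)).1
  have hXR : ∀ b, X b ∈ R := fun b => (hΦ (X b) (Finset.mem_insert_of_mem (Finset.mem_union_left _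
    (Finset.mem_image_of_mem _ (Finset.mem_univ b))))).1
  have hVR : ∀ l l', Vf l' / Vf l ∈ R := fun l l' => (hΦ (Vf l' / Vf l) (Finset.mem_insert_of_mem
    (Finset.mem_union_right _ (Finset.mem_image.2 ⟨(l, l'), Finset.mem_univ _, rfl⟩)))).1
  -- functions with derivation zero are constant
  have hconst : ∀ f (hf : f ∈ R), dualDer b j f = 0 → ∀ᶠ t in 𝓝 (0 : ℂ), ev t ⟨f, hf⟩ = ev 0 ⟨f, hf⟩ := by
    intro f hf hD
    refine al_const (hcur.analytic ⟨f, hf⟩) ?_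
    filter_upwards [hcur.deriv f hf] with t ht
    rw [ht]
    have h1 : (⟨dualDer b j f, hcur.stable f hf⟩ : R) = 0 := Subtype.ext hD
    rw [h1, map_zero]
  have hDV : ∀ l l', dualDer b j (Vf l' / Vf l) = 0 := fun l l' => hS _ (Or.inr ⟨l', l, rfl⟩)
  have hDX : ∀ b', dualDer b j (X b') = 0 := fun b' => hS _ (Or.inl ⟨b', rfl⟩)
  -- the map to the projective space is constant
  obtain ⟨q, hq⟩ := Vm_const hgp hV hw hana (Eventually.of_forall hcone) (w := fun l l' => ev 0 ⟨Vf l' / Vf l, hVR l l'⟩) (by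
      have h1 : ∀ᶠ t in 𝓝 (0 : ℂ), ∀ l l', ev t ⟨Vf l' / Vf l, hVR l l'⟩ = ev 0 ⟨Vf l' / Vf l, hVR l l'⟩ :=
        eventually_all.2 fun l => eventually_all.2 fun l' => hconst _ (hVR l l') (hDV l l')
      filter_upwards [h1] with t ht l l' c hc
      rw [← ht l l']
      exact (hval t _ c (hVR l l') hc).symm)
  -- the map to the torus is constant
  obtain ⟨y₀, hy₀⟩ := hL.ex (γ 0) (hcone 0)
  obtain ⟨y, hya, hy0, hyL⟩ := hL.curve γ hana (Eventually.of_forall hcone) y₀ hy₀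
  have hΘ0 : ∀ t, L (γ t) (y t) → Θ b₀ (y t) ≠ 0 := fun t ht => hBn _ _ (hcone t) ht (hBγ t (Sum.inl ()))
  have hyc : ∀ᶠ t in 𝓝 (0 : ℂ), y t = y 0 := by
    refine al_lift hfam hya (hyL.mono fun t ht => hΘ0 t ht) (fun b' => ev 0 ⟨X b', hXR b'⟩) ?_
    have h1 : ∀ᶠ t in 𝓝 (0 : ℂ), ∀ b', ev t ⟨X b', hXR b'⟩ = ev 0 ⟨X b', hXR b'⟩ :=
      eventually_all.2 fun b' => hconst _ (hXR b') (hDX b')
    filter_upwards [h1, hyL] with t ht hLt b'
    have h2 := hval t (X b') _ (hXR b') (hX b' _ _ (hcone t) hLt (hΘ0 t hLt))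
    rw [← ht b', h2, div_mul_cancel₀ _ (hΘ0 t hLt)]
  have hLc : ∀ᶠ t in 𝓝 (0 : ℂ), L (γ t) (y 0) := by
    filter_upwards [hyL, hyc] with t ht1 ht2
    rwa [ht2] at ht1
  -- so the curve is constant
  have hγc : ∀ᶠ t in 𝓝 (0 : ℂ), γ t = γ 0 := by
    filter_upwards [fin γ (y 0) q hana (Eventually.of_forall hcone) hLc hq] with t ht
    obtain ⟨c, hc⟩ := ht
    have h1 := congrFun hc j₀
    rw [Pi.smul_apply, hγj, hγj, smul_eq_mul, mul_one] at h1
    rw [hc, ← h1, one_smul]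
  -- contradiction
  have hs1 : (fun t => ev t ⟨s j, hsR⟩) =ᶠ[𝓝 0] fun _ => eval (γ 0) A' / eval (γ 0) B' := by
    filter_upwards [hγc] with t ht
    have hB0 : eval (γ t) B' ≠ 0 := hBγ t (Sum.inr ())
    have h1 : RegAt ξ (γ t) (s j) (eval (γ t) A' / eval (γ t) B') :=
      ⟨D', A', B', hA', hB', hB0, hrep, (div_mul_cancel₀ _ hB0).symm⟩
    rw [hval t (s j) _ hsR h1, ht]
  have h1 := (hcur.deriv (s j) hsR).self_of_nhds
  rw [hs1.deriv_eq, deriv_const] at h1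
  have h2 : (⟨dualDer b j (s j), hcur.stable (s j) hsR⟩ : R) = 1 := by
    apply Subtype.ext
    show dualDer b j (s j) = 1
    rw [dualDer_coord b hb, if_pos rfl]
  rw [h2, map_one] at h1
  exact zero_ne_one h1

end Pool.Agent.LT

end
end

section

/-!
# LT Se: the choice of the data

As `LG/Se.lean`.  The hypotheses are those after `exists_change`.  `LG.exists_coeff` for the matrix `!![0, 1; 1, 0]` (so `∑ Φ_i p_1^i p_0^(3d-i) = form θ y (p_1, p_0)^3`): `Φ`.  `LG.exists_fam_extra` with `extra = Φ`: `Θ`, `cf`.  `exists_vm`: `V`.  `Fam.chart y₀`: `b₀` with `Θ b₀ y₀ ≠ 0`, `LG.nz_of_type`; `LG.exists_val`: `X b`.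
`LG.exists_delta`: `δ`.  `algebraic_of_fin`.
-/

set_option autoImplicit false

open Topology Filter MvPolynomial
open Pool.Agent.PXF (Cn form IsThetaForm)
open Pool.Agent.LG (dd Cone GP RegAt BdG IsType Lft RegL NZ IsVal Fam wr)

noncomputable section

namespace Pool.Agent.LT

variable {K : Type} [Field K] [Algebra ℂ K] {N κ d m : ℕ}

/-- the chosen data -/
structure SelT {s n : ℕ} (Q : Ideal (MvPolynomial (Fin (N + 1)) ℂ)) (ξ : Fin (N + 1) → K) (Λ : AddSubgroup (Cn (κ + 1))) (θ : Fin (d + 1) → Cn (κ + 1) → ℂ) (L : (Fin (N + 1) → ℂ) → Cn (κ + 1) → Prop)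
    (V : (Fin (N + 1) → ℂ) → Cn (m + 1) → Prop) (G : Fin s → MvPolynomial (Fin (N + 1)) ℂ) (Θ : Fin n → Cn (κ + 1) → ℂ) (a₀ : Fin (N + 1) → ℂ) (y₀ : Cn (κ + 1)) (b₀ : Fin n) (S : Dt K (Fin n) (κ + 1) m (3 * d)) : Prop where
  fam : Fam Λ θ Θ
  coeff : ∀ y (p : Cn 2), ∑ i, Θ (S.cf i) y * p 0 ^ (i : ℕ) * p 1 ^ (3 * d - i) = form θ y p ^ 3
  cone : Cone Q a₀
  inU : ∃ m, eval a₀ (G m) ≠ 0
  lift : L a₀ y₀
  e0 : θ 0 y₀ ≠ 0
  e1 : θ (Fin.last d) y₀ ≠ 0
  many : ∃ t : Fin (2 * m + 1) → ℂ, Function.Injective t ∧ ∀ i, form θ y₀ ![t i, 1] = 0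
  V_ne : ∃ l, S.V l ≠ 0
  isV : IsVm Q ξ V S.V
  base : Θ b₀ y₀ ≠ 0
  nz : NZ Q L (Θ b₀)
  val : ∀ b, IsVal Q ξ L (S.X b) (Θ b) (Θ b₀)
  chart : ∀ a y, Cone Q a → L a y → ∀ (c : Fin n) (b : Fin (κ + 1) → Fin n), Θ c y ≠ 0 → (Matrix.of fun i j => wr (Θ c) (Θ (b j)) i y).det ≠ 0 →
    ∃ M : Fin (κ + 1) → Fin n → K, (∀ i b, ∃ v, RegAt ξ a (M i b) v) ∧ ∀ i, S.δ i = ∑ b, M i b • dd (S.X b / S.X c)
  span : ∀ a, dd (S.X a) ∈ Submodule.span K (Set.range S.δ)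
  alg : Algebra.IsAlgebraic (IntermediateField.adjoin ℂ (Set.range S.X ∪ {y | ∃ l l', y = S.V l / S.V l'})) K

theorem exists_selT [Algebra.EssFiniteType ℂ K] {k : ℕ} {z : Fin k → K} (hz : IsTranscendenceBasis ℂ z) {s : ℕ} {Q : Ideal (MvPolynomial (Fin (N + 1)) ℂ)} {ξ : Fin (N + 1) → K} {Λ : AddSubgroup (Cn (κ + 1))} {θ : Fin (d + 1) → Cn (κ + 1) → ℂ}
    {L : (Fin (N + 1) → ℂ) → Cn (κ + 1) → Prop} {V : (Fin (N + 1) → ℂ) → Cn (m + 1) → Prop} {G : Fin s → MvPolynomial (Fin (N + 1)) ℂ} (hΛ : Submodule.span ℝ (Λ : Set (Cn (κ + 1))) = ⊤) (hθ : IsThetaForm Λ θ) (h : GeoT Q ξ Λ θ L V G)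
    {a₀ : Fin (N + 1) → ℂ} {y₀ : Cn (κ + 1)} (ha : Cone Q a₀) (hG : ∃ m, eval a₀ (G m) ≠ 0) (hy : L a₀ y₀) (h0 : θ 0 y₀ ≠ 0) (h1 : θ (Fin.last d) y₀ ≠ 0) (ht : ∃ t : Fin (2 * m + 1) → ℂ, Function.Injective t ∧ ∀ i, form θ y₀ ![t i, 1] = 0) :
    ∃ (n : ℕ) (Θ : Fin n → Cn (κ + 1) → ℂ) (b₀ : Fin n) (S : Dt K (Fin n) (κ + 1) m (3 * d)), SelT Q ξ Λ θ L V G Θ a₀ y₀ b₀ S := by
  obtain ⟨Φ, hΦ, hc⟩ := LG.exists_coeff hθ !![0, 1; 1, 0]
  obtain ⟨n, Θ, cf, hfam, hcf⟩ := LG.exists_fam_extra hθ ⟨0, y₀, h0⟩ hΛ Φ hΦ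
  obtain ⟨Vf, hVne, hVf⟩ := exists_vm h.prime h.gp h.vmap
  obtain ⟨b₀, b, hb₀, -⟩ := hfam.chart y₀
  have hnz : NZ Q L (Θ b₀) := LG.nz_of_type h.reg (hfam.type b₀) ha hy hb₀
  have hval := fun b => LG.exists_val h.prime h.gp h.lft h.reg (hfam.type b) (hfam.type b₀) hnz
  choose X hX using hval
  obtain ⟨δ, hchart, hspan⟩ := LG.exists_delta hz hθ h.prime h.homog h.gp h.lft h.reg hfam hnz X hX
  have halg := algebraic_of_fin hz h.prime h.homog h.gp h.lft h.vmap h.fin hfam hnz X hX hVf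
  refine ⟨n, Θ, b₀, ⟨X, δ, cf, Vf⟩,
    { fam := hfam
      coeff := fun y p => ?_
      cone := ha
      inU := hG
      lift := hy
      e0 := h0
      e1 := h1
      many := ht
      V_ne := hVne
      isV := hVf
      base := hb₀
      nz := hnz
      val := hX
      chart := hchart
      span := hspan
      alg := halg }⟩
  have h2 := hc y ![p 1, p 0]
  have h3 : (!![0, 1; 1, 0] : Matrix (Fin 2) (Fin 2) ℂ).mulVec ![p 1, p 0] = p := by
    ext i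
    fin_cases i <;> simp [Matrix.mulVec, dotProduct, Fin.sum_univ_two]
  rw [h3] at h2
  rw [← h2]
  refine Finset.sum_congr rfl fun i _ => ?_
  show Θ (cf i) y * p 0 ^ (i : ℕ) * p 1 ^ (3 * d - i) = _
  rw [hcf]
  simp

end Pool.Agent.LT

end
end

section

/-!
# LT Gc: charts at the divisors

As `LG/Gd1.lean` (helper97).  `LG.exists_center`: a point `a` of the centre of `E`; `Lft.ex`: `y`; `VMapm.ex`: `x`, `x l ≠ 0`; `Fam.chart y`: `c`, `b`.  `X b' / X c` is the pull-back of `Θ b' / Θ c` (`IsVal.div_eq`), `V l' / V l` has the value `x l' / x l` (`IsVm`): all are regular at `a`, so of order `≥ 0`.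
* `R_value`: `R = X c ^ m * V l ^ (3 d) * resultant (P / X c) (x / V l)` (`res_smul`), and the coefficients of `P / X c`, `x / V l` have at `a` the values `Θ (cf i) y / Θ c y`, `x l' / x l` (`regAt_resultant`).  If `a` is in `U`: `res_ne`: the polynomials `∑ Θ (cf i) y T^i = form θ y (T, 1)^3` and `∑ x_l' T^l' = bf x (T, 1)` have no common
  root, and not both leading coefficients are `0` (`p = (1, 0)`), by `GeoT.off`.
-/

set_option autoImplicit false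

open Topology Filter MvPolynomial
open Pool.Agent.H23 (PrimeDivisorOver)
open Pool.Agent.PXF (Cn form IsThetaForm)
open Pool.Agent.LG (dd Cone GP RegAt BdG IsType Lft RegL NZ IsVal Fam wr)

noncomputable section

namespace Pool.Agent.LT

variable {K : Type} [Field K] [Algebra ℂ K] {N κ d m s n : ℕ} {Q : Ideal (MvPolynomial (Fin (N + 1)) ℂ)} {ξ : Fin (N + 1) → K} {Λ : AddSubgroup (Cn (κ + 1))} {θ : Fin (d + 1) → Cn (κ + 1) → ℂ}
  {L : (Fin (N + 1) → ℂ) → Cn (κ + 1) → Prop} {V : (Fin (N + 1) → ℂ) → Cn (m + 1) → Prop} {G : Fin s → MvPolynomial (Fin (N + 1)) ℂ} {Θ : Fin n → Cn (κ + 1) → ℂ} {a₀ : Fin (N + 1) → ℂ} {y₀ : Cn (κ + 1)} {b₀ : Fin n}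
  {S : Dt K (Fin n) (κ + 1) m (3 * d)}

/-- the quotients of the `X b` by `X c` -/
private theorem ratio (h : GeoT Q ξ Λ θ L V G) (hs : SelT Q ξ Λ θ L V G Θ a₀ y₀ b₀ S) {a : Fin (N + 1) → ℂ} {y : Cn (κ + 1)} (ha : Cone Q a) (hy : L a y) {c : Fin n} (hc : Θ c y ≠ 0) (b : Fin n) :
    RegAt ξ a (S.X b / S.X c) (Θ b y / Θ c y) :=
  LG.IsVal.div_eq h.prime h.gp h.lft h.reg (hs.fam.type b) (hs.fam.type c) hs.nz (LG.nz_of_type h.reg (hs.fam.type c) ha hy hc) (hs.val b) (hs.val c) a y ha hy hc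

private theorem X_ne (h : GeoT Q ξ Λ θ L V G) (hs : SelT Q ξ Λ θ L V G Θ a₀ y₀ b₀ S) {a : Fin (N + 1) → ℂ} {y : Cn (κ + 1)} (ha : Cone Q a) (hy : L a y) {c : Fin n} (hc : Θ c y ≠ 0) :
    S.X c ≠ 0 :=
  LG.IsVal.ne_zero h.prime h.gp h.lft (hs.val c) (LG.nz_of_type h.reg (hs.fam.type c) ha hy hc) hs.nz

/-- coefficients of a sum of monomials -/
private theorem coeff_sum {R : Type} [Semiring R] {D : ℕ} (f : Fin (D + 1) → R) (i : ℕ) :
    (∑ j : Fin (D + 1), Polynomial.C (f j) * Polynomial.X ^ (j : ℕ)).coeff i = ∑ j : Fin (D + 1), if i = (j : ℕ) then f j else 0 := by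
  rw [Polynomial.finsetSum_coeff]
  refine Finset.sum_congr rfl fun j _ => ?_
  rw [Polynomial.coeff_C_mul_X_pow]

private theorem natDegree_sum {R : Type} [Semiring R] {D : ℕ} (f : Fin (D + 1) → R) :
    (∑ j : Fin (D + 1), Polynomial.C (f j) * Polynomial.X ^ (j : ℕ)).natDegree ≤ D := by
  refine Polynomial.natDegree_sum_le_of_forall_le _ _ fun j _ => ?_
  exact (Polynomial.natDegree_C_mul_X_pow_le _ _).trans (Nat.lt_succ_iff.1 j.2)

private theorem regAt_ite {p : Prop} [Decidable p] {a : Fin (N + 1) → ℂ} {f : K} {c : ℂ} (h : RegAt ξ a f c) : RegAt ξ a (if p then f else 0) (if p then c else 0) := by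
  split_ifs
  · exact h
  · exact LG.RegAt.zero ξ a

private theorem eval_sum' {D : ℕ} (f : Fin (D + 1) → ℂ) (t : ℂ) :
    (∑ j : Fin (D + 1), Polynomial.C (f j) * Polynomial.X ^ (j : ℕ)).eval t = ∑ j : Fin (D + 1), f j * t ^ (j : ℕ) := by
  rw [Polynomial.eval_finsetSum]
  refine Finset.sum_congr rfl fun j _ => ?_
  rw [Polynomial.eval_mul, Polynomial.eval_C, Polynomial.eval_pow, Polynomial.eval_X]

/-- the sum at the point at infinity -/
private theorem sum_inf {D : ℕ} (f : Fin (D + 1) → ℂ) : ∑ j : Fin (D + 1), f j * (1 : ℂ) ^ (j : ℕ) * (0 : ℂ) ^ (D - (j : ℕ)) = f (Fin.last D) := by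
  rw [Finset.sum_eq_single (Fin.last D)]
  · simp
  · intro j _ hj
    have h1 : (j : ℕ) < D := lt_of_le_of_ne (Nat.lt_succ_iff.1 j.2) fun h => hj (Fin.ext h)
    rw [zero_pow (by omega), mul_zero]
  · intro h
    exact absurd (Finset.mem_univ _) h

/-- the value of the normalised resultant -/
theorem R_value (h : GeoT Q ξ Λ θ L V G) (hs : SelT Q ξ Λ θ L V G Θ a₀ y₀ b₀ S) {a : Fin (N + 1) → ℂ} {y : Cn (κ + 1)} {x : Cn (m + 1)} (ha : Cone Q a) (hy : L a y) (hx : V a x) {c : Fin n} (hc : Θ c y ≠ 0) {l : Fin (m + 1)} (hl : x l ≠ 0) :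
    S.X c ≠ 0 ∧ S.V l ≠ 0 ∧ ∃ v, RegAt ξ a (S.R / (S.X c ^ m * S.V l ^ (3 * d))) v ∧ ((∃ t, eval a (G t) ≠ 0) → v ≠ 0) := by
  have hX := X_ne h hs ha hy hc
  obtain ⟨hV, hVr⟩ := hs.isV a x ha hx l hl
  refine ⟨hX, hV, ?_⟩
  obtain ⟨P', hP'⟩ : ∃ P' : Polynomial K, P' = ∑ i : Fin (3 * d + 1), Polynomial.C (S.X (S.cf i) / S.X c) * Polynomial.X ^ (i : ℕ) := ⟨_, rfl⟩
  obtain ⟨X', hX'⟩ : ∃ X' : Polynomial K, X' = ∑ i : Fin (m + 1), Polynomial.C (S.V i / S.V l) * Polynomial.X ^ (i : ℕ) := ⟨_, rfl⟩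
  obtain ⟨p, hp⟩ : ∃ p : Polynomial ℂ, p = ∑ i : Fin (3 * d + 1), Polynomial.C (Θ (S.cf i) y / Θ c y) * Polynomial.X ^ (i : ℕ) := ⟨_, rfl⟩
  obtain ⟨w, hw⟩ : ∃ w : Polynomial ℂ, w = ∑ i : Fin (m + 1), Polynomial.C (x i / x l) * Polynomial.X ^ (i : ℕ) := ⟨_, rfl⟩
  have h1 : S.P = Polynomial.C (S.X c) * P' := by
    rw [hP', Finset.mul_sum]
    unfold Dt.P
    refine Finset.sum_congr rfl fun i _ => ?_
    rw [← mul_assoc, ← Polynomial.C_mul, mul_div_cancel₀ _ hX]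
  have h2 : S.x = Polynomial.C (S.V l) * X' := by
    rw [hX', Finset.mul_sum]
    unfold Dt.x
    refine Finset.sum_congr rfl fun i _ => ?_
    rw [← mul_assoc, ← Polynomial.C_mul, mul_div_cancel₀ _ hV]
  have h3 : S.R / (S.X c ^ m * S.V l ^ (3 * d)) = Polynomial.resultant P' X' (3 * d) m := by
    unfold Dt.R
    rw [h1, h2, res_smul, mul_div_cancel_left₀ _ (mul_ne_zero (pow_ne_zero _ hX) (pow_ne_zero _ hV))]
  refine ⟨Polynomial.resultant p w (3 * d) m, ?_, fun hG => ?_⟩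
  · rw [h3]
    refine regAt_resultant _ _ (fun i => ?_) (fun i => ?_)
    · rw [hP', hp, coeff_sum, coeff_sum]
      exact LG.RegAt.sum _ _ _ fun j _ => regAt_ite (ratio h hs ha hy hc _)
    · rw [hX', hw, coeff_sum, coeff_sum]
      exact LG.RegAt.sum _ _ _ fun j _ => regAt_ite (hVr j)
  · have hoff := h.off a y x ha hG hy hx
    refine res_ne (by rw [hp]; exact natDegree_sum _) (by rw [hw]; exact natDegree_sum _) ?_ ?_
    · by_contra hcon
      push Not at hcon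
      obtain ⟨h4, h5⟩ := hcon
      have e1 : ∀ {D : ℕ} (f : Fin (D + 1) → ℂ), ∑ j : Fin (D + 1), (if D = (j : ℕ) then f j else 0) = f (Fin.last D) := by
        intro D f
        rw [Finset.sum_eq_single (Fin.last D)]
        · simp
        · intro j _ hj
          exact if_neg fun h => hj (Fin.ext h.symm)
        · intro h
          exact absurd (Finset.mem_univ _) h
      rw [hp, coeff_sum, e1] at h4
      rw [hw, coeff_sum, e1] at h5
      have h4' : Θ (S.cf (Fin.last (3 * d))) y = 0 := (div_eq_zero_iff.1 h4).resolve_right hc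
      have h5' : x (Fin.last m) = 0 := (div_eq_zero_iff.1 h5).resolve_right hl
      have h6 := hs.coeff y ![1, 0]
      have h7 : ∑ i : Fin (3 * d + 1), Θ (S.cf i) y * (1 : ℂ) ^ (i : ℕ) * (0 : ℂ) ^ (3 * d - (i : ℕ)) = form θ y ![1, 0] ^ 3 := h6
      rw [sum_inf (fun i => Θ (S.cf i) y), h4'] at h7
      have h8 : form θ y ![1, 0] = 0 := pow_eq_zero_iff (three_ne_zero) |>.1 h7.symm
      refine hoff ![1, 0] (fun h9 => ?_) h8 ?_
      · have := congrFun h9 0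
        simp at this
      · show ∑ i : Fin (m + 1), x i * (1 : ℂ) ^ (i : ℕ) * (0 : ℂ) ^ (m - (i : ℕ)) = 0
        rw [sum_inf x, h5']
    · intro t ht
      rw [hp, eval_sum'] at ht
      have h6 : ∑ i : Fin (3 * d + 1), Θ (S.cf i) y * t ^ (i : ℕ) * (1 : ℂ) ^ (3 * d - (i : ℕ)) = form θ y ![t, 1] ^ 3 := hs.coeff y ![t, 1]
      have h7 : form θ y ![t, 1] = 0 := by
        refine pow_eq_zero_iff (three_ne_zero) |>.1 ?_
        rw [← h6]
        have h8 : ∑ i : Fin (3 * d + 1), Θ (S.cf i) y * t ^ (i : ℕ) * (1 : ℂ) ^ (3 * d - (i : ℕ)) = Θ c y * ∑ i : Fin (3 * d + 1), Θ (S.cf i) y / Θ c y * t ^ (i : ℕ) := by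
          rw [Finset.mul_sum]
          refine Finset.sum_congr rfl fun i _ => ?_
          rw [one_pow, mul_one, ← mul_assoc, mul_div_cancel₀ _ hc]
        rw [h8, ht, mul_zero]
      have h9 := hoff ![t, 1] (fun h9 => by
        have := congrFun h9 1
        simp at this) h7
      rw [hw, eval_sum']
      intro h10
      apply h9
      show ∑ i : Fin (m + 1), x i * t ^ (i : ℕ) * (1 : ℂ) ^ (m - (i : ℕ)) = 0
      have h8 : ∑ i : Fin (m + 1), x i * t ^ (i : ℕ) * (1 : ℂ) ^ (m - (i : ℕ)) = x l * ∑ i : Fin (m + 1), x i / x l * t ^ (i : ℕ) := by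
        rw [Finset.mul_sum]
        refine Finset.sum_congr rfl fun i _ => ?_
        rw [one_pow, mul_one, ← mul_assoc, mul_div_cancel₀ _ hl]
      rw [h8, h10, mul_zero]

theorem exists_chart (h : GeoT Q ξ Λ θ L V G) (hs : SelT Q ξ Λ θ L V G Θ a₀ y₀ b₀ S) {k : ℕ} (E : PrimeDivisorOver K k) (v : K → ℤ) (hv : ∀ a, a ≠ 0 → E.ord a = (v a : WithTop ℤ)) :
    ∃ c l, S.Chart v c l ∧ (¬ BdG ξ G E → v S.R = m * v (S.X c) + (3 * d : ℕ) * v (S.V l)) := by
  obtain ⟨a, ha, hreg, hG⟩ := LG.exists_center h.homog h.gp E G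
  obtain ⟨y, hy⟩ := h.lft.ex a ha
  obtain ⟨x, hx0, hx⟩ := h.vmap.ex ha
  obtain ⟨l, hl⟩ : ∃ l, x l ≠ 0 := by
    by_contra hcon
    push Not at hcon
    exact hx0 (funext hcon)
  obtain ⟨c, b, hc, hdet⟩ := hs.fam.chart y
  obtain ⟨hX, hV, r, hr1, hr2⟩ := R_value h hs ha hy hx hc hl
  have hVr := (hs.isV a x ha hx l hl).2
  -- the valuation
  have vmul : ∀ f g : K, f ≠ 0 → g ≠ 0 → v (f * g) = v f + v g := by
    intro f g hf hg
    have h1 := E.ord.map_mul f g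
    rw [hv _ (mul_ne_zero hf hg), hv _ hf, hv _ hg] at h1
    exact_mod_cast h1
  have vpow : ∀ (f : K) (k : ℕ), f ≠ 0 → v (f ^ k) = k * v f := by
    intro f k hf
    have h1 := E.ord.map_pow f k
    rw [hv _ (pow_ne_zero k hf), hv _ hf] at h1
    have h2 : ((v (f ^ k) : ℤ) : WithTop ℤ) = ((k • v f : ℤ) : WithTop ℤ) := by
      rw [h1, WithTop.coe_nsmul]
    have h3 : v (f ^ k) = k • v f := WithTop.coe_injective h2
    rw [h3, nsmul_eq_mul]
  have vnn : ∀ (f : K) (c : ℂ), f ≠ 0 → RegAt ξ a f c → 0 ≤ v f := by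
    intro f c hf hR
    have h1 := (hreg f c hR).1
    rw [hv _ hf] at h1
    exact_mod_cast h1
  refine ⟨c, l, ⟨hX, fun b' hb' => ?_, hV, fun l' hl' => ?_, ?_⟩, fun hB => ?_⟩
  · have h1 := vnn _ _ (div_ne_zero hb' hX) (ratio h hs ha hy hc b')
    have h2 := vmul (S.X b' / S.X c) (S.X c) (div_ne_zero hb' hX) hX
    rw [div_mul_cancel₀ _ hX] at h2
    omega
  · have h1 := vnn _ _ (div_ne_zero hl' hV) (hVr l')
    have h2 := vmul (S.V l' / S.V l) (S.V l) (div_ne_zero hl' hV) hV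
    rw [div_mul_cancel₀ _ hV] at h2
    omega
  · obtain ⟨M, hM1, hM2⟩ := hs.chart a y ha hy c b hc hdet
    refine ⟨M, fun i b' hne => ?_, hM2⟩
    obtain ⟨w, hw⟩ := hM1 i b'
    exact vnn _ _ hne hw
  · have hr0 := hr2 (hG hB)
    have hne := LG.RegAt.ne_zero h.gp ha hr1 hr0
    have hD : S.X c ^ m * S.V l ^ (3 * d) ≠ 0 := mul_ne_zero (pow_ne_zero _ hX) (pow_ne_zero _ hV)
    have h1 := (hreg _ _ hr1).2 hr0
    rw [hv _ hne] at h1
    have h2 : v (S.R / (S.X c ^ m * S.V l ^ (3 * d))) = 0 := by exact_mod_cast h1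
    have h3 := vmul _ _ hne hD
    rw [div_mul_cancel₀ _ hD, h2, zero_add, vmul _ _ (pow_ne_zero _ hX) (pow_ne_zero _ hV), vpow _ _ hX, vpow _ _ hV] at h3
    exact h3

end Pool.Agent.LT

end
end

section

/-!
# LT Gb: the properties of the data which do not depend on a divisor

* `one`: `X b₀ = 1` (`IsVal.one`, `IsVal.eq_of_eq`; see `LG.X_base`).  `R_ne`: `R_value` at `(a₀, y₀)` (`VMapm.ex`; `base`), `RegAt.ne_zero`.
* `deg`, `zero`: `coeff` for `p = (1, 0)` and `(0, 1)`: `Θ (cf (3d)) y₀ = θ_d (y₀)^3 ≠ 0`, `Θ (cf 0) y₀ = θ_0 (y₀)^3 ≠ 0`, the values of `X (cf i)` at `a₀` are `Θ (cf i) y₀ / Θ b₀ y₀`.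
* `roots`: `many_of_special` with `x = 1`, the values `Θ (cf i) y₀ / Θ b₀ y₀` and the roots `t i` (`many`, `coeff` for `p = (t, 1)`).
-/

set_option autoImplicit false

open Topology Filter MvPolynomial
open Pool.Agent.H23 (PrimeDivisorOver)
open Pool.Agent.PXF (Cn form IsThetaForm)
open Pool.Agent.LG (dd Cone GP RegAt BdG IsType Lft RegL NZ IsVal Fam wr)

noncomputable section

namespace Pool.Agent.LT

variable {K : Type} [Field K] [Algebra ℂ K] {N κ d m s n : ℕ} {Q : Ideal (MvPolynomial (Fin (N + 1)) ℂ)} {ξ : Fin (N + 1) → K} {Λ : AddSubgroup (Cn (κ + 1))} {θ : Fin (d + 1) → Cn (κ + 1) → ℂ}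
  {L : (Fin (N + 1) → ℂ) → Cn (κ + 1) → Prop} {V : (Fin (N + 1) → ℂ) → Cn (m + 1) → Prop} {G : Fin s → MvPolynomial (Fin (N + 1)) ℂ} {Θ : Fin n → Cn (κ + 1) → ℂ} {a₀ : Fin (N + 1) → ℂ} {y₀ : Cn (κ + 1)} {b₀ : Fin n}
  {S : Dt K (Fin n) (κ + 1) m (3 * d)}

/-- the value of the form at the second coordinate vector -/
private theorem Gb_form0 (y : Cn (κ + 1)) : form θ y ![0, 1] = θ 0 y := by
  unfold form
  rw [Finset.sum_eq_single (0 : Fin (d + 1))]
  · simp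
  · intro i _ hi
    have h2 : (i : ℕ) ≠ 0 := by
      intro h3
      exact hi (Fin.ext h3)
    simp [h2]
  · intro hh
    exact absurd (Finset.mem_univ _) hh

/-- the value of the form at the first coordinate vector -/
private theorem Gb_form1 (y : Cn (κ + 1)) : form θ y ![1, 0] = θ (Fin.last d) y := by
  unfold form
  rw [Finset.sum_eq_single (Fin.last d)]
  · simp
  · intro i _ hi
    have h2 : d - (i : ℕ) ≠ 0 := by
      intro h3
      apply hi
      apply Fin.ext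
      have := i.isLt
      rw [Fin.val_last]
      omega
    simp [h2]
  · intro hh
    exact absurd (Finset.mem_univ _) hh

private theorem Gb_last (hs : SelT Q ξ Λ θ L V G Θ a₀ y₀ b₀ S) :
    Θ (S.cf (Fin.last (3 * d))) y₀ ≠ 0 := by
  have h1 := hs.coeff y₀ ![1, 0]
  rw [Finset.sum_eq_single (Fin.last (3 * d)), Gb_form1] at h1
  · simp only [Matrix.cons_val_one, Matrix.cons_val_zero, one_pow, mul_one, Fin.val_last, Nat.sub_self, pow_zero] at h1
    rw [h1]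
    exact pow_ne_zero _ hs.e1
  · intro i _ hi
    have h2 : 3 * d - (i : ℕ) ≠ 0 := by
      intro h3
      apply hi
      apply Fin.ext
      have := i.isLt
      rw [Fin.val_last]
      omega
    simp [h2]
  · intro hh
    exact absurd (Finset.mem_univ _) hh

private theorem Gb_zero (hs : SelT Q ξ Λ θ L V G Θ a₀ y₀ b₀ S) :
    Θ (S.cf 0) y₀ ≠ 0 := by
  have h1 := hs.coeff y₀ ![0, 1]
  rw [Finset.sum_eq_single (0 : Fin (3 * d + 1)), Gb_form0] at h1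
  · simp only [Matrix.cons_val_one, Matrix.cons_val_zero, one_pow, mul_one, Fin.val_zero, pow_zero] at h1
    rw [h1]
    exact pow_ne_zero _ hs.e0
  · intro i _ hi
    have h2 : (i : ℕ) ≠ 0 := by
      intro h3
      exact hi (Fin.ext h3)
    simp [h2]
  · intro hh
    exact absurd (Finset.mem_univ _) hh

private theorem Gb_coeff (S : Dt K (Fin n) (κ + 1) m (3 * d)) (i : Fin (3 * d + 1)) : S.P.coeff (i : ℕ) = S.X (S.cf i) := by
  simp only [Dt.P, Polynomial.finsetSum_coeff, Polynomial.coeff_C_mul_X_pow]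
  rw [Finset.sum_eq_single i]
  · simp
  · intro j _ hj
    rw [if_neg]
    intro h
    exact hj (Fin.ext h.symm)
  · intro h
    exact absurd (Finset.mem_univ i) h

private theorem Gb_reg (hs : SelT Q ξ Λ θ L V G Θ a₀ y₀ b₀ S) (b : Fin n) :
    RegAt ξ a₀ (S.X b) (Θ b y₀ / Θ b₀ y₀) := hs.val b a₀ y₀ hs.cone hs.lift hs.base

theorem base_of_sel (h : GeoT Q ξ Λ θ L V G) (hs : SelT Q ξ Λ θ L V G Θ a₀ y₀ b₀ S) : S.Base := by
  have hlast : S.X (S.cf (Fin.last (3 * d))) ≠ 0 :=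
    RegAt.ne_zero h.gp hs.cone (Gb_reg hs _) (div_ne_zero (Gb_last hs) hs.base)
  have hzero : S.X (S.cf 0) ≠ 0 :=
    RegAt.ne_zero h.gp hs.cone (Gb_reg hs _) (div_ne_zero (Gb_zero hs) hs.base)
  refine ⟨⟨b₀, ?_⟩, hs.V_ne, ?_, ?_, ?_, ?_, hs.alg, hs.span⟩
  · exact IsVal.eq_of_eq h.prime h.gp h.lft hs.nz hs.nz (hs.val b₀) LG.IsVal.one fun _ _ _ => rfl
  · obtain ⟨x, hx, hV⟩ := h.vmap.ex hs.cone
    obtain ⟨l, hl⟩ := Function.ne_iff.1 hx
    obtain ⟨-, -, v, hv, hne⟩ := R_value h hs hs.cone hs.lift hV hs.base (l := l) hl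
    have h1 := RegAt.ne_zero h.gp hs.cone hv (hne hs.inU)
    intro hR
    rw [hR, zero_div] at h1
    exact h1 rfl
  · apply le_antisymm
    · rw [Polynomial.natDegree_le_iff_coeff_eq_zero]
      intro m' hm'
      simp only [Dt.P, Polynomial.finsetSum_coeff, Polynomial.coeff_C_mul_X_pow]
      refine Finset.sum_eq_zero fun j _ => ?_
      rw [if_neg]
      intro hh
      have := j.isLt
      omega
    · apply Polynomial.le_natDegree_of_ne_zero
      have := Gb_coeff S (Fin.last (3 * d))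
      rw [Fin.val_last] at this
      rw [this]
      exact hlast
  · have := Gb_coeff S 0
    rw [Fin.val_zero] at this
    rw [this]
    exact hzero
  · obtain ⟨t, ht, hf⟩ := hs.many
    refine many_of_special h.gp hs.cone (fun i => S.X (S.cf i)) (fun i => Θ (S.cf i) y₀ / Θ b₀ y₀) (fun i => Gb_reg hs _) (div_ne_zero (Gb_last hs) hs.base)
      ht (fun j => ?_) (one_ne_zero : (1 : K) ≠ 0) S.P ?_
    · have h1 := hs.coeff y₀ ![t j, 1]
      rw [hf j, zero_pow (by norm_num)] at h1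
      simp only [Matrix.cons_val_one, Matrix.cons_val_zero, one_pow, mul_one] at h1
      have h2 : ∑ i, Θ (S.cf i) y₀ / Θ b₀ y₀ * t j ^ (i : ℕ) = (∑ i, Θ (S.cf i) y₀ * t j ^ (i : ℕ)) / Θ b₀ y₀ := by
        rw [Finset.sum_div]
        refine Finset.sum_congr rfl fun i _ => ?_
        ring
      rw [h2, h1, zero_div]
    · simp only [one_mul, Dt.P]

theorem d_pos (h : GeoT Q ξ Λ θ L V G) (hs : SelT Q ξ Λ θ L V G Θ a₀ y₀ b₀ S) : 1 ≤ d := by
  rcases Nat.eq_zero_or_pos d with hd | hd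
  · exfalso
    subst hd
    obtain ⟨t, -, hf⟩ := hs.many
    have h1 := hf 0
    apply hs.e0
    simp only [form, Nat.reduceAdd, Finset.univ_unique, Fin.default_eq_zero, Finset.sum_singleton, Fin.val_zero, pow_zero, mul_one] at h1
    simpa using h1
  · exact hd

end Pool.Agent.LT

end
end
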