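import Pool.Agent.H94.PX4.LT.Cr
import Pool.Agent.H94.PX4.M53
import Pool.Agent.H94.PX4.M64
import Pool.Agent.H94.PX4.M66

/-! The parts of this file: LT.Zl, PX.T.LGT. -/

section

/-!
# LT Zl: the varieties over `T_m` are of log general type
-/

set_option autoImplicit false

open Topology Filter MvPolynomial
open Pool.Agent.PXF (Cn form IsThetaForm)
open Pool.Agent.LG (dd Cone GP RegAt BdG IsType Lft RegL NZ IsVal Fam wr)

noncomputable section

namespace Pool.Agent.LT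

variable {K : Type} [Field K] [Algebra ℂ K] {N κ d m s n : ℕ} {Q : Ideal (MvPolynomial (Fin (N + 1)) ℂ)} {ξ : Fin (N + 1) → K} {Λ : AddSubgroup (Cn (κ + 1))} {θ : Fin (d + 1) → Cn (κ + 1) → ℂ}
  {L : (Fin (N + 1) → ℂ) → Cn (κ + 1) → Prop} {V : (Fin (N + 1) → ℂ) → Cn (m + 1) → Prop} {G : Fin s → MvPolynomial (Fin (N + 1)) ℂ}

theorem lgt_of_geoT [Algebra.EssFiniteType ℂ K] {k : ℕ} {z : Fin (k + 1) → K} (hz : IsTranscendenceBasis ℂ z) (hΛ : Submodule.span ℝ (Λ : Set (Cn (κ + 1))) = ⊤) (hm : 1 ≤ m) (hθ : IsThetaForm Λ θ) (h : GeoT Q ξ Λ θ L V G) :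
    H17LG.IsLogGeneralType (BdG (k := k + 1) ξ G) := by
  obtain ⟨θ', V', hθ', h', a₀, y₀, ha, hG, hy, h0, h1, ht⟩ := exists_change hm hθ h
  obtain ⟨n, Θ, b₀, S, hs⟩ := exists_selT hz hΛ hθ' h' ha hG hy h0 h1 ht
  have hd := d_pos h' hs
  exact core hz S hm (by omega) ⟨base_of_sel h' hs, fun E v hv => exists_chart h' hs E v hv⟩

/-- **the varieties over `T_m`, not over the special points, are of log general type** -/
theorem lg_final_T (hspan : Submodule.span ℝ (Λ : Set (Cn (κ + 1))) = ⊤) (hm : 1 ≤ m) (hθ : IsThetaForm Λ θ) (hG : GeoT Q ξ Λ θ L V G) {w : ℕ} (hw : 1 ≤ w) {z : Fin w → K} (hz : IsTranscendenceBasis ℂ z) :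
    H17LG.IsLogGeneralType (BdG (k := w) ξ G) := by
  have := hG.gp.essFiniteType
  obtain ⟨k, rfl⟩ : ∃ k, w = k + 1 := ⟨w - 1, by omega⟩
  exact lgt_of_geoT hz hspan hm hθ hG

end Pool.Agent.LT

end
end

section

/-!
# PX T LGT: the varieties over `T` are of log general type
-/

set_option autoImplicit false

open Topology Filter Metric MvPolynomial
open Pool.Agent.H17 (PN VanishesAt)
open Pool.Agent.H17GT (coordFun)
open Pool.Agent.H17LG.Variety (FunField IsLogGeneralType ratio)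
open Pool.Agent.H17R (coordFun_ne_zero_iff)
open Pool.Agent.H62.FC (Homog)
open Pool.Agent.H62.SA (locVar OnBd)
open Pool.Agent.H7.Qup (exists_coord)
open Pool.Agent.PX (tht thetaForm_of)

noncomputable section

namespace Pool.Agent.COP

variable {k d m : ℕ} {Λ : Sub k} {F : Poly k 1}

theorem lgthm (hspan : Submodule.span ℝ (Λ : Set (Cn (k + 1))) = ⊤) (hF : IsHolomorphicForm F d) (hA : IsAmple Λ F) (hm : 1 ≤ m) : LGThm Λ (coprimeForms Λ m F) (fewZeros Λ (2 * m + 1) F) := by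
  intro N s Q _ G u v hQ hG h w hw ⟨z, hz⟩
  obtain ⟨x, hx, -⟩ := h.notOver
  obtain ⟨j₀, hj₀⟩ := exists_coord hx
  have hj := coordFun_ne_zero_iff.2 hj₀
  exact Pool.Agent.H17LG.isLogGeneralType_translate (COT.bd_iff hj) (Pool.Agent.LT.lg_final_T hspan hm (thetaForm_of hF.to.to (COT.ample_to (ample_to hA))) (geo_of hF hA hm hQ hG h hj) hw hz)

end Pool.Agent.COP

end
end
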