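import Pool.Agent.H94.PX4.G4.Simp
import Pool.Agent.H94.PX4.M07
import Pool.Agent.H94.PX4.M17
import Pool.Agent.H94.PX4.M23
import Pool.Agent.H94.PX4.M45
import Pool.Agent.H94.PX4.M68

/-! The parts of this file: H13.CV.Idem, H13.CV.Tame, HE.F.Fro, HE.F.FroB. -/

section

/-!
# CV Idem: idempotents modulo `x` with trace zero

`matrix_idem`: for a complex matrix with `M * M = M` the trace is the rank (`LinearMap.IsIdempotentElem`, `LinearMap.IsProj.trace`, or diagonalise), so if it is `0` then `M = 0`.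

`trace_idem`: `M i j = w.repr (u * w j) i`; these are in `L` and `RegLoc x` (`LocB`, `basis_regLoc`).  `Algebra.trace L K u = ∑ i, M i i` (`Algebra.trace_eq_matrix_trace w`, `Algebra.leftMulMatrix_eq_repr_mul`).
Let `E` be a place over `x = 0` (`exists_place_over`) and `M̄ i j = res E (M i j)`.  `M * M - M` is the matrix of the multiplication by `u² - u`: its entries are the coordinates of
`(u² - u) * w j = x * (RegLoc)`, so they are `x` times a `RegLoc` element, and `res E` of them is `0`.  So `M̄ * M̄ = M̄` (`res_add`, `res_mul`, `res_sum`).  The trace of `M̄` is `res E` of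
`Algebra.trace L K u`, which is `0`.  So `M̄ = 0`: all `M i j` have positive order at `E`, so `RegLoc x (M i j / x)` (`regLoc_div_of_pos`), so `RegLoc x (u * w j / x)` for all `j`.  With
`1 = ∑ r j * w j`, `RegLoc x (r j)` (`LocB`): `u / x = ∑ r j * (u * w j / x)`.
-/

set_option autoImplicit false

open Pool.Agent.H23.Fano (PrimeDivisorOver Form regularForms)

noncomputable section

namespace Pool.Agent.H13.CV

theorem matrix_idem {n : ℕ} (M : Matrix (Fin n) (Fin n) ℂ) (hM : M * M = M) (ht : M.trace = 0) : M = 0 := by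
  have he : IsIdempotentElem (Matrix.toLin' M) := by
    show Matrix.toLin' M * Matrix.toLin' M = Matrix.toLin' M
    have : Matrix.toLin' (M * M) = Matrix.toLin' M * Matrix.toLin' M := Matrix.toLin'_mul M M
    rw [← this, hM]
  have htr : LinearMap.trace ℂ (Fin n → ℂ) (Matrix.toLin' M) = 0 := by
    rw [Matrix.trace_toLin'_eq, ht]
  have h0 := (LinearMap.IsIdempotentElem.trace_eq_zero_iff he).mp htr
  exact (LinearEquiv.map_eq_zero_iff Matrix.toLin').mp h0

variable {K : Type} [Field K] [Algebra ℂ K] {L : IntermediateField ℂ K} {x : K} {n : ℕ}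

private theorem regLoc_mul {f g : K} (hf : RegLoc x f) (hg : RegLoc x g) : RegLoc x (f * g) :=
  fun E hE => nonneg_mul (hf E hE) (hg E hE)

private theorem regLoc_sum {ι : Type*} {s : Finset ι} {F : ι → K} (h : ∀ i ∈ s, RegLoc x (F i)) :
    RegLoc x (∑ i ∈ s, F i) :=
  fun E hE => nonneg_sum fun i hi => h i hi E hE

private theorem regLoc_one : RegLoc x (1 : K) := fun E _ => by
  rw [E.ord.map_one]

private theorem repr_L_mul (w : Module.Basis (Fin n) L K) {c : K} (hc : c ∈ L) (f : K) (i : Fin n) :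
    ((w.repr (c * f) i : L) : K) = c * ((w.repr f i : L) : K) := by
  have h1 : c * f = (⟨c, hc⟩ : L) • f := by
    rw [Algebra.smul_def]
    rfl
  rw [h1, map_smul]
  simp

private theorem sum_repr_coe (w : Module.Basis (Fin n) L K) (f : K) :
    f = ∑ i, ((w.repr f i : L) : K) * w i := by
  conv_lhs => rw [← w.sum_repr f]
  refine Finset.sum_congr rfl fun i _ => ?_
  rw [Algebra.smul_def]
  rfl

theorem trace_idem (hK : CurveField K) (hL : Gen L x) [FiniteDimensional L K] {w : Module.Basis (Fin n) L K} (hw : LocB x w) {u : K} (hu : RegLoc x u)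
    (hu2 : RegLoc x ((u ^ 2 - u) / x)) (htr : RegLoc x (((Algebra.trace L K u : L) : K) / x)) : RegLoc x (u / x) := by
  have hx0 : x ≠ 0 := hL.ne_zero
  have hxL : x ∈ L := hL.mem
  obtain ⟨E, hE⟩ := exists_place_over hK hL.tr
  -- the matrix
  set M : Fin n → Fin n → K := fun i j => ((w.repr (u * w j) i : L) : K) with hMdef
  have hMreg : ∀ i j, RegLoc x (M i j) := fun i j =>
    (hw (u * w j)).mp (regLoc_mul hu (hw.basis_regLoc j)) i
  have hML : ∀ i j, M i j ∈ L := fun i j => (w.repr (u * w j) i).2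
  -- the product
  have hMM : ∀ i j, ((w.repr (u ^ 2 * w j) i : L) : K) = ∑ k, M i k * M k j := by
    intro i j
    have h1 : u ^ 2 * w j = ∑ k, M k j * (u * w k) := by
      have h2 : u * w j = ∑ k, M k j * w k := sum_repr_coe w (u * w j)
      calc u ^ 2 * w j = u * (u * w j) := by ring
        _ = u * ∑ k, M k j * w k := by rw [← h2]
        _ = _ := by
          rw [Finset.mul_sum]
          exact Finset.sum_congr rfl fun k _ => by ring
    rw [h1, map_sum, Finset.sum_apply', AddSubmonoidClass.coe_finsetSum]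
    refine Finset.sum_congr rfl fun k _ => ?_
    rw [repr_L_mul w (hML k j), mul_comm]
  -- the difference
  have hdiff : ∀ i j, ∃ R : K, RegLoc x R ∧ (∑ k, M i k * M k j) = M i j + x * R := by
    intro i j
    refine ⟨((w.repr (((u ^ 2 - u) / x) * w j) i : L) : K),
      (hw _).mp (regLoc_mul hu2 (hw.basis_regLoc j)) i, ?_⟩
    rw [← repr_L_mul w hxL, ← hMM]
    have h3 : x * ((u ^ 2 - u) / x * w j) = u ^ 2 * w j - u * w j := by
      field_simp
    rw [h3, map_sub]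
    simp [hMdef]
  -- the residue matrix
  set N : Matrix (Fin n) (Fin n) ℂ := fun i j => res E (M i j) with hNdef
  have hnn : ∀ i j, 0 ≤ E.ord (M i j) := fun i j => hMreg i j E hE
  have hNN : N * N = N := by
    ext i j
    rw [Matrix.mul_apply]
    obtain ⟨R, hR, hR2⟩ := hdiff i j
    have hxR : 0 < E.ord (x * R) := pos_mul hE (hR E hE)
    have h4 : res E (∑ k, M i k * M k j) = ∑ k, N i k * N k j := by
      rw [res_sum hK (fun k _ => nonneg_mul (hnn i k) (hnn k j))]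
      exact Finset.sum_congr rfl fun k _ => res_mul hK (hnn i k) (hnn k j)
    have h5 : res E (M i j + x * R) = N i j := by
      rw [res_add hK (hnn i j) hxR.le, (res_eq_zero_iff hK hxR.le).mpr hxR, add_zero]
    rw [← h4, hR2, h5]
  have hNtr : N.trace = 0 := by
    have h6 : ((Algebra.trace L K u : L) : K) = ∑ i, M i i := by
      rw [Algebra.trace_eq_matrix_trace w, Matrix.trace, AddSubmonoidClass.coe_finsetSum]
      refine Finset.sum_congr rfl fun i _ => ?_
      rw [Matrix.diag_apply, Algebra.leftMulMatrix_eq_repr_mul]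
    have h7 : 0 < E.ord ((Algebra.trace L K u : L) : K) := by
      have h8 : ((Algebra.trace L K u : L) : K) = x * (((Algebra.trace L K u : L) : K) / x) := by
        field_simp
      rw [h8]
      exact pos_mul hE (htr E hE)
    have h9 : N.trace = res E (∑ i, M i i) := by
      rw [res_sum hK (fun i _ => hnn i i)]
      rfl
    rw [h9, ← h6]
    exact (res_eq_zero_iff hK h7.le).mpr h7
  have hN0 : N = 0 := matrix_idem N hNN hNtr
  have hMx : ∀ i j, RegLoc x (M i j / x) := by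
    intro i j
    refine regLoc_div_of_pos hL (hML i j) hE ?_
    refine (res_eq_zero_iff hK (hnn i j)).mp ?_
    have : N i j = 0 := by rw [hN0]; rfl
    exact this
  have huw : ∀ j, RegLoc x (u * w j / x) := by
    intro j
    refine (hw _).mpr fun i => ?_
    have h10 : u * w j / x = x⁻¹ * (u * w j) := by field_simp
    rw [h10, repr_L_mul w (inv_mem hxL)]
    have h11 : x⁻¹ * ((w.repr (u * w j) i : L) : K) = M i j / x := by
      rw [div_eq_mul_inv, mul_comm]
    rw [h11]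
    exact hMx i j
  have h1 : u / x = ∑ j, ((w.repr (1 : K) j : L) : K) * (u * w j / x) := by
    have h2 : (1 : K) = ∑ j, ((w.repr (1 : K) j : L) : K) * w j := sum_repr_coe w 1
    calc u / x = u / x * 1 := by ring
      _ = u / x * ∑ j, ((w.repr (1 : K) j : L) : K) * w j := by rw [← h2]
      _ = _ := by
        rw [Finset.mul_sum]
        exact Finset.sum_congr rfl fun j _ => by ring
  rw [h1]
  exact regLoc_sum fun j _ => regLoc_mul ((hw 1).mp regLoc_one j) (huw j)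

end Pool.Agent.H13.CV

end
end

section

/-!
# CV Tame: the trace lemma (tame ramification)

`tame`: let `e = oz E x`, and suppose that `oz E h ≤ - e`.  Let `T` be the finite set of the places over `x = 0` (`finite_over`).  By `approx` there is `c ∈ K` with: at `E`: `ord (c - (x * h)⁻¹) ≥ N`, at the
`E' ∈ T`, `E' ≠ E`: `ord c ≥ N`, with `N ≥ 0` so large that `N ≥ oz E' x - oz E' (x * h)` for all `E' ∈ T`, and `N ≥ e - oz E (x * h)`, `N ≥ e`.  Then `RegLoc x c` (at `E`: `(x h)⁻¹` has order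
`- (e + oz E h) ≥ 0`).  Let `u = x * h * c`: `ord_E (u - 1) = ord_E (x h (c - (x h)⁻¹)) ≥ e`, and `ord_{E'} u ≥ oz E' x` for `E' ≠ E`.  So `RegLoc x u`, `RegLoc x ((u² - u) / x)`
(`u² - u = u (u - 1)`), and `trace u = x * trace (h * c)` (`Algebra.trace` is `L`-linear, `x ∈ L`), so `RegLoc x (trace u / x)` by `hh` for `f = c`.  By `trace_idem`: `RegLoc x (u / x)`: so
`ord_E u ≥ e > 0`; but `ord_E (u - 1) ≥ e > 0`, so `ord_E 1 > 0`: contradiction.

`exists_dual`: `(Algebra.traceForm L K).dualBasis (traceForm_nondegenerate L K) w`; `Algebra.trace L K (v i * w j) = if i = j then 1 else 0`, so `trace (v i * f) = w.repr f i` for `f = ∑ (w.repr f j) • w j`.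
-/

set_option autoImplicit false

open Pool.Agent.H23.Fano (PrimeDivisorOver Form regularForms)

noncomputable section

namespace Pool.Agent.H13.CV

variable {K : Type} [Field K] [Algebra ℂ K] {L : IntermediateField ℂ K} {x : K} {n : ℕ}

private lemma tame_le_mul {E : Place K} {f g : K} {a b : ℤ} (hf : (a : WithTop ℤ) ≤ E.ord f) (hg : (b : WithTop ℤ) ≤ E.ord g) :
    ((a + b : ℤ) : WithTop ℤ) ≤ E.ord (f * g) := by
  rw [E.ord.map_mul, WithTop.coe_add]
  exact add_le_add hf hg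

private lemma tame_div {E : Place K} {f : K} (hx : x ≠ 0) (hf : ((oz E x : ℤ) : WithTop ℤ) ≤ E.ord f) : 0 ≤ E.ord (f / x) := by
  have h := tame_le_mul hf (ord_inv E hx).ge
  rw [add_neg_cancel] at h
  rw [div_eq_mul_inv]
  exact h

theorem tame (hK : CurveField K) (hL : Gen L x) [FiniteDimensional L K] {w : Module.Basis (Fin n) L K} (hw : LocB x w) {h : K} (h0 : h ≠ 0)
    (hh : ∀ f : K, RegLoc x f → RegLoc x ((Algebra.trace L K (h * f) : L) : K)) {E : Place K} (hE : 0 < E.ord x) : 1 - oz E x ≤ oz E h := by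
  classical
  by_contra hcon
  have hx : x ≠ 0 := hL.ne_zero
  have he : 0 < oz E x := (pos_iff.1 hE).resolve_left hx
  have hxh : x * h ≠ 0 := mul_ne_zero hx h0
  have hneg : oz E (x * h) ≤ 0 := by
    rw [oz_mul E hx h0]
    omega
  set T : Finset (Place K) := (finite_over (L := L) (x := x) hL).toFinset with hT
  have hmem : ∀ E' : Place K, 0 < E'.ord x → E' ∈ T := fun E' h' => by
    rw [hT, Set.Finite.mem_toFinset]
    exact h'
  obtain ⟨N, hN0, hN⟩ : ∃ N : ℤ, 0 ≤ N ∧ ∀ E' ∈ T, oz E' x - oz E' (x * h) ≤ N := by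
    refine ⟨∑ E' ∈ T, |oz E' x - oz E' (x * h)|, Finset.sum_nonneg fun _ _ => abs_nonneg _, fun E' h' => ?_⟩
    exact (le_abs_self _).trans (Finset.single_le_sum (f := fun E' => |oz E' x - oz E' (x * h)|) (fun _ _ => abs_nonneg _) h')
  obtain ⟨c, hc⟩ := approx T (fun E' => if E' = E then (x * h)⁻¹ else 0) N
  have hcE : ((N : ℤ) : WithTop ℤ) ≤ E.ord (c - (x * h)⁻¹) := by
    have h1 := hc E (hmem E hE)
    rwa [if_pos rfl] at h1
  have hcE' : ∀ E' : Place K, 0 < E'.ord x → E' ≠ E → ((N : ℤ) : WithTop ℤ) ≤ E'.ord c := by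
    intro E' h' hne
    have h1 := hc E' (hmem E' h')
    rwa [if_neg hne, sub_zero] at h1
  have hNtop : (0 : WithTop ℤ) ≤ ((N : ℤ) : WithTop ℤ) := by exact_mod_cast hN0
  set u : K := x * h * c with hu
  have hu1 : ((oz E x : ℤ) : WithTop ℤ) ≤ E.ord (u - 1) := by
    have e1 : u - 1 = x * h * (c - (x * h)⁻¹) := by
      rw [hu, mul_sub, mul_inv_cancel₀ hxh]
    have h1 := tame_le_mul (coe_oz E hxh).le hcE
    rw [← e1] at h1
    refine le_trans ?_ h1
    have h2 := hN E (hmem E hE)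
    exact_mod_cast (by omega : oz E x ≤ oz E (x * h) + N)
  have hu2 : ∀ E' : Place K, 0 < E'.ord x → E' ≠ E → ((oz E' x : ℤ) : WithTop ℤ) ≤ E'.ord u := by
    intro E' h' hne
    have h1 := tame_le_mul (coe_oz E' hxh).le (hcE' E' h' hne)
    refine le_trans ?_ h1
    have h2 := hN E' (hmem E' h')
    exact_mod_cast (by omega : oz E' x ≤ oz E' (x * h) + N)
  have hone : ∀ E' : Place K, E'.ord (1 : K) = 0 := fun E' => E'.ord.map_one
  have hx1 : ∀ E' : Place K, 0 < E'.ord x → (0 : WithTop ℤ) ≤ ((oz E' x : ℤ) : WithTop ℤ) := by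
    intro E' h'
    rw [coe_oz E' hx]
    exact h'.le
  -- `c` is regular
  have hcreg : RegLoc x c := by
    intro E' h'
    by_cases hEE : E' = E
    · subst hEE
      have h1 : 0 ≤ E'.ord ((x * h)⁻¹) := by
        rw [ord_inv E' hxh]
        exact_mod_cast (by omega : (0 : ℤ) ≤ -oz E' (x * h))
      have h2 := nonneg_add (hNtop.trans hcE) h1
      rwa [sub_add_cancel] at h2
    · exact hNtop.trans (hcE' E' h' hEE)
  have hu1' : 0 ≤ E.ord (u - 1) := (hx1 E hE).trans hu1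
  have hureg : RegLoc x u := by
    intro E' h'
    by_cases hEE : E' = E
    · subst hEE
      have h2 := nonneg_add hu1' (hone E').ge
      rwa [sub_add_cancel] at h2
    · exact (hx1 E' h').trans (hu2 E' h' hEE)
  have hreg2 : RegLoc x ((u ^ 2 - u) / x) := by
    intro E' h'
    have e1 : u ^ 2 - u = (u - 1) * u := by ring
    rw [e1]
    apply tame_div hx
    by_cases hEE : E' = E
    · subst hEE
      have h1 := tame_le_mul (a := oz E' x) (b := 0) hu1 (by exact_mod_cast hureg E' h')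
      rwa [add_zero] at h1
    · have h1 := tame_le_mul (a := 0) (b := oz E' x) (f := u - 1) (g := u) (by exact_mod_cast nonneg_sub (hureg E' h') (hone E').ge) (hu2 E' h' hEE)
      rwa [zero_add] at h1
  have htr : RegLoc x (((Algebra.trace L K u : L) : K) / x) := by
    have e1 : u = (⟨x, hL.mem⟩ : L) • (h * c) := by
      rw [hu, mul_assoc]
      rfl
    have e2 : ((Algebra.trace L K u : L) : K) = x * ((Algebra.trace L K (h * c) : L) : K) := by
      rw [e1, map_smul]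
      rfl
    rw [e2, mul_div_cancel_left₀ _ hx]
    exact hh c hcreg
  have hfin := trace_idem hK hL hw hureg hreg2 htr E hE
  have hupos : 0 < E.ord u := by
    have e1 : u = u / x * x := by rw [div_mul_cancel₀ _ hx]
    rw [e1, mul_comm]
    exact pos_mul hE hfin
  have hu1pos : 0 < E.ord (u - 1) := by
    refine lt_of_lt_of_le ?_ hu1
    exact_mod_cast he
  have h3 := pos_sub hupos hu1pos
  rw [sub_sub_cancel, hone E] at h3
  exact lt_irrefl _ h3

theorem exists_dual [FiniteDimensional L K] (w : Module.Basis (Fin n) L K) :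
    ∃ v : Module.Basis (Fin n) L K, ∀ i f, Algebra.trace L K (v i * f) = w.repr f i := by
  classical
  have : CharZero L := charZero_of_injective_algebraMap (algebraMap ℂ L).injective
  refine ⟨(Algebra.traceForm L K).dualBasis (traceForm_nondegenerate L K) w, fun i f => ?_⟩
  have h1 : ∀ j, Algebra.trace L K ((Algebra.traceForm L K).dualBasis (traceForm_nondegenerate L K) w i * w j) = if j = i then 1 else 0 := by
    intro j
    have h2 := LinearMap.BilinForm.apply_dualBasis_left (B := Algebra.traceForm L K) (traceForm_nondegenerate L K) w i j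
    rwa [Algebra.traceForm_apply] at h2
  conv_lhs => rw [← w.sum_repr f]
  rw [Finset.mul_sum, map_sum]
  have h3 : ∀ j, Algebra.trace L K ((Algebra.traceForm L K).dualBasis (traceForm_nondegenerate L K) w i * (w.repr f j • w j)) = w.repr f j * if j = i then 1 else 0 := by
    intro j
    rw [mul_smul_comm, map_smul, h1 j, smul_eq_mul]
  rw [Finset.sum_congr rfl fun j _ => h3 j]
  simp

end Pool.Agent.H13.CV

end
end

section

/-!
# HE F Fro: the data from the hypotheses of the final theorem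
-/

set_option autoImplicit false

open Topology Filter Metric

namespace Pool.Agent.HE

open Pool.Agent.H17 (PN VanishesAt HolomorphicInto puncturedDisc)
open Pool.Agent.H36.BP (EN fs wd)
open Pool.Agent.H62.EF (MN pr)
open Pool.Agent.AD (Vd)
open Pool.Agent.TG (Lat)
open Pool.Agent.G3 (LLift)
open Pool.Agent.PXF (Cn IsSimple HolomorphicIntoTorus)
open Pool.Agent.HEF

variable {N k q r κ e : ℕ} {Λ : AddSubgroup (Vd (k + 1))}

/-- the form as a function -/
noncomputable def fn (F : Vd (k + 1) → MvPolynomial (Fin (N + 1)) ℂ) (p : Vd (k + 1) × EN N) : ℂ := MvPolynomial.eval p.2.ofLp (F p.1)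

theorem eval_smul' {n : ℕ} {P : MvPolynomial (Fin (N + 1)) ℂ} (hP : P.IsHomogeneous n) (c : ℂ) (x : Fin (N + 1) → ℂ) : MvPolynomial.eval (c • x) P = c ^ n * MvPolynomial.eval x P := by
  classical
  rw [MvPolynomial.eval_eq', MvPolynomial.eval_eq', Finset.mul_sum]
  refine Finset.sum_congr rfl fun α hα => ?_
  have h1 := hP (MvPolynomial.mem_support_iff.1 hα)
  have h2 : Finsupp.weight (1 : Fin (N + 1) → ℕ) α = Finsupp.degree α := (congrFun (congrArg DFunLike.coe (Finsupp.degree_eq_weight_one (σ := Fin (N + 1)) (R := ℕ))) α).symm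
  have h3 : ∏ i, (c • x) i ^ α i = c ^ n * ∏ i, x i ^ α i := by
    simp only [Pi.smul_apply, smul_eq_mul, mul_pow]
    rw [Finset.prod_mul_distrib, Finset.prod_pow_eq_pow_sum]
    congr 2
    rw [← h1, h2, Finsupp.degree_eq_sum]
  rw [h3]
  ring

/-- zeros in terms of representatives -/
theorem van_mk {n : ℕ} {P : MvPolynomial (Fin (N + 1)) ℂ} (hP : P.IsHomogeneous n) {x : Fin (N + 1) → ℂ} (hx : x ≠ 0) : VanishesAt P (Projectivization.mk ℂ x hx) ↔ MvPolynomial.eval x P = 0 := by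
  obtain ⟨a, ha⟩ := Projectivization.exists_smul_eq_mk_rep ℂ x hx
  unfold VanishesAt
  rw [← ha]
  have h1 : MvPolynomial.eval ((a : ℂ) • x) P = (a : ℂ) ^ n * MvPolynomial.eval x P := eval_smul' hP _ _
  have h2 : (a • x : Fin (N + 1) → ℂ) = (a : ℂ) • x := rfl
  rw [h2, h1, mul_eq_zero, or_iff_right (pow_ne_zero _ a.ne_zero)]

theorem fn_hom {U : Set (Vd (k + 1))} {F : Vd (k + 1) → MvPolynomial (Fin (N + 1)) ℂ} {d : ℕ} (hF : IsHolomorphicForm U F d) {y : Vd (k + 1)} (hy : y ∈ U) (c : ℂ) (x : EN N) :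
    fn F (y, c • x) = c ^ d * fn F (y, x) := eval_smul' (hF.homogeneous y hy) c x.ofLp

theorem fn_diff {U : Set (Vd (k + 1))} {F : Vd (k + 1) → MvPolynomial (Fin (N + 1)) ℂ} {d : ℕ} (hF : IsHolomorphicForm U F d) : DifferentiableOn ℂ (fn F) (U ×ˢ Set.univ) := by
  classical
  have h1 : ∀ p ∈ U ×ˢ (Set.univ : Set (EN N)), fn F p = ∑ α ∈ Finset.finsuppAntidiag (Finset.univ : Finset (Fin (N + 1))) d, (F p.1).coeff α * ∏ i, p.2.ofLp i ^ α i := by
    rintro ⟨y, x⟩ ⟨hy, -⟩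
    unfold fn
    simp only
    rw [MvPolynomial.eval_eq']
    refine Finset.sum_subset (fun α hα => ?_) fun α _ hα => ?_
    · rw [Finset.mem_finsuppAntidiag]
      have h2 := hF.homogeneous y hy (MvPolynomial.mem_support_iff.1 hα)
      have h3 : Finsupp.weight (1 : Fin (N + 1) → ℕ) α = Finsupp.degree α := (congrFun (congrArg DFunLike.coe (Finsupp.degree_eq_weight_one (σ := Fin (N + 1)) (R := ℕ))) α).symm
      exact ⟨by rw [← h2, h3, Finsupp.degree_eq_sum], Finset.subset_univ _⟩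
    · rw [MvPolynomial.notMem_support_iff.1 hα, zero_mul]
  refine DifferentiableOn.congr ?_ h1
  refine DifferentiableOn.fun_sum fun α _ => DifferentiableOn.mul ?_ ?_
  · exact (hF.holomorphic α).comp differentiable_fst.differentiableOn fun p hp => hp.1
  · have h2 : ∀ i, Differentiable ℂ fun p : Vd (k + 1) × EN N => p.2.ofLp i := by
      intro i
      have h3 : Differentiable ℂ fun x : EN N => x.ofLp i := (EuclideanSpace.proj i : EN N →L[ℂ] ℂ).differentiable
      exact h3.comp differentiable_snd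
    have h4 : ∀ T : Finset (Fin (N + 1)), Differentiable ℂ fun p : Vd (k + 1) × EN N => ∏ i ∈ T, p.2.ofLp i ^ α i := by
      intro T
      induction T using Finset.induction_on with
      | empty => simp
      | insert a T ha ih =>
        have h5 : (fun p : Vd (k + 1) × EN N => ∏ i ∈ insert a T, p.2.ofLp i ^ α i) = fun p => p.2.ofLp a ^ α a * ∏ i ∈ T, p.2.ofLp i ^ α i := funext fun p => Finset.prod_insert ha
        rw [h5]
        exact ((h2 a).pow (α a)).mul ih
    exact (h4 _).differentiableOn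

/-- the cone of `X` -/
def cX (Λ : AddSubgroup (Vd (k + 1))) (X : Set ((Cn (k + 1) ⧸ Λ) × PN N)) : Set (Vd (k + 1) × EN N) :=
  {p | ∀ h : p.2.ofLp ≠ 0, ((p.1 : Cn (k + 1) ⧸ Λ), Projectivization.mk ℂ p.2.ofLp h) ∈ X}

/-- the preimage of `S` -/
def cS (Λ : AddSubgroup (Vd (k + 1))) (S : Set (Cn (k + 1) ⧸ Λ)) : Set (Vd (k + 1)) := {y | (y : Cn (k + 1) ⧸ Λ) ∈ S}

theorem cls_add {y l : Vd (k + 1)} (hl : l ∈ Λ) : ((y + l : Vd (k + 1)) : Cn (k + 1) ⧸ Λ) = (y : Cn (k + 1) ⧸ Λ) := by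
  rw [eq_comm, QuotientAddGroup.eq]
  simpa using hl

theorem cX_closed {X : Set ((Cn (k + 1) ⧸ Λ) × PN N)} (hX : IsAnalytic Λ X) : IsClosed (cX Λ X) := by
  rw [← isOpen_compl_iff, isOpen_iff_mem_nhds]
  rintro ⟨y₀, x₀⟩ hp
  have h0 : ∃ h : x₀.ofLp ≠ 0, ((y₀ : Cn (k + 1) ⧸ Λ), Projectivization.mk ℂ x₀.ofLp h) ∉ X := by
    by_contra hcon
    push Not at hcon
    exact hp hcon
  obtain ⟨h0, h1⟩ := h0
  obtain ⟨ρ, s, G, d, hρ, hG, hX⟩ := hX y₀
  rw [hX y₀ (mem_ball_self hρ)] at h1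
  push Not at h1
  obtain ⟨i, hi⟩ := h1
  rw [van_mk ((hG i).homogeneous y₀ (mem_ball_self hρ))] at hi
  have h2 : ContinuousAt (fn (G i)) (y₀, x₀) := by
    refine ((fn_diff (hG i)).continuousOn).continuousAt ?_
    exact (isOpen_ball.prod isOpen_univ).mem_nhds ⟨mem_ball_self hρ, Set.mem_univ _⟩
  have h3 : ∀ᶠ p in 𝓝 (y₀, x₀), fn (G i) p ≠ 0 := h2.eventually_ne hi
  have h4 : ∀ᶠ p : Vd (k + 1) × EN N in 𝓝 (y₀, x₀), p.1 ∈ ball y₀ ρ := continuousAt_fst.eventually (isOpen_ball.mem_nhds (mem_ball_self hρ))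
  have h5 : ∀ᶠ p : Vd (k + 1) × EN N in 𝓝 (y₀, x₀), p.2 ≠ 0 := by
    have h6 : x₀ ≠ 0 := by
      rintro rfl
      exact h0 rfl
    exact continuousAt_snd.eventually_ne h6
  filter_upwards [h3, h4, h5] with p h6 h7 h8 h9
  have h10 := h9 (ofLp_ne h8)
  rw [hX p.1 h7] at h10
  have h11 := h10 i
  rw [van_mk ((hG i).homogeneous p.1 h7)] at h11
  exact h6 h11

theorem cX_per {X : Set ((Cn (k + 1) ⧸ Λ) × PN N)} {l : Vd (k + 1)} (hl : l ∈ Λ) {y : Vd (k + 1)} {x : EN N} (h : (y, x) ∈ cX Λ X) : (y + l, x) ∈ cX Λ X := by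
  intro h'
  show (((y + l : Vd (k + 1)) : Cn (k + 1) ⧸ Λ), Projectivization.mk ℂ x.ofLp h') ∈ X
  rw [cls_add hl]
  exact h h'

theorem cX_smul {X : Set ((Cn (k + 1) ⧸ Λ) × PN N)} (c : ℂ) {y : Vd (k + 1)} {x : EN N} (h : (y, x) ∈ cX Λ X) : (y, c • x) ∈ cX Λ X := by
  intro h'
  have hc : c ≠ 0 := by
    rintro rfl
    exact h' (by rw [zero_smul]; rfl)
  have hx : x.ofLp ≠ 0 := by
    intro h1
    apply h'
    show c • x.ofLp = 0
    rw [h1, smul_zero]
  have h2 : Projectivization.mk ℂ (c • x).ofLp h' = Projectivization.mk ℂ x.ofLp hx := by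
    rw [Projectivization.mk_eq_mk_iff']
    exact ⟨c, rfl⟩
  show ((y : Cn (k + 1) ⧸ Λ), Projectivization.mk ℂ (c • x).ofLp h') ∈ X
  rw [h2]
  exact h hx

theorem cS_closed {S : Set (Cn (k + 1) ⧸ Λ)} (hS : IsAnalyticIn Λ S) : IsClosed (cS Λ S) := by
  rw [← isOpen_compl_iff, isOpen_iff_mem_nhds]
  intro y₀ hy₀
  obtain ⟨s, f, hf, h1⟩ := hS y₀
  have h2 := h1.self_of_nhds
  have h3 : ¬ ∀ i, f i y₀ = 0 := fun h => hy₀ (h2.2 h)
  push Not at h3
  obtain ⟨i, hi⟩ := h3
  filter_upwards [h1, (hf i).continuousAt.eventually_ne hi] with y h4 h5 h6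
  exact h5 (h4.1 h6 i)

theorem cS_an {S : Set (Cn (k + 1) ⧸ Λ)} (hS : IsAnalyticIn Λ S) : Pool.Agent.G4.AnOff ∅ (cS Λ S) := by
  intro y₀ _
  obtain ⟨s, f, hf, h1⟩ := hS y₀
  refine ⟨s, fun y i => f i y, analyticAt_pi_iff.2 hf, ?_⟩
  filter_upwards [h1] with y hy
  refine Iff.trans hy ⟨fun h => funext h, fun h i => congrFun h i⟩

theorem cS_iso (hΛ : Lat Λ) {S : Set (Cn (k + 1) ⧸ Λ)} (hS : IsAnalyticIn Λ S)
    (h : (IsSimple Λ ∧ S ≠ Set.univ) ∨ ∀ a y : Cn (k + 1), a ≠ 0 → ∃ z : ℂ, ((y + z • a : Cn (k + 1)) : Cn (k + 1) ⧸ Λ) ∉ S) {a : Vd (k + 1)} (ha : a ≠ 0) (y : Vd (k + 1)) :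
    ∀ᶠ z in 𝓝[≠] (0 : ℂ), y + z • a ∉ cS Λ S := by
  rcases h with ⟨h1, h2⟩ | h
  · obtain ⟨t, ht⟩ := (Set.ne_univ_iff_exists_notMem S).1 h2
    obtain ⟨y₀, rfl⟩ := QuotientAddGroup.mk_surjective t
    have h3 := Pool.Agent.G4.ldi_of hΛ (Pool.Agent.G4.simp_of_span h1) (cS_an hS) (fun y hy l hl => by
      show ((y + l : Vd (k + 1)) : Cn (k + 1) ⧸ Λ) ∈ S
      rw [cls_add hl]
      exact hy) (y₀ := y₀) ht a ha y 0
    filter_upwards [h3] with z hz
    rwa [add_comm y]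
  · by_contra hcon
    have h1 : ∃ᶠ w in 𝓝[≠] (0 : ℂ), w • a + y ∈ cS Λ S := by
      intro h2
      refine hcon ?_
      filter_upwards [h2] with z hz
      rwa [add_comm y]
    have h2 := Pool.Agent.G4.along isClosed_empty (cS_an hS) (fun z => Eventually.of_forall fun _ h => h) (z₀ := 0) (fun h => h) h1
    obtain ⟨z, hz⟩ := h a y ha
    apply hz
    have h3 := h2 z fun h => h
    rw [add_comm y]
    exact h3

end Pool.Agent.HE

end

section

/-!
# HE F FroB: the data from the hypotheses of the final theorem: the structure `HD`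
-/

set_option autoImplicit false

open Topology Filter Metric

namespace Pool.Agent.HE

open Pool.Agent.H17 (PN VanishesAt HolomorphicInto puncturedDisc)
open Pool.Agent.H36.BP (EN fs wd)
open Pool.Agent.H62.EF (MN pr)
open Pool.Agent.AD (Vd)
open Pool.Agent.TG (Lat)
open Pool.Agent.G3 (wt LLift)
open Pool.Agent.PXF (Cn IsSimple HolomorphicIntoTorus)
open Pool.Agent.HEF

variable {N k q r : ℕ} {Λ : AddSubgroup (Vd (k + 1))}

/-- weights with more summands -/
theorem pad {r R : ℕ} (hr : r ≤ R) (W : Fin r → Vd (k + 1) →L[ℂ] ℂ) : ∃ W' : Fin R → Vd (k + 1) →L[ℂ] ℂ, (∀ y, wt W' y = wt W y) ∧ ∀ y, (∀ s, W' s y = 0) → ∀ s, W s y = 0 := by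
  refine ⟨fun s => if h : (s : ℕ) < r then W ⟨s, h⟩ else 0, fun y => ?_, fun y h s => ?_⟩
  · unfold wt
    set G : ℕ → ℝ := fun s => if h : s < r then ‖W ⟨s, h⟩ y‖ ^ 2 else 0 with hG
    have h1 : ∀ s : Fin R, ‖(if h : (s : ℕ) < r then W ⟨s, h⟩ else 0 : Vd (k + 1) →L[ℂ] ℂ) y‖ ^ 2 = G s := by
      intro s
      rw [hG]
      simp only
      split_ifs with h
      · rfl
      · simp
    have h2 : ∀ s : Fin r, ‖W s y‖ ^ 2 = G s := by
      intro s
      rw [hG]
      simp only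
      rw [dif_pos s.2]
    rw [Finset.sum_congr rfl fun s _ => h1 s, Finset.sum_congr rfl fun s _ => h2 s, ← Finset.sum_range, ← Finset.sum_range]
    symm
    refine Finset.sum_subset (Finset.range_mono hr) fun s _ hs => ?_
    rw [Finset.mem_range] at hs
    rw [hG]
    simp only
    rw [dif_neg hs]
  · have h1 := h ⟨s, s.2.trans_le hr⟩
    beta_reduce at h1
    rw [dif_pos s.2] at h1
    exact h1

theorem per_of {F : Vd (k + 1) → MvPolynomial (Fin (N + 1)) ℂ} {W : Fin r → Vd (k + 1) →L[ℂ] ℂ} (h : IsSection Λ F W) {l : Vd (k + 1)} (hl : l ∈ Λ) (y : Vd (k + 1)) :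
    ∃ e : ℂ, ‖e‖ * Real.exp (-wt W (y + l)) = Real.exp (-wt W y) ∧ ∀ x : EN N, fn F (y + l, x) = e * fn F (y, x) := by
  obtain ⟨e, he, h1⟩ := h.quasiPeriodic l hl y
  refine ⟨e, ?_, fun x => ?_⟩
  · rw [he, ← Real.exp_add]
    unfold wt
    congr 1
    ring
  · unfold fn
    simp only
    rw [h1, map_mul, MvPolynomial.eval_C]

theorem minor_le (x v : EN N) (i j : Fin (N + 1)) : ‖x i * v j - x j * v i‖ ≤ wd x v := by
  by_cases hij : i = j
  · subst hij
    rw [mul_comm, sub_self, norm_zero]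
    exact Pool.Agent.H36.BP.wd_nonneg x v
  · have h1 := Pool.Agent.H36.BP.gram_proj (a := EuclideanSpace.single i (1 : ℂ)) (b := EuclideanSpace.single j (1 : ℂ)) (by rw [EuclideanSpace.norm_single, norm_one])
      (by rw [EuclideanSpace.norm_single, norm_one]) (by
        rw [EuclideanSpace.inner_single_left, map_one, one_mul]
        exact Pi.single_eq_of_ne (M := fun _ => ℂ) hij _) x v
    simp only [EuclideanSpace.inner_single_left, map_one, one_mul] at h1
    exact h1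

/-- a lift of bounded derivative -/
theorem brody_of {G : ℂ → EN N} (hG : Differentiable ℂ G) (hG0 : ∀ z, G z ≠ 0) {L : ℝ} (hL : ∀ z, fs (G z) (deriv G z) ≤ L) :
    IsBrodyCurve fun z => Projectivization.mk ℂ (G z).ofLp (ofLp_ne (hG0 z)) := by
  have hd : ∀ z, HasDerivAt (fun z => (G z).ofLp) (deriv G z).ofLp z := by
    intro z
    exact ((PiLp.continuousLinearEquiv 2 ℂ (fun _ : Fin (N + 1) => ℂ)).toContinuousLinearMap.hasFDerivAt (x := G z)).comp_hasDerivAt z (hG z).hasDerivAt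
  refine ⟨fun z => (G z).ofLp, L, fun z => (hd z).differentiableAt, fun z => ⟨⟨ofLp_ne (hG0 z), rfl⟩, fun i j => ?_⟩⟩
  rw [(hd z).deriv]
  refine (minor_le (G z) (deriv G z) i j).trans ?_
  have h4 : wd (G z) (deriv G z) = fs (G z) (deriv G z) * ‖G z‖ ^ 2 := by
    unfold fs
    rw [div_mul_cancel₀]
    exact pow_ne_zero _ (norm_ne_zero_iff.2 (hG0 z))
  rw [h4, EuclideanSpace.norm_sq_eq]
  exact mul_le_mul_of_nonneg_right (hL z) (Finset.sum_nonneg fun i _ => by positivity)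

/-- `HD` from the hypotheses of the final theorem and the condition on sections -/
theorem hd_of0 (hΛ : Lat Λ) {X : Set ((Cn (k + 1) ⧸ Λ) × PN N)} {F : Fin q → Cn (k + 1) → MvPolynomial (Fin (N + 1)) ℂ} {S : Set (Cn (k + 1) ⧸ Λ)} (hXan : IsAnalytic Λ X) (hsect : ∀ j, IsSemipositive Λ (F j))
    (hspec : IsAnalyticIn Λ S) (hline : (IsSimple Λ ∧ S ≠ Set.univ) ∨ ∀ a y : Cn (k + 1), a ≠ 0 → ∃ z : ℂ, ((y + z • a : Cn (k + 1)) : Cn (k + 1) ⧸ Λ) ∉ S)
    (hfib : ∀ y : Cn (k + 1), (y : Cn (k + 1) ⧸ Λ) ∉ S → HasHyperbolicFibre Λ X F y)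
    (hno : ∀ (y a : Vd (k + 1)), a ≠ 0 → ∀ g : ℂ → MN N, (∀ z : ℂ, y + z • a ∉ cS Λ S → LLift g z) → (∀ z : ℂ, y + z • a ∉ cS Λ S → ∀ x : EN N, x ≠ 0 → pr x = g z → (y + z • a, x) ∈ cX Λ X) →
      (∀ j, (∀ z : ℂ, y + z • a ∉ cS Λ S → ∀ x : EN N, x ≠ 0 → pr x = g z → fn (F j) (y + z • a, x) = 0) ∨ ∀ z : ℂ, y + z • a ∉ cS Λ S → ∀ x : EN N, x ≠ 0 → pr x = g z → fn (F j) (y + z • a, x) ≠ 0) →
      (∃ (𝒰 : Ultrafilter ℕ) (w : ℕ → ℂ → EN N) (h : ℕ → ℂ → Vd (k + 1)), LS (cX Λ X) (fun j => fn (F j)) (cS Λ S) y a 𝒰 w h g) →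
      ∃ j, IsAmple Λ (F j) ∧ ¬ ∀ z : ℂ, y + z • a ∉ cS Λ S → ∀ x : EN N, x ≠ 0 → pr x = g z → fn (F j) (y + z • a, x) = 0) :
    ∃ (r : ℕ) (W : Fin q → Fin r → Vd (k + 1) →L[ℂ] ℂ) (d : Fin q → ℕ), HD Λ (cS Λ S) (cX Λ X) (fun j => fn (F j)) d W := by
  classical
  -- the weights
  have h1 : ∀ j, ∃ (r : ℕ) (W : Fin r → Vd (k + 1) →L[ℂ] ℂ), IsSection Λ (F j) W ∧ (IsAmple Λ (F j) → ∀ y, (∀ s, W s y = 0) → y = 0) := by
    intro j
    by_cases hj : IsAmple Λ (F j)
    · obtain ⟨r, W, h2, h3⟩ := hj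
      exact ⟨r, W, h3, fun _ => h2⟩
    · obtain ⟨r, W, h3⟩ := hsect j
      exact ⟨r, W, h3, fun h => absurd h hj⟩
  choose r W hW hpos using h1
  obtain ⟨R, hR⟩ : ∃ R, ∀ j, r j ≤ R := ⟨∑ j, r j, fun j => Finset.single_le_sum (f := r) (fun _ _ => Nat.zero_le _) (Finset.mem_univ j)⟩
  have h2 : ∀ j, ∃ W' : Fin R → Vd (k + 1) →L[ℂ] ℂ, (∀ y, wt W' y = wt (W j) y) ∧ ∀ y, (∀ s, W' s y = 0) → ∀ s, W j s y = 0 := fun j => pad (hR j) (W j)
  choose W' hW' hW'' using h2
  have h3 : ∀ j, ∃ d, 0 < d ∧ IsHolomorphicForm Set.univ (F j) d := fun j => (hW j).form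
  choose d hd0 hd using h3
  have hSinv : ∀ y ∈ cS Λ S, ∀ l ∈ Λ, y + l ∈ cS Λ S := by
    intro y hy l hl
    show ((y + l : Vd (k + 1)) : Cn (k + 1) ⧸ Λ) ∈ S
    rw [cls_add hl]
    exact hy
  refine ⟨R, W', d, ⟨hΛ, cX_closed hXan, fun l hl y x h => cX_per hl h, fun c y x h => cX_smul c h, fun j => ?_, hd0, fun j c y x => fn_hom (hd j) (Set.mem_univ y) c x, fun j l hl y => ?_, cS_closed hspec, hSinv,
    fun a ha y => cS_iso hΛ hspec hline ha y, fun y a ha g hl hX hs hLS => ?_, fun y₀ hy₀ => ?_⟩⟩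
  · have h4 := fn_diff (hd j)
    rw [Set.univ_prod_univ, differentiableOn_univ] at h4
    exact h4
  · rw [hW', hW']
    exact per_of (hW j) hl y
  · -- the sections
    obtain ⟨j, hj, hv⟩ := hno y a ha g hl hX hs hLS
    exact ⟨j, fun y' h4 => hpos j hj y' (hW'' j y' h4), hv⟩
  · -- the pieces
    obtain ⟨ρ, m, Q, e, hρ, hQ, hQF, hgp⟩ := hfib y₀ hy₀
    have hy₀b : y₀ ∈ ball y₀ ρ := mem_ball_self hρ
    refine ⟨m, fun s => fn (Q s), e, ρ, ⟨hρ, fun s => fn_diff (hQ s), fun s y hy c x => fn_hom (hQ s) hy c x, fun s y hy x hx hxX hF h4 => ?_, fun G hG hG0 hGX hL hs z w => ?_⟩⟩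
    · obtain ⟨j, hj⟩ := hQF s y hy (Projectivization.mk ℂ x.ofLp (ofLp_ne hx)) (hxX (ofLp_ne hx)) (by
        rw [van_mk ((hQ s).homogeneous y hy)]
        exact h4)
      rw [van_mk ((hd j).homogeneous y (Set.mem_univ y))] at hj
      exact hF j hj
    · obtain ⟨L, hL⟩ := hL
      have hv : ∀ s z, VanishesAt (Q s y₀) (Projectivization.mk ℂ (G z).ofLp (ofLp_ne (hG0 z))) ↔ fn (Q s) (y₀, G z) = 0 := fun s z => van_mk ((hQ s).homogeneous y₀ hy₀b) (ofLp_ne (hG0 z))
      have h5 := hgp _ (brody_of hG hG0 hL) (fun z => hGX z (ofLp_ne (hG0 z))) (fun s => by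
        rcases hs s with h6 | h6
        · exact Or.inl fun z => (hv s z).2 (h6 z)
        · exact Or.inr fun z h7 => h6 z ((hv s z).1 h7)) z w
      rw [Projectivization.mk_eq_mk_iff'] at h5
      obtain ⟨c, hc⟩ := h5
      refine ⟨c, ?_⟩
      ext i
      exact (congrFun hc i).symm

/-- the hypotheses without the condition on sections, with the bound for discs -/
structure IsHyp (Λ : AddSubgroup (Vd (k + 1))) (X : Set ((Cn (k + 1) ⧸ Λ) × PN N)) (F : Fin q → Cn (k + 1) → MvPolynomial (Fin (N + 1)) ℂ) (S : Set (Cn (k + 1) ⧸ Λ)) : Prop where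
  analytic : IsAnalytic Λ X
  sections : ∀ j, IsSemipositive Λ (F j)
  special : IsAnalyticIn Λ S
  noLines : (IsSimple Λ ∧ S ≠ Set.univ) ∨ ∀ a y : Cn (k + 1), a ≠ 0 → ∃ z : ℂ, ((y + z • a : Cn (k + 1)) : Cn (k + 1) ⧸ Λ) ∉ S
  fibres : ∀ y : Cn (k + 1), (y : Cn (k + 1) ⧸ Λ) ∉ S → HasHyperbolicFibre Λ X F y
  overSpecial : ∀ y₀ : Cn (k + 1), (y₀ : Cn (k + 1) ⧸ Λ) ∈ S → ∃ κ e, 0 < e ∧ ∀ᶠ y : Cn (k + 1) in 𝓝 y₀, (y : Cn (k + 1) ⧸ Λ) ∉ S → HasHypersurfaces Λ X F κ e y
  bound : ∃ C : ℝ, 0 < C ∧ ∀ (w : ℂ → EN N) (h : ℂ → Vd (k + 1)), Cw (cX Λ X) (fun j => fn (F j)) (ball 0 1) w h → ‖deriv h 0‖ ≤ C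

/-- long curves near a line contradict the bound -/
theorem no_ls {X : Set (Vd (k + 1) × EN N)} {F : Fin q → Vd (k + 1) × EN N → ℂ} {D : Set (Vd (k + 1))} {C : ℝ}
    (hb : ∀ (w : ℂ → EN N) (h : ℂ → Vd (k + 1)), Cw X F (ball 0 1) w h → ‖deriv h 0‖ ≤ C) {y a : Vd (k + 1)} (ha : a ≠ 0) {𝒰 : Ultrafilter ℕ} {w : ℕ → ℂ → EN N} {h : ℕ → ℂ → Vd (k + 1)} {g : ℂ → MN N}
    (S : LS X F D y a 𝒰 w h g) : False := by
  have ha0 : 0 < ‖a‖ := norm_pos_iff.2 ha
  have hC : 0 ≤ |C| := abs_nonneg C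
  obtain ⟨R, hR⟩ : ∃ R : ℝ, R = 2 * (|C| + 1) / ‖a‖ + 2 := ⟨_, rfl⟩
  have hR2 : 2 ≤ R := by
    rw [hR]
    have : 0 ≤ 2 * (|C| + 1) / ‖a‖ := by positivity
    linarith
  have hR0 : 0 < R := by linarith
  have h1 : ∀ᶠ n in (𝒰 : Filter ℕ), ‖deriv (h n) 0‖ ≤ C / R := by
    filter_upwards [S.cv R] with n hn
    have hA : ∀ ζ : ℂ, HasDerivAt (fun ζ : ℂ => (R : ℂ) * ζ) (R : ℂ) ζ := by
      intro ζ
      simpa using (hasDerivAt_id ζ).const_mul (R : ℂ)
    have hm : Set.MapsTo (fun ζ : ℂ => (R : ℂ) * ζ) (ball 0 1) (ball 0 R) := by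
      intro ζ hζ
      rw [mem_ball_zero_iff] at hζ ⊢
      rw [norm_mul, Complex.norm_real, Real.norm_of_nonneg hR0.le]
      nlinarith
    have h2 := hb _ _ (hn.comp (fun ζ _ => (hA ζ).differentiableAt.differentiableWithinAt) hm)
    have h3 : HasDerivAt (fun ζ : ℂ => h n ((R : ℂ) * ζ)) ((R : ℂ) • deriv (h n) 0) 0 := by
      have h4 : HasDerivAt (h n) (deriv (h n) 0) ((R : ℂ) * 0) := by
        rw [mul_zero]
        exact (hn.h_diff.differentiableAt (isOpen_ball.mem_nhds (mem_ball_self hR0))).hasDerivAt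
      exact h4.scomp (0 : ℂ) (hA 0)
    rw [h3.deriv, norm_smul, Complex.norm_real, Real.norm_of_nonneg hR0.le] at h2
    rw [le_div_iff₀ hR0]
    linarith
  have h2 : ∀ᶠ n in (𝒰 : Filter ℕ), ‖deriv (h n) 0 - a‖ ≤ ‖a‖ / 2 := by
    filter_upwards [S.cv 2, S.hh 1 (‖a‖ / 2) (by positivity)] with n hn h3
    have hd : DifferentiableOn ℂ (fun z => h n z - (y + z • a)) (ball 0 2) :=
      hn.h_diff.sub (by fun_prop)
    have h4 : ‖deriv (fun z => h n z - (y + z • a)) 0‖ ≤ (‖a‖ / 2) / 1 := by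
      refine Complex.norm_deriv_le_of_forall_mem_sphere_norm_le one_pos ?_ fun z hz => ?_
      · exact (hd.mono (closedBall_subset_ball (by norm_num))).diffContOnCl_ball subset_rfl
      · exact (h3 z (sphere_subset_closedBall hz)).le
    have h5 : HasDerivAt (fun z : ℂ => h n z - (y + z • a)) (deriv (h n) 0 - a) 0 := by
      have h6 : HasDerivAt (h n) (deriv (h n) 0) 0 := (hn.h_diff.differentiableAt (isOpen_ball.mem_nhds (mem_ball_self two_pos))).hasDerivAt
      have h7 : HasDerivAt (fun z : ℂ => y + z • a) a 0 := by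
        simpa using ((hasDerivAt_id (0 : ℂ)).smul_const a).const_add y
      exact h6.sub h7
    rw [h5.deriv, div_one] at h4
    exact h4
  obtain ⟨n, h3, h4⟩ := (h1.and h2).exists
  have h5 : ‖a‖ ≤ ‖deriv (h n) 0‖ + ‖deriv (h n) 0 - a‖ := by
    have := norm_sub_le (deriv (h n) 0) (deriv (h n) 0 - a)
    rwa [sub_sub_cancel] at this
  have h6 : ‖a‖ / 2 ≤ C / R := by linarith
  rw [le_div_iff₀ hR0] at h6
  have h7 : ‖a‖ / 2 * R = (|C| + 1) + ‖a‖ := by
    rw [hR]
    field_simp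
  have := le_abs_self C
  linarith

theorem hd_of (hΛ : Lat Λ) {X : Set ((Cn (k + 1) ⧸ Λ) × PN N)} {F : Fin q → Cn (k + 1) → MvPolynomial (Fin (N + 1)) ℂ} {S : Set (Cn (k + 1) ⧸ Λ)} (H : IsHyp Λ X F S) :
    ∃ (r : ℕ) (W : Fin q → Fin r → Vd (k + 1) →L[ℂ] ℂ) (d : Fin q → ℕ), HD Λ (cS Λ S) (cX Λ X) (fun j => fn (F j)) d W := by
  obtain ⟨C, -, hC⟩ := H.bound
  exact hd_of0 hΛ H.analytic H.sections H.special H.noLines H.fibres fun y a ha g _ _ _ ⟨𝒰, w, h, S⟩ => (no_ls hC ha S).elim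

end Pool.Agent.HE

end
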