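import Pool.Agent.H94.PX4.H13.CV.MerO
import Pool.Agent.H94.PX4.M28
import Pool.Agent.H94.PX4.M75
import Pool.Agent.H94.PX4.PX.Bas

/-! The parts of this file: H13.CV.HomR, PX.Coef, PX.GoodA, G4.A.Defs, G4.A.GeoC. -/

section

/-!
# CV HomR: homomorphisms into the field of meromorphic functions

`hom_rat`: `K = ℂ(t)`: the elements of `K` are the quotients `p (t) / q (t)`; `IsFractionRing` / `RatFunc.algEquivOfTranscendental` (see `Place_rat` in `Pool/Agent/H62/FC/Place.lean` for the base field `L = ⊥`),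
or `IntermediateField.adjoin` of a transcendental element: `Polynomial ℂ → Mer`, `X ↦ T` is injective, lift it to the fraction field.
`hom_cubic`: `K = ℂ(u)(v)`, `L = ℂ(u)`.  First `φ₀ : L →ₐ[ℂ] Mer` with `φ₀ u = U`.  `1, v` is a basis of `K` over `L`: every element is uniquely `a + b v` (`v² ∈ L`, `v ∉ L`, `K = L(v)`).  Define
`φ (a + b v) = φ₀ a + φ₀ b * V`; or: `IntermediateField.algHomAdjoinIntegralEquiv` / `AdjoinRoot` for the minimal polynomial `X² - (4 u³ - α u - β)` of `v` over `L`, with `Mer` as an `L`-algebra via `φ₀`.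
-/

set_option autoImplicit false

open Topology Filter
open Pool.Agent.H17 Pool.Agent.H17.EntFun

noncomputable section

namespace Pool.Agent.H13.CV

variable {K : Type} [Field K] [Algebra ℂ K]

private theorem hom_rat0 {t : K} (htr : Transcendental ℂ t) {M : Type} [Field M] [Algebra ℂ M] {T : M} (hT : Transcendental ℂ T) :
    ∃ φ : IntermediateField.adjoin ℂ {t} →ₐ[ℂ] M, φ ⟨t, IntermediateField.mem_adjoin_simple_self ℂ t⟩ = T := by
  refine ⟨((IntermediateField.adjoin ℂ {T}).val.comp (RatFunc.algEquivOfTranscendental T hT).toAlgHom).comp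
    (RatFunc.algEquivOfTranscendental t htr).symm.toAlgHom, ?_⟩
  have h1 : (RatFunc.algEquivOfTranscendental t htr).symm ⟨t, IntermediateField.mem_adjoin_simple_self ℂ t⟩ = RatFunc.X := by
    rw [AlgEquiv.symm_apply_eq]
    apply Subtype.ext
    simp
  have h2 : ((RatFunc.algEquivOfTranscendental T hT) RatFunc.X : M) = T := by
    simp
  show ((RatFunc.algEquivOfTranscendental T hT) ((RatFunc.algEquivOfTranscendental t htr).symm
    ⟨t, IntermediateField.mem_adjoin_simple_self ℂ t⟩) : M) = T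
  rw [h1, h2]

theorem hom_rat {t : K} (ht : IntermediateField.adjoin ℂ {t} = ⊤) (htr : Transcendental ℂ t) {T : Mer} (hT : Transcendental ℂ T) :
    ∃ φ : K →ₐ[ℂ] Mer, φ t = T := by
  obtain ⟨φ, hφ⟩ := hom_rat0 htr hT
  refine ⟨(φ.comp (IntermediateField.equivOfEq ht.symm).toAlgHom).comp IntermediateField.topEquiv.symm.toAlgHom, ?_⟩
  rw [← hφ]
  rfl

theorem hom_cubic {u v : K} {α β : ℂ} (h : v ^ 2 = 4 * u ^ 3 - algebraMap ℂ K α * u - algebraMap ℂ K β) (hu : Transcendental ℂ u)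
    (huv : IntermediateField.adjoin ℂ {u, v} = ⊤) (hvu : v ∉ IntermediateField.adjoin ℂ {u}) {U V : Mer} (hU : Transcendental ℂ U)
    (hUV : V ^ 2 = 4 * U ^ 3 - algebraMap ℂ Mer α * U - algebraMap ℂ Mer β) : ∃ φ : K →ₐ[ℂ] Mer, φ u = U ∧ φ v = V := by
  classical
  obtain ⟨L, hL⟩ : ∃ L : IntermediateField ℂ K, L = IntermediateField.adjoin ℂ {u} := ⟨_, rfl⟩
  have huL : u ∈ L := by
    rw [hL]
    exact IntermediateField.mem_adjoin_simple_self ℂ u
  rw [← hL] at hvu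
  obtain ⟨u₀, hu₀⟩ : ∃ u₀ : L, u₀ = ⟨u, huL⟩ := ⟨_, rfl⟩
  obtain ⟨φ₀, h₀⟩ : ∃ φ₀ : L →ₐ[ℂ] Mer, φ₀ u₀ = U := by
    subst hu₀
    subst hL
    exact hom_rat0 hu hU
  letI : Algebra L Mer := φ₀.toRingHom.toAlgebra
  haveI : IsScalarTower ℂ L Mer := IsScalarTower.of_algebraMap_eq' φ₀.comp_algebraMap.symm
  have halg : ∀ a : L, algebraMap L Mer a = φ₀ a := fun a => rfl
  let c : L := 4 * u₀ ^ 3 - algebraMap ℂ L α * u₀ - algebraMap ℂ L β
  have hc : algebraMap L K c = v ^ 2 := by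
    rw [h]
    simp only [c, map_sub, map_mul, map_pow, map_ofNat, ← IsScalarTower.algebraMap_apply]
    rw [hu₀]
    rfl
  have hv : Polynomial.aeval v (Polynomial.X ^ 2 - Polynomial.C c) = 0 := by
    simp [hc]
  have hmon : (Polynomial.X ^ 2 - Polynomial.C c : Polynomial L).Monic := Polynomial.monic_X_pow_sub_C c two_ne_zero
  have hint : IsIntegral L v := ⟨_, hmon, hv⟩
  have hmin : minpoly L v = Polynomial.X ^ 2 - Polynomial.C c := by
    have h1 : minpoly L v ∣ Polynomial.X ^ 2 - Polynomial.C c := minpoly.dvd L v hv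
    have h2 : 2 ≤ (minpoly L v).natDegree := by
      rw [minpoly.two_le_natDegree_iff hint]
      rintro ⟨a, ha⟩
      apply hvu
      rw [← ha]
      exact a.2
    refine (Polynomial.eq_of_monic_of_dvd_of_natDegree_le (minpoly.monic hint) hmon h1 ?_).symm
    rw [Polynomial.natDegree_X_pow_sub_C]
    exact h2
  have htop : IntermediateField.adjoin L {v} = ⊤ := by
    apply IntermediateField.restrictScalars_injective ℂ
    rw [IntermediateField.restrictScalars_top, hL, IntermediateField.adjoin_adjoin_left, ← huv]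
    congr 1
  have hroot : Polynomial.aeval V (minpoly L (IntermediateField.adjoin.powerBasis hint).gen) = 0 := by
    rw [IntermediateField.adjoin.powerBasis_gen, IntermediateField.minpoly_gen, hmin]
    simp only [map_sub, map_pow, Polynomial.aeval_X, Polynomial.aeval_C, halg, c, map_mul, map_ofNat]
    rw [h₀, hUV, φ₀.commutes, φ₀.commutes]
    ring
  let ψ : IntermediateField.adjoin L {v} →ₐ[L] Mer := (IntermediateField.adjoin.powerBasis hint).lift V hroot
  have hψ : ψ (IntermediateField.AdjoinSimple.gen L v) = V := by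
    have := (IntermediateField.adjoin.powerBasis hint).lift_gen V hroot
    rwa [IntermediateField.adjoin.powerBasis_gen] at this
  let e : K →ₐ[L] IntermediateField.adjoin L {v} :=
    (IntermediateField.equivOfEq htop.symm).toAlgHom.comp IntermediateField.topEquiv.symm.toAlgHom
  refine ⟨(ψ.comp e).restrictScalars ℂ, ?_, ?_⟩
  · have h1 : (ψ.comp e) (algebraMap L K u₀) = algebraMap L Mer u₀ := AlgHom.commutes _ _
    rw [halg, h₀, hu₀] at h1
    exact h1
  · exact hψ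

end Pool.Agent.H13.CV

end
end

section

/-!
# PX Coef: the form on the line `t • b + e`; the comparison lemma for functions without zeros

`exists_coef`: binomial theorem.  `no_zero`: `q = B / A` is holomorphic near the closed disc, `‖1 - q‖ < ‖q‖` on the circle, i.e. `1 / 2 < Re q`; maximum principle for `exp (- q)`.
`rt_dt`: the roots near `b`: if `Fo θ y b ≠ 0` every root `x ≠ 0` is a multiple of some `t • b + e`.
-/

set_option autoImplicit false

open Topology Filter Metric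

namespace Pool.Agent.PX

open Pool.Agent.H36.BP (EN fs wd)
open Pool.Agent.H62.EF (MN pr)
open Pool.Agent.AD (Vd)
open Pool.Agent.TG (Lat)
open Pool.Agent.G3 (wt)
open Pool.Agent.G4 (Few)

variable {k d r : ℕ}

/-- the polynomial in `t` of the monomial number `i` at `t • b + e` -/
private noncomputable def mp (d : ℕ) (b e : EN 1) (i : ℕ) : Polynomial ℂ :=
  (Polynomial.C (b 0) * Polynomial.X + Polynomial.C (e 0)) ^ i * (Polynomial.C (b 1) * Polynomial.X + Polynomial.C (e 1)) ^ (d - i)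

private theorem mp_eval (b e : EN 1) (i : ℕ) (t : ℂ) : (mp d b e i).eval t = (t • b + e) 0 ^ i * (t • b + e) 1 ^ (d - i) := by
  simp only [mp, Polynomial.eval_mul, Polynomial.eval_pow, Polynomial.eval_add, Polynomial.eval_C, Polynomial.eval_X, PiLp.add_apply, PiLp.smul_apply, smul_eq_mul]
  rw [mul_comm (b 0), mul_comm (b 1)]

private theorem lin_deg (a c : ℂ) : (Polynomial.C a * Polynomial.X + Polynomial.C c).natDegree ≤ 1 := Polynomial.natDegree_linear_le

private theorem mp_deg (b e : EN 1) {i : ℕ} (hi : i ≤ d) : (mp d b e i).natDegree ≤ d := by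
  unfold mp
  refine Polynomial.natDegree_mul_le.trans ?_
  have h1 : ((Polynomial.C (b 0) * Polynomial.X + Polynomial.C (e 0)) ^ i).natDegree ≤ i := by
    refine Polynomial.natDegree_pow_le.trans ?_
    have := lin_deg (b 0) (e 0)
    nlinarith
  have h2 : ((Polynomial.C (b 1) * Polynomial.X + Polynomial.C (e 1)) ^ (d - i)).natDegree ≤ d - i := by
    refine Polynomial.natDegree_pow_le.trans ?_
    have := lin_deg (b 1) (e 1)
    nlinarith
  omega

private theorem mp_top (b e : EN 1) {i : ℕ} (hi : i ≤ d) : (mp d b e i).coeff d = b 0 ^ i * b 1 ^ (d - i) := by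
  have h1 : ((Polynomial.C (b 0) * Polynomial.X + Polynomial.C (e 0)) ^ i).coeff i = b 0 ^ i := by
    have := Polynomial.coeff_pow_of_natDegree_le (p := Polynomial.C (b 0) * Polynomial.X + Polynomial.C (e 0)) (n := 1) (m := i) (lin_deg _ _)
    simpa using this
  have h2 : ((Polynomial.C (b 1) * Polynomial.X + Polynomial.C (e 1)) ^ (d - i)).coeff (d - i) = b 1 ^ (d - i) := by
    have := Polynomial.coeff_pow_of_natDegree_le (p := Polynomial.C (b 1) * Polynomial.X + Polynomial.C (e 1)) (n := 1) (m := d - i) (lin_deg _ _)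
    simpa using this
  have h3 : ((Polynomial.C (b 0) * Polynomial.X + Polynomial.C (e 0)) ^ i).natDegree ≤ i := by
    refine Polynomial.natDegree_pow_le.trans ?_
    have := lin_deg (b 0) (e 0)
    nlinarith
  have h4 : ((Polynomial.C (b 1) * Polynomial.X + Polynomial.C (e 1)) ^ (d - i)).natDegree ≤ d - i := by
    refine Polynomial.natDegree_pow_le.trans ?_
    have := lin_deg (b 1) (e 1)
    nlinarith
  have h5 := Polynomial.coeff_mul_add_eq_of_natDegree_le h3 h4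
  rw [Nat.add_sub_cancel' hi, h1, h2] at h5
  exact h5

theorem exists_coef {θ : Fin (d + 1) → Vd (k + 1) → ℂ} (han : ∀ i, Differentiable ℂ (θ i)) (b e : EN 1) : ∃ c : Fin d → Vd (k + 1) → ℂ, (∀ i, Differentiable ℂ (c i)) ∧
    ∀ y t, Fo θ y (t • b + e) = Fo θ y b * t ^ d + ∑ i : Fin d, c i y * t ^ (i : ℕ) := by
  refine ⟨fun j y => ∑ i : Fin (d + 1), θ i y * (mp d b e i).coeff (j : ℕ), fun j => ?_, fun y t => ?_⟩
  · exact Differentiable.fun_sum fun i _ => (han i).mul_const _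
  · have h1 : ∀ i : Fin (d + 1), θ i y * (t • b + e) 0 ^ (i : ℕ) * (t • b + e) 1 ^ (d - (i : ℕ)) =
        θ i y * b 0 ^ (i : ℕ) * b 1 ^ (d - (i : ℕ)) * t ^ d + ∑ j : Fin d, θ i y * (mp d b e i).coeff (j : ℕ) * t ^ (j : ℕ) := by
      intro i
      have hi : (i : ℕ) ≤ d := Nat.lt_succ_iff.mp i.2
      rw [mul_assoc, ← mp_eval, Polynomial.eval_eq_sum_range' (Nat.lt_succ_of_le (mp_deg b e hi)), Finset.sum_range_succ, mp_top b e hi, mul_add, add_comm, Finset.sum_range, Finset.mul_sum]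
      congr 1
      · ring
      · exact Finset.sum_congr rfl fun j _ => by ring
    unfold Fo
    rw [Finset.sum_congr rfl fun i _ => h1 i, Finset.sum_add_distrib, ← Finset.sum_mul, Finset.sum_comm]
    congr 1
    exact Finset.sum_congr rfl fun j _ => by rw [Finset.sum_mul]

/-- every root is a multiple of some `t • b + e`, where `b` is not a root -/
theorem rt_dt {θ : Fin (d + 1) → Vd (k + 1) → ℂ} {y : Vd (k + 1)} {b e x : EN 1} (hbe : dt b e ≠ 0) (hb : Fo θ y b ≠ 0) (hx : x ≠ 0) (h : Fo θ y x = 0) :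
    dt b x ≠ 0 ∧ x = (dt b x / dt b e) • ((-(dt e x) / dt b x) • b + e) := by
  have hb0 : b ≠ 0 := by
    rintro rfl
    exact hbe (by simp [dt])
  have h1 : dt b x ≠ 0 := by
    intro h2
    obtain ⟨c, hc⟩ := (dt_eq_zero hb0).mp h2
    have hc0 : c ≠ 0 := by
      rintro rfl
      exact hx (by rw [hc, zero_smul])
    rw [hc, fo_smul] at h
    exact (mul_ne_zero (pow_ne_zero d hc0) hb) h
  refine ⟨h1, ?_⟩
  rw [smul_add, smul_smul, show dt b x / dt b e * (-(dt e x) / dt b x) = -(dt e x) / dt b e by field_simp]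
  ext j
  have h3 : b 0 * e 1 - b 1 * e 0 ≠ 0 := hbe
  fin_cases j
  · simp only [PiLp.add_apply, PiLp.smul_apply, smul_eq_mul, dt, Fin.zero_eta]
    rw [div_mul_eq_mul_div, div_mul_eq_mul_div, ← add_div, eq_div_iff h3]
    ring
  · simp only [PiLp.add_apply, PiLp.smul_apply, smul_eq_mul, dt, Fin.mk_one]
    rw [div_mul_eq_mul_div, div_mul_eq_mul_div, ← add_div, eq_div_iff h3]
    ring

end Pool.Agent.PX

end

section

/-!
# PX GoodA: coordinates on the line, the form as a monic polynomial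
-/

set_option autoImplicit false

open Topology Filter Metric

namespace Pool.Agent.PX

open Pool.Agent.H36.BP (EN fs wd)
open Pool.Agent.H62.EF (MN pr)
open Pool.Agent.AD (Vd)
open Pool.Agent.H56.PR (LFam)

variable {k d r : ℕ}

theorem exists_b {θ : Fin (d + 1) → Vd (k + 1) → ℂ} {p : Vd (k + 1)} (h : ∃ i, θ i p ≠ 0) :
    ∃ b : EN 1, Fo θ p b ≠ 0 := by
  by_contra hcon
  push Not at hcon
  obtain ⟨j, hj⟩ := h
  set q : Polynomial ℂ := ∑ i : Fin (d + 1), Polynomial.C (θ i p) * Polynomial.X ^ (i : ℕ) with hq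
  have h1 : q = 0 := by
    refine Polynomial.funext fun t => ?_
    have h2 := hcon (WithLp.toLp 2 ![t, 1])
    simpa [Fo, hq, Polynomial.eval_finsetSum] using h2
  have h3 : q.coeff (j : ℕ) = θ j p := by
    simp only [hq, Polynomial.finsetSum_coeff, Polynomial.coeff_C_mul, Polynomial.coeff_X_pow]
    rw [Finset.sum_eq_single j]
    · simp
    · intro i _ hij
      have : ¬ (j : ℕ) = (i : ℕ) := fun h => hij (Fin.ext h.symm)
      simp [this]
    · simp
  rw [h1, Polynomial.coeff_zero] at h3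
  exact hj h3.symm

theorem exists_e {b : EN 1} (hb : b ≠ 0) : ∃ e : EN 1, dt b e ≠ 0 := by
  by_cases h0 : b 0 = 0
  · refine ⟨WithLp.toLp 2 ![1, 0], ?_⟩
    have h1 : b 1 ≠ 0 := by
      intro h1
      apply hb
      ext i
      fin_cases i
      · simpa using h0
      · simpa using h1
    simpa [dt] using h1
  · refine ⟨WithLp.toLp 2 ![0, 1], ?_⟩
    simpa [dt] using h0

theorem dt_add (x u v : EN 1) : dt x (u + v) = dt x u + dt x v := by
  simp only [dt, PiLp.add_apply]; ring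

theorem dt_add_left (x u v : EN 1) : dt (u + v) x = dt u x + dt v x := by
  simp only [dt, PiLp.add_apply]; ring

theorem dt_smul (c : ℂ) (x u : EN 1) : dt x (c • u) = c * dt x u := by
  simp only [dt, PiLp.smul_apply, smul_eq_mul]; ring

theorem dt_smul_left (c : ℂ) (x u : EN 1) : dt (c • u) x = c * dt u x := by
  simp only [dt, PiLp.smul_apply, smul_eq_mul]; ring

theorem dt_self (x : EN 1) : dt x x = 0 := by
  simp only [dt]; ring

theorem dt_swap (x u : EN 1) : dt x u = -dt u x := by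
  simp only [dt]; ring

/-- the coefficients of the monic polynomial on the line `t b + e` -/
noncomputable def cf (θ : Fin (d + 1) → Vd (k + 1) → ℂ) (c : Fin d → Vd (k + 1) → ℂ) (b : EN 1)
    (γ : ℂ → Vd (k + 1)) (i : Fin d) (z : ℂ) : ℂ := c i (γ z) / Fo θ (γ z) b

section

variable {θ : Fin (d + 1) → Vd (k + 1) → ℂ} {c : Fin d → Vd (k + 1) → ℂ} {b e : EN 1}
  {γ : ℂ → Vd (k + 1)} {z : ℂ}

theorem fo_pt (hc : ∀ y t, Fo θ y (t • b + e) = Fo θ y b * t ^ d + ∑ i : Fin d, c i y * t ^ (i : ℕ))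
    (hb : Fo θ (γ z) b ≠ 0) (t : ℂ) :
    Fo θ (γ z) (t • b + e) = Fo θ (γ z) b * Pt (cf θ c b γ) z t := by
  rw [hc, Pt, mul_add, Finset.mul_sum]
  congr 1
  refine Finset.sum_congr rfl fun i _ => ?_
  rw [cf]
  field_simp

/-- the derivative on the line -/
theorem deriv_pt (han : ∀ i, Differentiable ℂ (θ i))
    (hc : ∀ y t, Fo θ y (t • b + e) = Fo θ y b * t ^ d + ∑ i : Fin d, c i y * t ^ (i : ℕ))
    (hb : Fo θ (γ z) b ≠ 0) (t : ℂ) :
    Fd θ (γ z) (t • b + e) b = Fo θ (γ z) b * deriv (Pt (cf θ c b γ) z) t := by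
  have h0 : Differentiable ℂ (Fo θ (γ z)) := by
    have h := (fo_diff han).comp
      ((differentiable_const (γ z)).prodMk (differentiable_id : Differentiable ℂ fun x : EN 1 => x))
    exact h
  have h1 : HasDerivAt (fun t : ℂ => t • b + e) b t := by
    have h := ((hasDerivAt_id t).smul_const b).add_const e
    simpa using h
  have h2' := HasFDerivAt.comp_hasDerivAt_of_eq (f := fun t : ℂ => t • b + e) t
    (h0 (t • b + e)).hasFDerivAt h1 rfl
  have h2 : HasDerivAt (fun t : ℂ => Fo θ (γ z) (t • b + e)) (Fd θ (γ z) (t • b + e) b) t := h2'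
  have h3 : (fun t : ℂ => Fo θ (γ z) (t • b + e))
      = fun t => Fo θ (γ z) b * Pt (cf θ c b γ) z t := by
    funext t; exact fo_pt hc hb t
  rw [h3] at h2
  have h4 : DifferentiableAt ℂ (Pt (cf θ c b γ) z) t := by
    have : Pt (cf θ c b γ) z = fun t => (Pol (cf θ c b γ) z).eval t := by
      funext t; rw [eval_Pol]
    rw [this]
    exact (Pol (cf θ c b γ) z).differentiableAt
  have h5 := h4.hasDerivAt.const_mul (Fo θ (γ z) b)
  exact h2.unique h5

theorem line_ne (hbe : dt b e ≠ 0) (t : ℂ) : t • b + e ≠ 0 := by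
  intro h
  have h1 := dt_add b (t • b) e
  rw [h, dt_smul, dt_self, mul_zero, zero_add] at h1
  apply hbe
  rw [← h1]
  simp [dt]

/-- simple roots on the line -/
theorem simple_pt (han : ∀ i, Differentiable ℂ (θ i)) (hbe : dt b e ≠ 0)
    (hc : ∀ y t, Fo θ y (t • b + e) = Fo θ y b * t ^ d + ∑ i : Fin d, c i y * t ^ (i : ℕ))
    (hb : Fo θ (γ z) b ≠ 0)
    (hs : ∀ x : EN 1, x ≠ 0 → Fo θ (γ z) x = 0 → ∃ v, Fd θ (γ z) x v ≠ 0) (t : ℂ)
    (ht : Pt (cf θ c b γ) z t = 0) : deriv (Pt (cf θ c b γ) z) t ≠ 0 := by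
  have h0 : Fo θ (γ z) (t • b + e) = 0 := by rw [fo_pt hc hb, ht, mul_zero]
  obtain ⟨v, hv⟩ := hs _ (line_ne hbe t) h0
  obtain ⟨κ, hκ⟩ := fd_root θ (line_ne hbe t) h0
  have h1 := hκ v
  have hκ0 : κ ≠ 0 := by
    rintro rfl
    rw [zero_mul] at h1
    exact hv h1
  have h2 := deriv_pt han hc hb t
  rw [hκ b, dt_add_left, dt_smul_left, dt_self, mul_zero, zero_add, dt_swap] at h2
  intro h3
  rw [h3, mul_zero] at h2
  exact (mul_ne_zero hκ0 (neg_ne_zero.2 hbe)) h2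

end

theorem Pt_bound {m : ℕ} {c : Fin m → ℂ → ℂ} {z t : ℂ} {M : ℝ} (hm : 0 < m)
    (hM : ∀ i, ‖c i z‖ ≤ M) (h : Pt c z t = 0) : ‖t‖ ≤ max 1 (m * M) := by
  by_contra hcon
  rw [not_le, max_lt_iff] at hcon
  obtain ⟨h1, h2⟩ := hcon
  have h3 : t ^ m = -∑ i : Fin m, c i z * t ^ (i : ℕ) := by
    rw [Pt] at h; exact eq_neg_of_add_eq_zero_left h
  have h4 : ‖t‖ ^ m ≤ ∑ i : Fin m, ‖c i z * t ^ (i : ℕ)‖ := by
    rw [← norm_pow, h3, norm_neg]
    exact norm_sum_le _ _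
  have hM0 : 0 ≤ M := (norm_nonneg _).trans (hM ⟨0, hm⟩)
  have h5 : ∑ i : Fin m, ‖c i z * t ^ (i : ℕ)‖ ≤ ∑ i : Fin m, M * ‖t‖ ^ (m - 1) := by
    refine Finset.sum_le_sum fun i _ => ?_
    rw [norm_mul, norm_pow]
    exact mul_le_mul (hM i) (pow_le_pow_right₀ h1.le (by have := i.2; omega)) (by positivity) hM0
  rw [Finset.sum_const, Finset.card_univ, Fintype.card_fin, nsmul_eq_mul] at h5
  have h7 : ‖t‖ ^ m = ‖t‖ * ‖t‖ ^ (m - 1) := by rw [← pow_succ', Nat.sub_add_cancel hm]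
  have h9 : 0 < ‖t‖ ^ (m - 1) := by positivity
  have h10 : ‖t‖ * ‖t‖ ^ (m - 1) ≤ (m * M) * ‖t‖ ^ (m - 1) := by
    rw [← h7]; linarith
  exact absurd (le_of_mul_le_mul_right h10 h9) (not_le.2 h2)

end Pool.Agent.PX

end

section

/-!
# G4 A Defs: curves over the lines of one direction, any dimension

As `G3/A/Defs`; unchanged and used from there: `Ba`, `Hc`, `Dec`, `Sepa`, `Tht`, `Frm`, `NL`, `Lm`, `CRL`, `Tb`, `ToE`, `CE`, `Sht` (and `Shs`, `Prm`, `DDb` of `G3/R/SDefs`).  New: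

* `LG`: the geometry of the lines of direction `a`: no finiteness of the bad points modulo `Λ`; instead `few`: `o (R²)` exact bad hits in the discs of radius `R` of the lines, uniformly (with `R = 2`: a uniform bound in the small discs).
* `Co`: the core is `Gd D (2 δ)`; `LC`: the constants `ρ`, `δ`, circles at every scale; no separation of the bad points, no strips.
* `DecW`: the bound of a form with the weight `wt W`; `DA`: with the data `Γ`, `W` of the theta factors (`Frm`).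
-/

set_option autoImplicit false

open Topology Filter Metric

namespace Pool.Agent.G4.A

open Pool.Agent.H36.BP (EN fs wd)
open Pool.Agent.H14.PP (IsCone CurveAt Tan)
open Pool.Agent.H62.EF (MN pr)
open Pool.Agent.AD (Vd Chart Charts IsGerm)
open Pool.Agent.TG

variable {N k : ℕ}

/-- the geometry of the lines of direction `a` -/
structure LG (Λ : AddSubgroup (Vd (k + 1))) (D Bad : Set (Vd (k + 1))) (a : Vd (k + 1)) : Prop where
  norm : ‖a‖ = 1
  lat : Lat Λ
  D_closed : IsClosed D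
  D_inv : ∀ y ∈ D, ∀ l ∈ Λ, y + l ∈ D
  bad_sub : Bad ⊆ D
  bad_inv : ∀ β ∈ Bad, ∀ l ∈ Λ, β + l ∈ Bad
  iso : ∀ y : Vd (k + 1), ∀ᶠ z in 𝓝[≠] (0 : ℂ), y + z • a ∉ D
  /-- few exact bad hits in large discs -/
  few : ∀ ε : ℝ, 0 < ε → ∃ C : ℝ, ∀ (y : Vd (k + 1)) (R : ℝ), 0 ≤ R → ∀ S : Finset ℂ, (∀ z ∈ S, ‖z‖ ≤ R ∧ y + z • a ∈ Bad) → (S.card : ℝ) ≤ ε * R ^ 2 + C

/-- the constants of the geometry of the lines of direction `a` -/
structure LC (D Bad : Set (Vd (k + 1))) (a : Vd (k + 1)) (ρ δ : ℝ) : Prop where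
  norm : ‖a‖ = 1
  D_closed : IsClosed D
  bad_sub : Bad ⊆ D
  ρ_pos : 0 < ρ
  ρ_le : ρ ≤ 1 / 8
  δ_pos : 0 < δ
  δ_le : 8 * δ ≤ ρ
  iso : ∀ y : Vd (k + 1), ∀ᶠ z in 𝓝[≠] (0 : ℂ), y + z • a ∉ D
  /-- small circles -/
  circ : ∀ η : ℝ, 0 < η → ∃ δ' : ℝ, 0 < δ' ∧ ∀ y : Vd (k + 1), ∃ r : ℝ, 0 < r ∧ r < η ∧ ∀ z : ℂ, ‖z‖ = r → y + z • a ∈ Gd D δ'
  /-- circles in the core -/
  circC : ∀ y : Vd (k + 1), ∃ r : ℝ, 0 < r ∧ r ≤ 2 * ρ ∧ ∀ z : ℂ, ‖z‖ = r → y + z • a ∈ Gd D (4 * δ)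
  few : ∀ ε : ℝ, 0 < ε → ∃ C : ℝ, ∀ (y : Vd (k + 1)) (R : ℝ), 0 ≤ R → ∀ S : Finset ℂ, (∀ z ∈ S, ‖z‖ ≤ R ∧ y + z • a ∈ Bad) → (S.card : ℝ) ≤ ε * R ^ 2 + C

end Pool.Agent.G4.A

end

section

/-!
# G4 A GeoC: the constants of the geometry of the lines of one direction

`circ`: for `y₀` only finitely many hits in a disc, so there is a radius `r < η` such that no hit is on the circle; distance `> 0` from `D`; it works for all `y` near `y₀`; compactness modulo `Λ`.
`circC`: the same with `η = 2 ρ`.  `LC.thick`: from `circC` and `‖a‖ = 1` (move `z` radially to the circle).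
-/

set_option autoImplicit false

open Topology Filter Metric

namespace Pool.Agent.G4.A

open Pool.Agent.H36.BP (EN fs wd)
open Pool.Agent.H14.PP (IsCone CurveAt Tan)
open Pool.Agent.H62.EF (MN pr)
open Pool.Agent.AD (Vd Chart Charts IsGerm)
open Pool.Agent.TG

variable {N k : ℕ} {X : Set (EN N)} {Λ : AddSubgroup (Vd (k + 1))} {u : EN N → Vd (k + 1)} {D B Bad : Set (Vd (k + 1))} {a : Vd (k + 1)}

/-- the hits of a line are isolated -/
private theorem GeoC_iso (hi : ∀ y : Vd (k + 1), ∀ᶠ z in 𝓝[≠] (0 : ℂ), y + z • a ∉ D) (y : Vd (k + 1)) (z₀ : ℂ) :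
    ∃ ε : ℝ, 0 < ε ∧ ∀ z : ℂ, z ≠ z₀ → ‖z - z₀‖ < ε → y + z • a ∉ D := by
  have h1 := hi (y + z₀ • a)
  rw [eventually_nhdsWithin_iff, Metric.eventually_nhds_iff] at h1
  obtain ⟨ε, hε, h2⟩ := h1
  refine ⟨ε, hε, fun z hz hlt => ?_⟩
  have h3 := h2 (y := z - z₀) (by rw [dist_zero_right]; exact hlt) (by
    simp only [Set.mem_compl_iff, Set.mem_singleton_iff]
    exact sub_ne_zero.2 hz)
  have e : y + z₀ • a + (z - z₀) • a = y + z • a := by rw [sub_smul]; abel
  rwa [e] at h3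

private theorem GeoC_countable (hi : ∀ y : Vd (k + 1), ∀ᶠ z in 𝓝[≠] (0 : ℂ), y + z • a ∉ D) (y : Vd (k + 1)) : {z : ℂ | y + z • a ∈ D}.Countable := by
  set S : Set ℂ := {z : ℂ | y + z • a ∈ D} with hS
  have hd : DiscreteTopology S := by
    rw [discreteTopology_subtype_iff]
    intro z hz
    obtain ⟨ε, hε, h⟩ := GeoC_iso hi y z
    rw [← disjoint_iff, Filter.disjoint_principal_right, mem_nhdsWithin]
    refine ⟨ball z ε, isOpen_ball, mem_ball_self hε, ?_⟩
    rintro w ⟨hw1, hw2⟩ hwS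
    exact h w hw2 (by rw [← dist_eq_norm]; exact hw1) hwS
  have : Countable S := by
    have := hd
    exact countable_of_Lindelof_of_discrete
  exact this

/-- a compact set of parameters without hits -/
private theorem GeoC_dist (hD : IsClosed D) {K : Set ℂ} (hK : IsCompact K) (y : Vd (k + 1)) (h : ∀ z ∈ K, y + z • a ∉ D) :
    ∃ d : ℝ, 0 < d ∧ ∀ z ∈ K, y + z • a ∈ Gd D d := by
  have hc : IsCompact ((fun z : ℂ => y + z • a) '' K) := hK.image (by fun_prop)
  have hdis : Disjoint ((fun z : ℂ => y + z • a) '' K) D := by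
    rw [Set.disjoint_left]
    rintro _ ⟨z, hz, rfl⟩
    exact h z hz
  obtain ⟨d, hd, hd2⟩ := hdis.exists_thickenings hc hD
  refine ⟨d, hd, fun z hz b hb => ?_⟩
  by_contra hlt
  push Not at hlt
  refine (Set.disjoint_left.1 hd2) (a := b) ?_ ?_
  · rw [mem_thickening_iff]
    exact ⟨y + z • a, ⟨z, hz, rfl⟩, by rw [dist_comm, dist_eq_norm]; exact hlt⟩
  · rw [mem_thickening_iff]
    exact ⟨b, hb, by rw [dist_self]; exact hd⟩

/-- a circle without hits, of radius in a given interval -/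
private theorem GeoC_circle (hD : IsClosed D) (hi : ∀ y : Vd (k + 1), ∀ᶠ z in 𝓝[≠] (0 : ℂ), y + z • a ∉ D) (y : Vd (k + 1)) {r₁ r₂ : ℝ} (h12 : r₁ < r₂) :
    ∃ r : ℝ, r₁ < r ∧ r < r₂ ∧ ∃ d : ℝ, 0 < d ∧ ∀ z : ℂ, ‖z‖ = r → y + z • a ∈ Gd D d := by
  have h1 : ((fun z : ℂ => ‖z‖) '' {z : ℂ | y + z • a ∈ D}).Countable := (GeoC_countable hi y).image _
  have h2 : ¬ (Set.Ioo r₁ r₂).Countable := by
    intro h
    have h3 : Set.Ioo r₁ r₂ = ∅ ∨ r₂ ≤ r₁ := by
      by_contra hcon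
      push Not at hcon
      have := Cardinal.mk_Ioo_real hcon.2
      have h4 := Cardinal.le_aleph0_iff_set_countable.2 h
      rw [this] at h4
      exact absurd h4 (not_le.2 Cardinal.aleph0_lt_continuum)
    rcases h3 with h3 | h3
    · exact (Set.nonempty_Ioo.2 h12).ne_empty h3
    · linarith
  have h3 : ∃ r ∈ Set.Ioo r₁ r₂, r ∉ (fun z : ℂ => ‖z‖) '' {z : ℂ | y + z • a ∈ D} := by
    by_contra hcon
    push Not at hcon
    exact h2 (h1.mono fun r hr => hcon r hr)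
  obtain ⟨r, hr, hr2⟩ := h3
  have hK : IsCompact (sphere (0 : ℂ) r) := isCompact_sphere 0 r
  obtain ⟨d, hd, hd2⟩ := GeoC_dist (a := a) hD hK y (fun z hz hzD => hr2 ⟨z, hzD, by rwa [mem_sphere_zero_iff_norm] at hz⟩)
  exact ⟨r, hr.1, hr.2, d, hd, fun z hz => hd2 z (by rwa [mem_sphere_zero_iff_norm])⟩

private theorem GeoC_gd_add (h : LG Λ D Bad a) (δ : ℝ) {y l : Vd (k + 1)} (hl : l ∈ Λ) (hy : y ∈ Gd D δ) : y + l ∈ Gd D δ := by
  intro b hb
  have h1 := hy _ (h.D_inv b hb (-l) (Λ.neg_mem hl))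
  have h2 : y - (b + -l) = y + l - b := by abel
  rwa [h2] at h1

/-- compactness modulo the lattice -/
private theorem GeoC_cpt (h : LG Λ D Bad a) (Q : Vd (k + 1) → ℝ → Prop) (hm : ∀ y d d', Q y d → 0 < d' → d' ≤ d → Q y d')
    (hinv : ∀ y d, ∀ l ∈ Λ, Q (y - l) d → Q y d) (hloc : ∀ y₀, ∃ d : ℝ, 0 < d ∧ ∀ᶠ y in 𝓝 y₀, Q y d) : ∃ d : ℝ, 0 < d ∧ ∀ y, Q y d := by
  obtain ⟨R, hR, hcov⟩ := h.lat.cpt
  have h1 : ∃ d : ℝ, 0 < d ∧ ∀ y ∈ closedBall (0 : Vd (k + 1)) R, Q y d := by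
    refine (isCompact_closedBall (0 : Vd (k + 1)) R).induction_on (p := fun S : Set (Vd (k + 1)) => ∃ d : ℝ, 0 < d ∧ ∀ y ∈ S, Q y d) ?_ ?_ ?_ ?_
    · exact ⟨1, one_pos, fun y hy => absurd hy (Set.notMem_empty y)⟩
    · rintro S T hST ⟨d, hd, hQ⟩
      exact ⟨d, hd, fun y hy => hQ y (hST hy)⟩
    · rintro S T ⟨d, hd, hQ⟩ ⟨d', hd', hQ'⟩
      refine ⟨min d d', lt_min hd hd', fun y hy => ?_⟩
      rcases hy with hy | hy
      · exact hm _ _ _ (hQ y hy) (lt_min hd hd') (min_le_left _ _)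
      · exact hm _ _ _ (hQ' y hy) (lt_min hd hd') (min_le_right _ _)
    · intro y₀ _
      obtain ⟨d, hd, hQ⟩ := hloc y₀
      exact ⟨{y | Q y d}, mem_nhdsWithin_of_mem_nhds hQ, d, hd, fun y hy => hy⟩
  obtain ⟨d, hd, hQ⟩ := h1
  refine ⟨d, hd, fun y => ?_⟩
  obtain ⟨l, hl, hlR⟩ := hcov y
  exact hinv y d l hl (hQ (y - l) (by rw [mem_closedBall, dist_zero_right]; exact hlR))

private theorem GeoC_near {δ r : ℝ} {y y₀ : Vd (k + 1)} {z : ℂ} (hy : y₀ + z • a ∈ Gd D δ) (h : ‖y - y₀‖ ≤ r) : y + z • a ∈ Gd D (δ - r) := by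
  refine gd_near hy ?_
  have e : y + z • a - (y₀ + z • a) = y - y₀ := by abel
  rwa [e]

private theorem GeoC_circ (h : LG Λ D Bad a) {ρ : ℝ} (hρ : 0 < ρ) :
    ∃ d : ℝ, 0 < d ∧ ∀ y : Vd (k + 1), ∃ r : ℝ, 0 < r ∧ r < ρ ∧ ∀ z : ℂ, ‖z‖ = r → y + z • a ∈ Gd D d := by
  refine GeoC_cpt h (fun y d => ∃ r : ℝ, 0 < r ∧ r < ρ ∧ ∀ z : ℂ, ‖z‖ = r → y + z • a ∈ Gd D d) ?_ ?_ ?_
  · rintro y d d' ⟨r, h1, h2, h3⟩ _ hle
    exact ⟨r, h1, h2, fun z hz => gd_mono hle (h3 z hz)⟩
  · rintro y d l hl ⟨r, h1, h2, h3⟩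
    refine ⟨r, h1, h2, fun z hz => ?_⟩
    have h4 := GeoC_gd_add h d hl (h3 z hz)
    have e : y - l + z • a + l = y + z • a := by abel
    rwa [e] at h4
  · intro y₀
    obtain ⟨r, h1, h2, d, hd, h3⟩ := GeoC_circle (a := a) h.D_closed h.iso y₀ (show (0 : ℝ) < ρ by linarith)
    refine ⟨d / 2, by linarith, ?_⟩
    filter_upwards [closedBall_mem_nhds y₀ (show 0 < d / 2 by linarith)] with y hy
    refine ⟨r, h1, h2, fun z hz => ?_⟩
    rw [mem_closedBall, dist_eq_norm] at hy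
    have h4 := GeoC_near (h3 z hz) hy
    have e : d - d / 2 = d / 2 := by ring
    rwa [e] at h4

theorem exists_lc (h : LG Λ D Bad a) {ρ : ℝ} (hρ : 0 < ρ) (hρ8 : ρ ≤ 1 / 8) : ∃ δ₀ : ℝ, 0 < δ₀ ∧ ∀ δ : ℝ, 0 < δ → δ ≤ δ₀ → LC D Bad a ρ δ := by
  obtain ⟨d, hd, hcirc⟩ := GeoC_circ h (show 0 < 2 * ρ by linarith)
  refine ⟨min (ρ / 8) (d / 4), lt_min (by linarith) (by linarith), fun δ hδ hδ₀ => ?_⟩
  have hδ1 : δ ≤ ρ / 8 := hδ₀.trans (min_le_left _ _)
  have hδ2 : δ ≤ d / 4 := hδ₀.trans (min_le_right _ _)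
  exact
    { norm := h.norm
      D_closed := h.D_closed
      bad_sub := h.bad_sub
      ρ_pos := hρ
      ρ_le := hρ8
      δ_pos := hδ
      δ_le := by linarith
      iso := h.iso
      circ := fun η hη => GeoC_circ h hη
      circC := fun y => by
        obtain ⟨r, h1, h2, h3⟩ := hcirc y
        exact ⟨r, h1, h2.le, fun z hz => gd_mono (by linarith) (h3 z hz)⟩
      few := h.few }

/-- subsets of the hits of a line are closed -/
theorem hits_closed (hi : ∀ y : Vd (k + 1), ∀ᶠ z in 𝓝[≠] (0 : ℂ), y + z • a ∉ D) {S : Set (Vd (k + 1))} (hS : S ⊆ D) (y : Vd (k + 1)) : IsClosed {z : ℂ | y + z • a ∈ S} := by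
  rw [← isOpen_compl_iff, isOpen_iff_mem_nhds]
  intro z hz
  obtain ⟨ε, hε, h⟩ := GeoC_iso hi y z
  filter_upwards [ball_mem_nhds z hε] with w hw hwS
  by_cases hwz : w = z
  · rw [hwz] at hwS
    exact hz hwS
  · exact h w hwz (by rw [← dist_eq_norm]; exact hw) (hS hwS)

end Pool.Agent.G4.A

end
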