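import Pool.Agent.H94.PX4.M05
import Pool.Agent.H94.PX4.M21
import Pool.Agent.H94.PX4.M32

/-! The parts of this file: HE.Psi, G4.H.Ser, G4.H.Dim. -/

section

/-!
# HE Psi: the function `- log qf` along a curve

Adapted from `PX/Psi`.
-/

set_option autoImplicit false

open Topology Filter Metric

namespace Pool.Agent.HE

open Pool.Agent.H36.BP (EN fs wd)
open Pool.Agent.H62.EF (MN pr)
open Pool.Agent.AD (Vd)
open Pool.Agent.TG (Lat)
open Pool.Agent.G3 (wt LLift)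

variable {N k q r : ℕ} {Λ : AddSubgroup (Vd (k + 1))} {D : Set (Vd (k + 1))} {X : Set (Vd (k + 1) × EN N)} {F : Fin q → Vd (k + 1) × EN N → ℂ} {d : Fin q → ℕ}
  {W : Fin q → Fin r → Vd (k + 1) →L[ℂ] ℂ}

/-- the weight is positive definite -/
private theorem Psi_wt_ge {W : Fin r → Vd (k + 1) →L[ℂ] ℂ} (hW : ∀ y, (∀ i, W i y = 0) → y = 0) :
    ∃ c : ℝ, 0 < c ∧ ∀ y : Vd (k + 1), c * ‖y‖ ^ 2 ≤ wt W y := by
  have hcont : Continuous (wt W) := by
    unfold wt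
    exact continuous_finsetSum _ fun i _ => ((W i).continuous.norm.pow 2)
  have hpos : ∀ y ∈ sphere (0 : Vd (k + 1)) 1, 0 < wt W y := by
    intro y hy
    rw [mem_sphere_zero_iff_norm] at hy
    have h0 : 0 ≤ wt W y := Finset.sum_nonneg fun i _ => by positivity
    rcases h0.eq_or_lt with h1 | h1
    · exfalso
      have h2 : ∀ i, W i y = 0 := by
        intro i
        have h3 := (Finset.sum_eq_zero_iff_of_nonneg (s := Finset.univ) (f := fun i => ‖W i y‖ ^ 2) fun i _ => by positivity).1 h1.symm i (Finset.mem_univ i)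
        exact norm_eq_zero.1 (pow_eq_zero_iff (two_ne_zero)|>.1 h3)
      rw [hW y h2, norm_zero] at hy
      exact zero_ne_one hy
    · exact h1
  have hne : (sphere (0 : Vd (k + 1)) 1).Nonempty := by
    refine ⟨fun _ => 1, ?_⟩
    rw [mem_sphere_zero_iff_norm]
    simp [pi_norm_const]
  obtain ⟨y₁, hy₁, hmin⟩ := (isCompact_sphere (0 : Vd (k + 1)) 1).exists_isMinOn hne hcont.continuousOn
  refine ⟨wt W y₁, hpos y₁ hy₁, fun y => ?_⟩
  by_cases hy : y = 0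
  · subst hy
    simp [wt]
  · have hn : 0 < ‖y‖ := norm_pos_iff.2 hy
    set c : ℂ := (((‖y‖⁻¹ : ℝ)) : ℂ) with hcd
    have hcn : ‖c‖ = ‖y‖⁻¹ := by rw [hcd, Complex.norm_real, norm_inv, norm_norm]
    have h1 : c • y ∈ sphere (0 : Vd (k + 1)) 1 := by
      rw [mem_sphere_zero_iff_norm, norm_smul, hcn]
      exact inv_mul_cancel₀ hn.ne'
    have h2 : wt W y₁ ≤ wt W (c • y) := hmin h1
    have h3 : wt W (c • y) = (‖y‖⁻¹) ^ 2 * wt W y := by
      unfold wt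
      rw [Finset.mul_sum]
      refine Finset.sum_congr rfl fun i _ => ?_
      rw [map_smul, norm_smul, hcn, mul_pow]
    rw [h3] at h2
    have h4 := mul_le_mul_of_nonneg_right h2 (by positivity : 0 ≤ ‖y‖ ^ 2)
    have h5 : (‖y‖⁻¹) ^ 2 * wt W y * ‖y‖ ^ 2 = wt W y := by
      field_simp
    rwa [h5] at h4

/-- a curve outside the zeros of one form -/
private structure Cs (f : Vd (k + 1) × EN N → ℂ) (U : Set ℂ) (w : ℂ → EN N) (h : ℂ → Vd (k + 1)) : Prop where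
  w_diff : DifferentiableOn ℂ w U
  h_diff : DifferentiableOn ℂ h U
  w_ne : ∀ ⦃z⦄, z ∈ U → w z ≠ 0
  ne : ∀ z ∈ U, f (h z, w z) ≠ 0

/-- the exponent of the comparison function -/
private noncomputable def Psi_e (W : Fin r → Vd (k + 1) →L[ℂ] ℂ) (y₁ y : Vd (k + 1)) : ℂ :=
  ∑ i, (2 * (starRingEnd ℂ (W i y₁)) * W i y - ((‖W i y₁‖ ^ 2 : ℝ) : ℂ))

/-- the holomorphic comparison function: `‖Psi_H‖ ≤ 1 / qf`, with equality at `(x₁, y₁)` -/
private noncomputable def Psi_H (f : Vd (k + 1) × EN N → ℂ) (d : ℕ) (W : Fin r → Vd (k + 1) →L[ℂ] ℂ) (x₁ : EN N) (y₁ : Vd (k + 1)) (x : EN N)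
    (y : Vd (k + 1)) : ℂ :=
  (innerSL ℂ x₁ x) ^ d * Complex.exp (Psi_e W y₁ y) / (((‖x₁‖ ^ d : ℝ) : ℂ) * f (y, x))

private theorem Psi_e_re (W : Fin r → Vd (k + 1) →L[ℂ] ℂ) (y₁ y : Vd (k + 1)) :
    (Psi_e W y₁ y).re + wt W (y - y₁) = wt W y := by
  unfold Psi_e wt
  rw [Complex.re_sum, ← Finset.sum_add_distrib]
  refine Finset.sum_congr rfl fun i _ => ?_
  rw [map_sub, Complex.sub_re, Complex.ofReal_re, ← Complex.normSq_eq_norm_sq, ← Complex.normSq_eq_norm_sq, ← Complex.normSq_eq_norm_sq,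
    Complex.normSq_apply, Complex.normSq_apply, Complex.normSq_apply]
  simp only [Complex.mul_re, Complex.mul_im, Complex.conj_re, Complex.conj_im, Complex.sub_re, Complex.sub_im, Complex.re_ofNat, Complex.im_ofNat]
  ring

private theorem Psi_H_norm (f : Vd (k + 1) × EN N → ℂ) (d : ℕ) (W : Fin r → Vd (k + 1) →L[ℂ] ℂ) (x₁ : EN N) (y₁ : Vd (k + 1)) (x : EN N)
    (y : Vd (k + 1)) : ‖Psi_H f d W x₁ y₁ x y‖ = ‖innerSL ℂ x₁ x‖ ^ d * Real.exp (Psi_e W y₁ y).re / (‖x₁‖ ^ d * ‖f (y, x)‖) := by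
  unfold Psi_H
  rw [norm_div, norm_mul, norm_mul, norm_pow, Complex.norm_exp, Complex.norm_real, norm_pow, norm_norm]

private theorem Psi_H_le (f : Vd (k + 1) × EN N → ℂ) (d : ℕ) (W : Fin r → Vd (k + 1) →L[ℂ] ℂ) {x₁ : EN N} (hx₁ : x₁ ≠ 0) (y₁ : Vd (k + 1)) {x : EN N}
    (hx : x ≠ 0) {y : Vd (k + 1)} (hF : f (y, x) ≠ 0) :
    ‖Psi_H f d W x₁ y₁ x y‖ * Real.exp (wt W (y - y₁)) * qf f d W y x ≤ 1 := by
  have h1 : 0 < ‖x₁‖ := norm_pos_iff.2 hx₁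
  have h2 : 0 < ‖x‖ := norm_pos_iff.2 hx
  have h3 : 0 < ‖f (y, x)‖ := norm_pos_iff.2 hF
  have e : ‖Psi_H f d W x₁ y₁ x y‖ * Real.exp (wt W (y - y₁)) * qf f d W y x =
      (‖innerSL ℂ x₁ x‖ / (‖x₁‖ * ‖x‖)) ^ d * (Real.exp (Psi_e W y₁ y).re * Real.exp (wt W (y - y₁)) * Real.exp (-wt W y)) := by
    rw [Psi_H_norm]
    unfold qf
    rw [div_pow, mul_pow]
    field_simp
  rw [e, ← Real.exp_add, ← Real.exp_add, Psi_e_re, add_neg_cancel, Real.exp_zero, mul_one]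
  refine pow_le_one₀ (by positivity) ?_
  rw [div_le_one (by positivity)]
  exact norm_inner_le_norm x₁ x

private theorem Psi_H_self (f : Vd (k + 1) × EN N → ℂ) (d : ℕ) (W : Fin r → Vd (k + 1) →L[ℂ] ℂ) {x₁ : EN N} (hx₁ : x₁ ≠ 0) {y₁ : Vd (k + 1)}
    (hF : f (y₁, x₁) ≠ 0) : ‖Psi_H f d W x₁ y₁ x₁ y₁‖ * qf f d W y₁ x₁ = 1 := by
  have h1 : 0 < ‖x₁‖ := norm_pos_iff.2 hx₁
  have h3 : 0 < ‖f (y₁, x₁)‖ := norm_pos_iff.2 hF
  have h4 : ‖innerSL ℂ x₁ x₁‖ = ‖x₁‖ * ‖x₁‖ := by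
    rw [innerSL_apply_apply, inner_self_eq_norm_sq_to_K, norm_pow]
    simp [sq]
  have h5 := Psi_e_re W y₁ y₁
  have h6 : wt W (y₁ - y₁) = 0 := by
    rw [sub_self]
    simp [wt]
  rw [h6, add_zero] at h5
  rw [Psi_H_norm, h4, h5]
  unfold qf
  have e : (‖x₁‖ * ‖x₁‖) ^ d * Real.exp (wt W y₁) / (‖x₁‖ ^ d * ‖f (y₁, x₁)‖) * (‖f (y₁, x₁)‖ * Real.exp (-wt W y₁) / ‖x₁‖ ^ d) =
      Real.exp (wt W y₁) * Real.exp (-wt W y₁) := by
    rw [mul_pow]
    field_simp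
  rw [e, ← Real.exp_add, add_neg_cancel, Real.exp_zero]

private theorem Psi_H_diff {f : Vd (k + 1) × EN N → ℂ} (hf : Differentiable ℂ f) (d : ℕ) (W : Fin r → Vd (k + 1) →L[ℂ] ℂ) {w : ℂ → EN N} {h : ℂ → Vd (k + 1)} {U : Set ℂ} (hc : Cs f U w h) {x₁ : EN N} (hx₁ : x₁ ≠ 0)
    (y₁ : Vd (k + 1)) : DifferentiableOn ℂ (fun z => Psi_H f d W x₁ y₁ (w z) (h z)) U := by
  have h1 : ‖x₁‖ ≠ 0 := norm_ne_zero_iff.2 hx₁
  unfold Psi_H
  have hF : DifferentiableOn ℂ (fun z => f (h z, w z)) U :=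
    hf.comp_differentiableOn (hc.h_diff.prodMk hc.w_diff)
  have he : DifferentiableOn ℂ (fun z => Psi_e W y₁ (h z)) U := by
    unfold Psi_e
    refine DifferentiableOn.fun_sum fun i _ => ?_
    exact (((W i).differentiable.comp_differentiableOn hc.h_diff).const_mul _).sub_const _
  have hi : DifferentiableOn ℂ (fun z => (innerSL ℂ x₁) (w z)) U :=
    (innerSL ℂ x₁).differentiable.comp_differentiableOn hc.w_diff
  refine ((hi.pow d).mul he.cexp).div (hF.const_mul _) fun z hz => ?_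
  refine mul_ne_zero ?_ (hc.ne z hz)
  rw [Ne, Complex.ofReal_eq_zero]
  exact pow_ne_zero d h1

private theorem Psi_qf_pos (f : Vd (k + 1) × EN N → ℂ) (d : ℕ) (W : Fin r → Vd (k + 1) →L[ℂ] ℂ) {x : EN N} (hx : x ≠ 0) {y : Vd (k + 1)}
    (hF : f (y, x) ≠ 0) : 0 < qf f d W y x := by
  have h1 : 0 < ‖x‖ := norm_pos_iff.2 hx
  have h3 : 0 < ‖f (y, x)‖ := norm_pos_iff.2 hF
  unfold qf
  positivity

private theorem Psi_qf_cont {f : Vd (k + 1) × EN N → ℂ} (hf : Differentiable ℂ f) (d : ℕ) (W : Fin r → Vd (k + 1) →L[ℂ] ℂ) {w : ℂ → EN N} {h : ℂ → Vd (k + 1)} {U : Set ℂ} (hc : Cs f U w h) :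
    ContinuousOn (fun z => qf f d W (h z) (w z)) U := by
  have hF : DifferentiableOn ℂ (fun z => f (h z, w z)) U :=
    hf.comp_differentiableOn (hc.h_diff.prodMk hc.w_diff)
  have hcont : Continuous (wt W) := by
    unfold wt
    exact continuous_finsetSum _ fun i _ => ((W i).continuous.norm.pow 2)
  unfold qf
  refine ContinuousOn.div (hF.continuousOn.norm.mul ?_) (hc.w_diff.continuousOn.norm.pow d) fun z hz => ?_
  · exact Real.continuous_exp.comp_continuousOn (hcont.comp_continuousOn hc.h_diff.continuousOn).neg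
  · exact pow_ne_zero d (norm_ne_zero_iff.2 (hc.w_ne hz))

private theorem psi_max {f : Vd (k + 1) × EN N → ℂ} (hf : Differentiable ℂ f) (d : ℕ) (W : Fin r → Vd (k + 1) →L[ℂ] ℂ) {w : ℂ → EN N} {h : ℂ → Vd (k + 1)} {z₀ : ℂ} {s R : ℝ} (hs : 0 < s) (hR : s < R) (hc : Cs f (ball z₀ R) w h) {c : ℝ} (hc0 : 0 < c)
    (hq : ∀ z ∈ sphere z₀ s, c ≤ qf f d W (h z) (w z)) : c ≤ qf f d W (h z₀) (w z₀) := by
  have hz₀ : z₀ ∈ ball z₀ R := mem_ball_self (hs.trans hR)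
  have hw₀ : w z₀ ≠ 0 := hc.w_ne hz₀
  have hcl : closedBall z₀ s ⊆ ball z₀ R := closedBall_subset_ball hR
  have hH := Psi_H_diff hf d W hc hw₀ (h z₀)
  have hH2 : DiffContOnCl ℂ (fun z => Psi_H f d W (w z₀) (h z₀) (w z) (h z)) (ball z₀ s) := by
    refine DifferentiableOn.diffContOnCl ?_
    rw [closure_ball z₀ hs.ne']
    exact hH.mono hcl
  have h1 : ‖Psi_H f d W (w z₀) (h z₀) (w z₀) (h z₀)‖ ≤ 1 / c := by
    refine Complex.norm_le_of_forall_mem_frontier_norm_le isBounded_ball hH2 ?_ (subset_closure (mem_ball_self hs))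
    intro z hz
    rw [frontier_ball z₀ hs.ne'] at hz
    have hzR : z ∈ ball z₀ R := hcl (sphere_subset_closedBall hz)
    have h2 := Psi_H_le f d W hw₀ (h z₀) (hc.w_ne hzR) (hc.ne z hzR)
    rw [le_div_iff₀ hc0]
    have h3 : 1 ≤ Real.exp (wt W (h z - h z₀)) := by
      rw [Real.one_le_exp_iff]
      exact Finset.sum_nonneg fun i _ => by positivity
    calc ‖Psi_H f d W (w z₀) (h z₀) (w z) (h z)‖ * c
        ≤ (‖Psi_H f d W (w z₀) (h z₀) (w z) (h z)‖ * Real.exp (wt W (h z - h z₀))) * qf f d W (h z) (w z) :=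
          mul_le_mul (le_mul_of_one_le_right (norm_nonneg _) h3) (hq z hz) hc0.le (by positivity)
      _ ≤ 1 := h2
  have h4 := Psi_H_self f d W hw₀ (hc.ne z₀ hz₀)
  have h5 : 0 < qf f d W (h z₀) (w z₀) := Psi_qf_pos f d W hw₀ (hc.ne z₀ hz₀)
  have h6 : 1 ≤ 1 / c * qf f d W (h z₀) (w z₀) := h4.symm.le.trans (mul_le_mul_of_nonneg_right h1 h5.le)
  rw [one_div, ← div_eq_inv_mul, le_div_iff₀ hc0, one_mul] at h6
  exact h6

private theorem psi_grow {f : Vd (k + 1) × EN N → ℂ} (hf : Differentiable ℂ f) (d : ℕ) (W : Fin r → Vd (k + 1) →L[ℂ] ℂ) (hpos : ∀ y, (∀ i, W i y = 0) → y = 0) {A : ℝ} (hA : 0 < A) : ∃ c₀ : ℝ, 0 < c₀ ∧ ∀ (w : ℂ → EN N) (h : ℂ → Vd (k + 1)) (s R : ℝ), 0 < s → s < R → Cs f (ball 0 R) w h →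
    (∀ z ∈ ball (0 : ℂ) R, A ≤ ‖deriv h z‖) → ∀ c : ℝ, 0 < c → (∀ z ∈ sphere (0 : ℂ) s, c ≤ qf f d W (h z) (w z)) → c * Real.exp (c₀ * s ^ 2) ≤ qf f d W (h 0) (w 0) := by
  obtain ⟨l, hl, hwt⟩ := Psi_wt_ge hpos
  refine ⟨l * A ^ 2 / 2, by positivity, ?_⟩
  intro w h s R hs hR hc hh c hc0 hq
  set b : ℝ := l * A ^ 2 / 2 with hb
  have hb0 : 0 < b := by positivity
  have hcl : closedBall (0 : ℂ) s ⊆ ball 0 R := closedBall_subset_ball hR
  have hqpos : ∀ z ∈ ball (0 : ℂ) R, 0 < qf f d W (h z) (w z) := fun z hz => Psi_qf_pos f d W (hc.w_ne hz) (hc.ne z hz)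
  have hΦ : ContinuousOn (fun z : ℂ => (qf f d W (h z) (w z))⁻¹ * Real.exp (-(b * ‖z‖ ^ 2))) (closedBall 0 s) := by
    refine ContinuousOn.mul ?_ (by fun_prop)
    exact ((Psi_qf_cont hf d W hc).mono hcl).inv₀ fun z hz => (hqpos z (hcl hz)).ne'
  obtain ⟨z₁, hz₁, hmax⟩ := (isCompact_closedBall (0 : ℂ) s).exists_isMaxOn ⟨0, mem_closedBall_self hs.le⟩ hΦ
  have hz₁R : z₁ ∈ ball (0 : ℂ) R := hcl hz₁
  have hw₁ : w z₁ ≠ 0 := hc.w_ne hz₁R
  rcases (mem_closedBall_zero_iff.1 hz₁).lt_or_eq with hlt | heq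
  · -- an interior maximum
    exfalso
    have hdz : HasDerivAt h (deriv h z₁) z₁ := ((hc.h_diff z₁ hz₁R).differentiableAt (isOpen_ball.mem_nhds hz₁R)).hasDerivAt
    have hA1 := hh z₁ hz₁R
    have hlit := hdz.isLittleO.bound (show (0 : ℝ) < A / 8 by positivity)
    obtain ⟨ρ₁, hρ₁, hball⟩ := Metric.eventually_nhds_iff_ball.1 hlit
    set ρ : ℝ := min (ρ₁ / 2) ((s - ‖z₁‖) / 2) with hρ
    have hρ0 : 0 < ρ := lt_min (by positivity) (by linarith)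
    have hρ1 : ρ < ρ₁ := (min_le_left _ _).trans_lt (by linarith)
    have hρ2 : ρ ≤ (s - ‖z₁‖) / 2 := min_le_right _ _
    have hsub : closedBall z₁ ρ ⊆ closedBall (0 : ℂ) s := by
      intro z hz
      rw [mem_closedBall_zero_iff]
      rw [mem_closedBall, dist_eq_norm] at hz
      have h1 : ‖z‖ ≤ ‖z - z₁‖ + ‖z₁‖ := by
        have := norm_add_le (z - z₁) z₁
        rwa [sub_add_cancel] at this
      linarith
    have hH := Psi_H_diff hf d W hc hw₁ (h z₁)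
    set Ht : ℂ → ℂ := fun z => Psi_H f d W (w z₁) (h z₁) (w z) (h z) * Complex.exp (-(2 * (b : ℂ) * starRingEnd ℂ z₁ * (z - z₁))) with hHt
    have hHtd : DiffContOnCl ℂ Ht (ball z₁ ρ) := by
      refine DifferentiableOn.diffContOnCl ?_
      rw [closure_ball z₁ hρ0.ne']
      refine (hH.mono (hsub.trans hcl)).mul ?_
      fun_prop
    obtain ⟨z₂, hz₂, hm₂⟩ := Complex.exists_mem_frontier_isMaxOn_norm isBounded_ball ⟨z₁, mem_ball_self hρ0⟩ hHtd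
    rw [frontier_ball z₁ hρ0.ne'] at hz₂
    have hle : ‖Ht z₁‖ ≤ ‖Ht z₂‖ := hm₂ (subset_closure (mem_ball_self hρ0))
    have hz₂s : z₂ ∈ closedBall (0 : ℂ) s := hsub (sphere_subset_closedBall hz₂)
    have hz₂R := hcl hz₂s
    have hdist : ‖z₂ - z₁‖ = ρ := by
      rw [mem_sphere, dist_eq_norm] at hz₂
      exact hz₂
    -- the lower bound of the weight
    have hb2 := hball z₂ (by rw [mem_ball, dist_eq_norm, hdist]; exact hρ1)
    rw [hdist] at hb2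
    have hlow : 7 / 8 * A * ρ ≤ ‖h z₂ - h z₁‖ := by
      have h1 : ‖(z₂ - z₁) • deriv h z₁‖ ≤ ‖h z₂ - h z₁‖ + ‖h z₂ - h z₁ - (z₂ - z₁) • deriv h z₁‖ := by
        have := norm_sub_le (h z₂ - h z₁) (h z₂ - h z₁ - (z₂ - z₁) • deriv h z₁)
        rwa [sub_sub_cancel] at this
      rw [norm_smul, hdist] at h1
      have h2 : ρ * A ≤ ρ * ‖deriv h z₁‖ := mul_le_mul_of_nonneg_left hA1 hρ0.le
      nlinarith
    have hwt2 : b * ρ ^ 2 < wt W (h z₂ - h z₁) := by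
      have h1 := hwt (h z₂ - h z₁)
      have h2 : (7 / 8 * A * ρ) ^ 2 ≤ ‖h z₂ - h z₁‖ ^ 2 := pow_le_pow_left₀ (by positivity) hlow 2
      have h3 : l * (7 / 8 * A * ρ) ^ 2 ≤ l * ‖h z₂ - h z₁‖ ^ 2 := mul_le_mul_of_nonneg_left h2 hl.le
      have h4 : b * ρ ^ 2 < l * (7 / 8 * A * ρ) ^ 2 := by
        have h5 : 0 < l * A ^ 2 * ρ ^ 2 := by positivity
        rw [hb]
        nlinarith
      linarith
    have hsq : ‖z₂‖ ^ 2 = ‖z₁‖ ^ 2 + 2 * (starRingEnd ℂ z₁ * (z₂ - z₁)).re + ρ ^ 2 := by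
      rw [← hdist, ← Complex.normSq_eq_norm_sq, ← Complex.normSq_eq_norm_sq, ← Complex.normSq_eq_norm_sq, Complex.normSq_apply,
        Complex.normSq_apply, Complex.normSq_apply]
      simp only [Complex.mul_re, Complex.conj_re, Complex.conj_im, Complex.sub_re, Complex.sub_im]
      ring
    have hHn : ∀ z, ‖Ht z‖ = ‖Psi_H f d W (w z₁) (h z₁) (w z) (h z)‖ * Real.exp (-(2 * b * (starRingEnd ℂ z₁ * (z - z₁)).re)) := by
      intro z
      rw [hHt]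
      show ‖_ * _‖ = _
      rw [norm_mul, Complex.norm_exp]
      congr 2
      rw [Complex.neg_re, mul_assoc (2 * (b : ℂ)), Complex.mul_re]
      simp
    have h1 : ‖Ht z₁‖ = ‖Psi_H f d W (w z₁) (h z₁) (w z₁) (h z₁)‖ := by
      rw [hHn, sub_self, mul_zero, Complex.zero_re, mul_zero, neg_zero, Real.exp_zero, mul_one]
    have h2 := Psi_H_self f d W hw₁ (hc.ne z₁ hz₁R)
    have h3 : (qf f d W (h z₁) (w z₁))⁻¹ = ‖Ht z₁‖ := by
      rw [h1]
      exact (eq_inv_of_mul_eq_one_left h2).symm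
    have h4 := Psi_H_le f d W hw₁ (h z₁) (hc.w_ne hz₂R) (hc.ne z₂ hz₂R)
    have h5 : ‖Psi_H f d W (w z₁) (h z₁) (w z₂) (h z₂)‖ * Real.exp (wt W (h z₂ - h z₁)) ≤ (qf f d W (h z₂) (w z₂))⁻¹ := by
      rw [← one_div, le_div_iff₀ (hqpos z₂ hz₂R)]
      exact h4
    have h6 : (qf f d W (h z₂) (w z₂))⁻¹ * Real.exp (-(b * ‖z₂‖ ^ 2)) ≤ (qf f d W (h z₁) (w z₁))⁻¹ * Real.exp (-(b * ‖z₁‖ ^ 2)) := hmax hz₂s
    have hHpos : 0 < ‖Ht z₁‖ := by
      rw [← h3]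
      exact inv_pos.2 (hqpos z₁ hz₁R)
    have h7 : ‖Ht z₂‖ * Real.exp (wt W (h z₂ - h z₁) - b * ρ ^ 2) * Real.exp (-(b * ‖z₁‖ ^ 2)) ≤
        (qf f d W (h z₂) (w z₂))⁻¹ * Real.exp (-(b * ‖z₂‖ ^ 2)) := by
      refine le_trans (le_of_eq ?_) (mul_le_mul_of_nonneg_right h5 (Real.exp_pos _).le)
      have e : Real.exp (-(2 * b * (starRingEnd ℂ z₁ * (z₂ - z₁)).re)) * Real.exp (wt W (h z₂ - h z₁) - b * ρ ^ 2) * Real.exp (-(b * ‖z₁‖ ^ 2)) =
          Real.exp (wt W (h z₂ - h z₁)) * Real.exp (-(b * ‖z₂‖ ^ 2)) := by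
        rw [← Real.exp_add, ← Real.exp_add, ← Real.exp_add]
        congr 1
        rw [hsq]
        ring
      rw [hHn]
      linear_combination ‖Psi_H f d W (w z₁) (h z₁) (w z₂) (h z₂)‖ * e
    have h8 : ‖Ht z₁‖ * 1 < ‖Ht z₂‖ * Real.exp (wt W (h z₂ - h z₁) - b * ρ ^ 2) := by
      have h9 : 1 < Real.exp (wt W (h z₂ - h z₁) - b * ρ ^ 2) := by
        rw [Real.one_lt_exp_iff]
        linarith
      calc ‖Ht z₁‖ * 1 < ‖Ht z₁‖ * Real.exp (wt W (h z₂ - h z₁) - b * ρ ^ 2) := mul_lt_mul_of_pos_left h9 hHpos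
        _ ≤ _ := mul_le_mul_of_nonneg_right hle (Real.exp_pos _).le
    rw [mul_one] at h8
    have h10 := mul_lt_mul_of_pos_right h8 (Real.exp_pos (-(b * ‖z₁‖ ^ 2)))
    rw [h3] at h6
    linarith
  · have h1 : (qf f d W (h 0) (w 0))⁻¹ * Real.exp (-(b * ‖(0 : ℂ)‖ ^ 2)) ≤ (qf f d W (h z₁) (w z₁))⁻¹ * Real.exp (-(b * ‖z₁‖ ^ 2)) :=
      hmax (mem_closedBall_self hs.le)
    have h0R : (0 : ℂ) ∈ ball (0 : ℂ) R := mem_ball_self (hs.trans hR)
    have h2 : c ≤ qf f d W (h z₁) (w z₁) := hq z₁ (mem_sphere_zero_iff_norm.2 heq)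
    have h3 : (qf f d W (h z₁) (w z₁))⁻¹ ≤ c⁻¹ := inv_anti₀ hc0 h2
    rw [norm_zero, heq] at h1
    have h4 : (qf f d W (h 0) (w 0))⁻¹ ≤ c⁻¹ * Real.exp (-(b * s ^ 2)) := by
      have h5 := mul_le_mul_of_nonneg_right h3 (Real.exp_pos (-(b * s ^ 2))).le
      have h6 : Real.exp (-(b * (0 : ℝ) ^ 2)) = 1 := by simp
      rw [h6, mul_one] at h1
      exact h1.trans h5
    have h5 : c⁻¹ * Real.exp (-(b * s ^ 2)) = (c * Real.exp (b * s ^ 2))⁻¹ := by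
      rw [mul_inv, Real.exp_neg]
    rw [h5] at h4
    exact (inv_le_inv₀ (hqpos 0 h0R) (by positivity)).1 h4

theorem HD.psi_max (P : HD Λ D X F d W) (j : Fin q) {w : ℂ → EN N} {h : ℂ → Vd (k + 1)} {z₀ : ℂ} {s R : ℝ} (hs : 0 < s) (hR : s < R) (hc : Cw X F (ball z₀ R) w h) {c : ℝ} (hc0 : 0 < c)
    (hq : ∀ z ∈ sphere z₀ s, c ≤ qf (F j) (d j) (W j) (h z) (w z)) : c ≤ qf (F j) (d j) (W j) (h z₀) (w z₀) :=
  Pool.Agent.HE.psi_max (P.an j) (d j) (W j) hs hR ⟨hc.w_diff, hc.h_diff, hc.w_ne, hc.ne j⟩ hc0 hq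

theorem HD.psi_grow (P : HD Λ D X F d W) (j : Fin q) (hpos : ∀ y, (∀ i, W j i y = 0) → y = 0) {A : ℝ} (hA : 0 < A) : ∃ c₀ : ℝ, 0 < c₀ ∧
    ∀ (w : ℂ → EN N) (h : ℂ → Vd (k + 1)) (s R : ℝ), 0 < s → s < R → Cw X F (ball 0 R) w h → (∀ z ∈ ball (0 : ℂ) R, A ≤ ‖deriv h z‖) → ∀ c : ℝ, 0 < c →
      (∀ z ∈ sphere (0 : ℂ) s, c ≤ qf (F j) (d j) (W j) (h z) (w z)) → c * Real.exp (c₀ * s ^ 2) ≤ qf (F j) (d j) (W j) (h 0) (w 0) := by
  obtain ⟨c₀, hc₀, h1⟩ := Pool.Agent.HE.psi_grow (P.an j) (d j) (W j) hpos hA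
  exact ⟨c₀, hc₀, fun w h s R hs hR hc => h1 w h s R hs hR ⟨hc.w_diff, hc.h_diff, hc.w_ne, hc.ne j⟩⟩

end Pool.Agent.HE

end

section

/-!
# G4 H Ser: the theta series

`pk_norm`: `‖pk W M p y‖ * exp (- M wt y) = exp (- M wt (y - p))`.  `term_norm`: so the terms of the series satisfy `‖e (lv b c) y ^ M * pk W M p (y + lv b c)‖ * exp (- M wt y) = exp (- M wt (y + lv b c - p))`.
`gsum`: `∑ c, exp (- M wt (y + lv b c - p))` converges, locally uniformly in `y` (`wt_low`, `lv_low`: `wt (y + lv b c - p) ≥ c₀ (κ ∑ |c i| - R)²₊ ≥ κ' ∑ |c i| - R'`).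
`th_thm`: `th b W e M p` is analytic (locally uniform limit of analytic functions: differentiable by `hasFDerivAt_tsum` with Cauchy bounds, or restrict to finite sums and use a Weierstrass theorem of the library) and quasi-periodic: from `ThF.coc`
`e (lv b c') y ^ M * e (lv b c) (y + lv b c') ^ M = e (lv b (c + c')) y ^ M`, reindex the sum.  `th_norm`: the bound by the sum of the norms; `th_diag`: the term with `y + lv b c = p` has size `1`.
-/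

set_option autoImplicit false

open Topology Filter Metric

namespace Pool.Agent.G4.H

open Pool.Agent.AD (Vd)
open Pool.Agent.TG (Lat)
open Pool.Agent.G3 (wt)

variable {k r : ℕ} {Γ : AddSubgroup (Vd (k + 1))} {W : Fin r → Vd (k + 1) →L[ℂ] ℂ} {e : Vd (k + 1) → Vd (k + 1) → ℂ} {b : RB k} {M : ℕ}

theorem pk_norm (W : Fin r → Vd (k + 1) →L[ℂ] ℂ) (M : ℕ) (p y : Vd (k + 1)) : ‖pk W M p y‖ * Real.exp (-(M * wt W y)) = Real.exp (-(M * wt W (y - p))) := by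
  unfold pk wt
  rw [Complex.norm_exp, ← Real.exp_add]
  congr 1
  have e1 : ((M : ℂ) * ∑ i, (2 * (starRingEnd ℂ) (W i p) * W i y - (starRingEnd ℂ) (W i p) * W i p)).re =
      (M : ℝ) * ∑ i, (2 * (starRingEnd ℂ) (W i p) * W i y - (starRingEnd ℂ) (W i p) * W i p).re := by
    rw [← Complex.re_sum, ← Complex.re_ofReal_mul, Complex.ofReal_natCast]
  rw [e1, ← mul_neg, ← mul_neg, ← mul_add, ← Finset.sum_neg_distrib, ← Finset.sum_neg_distrib, ← Finset.sum_add_distrib]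
  congr 1
  refine Finset.sum_congr rfl fun i _ => ?_
  rw [map_sub, ← Complex.normSq_eq_norm_sq, ← Complex.normSq_eq_norm_sq]
  simp only [Complex.normSq_apply, Complex.sub_re, Complex.sub_im, Complex.mul_re, Complex.mul_im, Complex.conj_re, Complex.conj_im, Complex.re_ofNat, Complex.im_ofNat]
  ring

theorem term_norm (T : ThF Γ W e) (hb : ∀ i, b i ∈ Γ) (M : ℕ) (p y : Vd (k + 1)) (c : Fin (2 * (k + 1)) → ℤ) :
    ‖e (lv b c) y ^ M * pk W M p (y + lv b c)‖ * Real.exp (-(M * wt W y)) = Real.exp (-(M * wt W (y + lv b c - p))) := by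
  rw [norm_mul, norm_pow, T.nrm _ (lv_mem hb c) y, ← pk_norm W M p (y + lv b c), ← Real.exp_nat_mul]
  have e1 : Real.exp ((M : ℝ) * (wt W y - wt W (y + lv b c))) = Real.exp (-(M * wt W (y + lv b c))) * Real.exp (M * wt W y) := by
    rw [← Real.exp_add]
    congr 1
    ring
  have e2 : Real.exp ((M : ℝ) * wt W y) * Real.exp (-(M * wt W y)) = 1 := by
    rw [← Real.exp_add, add_neg_cancel, Real.exp_zero]
  rw [e1]
  calc Real.exp (-(M * wt W (y + lv b c))) * Real.exp (M * wt W y) * ‖pk W M p (y + lv b c)‖ * Real.exp (-(M * wt W y))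
      = ‖pk W M p (y + lv b c)‖ * Real.exp (-(M * wt W (y + lv b c))) * (Real.exp ((M : ℝ) * wt W y) * Real.exp (-(M * wt W y))) := by ring
    _ = _ := by rw [e2, mul_one]

private theorem ser_prod (g : ℤ → ℝ) (hg0 : ∀ k, 0 ≤ g k) (hs : Summable g) (n : ℕ) :
    Summable fun k : Fin n → ℤ => ∏ j, g (k j) := by
  induction n with
  | zero => exact Summable.of_finite
  | succ n ih =>
    rw [← (Fin.consEquiv fun _ : Fin (n + 1) => ℤ).summable_iff]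
    have h1 := hs.mul_of_nonneg ih hg0 (fun k => Finset.prod_nonneg fun j _ => hg0 _)
    refine h1.congr fun k => ?_
    simp [Fin.prod_univ_succ, Fin.consEquiv]

private theorem ser_int {a : ℝ} (ha : 0 < a) : Summable fun k : ℤ => Real.exp (-(a * |(k : ℝ)|)) := by
  have h0 : Summable fun n : ℕ => Real.exp (-a) ^ n := by
    refine summable_geometric_of_lt_one (Real.exp_pos _).le ?_
    rw [Real.exp_lt_one_iff]
    linarith
  have h1 : ∀ n : ℕ, Real.exp (-(a * (n : ℝ))) = Real.exp (-a) ^ n := fun n => by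
    rw [← Real.exp_nat_mul]
    congr 1
    ring
  refine Summable.of_nat_of_neg ?_ ?_
  · simp only [Int.cast_natCast, Nat.abs_cast, h1]
    exact h0
  · simp only [Int.cast_neg, Int.cast_natCast, abs_neg, Nat.abs_cast, h1]
    exact h0

private theorem ser_sum {a : ℝ} (ha : 0 < a) (n : ℕ) : Summable fun c : Fin n → ℤ => Real.exp (-(a * ∑ i, |(c i : ℝ)|)) := by
  have e : (fun c : Fin n → ℤ => Real.exp (-(a * ∑ i, |(c i : ℝ)|))) = fun c : Fin n → ℤ => ∏ i, Real.exp (-(a * |(c i : ℝ)|)) := by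
    funext c
    rw [← Real.exp_sum, Finset.mul_sum, ← Finset.sum_neg_distrib]
  rw [e]
  exact ser_prod (fun k => Real.exp (-(a * |(k : ℝ)|))) (fun k => (Real.exp_pos _).le) (ser_int ha) n

/-- the weights of the translates grow -/
private theorem ser_wt (hW : ∀ y, (∀ i, W i y = 0) → y = 0) (b : RB k) (R : ℝ) :
    ∃ α β : ℝ, 0 < α ∧ ∀ y : Vd (k + 1), ‖y‖ ≤ R → ∀ c, α * ∑ i, |(c i : ℝ)| - β ≤ wt W (y + lv b c) := by
  obtain ⟨c₀, hc₀, h0⟩ := wt_low hW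
  obtain ⟨κ, hκ, h1⟩ := lv_low b
  refine ⟨2 * c₀ * κ, c₀ * (2 * R + 1), by positivity, fun y hy c => ?_⟩
  have h2 := h0 (y + lv b c)
  have h3 := h1 c
  have h4 : ‖lv b c‖ ≤ ‖y + lv b c‖ + ‖y‖ := by
    calc ‖lv b c‖ = ‖(y + lv b c) - y‖ := by rw [add_sub_cancel_left]
      _ ≤ _ := norm_sub_le _ _
  have h5 : 2 * ‖y + lv b c‖ - 1 ≤ ‖y + lv b c‖ ^ 2 := by nlinarith only [sq_nonneg (‖y + lv b c‖ - 1)]
  have h6 : 2 * (κ * ∑ i, |(c i : ℝ)| - R) - 1 ≤ ‖y + lv b c‖ ^ 2 := by linarith only [hy, h3, h4, h5]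
  calc 2 * c₀ * κ * ∑ i, |(c i : ℝ)| - c₀ * (2 * R + 1) = c₀ * (2 * (κ * ∑ i, |(c i : ℝ)| - R) - 1) := by ring
    _ ≤ c₀ * ‖y + lv b c‖ ^ 2 := mul_le_mul_of_nonneg_left h6 hc₀.le
    _ ≤ _ := h2

/-- for large `s` the terms with `c ≠ 0` are small -/
theorem gsum_small (hW : ∀ y, (∀ i, W i y = 0) → y = 0) (b : RB k) : ∃ K : ℕ, 1 ≤ K ∧ ∀ s : ℝ, K ≤ s →
    ∀ S : Finset (Fin (2 * (k + 1)) → ℤ), (0 : Fin (2 * (k + 1)) → ℤ) ∉ S → ∑ c ∈ S, Real.exp (-(s * wt W (lv b c))) ≤ 1 / 4 := by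
  obtain ⟨c₀, hc₀, h0⟩ := wt_low hW
  obtain ⟨κ, hκ, h1⟩ := lv_low b
  set a : ℝ := c₀ * κ ^ 2 with ha
  have ha0 : 0 < a := by positivity
  have hsm := ser_sum ha0 (2 * (k + 1))
  set C : ℝ := ∑' c : Fin (2 * (k + 1)) → ℤ, Real.exp (-(a * ∑ i, |(c i : ℝ)|)) with hC
  have hC0 : 0 ≤ C := tsum_nonneg fun c => (Real.exp_pos _).le
  refine ⟨⌈4 * C / a⌉₊ + 1, by omega, fun s hs S hS => ?_⟩
  have hs1 : 4 * C / a + 1 ≤ s := by
    refine le_trans ?_ hs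
    push_cast
    linarith only [Nat.le_ceil (4 * C / a)]
  have hs2 : 4 * C ≤ (s - 1) * a := by
    rw [← div_le_iff₀ ha0]
    linarith only [hs1]
  have hs3 : 1 ≤ s := by
    have : 0 ≤ 4 * C / a := by positivity
    linarith only [hs1, this]
  have hterm : ∀ c ∈ S, Real.exp (-(s * wt W (lv b c))) ≤ Real.exp (-((s - 1) * a)) * Real.exp (-(a * ∑ i, |(c i : ℝ)|)) := by
    intro c hc
    rw [← Real.exp_add]
    refine Real.exp_le_exp.2 ?_
    have hne : c ≠ 0 := fun h => hS (h ▸ hc)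
    have hS1 : 1 ≤ ∑ i, |(c i : ℝ)| := by
      obtain ⟨i, hi⟩ := Function.ne_iff.1 hne
      have h2 : (1 : ℝ) ≤ |(c i : ℝ)| := by
        have h3 : (1 : ℤ) ≤ |c i| := Int.one_le_abs hi
        have h4 : ((1 : ℤ) : ℝ) ≤ ((|c i| : ℤ) : ℝ) := Int.cast_le.2 h3
        rw [Int.cast_abs, Int.cast_one] at h4
        exact h4
      exact h2.trans (Finset.single_le_sum (f := fun i => |(c i : ℝ)|) (fun j _ => abs_nonneg _) (Finset.mem_univ i))
    set t : ℝ := ∑ i, |(c i : ℝ)| with ht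
    have h2 : a * t ^ 2 ≤ wt W (lv b c) := by
      have h3 : (κ * t) ^ 2 ≤ ‖lv b c‖ ^ 2 := pow_le_pow_left₀ (by positivity) (h1 c) 2
      calc a * t ^ 2 = c₀ * (κ * t) ^ 2 := by rw [ha]; ring
        _ ≤ c₀ * ‖lv b c‖ ^ 2 := mul_le_mul_of_nonneg_left h3 hc₀.le
        _ ≤ _ := h0 _
    have h3 : a * t ≤ a * t ^ 2 := by
      refine mul_le_mul_of_nonneg_left ?_ ha0.le
      nlinarith only [hS1]
    have h4 : s * (a * t) ≤ s * wt W (lv b c) := mul_le_mul_of_nonneg_left (h3.trans h2) (by linarith)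
    have h5 : (s - 1) * a ≤ (s - 1) * a * t := by
      refine le_mul_of_one_le_right ?_ hS1
      exact mul_nonneg (by linarith) ha0.le
    nlinarith only [h4, h5]
  calc ∑ c ∈ S, Real.exp (-(s * wt W (lv b c))) ≤ ∑ c ∈ S, Real.exp (-((s - 1) * a)) * Real.exp (-(a * ∑ i, |(c i : ℝ)|)) := Finset.sum_le_sum hterm
    _ = Real.exp (-((s - 1) * a)) * ∑ c ∈ S, Real.exp (-(a * ∑ i, |(c i : ℝ)|)) := by rw [Finset.mul_sum]
    _ ≤ Real.exp (-((s - 1) * a)) * C := by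
        refine mul_le_mul_of_nonneg_left ?_ (Real.exp_pos _).le
        exact hsm.sum_le_tsum S fun c _ => (Real.exp_pos _).le
    _ ≤ 1 / 4 := by
        rw [Real.exp_neg, inv_mul_le_iff₀ (Real.exp_pos _)]
        have h6 := Real.add_one_le_exp ((s - 1) * a)
        linarith only [hs2, h6]

private theorem ser_pk_diff (W : Fin r → Vd (k + 1) →L[ℂ] ℂ) (M : ℕ) (p : Vd (k + 1)) : Differentiable ℂ (pk W M p) := by
  unfold pk
  refine Complex.differentiable_exp.comp ?_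
  refine (Differentiable.const_mul ?_ _)
  refine Differentiable.fun_sum fun i _ => ?_
  exact ((W i).differentiable.const_mul _).sub_const _

/-- the terms are holomorphic -/
private theorem ser_term (T : ThF Γ W e) (hb : ∀ i, b i ∈ Γ) (M : ℕ) (p : Vd (k + 1)) (c : Fin (2 * (k + 1)) → ℤ) :
    Differentiable ℂ fun y => e (lv b c) y ^ M * pk W M p (y + lv b c) := by
  have h1 : Differentiable ℂ (e (lv b c)) := fun y => (T.an _ (lv_mem hb c) y).differentiableAt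
  have h2 : Differentiable ℂ fun y : Vd (k + 1) => pk W M p (y + lv b c) :=
    (ser_pk_diff W M p).comp (differentiable_id.add_const _)
  exact (h1.pow M).mul h2

/-- bounds of the terms, uniform on a ball -/
private theorem ser_bound (T : ThF Γ W e) (hb : ∀ i, b i ∈ Γ) (hM : 1 ≤ M) (p w : Vd (k + 1)) :
    ∃ v : (Fin (2 * (k + 1)) → ℤ) → ℝ, Summable v ∧ ∀ c, ∀ y ∈ ball w 1, ‖e (lv b c) y ^ M * pk W M p (y + lv b c)‖ ≤ v c := by
  obtain ⟨α, β, hα, h⟩ := ser_wt T.pos b (‖w - p‖ + 1)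
  have hM0 : (0 : ℝ) < M := by exact_mod_cast hM
  set B : ℝ := ∑ i, (‖W i‖ * (‖w‖ + 1)) ^ 2 with hB
  have hBw : ∀ y ∈ ball w 1, wt W y ≤ B := by
    intro y hy
    rw [mem_ball, dist_eq_norm] at hy
    refine Finset.sum_le_sum fun i _ => ?_
    refine pow_le_pow_left₀ (norm_nonneg _) (((W i).le_opNorm y).trans ?_) 2
    refine mul_le_mul_of_nonneg_left ?_ (norm_nonneg _)
    calc ‖y‖ = ‖(y - w) + w‖ := by rw [sub_add_cancel]
      _ ≤ ‖y - w‖ + ‖w‖ := norm_add_le _ _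
      _ ≤ ‖w‖ + 1 := by linarith
  refine ⟨fun c => Real.exp (M * B + M * β) * Real.exp (-(M * α * ∑ i, |(c i : ℝ)|)),
    (ser_sum (mul_pos hM0 hα) (2 * (k + 1))).mul_left _, fun c y hy => ?_⟩
  have h1 := term_norm T hb M p y c
  have h2 : ‖e (lv b c) y ^ M * pk W M p (y + lv b c)‖ = Real.exp (-(M * wt W (y + lv b c - p))) * Real.exp (M * wt W y) := by
    rw [← h1, mul_assoc, ← Real.exp_add, neg_add_cancel, Real.exp_zero, mul_one]
  rw [h2, ← Real.exp_add]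
  show _ ≤ Real.exp (M * B + M * β) * Real.exp (-(M * α * ∑ i, |(c i : ℝ)|))
  rw [← Real.exp_add]
  refine Real.exp_le_exp.2 ?_
  have h3 : ‖y - p‖ ≤ ‖w - p‖ + 1 := by
    rw [mem_ball, dist_eq_norm] at hy
    calc ‖y - p‖ = ‖(y - w) + (w - p)‖ := by rw [sub_add_sub_cancel]
      _ ≤ ‖y - w‖ + ‖w - p‖ := norm_add_le _ _
      _ ≤ ‖w - p‖ + 1 := by linarith only [hy]
  have h4 := mul_le_mul_of_nonneg_left (h (y - p) h3 c) hM0.le
  have h5 := mul_le_mul_of_nonneg_left (hBw y hy) hM0.le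
  have h6 : y - p + lv b c = y + lv b c - p := by abel
  rw [h6] at h4
  linarith only [h4, h5]

theorem th_thm (T : ThF Γ W e) (hb : ∀ i, b i ∈ Γ) (hM : 1 ≤ M) (p : Vd (k + 1)) : ThM b e M (th b W e M p) := by
  refine ⟨fun w => ?_, fun c y => ?_⟩
  · obtain ⟨v, hv, hvb⟩ := ser_bound T hb hM p w
    refine Pool.Agent.TN.osgood_pi (r := 1) (M := ∑' c, v c) one_pos (fun y hy => ?_) fun y hy l => ?_
    · exact tsum_of_norm_bounded hv.hasSum fun c => hvb c y hy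
    · obtain ⟨s, hs, hsb⟩ := Metric.isOpen_iff.1 (isOpen_ball (x := w) (ε := 1)) y hy
      have hmaps : Set.MapsTo (fun t : ℂ => y + t • (Pi.single l 1 : Vd (k + 1))) (ball 0 s) (ball w 1) := by
        intro t ht
        apply hsb
        rw [mem_ball, dist_eq_norm, add_sub_cancel_left, norm_smul]
        rw [mem_ball, dist_zero_right] at ht
        have h1 : ‖(Pi.single l 1 : Vd (k + 1))‖ ≤ 1 := by
          refine (pi_norm_le_iff_of_nonneg zero_le_one).2 fun j => ?_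
          by_cases hj : j = l
          · subst hj
            simp
          · simp [Pi.single_eq_of_ne hj]
        calc ‖t‖ * ‖(Pi.single l 1 : Vd (k + 1))‖ ≤ ‖t‖ * 1 := by gcongr
          _ < s := by rw [mul_one]; exact ht
      have h2 : DifferentiableOn ℂ (fun t : ℂ => ∑' c : Fin (2 * (k + 1)) → ℤ,
          (e (lv b c) (y + t • (Pi.single l 1 : Vd (k + 1))) ^ M * pk W M p ((y + t • (Pi.single l 1 : Vd (k + 1))) + lv b c))) (ball 0 s) := by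
        refine Complex.differentiableOn_tsum_of_summable_norm hv (fun c => ?_) isOpen_ball fun c t ht => hvb c _ (hmaps ht)
        have h4 : Differentiable ℂ (fun t : ℂ => y + t • (Pi.single l 1 : Vd (k + 1))) := by fun_prop
        exact ((ser_term T hb M p c).comp h4).differentiableOn
      exact h2.differentiableAt (isOpen_ball.mem_nhds (mem_ball_self hs))
  · unfold th
    rw [← tsum_mul_left, ← (Equiv.addRight c).tsum_eq fun c'' : Fin (2 * (k + 1)) → ℤ => e (lv b c'') y ^ M * pk W M p (y + lv b c'')]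
    refine tsum_congr fun c' => ?_
    rw [Equiv.coe_addRight, lv_add, T.coc _ (lv_mem hb c') _ (lv_mem hb c) y, mul_pow, add_comm (lv b c') (lv b c), ← add_assoc]
    ring

theorem th_summable (T : ThF Γ W e) (hb : ∀ i, b i ∈ Γ) (hM : 1 ≤ M) (p y : Vd (k + 1)) :
    Summable fun c : Fin (2 * (k + 1)) → ℤ => ‖e (lv b c) y ^ M * pk W M p (y + lv b c)‖ := by
  obtain ⟨v, hv, hvb⟩ := ser_bound T hb hM p y
  exact Summable.of_nonneg_of_le (fun c => norm_nonneg _) (fun c => hvb c y (mem_ball_self one_pos)) hv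

end Pool.Agent.G4.H

end

section

/-!
# G4 H Dim: the dimension of the space of the theta functions of weight `M wt W` is at least `m ^ (2 (k + 1))`, `M = K m²`

`b`, `K` from `exists_rb`, `gsum_small`.  `p j = (1 / m) lv b j`, `j : Fin (2 (k + 1)) → Fin m`, `M = K * m ^ 2`.  For `x : (Fin (2 (k + 1)) → Fin m) → ℂ`, `f = ∑ j, x j • th b W e M (p j)`; take `j₀` with `‖x j‖ ≤ ‖x j₀‖` for all `j`; at `y = p j₀`:
the term `(j₀, c = 0)` of `∑ j, x j ∑' c, …` has normalised size `‖x j₀‖`; the other terms `(j, c)` have total size `≤ ‖x j₀‖ ∑ exp (- M wt (p j₀ + lv b c - p j))`, `p j₀ + lv b c - p j = (1 / m) lv b (j₀ - j + m c)`, `(j, c) ↦ j₀ - j + m c`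
injective and `≠ 0`, `M wt ((1 / m) v) = K wt v`: by `gsum_small` `≤ ‖x j₀‖ / 4`.  So `f (p j₀) ≠ 0` if `x ≠ 0`.  With fewer than `m ^ (2 (k + 1))` linear conditions there is `x ≠ 0` which satisfies all of them.
-/

set_option autoImplicit false

open Topology Filter Metric

namespace Pool.Agent.G4.H

open Pool.Agent.AD (Vd)
open Pool.Agent.TG (Lat)
open Pool.Agent.G3 (wt)

variable {k r : ℕ} {Γ : AddSubgroup (Vd (k + 1))} {W : Fin r → Vd (k + 1) →L[ℂ] ℂ} {e : Vd (k + 1) → Vd (k + 1) → ℂ}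

private theorem lv_comb (b : RB k) {m : ℕ} (hm : 1 ≤ m) (i j c : Fin (2 * (k + 1)) → ℤ) :
    (1 / (m : ℝ)) • lv b j + lv b c - (1 / (m : ℝ)) • lv b i = (1 / (m : ℝ)) • lv b (fun a => j a - i a + m * c a) := by
  have hm' : (m : ℝ) ≠ 0 := by exact_mod_cast (by omega : m ≠ 0)
  simp only [lv, Finset.smul_sum, ← Finset.sum_add_distrib, ← Finset.sum_sub_distrib, smul_smul, ← add_smul, ← sub_smul]
  refine Finset.sum_congr rfl fun a _ => ?_
  congr 1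
  push_cast
  field_simp
  ring

private theorem wt_div (W : Fin r → Vd (k + 1) →L[ℂ] ℂ) {m : ℕ} (hm : 1 ≤ m) (K : ℕ) (v : Vd (k + 1)) :
    ((K * m ^ 2 : ℕ) : ℝ) * wt W ((1 / (m : ℝ)) • v) = K * wt W v := by
  have hm' : (m : ℝ) ≠ 0 := by exact_mod_cast (by omega : m ≠ 0)
  have : wt W ((1 / (m : ℝ)) • v) = (1 / (m : ℝ)) ^ 2 * wt W v := by
    simp only [wt, Finset.mul_sum]
    refine Finset.sum_congr rfl fun i _ => ?_
    rw [ContinuousLinearMap.map_smul_of_tower, norm_smul, mul_pow, Real.norm_eq_abs, sq_abs]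
  rw [this]
  push_cast
  field_simp

private theorem idx_inj {ι : Type} {m : ℕ} (j i i' : ι → Fin m) (c c' : ι → ℤ)
    (h : (fun a => ((j a : ℕ) : ℤ) - ((i a : ℕ) : ℤ) + m * c a) = fun a => ((j a : ℕ) : ℤ) - ((i' a : ℕ) : ℤ) + m * c' a) : i = i' ∧ c = c' := by
  have h1 : ∀ a, ((i a : ℕ) : ℤ) - ((i' a : ℕ) : ℤ) = m * (c a - c' a) := fun a => by
    have := congrFun h a
    linarith
  have h2 : ∀ a, c a = c' a := by
    intro a
    have hi := (i a).2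
    have hi' := (i' a).2
    have e := h1 a
    by_contra hne
    rcases lt_or_gt_of_ne hne with hlt | hgt
    · have : (m : ℤ) * (c a - c' a) ≤ m * (-1) := mul_le_mul_of_nonneg_left (by omega) (by omega)
      omega
    · have : (m : ℤ) * 1 ≤ m * (c a - c' a) := mul_le_mul_of_nonneg_left (by omega) (by omega)
      omega
  refine ⟨?_, funext h2⟩
  funext a
  have e := h1 a
  rw [h2 a, sub_self, mul_zero] at e
  exact Fin.ext (by omega)

private theorem lv_zero (b : RB k) : lv b 0 = 0 := by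
  simp [lv]

private theorem main_bd (T : ThF Γ W e) {b : RB k} (hb : ∀ i, b i ∈ Γ) {K m : ℕ} (hm : 1 ≤ m)
    (hK : ∀ s : ℝ, K ≤ s → ∀ S : Finset (Fin (2 * (k + 1)) → ℤ), (0 : Fin (2 * (k + 1)) → ℤ) ∉ S → ∑ c ∈ S, Real.exp (-(s * wt W (lv b c))) ≤ 1 / 4)
    (x : (Fin (2 * (k + 1)) → Fin m) → ℂ) (j₀ : Fin (2 * (k + 1)) → Fin m) (hj : ∀ i, ‖x i‖ ≤ ‖x j₀‖) (S : Finset (Fin (2 * (k + 1)) → ℤ)) (hS : {0} ⊆ S)
    (p : (Fin (2 * (k + 1)) → Fin m) → Vd (k + 1)) (hp : ∀ i, p i = (1 / (m : ℝ)) • lv b (fun a => ((i a : ℕ) : ℤ))) :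
    ‖x j₀‖ * (3 / 4) ≤ ‖∑ c ∈ S, ∑ i, x i * (e (lv b c) (p j₀) ^ (K * m ^ 2) * pk W (K * m ^ 2) (p i) (p j₀ + lv b c))‖ * Real.exp (-(((K * m ^ 2 : ℕ) : ℝ) * wt W (p j₀))) := by
  classical
  set M : ℕ := K * m ^ 2 with hM
  set E : ℝ := Real.exp (-((M : ℝ) * wt W (p j₀))) with hE
  have hE0 : 0 < E := Real.exp_pos _
  set t : (Fin (2 * (k + 1)) → Fin m) × (Fin (2 * (k + 1)) → ℤ) → ℂ := fun q => x q.1 * (e (lv b q.2) (p j₀) ^ M * pk W M (p q.1) (p j₀ + lv b q.2)) with ht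
  have hsum : ∑ c ∈ S, ∑ i, x i * (e (lv b c) (p j₀) ^ M * pk W M (p i) (p j₀ + lv b c)) = ∑ q ∈ (Finset.univ : Finset (Fin (2 * (k + 1)) → Fin m)) ×ˢ S, t q := by
    rw [Finset.sum_product_right]
  have hmem : (j₀, (0 : Fin (2 * (k + 1)) → ℤ)) ∈ (Finset.univ : Finset (Fin (2 * (k + 1)) → Fin m)) ×ˢ S := by
    simp only [Finset.mem_product, Finset.mem_univ, true_and]
    exact hS (by simp)
  have htn : ∀ q, ‖t q‖ * E = ‖x q.1‖ * Real.exp (-(K * wt W (lv b (fun a => ((j₀ a : ℕ) : ℤ) - ((q.1 a : ℕ) : ℤ) + m * q.2 a)))) := by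
    intro q
    rw [ht]
    simp only
    rw [norm_mul, mul_assoc, hE, term_norm T hb M (p q.1) (p j₀) q.2, hp j₀, hp q.1, lv_comb b hm, hM, wt_div W hm]
  have h0 : ‖t (j₀, 0)‖ * E = ‖x j₀‖ := by
    rw [htn]
    have : (fun a => ((j₀ a : ℕ) : ℤ) - ((j₀ a : ℕ) : ℤ) + m * (0 : Fin (2 * (k + 1)) → ℤ) a) = 0 := by
      funext a; simp
    simp only [this, lv_zero]
    simp [wt]
  have hrest : ‖∑ q ∈ ((Finset.univ : Finset (Fin (2 * (k + 1)) → Fin m)) ×ˢ S).erase (j₀, 0), t q‖ * E ≤ ‖x j₀‖ * (1 / 4) := by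
    calc ‖∑ q ∈ ((Finset.univ : Finset (Fin (2 * (k + 1)) → Fin m)) ×ˢ S).erase (j₀, 0), t q‖ * E
        ≤ (∑ q ∈ ((Finset.univ : Finset (Fin (2 * (k + 1)) → Fin m)) ×ˢ S).erase (j₀, 0), ‖t q‖) * E := mul_le_mul_of_nonneg_right (norm_sum_le _ _) hE0.le
      _ = ∑ q ∈ ((Finset.univ : Finset (Fin (2 * (k + 1)) → Fin m)) ×ˢ S).erase (j₀, 0), ‖x q.1‖ * Real.exp (-(K * wt W (lv b (fun a => ((j₀ a : ℕ) : ℤ) - ((q.1 a : ℕ) : ℤ) + m * q.2 a)))) := by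
          rw [Finset.sum_mul]
          exact Finset.sum_congr rfl fun q _ => htn q
      _ ≤ ∑ q ∈ ((Finset.univ : Finset (Fin (2 * (k + 1)) → Fin m)) ×ˢ S).erase (j₀, 0), ‖x j₀‖ * Real.exp (-(K * wt W (lv b (fun a => ((j₀ a : ℕ) : ℤ) - ((q.1 a : ℕ) : ℤ) + m * q.2 a)))) :=
          Finset.sum_le_sum fun q _ => mul_le_mul_of_nonneg_right (hj q.1) (Real.exp_pos _).le
      _ = ‖x j₀‖ * ∑ v ∈ (((Finset.univ : Finset (Fin (2 * (k + 1)) → Fin m)) ×ˢ S).erase (j₀, 0)).image (fun q a => ((j₀ a : ℕ) : ℤ) - ((q.1 a : ℕ) : ℤ) + m * q.2 a), Real.exp (-(K * wt W (lv b v))) := by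
          rw [← Finset.mul_sum, Finset.sum_image]
          intro q _ q' _ hqq
          obtain ⟨h1, h2⟩ := idx_inj j₀ q.1 q'.1 q.2 q'.2 hqq
          exact Prod.ext h1 h2
      _ ≤ ‖x j₀‖ * (1 / 4) := by
          refine mul_le_mul_of_nonneg_left (hK K le_rfl _ ?_) (norm_nonneg _)
          intro hmem0
          obtain ⟨q, hq, hq0⟩ := Finset.mem_image.1 hmem0
          have hq1 := (Finset.mem_erase.1 hq).1
          apply hq1
          have : (fun a => ((j₀ a : ℕ) : ℤ) - ((q.1 a : ℕ) : ℤ) + m * q.2 a) = fun a => ((j₀ a : ℕ) : ℤ) - ((j₀ a : ℕ) : ℤ) + m * (0 : Fin (2 * (k + 1)) → ℤ) a := by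
            rw [hq0]; funext a; simp
          obtain ⟨h1, h2⟩ := idx_inj j₀ q.1 j₀ q.2 0 this
          exact Prod.ext h1 h2
  rw [hsum, ← Finset.add_sum_erase _ _ hmem]
  have htri : ‖t (j₀, 0)‖ - ‖∑ q ∈ ((Finset.univ : Finset (Fin (2 * (k + 1)) → Fin m)) ×ˢ S).erase (j₀, 0), t q‖ ≤ ‖t (j₀, 0) + ∑ q ∈ ((Finset.univ : Finset (Fin (2 * (k + 1)) → Fin m)) ×ˢ S).erase (j₀, 0), t q‖ := by
    have := norm_sub_le (t (j₀, 0) + ∑ q ∈ ((Finset.univ : Finset (Fin (2 * (k + 1)) → Fin m)) ×ˢ S).erase (j₀, 0), t q) (∑ q ∈ ((Finset.univ : Finset (Fin (2 * (k + 1)) → Fin m)) ×ˢ S).erase (j₀, 0), t q)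
    rw [add_sub_cancel_right] at this
    linarith
  have := mul_le_mul_of_nonneg_right htri hE0.le
  rw [sub_mul] at this
  linarith

private theorem lin_sum (Φ : (Vd (k + 1) → ℂ) → ℂ)
    (hΦ : ∀ (f g : Vd (k + 1) → ℂ) (c : ℂ), (∀ y, AnalyticAt ℂ f y) → (∀ y, AnalyticAt ℂ g y) → Φ (fun y => f y + c * g y) = Φ f + c * Φ g)
    {ι : Type} (s : Finset ι) (x : ι → ℂ) (g : ι → Vd (k + 1) → ℂ) (hg : ∀ i, ∀ y, AnalyticAt ℂ (g i) y) :
    Φ (fun y => ∑ i ∈ s, x i * g i y) = ∑ i ∈ s, x i * Φ (g i) := by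
  classical
  induction s using Finset.induction_on with
  | empty =>
    have := hΦ (fun _ => 0) (fun _ => 0) (-1) (fun y => analyticAt_const) (fun y => analyticAt_const)
    simp only [mul_zero, add_zero] at this
    simp only [Finset.sum_empty]
    linear_combination this
  | insert a s ha ih =>
    have hs : ∀ y, AnalyticAt ℂ (fun y => ∑ i ∈ s, x i * g i y) y := fun y =>
      Finset.analyticAt_fun_sum s fun i _ => analyticAt_const.mul (hg i y)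
    have := hΦ (fun y => ∑ i ∈ s, x i * g i y) (g a) (x a) hs (hg a)
    rw [ih] at this
    have hfun : (fun y => ∑ i ∈ insert a s, x i * g i y) = fun y => ∑ i ∈ s, x i * g i y + x a * g a y := by
      funext y
      rw [Finset.sum_insert ha]
      ring
    rw [hfun, this, Finset.sum_insert ha]
    ring

theorem theta_ex (T : ThF Γ W e) {b : RB k} (hb : ∀ i, b i ∈ Γ) : ∃ K : ℕ, 1 ≤ K ∧ ∀ m : ℕ, 1 ≤ m → ∀ (J : Type) [Fintype J] (Φ : J → (Vd (k + 1) → ℂ) → ℂ),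
    (∀ j (f g : Vd (k + 1) → ℂ) (c : ℂ), (∀ y, AnalyticAt ℂ f y) → (∀ y, AnalyticAt ℂ g y) → Φ j (fun y => f y + c * g y) = Φ j f + c * Φ j g) →
    Fintype.card J < m ^ (2 * (k + 1)) → ∃ f : Vd (k + 1) → ℂ, ThM b e (K * m ^ 2) f ∧ (∃ y, f y ≠ 0) ∧ ∀ j, Φ j f = 0 := by
  classical
  obtain ⟨K, hK1, hK⟩ := gsum_small T.pos b
  refine ⟨K, hK1, fun m hm J _ Φ hΦ hcard => ?_⟩
  have hM1 : 1 ≤ K * m ^ 2 := Nat.one_le_iff_ne_zero.2 (by positivity)
  set p : (Fin (2 * (k + 1)) → Fin m) → Vd (k + 1) := fun i => (1 / (m : ℝ)) • lv b (fun a => ((i a : ℕ) : ℤ)) with hp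
  set θ : (Fin (2 * (k + 1)) → Fin m) → Vd (k + 1) → ℂ := fun i => th b W e (K * m ^ 2) (p i) with hθ
  have hθm : ∀ i, ThM b e (K * m ^ 2) (θ i) := fun i => th_thm T hb hM1 (p i)
  let L : ((Fin (2 * (k + 1)) → Fin m) → ℂ) →ₗ[ℂ] (J → ℂ) :=
    { toFun := fun x j => ∑ i, x i * Φ j (θ i)
      map_add' := fun x x' => by
        funext j; simp only [Pi.add_apply, add_mul, Finset.sum_add_distrib]
      map_smul' := fun c x => by
        funext j; simp only [Pi.smul_apply, smul_eq_mul, RingHom.id_apply, Finset.mul_sum, mul_assoc] }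
  have hker : LinearMap.ker L ≠ ⊥ := by
    apply LinearMap.ker_ne_bot_of_finrank_lt
    simpa [Module.finrank_fintype_fun_eq_card, Fintype.card_fun] using hcard
  obtain ⟨x, hxL, hx0⟩ := (Submodule.ne_bot_iff _).1 hker
  have hLx : ∀ j, ∑ i, x i * Φ j (θ i) = 0 := fun j => congrFun (LinearMap.mem_ker.1 hxL) j
  refine ⟨fun y => ∑ i, x i * θ i y, ⟨?_, ?_⟩, ?_, ?_⟩
  · exact fun y => Finset.analyticAt_fun_sum _ fun i _ => analyticAt_const.mul ((hθm i).an y)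
  · intro c y
    rw [Finset.mul_sum]
    refine Finset.sum_congr rfl fun i _ => ?_
    rw [← (hθm i).per c y]
    ring
  · obtain ⟨i₁, hi₁⟩ := Function.ne_iff.1 hx0
    have : Nonempty (Fin (2 * (k + 1)) → Fin m) := ⟨i₁⟩
    obtain ⟨j₀, hj₀⟩ := Finite.exists_max (fun i => ‖x i‖)
    have hxj : 0 < ‖x j₀‖ := lt_of_lt_of_le (norm_pos_iff.2 hi₁) (hj₀ i₁)
    refine ⟨p j₀, ?_⟩
    have hs : HasSum (fun c => ∑ i, x i * (e (lv b c) (p j₀) ^ (K * m ^ 2) * pk W (K * m ^ 2) (p i) (p j₀ + lv b c))) (∑ i, x i * θ i (p j₀)) := by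
      apply hasSum_sum
      intro i _
      exact ((th_summable T hb hM1 (p i) (p j₀)).of_norm.hasSum).mul_left (x i)
    have ht : Tendsto (fun S : Finset (Fin (2 * (k + 1)) → ℤ) => ‖∑ c ∈ S, ∑ i, x i * (e (lv b c) (p j₀) ^ (K * m ^ 2) * pk W (K * m ^ 2) (p i) (p j₀ + lv b c))‖ * Real.exp (-(((K * m ^ 2 : ℕ) : ℝ) * wt W (p j₀)))) atTop
        (𝓝 (‖∑ i, x i * θ i (p j₀)‖ * Real.exp (-(((K * m ^ 2 : ℕ) : ℝ) * wt W (p j₀))))) := (Tendsto.norm hs).mul_const _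
    have hge := ge_of_tendsto ht ((eventually_ge_atTop {0}).mono fun S hS => main_bd T hb hm hK x j₀ hj₀ S hS p (fun i => rfl))
    intro h0
    replace h0 : ∑ i, x i * θ i (p j₀) = 0 := h0
    rw [h0, norm_zero, zero_mul] at hge
    linarith
  · intro j
    rw [lin_sum (Φ j) (hΦ j) Finset.univ x θ fun i y => (hθm i).an y]
    exact hLx j

end Pool.Agent.G4.H

end
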