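import Pool.Agent.H94.PX4.HE.Sec
import Pool.Agent.H94.PX4.HE.Spr
import Pool.Agent.H94.PX4.M52
import Pool.Agent.H94.PX4.M55
import Pool.Agent.H94.PX4.M69
import Pool.Agent.H94.PX4.M77

/-! The parts of this file: HE.Long, HE.Bound_1, HE.F.Dsc. -/

section

/-!
# HE Long: no long curves

`claim`: for every set `J` of indices, on a long curve which starts over `Gd D δ` some `F j`, `j ∈ J`, is not small at `0`; by downward induction on `J`.  If `J` contains all ample indices this is `nosec`.  Otherwise there is an ample `i ∉ J`;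
if all `F j`, `j ∈ J`, are very small at `0` then they are small at all points over `Gd D δ'` of a large disc (`spread`), so `F i` is not small there by the claim for `J ∪ {i}`, so at all points of the disc by the maximum principle (`circ`, `psi_max`),
against `psi_grow` and `qf_le`.  The claim for `J = ∅` says that there are no long curves.
-/

set_option autoImplicit false

open Topology Filter Metric

namespace Pool.Agent.HE

open Pool.Agent.H36.BP (EN fs wd)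
open Pool.Agent.H62.EF (MN pr)
open Pool.Agent.AD (Vd)
open Pool.Agent.TG (Lat Gd)
open Pool.Agent.G3 (wt LLift)

variable {N k q r : ℕ} {Λ : AddSubgroup (Vd (k + 1))} {D : Set (Vd (k + 1))} {X : Set (Vd (k + 1) × EN N)} {F : Fin q → Vd (k + 1) × EN N → ℂ} {d : Fin q → ℕ}
  {W : Fin q → Fin r → Vd (k + 1) →L[ℂ] ℂ}

/-- the mean value inequality -/
private theorem Long_mv {h : ℂ → Vd (k + 1)} {a : Vd (k + 1)} {R η : ℝ} (hd : DifferentiableOn ℂ h (ball 0 R))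
    (hη : ∀ z ∈ ball (0 : ℂ) R, ‖deriv h z - a‖ ≤ η) (x y : ℂ) (hx : x ∈ ball (0 : ℂ) R) (hy : y ∈ ball (0 : ℂ) R) :
    ‖h y - h x - (y - x) • a‖ ≤ η * ‖y - x‖ := by
  have hdf : ∀ z ∈ ball (0 : ℂ) R, DifferentiableAt ℂ h z := fun z hz => hd.differentiableAt (isOpen_ball.mem_nhds hz)
  have h1 : ∀ z ∈ ball (0 : ℂ) R, HasDerivAt (fun z => h z - z • a) (deriv h z - a) z := by
    intro z hz
    have h2 := (hdf z hz).hasDerivAt.sub ((hasDerivAt_id z).smul_const a)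
    rw [one_smul] at h2
    exact h2
  have h3 := Convex.norm_image_sub_le_of_norm_hasDerivWithin_le (f := fun z => h z - z • a) (fun z hz => (h1 z hz).hasDerivWithinAt) hη
    (convex_ball 0 R) hx hy
  have h4 : h y - h x - (y - x) • a = (h y - y • a) - (h x - x • a) := by
    rw [sub_smul]
    abel
  rw [h4]
  exact h3

private theorem Long_pos (c : Fin q → ℝ) (hc : ∀ j, 0 < c j) : ∃ m : ℝ, 0 < m ∧ ∀ j, m ≤ c j := by
  have h0 : ∀ j, 0 < (c j)⁻¹ := fun j => inv_pos.2 (hc j)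
  have h1 : 0 < ∑ j, (c j)⁻¹ + 1 := by
    have := Finset.sum_nonneg fun j (_ : j ∈ Finset.univ) => (h0 j).le
    linarith
  refine ⟨(∑ j, (c j)⁻¹ + 1)⁻¹, inv_pos.2 h1, fun j => ?_⟩
  rw [inv_le_comm₀ h1 (hc j)]
  have := Finset.single_le_sum (f := fun j => (c j)⁻¹) (fun i _ => (h0 i).le) (Finset.mem_univ j)
  linarith

/-- a long curve -/
private structure Lg (X : Set (Vd (k + 1) × EN N)) (F : Fin q → Vd (k + 1) × EN N → ℂ) (A₁ A₂ R η : ℝ) (w : ℂ → EN N) (h : ℂ → Vd (k + 1)) (a : Vd (k + 1)) : Prop where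
  a1 : A₁ ≤ ‖a‖
  a2 : ‖a‖ ≤ A₂
  cw : Cw X F (ball 0 R) w h
  der : ∀ z ∈ ball (0 : ℂ) R, ‖deriv h z - a‖ ≤ η

private theorem Lg.shift {A₁ A₂ R η R' η' : ℝ} {w : ℂ → EN N} {h : ℂ → Vd (k + 1)} {a : Vd (k + 1)} (L : Lg X F A₁ A₂ R η w h a) {z₀ : ℂ} (hz₀ : ‖z₀‖ + R' ≤ R) (hη : η ≤ η') :
    Lg X F A₁ A₂ R' η' (fun z => w (z₀ + z)) (fun z => h (z₀ + z)) a := by
  have hm : Set.MapsTo (fun z : ℂ => z₀ + z) (ball 0 R') (ball 0 R) := by
    intro z hz
    rw [mem_ball_zero_iff] at hz ⊢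
    calc ‖z₀ + z‖ ≤ ‖z₀‖ + ‖z‖ := norm_add_le _ _
      _ < R := by linarith
  refine ⟨L.a1, L.a2, L.cw.comp (by fun_prop) hm, fun z hz => ?_⟩
  rw [deriv_comp_const_add]
  exact (L.der _ (hm hz)).trans hη

private theorem Long_claim (P : HD Λ D X F d W) {A₁ A₂ : ℝ} (hA₁ : 0 < A₁) : ∀ (n : ℕ) (J : Finset (Fin q)), (Finset.univ \ J).card ≤ n → ∀ δ : ℝ, 0 < δ →
    ∃ R c η : ℝ, 0 < R ∧ 0 < c ∧ 0 < η ∧ ∀ (w : ℂ → EN N) (h : ℂ → Vd (k + 1)) (a : Vd (k + 1)), Lg X F A₁ A₂ R η w h a → h 0 ∈ Gd D δ →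
      ∃ j ∈ J, c ≤ qf (F j) (d j) (W j) (h 0) (w 0) := by
  classical
  -- sets which contain all ample indices
  have hbase : ∀ J : Finset (Fin q), (∀ i, (∀ y, (∀ s, W i s y = 0) → y = 0) → i ∈ J) → ∀ δ : ℝ, 0 < δ →
      ∃ R c η : ℝ, 0 < R ∧ 0 < c ∧ 0 < η ∧ ∀ (w : ℂ → EN N) (h : ℂ → Vd (k + 1)) (a : Vd (k + 1)), Lg X F A₁ A₂ R η w h a → h 0 ∈ Gd D δ →
        ∃ j ∈ J, c ≤ qf (F j) (d j) (W j) (h 0) (w 0) := by
    intro J hJ δ hδ
    obtain ⟨R, c, η, hR, hc, hη, h1⟩ := P.nosec J hJ (A₂ := A₂) hδ hA₁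
    refine ⟨R, c, η / R, hR, hc, div_pos hη hR, fun w h a L h0 => h1 w h a L.a1 L.a2 L.cw ?_ h0⟩
    intro v hv
    have h2 := Long_mv L.cw.h_diff L.der 0 v (mem_ball_self hR) hv
    rw [sub_zero] at h2
    rw [mem_ball_zero_iff] at hv
    have e : h v - (h 0 + v • a) = h v - h 0 - v • a := by abel
    rw [e]
    refine h2.trans ?_
    rw [div_mul_eq_mul_div, div_le_iff₀ hR]
    exact mul_le_mul_of_nonneg_left hv.le hη.le
  intro n
  induction n with
  | zero =>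
    intro J hJ δ hδ
    refine hbase J (fun i _ => ?_) δ hδ
    by_contra hi
    have h1 : i ∈ Finset.univ \ J := Finset.mem_sdiff.2 ⟨Finset.mem_univ i, hi⟩
    rw [Nat.le_zero, Finset.card_eq_zero] at hJ
    rw [hJ] at h1
    exact Finset.notMem_empty i h1
  | succ n ih =>
    intro J hJ δ hδ
    by_cases hz : ∀ i, (∀ y, (∀ s, W i s y = 0) → y = 0) → i ∈ J
    · exact hbase J hz δ hδ
    push Not at hz
    obtain ⟨i, hpos, hi⟩ := hz
    have hcard : (Finset.univ \ insert i J).card ≤ n := by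
      have h1 : (Finset.univ \ insert i J) ⊂ (Finset.univ \ J) := by
        refine (Finset.ssubset_iff_of_subset (Finset.sdiff_subset_sdiff le_rfl (Finset.subset_insert i J))).2 ⟨i, Finset.mem_sdiff.2 ⟨Finset.mem_univ i, hi⟩, ?_⟩
        rw [Finset.mem_sdiff]
        exact fun h => h.2 (Finset.mem_insert_self i J)
      have h2 := Finset.card_lt_card h1
      omega
    obtain ⟨δc, hδc, hcirc⟩ := P.circ (A₂ := A₂) hA₁ one_pos
    obtain ⟨R₁, c₁, η₁, hR₁, hc₁, hη₁, hone⟩ := ih (insert i J) hcard (δc / 2) (half_pos hδc)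
    obtain ⟨C, hC, hle⟩ := P.qf_le
    obtain ⟨c₀, hc₀, hgrow⟩ := P.psi_grow i hpos (half_pos hA₁)
    set S : ℝ := max 1 (C / (c₁ * c₀)) with hS
    have hS1 : 1 ≤ S := le_max_left _ _
    have hS2 : C / (c₁ * c₀) ≤ S := le_max_right _ _
    have hspr := fun j : Fin q => P.spread j (A₂ := A₂) (T := S + 2) hδ (half_pos hδc) hA₁ hc₁
    choose Rs cs ηs hRs hcs hηs hsp using hspr
    obtain ⟨c, hc, hcle⟩ := Long_pos cs hcs
    obtain ⟨η₂, hη₂, hη₂le⟩ := Long_pos (fun j => ηs j / Rs j) (fun j => div_pos (hηs j) (hRs j))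
    set R : ℝ := R₁ + 3 + S + ∑ j, Rs j with hR
    have hsum : 0 ≤ ∑ j, Rs j := Finset.sum_nonneg fun j _ => (hRs j).le
    have hRsle : ∀ j, Rs j ≤ R := by
      intro j
      have := Finset.single_le_sum (f := Rs) (fun i _ => (hRs i).le) (Finset.mem_univ j)
      linarith
    set η : ℝ := min (A₁ / 2) (min (δc / 4) (min η₁ η₂)) with hη
    have h0η : 0 < η := lt_min (half_pos hA₁) (lt_min (by linarith) (lt_min hη₁ hη₂))
    have e1 : η ≤ A₁ / 2 := min_le_left _ _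
    have e2 : η ≤ δc / 4 := (min_le_right _ _).trans (min_le_left _ _)
    have e3 : η ≤ η₁ := (min_le_right _ _).trans ((min_le_right _ _).trans (min_le_left _ _))
    have e4 : ∀ j, η * Rs j ≤ ηs j := by
      intro j
      have h1 : η ≤ ηs j / Rs j := ((min_le_right _ _).trans ((min_le_right _ _).trans (min_le_right _ _))).trans (hη₂le j)
      rwa [le_div_iff₀ (hRs j)] at h1
    refine ⟨R, c, η, by linarith, hc, h0η, fun w h a L h0 => ?_⟩
    by_contra hcon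
    push Not at hcon
    have mv := Long_mv L.cw.h_diff L.der
    have h0R : (0 : ℂ) ∈ ball (0 : ℂ) R := mem_ball_self (by linarith)
    -- the small forms
    have s0 : ∀ j ∈ J, ∀ z : ℂ, ‖z‖ ≤ S + 2 → h z ∈ Gd D (δc / 2) → qf (F j) (d j) (W j) (h z) (w z) < c₁ := by
      intro j hj z hz hg
      refine hsp j w h a L.a1 L.a2 (L.cw.mono (ball_subset_ball (hRsle j))) ?_ h0 ((hcon j hj).trans_le (hcle j)) z hz hg
      intro v hv
      have h2 := mv 0 v h0R (ball_subset_ball (hRsle j) hv)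
      rw [sub_zero] at h2
      rw [mem_ball_zero_iff] at hv
      have e : h v - (h 0 + v • a) = h v - h 0 - v • a := by abel
      rw [e]
      exact h2.trans ((mul_le_mul_of_nonneg_left hv.le h0η.le).trans (e4 j))
    -- near the set of the good points
    have s1 : ∀ z₀ : ℂ, ‖z₀‖ ≤ S + 2 → h z₀ ∈ Gd D (δc / 2) → c₁ ≤ qf (F i) (d i) (W i) (h z₀) (w z₀) := by
      intro z₀ hz₀ hg
      obtain ⟨j, hj, h1⟩ := hone _ _ _ (L.shift (R' := R₁) (z₀ := z₀) (by linarith) e3) (by simpa only [add_zero] using hg)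
      simp only [add_zero] at h1
      rw [Finset.mem_insert] at hj
      rcases hj with rfl | hj
      · exact h1
      · exact absurd h1 (not_le.2 (s0 j hj z₀ hz₀ hg))
    -- all points
    have s2 : ∀ z₀ : ℂ, ‖z₀‖ ≤ S → c₁ ≤ qf (F i) (d i) (W i) (h z₀) (w z₀) := by
      intro z₀ hz₀
      obtain ⟨s, hs0, hs1, hs⟩ := hcirc (h z₀) a L.a1 L.a2
      have hsub : ball z₀ 2 ⊆ ball (0 : ℂ) R := by
        intro z hz
        rw [mem_ball_zero_iff]
        rw [mem_ball, dist_eq_norm] at hz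
        have : ‖z‖ ≤ ‖z - z₀‖ + ‖z₀‖ := by
          calc ‖z‖ = ‖(z - z₀) + z₀‖ := by rw [sub_add_cancel]
            _ ≤ _ := norm_add_le _ _
        linarith
      refine P.psi_max i hs0 (by linarith : s < 2) (L.cw.mono hsub) hc₁ ?_
      intro z hz
      rw [mem_sphere, dist_eq_norm] at hz
      have hzn : ‖z‖ ≤ ‖z - z₀‖ + ‖z₀‖ := by
        calc ‖z‖ = ‖(z - z₀) + z₀‖ := by rw [sub_add_cancel]
          _ ≤ _ := norm_add_le _ _
      refine s1 z (by linarith) ?_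
      have h2 := mv z₀ z (hsub (mem_ball_self two_pos)) (hsub (by
        rw [mem_ball, dist_eq_norm]
        linarith))
      have h3 := hs (z - z₀) hz
      intro b hb
      have h4 := h3 b hb
      have h5 : ‖h z₀ + (z - z₀) • a - b‖ ≤ ‖h z - b‖ + ‖h z - h z₀ - (z - z₀) • a‖ := by
        calc ‖h z₀ + (z - z₀) • a - b‖ = ‖(h z - b) - (h z - h z₀ - (z - z₀) • a)‖ := by
              congr 1
              abel
          _ ≤ _ := norm_sub_le _ _
      have h6 : η * ‖z - z₀‖ ≤ δc / 4 := by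
        rw [hz]
        calc η * s ≤ η * 1 := mul_le_mul_of_nonneg_left hs1 h0η.le
          _ = η := mul_one _
          _ ≤ δc / 4 := e2
      linarith
    -- growth
    have h7 := hgrow w h S R (by linarith) (by linarith) L.cw (by
      intro z hz
      have h8 := L.der z hz
      have h9 : ‖a‖ ≤ ‖deriv h z‖ + ‖deriv h z - a‖ := by
        calc ‖a‖ = ‖deriv h z - (deriv h z - a)‖ := by rw [sub_sub_cancel]
          _ ≤ _ := norm_sub_le _ _
      have h10 := L.a1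
      linarith) c₁ hc₁ (by
      intro z hz
      rw [mem_sphere_zero_iff_norm] at hz
      exact s2 z hz.le)
    have h10 := hle i (h 0) (w 0)
    have h11 : c₀ * S ^ 2 + 1 ≤ Real.exp (c₀ * S ^ 2) := Real.add_one_le_exp _
    have h12 : S ≤ S ^ 2 := by nlinarith
    have h13 : C ≤ c₁ * (c₀ * S) := by
      rw [div_le_iff₀ (mul_pos hc₁ hc₀)] at hS2
      linarith
    have h14 : c₁ * (c₀ * S) ≤ c₁ * (c₀ * S ^ 2) :=
      mul_le_mul_of_nonneg_left (mul_le_mul_of_nonneg_left h12 hc₀.le) hc₁.le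
    have h15 : c₁ * (c₀ * S ^ 2 + 1) ≤ c₁ * Real.exp (c₀ * S ^ 2) := mul_le_mul_of_nonneg_left h11 hc₁.le
    linarith

theorem HD.no_long (P : HD Λ D X F d W) {A₁ A₂ : ℝ} (hA₁ : 0 < A₁) : ∃ R η : ℝ, 0 < R ∧ 0 < η ∧ ∀ (w : ℂ → EN N) (h : ℂ → Vd (k + 1)) (a : Vd (k + 1)),
    A₁ ≤ ‖a‖ → ‖a‖ ≤ A₂ → Cw X F (ball 0 R) w h → (∀ z ∈ ball (0 : ℂ) R, ‖deriv h z - a‖ ≤ η) → False := by
  obtain ⟨δc, hδc, hcirc⟩ := P.circ (A₂ := A₂) hA₁ one_pos
  obtain ⟨R₁, c₁, η₁, hR₁, hc₁, hη₁, hone⟩ := Long_claim P (A₂ := A₂) hA₁ _ ∅ le_rfl (δc / 2) (half_pos hδc)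
  refine ⟨R₁ + 2, min η₁ (δc / 4), by linarith, lt_min hη₁ (by linarith), fun w h a ha1 ha2 hc hd => ?_⟩
  have L : Lg X F A₁ A₂ (R₁ + 2) (min η₁ (δc / 4)) w h a := ⟨ha1, ha2, hc, hd⟩
  obtain ⟨s, hs0, hs1, hs⟩ := hcirc (h 0) a ha1 ha2
  have hsn : ‖((s : ℝ) : ℂ)‖ = s := by rw [Complex.norm_real, Real.norm_of_nonneg hs0.le]
  have h1 := Long_mv L.cw.h_diff L.der 0 (s : ℂ) (mem_ball_self (by linarith)) (by rw [mem_ball_zero_iff, hsn]; linarith)
  rw [sub_zero, hsn] at h1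
  have h2 : h (s : ℂ) ∈ Gd D (δc / 2) := by
    intro b hb
    have h4 := hs (s : ℂ) hsn b hb
    have h5 : ‖h 0 + (s : ℂ) • a - b‖ ≤ ‖h (s : ℂ) - b‖ + ‖h (s : ℂ) - h 0 - (s : ℂ) • a‖ := by
      calc ‖h 0 + (s : ℂ) • a - b‖ = ‖(h (s : ℂ) - b) - (h (s : ℂ) - h 0 - (s : ℂ) • a)‖ := by
            congr 1
            abel
        _ ≤ _ := norm_sub_le _ _
    have h6 : min η₁ (δc / 4) * s ≤ δc / 4 := by
      have h7 : min η₁ (δc / 4) ≤ δc / 4 := min_le_right _ _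
      have h8 : 0 < min η₁ (δc / 4) := lt_min hη₁ (by linarith)
      nlinarith
    linarith
  obtain ⟨j, hj, -⟩ := hone _ _ _ (L.shift (R' := R₁) (z₀ := (s : ℂ)) (by rw [hsn]; linarith) (min_le_left _ _)) (by simpa only [add_zero] using h2)
  exact Finset.notMem_empty j hj

end Pool.Agent.HE

end

section

/-!
# HE Bound: the main theorem on discs

Adapted from `PX/Bound`.
-/

set_option autoImplicit false

open Topology Filter Metric

namespace Pool.Agent.HE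

open Pool.Agent.H36.BP (EN fs wd)
open Pool.Agent.H62.EF (MN pr)
open Pool.Agent.AD (Vd)
open Pool.Agent.TG (Lat Gd)
open Pool.Agent.G3 (wt LLift)

variable {N k q r : ℕ} {Λ : AddSubgroup (Vd (k + 1))} {D : Set (Vd (k + 1))} {X : Set (Vd (k + 1) × EN N)} {F : Fin q → Vd (k + 1) × EN N → ℂ} {d : Fin q → ℕ}
  {W : Fin q → Fin r → Vd (k + 1) →L[ℂ] ℂ}

/-- **Main theorem on discs.** -/
theorem HD.bound (P : HD Λ D X F d W) : ∃ C : ℝ, 0 < C ∧ ∀ (w : ℂ → EN N) (h : ℂ → Vd (k + 1)), Cw X F (ball 0 1) w h → ‖deriv h 0‖ ≤ C := by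
  obtain ⟨R, η, hR, hη, hno⟩ := P.no_long (A₂ := 1) one_pos
  refine ⟨16 * R / η + 4 * R, by positivity, fun w h hc => ?_⟩
  by_contra hM
  push Not at hM
  set M : ℝ := ‖deriv h 0‖ with hMdef
  have hM0 : 0 < M := lt_trans (by positivity) hM
  have hM1 : 4 * R < M := lt_of_le_of_lt (by have : 0 ≤ 16 * R / η := by positivity
                                             linarith) hM
  have hM2 : 16 * R / η < M := lt_of_le_of_lt (by linarith) hM
  have hM3 : 16 * R < M * η := by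
    rw [div_lt_iff₀ hη] at hM2
    exact hM2
  have hdd : DifferentiableOn ℂ (deriv h) (ball 0 1) := hc.h_diff.deriv isOpen_ball
  obtain ⟨z₀, hz₀, hs, hz1, hz2⟩ := brody_pt hdd hM0
  set s : ℝ := (1 / 2 - ‖z₀‖) / 2 with hsdef
  set m : ℝ := ‖deriv h z₀‖ with hmdef
  have hm : 0 < m := by
    by_contra hm
    have hm' : m = 0 := le_antisymm (not_lt.1 hm) (norm_nonneg _)
    rw [hm', mul_zero] at hz2
    linarith
  have hsub : ∀ z ∈ ball z₀ s, z ∈ ball (0 : ℂ) 1 := by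
    intro z hz
    rw [mem_ball_iff_norm] at hz
    rw [mem_ball_zero_iff]
    have h1 : ‖z‖ ≤ ‖z - z₀‖ + ‖z₀‖ := by
      simpa using norm_add_le (z - z₀) z₀
    have h2 := norm_nonneg z₀
    simp only [hsdef] at hz
    linarith
  have hRs : R < m * s := by nlinarith
  have hmC : (m : ℂ) ≠ 0 := by exact_mod_cast hm.ne'
  -- the rescaled curve
  set φ : ℂ → ℂ := fun ζ => z₀ + ζ / m with hφ
  have hφd : ∀ ζ, HasDerivAt φ (1 / m : ℂ) ζ := by
    intro ζ
    simpa [hφ] using ((hasDerivAt_id ζ).div_const (m : ℂ)).const_add z₀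
  have hφm : ∀ ζ ∈ ball (0 : ℂ) R, φ ζ ∈ ball z₀ s := by
    intro ζ hζ
    rw [mem_ball_zero_iff] at hζ
    rw [mem_ball_iff_norm]
    have h1 : φ ζ - z₀ = ζ / m := by simp [hφ]
    rw [h1, norm_div, Complex.norm_real, Real.norm_of_nonneg hm.le, div_lt_iff₀ hm]
    nlinarith
  have hdH : ∀ ζ ∈ ball (0 : ℂ) R, deriv (fun ζ => h (φ ζ)) ζ = (1 / m : ℂ) • deriv h (φ ζ) := by
    intro ζ hζ
    have h1 : DifferentiableAt ℂ h (φ ζ) := (hc.h_diff _ (hsub _ (hφm ζ hζ))).differentiableAt (isOpen_ball.mem_nhds (hsub _ (hφm ζ hζ)))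
    exact (h1.hasDerivAt.scomp ζ (hφd ζ)).deriv
  have hφ0 : φ 0 = z₀ := by simp [hφ]
  have hnm : ‖(1 / m : ℂ)‖ = 1 / m := by
    rw [norm_div, norm_one, Complex.norm_real, Real.norm_of_nonneg hm.le]
  have ha : ‖(1 / m : ℂ) • deriv h z₀‖ = 1 := by
    rw [norm_smul, hnm, ← hmdef]
    field_simp
  refine hno (fun ζ => w (φ ζ)) (fun ζ => h (φ ζ)) ((1 / m : ℂ) • deriv h z₀) ha.ge ha.le ?_ ?_
  · exact hc.comp (fun ζ _ => (hφd ζ).differentiableAt.differentiableWithinAt) fun ζ hζ => hsub _ (hφm ζ hζ)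
  · intro ζ hζ
    rw [hdH ζ hζ, ← smul_sub, norm_smul, hnm]
    have hmaps : Set.MapsTo (deriv h) (ball z₀ s) (closedBall (deriv h z₀) (3 * m)) := by
      intro z hz
      rw [mem_closedBall_iff_norm]
      have h1 := hz1 z hz
      have h2 := norm_sub_le (deriv h z) (deriv h z₀)
      rw [← hmdef] at h2
      linarith
    have h3 := Complex.dist_le_div_mul_dist_of_mapsTo_ball (hdd.mono hsub) hmaps (hφm ζ hζ)
    rw [dist_eq_norm, dist_eq_norm] at h3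
    have h4 : ‖φ ζ - z₀‖ ≤ R / m := by
      have h1 : φ ζ - z₀ = ζ / m := by simp [hφ]
      rw [h1, norm_div, Complex.norm_real, Real.norm_of_nonneg hm.le]
      rw [mem_ball_zero_iff] at hζ
      gcongr
    have h5 : ‖deriv h (φ ζ) - deriv h z₀‖ ≤ 3 * m / s * (R / m) := h3.trans (by gcongr)
    calc 1 / m * ‖deriv h (φ ζ) - deriv h z₀‖ ≤ 1 / m * (3 * m / s * (R / m)) := by gcongr
      _ = 3 * R / (m * s) := by field_simp
      _ ≤ η := by
        rw [div_le_iff₀ (by positivity)]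
        nlinarith

end Pool.Agent.HE

end

section

/-!
# HE F Dsc: discs and entire curves
-/

set_option autoImplicit false

open Topology Filter Metric MvPolynomial

namespace Pool.Agent.HE

open Pool.Agent.H17 (PN VanishesAt HolomorphicInto puncturedDisc)
open Pool.Agent.H36.BP (EN fs wd)
open Pool.Agent.H62.EF (MN pr)
open Pool.Agent.AD (Vd)
open Pool.Agent.TG (Lat Gd)
open Pool.Agent.G3 (wt LLift)
open Pool.Agent.PXF (Cn HolomorphicIntoTorus IsSimple IsCurveIn)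
open Pool.Agent.PX (torus_disc torus_univ torus_half)
open Pool.Agent.HEF

variable {N k q r : ℕ} {Λ : AddSubgroup (Vd (k + 1))} {X : Set ((Cn (k + 1) ⧸ Λ) × PN N)} {F : Fin q → Cn (k + 1) → MvPolynomial (Fin (N + 1)) ℂ} {S : Set (Cn (k + 1) ⧸ Λ)}

theorem cls_eq {a b : Vd (k + 1)} : (a : Cn (k + 1) ⧸ Λ) = (b : Cn (k + 1) ⧸ Λ) ↔ a - b ∈ Λ := by
  rw [eq_comm, QuotientAddGroup.eq, neg_add_eq_sub]

theorem curveIn_mono {T : Set ((Cn (k + 1) ⧸ Λ) × PN N)} {t : ℂ → Cn (k + 1) ⧸ Λ} {g : ℂ → PN N} {U V : Set ℂ} (hc : IsCurveIn Λ T t g U) (hV : V ⊆ U) : IsCurveIn Λ T t g V :=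
  ⟨fun z hz => hc.torus z (hV hz), fun z hz => hc.proj z (hV hz), fun z hz => hc.mem z (hV hz)⟩

theorem cw_of (hF : ∀ j, ∃ d, IsHolomorphicForm Set.univ (F j) d) {t : ℂ → Cn (k + 1) ⧸ Λ} {g : ℂ → PN N} {U : Set ℂ} {h : ℂ → Vd (k + 1)} {w : ℂ → EN N} (hc : ∀ z ∈ U, (t z, g z) ∈ outside Λ X F)
    (hh : DifferentiableOn ℂ h U) (ht : ∀ z ∈ U, t z = (h z : Cn (k + 1) ⧸ Λ)) (hw : DifferentiableOn ℂ w U) (hg : ∀ z ∈ U, w z ≠ 0 ∧ ∃ h' : (w z).ofLp ≠ 0, g z = Projectivization.mk ℂ (w z).ofLp h') :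
    Cw (cX Λ X) (fun j => fn (F j)) U w h := by
  refine ⟨hw, hh, fun z hz => (hg z hz).1, fun z hz => ?_, fun j z hz h0 => ?_⟩
  · intro h'
    obtain ⟨-, h1, h2⟩ := hg z hz
    have h3 := (hc z hz).1
    rw [ht z hz, h2] at h3
    exact h3
  · obtain ⟨-, h1, h2⟩ := hg z hz
    have h3 := (hc z hz).2 (h z) (ht z hz).symm j
    obtain ⟨d, hd⟩ := hF j
    apply h3
    show VanishesAt (F j (h z)) (g z)
    rw [h2, van_mk (hd.homogeneous (h z) (Set.mem_univ _))]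
    exact h0

theorem sections_form (H : IsHyp Λ X F S) (j : Fin q) : ∃ d, IsHolomorphicForm Set.univ (F j) d := by
  obtain ⟨r, W, h1⟩ := H.sections j
  obtain ⟨d, -, h2⟩ := h1.form
  exact ⟨d, h2⟩

/-- the bound for discs of radius `ρ` -/
theorem bound_disc (hΛ : Lat Λ) (H : IsHyp Λ X F S) : ∃ C : ℝ, 0 < C ∧ ∀ (t : ℂ → Cn (k + 1) ⧸ Λ) (g : ℂ → PN N) (h : ℂ → Vd (k + 1)) (c : ℂ) (ρ : ℝ), 0 < ρ → IsCurveIn Λ (outside Λ X F) t g (ball c ρ) →
    DifferentiableOn ℂ h (ball c ρ) → (∀ z ∈ ball c ρ, t z = (h z : Cn (k + 1) ⧸ Λ)) → ρ * ‖deriv h c‖ ≤ C := by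
  obtain ⟨r, W, d, P⟩ := hd_of hΛ H
  obtain ⟨C, hC, hb⟩ := P.bound
  refine ⟨2 * C, by positivity, fun t g h c ρ hρ hc hd ht => ?_⟩
  obtain ⟨w, hw, hwg⟩ := lift_disc hc.proj (r := ρ / 2) (by linarith)
  have hsub : ball c (ρ / 2) ⊆ ball c ρ := ball_subset_ball (by linarith)
  have h1 : Cw (cX Λ X) (fun j => fn (F j)) (ball c (ρ / 2)) w h :=
    cw_of (sections_form H) (fun z hz => hc.mem z (hsub hz)) (hd.mono hsub) (fun z hz => ht z (hsub hz)) hw hwg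
  have hA : ∀ ζ : ℂ, HasDerivAt (fun ζ : ℂ => c + ((ρ / 2 : ℝ) : ℂ) * ζ) ((ρ / 2 : ℝ) : ℂ) ζ := by
    intro ζ
    simpa using ((hasDerivAt_id ζ).const_mul ((ρ / 2 : ℝ) : ℂ)).const_add c
  have hm : Set.MapsTo (fun ζ : ℂ => c + ((ρ / 2 : ℝ) : ℂ) * ζ) (ball 0 1) (ball c (ρ / 2)) := by
    intro ζ hζ
    rw [mem_ball_zero_iff] at hζ
    rw [mem_ball_iff_norm, add_sub_cancel_left, norm_mul, Complex.norm_real, Real.norm_of_nonneg (by positivity)]
    nlinarith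
  have h2 := hb _ _ (h1.comp (fun ζ _ => (hA ζ).differentiableAt.differentiableWithinAt) hm)
  have h3 : HasDerivAt (fun ζ : ℂ => h (c + ((ρ / 2 : ℝ) : ℂ) * ζ)) (((ρ / 2 : ℝ) : ℂ) • deriv h c) 0 := by
    have h4 : HasDerivAt h (deriv h c) (c + ((ρ / 2 : ℝ) : ℂ) * 0) := by
      rw [mul_zero, add_zero]
      exact (hd.differentiableAt (isOpen_ball.mem_nhds (mem_ball_self hρ))).hasDerivAt
    exact h4.scomp (0 : ℂ) (hA 0)
  rw [h3.deriv, norm_smul, Complex.norm_real, Real.norm_of_nonneg (by positivity)] at h2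
  linarith

theorem discs (hΛ : Lat Λ) (H : IsHyp Λ X F S) : ∃ C : ℝ, ∀ (h : ℂ → Cn (k + 1)) (g : ℂ → PN N), AnalyticAt ℂ h 0 → IsCurveIn Λ (outside Λ X F) (fun z => (h z : Cn (k + 1) ⧸ Λ)) g (ball 0 1) →
    ‖deriv h 0‖ ≤ C := by
  obtain ⟨C, hC, hb⟩ := bound_disc hΛ H
  refine ⟨C, fun h g han hc => ?_⟩
  obtain ⟨h1, hd, he⟩ := torus_disc hΛ hc.torus
  have h0 : (0 : ℂ) ∈ ball (0 : ℂ) 1 := mem_ball_self one_pos
  have hmem : ∀ z ∈ ball (0 : ℂ) 1, h z - h1 z ∈ Λ := fun z hz => cls_eq.1 (he z hz)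
  obtain ⟨δ, hδ, hdisc⟩ := hΛ.disc
  have hd1 : DifferentiableAt ℂ h1 0 := (hd 0 h0).differentiableAt (isOpen_ball.mem_nhds h0)
  have hev : h =ᶠ[𝓝 0] fun z => h1 z + (h 0 - h1 0) := by
    have hcont : ContinuousAt (fun z => h z - h1 z - (h 0 - h1 0)) 0 := (han.continuousAt.sub hd1.continuousAt).sub continuousAt_const
    have h3 : ∀ᶠ z in 𝓝 (0 : ℂ), ‖h z - h1 z - (h 0 - h1 0)‖ < δ := by
      have h4 := hcont.norm.tendsto
      simp only [sub_self, norm_zero] at h4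
      exact h4.eventually (gt_mem_nhds hδ)
    filter_upwards [h3, isOpen_ball.mem_nhds h0] with z hz hz1
    have h5 := hdisc _ (Λ.sub_mem (hmem z hz1) (hmem 0 h0)) hz
    rw [sub_eq_zero] at h5
    rw [← h5]
    abel
  have hder : deriv h 0 = deriv h1 0 := by
    rw [hev.deriv_eq, deriv_add_const]
  have h6 := hb _ g h1 0 1 one_pos hc hd he
  rw [hder]
  linarith

theorem entire (hΛ : Lat Λ) (H : IsHyp Λ X F S) (t : ℂ → Cn (k + 1) ⧸ Λ) (g : ℂ → PN N) (hc : IsCurveIn Λ (outside Λ X F) t g Set.univ) (z w : ℂ) : t z = t w ∧ (t z ∉ S → g z = g w) := by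
  obtain ⟨h, hh, ht⟩ := torus_univ hΛ hc.torus
  obtain ⟨C, hC0, hC⟩ := bound_disc hΛ H
  have hd0 : ∀ z, deriv h z = 0 := by
    intro z
    by_contra hne
    have hpos : 0 < ‖deriv h z‖ := norm_pos_iff.mpr hne
    have h1 := hC t g h z ((C + 1) / ‖deriv h z‖) (by positivity) (curveIn_mono hc (Set.subset_univ _)) hh.differentiableOn fun z _ => ht z
    rw [div_mul_cancel₀ _ hpos.ne'] at h1
    linarith
  have hconst : ∀ z, h z = h 0 := fun z => is_const_of_deriv_eq_zero hh hd0 z 0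
  refine ⟨by rw [ht z, ht w, hconst z, hconst w], fun hS => ?_⟩
  obtain ⟨G, hG, hGg⟩ := lift_univ hc.proj
  have hcw : Cw (cX Λ X) (fun j => fn (F j)) Set.univ G h :=
    cw_of (sections_form H) (fun z hz => hc.mem z hz) hh.differentiableOn (fun z _ => ht z) hG.differentiableOn fun z _ => hGg z
  have h0S : h 0 ∉ cS Λ S := by
    intro h1
    apply hS
    rw [ht z, hconst z]
    exact h1
  obtain ⟨r, W, d, P⟩ := hd_of hΛ H
  obtain ⟨δ, hδ, hδb⟩ := Metric.isOpen_iff.1 P.D_closed.isOpen_compl _ h0S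
  have hGd : h 0 ∈ Gd (cS Λ S) δ := by
    intro b hb
    by_contra hlt
    push Not at hlt
    have h1 : b ∈ ball (h 0) δ := by
      rw [mem_ball_iff_norm, norm_sub_rev]
      exact hlt
    exact hδb h1 hb
  obtain ⟨L, hL, hlip⟩ := P.lip hδ (le_refl (0 : ℝ)) one_pos
  have hfs : ∀ z, fs (G z) (deriv G z) ≤ L := by
    intro z
    refine hlip G h z (hcw.mono (Set.subset_univ _)) (fun ζ _ => ?_) ?_
    · rw [hd0 ζ, norm_zero]
    · rw [hconst z]
      exact hGd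
  obtain ⟨m, Q, e', ρ, hp⟩ := P.fib (h 0) h0S
  obtain ⟨c, hcc⟩ := hp.const G hG (fun z => (hGg z).1) (fun z => by
    have h1 := hcw.mem z (Set.mem_univ z)
    rw [hconst z] at h1
    exact h1) ⟨L, hfs⟩ (fun s => Or.inr fun z => hp.ne s (h 0) (mem_ball_self hp.pos) (G z) (hGg z).1 (by
      have h1 := hcw.mem z (Set.mem_univ z)
      rw [hconst z] at h1
      exact h1) fun j => by
        have h1 := hcw.ne j z (Set.mem_univ z)
        rw [hconst z] at h1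
        exact h1) z w
  obtain ⟨-, hz, hgz⟩ := hGg z
  obtain ⟨-, hw', hgw⟩ := hGg w
  rw [hgz, hgw, Projectivization.mk_eq_mk_iff']
  exact ⟨c, by rw [hcc]; rfl⟩

end Pool.Agent.HE

end
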