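import Pool.Agent.H94.PX4.H13.CV.Cases
import Pool.Agent.H94.PX4.M36
import Pool.Agent.H94.PX4.M42
import Pool.Agent.H94.PX4.M54
import Pool.Agent.H94.PX4.M58
import Pool.Agent.H94.PX4.M63
import Pool.Agent.H94.PX4.M74
import Pool.Agent.H94.PX4.M76
import Pool.Agent.H94.PX4.M78

/-! The parts of this file: H13.CV.Tri, H13.CV.ThmC_1, G4.V.Down, HE.F.Kob, PX.S.Four. -/

section

/-!
# CV Tri: the trichotomy

`genus_cases`.  First case: `lgt_of_forms` with `m = 1`.  Second case: if `B E₀` for some `E₀`: `lgt_of_boundary`.  Otherwise `ell_gens`: `K = ℂ(t)` (`rat_cases`), or `u, v`; `ell_rel`,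
`adjoin_eq_top_of_double_pole` (`-3` is odd), `normal_form`; if `α³ = 27 β²`: `singular_rational` and `rat_cases`.  Third case: `rat_cases`.
-/

set_option autoImplicit false

open Pool.Agent.H23.Fano (PrimeDivisorOver Form regularForms)
open Pool.Agent.H17LG.Variety (PoleAtMost IsLogGeneralType)

noncomputable section

namespace Pool.Agent.H13.CV

variable {K : Type} [Field K] [Algebra ℂ K]

theorem trichotomy (hK : CurveField K) (B : Place K → Prop) :
    IsLogGeneralType B ∨ (∃ t : K, IntermediateField.adjoin ℂ {t} = ⊤ ∧ ∀ E, B E → oz E t ≠ 0) ∨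
    ((∀ E, ¬ B E) ∧ ∃ (u v : K) (α β : ℂ), v ^ 2 = 4 * u ^ 3 - algebraMap ℂ K α * u - algebraMap ℂ K β ∧ Transcendental ℂ u ∧
      IntermediateField.adjoin ℂ {u, v} = ⊤ ∧ v ∉ IntermediateField.adjoin ℂ {u} ∧ α ^ 3 ≠ 27 * β ^ 2) := by
  have hmono : ∀ (E : Place K) (h : K) (ω : Form K 1), PoleAtMost 0 E 1 h ω → PoleAtMost 1 E 1 h ω := by
    rintro E h ω ⟨g, η, hη, hω, hg⟩
    refine ⟨g, η, hη, hω, ?_⟩
    have h0 : (0 : WithTop ℤ) ≤ E.ord (h * g ^ 1) := by simpa using hg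
    refine add_nonneg h0 ?_
    simp
  have hrat : ∀ t : K, IntermediateField.adjoin ℂ {t} = ⊤ →
      IsLogGeneralType B ∨ (∃ t : K, IntermediateField.adjoin ℂ {t} = ⊤ ∧ ∀ E, B E → oz E t ≠ 0) ∨
      ((∀ E, ¬ B E) ∧ ∃ (u v : K) (α β : ℂ), v ^ 2 = 4 * u ^ 3 - algebraMap ℂ K α * u - algebraMap ℂ K β ∧ Transcendental ℂ u ∧
        IntermediateField.adjoin ℂ {u, v} = ⊤ ∧ v ∉ IntermediateField.adjoin ℂ {u} ∧ α ^ 3 ≠ 27 * β ^ 2) := by
    intro t ht
    rcases rat_cases hK ht B with h | h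
    · exact Or.inl h
    · exact Or.inr (Or.inl h)
  rcases genus_cases hK with ⟨ω, h₁, h₂, hω, h10, htr, hP⟩ | ⟨⟨ω, h, hω, h0, hP⟩, E, hE⟩ | ⟨t, ht⟩
  · exact Or.inl (lgt_of_forms hK hω le_rfl h10 htr (fun E => ⟨fun _ => (hP E).1, fun _ => hmono E _ _ (hP E).1⟩)
      (fun E => ⟨fun _ => (hP E).2, fun _ => hmono E _ _ (hP E).2⟩))
  · by_cases hB : ∃ E₀, B E₀
    · obtain ⟨E₀, hE₀⟩ := hB
      exact Or.inl (lgt_of_boundary hK hω h0 hP hE₀)
    · have hB' : ∀ E, ¬ B E := fun E hE' => hB ⟨E, hE'⟩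
      rcases ell_gens hK hE with ⟨t, ht⟩ | ⟨h1, u, v, hu, hv, hu', hv'⟩
      · exact hrat t ht
      · obtain ⟨c, a, d, b, e, f, hc, hrel⟩ := ell_rel hK h1 hu hv hu' hv'
        obtain ⟨hvu, huv⟩ := adjoin_eq_top_of_double_pole hK (v := v) hu hu' (by rw [hv]; decide)
        obtain ⟨u', v', α, β, h', htr', hadj', hv''⟩ :=
          normal_form hc hrel (tr_of_oz_ne (E := E) (by rw [hu]; norm_num)) huv hvu
        by_cases hαβ : α ^ 3 = 27 * β ^ 2
        · obtain ⟨t, ht⟩ := singular_rational h' htr' hadj' hαβ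
          exact hrat t ht
        · exact Or.inr (Or.inr ⟨hB', u', v', α, β, h', htr', hadj', hv'', hαβ⟩)
  · exact hrat t ht

end Pool.Agent.H13.CV

end
end

section

/-!
# CV ThmC: a curve which is not of log general type contains a non-constant entire curve

`exists_hom`: `trichotomy` for `B`.
Case `K = ℂ(t)`, `B E → oz E t ≠ 0`: `t` is transcendental (`K` has transcendental elements).  `T = toM (exp)` is transcendental (`tr_or_const`: it is not a constant).  `hom_rat`: `φ`; `ordM z₀ T = 0`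
(`exp z₀ ≠ 0`), so `e • E.ord t = 0` and `E.ord t = 0`, `oz E t = 0`, so `¬ B E`.
Case of the cubic: `exists_entire_cubic`: `F`; its coordinates are entire functions `a₀, a₁, a₂` (`EntFun`).  `a₂ ≠ 0` (if `a₂ = 0` then `a₀ = 0` by the equation and `F z = (0, a₁ z, 0)`, so the `F z` are
proportional).  `U = a₀ / a₂`, `V = a₁ / a₂`.  `V² = 4 U³ - α U - β`.  `U` is transcendental: otherwise it is a constant (`tr_or_const`), then `V` satisfies a polynomial equation and is a constant too, so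
the `F z` with `a₂ z ≠ 0` are proportional to a fixed vector, so all `F z` are (if `a₀ = γ a₂`, `a₁ = δ a₂` as entire functions then `a₂ z = 0` implies `F z = 0`): contradiction.
`hom_cubic`: `φ` (there are no places in `B`).
The two theorems: `exists_hom` for `curveField_funField Q hz`, `homMap`, `homMapL`.
-/

set_option autoImplicit false

open Topology Filter MvPolynomial
open Pool.Agent.H17 (PN VanishesAt ZariskiClosedIn HolomorphicInto puncturedDisc EntFun)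
open Pool.Agent.H17LG.Variety (FunField IsLogGeneralType)
open Pool.Agent.H62.SA (locVar OnBd)

noncomputable section

namespace Pool.Agent.H13.CV

attribute [-instance] OreLocalization.instAddGroupOreLocalization OreLocalization.instAddCommGroup

private lemma tr_of_top {K : Type} [Field K] [Algebra ℂ K] (hK : CurveField K) {t : K} (ht : IntermediateField.adjoin ℂ {t} = ⊤) :
    Transcendental ℂ t := by
  by_contra hal
  obtain ⟨c, hc⟩ : ∃ c : ℂ, t = algebraMap ℂ K c := by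
    by_contra h
    push Not at h
    exact hal (transcendental_of_not_const h)
  obtain ⟨x, hx⟩ := hK.exists_tr
  have h1 : IntermediateField.adjoin ℂ {t} = (⊥ : IntermediateField ℂ K) := by
    rw [IntermediateField.adjoin_simple_eq_bot_iff, IntermediateField.mem_bot]
    exact ⟨c, hc.symm⟩
  have h2 : x ∈ (⊥ : IntermediateField ℂ K) := by
    rw [← h1, ht]
    exact IntermediateField.mem_top
  rw [IntermediateField.mem_bot] at h2
  obtain ⟨d, hd⟩ := h2
  exact hx (hd ▸ isAlgebraic_algebraMap d)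

theorem exists_hom {K : Type} [Field K] [Algebra ℂ K] (hK : CurveField K) {B : Place K → Prop} (hB : ¬ IsLogGeneralType B) :
    ∃ φ : K →ₐ[ℂ] Mer, ∀ (z₀ : ℂ) (E : Place K) (e : ℕ), 1 ≤ e → (∀ g, ordM z₀ (φ g) = e • E.ord g) → ¬ B E := by
  rcases trichotomy hK B with h | ⟨t, ht, hBt⟩ | ⟨hBe, u, v, α, β, huv, hu, htop, hv, hd⟩
  · exact absurd h hB
  · obtain ⟨φ, hφ⟩ := hom_rat ht (tr_of_top hK ht) expE_tr
    refine ⟨φ, fun z₀ E e he hE hBE => hBt E hBE ?_⟩
    have h1 := hE t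
    rw [hφ, ordM_expE] at h1
    have ht0 : t ≠ 0 := by
      rintro rfl
      rw [map_zero] at hφ
      have h2 := expE_tr
      rw [← hφ] at h2
      exact h2 (isAlgebraic_zero)
    rw [← coe_oz E ht0, ← WithTop.coe_nsmul] at h1
    have h2 : (0 : ℤ) = e • oz E t := by exact_mod_cast h1
    rw [nsmul_eq_mul] at h2
    have h3 : (e : ℤ) ≠ 0 := by
      have : e ≠ 0 := by omega
      exact_mod_cast this
    exact (mul_eq_zero.1 h2.symm).resolve_left h3
  · obtain ⟨U, V, hUV, hU⟩ := exists_cubic_mer hd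
    obtain ⟨φ, -⟩ := hom_cubic huv hu htop hv hU hUV
    exact ⟨φ, fun z₀ E e he hE => hBe E⟩

variable {N : ℕ}

/-- the version for the complement of the common zeros of forms -/
theorem exists_entire_of_not_lgtL (Q : Ideal (MvPolynomial (Fin (N + 1)) ℂ)) [Q.IsPrime] (hX : ∃ i, (X i : MvPolynomial (Fin (N + 1)) ℂ) ∉ Q)
    (hz : ∃ z : Fin 1 → FunField Q, IsTranscendenceBasis ℂ z) {s : ℕ} {G : Fin s → MvPolynomial (Fin (N + 1)) ℂ} (hG : ∀ m, ∃ d, (G m).IsHomogeneous d)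
    (hlgt : ¬ IsLogGeneralType (OnBd Q G (k := 1))) :
    ∃ f : ℂ → PN N, HolomorphicInto f Set.univ ∧ (∀ z, f z ∈ locVar Q G) ∧ ∃ z w, f z ≠ f w := by
  have hK := curveField_funField Q hz
  obtain ⟨φ, hφ⟩ := exists_hom hK hlgt
  exact homMapL Q hX hK hG φ hφ

end Pool.Agent.H13.CV

end
end

section

/-!
# G4 V Down: quasi-projective varieties which virtually dominate `X`

`GGLCOpen.of_gglc`: open subsets of projective varieties with the properties `GGLC`.  `GGLCOpen.down`: the properties descend along finite étale coverings `U' → U` of quasi-projective varieties.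
-/

set_option autoImplicit false

open Topology Filter MvPolynomial

noncomputable section

namespace Pool.Agent.G4F

open Pool.Agent.H17 (PN VanishesAt HolomorphicInto puncturedDisc ZariskiClosedIn)
open Pool.Agent.H17LG.Variety (FunField IsLogGeneralType)
open Pool.Agent.H62.FC (Homog)
open Pool.Agent.H62.SA (locVar OnBd)
open Pool.Agent.H17EF (projVar)

variable {N M L s s' : ℕ}

/-- closed subvarieties of dimension one which are not contained in the exceptional set are of log general type -/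
theorem strongly_open {P : Ideal (MvPolynomial (Fin (N + 1)) ℂ)} {G : Fin s → MvPolynomial (Fin (N + 1)) ℂ} (hG : ∀ m, ∃ n, (G m).IsHomogeneous n)
    {Ξ : Set (PN N)} (hΞ : ZariskiClosedIn (locVar P G) Ξ)
    (hbr : ∀ f : ℂ → PN N, HolomorphicInto f Set.univ → (∀ z, f z ∈ locVar P G) → (∃ z w, f z ≠ f w) → ∀ z, f z ∈ Ξ)
    (Q : Ideal (MvPolynomial (Fin (N + 1)) ℂ)) [Q.IsPrime] (hQ : Homog Q) (hPQ : P ≤ Q) (hQΞ : ¬ locVar Q G ⊆ Ξ)
    (hz' : ∃ z : Fin 1 → FunField Q, IsTranscendenceBasis ℂ z) : IsLogGeneralType (OnBd Q G (k := 1)) := by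
  have hsub : locVar Q G ⊆ locVar P G := fun x hx => ⟨fun R hR n hn => hx.1 R (hPQ hR) n hn, hx.2⟩
  have hX : ∃ i, (X i : MvPolynomial (Fin (N + 1)) ℂ) ∉ Q := by
    obtain ⟨x, hx, _⟩ := Set.not_subset.1 hQΞ
    exact Pool.Agent.H17EF.exists_coord (x := x) hx.1
  by_contra hl
  obtain ⟨f, hf, hfQ, hne⟩ := Pool.Agent.H13.CV.exists_entire_of_not_lgtL Q hX hz' hG hl
  have hΞf : ∀ z, f z ∈ Ξ := hbr f hf (fun z => hsub (hfQ z)) hne
  obtain ⟨S, hS, hSΞ⟩ := hΞ
  apply hQΞ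
  intro x hx
  rw [hSΞ]
  refine ⟨hsub hx, fun R hR => ?_⟩
  obtain ⟨n, hn⟩ := hS R hR
  have hRf : ∀ z, VanishesAt R (f z) := by
    intro z
    have h3 := hΞf z
    rw [hSΞ] at h3
    exact h3.2 R hR
  exact hx.1 R (Pool.Agent.H13.CV.form_of_curve0 Q hQ hz' hf (fun z => (hfQ z).1) hne hn hRf) n hn

end Pool.Agent.G4F

end
end

section

/-!
# HE F Kob: the Kobayashi metric
-/

set_option autoImplicit false

open Topology Filter Metric MvPolynomial

namespace Pool.Agent.HE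

open Pool.Agent.H17 (PN VanishesAt HolomorphicInto puncturedDisc)
open Pool.Agent.H36.BP (EN fs wd)
open Pool.Agent.H62.EF (MN pr)
open Pool.Agent.AD (Vd)
open Pool.Agent.TG (Lat Gd)
open Pool.Agent.G3 (wt LLift)
open Pool.Agent.PXF (Cn HolomorphicIntoTorus IsSimple IsCurveIn)
open Pool.Agent.PX (torus_disc torus_univ torus_half)
open Pool.Agent.HEF

variable {N k q r : ℕ} {Λ : AddSubgroup (Vd (k + 1))} {X : Set ((Cn (k + 1) ⧸ Λ) × PN N)} {F : Fin q → Cn (k + 1) → MvPolynomial (Fin (N + 1)) ℂ} {S : Set (Cn (k + 1) ⧸ Λ)}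

theorem kobayashi (hΛ : Lat Λ) (H : IsHyp Λ X F S) : KobayashiPositive Λ (outside Λ X F) S := by
  intro y hy _
  obtain ⟨C₀, hC₀, hb⟩ := bound_disc hΛ H
  obtain ⟨r, W, d, P⟩ := hd_of hΛ H
  have hyS : y ∈ (cS Λ S)ᶜ := hy
  obtain ⟨δ, hδ, hδb⟩ := Metric.isOpen_iff.1 P.D_closed.isOpen_compl _ hyS
  obtain ⟨L, hL, hlip⟩ := P.lip (δ := δ / 2) (H := 4 * C₀) (r₀ := 1 / 2) (by positivity) (by positivity) (by norm_num)
  refine ⟨L, ?_⟩
  filter_upwards [isOpen_ball.mem_nhds (mem_ball_self (x := y) (half_pos hδ))] with y' hy' t g φ hcu ht0 hφ hgφ i j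
  have hGd : y' ∈ Gd (cS Λ S) (δ / 2) := by
    intro b hb'
    by_contra hlt
    push Not at hlt
    have h1 : b ∈ ball y δ := by
      rw [mem_ball_iff_norm] at hy' ⊢
      have h2 : ‖b - y‖ ≤ ‖y' - b‖ + ‖y' - y‖ := by
        have h3 := norm_sub_le (y' - y) (y' - b)
        have h4 : y' - y - (y' - b) = b - y := by abel
        rw [h4] at h3
        linarith
      linarith
    exact hδb h1 hb'
  obtain ⟨h, hh, hth⟩ := torus_disc hΛ hcu.torus
  have h00 : (0 : ℂ) ∈ ball (0 : ℂ) 1 := by simp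
  -- normalise
  have hl : (y' : Cn (k + 1) ⧸ Λ) = (h 0 : Cn (k + 1) ⧸ Λ) := ht0.symm.trans (hth 0 h00)
  have hl' : y' - h 0 ∈ Λ := cls_eq.1 hl
  set h₁ : ℂ → Vd (k + 1) := fun z => h z + (y' - h 0) with hh₁
  have hd₁ : DifferentiableOn ℂ h₁ (ball 0 1) := hh.add_const _
  have ht₁ : ∀ z ∈ ball (0 : ℂ) 1, t z = (h₁ z : Cn (k + 1) ⧸ Λ) := by
    intro z hz
    rw [hth z hz, hh₁, cls_add hl']
  have h10 : h₁ 0 = y' := by simp [hh₁]
  obtain ⟨w, hw, hgw⟩ := lift_disc hcu.proj (show (1 / 2 : ℝ) < 1 by norm_num)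
  have hsub : ball (0 : ℂ) (1 / 2) ⊆ ball 0 1 := ball_subset_ball (by norm_num)
  have hcw : Cw (cX Λ X) (fun j => fn (F j)) (ball 0 (1 / 2)) w h₁ :=
    cw_of (sections_form H) (fun z hz => hcu.mem z (hsub hz)) (hd₁.mono hsub) (fun z hz => ht₁ z (hsub hz)) hw hgw
  -- the bound for the derivative of `h₁`
  have hbd : ∀ z ∈ ball (0 : ℂ) (1 / 2), ‖deriv h₁ z‖ ≤ 4 * C₀ := by
    intro z hz
    have hs2 : ball z (1 / 4) ⊆ ball (0 : ℂ) 1 := by
      intro ζ hζ
      rw [mem_ball_zero_iff] at hz ⊢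
      rw [mem_ball_iff_norm] at hζ
      have h2 : ‖ζ‖ ≤ ‖ζ - z‖ + ‖z‖ := by simpa using norm_add_le (ζ - z) z
      linarith
    have h2 := hb t g h₁ z (1 / 4) (by norm_num) (curveIn_mono hcu hs2) (hd₁.mono hs2) fun ζ hζ => ht₁ ζ (hs2 hζ)
    linarith
  have hk := hlip w h₁ 0 hcw hbd (by rw [h10]; exact hGd)
  have hw0 : AnalyticAt ℂ w 0 := hw.analyticAt (isOpen_ball.mem_nhds (by simp))
  have hwne : w 0 ≠ 0 := (hgw 0 (by simp)).1
  obtain ⟨φ', hφ'⟩ : ∃ φ' : ℂ → EN N, φ' = fun z => WithLp.toLp 2 (φ z) := ⟨_, rfl⟩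
  have hφ'a : AnalyticAt ℂ φ' 0 := by
    rw [hφ']
    exact ((PiLp.continuousLinearEquiv 2 ℂ (fun _ : Fin (N + 1) => ℂ)).symm.toContinuousLinearMap.analyticAt (φ 0)).comp hφ
  have hφ'0 : φ' 0 ≠ 0 := by
    rw [hφ']
    exact toLp_ne hgφ.self_of_nhds.1
  have hprop : ∀ᶠ z in 𝓝 (0 : ℂ), ∃ c : ℂ, φ' z = c • w z := by
    filter_upwards [hgφ, isOpen_ball.mem_nhds (show (0 : ℂ) ∈ ball (0 : ℂ) (1 / 2) by simp)] with z ⟨ha, hb⟩ hz
    obtain ⟨-, hc, hd⟩ := hgw z hz
    obtain ⟨a, ha'⟩ := (Projectivization.mk_eq_mk_iff' ℂ _ _ ha hc).1 (hb.symm.trans hd)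
    refine ⟨a, ?_⟩
    rw [hφ']
    simp only
    rw [← ha']
    rfl
  have hfs := Pool.Agent.TG.fs_smul_fun hφ'a hw0 hφ'0 hwne hprop
  have hdφ : ∀ i, (deriv φ' 0) i = deriv φ 0 i := by
    intro i
    have h1 : HasDerivAt φ' (WithLp.toLp 2 (deriv φ 0)) 0 := by
      have h2 := ((PiLp.continuousLinearEquiv 2 ℂ (fun _ : Fin (N + 1) => ℂ)).symm.toContinuousLinearMap.hasFDerivAt (x := φ 0)).comp_hasDerivAt (0 : ℂ) hφ.differentiableAt.hasDerivAt
      rw [hφ']
      exact h2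
    rw [h1.deriv]
  have h3 := minor_le (φ' 0) (deriv φ' 0) i j
  rw [hdφ i, hdφ j] at h3
  have h4 : wd (φ' 0) (deriv φ' 0) = fs (φ' 0) (deriv φ' 0) * ‖φ' 0‖ ^ 2 := by
    unfold fs
    rw [div_mul_cancel₀]
    exact pow_ne_zero _ (norm_ne_zero_iff.2 hφ'0)
  have h5 : ‖φ' 0‖ ^ 2 = ∑ i, ‖φ 0 i‖ ^ 2 := by
    rw [EuclideanSpace.norm_sq_eq, hφ']
  rw [h4, hfs, h5] at h3
  have h6 : φ' 0 i = φ 0 i := by rw [hφ']
  have h7 : φ' 0 j = φ 0 j := by rw [hφ']
  rw [h6, h7] at h3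
  refine h3.trans (mul_le_mul_of_nonneg_right hk ?_)
  positivity

end Pool.Agent.HE

end

section

/-!
# PX S Four: the four properties for the varieties over the complement of an ample divisor of `A × ℙ¹`
-/

set_option autoImplicit false

open Topology Filter Metric MvPolynomial
open Pool.Agent.H17 (PN VanishesAt HolomorphicInto puncturedDisc ZariskiClosedIn)
open Pool.Agent.H17EF (projVar)
open Pool.Agent.H17GT (coordFun)
open Pool.Agent.H17LG.Variety (FunField IsLogGeneralType ratio)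
open Pool.Agent.H62.FC (Homog)
open Pool.Agent.H62.SA (locVar OnBd)
open Pool.Agent.G4F (GGLCOpen)
open Pool.Agent.H7.Bir (vals rmap)
open Pool.Agent.TG (Lat)
open Pool.Agent.PX (curve_of ext_of_finite y_brody)

noncomputable section

namespace Pool.Agent.COT

variable {k N s : ℕ} {Λ : Sub k}

/-- A version of `y_gglo` in which the exceptional set is given. -/
theorem gglo_form (hΛ : Lat Λ) {P : Ideal (MvPolynomial (Fin (N + 1)) ℂ)} [P.IsPrime] (hP : Homog P) {m : ℕ} {G : Fin s → MvPolynomial (Fin (N + 1)) ℂ} (hG : ∀ m, ∃ n, (G m).IsHomogeneous n)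
    (hne : (locVar P G).Nonempty) {c : ℕ} (hdim : ∃ z : Fin c → FunField P, IsTranscendenceBasis ℂ z) {T : Set (Prd Λ m)} {S : Set (Torus Λ)}
    (H : PXF.IsHyperbolicModulo Λ T S) {u : PN N → Torus Λ} {v : PN N → PN m} (h : PXF.IsFiniteOver P G Λ T S u v)
    {e : ℕ} {R : MvPolynomial (Fin (N + 1)) ℂ} (hRe : R.IsHomogeneous e) (hRP : R ∉ P) (hR : ∀ x ∈ projVar P, u x ∈ S → VanishesAt R x)
    (hgt : IsLogGeneralType (K := FunField P) (k := c) (OnBd P G)) : GGLCOpen P G {x | x ∈ locVar P G ∧ VanishesAt R x} := by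
  have hclosed : ZariskiClosedIn (locVar P G) {x | x ∈ locVar P G ∧ VanishesAt R x} := by
    refine ⟨{R}, fun S hS => ?_, ?_⟩
    · rw [Set.mem_singleton_iff.1 hS]
      exact ⟨e, hRe⟩
    · ext x
      constructor
      · rintro ⟨h1, h2⟩
        refine ⟨h1, fun S hS => ?_⟩
        rw [Set.mem_singleton_iff.1 hS]
        exact h2
      · rintro ⟨h1, h2⟩
        exact ⟨h1, h2 R rfl⟩
  have hbrody : ∀ f : ℂ → PN N, HolomorphicInto f Set.univ → (∀ z, f z ∈ locVar P G) → (∃ z w, f z ≠ f w) →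
      ∀ z, f z ∈ {x | x ∈ locVar P G ∧ VanishesAt R x} :=
    fun f hf hfU hn z => ⟨hfU z, y_brody hP H h hR hf hfU hn z⟩
  refine ⟨hclosed, ?_, ?_, ?_, hbrody, ?_⟩
  · intro heq
    apply hRP
    refine Pool.Agent.H7.Bir.mem_of_open hP hG hne hRe fun x hx => ?_
    rw [← heq] at hx
    exact hx.2
  · rintro w _ ⟨z', hz'⟩
    obtain ⟨z, hz⟩ := hdim
    obtain rfl := Pool.Agent.H22.TB.eq_of_basis hz hz'
    exact hgt
  · intro f hf hfU hfΞ
    have hc := curve_of h hf (isOpen_ball.sdiff isClosed_singleton) hfU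
    obtain ⟨⟨t', ht', htt⟩, hg⟩ := H.punctured _ _ hc
    obtain ⟨z, hz, hzΞ⟩ := hfΞ
    obtain ⟨g', hg', hgg⟩ := hg ⟨z, hz, fun h3 => hzΞ ⟨hfU z hz, hR _ (hfU z hz).1 h3⟩⟩
    exact ext_of_finite hP hΛ h hf (fun z hz => (hfU z hz).1) ht' hg' htt hgg
  · exact fun Q _ hQ hPQ hQΞ hz' => Pool.Agent.G4F.strongly_open hG hclosed hbrody Q hQ hPQ hQΞ hz'

theorem projVar_mono {P Q : Ideal (MvPolynomial (Fin (N + 1)) ℂ)} (h : P ≤ Q) : projVar Q ⊆ projVar P := fun _ hx F hF n hn => hx F (h hF) n hn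

theorem locVar_mono {P Q : Ideal (MvPolynomial (Fin (N + 1)) ℂ)} {G : Fin s → MvPolynomial (Fin (N + 1)) ℂ} (h : P ≤ Q) : locVar Q G ⊆ locVar P G := fun _ hx => ⟨fun F hF n hn => hx.1 F (h hF) n hn, hx.2⟩

end Pool.Agent.COT

end
end
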