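import Pool.Agent.H94.PX4.M22
import Pool.Agent.H94.PX4.M40
import Pool.Agent.H94.PX4.M80

/-! The parts of this file: G4.K.Nz, G4.K.Co, G4.K.Sl, G4.K.Sz. -/

section

/-!
# G4 K Nz: the norm is not `0`

Let `V ⊆ U` be an open neighbourhood of `x₀` on which the norm vanishes, and `ν x` the number of the `i` with `ρ (x, β x i) = 0`, `ν x ≥ 1`.  `∏ i, (ρ (x, β x i) + λ) = ∑ k, c k x λ ^ k` with continuous `c k` (interpolation, `norm_an`),
`ν x = min {k | c k x ≠ 0}`.  Let `x₁ ∈ V` with `ν x₁ = ν` minimal on `V`; on `V`: `c k = 0` for `k < ν`, so the product is `λ ^ ν * Q (x, λ)` with `Q` continuous and `Q (x₁, 0) = c ν x₁ ≠ 0`.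
Take `i₀` with `ρ (x₁, β x₁ i₀) = 0`; by `hd` there are points `p` near `(x₁, β x₁ i₀)` with `σ p = 0`, `ρ p ≠ 0`; at `λ = - ρ p` the product vanishes, so `Q (p.1, - ρ p) = 0`, against the continuity of `Q`.
-/

set_option autoImplicit false

open Topology Filter Metric

namespace Pool.Agent.G4.K

open Pool.Agent.AD (Vd)

open Polynomial in
/-- `∏ i, (X + a i)` -/
private noncomputable def pp {n : ℕ} (a : Fin n → ℂ) : ℂ[X] := ∏ i, (X + C (a i))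

open Polynomial in
private theorem pp_eval {n : ℕ} (a : Fin n → ℂ) (t : ℂ) : (pp a).eval t = ∏ i, (a i + t) := by
  rw [pp, eval_prod]
  refine Finset.prod_congr rfl fun i _ => ?_
  simp [add_comm]

open Polynomial in
private theorem pp_deg {n : ℕ} (a : Fin n → ℂ) : (pp a).natDegree ≤ n := by
  rw [pp]
  refine (natDegree_prod_le _ _).trans ?_
  refine (Finset.sum_le_sum (g := fun _ => 1) fun i _ => ?_).trans (by simp)
  exact (natDegree_X_add_C _).le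

open Polynomial in
/-- interpolation -/
private theorem pp_coeff {n : ℕ} (k : ℕ) : ∃ L : ℕ → ℂ, ∀ a : Fin n → ℂ, (pp a).coeff k = ∑ j ∈ Finset.range (n + 1), (∏ i, (a i + (j : ℂ))) * L j := by
  refine ⟨fun j => (Lagrange.basis (Finset.range (n + 1)) (fun j : ℕ => (j : ℂ)) j).coeff k, fun a => ?_⟩
  have hinj : Set.InjOn (fun j : ℕ => (j : ℂ)) (Finset.range (n + 1) : Set ℕ) := fun a _ b _ h => by
    have h' : (a : ℂ) = (b : ℂ) := h
    exact_mod_cast h'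
  have hdeg : (pp a).degree < (Finset.range (n + 1)).card := by
    rw [Finset.card_range]
    refine lt_of_le_of_lt degree_le_natDegree ?_
    exact_mod_cast Nat.lt_succ_of_le (pp_deg a)
  conv_lhs => rw [Lagrange.eq_interpolate hinj hdeg, Lagrange.interpolate_apply]
  rw [finsetSum_coeff]
  refine Finset.sum_congr rfl fun j _ => ?_
  rw [coeff_C_mul, pp_eval]

open Polynomial in
private theorem pp_split {n : ℕ} (a : Fin n → ℂ) : pp a = X ^ (Finset.univ.filter fun i => a i = 0).card * ∏ i ∈ Finset.univ.filter (fun i => ¬ a i = 0), (X + C (a i)) := by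
  rw [pp, ← Finset.prod_filter_mul_prod_filter_not Finset.univ (fun i => a i = 0)]
  congr 1
  rw [← Finset.prod_const]
  refine Finset.prod_congr rfl fun i hi => ?_
  rw [(Finset.mem_filter.1 hi).2]
  simp

open Polynomial in
private theorem pp_ne {n : ℕ} (a : Fin n → ℂ) : (pp a).coeff (Finset.univ.filter fun i => a i = 0).card ≠ 0 := by
  rw [pp_split a]
  have h := coeff_X_pow_mul (∏ i ∈ Finset.univ.filter (fun i => ¬ a i = 0), (X + C (a i))) (Finset.univ.filter fun i => a i = 0).card 0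
  rw [zero_add] at h
  rw [h, coeff_zero_eq_eval_zero, eval_prod, Finset.prod_ne_zero_iff]
  intro i hi
  simpa using (Finset.mem_filter.1 hi).2

open Polynomial in
private theorem pp_dvd {n : ℕ} (a : Fin n → ℂ) {m : ℕ} (hm : m ≤ (Finset.univ.filter fun i => a i = 0).card) (t : ℂ) :
    ∏ i, (a i + t) = t ^ m * ∑ k ∈ Finset.range (n + 1), (pp a).coeff (k + m) * t ^ k := by
  obtain ⟨q, hq⟩ : (X : ℂ[X]) ^ m ∣ pp a := by
    rw [pp_split a]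
    exact (pow_dvd_pow _ hm).mul_right _
  have h1 : ∀ k, (pp a).coeff (k + m) = q.coeff k := fun k => by rw [hq, coeff_X_pow_mul]
  have h2 : q.natDegree < n + 1 := by
    rcases eq_or_ne q 0 with h | h
    · simp [h]
    · have h3 := pp_deg a
      rw [hq, natDegree_mul (pow_ne_zero _ X_ne_zero) h, natDegree_X_pow] at h3
      omega
  simp only [h1]
  rw [← eval_eq_sum_range' h2, ← pp_eval, hq, eval_mul, eval_pow, eval_X]

variable {E : Type} [NormedAddCommGroup E] [NormedSpace ℂ E] [FiniteDimensional ℂ E] {U : Set E} {r : ℝ} {σ : E × ℂ → ℂ} {n : ℕ} {β : E → Fin n → ℂ}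

theorem RSys.norm_ne (R : RSys U r σ β) {ρ : E × ℂ → ℂ} (hρ : ∀ x ∈ U, ∀ w : ℂ, ‖w‖ ≤ r → AnalyticAt ℂ ρ (x, w))
    (hd : ∀ x ∈ U, ∀ w : ℂ, ‖w‖ < r → σ (x, w) = 0 → ∃ᶠ p in 𝓝 (x, w), σ p = 0 ∧ ρ p ≠ 0) {x₀ : E} (hx₀ : x₀ ∈ U) : ∃ᶠ x in 𝓝 x₀, ∏ i, ρ (x, β x i) ≠ 0 := by
  intro hcon
  have hcon' : ∀ᶠ x in 𝓝 x₀, ∏ i, ρ (x, β x i) = 0 := hcon.mono fun x h => not_not.1 h
  obtain ⟨V, hV, hVo, hxV⟩ := _root_.eventually_nhds_iff.1 (hcon'.and (R.op.mem_nhds hx₀))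
  -- the minimal number of zeros
  obtain ⟨x₁, hx₁, hmin⟩ : ∃ x₁ ∈ V, ∀ x ∈ V, (Finset.univ.filter fun i => ρ (x₁, β x₁ i) = 0).card ≤ (Finset.univ.filter fun i => ρ (x, β x i) = 0).card := by
    have hne : (Set.image (fun x => (Finset.univ.filter fun i => ρ (x, β x i) = 0).card) V).Nonempty := ⟨_, x₀, hxV, rfl⟩
    obtain ⟨x₁, h1, h2⟩ := Nat.sInf_mem hne
    refine ⟨x₁, h1, fun x hx => ?_⟩
    have := Nat.sInf_le (Set.mem_image_of_mem (fun x => (Finset.univ.filter fun i => ρ (x, β x i) = 0).card) hx)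
    simp only at h2 this
    omega
  set m := (Finset.univ.filter fun i => ρ (x₁, β x₁ i) = 0).card with hm
  have hx₁U := (hV x₁ hx₁).2
  -- continuity of the coefficients
  have hcc : ∀ k, ContinuousAt (fun x => (pp fun i => ρ (x, β x i)).coeff k) x₁ := by
    intro k
    obtain ⟨L, hL⟩ := pp_coeff (n := n) k
    simp only [hL]
    refine tendsto_finsetSum _ fun j _ => ?_
    have := R.norm_an (F := fun p => ρ p + (j : ℂ)) (fun x hx w hw => (hρ x hx w hw).add analyticAt_const) x₁ hx₁U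
    exact this.continuousAt.tendsto.mul tendsto_const_nhds
  have hQ : ContinuousAt (fun y : E × ℂ => ∑ k ∈ Finset.range (n + 1), (pp fun i => ρ (y.1, β y.1 i)).coeff (k + m) * y.2 ^ k) (x₁, (0 : ℂ)) := by
    refine tendsto_finsetSum _ fun k _ => ?_
    have h1 : ContinuousAt (fun y : E × ℂ => (pp fun i => ρ (y.1, β y.1 i)).coeff (k + m)) (x₁, (0 : ℂ)) :=
      ContinuousAt.comp (f := fun y : E × ℂ => y.1) (g := fun x => (pp fun i => ρ (x, β x i)).coeff (k + m)) (hcc (k + m)) continuousAt_fst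
    exact h1.tendsto.mul (continuousAt_snd.tendsto.pow k)
  have hQ0 : ∑ k ∈ Finset.range (n + 1), (pp fun i => ρ (x₁, β x₁ i)).coeff (k + m) * (0 : ℂ) ^ k ≠ 0 := by
    rw [Finset.sum_eq_single 0]
    · simpa using pp_ne (fun i => ρ (x₁, β x₁ i))
    · intro k _ hk
      simp [hk]
    · intro h
      simp at h
  -- a zero
  obtain ⟨i₀, -, hi₀⟩ := Finset.prod_eq_zero_iff.1 (hV x₁ hx₁).1
  have hw := R.lt x₁ hx₁U i₀
  have hσ : σ (x₁, β x₁ i₀) = 0 := (R.iff hx₁U hw.le).2 ⟨i₀, rfl⟩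
  have hf := hd x₁ hx₁U _ hw hσ
  have hρc : ContinuousAt ρ (x₁, β x₁ i₀) := (hρ x₁ hx₁U _ hw.le).continuousAt
  have hev : ∀ᶠ p : E × ℂ in 𝓝 (x₁, β x₁ i₀), ∑ k ∈ Finset.range (n + 1), (pp fun i => ρ (p.1, β p.1 i)).coeff (k + m) * (-ρ p) ^ k ≠ 0 := by
    have h1 : Tendsto (fun p : E × ℂ => (p.1, -ρ p)) (𝓝 (x₁, β x₁ i₀)) (𝓝 (x₁, (0 : ℂ))) := by
      have h2 : Tendsto (fun p : E × ℂ => -ρ p) (𝓝 (x₁, β x₁ i₀)) (𝓝 0) := by
        have := hρc.tendsto.neg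
        rwa [hi₀, neg_zero] at this
      exact continuousAt_fst.tendsto.prodMk_nhds h2
    exact (hQ.tendsto.comp h1).eventually_ne hQ0
  have hevV : ∀ᶠ p : E × ℂ in 𝓝 (x₁, β x₁ i₀), p.1 ∈ V := continuousAt_fst.eventually (hVo.mem_nhds hx₁)
  have hevr : ∀ᶠ p : E × ℂ in 𝓝 (x₁, β x₁ i₀), ‖p.2‖ < r := continuousAt_snd.norm.eventually (gt_mem_nhds hw)
  obtain ⟨p, ⟨hp1, hp2⟩, hp3, hp4, hp5⟩ := (hf.and_eventually (hev.and (hevV.and hevr))).exists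
  obtain ⟨i, hi⟩ := (R.iff (hV p.1 hp4).2 hp5.le).1 (show σ (p.1, p.2) = 0 from hp1)
  have h0 : ∏ i, (ρ (p.1, β p.1 i) + -ρ p) = 0 := by
    refine Finset.prod_eq_zero (Finset.mem_univ i) ?_
    rw [← hi]
    exact add_neg_cancel _
  rw [pp_dvd (fun i => ρ (p.1, β p.1 i)) (hmin p.1 hp4) (-ρ p)] at h0
  rcases mul_eq_zero.1 h0 with h | h
  · exact hp2 (neg_eq_zero.1 (eq_zero_of_pow_eq_zero h))
  · exact hp3 h

end Pool.Agent.G4.K

end

section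

/-!
# G4 K Co: existence of adapted coordinates

`d + 1 = k`.  A vector `e₂` with `σ (y + w e₂)` not `0` near `w = 0`; an isomorphism `ℂ^k × ℂ ≃ ℂ^(k+1)`, `(x, w) ↦ … + w e₂`; `r₂` small, `exists_rsys`; the norm `N x` of `ρ` (`norm_an`) is not `0` near `0` (`norm_ne`); `e₁ ∈ ℂ^k` with `N (v e₁)` not `0` near
`v = 0`; an isomorphism `ℂ^d × ℂ ≃ ℂ^k`, `(z, v) ↦ … + v e₁`; `r₁` small, `exists_rsys`.  Compose the isomorphisms (`RSys` is transported by the linear isomorphism of the parameters).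
-/

set_option autoImplicit false

open Topology Filter Metric

namespace Pool.Agent.G4.K

open Pool.Agent.AD (Vd)

/-- a direction in which an analytic function is not `0` -/
private theorem exists_dir {E : Type} [NormedAddCommGroup E] [NormedSpace ℂ E] {f : E → ℂ} {y : E} (hf : AnalyticAt ℂ f y) (h : ∃ᶠ z in 𝓝 y, f z ≠ 0) :
    ∃ e : E, ∀ᶠ w in 𝓝[≠] (0 : ℂ), f (y + w • e) ≠ 0 := by
  obtain ⟨r, hr, hB⟩ := Metric.eventually_nhds_iff_ball.1 hf.eventually_analyticAt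
  obtain ⟨z, hz, hzB⟩ := (h.and_eventually (ball_mem_nhds y hr)).exists
  refine ⟨z - y, ?_⟩
  have hline : ∀ w : ℂ, AnalyticAt ℂ (fun w : ℂ => y + w • (z - y)) w := fun w => by fun_prop
  set S : Set ℂ := (fun w : ℂ => y + w • (z - y)) ⁻¹' ball y r with hS
  have hSc : Convex ℝ S := by
    intro a ha b hb s t hs ht hst
    have ha' : ‖a • (z - y)‖ < r := by simpa [hS, mem_ball_iff_norm] using ha
    have hb' : ‖b • (z - y)‖ < r := by simpa [hS, mem_ball_iff_norm] using hb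
    have h1 : ‖(s • a + t • b) • (z - y)‖ ≤ s * ‖a • (z - y)‖ + t * ‖b • (z - y)‖ := by
      rw [add_smul, smul_assoc, smul_assoc]
      refine (norm_add_le _ _).trans (le_of_eq ?_)
      rw [norm_smul s (a • (z - y)), norm_smul t (b • (z - y)), Real.norm_of_nonneg hs, Real.norm_of_nonneg ht]
    have h2 : s * ‖a • (z - y)‖ + t * ‖b • (z - y)‖ < r := by
      rcases hs.eq_or_lt with h0 | h0
      · subst h0
        have : t = 1 := by linarith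
        subst this; simpa using hb'
      · nlinarith [mul_lt_mul_of_pos_left ha' h0, mul_le_mul_of_nonneg_left hb'.le ht]
    simpa [hS, mem_ball_iff_norm] using h1.trans_lt h2
  have h0S : (0 : ℂ) ∈ S := by simp [hS, hr]
  have h1S : (1 : ℂ) ∈ S := by simpa [hS] using hzB
  have han : AnalyticOnNhd ℂ (fun w : ℂ => f (y + w • (z - y))) S := fun w hw => (hB _ hw).comp_of_eq (hline w) rfl
  rcases (han 0 h0S).eventually_eq_zero_or_eventually_ne_zero with h2 | h2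
  · exact absurd (by simpa using han.eqOn_zero_of_preconnected_of_eventuallyEq_zero hSc.isPreconnected h0S h2 h1S) hz
  · exact h2

/-- linear coordinates `(x, w) ↦ … + w e` -/
private theorem exists_coord {E : Type} [NormedAddCommGroup E] [NormedSpace ℂ E] [FiniteDimensional ℂ E] {m : ℕ} (hm : Module.finrank ℂ E = m + 1) {e : E} (he : e ≠ 0) :
    ∃ T : (Vd m × ℂ) ≃L[ℂ] E, ∀ w : ℂ, T (0, w) = w • e := by
  obtain ⟨W, hW⟩ := Submodule.exists_isCompl (Submodule.span ℂ {e})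
  have h1 : Module.finrank ℂ (Submodule.span ℂ {e}) = 1 := finrank_span_singleton he
  have h2 : Module.finrank ℂ W = m := by
    have := Submodule.finrank_add_eq_of_isCompl hW
    omega
  have h3 : Module.finrank ℂ (Vd m) = Module.finrank ℂ W := by rw [h2]; simp
  let A : Vd m ≃ₗ[ℂ] W := LinearEquiv.ofFinrankEq _ _ h3
  let B : ℂ ≃ₗ[ℂ] Submodule.span ℂ {e} := LinearEquiv.toSpanNonzeroSingleton ℂ E e he
  let T : (Vd m × ℂ) ≃ₗ[ℂ] E := (A.prodCongr B).trans (Submodule.prodEquivOfIsCompl W (Submodule.span ℂ {e}) hW.symm)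
  refine ⟨T.toContinuousLinearEquiv, fun w => ?_⟩
  have h4 : (B w : E) = w • e := by simp [B]
  simp [T, h4]

/-- a small radius -/
private theorem exists_rad {f : ℂ → Prop} (h : ∀ᶠ w in 𝓝[≠] (0 : ℂ), f w) {c : ℝ} (hc : 0 < c) : ∃ r : ℝ, 0 < r ∧ r < c ∧ ∀ w : ℂ, ‖w‖ = r → f w := by
  rw [eventually_nhdsWithin_iff, Metric.eventually_nhds_iff_ball] at h
  obtain ⟨t, ht, h⟩ := h
  refine ⟨min t c / 2, by positivity, ?_, fun w hw => h w ?_ ?_⟩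
  · have := min_le_right t c
    have := lt_min ht hc
    linarith
  · rw [mem_ball_zero_iff, hw]
    have := min_le_left t c
    have := lt_min ht hc
    linarith
  · intro h0
    rw [h0, norm_zero] at hw
    have := lt_min ht hc
    linarith

private theorem RSys.mono {E : Type} [NormedAddCommGroup E] [NormedSpace ℂ E] {U U' : Set E} {r : ℝ} {σ : E × ℂ → ℂ} {n : ℕ} {β : E → Fin n → ℂ} (R : RSys U r σ β) (h : U' ⊆ U) (ho : IsOpen U') :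
    RSys U' r σ β :=
  ⟨ho, R.pos, fun x hx => R.an x (h hx), fun x hx => R.ne x (h hx), fun x hx => R.lt x (h hx), fun x hx => R.fac x (h hx)⟩

theorem exists_lc {k d : ℕ} (hk : d + 1 = k) {σ ρ : Vd (k + 1) → ℂ} {y : Vd (k + 1)} (hσ : AnalyticAt ℂ σ y) (hρ : AnalyticAt ℂ ρ y) (h1 : σ y = 0) (h2 : ρ y = 0)
    (h3 : ∃ᶠ z in 𝓝 y, σ z ≠ 0) (h4 : ∀ᶠ z in 𝓝 y, σ z = 0 → ∃ᶠ z' in 𝓝 z, σ z' = 0 ∧ ρ z' ≠ 0) {ε : ℝ} (hε : 0 < ε) :
    ∃ (L : ((Vd d × ℂ) × ℂ) ≃L[ℂ] Vd (k + 1)) (δ r₁ r₂ : ℝ) (U : Set (Vd d × ℂ)) (n₁ n₂ : ℕ) (α : Vd d → Fin n₁ → ℂ) (β : Vd d × ℂ → Fin n₂ → ℂ),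
      Lc (fun p => σ (y + L p)) (fun p => ρ (y + L p)) δ r₁ r₂ U α β ∧ ∀ p : (Vd d × ℂ) × ℂ, ‖p.1.1‖ < δ → ‖p.1.2‖ ≤ r₁ → ‖p.2‖ ≤ r₂ → ‖L p‖ < ε := by
  obtain ⟨e₂, he₂⟩ := exists_dir hσ h3
  have hne₂ : e₂ ≠ 0 := by
    rintro rfl
    obtain ⟨w, hw⟩ := he₂.exists
    simp [h1] at hw
  obtain ⟨T₂, hT₂⟩ := exists_coord (m := k) (by simp) hne₂
  -- the neighbourhood in which everything happens
  obtain ⟨η, hη, hB⟩ := Metric.eventually_nhds_iff_ball.1 ((hσ.eventually_analyticAt.and hρ.eventually_analyticAt).and h4)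
  have hcont : ∀ᶠ p in 𝓝 (0 : Vd k × ℂ), ‖T₂ p‖ < min η ε := by
    have : Tendsto (fun p => ‖T₂ p‖) (𝓝 0) (𝓝 0) := by
      have := (T₂.continuous.norm).tendsto (0 : Vd k × ℂ)
      simpa using this
    exact this.eventually (gt_mem_nhds (lt_min hη hε))
  obtain ⟨c₂, hc₂, hcB⟩ := Metric.eventually_nhds_iff_ball.1 hcont
  have hcB' : ∀ (x : Vd k) (w : ℂ), ‖x‖ < c₂ → ‖w‖ < c₂ → ‖T₂ (x, w)‖ < min η ε := fun x w hx hw =>
    hcB (x, w) (by rw [mem_ball_zero_iff, Prod.norm_def]; exact max_lt hx hw)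
  obtain ⟨r₂, hr₂, hr₂c, hr₂n⟩ := exists_rad he₂ hc₂
  have hmem : ∀ (x : Vd k) (w : ℂ), ‖x‖ < c₂ → ‖w‖ ≤ r₂ → y + T₂ (x, w) ∈ ball y η := fun x w hx hw => by
    rw [mem_ball_iff_norm, add_sub_cancel_left]
    exact (hcB' x w hx (hw.trans_lt hr₂c)).trans_le (min_le_left _ _)
  have haff : ∀ p : Vd k × ℂ, AnalyticAt ℂ (fun p => y + T₂ p) p := fun p => analyticAt_const.add (T₂.analyticAt p)
  have hσa : ∀ (x : Vd k) (w : ℂ), ‖x‖ < c₂ → ‖w‖ ≤ r₂ → AnalyticAt ℂ (fun p => σ (y + T₂ p)) (x, w) := fun x w hx hw =>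
    ((hB _ (hmem x w hx hw)).1.1).comp_of_eq (haff (x, w)) rfl
  have hρa : ∀ (x : Vd k) (w : ℂ), ‖x‖ < c₂ → ‖w‖ ≤ r₂ → AnalyticAt ℂ (fun p => ρ (y + T₂ p)) (x, w) := fun x w hx hw =>
    ((hB _ (hmem x w hx hw)).1.2).comp_of_eq (haff (x, w)) rfl
  have h0c : ‖(0 : Vd k)‖ < c₂ := by simpa using hc₂
  obtain ⟨δ₂, n₂, β, hδ₂, R₂⟩ := exists_rsys (σ := fun p : Vd k × ℂ => σ (y + T₂ p)) (x₀ := 0) hr₂ (fun w hw => hσa 0 w h0c hw) (fun w hw => by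
    simp only [hT₂]; exact hr₂n w hw)
  -- shrink the parameters
  set c : ℝ := min δ₂ c₂ with hc
  have hcpos : 0 < c := lt_min hδ₂ hc₂
  have hcx : ∀ x : Vd k, x ∈ ball (0 : Vd k) c → ‖x‖ < c₂ := fun x hx => (mem_ball_zero_iff.1 hx).trans_le (min_le_right _ _)
  have R₂' : RSys (ball (0 : Vd k) c) r₂ (fun p : Vd k × ℂ => σ (y + T₂ p)) β := R₂.mono (ball_subset_ball (min_le_left _ _)) isOpen_ball
  have hρU : ∀ x ∈ ball (0 : Vd k) c, ∀ w : ℂ, ‖w‖ ≤ r₂ → AnalyticAt ℂ (fun p => ρ (y + T₂ p)) (x, w) := fun x hx w hw => hρa x w (hcx x hx) hw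
  have hdU : ∀ x ∈ ball (0 : Vd k) c, ∀ w : ℂ, ‖w‖ < r₂ → σ (y + T₂ (x, w)) = 0 → ∃ᶠ p in 𝓝 (x, w), σ (y + T₂ p) = 0 ∧ ρ (y + T₂ p) ≠ 0 := by
    intro x hx w hw h0
    have h5 := (hB _ (hmem x w (hcx x hx) hw.le)).2 h0
    -- transport along the homeomorphism
    have h6 : Tendsto (fun z => T₂.symm (z - y)) (𝓝 (y + T₂ (x, w))) (𝓝 (x, w)) := by
      have : Continuous fun z => T₂.symm (z - y) := T₂.symm.continuous.comp (continuous_id.sub continuous_const)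
      have h7 := this.tendsto (y + T₂ (x, w))
      simpa using h7
    refine h6.frequently (h5.mono fun z' hz' => ?_)
    simpa using hz'
  have h0U : (0 : Vd k) ∈ ball (0 : Vd k) c := by simpa using hcpos
  -- the norm
  have hNan : ∀ x ∈ ball (0 : Vd k) c, AnalyticAt ℂ (fun x => ∏ j, ρ (y + T₂ (x, β x j))) x := R₂'.norm_an (F := fun p => ρ (y + T₂ p)) hρU
  have hNne : ∃ᶠ x in 𝓝 (0 : Vd k), ∏ j, ρ (y + T₂ (x, β x j)) ≠ 0 := R₂'.norm_ne (ρ := fun p => ρ (y + T₂ p)) hρU hdU h0U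
  obtain ⟨e₁, he₁⟩ := exists_dir (hNan 0 h0U) hNne
  have hN0 : ∏ j, ρ (y + T₂ ((0 : Vd k), β 0 j)) = 0 := by
    obtain ⟨j, hj⟩ := (R₂'.iff h0U (w := 0) (by simpa using hr₂.le)).1 (by
      have : T₂ ((0 : Vd k), (0 : ℂ)) = 0 := by rw [hT₂]; simp
      simp only [this, add_zero, h1])
    refine Finset.prod_eq_zero (Finset.mem_univ j) ?_
    rw [← hj, hT₂]
    simpa using h2
  have hne₁ : e₁ ≠ 0 := by
    rintro rfl
    obtain ⟨w, hw⟩ := he₁.exists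
    simp only [smul_zero, add_zero] at hw
    exact hw hN0
  obtain ⟨T₁, hT₁⟩ := exists_coord (m := d) (E := Vd k) (by simp [hk]) hne₁
  have hcont₁ : ∀ᶠ p in 𝓝 (0 : Vd d × ℂ), ‖T₁ p‖ < c := by
    have : Tendsto (fun p => ‖T₁ p‖) (𝓝 0) (𝓝 0) := by
      have := (T₁.continuous.norm).tendsto (0 : Vd d × ℂ)
      simpa using this
    exact this.eventually (gt_mem_nhds hcpos)
  obtain ⟨c₁, hc₁, hcB₁⟩ := Metric.eventually_nhds_iff_ball.1 hcont₁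
  have hcB₁' : ∀ (z : Vd d) (v : ℂ), ‖z‖ < c₁ → ‖v‖ < c₁ → T₁ (z, v) ∈ ball (0 : Vd k) c := fun z v hz hv => by
    rw [mem_ball_zero_iff]
    exact hcB₁ (z, v) (by rw [mem_ball_zero_iff, Prod.norm_def]; exact max_lt hz hv)
  obtain ⟨r₁, hr₁, hr₁c, hr₁n⟩ := exists_rad he₁ hc₁
  have hNan₁ : ∀ (z : Vd d) (v : ℂ), ‖z‖ < c₁ → ‖v‖ ≤ r₁ → AnalyticAt ℂ (fun x : Vd d × ℂ => ∏ j, ρ (y + T₂ (T₁ x, β (T₁ x) j))) (z, v) := fun z v hz hv =>
    (hNan _ (hcB₁' z v hz (hv.trans_lt hr₁c))).comp (T₁.analyticAt (z, v))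
  obtain ⟨δ₁, n₁, α, hδ₁, R₁⟩ := exists_rsys (σ := fun x : Vd d × ℂ => ∏ j, ρ (y + T₂ (T₁ x, β (T₁ x) j))) (x₀ := 0) hr₁
    (fun v hv => hNan₁ 0 v (by simpa using hc₁) hv) (fun v hv => by
      have := hr₁n v hv
      simp only [zero_add] at this
      simpa only [hT₁] using this)
  refine ⟨(T₁.prodCongr (ContinuousLinearEquiv.refl ℂ ℂ)).trans T₂, min δ₁ c₁, r₁, r₂, T₁ ⁻¹' ball 0 c, n₁, n₂, α, fun x => β (T₁ x), ⟨lt_min hδ₁ hc₁, ?_, ?_, ?_, ?_⟩, ?_⟩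
  · intro z hz v hv
    exact hcB₁' z v ((mem_ball_zero_iff.1 hz).trans_le (min_le_right _ _)) (hv.trans_lt hr₁c)
  · refine ⟨isOpen_ball.preimage T₁.continuous, hr₂, fun x hx w hw => ?_, fun x hx w hw => ?_, fun x hx i => R₂'.lt _ hx i, fun x hx => R₂'.fac _ hx⟩
    · have h5 := R₂'.an (T₁ x) hx w hw
      exact h5.comp_of_eq ((T₁.prodCongr (ContinuousLinearEquiv.refl ℂ ℂ)).analyticAt (x, w)) rfl
    · exact R₂'.ne (T₁ x) hx w hw
  · intro x hx w hw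
    have h5 := hρU (T₁ x) hx w hw
    exact h5.comp_of_eq ((T₁.prodCongr (ContinuousLinearEquiv.refl ℂ ℂ)).analyticAt (x, w)) rfl
  · exact R₁.mono (ball_subset_ball (min_le_left _ _)) isOpen_ball
  · intro p hp1 hp2 hp3
    have h5 : T₁ p.1 ∈ ball (0 : Vd k) c := hcB₁' p.1.1 p.1.2 (hp1.trans_le (min_le_right _ _)) (hp2.trans_lt hr₁c)
    exact (hcB' (T₁ p.1) p.2 (hcx _ h5) (hp3.trans_lt hr₂c)).trans_le (min_le_right _ _)

end Pool.Agent.G4.K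

end

section

/-!
# G4 K Sl: the Schwarz property in adapted coordinates

`ι = Fin n₁ × Fin n₂`, `pt z (i, j) = ((z, α z i), β (z, α z i) j)`.  `A²`, `A¹` from `RSys.div` for `R2`, `R1`; `b i j G z = A¹ i (A² j G) z` is analytic on `ball 0 δ` and linear in `G`, and `G (pt z (i, j)) = ∑ i' j', b i' j' G z (α z i) ^ i' (β … j) ^ j'`.
Conditions: `tay` for the `b i j G`.  Then `‖G (pt z ι)‖ ≤ C ‖z‖ ^ T` near `0`, and `cf_bd` with `A z ι = ρ (pt z ι)`, `g z ι = G (pt z ι)` (`hP`: `norm_an` for `R2` and `F = ρ + s (t - G)`, then for `R1`; `Fintype.prod_prod_type`) gives the bound at the points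
over `z` with `c z ≠ 0` (`RSys.iff` for `R2`, `R1`: such a point is a `pt z ι`).  The other points are limits of such points: the set `c ≠ 0` is dense in the ball (identity theorem), and `opn` (`h3`: the zeros of `σ ((z, v), ·)` are the `β (z, v) j`; `h4`: the
zeros of the norm of `ρ` on `(z, ·)` are the `α z i`).
-/

set_option autoImplicit false

open Topology Filter Metric

namespace Pool.Agent.G4.K

open Pool.Agent.AD (Vd)

private theorem sl_ne {ι : Type} [Finite ι] (f : ι → ℂ) (b : ℂ) : ∀ᶠ w in 𝓝[≠] b, ∀ i, w ≠ f i := by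
  have h : {x : ℂ | x ∈ Set.range f ∧ x ≠ b}.Finite := (Set.finite_range f).subset (fun x hx => hx.1)
  have h1 : {x : ℂ | x ∈ Set.range f ∧ x ≠ b}ᶜ ∈ 𝓝 b := h.isClosed.isOpen_compl.mem_nhds (fun hx => hx.2 rfl)
  filter_upwards [mem_nhdsWithin_of_mem_nhds h1, self_mem_nhdsWithin] with w hw hwb i hi
  exact hw ⟨⟨i, hi.symm⟩, hwb⟩

private theorem sl_nn (b : ℂ) {r : ℝ} (hb : ‖b‖ < r) : ∀ᶠ w in 𝓝[≠] b, ‖w‖ ≤ r := by
  have h : {w : ℂ | ‖w‖ < r} ∈ 𝓝 b := (isOpen_lt continuous_norm continuous_const).mem_nhds hb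
  filter_upwards [mem_nhdsWithin_of_mem_nhds h] with w hw
  exact le_of_lt hw

theorem sw_lc {d : ℕ} {σ ρ : (Vd d × ℂ) × ℂ → ℂ} {δ r₁ r₂ : ℝ} {U : Set (Vd d × ℂ)} {n₁ n₂ : ℕ} {α : Vd d → Fin n₁ → ℂ} {β : Vd d × ℂ → Fin n₂ → ℂ} (H : Lc σ ρ δ r₁ r₂ U α β)
    (T : ℕ) : ∃ Φ : Fin (n₁ * n₂) → (Fin d → Fin T) → ((Vd d × ℂ) × ℂ → ℂ) → ℂ,
      (∀ i j (G G' : (Vd d × ℂ) × ℂ → ℂ) (c : ℂ), (∀ z, AnalyticAt ℂ G z) → (∀ z, AnalyticAt ℂ G' z) → Φ i j (fun z => G z + c * G' z) = Φ i j G + c * Φ i j G') ∧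
      ∀ (G : (Vd d × ℂ) × ℂ → ℂ) (S : ℝ), (∀ z, AnalyticAt ℂ G z) →
        (∀ p : (Vd d × ℂ) × ℂ, ‖p.1.1‖ < δ → ‖p.1.2‖ < r₁ → ‖p.2‖ < r₂ → σ p = 0 → ρ p = 0 → ‖G p‖ ≤ S) → (∀ i j, Φ i j G = 0) →
        ∀ p : (Vd d × ℂ) × ℂ, ‖p.1.1‖ < δ / 2 → ‖p.1.2‖ < r₁ → ‖p.2‖ < r₂ → σ p = 0 → ρ p = 0 → ‖G p‖ ≤ S * (((n₁ * n₂ : ℕ) + 1) * 2 ^ (n₁ * n₂) * (1 / 2) ^ T) := by
  classical
  have hsub := H.sub
  obtain ⟨A2, A2an, A2lin, A2cong, A2val⟩ := H.R2.div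
  obtain ⟨A1, A1an, A1lin, A1cong, A1val⟩ := H.R1.div
  obtain ⟨Ψ, Ψlin, Ψcong, Ψbd⟩ := tay d T
  have h0 : (0 : Vd d) ∈ ball (0 : Vd d) δ := mem_ball_self H.pos
  have hball : ball (0 : Vd d) δ ∈ 𝓝 (0 : Vd d) := isOpen_ball.mem_nhds h0
  -- analyticity of the coefficients
  have hA2 : ∀ G : (Vd d × ℂ) × ℂ → ℂ, (∀ z, AnalyticAt ℂ G z) → ∀ j, ∀ x ∈ ball (0 : Vd d) δ, ∀ w : ℂ, ‖w‖ ≤ r₁ → AnalyticAt ℂ (A2 j G) (x, w) :=
    fun G hG j x hx w hw => A2an j G (fun _ _ _ _ => hG _) _ (hsub x hx w hw)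
  have hbA : ∀ G : (Vd d × ℂ) × ℂ → ℂ, (∀ z, AnalyticAt ℂ G z) → ∀ i j, ∀ x ∈ ball (0 : Vd d) δ, AnalyticAt ℂ (A1 i (A2 j G)) x :=
    fun G hG i j x hx => A1an i _ (hA2 G hG j) x hx
  have hblin : ∀ (G G' : (Vd d × ℂ) × ℂ → ℂ) (c : ℂ), (∀ z, AnalyticAt ℂ G z) → (∀ z, AnalyticAt ℂ G' z) → ∀ i j, ∀ x ∈ ball (0 : Vd d) δ,
      A1 i (A2 j (fun z => G z + c * G' z)) x = A1 i (A2 j G) x + c * A1 i (A2 j G') x := by
    intro G G' c hG hG' i j x hx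
    rw [A1cong i (A2 j (fun z => G z + c * G' z)) (fun p => A2 j G p + c * A2 j G' p) x hx
      (fun w hw => A2lin j G G' c (fun _ _ _ _ => hG _) (fun _ _ _ _ => hG' _) (x, w) (hsub x hx w hw))]
    exact A1lin i _ _ c (hA2 G hG j) (hA2 G' hG' j) x hx
  refine ⟨fun e k G => Ψ k (A1 (finProdFinEquiv.symm e).1 (A2 (finProdFinEquiv.symm e).2 G)), ?_, ?_⟩
  · intro e k G G' c hG hG'
    have h1 : A1 (finProdFinEquiv.symm e).1 (A2 (finProdFinEquiv.symm e).2 (fun z => G z + c * G' z)) =ᶠ[𝓝 0]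
        fun z => A1 (finProdFinEquiv.symm e).1 (A2 (finProdFinEquiv.symm e).2 G) z + c * A1 (finProdFinEquiv.symm e).1 (A2 (finProdFinEquiv.symm e).2 G') z := by
      filter_upwards [hball] with x hx
      exact hblin G G' c hG hG' _ _ x hx
    show Ψ k _ = Ψ k _ + c * Ψ k _
    rw [Ψcong k _ _ h1]
    exact Ψlin k _ _ c (hbA G hG _ _ 0 h0) (hbA G' hG' _ _ 0 h0)
  intro G S hG hGS hΦ
  -- the points over z
  have hpt : ∀ z ∈ ball (0 : Vd d) δ, ∀ i, (z, α z i) ∈ U := fun z hz i => hsub z hz _ (H.R1.lt z hz i).le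
  -- the coefficients vanish to order T
  have hb : ∀ i j, ∃ C : ℝ, 0 ≤ C ∧ ∀ᶠ z in 𝓝 (0 : Vd d), ‖A1 i (A2 j G) z‖ ≤ C * ‖z‖ ^ T := by
    intro i j
    refine Ψbd _ (hbA G hG i j 0 h0) (fun k => ?_)
    have := hΦ (finProdFinEquiv (i, j)) k
    simpa using this
  choose C hC0 hC using hb
  have hCe : ∀ᶠ z in 𝓝 (0 : Vd d), ∀ i j, ‖A1 i (A2 j G) z‖ ≤ C i j * ‖z‖ ^ T :=
    eventually_all.2 fun i => eventually_all.2 fun j => hC i j
  have hT : ∀ᶠ z in 𝓝 (0 : Vd d), ∀ ij : Fin n₁ × Fin n₂, ρ ((z, α z ij.1), β (z, α z ij.1) ij.2) = 0 →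
      ‖G ((z, α z ij.1), β (z, α z ij.1) ij.2)‖ ≤ (∑ j : Fin n₂, ∑ i : Fin n₁, C i j * r₁ ^ (i : ℕ) * r₂ ^ (j : ℕ)) * ‖z‖ ^ T := by
    filter_upwards [hCe, hball] with z hz hzb ij _
    have hU := hpt z hzb ij.1
    have e1 : G ((z, α z ij.1), β (z, α z ij.1) ij.2) = ∑ j, A2 j G (z, α z ij.1) * β (z, α z ij.1) ij.2 ^ (j : ℕ) :=
      A2val G (fun _ _ _ _ => hG _) _ hU ij.2
    have e2 : ∀ j, A2 j G (z, α z ij.1) = ∑ i, A1 i (A2 j G) z * α z ij.1 ^ (i : ℕ) :=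
      fun j => A1val (A2 j G) (hA2 G hG j) z hzb ij.1
    rw [e1, Finset.sum_mul]
    refine (norm_sum_le _ _).trans (Finset.sum_le_sum fun j _ => ?_)
    rw [e2 j, Finset.sum_mul, Finset.sum_mul]
    refine (norm_sum_le _ _).trans (Finset.sum_le_sum fun i _ => ?_)
    rw [norm_mul, norm_mul, norm_pow, norm_pow]
    have ha : ‖α z ij.1‖ ^ (i : ℕ) ≤ r₁ ^ (i : ℕ) := pow_le_pow_left₀ (norm_nonneg _) (H.R1.lt z hzb ij.1).le _
    have hbb : ‖β (z, α z ij.1) ij.2‖ ^ (j : ℕ) ≤ r₂ ^ (j : ℕ) := pow_le_pow_left₀ (norm_nonneg _) (H.R2.lt _ hU ij.2).le _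
    have hr₁ := H.R1.pos
    have hr₂ := H.R2.pos
    calc ‖A1 i (A2 j G) z‖ * ‖α z ij.1‖ ^ (i : ℕ) * ‖β (z, α z ij.1) ij.2‖ ^ (j : ℕ)
        ≤ (C i j * ‖z‖ ^ T) * r₁ ^ (i : ℕ) * r₂ ^ (j : ℕ) := by
          have h1 : 0 ≤ C i j * ‖z‖ ^ T := mul_nonneg (hC0 i j) (by positivity)
          gcongr
          exact hz i j
      _ = C i j * r₁ ^ (i : ℕ) * r₂ ^ (j : ℕ) * ‖z‖ ^ T := by ring
  have hP : ∀ s t : ℂ, ∀ x ∈ ball (0 : Vd d) δ, AnalyticAt ℂ (fun x => ∏ ij : Fin n₁ × Fin n₂,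
      (ρ ((x, α x ij.1), β (x, α x ij.1) ij.2) + s * (t - G ((x, α x ij.1), β (x, α x ij.1) ij.2)))) x := by
    intro s t x hx
    have hN : ∀ x ∈ U, AnalyticAt ℂ (fun x => ∏ j, (ρ (x, β x j) + s * (t - G (x, β x j)))) x :=
      H.R2.norm_an (F := fun p => ρ p + s * (t - G p)) (fun x hx w hw => (H.an x hx w hw).add (analyticAt_const.mul (analyticAt_const.sub (hG _))))
    have hM := H.R1.norm_an (F := fun y => ∏ j, (ρ (y, β y j) + s * (t - G (y, β y j)))) (fun z hz w hw => hN _ (hsub z hz w hw)) x hx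
    simpa only [Fintype.prod_prod_type] using hM
  have hS : ∀ x ∈ ball (0 : Vd d) δ, ∀ ij : Fin n₁ × Fin n₂, ρ ((x, α x ij.1), β (x, α x ij.1) ij.2) = 0 → ‖G ((x, α x ij.1), β (x, α x ij.1) ij.2)‖ ≤ S := by
    intro x hx ij h
    have hU := hpt x hx ij.1
    exact hGS _ (by simpa using hx) (H.R1.lt x hx ij.1) (H.R2.lt _ hU ij.2) ((H.R2.iff hU (H.R2.lt _ hU ij.2).le).2 ⟨ij.2, rfl⟩) h
  obtain ⟨c, hc1, ⟨x₁, hx₁, hcx₁⟩, hc3⟩ := cf_bd H.pos hP hS hT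
  -- dense open set
  have hfreq : ∀ z ∈ ball (0 : Vd d) δ, ∃ᶠ z' in 𝓝 z, c z' ≠ 0 := by
    intro z hz h
    refine hcx₁ ?_
    have hcon : AnalyticOnNhd ℂ c (ball (0 : Vd d) δ) := hc1
    have := hcon.eqOn_zero_of_preconnected_of_eventuallyEq_zero (convex_ball (0 : Vd d) δ).isPreconnected hz
      (by filter_upwards [h] with y hy; simpa using hy)
    exact this hx₁
  rintro ⟨⟨z₀, a⟩, b⟩ hz₀ ha hb hσ0 hρ0
  simp only at hz₀ ha hb
  have hz₀δ : z₀ ∈ ball (0 : Vd d) δ := by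
    have : δ / 2 < δ := half_lt_self H.pos
    simpa using hz₀.trans this
  have hU₀ : (z₀, a) ∈ U := hsub z₀ hz₀δ a ha.le
  have h3 : ∀ᶠ w in 𝓝[≠] b, σ ((z₀, a), w) ≠ 0 := by
    filter_upwards [sl_ne (β (z₀, a)) b, sl_nn b hb] with w h1 h2 h4
    obtain ⟨i, hi⟩ := (H.R2.iff hU₀ h2).1 h4
    exact h1 i hi
  have h4 : ∀ᶠ v in 𝓝[≠] a, ∀ w : ℂ, ‖w - b‖ < r₂ - ‖b‖ → σ ((z₀, v), w) = 0 → ρ ((z₀, v), w) ≠ 0 := by
    filter_upwards [sl_ne (α z₀) a, sl_nn a ha] with v h1 h2 w hw h5 h6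
    have hUv : (z₀, v) ∈ U := hsub z₀ hz₀δ v h2
    have hw' : ‖w‖ ≤ r₂ := by
      have : ‖w‖ ≤ ‖w - b‖ + ‖b‖ := by simpa using norm_add_le (w - b) b
      linarith
    obtain ⟨j, hj⟩ := (H.R2.iff hUv hw').1 h5
    have h7 : ∏ j, ρ ((z₀, v), β (z₀, v) j) = 0 := Finset.prod_eq_zero (Finset.mem_univ j) (by rw [← hj]; exact h6)
    obtain ⟨i, hi⟩ := (H.R1.iff hz₀δ h2).1 h7
    exact h1 i hi
  by_contra hcon
  rw [not_le] at hcon
  have hM : (S * (((Fintype.card (Fin n₁ × Fin n₂) : ℕ) + 1) * 2 ^ Fintype.card (Fin n₁ × Fin n₂) * (1 / 2) ^ T) : ℝ)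
      = S * (((n₁ * n₂ : ℕ) + 1) * 2 ^ (n₁ * n₂) * (1 / 2) ^ T) := by
    rw [Fintype.card_prod, Fintype.card_fin, Fintype.card_fin]
  have hopen : {p : (Vd d × ℂ) × ℂ | S * (((n₁ * n₂ : ℕ) + 1) * 2 ^ (n₁ * n₂) * (1 / 2) ^ T) < ‖G p‖ ∧ ‖p.1.1‖ < δ / 2 ∧ ‖p.1.2‖ < r₁ ∧ ‖p.2‖ < r₂} ∈ 𝓝 ((z₀, a), b) := by
    have c1 : ContinuousAt (fun p => ‖G p‖) ((z₀, a), b) := (hG _).continuousAt.norm
    filter_upwards [c1.eventually (lt_mem_nhds hcon),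
      (isOpen_lt (f := fun p : (Vd d × ℂ) × ℂ => ‖p.1.1‖) (by fun_prop) continuous_const).mem_nhds hz₀,
      (isOpen_lt (f := fun p : (Vd d × ℂ) × ℂ => ‖p.1.2‖) (by fun_prop) continuous_const).mem_nhds ha,
      (isOpen_lt (f := fun p : (Vd d × ℂ) × ℂ => ‖p.2‖) (by fun_prop) continuous_const).mem_nhds hb] with p h1 h2 h3 h4
    exact ⟨h1, h2, h3, h4⟩
  obtain ⟨ε, hε, hεb⟩ := Metric.mem_nhds_iff.1 hopen
  have hop := opn (H.R2.an _ hU₀ b hb.le) (H.an _ hU₀ b hb.le) hσ0 hρ0 h3 (sub_pos.2 hb) h4 hε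
  obtain ⟨z, hcz, ⟨v, w, hv, hw, hσ, hρ⟩, hzε⟩ := ((hfreq z₀ hz₀δ).and_eventually (hop.and (ball_mem_nhds z₀ hε))).exists
  have hmem : (((z, v), w) : (Vd d × ℂ) × ℂ) ∈ ball (((z₀, a), b) : (Vd d × ℂ) × ℂ) ε := by
    rw [mem_ball, Prod.dist_eq, Prod.dist_eq]
    refine max_lt (max_lt hzε ?_) ?_
    · simpa [dist_eq_norm] using hv
    · simpa [dist_eq_norm] using hw
  obtain ⟨k1, k2, k3, k4⟩ := hεb hmem
  simp only at k1 k2 k3 k4
  have hzδ2 : z ∈ ball (0 : Vd d) (δ / 2) := by simpa using k2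
  have hzδ : z ∈ ball (0 : Vd d) δ := ball_subset_ball (half_lt_self H.pos).le hzδ2
  have hUz : (z, v) ∈ U := hsub z hzδ v k3.le
  obtain ⟨j, hj⟩ := (H.R2.iff hUz k4.le).1 hσ
  have h7 : ∏ j, ρ ((z, v), β (z, v) j) = 0 := Finset.prod_eq_zero (Finset.mem_univ j) (by rw [← hj]; exact hρ)
  obtain ⟨i, hi⟩ := (H.R1.iff hzδ k3.le).1 h7
  have hfin := hc3 z hzδ2 hcz (i, j)
  simp only at hfin
  rw [← hi, ← hj] at hfin
  have hle := hfin hρ
  rw [hM] at hle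
  exact absurd hle (not_le.2 k1)

end Pool.Agent.G4.K

end

section

/-!
# G4 K Sz: local complete intersections of codimension `2` have the Schwarz property
-/

set_option autoImplicit false

open Topology Filter Metric

namespace Pool.Agent.G4.K

open Pool.Agent.AD (Vd)

theorem sw_of_ci {k d : ℕ} (hk : d + 1 = k) {Z : Set (Vd (k + 1))} (hZ : CI Z) : Sw d Z := by
  intro y hy
  obtain ⟨σ, ρ, hσ, hρ, h1, h2, h3⟩ := hZ y hy
  obtain ⟨ε, hε, hε2⟩ := Metric.eventually_nhds_iff_ball.1 h2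
  have hy0 := (hε2 y (mem_ball_self hε)).1 hy
  obtain ⟨L, δ, r₁, r₂, U, n₁, n₂, α, β, H, hL⟩ := exists_lc hk hσ hρ hy0.1 hy0.2 h1 h3 (ε := min ε 1) (lt_min hε one_pos)
  have han : ∀ G : Vd (k + 1) → ℂ, (∀ z, AnalyticAt ℂ G z) → ∀ z, AnalyticAt ℂ (fun p : (Vd d × ℂ) × ℂ => G (y + L p)) z := by
    intro G hG z
    exact AnalyticAt.fun_comp (hG _) (analyticAt_const.add ((L : ((Vd d × ℂ) × ℂ) →L[ℂ] Vd (k + 1)).analyticAt z))
  refine ⟨n₁ * n₂, ((n₁ * n₂ : ℕ) + 1) * 2 ^ (n₁ * n₂), by positivity, {z | ‖(L.symm (z - y)).1.1‖ < δ / 2 ∧ ‖(L.symm (z - y)).1.2‖ < r₁ ∧ ‖(L.symm (z - y)).2‖ < r₂}, ?_, fun T => ?_⟩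
  · have hc : Continuous fun z : Vd (k + 1) => L.symm (z - y) := L.symm.continuous.comp (continuous_id.sub continuous_const)
    have ho : IsOpen {z : Vd (k + 1) | ‖(L.symm (z - y)).1.1‖ < δ / 2 ∧ ‖(L.symm (z - y)).1.2‖ < r₁ ∧ ‖(L.symm (z - y)).2‖ < r₂} :=
      (isOpen_lt (continuous_norm.comp (continuous_fst.comp (continuous_fst.comp hc))) continuous_const).inter
        ((isOpen_lt (continuous_norm.comp (continuous_snd.comp (continuous_fst.comp hc))) continuous_const).inter (isOpen_lt (continuous_norm.comp (continuous_snd.comp hc)) continuous_const))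
    refine ho.mem_nhds ?_
    have h4 := H.pos
    have h5 := H.R1.pos
    have h6 := H.R2.pos
    simp [h4, h5, h6]
  · obtain ⟨Φ, hΦ1, hΦ2⟩ := sw_lc H T
    refine ⟨fun i j G => Φ i j fun p => G (y + L p), fun i j G G' c hG hG' => hΦ1 i j _ _ c (han G hG) (han G' hG'), fun G S hG hS h0 z hz hzU => ?_⟩
    have hS0 : 0 ≤ S := (norm_nonneg _).trans (hS y hy (by simp))
    have key := hΦ2 (fun p => G (y + L p)) S (han G hG) (fun p hp1 hp2 hp3 hp4 hp5 => by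
      have h4 := hL p hp1 hp2.le hp3.le
      refine hS _ ((hε2 (y + L p) ?_).2 ⟨hp4, hp5⟩) ?_
      · rw [mem_ball, dist_eq_norm, add_sub_cancel_left]
        exact h4.trans_le (min_le_left _ _)
      · rw [add_sub_cancel_left]
        exact (h4.trans_le (min_le_right _ _)).le) h0 (L.symm (z - y)) hzU.1 hzU.2.1 hzU.2.2
    have h4 : y + L (L.symm (z - y)) = z := by
      rw [ContinuousLinearEquiv.apply_symm_apply]
      abel
    simp only [h4] at key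
    have h5 : ‖z - y‖ < min ε 1 := by
      have h6 := hL (L.symm (z - y)) (hzU.1.trans (by linarith [H.pos])) hzU.2.1.le hzU.2.2.le
      rwa [ContinuousLinearEquiv.apply_symm_apply] at h6
    have h6 := (hε2 z (by rw [mem_ball, dist_eq_norm]; exact h5.trans_le (min_le_left _ _))).1 hz
    refine (key h6.1 h6.2).trans (mul_le_mul_of_nonneg_left (mul_le_mul_of_nonneg_left ?_ (by positivity)) hS0)
    exact pow_le_pow_left₀ (by norm_num) (by norm_num) T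

end Pool.Agent.G4.K

end
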