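import Pool.Agent.H94.PX4.M39
import Pool.Agent.H94.PX4.M71
import Pool.Agent.H94.PX4.M80

/-! The parts of this file: G4.RE.R2, G4.RE.Rx, G4.RE.Rd. -/

section

/-!
# G4 RE R2: a double zero splits

If `∂ₜ g (x, t) ≠ 0` then `g (x', ·)` is injective near `t` for `x'` near `x` (strict differentiability).  `exists_rsys` for `(x', w) ↦ s (x', t + w)` at `x` with a small radius: at `x' = x` all zeros are `0`, so `s (x, t + w) = w ^ n * h w`, `h 0 ≠ 0`, and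
`n ≥ 2` by `h0`, `hd`; for `x'` near `x` with `c x' ≠ 0` the zeros `β x' 0`, `β x' 1` are different (otherwise the derivative is `0` there, against `h1`), and both are zeros of `g (x', t + ·)` (`hgs`).
-/

set_option autoImplicit false

open Topology Filter Metric

namespace Pool.Agent.G4.RE

open Pool.Agent.G4.K (RSys)

variable {E : Type} [NormedAddCommGroup E] [NormedSpace ℂ E] [FiniteDimensional ℂ E]

/-- a double zero: the derivative vanishes -/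
private theorem r2_dbl {F h : ℂ → ℂ} {n : ℕ} {b : Fin n → ℂ} {i j : Fin n} (hij : i ≠ j) (hb : b i = b j) (hh : DifferentiableAt ℂ h (b i)) (hF : ∀ᶠ w in 𝓝 (b i), F w = (∏ k, (w - b k)) * h w) :
    deriv F (b i) = 0 := by
  have h1 : F =ᶠ[𝓝 (b i)] fun w => (w - b i) * ((w - b i) * ((∏ k ∈ (Finset.univ.erase i).erase j, (w - b k)) * h w)) := by
    filter_upwards [hF] with w hw
    rw [hw, ← Finset.mul_prod_erase Finset.univ (fun k => w - b k) (Finset.mem_univ i), ← Finset.mul_prod_erase (Finset.univ.erase i) (fun k => w - b k) (Finset.mem_erase.2 ⟨hij.symm, Finset.mem_univ j⟩), ← hb]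
    ring
  rw [h1.deriv_eq]
  have h2 : DifferentiableAt ℂ (fun w => (w - b i) * ((∏ k ∈ (Finset.univ.erase i).erase j, (w - b k)) * h w)) (b i) := by
    refine (differentiableAt_id.sub_const _).mul (DifferentiableAt.mul ?_ hh)
    refine DifferentiableAt.fun_finsetProd fun k _ => differentiableAt_id.sub_const _
  have h3 : HasDerivAt (fun w : ℂ => w - b i) 1 (b i) := (hasDerivAt_id _).sub_const _
  have h4 := (h3.mul h2.hasDerivAt).deriv
  refine h4.trans ?_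
  simp

omit [FiniteDimensional ℂ E] in
/-- injectivity of `g (x', ·)` near `t` -/
private theorem r2_inj {g : E × ℂ → ℂ} {x : E} {t : ℂ} (hg : AnalyticAt ℂ g (x, t)) (hd : deriv (fun t => g (x, t)) t ≠ 0) :
    ∃ η > 0, ∀ x' : E, ‖x' - x‖ < η → ∀ a b : ℂ, ‖a - t‖ < η → ‖b - t‖ < η → g (x', a) = 0 → g (x', b) = 0 → a = b := by
  have h1 : HasStrictFDerivAt g (fderiv ℂ g (x, t)) (x, t) := hg.hasStrictFDerivAt
  have h2 : deriv (fun t => g (x, t)) t = fderiv ℂ g (x, t) (0, 1) := by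
    have h3 : HasDerivAt (fun t : ℂ => (x, t)) ((0 : E), (1 : ℂ)) t := (hasDerivAt_const t x).prodMk (hasDerivAt_id t)
    exact (h1.hasFDerivAt.comp_hasDerivAt t h3).deriv
  rw [h2] at hd
  have h3 : 0 < ‖fderiv ℂ g (x, t) (0, 1)‖ := norm_pos_iff.2 hd
  have h4 := h1.isLittleO.def (half_pos h3)
  rw [nhds_prod_eq] at h4
  obtain ⟨U, hU, h5⟩ := (Filter.eventually_prod_self_iff (r := fun p q : E × ℂ => ‖g p - g q - (fderiv ℂ g (x, t)) (p - q)‖ ≤ ‖fderiv ℂ g (x, t) (0, 1)‖ / 2 * ‖p - q‖)).1 h4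
  obtain ⟨η, hη, h6⟩ := Metric.mem_nhds_iff.1 hU
  refine ⟨η, hη, fun x' hx' a b ha hb e1 e2 => ?_⟩
  have h7 : ∀ c : ℂ, ‖c - t‖ < η → ((x', c) : E × ℂ) ∈ U := fun c hc => h6 (by
    rw [mem_ball, Prod.dist_eq, max_lt_iff, dist_eq_norm, dist_eq_norm]
    exact ⟨hx', hc⟩)
  have h8 := h5 (x', a) (h7 a ha) (x', b) (h7 b hb)
  have h9 : ((x', a) : E × ℂ) - (x', b) = (a - b) • ((0 : E), (1 : ℂ)) := by
    simp
  rw [e1, e2, h9, map_smul, sub_zero, zero_sub, norm_neg, norm_smul, norm_smul] at h8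
  have h10 : ‖((0 : E), (1 : ℂ))‖ = 1 := by
    rw [Prod.norm_def]
    simp
  rw [h10, mul_one] at h8
  by_contra h11
  have h12 : 0 < ‖a - b‖ := norm_pos_iff.2 (sub_ne_zero.2 h11)
  nlinarith

/-- a double zero splits -/
theorem rd_two {s g : E × ℂ → ℂ} {c : E → ℂ} {x : E} {t : ℂ} (hs : AnalyticAt ℂ s (x, t)) (h0 : s (x, t) = 0) (hz : ∀ᶠ t' in 𝓝[≠] t, s (x, t') ≠ 0) (hc : ∃ᶠ x' in 𝓝 x, c x' ≠ 0)
    (h1 : ∀ᶠ p : E × ℂ in 𝓝 (x, t), c p.1 ≠ 0 → s p = 0 → deriv (fun t => s (p.1, t)) p.2 ≠ 0) (hd : deriv (fun t => s (x, t)) t = 0) (hg : AnalyticAt ℂ g (x, t)) (hgs : ∀ᶠ p in 𝓝 (x, t), (g p = 0 ↔ s p = 0)) :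
    deriv (fun t => g (x, t)) t = 0 := by
  by_contra hgd
  obtain ⟨η₁, hη₁, k1⟩ := r2_inj hg hgd
  obtain ⟨η₂, hη₂, k2⟩ := Metric.eventually_nhds_iff.1 (hs.eventually_analyticAt.and (h1.and hgs))
  rw [eventually_nhdsWithin_iff, Metric.eventually_nhds_iff] at hz
  obtain ⟨η₃, hη₃, k3⟩ := hz
  set η : ℝ := min (min η₁ η₂) η₃ with hη
  have hη0 : 0 < η := lt_min (lt_min hη₁ hη₂) hη₃
  have m1 : η ≤ η₁ := (min_le_left _ _).trans (min_le_left _ _)
  have m2 : η ≤ η₂ := (min_le_left _ _).trans (min_le_right _ _)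
  have m3 : η ≤ η₃ := min_le_right _ _
  have hr : 0 < η / 2 := by linarith
  have hdist : ∀ x' : E, ‖x' - x‖ < η → ∀ w : ℂ, ‖w‖ < η → dist ((x', t + w) : E × ℂ) (x, t) < η₂ := by
    intro x' hx' w hw
    rw [Prod.dist_eq, max_lt_iff, dist_eq_norm, dist_eq_norm]
    exact ⟨hx'.trans_le m2, by simpa using hw.trans_le m2⟩
  have hxx : ‖x - x‖ < η := by simpa using hη0
  obtain ⟨δ, n, β, hδ, R⟩ := Pool.Agent.G4.K.exists_rsys (σ := fun y : E × ℂ => s (y.1, t + y.2)) (x₀ := x) hr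
    (fun w hw => by
      have h2 : AnalyticAt ℂ s (x, t + w) := (k2 (hdist x hxx w (by linarith))).1
      have h3 : AnalyticAt ℂ (fun y : E × ℂ => ((y.1, t + y.2) : E × ℂ)) (x, w) := analyticAt_fst.prod (analyticAt_const.add analyticAt_snd)
      exact AnalyticAt.fun_comp (g := s) (f := fun y : E × ℂ => ((y.1, t + y.2) : E × ℂ)) h2 h3)
    (fun w hw => k3 (by rw [dist_eq_norm, add_sub_cancel_left, hw]; linarith) (by
      intro h5
      have h6 : w = 0 := by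
        have h7 : t + w = t := h5
        simpa using h7
      rw [h6, norm_zero] at hw
      exact hr.ne hw))
  have hzero : ∀ x' ∈ ball x δ, ∀ i, s (x', t + β x' i) = 0 := fun x' hx' i => (R.iff hx' (R.lt x' hx' i).le).2 ⟨i, rfl⟩
  have hshift : ∀ (x' : E) (w : ℂ), deriv (fun w => s (x', t + w)) w = deriv (fun t => s (x', t)) (t + w) := fun x' w => by
    rw [← deriv_comp_const_add]
  have hx : x ∈ ball x δ := mem_ball_self hδ
  -- at `x` all the zeros are `0`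
  have hb0 : ∀ i, β x i = 0 := by
    intro i
    by_contra h2
    refine k3 (y := t + β x i) ?_ ?_ (hzero x hx i)
    · rw [dist_eq_norm, add_sub_cancel_left]
      have := R.lt x hx i
      linarith
    · simpa using h2
  obtain ⟨h, f1, f2⟩ := R.fac x hx
  have hn : 2 ≤ n := by
    by_contra h2
    have h3 : n = 0 ∨ n = 1 := by omega
    rcases h3 with h3 | h3
    · subst h3
      have h4 := f2 0 (by simpa using hr.le)
      simp only [Finset.univ_eq_empty, Finset.prod_empty, one_mul, add_zero] at h4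
      exact (f1 0 (by simpa using hr.le)).2 (h4.symm.trans h0)
    · subst h3
      have h4 : (fun w => s (x, t + w)) =ᶠ[𝓝 0] fun w => w * h w := by
        filter_upwards [ball_mem_nhds (0 : ℂ) hr] with w hw
        have h5 := f2 w (mem_ball_zero_iff.1 hw).le
        simp only [Fin.prod_univ_one, hb0, sub_zero] at h5
        exact h5
      have h6 := h4.deriv_eq
      rw [hshift, add_zero, hd] at h6
      have h7 : HasDerivAt (fun w : ℂ => w * h w) (1 * h 0 + 0 * deriv h 0) 0 :=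
        (hasDerivAt_id (0 : ℂ)).mul (f1 0 (by simpa using hr.le)).1.differentiableAt.hasDerivAt
      rw [h7.deriv, one_mul, zero_mul, add_zero] at h6
      exact (f1 0 (by simpa using hr.le)).2 h6.symm
  -- a near point with `c x' ≠ 0`
  obtain ⟨x', hcx, hx'⟩ := (hc.and_eventually (ball_mem_nhds x (lt_min hδ hη0))).exists
  have hxδ : x' ∈ ball x δ := ball_subset_ball (min_le_left _ _) hx'
  have hxη : ‖x' - x‖ < η := by
    rw [← dist_eq_norm]
    exact (mem_ball.1 hx').trans_le (min_le_right _ _)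
  have hlt : ∀ i, ‖β x' i‖ < η := fun i => by
    have := R.lt x' hxδ i
    linarith
  have hgz : ∀ i, g (x', t + β x' i) = 0 := fun i => ((k2 (hdist x' hxη _ (hlt i))).2.2).2 (hzero x' hxδ i)
  set i₀ : Fin n := ⟨0, by omega⟩ with hi₀
  set i₁ : Fin n := ⟨1, by omega⟩ with hi₁
  have hne : i₀ ≠ i₁ := by
    rw [hi₀, hi₁]
    simp
  have heq : β x' i₀ = β x' i₁ := by
    have h2 := k1 x' (hxη.trans_le m1) (t + β x' i₀) (t + β x' i₁) (by rw [add_sub_cancel_left]; exact (hlt _).trans_le m1) (by rw [add_sub_cancel_left]; exact (hlt _).trans_le m1) (hgz _) (hgz _)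
    exact add_left_cancel h2
  obtain ⟨h', f1', f2'⟩ := R.fac x' hxδ
  have h2 : deriv (fun w => s (x', t + w)) (β x' i₀) = 0 := by
    refine r2_dbl hne heq (f1' _ (R.lt x' hxδ i₀).le).1.differentiableAt ?_
    filter_upwards [isOpen_ball.mem_nhds (mem_ball_zero_iff.2 (R.lt x' hxδ i₀))] with w hw
    exact f2' w (mem_ball_zero_iff.1 hw).le
  rw [hshift] at h2
  exact (k2 (hdist x' hxη _ (hlt i₀))).2.1 hcx (hzero x' hxδ i₀) h2

end Pool.Agent.G4.RE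

end

section

/-!
# G4 RE Rx: existence of the reduced equation, in coordinates

`exists_rsys` for `f` at `0` (a small radius `r`): roots `β x i`, `x ∈ U = ball 0 δ₀`; `q` the maximal number of different roots over `U`; `c x = sc q (β x)`, `N (x, t) = sd q (β x) t`: `c` is not `0` near any point of `U` (`sc_ne`, identity theorem on
the ball), and `‖N (x, t)‖ ≤ (‖t‖ + r) ^ q * ‖c x‖` (`sd_eq`, `img_le`, `sc_zero`, `sd_zero`).  `s` from `riem` at `0`: `s (x, t) = ∏ v, (t - v)` (different roots) if `c x ≠ 0`.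
`s (x, t) = 0` iff `∏ i, (t - β x i) = 0` for all `x` near `0` and all `t`: `‖∏ i, (t - β x i)‖ ≤ C ‖s (x, t)‖`, `‖s (x, t)‖ ^ n ≤ C ‖∏ i, (t - β x i)‖` by `img_le` if `c x ≠ 0`, in general by continuity in `x` (`pr_an`); so `s (x, ·)` has finitely
many zeros, and for `‖t‖ < r` they are the zeros of `f (x, ·)` (`RSys.iff`).
-/

set_option autoImplicit false

open Topology Filter Metric

namespace Pool.Agent.G4.RE

open Pool.Agent.G4.K (RSys)

variable {E : Type} [NormedAddCommGroup E] [NormedSpace ℂ E] [FiniteDimensional ℂ E]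

omit [FiniteDimensional ℂ E] in
/-- a radius -/
private theorem rx_rad {f : E × ℂ → ℂ} (hf : AnalyticAt ℂ f (0, 0)) (hl : ∀ᶠ w in 𝓝[≠] (0 : ℂ), f (0, w) ≠ 0) :
    ∃ r : ℝ, 0 < r ∧ (∀ w : ℂ, ‖w‖ ≤ r → AnalyticAt ℂ f (0, w)) ∧ ∀ w : ℂ, ‖w‖ = r → f (0, w) ≠ 0 := by
  have h1 : ∀ᶠ w : ℂ in 𝓝 0, AnalyticAt ℂ f (0, w) := by
    have h2 : Tendsto (fun w : ℂ => ((0 : E), w)) (𝓝 0) (𝓝 (0, 0)) := (Continuous.prodMk_right (0 : E)).continuousAt
    exact h2.eventually hf.eventually_analyticAt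
  have h2 : ∀ᶠ w : ℂ in 𝓝 0, w ≠ 0 → f (0, w) ≠ 0 := eventually_nhdsWithin_iff.1 hl
  obtain ⟨ε, hε, h3⟩ := Metric.eventually_nhds_iff_ball.1 (h1.and h2)
  have h4 : ∀ w : ℂ, ‖w‖ ≤ ε / 2 → w ∈ ball (0 : ℂ) ε := fun w hw => by
    rw [mem_ball_zero_iff]
    linarith
  refine ⟨ε / 2, by positivity, fun w hw => (h3 w (h4 w hw)).1, fun w hw => (h3 w (h4 w hw.le)).2 ?_⟩
  intro h5
  rw [h5, norm_zero] at hw
  linarith

/-- simple zeros -/
private theorem rx_deriv {S : Finset ℂ} {g : ℂ → ℂ} (hg : ∀ t, g t = ∏ v ∈ S, (t - v)) {t : ℂ} (ht : g t = 0) : deriv g t ≠ 0 := by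
  have h0 : t ∈ S := by
    rw [hg, Finset.prod_eq_zero_iff] at ht
    obtain ⟨v, hv, h1⟩ := ht
    rw [sub_eq_zero.1 h1]
    exact hv
  have h1 : g = fun t' => (t' - t) * ∏ v ∈ S.erase t, (t' - v) := by
    funext t'
    rw [hg]
    exact (Finset.mul_prod_erase S (fun v => t' - v) h0).symm
  have h2 : DifferentiableAt ℂ (fun t' : ℂ => ∏ v ∈ S.erase t, (t' - v)) t := by
    have h3 : ∀ v ∈ S.erase t, DifferentiableAt ℂ (fun t' : ℂ => t' - v) t := fun v _ => differentiableAt_id.sub_const v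
    exact DifferentiableAt.fun_finsetProd h3
  have h3 := ((hasDerivAt_id t).sub_const t).mul h2.hasDerivAt
  have h4 : deriv g t = ∏ v ∈ S.erase t, (t - v) := by
    rw [h1]
    refine h3.deriv.trans ?_
    simp
  rw [h4, Finset.prod_ne_zero_iff]
  intro v hv
  rw [sub_ne_zero]
  exact (Finset.ne_of_mem_erase hv).symm

/-- off a finite set near a point -/
private theorem rx_fin {F : Set ℂ} (hF : F.Finite) (t : ℂ) : ∀ᶠ t' in 𝓝[≠] t, t' ∉ F := by
  have h1 : (F \ {t})ᶜ ∈ 𝓝 t := (hF.subset Set.sdiff_subset).isClosed.isOpen_compl.mem_nhds (by simp)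
  filter_upwards [mem_nhdsWithin_of_mem_nhds h1, self_mem_nhdsWithin] with t' h2 h3 h4
  exact h2 ⟨h4, h3⟩

/-- a bounded function with natural values has a maximum -/
private theorem rx_max {X : Type} (g : X → ℕ) {n : ℕ} (hg : ∀ x, g x ≤ n) {U : Set X} {x₀ : X} (hx₀ : x₀ ∈ U) : ∃ x₁ ∈ U, ∀ x ∈ U, g x ≤ g x₁ := by
  classical
  have hex : ∃ k, ∃ x ∈ U, n - g x = k := ⟨_, x₀, hx₀, rfl⟩
  obtain ⟨x₁, hx₁, hk⟩ := Nat.find_spec hex
  refine ⟨x₁, hx₁, fun x hx => ?_⟩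
  have h1 : Nat.find hex ≤ n - g x := Nat.find_min' hex ⟨x, hx, rfl⟩
  rw [← hk] at h1
  have h2 := hg x
  have h3 := hg x₁
  omega

/-- existence of the reduced polynomial -/
theorem rd_ex {f : E × ℂ → ℂ} (hf : AnalyticAt ℂ f (0, 0)) (hl : ∀ᶠ w in 𝓝[≠] (0 : ℂ), f (0, w) ≠ 0) :
    ∃ (δ r : ℝ) (c : E → ℂ) (s : E × ℂ → ℂ), 0 < δ ∧ 0 < r ∧ (∀ x ∈ ball (0 : E) δ, AnalyticAt ℂ c x ∧ ∃ᶠ x' in 𝓝 x, c x' ≠ 0) ∧
      (∀ x ∈ ball (0 : E) δ, ∀ t : ℂ, AnalyticAt ℂ s (x, t)) ∧ (∀ x ∈ ball (0 : E) δ, ∀ t : ℂ, ‖t‖ < r → (s (x, t) = 0 ↔ f (x, t) = 0)) ∧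
      (∀ x ∈ ball (0 : E) δ, ∀ t : ℂ, ∀ᶠ t' in 𝓝[≠] t, s (x, t') ≠ 0) ∧
      ∀ x ∈ ball (0 : E) δ, c x ≠ 0 → ∀ t : ℂ, s (x, t) = 0 → deriv (fun t => s (x, t)) t ≠ 0 := by
  obtain ⟨r, hr, hfr, hfn⟩ := rx_rad hf hl
  obtain ⟨δ₀, n, β, hδ₀, R⟩ := Pool.Agent.G4.K.exists_rsys hr hfr hfn
  -- the maximal number of different roots
  have hcn : ∀ x, (Finset.univ.image (β x)).card ≤ n := fun x =>
    Finset.card_image_le.trans (by simp)
  obtain ⟨x₁, hx₁, hmax'⟩ := rx_max (fun x => (Finset.univ.image (β x)).card) hcn (mem_ball_self hδ₀ : (0 : E) ∈ ball (0 : E) δ₀)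
  set q := (Finset.univ.image (β x₁)).card with hq
  have hmax : ∀ x ∈ ball (0 : E) δ₀, (Finset.univ.image (β x)).card ≤ q := hmax'
  have hcan := sc_an R q
  have hNan := sd_an R q
  have hne : ∀ x ∈ ball (0 : E) δ₀, ∃ᶠ x' in 𝓝 x, sc q (β x') ≠ 0 := by
    intro x hx h1
    have h2 : (fun x => sc q (β x)) =ᶠ[𝓝 x] 0 := by
      filter_upwards [h1] with x' h3
      exact not_not.1 h3
    have h3 : AnalyticOnNhd ℂ (fun x => sc q (β x)) (ball (0 : E) δ₀) := fun x hx => hcan x hx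
    have h4 := h3.eqOn_zero_of_preconnected_of_eventuallyEq_zero (convex_ball (0 : E) δ₀).isPreconnected hx h2 hx₁
    exact sc_ne rfl h4
  have hbd : ∀ x ∈ ball (0 : E) δ₀, ∀ t : ℂ, ‖(fun p : E × ℂ => sd q (β p.1) p.2) (x, t)‖ ≤ (‖t‖ + r) ^ q * ‖sc q (β x)‖ := by
    intro x hx t
    rcases (hmax x hx).lt_or_eq with h1 | h1
    · simp only
      rw [sd_zero h1, sc_zero h1]
      simp
    · simp only
      rw [sd_eq h1, norm_mul, mul_comm]
      exact mul_le_mul_of_nonneg_right (img_le hr (fun i => (R.lt x hx i).le) h1 t).1 (norm_nonneg _)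
  obtain ⟨δ, hδ, hsub, s, hs⟩ := riem isOpen_ball (mem_ball_self hδ₀) hcan hNan (hne 0 (mem_ball_self hδ₀)) hbd
  -- the values where `c x ≠ 0`
  have hval : ∀ x ∈ ball (0 : E) δ, sc q (β x) ≠ 0 → (Finset.univ.image (β x)).card = q ∧ ∀ t, s (x, t) = ∏ v ∈ Finset.univ.image (β x), (t - v) := by
    intro x hx hc
    have h1 : (Finset.univ.image (β x)).card = q := by
      rcases (hmax x (hsub hx)).lt_or_eq with h1 | h1
      · exact absurd (sc_zero h1) hc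
      · exact h1
    refine ⟨h1, fun t => ?_⟩
    have h2 := (hs x hx t).2
    simp only at h2
    rw [sd_eq h1, mul_comm (sc q (β x))] at h2
    exact mul_right_cancel₀ hc h2
  have hcontS : ∀ x ∈ ball (0 : E) δ, ∀ t, ContinuousAt (fun x => s (x, t)) x := by
    intro x hx t
    exact ContinuousAt.comp (g := s) (f := fun x : E => (x, t)) (hs x hx t).1.continuousAt (Continuous.prodMk_left t).continuousAt
  have hcontP : ∀ x ∈ ball (0 : E) δ, ∀ t, ContinuousAt (fun x => ∏ i, (t - β x i)) x := by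
    intro x hx t
    exact ContinuousAt.comp (g := fun p : E × ℂ => ∏ i, (p.2 - β p.1 i)) (f := fun x : E => (x, t)) (pr_an R x (hsub hx) t).continuousAt (Continuous.prodMk_left t).continuousAt
  have hfreq : ∀ x ∈ ball (0 : E) δ, ∃ᶠ x' in 𝓝 x, x' ∈ ball (0 : E) δ ∧ sc q (β x') ≠ 0 := by
    intro x hx
    exact ((hne x (hsub hx)).and_eventually (isOpen_ball.mem_nhds hx)).mono fun x' h => ⟨h.2, h.1⟩
  have hle1 : ∀ x ∈ ball (0 : E) δ, ∀ t, ‖∏ i, (t - β x i)‖ ≤ (1 + ‖t‖ + r) ^ (n * n) * ‖s (x, t)‖ := by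
    intro x hx t
    have h1 : Tendsto (fun x' => ‖∏ i, (t - β x' i)‖ - (1 + ‖t‖ + r) ^ (n * n) * ‖s (x', t)‖) (𝓝 x) (𝓝 (‖∏ i, (t - β x i)‖ - (1 + ‖t‖ + r) ^ (n * n) * ‖s (x, t)‖)) :=
      (hcontP x hx t).norm.sub (continuousAt_const.mul (hcontS x hx t).norm)
    have h2 : ‖∏ i, (t - β x i)‖ - (1 + ‖t‖ + r) ^ (n * n) * ‖s (x, t)‖ ≤ 0 := by
      refine le_of_tendsto_of_frequently h1 ((hfreq x hx).mono fun x' h => ?_)
      obtain ⟨h3, h4⟩ := hval x' h.1 h.2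
      rw [h4]
      have := (img_le hr (fun i => (R.lt x' (hsub h.1) i).le) h3 t).2.1
      linarith
    linarith
  have hle2 : ∀ x ∈ ball (0 : E) δ, ∀ t, ‖s (x, t)‖ ^ n ≤ (1 + ‖t‖ + r) ^ (n * n) * ‖∏ i, (t - β x i)‖ := by
    intro x hx t
    have h1 : Tendsto (fun x' => ‖s (x', t)‖ ^ n - (1 + ‖t‖ + r) ^ (n * n) * ‖∏ i, (t - β x' i)‖) (𝓝 x) (𝓝 (‖s (x, t)‖ ^ n - (1 + ‖t‖ + r) ^ (n * n) * ‖∏ i, (t - β x i)‖)) :=
      ((hcontS x hx t).norm.pow n).sub (continuousAt_const.mul (hcontP x hx t).norm)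
    have h2 : ‖s (x, t)‖ ^ n - (1 + ‖t‖ + r) ^ (n * n) * ‖∏ i, (t - β x i)‖ ≤ 0 := by
      refine le_of_tendsto_of_frequently h1 ((hfreq x hx).mono fun x' h => ?_)
      obtain ⟨h3, h4⟩ := hval x' h.1 h.2
      rw [h4]
      have := (img_le hr (fun i => (R.lt x' (hsub h.1) i).le) h3 t).2.2
      linarith
    linarith
  have hiff : ∀ x ∈ ball (0 : E) δ, ∀ t, s (x, t) = 0 ↔ ∃ i, t = β x i := by
    intro x hx t
    have h0 : (∏ i, (t - β x i)) = 0 ↔ ∃ i, t = β x i := by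
      rw [Finset.prod_eq_zero_iff]
      simp [sub_eq_zero]
    rw [← h0]
    constructor
    · intro h
      have h1 := hle1 x hx t
      rw [h, norm_zero, mul_zero] at h1
      exact norm_le_zero_iff.1 h1
    · intro h
      have h1 := hle2 x hx t
      rw [h, norm_zero, mul_zero] at h1
      have h2 : ‖s (x, t)‖ ^ n = 0 := le_antisymm h1 (by positivity)
      exact norm_eq_zero.1 (eq_zero_of_pow_eq_zero h2)
  refine ⟨δ, r, fun x => sc q (β x), s, hδ, hr, fun x hx => ⟨hcan x (hsub hx), hne x (hsub hx)⟩, fun x hx t => (hs x hx t).1, fun x hx t ht => ?_, fun x hx t => ?_, fun x hx hc t ht => ?_⟩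
  · rw [hiff x hx t, R.iff (hsub hx) ht.le]
  · filter_upwards [rx_fin (Set.finite_range (β x)) t] with t' h1 h2
    obtain ⟨i, hi⟩ := (hiff x hx t').1 h2
    exact h1 ⟨i, hi.symm⟩
  · exact rx_deriv (hval x hx hc).2 ht

end Pool.Agent.G4.RE

end

section

/-!
# G4 RE Rd: the reduced equation, in coordinates

If `s (x, t) = 0` there are `x'` near `x` with `c x' ≠ 0`, and `t'` near `t` with `s (x', t') = 0` (`K.hz`); the zeros of `s (x', ·)` are simple.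
-/

set_option autoImplicit false

open Topology Filter Metric

namespace Pool.Agent.G4.RE

open Pool.Agent.G4.K (RSys)

variable {E : Type} [NormedAddCommGroup E] [NormedSpace ℂ E] [FiniteDimensional ℂ E]

private theorem der_eq {s : E × ℂ → ℂ} {p : E × ℂ} (hs : AnalyticAt ℂ s p) : fderiv ℂ s p (0, 1) = deriv (fun t => s (p.1, t)) p.2 := by
  have h1 : HasDerivAt (fun t : ℂ => ((p.1, t) : E × ℂ)) ((0 : E), (1 : ℂ)) p.2 := (hasDerivAt_const p.2 p.1).prodMk (hasDerivAt_id p.2)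
  have h2 : HasFDerivAt s (fderiv ℂ s p) (p.1, p.2) := hs.differentiableAt.hasFDerivAt
  exact (h2.comp_hasDerivAt p.2 h1).deriv.symm

theorem red {f : E × ℂ → ℂ} (hf : AnalyticAt ℂ f (0, 0)) (hl : ∀ᶠ w in 𝓝[≠] (0 : ℂ), f (0, w) ≠ 0) :
    ∃ s : E × ℂ → ℂ, AnalyticAt ℂ s (0, 0) ∧ ∀ᶠ p in 𝓝 (0 : E × ℂ), (s p = 0 ↔ f p = 0) ∧ (s p = 0 → ∃ᶠ p' in 𝓝 p, s p' = 0 ∧ fderiv ℂ s p' (0, 1) ≠ 0) ∧
      (s p = 0 → fderiv ℂ s p (0, 1) = 0 → ¬ Gd {p | f p = 0} p (0, 1)) := by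
  obtain ⟨δ, r, c, s, hδ, hr, hc, hs, hsf, hiso, hsimp⟩ := rd_ex hf hl
  refine ⟨s, hs 0 (mem_ball_self hδ) 0, ?_⟩
  have hU : IsOpen (ball (0 : E) δ ×ˢ ball (0 : ℂ) r) := isOpen_ball.prod isOpen_ball
  have hmem : (0 : E × ℂ) ∈ ball (0 : E) δ ×ˢ ball (0 : ℂ) r := ⟨mem_ball_self hδ, mem_ball_self hr⟩
  filter_upwards [hU.mem_nhds hmem] with p hp
  obtain ⟨hpx, hpt⟩ := hp
  have hpt' : ‖p.2‖ < r := mem_ball_zero_iff.1 hpt
  have hball : ∀ᶠ p' : E × ℂ in 𝓝 p, p'.1 ∈ ball (0 : E) δ ∧ ‖p'.2‖ < r := by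
    filter_upwards [hU.mem_nhds (show p ∈ ball (0 : E) δ ×ˢ ball (0 : ℂ) r from ⟨hpx, hpt⟩)] with p' hp'
    exact ⟨hp'.1, mem_ball_zero_iff.1 hp'.2⟩
  refine ⟨hsf p.1 hpx p.2 hpt', fun h0 => ?_, fun h0 hd hg => ?_⟩
  · -- density
    rw [frequently_iff]
    intro W hW
    obtain ⟨ε, hε, hεW⟩ := Metric.mem_nhds_iff.1 hW
    have h1 := K.hz (f := s) (x₀ := p.1) (w₀ := p.2) (hs p.1 hpx p.2) h0 (hiso p.1 hpx p.2) hε
    have h2 : ∀ᶠ x in 𝓝 p.1, x ∈ ball (0 : E) δ := isOpen_ball.mem_nhds hpx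
    have h3 : ∀ᶠ x in 𝓝 p.1, x ∈ ball p.1 ε := ball_mem_nhds _ hε
    obtain ⟨x, hcx, ⟨w, hw1, hw2⟩, hx1, hx2⟩ := ((hc p.1 hpx).2.and_eventually (h1.and (h2.and h3))).exists
    refine ⟨(x, w), hεW ?_, hw2, ?_⟩
    · rw [← ball_prod_same]
      exact ⟨hx2, by rw [mem_ball, dist_eq_norm]; exact hw1⟩
    · rw [der_eq (hs x hx1 w)]
      exact hsimp x hx1 hcx w hw2
  · obtain ⟨g, hg1, hg2, hg3, hg4⟩ := hg
    rw [der_eq hg1] at hg3
    refine hg3 ?_
    rw [der_eq (hs p.1 hpx p.2)] at hd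
    refine rd_two (s := s) (c := c) (x := p.1) (t := p.2) (hs p.1 hpx p.2) h0 (hiso p.1 hpx p.2) (hc p.1 hpx).2 ?_ hd hg1 ?_
    · filter_upwards [hball] with p' hp' h1 h2
      exact hsimp p'.1 hp'.1 h1 p'.2 h2
    · filter_upwards [hg4, hball] with p' h1 h2
      exact h1.symm.trans (hsf p'.1 h2.1 p'.2 h2.2).symm

end Pool.Agent.G4.RE

end
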