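import Pool.Agent.H94.PX4.TM.Bf

/-! The parts of this file: PX.Cmp, TM.Bg, TM.Rs, TM.Lo. -/

section

/-!
# PX Cmp: bounds over `Gd D δ`, by compactness

Translate `y` by `Λ` to a bounded set (`Lat.cpt`, `PD.per`), scale `x` to the unit sphere; the set of all `(y, x)` with `‖y‖ ≤ R`, `y ∈ Gd D δ`, `‖x‖ = 1` is compact.  For `grad_lo`: on the closed subset `Fo θ y x = 0` the operator norm of
`fderiv ℂ (Fo θ y) x` is positive (`PD.simple`); `κ = Fd θ y x v / dt x v` for `v` orthogonal to `x`, `‖v‖ = ‖x‖`: `|dt x v| = ‖x‖ ^ 2` (for `v = (- conj x_1, conj x_0)`).  Scaling: `κ (c • x) = c ^ (d - 2) κ x`.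
-/

set_option autoImplicit false

open Topology Filter Metric

namespace Pool.Agent.PX

open Pool.Agent.H36.BP (EN fs wd)
open Pool.Agent.H62.EF (MN pr)
open Pool.Agent.AD (Vd)
open Pool.Agent.TG (Lat Gd)
open Pool.Agent.G3 (wt)
open Pool.Agent.G4 (Few)

variable {k d r : ℕ}

variable {Λ : AddSubgroup (Vd (k + 1))} {D : Set (Vd (k + 1))} {Bad : Vd (k + 1) → Set (Vd (k + 1))} {θ : Fin (d + 1) → Vd (k + 1) → ℂ}
  {W : Fin r → Vd (k + 1) →L[ℂ] ℂ}

private theorem wt_cont (W : Fin r → Vd (k + 1) →L[ℂ] ℂ) : Continuous (wt W) := by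
  unfold wt
  exact continuous_finsetSum _ fun i _ => ((W i).continuous.norm.pow 2)

private theorem gd_sub (P : PD Λ D Bad θ W) {δ : ℝ} {y l : Vd (k + 1)} (hl : l ∈ Λ) (hy : y ∈ Gd D δ) : y - l ∈ Gd D δ := by
  intro b hb
  have := hy (b + l) (P.D_inv b hb l hl)
  rwa [show y - l - b = y - (b + l) by abel]

private theorem gd_not {δ : ℝ} (hδ : 0 < δ) {y : Vd (k + 1)} (hy : y ∈ Gd D δ) : y ∉ D := fun h => by
  have := hy y h
  rw [sub_self, norm_zero] at this
  linarith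

private theorem gd_closed (D : Set (Vd (k + 1))) (δ : ℝ) : IsClosed (Gd D δ) := by
  have : Gd D δ = ⋂ b ∈ D, {y | δ ≤ ‖y - b‖} := by
    ext y
    simp [Gd]
  rw [this]
  exact isClosed_biInter fun b _ => isClosed_le continuous_const (by fun_prop)

private theorem unit_norm {x : EN 1} (hx : x ≠ 0) : ‖((‖x‖⁻¹ : ℝ) : ℂ) • x‖ = 1 := by
  rw [norm_smul, Complex.norm_real, norm_inv, norm_norm, inv_mul_cancel₀ (norm_ne_zero_iff.2 hx)]

private theorem lat_near (P : PD Λ D Bad θ W) : ∃ R : ℝ, 0 < R ∧ ∀ y : Vd (k + 1), ∃ l ∈ Λ, y - l ∈ closedBall (0 : Vd (k + 1)) R := by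
  obtain ⟨R, hR, h⟩ := P.lat.cpt
  refine ⟨R, hR, fun y => ?_⟩
  obtain ⟨l, hl, h1⟩ := h y
  exact ⟨l, hl, by rwa [mem_closedBall, dist_zero_right]⟩

/-- over `Gd D δ` the form is not small at some unit vector -/
theorem PD.big_pt (P : PD Λ D Bad θ W) {δ : ℝ} (hδ : 0 < δ) : ∃ c : ℝ, 0 < c ∧ ∀ y ∈ Gd D δ, ∃ b : EN 1, ‖b‖ = 1 ∧ c ≤ qf θ W y b := by
  obtain ⟨R, hR, hL⟩ := lat_near P
  have hd := P.deg
  have hKc : IsCompact (closedBall (0 : Vd (k + 1)) R ∩ Gd D δ) := (isCompact_closedBall _ _).inter_right (gd_closed D δ)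
  have key : ∃ c : ℝ, 0 < c ∧ ∀ y ∈ closedBall (0 : Vd (k + 1)) R ∩ Gd D δ, ∃ b : EN 1, ‖b‖ = 1 ∧ c ≤ qf θ W y b := by
    refine hKc.induction_on (p := fun s => ∃ c : ℝ, 0 < c ∧ ∀ y ∈ s, ∃ b : EN 1, ‖b‖ = 1 ∧ c ≤ qf θ W y b) ⟨1, one_pos, fun y hy => absurd hy (Set.notMem_empty y)⟩ ?_ ?_ ?_
    · rintro s t hst ⟨c, hc, h⟩
      exact ⟨c, hc, fun y hy => h y (hst hy)⟩
    · rintro s t ⟨c, hc, h⟩ ⟨c', hc', h'⟩
      refine ⟨min c c', lt_min hc hc', fun y hy => ?_⟩
      rcases hy with hy | hy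
      · obtain ⟨b, hb, h1⟩ := h y hy
        exact ⟨b, hb, (min_le_left _ _).trans h1⟩
      · obtain ⟨b, hb, h1⟩ := h' y hy
        exact ⟨b, hb, (min_le_right _ _).trans h1⟩
    · rintro y ⟨-, hy⟩
      have hne : ∃ x : EN 1, Fo θ y x ≠ 0 := by
        by_contra hcon
        push Not at hcon
        have hx : (EuclideanSpace.single 0 1 : EN 1) ≠ 0 := by
          intro h
          have := congrArg (fun w : EN 1 => w 0) h
          simp at this
        obtain ⟨v, hv⟩ := P.simple y (gd_not hδ hy) _ hx (hcon _)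
        apply hv
        have : Fo θ y = fun _ => 0 := funext hcon
        unfold Fd
        rw [this]
        simp
      obtain ⟨x, hx⟩ := hne
      have hx0 : x ≠ 0 := by
        rintro rfl
        apply hx
        have := fo_smul θ y 0 (0 : EN 1)
        rw [smul_zero, zero_pow (by omega), zero_mul] at this
        exact this
      set b : EN 1 := ((‖x‖⁻¹ : ℝ) : ℂ) • x with hb
      have hb1 : ‖b‖ = 1 := unit_norm hx0
      have hq : 0 < qf θ W y b := by
        unfold qf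
        rw [hb1, one_pow, div_one, hb, fo_smul]
        refine mul_pos (norm_pos_iff.2 (mul_ne_zero (pow_ne_zero _ ?_) hx)) (Real.exp_pos _)
        exact_mod_cast inv_ne_zero (norm_ne_zero_iff.2 hx0)
      have hcont : Continuous fun y => qf θ W y b := by
        unfold qf
        have h0 : Continuous fun p : Vd (k + 1) × EN 1 => Fo θ p.1 p.2 := Differentiable.continuous (𝕜 := ℂ) (fo_diff P.an)
        have h1 : Continuous fun y => Fo θ y b :=
          Continuous.comp (g := fun p : Vd (k + 1) × EN 1 => Fo θ p.1 p.2) (f := fun y : Vd (k + 1) => (y, b)) h0 (continuous_id.prodMk continuous_const)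
        exact (h1.norm.mul (Real.continuous_exp.comp (wt_cont W).neg)).div_const _
      refine ⟨{z | qf θ W y b / 2 < qf θ W z b}, mem_nhdsWithin_of_mem_nhds ((isOpen_lt continuous_const hcont).mem_nhds (by simp only [Set.mem_ofPred_eq]; linarith)),
        qf θ W y b / 2, by linarith, fun z hz => ⟨b, hb1, le_of_lt hz⟩⟩
  obtain ⟨c, hc, h⟩ := key
  refine ⟨c, hc, fun y hy => ?_⟩
  obtain ⟨l, hl, hyl⟩ := hL y
  obtain ⟨b, hb, h1⟩ := h (y - l) ⟨hyl, gd_sub P hl hy⟩
  refine ⟨b, hb, ?_⟩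
  rwa [← P.qf_add hl (y - l) b, sub_add_cancel] at h1

/-- `|Fo θ y x|` and the weight -/
theorem PD.fo_le (P : PD Λ D Bad θ W) : ∃ C : ℝ, 0 < C ∧ ∀ y x, ‖Fo θ y x‖ ≤ C * ‖x‖ ^ d * Real.exp (wt W y) := by
  obtain ⟨C, hC, h⟩ := P.qf_le
  have hd := P.deg
  refine ⟨C, hC, fun y x => ?_⟩
  rcases eq_or_ne x 0 with rfl | hx
  · have h0 : Fo θ y 0 = 0 := by
      have := fo_smul θ y 0 (0 : EN 1)
      rwa [smul_zero, zero_pow (by omega), zero_mul] at this
    rw [h0, norm_zero]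
    positivity
  · have hn : 0 < ‖x‖ ^ d := pow_pos (norm_pos_iff.2 hx) d
    have h1 := h y x
    unfold qf at h1
    rw [div_le_iff₀ hn] at h1
    have h2 : ‖Fo θ y x‖ = ‖Fo θ y x‖ * Real.exp (-wt W y) * Real.exp (wt W y) := by
      rw [mul_assoc, ← Real.exp_add, neg_add_cancel, Real.exp_zero, mul_one]
    rw [h2]
    exact mul_le_mul_of_nonneg_right h1 (Real.exp_pos _).le

end Pool.Agent.PX

end

section

/-!
# TM Bg: binary forms: division, norms

`exists_quo`: the form `c` is `0` or splits (`exists_split`): each root `r i` of `c` is proportional to one of its linear factors, different `i` give different factors; or divide the polynomials; or: the linear map `H ↦ G * H` from `EN n'` to the space of the forms `c` with `bf c (r i) = 0` is injective, count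
dimensions.  `exists_mult`: from `exists_split`: `A` is the product of the factors proportional to `dt r ·` (move the constants to `B`), `A v = dt r v ^ μ`.  `cf_le`: all norms are equivalent: `c ↦ sup_{‖v‖ = 1} |bf c v|` is a norm (`bf_ext`); or the values at `n + 1` pairwise independent unit vectors determine `c`
(`bf_roots_le`), and the inverse of this linear map is bounded.  `mul_lo`: compactness of the unit spheres: a product of two forms which are not `0` is not `0` (`bf_roots_le` or an infinite set of points).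
-/

set_option autoImplicit false

open Topology Filter Metric

namespace Pool.Agent.TM

open Pool.Agent.H36.BP (EN)
open Pool.Agent.AD (Vd)
open Pool.Agent.PX (Fo dt)

variable {k d n m n' : ℕ}

private theorem dt_smul_left (c : ℂ) (r v : EN 1) : dt (c • r) v = c * dt r v := by
  simp only [dt, PiLp.smul_apply, smul_eq_mul]
  ring

private theorem dt_smul_right (c : ℂ) (r v : EN 1) : dt r (c • v) = c * dt r v := by
  simp only [dt, PiLp.smul_apply, smul_eq_mul]
  ring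

/-- splitting off one root -/
private theorem exists_div_one {N : ℕ} (c : EN (N + 1)) {r : EN 1} (hr : r ≠ 0) (h0 : bf c r = 0) :
    ∃ c' : EN N, ∀ v, bf c v = dt r v * bf c' v := by
  rcases eq_or_ne c 0 with rfl | hc
  · exact ⟨0, fun v => by rw [bf_zero, bf_zero, mul_zero]⟩
  · obtain ⟨a, s, ha, hs, hsp⟩ := exists_split hc
    obtain ⟨φ, -, hφ⟩ := exists_pf N
    rw [hsp, mul_eq_zero, or_iff_right ha, Finset.prod_eq_zero_iff] at h0
    obtain ⟨j, -, hj⟩ := h0
    obtain ⟨κ, hκ⟩ := (PX.dt_eq_zero (hs j)).1 hj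
    have hκ0 : κ ≠ 0 := by
      rintro rfl
      exact hr (by rw [hκ, zero_smul])
    refine ⟨(a * κ⁻¹) • φ fun i => s (j.succAbove i), fun v => ?_⟩
    rw [hsp, bf_smul, hφ, Fin.prod_univ_succAbove _ j, hκ, dt_smul_left]
    field_simp

private theorem exists_div : ∀ (n n' N : ℕ), N = n + n' → ∀ (c : EN N) (r : Fin n → EN 1),
    (∀ i j, i ≠ j → dt (r i) (r j) ≠ 0) → (∀ i, r i ≠ 0) → (∀ i, bf c (r i) = 0) →
    ∃ H : EN n', ∀ v, bf c v = (∏ i, dt (r i) v) * bf H v := by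
  intro n
  induction n with
  | zero =>
    intro n' N hN c r _ _ _
    obtain rfl : N = n' := by omega
    exact ⟨c, fun v => by simp⟩
  | succ n ih =>
    intro n' N hN c r hr h0 hc
    obtain ⟨N', rfl⟩ : ∃ N', N = N' + 1 := ⟨n + n', by omega⟩
    obtain ⟨c', hc'⟩ := exists_div_one c (h0 0) (hc 0)
    obtain ⟨H, hH⟩ := ih n' N' (by omega) c' (fun i => r i.succ)
      (fun i j hij => hr _ _ fun h => hij (Fin.succ_injective _ h)) (fun i => h0 _) fun i => by
        have := hc i.succ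
        rw [hc', mul_eq_zero, or_iff_right (hr _ _ (Fin.succ_ne_zero i).symm)] at this
        exact this
    refine ⟨H, fun v => ?_⟩
    rw [hc', hH, Fin.prod_univ_succ]
    ring

/-- division by a form with simple roots -/
theorem exists_quo {G : EN n} {c : EN (n + n')} (hG : G ≠ 0) (r : Fin n → EN 1) (hr : ∀ i j, i ≠ j → dt (r i) (r j) ≠ 0) (h0 : ∀ i, r i ≠ 0) (hg : ∀ i, bf G (r i) = 0) (hc : ∀ i, bf c (r i) = 0) :
    ∃ H : EN n', ∀ v, bf c v = bf G v * bf H v := by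
  obtain ⟨H, hH⟩ := exists_div n n' (n + n') rfl c r hr h0 hc
  obtain ⟨K, hK⟩ := exists_div n 0 n rfl G r hr h0 hg
  have hK0 : ∀ v, bf K v = K 0 := fun v => by simp [bf]
  have hb : K 0 ≠ 0 := by
    intro h
    refine hG (bf_ext fun v => ?_)
    rw [hK, hK0, h, mul_zero, bf_zero]
  refine ⟨(K 0)⁻¹ • H, fun v => ?_⟩
  rw [hH, hK, hK0, bf_smul]
  field_simp

private theorem exists_pow (μ : ℕ) (r : EN 1) : ∃ A : EN μ, ∀ v, bf A v = dt r v ^ μ := by
  obtain ⟨φ, -, hφ⟩ := exists_pf μ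
  exact ⟨φ fun _ => r, fun v => by rw [hφ]; simp⟩

/-- splitting off a root with its multiplicity -/
theorem exists_mult {c : EN d} (hc : c ≠ 0) {r : EN 1} (hr : r ≠ 0) (h0 : bf c r = 0) :
    ∃ (μ ν : ℕ) (A : EN μ) (B : EN ν), μ + ν = d ∧ 0 < μ ∧ (∀ v, bf c v = bf A v * bf B v) ∧ (∀ v, bf A v = dt r v ^ μ) ∧ bf B r ≠ 0 := by
  induction d with
  | zero =>
    exfalso
    refine hc (bf_ext fun v => ?_)
    rw [bf_zero]
    have h1 : bf c r = c 0 := by simp [bf]
    have h2 : bf c v = c 0 := by simp [bf]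
    rw [h2, ← h1, h0]
  | succ d ih =>
    obtain ⟨c', hc'⟩ := exists_div_one c hr h0
    have hc'0 : c' ≠ 0 := by
      rintro rfl
      refine hc (bf_ext fun v => ?_)
      rw [hc', bf_zero, bf_zero, mul_zero]
    by_cases h : bf c' r = 0
    · obtain ⟨μ, ν, A, B, h1, h2, h3, h4, h5⟩ := ih hc'0 h
      obtain ⟨A', hA'⟩ := exists_pow (μ + 1) r
      refine ⟨μ + 1, ν, A', B, by omega, by omega, fun v => ?_, hA', h5⟩
      rw [hc', h3, hA', h4]
      ring
    · obtain ⟨A', hA'⟩ := exists_pow 1 r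
      refine ⟨1, d, A', c', by omega, by omega, fun v => ?_, hA', h⟩
      rw [hc', hA', pow_one]

/-- the point `(i, 1)` -/
private noncomputable def wp (i : ℕ) : EN 1 := WithLp.toLp 2 ![(i : ℂ), 1]

private theorem dt_wp {i j : ℕ} (h : i ≠ j) : dt (wp i) (wp j) ≠ 0 := by
  have : dt (wp i) (wp j) = (i : ℂ) - j := by simp [dt, wp]
  rw [this, sub_ne_zero]
  exact_mod_cast h

private theorem wp_ne (i : ℕ) : wp i ≠ 0 := by
  intro h
  have := congrArg (fun x : EN 1 => x 1) h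
  simp [wp] at this

private theorem roots_finite {c : EN n} (hc : c ≠ 0) : {i : ℕ | bf c (wp i) = 0}.Finite := by
  by_contra h
  obtain ⟨t, ht, hcard⟩ := Set.Infinite.exists_subset_card_eq h (n + 1)
  let e := t.equivFinOfCardEq hcard
  refine hc (bf_roots_le (s := n + 1) (fun i => wp (e.symm i)) (fun i j hij => dt_wp fun h => hij ?_) (fun i => ht (e.symm i).2) (Nat.lt_succ_self n))
  exact e.symm.injective (Subtype.ext h)

private theorem mul_ne {G : EN n} {H : EN n'} {F : EN (n + n')} (hG : G ≠ 0) (hH : H ≠ 0) (h : ∀ v, bf F v = bf G v * bf H v) : F ≠ 0 := by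
  rintro rfl
  have hfin := (roots_finite hG).union (roots_finite hH)
  obtain ⟨i, hi⟩ := hfin.infinite_compl.nonempty
  simp only [Set.mem_compl_iff, Set.mem_union, Set.mem_ofPred_eq, not_or] at hi
  have := h (wp i)
  rw [bf_zero] at this
  exact mul_ne_zero hi.1 hi.2 this.symm

/-- the values of a form -/
private noncomputable def evL (n : ℕ) (u : Fin (n + 1) → EN 1) : EN n →ₗ[ℂ] (Fin (n + 1) → ℂ) where
  toFun c i := bf c (u i)
  map_add' c c' := funext fun i => bf_add c c' (u i)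
  map_smul' s c := funext fun i => bf_smul s c (u i)

/-- the norm of the coefficients -/
theorem cf_le (n : ℕ) : ∃ C : ℝ, 0 < C ∧ ∀ (c : EN n) (A : ℝ), (∀ v : EN 1, ‖v‖ = 1 → ‖bf c v‖ ≤ A) → ‖c‖ ≤ C * A := by
  let u : Fin (n + 1) → EN 1 := fun i => ((‖wp i‖⁻¹ : ℝ) : ℂ) • wp i
  have hw : ∀ i : ℕ, ‖wp i‖ ≠ 0 := fun i => norm_ne_zero_iff.2 (wp_ne i)
  have hu1 : ∀ i, ‖u i‖ = 1 := fun i => by
    simp only [u, norm_smul, Complex.norm_real, norm_inv, norm_norm]
    exact inv_mul_cancel₀ (hw i)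
  have hur : ∀ i j, i ≠ j → dt (u i) (u j) ≠ 0 := fun i j hij => by
    simp only [u, dt_smul_left, dt_smul_right]
    refine mul_ne_zero ?_ (mul_ne_zero ?_ (dt_wp fun h => hij (Fin.ext h)))
    · exact_mod_cast inv_ne_zero (hw j)
    · exact_mod_cast inv_ne_zero (hw i)
  have hker : LinearMap.ker (evL n u) = ⊥ := by
    rw [LinearMap.ker_eq_bot']
    intro c hc
    exact bf_roots_le u hur (fun i => congrFun hc i) (Nat.lt_succ_self n)
  obtain ⟨K, hK, hanti⟩ := (evL n u).exists_antilipschitzWith hker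
  refine ⟨K, by exact_mod_cast hK, fun c A hA => ?_⟩
  have hA0 : 0 ≤ A := (norm_nonneg _).trans (hA (u 0) (hu1 0))
  have h1 := hanti.le_mul_dist c 0
  rw [map_zero, dist_zero_right, dist_zero_right] at h1
  refine h1.trans (mul_le_mul_of_nonneg_left ?_ K.2)
  rw [pi_norm_le_iff_of_nonneg hA0]
  exact fun i => hA (u i) (hu1 i)

theorem bf_le (n : ℕ) : ∃ C : ℝ, 0 < C ∧ ∀ (c : EN n) (v : EN 1), ‖bf c v‖ ≤ C * ‖c‖ * ‖v‖ ^ n := by
  refine ⟨n + 1, by positivity, fun c v => ?_⟩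
  have h : ∀ i : Fin (n + 1), ‖c i * v 0 ^ (i : ℕ) * v 1 ^ (n - (i : ℕ))‖ ≤ ‖c‖ * ‖v‖ ^ n := fun i => by
    have hi : (i : ℕ) + (n - (i : ℕ)) = n := by have := i.2; omega
    rw [norm_mul, norm_mul, norm_pow, norm_pow]
    calc ‖c i‖ * ‖v 0‖ ^ (i : ℕ) * ‖v 1‖ ^ (n - (i : ℕ))
        ≤ ‖c‖ * ‖v‖ ^ (i : ℕ) * ‖v‖ ^ (n - (i : ℕ)) := by
          gcongr
          · exact PiLp.norm_apply_le c i
          · exact PiLp.norm_apply_le v 0
          · exact PiLp.norm_apply_le v 1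
      _ = ‖c‖ * ‖v‖ ^ n := by rw [mul_assoc, ← pow_add, hi]
  calc ‖bf c v‖ ≤ ∑ i : Fin (n + 1), ‖c i * v 0 ^ (i : ℕ) * v 1 ^ (n - (i : ℕ))‖ := norm_sum_le _ _
    _ ≤ ∑ _i : Fin (n + 1), ‖c‖ * ‖v‖ ^ n := Finset.sum_le_sum fun i _ => h i
    _ = (n + 1) * ‖c‖ * ‖v‖ ^ n := by
      rw [Finset.sum_const, Finset.card_univ, Fintype.card_fin, nsmul_eq_mul]
      push_cast
      ring

/-- the norm of a product (compactness of the unit spheres: a product of two forms which are not `0` is not `0`) -/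
theorem mul_lo (n n' : ℕ) : ∃ c : ℝ, 0 < c ∧ ∀ (G : EN n) (H : EN n') (F : EN (n + n')), (∀ v, bf F v = bf G v * bf H v) → c * (‖G‖ * ‖H‖) ≤ ‖F‖ := by
  obtain ⟨φ, hφd, hφ⟩ := exists_ml n n'
  have hcomp : IsCompact (sphere (0 : EN n) 1 ×ˢ sphere (0 : EN n') 1) := (isCompact_sphere _ _).prod (isCompact_sphere _ _)
  have hne : (sphere (0 : EN n) 1 ×ˢ sphere (0 : EN n') 1).Nonempty :=
    (NormedSpace.sphere_nonempty.2 zero_le_one).prod (NormedSpace.sphere_nonempty.2 zero_le_one)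
  obtain ⟨p, hp, hmin⟩ := hcomp.exists_isMinOn hne (f := fun p => ‖φ p‖) hφd.continuous.norm.continuousOn
  have hp1 : p.1 ≠ 0 := fun h => by
    have := mem_sphere_zero_iff_norm.1 hp.1
    rw [h, norm_zero] at this
    exact zero_ne_one this
  have hp2 : p.2 ≠ 0 := fun h => by
    have := mem_sphere_zero_iff_norm.1 hp.2
    rw [h, norm_zero] at this
    exact zero_ne_one this
  refine ⟨‖φ p‖, norm_pos_iff.2 (mul_ne hp1 hp2 fun v => hφ p.1 p.2 v), fun G H F hF => ?_⟩
  rcases eq_or_ne G 0 with rfl | hG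
  · simp
  rcases eq_or_ne H 0 with rfl | hH
  · simp
  have hG0 : ‖G‖ ≠ 0 := norm_ne_zero_iff.2 hG
  have hH0 : ‖H‖ ≠ 0 := norm_ne_zero_iff.2 hH
  set e : EN n := ((‖G‖⁻¹ : ℝ) : ℂ) • G with he
  set e' : EN n' := ((‖H‖⁻¹ : ℝ) : ℂ) • H with he'
  have h1 : ‖e‖ = 1 := by
    rw [he, norm_smul, Complex.norm_real, norm_inv, norm_norm]
    exact inv_mul_cancel₀ hG0
  have h2 : ‖e'‖ = 1 := by
    rw [he', norm_smul, Complex.norm_real, norm_inv, norm_norm]
    exact inv_mul_cancel₀ hH0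
  have h3 : ‖φ p‖ ≤ ‖φ (e, e')‖ := hmin (a := (e, e')) ⟨mem_sphere_zero_iff_norm.2 h1, mem_sphere_zero_iff_norm.2 h2⟩
  have h4 : F = ((‖G‖ * ‖H‖ : ℝ) : ℂ) • φ (e, e') := by
    refine bf_ext fun v => ?_
    rw [hF, bf_smul, hφ, he, he', bf_smul, bf_smul]
    push_cast
    have hG1 : (‖G‖ : ℂ) ≠ 0 := by exact_mod_cast hG0
    have hH1 : (‖H‖ : ℂ) ≠ 0 := by exact_mod_cast hH0
    field_simp
  rw [h4, norm_smul, Complex.norm_real, Real.norm_of_nonneg (by positivity), mul_comm]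
  gcongr

theorem mul_up (n n' : ℕ) : ∃ C : ℝ, 0 < C ∧ ∀ (G : EN n) (H : EN n') (F : EN (n + n')), (∀ v, bf F v = bf G v * bf H v) → ‖F‖ ≤ C * (‖G‖ * ‖H‖) := by
  obtain ⟨C, hC, h⟩ := cf_le (n + n')
  obtain ⟨C1, hC1, h1⟩ := bf_le n
  obtain ⟨C2, hC2, h2⟩ := bf_le n'
  refine ⟨C * (C1 * C2), by positivity, fun G H F hF => ?_⟩
  refine (h F (C1 * C2 * (‖G‖ * ‖H‖)) fun v hv => ?_).trans (le_of_eq (by ring))
  rw [hF, norm_mul]
  have a1 := h1 G v
  have a2 := h2 H v
  rw [hv, one_pow, mul_one] at a1 a2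
  calc ‖bf G v‖ * ‖bf H v‖ ≤ (C1 * ‖G‖) * (C2 * ‖H‖) := by gcongr
    _ = C1 * C2 * (‖G‖ * ‖H‖) := by ring

end Pool.Agent.TM

end

section

/-!
# TM Rs: the resultant of two binary forms
-/

set_option autoImplicit false

open Topology Filter Metric

namespace Pool.Agent.TM

open Polynomial
open Pool.Agent.H36.BP (EN)
open Pool.Agent.AD (Vd)
open Pool.Agent.PX (Fo dt)

variable {k d n m n' : ℕ}

/-- the point `(t, 1)` -/
private noncomputable def qv (t : ℂ) : EN 1 := WithLp.toLp 2 ![t, 1]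

/-- the point `(1, 0)` -/
private noncomputable def iv : EN 1 := WithLp.toLp 2 ![1, 0]

private theorem qv_ne (t : ℂ) : qv t ≠ 0 := fun h => by
  have := congrArg (fun x : EN 1 => x 1) h
  simp [qv] at this

private theorem iv_ne : iv ≠ 0 := fun h => by
  have := congrArg (fun x : EN 1 => x 0) h
  simp [iv] at this

private theorem pl_coeff (f : EN n) (i : ℕ) : (pl f).coeff i = if h : i < n + 1 then f ⟨i, h⟩ else 0 := by
  simp only [pl, finsetSum_coeff, coeff_C_mul, coeff_X_pow, mul_ite, mul_one, mul_zero]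
  split_ifs with h
  · rw [Finset.sum_eq_single (⟨i, h⟩ : Fin (n + 1))]
    · simp
    · intro i _ hi
      rw [if_neg]
      rintro rfl
      exact hi rfl
    · intro h1
      exact absurd (Finset.mem_univ _) h1
  · refine Finset.sum_eq_zero fun i _ => ?_
    rw [if_neg]
    rintro rfl
    exact h i.2

private theorem pl_coeff_fin (f : EN n) (i : Fin (n + 1)) : (pl f).coeff (i : ℕ) = f i := by
  rw [pl_coeff, dif_pos i.2]

private theorem pl_deg (f : EN n) : (pl f).natDegree ≤ n := by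
  rw [natDegree_le_iff_coeff_eq_zero]
  intro i hn
  rw [pl_coeff, dif_neg (by omega)]

private theorem pl_smul (t : ℂ) (f : EN n) : pl (t • f) = C t * pl f := by
  ext i
  rw [coeff_C_mul, pl_coeff, pl_coeff]
  split_ifs
  · rfl
  · simp

private theorem bf_qv (f : EN n) (t : ℂ) : bf f (qv t) = (pl f).eval t := by
  simp [bf, pl, eval_finsetSum, qv]

private theorem bf_iv (f : EN n) : bf f iv = f (Fin.last n) := by
  rw [bf, Finset.sum_eq_single (Fin.last n)]
  · simp [iv]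
  · intro i _ hi
    have h1 : n - (i : ℕ) ≠ 0 := by
      have := Fin.val_lt_last hi
      omega
    simp [iv, h1]
  · intro h
    exact absurd (Finset.mem_univ _) h

private theorem bf_sm (f : EN n) (t : ℂ) (x : EN 1) : bf f (t • x) = t ^ n * bf f x := by
  rw [bf, bf, Finset.mul_sum]
  refine Finset.sum_congr rfl fun i _ => ?_
  have h1 : t ^ n = t ^ (i : ℕ) * t ^ (n - (i : ℕ)) := by
    rw [← pow_add]
    congr 1
    omega
  simp only [PiLp.smul_apply, smul_eq_mul, mul_pow]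
  rw [h1]
  ring

/-- every nonzero point is a multiple of some `(t, 1)` or of `(1, 0)` -/
private theorem pt_cases {x : EN 1} (hx : x ≠ 0) : (∃ s t : ℂ, s ≠ 0 ∧ x = s • qv t) ∨ ∃ s : ℂ, s ≠ 0 ∧ x = s • iv := by
  by_cases h1 : x 1 = 0
  · right
    refine ⟨x 0, fun h0 => hx ?_, ?_⟩
    · ext j
      fin_cases j
      · exact h0
      · exact h1
    · ext j
      fin_cases j
      · simp [iv]
      · simpa [iv] using h1
  · left
    refine ⟨x 1, x 0 / x 1, h1, ?_⟩
    ext j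
    fin_cases j
    · simp [qv, mul_div_cancel₀ _ h1]
    · simp [qv]

theorem rs_smul_left (s : ℂ) (c : EN n) (x : EN m) : rs (s • c) x = s ^ m * rs c x := by
  rw [rs, pl_smul]
  exact resultant_C_mul_left _ _ _ _ _

theorem rs_smul_right (s : ℂ) (c : EN n) (x : EN m) : rs c (s • x) = s ^ n * rs c x := by
  rw [rs, pl_smul]
  exact resultant_C_mul_right _ _ _ _ _

private theorem hcop {p q : ℂ[X]} (hne : p ≠ 0 ∨ q ≠ 0) : resultant p q = 0 ↔ ∃ t, p.eval t = 0 ∧ q.eval t = 0 := by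
  rw [resultant_eq_zero_iff, isCoprime_iff_aeval_ne_zero_of_isAlgClosed ℂ ℂ]
  constructor
  · rintro ⟨-, h⟩
    push Not at h
    obtain ⟨t, h1, h2⟩ := h
    exact ⟨t, by simpa using h1, by simpa using h2⟩
  · rintro ⟨t, h1, h2⟩
    refine ⟨hne, fun h => ?_⟩
    rcases h t with h3 | h3
    · exact h3 (by simpa using h1)
    · exact h3 (by simpa using h2)

private theorem pres_iff {a b : ℕ} {p q : ℂ[X]} (ha : 1 ≤ a) (hb : 1 ≤ b) (hp : p.natDegree ≤ a) (hq : q.natDegree ≤ b) :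
    resultant p q a b = 0 ↔ (p.coeff a = 0 ∧ q.coeff b = 0) ∨ ∃ t, p.eval t = 0 ∧ q.eval t = 0 := by
  have hlt : ∀ {r : ℂ[X]} {m : ℕ}, 1 ≤ m → r.natDegree ≤ m → r.coeff m = 0 → r.natDegree < m := by
    intro r m hm hr h0
    refine lt_of_le_of_ne hr fun h => ?_
    have h1 : r.leadingCoeff = 0 := by
      rw [leadingCoeff, h]
      exact h0
    rw [leadingCoeff_eq_zero] at h1
    rw [h1, natDegree_zero] at h
    omega
  by_cases h1 : p.coeff a = 0
  · by_cases h2 : q.coeff b = 0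
    · rw [resultant_eq_zero_of_lt_lt _ _ _ _ (hlt ha hp h1) (hlt hb hq h2)]
      simp [h1, h2]
    · have hqm : q.natDegree = b := le_antisymm hq (le_natDegree_of_ne_zero h2)
      obtain ⟨c, hc⟩ := Nat.exists_eq_add_of_le hp
      have e1 : resultant p q a b = (-1) ^ (b * c) * q.coeff b ^ c * resultant p q p.natDegree b := by
        conv_lhs => rw [hc]
        exact resultant_add_left_deg _ _ _ _ _ le_rfl
      have e2 : resultant p q p.natDegree b = resultant p q := by rw [hqm]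
      have hq0 : q ≠ 0 := by
        rintro rfl
        exact h2 (coeff_zero _)
      rw [e1, e2, mul_eq_zero, or_iff_right (mul_ne_zero (pow_ne_zero _ (by norm_num)) (pow_ne_zero _ h2)), hcop (Or.inr hq0)]
      simp [h2]
  · have hpm : p.natDegree = a := le_antisymm hp (le_natDegree_of_ne_zero h1)
    obtain ⟨c, hc⟩ := Nat.exists_eq_add_of_le hq
    have e1 : resultant p q a b = p.coeff a ^ c * resultant p q a q.natDegree := by
      conv_lhs => rw [hc]
      exact resultant_add_right_deg _ _ _ _ _ le_rfl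
    have e2 : resultant p q a q.natDegree = resultant p q := by rw [hpm]
    have hp0 : p ≠ 0 := by
      rintro rfl
      exact h1 (coeff_zero _)
    rw [e1, e2, mul_eq_zero, or_iff_right (pow_ne_zero _ h1), hcop (Or.inl hp0)]
    simp [h1]

private theorem bf_zero_deg (c : EN 0) (v : EN 1) : bf c v = c 0 := by
  simp [bf]

/-- a form of positive degree has a zero -/
private theorem exists_zero (hn : 1 ≤ n) (c : EN n) : ∃ v : EN 1, v ≠ 0 ∧ bf c v = 0 := by
  by_cases h : c (Fin.last n) = 0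
  · exact ⟨iv, iv_ne, by rw [bf_iv, h]⟩
  · have hd : (pl c).degree ≠ 0 := by
      intro h0
      have h1 : (pl c).natDegree = 0 := natDegree_eq_of_degree_eq_some h0
      have h2 : (pl c).coeff n = 0 := coeff_eq_zero_of_natDegree_lt (by omega)
      exact h ((pl_coeff_fin c (Fin.last n)).symm.trans h2)
    obtain ⟨t, ht⟩ := IsAlgClosed.exists_root (pl c) hd
    exact ⟨qv t, qv_ne t, by rw [bf_qv]; exact ht⟩

theorem rs_zero (h : 0 < n + m) (c : EN n) (x : EN m) : rs c x = 0 ↔ ∃ v : EN 1, v ≠ 0 ∧ bf c v = 0 ∧ bf x v = 0 := by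
  rcases Nat.eq_zero_or_pos n with rfl | hn
  · have hm : 1 ≤ m := by omega
    have e : rs c x = c 0 ^ m := by
      rw [rs, resultant_zero_left_deg]
      have := pl_coeff_fin c 0
      simp only [Fin.val_zero] at this
      rw [this]
    rw [e, pow_eq_zero_iff (by omega)]
    constructor
    · intro h0
      obtain ⟨v, hv, hx⟩ := exists_zero hm x
      exact ⟨v, hv, by rw [bf_zero_deg, h0], hx⟩
    · rintro ⟨v, -, h0, -⟩
      rwa [bf_zero_deg] at h0
  rcases Nat.eq_zero_or_pos m with rfl | hm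
  · have e : rs c x = x 0 ^ n := by
      rw [rs, resultant_zero_right_deg]
      have := pl_coeff_fin x 0
      simp only [Fin.val_zero] at this
      rw [this]
    rw [e, pow_eq_zero_iff (by omega)]
    constructor
    · intro h0
      obtain ⟨v, hv, hx⟩ := exists_zero hn c
      exact ⟨v, hv, hx, by rw [bf_zero_deg, h0]⟩
    · rintro ⟨v, -, -, h0⟩
      rwa [bf_zero_deg] at h0
  rw [rs, pres_iff hn hm (pl_deg c) (pl_deg x)]
  constructor
  · rintro (⟨h1, h2⟩ | ⟨t, h1, h2⟩)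
    · refine ⟨iv, iv_ne, ?_, ?_⟩
      · rw [bf_iv, ← pl_coeff_fin c, Fin.val_last, h1]
      · rw [bf_iv, ← pl_coeff_fin x, Fin.val_last, h2]
    · exact ⟨qv t, qv_ne t, (bf_qv c t).trans h1, (bf_qv x t).trans h2⟩
  · rintro ⟨v, hx, h1, h2⟩
    rcases pt_cases hx with ⟨s, t, hs, rfl⟩ | ⟨s, hs, rfl⟩
    · right
      rw [bf_sm, bf_qv, mul_eq_zero, or_iff_right (pow_ne_zero _ hs)] at h1 h2
      exact ⟨t, h1, h2⟩
    · left
      rw [bf_sm, bf_iv, mul_eq_zero, or_iff_right (pow_ne_zero _ hs)] at h1 h2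
      rw [← pl_coeff_fin c, Fin.val_last] at h1
      rw [← pl_coeff_fin x, Fin.val_last] at h2
      exact ⟨h1, h2⟩

private theorem pl_coeff_diff (i : ℕ) : Differentiable ℂ fun c : EN n => (pl c).coeff i := by
  simp only [pl_coeff]
  split_ifs with h
  · fun_prop
  · exact differentiable_const _

theorem rs_diff : Differentiable ℂ fun p : EN n × EN m => rs p.1 p.2 := by
  have hp : ∀ i, Differentiable ℂ (fun p : EN n × EN m => (pl p.1).coeff i) := fun i => (pl_coeff_diff i).comp differentiable_fst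
  have hq : ∀ i, Differentiable ℂ (fun p : EN n × EN m => (pl p.2).coeff i) := fun i => (pl_coeff_diff i).comp differentiable_snd
  have hM : ∀ i j : Fin (n + m), Differentiable ℂ (fun p : EN n × EN m => sylvester (pl p.1) (pl p.2) n m i j) := by
    intro i j
    refine Fin.addCases (fun j => ?_) (fun j => ?_) j
    · simp only [sylvester, Matrix.of_apply, Fin.addCases_left]
      split_ifs
      · exact hq _
      · exact differentiable_const _
    · simp only [sylvester, Matrix.of_apply, Fin.addCases_right]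
      split_ifs
      · exact hp _
      · exact differentiable_const _
  have e : (fun p : EN n × EN m => rs p.1 p.2) = fun p => ∑ σ : Equiv.Perm (Fin (n + m)), ((Equiv.Perm.sign σ : ℤ) : ℂ) * ∏ i, sylvester (pl p.1) (pl p.2) n m (σ i) i := by
    funext p
    exact Matrix.det_apply' _
  rw [e]
  refine Differentiable.fun_sum fun σ _ => ?_
  refine (differentiable_const _).mul ?_
  have hP : ∀ s : Finset (Fin (n + m)), Differentiable ℂ fun p : EN n × EN m => ∏ i ∈ s, sylvester (pl p.1) (pl p.2) n m (σ i) i := by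
    intro s
    classical
    induction s using Finset.induction_on with
    | empty => simp only [Finset.prod_empty]; exact differentiable_const _
    | insert b s hb ih =>
      simp only [Finset.prod_insert hb]
      exact (hM _ _).mul ih
  exact hP Finset.univ

/-- the form with indeterminate coefficients -/
private noncomputable def xf (m : ℕ) : Polynomial (MvPolynomial (Fin (m + 1)) ℂ) := ∑ j : Fin (m + 1), Polynomial.C (MvPolynomial.X j) * Polynomial.X ^ (j : ℕ)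

private theorem xf_coeff (i : ℕ) : (xf m).coeff i = if h : i < m + 1 then MvPolynomial.X ⟨i, h⟩ else 0 := by
  simp only [xf, finsetSum_coeff, coeff_C_mul, coeff_X_pow, mul_ite, mul_one, mul_zero]
  split_ifs with h
  · rw [Finset.sum_eq_single (⟨i, h⟩ : Fin (m + 1))]
    · simp
    · intro i _ hi
      rw [if_neg]
      rintro rfl
      exact hi rfl
    · intro h1
      exact absurd (Finset.mem_univ _) h1
  · refine Finset.sum_eq_zero fun i _ => ?_
    rw [if_neg]
    rintro rfl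
    exact h i.2

theorem RM_eval (c : EN n) (x : EN m) : MvPolynomial.eval x.ofLp (RM m c) = rs c x := by
  rw [RM, rs, ← resultant_map_map]
  congr 1
  · rw [Polynomial.map_map]
    have : (MvPolynomial.eval x.ofLp).comp MvPolynomial.C = RingHom.id ℂ := by
      ext a
      simp
    rw [this, Polynomial.map_id]
  · rw [pl, Polynomial.map_sum]
    refine Finset.sum_congr rfl fun j _ => ?_
    simp

theorem RM_smul (m : ℕ) (s : ℂ) (c : EN n) : RM m (s • c) = MvPolynomial.C (s ^ m) * RM m c := by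
  rw [RM, pl_smul, Polynomial.map_mul, Polynomial.map_C, MvPolynomial.C_pow]
  exact resultant_C_mul_left _ _ _ _ _

theorem RM_hom (m : ℕ) (c : EN n) : (RM m c).IsHomogeneous n := by
  have e : RM m c = ∑ σ : Equiv.Perm (Fin (n + m)), ((Equiv.Perm.sign σ : ℤ) : MvPolynomial (Fin (m + 1)) ℂ) * ∏ i, sylvester ((pl c).map MvPolynomial.C) (xf m) n m (σ i) i := Matrix.det_apply' _
  rw [e]
  refine MvPolynomial.IsHomogeneous.sum _ _ _ fun σ _ => ?_
  have h0 : (((Equiv.Perm.sign σ : ℤ) : MvPolynomial (Fin (m + 1)) ℂ)).IsHomogeneous 0 := by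
    have := MvPolynomial.isHomogeneous_C (Fin (m + 1)) (((Equiv.Perm.sign σ : ℤ) : ℂ))
    simpa using this
  have h1 : (∏ i, sylvester ((pl c).map MvPolynomial.C) (xf m) n m (σ i) i).IsHomogeneous n := by
    rw [Fin.prod_univ_add]
    have h2 : (∏ i : Fin n, sylvester ((pl c).map MvPolynomial.C) (xf m) n m (σ (Fin.castAdd m i)) (Fin.castAdd m i)).IsHomogeneous (∑ _i : Fin n, 1) := by
      refine MvPolynomial.IsHomogeneous.prod _ _ _ fun i _ => ?_
      simp only [sylvester, Matrix.of_apply, Fin.addCases_left]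
      split_ifs
      · rw [xf_coeff]
        split_ifs
        · exact MvPolynomial.isHomogeneous_X _ _
        · exact MvPolynomial.isHomogeneous_zero _ _ _
      · exact MvPolynomial.isHomogeneous_zero _ _ _
    have h3 : (∏ i : Fin m, sylvester ((pl c).map MvPolynomial.C) (xf m) n m (σ (Fin.natAdd n i)) (Fin.natAdd n i)).IsHomogeneous (∑ _i : Fin m, 0) := by
      refine MvPolynomial.IsHomogeneous.prod _ _ _ fun i _ => ?_
      simp only [sylvester, Matrix.of_apply, Fin.addCases_right]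
      split_ifs
      · rw [coeff_map]
        exact MvPolynomial.isHomogeneous_C _ _
      · exact MvPolynomial.isHomogeneous_zero _ _ _
    have := h2.mul h3
    simpa using this
  have := h0.mul h1
  rwa [zero_add] at this

private def CD (F : EN n → MvPolynomial (Fin (m + 1)) ℂ) : Prop := ∀ α, Differentiable ℂ fun c => (F c).coeff α

private theorem CD.const (P : MvPolynomial (Fin (m + 1)) ℂ) : CD (n := n) (fun _ => P) := fun _ => differentiable_const _

private theorem CD.mul {F G : EN n → MvPolynomial (Fin (m + 1)) ℂ} (hF : CD F) (hG : CD G) : CD fun c => F c * G c := by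
  classical
  intro α
  simp only [MvPolynomial.coeff_mul]
  exact Differentiable.fun_sum fun p _ => (hF _).mul (hG _)

private theorem CD.sum {β : Type} (s : Finset β) {F : β → EN n → MvPolynomial (Fin (m + 1)) ℂ} (hF : ∀ b ∈ s, CD (F b)) : CD fun c => ∑ b ∈ s, F b c := by
  intro α
  simp only [MvPolynomial.coeff_sum]
  exact Differentiable.fun_sum fun b hb => hF b hb α

private theorem CD.prod {β : Type} (s : Finset β) {F : β → EN n → MvPolynomial (Fin (m + 1)) ℂ} (hF : ∀ b ∈ s, CD (F b)) : CD fun c => ∏ b ∈ s, F b c := by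
  classical
  induction s using Finset.induction_on with
  | empty => simpa using CD.const 1
  | insert b s hb ih =>
    simp only [Finset.prod_insert hb]
    exact (hF b (Finset.mem_insert_self _ _)).mul (ih fun b' hb' => hF b' (Finset.mem_insert_of_mem hb'))

theorem RM_diff (m : ℕ) (α : Fin (m + 1) →₀ ℕ) : Differentiable ℂ fun c : EN n => (RM m c).coeff α := by
  have h : CD (n := n) (m := m) fun c => RM m c := by
    have e : (fun c : EN n => RM m c) = fun c => ∑ σ : Equiv.Perm (Fin (n + m)), ((Equiv.Perm.sign σ : ℤ) : MvPolynomial (Fin (m + 1)) ℂ) * ∏ i, sylvester ((pl c).map MvPolynomial.C) (xf m) n m (σ i) i := by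
      funext c
      exact Matrix.det_apply' _
    rw [e]
    refine CD.sum _ fun σ _ => (CD.const _).mul (CD.prod _ fun i _ => ?_)
    generalize σ i = i'
    refine Fin.addCases (fun j => ?_) (fun j => ?_) i
    · simp only [sylvester, Matrix.of_apply, Fin.addCases_left]
      exact CD.const _
    · simp only [sylvester, Matrix.of_apply, Fin.addCases_right]
      split_ifs
      · intro β
        simp only [coeff_map, MvPolynomial.coeff_C]
        split_ifs
        · exact pl_coeff_diff _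
        · exact differentiable_const _
      · exact CD.const _
  exact h α

end Pool.Agent.TM

end

section

/-!
# TM Lo: the two bounds of the resultant of a factorization

`tv_up`, `tv_lo`: `‖tv θ y‖` is comparable with `exp (wt W y)`, from below over `Gd D δ` (`PX/Cmp`: `PD.fo_le`, `PD.big_pt`; `cf_le`, `bf_le`).  Let `n + n' = d`, `Fo θ y = G * H`, `G : EN n`, `H : EN n'`.  By `mul_lo`, `mul_up`: `‖G‖ ‖H‖` is comparable with `‖tv θ y‖`.
`rs_up`: `‖rs G H‖ ≤ C ‖G‖ ^ n' ‖H‖ ^ n` (homogeneity, compactness of the unit spheres) `≤ C' ‖G‖ ^ (n' - n) exp (n * wt W y)` as `‖G‖ ‖H‖ ≤ C exp (wt W y)` and `n ≤ n'`.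
`rs_lo`: over `Gd D δ`: `c ‖G‖ ^ n' ‖H‖ ^ n ≤ ‖rs G H‖`: the set of the pairs of unit vectors `(G, H)` for which `G * H` is a multiple of `tv θ y`, `y ∈ Gd D δ`, is compact (`y` modulo `Λ`: `Lat.cpt`, as in `PX/Cmp`), and on it `rs G H ≠ 0` by `rs_zero`, because the roots of `Fo θ y` are
simple (`PD.simple`: at a common root `v` of `G` and `H` the derivative `Fd θ y v` of the product is `0`).
-/

set_option autoImplicit false

open Topology Filter Metric

namespace Pool.Agent.TM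

open Pool.Agent.H36.BP (EN)
open Pool.Agent.AD (Vd)
open Pool.Agent.TG (Lat Gd)
open Pool.Agent.G3 (wt)
open Pool.Agent.PX (Fo dt PD)

variable {k d r n m n' : ℕ} {Λ : AddSubgroup (Vd (k + 1))} {D : Set (Vd (k + 1))} {Bad : Vd (k + 1) → Set (Vd (k + 1))} {θ : Fin (d + 1) → Vd (k + 1) → ℂ} {W : Fin r → Vd (k + 1) →L[ℂ] ℂ}

theorem tv_diff {θ : Fin (d + 1) → Vd (k + 1) → ℂ} (han : ∀ i, Differentiable ℂ (θ i)) : Differentiable ℂ (tv θ) := by
  rw [differentiable_euclidean]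
  exact han

theorem tv_up (P : PD Λ D Bad θ W) : ∃ C : ℝ, 0 < C ∧ ∀ y, ‖tv θ y‖ ≤ C * Real.exp (wt W y) := by
  obtain ⟨C, hC, h⟩ := P.fo_le
  obtain ⟨C', hC', h'⟩ := cf_le d
  refine ⟨C' * C, mul_pos hC' hC, fun y => ?_⟩
  have h1 := h' (tv θ y) (C * Real.exp (wt W y)) fun v hv => by
    rw [bf_tv]
    have h2 := h y v
    rwa [hv, one_pow, mul_one] at h2
  rwa [← mul_assoc] at h1

theorem tv_lo (P : PD Λ D Bad θ W) {δ : ℝ} (hδ : 0 < δ) : ∃ c : ℝ, 0 < c ∧ ∀ y ∈ Gd D δ, c * Real.exp (wt W y) ≤ ‖tv θ y‖ := by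
  obtain ⟨c, hc, h⟩ := P.big_pt hδ
  obtain ⟨C, hC, h'⟩ := bf_le d
  refine ⟨c / C, div_pos hc hC, fun y hy => ?_⟩
  obtain ⟨b, hb, h1⟩ := h y hy
  have h2 := h' (tv θ y) b
  rw [bf_tv, hb, one_pow, mul_one] at h2
  unfold Pool.Agent.PX.qf at h1
  rw [hb, one_pow, div_one] at h1
  have h3 : c * Real.exp (wt W y) ≤ ‖Fo θ y b‖ := by
    have h4 := mul_le_mul_of_nonneg_right h1 (Real.exp_pos (wt W y)).le
    rwa [mul_assoc, ← Real.exp_add, neg_add_cancel, Real.exp_zero, mul_one] at h4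
  rw [div_mul_eq_mul_div, div_le_iff₀ hC]
  linarith

private theorem lo_bf_diff (G : EN n) : Differentiable ℂ (bf G) := by
  have h : Differentiable ℂ fun v : EN 1 => (G, v) := (differentiable_const G).prodMk differentiable_id
  exact Differentiable.comp (g := fun p : EN n × EN 1 => bf p.1 p.2) (f := fun v : EN 1 => (G, v)) bf_diff h

/-- the factors have no common root off `D` -/
theorem rs_off (P : PD Λ D Bad θ W) (hn : n + n' = d) {y : Vd (k + 1)} (hy : y ∉ D) {G : EN n} {H : EN n'} (h : ∀ v, Fo θ y v = bf G v * bf H v) : rs G H ≠ 0 := by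
  intro h0
  have hd := P.deg
  obtain ⟨v, hv, hG, hH⟩ := (rs_zero (by omega) G H).1 h0
  have h1 : Fo θ y v = 0 := by rw [h, hG, zero_mul]
  obtain ⟨w, hw⟩ := P.simple y hy v hv h1
  apply hw
  unfold Pool.Agent.PX.Fd
  have h2 : Fo θ y = fun v => bf G v * bf H v := funext h
  rw [h2, fderiv_fun_mul (lo_bf_diff G v) (lo_bf_diff H v), hG, hH]
  simp

private theorem lo_unit (G : EN n) : ∃ G₀ : EN n, ‖G₀‖ = 1 ∧ G = ((‖G‖ : ℝ) : ℂ) • G₀ := by
  by_cases hG : G = 0
  · refine ⟨EuclideanSpace.single 0 1, by simp, ?_⟩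
    rw [hG, norm_zero, Complex.ofReal_zero, zero_smul]
  · have hn : ‖G‖ ≠ 0 := norm_ne_zero_iff.2 hG
    refine ⟨((‖G‖⁻¹ : ℝ) : ℂ) • G, ?_, ?_⟩
    · rw [norm_smul, Complex.norm_real, norm_inv, norm_norm, inv_mul_cancel₀ hn]
    · rw [smul_smul, ← Complex.ofReal_mul, mul_inv_cancel₀ hn, Complex.ofReal_one, one_smul]

private theorem lo_hom {G G₀ : EN n} {H H₀ : EN n'} (hG : G = ((‖G‖ : ℝ) : ℂ) • G₀) (hH : H = ((‖H‖ : ℝ) : ℂ) • H₀) :
    ‖rs G H‖ = ‖G‖ ^ n' * ‖H‖ ^ n * ‖rs G₀ H₀‖ := by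
  have h1 : rs G H = ((‖G‖ : ℝ) : ℂ) ^ n' * (((‖H‖ : ℝ) : ℂ) ^ n * rs G₀ H₀) := by
    conv_lhs => rw [hG, hH]
    rw [rs_smul_left, rs_smul_right]
  rw [h1, norm_mul, norm_mul, norm_pow, norm_pow, Complex.norm_real, Complex.norm_real, norm_norm, norm_norm]
  ring

private theorem lo_pow (hle : n ≤ n') (a b : ℝ) : a ^ n' * b ^ n = a ^ (n' - n) * (a * b) ^ n := by
  have h1 : a ^ n' = a ^ (n' - n) * a ^ n := by
    rw [← pow_add]
    congr 1
    omega
  rw [h1, mul_pow]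
  ring

theorem rs_up (P : PD Λ D Bad θ W) (hn : n + n' = d) (hle : n ≤ n') : ∃ C : ℝ, 0 < C ∧ ∀ (y : Vd (k + 1)) (G : EN n) (H : EN n'), G ≠ 0 → (∀ v, Fo θ y v = bf G v * bf H v) →
    ‖rs G H‖ ≤ C * ‖G‖ ^ (n' - n) * Real.exp (n * wt W y) := by
  subst hn
  obtain ⟨C₁, hC₁⟩ := ((isCompact_sphere (0 : EN n) 1).prod (isCompact_sphere (0 : EN n') 1)).exists_bound_of_continuousOn
    (rs_diff (n := n) (m := n')).continuous.continuousOn
  obtain ⟨c, hc, hlo⟩ := mul_lo n n'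
  obtain ⟨C, hC, hup⟩ := tv_up P
  refine ⟨(|C₁| + 1) * (C / c) ^ n, by positivity, fun y G H _ h => ?_⟩
  obtain ⟨G₀, hG₀, hG⟩ := lo_unit G
  obtain ⟨H₀, hH₀, hH⟩ := lo_unit H
  have h1 : ‖rs G₀ H₀‖ ≤ |C₁| + 1 := by
    have h2 := hC₁ (G₀, H₀) ⟨by simpa using hG₀, by simpa using hH₀⟩
    exact h2.trans ((le_abs_self _).trans (by linarith))
  have h3 : ‖G‖ * ‖H‖ ≤ C / c * Real.exp (wt W y) := by
    have h4 := (hlo G H (tv θ y) fun v => by rw [bf_tv]; exact h v).trans (hup y)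
    rw [div_mul_eq_mul_div, le_div_iff₀ hc]
    linarith
  have h5 : (‖G‖ * ‖H‖) ^ n ≤ (C / c) ^ n * Real.exp (n * wt W y) := by
    have h6 := pow_le_pow_left₀ (by positivity) h3 n
    rwa [mul_pow (C / c), ← Real.exp_nat_mul] at h6
  rw [lo_hom hG hH, lo_pow hle]
  calc ‖G‖ ^ (n' - n) * (‖G‖ * ‖H‖) ^ n * ‖rs G₀ H₀‖
      ≤ ‖G‖ ^ (n' - n) * ((C / c) ^ n * Real.exp (n * wt W y)) * (|C₁| + 1) :=
        mul_le_mul (mul_le_mul_of_nonneg_left h5 (by positivity)) h1 (norm_nonneg _) (by positivity)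
    _ = (|C₁| + 1) * (C / c) ^ n * ‖G‖ ^ (n' - n) * Real.exp (n * wt W y) := by ring

private theorem lo_gd_sub (P : PD Λ D Bad θ W) {δ : ℝ} {y l : Vd (k + 1)} (hl : l ∈ Λ) (hy : y ∈ Gd D δ) : y - l ∈ Gd D δ := by
  intro b hb
  have := hy (b + l) (P.D_inv b hb l hl)
  rwa [show y - l - b = y - (b + l) by abel]

private theorem lo_gd_not {δ : ℝ} (hδ : 0 < δ) {y : Vd (k + 1)} (hy : y ∈ Gd D δ) : y ∉ D := fun h => by
  have := hy y h
  rw [sub_self, norm_zero] at this
  linarith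

private theorem lo_gd_closed (D : Set (Vd (k + 1))) (δ : ℝ) : IsClosed (Gd D δ) := by
  have : Gd D δ = ⋂ b ∈ D, {y | δ ≤ ‖y - b‖} := by
    ext y
    simp [Gd]
  rw [this]
  exact isClosed_biInter fun b _ => isClosed_le continuous_const (by fun_prop)

/-- the form over a translated point -/
private theorem lo_per (P : PD Λ D Bad θ W) {l : Vd (k + 1)} (hl : l ∈ Λ) (y : Vd (k + 1)) :
    ∃ e : ℂ, e ≠ 0 ∧ tv θ (y + l) = e • tv θ y := by
  obtain ⟨e, he, hθ⟩ := P.per l hl y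
  refine ⟨e, ?_, ?_⟩
  · rintro rfl
    rw [norm_zero, zero_mul] at he
    exact (Real.exp_pos _).ne he
  · ext i
    exact hθ i

/-- the resultant of the normalised factors is not small over `Gd D δ` -/
private theorem lo_unit_lo {θ : Fin (n + n' + 1) → Vd (k + 1) → ℂ} (P : PD Λ D Bad θ W) {δ : ℝ} (hδ : 0 < δ) :
    ∃ c : ℝ, 0 < c ∧ ∀ y ∈ Gd D δ, ∀ (s : ℂ) (G₀ : EN n) (H₀ : EN n'), ‖G₀‖ = 1 → ‖H₀‖ = 1 → (∀ v, Fo θ y v = s * (bf G₀ v * bf H₀ v)) → c ≤ ‖rs G₀ H₀‖ := by
  obtain ⟨R, hR, hL⟩ := P.lat.cpt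
  obtain ⟨φ, hφ, hφ'⟩ := exists_ml n n'
  obtain ⟨c₀, hc₀, hlo⟩ := mul_lo n n'
  -- the form is bounded over the ball
  obtain ⟨C, hC⟩ := (isCompact_closedBall (0 : Vd (k + 1)) R).exists_bound_of_continuousOn (tv_diff P.an).continuous.continuousOn
  set K : Set (Vd (k + 1) × ℂ × EN n × EN n') :=
    ((closedBall (0 : Vd (k + 1)) R ∩ Gd D δ) ×ˢ (closedBall (0 : ℂ) (C / c₀) ×ˢ (sphere (0 : EN n) 1 ×ˢ sphere (0 : EN n') 1))) ∩
      {p | tv θ p.1 = p.2.1 • φ p.2.2} with hK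
  have hKc : IsCompact K := by
    refine IsCompact.inter_right (((isCompact_closedBall _ _).inter_right (lo_gd_closed D δ)).prod
      ((isCompact_closedBall _ _).prod ((isCompact_sphere _ _).prod (isCompact_sphere _ _)))) ?_
    refine isClosed_eq ((tv_diff P.an).continuous.comp continuous_fst) ?_
    exact (continuous_fst.comp continuous_snd).smul (hφ.continuous.comp (continuous_snd.comp continuous_snd))
  have hcont : Continuous fun p : Vd (k + 1) × ℂ × EN n × EN n' => ‖rs p.2.2.1 p.2.2.2‖ :=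
    ((rs_diff (n := n) (m := n')).continuous.comp (continuous_snd.comp continuous_snd)).norm
  have hpos : ∀ p ∈ K, 0 < ‖rs p.2.2.1 p.2.2.2‖ := by
    rintro ⟨y, s, G₀, H₀⟩ ⟨⟨⟨-, hy⟩, -, hG₀, hH₀⟩, h0⟩
    have h0' : tv θ y = s • φ (G₀, H₀) := h0
    have h1 : ∀ v, Fo θ y v = bf (s • G₀) v * bf H₀ v := by
      intro v
      rw [← bf_tv, h0', bf_smul, hφ', bf_smul]
      ring
    have h2 := rs_off P rfl (lo_gd_not hδ hy) h1
    rw [rs_smul_left] at h2
    exact norm_pos_iff.2 (right_ne_zero_of_mul h2)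
  have hc : ∃ c : ℝ, 0 < c ∧ ∀ p ∈ K, c ≤ ‖rs p.2.2.1 p.2.2.2‖ := by
    rcases K.eq_empty_or_nonempty with h | h
    · exact ⟨1, one_pos, fun p hp => by rw [h] at hp; exact absurd hp (Set.notMem_empty p)⟩
    · obtain ⟨p, hp, hmin⟩ := hKc.exists_isMinOn h hcont.continuousOn
      exact ⟨_, hpos p hp, fun q hq => hmin hq⟩
  obtain ⟨c, hc0, hc⟩ := hc
  refine ⟨c, hc0, fun y hy s G₀ H₀ hG₀ hH₀ h => ?_⟩
  obtain ⟨l, hl, hyl⟩ := hL y
  obtain ⟨e, he, hF⟩ := lo_per P hl (y - l)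
  rw [sub_add_cancel] at hF
  have h1 : tv θ (y - l) = (e⁻¹ * s) • φ (G₀, H₀) := by
    apply bf_ext
    intro v
    have h2 := h v
    rw [← bf_tv, hF, bf_smul] at h2
    rw [bf_smul, hφ', mul_assoc, ← h2, ← mul_assoc, inv_mul_cancel₀ he, one_mul]
  have h3 : ‖e⁻¹ * s‖ ≤ C / c₀ := by
    have h4 := hC (y - l) (by rwa [mem_closedBall, dist_zero_right])
    have h5 := hlo G₀ H₀ (φ (G₀, H₀)) (hφ' G₀ H₀)
    rw [hG₀, hH₀, mul_one, mul_one] at h5
    rw [h1, norm_smul] at h4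
    rw [le_div_iff₀ hc₀]
    exact (mul_le_mul_of_nonneg_left h5 (norm_nonneg _)).trans h4
  exact hc (y - l, e⁻¹ * s, G₀, H₀) ⟨⟨⟨by rwa [mem_closedBall, dist_zero_right], lo_gd_sub P hl hy⟩, by rwa [mem_closedBall, dist_zero_right],
    by simpa using hG₀, by simpa using hH₀⟩, h1⟩

theorem rs_lo (P : PD Λ D Bad θ W) (hn : n + n' = d) (hle : n ≤ n') {δ : ℝ} (hδ : 0 < δ) : ∃ c : ℝ, 0 < c ∧ ∀ y ∈ Gd D δ, ∀ (G : EN n) (H : EN n'), (∀ v, Fo θ y v = bf G v * bf H v) →
    c * ‖G‖ ^ (n' - n) * Real.exp (n * wt W y) ≤ ‖rs G H‖ := by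
  subst hn
  obtain ⟨c₁, hc₁, h₁⟩ := lo_unit_lo P hδ
  obtain ⟨c₂, hc₂, h₂⟩ := tv_lo P hδ
  obtain ⟨C, hC, hup⟩ := mul_up n n'
  refine ⟨c₁ * (c₂ / C) ^ n, by positivity, fun y hy G H h => ?_⟩
  obtain ⟨G₀, hG₀, hG⟩ := lo_unit G
  obtain ⟨H₀, hH₀, hH⟩ := lo_unit H
  have h3 : c₂ / C * Real.exp (wt W y) ≤ ‖G‖ * ‖H‖ := by
    have h4 := (h₂ y hy).trans (hup G H (tv θ y) fun v => by rw [bf_tv]; exact h v)
    rw [div_mul_eq_mul_div, div_le_iff₀ hC]
    linarith
  have h5 : (c₂ / C) ^ n * Real.exp (n * wt W y) ≤ (‖G‖ * ‖H‖) ^ n := by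
    have h6 := pow_le_pow_left₀ (by positivity) h3 n
    rwa [mul_pow, ← Real.exp_nat_mul] at h6
  have h7 : c₁ ≤ ‖rs G₀ H₀‖ := by
    apply h₁ y hy (((‖G‖ : ℝ) : ℂ) * ((‖H‖ : ℝ) : ℂ)) G₀ H₀ hG₀ hH₀
    intro v
    rw [h]
    conv_lhs => rw [hG, hH]
    rw [bf_smul, bf_smul]
    ring
  rw [lo_hom hG hH, lo_pow hle]
  calc c₁ * (c₂ / C) ^ n * ‖G‖ ^ (n' - n) * Real.exp (n * wt W y)
      = ‖G‖ ^ (n' - n) * ((c₂ / C) ^ n * Real.exp (n * wt W y)) * c₁ := by ring
    _ ≤ ‖G‖ ^ (n' - n) * (‖G‖ * ‖H‖) ^ n * ‖rs G₀ H₀‖ :=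
        mul_le_mul (mul_le_mul_of_nonneg_left h5 (by positivity)) h7 hc₁.le (by positivity)

end Pool.Agent.TM

end
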