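import Pool.Agent.H94.PX4.M52
import Pool.Agent.H94.PX4.M55
import Pool.Agent.H94.PX4.M76
import Pool.Agent.H94.PX4.M86
import Pool.Agent.H94.PX4.M87

/-! The parts of this file: TM.Mult, TM.NoGH. -/

section

/-!
# TM Mult: the characteristic of a factor is bounded on discs; the zeros of the resultant have bounded multiplicity

Let `Fo θ (y + z a) = G z * H z` (`GH`), `n + n' = d`.  `tt_gh`: at a point `z` with `y + z a ∈ Gd D δ`: circle averages over `‖ζ - z‖ = ρ`: `log ‖G‖ + log ‖H‖ ≤ log ‖tv θ‖ + C ≤ wt + C'` (`mul_lo`, `tv_up`; valid where `H ≠ 0`), `avg log ‖H‖ ≥ log ‖H z‖` (subharmonic; Jensen for a coordinate `H i`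
with `‖H z‖ ≤ C |H i z|`, `log ‖H‖ ≥ log |H i|`), `log ‖G z‖ + log ‖H z‖ ≥ log ‖tv θ (y + z a)‖ - C ≥ wt (y + z a) - C'` (`mul_up`, `tv_lo`), `avg wt ≤ wt (y + z a) + C''`: so `TT G z ρ = avg log ‖G‖ - log ‖G z‖ ≤ T`.  See `PX/TTb.lean` (`tt_mono`, `tt_codisc`, `tt_int`, `tt_wt`).
`mult_gh`: as `PX/Mult.lean` (`PD.mult`), with `K z = rs (G z) (H z)`, `rs_up`, `rs_lo` in the place of `grad_up`, `grad_lo`, the exponent `n' - n` in the place of `d - 2`, the weight `n * wt W` in the place of `wt W`, and `tt_gh`.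
-/

set_option autoImplicit false

open Topology Filter Metric

namespace Pool.Agent.TM

open Pool.Agent.H36.BP (EN)
open Pool.Agent.AD (Vd)
open Pool.Agent.TG (Lat Gd)
open Pool.Agent.G3 (wt TT)
open Pool.Agent.PX (Fo dt PD)

variable {k d r n m n' : ℕ} {Λ : AddSubgroup (Vd (k + 1))} {D : Set (Vd (k + 1))} {Bad : Vd (k + 1) → Set (Vd (k + 1))} {θ : Fin (d + 1) → Vd (k + 1) → ℂ} {W : Fin r → Vd (k + 1) →L[ℂ] ℂ}

/-- an inequality off a discrete set of the circle -/
private theorem tt_mono {u v : ℂ → ℝ} {z : ℂ} {s : ℝ} (hs : 0 < s) (hu : CircleIntegrable u z s) (hv : CircleIntegrable v z s)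
    (h : ∀ᶠ w in codiscreteWithin (sphere z |s|), u w ≤ v w) : Real.circleAverage u z s ≤ Real.circleAverage v z s := by
  have h3 := circleMap_preimage_codiscrete hs.ne' h
  have h4 := ae_restrict_le_codiscreteWithin (μ := MeasureTheory.volume) measurableSet_uIoc (codiscreteWithin_mono (U₁ := Set.uIoc 0 (2 * Real.pi)) (by simp) h3)
  have h5 : ∀ᵐ θ ∂(MeasureTheory.volume.restrict (Set.uIoc 0 (2 * Real.pi))), u (circleMap z s θ) ≤ v (circleMap z s θ) := by
    filter_upwards [h4] with θ hθ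
    exact hθ
  rw [Real.circleAverage, Real.circleAverage, smul_eq_mul, smul_eq_mul]
  refine mul_le_mul_of_nonneg_left ?_ (by positivity)
  refine intervalIntegral.integral_mono_ae_restrict (by positivity) hu hv ?_
  rw [Set.uIoc_of_le (by positivity)] at h5
  rw [MeasureTheory.Measure.restrict_congr_set MeasureTheory.Ioc_ae_eq_Icc.symm]
  exact h5

/-- an analytic function which is not zero at the centre is not zero outside a discrete set of the circle -/
private theorem tt_codisc {a : ℂ → ℂ} {z : ℂ} {s : ℝ} (hs : 0 < s) (ha : Differentiable ℂ a) (ha0 : a z ≠ 0) :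
    a ⁻¹' {0}ᶜ ∈ codiscreteWithin (sphere z |s|) := by
  have h0 : AnalyticOnNhd ℂ a (closedBall z s) := fun w _ => ha.analyticAt w
  have h1 : a ⁻¹' {0}ᶜ ∈ codiscreteWithin (closedBall z s) :=
    h0.preimage_zero_mem_codiscreteWithin ha0 (mem_closedBall_self hs.le) ((convex_closedBall z s).isConnected ⟨z, mem_closedBall_self hs.le⟩)
  rw [abs_of_pos hs]
  exact codiscreteWithin_mono sphere_subset_closedBall h1

/-- the logarithm of the norm of an entire function is circle integrable -/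
private theorem tt_int {a : ℂ → ℂ} {z : ℂ} {s : ℝ} (hs : 0 < s) (ha : Differentiable ℂ a) : CircleIntegrable (fun w => Real.log ‖a w‖) z s := by
  apply MeromorphicOn.circleIntegrable_log_norm_of_nonneg _ hs.le
  have h0 : AnalyticOnNhd ℂ a (sphere z s) := fun w _ => ha.analyticAt w
  exact h0.meromorphicOn

/-- the mean of `‖g‖ ^ 2` -/
private theorem tt_sq {g : ℂ → ℂ} {z : ℂ} {s : ℝ} (hs : 0 < s) (hg : Differentiable ℂ g) :
    Real.circleAverage (fun w => ‖g w‖ ^ 2) z s = ‖g z‖ ^ 2 + Real.circleAverage (fun w => ‖g w - g z‖ ^ 2) z s := by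
  have hgc : ContinuousOn g (sphere z s) := hg.continuous.continuousOn
  have hmean : Real.circleAverage g z s = g z := hg.diffContOnCl.circleAverage
  have hIg : CircleIntegrable g z s := hgc.circleIntegrable hs.le
  -- the linear term
  set L : ℂ →L[ℝ] ℝ := Complex.reCLM.comp ((ContinuousLinearMap.mul ℂ ℂ ((starRingEnd ℂ) (g z))).restrictScalars ℝ) with hL
  have hLv : ∀ w, L w = ((starRingEnd ℂ) (g z) * w).re := fun w => by
    simp [hL]
  have hlin : Real.circleAverage (fun w => L (g w)) z s = L (g z) := by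
    have := L.circleAverage_comp_comm hIg
    rw [hmean] at this
    exact this
  have hIL : CircleIntegrable (fun w => L (g w)) z s := (L.continuous.comp_continuousOn hgc).circleIntegrable hs.le
  have hIn : CircleIntegrable (fun w => ‖g w - g z‖ ^ 2) z s := ((hgc.sub continuousOn_const).norm.pow 2).circleIntegrable hs.le
  have hpt : (fun w => ‖g w‖ ^ 2) = fun w => ((2 : ℝ) • (L (g w)) + ‖g w - g z‖ ^ 2) + (-‖g z‖ ^ 2) := by
    funext w
    rw [hLv, Complex.sq_norm, Complex.sq_norm, Complex.sq_norm, Complex.normSq_apply, Complex.normSq_apply, Complex.normSq_apply]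
    simp only [Complex.sub_re, Complex.sub_im, Complex.mul_re, Complex.conj_re, Complex.conj_im, smul_eq_mul]
    ring
  have hI1 : CircleIntegrable (fun w => (2 : ℝ) • (L (g w))) z s := hIL.const_fun_smul
  rw [hpt, Real.circleAverage_fun_add (hI1.fun_add hIn) (circleIntegrable_const _ _ _), Real.circleAverage_fun_add hI1 hIn,
    Real.circleAverage_fun_smul, Real.circleAverage_const, hlin, hLv]
  have h1 : ((starRingEnd ℂ) (g z) * g z).re = ‖g z‖ ^ 2 := by
    rw [Complex.sq_norm, Complex.normSq_apply]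
    simp [Complex.mul_re]
  rw [h1, smul_eq_mul]
  ring

/-- the mean of the weight on a line -/
private theorem tt_wt (W : Fin r → Vd (k + 1) →L[ℂ] ℂ) {y a : Vd (k + 1)} {A : ℝ} (ha : ‖a‖ ≤ A) {z : ℂ} {s : ℝ} (hs : 0 < s) :
    CircleIntegrable (fun w : ℂ => wt W (y + w • a)) z s ∧
      Real.circleAverage (fun w : ℂ => wt W (y + w • a)) z s ≤ wt W (y + z • a) + s ^ 2 * (∑ i, ‖W i‖ ^ 2) * A ^ 2 := by
  have hd : ∀ i : Fin r, Differentiable ℂ fun w : ℂ => W i (y + w • a) := fun i =>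
    (W i).differentiable.comp ((differentiable_const y).add (differentiable_id.smul_const a))
  have hIi : ∀ i : Fin r, CircleIntegrable (fun w : ℂ => ‖W i (y + w • a)‖ ^ 2) z s := fun i =>
    ((hd i).continuous.norm.pow 2).continuousOn.circleIntegrable hs.le
  have hIW : CircleIntegrable (fun w : ℂ => wt W (y + w • a)) z s := by
    unfold wt
    exact CircleIntegrable.fun_sum _ fun i _ => hIi i
  refine ⟨hIW, ?_⟩
  have h1 : Real.circleAverage (fun w : ℂ => wt W (y + w • a)) z s = ∑ i, Real.circleAverage (fun w : ℂ => ‖W i (y + w • a)‖ ^ 2) z s := by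
    unfold wt
    exact Real.circleAverage_fun_sum fun i _ => hIi i
  rw [h1, wt, Finset.mul_sum, Finset.sum_mul, ← Finset.sum_add_distrib]
  refine Finset.sum_le_sum fun i _ => ?_
  rw [tt_sq hs (hd i)]
  have h2 : Real.circleAverage (fun w : ℂ => ‖W i (y + w • a) - W i (y + z • a)‖ ^ 2) z s ≤ s ^ 2 * ‖W i‖ ^ 2 * A ^ 2 := by
    refine Real.circleAverage_mono_on_of_le_circle ?_ fun w hw => ?_
    · exact ((((hd i).continuous.sub continuous_const).norm.pow 2).continuousOn).circleIntegrable hs.le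
    · rw [abs_of_pos hs, mem_sphere, dist_eq_norm] at hw
      have h3 : W i (y + w • a) - W i (y + z • a) = (w - z) • W i a := by
        rw [← map_sub, ← map_smul]
        congr 1
        rw [sub_smul]
        abel
      rw [h3, norm_smul, hw, mul_pow, mul_assoc]
      refine mul_le_mul_of_nonneg_left ?_ (by positivity)
      rw [← mul_pow]
      exact pow_le_pow_left₀ (norm_nonneg _) (((W i).le_opNorm a).trans (mul_le_mul_of_nonneg_left ha (norm_nonneg _))) 2
  linarith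

/-- Jensen: the order of a zero -/
private theorem order_le {K : ℂ → ℂ} (hK : Differentiable ℂ K) {z z₀ : ℂ} (hz : K z ≠ 0) (h1 : ‖z - z₀‖ ≤ 1) (hne : z ≠ z₀) {m : ℕ} (hm : analyticOrderAt K z₀ = m) :
    (m : ℝ) ≤ Real.circleAverage (fun w => Real.log ‖K w‖) z 3 - Real.log ‖K z‖ := by
  have hs : (0 : ℝ) < 3 := by norm_num
  have hmerOn : MeromorphicOn K (closedBall z |(3 : ℝ)|) := fun ζ _ => (hK.analyticAt ζ).meromorphicAt
  have hJ := MeromorphicOn.circleAverage_log_norm hs.ne' hmerOn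
  have hzm : z ∈ closedBall z |(3 : ℝ)| := mem_closedBall_self (abs_nonneg _)
  have hdz : MeromorphicOn.divisor K (closedBall z |(3 : ℝ)|) z = 0 := by
    rw [MeromorphicOn.divisor_apply hmerOn hzm, (hK.analyticAt z).meromorphicOrderAt_eq, (hK.analyticAt z).analyticOrderAt_eq_zero.2 hz]
    simp
  have hnn : ∀ u, 0 ≤ (MeromorphicOn.divisor K (closedBall z |(3 : ℝ)|) u : ℝ) * Real.log (3 * ‖z - u‖⁻¹) := by
    intro u
    by_cases hu : u ∈ closedBall z |(3 : ℝ)|
    · apply mul_nonneg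
      · have h1 : 0 ≤ MeromorphicOn.divisor K (closedBall z |(3 : ℝ)|) u := by
          rw [MeromorphicOn.divisor_apply hmerOn hu, (hK.analyticAt u).meromorphicOrderAt_eq]
          refine WithTop.untop₀_nonneg.2 ?_
          have h5 := (hK.analyticAt u).meromorphicOrderAt_nonneg
          rwa [(hK.analyticAt u).meromorphicOrderAt_eq] at h5
        exact_mod_cast h1
      · by_cases huc : u = z
        · simp [huc]
        · apply Real.log_nonneg
          have h2 : 0 < ‖z - u‖ := by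
            rw [norm_pos_iff, sub_ne_zero]
            exact fun h => huc h.symm
          have h3 : ‖z - u‖ ≤ 3 := by
            rw [mem_closedBall, dist_eq_norm, abs_of_pos hs, norm_sub_rev] at hu
            exact hu
          rw [← div_eq_mul_inv, le_div_iff₀ h2]
          linarith
    · have : MeromorphicOn.divisor K (closedBall z |(3 : ℝ)|) u = 0 := Function.locallyFinsuppWithin.apply_eq_zero_of_notMem _ hu
      simp [this]
  have hfin : (Function.support fun u => (MeromorphicOn.divisor K (closedBall z |(3 : ℝ)|) u : ℝ) * Real.log (3 * ‖z - u‖⁻¹)).Finite := by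
    refine ((MeromorphicOn.divisor K (closedBall z |(3 : ℝ)|)).finiteSupport (isCompact_closedBall _ _)).subset ?_
    intro u hu h0
    apply hu
    simp only
    rw [h0]
    simp
  have hsum := single_le_finsum z₀ hfin hnn
  have hz₀ : z₀ ∈ closedBall z |(3 : ℝ)| := by
    rw [mem_closedBall, dist_eq_norm, abs_of_pos hs, norm_sub_rev]
    linarith
  have hd₀ : (MeromorphicOn.divisor K (closedBall z |(3 : ℝ)|) z₀ : ℝ) = m := by
    rw [MeromorphicOn.divisor_apply hmerOn hz₀, (hK.analyticAt z₀).meromorphicOrderAt_eq, hm]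
    simp
  have hpos : 0 < ‖z - z₀‖ := by
    rw [norm_pos_iff, sub_ne_zero]
    exact hne
  have hlog : 1 ≤ Real.log (3 * ‖z - z₀‖⁻¹) := by
    rw [Real.le_log_iff_exp_le (by positivity)]
    have h2 : (1 : ℝ) ≤ ‖z - z₀‖⁻¹ := (one_le_inv₀ hpos).2 h1
    have h3 := Real.exp_one_lt_d9
    nlinarith
  have h4 : (m : ℝ) ≤ (MeromorphicOn.divisor K (closedBall z |(3 : ℝ)|) z₀ : ℝ) * Real.log (3 * ‖z - z₀‖⁻¹) := by
    rw [hd₀]
    exact le_mul_of_one_le_right (Nat.cast_nonneg _) hlog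
  rw [hdz, (hK.analyticAt z).meromorphicTrailingCoeffAt_of_ne_zero hz] at hJ
  push_cast at hJ
  linarith

/-- the mean value inequality for `log ‖a‖` -/
private theorem log_norm_le_cA {a : ℂ → ℂ} {z : ℂ} {s : ℝ} (hs : 0 < s) (ha : AnalyticOnNhd ℂ a (closedBall z s)) (ha0 : a z ≠ 0) :
    Real.log ‖a z‖ ≤ Real.circleAverage (fun w => Real.log ‖a w‖) z s := by
  have har : |s| = s := abs_of_pos hs
  have hana : AnalyticOnNhd ℂ a (closedBall z |s|) := by rwa [har]
  rw [AnalyticOnNhd.circleAverage_log_norm hs.ne' hana ha0]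
  have h1 : 0 ≤ ∑ᶠ u, (MeromorphicOn.divisor a (closedBall z |s|) u : ℝ) * Real.log (s * ‖z - u‖⁻¹) := by
    apply finsum_nonneg
    intro u
    by_cases hu : u ∈ closedBall z |s|
    · apply mul_nonneg
      · have := MeromorphicOn.AnalyticOnNhd.divisor_nonneg hana u
        exact_mod_cast this
      · by_cases huc : u = z
        · simp [huc]
        · apply Real.log_nonneg
          have h2 : 0 < ‖z - u‖ := by
            rw [norm_pos_iff, sub_ne_zero]
            exact fun h => huc h.symm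
          have h3 : ‖z - u‖ ≤ s := by
            rw [mem_closedBall, dist_eq_norm, abs_of_pos hs, norm_sub_rev] at hu
            exact hu
          rw [← div_eq_mul_inv, le_div_iff₀ h2]
          linarith
    · have : MeromorphicOn.divisor a (closedBall z |s|) u = 0 := Function.locallyFinsuppWithin.apply_eq_zero_of_notMem _ hu
      simp [this]
  linarith

/-- the largest coordinate -/
private theorem tt_co (x : EN n') : ∃ i, ‖x‖ ≤ (n' + 1) * ‖x i‖ := by
  obtain ⟨i, hi⟩ := Finite.exists_max fun i => ‖x i‖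
  refine ⟨i, ?_⟩
  rw [← pow_le_pow_iff_left₀ (norm_nonneg _) (by positivity) two_ne_zero, EuclideanSpace.norm_sq_eq]
  have h1 : ∑ j, ‖x j‖ ^ 2 ≤ (Finset.univ : Finset (Fin (n' + 1))).card • ‖x i‖ ^ 2 :=
    Finset.sum_le_card_nsmul _ _ _ fun j _ => pow_le_pow_left₀ (norm_nonneg _) (hi j) 2
  rw [Finset.card_univ, Fintype.card_fin, nsmul_eq_mul] at h1
  refine h1.trans ?_
  rw [mul_pow]
  refine mul_le_mul_of_nonneg_right ?_ (by positivity)
  push_cast
  nlinarith [(Nat.cast_nonneg n' : (0 : ℝ) ≤ n')]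

theorem tt_gh (P : PD Λ D Bad θ W) (hn : n + n' = d) {δ A ρ : ℝ} (hδ : 0 < δ) (hρ : 0 < ρ) : ∃ T : ℝ, ∀ y a : Vd (k + 1), ‖a‖ ≤ A → ∀ (G : ℂ → EN n) (H : ℂ → EN n'), GH θ y a G H →
    ∀ z : ℂ, y + z • a ∈ Gd D δ → TT G z ρ ≤ T := by
  subst hn
  obtain ⟨C₁, hC₁, hup⟩ := tv_up P
  obtain ⟨c, hc, hlo⟩ := tv_lo P hδ
  obtain ⟨c₂, hc₂, hml⟩ := mul_lo n n'
  obtain ⟨C₃, hC₃, hmu⟩ := mul_up n n'
  refine ⟨Real.log C₁ - Real.log c₂ - Real.log c + Real.log C₃ + Real.log (n' + 1) + ρ ^ 2 * (∑ i, ‖W i‖ ^ 2) * A ^ 2, fun y a ha G H hGH z hz => ?_⟩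
  have hF : ∀ (w : ℂ) (v : EN 1), bf (tv θ (y + w • a)) v = bf (G w) v * bf (H w) v := fun w v => by
    rw [bf_tv]
    exact hGH.mul w v
  have hnG : ∀ ζ, 0 < ‖G ζ‖ := fun ζ => norm_pos_iff.2 (hGH.G_ne ζ)
  have hFz := hlo _ hz
  have hFz' := hFz.trans (hmu _ _ _ (hF z))
  have hHz : 0 < ‖H z‖ := by
    rcases (norm_nonneg (H z)).eq_or_lt with h | h
    · rw [← h, mul_zero, mul_zero] at hFz'
      exact absurd hFz' (not_le.2 (by positivity))
    · exact h
  obtain ⟨i, hi⟩ := tt_co (H z)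
  set g : ℂ → ℂ := fun ζ => H ζ i with hgdef
  have hg : Differentiable ℂ g := (EuclideanSpace.proj i : EN n' →L[ℂ] ℂ).differentiable.comp hGH.H_diff
  have hgz : 0 < ‖g z‖ := by
    rcases (norm_nonneg (g z)).eq_or_lt with h | h
    · have h2 : ‖H z i‖ = 0 := h.symm
      rw [h2, mul_zero] at hi
      exact absurd hi (not_le.2 hHz)
    · exact h
  have hgz0 : g z ≠ 0 := norm_pos_iff.1 hgz
  have hgle : ∀ w, ‖g w‖ ≤ ‖H w‖ := fun w => PiLp.norm_apply_le (H w) i
  obtain ⟨hIW, hW⟩ := tt_wt W (y := y) ha (z := z) hρ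
  have hIG : CircleIntegrable (fun w => Real.log ‖G w‖) z ρ :=
    (hGH.G_diff.continuous.norm.log fun w => (hnG w).ne').continuousOn.circleIntegrable hρ.le
  have hIg := tt_int (z := z) hρ hg
  have hIc : CircleIntegrable (fun _ : ℂ => Real.log C₁ - Real.log c₂) z ρ := circleIntegrable_const _ _ _
  have hmono : Real.circleAverage (fun w => Real.log ‖G w‖) z ρ ≤ Real.circleAverage (fun w => (Real.log C₁ - Real.log c₂) + wt W (y + w • a) - Real.log ‖g w‖) z ρ := by
    refine tt_mono hρ hIG ((hIc.fun_add hIW).fun_sub hIg) ?_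
    filter_upwards [tt_codisc hρ hg hgz0] with w h1
    have h3 : 0 < ‖g w‖ := norm_pos_iff.2 h1
    have h4 : c₂ * (‖G w‖ * ‖g w‖) ≤ C₁ * Real.exp (wt W (y + w • a)) := by
      refine le_trans (mul_le_mul_of_nonneg_left (mul_le_mul_of_nonneg_left (hgle w) (hnG w).le) hc₂.le) ?_
      exact (hml _ _ _ (hF w)).trans (hup _)
    have h5 := Real.log_le_log (by have := hnG w; positivity) h4
    rw [Real.log_mul hc₂.ne' (mul_pos (hnG w) h3).ne', Real.log_mul (hnG w).ne' h3.ne', Real.log_mul hC₁.ne' (Real.exp_pos _).ne', Real.log_exp] at h5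
    linarith
  rw [Real.circleAverage_fun_sub (hIc.fun_add hIW) hIg, Real.circleAverage_fun_add hIc hIW, Real.circleAverage_const] at hmono
  have hJ : Real.log ‖g z‖ ≤ Real.circleAverage (fun w => Real.log ‖g w‖) z ρ := log_norm_le_cA hρ (fun w _ => hg.analyticAt w) hgz0
  have h6 := Real.log_le_log (by positivity) hFz'
  rw [Real.log_mul hc.ne' (Real.exp_pos _).ne', Real.log_exp, Real.log_mul hC₃.ne' (mul_pos (hnG z) hHz).ne', Real.log_mul (hnG z).ne' hHz.ne'] at h6
  have h7 := Real.log_le_log hHz hi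
  rw [Real.log_mul (by positivity) hgz.ne'] at h7
  rw [TT]
  linarith

theorem mult_gh (P : PD Λ D Bad θ W) (hn : n + n' = d) (hle : n ≤ n') {a : Vd (k + 1)} (ha : a ≠ 0) : ∃ M : ℕ, ∀ (y : Vd (k + 1)) (G : ℂ → EN n) (H : ℂ → EN n'), GH θ y a G H →
    ∀ z, analyticOrderAt (fun z => rs (G z) (H z)) z ≤ (M : ℕ∞) := by
  have hs : (0 : ℝ) < 3 := by norm_num
  obtain ⟨δ, hδ, hcirc⟩ := P.circ (A₁ := ‖a‖) (A₂ := ‖a‖) (ρ := 1) (norm_pos_iff.2 ha) one_pos
  obtain ⟨c, hc, hlo⟩ := rs_lo P hn hle hδ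
  obtain ⟨C, hC, hup⟩ := rs_up P hn hle
  obtain ⟨T, hT⟩ := tt_gh P hn (A := ‖a‖) hδ hs
  obtain ⟨B, hB⟩ : ∃ B : ℝ, B = Real.log C - Real.log c + ((n' - n : ℕ) : ℝ) * T + n * (3 ^ 2 * (∑ i, ‖W i‖ ^ 2) * ‖a‖ ^ 2) := ⟨_, rfl⟩
  refine ⟨⌈B⌉₊, fun y G H hGH z₀ => ?_⟩
  obtain ⟨K, hKdef⟩ : ∃ K : ℂ → ℂ, K = fun z => rs (G z) (H z) := ⟨_, rfl⟩
  have hK : Differentiable ℂ K := by
    rw [hKdef]
    exact Differentiable.comp (g := fun p : EN n × EN n' => rs p.1 p.2) (f := fun z : ℂ => (G z, H z)) rs_diff (hGH.G_diff.prodMk hGH.H_diff)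
  rw [← hKdef]
  obtain ⟨s, hs0, hs1, hsG⟩ := hcirc (y + z₀ • a) a le_rfl le_rfl
  obtain ⟨z, hz⟩ : ∃ z : ℂ, z = z₀ + s := ⟨_, rfl⟩
  have hzs : z - z₀ = s := by
    rw [hz]
    ring
  have hzn : ‖z - z₀‖ = s := by
    rw [hzs, Complex.norm_real, Real.norm_of_nonneg hs0.le]
  have hzG : y + z • a ∈ Gd D δ := by
    have h1 := hsG (s : ℂ) (by rw [Complex.norm_real, Real.norm_of_nonneg hs0.le])
    rw [hz, add_smul, ← add_assoc]
    exact h1
  have hnG : ∀ ζ, 0 < ‖G ζ‖ := fun ζ => norm_pos_iff.2 (hGH.G_ne ζ)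
  have hlow : c * ‖G z‖ ^ (n' - n) * Real.exp (n * wt W (y + z • a)) ≤ ‖K z‖ := by
    rw [hKdef]
    exact hlo _ hzG _ _ (hGH.mul z)
  have hKup : ∀ w, ‖K w‖ ≤ C * ‖G w‖ ^ (n' - n) * Real.exp (n * wt W (y + w • a)) := by
    rw [hKdef]
    exact fun w => hup _ _ _ (hGH.G_ne w) (hGH.mul w)
  have hKz : K z ≠ 0 := by
    intro h
    rw [h, norm_zero] at hlow
    exact absurd hlow (not_le.2 (by have := hnG z; positivity))
  have hne : z ≠ z₀ := by
    intro h
    rw [h, sub_self, norm_zero] at hzn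
    exact hs0.ne hzn
  -- finite order
  have hord : analyticOrderAt K z₀ ≠ ⊤ := by
    intro h
    rw [analyticOrderAt_eq_top] at h
    have h1 : AnalyticOnNhd ℂ K Set.univ := fun w _ => hK.analyticAt w
    exact hKz (h1.eqOn_zero_of_preconnected_of_eventuallyEq_zero isPreconnected_univ (Set.mem_univ z₀) h (Set.mem_univ z))
  obtain ⟨m, hm⟩ := ENat.ne_top_iff_exists.1 hord
  have hJ := order_le hK hKz (by rw [hzn]; exact hs1) hne hm.symm
  -- the upper bound
  have hIG : CircleIntegrable (fun w => Real.log ‖G w‖) z 3 :=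
    (hGH.G_diff.continuous.norm.log fun w => (hnG w).ne').continuousOn.circleIntegrable hs.le
  obtain ⟨hIW, hW⟩ := tt_wt W (y := y) (a := a) le_rfl (z := z) hs
  have hIK := tt_int (z := z) hs hK
  have hIc : CircleIntegrable (fun _ : ℂ => Real.log C) z 3 := circleIntegrable_const _ _ _
  have hIG2 : CircleIntegrable (fun w => ((n' - n : ℕ) : ℝ) * Real.log ‖G w‖) z 3 := hIG.const_mul _
  have hIW2 : CircleIntegrable (fun w : ℂ => (n : ℝ) * wt W (y + w • a)) z 3 := hIW.const_mul _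
  have hmono : Real.circleAverage (fun w => Real.log ‖K w‖) z 3 ≤
      Real.circleAverage (fun w => Real.log C + ((n' - n : ℕ) : ℝ) * Real.log ‖G w‖ + (n : ℝ) * wt W (y + w • a)) z 3 := by
    refine tt_mono hs hIK ((hIc.fun_add hIG2).fun_add hIW2) ?_
    filter_upwards [tt_codisc hs hK hKz] with w h1
    have h3 : 0 < ‖K w‖ := norm_pos_iff.2 h1
    have h5 := Real.log_le_log h3 (hKup w)
    rw [Real.log_mul (mul_pos hC (pow_pos (hnG w) _)).ne' (Real.exp_pos _).ne', Real.log_mul hC.ne' (pow_pos (hnG w) _).ne', Real.log_exp, Real.log_pow] at h5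
    exact h5
  rw [Real.circleAverage_fun_add (hIc.fun_add hIG2) hIW2, Real.circleAverage_fun_add hIc hIG2, Real.circleAverage_const] at hmono
  have hsm : Real.circleAverage (fun w => ((n' - n : ℕ) : ℝ) * Real.log ‖G w‖) z 3 = ((n' - n : ℕ) : ℝ) * Real.circleAverage (fun w => Real.log ‖G w‖) z 3 := by
    have := Real.circleAverage_fun_smul (a := ((n' - n : ℕ) : ℝ)) (f := fun w => Real.log ‖G w‖) (c := z) (R := 3)
    simpa [smul_eq_mul] using this
  have hsm2 : Real.circleAverage (fun w : ℂ => (n : ℝ) * wt W (y + w • a)) z 3 = (n : ℝ) * Real.circleAverage (fun w : ℂ => wt W (y + w • a)) z 3 := by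
    have := Real.circleAverage_fun_smul (a := (n : ℝ)) (f := fun w : ℂ => wt W (y + w • a)) (c := z) (R := 3)
    simpa [smul_eq_mul] using this
  rw [hsm, hsm2] at hmono
  have hTT := hT y a le_rfl G H hGH z hzG
  unfold TT at hTT
  have h6 := Real.log_le_log (by have := hnG z; positivity) hlow
  rw [Real.log_mul (mul_pos hc (pow_pos (hnG z) _)).ne' (Real.exp_pos _).ne', Real.log_mul hc.ne' (pow_pos (hnG z) _).ne', Real.log_exp, Real.log_pow] at h6
  have h7 : ((n' - n : ℕ) : ℝ) * (Real.circleAverage (fun w => Real.log ‖G w‖) z 3 - Real.log ‖G z‖) ≤ ((n' - n : ℕ) : ℝ) * T :=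
    mul_le_mul_of_nonneg_left hTT (Nat.cast_nonneg _)
  have h7' : (n : ℝ) * Real.circleAverage (fun w : ℂ => wt W (y + w • a)) z 3 ≤ n * (wt W (y + z • a) + 3 ^ 2 * (∑ i, ‖W i‖ ^ 2) * ‖a‖ ^ 2) :=
    mul_le_mul_of_nonneg_left hW (Nat.cast_nonneg _)
  have h8 : (m : ℝ) ≤ B := by
    rw [hB]
    rw [mul_sub] at h7
    rw [mul_add] at h7'
    linarith
  rw [← hm]
  have h9 : (m : ℝ) ≤ (⌈B⌉₊ : ℝ) := h8.trans (Nat.le_ceil B)
  exact_mod_cast h9

end Pool.Agent.TM

end

section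

/-!
# TM NoGH: there is no such factorization

As `PX/NoR.lean` (`core`, `PD.no_root`), with `K z = rs (G z) (H z)`, `κ z = ‖(fun j => (G z j) ^ (n' - n) / K z)‖ * exp (n * wt W (y + z a))`, `j : Fin (n + 1)` in the place of `Fin 2`, the exponent `n' - n > 0` in the place of `d - 2`, the weight `n * wt W`, `n > 0`, in the place of `wt W`
(for the lemma `kmax` use the weight `n * wt W = wt W'`, `W' i = √n • W i`), `rs_lo` and `mult_gh` in the place of `grad_lo` and `mult`.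
-/

set_option autoImplicit false

open Topology Filter Metric

namespace Pool.Agent.TM

open Pool.Agent.H36.BP (EN)
open Pool.Agent.AD (Vd)
open Pool.Agent.TG (Lat Gd)
open Pool.Agent.G3 (wt TT)
open Pool.Agent.G4.A (LG LC exists_lc hits_closed)
open Pool.Agent.PX (Fo dt PD)

variable {k d r n m n' : ℕ} {Λ : AddSubgroup (Vd (k + 1))} {D : Set (Vd (k + 1))} {Bad : Vd (k + 1) → Set (Vd (k + 1))} {θ : Fin (d + 1) → Vd (k + 1) → ℂ} {W : Fin r → Vd (k + 1) →L[ℂ] ℂ}

/-- the weighted norm of a vector of functions -/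
private noncomputable def kp (W : Fin r → Vd (k + 1) →L[ℂ] ℂ) (F : Fin (n + 1) → ℂ → ℂ) (y a : Vd (k + 1)) (x : ℂ) : ℝ :=
  ‖(fun j => F j x : Fin (n + 1) → ℂ)‖ * Real.exp (wt W (y + x • a))

private theorem kp_nonneg (F : Fin (n + 1) → ℂ → ℂ) (y a : Vd (k + 1)) (x : ℂ) : 0 ≤ kp W F y a x := mul_nonneg (norm_nonneg _) (Real.exp_pos _).le

private theorem nsq_add (A h : ℂ) : ‖A + h‖ ^ 2 = ‖A‖ ^ 2 + (2 * (starRingEnd ℂ) A * h).re + ‖h‖ ^ 2 := by
  rw [Complex.sq_norm, Complex.sq_norm, Complex.sq_norm, Complex.normSq_apply, Complex.normSq_apply, Complex.normSq_apply]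
  simp only [Complex.add_re, Complex.add_im, Complex.mul_re, Complex.mul_im, Complex.conj_re, Complex.conj_im, Complex.re_ofNat, Complex.im_ofNat]
  ring

/-- the weight along a line is a quadratic polynomial -/
private theorem qexp (W : Fin r → Vd (k + 1) →L[ℂ] ℂ) (y a : Vd (k + 1)) (z : ℂ) :
    ∃ L : ℂ, ∀ h : ℂ, wt W (y + (z + h) • a) = wt W (y + z • a) + (L * h).re + wt W a * ‖h‖ ^ 2 := by
  refine ⟨∑ i, 2 * (starRingEnd ℂ) (W i (y + z • a)) * W i a, fun h => ?_⟩
  simp only [wt]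
  rw [Finset.sum_mul, Complex.re_sum, Finset.sum_mul, ← Finset.sum_add_distrib, ← Finset.sum_add_distrib]
  refine Finset.sum_congr rfl fun i _ => ?_
  have e : W i (y + (z + h) • a) = W i (y + z • a) + h * W i a := by
    rw [add_smul, ← add_assoc, map_add, map_smul, smul_eq_mul]
  rw [e, nsq_add, norm_mul, mul_pow]
  have e2 : 2 * (starRingEnd ℂ) (W i (y + z • a)) * (h * W i a) = 2 * (starRingEnd ℂ) (W i (y + z • a)) * W i a * h := by ring
  rw [e2]
  ring

/-- the maximum principle -/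
private theorem kmax {F : Fin (n + 1) → ℂ → ℂ} {y a : Vd (k + 1)} {z : ℂ} {s s' : ℝ} (hs : 0 < s) (hs' : s < s') (hF : ∀ j, ∀ x ∈ closedBall z s, DifferentiableAt ℂ (F j) x)
    {g : ℂ → ℂ} (hg : DifferentiableOn ℂ g (ball z s')) {S : ℝ} (hS : ∀ w : ℂ, dist w z = s → kp W F y a w * ‖g w‖ ≤ S) :
    kp W F y a z * ‖g z‖ ≤ Real.exp (-(wt W a * s ^ 2)) * S := by
  obtain ⟨L, hL⟩ := qexp W y a z
  have hQL : ∀ x : ℂ, dist x z = s → wt W (y + x • a) = wt W (y + z • a) + (L * (x - z)).re + wt W a * s ^ 2 := by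
    intro x hx
    have h1 := hL (x - z)
    rw [add_sub_cancel] at h1
    rw [← dist_eq_norm, hx] at h1
    exact h1
  have hS0 : 0 ≤ S := by
    have h1 := hS (z + s) (by rw [dist_eq_norm, add_sub_cancel_left, Complex.norm_real, Real.norm_eq_abs, abs_of_pos hs])
    exact (mul_nonneg (kp_nonneg F y a _) (norm_nonneg _)).trans h1
  have hj : ∀ j, ‖F j z‖ * ‖g z‖ ≤ Real.exp (-wt W (y + z • a) - wt W a * s ^ 2) * S := by
    intro j
    set H : ℂ → ℂ := fun x => F j x * g x * Complex.exp (L * (x - z)) with hH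
    have hHd : DiffContOnCl ℂ H (ball z s) := by
      have h1 : ∀ x ∈ closedBall z s, DifferentiableAt ℂ H x := by
        intro x hx
        have h2 : DifferentiableAt ℂ g x := hg.differentiableAt (isOpen_ball.mem_nhds (closedBall_subset_ball hs' hx))
        have h3 : DifferentiableAt ℂ (fun x : ℂ => Complex.exp (L * (x - z))) x := by fun_prop
        exact ((hF j x hx).mul h2).mul h3
      refine ⟨fun x hx => (h1 x (ball_subset_closedBall hx)).differentiableWithinAt, ?_⟩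
      rw [closure_ball z hs.ne']
      exact fun x hx => (h1 x hx).continuousAt.continuousWithinAt
    have h4 : ‖H z‖ ≤ Real.exp (-wt W (y + z • a) - wt W a * s ^ 2) * S := by
      refine Complex.norm_le_of_forall_mem_frontier_norm_le isBounded_ball hHd (fun x hx => ?_) (subset_closure (mem_ball_self hs))
      rw [frontier_ball z hs.ne'] at hx
      have hxr : dist x z = s := mem_sphere.1 hx
      have h5 := hS x hxr
      have h6 : ‖H x‖ = ‖F j x‖ * ‖g x‖ * Real.exp (L * (x - z)).re := by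
        rw [hH]
        simp only
        rw [norm_mul, norm_mul, Complex.norm_exp]
      have h7 : (L * (x - z)).re = wt W (y + x • a) + (-wt W (y + z • a) - wt W a * s ^ 2) := by
        rw [hQL x hxr]
        ring
      rw [h6, h7, Real.exp_add]
      have h8 : ‖F j x‖ ≤ ‖(fun j => F j x : Fin (n + 1) → ℂ)‖ := norm_le_pi_norm (fun j => F j x : Fin (n + 1) → ℂ) j
      calc ‖F j x‖ * ‖g x‖ * (Real.exp (wt W (y + x • a)) * Real.exp (-wt W (y + z • a) - wt W a * s ^ 2))
          ≤ ‖(fun j => F j x : Fin (n + 1) → ℂ)‖ * ‖g x‖ * (Real.exp (wt W (y + x • a)) * Real.exp (-wt W (y + z • a) - wt W a * s ^ 2)) := by gcongr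
        _ = Real.exp (-wt W (y + z • a) - wt W a * s ^ 2) * (kp W F y a x * ‖g x‖) := by
            rw [kp]
            ring
        _ ≤ Real.exp (-wt W (y + z • a) - wt W a * s ^ 2) * S := mul_le_mul_of_nonneg_left h5 (Real.exp_pos _).le
    have h5 : ‖H z‖ = ‖F j z‖ * ‖g z‖ := by
      rw [hH]
      simp only
      rw [sub_self, mul_zero, Complex.exp_zero, mul_one, norm_mul]
    rwa [h5] at h4
  have hall : ‖(fun j => F j z : Fin (n + 1) → ℂ)‖ * ‖g z‖ ≤ Real.exp (-wt W (y + z • a) - wt W a * s ^ 2) * S := by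
    rcases eq_or_ne (g z) 0 with h0 | h0
    · rw [h0, norm_zero, mul_zero]
      positivity
    · have hg0 : 0 < ‖g z‖ := norm_pos_iff.2 h0
      rw [← le_div_iff₀ hg0, pi_norm_le_iff_of_nonneg (by positivity)]
      intro j
      rw [le_div_iff₀ hg0]
      exact hj j
  have e : Real.exp (-wt W (y + z • a) - wt W a * s ^ 2) = Real.exp (-(wt W a * s ^ 2)) * (Real.exp (wt W (y + z • a)))⁻¹ := by
    rw [← Real.exp_neg, ← Real.exp_add]
    congr 1
    ring
  calc kp W F y a z * ‖g z‖ = (‖(fun j => F j z : Fin (n + 1) → ℂ)‖ * ‖g z‖) * Real.exp (wt W (y + z • a)) := by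
        rw [kp]
        ring
    _ ≤ (Real.exp (-wt W (y + z • a) - wt W a * s ^ 2) * S) * Real.exp (wt W (y + z • a)) := mul_le_mul_of_nonneg_right hall (Real.exp_pos _).le
    _ = Real.exp (-(wt W a * s ^ 2)) * S := by
        rw [e]
        have := (Real.exp_pos (wt W (y + z • a))).ne'
        field_simp

private theorem fin_of_card {T : Set ℂ} {b : ℝ} (h : ∀ S : Finset ℂ, (∀ z ∈ S, z ∈ T) → (S.card : ℝ) ≤ b) : T.Finite ∧ (T.ncard : ℝ) ≤ b := by
  have hf : T.Finite := by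
    by_contra hinf
    obtain ⟨S, hST, hSc⟩ := Set.Infinite.exists_subset_card_eq hinf (⌊b⌋₊ + 1)
    have h1 := h S (fun z hz => hST hz)
    rw [hSc] at h1
    push_cast at h1
    have := Nat.lt_floor_add_one b
    linarith
  refine ⟨hf, ?_⟩
  have h1 := h hf.toFinset (fun z hz => hf.mem_toFinset.1 hz)
  rwa [← Set.ncard_eq_toFinset_card T hf] at h1

private theorem few_ncard {B : Set (Vd (k + 1))} {a : Vd (k + 1)} (hL : LG Λ D B a) (y : Vd (k + 1)) {ε : ℝ} (hε : 0 < ε) :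
    ∃ C : ℝ, ∀ (z : ℂ) (R : ℝ), 0 ≤ R → ({x : ℂ | y + x • a ∈ B} ∩ closedBall z R).Finite ∧
    ((({x : ℂ | y + x • a ∈ B} ∩ closedBall z R).ncard : ℕ) : ℝ) ≤ ε * R ^ 2 + C := by
  obtain ⟨C, hC⟩ := hL.few ε hε
  refine ⟨C, fun z R hR => fin_of_card fun S hS => ?_⟩
  have h1 := hC (y + z • a) R hR (S.image fun x => x - z) (fun x hx => by
    obtain ⟨x', hx', rfl⟩ := Finset.mem_image.1 hx
    obtain ⟨h2, h3⟩ := hS x' hx'
    rw [mem_closedBall, dist_eq_norm] at h3
    have e : y + z • a + (x' - z) • a = y + x' • a := by rw [sub_smul]; abel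
    exact ⟨h3, by rw [e]; exact h2⟩)
  rwa [Finset.card_image_of_injective S (fun x x' h => by simpa using h)] at h1

/-- the product which removes the poles -/
private theorem div_diff {P₁ K : ℂ → ℂ} (hP : Differentiable ℂ P₁) (hK : Differentiable ℂ K) {M : ℕ} {x : ℂ} (hM : analyticOrderAt K x ≤ (M : ℕ∞))
    (hx : K x ≠ 0 ∨ ∃ Q : ℂ → ℂ, Differentiable ℂ Q ∧ ∀ w, P₁ w = (w - x) ^ (M + 1) * Q w) : DifferentiableAt ℂ (fun w => P₁ w / K w) x := by
  rcases hx with hx | ⟨Q, hQ, hPQ⟩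
  · exact (hP x).div (hK x) hx
  · have hKa : AnalyticAt ℂ K x := hK.analyticAt x
    have hne : analyticOrderAt K x ≠ ⊤ := fun h => by
      rw [h] at hM
      exact absurd hM (by simp)
    obtain ⟨m, hm⟩ := ENat.ne_top_iff_exists.1 hne
    have hmM : m ≤ M := by
      rw [← hm] at hM
      exact_mod_cast hM
    obtain ⟨K₁, hK₁, hK₁0, hKK⟩ := hKa.analyticOrderAt_eq_natCast.1 hm.symm
    have h1 : DifferentiableAt ℂ (fun w => (w - x) ^ (M + 1 - m) * Q w / K₁ w) x := by
      refine DifferentiableAt.div (DifferentiableAt.mul (by fun_prop) (hQ x)) hK₁.differentiableAt hK₁0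
    refine h1.congr_of_eventuallyEq ?_
    filter_upwards [hKK, hK₁.continuousAt.eventually_ne hK₁0] with w hw hw0
    rw [hPQ, hw, smul_eq_mul]
    by_cases hwx : w = x
    · subst hwx
      have h2 : M + 1 - m ≠ 0 := by omega
      simp [h2]
    · have h2 : (w - x) ^ m ≠ 0 := pow_ne_zero _ (sub_ne_zero.2 hwx)
      have h3 : (w - x) ^ (M + 1) = (w - x) ^ m * (w - x) ^ (M + 1 - m) := by
        rw [← pow_add]
        congr 1
        omega
      rw [h3]
      field_simp

/-- the weight `n * wt W` -/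
private theorem exists_wt (W : Fin r → Vd (k + 1) →L[ℂ] ℂ) (n : ℕ) : ∃ W' : Fin r → Vd (k + 1) →L[ℂ] ℂ, ∀ x, wt W' x = n * wt W x := by
  refine ⟨fun i => ((Real.sqrt n : ℝ) : ℂ) • W i, fun x => ?_⟩
  unfold wt
  rw [Finset.mul_sum]
  refine Finset.sum_congr rfl fun i _ => ?_
  rw [_root_.smul_apply, smul_eq_mul, norm_mul, mul_pow, Complex.norm_real, Real.norm_eq_abs, sq_abs, Real.sq_sqrt (Nat.cast_nonneg n)]

/-- the case of a unit vector `a` -/
private theorem core (P : PD Λ D Bad θ W) (hn : n + n' = d) (h0 : 0 < n) (hlt' : n < n') {B : Set (Vd (k + 1))} {y a : Vd (k + 1)} (hL : LG Λ D B a) {G : ℂ → EN n} {H : ℂ → EN n'} (hGH : GH θ y a G H)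
    (hK0' : ∀ z : ℂ, y + z • a ∉ B → rs (G z) (H z) ≠ 0) : False := by
  have hG : Differentiable ℂ G := hGH.G_diff
  have hG0 : ∀ z, G z ≠ 0 := hGH.G_ne
  obtain ⟨K, hKdef⟩ : ∃ K : ℂ → ℂ, K = fun z => rs (G z) (H z) := ⟨_, rfl⟩
  have hKz : ∀ z, K z = rs (G z) (H z) := fun z => by rw [hKdef]
  have hK : Differentiable ℂ K := by
    rw [hKdef]
    have h1 := Differentiable.comp (g := fun p : EN n × EN n' => rs p.1 p.2) (f := fun z => (G z, H z)) (rs_diff (n := n) (m := n')) (hGH.G_diff.prodMk hGH.H_diff)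
    exact h1
  have hK0 : ∀ z : ℂ, y + z • a ∉ B → K z ≠ 0 := fun z hz => by
    rw [hKz]
    exact hK0' z hz
  obtain ⟨W', hW'⟩ : ∃ W' : Fin r → Vd (k + 1) →L[ℂ] ℂ, ∀ x, wt W' x = n * wt W x := exists_wt W n
  have ha : ‖a‖ = 1 := hL.norm
  have ha0 : a ≠ 0 := by
    rintro rfl
    rw [norm_zero] at ha
    exact zero_ne_one ha
  have hsm : ∀ z : ℂ, ‖z • a‖ = ‖z‖ := fun z => by rw [norm_smul, ha, mul_one]
  have hW₀ : 0 < wt W a := by
    unfold wt
    refine lt_of_le_of_ne (Finset.sum_nonneg fun i _ => sq_nonneg _) fun h => ha0 (P.pos a fun i => ?_)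
    have h1 := (Finset.sum_eq_zero_iff_of_nonneg (fun i _ => sq_nonneg ‖W i a‖)).1 h.symm i (Finset.mem_univ i)
    exact norm_eq_zero.1 (pow_eq_zero_iff (two_ne_zero) |>.1 h1)
  have hW : 0 < wt W' a := by
    rw [hW']
    have : (0 : ℝ) < n := by exact_mod_cast h0
    positivity
  obtain ⟨M, hM⟩ := mult_gh P hn hlt'.le ha0
  have hMz : ∀ z, analyticOrderAt K z ≤ (M : ℕ∞) := by
    rw [hKdef]
    exact hM y G H hGH
  -- the geometry
  obtain ⟨δ, hδ, hlc⟩ := exists_lc hL (ρ := 1 / 8) (by norm_num) le_rfl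
  have hC := hlc δ hδ le_rfl
  have hδρ := hC.δ_le
  have hδ64 : δ ≤ 1 / 64 := by linarith
  set E : Set ℂ := {z : ℂ | y + z • a ∈ B} with hE
  have hEc : IsClosed E := hits_closed hL.iso hL.bad_sub y
  obtain ⟨C₂, hC₂⟩ := few_ncard hL y one_pos
  obtain ⟨M₀, hM₀⟩ : ∃ M₀ : ℕ, M₀ = ⌈1 * (2 : ℝ) ^ 2 + C₂⌉₊ := ⟨_, rfl⟩
  have hM₀' : ∀ z : ℂ, (E ∩ closedBall z 2).ncard ≤ M₀ := by
    intro z
    have h1 := (hC₂ z 2 (by norm_num)).2
    rw [hM₀]
    have h2 := h1.trans (Nat.le_ceil _)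
    exact_mod_cast h2
  -- a point off `D`
  obtain ⟨c, hc⟩ : ∃ c : ℂ, y + c • a ∉ D := by
    have h1 : ∀ᶠ z in 𝓝[≠] (0 : ℂ), y + z • a ∉ D := hL.iso y
    exact h1.exists
  have hcE : c ∉ E := fun h => hc (hL.bad_sub h)
  obtain ⟨d₀, hd₀, hd₁⟩ : ∃ d₀ : ℝ, 0 < d₀ ∧ ∀ e ∈ E, d₀ ≤ dist c e := by
    obtain ⟨d₀, h1, h2⟩ := Metric.isOpen_iff.1 hEc.isOpen_compl c hcE
    refine ⟨d₀, h1, fun e he => ?_⟩
    by_contra h3
    push Not at h3
    exact h2 (mem_ball'.2 h3) he
  obtain ⟨r₀, hr₀, hr₁, hr₂⟩ : ∃ r₀ : ℝ, 0 < r₀ ∧ r₀ ≤ d₀ ∧ r₀ ≤ δ ^ (M₀ + 1) := ⟨min d₀ (δ ^ (M₀ + 1)), lt_min hd₀ (by positivity), min_le_left _ _, min_le_right _ _⟩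
  have hr₃ : r₀ / (2 * δ) * (1 / δ) ^ M₀ ≤ 1 / 2 := by
    have h1 : r₀ / (2 * δ) * (1 / δ) ^ M₀ ≤ δ ^ (M₀ + 1) / (2 * δ) * (1 / δ) ^ M₀ := by gcongr
    refine h1.trans (le_of_eq ?_)
    rw [pow_succ, one_div, inv_pow]
    have := hδ.ne'
    have := pow_ne_zero M₀ hδ.ne'
    field_simp
  have hr₄ : r₀ ≤ 1 / 64 := (hr₂.trans (pow_le_of_le_one hδ.le (by linarith) (Nat.succ_ne_zero _))).trans hδ64
  -- the circles
  obtain ⟨δ₁, hδ₁, hcirc⟩ := hC.circ (r₀ / 4) (by positivity)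
  have hcirc' : ∀ z : ℂ, ∃ s : ℝ, 0 < s ∧ s < r₀ / 4 ∧ ∀ w : ℂ, dist w z = s → y + w • a ∈ Gd D δ₁ := by
    intro z
    obtain ⟨s, h1, h2, h3⟩ := hcirc (y + z • a)
    refine ⟨s, h1, h2, fun w hw => ?_⟩
    have h4 := h3 (w - z) (by rw [← dist_eq_norm, hw])
    have e : y + z • a + (w - z) • a = y + w • a := by rw [sub_smul]; abel
    rwa [e] at h4
  have hcircC : ∀ z : ℂ, ∃ s : ℝ, 0 < s ∧ s ≤ 1 / 4 ∧ ∀ w : ℂ, dist w z = s → ∀ e ∈ E, 4 * δ ≤ dist w e := by
    intro z
    obtain ⟨s, h1, h2, h3⟩ := hC.circC (y + z • a)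
    refine ⟨s, h1, by linarith, fun w hw e he => ?_⟩
    have h4 := h3 (w - z) (by rw [← dist_eq_norm, hw])
    have e1 : y + z • a + (w - z) • a = y + w • a := by rw [sub_smul]; abel
    rw [e1] at h4
    have h5 := h4 (y + e • a) (hL.bad_sub he)
    have e2 : y + w • a - (y + e • a) = (w - e) • a := by rw [sub_smul]; abel
    rw [e2, hsm] at h5
    rwa [dist_eq_norm]
  obtain ⟨c₁, hc₁, hlo⟩ := rs_lo P hn hlt'.le hδ₁
  -- the functions
  set F : Fin (n + 1) → ℂ → ℂ := fun j x => (G x j) ^ (n' - n) / K x with hF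
  have hGj : ∀ j : Fin (n + 1), Differentiable ℂ (fun x => (G x j) ^ (n' - n)) := fun j =>
    ((EuclideanSpace.proj (𝕜 := ℂ) j).differentiable.comp hG).pow _
  have hFd : ∀ j, ∀ x : ℂ, x ∉ E → DifferentiableAt ℂ (F j) x := fun j x hx => (hGj j x).div (hK x) (hK0 x hx)
  -- the bound over `Gd D δ₁`
  have hkb : ∀ w : ℂ, y + w • a ∈ Gd D δ₁ → kp W' F y a w ≤ 1 / c₁ := by
    intro w hw
    have h1 := hlo _ hw (G w) (H w) (hGH.mul w)
    rw [← hKz, ← hW'] at h1
    have hG1 : 0 < ‖G w‖ := norm_pos_iff.2 (hG0 w)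
    have hK1 : 0 < ‖K w‖ := lt_of_lt_of_le (by positivity) h1
    have h2 : ‖(fun j => F j w : Fin (n + 1) → ℂ)‖ ≤ ‖G w‖ ^ (n' - n) / ‖K w‖ := by
      rw [pi_norm_le_iff_of_nonneg (by positivity)]
      intro j
      rw [hF]
      simp only
      rw [norm_div, norm_pow]
      have h3 : ‖G w j‖ ≤ ‖G w‖ := PiLp.norm_apply_le (G w) j
      gcongr
    unfold kp
    calc ‖(fun j => F j w : Fin (n + 1) → ℂ)‖ * Real.exp (wt W' (y + w • a)) ≤ ‖G w‖ ^ (n' - n) / ‖K w‖ * Real.exp (wt W' (y + w • a)) := by gcongr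
      _ ≤ 1 / c₁ := by
        rw [div_mul_eq_mul_div, div_le_div_iff₀ hK1 hc₁, one_mul]
        linarith
  have hlt : ∀ s : ℝ, Real.exp (-(wt W' a * s ^ 2)) ≤ 1 := by
    intro s
    rw [Real.exp_le_one_iff]
    have : 0 ≤ wt W' a * s ^ 2 := by positivity
    linarith
  have hdisc : ∀ z : ℂ, (∀ e ∈ E, r₀ / 2 ≤ dist z e) → ∀ s : ℝ, s ≤ r₀ / 4 → ∀ j, ∀ x ∈ closedBall z s, DifferentiableAt ℂ (F j) x := by
    intro z hz s hs j x hx
    refine hFd j x fun hxB => ?_
    have h1 := hz x hxB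
    rw [mem_closedBall, dist_comm] at hx
    linarith
  have hzero := Pool.Agent.G4.U.ustar (E := E) hEc (fun z R => by
      rcases le_or_gt 0 R with hR | hR
      · exact (hC₂ z R hR).1
      · rw [closedBall_eq_empty.2 hR, Set.inter_empty]
        exact Set.finite_empty) (M := M₀) hM₀' (fun ε hε => by
      obtain ⟨C, hC'⟩ := few_ncard hL y hε
      exact ⟨C, fun z R hR => (hC' z R (by linarith)).2⟩) hδ (by linarith) (ρ := 1 / 2) (by norm_num) le_rfl hr₀ hr₃ (q := Real.exp (-(wt W' a * (r₀ / 4) ^ 2)))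
      (by
        rw [Real.exp_lt_one_iff]
        have : 0 < wt W' a * (r₀ / 4) ^ 2 := by positivity
        linarith) (κ := kp W' F y a) (C₁ := max (1 / c₁) ((2 / r₀) ^ ((M + 1) * M₀))) (kp_nonneg F y a) ?_ ?_ ?_ c (fun e he => hr₁.trans (hd₁ e he))
  · -- the contradiction
    have h1 : (fun j => F j c : Fin (n + 1) → ℂ) = 0 := by
      rw [kp, mul_eq_zero] at hzero
      rcases hzero with h1 | h1
      · exact norm_eq_zero.1 h1
      · exact absurd h1 (Real.exp_pos _).ne'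
    refine hG0 c ?_
    ext j
    have h2 := congrFun h1 j
    rw [hF] at h2
    simp only [Pi.zero_apply, div_eq_zero_iff] at h2
    rcases h2 with h2 | h2
    · exact pow_eq_zero_iff (by omega) |>.1 h2
    · exact absurd h2 (hK0 c hcE)
  · intro z hz
    obtain ⟨s, hs, hs', hcz⟩ := hcirc' z
    have h1 := kmax (W := W') (F := F) (y := y) (a := a) (z := z) (s' := s + 1) hs (by linarith) (hdisc z hz s hs'.le) (g := fun _ => 1) (differentiableOn_const _)
      (S := 1 / c₁) (fun w hw => by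
        rw [norm_one, mul_one]
        exact hkb w (hcz w hw))
    rw [norm_one, mul_one] at h1
    refine h1.trans (le_trans ?_ (le_max_left _ _))
    have : 0 ≤ 1 / c₁ := by positivity
    exact mul_le_of_le_one_left this (hlt s)
  · intro z hz G₁ hG₁ _ T hT
    refine kmax (s' := r₀ / 2) (by positivity) (by linarith) (hdisc z (fun e he => by linarith [hz e he]) _ le_rfl) hG₁ hT
  · intro z hz _ G₁ hG₁ _ T hT
    obtain ⟨s, hs, hs', hcz⟩ := hcircC z
    -- `T` is not negative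
    have hT0 : 0 ≤ T := by
      have h1 : dist (z + s) z = s := by rw [dist_eq_norm, add_sub_cancel_left, Complex.norm_real, Real.norm_eq_abs, abs_of_pos hs]
      refine (mul_nonneg (kp_nonneg F y a _) (norm_nonneg _)).trans (hT (z + s) (by rw [h1]; linarith) fun e he => ?_)
      have := hcz (z + s) h1 e he
      linarith
    -- the exceptional points in the disc
    have hfin : (E ∩ closedBall z (1 / 4)).Finite := (hC₂ z (1 / 4) (by norm_num)).1
    obtain ⟨A, hA⟩ : ∃ A : Finset ℂ, A = hfin.toFinset := ⟨_, rfl⟩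
    have hAm : ∀ e, e ∈ A ↔ e ∈ E ∧ dist e z ≤ 1 / 4 := fun e => by
      rw [hA, Set.Finite.mem_toFinset]
      rfl
    have hAc : A.card ≤ M₀ := by
      rw [hA, ← Set.ncard_eq_toFinset_card _ hfin]
      have hsub : E ∩ closedBall z (1 / 4) ⊆ E ∩ closedBall z 2 :=
        Set.inter_subset_inter_right E (closedBall_subset_closedBall (by norm_num))
      exact (Set.ncard_le_ncard hsub (hC₂ z 2 (by norm_num)).1).trans (hM₀' z)
    set P₁ : ℂ → ℂ := fun w => ∏ e ∈ A, (w - e) ^ (M + 1) with hP₁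
    have hP₁d : Differentiable ℂ P₁ := by
      rw [hP₁]
      fun_prop
    have hdiff : ∀ j, ∀ x ∈ closedBall z s, DifferentiableAt ℂ (fun w => (G w j) ^ (n' - n) * P₁ w / K w) x := by
      intro j x hx
      refine div_diff ((hGj j).mul hP₁d) hK (hMz x) ?_
      by_cases hxE : x ∈ E
      · right
        have hxA : x ∈ A := (hAm x).2 ⟨hxE, by
          rw [mem_closedBall] at hx
          linarith⟩
        refine ⟨fun w => (G w j) ^ (n' - n) * ∏ e ∈ A.erase x, (w - e) ^ (M + 1), (hGj j).mul (by fun_prop), fun w => ?_⟩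
        show (G w j) ^ (n' - n) * ∏ e ∈ A, (w - e) ^ (M + 1) = _
        rw [← Finset.mul_prod_erase A (fun e => (w - e) ^ (M + 1)) hxA]
        ring
      · left
        exact hK0 x hxE
    have hkpP : ∀ w, kp W' (fun j w => (G w j) ^ (n' - n) * P₁ w / K w) y a w = kp W' F y a w * ‖P₁ w‖ := by
      intro w
      unfold kp
      have h1 : (fun j => (G w j) ^ (n' - n) * P₁ w / K w : Fin (n + 1) → ℂ) = P₁ w • (fun j => F j w : Fin (n + 1) → ℂ) := by
        funext j
        rw [Pi.smul_apply, smul_eq_mul, hF]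
        ring
      rw [h1, norm_smul]
      ring
    have h1 := kmax (W := W') (F := fun j w => (G w j) ^ (n' - n) * P₁ w / K w) (y := y) (a := a) (z := z) (s := s) (s' := 1) hs (by linarith) hdiff hG₁ (S := T)
      (fun w hw => by
        rw [hkpP]
        have h2 : ‖P₁ w‖ ≤ 1 := by
          rw [hP₁]
          simp only
          rw [norm_prod]
          refine Finset.prod_le_one (fun e _ => norm_nonneg _) fun e he => ?_
          rw [norm_pow]
          refine pow_le_one₀ (norm_nonneg _) ?_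
          have h3 := ((hAm e).1 he).2
          have h4 := dist_triangle w z e
          rw [dist_comm z e, hw, dist_eq_norm] at h4
          linarith
        have h3 := hT w (by rw [hw]; linarith) fun e he => by
          have := hcz w hw e he
          linarith
        have h4 := kp_nonneg (W := W') F y a w
        calc kp W' F y a w * ‖P₁ w‖ * ‖G₁ w‖ ≤ kp W' F y a w * 1 * ‖G₁ w‖ := by gcongr
          _ ≤ T := by
            rw [mul_one]
            exact h3)
    rw [hkpP] at h1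
    have h2 : kp W' F y a z * ‖P₁ z‖ * ‖G₁ z‖ ≤ T := h1.trans (mul_le_of_le_one_left hT0 (hlt s))
    have h3 : (r₀ / 2) ^ ((M + 1) * M₀) ≤ ‖P₁ z‖ := by
      rw [hP₁]
      simp only
      rw [norm_prod]
      have hr2 : r₀ / 2 ≤ 1 := by linarith
      calc (r₀ / 2) ^ ((M + 1) * M₀) ≤ (r₀ / 2) ^ ((M + 1) * A.card) := pow_le_pow_of_le_one (by positivity) hr2 (Nat.mul_le_mul_left _ hAc)
        _ = ∏ _e ∈ A, (r₀ / 2) ^ (M + 1) := by rw [Finset.prod_const, pow_mul]
        _ ≤ ∏ e ∈ A, ‖(z - e) ^ (M + 1)‖ := by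
          refine Finset.prod_le_prod (fun e _ => by positivity) fun e he => ?_
          rw [norm_pow]
          have h4 := hz e ((hAm e).1 he).1
          rw [dist_eq_norm] at h4
          gcongr
    have h4 : 0 < (r₀ / 2) ^ ((M + 1) * M₀) := by positivity
    have h5 := kp_nonneg (W := W') F y a z
    have h6 : kp W' F y a z * ‖G₁ z‖ * (r₀ / 2) ^ ((M + 1) * M₀) ≤ T := by
      refine le_trans ?_ h2
      calc kp W' F y a z * ‖G₁ z‖ * (r₀ / 2) ^ ((M + 1) * M₀) ≤ kp W' F y a z * ‖G₁ z‖ * ‖P₁ z‖ := by gcongr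
        _ = kp W' F y a z * ‖P₁ z‖ * ‖G₁ z‖ := by ring
    have h7 : kp W' F y a z * ‖G₁ z‖ ≤ (2 / r₀) ^ ((M + 1) * M₀) * T := by
      rw [← le_div_iff₀ h4] at h6
      refine h6.trans (le_of_eq ?_)
      rw [div_eq_inv_mul, ← inv_pow, inv_div]
    exact h7.trans (mul_le_mul_of_nonneg_right (le_max_right _ _) hT0)

theorem no_gh (P : PD Λ D Bad θ W) (hn : n + n' = d) (h0 : 0 < n) (hlt : n < n') {y a : Vd (k + 1)} (ha : a ≠ 0) {G : ℂ → EN n} {H : ℂ → EN n'} (h : GH θ y a G H)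
    (hne : ∀ z : ℂ, y + z • a ∉ Bad a → rs (G z) (H z) ≠ 0) : False := by
  have hn1 : 0 < ‖a‖ := norm_pos_iff.2 ha
  have hnc : (‖a‖ : ℂ) ≠ 0 := by exact_mod_cast hn1.ne'
  set t : ℂ := (‖a‖ : ℂ)⁻¹ with ht
  have ht0 : t ≠ 0 := inv_ne_zero hnc
  have htn : ‖t‖ = ‖a‖⁻¹ := by rw [ht, norm_inv, Complex.norm_real, norm_norm]
  have e : ∀ z : ℂ, z • (t • a) = (z * t) • a := fun z => by rw [smul_smul]
  have hLG : LG Λ D (Bad a) (t • a) :=
    { norm := by rw [norm_smul, htn, inv_mul_cancel₀ hn1.ne']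
      lat := P.lat
      D_closed := P.D_closed
      D_inv := P.D_inv
      bad_sub := P.bad_sub a
      bad_inv := P.bad_inv a
      iso := P.iso (t • a) (smul_ne_zero ht0 ha)
      few := fun ε hε => by
        obtain ⟨C, hC⟩ := P.few a ha (ε * ‖a‖ ^ 2) (by positivity)
        refine ⟨C, fun y' R hR S hS => ?_⟩
        have h1 := hC y' (R / ‖a‖) (by positivity) (S.image fun z => z * t) (fun z hz => by
          obtain ⟨z', hz', rfl⟩ := Finset.mem_image.1 hz
          obtain ⟨h2, h3⟩ := hS z' hz'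
          refine ⟨?_, by rw [← e]; exact h3⟩
          rw [norm_mul, htn, div_eq_mul_inv]
          gcongr)
        rw [Finset.card_image_of_injective S (mul_left_injective₀ ht0)] at h1
        refine h1.trans (le_of_eq ?_)
        rw [div_pow]
        field_simp }
  refine core P hn h0 hlt (y := y) hLG (G := fun z => G (z * t)) (H := fun z => H (z * t)) ⟨h.G_diff.comp (by fun_prop), h.H_diff.comp (by fun_prop), fun z => h.G_ne _, fun z v => ?_⟩ fun z hz => ?_
  · rw [e]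
    exact h.mul _ v
  · rw [e] at hz
    exact hne _ hz

end Pool.Agent.TM

end
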