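import Pool.Agent.H94.PX4.M64
import Pool.Agent.H94.PX4.M78
import Pool.Agent.H94.PX4.M84
import Pool.Agent.H94.PX4.M88
import Pool.Agent.H94.PX4.M90
import Pool.Agent.H94.PX4.TM.Ext
import Pool.Agent.H94.PX4.TM.Good

/-! The parts of this file: TM.HDm, PX.T.Pm. -/

section

/-!
# TM HDm: the data `HD` for `T_m`, and the bound for discs
-/

set_option autoImplicit false

open Topology Filter Metric

namespace Pool.Agent.TM

open Pool.Agent.H36.BP (EN)
open Pool.Agent.H62.EF (MN pr)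
open Pool.Agent.AD (Vd)
open Pool.Agent.TG (Lat Gd)
open Pool.Agent.G3 (wt TT LLift)
open Pool.Agent.PX (Fo Fd dt PD)

variable {k d r n m n' : ℕ} {Λ : AddSubgroup (Vd (k + 1))} {D : Set (Vd (k + 1))} {Bad : Vd (k + 1) → Set (Vd (k + 1))} {θ : Fin (d + 1) → Vd (k + 1) → ℂ} {W : Fin r → Vd (k + 1) →L[ℂ] ℂ}

/-- the limit curve is not contained in the zeros of the resultant -/
theorem no_zr (P : PD Λ D Bad θ W) (hm : 0 < m) (hd : 2 * m < d) {y a : Vd (k + 1)} (ha : a ≠ 0) {𝒰 : Ultrafilter ℕ} {w : ℕ → ℂ → EN m} {h : ℕ → ℂ → Vd (k + 1)} {g : ℂ → MN m} (S : LT m θ D y a 𝒰 w h g) :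
    ¬ HE.Zr (FT m θ) D y a g := by
  intro hZ
  obtain ⟨n, h0, hnm, hnd, hS⟩ := sel P hm ha S hZ
  obtain ⟨n', hn⟩ := Nat.exists_eq_add_of_le hnd
  obtain ⟨G, hG, hG0, hGZ⟩ := ext_g P ha hS
  obtain ⟨H, hGH⟩ := ext_h P hn.symm ha hS hG hG0 hGZ
  refine no_gh P hn.symm h0 (by omega) ha hGH fun z hz => ?_
  by_cases hzD : y + z • a ∈ D
  · exact good P hm ha S hn.symm hGH hGZ hzD hz
  · exact rs_off P hn.symm hzD (hGH.mul z)

theorem an_ft (m : ℕ) (han : ∀ i, Differentiable ℂ (θ i)) : Differentiable ℂ (FT m θ) := by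
  have h1 : Differentiable ℂ fun p : Vd (k + 1) × EN m => (tv θ p.1, p.2) := ((tv_diff han).comp differentiable_fst).prodMk differentiable_snd
  exact Differentiable.comp (g := fun q : EN d × EN m => rs q.1 q.2) (f := fun p : Vd (k + 1) × EN m => (tv θ p.1, p.2)) rs_diff h1

theorem fn_rm (m : ℕ) (θ : Fin (d + 1) → Vd (k + 1) → ℂ) : HE.fn (fun y => RM m (tv θ y)) = FT m θ := by
  funext p
  exact RM_eval _ _

/-- the form over a point off `D` -/
theorem off_roots (P : PD Λ D Bad θ W) {y : Vd (k + 1)} (hy : y ∉ D) : (∃ i, θ i y ≠ 0) ∧ ∃ r : Fin d → EN 1, (∀ i j, i ≠ j → dt (r i) (r j) ≠ 0) ∧ (∀ i, r i ≠ 0 ∧ Fo θ y (r i) = 0) := by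
  have hd : 0 < d := by have := P.deg; omega
  refine ⟨?_, ?_⟩
  · by_contra hn
    push Not at hn
    obtain ⟨v, hv⟩ := P.simple y hy (WithLp.toLp 2 ![1, 0]) (fun h => by
      have := congrArg (fun x : EN 1 => x 0) h
      simp at this) (by
      unfold Fo
      exact Finset.sum_eq_zero fun i _ => by rw [hn i]; ring)
    refine hv ?_
    rw [Pool.Agent.PX.fd_eq]
    exact Finset.sum_eq_zero fun i _ => by rw [hn i]; ring
  · obtain ⟨ρ, r, hρ, -, h1, h2, -⟩ := roots_near hd P.an (P.simple y hy)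
    exact ⟨fun i => r i y, h2 y (mem_ball_self hρ), h1 y (mem_ball_self hρ)⟩

/-- the pieces in the form of `HE.Pc` -/
theorem pc_m (han : ∀ i, Differentiable ℂ (θ i)) {y₀ : Vd (k + 1)} (h : HEF.HasHyperbolicFibre Λ (Set.univ : Set ((Pool.Agent.PXF.Cn (k + 1) ⧸ Λ) × Pool.Agent.H17.PN m)) (fun _ : Fin 1 => fun y => RM m (tv θ y)) y₀) :
    ∃ (s : ℕ) (Q : Fin s → Vd (k + 1) × EN m → ℂ) (e : Fin s → ℕ) (ρ : ℝ), HE.Pc (Set.univ : Set (Vd (k + 1) × EN m)) (fun _ : Fin 1 => FT m θ) y₀ Q e ρ := by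
  obtain ⟨ρ, s, Q, e, hρ, hQ, hQF, hgp⟩ := h
  have hy₀b : y₀ ∈ ball y₀ ρ := mem_ball_self hρ
  refine ⟨s, fun s => HE.fn (Q s), e, ρ, ⟨hρ, fun s => HE.fn_diff (hQ s), fun s y hy c x => HE.fn_hom (hQ s) hy c x, fun s y hy x hx _ hF h4 => ?_, fun G hG hG0 _ hL hs z w => ?_⟩⟩
  · obtain ⟨j, hj⟩ := hQF s y hy (Projectivization.mk ℂ x.ofLp (HE.ofLp_ne hx)) (Set.mem_univ _) (by
      rw [HE.van_mk ((hQ s).homogeneous y hy)]
      exact h4)
    rw [HE.van_mk (RM_hom m _)] at hj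
    refine hF 0 ?_
    rw [← fn_rm]
    exact hj
  · obtain ⟨L, hL⟩ := hL
    have hv : ∀ s z, Pool.Agent.H17.VanishesAt (Q s y₀) (Projectivization.mk ℂ (G z).ofLp (HE.ofLp_ne (hG0 z))) ↔ HE.fn (Q s) (y₀, G z) = 0 := fun s z => HE.van_mk ((hQ s).homogeneous y₀ hy₀b) (HE.ofLp_ne (hG0 z))
    have h5 := hgp _ (HE.brody_of hG hG0 hL) (fun z => Set.mem_univ _) (fun s => by
      rcases hs s with h6 | h6
      · exact Or.inl fun z => (hv s z).2 (h6 z)
      · exact Or.inr fun z h7 => h6 z ((hv s z).1 h7)) z w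
    rw [Projectivization.mk_eq_mk_iff'] at h5
    obtain ⟨c, hc⟩ := h5
    refine ⟨c, ?_⟩
    ext i
    exact (congrFun hc i).symm

theorem wt_sqrt (m : ℕ) (W : Fin r → Vd (k + 1) →L[ℂ] ℂ) (y : Vd (k + 1)) : wt (fun i => (Real.sqrt m : ℂ) • W i) y = m * wt W y := by
  unfold wt
  rw [Finset.mul_sum]
  refine Finset.sum_congr rfl fun i _ => ?_
  rw [ContinuousLinearMap.smul_apply, norm_smul, mul_pow, Complex.norm_real, Real.norm_of_nonneg (Real.sqrt_nonneg _), Real.sq_sqrt (Nat.cast_nonneg m)]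

theorem per_ft (m : ℕ) {e : ℂ} {y l : Vd (k + 1)} (he : ‖e‖ * Real.exp (-wt W (y + l)) = Real.exp (-wt W y)) (h : ∀ i, θ i (y + l) = e * θ i y) :
    ‖e ^ m‖ * Real.exp (-wt (fun i => (Real.sqrt m : ℂ) • W i) (y + l)) = Real.exp (-wt (fun i => (Real.sqrt m : ℂ) • W i) y) ∧ ∀ x : EN m, FT m θ (y + l, x) = e ^ m * FT m θ (y, x) := by
  refine ⟨?_, fun x => ?_⟩
  · rw [wt_sqrt, wt_sqrt]
    have h1 : ∀ t : ℝ, Real.exp (-(m * t)) = Real.exp (-t) ^ m := by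
      intro t
      rw [← Real.exp_nat_mul]
      congr 1
      ring
    rw [h1, h1, norm_pow, ← mul_pow, he]
  · have h1 : tv θ (y + l) = e • tv θ y := by
      ext i
      exact h i
    show rs (tv θ (y + l)) x = _
    rw [h1, rs_smul_left]
    rfl

theorem hd_m (P : PD Λ D Bad θ W) (hm : 0 < m) (hd : 2 * m < d) :
    HE.HD Λ D (Set.univ : Set (Vd (k + 1) × EN m)) (fun _ : Fin 1 => FT m θ) (fun _ => d) (fun _ i => (Real.sqrt m : ℂ) • W i) := by
  refine ⟨P.lat, isClosed_univ, fun _ _ _ _ _ => Set.mem_univ _, fun _ _ _ _ => Set.mem_univ _, fun _ => an_ft m P.an, fun _ => by omega, fun _ c y x => rs_smul_right c _ x, fun _ l hl y => ?_,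
    P.D_closed, P.D_inv, P.iso, fun y a ha g _ _ _ ⟨𝒰, w, h, S⟩ => ⟨0, fun y' hy' => P.pos y' fun i => ?_, no_zr P hm hd ha S⟩, fun y₀ hy₀ => ?_⟩
  · obtain ⟨e, he, h1⟩ := P.per l hl y
    exact ⟨e ^ m, per_ft m he h1⟩
  · have h1 := hy' i
    rw [ContinuousLinearMap.smul_apply, smul_eq_mul, mul_eq_zero] at h1
    exact h1.resolve_left (Complex.ofReal_ne_zero.2 (Real.sqrt_pos.2 (by exact_mod_cast hm)).ne')
  · obtain ⟨h1, r, h2, h3⟩ := off_roots P hy₀
    have hle : 2 * m + 1 ≤ d := hd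
    exact pc_m (Λ := Λ) P.an (fibre_hyp P.an hm h1 (fun i => r (Fin.castLE hle i)) (fun i j hij => h2 _ _ fun h => hij (Fin.castLE_injective hle h)) fun i => (h3 _).2)

theorem bound (P : PD Λ D Bad θ W) (hm : 0 < m) (hd : 2 * m < d) : ∃ C : ℝ, 0 < C ∧ ∀ (w : ℂ → EN m) (h : ℂ → Vd (k + 1)), HE.Cw (Set.univ : Set (Vd (k + 1) × EN m)) (fun _ : Fin 1 => FT m θ) (ball 0 1) w h → ‖deriv h 0‖ ≤ C :=
  (hd_m P hm hd).bound

end Pool.Agent.TM

end

section

/-!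
# PX T Pm: the complement `T` is hyperbolic modulo the fibres over `S`
-/

set_option autoImplicit false

open Topology Filter Metric MvPolynomial
open Pool.Agent.H17 (PN VanishesAt HolomorphicInto puncturedDisc)
open Pool.Agent.H36.BP (EN)
open Pool.Agent.AD (Vd)
open Pool.Agent.PX (tht ex Fo Fd dt PD)
open Pool.Agent.TM (tv rs bf RM FT)
open Pool.Agent.HEF (outside)

noncomputable section

namespace Pool.Agent.COP

variable {k m d r : ℕ} {Λ : Sub k} {F : Poly k 1}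

theorem quasi_ne (hF : IsAmple Λ F) : ∀ l ∈ Λ, ∀ y, ∃ e : ℂ, e ≠ 0 ∧ F (y + l) = C e * F y := by
  obtain ⟨r, W, -, h⟩ := hF
  intro l hl y
  obtain ⟨e, he, h1⟩ := h.quasiPeriodic l hl y
  exact ⟨e, fun h0 => (Real.exp_pos _).ne' (by rw [← he, h0, norm_zero]), h1⟩

theorem fo_eq {y : Cn (k + 1)} (hF : (F y).IsHomogeneous d) (v : EN 1) : Fo (tht d F) y v = eval v.ofLp (F y) := Pool.Agent.PX.eval_form hF v.ofLp

/-- the roots -/
theorem exists_r {y : Cn (k + 1)} (hF : (F y).IsHomogeneous d) {n : ℕ} (h : HasZeros n (F y)) : ∃ r : Fin n → EN 1, (∀ i j, i ≠ j → dt (r i) (r j) ≠ 0) ∧ ∀ i, Fo (tht d F) y (r i) = 0 := by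
  obtain ⟨p, hp, hz⟩ := h
  refine ⟨fun i => WithLp.toLp 2 (p i).rep, fun i j hij h4 => hij (hp ?_), fun i => ?_⟩
  · rw [← (p i).mk_rep, ← (p j).mk_rep]
    by_contra hne
    exact (Pool.Agent.PX.mk_ne (p i).rep_nonzero (p j).rep_nonzero).1 hne (sub_eq_zero.1 h4)
  · rw [fo_eq hF]
    exact hz i

theorem hasZeros_of {y : Cn (k + 1)} (hF : (F y).IsHomogeneous d) {n : ℕ} (r : Fin n → EN 1) (h0 : ∀ i, r i ≠ 0) (hr : ∀ i j, i ≠ j → dt (r i) (r j) ≠ 0) (hz : ∀ i, Fo (tht d F) y (r i) = 0) : HasZeros n (F y) := by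
  have h1 : ∀ i, (r i).ofLp ≠ 0 := fun i => Pool.Agent.HE.ofLp_ne (h0 i)
  refine ⟨fun i => Projectivization.mk ℂ (r i).ofLp (h1 i), fun i j h2 => ?_, fun i => ?_⟩
  · by_contra hij
    exact (Pool.Agent.PX.mk_ne (h1 i) (h1 j)).2 (fun h3 => hr i j hij (sub_eq_zero.2 h3)) h2
  · rw [Pool.Agent.PX.vanishes_iff hF, ← fo_eq hF]
    exact hz i

theorem hasZeros_mono {n n' : ℕ} (h : n ≤ n') {f : MvPolynomial (Fin 2) ℂ} (hf : HasZeros n' f) : HasZeros n f := by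
  obtain ⟨p, hp, hz⟩ := hf
  exact ⟨fun i => p (Fin.castLE h i), fun i j hij => Fin.castLE_injective h (hp hij), fun i => hz _⟩

/-- the equation of the complement of `T` -/
def RF (d m : ℕ) (F : Poly k 1) : Poly k m := fun y => RM m (tv (tht d F) y)

theorem van_RF (y : Cn (k + 1)) (p : PN m) : VanishesAt (RF d m F y) p ↔ rs (tv (tht d F) y) (WithLp.toLp 2 p.rep : EN m) = 0 := by
  unfold RF VanishesAt
  rw [← Pool.Agent.TM.RM_eval]

/-- the complement -/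
theorem outside_RF (hF : ∀ y, (F y).IsHomogeneous d) (hd : 0 < d) : outside Λ Set.univ (fun _ : Fin 1 => RF d m F) = coprimeForms Λ m F := by
  ext ⟨t, p⟩
  have key : ∀ y : Cn (k + 1), ¬ VanishesAt (RF d m F y) p ↔ ∀ q : Cn 2, q ≠ 0 → eval q (F y) = 0 → bin p.rep q ≠ 0 := by
    intro y
    rw [van_RF, Pool.Agent.TM.rs_zero (by omega)]
    constructor
    · intro h q hq h1 h2
      refine h ⟨WithLp.toLp 2 q, Pool.Agent.HE.toLp_ne hq, ?_, h2⟩
      rw [Pool.Agent.TM.bf_tv, fo_eq (hF y)]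
      exact h1
    · rintro h ⟨v, hv, h1, h2⟩
      rw [Pool.Agent.TM.bf_tv, fo_eq (hF y)] at h1
      exact h v.ofLp (Pool.Agent.HE.ofLp_ne hv) h1 h2
  constructor
  · intro h y hy
    exact (key y).1 (h.2 y hy 0)
  · intro h
    exact ⟨Set.mem_univ _, fun y hy _ => (key y).2 (h y hy)⟩

theorem hyp_of [DiscreteTopology Λ] (hspan : Submodule.span ℝ (Λ : Set (Cn (k + 1))) = ⊤) (hB : IsBinaryForm Λ F d) (hF : IsReducedOverSimple Λ F) (hm : 1 ≤ m) (hd : 2 * m < d) :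
    Pool.Agent.HE.IsHyp Λ Set.univ (fun _ : Fin 1 => RF d m F) (few' Λ (2 * m + 1) F) := by
  have hhom := hB.homogeneous
  have hample : IsAmple Λ F := hB.ample (by omega)
  have htheta := Pool.Agent.PX.thetaForm_of hB.form.to.to (COT.ample_to (ample_to hample))
  have hred : HEF.IsReducedDivisor Λ F d := COT.IsReducedDivisor.to ⟨hF.simple, by omega, hB.form.to, ample_to hample, hF.simpleZeros, hF.codimension⟩
  obtain ⟨r, W, D, Bad, P⟩ := Pool.Agent.PX.exists_data Λ hspan hF.simple (by omega) htheta (Pool.Agent.PX.reduced_of hred)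
  have hqn := quasi_ne hample
  have hfo0 : ∀ y, F y ≠ 0 → ∃ i, tht d F i y ≠ 0 := fun y h => (Pool.Agent.PX.eq_zero_iff (hhom y)).1 h
  obtain ⟨σ, hσ⟩ : ∃ σ, 2 * m + 1 = σ + 2 := ⟨2 * m - 1, by omega⟩
  refine ⟨?_, fun _ => ?_, ?_, Or.inl ⟨hF.simple, ?_⟩, fun y hy => ?_, fun y₀ _ => ⟨m, 1, one_pos, Eventually.of_forall fun y hy => ?_⟩, ?_⟩
  · exact fun y₀ => ⟨1, 0, fun i => i.elim0, fun i => i.elim0, one_pos, fun i => i.elim0, fun y _ p => ⟨fun _ i => i.elim0, fun _ => Set.mem_univ _⟩⟩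
  · obtain ⟨r', W', -, hsec⟩ := hample
    refine ⟨r', fun j => (Real.sqrt m : ℂ) • W' j, ⟨d, by omega, fun y _ => Pool.Agent.TM.RM_hom m _, fun α => ?_⟩, fun l hl y => ?_⟩
    · exact ((Pool.Agent.TM.RM_diff m α).comp (Pool.Agent.TM.tv_diff P.an)).differentiableOn
    · obtain ⟨e, he, h1⟩ := hsec.quasiPeriodic l hl y
      have h2 : tv (tht d F) (y + l) = e • tv (tht d F) y := by
        ext i
        change (F (y + l)).coeff (ex d i) = e * (F y).coeff (ex d i)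
        rw [h1, coeff_C_mul]
      refine ⟨e ^ m, ?_, ?_⟩
      · rw [norm_pow, he, ← Real.exp_nat_mul]
        congr 1
        have h3 : ∀ z : Cn (k + 1), ∑ j, ‖((Real.sqrt m : ℂ) • W' j) z‖ ^ 2 = m * ∑ j, ‖W' j z‖ ^ 2 := by
          intro z
          rw [Finset.mul_sum]
          refine Finset.sum_congr rfl fun j _ => ?_
          have h4 : ((Real.sqrt m : ℂ) • W' j) z = (Real.sqrt m : ℂ) * W' j z := rfl
          rw [h4, norm_mul, Complex.norm_real, Real.norm_of_nonneg (Real.sqrt_nonneg _), mul_pow, Real.sq_sqrt (Nat.cast_nonneg m)]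
        rw [h3, h3]
        ring
      · change RM m (tv (tht d F) (y + l)) = C (e ^ m) * RM m (tv (tht d F) y)
        rw [h2, Pool.Agent.TM.RM_smul]
  · rw [hσ]
    exact analytic_few' hB.form hqn
  · intro hS
    obtain ⟨z, hz⟩ := (P.iso (Pi.single 0 1 : Vd (k + 1)) (fun h => one_ne_zero (α := ℂ) (by simpa using congrFun h (0 : Fin (k + 1)))) 0).exists
    set y := (0 : Vd (k + 1)) + z • (Pi.single 0 1 : Vd (k + 1)) with hy
    obtain ⟨ρ, r, hρ, -, h1, h2, -⟩ := Pool.Agent.TM.roots_near (by omega) P.an (P.simple y hz)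
    have h3 : HasZeros d (F y) := hasZeros_of (hhom y) (fun i => r i y) (fun i => (h1 y (mem_ball_self hρ) i).1) (h2 y (mem_ball_self hρ)) fun i => (h1 y (mem_ball_self hρ) i).2
    have h4 : pt Λ y ∈ few' Λ (2 * m + 1) F := by
      rw [hS]
      exact Set.mem_univ _
    refine (mem_few' hqn y).1 h4 ⟨fun h5 => ?_, hasZeros_mono (by omega) h3⟩
    -- the form is not `0`
    obtain ⟨v, hv⟩ := P.simple y hz (EuclideanSpace.single (0 : Fin 2) (1 : ℂ)) (by simp) (by rw [fo_eq (hhom y), h5, map_zero])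
    apply hv
    have h6 : Fo (tht d F) y = fun _ => 0 := by
      funext v
      rw [fo_eq (hhom y), h5, map_zero]
    unfold Fd
    rw [h6]
    simp
  · have h1 : F y ≠ 0 ∧ HasZeros (2 * m + 1) (F y) := by
      by_contra hcon
      exact hy ((mem_few' hqn y).2 hcon)
    obtain ⟨r, hr, hz⟩ := exists_r (hhom y) h1.2
    exact Pool.Agent.TM.fibre_hyp P.an (by omega) (hfo0 y h1.1) r hr hz
  · have h1 : F y ≠ 0 ∧ HasZeros (2 * m + 1) (F y) := by
      by_contra hcon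
      exact hy ((mem_few' hqn y).2 hcon)
    obtain ⟨r, hr, hz⟩ := exists_r (hhom y) h1.2
    exact Pool.Agent.TM.hypersurf (by omega) (by omega) r hr hz
  · obtain ⟨C, hC, hb⟩ := Pool.Agent.TM.bound P (by omega : 0 < m) hd
    refine ⟨C, hC, fun w h hc => hb w h ⟨hc.w_diff, hc.h_diff, hc.w_ne, fun _ _ => Set.mem_univ _, fun j z hz h0 => hc.ne j z hz ?_⟩⟩
    change eval (w z).ofLp (RM m (tv (tht d F) (h z))) = 0
    rw [Pool.Agent.TM.RM_eval]
    exact h0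

/-- a point of `A` with a nonempty fibre, over which the form has `n` zeros -/
theorem not_few' {n : ℕ} (hA : IsAmple Λ F) (hm : 1 ≤ m) {t : Torus Λ} {p : PN m} (h : (t, p) ∈ coprimeForms Λ m F) (ht : t ∉ fewZeros Λ n F) : t ∉ few' Λ n F := by
  obtain ⟨y, rfl⟩ := QuotientAddGroup.mk_surjective t
  intro h1
  refine (mem_few' (quasi_ne hA) y).1 h1 ⟨ne_zero_of_mem (Λ := Λ) hm h, ?_⟩
  by_contra hcon
  exact ht ⟨y, rfl, hcon⟩

end Pool.Agent.COP

end
end
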