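import Pool.Agent.H94.PX4.H36.BP.Main
import Pool.Agent.H94.PX4.M36
import Pool.Agent.H94.PX4.M63
import Pool.Agent.H94.PX4.M78

/-! The parts of this file: HE.Kwa, HE.F.Off. -/

section

/-!
# HE Kwa: extension over the puncture

A holomorphic map `f` from the punctured disc to `ℙ^N` whose derivative in the Fubini–Study metric is near `0` at most `L` times the Poincaré metric of the punctured disc extends.  (`bounded_lifts`, `puncture_limit` for the Fubini–Study metric of `ℙ^N`; adapted from `H36/BP/Main`.)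
-/

set_option autoImplicit false

open Topology Filter Metric

namespace Pool.Agent.HE

open Pool.Agent.H17 (PN HolomorphicInto puncturedDisc)
open Pool.Agent.H36.BP
open Pool.Agent.H36.BPL (AffProper curve_metric)

variable {N : ℕ}

/-- the metric data of the Fubini–Study metric of `ℙ^N` -/
theorem md_all (N : ℕ) : MetricData {x : EN N | x ≠ 0} ∅ (fun x v => fs x v) (fun _ => 1) 1 1 (3 / 2) := by
  have hs : ∀ x ∈ {x : EN N | x ≠ 0}, ∀ c : ℂ, c ≠ 0 → c • x ∈ {x : EN N | x ≠ 0} := fun x hx c hc => smul_ne_zero hc hx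
  refine curve_metric (X := {x : EN N | x ≠ 0}) (K := {x : EN N | x ≠ 0}) (fun h => h rfl) (fun x _ hx => hx) le_rfl hs (fun x _ => Eventually.of_forall fun y hy => hy) (AffProper.closed _ hs) ?_
  intro F z₀ _ h
  exact absurd h.self_of_nhds.1 h.self_of_nhds.2

theorem kwack {f : ℂ → PN N} (hf : HolomorphicInto f puncturedDisc) {L r₀ : ℝ} (hr₀ : 0 < r₀) (hr₁ : r₀ < 1)
    (hgr : ∀ F : ℂ → EN N, DifferentiableOn ℂ F (ball 0 r₀ \ {0}) → (∀ z ∈ ball (0 : ℂ) r₀ \ {0}, ∃ h : (F z).ofLp ≠ 0, f z = Projectivization.mk ℂ (F z).ofLp h) →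
      ∀ z ∈ ball (0 : ℂ) r₀ \ {0}, fs (F z) (deriv F z) * (‖z‖ * Real.log (1 / ‖z‖)) ≤ L) :
    ∃ g : ℂ → PN N, HolomorphicInto g (ball 0 1) ∧ ∀ z ∈ puncturedDisc, g z = f z := by
  classical
  have hr0C : (r₀ : ℂ) ≠ 0 := by exact_mod_cast hr₀.ne'
  have hM := md_all N
  obtain ⟨F, hFd, hFf⟩ := lift_punct hf (r := r₀) hr₀ hr₁
  have hhalf : ∀ z ∈ ball (0 : ℂ) 1 \ {0}, (r₀ : ℂ) * z ∈ ball (0 : ℂ) r₀ \ {0} := by
    rintro z ⟨hz1, hz2⟩
    rw [mem_ball_zero_iff] at hz1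
    refine ⟨?_, ?_⟩
    · rw [mem_ball_zero_iff, norm_mul, Complex.norm_real, Real.norm_of_nonneg hr₀.le]
      nlinarith
    · exact mul_ne_zero hr0C hz2
  have hsubp : ball (0 : ℂ) r₀ \ {0} ⊆ puncturedDisc := by
    rintro z ⟨hz1, hz2⟩
    exact ⟨ball_subset_ball hr₁.le hz1, hz2⟩
  have hopen : IsOpen (ball (0 : ℂ) r₀ \ {0}) := isOpen_ball.sdiff isClosed_singleton
  have hopen1 : IsOpen (ball (0 : ℂ) 1 \ {0}) := isOpen_ball.sdiff isClosed_singleton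
  set F₁ : ℂ → EN N := fun z => F ((r₀ : ℂ) * z) with hF₁
  have hd1 : ∀ z ∈ ball (0 : ℂ) 1 \ {0}, HasDerivAt F₁ ((r₀ : ℂ) • deriv F ((r₀ : ℂ) * z)) z := by
    intro z hz
    have h1 : HasDerivAt F (deriv F ((r₀ : ℂ) * z)) ((r₀ : ℂ) * z) := (hFd.differentiableAt (hopen.mem_nhds (hhalf z hz))).hasDerivAt
    have h2 : HasDerivAt (fun z : ℂ => (r₀ : ℂ) * z) (r₀ : ℂ) z := by simpa using (hasDerivAt_id z).const_mul (r₀ : ℂ)
    exact h1.scomp z h2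
  have hF1c : Curve {x : EN N | x ≠ 0} (ball 0 1 \ {0}) F₁ := by
    refine ⟨fun z hz => (hd1 z hz).differentiableAt.differentiableWithinAt, fun z hz => ?_⟩
    obtain ⟨h1, -⟩ := hFf _ (hhalf z hz)
    exact ne_zero_of_ofLp h1
  -- the constant case
  by_cases hconst : ∃ c₁ : PN N, ∀ z ∈ puncturedDisc, f z = c₁
  · obtain ⟨c₁, hc₁⟩ := hconst
    refine ⟨fun _ => c₁, ?_, fun z hz => (hc₁ z hz).symm⟩
    intro z _
    exact ⟨fun _ => c₁.rep, analyticAt_const, Filter.Eventually.of_forall fun w => ⟨c₁.rep_nonzero, (Projectivization.mk_rep c₁).symm⟩⟩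
  have han1 : ∀ z ∈ ball (0 : ℂ) 1 \ {0}, AnalyticAt ℂ F₁ z := fun z hz => hF1c.1.analyticAt (hopen1.mem_nhds hz)
  have hscale : ∀ z : ℂ, Tendsto (fun w : ℂ => (r₀ : ℂ)⁻¹ * w) (𝓝 ((r₀ : ℂ) * z)) (𝓝 z) := by
    intro z
    have : Tendsto (fun w : ℂ => (r₀ : ℂ)⁻¹ * w) (𝓝 ((r₀ : ℂ) * z)) (𝓝 ((r₀ : ℂ)⁻¹ * ((r₀ : ℂ) * z))) := (continuous_const.mul continuous_id).tendsto _
    rwa [inv_mul_cancel_left₀ hr0C] at this
  have hF1F : ∀ w : ℂ, F₁ ((r₀ : ℂ)⁻¹ * w) = F w := by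
    intro w
    rw [hF₁]
    simp only
    rw [mul_inv_cancel_left₀ hr0C]
  have hc : ∀ z ∈ ball (0 : ℂ) 1 \ {0}, ¬ ∀ᶠ w in 𝓝 z, wd (F₁ w) (deriv F₁ w) = 0 := by
    intro z hz hw
    apply hconst
    have h0 : F₁ z ≠ 0 := hM.ne _ (hF1c.2 z hz)
    have h1 := const_of_wedge (han1 z hz) h0 hw
    refine ⟨f ((r₀ : ℂ) * z), const_identity preconnected_puncturedDisc hf (hsubp (hhalf z hz)) ?_⟩
    filter_upwards [(hscale z).eventually h1, hopen.mem_nhds (hhalf z hz)] with w hw1 hw2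
    obtain ⟨c, hc0, hcw⟩ := hw1
    rw [hF1F] at hcw
    obtain ⟨h3, h4⟩ := hFf w hw2
    obtain ⟨h5, h6⟩ := hFf _ (hhalf z hz)
    rw [h4, h6, Projectivization.mk_eq_mk_iff']
    refine ⟨c, ?_⟩
    rw [hcw]
    rfl
  -- a point with positive metric
  have hz0 : (1 / 2 : ℂ) ∈ ball (0 : ℂ) 1 \ {0} := by
    refine ⟨?_, by simp⟩
    rw [mem_ball_zero_iff]
    norm_num
  have hpos := exists_pos hM (han1 _ hz0) (Filter.mem_of_superset (hopen1.mem_nhds hz0) fun z hz => hF1c.2 z hz)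
    (fun h => h.self_of_nhds) (hc _ hz0)
  obtain ⟨z₁, hz₁pos, hz₁⟩ := (hpos.and (hopen1.mem_nhds hz0 |> Filter.Eventually.filter_mono nhdsWithin_le_nhds)).exists
  have hz₁1 : ‖z₁‖ < 1 := by simpa using hz₁.1
  have hz₁0 : 0 < ‖z₁‖ := norm_pos_iff.mpr hz₁.2
  have hL' : 0 < max L 1 := lt_max_of_lt_right one_pos
  have hgr' : ∀ z : ℂ, z ≠ 0 → ‖z‖ < 1 → Pool.Agent.H36.BP.mt (fun x v => fs x v) F₁ z * (‖z‖ * Real.log (1 / ‖z‖)) ≤ max L 1 := by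
    intro z hz hz1
    have hzm : z ∈ ball (0 : ℂ) 1 \ {0} := ⟨mem_ball_zero_iff.2 hz1, hz⟩
    have h1 := hgr F hFd hFf _ (hhalf z hzm)
    have hzp : 0 < ‖z‖ := norm_pos_iff.2 hz
    have h0 : Pool.Agent.H36.BP.mt (fun x v => fs x v) F₁ z = r₀ * fs (F ((r₀ : ℂ) * z)) (deriv F ((r₀ : ℂ) * z)) := by
      unfold Pool.Agent.H36.BP.mt
      beta_reduce
      rw [(hd1 z hzm).deriv, fs_smul_right, Complex.norm_real, Real.norm_of_nonneg hr₀.le]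
    rw [h0]
    rw [norm_mul, Complex.norm_real, Real.norm_of_nonneg hr₀.le] at h1
    refine le_trans ?_ (h1.trans (le_max_left _ _))
    have h2 : 0 ≤ fs (F ((r₀ : ℂ) * z)) (deriv F ((r₀ : ℂ) * z)) := fs_nonneg _ _
    have h3 : Real.log (1 / ‖z‖) ≤ Real.log (1 / (r₀ * ‖z‖)) := by
      refine Real.log_le_log (by positivity) ?_
      refine one_div_le_one_div_of_le (by positivity) ?_
      nlinarith
    calc r₀ * fs (F ((r₀ : ℂ) * z)) (deriv F ((r₀ : ℂ) * z)) * (‖z‖ * Real.log (1 / ‖z‖)) = fs (F ((r₀ : ℂ) * z)) (deriv F ((r₀ : ℂ) * z)) * (r₀ * ‖z‖ * Real.log (1 / ‖z‖)) := by ring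
      _ ≤ _ := by gcongr
  obtain ⟨c, hcpos, hlift⟩ := bounded_lifts hM hL' hF1c hgr' (r₁ := (‖z₁‖ + 1) / 2) hz₁0 (by linarith) (by linarith) hz₁pos
  obtain ⟨Q, hQa, hQ0, hQ⟩ := puncture_limit hF1c.1 (fun z hz => hM.ne _ (hF1c.2 z hz)) hcpos hz₁0 (r₁ := (‖z₁‖ + 1) / 2)
    (by linarith) (by linarith) hlift
  -- gluing
  set q₀ : PN N := Projectivization.mk ℂ (Q 0).ofLp (ofLp_ne_zero hQ0) with hq₀
  refine ⟨fun z => if z = 0 then q₀ else f z, ?_, ?_⟩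
  · intro z hz
    by_cases hz0 : z = 0
    · subst hz0
      refine ⟨fun w => (Q ((r₀ : ℂ)⁻¹ * w)).ofLp, ?_, ?_⟩
      · apply analyticAt_ofLp
        have h1 : AnalyticAt ℂ Q ((fun w : ℂ => (r₀ : ℂ)⁻¹ * w) 0) := by simpa using hQa
        exact h1.comp (analyticAt_const.mul analyticAt_id)
      · have h2 : Tendsto (fun w : ℂ => (r₀ : ℂ)⁻¹ * w) (𝓝 0) (𝓝 0) := by
          have := hscale 0
          rwa [mul_zero] at this
        have h3 : ∀ᶠ w in 𝓝 (0 : ℂ), w ≠ 0 → ∃ k : ℂ, k ≠ 0 ∧ Q ((r₀ : ℂ)⁻¹ * w) = k • F₁ ((r₀ : ℂ)⁻¹ * w) := by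
          filter_upwards [h2.eventually (eventually_nhdsWithin_iff.mp hQ)] with w hw hw0
          exact hw (mul_ne_zero (inv_ne_zero hr0C) hw0)
        have h4 : ∀ᶠ w in 𝓝 (0 : ℂ), Q ((r₀ : ℂ)⁻¹ * w) ≠ 0 := by
          have h5 : ∀ᶠ y in 𝓝 (0 : ℂ), Q y ≠ 0 := hQa.continuousAt.eventually_ne hQ0
          exact h2.eventually h5
        filter_upwards [h3, h4, ball_mem_nhds (0 : ℂ) hr₀] with w hw1 hw2 hw3
        refine ⟨ofLp_ne_zero hw2, ?_⟩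
        by_cases hw0 : w = 0
        · subst hw0
          simp only [if_true, hq₀, mul_zero]
        · rw [if_neg hw0]
          obtain ⟨k, hk0, hk⟩ := hw1 hw0
          rw [hF1F] at hk
          obtain ⟨h5, h6⟩ := hFf w ⟨hw3, hw0⟩
          rw [h6, Projectivization.mk_eq_mk_iff']
          refine ⟨k⁻¹, ?_⟩
          rw [hk]
          show k⁻¹ • (k • (F w).ofLp) = _
          rw [smul_smul, inv_mul_cancel₀ hk0, one_smul]
    · obtain ⟨φ, hφ, he⟩ := hf z ⟨hz, hz0⟩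
      refine ⟨φ, hφ, ?_⟩
      filter_upwards [he, isOpen_ne.mem_nhds hz0] with w hw1 hw2
      rw [if_neg hw2]
      exact hw1
  · intro z hz
    have hz0 : z ≠ 0 := hz.2
    simp only
    rw [if_neg hz0]

end Pool.Agent.HE

end

section

/-!
# HE F Off: maps of the punctured disc, the component in the projective space, at the points outside `S`

The discs `σ ↦ exp (ζ + R σ)`, `R = - Re ζ / 2`; `HD.lip`, `kwack`.
-/

set_option autoImplicit false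

open Topology Filter Metric MvPolynomial

namespace Pool.Agent.HE

open Pool.Agent.H17 (PN VanishesAt HolomorphicInto puncturedDisc)
open Pool.Agent.H36.BP (EN fs wd)
open Pool.Agent.H62.EF (MN pr)
open Pool.Agent.AD (Vd)
open Pool.Agent.TG (Lat Gd)
open Pool.Agent.G3 (wt LLift)
open Pool.Agent.PXF (Cn HolomorphicIntoTorus IsSimple IsCurveIn)
open Pool.Agent.HEF

variable {N k q r : ℕ} {Λ : AddSubgroup (Vd (k + 1))} {X : Set ((Cn (k + 1) ⧸ Λ) × PN N)} {F : Fin q → Cn (k + 1) → MvPolynomial (Fin (N + 1)) ℂ} {S : Set (Cn (k + 1) ⧸ Λ)}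

/-- composition of a holomorphic map to the projective space with a holomorphic function -/
theorem hol_comp {g : ℂ → PN N} {U V : Set ℂ} (hg : HolomorphicInto g U) {φ : ℂ → ℂ} (hφ : ∀ z ∈ V, AnalyticAt ℂ φ z ∧ φ z ∈ U) :
    HolomorphicInto (fun z => g (φ z)) V := by
  intro z₀ hz₀
  obtain ⟨h1, h2⟩ := hφ z₀ hz₀
  obtain ⟨ψ, hψ, he⟩ := hg (φ z₀) h2
  exact ⟨fun z => ψ (φ z), hψ.comp h1, h1.continuousAt.eventually he⟩

theorem fibre_off (hΛ : Lat Λ) (Hs : IsHyp Λ X F S) {H : ℂ → Vd (k + 1)} {ρ : ℝ} (hρ : 0 < ρ) (hρ1 : ρ < 1) (hH : DifferentiableOn ℂ H (ball 0 ρ)) (hH0 : (H 0 : Cn (k + 1) ⧸ Λ) ∉ S)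
    {g : ℂ → PN N} (hg : HolomorphicInto g puncturedDisc) (hT : ∀ z ∈ ball (0 : ℂ) ρ \ {0}, ((H z : Cn (k + 1) ⧸ Λ), g z) ∈ outside Λ X F) :
    ∃ g' : ℂ → PN N, HolomorphicInto g' (ball 0 1) ∧ ∀ z ∈ puncturedDisc, g' z = g z := by
  obtain ⟨C₀, hC₀, hb⟩ := bound_disc hΛ Hs
  obtain ⟨r, W, d, P⟩ := hd_of hΛ Hs
  have hyS : H 0 ∈ (cS Λ S)ᶜ := hH0
  obtain ⟨δ, hδ, hδb⟩ := Metric.isOpen_iff.1 P.D_closed.isOpen_compl _ hyS
  obtain ⟨L, hL, hlip⟩ := P.lip (δ := δ / 2) (H := 2 * C₀) (r₀ := 1 / 2) (by positivity) (by positivity) (by norm_num)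
  have hcont : ContinuousAt H 0 := (hH.differentiableAt (isOpen_ball.mem_nhds (mem_ball_self hρ))).continuousAt
  obtain ⟨r₁, hr₁, hr₁b⟩ := Metric.continuousAt_iff.1 hcont (δ / 2) (half_pos hδ)
  obtain ⟨r₀, hr₀, hr₀ρ, hr₀1⟩ : ∃ r₀ : ℝ, 0 < r₀ ∧ r₀ ≤ ρ ^ 2 ∧ r₀ ≤ r₁ := ⟨min (ρ ^ 2) r₁, lt_min (by positivity) hr₁, min_le_left _ _, min_le_right _ _⟩
  have hρ2 : ρ ^ 2 < 1 := by nlinarith
  have hρρ : ρ ^ 2 ≤ ρ := by nlinarith
  refine kwack hg (L := 2 * L) hr₀ (hr₀ρ.trans_lt hρ2) fun G hG hGg z hz => ?_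
  have hz0 : z ≠ 0 := hz.2
  have hzn : ‖z‖ < r₀ := mem_ball_zero_iff.1 hz.1
  have hzp : 0 < ‖z‖ := norm_pos_iff.2 hz0
  obtain ⟨ζ, hζ⟩ : ∃ ζ : ℂ, ζ = Complex.log z := ⟨_, rfl⟩
  have hez : Complex.exp ζ = z := by rw [hζ, Complex.exp_log hz0]
  obtain ⟨R, hR⟩ : ∃ R : ℝ, R = Real.log (1 / ‖z‖) / 2 := ⟨_, rfl⟩
  have hz1 : ‖z‖ < 1 := hzn.trans (hr₀ρ.trans_lt hρ2)
  have hR0 : 0 < R := by
    rw [hR]
    have : 0 < Real.log (1 / ‖z‖) := Real.log_pos (by rw [lt_div_iff₀ hzp, one_mul]; exact hz1)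
    linarith
  obtain ⟨φ, hφ⟩ : ∃ φ : ℂ → ℂ, φ = fun σ => Complex.exp (ζ + (R : ℂ) * σ) := ⟨_, rfl⟩
  have hφ0 : φ 0 = z := by rw [hφ]; simp [hez]
  have hφd : ∀ σ, HasDerivAt φ (φ σ * (R : ℂ)) σ := by
    intro σ
    have h1 : HasDerivAt (fun σ : ℂ => ζ + (R : ℂ) * σ) (R : ℂ) σ := by simpa using ((hasDerivAt_id σ).const_mul (R : ℂ)).const_add ζ
    rw [hφ]
    exact h1.cexp
  have hφm : ∀ σ ∈ ball (0 : ℂ) 1, φ σ ∈ ball (0 : ℂ) ρ \ {0} := by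
    intro σ hσ
    rw [mem_ball_zero_iff] at hσ
    refine ⟨?_, ?_⟩
    · rw [mem_ball_zero_iff, hφ]
      simp only
      rw [Complex.norm_exp, Complex.add_re, hζ, Complex.log_re, Complex.re_ofReal_mul]
      have h1 : R * σ.re ≤ R := by
        have := (Complex.re_le_norm σ).trans hσ.le
        nlinarith
      have h2 : Real.log ‖z‖ + R * σ.re ≤ Real.log ‖z‖ / 2 := by
        have h3 : R = -Real.log ‖z‖ / 2 := by rw [hR, one_div, Real.log_inv]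
        rw [h3] at h1
        rw [h3]
        linarith
      have h3 : Real.log ‖z‖ / 2 < Real.log ρ := by
        have h4 : Real.log ‖z‖ < Real.log (ρ ^ 2) := Real.log_lt_log hzp (hzn.trans_le hr₀ρ)
        rw [Real.log_pow] at h4
        push_cast at h4
        linarith
      calc Real.exp (Real.log ‖z‖ + R * σ.re) ≤ Real.exp (Real.log ‖z‖ / 2) := Real.exp_le_exp.2 h2
        _ < Real.exp (Real.log ρ) := Real.exp_lt_exp.2 h3
        _ = ρ := Real.exp_log hρ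
    · rw [hφ]
      exact Complex.exp_ne_zero _
  have hφa : ∀ σ, AnalyticAt ℂ φ σ := by
    intro σ
    rw [hφ]
    fun_prop
  have hsubp : ball (0 : ℂ) ρ \ {0} ⊆ puncturedDisc := fun w hw => ⟨ball_subset_ball hρ1.le hw.1, hw.2⟩
  have hgφ : HolomorphicInto (fun σ => g (φ σ)) (ball 0 1) := hol_comp hg fun σ hσ => ⟨hφa σ, hsubp (hφm σ hσ)⟩
  have hHφ : DifferentiableOn ℂ (fun σ => H (φ σ)) (ball 0 1) := hH.comp (fun σ _ => (hφa σ).differentiableAt.differentiableWithinAt) fun σ hσ => (hφm σ hσ).1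
  have hcu : IsCurveIn Λ (outside Λ X F) (fun σ => (H (φ σ) : Cn (k + 1) ⧸ Λ)) (fun σ => g (φ σ)) (ball 0 1) := by
    refine ⟨fun σ hσ => ⟨fun σ => H (φ σ), hHφ.analyticAt (isOpen_ball.mem_nhds hσ), Eventually.of_forall fun _ => rfl⟩, hgφ, fun σ hσ => hT _ (hφm σ hσ)⟩
  have hbd : ∀ σ ∈ ball (0 : ℂ) (1 / 2), ‖deriv (fun σ => H (φ σ)) σ‖ ≤ 2 * C₀ := by
    intro σ hσ
    have hs2 : ball σ (1 / 2) ⊆ ball (0 : ℂ) 1 := by
      intro w hw
      rw [mem_ball_zero_iff] at hσ ⊢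
      rw [mem_ball_iff_norm] at hw
      have h2 : ‖w‖ ≤ ‖w - σ‖ + ‖σ‖ := by simpa using norm_add_le (w - σ) σ
      linarith
    have h2 := hb _ _ (fun σ => H (φ σ)) σ (1 / 2) (by norm_num) (curveIn_mono hcu hs2) (hHφ.mono hs2) fun _ _ => rfl
    linarith
  obtain ⟨w, hw, hgw⟩ := lift_disc hgφ (show (1 / 2 : ℝ) < 1 by norm_num)
  have hsub : ball (0 : ℂ) (1 / 2) ⊆ ball 0 1 := ball_subset_ball (by norm_num)
  have hcw : Cw (cX Λ X) (fun j => fn (F j)) (ball 0 (1 / 2)) w fun σ => H (φ σ) :=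
    cw_of (sections_form Hs) (fun σ hσ => hcu.mem σ (hsub hσ)) (hHφ.mono hsub) (fun _ _ => rfl) hw hgw
  have hk := hlip w (fun σ => H (φ σ)) 0 hcw hbd (by
    intro b hb'
    by_contra hlt
    push Not at hlt
    simp only [hφ0] at hlt
    have h1 : b ∈ ball (H 0) δ := by
      have h3 := hr₁b (x := z) (by rw [dist_zero_right]; exact hzn.trans_le hr₀1)
      rw [mem_ball_iff_norm]
      rw [dist_eq_norm] at h3
      have h4 := norm_sub_le (H z - H 0) (H z - b)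
      have h5 : H z - H 0 - (H z - b) = b - H 0 := by abel
      rw [h5] at h4
      linarith
    exact hδb h1 hb')
  -- comparison of the two lifts
  have h0m : (0 : ℂ) ∈ ball (0 : ℂ) (1 / 2) := by simp
  have hwa : AnalyticAt ℂ w 0 := hw.analyticAt (isOpen_ball.mem_nhds h0m)
  have hGa : AnalyticAt ℂ G z := hG.analyticAt ((isOpen_ball.sdiff isClosed_singleton).mem_nhds hz)
  have hGφ : AnalyticAt ℂ (fun σ => G (φ σ)) 0 := AnalyticAt.comp_of_eq hGa (hφa 0) hφ0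
  have hGz0 : G z ≠ 0 := by
    obtain ⟨h1, -⟩ := hGg z hz
    rintro h2
    exact h1 (by rw [h2]; rfl)
  have hprop : ∀ᶠ σ in 𝓝 (0 : ℂ), ∃ c : ℂ, G (φ σ) = c • w σ := by
    have h1 : ∀ᶠ σ in 𝓝 (0 : ℂ), φ σ ∈ ball (0 : ℂ) r₀ \ {0} := by
      have h2 := (hφa 0).continuousAt
      have h3 : ball (0 : ℂ) r₀ \ {0} ∈ 𝓝 (φ 0) := by
        rw [hφ0]
        exact (isOpen_ball.sdiff isClosed_singleton).mem_nhds hz
      exact h2 h3
    filter_upwards [h1, isOpen_ball.mem_nhds h0m] with σ h2 h3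
    obtain ⟨ha, hb⟩ := hGg _ h2
    obtain ⟨-, hc, hd⟩ := hgw σ h3
    obtain ⟨a, ha'⟩ := (Projectivization.mk_eq_mk_iff' ℂ _ _ ha hc).1 (hb.symm.trans hd)
    refine ⟨a, ?_⟩
    ext i
    exact (congrFun ha' i).symm
  have hfs := Pool.Agent.TG.fs_smul_fun hGφ hwa (by rw [hφ0]; exact hGz0) (hgw 0 h0m).1 hprop
  have hder : deriv (fun σ => G (φ σ)) 0 = (z * (R : ℂ)) • deriv G z := by
    have h1 : HasDerivAt G (deriv G z) (φ 0) := by
      rw [hφ0]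
      exact hGa.differentiableAt.hasDerivAt
    have h2 := h1.scomp (0 : ℂ) (hφd 0)
    rw [hφ0] at h2
    exact h2.deriv
  rw [hder, hφ0, Pool.Agent.H36.BP.fs_smul_right, norm_mul, Complex.norm_real, Real.norm_of_nonneg hR0.le] at hfs
  rw [← hfs, hR] at hk
  have h6 : fs (G z) (deriv G z) * (‖z‖ * Real.log (1 / ‖z‖)) = 2 * (‖z‖ * (Real.log (1 / ‖z‖) / 2) * fs (G z) (deriv G z)) := by ring
  rw [h6]
  linarith

end Pool.Agent.HE

end
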