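import Pool.Agent.H94.PX4.M22
import Pool.Agent.H94.PX4.M62
import Pool.Agent.H94.PX4.M91

/-! The parts of this file: HE.Bor, HE.NakB, HE.Cvx, HE.Gro, HE.Pun. -/

section

/-!
# HE Bor: Borel's lemma at a puncture

`y s`, `s ∈ S`, are holomorphic functions without zeros on the punctured disc, with sum `0`.  Then for every `s ∈ S` there is a `t ∈ S`, `t ≠ s`, such that `y t / y s` is meromorphic at `0`: take a minimal `T ⊆ S`, `s ∈ T`, with a relation
`∑ t ∈ T, c t * y t = 0`, `c t ≠ 0`, and `cartan_punctMero` for the functions `(c t / c s) * (y t / y s)`, `t ∈ T`, `t ≠ s`.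
-/

set_option autoImplicit false

open Topology Filter Metric

namespace Pool.Agent.HE

open Pool.Agent.H62.FC (MeroPunct PunctMero cartan_punctMero)
open Pool.Agent.H92.GGL (ordZ)

/-- the punctured disc -/
def pd (R : ℝ) : Set ℂ := {z | 0 < ‖z‖ ∧ ‖z‖ < R}

theorem pd_open (R : ℝ) : IsOpen (pd R) := (isOpen_lt continuous_const continuous_norm).inter (isOpen_lt continuous_norm continuous_const)

theorem pd_conn (R : ℝ) : IsPreconnected (pd R) := Pool.Agent.H92.GGL.isPreconnected_punctured R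

theorem pd_ev {R : ℝ} (hR : 0 < R) : ∀ᶠ z in 𝓝[≠] (0 : ℂ), z ∈ pd R := by
  have h1 : ∀ᶠ z in 𝓝[≠] (0 : ℂ), z ∈ ball (0 : ℂ) R := nhdsWithin_le_nhds (ball_mem_nhds _ hR)
  filter_upwards [h1, self_mem_nhdsWithin] with z h2 h3
  exact ⟨norm_pos_iff.2 h3, by simpa using h2⟩

private theorem Bor_mero {R : ℝ} {f : ℂ → ℂ} (hf : DifferentiableOn ℂ f (pd R)) (h0 : ∀ z ∈ pd R, f z ≠ 0) {z : ℂ} (hz : z ∈ pd R) :
    MeromorphicAt f z ∧ meromorphicOrderAt f z = 0 := by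
  have h1 : AnalyticAt ℂ f z := hf.analyticAt ((pd_open R).mem_nhds hz)
  refine ⟨h1.meromorphicAt, ?_⟩
  rw [h1.meromorphicOrderAt_eq, h1.analyticOrderAt_eq_zero.2 (h0 z hz)]
  rfl

private theorem Bor_congr {R : ℝ} (hR : 0 < R) {f g : ℂ → ℂ} (hf : PunctMero f) (h : ∀ z ∈ pd R, f z = g z) : PunctMero g := by
  refine hf.congr ?_
  filter_upwards [pd_ev hR] with z hz
  have h1 : ∀ᶠ w in 𝓝 z, w ∈ pd R := (pd_open R).mem_nhds hz
  filter_upwards [nhdsWithin_le_nhds h1] with w hw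
  exact h w hw

/-- **Borel's lemma at a puncture.** -/
theorem borel {ι : Type*} {R : ℝ} (hR : 0 < R) (S : Finset ι) {y : ι → ℂ → ℂ} (hy : ∀ s ∈ S, DifferentiableOn ℂ (y s) (pd R)) (hne : ∀ s ∈ S, ∀ z ∈ pd R, y s z ≠ 0)
    (hsum : ∀ z ∈ pd R, ∑ s ∈ S, y s z = 0) {s : ι} (hs : s ∈ S) : ∃ t ∈ S, t ≠ s ∧ PunctMero (fun z => y t z / y s z) := by
  classical
  obtain ⟨z₁, hz₁⟩ : ∃ z₁, z₁ ∈ pd R := by
    refine ⟨((R / 2 : ℝ) : ℂ), ?_⟩
    have h1 : ‖((R / 2 : ℝ) : ℂ)‖ = R / 2 := by rw [Complex.norm_real, Real.norm_of_nonneg (by positivity)]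
    exact ⟨by rw [h1]; positivity, by rw [h1]; linarith⟩
  -- a minimal relation
  set p : Finset ι → Prop := fun T => s ∈ T ∧ ∃ c : ι → ℂ, (∀ t ∈ T, c t ≠ 0) ∧ ∀ z ∈ pd R, ∑ t ∈ T, c t * y t z = 0 with hp
  have hne' : (S.powerset.filter p).Nonempty := by
    refine ⟨S, Finset.mem_filter.2 ⟨Finset.mem_powerset_self S, hs, fun _ => 1, fun _ _ => one_ne_zero, fun z hz => ?_⟩⟩
    simpa using hsum z hz
  obtain ⟨T, hT, hmin⟩ := Finset.exists_min_image _ Finset.card hne'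
  rw [Finset.mem_filter, Finset.mem_powerset] at hT
  obtain ⟨hTS, hsT, c, hc, hrel⟩ := hT
  have hmin' : ∀ T' ⊆ S, p T' → T.card ≤ T'.card := fun T' h1 h2 => hmin T' (Finset.mem_filter.2 ⟨Finset.mem_powerset.2 h1, h2⟩)
  have hcs := hc s hsT
  -- the other indices
  obtain ⟨T', hT'⟩ : ∃ T', T' = T.erase s := ⟨_, rfl⟩
  have hT'T : ∀ t ∈ T', t ∈ T ∧ t ≠ s := by
    intro t ht
    rw [hT', Finset.mem_erase] at ht
    exact ⟨ht.2, ht.1⟩
  have hsplit : ∀ z, ∑ t ∈ T, c t * y t z = c s * y s z + ∑ t ∈ T', c t * y t z := by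
    intro z
    rw [hT']
    exact (Finset.add_sum_erase T (fun t => c t * y t z) hsT).symm
  have hcard0 : 0 < T'.card := by
    rw [Finset.card_pos]
    by_contra hcon
    rw [Finset.not_nonempty_iff_eq_empty] at hcon
    have h1 := hrel z₁ hz₁
    rw [hsplit, hcon, Finset.sum_empty, add_zero] at h1
    exact mul_ne_zero hcs (hne s hs z₁ hz₁) h1
  obtain ⟨n, hn⟩ : ∃ n, n = T'.card := ⟨_, rfl⟩
  have e : Fin n ≃ T' := (finCongr hn).trans T'.equivFin.symm
  have heT : ∀ i, (e i : ι) ∈ T := fun i => (hT'T _ (e i).2).1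
  have hes : ∀ i, (e i : ι) ≠ s := fun i => (hT'T _ (e i).2).2
  obtain ⟨t₀, ht₀⟩ : ∃ t₀, t₀ ∈ T' := Finset.card_pos.1 hcard0
  obtain ⟨i₀, hi₀⟩ : ∃ i₀ : Fin n, (e i₀ : ι) = t₀ := ⟨e.symm ⟨t₀, ht₀⟩, by simp⟩
  have hsumE : ∀ f : ι → ℂ, ∑ i, f (e i) = ∑ t ∈ T', f t := by
    intro f
    rw [← Finset.sum_coe_sort T' f]
    exact Equiv.sum_comp e fun t : T' => f t
  set u : Fin n → ℂ → ℂ := fun i z => c (e i) / c s * (y (e i) z / y s z) with hu
  have hud : ∀ i, DifferentiableOn ℂ (u i) (pd R) := fun i =>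
    ((hy _ (hTS (heT i))).div (hy s hs) fun z hz => hne s hs z hz).const_mul _
  have hune : ∀ i, ∀ z ∈ pd R, u i z ≠ 0 := fun i z hz =>
    mul_ne_zero (div_ne_zero (hc _ (heT i)) hcs) (div_ne_zero (hne _ (hTS (heT i)) z hz) (hne s hs z hz))
  have hu1 : ∀ z ∈ pd R, ∑ i, u i z = -1 := by
    intro z hz
    have h1 := hrel z hz
    rw [hsplit] at h1
    have h2 : ∑ i, u i z = (∑ t ∈ T', c t * y t z) / (c s * y s z) := by
      rw [Finset.sum_div, ← hsumE fun t => c t * y t z / (c s * y s z)]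
      refine Finset.sum_congr rfl fun i _ => ?_
      rw [hu]
      simp only
      rw [div_mul_div_comm]
    have h3 : c s * y s z ≠ 0 := mul_ne_zero hcs (hne s hs z hz)
    rw [h2, div_eq_iff h3]
    linear_combination h1
  -- the conclusion for `u i₀`
  suffices hmain : PunctMero (u i₀) by
    refine ⟨t₀, hTS (hT'T _ ht₀).1, (hT'T _ ht₀).2, ?_⟩
    refine Bor_congr hR ((PunctMero.const (c s / c t₀)).mul hmain) fun z _ => ?_
    rw [hu]
    simp only
    rw [hi₀]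
    have h1 := hc t₀ (hT'T _ ht₀).1
    field_simp
  rcases Nat.lt_or_ge n 2 with hn2 | hn2
  · have hn1 : n = 1 := by omega
    refine Bor_congr hR (PunctMero.const (-1)) fun z hz => ?_
    have h1 := hu1 z hz
    subst hn1
    rw [Fin.sum_univ_one] at h1
    rw [← h1]
    congr 1
    exact Subsingleton.elim _ _
  refine cartan_punctMero hn2 (d := (n + 1) * (n - 1) + 1) (Nat.lt_succ_self _) hR (u := u) (fun j => ?_) (fun z h1 h2 => ?_) (fun c' z h1 h2 hc' => ?_) (fun j z h1 h2 => ?_) i₀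
  · exact ⟨fun z h1 h2 => (Bor_mero (hud j) (hune j) ⟨h1, h2⟩).1, fun z h1 h2 => by rw [(Bor_mero (hud j) (hune j) ⟨h1, h2⟩).2]; exact WithTop.zero_ne_top⟩
  · have h3 : ∀ᶠ w in 𝓝 z, w ∈ pd R := (pd_open R).mem_nhds ⟨h1, h2⟩
    filter_upwards [nhdsWithin_le_nhds h3] with w hw
    exact hu1 w hw
  · -- linear independence
    by_contra hcon
    obtain ⟨j₀, hj₀⟩ : ∃ j₀, c' j₀ ≠ 0 := by
      by_contra h3
      push Not at h3
      exact hcon (funext h3)
    -- the relation holds everywhere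
    have h3 : ∀ w ∈ pd R, ∑ j, c' j * u j w = 0 := by
      have hd : DifferentiableOn ℂ (fun w => ∑ j, c' j * u j w) (pd R) := DifferentiableOn.fun_sum fun j _ => (hud j).const_mul _
      have h4 := (hd.analyticOnNhd (pd_open R)).eqOn_zero_of_preconnected_of_frequently_eq_zero (pd_conn R) (z₀ := z) ⟨h1, h2⟩ hc'.frequently
      exact fun w hw => h4 hw
    -- a shorter relation
    set dd : ι → ℂ := fun t => if h : t ∈ T' then c' (e.symm ⟨t, h⟩) * c t else 0 with hdd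
    have hdde : ∀ i, dd (e i) = c' i * c (e i) := by
      intro i
      rw [hdd]
      simp only
      rw [dif_pos (e i).2]
      simp
    have hdds : dd s = 0 := by
      rw [hdd]
      simp only
      rw [dif_neg]
      rw [hT']
      exact Finset.notMem_erase s T
    have h4 : ∀ w ∈ pd R, ∑ t ∈ T', dd t * y t w = 0 := by
      intro w hw
      have h5 : ∑ t ∈ T', dd t * y t w = (c s * y s w) * ∑ j, c' j * u j w := by
        rw [← hsumE fun t => dd t * y t w, Finset.mul_sum]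
        refine Finset.sum_congr rfl fun i _ => ?_
        rw [hdde, hu]
        simp only
        have h6 := hne s hs w hw
        field_simp
      rw [h5, h3 w hw, mul_zero]
    obtain ⟨t₁, ht₁⟩ : ∃ t₁ : ι, t₁ = (e j₀ : ι) := ⟨_, rfl⟩
    have ht₁T : t₁ ∈ T := by rw [ht₁]; exact heT j₀
    have hdt₁ : dd t₁ ≠ 0 := by
      rw [ht₁, hdde]
      exact mul_ne_zero hj₀ (hc _ (heT j₀))
    set c₂ : ι → ℂ := fun t => c t - c t₁ / dd t₁ * dd t with hc₂
    have hc₂s : c₂ s = c s := by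
      rw [hc₂]
      simp only
      rw [hdds, mul_zero, sub_zero]
    have hc₂t : c₂ t₁ = 0 := by
      rw [hc₂]
      simp only
      rw [div_mul_cancel₀ _ hdt₁, sub_self]
    have hrel₂ : ∀ w ∈ pd R, ∑ t ∈ T, c₂ t * y t w = 0 := by
      intro w hw
      have h5 : ∑ t ∈ T, dd t * y t w = 0 := by
        rw [← Finset.add_sum_erase T (fun t => dd t * y t w) hsT, ← hT', h4 w hw, hdds, zero_mul, add_zero]
      have h6 : ∑ t ∈ T, c₂ t * y t w = ∑ t ∈ T, c t * y t w - c t₁ / dd t₁ * ∑ t ∈ T, dd t * y t w := by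
        rw [Finset.mul_sum, ← Finset.sum_sub_distrib]
        refine Finset.sum_congr rfl fun t _ => ?_
        rw [hc₂]
        ring
      rw [h6, hrel w hw, h5, mul_zero, sub_zero]
    have hsub : T.filter (fun t => c₂ t ≠ 0) ⊆ T := Finset.filter_subset _ _
    have h7 := hmin' (T.filter fun t => c₂ t ≠ 0) (hsub.trans hTS) ⟨Finset.mem_filter.2 ⟨hsT, by rw [hc₂s]; exact hcs⟩, c₂, fun t ht => (Finset.mem_filter.1 ht).2, fun w hw => by
      rw [Finset.sum_filter_of_ne]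
      · exact hrel₂ w hw
      · intro t _ ht h8
        exact ht (by rw [h8, zero_mul])⟩
    have h8 : (T.filter fun t => c₂ t ≠ 0) ⊂ T := by
      refine (Finset.ssubset_iff_of_subset hsub).2 ⟨t₁, ht₁T, ?_⟩
      rw [Finset.mem_filter]
      exact fun h => h.2 hc₂t
    exact absurd (Finset.card_lt_card h8) (not_lt.2 h7)
  · have h3 := (Bor_mero (hud j) (hune j) ⟨h1, h2⟩).2
    have h4 : ordZ (u j) z = 0 := by
      unfold ordZ
      rw [h3]
      rfl
    rw [h4]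
    exact dvd_zero _

end Pool.Agent.HE

end

section

/-!
# HE NakB: the values of the pieces, any `κ + 1` of which have no common zeros

`TD`: `Q s` are forms of degree `e` with coefficients meromorphic at `0`; `w` is near the puncture locally proportional to a holomorphic curve (`Pa`), and they have no zeros on it.  For all `S`, `|S| = κ + 1`, and `t` a product of powers of the `Q s (w) / Q t (w)`, `s ∈ S`, is meromorphic at `0`
(`TD.gam`).
-/

set_option autoImplicit false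

open Topology Filter Metric MvPolynomial

namespace Pool.Agent.HE

open Pool.Agent.H62.FC (MeroPunct PunctMero cartan_punctMero)

variable {N m κ e : ℕ}

theorem pd_of_ev {p : ℂ → Prop} (h : ∀ᶠ z in 𝓝[≠] (0 : ℂ), p z) : ∃ R : ℝ, 0 < R ∧ ∀ z ∈ pd R, p z := by
  obtain ⟨R, hR, h1⟩ := Metric.eventually_nhds_iff_ball.1 (eventually_nhdsWithin_iff.1 h)
  exact ⟨R, hR, fun z hz => h1 z (by simpa using hz.2) (norm_pos_iff.1 hz.1)⟩

/-- the value of a form with meromorphic coefficients on the curve -/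
noncomputable def va (w : Fin (N + 1) → ℂ → ℂ) (P : MvPolynomial (Fin (N + 1)) MF) (z : ℂ) : ℂ := eval (fun i => w i z) (P.map (ev z))

/-- `w` is near `z` proportional to a holomorphic curve -/
def Pa (w : Fin (N + 1) → ℂ → ℂ) (z : ℂ) : Prop := ∃ φ : Fin (N + 1) → ℂ → ℂ, (∀ i, AnalyticAt ℂ (φ i) z) ∧ ∀ᶠ ζ in 𝓝 z, ∃ c : ℂ, c ≠ 0 ∧ ∀ i, w i ζ = c * φ i ζ

/-- the transferred data -/
structure TD (κ : ℕ) (e : ℕ) (w : Fin (N + 1) → ℂ → ℂ) (Q : Fin m → MvPolynomial (Fin (N + 1)) MF) : Prop where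
  an : ∀ᶠ z in 𝓝[≠] (0 : ℂ), Pa w z
  ne : ∀ᶠ z in 𝓝[≠] (0 : ℂ), ∃ i, w i z ≠ 0
  pos : 0 < e
  hom : ∀ s, (Q s).IsHomogeneous e
  val : ∀ s, ∀ᶠ z in 𝓝[≠] (0 : ℂ), va w (Q s) z ≠ 0
  id : ∀ S : Finset (Fin m), S.card = κ + 1 → ∃ n : ℕ, 0 < n ∧ e ≤ n ∧ ∃ b : Fin (N + 1) → Fin m → MvPolynomial (Fin (N + 1)) MF, (∀ l s, (b l s).IsHomogeneous (n - e)) ∧
    ∀ l, ∀ᶠ z in 𝓝[≠] (0 : ℂ), w l z ^ n = ∑ s ∈ S, va w (b l s) z * va w (Q s) z

/-- germs at the puncture -/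
noncomputable def gp : (ℂ → ℂ) →+* Germ (𝓝[≠] (0 : ℂ)) ℂ := Germ.coeRingHom _

theorem gp_eq (f g : ℂ → ℂ) : gp f = gp g ↔ ∀ᶠ z in 𝓝[≠] (0 : ℂ), f z = g z := Germ.coe_eq

theorem gp_va {σ : Type} (w : σ → ℂ → ℂ) (P : MvPolynomial σ MF) : eval₂Hom (gp.comp MF.subtype) (fun i => gp (w i)) P = gp fun z => eval (fun i => w i z) (P.map (ev z)) := by
  have h1 : (fun z => eval (fun i => w i z) (P.map (ev z))) = eval₂ MF.subtype w P := by
    funext z
    rw [eval_map]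
    have h2 := MvPolynomial.eval₂_comp_left (Pi.evalRingHom (fun _ : ℂ => ℂ) z) MF.subtype w P
    exact h2.symm
  rw [h1, coe_eval₂Hom]
  exact (MvPolynomial.eval₂_comp_left gp MF.subtype w P).symm

theorem mf_an (f : MF) : ∀ᶠ z in 𝓝[≠] (0 : ℂ), AnalyticAt ℂ (f : ℂ → ℂ) z := f.2.eventually_analyticAt

/-- values are holomorphic -/
private theorem va_an_at {φ : Fin (N + 1) → ℂ → ℂ} {P : MvPolynomial (Fin (N + 1)) MF} {z : ℂ} (h3 : ∀ α ∈ P.support, AnalyticAt ℂ ((P.coeff α : MF) : ℂ → ℂ) z) (h4 : ∀ i, AnalyticAt ℂ (φ i) z) :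
    AnalyticAt ℂ (va φ P) z := by
  have h5 : va φ P = fun z => ∑ α ∈ P.support, ((P.coeff α : MF) : ℂ → ℂ) z * ∏ i, φ i z ^ α i := by
    funext z
    unfold va
    rw [eval_map, MvPolynomial.eval₂_eq']
    rfl
  rw [h5]
  exact Finset.analyticAt_fun_sum _ fun α hα => (h3 α hα).mul (Finset.analyticAt_fun_prod _ fun i _ => (h4 i).pow _)

theorem va_scale {P : MvPolynomial (Fin (N + 1)) MF} {d : ℕ} (hP : P.IsHomogeneous d) {w φ : Fin (N + 1) → ℂ → ℂ} {c ζ : ℂ} (h : ∀ i, w i ζ = c * φ i ζ) : va w P ζ = c ^ d * va φ P ζ := by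
  unfold va
  rw [eval_map, eval_map, MvPolynomial.eval₂_eq', MvPolynomial.eval₂_eq', Finset.mul_sum]
  refine Finset.sum_congr rfl fun α hα => ?_
  have h3 : α.degree = d := by
    have h4 := hP (mem_support_iff.1 hα)
    have h5 : Finsupp.weight (1 : Fin (N + 1) → ℕ) α = Finsupp.degree α := (congrFun (congrArg DFunLike.coe (Finsupp.degree_eq_weight_one (σ := Fin (N + 1)) (R := ℕ))) α).symm
    rw [← h5, h4]
  have h6 : ∏ i, w i ζ ^ α i = c ^ d * ∏ i, φ i ζ ^ α i := by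
    rw [Finset.prod_congr rfl fun i _ => by rw [h i, mul_pow], Finset.prod_mul_distrib, Finset.prod_pow_eq_pow_sum]
    congr 2
    rw [← h3, Finsupp.degree_eq_sum]
  rw [h6]
  ring

/-- quotients of values of forms of the same degree are holomorphic -/
theorem va_quo {w : Fin (N + 1) → ℂ → ℂ} (hw : ∀ᶠ z in 𝓝[≠] (0 : ℂ), Pa w z) {P P' : MvPolynomial (Fin (N + 1)) MF} {d : ℕ} (hP : P.IsHomogeneous d) (hP' : P'.IsHomogeneous d)
    (hne : ∀ᶠ z in 𝓝[≠] (0 : ℂ), va w P' z ≠ 0) : ∀ᶠ z in 𝓝[≠] (0 : ℂ), AnalyticAt ℂ (fun z => va w P z / va w P' z) z := by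
  have h1 : ∀ P : MvPolynomial (Fin (N + 1)) MF, ∀ᶠ z in 𝓝[≠] (0 : ℂ), ∀ α ∈ P.support, AnalyticAt ℂ ((P.coeff α : MF) : ℂ → ℂ) z := fun P => (Finset.eventually_all _).2 fun α _ => mf_an _
  filter_upwards [h1 P, h1 P', hw, hne] with z h2 h3 h4 h5
  obtain ⟨φ, h6, h7⟩ := h4
  have h8 : va φ P' z ≠ 0 := by
    obtain ⟨c, hc, h9⟩ := h7.self_of_nhds
    rw [va_scale hP' h9] at h5
    exact right_ne_zero_of_mul h5
  refine ((va_an_at h2 h6).div (va_an_at h3 h6) h8).congr ?_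
  filter_upwards [h7] with ζ h9
  obtain ⟨c, hc, h10⟩ := h9
  rw [va_scale hP h10, va_scale hP' h10, mul_div_mul_left _ _ (pow_ne_zero _ hc)]
  rfl

/-- **A product of powers of the quotients is meromorphic.** -/
theorem TD.gam {w : Fin (N + 1) → ℂ → ℂ} {Q : Fin m → MvPolynomial (Fin (N + 1)) MF} (T : TD κ e w Q) {S : Finset (Fin m)} (hS : S.card = κ + 1) (t : Fin m) :
    ∃ γ : Fin m → ℕ, (∀ s, γ s ≠ 0 → s ∈ S) ∧ (∃ s, γ s ≠ 0) ∧ PunctMero fun z => ∏ s ∈ S, (va w (Q s) z / va w (Q t) z) ^ γ s := by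
  classical
  obtain ⟨n, hn0, hne, b, hb, hid⟩ := T.id S hS
  set θ₀ : MF →+* Germ (𝓝[≠] (0 : ℂ)) ℂ := gp.comp MF.subtype with hθ₀
  have hΘ : ∀ P : MvPolynomial (Fin (N + 1)) MF, eval₂Hom θ₀ (fun i => gp (w i)) P = gp (va w P) := fun P => gp_va w P
  obtain ⟨r, hr1, hr2⟩ := nak (ι := S) (B := Germ (𝓝[≠] (0 : ℂ)) ℂ) θ₀ (fun i => gp (w i)) (e := e) (n := n) (Q := fun s => Q s) (Qt := Q t) (T.hom t)
    (u := gp fun z => (va w (Q t) z)⁻¹) (by
      rw [hΘ, ← map_mul, ← map_one gp, gp_eq]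
      filter_upwards [T.val t] with z hz
      exact mul_inv_cancel₀ hz) (b := fun l s => b l s) hn0 hne (fun l s => hb l s) (fun l => by
      have h1 : ∀ s : S, eval₂Hom θ₀ (fun i => gp (w i)) (b l s) * eval₂Hom θ₀ (fun i => gp (w i)) (Q s) = gp (va w (b l s) * va w (Q s)) := fun s => by
        rw [hΘ, hΘ, map_mul]
      rw [Finset.sum_congr rfl fun s _ => h1 s, ← map_sum, ← map_pow, gp_eq]
      filter_upwards [hid l] with z hz
      rw [Pi.pow_apply, hz, Finset.sum_apply, ← Finset.sum_coe_sort S]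
      rfl)
  -- the quotients
  obtain ⟨v, hv⟩ : ∃ v : S → ℂ → ℂ, v = fun (s : S) (z : ℂ) => va w (Q s) z / va w (Q t) z := ⟨_, rfl⟩
  have hvs : (fun s : S => eval₂Hom θ₀ (fun i => gp (w i)) (Q s) * gp fun z => (va w (Q t) z)⁻¹) = fun s => gp (v s) := by
    funext s
    rw [hΘ, ← map_mul, hv]
    rfl
  rw [hvs, hθ₀, gp_va] at hr2
  have hrel : ∀ᶠ z in 𝓝[≠] (0 : ℂ), eval (fun s => v s z) (r.map (ev z)) = 0 := by
    have h1 : ∀ l, ∀ᶠ z in 𝓝[≠] (0 : ℂ), w l z ^ ((N + 1) * n) * eval (fun s => v s z) (r.map (ev z)) = 0 := by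
      intro l
      have h2 := hr2 l
      rw [← map_pow, ← map_mul, ← map_zero gp, gp_eq] at h2
      exact h2
    filter_upwards [Filter.eventually_all.2 h1, T.ne] with z h2 h3
    obtain ⟨l, hl⟩ := h3
    exact (mul_eq_zero.1 (h2 l)).resolve_left (pow_ne_zero _ hl)
  -- the monomials
  obtain ⟨y, hy⟩ : ∃ y : (S →₀ ℕ) → ℂ → ℂ, y = fun γ z => ev z (coeff γ r) * ∏ s, v s z ^ γ s := ⟨_, rfl⟩
  have hval : ∀ z, eval (fun s => v s z) (r.map (ev z)) = ∑ γ ∈ r.support, y γ z := by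
    intro z
    rw [eval_map, MvPolynomial.eval₂_eq', hy]
  set supp : Finset (S →₀ ℕ) := r.support.filter fun γ => ¬ ∀ᶠ z in 𝓝[≠] (0 : ℂ), ev z (coeff γ r) = 0 with hsupp
  have hcne : ∀ γ ∈ supp, ∀ᶠ z in 𝓝[≠] (0 : ℂ), ev z (coeff γ r) ≠ 0 := by
    intro γ hγ
    rw [hsupp, Finset.mem_filter] at hγ
    exact ((coeff γ r).2.eventually_eq_zero_or_eventually_ne_zero).resolve_left hγ.2
  have hvan : ∀ s : S, ∀ᶠ z in 𝓝[≠] (0 : ℂ), AnalyticAt ℂ (v s) z ∧ v s z ≠ 0 := by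
    intro s
    filter_upwards [va_quo T.an (T.hom s) (T.hom t) (T.val t), T.val s, T.val t] with z h1 h3 h4
    rw [hv]
    exact ⟨h1, div_ne_zero h3 h4⟩
  have hyan : ∀ γ, ∀ᶠ z in 𝓝[≠] (0 : ℂ), AnalyticAt ℂ (y γ) z := by
    intro γ
    filter_upwards [Filter.eventually_all.2 hvan, mf_an (coeff γ r)] with z h1 h2
    rw [hy]
    exact h2.mul (Finset.analyticAt_fun_prod _ fun s _ => (h1 s).1.pow _)
  have hyne : ∀ γ ∈ supp, ∀ᶠ z in 𝓝[≠] (0 : ℂ), y γ z ≠ 0 := by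
    intro γ hγ
    filter_upwards [Filter.eventually_all.2 hvan, hcne γ hγ] with z h1 h2
    rw [hy]
    exact mul_ne_zero h2 (Finset.prod_ne_zero_iff.2 fun s _ => pow_ne_zero _ (h1 s).2)
  have hysum : ∀ᶠ z in 𝓝[≠] (0 : ℂ), ∑ γ ∈ supp, y γ z = 0 := by
    have h1 : ∀ᶠ z in 𝓝[≠] (0 : ℂ), ∀ γ ∈ r.support, γ ∉ supp → y γ z = 0 := by
      rw [Finset.eventually_all]
      intro γ hγ
      by_cases hs : γ ∈ supp
      · exact Filter.Eventually.of_forall fun z h => absurd hs h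
      · have h2 : ∀ᶠ z in 𝓝[≠] (0 : ℂ), ev z (coeff γ r) = 0 := by
          by_contra hcon
          exact hs (by rw [hsupp, Finset.mem_filter]; exact ⟨hγ, hcon⟩)
        filter_upwards [h2] with z hz _
        rw [hy]
        simp only
        rw [hz, zero_mul]
    filter_upwards [hrel, h1] with z h2 h3
    rw [hval] at h2
    rw [← h2]
    exact Finset.sum_subset (Finset.filter_subset _ _) h3
  obtain ⟨R, hR, hall⟩ := pd_of_ev (p := fun z => (∀ γ ∈ supp, AnalyticAt ℂ (y γ) z ∧ y γ z ≠ 0) ∧ ∑ γ ∈ supp, y γ z = 0) (by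
    have h1 : ∀ᶠ z in 𝓝[≠] (0 : ℂ), ∀ γ ∈ supp, AnalyticAt ℂ (y γ) z ∧ y γ z ≠ 0 := by
      rw [Finset.eventually_all]
      intro γ hγ
      filter_upwards [hyan γ, hyne γ hγ] with z h2 h3 using ⟨h2, h3⟩
    filter_upwards [h1, hysum] with z h2 h3 using ⟨h2, h3⟩)
  have h0 : (0 : S →₀ ℕ) ∈ supp := by
    have h1 : coeff (0 : S →₀ ℕ) r = 1 := hr1
    rw [hsupp, Finset.mem_filter, mem_support_iff, h1]
    refine ⟨one_ne_zero, fun h2 => ?_⟩
    obtain ⟨z, hz⟩ := h2.exists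
    rw [map_one] at hz
    exact one_ne_zero hz
  obtain ⟨γ, hγ, hγ0, hpm⟩ := borel hR supp (y := y) (fun γ hγ z hz => ((hall z hz).1 γ hγ).1.differentiableAt.differentiableWithinAt) (fun γ hγ z hz => ((hall z hz).1 γ hγ).2)
    (fun z hz => (hall z hz).2) h0
  refine ⟨fun s => if h : s ∈ S then γ ⟨s, h⟩ else 0, fun s hs => ?_, ?_, ?_⟩
  · by_contra h
    beta_reduce at hs
    rw [dif_neg h] at hs
    exact hs rfl
  · obtain ⟨s, hs⟩ := Finsupp.ne_iff.1 hγ0
    refine ⟨s, ?_⟩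
    beta_reduce
    rw [dif_pos s.2]
    exact hs
  · have h1 : PunctMero fun z => (y γ z / y 0 z) * (ev z (coeff γ r))⁻¹ := hpm.mul (PunctMero.of_meromorphicAt (coeff γ r).2).inv
    refine h1.congr ?_
    have h2 : ∀ᶠ z in 𝓝[≠] (0 : ℂ), ∀ᶠ ζ in 𝓝[≠] z, ev ζ (coeff γ r) ≠ 0 := by
      obtain ⟨R', hR', h3⟩ := pd_of_ev (hcne γ hγ)
      filter_upwards [pd_ev hR'] with z hz
      filter_upwards [nhdsWithin_le_nhds ((pd_open R').mem_nhds hz)] with ζ hζ using h3 ζ hζ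
    filter_upwards [h2] with z h3
    filter_upwards [h3] with ζ h4
    have h5 : y 0 ζ = 1 := by
      have h6 : coeff (0 : S →₀ ℕ) r = 1 := hr1
      rw [hy]
      simp only
      rw [h6, map_one, one_mul]
      exact Finset.prod_eq_one fun s _ => by rw [Finsupp.zero_apply, pow_zero]
    rw [h5, div_one, hy]
    simp only
    rw [mul_comm, ← mul_assoc, inv_mul_cancel₀ h4, one_mul, ← Finset.prod_coe_sort S]
    refine Finset.prod_congr rfl fun s _ => ?_
    rw [dif_pos s.2, hv]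

end Pool.Agent.HE

end

section

/-!
# HE Cvx: the quotients of the values of the pieces are meromorphic

`cvx`: a subgroup `H` of `ℤ^m`, `m ≥ 2 κ + 1`, with `n a ∈ H → a ∈ H`, which for all `S`, `|S| = κ + 1`, and `t` contains a combination `∑ s ∈ S, γ s (δ s - δ t)` with nonnegative coefficients, not all `0`, contains all `δ i - δ j`: otherwise a linear function `ν` is `0` on `H`, not constant on
the `δ i`; at most `κ` of the `ν (δ i)` are less than the maximum, and at most `κ` are greater than the minimum.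
-/

set_option autoImplicit false

open Topology Filter Metric MvPolynomial

namespace Pool.Agent.HE

open Pool.Agent.H62.FC (MeroPunct PunctMero cartan_punctMero)

theorem cvx_top {m κ : ℕ} (ν : Fin m → ℚ) (h : ∀ S : Finset (Fin m), S.card = κ + 1 → ∀ t, ∃ γ : Fin m → ℕ, (∃ s ∈ S, γ s ≠ 0) ∧ ∑ s ∈ S, (γ s : ℚ) * (ν s - ν t) = 0) (t : Fin m) :
    (Finset.univ.filter fun s => ν s < ν t).card ≤ κ := by
  classical
  by_contra hcon
  push Not at hcon
  obtain ⟨S, hS, hSc⟩ := Finset.exists_subset_card_eq (Nat.succ_le_of_lt hcon)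
  obtain ⟨γ, ⟨s, hs, hγ⟩, hsum⟩ := h S hSc t
  have hneg : ∀ s ∈ S, ν s - ν t < 0 := fun s hs => by
    have := (Finset.mem_filter.1 (hS hs)).2
    linarith
  have h1 : ∑ s ∈ S, (γ s : ℚ) * (ν s - ν t) < 0 := by
    refine Finset.sum_neg' (fun i hi => ?_) ⟨s, hs, ?_⟩
    · exact mul_nonpos_of_nonneg_of_nonpos (by positivity) (hneg i hi).le
    · exact mul_neg_of_pos_of_neg (by exact_mod_cast Nat.pos_of_ne_zero hγ) (hneg s hs)
  linarith

theorem cvx {m κ : ℕ} (hm : 2 * κ + 1 ≤ m) (H : AddSubgroup (Fin m → ℤ)) (hsat : ∀ (n : ℕ) (a : Fin m → ℤ), 0 < n → n • a ∈ H → a ∈ H)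
    (h : ∀ S : Finset (Fin m), S.card = κ + 1 → ∀ t, ∃ γ : Fin m → ℕ, (∃ s ∈ S, γ s ≠ 0) ∧ ∑ s ∈ S, (γ s : ℤ) • (Pi.single s 1 - Pi.single t 1 : Fin m → ℤ) ∈ H) (i j : Fin m) :
    (Pi.single i 1 - Pi.single j 1 : Fin m → ℤ) ∈ H := by
  classical
  set c : (Fin m → ℤ) →+ (Fin m → ℚ) := ⟨⟨fun a s => (a s : ℚ), by funext s; simp⟩, fun a b => by funext s; simp⟩ with hc
  have hcinj : Function.Injective c := by
    intro a b hab
    funext s
    have h1 : (a s : ℚ) = b s := congrFun hab s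
    exact_mod_cast h1
  set V : Submodule ℚ (Fin m → ℚ) := Submodule.span ℚ (c '' (H : Set (Fin m → ℤ))) with hV
  -- elements of the span
  have hspan : ∀ x ∈ V, ∃ (n : ℕ) (a : Fin m → ℤ), 0 < n ∧ a ∈ H ∧ n • x = c a := by
    intro x hx
    induction hx using Submodule.span_induction with
    | mem x hx =>
      obtain ⟨a, ha, rfl⟩ := hx
      exact ⟨1, a, one_pos, ha, one_smul _ _⟩
    | zero => exact ⟨1, 0, one_pos, H.zero_mem, by simp⟩
    | add x y _ _ hx hy =>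
      obtain ⟨n, a, hn, ha, h1⟩ := hx
      obtain ⟨n', a', hn', ha', h1'⟩ := hy
      refine ⟨n * n', n' • a + n • a', Nat.mul_pos hn hn', H.add_mem (H.nsmul_mem ha _) (H.nsmul_mem ha' _), ?_⟩
      rw [map_add, map_nsmul, map_nsmul, ← h1, ← h1', smul_smul, smul_smul, smul_add, mul_comm n' n]
    | smul r x _ hx =>
      obtain ⟨n, a, hn, ha, h1⟩ := hx
      refine ⟨r.den * n, r.num • a, Nat.mul_pos r.den_pos hn, H.zsmul_mem ha _, ?_⟩
      rw [map_zsmul, ← h1]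
      funext s
      have h2 : (r.den : ℚ) * r = r.num := by
        rw [mul_comm]
        exact Rat.mul_den_eq_num r
      have h3 : ((r.den * n) • (r • x)) s = ((r.den * n : ℕ) : ℚ) * (r * x s) := by
        rw [Pi.smul_apply, Pi.smul_apply, smul_eq_mul, nsmul_eq_mul]
      have h4 : (r.num • (n • x)) s = (r.num : ℚ) * ((n : ℚ) * x s) := by
        rw [Pi.smul_apply, Pi.smul_apply, nsmul_eq_mul, zsmul_eq_mul]
      rw [h3, h4, Nat.cast_mul]
      linear_combination ((n : ℚ) * x s) * h2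
  by_contra hcon
  have hx : c (Pi.single i 1 - Pi.single j 1) ∉ V := by
    intro hx
    obtain ⟨n, a, hn, ha, h1⟩ := hspan _ hx
    rw [← map_nsmul] at h1
    have h2 := hcinj h1
    exact hcon (hsat n _ hn (by rw [h2]; exact ha))
  obtain ⟨f, hf, hfV⟩ := Submodule.exists_le_ker_of_notMem hx
  set ν : Fin m → ℚ := fun s => f (Pi.single s 1) with hν
  have hcs : ∀ s, c (Pi.single s 1) = Pi.single s 1 := by
    intro s
    funext s'
    show ((Pi.single s 1 : Fin m → ℤ) s' : ℚ) = (Pi.single s 1 : Fin m → ℚ) s'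
    rw [Pi.single_apply, Pi.single_apply]
    split_ifs <;> simp
  have hν' : ∀ s t, f (c (Pi.single s 1 - Pi.single t 1)) = ν s - ν t := by
    intro s t
    rw [map_sub, map_sub, hcs, hcs]
  have hne : ν i ≠ ν j := by
    rw [hν'] at hf
    exact sub_ne_zero.1 hf
  have hγ : ∀ S : Finset (Fin m), S.card = κ + 1 → ∀ t, ∃ γ : Fin m → ℕ, (∃ s ∈ S, γ s ≠ 0) ∧ ∑ s ∈ S, (γ s : ℚ) * (ν s - ν t) = 0 := by
    intro S hS t
    obtain ⟨γ, h1, h2⟩ := h S hS t
    refine ⟨γ, h1, ?_⟩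
    have h3 : f (c (∑ s ∈ S, (γ s : ℤ) • (Pi.single s 1 - Pi.single t 1 : Fin m → ℤ))) = 0 := hfV (Submodule.subset_span ⟨_, h2, rfl⟩)
    rw [map_sum, map_sum] at h3
    rw [← h3]
    refine Finset.sum_congr rfl fun s _ => ?_
    rw [map_zsmul, map_zsmul, hν', zsmul_eq_mul]
    norm_cast
  -- the maximum and the minimum
  obtain ⟨t, -, ht⟩ := Finset.exists_max_image Finset.univ ν ⟨i, Finset.mem_univ i⟩
  obtain ⟨t', -, ht'⟩ := Finset.exists_min_image Finset.univ ν ⟨i, Finset.mem_univ i⟩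
  have h1 := cvx_top ν hγ t
  have h2 := cvx_top (κ := κ) (fun s => -ν s) (fun S hS t => by
    obtain ⟨γ, h3, h4⟩ := hγ S hS t
    refine ⟨γ, h3, ?_⟩
    have h5 : ∑ s ∈ S, (γ s : ℚ) * (-ν s - -ν t) = -∑ s ∈ S, (γ s : ℚ) * (ν s - ν t) := by
      rw [← Finset.sum_neg_distrib]
      refine Finset.sum_congr rfl fun s _ => ?_
      ring
    rw [h5, h4, neg_zero]) t'
  have hlt : ν t' < ν t := by
    rcases lt_or_gt_of_ne hne with h3 | h3
    · exact (ht' i (Finset.mem_univ i)).trans_lt (h3.trans_le (ht j (Finset.mem_univ j)))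
    · exact (ht' j (Finset.mem_univ j)).trans_lt (h3.trans_le (ht i (Finset.mem_univ i)))
  have h3 : (Finset.univ : Finset (Fin m)) ⊆ (Finset.univ.filter fun s => ν s < ν t) ∪ (Finset.univ.filter fun s => -ν s < -ν t') := by
    intro s _
    rw [Finset.mem_union, Finset.mem_filter, Finset.mem_filter]
    by_cases hs : ν s < ν t
    · exact Or.inl ⟨Finset.mem_univ s, hs⟩
    · exact Or.inr ⟨Finset.mem_univ s, by push Not at hs; linarith⟩
  have h4 := (Finset.card_le_card h3).trans (Finset.card_union_le _ _)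
  rw [Finset.card_univ, Fintype.card_fin] at h4
  omega

/-- **The quotients of the pieces are meromorphic.** -/
theorem TD.quo {N m κ e : ℕ} {w : Fin (N + 1) → ℂ → ℂ} {Q : Fin m → MvPolynomial (Fin (N + 1)) MF} (T : TD κ e w Q) (hm : 2 * κ + 1 ≤ m) (i j : Fin m) :
    PunctMero fun z => va w (Q i) z / va w (Q j) z := by
  classical
  obtain ⟨R, hR, hall⟩ := pd_of_ev (p := fun z => ∀ s, AnalyticAt ℂ (fun z => va w (Q s) z / va w (Q j) z) z ∧ va w (Q s) z ≠ 0) (by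
    rw [Filter.eventually_all]
    intro s
    filter_upwards [va_quo T.an (T.hom s) (T.hom j) (T.val j), T.val s] with z h1 h2 using ⟨h1, h2⟩)
  obtain ⟨u, hu⟩ : ∃ u : Fin m → ℂ → ℂ, u = fun s z => va w (Q s) z / va w (Q j) z := ⟨_, rfl⟩
  have hall' : ∀ z ∈ pd R, ∀ s, AnalyticAt ℂ (u s) z ∧ u s z ≠ 0 := by
    rw [hu]
    exact fun z hz s => ⟨(hall z hz s).1, div_ne_zero (hall z hz s).2 (hall z hz j).2⟩
  have hquo : ∀ z ∈ pd R, ∀ s t, u s z / u t z = va w (Q s) z / va w (Q t) z := by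
    intro z hz s t
    rw [hu]
    exact div_div_div_cancel_right₀ (hall z hz j).2 _ _
  have hne : ∀ z ∈ pd R, ∀ s, u s z ≠ 0 := fun z hz s => (hall' z hz s).2
  -- congruence
  have hcg : ∀ {f g : ℂ → ℂ}, PunctMero f → (∀ z ∈ pd R, f z = g z) → PunctMero g := by
    intro f g hf h
    refine hf.congr ?_
    filter_upwards [pd_ev hR] with z hz
    filter_upwards [nhdsWithin_le_nhds ((pd_open R).mem_nhds hz)] with ζ hζ using h ζ hζ
  set H : AddSubgroup (Fin m → ℤ) :=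
    { carrier := {a | PunctMero fun z => ∏ s, u s z ^ a s}
      zero_mem' := by
        have h1 : (fun z => ∏ s, u s z ^ (0 : Fin m → ℤ) s) = fun _ => (1 : ℂ) := by
          funext z
          exact Finset.prod_eq_one fun s _ => by rw [Pi.zero_apply, zpow_zero]
        show PunctMero _
        rw [h1]
        exact PunctMero.const 1
      add_mem' := by
        intro a b ha hb
        refine hcg (ha.mul hb) fun z hz => ?_
        rw [← Finset.prod_mul_distrib]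
        refine Finset.prod_congr rfl fun s _ => ?_
        rw [Pi.add_apply, zpow_add₀ (hne z hz s)]
      neg_mem' := by
        intro a ha
        refine hcg ha.inv fun z hz => ?_
        rw [← Finset.prod_inv_distrib]
        refine Finset.prod_congr rfl fun s _ => ?_
        rw [Pi.neg_apply, zpow_neg] } with hH
  have hHmem : ∀ a : Fin m → ℤ, a ∈ H ↔ PunctMero fun z => ∏ s, u s z ^ a s := fun a => Iff.rfl
  have hsingle : ∀ z ∈ pd R, ∀ s t, ∏ s', u s' z ^ (Pi.single s 1 - Pi.single t 1 : Fin m → ℤ) s' = u s z / u t z := by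
    intro z hz s t
    have h1 : ∀ s', u s' z ^ (Pi.single s 1 - Pi.single t 1 : Fin m → ℤ) s' = (if s' = s then u s' z else 1) * (if s' = t then (u s' z)⁻¹ else 1) := by
      intro s'
      rw [Pi.sub_apply, zpow_sub₀ (hne z hz s'), Pi.single_apply, Pi.single_apply, div_eq_mul_inv]
      congr 1
      · split_ifs
        · rw [zpow_one]
        · rw [zpow_zero]
      · split_ifs
        · rw [zpow_one]
        · rw [zpow_zero, inv_one]
    rw [Finset.prod_congr rfl fun s' _ => h1 s', Finset.prod_mul_distrib, Finset.prod_ite_eq', Finset.prod_ite_eq', if_pos (Finset.mem_univ _), if_pos (Finset.mem_univ _), div_eq_mul_inv]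
  have hsat : ∀ (n : ℕ) (a : Fin m → ℤ), 0 < n → n • a ∈ H → a ∈ H := by
    intro n a hn ha
    rw [hHmem] at ha ⊢
    refine PunctMero.root hR (f := fun z => ∏ s, u s z ^ a s) ?_ hn (hcg ha fun z hz => ?_)
    · have h1 : ∀ z ∈ pd R, AnalyticAt ℂ (fun z => ∏ s, u s z ^ a s) z := fun z hz => Finset.analyticAt_fun_prod _ fun s _ => (hall' z hz s).1.zpow (hall' z hz s).2
      refine ⟨fun z h2 h3 => (h1 z ⟨h2, h3⟩).meromorphicAt, fun z h2 h3 => ?_⟩
      have h4 : (fun z => ∏ s, u s z ^ a s) z ≠ 0 := Finset.prod_ne_zero_iff.2 fun s _ => zpow_ne_zero _ (hne z ⟨h2, h3⟩ s)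
      rw [(h1 z ⟨h2, h3⟩).meromorphicOrderAt_eq, (h1 z ⟨h2, h3⟩).analyticOrderAt_eq_zero.2 h4]
      exact WithTop.zero_ne_top
    · rw [← Finset.prod_pow]
      refine Finset.prod_congr rfl fun s _ => ?_
      rw [Pi.smul_apply, nsmul_eq_mul, mul_comm, zpow_mul, zpow_natCast]
  have h1 := cvx hm H hsat (fun S hS t => by
    obtain ⟨γ, h2, ⟨s, hs⟩, h3⟩ := T.gam hS t
    refine ⟨γ, ⟨s, h2 s hs, hs⟩, ?_⟩
    rw [hHmem]
    refine hcg h3 fun z hz => ?_
    have h4 : ∀ s', u s' z ^ (∑ s ∈ S, (γ s : ℤ) • (Pi.single s 1 - Pi.single t 1 : Fin m → ℤ)) s' = ∏ s ∈ S, (u s' z ^ (Pi.single s 1 - Pi.single t 1 : Fin m → ℤ) s') ^ γ s := by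
      intro s'
      rw [Finset.sum_apply]
      have h5 : ∀ T' : Finset (Fin m), u s' z ^ (∑ s ∈ T', ((γ s : ℤ) • (Pi.single s 1 - Pi.single t 1 : Fin m → ℤ)) s') = ∏ s ∈ T', (u s' z ^ (Pi.single s 1 - Pi.single t 1 : Fin m → ℤ) s') ^ γ s := by
        intro T'
        induction T' using Finset.induction_on with
        | empty => rw [Finset.sum_empty, Finset.prod_empty, zpow_zero]
        | insert a T' ha ih =>
          rw [Finset.sum_insert ha, Finset.prod_insert ha, zpow_add₀ (hne z hz s'), ih, Pi.smul_apply, smul_eq_mul, mul_comm (γ a : ℤ), zpow_mul, zpow_natCast]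
      exact h5 S
    rw [Finset.prod_congr rfl fun s' _ => h4 s', Finset.prod_comm]
    refine Finset.prod_congr rfl fun s _ => ?_
    rw [Finset.prod_pow, hsingle z hz, hquo z hz]) i j
  rw [hHmem] at h1
  refine hcg h1 fun z hz => ?_
  rw [hsingle z hz, hquo z hz]

end Pool.Agent.HE

end

section

/-!
# HE Gro: moderate growth

`Md f`: `‖z‖ ^ K * ‖f z‖` is bounded near the puncture.  If the quotients `Q i (w) / Q j (w)` are meromorphic then the quotients of the coordinates of `w` are meromorphic (`TD.coord`): `(w k) ^ n = ∑ b k s (w) Q s (w)`, so the monomials of degree `e` in the `w k` divided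
by `Q j (w)` have moderate growth.
-/

set_option autoImplicit false

open Topology Filter Metric MvPolynomial

namespace Pool.Agent.HE

open Pool.Agent.H62.FC (MeroPunct PunctMero)

/-- moderate growth -/
def Md (f : ℂ → ℂ) : Prop := ∃ (K : ℕ) (C : ℝ), ∀ᶠ z in 𝓝[≠] (0 : ℂ), ‖z‖ ^ K * ‖f z‖ ≤ C

theorem ev_small {r : ℝ} (hr : 0 < r) : ∀ᶠ z in 𝓝[≠] (0 : ℂ), 0 < ‖z‖ ∧ ‖z‖ < r := pd_ev hr

theorem Md.of_mero {f : ℂ → ℂ} (hf : MeromorphicAt f 0) : Md f := by
  obtain ⟨n, h1⟩ := hf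
  have h2 : ContinuousAt (fun z : ℂ => ‖(z - 0) ^ n • f z‖) 0 := h1.continuousAt.norm
  refine ⟨n, ‖((0 : ℂ) - 0) ^ n • f 0‖ + 1, ?_⟩
  have h3 : ∀ᶠ z in 𝓝 (0 : ℂ), ‖(z - 0) ^ n • f z‖ < ‖((0 : ℂ) - 0) ^ n • f 0‖ + 1 := h2.eventually_lt_const (lt_add_one _)
  filter_upwards [nhdsWithin_le_nhds h3] with z hz
  rw [sub_zero, smul_eq_mul, norm_mul, norm_pow] at hz
  exact hz.le

theorem Md.congr {f g : ℂ → ℂ} (hf : Md f) (h : ∀ᶠ z in 𝓝[≠] (0 : ℂ), ‖g z‖ ≤ ‖f z‖) : Md g := by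
  obtain ⟨K, C, h1⟩ := hf
  refine ⟨K, C, ?_⟩
  filter_upwards [h1, h] with z h2 h3
  exact (mul_le_mul_of_nonneg_left h3 (by positivity)).trans h2

theorem Md.mul {f g : ℂ → ℂ} (hf : Md f) (hg : Md g) : Md fun z => f z * g z := by
  obtain ⟨K, C, h1⟩ := hf
  obtain ⟨K', C', h2⟩ := hg
  refine ⟨K + K', |C| * |C'|, ?_⟩
  filter_upwards [h1, h2] with z h3 h4
  rw [norm_mul, pow_add]
  calc ‖z‖ ^ K * ‖z‖ ^ K' * (‖f z‖ * ‖g z‖) = (‖z‖ ^ K * ‖f z‖) * (‖z‖ ^ K' * ‖g z‖) := by ring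
    _ ≤ |C| * |C'| := mul_le_mul (h3.trans (le_abs_self _)) (h4.trans (le_abs_self _)) (by positivity) (abs_nonneg _)

theorem Md.const (c : ℂ) : Md fun _ => c := Md.of_mero (MeromorphicAt.const c 0)

theorem Md.add {f g : ℂ → ℂ} (hf : Md f) (hg : Md g) : Md fun z => f z + g z := by
  obtain ⟨K, C, h1⟩ := hf
  obtain ⟨K', C', h2⟩ := hg
  refine ⟨K + K', |C| + |C'|, ?_⟩
  filter_upwards [h1, h2, ev_small one_pos] with z h3 h4 h5
  have h6 : ‖z‖ ^ K ≤ 1 := pow_le_one₀ (norm_nonneg _) h5.2.le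
  have h7 : ‖z‖ ^ K' ≤ 1 := pow_le_one₀ (norm_nonneg _) h5.2.le
  calc ‖z‖ ^ (K + K') * ‖f z + g z‖ ≤ ‖z‖ ^ (K + K') * (‖f z‖ + ‖g z‖) := mul_le_mul_of_nonneg_left (norm_add_le _ _) (by positivity)
    _ = ‖z‖ ^ K' * (‖z‖ ^ K * ‖f z‖) + ‖z‖ ^ K * (‖z‖ ^ K' * ‖g z‖) := by rw [pow_add]; ring
    _ ≤ 1 * (‖z‖ ^ K * ‖f z‖) + 1 * (‖z‖ ^ K' * ‖g z‖) := add_le_add (mul_le_mul_of_nonneg_right h7 (by positivity)) (mul_le_mul_of_nonneg_right h6 (by positivity))
    _ ≤ |C| + |C'| := by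
        rw [one_mul, one_mul]
        exact add_le_add (h3.trans (le_abs_self _)) (h4.trans (le_abs_self _))

theorem Md.sum {ι : Type*} (S : Finset ι) {f : ι → ℂ → ℂ} (hf : ∀ i ∈ S, Md (f i)) : Md fun z => ∑ i ∈ S, f i z := by
  classical
  induction S using Finset.induction_on with
  | empty => simpa using Md.const 0
  | insert a S ha ih =>
    have h1 : (fun z => ∑ i ∈ insert a S, f i z) = fun z => f a z + ∑ i ∈ S, f i z := funext fun z => Finset.sum_insert ha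
    rw [h1]
    exact (hf a (Finset.mem_insert_self _ _)).add (ih fun i hi => hf i (Finset.mem_insert_of_mem hi))

theorem ev_ev {p : ℂ → Prop} (h : ∀ᶠ z in 𝓝[≠] (0 : ℂ), p z) : ∀ᶠ z in 𝓝[≠] (0 : ℂ), ∀ᶠ ζ in 𝓝 z, p ζ := by
  obtain ⟨R, hR, h1⟩ := pd_of_ev h
  filter_upwards [pd_ev hR] with z hz
  filter_upwards [(pd_open R).mem_nhds hz] with ζ hζ using h1 ζ hζ

theorem Md.of_punct {f : ℂ → ℂ} (hf : PunctMero f) (hc : ∀ᶠ z in 𝓝[≠] (0 : ℂ), ContinuousAt f z) : Md f := by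
  obtain ⟨v, hv, h1⟩ := hf
  refine (Md.of_mero hv).congr ?_
  filter_upwards [h1, hc, hv.eventually_analyticAt] with z h2 h3 h4
  have h5 : f z = v z := tendsto_nhds_unique_of_eventuallyEq (h3.tendsto.mono_left nhdsWithin_le_nhds) (h4.continuousAt.tendsto.mono_left nhdsWithin_le_nhds) h2
  rw [h5]

theorem Md.punct {f : ℂ → ℂ} (hf : Md f) (hc : ∀ᶠ z in 𝓝[≠] (0 : ℂ), AnalyticAt ℂ f z) : PunctMero f := by
  obtain ⟨K, C, h1⟩ := hf
  obtain ⟨R, hR, h2⟩ := pd_of_ev (h1.and hc)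
  obtain ⟨v, hv, h3⟩ := Pool.Agent.H92.GGL.meromorphicAt_of_bounded (u := fun z => z ^ K * f z) (M := C) hR (fun z h4 h5 => (analyticAt_id.pow K).mul (h2 z ⟨h4, h5⟩).2)
    (fun z h4 h5 => by
      rw [norm_mul, norm_pow]
      exact (h2 z ⟨h4, h5⟩).1)
  have h4 : MeromorphicAt (fun z : ℂ => (z ^ K)⁻¹ * v z) 0 := ((analyticAt_id.pow K).meromorphicAt.inv).mul hv.meromorphicAt
  refine ⟨_, h4, ?_⟩
  filter_upwards [self_mem_nhdsWithin] with z h6
  have h7 : ∀ᶠ ζ in 𝓝[≠] z, ζ ≠ 0 := nhdsWithin_le_nhds (isOpen_ne.mem_nhds h6)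
  filter_upwards [h7] with ζ h8
  rw [h3 ζ h8, ← mul_assoc, inv_mul_cancel₀ (pow_ne_zero K h8), one_mul]

theorem Md.norm {f : ℂ → ℂ} (hf : Md f) : Md fun z => ((‖f z‖ : ℝ) : ℂ) :=
  hf.congr (Filter.Eventually.of_forall fun z => by rw [Complex.norm_real, norm_norm])

variable {N m κ e : ℕ}

theorem va_bound (w : Fin (N + 1) → ℂ → ℂ) {P : MvPolynomial (Fin (N + 1)) MF} {d : ℕ} (hP : P.IsHomogeneous d) :
    ∃ B : ℂ → ℂ, Md B ∧ ∀ z, ‖va w P z‖ ≤ ‖B z‖ * ‖fun i => w i z‖ ^ d := by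
  classical
  refine ⟨fun z => ∑ α ∈ P.support, ((‖ev z (coeff α P)‖ : ℝ) : ℂ), Md.sum _ fun α _ => (Md.of_mero (coeff α P).2).norm, fun z => ?_⟩
  have h1 : va w P z = ∑ α ∈ P.support, ev z (coeff α P) * ∏ i, w i z ^ α i := by
    unfold va
    rw [eval_map, MvPolynomial.eval₂_eq']
  have h2 : ‖∑ α ∈ P.support, ((‖ev z (coeff α P)‖ : ℝ) : ℂ)‖ = ∑ α ∈ P.support, ‖ev z (coeff α P)‖ := by
    rw [← Complex.ofReal_sum, Complex.norm_real, Real.norm_of_nonneg (Finset.sum_nonneg fun α _ => norm_nonneg _)]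
  rw [h1, h2, Finset.sum_mul]
  refine (norm_sum_le _ _).trans (Finset.sum_le_sum fun α hα => ?_)
  rw [norm_mul, norm_prod]
  refine mul_le_mul_of_nonneg_left ?_ (norm_nonneg _)
  have h3 : α.degree = d := by
    have h4 := hP (mem_support_iff.1 hα)
    have h5 : Finsupp.weight (1 : Fin (N + 1) → ℕ) α = Finsupp.degree α := (congrFun (congrArg DFunLike.coe (Finsupp.degree_eq_weight_one (σ := Fin (N + 1)) (R := ℕ))) α).symm
    rw [← h5, h4]
  rw [← h3, Finsupp.degree_eq_sum, ← Finset.prod_pow_eq_pow_sum]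
  refine Finset.prod_le_prod (fun i _ => norm_nonneg _) fun i _ => ?_
  rw [norm_pow]
  exact pow_le_pow_left₀ (norm_nonneg _) (norm_le_pi_norm (fun i => w i z) i) _

/-- the coordinates are dominated by the pieces -/
theorem TD.dom {w : Fin (N + 1) → ℂ → ℂ} {Q : Fin m → MvPolynomial (Fin (N + 1)) MF} (T : TD κ e w Q) (hm : 2 * κ + 1 ≤ m) (j : Fin m) :
    ∃ E : ℂ → ℂ, Md E ∧ ∀ᶠ z in 𝓝[≠] (0 : ℂ), ‖fun i => w i z‖ ^ e ≤ ‖E z‖ * ‖va w (Q j) z‖ := by
  classical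
  obtain ⟨S, -, hS⟩ : ∃ S ⊆ (Finset.univ : Finset (Fin m)), S.card = κ + 1 := Finset.exists_subset_card_eq (by rw [Finset.card_univ, Fintype.card_fin]; omega)
  obtain ⟨n, hn0, hne, b, hb, hid⟩ := T.id S hS
  have hB : ∀ l s, ∃ B : ℂ → ℂ, Md B ∧ ∀ z, ‖va w (b l s) z‖ ≤ ‖B z‖ * ‖fun i => w i z‖ ^ (n - e) := fun l s => va_bound w (hb l s)
  choose B hBm hB using hB
  have hq : ∀ s, Md fun z => va w (Q s) z / va w (Q j) z := by
    intro s
    refine Md.of_punct (T.quo hm s j) ?_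
    filter_upwards [va_quo T.an (T.hom s) (T.hom j) (T.val j)] with z h1
    exact h1.continuousAt
  refine ⟨fun z => ∑ p ∈ (Finset.univ : Finset (Fin (N + 1))) ×ˢ S, ((‖B p.1 p.2 z * (va w (Q p.2) z / va w (Q j) z)‖ : ℝ) : ℂ), Md.sum _ fun p _ => ((hBm p.1 p.2).mul (hq p.2)).norm, ?_⟩
  filter_upwards [Filter.eventually_all.2 hid, T.ne, T.val j] with z h1 h2 h3
  obtain ⟨W, hW⟩ : ∃ W, W = ‖fun i => w i z‖ := ⟨_, rfl⟩
  have hW0 : 0 < W := by
    obtain ⟨i, hi⟩ := h2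
    rw [hW]
    exact (norm_pos_iff.2 hi).trans_le (norm_le_pi_norm (fun i => w i z) i)
  obtain ⟨l, hl⟩ : ∃ l, W ≤ ‖w l z‖ := by
    obtain ⟨l, hl⟩ := Finite.exists_max fun i => ‖w i z‖
    exact ⟨l, by rw [hW]; exact (pi_norm_le_iff_of_nonneg (norm_nonneg _)).2 hl⟩
  have h4 : W ^ n ≤ ∑ s ∈ S, ‖B l s z‖ * W ^ (n - e) * ‖va w (Q s) z‖ := by
    calc W ^ n ≤ ‖w l z‖ ^ n := pow_le_pow_left₀ hW0.le hl _
      _ = ‖∑ s ∈ S, va w (b l s) z * va w (Q s) z‖ := by rw [← norm_pow, h1 l]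
      _ ≤ ∑ s ∈ S, ‖va w (b l s) z * va w (Q s) z‖ := norm_sum_le _ _
      _ ≤ _ := by
          refine Finset.sum_le_sum fun s _ => ?_
          rw [norm_mul]
          refine mul_le_mul_of_nonneg_right ?_ (norm_nonneg _)
          rw [hW]
          exact hB l s z
  have h5 : W ^ n = W ^ e * W ^ (n - e) := by rw [← pow_add]; congr 1; omega
  have h6 : W ^ e ≤ ∑ s ∈ S, ‖B l s z‖ * ‖va w (Q s) z‖ := by
    have h7 : ∑ s ∈ S, ‖B l s z‖ * W ^ (n - e) * ‖va w (Q s) z‖ = (∑ s ∈ S, ‖B l s z‖ * ‖va w (Q s) z‖) * W ^ (n - e) := by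
      rw [Finset.sum_mul]
      exact Finset.sum_congr rfl fun s _ => by ring
    rw [h5, h7] at h4
    exact le_of_mul_le_mul_right h4 (by positivity)
  rw [← hW]
  refine h6.trans ?_
  have h8 : ‖∑ p ∈ (Finset.univ : Finset (Fin (N + 1))) ×ˢ S, ((‖B p.1 p.2 z * (va w (Q p.2) z / va w (Q j) z)‖ : ℝ) : ℂ)‖ = ∑ p ∈ (Finset.univ : Finset (Fin (N + 1))) ×ˢ S, ‖B p.1 p.2 z * (va w (Q p.2) z / va w (Q j) z)‖ := by
    rw [← Complex.ofReal_sum, Complex.norm_real, Real.norm_of_nonneg (Finset.sum_nonneg fun α _ => norm_nonneg _)]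
  rw [h8, Finset.sum_product]
  have h9 : ∑ s ∈ S, ‖B l s z‖ * ‖va w (Q s) z‖ = (∑ s ∈ S, ‖B l s z * (va w (Q s) z / va w (Q j) z)‖) * ‖va w (Q j) z‖ := by
    rw [Finset.sum_mul]
    refine Finset.sum_congr rfl fun s _ => ?_
    rw [norm_mul, norm_div]
    have h10 : ‖va w (Q j) z‖ ≠ 0 := norm_ne_zero_iff.2 h3
    field_simp
  rw [h9]
  refine mul_le_mul_of_nonneg_right ?_ (norm_nonneg _)
  exact Finset.single_le_sum (f := fun l => ∑ s ∈ S, ‖B l s z * (va w (Q s) z / va w (Q j) z)‖) (fun i _ => Finset.sum_nonneg fun s _ => norm_nonneg _) (Finset.mem_univ l)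

/-- **The quotients of the coordinates are meromorphic.** -/
theorem TD.coord {w : Fin (N + 1) → ℂ → ℂ} {Q : Fin m → MvPolynomial (Fin (N + 1)) MF} (T : TD κ e w Q) (hm : 2 * κ + 1 ≤ m) :
    ∃ l, (∀ᶠ z in 𝓝[≠] (0 : ℂ), w l z ≠ 0) ∧ ∀ k, Md fun z => w k z / w l z := by
  classical
  obtain ⟨j, -⟩ : ∃ j : Fin m, True := ⟨⟨0, by omega⟩, trivial⟩
  obtain ⟨E, hE, hdom⟩ := T.dom hm j
  obtain ⟨A, hA⟩ : ∃ A : Fin (N + 1) → Fin (N + 1) → ℂ → ℂ, A = fun k l z => w l z ^ (e - 1) * w k z / va w (Q j) z := ⟨_, rfl⟩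
  have hAan : ∀ k l, ∀ᶠ z in 𝓝[≠] (0 : ℂ), AnalyticAt ℂ (A k l) z := by
    intro k l
    have h0 : (X l ^ (e - 1) * X k : MvPolynomial (Fin (N + 1)) MF).IsHomogeneous e := by
      have h1 := (isHomogeneous_X_pow (R := MF) l (e - 1)).mul (isHomogeneous_X MF k)
      rwa [Nat.sub_add_cancel T.pos] at h1
    filter_upwards [va_quo T.an h0 (T.hom j) (T.val j)] with z h1
    have h2 : A k l = fun z => va w (X l ^ (e - 1) * X k) z / va w (Q j) z := by
      funext ζ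
      rw [hA]
      unfold va
      simp only [map_mul, map_pow, map_X, eval_X]
    rw [h2]
    exact h1
  have hAmd : ∀ k l, Md (A k l) := by
    intro k l
    refine hE.congr ?_
    filter_upwards [hdom, T.val j] with z h1 h2
    have h3 : 0 < ‖va w (Q j) z‖ := norm_pos_iff.2 h2
    rw [hA]
    simp only
    rw [norm_div, norm_mul, norm_pow, div_le_iff₀ h3]
    refine le_trans ?_ h1
    have h4 : ‖fun i => w i z‖ ^ e = ‖fun i => w i z‖ ^ (e - 1) * ‖fun i => w i z‖ := by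
      rw [← pow_succ]
      congr 1
      have := T.pos
      omega
    rw [h4]
    exact mul_le_mul (pow_le_pow_left₀ (norm_nonneg _) (norm_le_pi_norm (fun i => w i z) l) _) (norm_le_pi_norm (fun i => w i z) k) (norm_nonneg _) (by positivity)
  have hAp : ∀ k l, PunctMero (A k l) := fun k l => (hAmd k l).punct (hAan k l)
  have hAll : ∀ l, ∀ᶠ z in 𝓝[≠] (0 : ℂ), (A l l z = w l z ^ e / va w (Q j) z) := by
    intro l
    refine Filter.Eventually.of_forall fun z => ?_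
    rw [hA]
    simp only
    rw [← pow_succ]
    congr 2
    have := T.pos
    omega
  -- dichotomy
  have hdich : ∀ l, (∀ᶠ z in 𝓝[≠] (0 : ℂ), w l z = 0) ∨ ∀ᶠ z in 𝓝[≠] (0 : ℂ), w l z ≠ 0 := by
    intro l
    obtain ⟨v, hv, h1⟩ := hAp l l
    have h2 : ∀ᶠ z in 𝓝[≠] (0 : ℂ), A l l z = v z := by
      filter_upwards [h1, hAan l l, hv.eventually_analyticAt] with z h2 h3 h4
      exact tendsto_nhds_unique_of_eventuallyEq (h3.continuousAt.tendsto.mono_left nhdsWithin_le_nhds) (h4.continuousAt.tendsto.mono_left nhdsWithin_le_nhds) h2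
    rcases hv.eventually_eq_zero_or_eventually_ne_zero with h3 | h3
    · left
      filter_upwards [h2, h3, hAll l, T.val j] with z h4 h5 h6 h7
      rw [h4, h5] at h6
      have h8 := h6.symm
      rw [div_eq_zero_iff] at h8
      exact (pow_eq_zero_iff T.pos.ne').1 (h8.resolve_right h7)
    · right
      filter_upwards [h2, h3, hAll l] with z h4 h5 h6 h7
      rw [h7, zero_pow T.pos.ne', zero_div, h4] at h6
      exact h5 h6
  obtain ⟨l, hl⟩ : ∃ l, ∀ᶠ z in 𝓝[≠] (0 : ℂ), w l z ≠ 0 := by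
    by_contra hcon
    push Not at hcon
    have h1 : ∀ l, ∀ᶠ z in 𝓝[≠] (0 : ℂ), w l z = 0 := fun l => (hdich l).resolve_right (hcon l)
    obtain ⟨z, h2, i, h3⟩ := ((Filter.eventually_all.2 h1).and T.ne).exists
    exact h3 (h2 i)
  refine ⟨l, hl, fun k => ?_⟩
  have h1 : PunctMero fun z => A k l z * (A l l z)⁻¹ := (hAp k l).mul (hAp l l).inv
  have h2 : Md fun z => A k l z * (A l l z)⁻¹ := by
    refine Md.of_punct h1 ?_
    filter_upwards [hAan k l, hAan l l, hAll l, hl, T.val j] with z h3 h4 h5 h6 h7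
    refine h3.continuousAt.mul (h4.continuousAt.inv₀ ?_)
    rw [h5]
    exact div_ne_zero (pow_ne_zero _ h6) h7
  refine h2.congr ?_
  filter_upwards [hAll l, hl, T.val j] with z h5 h6 h7
  refine le_of_eq ?_
  congr 1
  rw [h5, hA]
  simp only
  have h8 : w l z ^ e = w l z ^ (e - 1) * w l z := by
    rw [← pow_succ]
    congr 1
    have := T.pos
    omega
  rw [h8]
  have h9 : w l z ^ (e - 1) ≠ 0 := pow_ne_zero _ h6
  field_simp

/-- moderate growth and the substitution `τ ^ M` -/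
theorem Md.of_pow {f : ℂ → ℂ} {M : ℕ} (hM : 0 < M) (hf : Md fun τ => f (τ ^ M)) : Md f := by
  obtain ⟨K, C, h1⟩ := hf
  refine ⟨K, C, ?_⟩
  obtain ⟨R, hR, h2⟩ := pd_of_ev h1
  have hr : 0 < (min R 1) ^ M := by positivity
  filter_upwards [ev_small hr] with z hz
  obtain ⟨τ, hτ⟩ := IsAlgClosed.exists_pow_nat_eq z hM
  have h3 : ‖τ‖ ^ M = ‖z‖ := by rw [← norm_pow, hτ]
  have h4 : ‖τ‖ < min R 1 := by
    rw [← h3] at hz
    exact lt_of_pow_lt_pow_left₀ M (by positivity) hz.2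
  have h5 : 0 < ‖τ‖ := by
    rcases eq_or_lt_of_le (norm_nonneg τ) with h6 | h6
    · rw [← h3, ← h6, zero_pow hM.ne'] at hz
      exact absurd hz.1 (lt_irrefl _)
    · exact h6
  have h6 := h2 τ ⟨h5, h4.trans_le (min_le_left _ _)⟩
  simp only [hτ] at h6
  refine le_trans ?_ h6
  refine mul_le_mul_of_nonneg_right ?_ (norm_nonneg _)
  refine pow_le_pow_left₀ (norm_nonneg _) ?_ K
  rw [← h3]
  exact pow_le_of_le_one h5.le (h4.le.trans (min_le_right _ _)) hM.ne'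

end Pool.Agent.HE

end

section

/-!
# HE Pun: curves in a degenerating family

Over the points `z ≠ 0` near `0` the zeros of `F z` in the zero set of the `G i z` contain the zeros of `2 κ + 1` forms of degree `e`, any `κ + 1` of which have no common zero.  If the curve `w` in projective space, holomorphic near the puncture, lies in the zeros of the `G i` and outside the zeros of `F` then the quotients of its
coordinates have moderate growth (`punct_coord`).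
-/

set_option autoImplicit false

open Topology Filter Metric MvPolynomial

namespace Pool.Agent.HE

theorem ev_of_pow {p : ℂ → Prop} {M : ℕ} (hM : 0 < M) (h : ∀ᶠ τ in 𝓝[≠] (0 : ℂ), p (τ ^ M)) : ∀ᶠ z in 𝓝[≠] (0 : ℂ), p z := by
  obtain ⟨R, hR, h2⟩ := pd_of_ev h
  have hr : 0 < R ^ M := by positivity
  filter_upwards [ev_small hr] with z hz
  obtain ⟨τ, hτ⟩ := IsAlgClosed.exists_pow_nat_eq z hM
  have h3 : ‖τ‖ ^ M = ‖z‖ := by rw [← norm_pow, hτ]
  have h4 : ‖τ‖ < R := by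
    rw [← h3] at hz
    exact lt_of_pow_lt_pow_left₀ M hR.le hz.2
  have h5 : 0 < ‖τ‖ := by
    rcases eq_or_lt_of_le (norm_nonneg τ) with h6 | h6
    · rw [← h3, ← h6, zero_pow hM.ne'] at hz
      exact absurd hz.1 (lt_irrefl _)
    · exact h6
  have h6 := h2 τ ⟨h5, h4⟩
  rwa [hτ] at h6

theorem map_hc {σ R S : Type*} [CommRing R] [CommRing S] (f : R →+* S) (n : ℕ) (p : MvPolynomial σ R) : (homogeneousComponent n p).map f = homogeneousComponent n (p.map f) := by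
  ext α
  rw [coeff_map, coeff_homogeneousComponent, coeff_homogeneousComponent, coeff_map]
  split_ifs
  · rfl
  · exact map_zero f

theorem punct_coord {N κ e g : ℕ} (he : 0 < e) (G : Fin g → MvPolynomial (Fin (N + 1)) MF) (dg : Fin g → ℕ) (hG : ∀ i, ∀ᶠ z in 𝓝[≠] (0 : ℂ), ((G i).map (ev z)).IsHomogeneous (dg i)) (F : MvPolynomial (Fin (N + 1)) MF)
    (w : Fin (N + 1) → ℂ → ℂ) (hw : ∀ᶠ z in 𝓝[≠] (0 : ℂ), Pa w z) (hw0 : ∀ᶠ z in 𝓝[≠] (0 : ℂ), ∃ i, w i z ≠ 0)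
    (hwG : ∀ i, ∀ᶠ z in 𝓝[≠] (0 : ℂ), eval (fun j => w j z) ((G i).map (ev z)) = 0) (hwF : ∀ᶠ z in 𝓝[≠] (0 : ℂ), eval (fun j => w j z) (F.map (ev z)) ≠ 0)
    (hQ : ∀ᶠ z in 𝓝[≠] (0 : ℂ), ∃ q : Fin (2 * κ + 1) → MvPolynomial (Fin (N + 1)) ℂ, (∀ s, (q s).IsHomogeneous e) ∧
      (∀ s x, x ≠ 0 → (∀ i, eval x ((G i).map (ev z)) = 0) → eval x (q s) = 0 → eval x (F.map (ev z)) = 0) ∧
      ∀ S : Finset (Fin (2 * κ + 1)), S.card = κ + 1 → ∀ x, (∀ i, eval x ((G i).map (ev z)) = 0) → (∀ s ∈ S, eval x (q s) = 0) → x = 0) :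
    ∃ l, (∀ᶠ z in 𝓝[≠] (0 : ℂ), w l z ≠ 0) ∧ ∀ k, Md fun z => w k z / w l z := by
  classical
  obtain ⟨q, hq⟩ : ∃ q : ℂ → Fin (2 * κ + 1) → MvPolynomial (Fin (N + 1)) ℂ, ∀ᶠ z in 𝓝[≠] (0 : ℂ), (∀ s, (q z s).IsHomogeneous e) ∧
      (∀ s x, x ≠ 0 → (∀ i, eval x ((G i).map (ev z)) = 0) → eval x (q z s) = 0 → eval x (F.map (ev z)) = 0) ∧
      ∀ S : Finset (Fin (2 * κ + 1)), S.card = κ + 1 → ∀ x, (∀ i, eval x ((G i).map (ev z)) = 0) → (∀ s ∈ S, eval x (q z s) = 0) → x = 0 := by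
    have h1 : ∀ z : ℂ, ∃ q : Fin (2 * κ + 1) → MvPolynomial (Fin (N + 1)) ℂ, (∃ q : Fin (2 * κ + 1) → MvPolynomial (Fin (N + 1)) ℂ, (∀ s, (q s).IsHomogeneous e) ∧
      (∀ s x, x ≠ 0 → (∀ i, eval x ((G i).map (ev z)) = 0) → eval x (q s) = 0 → eval x (F.map (ev z)) = 0) ∧
      ∀ S : Finset (Fin (2 * κ + 1)), S.card = κ + 1 → ∀ x, (∀ i, eval x ((G i).map (ev z)) = 0) → (∀ s ∈ S, eval x (q s) = 0) → x = 0) → (∀ s, (q s).IsHomogeneous e) ∧
      (∀ s x, x ≠ 0 → (∀ i, eval x ((G i).map (ev z)) = 0) → eval x (q s) = 0 → eval x (F.map (ev z)) = 0) ∧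
      ∀ S : Finset (Fin (2 * κ + 1)), S.card = κ + 1 → ∀ x, (∀ i, eval x ((G i).map (ev z)) = 0) → (∀ s ∈ S, eval x (q s) = 0) → x = 0 := by
      intro z
      by_cases h : ∃ q : Fin (2 * κ + 1) → MvPolynomial (Fin (N + 1)) ℂ, (∀ s, (q s).IsHomogeneous e) ∧
      (∀ s x, x ≠ 0 → (∀ i, eval x ((G i).map (ev z)) = 0) → eval x (q s) = 0 → eval x (F.map (ev z)) = 0) ∧
      ∀ S : Finset (Fin (2 * κ + 1)), S.card = κ + 1 → ∀ x, (∀ i, eval x ((G i).map (ev z)) = 0) → (∀ s ∈ S, eval x (q s) = 0) → x = 0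
      · obtain ⟨q, hq⟩ := h
        exact ⟨q, fun _ => hq⟩
      · exact ⟨0, fun h' => absurd h' h⟩
    choose q hq using h1
    exact ⟨q, hQ.mono fun z hz => hq z hz⟩
  obtain ⟨M, hM, Q, hQh, hid⟩ := transfer_forms (T := (Fin (2 * κ + 1) × Fin (N + 1)) ⊕ ({S : Finset (Fin (2 * κ + 1)) // S.card = κ + 1} × Fin (N + 1))) (e := e) G (fun s z => q z s)
    (fun s => hq.mono fun z hz => hz.1 s) (Sum.elim (fun p => {p.1}) fun p => (p.1 : Finset (Fin (2 * κ + 1)))) (Sum.elim (fun p => X p.2 * F) fun p => X p.2) (by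
      rintro (s | p)
      · refine hq.mono fun z hz x h1 h2 => ?_
        rw [Sum.elim_inl, map_mul, map_X, map_mul, eval_X]
        by_cases hx : x = 0
        · rw [hx, Pi.zero_apply, zero_mul]
        · rw [hz.2.1 s.1 x hx h1 (h2 s.1 (Finset.mem_singleton_self _)), mul_zero]
      · refine hq.mono fun z hz x h1 h2 => ?_
        have h3 := hz.2.2 p.1 p.1.2 x h1 h2
        simp [h3])
  -- the data after the substitution
  have htp := tend_pow hM
  obtain ⟨w', hw'⟩ : ∃ w' : Fin (N + 1) → ℂ → ℂ, w' = fun i τ => w i (τ ^ M) := ⟨_, rfl⟩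
  have hG' : ∀ᶠ τ in 𝓝[≠] (0 : ℂ), ∀ i, ((G i).map (ev (τ ^ M))).IsHomogeneous (dg i) ∧ eval (fun j => w' j τ) ((G i).map (ev (τ ^ M))) = 0 := by
    rw [Filter.eventually_all]
    intro i
    filter_upwards [htp.eventually (hG i), htp.eventually (hwG i)] with τ h1 h2
    rw [hw']
    exact ⟨h1, h2⟩
  obtain ⟨Q', hQ'⟩ : ∃ Q' : Fin (2 * κ + 1) → MvPolynomial (Fin (N + 1)) MF, Q' = fun s => homogeneousComponent e (Q s) := ⟨_, rfl⟩
  have hQQ : ∀ᶠ τ in 𝓝[≠] (0 : ℂ), ∀ s, (Q' s).map (ev τ) = (Q s).map (ev τ) ∧ ((Q s).map (ev τ)).IsHomogeneous e := by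
    rw [Filter.eventually_all]
    intro s
    filter_upwards [hQh s] with τ h1
    refine ⟨?_, h1⟩
    rw [hQ']
    simp only
    rw [map_hc, homogeneousComponent_eq_self h1]
  have hT : TD κ e w' Q' := by
    refine ⟨?_, ?_, he, fun s => ?_, fun s => ?_, fun S hS => ?_⟩
    · filter_upwards [htp.eventually hw] with τ h1
      obtain ⟨φ, h2, h3⟩ := h1
      have h4 : ContinuousAt (fun τ : ℂ => τ ^ M) τ := (continuous_pow M).continuousAt
      refine ⟨fun i τ => φ i (τ ^ M), fun i => AnalyticAt.comp (f := fun τ : ℂ => τ ^ M) (h2 i) (analyticAt_id.pow M), ?_⟩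
      rw [hw']
      exact h4.eventually h3
    · filter_upwards [htp.eventually hw0] with τ h1
      rw [hw']
      exact h1
    · rw [hQ']
      exact homogeneousComponent_isHomogeneous _ _
    · have h0 : ∀ l, ∀ᶠ τ in 𝓝[≠] (0 : ℂ), va w' (Q' s) τ = 0 → w' l τ = 0 := by
        intro l
        obtain ⟨n, c, b, h1⟩ := hid (Sum.inl (s, l))
        filter_upwards [h1, hG', hQQ, htp.eventually hwF] with τ h2 h3 h4 h5
        have h6 := congrArg (eval fun j => w' j τ) h2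
        rw [map_add, map_sum, map_sum, Sum.elim_inl, Sum.elim_inl, Finset.sum_singleton, map_mul, map_pow, map_mul, map_X, map_mul, eval_X] at h6
        have h7 : ∑ i, eval (fun j => w' j τ) ((c i).map (ev τ) * (G i).map (ev (τ ^ M))) = 0 := by
          refine Finset.sum_eq_zero fun i _ => ?_
          rw [map_mul, (h3 i).2, mul_zero]
        rw [h7, zero_add] at h6
        unfold va
        rw [(h4 s).1]
        intro h8
        rw [h8, mul_zero] at h6
        rw [hw'] at h6 ⊢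
        have hn : n ≠ 0 := by
          rintro rfl
          rw [pow_zero] at h6
          exact zero_ne_one h6
        exact (mul_eq_zero.1 ((pow_eq_zero_iff hn).1 h6.symm)).resolve_right h5
      filter_upwards [Filter.eventually_all.2 h0, htp.eventually hw0] with τ h1 h2 h3
      obtain ⟨l, hl⟩ := h2
      apply hl
      have h4 := h1 l h3
      rw [hw'] at h4
      exact h4
    · have h1 : ∀ l, ∃ (n : ℕ) (c : Fin g → MvPolynomial (Fin (N + 1)) MF) (b : Fin (2 * κ + 1) → MvPolynomial (Fin (N + 1)) MF), ∀ᶠ τ in 𝓝[≠] (0 : ℂ),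
          ∑ i, (c i).map (ev τ) * (G i).map (ev (τ ^ M)) + ∑ s ∈ S, (b s).map (ev τ) * (Q s).map (ev τ) = (X l) ^ n := by
        intro l
        obtain ⟨n, c, b, h2⟩ := hid (Sum.inr (⟨S, hS⟩, l))
        refine ⟨n, c, b, h2.mono fun τ h3 => ?_⟩
        rw [Sum.elim_inr, Sum.elim_inr, map_X] at h3
        exact h3
      choose n c b h1 using h1
      obtain ⟨n', hn'⟩ : ∃ n', n' = ∑ l, n l + e := ⟨_, rfl⟩
      have hnl : ∀ l, n l ≤ n' := fun l => by
        have := Finset.single_le_sum (f := n) (fun _ _ => Nat.zero_le _) (Finset.mem_univ l)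
        omega
      refine ⟨n', by omega, by omega, fun l s => homogeneousComponent (n' - e) (X l ^ (n' - n l) * b l s), fun l s => homogeneousComponent_isHomogeneous _ _, fun l => ?_⟩
      filter_upwards [h1 l, hG', hQQ] with τ h2 h3 h4
      have h5 : ∑ i, (X l ^ (n' - n l) * (c l i).map (ev τ)) * (G i).map (ev (τ ^ M)) + ∑ s ∈ S, ((X l ^ (n' - n l) * b l s).map (ev τ)) * (Q s).map (ev τ) = (X l) ^ n' := by
        have h6 : (X l : MvPolynomial (Fin (N + 1)) ℂ) ^ n' = X l ^ (n' - n l) * X l ^ n l := by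
          rw [← pow_add, Nat.sub_add_cancel (hnl l)]
        rw [h6, ← h2, mul_add, Finset.mul_sum, Finset.mul_sum]
        congr 1
        · exact Finset.sum_congr rfl fun i _ => by ring
        · refine Finset.sum_congr rfl fun s _ => ?_
          rw [map_mul, map_pow, map_X]
          ring
      have h6 := congrArg (homogeneousComponent n') h5
      rw [homogeneousComponent_eq_self (isHomogeneous_X_pow l n'), map_add, map_sum, map_sum] at h6
      have h7 := congrArg (eval fun j => w' j τ) h6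
      rw [map_add, map_sum, map_sum, map_pow, eval_X] at h7
      have h8 : ∑ i, eval (fun j => w' j τ) (homogeneousComponent n' ((X l ^ (n' - n l) * (c l i).map (ev τ)) * (G i).map (ev (τ ^ M)))) = 0 := by
        refine Finset.sum_eq_zero fun i _ => ?_
        rcases Nat.lt_or_ge n' (dg i) with h9 | h9
        · rw [hc_mul_lt (h3 i).1 h9, map_zero]
        · have h10 := hc_mul (h3 i).1 (q := X l ^ (n' - n l) * (c l i).map (ev τ)) (n' - dg i)
          rw [Nat.sub_add_cancel h9] at h10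
          rw [h10, map_mul, (h3 i).2, mul_zero]
      rw [h8, zero_add] at h7
      rw [← h7]
      refine Finset.sum_congr rfl fun s _ => ?_
      unfold va
      have h10 := hc_mul (h4 s).2 (q := (X l ^ (n' - n l) * b l s).map (ev τ)) (n' - e)
      rw [Nat.sub_add_cancel (by omega)] at h10
      rw [h10, map_mul, map_hc, (h4 s).1]
  obtain ⟨l, hl, hk⟩ := hT.coord le_rfl
  rw [hw'] at hl hk
  exact ⟨l, ev_of_pow hM (p := fun z => w l z ≠ 0) hl, fun k => Md.of_pow hM (f := fun z => w k z / w l z) (hk k)⟩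

end Pool.Agent.HE

end
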