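import Pool.Agent.H94.PX4.HE.Ext
import Pool.Agent.H94.PX4.M79
import Pool.Agent.H94.PX4.M94
import Pool.Agent.H94.PX4.M95

/-! The parts of this file: HE.F.Fib, HE.F.Pun, HE.F.Main. -/

section

/-!
# HE F Fib: maps of the punctured disc, the component in the projective space
-/

set_option autoImplicit false

open Topology Filter Metric MvPolynomial

namespace Pool.Agent.HE

open Pool.Agent.H17 (PN VanishesAt HolomorphicInto puncturedDisc)
open Pool.Agent.H62.FC (PunctMero)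
open Pool.Agent.H36.BP (EN fs wd)
open Pool.Agent.H62.EF (MN pr)
open Pool.Agent.AD (Vd)
open Pool.Agent.TG (Lat Gd)
open Pool.Agent.G3 (wt LLift)
open Pool.Agent.PXF (Cn HolomorphicIntoTorus IsSimple IsCurveIn)
open Pool.Agent.HEF

variable {N k q r : ℕ} {Λ : AddSubgroup (Vd (k + 1))} {X : Set ((Cn (k + 1) ⧸ Λ) × PN N)} {F : Fin q → Cn (k + 1) → MvPolynomial (Fin (N + 1)) ℂ} {S : Set (Cn (k + 1) ⧸ Λ)}

/-- a form along a curve -/
theorem mf_form {U : Set (Vd (k + 1))} (hU : IsOpen U) {G : Vd (k + 1) → MvPolynomial (Fin (N + 1)) ℂ} {d : ℕ} (hG : IsHolomorphicForm U G d) {H : ℂ → Vd (k + 1)} (hH : AnalyticAt ℂ H 0) (h0 : H 0 ∈ U) :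
    ∃ G' : MvPolynomial (Fin (N + 1)) MF, ∀ᶠ z in 𝓝 (0 : ℂ), G'.map (ev z) = G (H z) := by
  classical
  have hc : ∀ α, AnalyticAt ℂ (fun z => (G (H z)).coeff α) 0 := by
    intro α
    have h1 : ∀ᶠ z in 𝓝 (0 : ℂ), DifferentiableAt ℂ (fun z => (G (H z)).coeff α) z := by
      filter_upwards [hH.eventually_analyticAt, hH.continuousAt.eventually (hU.mem_nhds h0)] with z h2 h3
      have h4 : DifferentiableAt ℂ (fun y => (G y).coeff α) (H z) := (hG.holomorphic α).differentiableAt (hU.mem_nhds h3)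
      exact DifferentiableAt.comp z h4 h2.differentiableAt
    exact Complex.analyticAt_iff_eventually_differentiableAt.2 h1
  refine ⟨∑ α ∈ Finset.finsuppAntidiag (Finset.univ : Finset (Fin (N + 1))) d, monomial α ⟨fun z => (G (H z)).coeff α, (hc α).meromorphicAt⟩, ?_⟩
  filter_upwards [hH.continuousAt.eventually (hU.mem_nhds h0)] with z hz
  ext β
  rw [map_sum, coeff_sum]
  simp only [map_monomial, coeff_monomial, ev_apply]
  rw [Finset.sum_ite_eq']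
  split_ifs with h1
  · rfl
  · by_contra h2
    apply h1
    rw [Finset.mem_finsuppAntidiag]
    have h3 := (hG.homogeneous (H z) hz) (Ne.symm h2)
    have h4 : Finsupp.weight (1 : Fin (N + 1) → ℕ) β = Finsupp.degree β := (congrFun (congrArg DFunLike.coe (Finsupp.degree_eq_weight_one (σ := Fin (N + 1)) (R := ℕ))) β).symm
    exact ⟨by rw [← h3, h4, Finsupp.degree_eq_sum], Finset.subset_univ _⟩

theorem fibre_ext (Hs : IsHyp Λ X F S) {H : ℂ → Vd (k + 1)} (hH : AnalyticAt ℂ H 0) (hH0 : (H 0 : Cn (k + 1) ⧸ Λ) ∈ S) {g : ℂ → PN N} (hg : HolomorphicInto g puncturedDisc)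
    (hT : ∀ᶠ z in 𝓝[≠] (0 : ℂ), ((H z : Cn (k + 1) ⧸ Λ), g z) ∈ outside Λ X F) (hS : ∀ᶠ z in 𝓝[≠] (0 : ℂ), (H z : Cn (k + 1) ⧸ Λ) ∉ S) :
    ∃ g' : ℂ → PN N, HolomorphicInto g' (ball 0 1) ∧ ∀ z ∈ puncturedDisc, g' z = g z := by
  classical
  obtain ⟨ρ, s, G, dG, hρ, hG, hX⟩ := Hs.analytic (H 0)
  have h1 : ∀ i, ∃ G' : MvPolynomial (Fin (N + 1)) MF, ∀ᶠ z in 𝓝 (0 : ℂ), G'.map (ev z) = G i (H z) := fun i => mf_form isOpen_ball (hG i) hH (mem_ball_self hρ)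
  have h2 : ∀ j, ∃ F' : MvPolynomial (Fin (N + 1)) MF, ∀ᶠ z in 𝓝 (0 : ℂ), F'.map (ev z) = F j (H z) := fun j => by
    obtain ⟨d, hd⟩ := sections_form Hs j
    exact mf_form isOpen_univ hd hH (Set.mem_univ _)
  choose G' hG' using h1
  choose F' hF' using h2
  choose dF hdF using sections_form Hs
  have hball : ∀ᶠ z in 𝓝 (0 : ℂ), H z ∈ ball (H 0) ρ := hH.continuousAt.eventually (isOpen_ball.mem_nhds (mem_ball_self hρ))
  have hGall : ∀ᶠ z in 𝓝[≠] (0 : ℂ), ∀ i, (G' i).map (ev z) = G i (H z) := (Filter.eventually_all.2 hG').filter_mono nhdsWithin_le_nhds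
  have hFall : ∀ᶠ z in 𝓝[≠] (0 : ℂ), ∀ j, (F' j).map (ev z) = F j (H z) := (Filter.eventually_all.2 hF').filter_mono nhdsWithin_le_nhds
  have hball' : ∀ᶠ z in 𝓝[≠] (0 : ℂ), H z ∈ ball (H 0) ρ := hball.filter_mono nhdsWithin_le_nhds
  have hpd : ∀ᶠ z in 𝓝[≠] (0 : ℂ), z ∈ puncturedDisc := by
    filter_upwards [nhdsWithin_le_nhds (isOpen_ball.mem_nhds (mem_ball_self (x := (0 : ℂ)) one_pos)), self_mem_nhdsWithin] with z h1 h2
    exact ⟨h1, h2⟩
  have hPa : ∀ᶠ z in 𝓝[≠] (0 : ℂ), Pa (fun i z => (g z).rep i) z := by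
    filter_upwards [hpd] with z hz
    obtain ⟨φ, h1, h2⟩ := hg z hz
    refine ⟨fun i ζ => φ ζ i, fun i => analyticAt_pi_iff.mp h1 i, ?_⟩
    filter_upwards [h2] with ζ hζ
    obtain ⟨h3, h4⟩ := hζ
    obtain ⟨a, ha⟩ := Projectivization.exists_smul_eq_mk_rep ℂ (φ ζ) h3
    refine ⟨a, a.ne_zero, fun i => ?_⟩
    rw [h4, ← ha]
    rfl
  obtain ⟨κ, e, he, hhyp⟩ := Hs.overSpecial (H 0) hH0
  have hhyp' : ∀ᶠ z in 𝓝[≠] (0 : ℂ), (H z : Cn (k + 1) ⧸ Λ) ∉ S → HasHypersurfaces Λ X F κ e (H z) := (hH.continuousAt.eventually hhyp).filter_mono nhdsWithin_le_nhds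
  obtain ⟨l, hl, hk⟩ := punct_coord (κ := κ) he G' dG (fun i => by
    filter_upwards [hGall, hball'] with z h1 h2
    rw [h1 i]
    exact (hG i).homogeneous _ h2) (∏ j, F' j) (fun i z => (g z).rep i) hPa (by
    refine Filter.Eventually.of_forall fun z => ?_
    by_contra hcon
    push Not at hcon
    exact (g z).rep_nonzero (funext hcon)) (fun i => by
    filter_upwards [hGall, hball', hT] with z h1 h2 h3
    rw [h1 i]
    exact (hX _ h2 (g z)).1 h3.1 i) (by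
    filter_upwards [hFall, hT] with z h1 h2
    rw [map_prod, map_prod]
    refine Finset.prod_ne_zero_iff.2 fun j _ => ?_
    rw [h1 j]
    exact h2.2 (H z) rfl j) (by
    filter_upwards [hGall, hFall, hball', hS, hhyp'] with z h1 h2 h3 h4 h5
    obtain ⟨Q, hQ, hQF, hgp⟩ := h5 h4
    have hmem : ∀ (x : Fin (N + 1) → ℂ) (hx : x ≠ 0), (∀ i, eval x ((G' i).map (ev z)) = 0) → ((H z : Cn (k + 1) ⧸ Λ), Projectivization.mk ℂ x hx) ∈ X := by
      intro x hx h5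
      refine (hX _ h3 _).2 fun i => ?_
      rw [van_mk ((hG i).homogeneous _ h3), ← h1 i]
      exact h5 i
    refine ⟨Q, hQ, fun s x hx h5 h6 => ?_, fun I hI x h5 h6 => ?_⟩
    · obtain ⟨j, hj⟩ := hQF s (Projectivization.mk ℂ x hx) (hmem x hx h5) (by
        rw [van_mk (hQ s)]
        exact h6)
      rw [van_mk ((hdF j).homogeneous _ (Set.mem_univ _))] at hj
      rw [map_prod, map_prod]
      exact Finset.prod_eq_zero (Finset.mem_univ j) (by rw [h2 j]; exact hj)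
    · by_contra hx
      obtain ⟨s, hs, h7⟩ := hgp I hI (Projectivization.mk ℂ x hx) (hmem x hx h5)
      rw [van_mk (hQ s)] at h7
      exact h7 (h6 s hs))
  refine Pool.Agent.H62.FC.exists_extension hg (i₀ := l) ?_ fun i => (hk i).punct ?_
  · filter_upwards [ev_ev hl] with z hz using hz.filter_mono nhdsWithin_le_nhds
  · have h3 := va_quo hPa (isHomogeneous_X MF i) (isHomogeneous_X MF l) (by
      filter_upwards [hl] with z hz
      unfold va
      rw [map_X, eval_X]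
      exact hz)
    filter_upwards [h3] with z hz
    have h4 : (fun z => (g z).rep i / (g z).rep l) = fun z => va (fun i z => (g z).rep i) (MvPolynomial.X i) z / va (fun i z => (g z).rep i) (MvPolynomial.X l) z := by
      funext ζ
      unfold va
      rw [map_X, map_X, eval_X, eval_X]
    rw [h4]
    exact hz

end Pool.Agent.HE

end

section

/-!
# HE F Pun: maps of the punctured disc
-/

set_option autoImplicit false

open Topology Filter Metric MvPolynomial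

namespace Pool.Agent.HE

open Pool.Agent.H17 (PN VanishesAt HolomorphicInto puncturedDisc)
open Pool.Agent.H62.FC (PunctMero)
open Pool.Agent.H36.BP (EN fs wd)
open Pool.Agent.H62.EF (MN pr)
open Pool.Agent.AD (Vd)
open Pool.Agent.TG (Lat Gd)
open Pool.Agent.G3 (wt LLift)
open Pool.Agent.PXF (Cn HolomorphicIntoTorus IsSimple IsCurveIn)
open Pool.Agent.PX (torus_disc torus_univ torus_half)
open Pool.Agent.HEF

variable {N k q r : ℕ} {Λ : AddSubgroup (Vd (k + 1))} {X : Set ((Cn (k + 1) ⧸ Λ) × PN N)} {F : Fin q → Cn (k + 1) → MvPolynomial (Fin (N + 1)) ℂ} {S : Set (Cn (k + 1) ⧸ Λ)}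

theorem dich (hS : IsAnalyticIn Λ S) {H : ℂ → Vd (k + 1)} (hH : DifferentiableOn ℂ H (ball 0 1)) {z₂ : ℂ} (hz₂ : z₂ ∈ ball (0 : ℂ) 1) (h2 : (H z₂ : Cn (k + 1) ⧸ Λ) ∉ S) :
    ∀ᶠ z in 𝓝[≠] (0 : ℂ), (H z : Cn (k + 1) ⧸ Λ) ∉ S := by
  have hloc : ∀ z₀ ∈ ball (0 : ℂ) 1, (∀ᶠ z in 𝓝 z₀, (H z : Cn (k + 1) ⧸ Λ) ∈ S) ∨ ∀ᶠ z in 𝓝[≠] z₀, (H z : Cn (k + 1) ⧸ Λ) ∉ S := by
    intro z₀ hz₀
    have hHa : AnalyticAt ℂ H z₀ := hH.analyticAt (isOpen_ball.mem_nhds hz₀)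
    obtain ⟨s, f, hf, h3⟩ := hS (H z₀)
    have h4 : ∀ᶠ z in 𝓝 z₀, ((H z : Cn (k + 1) ⧸ Λ) ∈ S ↔ ∀ i, f i (H z) = 0) := hHa.continuousAt.eventually h3
    have h5 : ∀ i, AnalyticAt ℂ (fun z => f i (H z)) z₀ := fun i => AnalyticAt.fun_comp (hf i) hHa
    by_cases h6 : ∀ i, ∀ᶠ z in 𝓝 z₀, f i (H z) = 0
    · left
      filter_upwards [h4, Filter.eventually_all.2 h6] with z h7 h8 using h7.2 h8
    · right
      push Not at h6
      obtain ⟨i, hi⟩ := h6
      have h7 := (h5 i).eventually_eq_zero_or_eventually_ne_zero.resolve_left (by rw [Filter.not_eventually]; exact hi)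
      filter_upwards [h7, h4.filter_mono nhdsWithin_le_nhds] with z h8 h9 h10
      exact h8 (h9.1 h10 i)
  by_contra hcon
  have h0 := (hloc 0 (mem_ball_self one_pos)).resolve_right hcon
  have hsub : ball (0 : ℂ) 1 ⊆ {z | ∀ᶠ z' in 𝓝 z, (H z' : Cn (k + 1) ⧸ Λ) ∈ S} := by
    refine (convex_ball (0 : ℂ) 1).isPreconnected.subset_of_closure_inter_subset isOpen_setOfPred_eventually_nhds ⟨0, mem_ball_self one_pos, h0⟩ ?_
    rintro z₀ ⟨h3, h4⟩
    rcases hloc z₀ h4 with h5 | h5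
    · exact h5
    · by_contra h6
      rw [mem_closure_iff_frequently] at h3
      have h7 : ∀ᶠ z in 𝓝 z₀, z ≠ z₀ → (H z : Cn (k + 1) ⧸ Λ) ∉ S := eventually_nhdsWithin_iff.1 h5
      obtain ⟨z, h8, h9⟩ := (h3.and_eventually h7).exists
      have h10 : z ≠ z₀ := by
        rintro rfl
        exact h6 h8
      have h11 : ∀ᶠ z' in 𝓝 z, (H z' : Cn (k + 1) ⧸ Λ) ∈ S := h8
      exact h9 h10 h11.self_of_nhds
  have h3 : ∀ᶠ z' in 𝓝 z₂, (H z' : Cn (k + 1) ⧸ Λ) ∈ S := hsub hz₂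
  exact h2 h3.self_of_nhds

/-- composition of a holomorphic map to the projective space with a holomorphic function -/
private theorem Pun_comp {g : ℂ → PN N} {U V : Set ℂ} (hg : HolomorphicInto g U) {φ : ℂ → ℂ} (hφ : ∀ z ∈ V, AnalyticAt ℂ φ z ∧ φ z ∈ U) :
    HolomorphicInto (fun z => g (φ z)) V := by
  intro z₀ hz₀
  obtain ⟨h1, h2⟩ := hφ z₀ hz₀
  obtain ⟨ψ, hψ, he⟩ := hg (φ z₀) h2
  exact ⟨fun z => ψ (φ z), hψ.comp h1, h1.continuousAt.eventually he⟩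

/-- the component in the torus, on a slightly smaller disc -/
private theorem Pun_base (hΛ : Lat Λ) (Hs : IsHyp Λ X F S) {t : ℂ → Cn (k + 1) ⧸ Λ} {g : ℂ → PN N} (hc : IsCurveIn Λ (outside Λ X F) t g puncturedDisc) {ε : ℝ} (hε : 0 < ε) :
    ∃ H : ℂ → Vd (k + 1), DifferentiableOn ℂ H (ball 0 1) ∧ ∀ z ∈ puncturedDisc, t (Complex.exp (-(ε : ℂ)) * z) = (H z : Cn (k + 1) ⧸ Λ) := by
  obtain ⟨r, W, d, P⟩ := hd_of hΛ Hs
  obtain ⟨h, hh, ht⟩ := torus_half hΛ hc.torus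
  have hmem : ∀ ζ : ℂ, ζ.re < 0 → Complex.exp ζ ∈ puncturedDisc := by
    intro ζ hζ
    refine ⟨?_, Complex.exp_ne_zero ζ⟩
    rw [mem_ball_zero_iff, Complex.norm_exp]
    exact (Real.exp_lt_exp.2 hζ).trans_eq Real.exp_zero
  have hre : ∀ ζ : ℂ, (ζ - (ε : ℂ)).re = ζ.re - ε := by
    intro ζ
    rw [Complex.sub_re, Complex.ofReal_re]
  obtain ⟨H, hH, hH2⟩ := P.base_ext (h := fun ζ => h (ζ - ε)) (by
    intro ζ hζ
    have hsub : ∀ z ∈ ball ζ (-ζ.re + ε), (z - (ε : ℂ)).re < 0 := by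
      intro z hz
      rw [hre]
      rw [mem_ball, dist_eq_norm] at hz
      have h1 := Complex.re_le_norm (z - ζ)
      rw [Complex.sub_re] at h1
      linarith
    have hd : DifferentiableOn ℂ (fun z => h (z - ε)) (ball ζ (-ζ.re + ε)) := by
      refine hh.comp (by fun_prop) ?_
      intro z hz
      exact hsub z hz
    have hg : HolomorphicInto (fun z => g (Complex.exp (z - ε))) (ball ζ (-ζ.re + ε)) := by
      refine Pun_comp hc.proj ?_
      intro z hz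
      refine ⟨?_, hmem _ (hsub z hz)⟩
      fun_prop
    obtain ⟨w, hw, hwg⟩ := lift_disc hg (show -ζ.re / 2 < -ζ.re + ε by linarith)
    have hsb : ball ζ (-ζ.re / 2) ⊆ ball ζ (-ζ.re + ε) := ball_subset_ball (by linarith)
    exact ⟨w, cw_of (t := fun z => t (Complex.exp (z - ε))) (sections_form Hs) (fun z hz => hc.mem _ (hmem _ (hsub z (hsb hz)))) (hd.mono hsb) (fun z hz => ht _ (hsub z (hsb hz))) hw hwg⟩) (by
    intro ζ hζ
    have h1 : (ζ - (ε : ℂ)).re < 0 := by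
      rw [hre]
      linarith
    have h2 : (ζ + 2 * Real.pi * Complex.I - (ε : ℂ)).re < 0 := by
      rw [hre]
      simp
      linarith
    have h3 := ht _ h1
    have h4 := ht _ h2
    have h5 : Complex.exp (ζ + 2 * Real.pi * Complex.I - ε) = Complex.exp (ζ - ε) := by
      rw [show ζ + 2 * Real.pi * Complex.I - (ε : ℂ) = (ζ - ε) + 2 * Real.pi * Complex.I by ring, Complex.exp_periodic]
    rw [h5, h3, QuotientAddGroup.eq] at h4
    have h6 : h (ζ + 2 * Real.pi * Complex.I - ε) - h (ζ - ε) = -h (ζ - ε) + h (ζ + 2 * Real.pi * Complex.I - ε) := by abel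
    show h (ζ + 2 * Real.pi * Complex.I - ε) - h (ζ - ε) ∈ Λ
    rw [h6]
    exact h4)
  refine ⟨H, hH, ?_⟩
  rintro z ⟨hz, hz0⟩
  have hz0' : z ≠ 0 := hz0
  have hlog : (Complex.log z).re < 0 := by
    rw [Complex.log_re]
    exact Real.log_neg (norm_pos_iff.2 hz0') (mem_ball_zero_iff.1 hz)
  have h1 := hH2 _ hlog
  rw [Complex.exp_log hz0'] at h1
  have h2 : Complex.exp (-(ε : ℂ)) * z = Complex.exp (Complex.log z - ε) := by
    rw [sub_eq_add_neg, Complex.exp_add, Complex.exp_log hz0', mul_comm]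
  have h3 : (Complex.log z - (ε : ℂ)).re < 0 := by
    rw [hre]
    linarith
  rw [h2, ht _ h3, ← h1]

theorem punctured (hΛ : Lat Λ) (Hs : IsHyp Λ X F S) (t : ℂ → Cn (k + 1) ⧸ Λ) (g : ℂ → PN N) (hc : IsCurveIn Λ (outside Λ X F) t g puncturedDisc) :
    (∃ t' : ℂ → Cn (k + 1) ⧸ Λ, HolomorphicIntoTorus Λ t' (ball 0 1) ∧ ∀ z ∈ puncturedDisc, t' z = t z) ∧
    ((∃ z ∈ puncturedDisc, t z ∉ S) → ∃ g' : ℂ → PN N, HolomorphicInto g' (ball 0 1) ∧ ∀ z ∈ puncturedDisc, g' z = g z) := by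
  classical
  have hexp : ∀ ε : ℝ, Complex.exp (-(ε : ℂ)) * Complex.exp (ε : ℂ) = 1 := by
    intro ε
    rw [← Complex.exp_add, neg_add_cancel, Complex.exp_zero]
  have hcancel : ∀ (ε : ℝ) (z : ℂ), Complex.exp (-(ε : ℂ)) * (Complex.exp (ε : ℂ) * z) = z := by
    intro ε z
    rw [← mul_assoc, hexp, one_mul]
  have hnorm : ∀ (ε : ℝ) (z : ℂ), ‖Complex.exp (ε : ℂ) * z‖ = Real.exp ε * ‖z‖ := by
    intro ε z
    rw [norm_mul, Complex.norm_exp, Complex.ofReal_re]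
  have hnhds : ∀ (ε ρ : ℝ), 0 < ρ → ∀ᶠ z : ℂ in 𝓝 0, Complex.exp (ε : ℂ) * z ∈ ball (0 : ℂ) ρ := by
    intro ε ρ hρ
    have h1 : ContinuousAt (fun z : ℂ => Complex.exp (ε : ℂ) * z) 0 := by fun_prop
    have h2 : ball (0 : ℂ) ρ ∈ 𝓝 ((fun z : ℂ => Complex.exp (ε : ℂ) * z) 0) := by
      simp only [mul_zero]
      exact ball_mem_nhds 0 hρ
    exact h1 h2
  have hne : ∀ (ε : ℝ) (z : ℂ), z ≠ 0 → Complex.exp (ε : ℂ) * z ≠ 0 := fun ε z hz => mul_ne_zero (Complex.exp_ne_zero _) hz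
  constructor
  · obtain ⟨H, hH, hHt⟩ := Pun_base hΛ Hs hc (zero_lt_one (α := ℝ))
    refine ⟨fun z => if z = 0 then (H 0 : Cn (k + 1) ⧸ Λ) else t z, ?_, ?_⟩
    · intro z₀ hz₀
      by_cases h0 : z₀ = 0
      · subst h0
        refine ⟨fun z => H (Complex.exp ((1 : ℝ) : ℂ) * z), ?_, ?_⟩
        · have h1 : AnalyticAt ℂ H (Complex.exp ((1 : ℝ) : ℂ) * 0) := by
            rw [mul_zero]
            exact hH.analyticAt (ball_mem_nhds 0 one_pos)
          exact AnalyticAt.fun_comp h1 (by fun_prop)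
        · filter_upwards [hnhds 1 1 one_pos] with z hz
          by_cases hz0 : z = 0
          · subst hz0
            simp
          · rw [if_neg hz0, ← hHt _ ⟨hz, hne 1 z hz0⟩, hcancel]
      · obtain ⟨h, hh, he⟩ := hc.torus z₀ ⟨hz₀, h0⟩
        refine ⟨h, hh, ?_⟩
        filter_upwards [he, isOpen_ne.mem_nhds h0] with z hz hz0
        rw [if_neg hz0, hz]
    · intro z hz
      exact if_neg hz.2
  · rintro ⟨z₁, hz₁, h3⟩
    have hz₁0 : z₁ ≠ 0 := hz₁.2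
    have hz₁n : ‖z₁‖ < 1 := mem_ball_zero_iff.1 hz₁.1
    have hz₁p : 0 < ‖z₁‖ := norm_pos_iff.2 hz₁0
    set ε : ℝ := -Real.log ‖z₁‖ / 2 with hεd
    have hε : 0 < ε := by
      have := Real.log_neg hz₁p hz₁n
      linarith
    obtain ⟨H, hH, hHt⟩ := Pun_base hΛ Hs hc hε
    set z₂ : ℂ := Complex.exp (ε : ℂ) * z₁ with hz₂
    have hz₂0 : z₂ ≠ 0 := hne ε z₁ hz₁0
    have hz₂b : z₂ ∈ ball (0 : ℂ) 1 := by
      rw [mem_ball_zero_iff, hz₂, hnorm]
      have h1 : ‖z₁‖ = Real.exp (-(2 * ε)) := by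
        rw [hεd, show -(2 * (-Real.log ‖z₁‖ / 2)) = Real.log ‖z₁‖ by ring, Real.exp_log hz₁p]
      rw [h1, ← Real.exp_add]
      exact (Real.exp_lt_exp.2 (show ε + -(2 * ε) < 0 by linarith)).trans_eq Real.exp_zero
    have hS2 : (H z₂ : Cn (k + 1) ⧸ Λ) ∉ S := by
      rw [← hHt z₂ ⟨hz₂b, hz₂0⟩, hz₂, hcancel]
      exact h3
    have hev := dich Hs.special hH hz₂b hS2
    -- the curve in the torus near `0`
    have hscale : Tendsto (fun z : ℂ => Complex.exp (ε : ℂ) * z) (𝓝[≠] 0) (𝓝[≠] 0) := by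
      refine tendsto_nhdsWithin_iff.2 ⟨?_, ?_⟩
      · have h1 : ContinuousAt (fun z : ℂ => Complex.exp (ε : ℂ) * z) 0 := by fun_prop
        have h2 := h1.tendsto
        simp only [mul_zero] at h2
        exact h2.mono_left nhdsWithin_le_nhds
      · filter_upwards [self_mem_nhdsWithin] with z hz using hne ε z hz
    have hHa : AnalyticAt ℂ (fun z => H (Complex.exp (ε : ℂ) * z)) 0 := by
      have h1 : AnalyticAt ℂ H (Complex.exp (ε : ℂ) * 0) := by
        rw [mul_zero]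
        exact hH.analyticAt (ball_mem_nhds 0 one_pos)
      exact AnalyticAt.fun_comp h1 (by fun_prop)
    -- the curve on a punctured disc
    have hρ : 0 < Real.exp (-ε) := Real.exp_pos _
    have hρ1 : Real.exp (-ε) < 1 := Real.exp_lt_one_iff.2 (by linarith)
    have hin : ∀ z ∈ ball (0 : ℂ) (Real.exp (-ε)), Complex.exp (ε : ℂ) * z ∈ ball (0 : ℂ) 1 := by
      intro z hz
      rw [mem_ball_zero_iff] at hz ⊢
      rw [hnorm]
      calc Real.exp ε * ‖z‖ < Real.exp ε * Real.exp (-ε) := mul_lt_mul_of_pos_left hz (Real.exp_pos _)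
        _ = 1 := by rw [← Real.exp_add, add_neg_cancel, Real.exp_zero]
    have hTρ : ∀ z ∈ ball (0 : ℂ) (Real.exp (-ε)) \ {0}, ((H (Complex.exp (ε : ℂ) * z) : Cn (k + 1) ⧸ Λ), g z) ∈ outside Λ X F := by
      rintro z ⟨h1, h4⟩
      have h5 := hHt _ ⟨hin z h1, hne ε z h4⟩
      rw [hcancel] at h5
      rw [← h5]
      exact hc.mem z ⟨ball_subset_ball hρ1.le h1, h4⟩
    by_cases hH0 : (H (Complex.exp (ε : ℂ) * 0) : Cn (k + 1) ⧸ Λ) ∈ S
    · refine fibre_ext Hs hHa hH0 hc.proj ?_ (hscale.eventually hev)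
      filter_upwards [nhdsWithin_le_nhds (ball_mem_nhds (0 : ℂ) hρ), self_mem_nhdsWithin] with z h1 h4
      exact hTρ z ⟨h1, h4⟩
    · refine fibre_off hΛ Hs (H := fun z => H (Complex.exp (ε : ℂ) * z)) hρ hρ1 ?_ hH0 hc.proj hTρ
      exact hH.comp (differentiable_id.const_mul (Complex.exp (ε : ℂ))).differentiableOn hin

end Pool.Agent.HE

end

section

/-!
# HE F Main: the theorem for `IsHyperbolicOff`
-/

set_option autoImplicit false

namespace Pool.Agent.HEF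

open Pool.Agent.H17 (PN VanishesAt HolomorphicInto)
open Pool.Agent.TG (Lat)
open Pool.Agent.PXF (Cn IsHyperbolicModulo)

variable {k m q : ℕ} {Λ : AddSubgroup (Cn (k + 1))} {X : Set ((Cn (k + 1) ⧸ Λ) × PN m)} {F : Fin q → Cn (k + 1) → MvPolynomial (Fin (m + 1)) ℂ} {S : Set (Cn (k + 1) ⧸ Λ)}

open Pool.Agent.HE (IsHyp)

theorem _root_.Pool.Agent.HE.IsHyp.hyperbolic (H : IsHyp Λ X F S) (hΛ : Lat Λ) : IsHyperbolicModulo Λ (outside Λ X F) S :=
  ⟨Pool.Agent.HE.discs hΛ H, Pool.Agent.HE.entire hΛ H, Pool.Agent.HE.punctured hΛ H⟩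

theorem _root_.Pool.Agent.HE.IsHyp.kobayashi (H : IsHyp Λ X F S) (hΛ : Lat Λ) : KobayashiPositive Λ (outside Λ X F) S := Pool.Agent.HE.kobayashi hΛ H

end Pool.Agent.HEF

end
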